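import Pool.Agent.Y978.GS.GNN
import Pool.Agent.TH122.AB.Nu

/-!
Noether normalization by linear forms in given functions, over all places.
-/

set_option autoImplicit false
set_option linter.overlappingInstances false
set_option linter.unusedSectionVars false

open FF Pool.Agent.W603.LV Pool.Agent.Y978.GS Pool.Agent.Y234.GS

namespace Pool.Agent.R885

open scoped IntermediateField.algebraAdjoinAdjoin in
theorem basis_of_alg {k L ι : Type} [Field k] [Field L] [Algebra k L] [Fintype ι] {y : ι → L}
    (halg : Algebra.IsAlgebraic (IntermediateField.adjoin k (Set.range y)) L)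
    (htr : Algebra.trdeg k L = (Fintype.card ι : ℕ)) : IsTranscendenceBasis k y := by
  have h1 : Algebra.IsAlgebraic (Algebra.adjoin k (Set.range y)) L :=
    (IsFractionRing.comap_isAlgebraic_iff (A := Algebra.adjoin k (Set.range y))
      (K := IntermediateField.adjoin k (Set.range y)) (C := L)).2 halg
  exact Algebra.IsAlgebraic.isTranscendenceBasis_of_le_trdeg_of_finite k y (by rw [htr]; simp)

section

variable {k K ι : Type} [Field k] [Field K] [Algebra k K] [Fintype ι]

theorem aeval_hom (u : ι → K) {G : MvPolynomial ι k} {d : ℕ} (hG : G.IsHomogeneous d) :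
    MvPolynomial.aeval (fun b => Polynomial.C (u b) * (Polynomial.X : Polynomial K)) G =
      Polynomial.C (MvPolynomial.aeval u G) * Polynomial.X ^ d := by
  rw [MvPolynomial.aeval_def, MvPolynomial.eval₂_eq', MvPolynomial.aeval_def,
    MvPolynomial.eval₂_eq', map_sum, Finset.sum_mul]
  refine Finset.sum_congr rfl fun m hm => ?_
  have h1 : ∑ i, m i = d := by
    rw [hG.degree_eq_sum_deg_support hm]
    exact (Finset.sum_subset (Finset.subset_univ _) (fun i _ hi => by simpa using hi)).symm
  have h2 : ∏ i, (Polynomial.C (u i) * (Polynomial.X : Polynomial K)) ^ m i =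
      Polynomial.C (∏ i, u i ^ m i) * Polynomial.X ^ d := by
    simp only [mul_pow]
    rw [Finset.prod_mul_distrib, Finset.prod_pow_eq_pow_sum, h1, map_prod]
    congr 1
    exact Finset.prod_congr rfl fun i _ => by rw [map_pow]
  rw [h2, map_mul, mul_assoc]
  rfl

theorem coeff_aeval (u : ι → K) (G : MvPolynomial ι k) (d : ℕ) :
    (MvPolynomial.aeval (fun b => Polynomial.C (u b) * (Polynomial.X : Polynomial K)) G).coeff d =
      MvPolynomial.aeval u (MvPolynomial.homogeneousComponent d G) := by
  conv_lhs => rw [← MvPolynomial.sum_homogeneousComponent G]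
  rw [map_sum, Polynomial.finsetSum_coeff]
  simp only [aeval_hom u (MvPolynomial.homogeneousComponent_isHomogeneous _ G),
    Polynomial.coeff_C_mul, Polynomial.coeff_X_pow]
  by_cases hd : d ≤ G.totalDegree
  · rw [Finset.sum_eq_single d]
    · simp
    · intro i _ hi
      rw [if_neg (Ne.symm hi), mul_zero]
    · intro h
      exact absurd (Finset.mem_range.2 (by omega)) h
  · rw [MvPolynomial.homogeneousComponent_eq_zero _ _ (by omega), map_zero]
    refine Finset.sum_eq_zero fun i hi => ?_
    rw [if_neg, mul_zero]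
    rw [Finset.mem_range] at hi
    omega

/-- the functions times a variable -/
noncomputable def zz (u : ι → K) (b : ι) : RatFunc K :=
  algebraMap (Polynomial K) (RatFunc K) (Polynomial.C (u b) * Polynomial.X)

theorem aeval_zz (u : ι → K) (G : MvPolynomial ι k) : MvPolynomial.aeval (zz u) G =
    algebraMap (Polynomial K) (RatFunc K)
      (MvPolynomial.aeval (fun b => Polynomial.C (u b) * (Polynomial.X : Polynomial K)) G) :=
  MvPolynomial.aeval_algebraMap_apply _ _ _

theorem trdeg_ratFunc {n : ℕ} (htr : Algebra.trdeg k K = n) :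
    Algebra.trdeg k (RatFunc K) = (n + 1 : ℕ) := by
  have h1 : Algebra.trdeg K (Polynomial K) = 1 := Polynomial.trdeg_of_isDomain
  have h2 : Algebra.IsAlgebraic (Polynomial K) (RatFunc K) :=
    IsLocalization.isAlgebraic _ (nonZeroDivisors (Polynomial K))
  have h3 : Algebra.trdeg (Polynomial K) (RatFunc K) = 0 := trdeg_eq_zero
  have h4 := trdeg_add_eq k K (A := Polynomial K)
  have h5 := trdeg_add_eq k (Polynomial K) (A := RatFunc K)
  rw [h3, add_zero, ← h4, htr, h1] at h5
  rw [← h5]
  push_cast
  rfl

theorem model_zz {u : ι → K} (hu : ∀ b, u b ≠ 0) {b0 : ι} (hb0 : u b0 = 1)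
    (hgen : IntermediateField.adjoin k (Set.range u) = ⊤) : Model k (zz u) := by
  have hX : (algebraMap (Polynomial K) (RatFunc K) Polynomial.X) ≠ 0 := by
    rw [Ne, map_eq_zero_iff _ (IsFractionRing.injective (Polynomial K) (RatFunc K))]
    exact Polynomial.X_ne_zero
  have hz0 : ∀ b, zz u b = algebraMap K (RatFunc K) (u b) * algebraMap (Polynomial K) (RatFunc K)
      Polynomial.X := by
    intro b
    unfold zz
    rw [map_mul]
    rfl
  refine ⟨fun b => ?_, fun G hG d => ?_, fun a => ?_⟩
  · rw [hz0]
    refine mul_ne_zero ?_ hX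
    simpa using hu b
  · rw [aeval_zz, map_eq_zero_iff _ (IsFractionRing.injective (Polynomial K) (RatFunc K))] at hG
    have h1 := coeff_aeval u G d
    rw [hG, Polynomial.coeff_zero] at h1
    rw [aeval_zz, aeval_hom u (MvPolynomial.homogeneousComponent_isHomogeneous _ G), ← h1, map_zero,
      zero_mul, map_zero]
  · -- generation
    have htop : a ∈ IntermediateField.adjoin k (Set.range (zz u)) := by
      obtain ⟨E, hE⟩ : ∃ E, E = IntermediateField.adjoin k (Set.range (zz u)) := ⟨_, rfl⟩
      rw [← hE]
      have hzE : ∀ b, zz u b ∈ E := fun b => by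
        rw [hE]
        exact IntermediateField.subset_adjoin _ _ ⟨b, rfl⟩
      have hXE : algebraMap (Polynomial K) (RatFunc K) Polynomial.X ∈ E := by
        have := hzE b0
        rwa [hz0, hb0, map_one, one_mul] at this
      have huE : ∀ b, algebraMap K (RatFunc K) (u b) ∈ E := by
        intro b
        have h1 : algebraMap K (RatFunc K) (u b) = zz u b / algebraMap (Polynomial K) (RatFunc K)
            Polynomial.X := by
          rw [hz0, mul_div_cancel_right₀ _ hX]
        rw [h1]
        exact div_mem (hzE b) hXE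
      have hKE : ∀ c : K, algebraMap K (RatFunc K) c ∈ E := by
        intro c
        have hc : c ∈ IntermediateField.adjoin k (Set.range u) := by
          rw [hgen]
          trivial
        have h1 : IntermediateField.adjoin k (Set.range u) ≤
            E.comap (IsScalarTower.toAlgHom k K (RatFunc K)) := by
          rw [IntermediateField.adjoin_le_iff]
          rintro _ ⟨b, rfl⟩
          exact huE b
        exact h1 hc
      have hPE : ∀ p : Polynomial K, algebraMap (Polynomial K) (RatFunc K) p ∈ E := by
        intro p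
        induction p using Polynomial.induction_on' with
        | add p q hp hq => rw [map_add]; exact add_mem hp hq
        | monomial m c =>
          rw [← Polynomial.C_mul_X_pow_eq_monomial, map_mul, map_pow]
          exact mul_mem (hKE c) (pow_mem hXE m)
      rw [← RatFunc.num_div_denom a]
      exact div_mem (hPE _) (hPE _)
    rw [IntermediateField.mem_adjoin_range_iff] at htop
    obtain ⟨G, H, hGH⟩ := htop
    by_cases hH : MvPolynomial.aeval (zz u) H = 0
    · refine ⟨0, 1, by simp, ?_⟩
      rw [hGH, hH, div_zero, zero_mul, map_zero]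
    · exact ⟨G, H, hH, by rw [hGH, div_mul_cancel₀ _ hH]⟩

/-- the powers of the space of linear forms -/
noncomputable def ph (N : ℕ) : K →ₗ[k] RatFunc K where
  toFun y := algebraMap (Polynomial K) (RatFunc K) (Polynomial.C y * Polynomial.X ^ N)
  map_add' a b := by rw [map_add, add_mul, map_add]
  map_smul' c a := by
    rw [RingHom.id_apply, Algebra.smul_def, Algebra.smul_def, map_mul Polynomial.C, mul_assoc,
      map_mul (algebraMap (Polynomial K) (RatFunc K))]
    rfl

theorem ph_mul (N M : ℕ) (a b : K) : ph (k := k) (N + M) (a * b) = ph (k := k) N a *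
    ph (k := k) M b := by
  change algebraMap (Polynomial K) (RatFunc K) _ = algebraMap (Polynomial K) (RatFunc K) _ *
    algebraMap (Polynomial K) (RatFunc K) _
  rw [← map_mul]
  congr 1
  rw [map_mul, pow_add]
  ring

theorem ph_inj (N : ℕ) : Function.Injective (ph (k := k) (K := K) N) := by
  intro a b hab
  have h1 : Polynomial.C a * (Polynomial.X : Polynomial K) ^ N =
      Polynomial.C b * Polynomial.X ^ N := IsFractionRing.injective (Polynomial K) (RatFunc K) hab
  have h2 := mul_right_cancel₀ (pow_ne_zero N Polynomial.X_ne_zero) h1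
  exact Polynomial.C_injective h2

theorem pow_zz (u : ι → K) (N : ℕ) :
    (VV k (zz u)) ^ N = Submodule.map (ph (k := k) N) ((VV k u) ^ N) := by
  induction N with
  | zero =>
    rw [pow_zero, pow_zero]
    ext a
    rw [Submodule.mem_one, Submodule.mem_map]
    constructor
    · rintro ⟨c, rfl⟩
      refine ⟨algebraMap k K c, Submodule.mem_one.2 ⟨c, rfl⟩, ?_⟩
      change algebraMap (Polynomial K) (RatFunc K) _ = _
      rw [pow_zero, mul_one]
      rfl
    · rintro ⟨y, hy, rfl⟩
      obtain ⟨c, rfl⟩ := Submodule.mem_one.1 hy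
      refine ⟨c, ?_⟩
      change _ = algebraMap (Polynomial K) (RatFunc K) _
      rw [pow_zero, mul_one]
      rfl
  | succ N ih =>
    rw [pow_succ, pow_succ, ih]
    have h1 : VV k (zz u) = Submodule.map (ph (k := k) 1) (VV k u) := by
      unfold VV
      rw [Submodule.map_span, ← Set.range_comp]
      congr 2
      funext b
      change _ = algebraMap (Polynomial K) (RatFunc K) _
      rw [pow_one]
      rfl
    rw [h1]
    apply le_antisymm
    · rw [Submodule.mul_le]
      rintro _ ⟨a, ha, rfl⟩ _ ⟨b, hb, rfl⟩
      rw [← ph_mul]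
      exact ⟨a * b, Submodule.mul_mem_mul ha hb, rfl⟩
    · rw [Submodule.map_le_iff_le_comap, Submodule.mul_le]
      intro a ha b hb
      rw [Submodule.mem_comap, ph_mul]
      exact Submodule.mul_mem_mul ⟨a, ha, rfl⟩ ⟨b, hb, rfl⟩

theorem pow_ge (P : Place k K) {u : ι → K} {μ : ℤ} (hμ : ∀ b, Ge P μ (u b)) (N : ℕ) {y : K}
    (hy : y ∈ (VV k u) ^ N) : Ge P (N * μ) y := by
  have hV : ∀ y ∈ VV k u, Ge P μ y := by
    intro y hy
    unfold VV at hy
    induction hy using Submodule.span_induction with
    | mem y hy =>
      obtain ⟨b, rfl⟩ := hy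
      exact hμ b
    | zero => exact Or.inl rfl
    | add a b _ _ ha hb => exact ha.add hb
    | smul c a _ ha =>
      rw [Algebra.smul_def]
      have := (Ge.const (P := P) c).mul ha
      simpa using this
  induction N generalizing y with
  | zero =>
    rw [pow_zero] at hy
    obtain ⟨c, rfl⟩ := Submodule.mem_one.1 hy
    simpa using Ge.const (P := P) c
  | succ N ih =>
    rw [pow_succ] at hy
    induction hy using Submodule.mul_induction_on' with
    | mem_mul_mem a ha b hb =>
      have := (ih ha).mul (hV b hb)
      rwa [show ((N + 1 : ℕ) : ℤ) * μ = N * μ + μ by push_cast; ring]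
    | add a _ b _ ha hb => exact ha.add hb

end

/-- **Noether normalization.** -/
theorem noether {k K ι : Type} [Field k] [CharZero k] [Field K] [Algebra k K] [Fintype ι]
    {u : ι → K} (hu : ∀ b, u b ≠ 0) {b0 : ι} (hb0 : u b0 = 1)
    (hgen : IntermediateField.adjoin k (Set.range u) = ⊤) {n : ℕ}
    (htr : Algebra.trdeg k K = (n : ℕ)) :
    ∃ v : Fin (n + 1) → ι → k, (∀ l, ∑ b, v l b • u b ≠ 0) ∧
      (∀ l0 : Fin (n + 1), IsTranscendenceBasis k fun j : Fin n =>
        (∑ b, v (l0.succAbove j) b • u b) / ∑ b, v l0 b • u b) ∧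
      ∀ (P : Place k K) (b : ι), ∃ l, P.ord (∑ b, v l b • u b) ≤ P.ord (u b) := by
  classical
  have hinf : Infinite k := inferInstance
  obtain ⟨⟨v, hi, hcov⟩, -⟩ := nnd nn k (RatFunc K) ι (zz u) (n + 1) (model_zz hu hb0 hgen)
    (trdeg_ratFunc htr)
  have hθ : ∀ l, ∑ b, v l b • zz u b = ph (k := k) 1 (∑ b, v l b • u b) := by
    intro l
    rw [map_sum]
    refine Finset.sum_congr rfl fun b _ => ?_
    rw [map_smul]
    congr 1
    change _ = algebraMap (Polynomial K) (RatFunc K) _
    rw [pow_one]
    rfl
  have hθ0 : ∀ l, ∑ b, v l b • zz u b ≠ 0 := fun l => hi.ne_zero l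
  have h0 : ∀ l, ∑ b, v l b • u b ≠ 0 := by
    intro l h
    apply hθ0 l
    rw [hθ, h, map_zero]
  refine ⟨v, h0, fun l0 => ?_, fun P b => ?_⟩
  · obtain ⟨θ, hθd⟩ : ∃ θ : Fin (n + 1) → RatFunc K, θ = fun l => ∑ b, v l b • zz u b := ⟨_, rfl⟩
    obtain ⟨Z, hZd⟩ : ∃ Z : Fin n → K, Z = fun j : Fin n =>
      (∑ b, v (l0.succAbove j) b • u b) / ∑ b, v l0 b • u b := ⟨_, rfl⟩
    rw [← hZd]
    rw [← hθd] at hi
    have hb : IsTranscendenceBasis k θ := hi.isTranscendenceBasis_of_trdeg_le_of_finite (by
      rw [trdeg_ratFunc htr]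
      simp)
    have hdiv : ∀ j, algebraMap K (RatFunc K) (Z j) = θ (l0.succAbove j) / θ l0 := by
      intro j
      rw [hZd, hθd]
      beta_reduce
      rw [hθ, hθ, map_div₀]
      change _ = (algebraMap (Polynomial K) (RatFunc K) _) / (algebraMap (Polynomial K) (RatFunc K) _)
      rw [map_mul, map_mul, pow_one, mul_div_mul_right]
      · rfl
      · rw [Ne, map_eq_zero_iff _ (IsFractionRing.injective (Polynomial K) (RatFunc K))]
        exact Polynomial.X_ne_zero
    obtain ⟨y, hy⟩ : ∃ y : Fin (n + 1) → RatFunc K,
      y = Fin.cons (θ l0) fun j => algebraMap K (RatFunc K) (Z j) := ⟨_, rfl⟩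
    have hle : IntermediateField.adjoin k (Set.range θ) ≤
        IntermediateField.adjoin k (Set.range y) := by
      rw [IntermediateField.adjoin_le_iff]
      rintro _ ⟨l, rfl⟩
      have h1 : θ l0 ∈ IntermediateField.adjoin k (Set.range y) :=
        IntermediateField.subset_adjoin _ _ ⟨0, by rw [hy, Fin.cons_zero]⟩
      by_cases hl : l = l0
      · rw [hl]
        exact h1
      · obtain ⟨j, rfl⟩ := Fin.exists_succAbove_eq hl
        have h2 : algebraMap K (RatFunc K) (Z j) ∈ IntermediateField.adjoin k (Set.range y) :=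
          IntermediateField.subset_adjoin _ _ ⟨j.succ, by rw [hy, Fin.cons_succ]⟩
        have h3 : θ (l0.succAbove j) = algebraMap K (RatFunc K) (Z j) * θ l0 := by
          rw [hdiv, div_mul_cancel₀]
          rw [hθd]
          exact hθ0 l0
        rw [h3]
        exact mul_mem h2 h1
    have halg : Algebra.IsAlgebraic (IntermediateField.adjoin k (Set.range y)) (RatFunc K) := by
      have h1 := hb.isAlgebraic_field
      let _ : Algebra (IntermediateField.adjoin k (Set.range θ))
        (IntermediateField.adjoin k (Set.range y)) :=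
        (IntermediateField.inclusion hle).toRingHom.toAlgebra
      have h2 : IsScalarTower (IntermediateField.adjoin k (Set.range θ))
        (IntermediateField.adjoin k (Set.range y)) (RatFunc K) :=
        IsScalarTower.of_algebraMap_eq (congrFun rfl)
      exact Algebra.IsAlgebraic.tower_top (K := IntermediateField.adjoin k (Set.range θ)) _
    have hyb : IsTranscendenceBasis k y := basis_of_alg halg (by
      rw [trdeg_ratFunc htr, Fintype.card_fin])
    have h1 : AlgebraicIndependent k fun j => algebraMap K (RatFunc K) (Z j) := by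
      have h2 := hyb.1.comp Fin.succ (Fin.succ_injective n)
      have h3 : y ∘ Fin.succ = fun j => algebraMap K (RatFunc K) (Z j) := by
        funext j
        rw [Function.comp_apply, hy, Fin.cons_succ]
      rwa [h3] at h2
    have h2 : AlgebraicIndependent k Z :=
      AlgebraicIndependent.of_comp (IsScalarTower.toAlgHom k K (RatFunc K)) h1
    exact h2.isTranscendenceBasis_of_trdeg_le_of_finite (by
      rw [htr]
      simp)
  · -- the orders
    obtain ⟨N, hN⟩ := hcov
    obtain ⟨b1, -, hb1⟩ := Finset.exists_min_image Finset.univ (fun b => P.ord (u b))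
      ⟨b0, Finset.mem_univ b0⟩
    have hmin : ∀ b, P.ord (u b1) ≤ P.ord (u b) := fun b => hb1 b (Finset.mem_univ b)
    by_contra hcon
    push Not at hcon
    obtain ⟨r, hr, hra⟩ := hN (zz u b1 ^ (N + 1)) (Submodule.pow_mem_pow _
      (Submodule.subset_span (Set.mem_range_self b1)) (N + 1))
    have hr' : ∀ l, ∃ y ∈ (VV k u) ^ N, ph (k := k) N y = r l := by
      intro l
      have := hr l
      rwa [pow_zz, Submodule.mem_map] at this
    choose y hy hyr using hr'
    have h1 : u b1 ^ (N + 1) = ∑ l, (∑ b, v l b • u b) * y l := by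
      apply ph_inj (k := k) (N + 1)
      have h2 : ph (k := k) (N + 1) (u b1 ^ (N + 1)) = zz u b1 ^ (N + 1) := by
        change algebraMap (Polynomial K) (RatFunc K) _ = algebraMap (Polynomial K) (RatFunc K) _ ^ _
        rw [← map_pow, mul_pow, map_pow]
      rw [h2, hra, map_sum]
      refine Finset.sum_congr rfl fun l _ => ?_
      beta_reduce
      rw [hθ, ← hyr, ← ph_mul, add_comm]
    have h2 : Ge P ((P.ord (u b1) + 1) + N * P.ord (u b1)) (u b1 ^ (N + 1)) := by
      rw [h1]
      refine Ge.sum _ _ fun l _ => ?_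
      refine Ge.mul (Or.inr ?_) (pow_ge P (fun b => Or.inr (hmin b)) N (hy l))
      have h3 := hcon l
      have h4 := hmin b
      omega
    have h3 := h2.resolve_left (pow_ne_zero _ (hu b1))
    rw [P.ord_pow] at h3
    push_cast at h3
    linarith

end Pool.Agent.R885
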