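import Mathlib

/-!
The algebraic closure in a finitely generated extension is finite.
-/

set_option autoImplicit false
set_option linter.overlappingInstances false
set_option linter.unusedSectionVars false

namespace Pool.Agent.R885

open scoped IntermediateField.algebraAdjoinAdjoin in
/-- linear independence over a purely transcendental extension -/
theorem li_adjoin {E K ι : Type} [Field E] [Field K] [Algebra E K] {y : ι → K}
    (hy : AlgebraicIndependent E y) {κ : Type} [Fintype κ] {e : κ → K}
    (he : ∀ i, e i ∈ algebraicClosure E K) (hli : LinearIndependent E e) :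
    LinearIndependent (IntermediateField.adjoin E (Set.range y)) e := by
  classical
  rw [← LinearIndependent.iff_fractionRing (R := Algebra.adjoin E (Set.range y))]
  rw [Fintype.linearIndependent_iff]
  intro g hg
  have hg0 : ∀ z ∈ Algebra.adjoin E (Set.range y), ∃ P : MvPolynomial ι E,
      MvPolynomial.aeval y P = z := by
    intro z hz
    rw [Algebra.adjoin_range_eq_range_aeval] at hz
    exact hz
  have hg' : ∀ i, ∃ P : MvPolynomial ι E, MvPolynomial.aeval y P = (g i : K) := fun i =>
    hg0 _ (g i).2
  choose P hP using hg'
  have hyL := hy.algebraicClosure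
  let e' : κ → algebraicClosure E K := fun i => ⟨e i, he i⟩
  let Q : MvPolynomial ι (algebraicClosure E K) :=
    ∑ i, MvPolynomial.C (e' i) * MvPolynomial.map (algebraMap E (algebraicClosure E K)) (P i)
  have hQ : MvPolynomial.aeval y Q = 0 := by
    rw [map_sum, ← hg]
    refine Finset.sum_congr rfl fun i _ => ?_
    rw [map_mul, MvPolynomial.aeval_C, MvPolynomial.aeval_map_algebraMap, hP]
    change e i * (g i : K) = (g i : K) * e i
    ring
  have hQ0 : Q = 0 := (injective_iff_map_eq_zero _).1 hyL Q hQ
  have hcoef : ∀ i, P i = 0 := by
    have h1 : ∀ m : ι →₀ ℕ, ∀ i, (P i).coeff m = 0 := by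
      intro m
      refine Fintype.linearIndependent_iff.1 hli (fun i => (P i).coeff m) ?_
      have h2 := congrArg (MvPolynomial.coeff m) hQ0
      rw [MvPolynomial.coeff_sum, MvPolynomial.coeff_zero] at h2
      have h3 := congrArg (algebraMap (algebraicClosure E K) K) h2
      rw [map_sum, map_zero] at h3
      rw [← h3]
      refine Finset.sum_congr rfl fun i _ => ?_
      rw [MvPolynomial.coeff_C_mul, MvPolynomial.coeff_map, map_mul, Algebra.smul_def, mul_comm]
      rfl
    intro i
    ext m
    rw [h1 m i, MvPolynomial.coeff_zero]
  intro i
  apply Subtype.ext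
  rw [← hP i, hcoef i, map_zero]
  rfl

open scoped IntermediateField.algebraAdjoinAdjoin in
theorem basis_of_ind {k L ι : Type} [Field k] [Field L] [Algebra k L] {y : ι → L}
    (hy : AlgebraicIndependent k y)
    (halg : Algebra.IsAlgebraic (IntermediateField.adjoin k (Set.range y)) L) :
    IsTranscendenceBasis k y := by
  have h1 : Algebra.IsAlgebraic (Algebra.adjoin k (Set.range y)) L :=
    (IsFractionRing.comap_isAlgebraic_iff (A := Algebra.adjoin k (Set.range y))
      (K := IntermediateField.adjoin k (Set.range y)) (C := L)).2 halg
  exact hy.isTranscendenceBasis_iff_isAlgebraic.2 h1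

theorem fin_algClosure (E K : Type) [Field E] [Field K] [Algebra E K]
    [Algebra.EssFiniteType E K] : FiniteDimensional E (algebraicClosure E K) := by
  classical
  obtain ⟨ι, y, hy⟩ := exists_isTranscendenceBasis' E K
  have halg : Algebra.IsAlgebraic (IntermediateField.adjoin E (Set.range y)) K :=
    hy.isAlgebraic_field
  have hess : Algebra.EssFiniteType (IntermediateField.adjoin E (Set.range y)) K :=
    Algebra.EssFiniteType.of_comp E _ K
  have hfin : Module.Finite (IntermediateField.adjoin E (Set.range y)) K :=
    Algebra.finite_of_essFiniteType_of_isAlgebraic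
  have hrank : Module.rank E (algebraicClosure E K) ≤
      (Module.finrank (IntermediateField.adjoin E (Set.range y)) K : ℕ) := by
    refine rank_le fun s hs => ?_
    have h1 : LinearIndependent E fun i : s => ((i : algebraicClosure E K) : K) := by
      have h2 := hs.map' (algebraicClosure E K).val.toLinearMap
        (LinearMap.ker_eq_bot.2 (algebraicClosure E K).val.injective)
      exact h2
    have h2 := li_adjoin hy.1 (e := fun i : s => ((i : algebraicClosure E K) : K))
      (fun i => (i : algebraicClosure E K).2) h1
    have h3 := h2.fintype_card_le_finrank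
    rwa [Fintype.card_coe] at h3
  rw [FiniteDimensional, ← Module.rank_lt_aleph0_iff]
  exact hrank.trans_lt Cardinal.natCast_lt_aleph0

end Pool.Agent.R885
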