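import Pool.Agent.R885.Main
import Pool.Agent.Y191.CanA
import Pool.Agent.Y172.Dim

/-!
The Kodaira dimension and the numerical dimension of the projective varieties with canonical
singularities and a given function field.
-/

set_option autoImplicit false
set_option linter.overlappingInstances false
set_option linter.unusedSectionVars false

open FF Pool.Agent.W602.GT Pool.Agent.W619.PQ Pool.Agent.W619.TW Pool.Agent.W619.Y
  Pool.Agent.Y172 Pool.Agent.Y191

namespace Pool.Agent.R885

/-- From the sections over all models to the sections on a model with canonical singularities. -/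
theorem dims_of {K : Type} [Field K] [Algebra ℂ K] {n N d : ℕ}
    (htr : Algebra.trdeg ℂ K = (n : ℕ)) {y : Fin (N + 1) → K} (hy : NormalModel y)
    (hcan : Canonical y n) (h1 : KodTr ℂ K n d) (h2 : NumLe ℂ K n (fun _ => False) d) :
    kodairaDim y n 0 = (d : WithBot ℕ) ∧
      ∀ A, Effective y A → Integral y A → numericalDim y n 0 A = (d : EReal) := by
  classical
  obtain ⟨x, E, hx, hE⟩ := exists_crd htr
  have hfr : IsFrame E := fun G =>
    ⟨fun j => G (x j), (Pool.Agent.W73.PG.PULL.expand x hx E hE G).symm⟩
  have h00 : Effective y (0 : Place ℂ K → ℚ) := ⟨fun _ _ => le_rfl, by simp⟩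
  obtain ⟨m0, hm0, ω, hω, D, hD, hind⟩ := h1
  refine dims h00 hfr ?_ (m0 := m0) hm0 (ω := ω) ?_ (hD 0) hind
  · intro A hA
    choose s hs hs0 hsQ using fun j => can_bound hy hcan hA hfr j
    obtain ⟨C, hC⟩ := h2 (Finset.univ.image fun j => (s j)⁻¹)
    refine ⟨C, fun m hm r f hf hω' => hC m r hm ?_⟩
    choose ω' hω' hωf using hω'
    refine ⟨ω', ?_, fun l => ⟨(hω' l).1, ?_, fun v _ h => h.elim⟩⟩
    · have h3 : (LinearMap.proj E : ((Fin n → Derivation ℂ K K) → K) →ₗ[ℂ] K) ∘ ω' = f := by
        funext i
        exact hωf i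
      rw [← h3] at hf
      exact hf.of_comp _
    · intro Q hQ _ E' hE'
      obtain ⟨j, hj⟩ := exists_centred hy Q
      have h4 : IsSection y n m A (ω' l) := by
        have h5 := hω' l
        rw [smul_zero, zero_add] at h5
        exact h5
      rcases hsQ j Q hQ hj m hm (ω' l) h4 E' hE' with h5 | h5
      · exact Or.inl h5
      · right
        refine ⟨(s j)⁻¹, Finset.mem_image_of_mem _ (Finset.mem_univ j), inv_ne_zero (hs0 j), ?_⟩
        rw [Q.ord_inv, Nat.cast_one, one_mul]
        exact_mod_cast h5
  · intro l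
    refine ⟨(hω l).1, fun P hP E' hE' => ?_⟩
    rcases (hω l).2.1 P (hP.divisorial hy htr) (fun h => h) E' hE' with h3 | ⟨s, hs, hs0, h3⟩
    · exact Or.inl h3
    · right
      rw [smul_zero]
      rw [Nat.cast_zero, zero_mul] at h3
      simp only [Pi.zero_apply, neg_zero]
      exact_mod_cast h3

end Pool.Agent.R885
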