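import Pool.Agent.R885.D0

/-!
Numerical dimension at most zero.
-/

set_option autoImplicit false
set_option linter.overlappingInstances false
set_option linter.unusedSectionVars false

open FF Pool.Agent.W603.LV Pool.Agent.W619.PQ Pool.Agent.Y173.QA Pool.Agent.W619.TW
  Pool.Agent.TH165.ACC Pool.Agent.TH122.AB

namespace Pool.Agent.R885

section

variable {k K : Type} [Field k] [CharZero k] [Field K] [Algebra k K] {r m : ℕ} {x : Fin r → K}

/-- the gradients are independent -/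
theorem exists_C0 (hx : ∀ i, x i ≠ 0) {J : Type} [Fintype J] [DecidableEq J] {n : ℕ}
    (e : J ⊕ Fin n ≃ Fin r) {f : J → (Fin r → ℤ) →₀ k}
    (hf0 : ∀ l, f l ≠ 0) (hf : ∀ l, ev x (f l) = 0) (hnd : NonDeg K f 0) :
    ∃ C0 : Fin n → Fin r → ℤ, dt e (fun l => gr x (f l)) C0 ≠ 0 := by
  have h1 := hnd x hx fun l => by rw [ini_zero (hf0 l)]; exact hf l
  have h2 : (fun l => gr x (ini 0 (f l))) = fun l => gr x (f l) := by
    funext l
    rw [ini_zero (hf0 l)]
  rw [h2] at h1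
  obtain ⟨C, hC⟩ := complete_zero h1 (n := n) (by
    rw [← Fintype.card_congr e, Fintype.card_sum, Fintype.card_fin])
  exact ⟨C, dt_ne hC⟩

/-- the residue form is not zero -/
theorem om_ne (hx : ∀ i, x i ≠ 0) (hgen : IntermediateField.adjoin k (Set.range x) = ⊤)
    {J : Type} [Fintype J] [DecidableEq J] {n : ℕ} {e : J ⊕ Fin n ≃ Fin r}
    {f : J → (Fin r → ℤ) →₀ k} (hf : ∀ l, ev x (f l) = 0) {C0 : Fin n → Fin r → ℤ}
    (h0 : dt e (fun l => gr x (f l)) C0 ≠ 0) {Z : Fin n → K} (hZ : IsTranscendenceBasis k Z)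
    {D0 : Fin n → Derivation k K K} (hD0 : ∀ i j, D0 i (Z j) = if i = j then 1 else 0) :
    Om e x f C0 D0 ≠ 0 := by
  classical
  have hg : (fun l i => gr' x (f l) ((fun _ : J => (0 : Fin r → ℤ)) l) i) =
      fun l => gr x (f l) := by
    funext l i
    exact gr'_zero hx (f l) i
  obtain ⟨θ, hθ⟩ := exists_theta (e := e) (m0 := fun _ => 0) (C := C0) hx hgen hf (by
    rw [hg]
    exact h0) hD0
  intro hzero
  have h1 : θ = fun i => ∑ b, θ i (Z b) • D0 b := by
    funext i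
    apply der_ext' hZ
    intro j
    rw [sum_der, Finset.sum_eq_single j]
    · rw [hD0, if_pos rfl, mul_one]
    · intro b _ hb
      rw [hD0, if_neg hb, mul_zero]
    · intro hj
      exact absurd (Finset.mem_univ _) hj
  have h2 := om_pluri e x f C0 1 (Matrix.of fun i b => θ i (Z b)) D0
  simp only [Matrix.of_apply, pow_one] at h2
  rw [← h1, hzero, mul_zero] at h2
  have h3 : (cw C0 fun a => lg x (θ a)) = 1 := by
    ext b a
    change ∑ i, (C0 b i : K) * lg x (θ a) i = _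
    rw [hθ, Matrix.one_apply]
    by_cases h : a = b
    · rw [if_pos h, if_pos h.symm]
    · rw [if_neg h, if_neg (Ne.symm h)]
  unfold Om at h2
  rw [h3, Matrix.det_one] at h2
  exact one_div_ne_zero h0 h2

theorem ord_arith {c o u M : ℤ} (hc : 0 < c) (hM : 0 ≤ M) (h : c * o + u = 0) :
    min 0 u ≤ -(M * o) - (M / c) * u := by
  have h1 := Int.emod_add_mul_ediv M c
  have h2 := Int.emod_nonneg M hc.ne'
  have h3 := Int.emod_lt_of_pos M hc
  have hu : u = -(c * o) := by linarith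
  have h4 : -(M * o) - (M / c) * u = -((M % c) * o) := by
    rw [hu]
    conv_lhs => rw [← h1]
    have h5 : (M % c + c * (M / c)) / c = M / c := by rw [h1]
    rw [h5]
    ring
  rw [h4, hu]
  rcases le_total o 0 with ho | ho
  · refine (min_le_left _ _).trans ?_
    have : (M % c) * o ≤ 0 := mul_nonpos_of_nonneg_of_nonpos h2 ho
    linarith
  · refine (min_le_right _ _).trans ?_
    have : (M % c) * o ≤ c * o := mul_le_mul_of_nonneg_right h3.le ho
    linarith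

/-- **Numerical dimension at most zero.** -/
theorem numLe_zero (htr : Algebra.trdeg k K = (m + 1 : ℕ)) (hx : ∀ i, x i ≠ 0)
    (hgen : IntermediateField.adjoin k (Set.range x) = ⊤) {J : Type} [Fintype J] [DecidableEq J]
    (e : J ⊕ Fin (m + 1) ≃ Fin r) {f : J → (Fin r → ℤ) →₀ k}
    (hf0 : ∀ l, f l ≠ 0) (hf : ∀ l, ev x (f l) = 0) (hndK : NonDeg K f 0)
    (hnd : ∀ P : Place k K, NonDeg P.RF f (vec P x))
    {S : Finset (Fin r → ℤ)} {u0 : Fin r → ℤ} {c : ℤ} (hc : 0 < c)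
    (hF : ∀ v, v ≠ 0 → InSpan S v → c * (1 + ∑ l, mn v (f l)) ≤ u0 ⬝ᵥ v)
    (hS : ∀ s, s ∈ S ↔ s ≠ 0 ∧ InSpan S s ∧ u0 ⬝ᵥ s = c * (1 + ∑ l, mn s (f l)))
    (hpos : ∀ q : Fin r → ℚ, (∀ s ∈ S, 0 ≤ dq q s) → ∀ s ∈ S, dq q s = 0)
    (hsp : ∀ P : Place k K, InSpan S (vec P x)) :
    NumLe k K (m + 1) (fun _ => False) 0 := by
  classical
  intro T
  obtain ⟨c1, B, hc1, h0B, hsB, hB⟩ := exists_B S hpos
  obtain ⟨C0, h0⟩ := exists_C0 hx e hf0 hf hndK
  have hgenB : IntermediateField.adjoin k (Set.range fun b : B => mono x (b : Fin r → ℤ)) = ⊤ := by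
    rw [eq_top_iff, ← hgen, IntermediateField.adjoin_le_iff]
    rintro _ ⟨i, rfl⟩
    apply IntermediateField.subset_adjoin
    exact ⟨⟨Pi.single i 1, hsB i⟩, mono_single x i⟩
  obtain ⟨v, hℓ, hbas, hord⟩ := noether (u := fun b : B => mono x (b : Fin r → ℤ))
    (fun b => mono_ne hx _) (b0 := ⟨0, h0B⟩) (mono_zero x) hgenB htr
  obtain ⟨ℓ, hℓd⟩ : ∃ ℓ : Fin (m + 2) → K, ℓ = fun l => ∑ b : B, v l b • mono x b := ⟨_, rfl⟩
  have hℓd' : ∀ l, ∑ b : B, v l b • mono x b = ℓ l := fun l => by rw [hℓd]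
  obtain ⟨Z, hZd⟩ : ∃ Z : Fin (m + 1) → K, Z = fun j => ℓ ((0 : Fin (m + 2)).succAbove j) / ℓ 0 :=
    ⟨_, rfl⟩
  obtain ⟨Z', hZ'd⟩ : ∃ Z' : Fin (m + 1) → K,
    Z' = fun j => ℓ ((1 : Fin (m + 2)).succAbove j) / ℓ 1 := ⟨_, rfl⟩
  have hℓ0 : ∀ l, ℓ l ≠ 0 := fun l => by rw [← hℓd']; exact hℓ l
  have hZ : IsTranscendenceBasis k Z := by
    have h1 := hbas 0
    simp only [hℓd'] at h1
    rw [hZd]
    exact h1
  have hZ0 : Z' 0 = (Z 0)⁻¹ := by
    rw [hZ'd, hZd]
    beta_reduce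
    have h1 : (1 : Fin (m + 2)).succAbove 0 = 0 := by
      rw [Fin.succAbove_of_castSucc_lt _ _ (by simp [Fin.lt_def])]
      rfl
    have h2 : (0 : Fin (m + 2)).succAbove 0 = 1 := by
      rw [Fin.succAbove_zero]
      rfl
    rw [h1, h2, inv_div]
  have hZs : ∀ j : Fin m, Z' j.succ = Z j.succ / Z 0 := by
    intro j
    rw [hZ'd, hZd]
    beta_reduce
    have h1 : (1 : Fin (m + 2)).succAbove j.succ = j.succ.succ := by
      rw [Fin.succAbove_of_le_castSucc _ _ (by simp [Fin.le_def])]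
    have h2 : (0 : Fin (m + 2)).succAbove 0 = 1 := by
      rw [Fin.succAbove_zero]
      rfl
    have h3 : (0 : Fin (m + 2)).succAbove j.succ = j.succ.succ := by
      rw [Fin.succAbove_zero]
    rw [h1, h2, h3]
    have := hℓ0 0
    have := hℓ0 1
    field_simp
  obtain ⟨D0, hD0'⟩ := Pool.Agent.W602.GT.exists_dual hZ
  have hD0 : ∀ i j, D0 i (Z j) = if i = j then 1 else 0 := by
    intro i j
    have h1 := congrFun (congrFun hD0' i) j
    rw [Matrix.of_apply, Matrix.one_apply] at h1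
    exact h1
  have hOm0 := om_ne hx hgen hf h0 hZ hD0
  -- the finite set
  obtain ⟨T', hT'd⟩ : ∃ T' : Finset K, T' = (T.filter fun s => s ≠ 0) ∪
    (T.filter fun s => s ≠ 0).image fun s => s * mono x u0 := ⟨_, rfl⟩
  have hT'0 : ∀ s ∈ T', s ≠ 0 := by
    intro s hs
    rw [hT'd, Finset.mem_union] at hs
    rcases hs with hs | hs
    · exact (Finset.mem_filter.1 hs).2
    · obtain ⟨s', hs', rfl⟩ := Finset.mem_image.1 hs
      exact mul_ne_zero (Finset.mem_filter.1 hs').2 (mono_ne hx _)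
  obtain ⟨C, hC⟩ := fd_bound hZ (hfin_of_gen hgen hZ) hZ0 hZs T' hT'0
  refine ⟨C, fun M N hM hind => ?_⟩
  obtain ⟨ω, hlin, hsec⟩ := hind
  rw [pow_zero, mul_one]
  have hc'0 : (Om e x f C0 D0 ^ M * mono x (((M : ℤ) / c) • u0))⁻¹ ≠ 0 :=
    inv_ne_zero (mul_ne_zero (pow_ne_zero _ hOm0) (mono_ne hx _))
  have hlin' := lin_sec hZ hD0 hlin (fun l => (hsec l).1) hc'0
  refine hC N _ hlin' fun l P hP => ?_
  -- the frame at the place
  have hfr : IsDivisorial P (m + 1) ∧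
      ∃ D : Fin (m + 1) → Derivation k K K, (∀ a, Pres P (D a)) ∧ Om e x f C0 D ≠ 0 ∧
      c * P.ord (Om e x f C0 D) + u0 ⬝ᵥ vec P x = 0 := by
    rcases hP with ⟨p, hp, hP⟩ | hP
    · exact place_frame htr hgen P hx e hf0 hf (hnd P) hc hF hS (hsp P) h0B hB hℓ hbas (hord P) h0
        0 hp (by
          simp only [hℓd']
          rw [hZd] at hP
          exact hP)
    · exact place_frame htr hgen P hx e hf0 hf (hnd P) hc hF hS (hsp P) h0B hB hℓ hbas (hord P) h0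
        1 (MvPolynomial.X_prime (R := k) (i := (0 : Fin (m + 1)))).irreducible (by
          simp only [hℓd']
          rw [hZ'd] at hP
          exact hP)
  obtain ⟨hdiv, D, hD, hOm, hOmc⟩ := hfr
  have hne : ω l D0 ≠ 0 := by
    intro h1
    have h2 := hlin'.ne_zero l
    rw [h1, zero_mul] at h2
    exact h2 rfl
  have h1 : D = fun i => ∑ b, D i (Z b) • D0 b := by
    funext i
    apply der_ext' hZ
    intro j
    rw [sum_der, Finset.sum_eq_single j]
    · rw [hD0, if_pos rfl, mul_one]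
    · intro b _ hb
      rw [hD0, if_neg hb, mul_zero]
    · intro hj
      exact absurd (Finset.mem_univ _) hj
  obtain ⟨δ, hδ⟩ : ∃ δ : K, δ = (Matrix.of fun i b => D i (Z b)).det := ⟨_, rfl⟩
  have h2 : Om e x f C0 D = δ * Om e x f C0 D0 := by
    have h3 := om_pluri e x f C0 1 (Matrix.of fun i b => D i (Z b)) D0
    simp only [Matrix.of_apply, pow_one] at h3
    rw [← h1, ← hδ] at h3
    exact h3
  have h3 : ω l D = δ ^ M * ω l D0 := by
    have h4 := (hsec l).1 (Matrix.of fun i b => D i (Z b)) D0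
    simp only [Matrix.of_apply] at h4
    rw [← h1, ← hδ] at h4
    exact h4
  have hδ0 : δ ≠ 0 := by
    intro h4
    rw [h4, zero_mul] at h2
    exact hOm h2
  have hωD : ω l D ≠ 0 := by
    rw [h3]
    exact mul_ne_zero (pow_ne_zero _ hδ0) hne
  have h4 : ω l D0 * (Om e x f C0 D0 ^ M * mono x (((M : ℤ) / c) • u0))⁻¹ =
      ω l D / (Om e x f C0 D ^ M * mono x (((M : ℤ) / c) • u0)) := by
    rw [h2, h3, mul_pow, mul_assoc, ← div_eq_mul_inv, mul_div_mul_left _ _ (pow_ne_zero _ hδ0)]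
  have h5 : P.ord (ω l D0 * (Om e x f C0 D0 ^ M * mono x (((M : ℤ) / c) • u0))⁻¹) =
      P.ord (ω l D) + (-((M : ℤ) * P.ord (Om e x f C0 D)) - ((M : ℤ) / c) * (u0 ⬝ᵥ vec P x)) := by
    rw [h4, P.ord_div hωD (mul_ne_zero (pow_ne_zero _ hOm) (mono_ne hx _)),
      P.ord_mul (pow_ne_zero _ hOm) (mono_ne hx _), P.ord_pow, ord_mono P hx, smul_dotProduct,
      smul_eq_mul]
    ring
  have h6 := ord_arith hc (Int.natCast_nonneg M) hOmc
  obtain ⟨s, hs, hs0, hle⟩ : ∃ s ∈ T, s ≠ 0 ∧ P.ord s ≤ P.ord (ω l D) := by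
    rcases (hsec l).2.1 P hdiv (fun h => h) D hD with h7 | ⟨s, hs, hs0, hle⟩
    · exact absurd h7 hωD
    · exact ⟨s, hs, hs0, by simpa using hle⟩
  have hsf : s ∈ T.filter fun s => s ≠ 0 := Finset.mem_filter.2 ⟨hs, hs0⟩
  rcases min_le_iff.1 h6 with h7 | h7
  · refine ⟨s, ?_, ?_⟩
    · rw [hT'd]
      exact Finset.mem_union_left _ hsf
    · rw [h5]
      linarith
  · refine ⟨s * mono x u0, ?_, ?_⟩
    · rw [hT'd]
      exact Finset.mem_union_right _ (Finset.mem_image_of_mem _ hsf)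
    · rw [h5, P.ord_mul hs0 (mono_ne hx _), ord_mono P hx]
      linarith

end

end Pool.Agent.R885
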