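import Pool.Agent.R885.Res
import Pool.Agent.W619.PQ.Dual
import Mathlib.RingTheory.Jacobson.Ring

/-!
Nondegeneracy over extensions of the ground field, and for the fibres of monomial maps.
-/

set_option autoImplicit false
set_option linter.overlappingInstances false
set_option linter.unusedSectionVars false

open FF

namespace Pool.Agent.R885

/-- **The Nullstellensatz.** -/
theorem exists_point (k A : Type) [Field k] [IsAlgClosed k] [CommRing A] [Nontrivial A]
    [Algebra k A] [Algebra.FiniteType k A] : Nonempty (A →ₐ[k] k) := by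
  obtain ⟨M, hM⟩ := Ideal.exists_maximal A
  let _ : Field (A ⧸ M) := Ideal.Quotient.field M
  have h1 : Algebra.FiniteType k (A ⧸ M) :=
    Algebra.FiniteType.of_surjective (Ideal.Quotient.mkₐ k M)
      (Ideal.Quotient.mkₐ_surjective k M)
  have h2 : Module.Finite k (A ⧸ M) := finite_of_finite_type_of_isJacobsonRing k (A ⧸ M)
  have h3 : Algebra.IsIntegral k (A ⧸ M) := inferInstance
  have h4 : Function.Bijective (algebraMap k (A ⧸ M)) :=
    IsAlgClosed.algebraMap_bijective_of_isIntegral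
  let e : k ≃ₐ[k] (A ⧸ M) := AlgEquiv.ofBijective (Algebra.ofId k (A ⧸ M)) h4
  exact ⟨e.symm.toAlgHom.comp (Ideal.Quotient.mkₐ k M)⟩

section

variable {ι J k : Type} [Fintype ι] [Field k]

/-- the image of a Laurent polynomial under a homomorphism from a subalgebra -/
theorem ev_hom {F : Type} [Field F] [Algebra k F] {A : Subalgebra k F} (φ : A →ₐ[k] k)
    {c : ι → F} (hc : ∀ i, c i ≠ 0) (hcA : ∀ i, c i ∈ A) (hcA' : ∀ i, (c i)⁻¹ ∈ A)
    (w : ι → ℤ) : ∃ h : mono c w ∈ A, φ ⟨mono c w, h⟩ = mono (fun i => φ ⟨c i, hcA i⟩) w := by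
  classical
  have hne : ∀ i, φ ⟨c i, hcA i⟩ ≠ 0 := by
    intro i h0
    have h1 : (⟨c i, hcA i⟩ : A) * ⟨(c i)⁻¹, hcA' i⟩ = 1 := by
      apply Subtype.ext
      exact mul_inv_cancel₀ (hc i)
    have h2 := congrArg φ h1
    rw [map_mul, h0, zero_mul, map_one] at h2
    exact one_ne_zero h2.symm
  have hinv : ∀ i, φ ⟨(c i)⁻¹, hcA' i⟩ = (φ ⟨c i, hcA i⟩)⁻¹ := by
    intro i
    have h1 : (⟨c i, hcA i⟩ : A) * ⟨(c i)⁻¹, hcA' i⟩ = 1 := by
      apply Subtype.ext
      exact mul_inv_cancel₀ (hc i)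
    have h2 := congrArg φ h1
    rw [map_mul, map_one] at h2
    exact eq_inv_of_mul_eq_one_right h2
  have hz : ∀ (i : ι) (z : ℤ), ∃ h : c i ^ z ∈ A, φ ⟨c i ^ z, h⟩ = φ ⟨c i, hcA i⟩ ^ z := by
    intro i z
    cases z with
    | ofNat n =>
      have h : c i ^ n ∈ A := pow_mem (hcA i) n
      refine ⟨by simpa using h, ?_⟩
      have h1 := map_pow φ ⟨c i, hcA i⟩ n
      simp only [Int.ofNat_eq_natCast, zpow_natCast]
      rw [← h1]
      rfl
    | negSucc n =>
      have h : (c i)⁻¹ ^ (n + 1) ∈ A := pow_mem (hcA' i) (n + 1)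
      have h0 : c i ^ (Int.negSucc n) = (c i)⁻¹ ^ (n + 1) := by
        rw [zpow_negSucc, inv_pow]
      have h5 : c i ^ (Int.negSucc n) ∈ A := by rw [h0]; exact h
      refine ⟨h5, ?_⟩
      have h1 := map_pow φ ⟨(c i)⁻¹, hcA' i⟩ (n + 1)
      rw [hinv] at h1
      have h6 : (⟨c i ^ (Int.negSucc n), h5⟩ : A) = ⟨(c i)⁻¹, hcA' i⟩ ^ (n + 1) := Subtype.ext h0
      rw [h6, h1, zpow_negSucc, ← inv_pow]
  choose h1 h2 using hz
  have h3 : mono c w ∈ A := prod_mem fun i _ => h1 i (w i)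
  refine ⟨h3, ?_⟩
  have h4 : (⟨mono c w, h3⟩ : A) = ∏ i, ⟨c i ^ w i, h1 i (w i)⟩ := by
    apply Subtype.ext
    exact (map_prod A.val (fun i => (⟨c i ^ w i, h1 i (w i)⟩ : A)) Finset.univ).symm
  rw [h4, map_prod]
  exact Finset.prod_congr rfl fun i _ => h2 i (w i)

/-- **Nondegeneracy over extensions.** -/
theorem nd_ext [IsAlgClosed k] [Fintype J] {f : J → (ι → ℤ) →₀ k} {v : ι → ℤ}
    (h : NonDeg k f v) (F : Type) [Field F] [Algebra k F] : NonDeg F f v := by
  classical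
  intro c hc hev
  rw [Fintype.linearIndependent_iff]
  by_contra hcon
  push Not at hcon
  obtain ⟨a, ha, l0, hl0⟩ := hcon
  -- normalize
  obtain ⟨b, hb, hb0⟩ : ∃ b : J → F, (∑ l, b l • gr c (ini v (f l))) = 0 ∧ b l0 = 1 := by
    refine ⟨fun l => (a l0)⁻¹ * a l, ?_, inv_mul_cancel₀ hl0⟩
    have h1 : ∑ l, ((a l0)⁻¹ * a l) • gr c (ini v (f l)) =
        (a l0)⁻¹ • ∑ l, a l • gr c (ini v (f l)) := by
      rw [Finset.smul_sum]
      exact Finset.sum_congr rfl fun l _ => mul_smul _ _ _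
    rw [h1, ha, smul_zero]
  let T : Set F := Set.range c ∪ Set.range (fun i => (c i)⁻¹) ∪ Set.range b
  let A : Subalgebra k F := Algebra.adjoin k T
  have hTfin : T.Finite :=
    ((Set.finite_range _).union (Set.finite_range _)).union (Set.finite_range _)
  have hft : Algebra.FiniteType k A := by
    rw [← Subalgebra.fg_iff_finiteType]
    exact ⟨hTfin.toFinset, by rw [Set.Finite.coe_toFinset]⟩
  have hcA : ∀ i, c i ∈ A := fun i => Algebra.subset_adjoin (Or.inl (Or.inl ⟨i, rfl⟩))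
  have hcA' : ∀ i, (c i)⁻¹ ∈ A := fun i => Algebra.subset_adjoin (Or.inl (Or.inr ⟨i, rfl⟩))
  have hbA : ∀ l, b l ∈ A := fun l => Algebra.subset_adjoin (Or.inr ⟨l, rfl⟩)
  obtain ⟨φ⟩ := exists_point k A
  obtain ⟨c', hc'd⟩ : ∃ c' : ι → k, c' = fun i => φ ⟨c i, hcA i⟩ := ⟨_, rfl⟩
  have hc' : ∀ i, c' i ≠ 0 := by
    intro i h0
    rw [hc'd] at h0
    beta_reduce at h0
    have h1 : (⟨c i, hcA i⟩ : A) * ⟨(c i)⁻¹, hcA' i⟩ = 1 := by
      apply Subtype.ext
      exact mul_inv_cancel₀ (hc i)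
    have h2 := congrArg φ h1
    rw [map_mul, h0, zero_mul, map_one] at h2
    exact one_ne_zero h2.symm
  have hmono := fun w => ev_hom φ hc hcA hcA' w
  choose hmA hmφ using hmono
  -- sums of monomials
  have hsum : ∀ (g : (ι → ℤ) →₀ k) (ψ : (ι → ℤ) → ℤ),
      ∃ hm : (g.sum fun m a => algebraMap k F a * (ψ m : F) * mono c m) ∈ A,
        φ ⟨g.sum fun m a => algebraMap k F a * (ψ m : F) * mono c m, hm⟩ =
          g.sum fun m a => a * (ψ m : k) * mono c' m := by
    intro g ψ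
    have hm : (g.sum fun m a => algebraMap k F a * (ψ m : F) * mono c m) ∈ A := by
      refine sum_mem fun m _ => mul_mem (mul_mem (A.algebraMap_mem _) (intCast_mem _ _)) (hmA m)
    refine ⟨hm, ?_⟩
    have h1 : (⟨g.sum fun m a => algebraMap k F a * (ψ m : F) * mono c m, hm⟩ : A) =
        ∑ m ∈ g.support, algebraMap k A (g m) * (ψ m : A) * ⟨mono c m, hmA m⟩ := by
      apply Subtype.ext
      rw [AddSubmonoidClass.coe_finsetSum]
      refine Finset.sum_congr rfl fun m _ => ?_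
      push_cast
      rfl
    rw [h1, map_sum]
    refine Finset.sum_congr rfl fun m _ => ?_
    rw [map_mul, map_mul, φ.commutes, map_intCast, hmφ, ← hc'd]
    rfl
  have hev' : ∀ l, ev c' (ini v (f l)) = 0 := by
    intro l
    obtain ⟨hm, h1⟩ := hsum (ini v (f l)) fun _ => 1
    have h2 : ((ini v (f l)).sum fun m a => algebraMap k F a * ((1 : ℤ) : F) * mono c m) = 0 := by
      rw [← hev l]
      unfold ev
      refine Finset.sum_congr rfl fun m _ => ?_
      simp
    have h3 : (⟨_, hm⟩ : A) = 0 := Subtype.ext h2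
    rw [h3, map_zero] at h1
    rw [h1]
    unfold ev
    refine Finset.sum_congr rfl fun m _ => ?_
    simp
  have hind := Fintype.linearIndependent_iff.1 (h c' hc' hev') (fun l => φ ⟨b l, hbA l⟩) (by
    funext i
    rw [Finset.sum_apply, Pi.zero_apply]
    have hgr : ∀ l, ∃ hm : gr c (ini v (f l)) i ∈ A,
        φ ⟨gr c (ini v (f l)) i, hm⟩ = gr c' (ini v (f l)) i := fun l =>
      hsum (ini v (f l)) fun m => m i
    choose hgA hgφ using hgr
    have h1 : ∑ l, (⟨b l, hbA l⟩ : A) * ⟨gr c (ini v (f l)) i, hgA l⟩ = 0 := by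
      apply Subtype.ext
      rw [AddSubmonoidClass.coe_finsetSum]
      have h2 := congrFun hb i
      rw [Finset.sum_apply, Pi.zero_apply] at h2
      exact h2
    have h2 := congrArg φ h1
    rw [map_sum, map_zero] at h2
    rw [← h2]
    refine Finset.sum_congr rfl fun l _ => ?_
    rw [map_mul, hgφ, Pi.smul_apply, smul_eq_mul]) l0
  have h1 : φ ⟨b l0, hbA l0⟩ = 1 := by
    have h2 : (⟨b l0, hbA l0⟩ : A) = 1 := Subtype.ext hb0
    rw [h2, map_one]
  rw [h1] at hind
  exact one_ne_zero hind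

end

end Pool.Agent.R885
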