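import Pool.Agent.R885.Mono

/-!
The combinatorial lemma: sums of tight vectors.
-/

set_option autoImplicit false
set_option linter.overlappingInstances false
set_option linter.unusedSectionVars false

namespace Pool.Agent.R885

variable {r : ℕ}

/-- `v` is in the rational span of `S` -/
def InSpan (S : Finset (Fin r → ℤ)) (v : Fin r → ℤ) : Prop :=
  ∀ w : Fin r → ℤ, (∀ s ∈ S, w ⬝ᵥ s = 0) → w ⬝ᵥ v = 0

theorem sum_dot {j : ℕ} (w : Fin r → ℤ) (σ : Fin j → Fin r → ℤ) :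
    w ⬝ᵥ (∑ i, σ i) = ∑ i, w ⬝ᵥ σ i := by
  rw [dotProduct_sum]

theorem key_sum {k J : Type} [Field k] [Fintype J] {f : J → (Fin r → ℤ) →₀ k} (hf0 : ∀ l, f l ≠ 0)
    {S : Finset (Fin r → ℤ)} {u0 : Fin r → ℤ} {c : ℤ} (hc : 0 < c)
    (hF : ∀ v, v ≠ 0 → InSpan S v → c * (1 + ∑ l, mn v (f l)) ≤ u0 ⬝ᵥ v)
    (hS : ∀ s, s ∈ S ↔ s ≠ 0 ∧ InSpan S s ∧ u0 ⬝ᵥ s = c * (1 + ∑ l, mn s (f l)))
    {j : ℕ} (hj : 1 ≤ j) {σ : Fin j → Fin r → ℤ} (hσ : ∀ i, σ i ∈ S)
    (hli : LinearIndependent ℚ fun (i : Fin j) (k : Fin r) => (σ i k : ℚ))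
    {T : Finset J} (hT : ∀ l ∈ T, ∀ m ∈ (f l).support, ∃ i, mn (σ i) (f l) < m ⬝ᵥ σ i)
    (hcard : j ≤ T.card + 1) : (∑ i, σ i) ∈ S := by
  classical
  have hne : (∑ i, σ i) ≠ 0 := by
    intro h0
    have h1 := Fintype.linearIndependent_iff.1 hli (fun _ => 1) (by
      funext k
      have h2 := congrFun h0 k
      rw [Finset.sum_apply] at h2
      rw [Finset.sum_apply]
      simp only [one_smul, Pi.zero_apply] at h2 ⊢
      exact_mod_cast h2) ⟨0, hj⟩
    norm_num at h1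
  have hsp : InSpan S (∑ i, σ i) := by
    intro w hw
    rw [sum_dot]
    exact Finset.sum_eq_zero fun i _ => hw _ (hσ i)
  have hmn : ∀ l, (∑ i, mn (σ i) (f l)) + (if l ∈ T then 1 else 0) ≤ mn (∑ i, σ i) (f l) := by
    intro l
    refine le_mn (hf0 l) fun m hm => ?_
    rw [sum_dot]
    have h1 : ∀ i ∈ (Finset.univ : Finset (Fin j)), mn (σ i) (f l) ≤ m ⬝ᵥ σ i :=
      fun i _ => mn_le hm
    by_cases hl : l ∈ T
    · rw [if_pos hl]
      obtain ⟨i, hi⟩ := hT l hl m hm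
      have h2 := Finset.sum_lt_sum h1 ⟨i, Finset.mem_univ _, hi⟩
      omega
    · rw [if_neg hl, add_zero]
      exact Finset.sum_le_sum h1
  have h1 : (∑ l, ∑ i, mn (σ i) (f l)) + T.card ≤ ∑ l, mn (∑ i, σ i) (f l) := by
    have h2 : ∑ l, ((∑ i, mn (σ i) (f l)) + (if l ∈ T then (1 : ℤ) else 0)) =
        (∑ l, ∑ i, mn (σ i) (f l)) + T.card := by
      rw [Finset.sum_add_distrib]
      simp
    rw [← h2]
    exact Finset.sum_le_sum fun l _ => hmn l
  have h2 : u0 ⬝ᵥ (∑ i, σ i) = c * (j + ∑ l, ∑ i, mn (σ i) (f l)) := by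
    rw [sum_dot, Finset.sum_congr rfl fun i _ => ((hS _).1 (hσ i)).2.2, ← Finset.mul_sum,
      Finset.sum_add_distrib, Finset.sum_comm (f := fun i l => mn (σ i) (f l))]
    simp
  have h3 := hF _ hne hsp
  rw [hS]
  refine ⟨hne, hsp, le_antisymm ?_ h3⟩
  rw [h2]
  refine mul_le_mul_of_nonneg_left ?_ hc.le
  have h4 : (j : ℤ) ≤ T.card + 1 := by exact_mod_cast hcard
  omega

/-- tight vectors are primitive -/
theorem exists_dot_one {s : Fin r → ℤ} (hs : ∀ (g : ℤ) (s' : Fin r → ℤ), s = g • s' → g ∣ 1) :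
    ∃ c1 : Fin r → ℤ, c1 ⬝ᵥ s = 1 := by
  classical
  obtain ⟨g, hg⟩ : ∃ g, g = Finset.univ.gcd s := ⟨_, rfl⟩
  have h1 : ∀ i, g ∣ s i := fun i => by
    rw [hg]
    exact Finset.gcd_dvd (Finset.mem_univ i)
  choose s' hs' using h1
  have h2 : g ∣ 1 := hs g s' (by
    funext i
    rw [Pi.smul_apply, smul_eq_mul]
    exact hs' i)
  have h3 : Ideal.span (Set.range s) = ⊤ := by
    rw [Ideal.eq_top_iff_one]
    obtain ⟨g', hg'⟩ := (IsPrincipalIdealRing.principal (Ideal.span (Set.range s)))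
    have h4 : ∀ i, g' ∣ s i := by
      intro i
      have h5 : s i ∈ Ideal.span (Set.range s) := Ideal.subset_span ⟨i, rfl⟩
      rw [hg'] at h5
      exact Ideal.mem_span_singleton.1 h5
    have h5 : g' ∣ g := by
      rw [hg]
      exact Finset.dvd_gcd fun i _ => h4 i
    rw [hg']
    exact Ideal.mem_span_singleton.2 (h5.trans h2)
  have h4 : (1 : ℤ) ∈ Submodule.span ℤ (Set.range s) := by
    have h5 : (1 : ℤ) ∈ Ideal.span (Set.range s) := by
      rw [h3]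
      trivial
    exact h5
  obtain ⟨c, hc⟩ := (Submodule.mem_span_range_iff_exists_fun ℤ).1 h4
  exact ⟨c, by simpa [dotProduct] using hc⟩

theorem primitive {k J : Type} [Field k] [Fintype J] {f : J → (Fin r → ℤ) →₀ k}
    (hf0 : ∀ l, f l ≠ 0) {S : Finset (Fin r → ℤ)} {u0 : Fin r → ℤ} {c : ℤ} (hc : 0 < c)
    (hF : ∀ v, v ≠ 0 → InSpan S v → c * (1 + ∑ l, mn v (f l)) ≤ u0 ⬝ᵥ v)
    (hS : ∀ s, s ∈ S ↔ s ≠ 0 ∧ InSpan S s ∧ u0 ⬝ᵥ s = c * (1 + ∑ l, mn s (f l)))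
    {s : Fin r → ℤ} (hs : s ∈ S) : ∃ c1 : Fin r → ℤ, c1 ⬝ᵥ s = 1 := by
  obtain ⟨h1, h2, h3⟩ := (hS s).1 hs
  -- positive multiples
  have key : ∀ (g : ℤ) (s' : Fin r → ℤ), 0 < g → s = g • s' → g ∣ 1 := by
    intro g s' hg hs'
    have hs0 : s' ≠ 0 := by
      rintro rfl
      exact h1 (by rw [hs', smul_zero])
    have hsp : InSpan S s' := by
      intro w hw
      have h4 := h2 w hw
      rw [hs', dotProduct_smul, smul_eq_mul] at h4
      exact (mul_eq_zero.1 h4).resolve_left hg.ne'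
    have h4 := hF s' hs0 hsp
    have h5 : ∀ l, g * mn s' (f l) ≤ mn s (f l) ∧ mn s (f l) ≤ g * mn s' (f l) := by
      intro l
      constructor
      · refine le_mn (hf0 l) fun m hm => ?_
        rw [hs', dotProduct_smul, smul_eq_mul]
        exact mul_le_mul_of_nonneg_left (mn_le hm) hg.le
      · obtain ⟨m, hm, h6⟩ := exists_mn (hf0 l) s'
        rw [← h6]
        have h7 := mn_le (v := s) hm
        conv_rhs at h7 => rw [hs']
        rwa [dotProduct_smul, smul_eq_mul] at h7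
    have h6 : ∑ l, mn s (f l) = g * ∑ l, mn s' (f l) := by
      rw [Finset.mul_sum]
      exact Finset.sum_congr rfl fun l _ => le_antisymm (h5 l).2 (h5 l).1
    rw [h6] at h3
    have h7 : u0 ⬝ᵥ s = g * (u0 ⬝ᵥ s') := by
      conv_lhs => rw [hs']
      rw [dotProduct_smul, smul_eq_mul]
    rw [h7] at h3
    have h8 : c * g ≤ c * 1 := by
      have h9 := mul_le_mul_of_nonneg_left h4 hg.le
      nlinarith
    have h9 : g ≤ 1 := le_of_mul_le_mul_left h8 hc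
    have h10 : g = 1 := by omega
    rw [h10]
  refine exists_dot_one fun g s' hs' => ?_
  rcases lt_trichotomy g 0 with hg | hg | hg
  · have h4 := key (-g) (-s') (by omega) (by rw [hs']; simp)
    exact (neg_dvd).1 h4
  · exfalso
    rw [hg, zero_smul] at hs'
    exact h1 hs'
  · exact key g s' hg hs'

end Pool.Agent.R885
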