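import Pool.Agent.R885.LPB
import Pool.Agent.R885.Key

/-!
The Fine interior of the sum of the Newton polytopes; its tight vectors at a general point.
-/

set_option autoImplicit false
set_option linter.overlappingInstances false
set_option linter.unusedSectionVars false

open Pool.Agent.TH165.ACC

namespace Pool.Agent.R885

/-- **The Fine interior** of the sum of the Newton polytopes of the Laurent polynomials `f`: the
rational points `y` with `⟨y, v⟩ ≥ 1 + ∑ min ⟨supp (f l), v⟩` for all nonzero integral `v`. -/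
def FineInt {r : ℕ} {J k : Type} [Fintype J] [Field k] (f : J → (Fin r → ℤ) →₀ k) :
    Set (Fin r → ℚ) :=
  {y | ∀ v : Fin r → ℤ, v ≠ 0 → 1 + ∑ l, (mn v (f l) : ℚ) ≤ ∑ i, y i * (v i : ℚ)}

/-- The integral vectors in the directions of the Fine interior. -/
def dirs {r : ℕ} {J k : Type} [Fintype J] [Field k] (f : J → (Fin r → ℤ) →₀ k) :
    Set (Fin r → ℤ) :=
  {w | ∃ y ∈ FineInt f, ∃ N : ℕ, 1 ≤ N ∧ (fun i => y i + (w i : ℚ) / N) ∈ FineInt f}

section

variable {r : ℕ} {J k : Type} [Fintype J] [Field k] {f : J → (Fin r → ℤ) →₀ k}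

theorem mem_fine {y : Fin r → ℚ} : y ∈ FineInt f ↔
    ∀ v : Fin r → ℤ, v ≠ 0 → 1 + ∑ l, (mn v (f l) : ℚ) ≤ dq y v := Iff.rfl

/-- a linear functional -/
def lf (a : Fin r → ℚ) : (Fin r → ℚ) →ₗ[ℚ] ℚ := ∑ i, a i • (LinearMap.proj i : (Fin r → ℚ) →ₗ[ℚ] ℚ)

theorem lf_apply (a x : Fin r → ℚ) : lf a x = ∑ i, a i * x i := by
  unfold lf
  rw [LinearMap.sum_apply]
  exact Finset.sum_congr rfl fun i _ => by
    rw [LinearMap.smul_apply, LinearMap.proj_apply, smul_eq_mul]

theorem lf_dq (a : Fin r → ℚ) (z : Fin r → ℤ) : lf a (fun i => (z i : ℚ)) = dq a z := lf_apply _ _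

/-- growth on the cone of a choice of exponents -/
theorem growth0 (hf0 : ∀ l, f l ≠ 0) {y : Fin r → ℚ} (hy : y ∈ FineInt f) (m : J → Fin r → ℤ)
    (hm : ∀ l, m l ∈ (f l).support) (i : Fin r) (ε : ℚ) :
    ∃ A : ℚ, 0 ≤ A ∧ ∀ v : Fin r → ℤ, (∀ l, m l ⬝ᵥ v = mn v (f l)) →
      ε * (v i : ℚ) ≤ A * (dq y v - ∑ l, (mn v (f l) : ℚ)) := by
  classical
  obtain ⟨M, hM⟩ : ∃ M : Fin r → ℚ, M = fun i => ∑ l, (m l i : ℚ) := ⟨_, rfl⟩
  have hMv : ∀ v : Fin r → ℤ, dq M v = ((∑ l, m l ⬝ᵥ v : ℤ) : ℚ) := by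
    intro v
    rw [hM]
    unfold dq dotProduct
    push_cast
    simp only [Finset.sum_mul]
    rw [Finset.sum_comm]
  let L : ((Σ l : J, {m' // m' ∈ (f l).support}) ⊕ Unit) → (Fin r → ℚ) →ₗ[ℚ] ℚ :=
    Sum.elim (fun a => -(lf fun i => (((a.2 : Fin r → ℤ) - m a.1) i : ℚ))) fun _ => lf (y - M)
  obtain ⟨w, hw, hw'⟩ := farkas_fin L (ε • LinearMap.proj i) (by
    intro x hx
    have hx0 : x = 0 := by
      by_contra hne
      obtain ⟨D, hD, hDx⟩ := exists_denom x
      choose z hz using hDx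
      have hD' : (0 : ℚ) < D := by exact_mod_cast hD
      have hzx : ∀ a : Fin r → ℚ, dq a z = D * lf a x := by
        intro a
        rw [lf_apply]
        unfold dq
        rw [Finset.mul_sum]
        exact Finset.sum_congr rfl fun i _ => by rw [← hz i]; ring
      have hz0 : z ≠ 0 := by
        rintro rfl
        apply hne
        funext i
        have h1 := hz i
        rw [Pi.zero_apply, Int.cast_zero] at h1
        exact (mul_eq_zero.1 h1).resolve_left hD'.ne'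
      have h1 : ∀ l, mn z (f l) = m l ⬝ᵥ z := by
        intro l
        refine le_antisymm (mn_le (hm l)) (le_mn (hf0 l) fun m' hm' => ?_)
        have h2 := hx (Sum.inl ⟨l, ⟨m', hm'⟩⟩)
        change -(lf _ x) ≤ 0 at h2
        have h3 := hzx fun i => ((m' - m l) i : ℚ)
        have h4 : 0 ≤ dq (fun i => ((m' - m l) i : ℚ)) z := by
          rw [h3]
          exact mul_nonneg hD'.le (by linarith)
        rw [dq_int] at h4
        have h5 : 0 ≤ (m' - m l) ⬝ᵥ z := by exact_mod_cast h4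
        rw [sub_dotProduct] at h5
        omega
      have h2 := hy z hz0
      have h3 : ∑ l, (mn z (f l) : ℚ) = dq M z := by
        rw [hMv]
        push_cast
        exact Finset.sum_congr rfl fun l _ => by rw [h1]
      have h4 : dq (y - M) z = dq y z - dq M z := by
        unfold dq
        rw [← Finset.sum_sub_distrib]
        exact Finset.sum_congr rfl fun i _ => by rw [Pi.sub_apply, sub_mul]
      have h5 := hx (Sum.inr ())
      change lf (y - M) x ≤ 0 at h5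
      have h6 := hzx (y - M)
      have h7 : dq (y - M) z ≤ 0 := by
        rw [h6]
        exact mul_nonpos_of_nonneg_of_nonpos hD'.le h5
      rw [h4, ← h3] at h7
      change 1 + _ ≤ dq y z at h2
      linarith
    rw [hx0, map_zero])
  refine ⟨w (Sum.inr ()), hw _, fun v hv => ?_⟩
  have h1 := hw' fun i => (v i : ℚ)
  rw [Fintype.sum_sum_type] at h1
  simp only [Finset.univ_unique, Finset.sum_singleton] at h1
  have h2 : ∑ a : (Σ l : J, {m' // m' ∈ (f l).support}), w (Sum.inl a) * L (Sum.inl a)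
      (fun i => (v i : ℚ)) ≤ 0 := by
    refine Finset.sum_nonpos fun a _ => mul_nonpos_of_nonneg_of_nonpos (hw _) ?_
    change -(lf _ _) ≤ 0
    rw [lf_dq, dq_int]
    have h3 : 0 ≤ ((a.2 : Fin r → ℤ) - m a.1) ⬝ᵥ v := by
      rw [sub_dotProduct, hv]
      exact sub_nonneg.2 (mn_le a.2.2)
    have h4 : (0 : ℚ) ≤ ((((a.2 : Fin r → ℤ) - m a.1) ⬝ᵥ v : ℤ) : ℚ) := by exact_mod_cast h3
    linarith
  have h3 : L (Sum.inr (default : Unit)) (fun i => (v i : ℚ)) = dq y v - ∑ l, (mn v (f l) : ℚ) := by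
    change lf (y - M) _ = _
    rw [lf_dq]
    have h4 : dq (y - M) v = dq y v - dq M v := by
      unfold dq
      rw [← Finset.sum_sub_distrib]
      exact Finset.sum_congr rfl fun i _ => by rw [Pi.sub_apply, sub_mul]
    rw [h4, hMv]
    push_cast
    congr 1
    exact Finset.sum_congr rfl fun l _ => by rw [hv]
  rw [h3] at h1
  have h4 : (ε • (LinearMap.proj i : (Fin r → ℚ) →ₗ[ℚ] ℚ)) (fun i => (v i : ℚ)) = ε * (v i : ℚ) := by
    rw [LinearMap.smul_apply, LinearMap.proj_apply, smul_eq_mul]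
  rw [h4] at h1
  rw [h1]
  have h5 : (default : Unit) = () := rfl
  rw [h5]
  linarith

/-- **Growth of the slack.** -/
theorem growth (hf0 : ∀ l, f l ≠ 0) {y : Fin r → ℚ} (hy : y ∈ FineInt f) :
    ∃ A : ℚ, 0 ≤ A ∧ ∀ (v : Fin r → ℤ) (i : Fin r),
      |(v i : ℚ)| ≤ A * (dq y v - ∑ l, (mn v (f l) : ℚ)) := by
  classical
  let Ch := (l : J) → {m' // m' ∈ (f l).support}
  choose A hA hA' using fun a : Ch × Fin r × Bool => growth0 hf0 hy (fun l => (a.1 l : Fin r → ℤ))
    (fun l => (a.1 l).2) a.2.1 (if a.2.2 then 1 else -1)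
  refine ⟨∑ a, A a, Finset.sum_nonneg fun a _ => hA a, fun v i => ?_⟩
  have hnn : 0 ≤ dq y v - ∑ l, (mn v (f l) : ℚ) := by
    by_cases hv : v = 0
    · rw [hv]
      have h1 : dq y 0 = 0 := by simp [dq]
      rw [h1, Finset.sum_eq_zero fun l _ => by rw [mn_zero (hf0 l), Int.cast_zero], sub_zero]
    · have h1 := hy v hv
      change 1 + _ ≤ dq y v at h1
      linarith
  choose m hm hm' using fun l => exists_mn (hf0 l) v
  have key : ∀ b : Bool, (if b then (1 : ℚ) else -1) * (v i : ℚ) ≤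
      (∑ a, A a) * (dq y v - ∑ l, (mn v (f l) : ℚ)) := by
    intro b
    refine (hA' ((fun l => ⟨m l, hm l⟩ : Ch), i, b) v hm').trans ?_
    exact mul_le_mul_of_nonneg_right
      (Finset.single_le_sum (f := A) (fun a _ => hA a) (Finset.mem_univ _)) hnn
  rw [abs_le']
  have h1 := key true
  have h2 := key false
  simp only [if_true, Bool.false_eq_true, if_false, one_mul, neg_one_mul] at h1 h2
  exact ⟨h1, h2⟩

theorem tight_finite (hf0 : ∀ l, f l ≠ 0) {y : Fin r → ℚ} (hy : y ∈ FineInt f) :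
    {s : Fin r → ℤ | s ≠ 0 ∧ dq y s = 1 + ∑ l, (mn s (f l) : ℚ)}.Finite := by
  obtain ⟨A, hA, hA'⟩ := growth hf0 hy
  obtain ⟨N, hN⟩ : ∃ N : ℕ, A ≤ N := exists_nat_ge A
  refine (Set.finite_Icc (fun _ => -(N : ℤ) : Fin r → ℤ) (fun _ => (N : ℤ))).subset ?_
  rintro s ⟨-, hs⟩
  have h1 : ∀ i, |(s i : ℚ)| ≤ N := by
    intro i
    have h2 := hA' s i
    rw [hs] at h2
    have h3 : (1 + ∑ l, (mn s (f l) : ℚ)) - ∑ l, (mn s (f l) : ℚ) = 1 := by ring
    rw [h3, mul_one] at h2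
    exact h2.trans hN
  rw [Set.mem_Icc]
  constructor
  · intro i
    have h2 := (abs_le.1 (h1 i)).1
    exact_mod_cast h2
  · intro i
    have h2 := (abs_le.1 (h1 i)).2
    exact_mod_cast h2

theorem dq_add_smul (y q : Fin r → ℚ) (ε : ℚ) (v : Fin r → ℤ) :
    dq (fun i => y i + ε * q i) v = dq y v + ε * dq q v := by
  unfold dq
  rw [Finset.mul_sum, ← Finset.sum_add_distrib]
  exact Finset.sum_congr rfl fun i _ => by ring

/-- **The tight vectors at a general point of the Fine interior.** -/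
theorem exists_tight (hf0 : ∀ l, f l ≠ 0) (hne : (FineInt f).Nonempty) :
    ∃ (u0 : Fin r → ℤ) (c : ℤ) (S : Finset (Fin r → ℤ)) (A : ℚ), 0 < c ∧ 0 ≤ A ∧
      (∀ v, v ≠ 0 → c * (1 + ∑ l, mn v (f l)) ≤ u0 ⬝ᵥ v) ∧
      (∀ s, s ∈ S ↔ s ≠ 0 ∧ u0 ⬝ᵥ s = c * (1 + ∑ l, mn s (f l))) ∧
      (∀ q : Fin r → ℚ, (∀ s ∈ S, 0 ≤ dq q s) → ∀ s ∈ S, dq q s = 0) ∧
      (∀ v, v ≠ 0 → v ∉ S → ∀ i,
        |(v i : ℚ)| ≤ A * ((u0 ⬝ᵥ v - c * (1 + ∑ l, mn v (f l)) : ℤ) : ℚ)) ∧
      (∀ w, w ∈ dirs f ↔ ∀ s ∈ S, w ⬝ᵥ s = 0) := by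
  classical
  -- a point with the least number of tight vectors
  let T : (Fin r → ℚ) → Set (Fin r → ℤ) := fun y =>
    {s | s ≠ 0 ∧ dq y s = 1 + ∑ l, (mn s (f l) : ℚ)}
  obtain ⟨y0, hy0, hmin⟩ : ∃ y0 ∈ FineInt f, ∀ y ∈ FineInt f, (T y0).ncard ≤ (T y).ncard := by
    have h1 : ∃ n, ∃ y ∈ FineInt f, (T y).ncard = n := by
      obtain ⟨y, hy⟩ := hne
      exact ⟨_, y, hy, rfl⟩
    obtain ⟨y, hy, hyn⟩ := Nat.find_spec h1
    refine ⟨y, hy, fun y' hy' => ?_⟩
    rw [hyn]
    exact Nat.find_min' h1 ⟨y', hy', rfl⟩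
  obtain ⟨c, hc, hcy⟩ := exists_denom y0
  choose u0 hu0 using hcy
  have hc' : (0 : ℚ) < c := by exact_mod_cast hc
  have hc1 : (1 : ℚ) ≤ c := by exact_mod_cast hc
  have hu : ∀ v : Fin r → ℤ, ((u0 ⬝ᵥ v : ℤ) : ℚ) = c * dq y0 v := by
    intro v
    rw [← dq_int]
    unfold dq
    rw [Finset.mul_sum]
    exact Finset.sum_congr rfl fun i _ => by
      beta_reduce
      rw [← hu0 i]
      ring
  have hTf := tight_finite hf0 hy0
  obtain ⟨S, hSd⟩ : ∃ S : Finset (Fin r → ℤ), S = hTf.toFinset := ⟨_, rfl⟩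
  have hST : ∀ s, s ∈ S ↔ s ∈ T y0 := by
    intro s
    rw [hSd, Set.Finite.mem_toFinset]
  have hS : ∀ s, s ∈ S ↔ s ≠ 0 ∧ u0 ⬝ᵥ s = c * (1 + ∑ l, mn s (f l)) := by
    intro s
    rw [hST]
    refine and_congr_right fun _ => ?_
    have h1 := hu s
    constructor
    · intro h2
      have h3 : ((u0 ⬝ᵥ s : ℤ) : ℚ) = ((c * (1 + ∑ l, mn s (f l)) : ℤ) : ℚ) := by
        rw [h1, h2]
        push_cast
        ring
      exact_mod_cast h3
    · intro h2
      rw [h2] at h1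
      push_cast at h1
      exact (mul_left_cancel₀ hc'.ne' h1).symm
  have hF : ∀ v, v ≠ 0 → c * (1 + ∑ l, mn v (f l)) ≤ u0 ⬝ᵥ v := by
    intro v hv
    have h1 := hy0 v hv
    have h2 : ((c * (1 + ∑ l, mn v (f l)) : ℤ) : ℚ) ≤ ((u0 ⬝ᵥ v : ℤ) : ℚ) := by
      rw [hu]
      push_cast
      exact mul_le_mul_of_nonneg_left h1 hc'.le
    exact_mod_cast h2
  obtain ⟨A0, hA0, hA0'⟩ := growth hf0 hy0
  obtain ⟨G, hG⟩ : ∃ G : (Fin r → ℤ) → ℤ, G = fun v => u0 ⬝ᵥ v - c * (1 + ∑ l, mn v (f l)) :=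
    ⟨_, rfl⟩
  have hGs : ∀ v, dq y0 v - ∑ l, (mn v (f l) : ℚ) = (G v : ℚ) / c + 1 := by
    intro v
    rw [hG]
    push_cast
    rw [hu]
    field_simp
    ring
  have hG1 : ∀ v, v ≠ 0 → v ∉ S → 1 ≤ G v := by
    intro v hv hvS
    have h1 := hF v hv
    have h2 : G v ≠ 0 := by
      intro h3
      apply hvS
      rw [hS]
      refine ⟨hv, ?_⟩
      rw [hG] at h3
      change u0 ⬝ᵥ v - c * (1 + ∑ l, mn v (f l)) = 0 at h3
      omega
    have h3 : 0 ≤ G v := by
      rw [hG]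
      change 0 ≤ u0 ⬝ᵥ v - c * (1 + ∑ l, mn v (f l))
      omega
    omega
  have hgr : ∀ v, v ≠ 0 → v ∉ S → ∀ i, |(v i : ℚ)| ≤ (2 * A0) * (G v : ℚ) := by
    intro v hv hvS i
    refine (hA0' v i).trans ?_
    rw [hGs]
    have h1 : (1 : ℚ) ≤ G v := by exact_mod_cast hG1 v hv hvS
    have h2 : (G v : ℚ) / c ≤ G v := div_le_self (by linarith) hc1
    have h3 : (G v : ℚ) / c + 1 ≤ 2 * G v := by linarith
    calc A0 * ((G v : ℚ) / c + 1) ≤ A0 * (2 * G v) := mul_le_mul_of_nonneg_left h3 hA0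
      _ = _ := by ring
  -- perturbation
  have hpert : ∀ q : Fin r → ℚ, (∀ s ∈ S, 0 ≤ dq q s) → ∃ ε0 : ℚ, 0 < ε0 ∧ ∀ ε : ℚ, 0 < ε →
      ε ≤ ε0 → (fun i => y0 i + ε * q i) ∈ FineInt f ∧
        ∀ v, v ≠ 0 → dq (fun i => y0 i + ε * q i) v = 1 + ∑ l, (mn v (f l) : ℚ) →
          v ∈ S ∧ dq q v = 0 := by
    intro q hq
    obtain ⟨Q, hQ⟩ : ∃ Q : ℚ, Q = ∑ i, |q i| := ⟨_, rfl⟩
    have hQ0 : 0 ≤ Q := by
      rw [hQ]
      exact Finset.sum_nonneg fun i _ => abs_nonneg _
    have hqv : ∀ v, v ≠ 0 → v ∉ S → |dq q v| ≤ Q * (2 * A0) * (G v : ℚ) := by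
      intro v hv hvS
      unfold dq
      calc |∑ i, q i * (v i : ℚ)| ≤ ∑ i, |q i * (v i : ℚ)| := Finset.abs_sum_le_sum_abs _ _
        _ = ∑ i, |q i| * |(v i : ℚ)| := Finset.sum_congr rfl fun i _ => abs_mul _ _
        _ ≤ ∑ i, |q i| * ((2 * A0) * (G v : ℚ)) := Finset.sum_le_sum fun i _ =>
            mul_le_mul_of_nonneg_left (hgr v hv hvS i) (abs_nonneg _)
        _ = _ := by
          rw [← Finset.sum_mul, ← hQ]
          ring
    obtain ⟨R, hR⟩ : ∃ R : ℚ, R = c * (Q * (2 * A0)) := ⟨_, rfl⟩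
    have hR0 : 0 ≤ R := by
      rw [hR]
      positivity
    refine ⟨1 / (R + 1), by positivity, fun ε hε hε' => ?_⟩
    have hεR : ε * R < 1 := by
      have h1 : ε * (R + 1) ≤ 1 := by
        calc ε * (R + 1) ≤ 1 / (R + 1) * (R + 1) :=
              mul_le_mul_of_nonneg_right hε' (by linarith)
          _ = 1 := by field_simp
      nlinarith
    have hnS : ∀ v, v ≠ 0 → v ∉ S →
        1 + ∑ l, (mn v (f l) : ℚ) < dq (fun i => y0 i + ε * q i) v := by
      intro v hv hvS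
      rw [dq_add_smul]
      have h1 := hGs v
      have h2 := neg_le_of_abs_le (hqv v hv hvS)
      have h3 : (1 : ℚ) ≤ G v := by exact_mod_cast hG1 v hv hvS
      have h4 : 0 < (G v : ℚ) / c + ε * dq q v := by
        have h5 : 0 < (G v : ℚ) + c * (ε * dq q v) := by
          have h6 : c * (ε * dq q v) ≥ -(ε * R * (G v : ℚ)) := by
            have h7 : ε * dq q v ≥ ε * -(Q * (2 * A0) * (G v : ℚ)) :=
              mul_le_mul_of_nonneg_left h2 hε.le
            have h8 : (c : ℚ) * (ε * dq q v) ≥ c * (ε * -(Q * (2 * A0) * (G v : ℚ))) :=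
              mul_le_mul_of_nonneg_left h7 hc'.le
            have h9 : (c : ℚ) * (ε * -(Q * (2 * A0) * (G v : ℚ))) = -(ε * R * (G v : ℚ)) := by
              rw [hR]
              ring
            linarith
          have h7 : ε * R * (G v : ℚ) < G v := by nlinarith
          linarith
        have h6 : (G v : ℚ) / c + ε * dq q v = ((G v : ℚ) + c * (ε * dq q v)) / c := by
          field_simp
        rw [h6]
        exact div_pos h5 hc'
      linarith
    have hinS : ∀ v ∈ S, dq (fun i => y0 i + ε * q i) v =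
        1 + ∑ l, (mn v (f l) : ℚ) + ε * dq q v := by
      intro v hvS
      rw [dq_add_smul, ((hST v).1 hvS).2]
    refine ⟨fun v hv => ?_, fun v hv hv1 => ?_⟩
    · by_cases hvS : v ∈ S
      · have h1 := hinS v hvS
        change _ ≤ dq _ v
        rw [h1]
        have := mul_nonneg hε.le (hq v hvS)
        linarith
      · exact (hnS v hv hvS).le
    · by_cases hvS : v ∈ S
      · refine ⟨hvS, ?_⟩
        rw [hinS v hvS] at hv1
        have h1 : ε * dq q v = 0 := by linarith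
        exact (mul_eq_zero.1 h1).resolve_left hε.ne'
      · exact absurd hv1 (hnS v hv hvS).ne'
  have hpos : ∀ q : Fin r → ℚ, (∀ s ∈ S, 0 ≤ dq q s) → ∀ s ∈ S, dq q s = 0 := by
    intro q hq s hs
    by_contra hne'
    obtain ⟨ε, hε, h1⟩ := hpert q hq
    obtain ⟨h2, h3⟩ := h1 ε hε le_rfl
    have h4 : T (fun i => y0 i + ε * q i) ⊂ T y0 := by
      refine Set.ssubset_iff_subset_ne.2 ⟨fun v hv => ?_, fun heq => ?_⟩
      · exact (hST v).1 (h3 v hv.1 hv.2).1
      · have h5 : s ∈ T (fun i => y0 i + ε * q i) := by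
          rw [heq]
          exact (hST s).1 hs
        exact hne' (h3 s h5.1 h5.2).2
    have h5 := Set.ncard_lt_ncard h4 hTf
    have h6 := hmin _ h2
    omega
  refine ⟨u0, c, S, 2 * A0, hc, by positivity, hF, hS, hpos, ?_, ?_⟩
  · intro v hv hvS i
    have h1 := hgr v hv hvS i
    rw [hG] at h1
    exact h1
  · intro w
    constructor
    · rintro ⟨y, hy, N, hN, hyN⟩ s hs
      have hconst : ∀ y' ∈ FineInt f, dq y' s = dq y0 s := by
        intro y' hy'
        have h1 := hpos (fun i => y' i - y0 i) (fun s' hs' => by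
          have h2 : dq (fun i => y' i - y0 i) s' = dq y' s' - dq y0 s' := by
            unfold dq
            rw [← Finset.sum_sub_distrib]
            exact Finset.sum_congr rfl fun i _ => by ring
          rw [h2, ((hST s').1 hs').2]
          have h3 := hy' s' ((hST s').1 hs').1
          change _ ≤ dq y' s' at h3
          linarith) s hs
        have h2 : dq (fun i => y' i - y0 i) s = dq y' s - dq y0 s := by
          unfold dq
          rw [← Finset.sum_sub_distrib]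
          exact Finset.sum_congr rfl fun i _ => by ring
        rw [h2] at h1
        linarith
      have h1 := hconst y hy
      have h2 := hconst _ hyN
      have h3 : dq (fun i => y i + (w i : ℚ) / N) s = dq y s + (1 / (N : ℚ)) *
          dq (fun i => (w i : ℚ)) s := by
        rw [← dq_add_smul]
        congr 1
        funext i
        ring
      rw [h3, h1, dq_int] at h2
      have hN' : (0 : ℚ) < N := by exact_mod_cast hN
      have h4 : (1 / (N : ℚ)) * ((w ⬝ᵥ s : ℤ) : ℚ) = 0 := by linarith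
      have h5 := (mul_eq_zero.1 h4).resolve_left (by positivity)
      exact_mod_cast h5
    · intro hw
      obtain ⟨ε, hε, h1⟩ := hpert (fun i => (w i : ℚ)) (fun s hs => by
        rw [dq_int, hw s hs]
        simp)
      obtain ⟨N, hN⟩ := exists_nat_ge (1 / ε)
      have hN0 : (0 : ℚ) < N := lt_of_lt_of_le (by positivity) hN
      have hN1 : 1 ≤ N := by
        have : (0 : ℕ) < N := by exact_mod_cast hN0
        omega
      refine ⟨y0, hy0, N, hN1, ?_⟩
      have h2 := (h1 (1 / N) (by positivity) (by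
        rw [div_le_iff₀ hN0]
        rw [div_le_iff₀ hε] at hN
        linarith)).1
      have h3 : (fun i => y0 i + (w i : ℚ) / N) = fun i => y0 i + 1 / (N : ℚ) * (w i : ℚ) := by
        funext i
        ring
      rw [h3]
      exact h2

end

end Pool.Agent.R885
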