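import Pool.Agent.R885.Mono

/-!
Algebraically independent monomials.
-/

set_option autoImplicit false
set_option linter.overlappingInstances false
set_option linter.unusedSectionVars false

namespace Pool.Agent.R885

open scoped IntermediateField.algebraAdjoinAdjoin in
theorem exists_mono_basis {k K : Type} [Field k] [Field K] [Algebra k K] {d : ℕ} {G : Set K}
    (hd : Algebra.trdeg k (IntermediateField.adjoin k G) = (d : ℕ)) :
    ∃ t : Fin d → K, (∀ j, t j ∈ G) ∧ AlgebraicIndependent k t ∧
      ∀ z ∈ G, IsAlgebraic (IntermediateField.adjoin k (Set.range t)) z := by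
  classical
  let E : IntermediateField k K := IntermediateField.adjoin k G
  let s : Set E := {z | (z : K) ∈ G}
  have htop : IntermediateField.adjoin k s = ⊤ := by
    have h1 : (IntermediateField.adjoin k s).map E.val = (⊤ : IntermediateField k E).map E.val := by
      rw [IntermediateField.adjoin_map, ← AlgHom.fieldRange_eq_map,
        IntermediateField.fieldRange_val]
      change IntermediateField.adjoin k _ = IntermediateField.adjoin k G
      congr 1
      ext z
      constructor
      · rintro ⟨y, hy, rfl⟩
        exact hy
      · intro hz
        exact ⟨⟨z, IntermediateField.subset_adjoin _ _ hz⟩, hz, rfl⟩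
    exact IntermediateField.map_injective _ h1
  have halg0 : Algebra.IsAlgebraic (IntermediateField.adjoin k s) E := by
    constructor
    intro z
    have hz : z ∈ IntermediateField.adjoin k s := by
      rw [htop]
      trivial
    exact isAlgebraic_algebraMap (R := IntermediateField.adjoin k s) (A := E) ⟨z, hz⟩
  have halg : Algebra.IsAlgebraic (Algebra.adjoin k s) E :=
    (IsFractionRing.comap_isAlgebraic_iff (A := Algebra.adjoin k s)
      (K := IntermediateField.adjoin k s) (C := E)).2 halg0
  obtain ⟨B, hBs, hB⟩ := exists_isTranscendenceBasis_subset (R := k) s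
  have hcard : Cardinal.mk B = d := by
    rw [hB.cardinalMk_eq_trdeg]
    exact hd
  obtain ⟨e⟩ : Nonempty (Fin d ≃ B) := by
    have h2 : Finite B := by
      rw [← Cardinal.lt_aleph0_iff_finite, hcard]
      exact Cardinal.natCast_lt_aleph0
    have h3 := Fintype.ofFinite B
    have h4 : Fintype.card B = d := by
      rw [Cardinal.mk_fintype] at hcard
      exact_mod_cast hcard
    exact ⟨(Fintype.equivFinOfCardEq h4).symm⟩
  let tE : Fin d → E := fun j => (e j : E)
  have htE : AlgebraicIndependent k tE := hB.1.comp e e.injective
  have ht : AlgebraicIndependent k fun j => (tE j : K) :=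
    htE.map' (f := E.val) E.val.injective
  refine ⟨fun j => (tE j : K), fun j => hBs (e j).2, ht, fun z hz => ?_⟩
  by_contra hcon
  have hcon' : Transcendental (Algebra.adjoin k (Set.range fun j => (tE j : K))) z := by
    intro h
    apply hcon
    exact (IsFractionRing.isAlgebraic_iff (Algebra.adjoin k (Set.range fun j => (tE j : K)))
      (IntermediateField.adjoin k (Set.range fun j => (tE j : K))) K).1 h
  have h1 := (ht.option_iff_transcendental z).2 hcon'
  let zE : E := ⟨z, IntermediateField.subset_adjoin _ _ hz⟩
  have h2 : AlgebraicIndependent k fun o : Option (Fin d) => (o.elim zE tE : E) := by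
    refine AlgebraicIndependent.of_comp E.val ?_
    have h3 : (E.val ∘ fun o : Option (Fin d) => (o.elim zE tE : E)) =
        fun o : Option (Fin d) => o.elim z fun j => (tE j : K) := by
      funext o
      rcases o with _ | j
      · rfl
      · rfl
    rw [h3]
    exact h1
  have h3 := h2.cardinalMk_le_trdeg
  have h4 : Algebra.trdeg k E = d := hd
  rw [h4, Cardinal.mk_fintype, Fintype.card_option, Fintype.card_fin] at h3
  have h5 : d + 1 ≤ d := by exact_mod_cast h3
  omega

/-- the value of a Laurent polynomial under a homomorphism -/
theorem map_ev {k K F : Type} [Field k] [Field K] [Algebra k K] [Field F] [Algebra k F] {r : ℕ}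
    (φ : K →ₐ[k] F) (x : Fin r → K) (g : (Fin r → ℤ) →₀ k) :
    φ (ev x g) = ev (fun i => φ (x i)) g := by
  unfold ev Finsupp.sum
  rw [map_sum]
  refine Finset.sum_congr rfl fun m _ => ?_
  rw [map_mul, φ.commutes]
  congr 1
  exact map_mono (φ : K →+* F) x m

end Pool.Agent.R885
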