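import Pool.Agent.TH122.AB.Fd
import Pool.Agent.TH122.AB.Inf
import Pool.Agent.TH756.PN.Cl
import Pool.Agent.TH756.PN.Restr
import Pool.Agent.Y173.QA.Pl

/-!
Functions with bounded poles at the places over the irreducible polynomials in a transcendence
basis and at the places at infinity.
-/

set_option autoImplicit false
set_option linter.overlappingInstances false
set_option linter.unusedSectionVars false

open FF MvPolynomial IntermediateField Pool.Agent.W603.LV Pool.Agent.W619.PQ Pool.Agent.TH122.AB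
  Pool.Agent.Y173.QA

namespace Pool.Agent.R885

section

variable {k K : Type} [Field k] [CharZero k] [Field K] [Algebra k K] {n : ℕ}

theorem adic_of_over {d : ℕ} {K0 : Type} [Field K0] [Algebra k K0] [Algebra K0 K]
    [IsScalarTower k K0 K] {X : Fin d → K0} {p : MvPolynomial (Fin d) k} {v : Place k K0}
    (hv : ∀ f : MvPolynomial (Fin d) k, f ≠ 0 →
      0 ≤ v.ord (aeval X f) ∧ (v.ord (aeval X f) = 0 ↔ ¬ p ∣ f)) {P : Place k K} {e : ℕ}
    (h : Over P v e) {Z : Fin d → K} (hZ : ∀ j, algebraMap K0 K (X j) = Z j) : Adic Z p P := by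
  intro f hf
  have hXZ' : (fun j => algebraMap K0 K (X j)) = Z := funext hZ
  have hae : algebraMap K0 K (aeval X f) = aeval Z f := by
    rw [← hXZ']
    exact (MvPolynomial.aeval_algebraMap_apply K X f).symm
  rw [← hae, h.2]
  obtain ⟨h3, h4⟩ := hv f hf
  have h5 : (0 : ℤ) < e := by exact_mod_cast h.1
  refine ⟨mul_nonneg h5.le h3, ?_⟩
  rw [← h4]
  constructor
  · intro h6
    rcases mul_eq_zero.1 h6 with h7 | h7
    · omega
    · exact h7
  · intro h6
    rw [h6, mul_zero]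

/-- **Functions with bounded poles.** -/
theorem fd_bound {Z Z' : Fin (n + 1) → K} (hZ : IsTranscendenceBasis k Z)
    (hfd : FiniteDimensional (IntermediateField.adjoin k (Set.range Z)) K)
    (hZ0 : Z' 0 = (Z 0)⁻¹) (hZs : ∀ j : Fin n, Z' j.succ = Z j.succ / Z 0) (S : Finset K)
    (hS : ∀ s ∈ S, s ≠ 0) :
    ∃ C : ℕ, ∀ (N : ℕ) (f : Fin N → K), LinearIndependent k f →
      (∀ l, ∀ P : Place k K, ((∃ p, Irreducible p ∧ Adic Z p P) ∨
        Adic Z' (MvPolynomial.X 0 : MvPolynomial (Fin (n + 1)) k) P) →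
        ∃ s ∈ S, P.ord s ≤ P.ord (f l)) → N ≤ C := by
  classical
  obtain ⟨K', iF, iA, iK, hT, G, hfin, iG, hT1, hT2, hfd', X, hX, hXZ, hbas⟩ :=
    Pool.Agent.TH756.PN.exists_closure hZ hfd
  -- the chart at infinity
  let X' : Fin (n + 1) → fixedField G := fun j => Fin.cases (X 0)⁻¹ (fun l : Fin n => X l.succ / X 0) j
  have hX'0 : X' 0 = (X 0)⁻¹ := rfl
  have hX's : ∀ l : Fin n, X' l.succ = X l.succ / X 0 := fun l => rfl
  have hX' : Gens (k := k) X' := hX.flip hX'0 hX's
  have hX'Z : ∀ j, algebraMap (fixedField G) K (X' j) = Z' j := by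
    intro j
    refine Fin.cases ?_ (fun j => ?_) j
    · rw [hX'0, map_inv₀, hXZ, hZ0]
    · rw [hX's, map_div₀, hXZ, hXZ, hZs]
  have hirr : Irreducible (MvPolynomial.X 0 : MvPolynomial (Fin (n + 1)) k) :=
    (MvPolynomial.X_prime (R := k) (i := (0 : Fin (n + 1)))).irreducible
  obtain ⟨v0, hv1, hv0⟩ := exists_adic hX' hirr
  rw [aeval_X] at hv1
  have hdeg : ∀ P : MvPolynomial (Fin (n + 1)) k, P ≠ 0 →
      v0.ord (aeval X P) = - (P.totalDegree : ℤ) := fun P hP =>
    ord_deg hX hX'0 hX's hv1 hv0 hP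
  obtain ⟨w0, e0, I0, h0, -, -⟩ := exists_inertia G v0
  let S' : Finset K' := S.image (algebraMap K K')
  -- the lower bound
  obtain ⟨M0, hM0⟩ : ∃ M0 : ℤ, ∀ g ∈ G, ∀ s ∈ S, M0 ≤ w0.ord (g (algebraMap K K' s)) := by
    have hfin' : (Set.image2 (fun (g : K' ≃ₐ[k] K') (s : K) => w0.ord (g (algebraMap K K' s)))
        (G : Set (K' ≃ₐ[k] K')) (S : Set K)).Finite :=
      Set.Finite.image2 _ (Set.toFinite _) (Set.toFinite _)
    obtain ⟨M0, hM0⟩ := hfin'.bddBelow
    exact ⟨M0, fun g hg s hs => hM0 (Set.mem_image2_of_mem hg hs)⟩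
  obtain ⟨C, hC⟩ := fin_bound G hX hbas hdeg h0 S' M0
  refine ⟨C, fun N f hf hbd => ?_⟩
  have hinj : Function.Injective (IsScalarTower.toAlgHom k K K').toLinearMap :=
    (algebraMap K K').injective
  have hf' : LinearIndependent k fun l => algebraMap K K' (f l) :=
    hf.map' (IsScalarTower.toAlgHom k K K').toLinearMap (LinearMap.ker_eq_bot.2 hinj)
  refine hC N (fun l => algebraMap K K' (f l)) hf' ?_ ?_
  · intro l p hp v hvp hv
    obtain ⟨w, e, I, hwv, -, -⟩ := exists_inertia G v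
    refine ⟨w, e, hwv, fun g hg => Or.inr ?_⟩
    have h' := over_comp hwv hg
    obtain ⟨P, e1, e2, hP1, hP2, -⟩ := Pool.Agent.TH756.PN.exists_restr (K := K) h'
    obtain ⟨s, hs, hle⟩ := hbd l P (Or.inl ⟨p, hp, adic_of_over hv hP2 hXZ⟩)
    refine ⟨algebraMap K K' s, Finset.mem_image_of_mem _ hs, ?_, ?_⟩
    · simpa using hS s hs
    · rw [← Place.comp_ord, ← Place.comp_ord, hP1.2, hP1.2]
      exact mul_le_mul_of_nonneg_left hle (by positivity)
  · intro l g hg
    right
    have h' := over_comp h0 hg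
    obtain ⟨P, e1, e2, hP1, hP2, -⟩ := Pool.Agent.TH756.PN.exists_restr (K := K) h'
    obtain ⟨s, hs, hle⟩ := hbd l P (Or.inr (adic_of_over hv0 hP2 hX'Z))
    refine (hM0 g hg s hs).trans ?_
    rw [← Place.comp_ord, ← Place.comp_ord, hP1.2, hP1.2]
    exact mul_le_mul_of_nonneg_left hle (by positivity)

end

end Pool.Agent.R885
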