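import Pool.Agent.R885.LP

/-!
The monomials of the polar polytope.
-/

set_option autoImplicit false
set_option linter.overlappingInstances false
set_option linter.unusedSectionVars false

open Pool.Agent.TH152.AC Pool.Agent.TH165.ACC

namespace Pool.Agent.R885

variable {r : ℕ}

theorem dq_int (b s : Fin r → ℤ) : dq (fun i => (b i : ℚ)) s = ((b ⬝ᵥ s : ℤ) : ℚ) := by
  unfold dq dotProduct
  push_cast
  rfl

theorem exists_B (S : Finset (Fin r → ℤ))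
    (hpos : ∀ q : Fin r → ℚ, (∀ s ∈ S, 0 ≤ dq q s) → ∀ s ∈ S, dq q s = 0) :
    ∃ (c1 : ℤ) (B : Finset (Fin r → ℤ)), 0 < c1 ∧ (0 : Fin r → ℤ) ∈ B ∧
      (∀ i, (Pi.single i 1 : Fin r → ℤ) ∈ B) ∧
      ∀ v : Fin r → ℤ, (∀ q : Fin r → ℚ, (∀ s ∈ S, dq q s = 0) → dq q v = 0) →
        ∃ (j : ℕ) (σ : Fin j → Fin r → ℤ) (α : Fin j → ℚ), (∀ i, σ i ∈ S ∧ 0 < α i) ∧
          (∀ k, ∑ i, α i * (σ i k : ℚ) = v k) ∧
          (LinearIndependent ℚ fun (i : Fin j) (k : Fin r) => (σ i k : ℚ)) ∧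
          ((∑ i, σ i) ∈ S → j ≤ 1) ∧
          ∀ b ∈ B, (∀ b' ∈ B, b ⬝ᵥ v ≤ b' ⬝ᵥ v) → ∀ i, b ⬝ᵥ σ i = -c1 := by
  classical
  have hQ : ∀ T : Finset (Fin r → ℤ), ∃ q : Fin r → ℚ, (∀ s ∈ S, -1 ≤ dq q s) ∧
      ((∃ q' : Fin r → ℚ, (∀ s ∈ S, -1 ≤ dq q' s) ∧ ∀ s ∈ T, dq q' s = -1) →
        ∀ s ∈ T, dq q s = -1) := by
    intro T
    by_cases h : ∃ q' : Fin r → ℚ, (∀ s ∈ S, -1 ≤ dq q' s) ∧ ∀ s ∈ T, dq q' s = -1
    · obtain ⟨q', h1, h2⟩ := h
      exact ⟨q', h1, fun _ => h2⟩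
    · exact ⟨0, fun s _ => by rw [dq_zero]; norm_num, fun h' => absurd h' h⟩
  choose Q hQ1 hQ2 using hQ
  obtain ⟨D, hD, hDQ⟩ := exists_denom (ι := {T // T ∈ S.powerset} × Fin r) fun x => Q x.1.1 x.2
  obtain ⟨E, hE⟩ : ∃ E : ℤ, E = 1 + ∑ s ∈ S, ∑ k, |s k| := ⟨_, rfl⟩
  have hsum0 : ∀ s ∈ S, 0 ≤ ∑ k, |s k| := fun s _ => Finset.sum_nonneg fun k _ => abs_nonneg _
  have hE1 : 1 ≤ E := by
    rw [hE]
    have := Finset.sum_nonneg hsum0
    omega
  obtain ⟨c1, hc1⟩ : ∃ c1 : ℤ, c1 = D * E := ⟨_, rfl⟩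
  have hc1pos : 0 < c1 := by rw [hc1]; exact mul_pos hD (by omega)
  have hcE : E ≤ c1 := by
    rw [hc1]
    nlinarith
  choose z0 hz0 using hDQ
  let z : {T // T ∈ S.powerset} → Fin r → ℤ := fun T k => E * z0 (T, k)
  have hz : ∀ T : {T // T ∈ S.powerset}, (fun k => (z T k : ℚ)) = (c1 : ℚ) • Q T.1 := by
    intro T
    funext k
    have h1 := hz0 (T, k)
    change ((E * z0 (T, k) : ℤ) : ℚ) = (c1 : ℚ) * Q T.1 k
    rw [hc1]
    push_cast
    rw [← h1]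
    ring
  have hzs : ∀ (T : {T // T ∈ S.powerset}) (s : Fin r → ℤ),
      ((z T ⬝ᵥ s : ℤ) : ℚ) = c1 * dq (Q T.1) s := by
    intro T s
    rw [← dq_int, hz, dq_smul]
  let B : Finset (Fin r → ℤ) := insert 0 ((Finset.univ.image fun i : Fin r =>
    (Pi.single i 1 : Fin r → ℤ)) ∪ Finset.univ.image z)
  have hB : ∀ b ∈ B, ∀ s ∈ S, -c1 ≤ b ⬝ᵥ s := by
    intro b hb s hs
    rcases Finset.mem_insert.1 hb with rfl | hb
    · rw [zero_dotProduct]
      omega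
    rcases Finset.mem_union.1 hb with hb | hb
    · obtain ⟨i, -, rfl⟩ := Finset.mem_image.1 hb
      rw [single_dotProduct, one_mul]
      have h1 : |s i| ≤ ∑ k, |s k| :=
        Finset.single_le_sum (f := fun k => |s k|) (fun k _ => abs_nonneg _) (Finset.mem_univ i)
      have h2 : ∑ k, |s k| ≤ ∑ s ∈ S, ∑ k, |s k| :=
        Finset.single_le_sum (f := fun s : Fin r → ℤ => ∑ k, |s k|) hsum0 hs
      have h3 := neg_abs_le (s i)
      omega
    · obtain ⟨T, -, rfl⟩ := Finset.mem_image.1 hb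
      have h1 := hQ1 T.1 s hs
      have h2 : ((-c1 : ℤ) : ℚ) ≤ ((z T ⬝ᵥ s : ℤ) : ℚ) := by
        rw [hzs]
        have h3 : (0 : ℚ) < c1 := by exact_mod_cast hc1pos
        push_cast
        nlinarith
      exact_mod_cast h2
  refine ⟨c1, B, hc1pos, Finset.mem_insert_self _ _, fun i => ?_, fun v hv => ?_⟩
  · exact Finset.mem_insert_of_mem (Finset.mem_union_left _
      (Finset.mem_image.2 ⟨i, Finset.mem_univ _, rfl⟩))
  obtain ⟨q, j, σ, α, h1, h2, h3, h4⟩ := exists_rep S hpos v hv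
  refine ⟨j, σ, α, fun i => ⟨(h2 i).1, (h2 i).2.1⟩, h3, h4, fun hS => ?_, fun b hb hmin => ?_⟩
  · have h5 := h1 _ hS
    have h6 : dq q (∑ i, σ i) = ∑ i, (1 : ℚ) * dq q (σ i) :=
      dq_sum q σ (fun _ => 1) fun k => by
        rw [Finset.sum_apply]
        push_cast
        exact Finset.sum_congr rfl fun i _ => one_mul _
    rw [h6] at h5
    simp only [one_mul] at h5
    rw [Finset.sum_congr rfl fun i _ => (h2 i).2.2, Finset.sum_const, Finset.card_univ,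
      Fintype.card_fin, nsmul_eq_mul] at h5
    have h7 : (j : ℚ) ≤ 1 := by linarith
    exact_mod_cast h7
  · let T : Finset (Fin r → ℤ) := Finset.univ.image σ
    have hT : T ∈ S.powerset := by
      rw [Finset.mem_powerset]
      intro s hs
      obtain ⟨i, -, rfl⟩ := Finset.mem_image.1 hs
      exact (h2 i).1
    have hTq : ∀ i, dq (Q T) (σ i) = -1 := fun i =>
      hQ2 T ⟨q, h1, fun s hs => by
        obtain ⟨i, -, rfl⟩ := Finset.mem_image.1 hs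
        exact (h2 i).2.2⟩ _ (Finset.mem_image.2 ⟨i, Finset.mem_univ _, rfl⟩)
    have hbT : z ⟨T, hT⟩ ∈ B := Finset.mem_insert_of_mem (Finset.mem_union_right _
      (Finset.mem_image.2 ⟨_, Finset.mem_univ _, rfl⟩))
    have h5 := hmin _ hbT
    have h5' : ((b ⬝ᵥ v : ℤ) : ℚ) ≤ ((z ⟨T, hT⟩ ⬝ᵥ v : ℤ) : ℚ) := by exact_mod_cast h5
    rw [hzs, dq_sum _ σ α h3, ← dq_int, dq_sum _ σ α h3] at h5'
    simp only [hTq] at h5'
    rw [Finset.mul_sum] at h5'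
    have h6 : ∑ i, α i * (dq (fun i => (b i : ℚ)) (σ i) + c1) ≤ 0 := by
      have h7 : ∑ i, α i * (dq (fun i => (b i : ℚ)) (σ i) + c1) =
          ∑ i, α i * dq (fun i => (b i : ℚ)) (σ i) - ∑ i, (c1 : ℚ) * (α i * -1) := by
        rw [← Finset.sum_sub_distrib]
        exact Finset.sum_congr rfl fun i _ => by ring
      rw [h7]
      linarith
    have h7 : ∀ i ∈ (Finset.univ : Finset (Fin j)),
        0 ≤ α i * (dq (fun i => (b i : ℚ)) (σ i) + c1) := by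
      intro i _
      refine mul_nonneg (h2 i).2.1.le ?_
      rw [dq_int]
      have h8 := hB b hb (σ i) (h2 i).1
      have h9 : ((-c1 : ℤ) : ℚ) ≤ ((b ⬝ᵥ σ i : ℤ) : ℚ) := by exact_mod_cast h8
      push_cast at h9
      linarith
    have h8 := (Finset.sum_eq_zero_iff_of_nonneg h7).1 (le_antisymm h6 (Finset.sum_nonneg h7))
    intro i
    have h9 := (mul_eq_zero.1 (h8 i (Finset.mem_univ _))).resolve_left (h2 i).2.1.ne'
    rw [dq_int] at h9
    have h10 : ((b ⬝ᵥ σ i : ℤ) : ℚ) = ((-c1 : ℤ) : ℚ) := by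
      push_cast
      linarith
    exact_mod_cast h10

end Pool.Agent.R885
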