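import Pool.Agent.R885.Pla
import Pool.Agent.R885.LPB
import Pool.Agent.R885.Noe
import Pool.Agent.R885.Fd

/-!
Numerical dimension at most zero when the tight vectors span the directions of the places.
-/

set_option autoImplicit false
set_option linter.overlappingInstances false
set_option linter.unusedSectionVars false

open FF Pool.Agent.W603.LV Pool.Agent.W619.PQ Pool.Agent.Y173.QA Pool.Agent.W619.TW
  Pool.Agent.TH165.ACC

namespace Pool.Agent.R885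

theorem inSpan_dq {r : ℕ} {S : Finset (Fin r → ℤ)} {v : Fin r → ℤ} (h : InSpan S v)
    (q : Fin r → ℚ) (hq : ∀ s ∈ S, dq q s = 0) : dq q v = 0 := by
  obtain ⟨D, hD, hDq⟩ := exists_denom q
  choose z hz using hDq
  have h1 : ∀ s : Fin r → ℤ, ((z ⬝ᵥ s : ℤ) : ℚ) = D * dq q s := by
    intro s
    rw [← dq_int]
    unfold dq
    rw [Finset.mul_sum]
    refine Finset.sum_congr rfl fun i _ => ?_
    beta_reduce
    rw [← hz i]
    ring
  have h2 : z ⬝ᵥ v = 0 := by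
    refine h z fun s hs => ?_
    have h3 := h1 s
    rw [hq s hs, mul_zero] at h3
    exact_mod_cast h3
  have h3 := h1 v
  rw [h2, Int.cast_zero] at h3
  have hD' : (D : ℚ) ≠ 0 := by exact_mod_cast hD.ne'
  exact (mul_eq_zero.1 h3.symm).resolve_left hD'

section

variable {k K : Type} [Field k] [CharZero k] [Field K] [Algebra k K] {r m : ℕ} {x : Fin r → K}

theorem place_dir (htr : Algebra.trdeg k K = (m + 1 : ℕ))
    (hfin : ∀ y : Fin (m + 1) → K, IsTranscendenceBasis k y →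
      FiniteDimensional (IntermediateField.adjoin k (Set.range y)) K)
    (P : Place k K) (hx : ∀ i, x i ≠ 0) {J : Type} [Fintype J]
    (hr : r = Fintype.card J + (m + 1)) {f : J → (Fin r → ℤ) →₀ k}
    (hf0 : ∀ l, f l ≠ 0) (hf : ∀ l, ev x (f l) = 0) (hnd : NonDeg P.RF f (vec P x))
    {S : Finset (Fin r → ℤ)} {u0 : Fin r → ℤ} {c : ℤ} (hc : 0 < c)
    (hF : ∀ v, v ≠ 0 → InSpan S v → c * (1 + ∑ l, mn v (f l)) ≤ u0 ⬝ᵥ v)
    (hS : ∀ s, s ∈ S ↔ s ≠ 0 ∧ InSpan S s ∧ u0 ⬝ᵥ s = c * (1 + ∑ l, mn s (f l)))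
    (hsp : InSpan S (vec P x)) {c1 : ℤ} {B : Finset (Fin r → ℤ)}
    (hB : ∀ v : Fin r → ℤ, (∀ q : Fin r → ℚ, (∀ s ∈ S, dq q s = 0) → dq q v = 0) →
        ∃ (j : ℕ) (σ : Fin j → Fin r → ℤ) (α : Fin j → ℚ), (∀ i, σ i ∈ S ∧ 0 < α i) ∧
          (∀ k, ∑ i, α i * (σ i k : ℚ) = v k) ∧
          (LinearIndependent ℚ fun (i : Fin j) (k : Fin r) => (σ i k : ℚ)) ∧
          ((∑ i, σ i) ∈ S → j ≤ 1) ∧
          ∀ b ∈ B, (∀ b' ∈ B, b ⬝ᵥ v ≤ b' ⬝ᵥ v) → ∀ i, b ⬝ᵥ σ i = -c1)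
    {b0 : B} (hb0 : ∀ b : B, (b0 : Fin r → ℤ) ⬝ᵥ vec P x ≤ (b : Fin r → ℤ) ⬝ᵥ vec P x)
    {y : Fin m → K}
    (hy : ∀ p : MvPolynomial (Fin m) k, p ≠ 0 →
      MvPolynomial.aeval y p ≠ 0 ∧ P.ord (MvPolynomial.aeval y p) = 0)
    {a : Fin m → B → k} {a0 : B → k}
    (hl0 : (∑ b : B, a0 b • mono x ((b : Fin r → ℤ) - b0)) ≠ 0)
    (hl0' : P.ord (∑ b : B, a0 b • mono x ((b : Fin r → ℤ) - b0)) = 0)
    (hyl : ∀ j, y j * (∑ b : B, a0 b • mono x ((b : Fin r → ℤ) - b0)) =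
      ∑ b : B, a j b • mono x ((b : Fin r → ℤ) - b0)) :
    vec P x = 0 ∨ ∃ (s c1 : Fin r → ℤ) (α : ℤ), 0 < α ∧ vec P x = α • s ∧ c1 ⬝ᵥ s = 1 ∧
      u0 ⬝ᵥ s = c * (1 + ∑ l, mn s (f l)) := by
  classical
  by_cases hv : vec P x = 0
  · exact Or.inl hv
  right
  obtain ⟨j, σ, α, hσ, hsum, hli, himp, hbs⟩ := hB (vec P x) (inSpan_dq hsp)
  -- the faces
  obtain ⟨L0, hL0d⟩ : ∃ L0 : Finset J, L0 = Finset.univ.filter fun l =>
    ∃ m0 ∈ (f l).support, ∀ i, m0 ⬝ᵥ σ i = mn (σ i) (f l) := ⟨_, rfl⟩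
  have hface : ∀ l, ∀ m0 ∈ (f l).support, (∀ i, m0 ⬝ᵥ σ i = mn (σ i) (f l)) →
      ∀ m ∈ (f l).support, m ⬝ᵥ vec P x = mn (vec P x) (f l) → ∀ i, m ⬝ᵥ σ i = m0 ⬝ᵥ σ i := by
    intro l m0 hm0 hm0' m' hm' hmv
    have h1 : ((m' - m0) ⬝ᵥ vec P x : ℤ) ≤ 0 := by
      rw [sub_dotProduct, hmv]
      have := mn_le (v := vec P x) hm0
      omega
    have h2 := dq_sum (fun i => (((m' - m0) i : ℤ) : ℚ)) σ α hsum
    rw [dq_int] at h2
    have h3 : ∀ i ∈ (Finset.univ : Finset (Fin j)),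
        0 ≤ α i * dq (fun i => (((m' - m0) i : ℤ) : ℚ)) (σ i) := by
      intro i _
      rw [dq_int]
      refine mul_nonneg (hσ i).2.le ?_
      have h4 : 0 ≤ (m' - m0) ⬝ᵥ σ i := by
        rw [sub_dotProduct, hm0' i]
        exact sub_nonneg.2 (mn_le hm')
      exact_mod_cast h4
    have h4 : ∑ i, α i * dq (fun i => (((m' - m0) i : ℤ) : ℚ)) (σ i) = 0 := by
      refine le_antisymm ?_ (Finset.sum_nonneg h3)
      rw [← h2]
      exact_mod_cast h1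
    intro i
    have h5 := (Finset.sum_eq_zero_iff_of_nonneg h3).1 h4 i (Finset.mem_univ _)
    have h6 := (mul_eq_zero.1 h5).resolve_left (hσ i).2.ne'
    rw [dq_int] at h6
    have h7 : (m' - m0) ⬝ᵥ σ i = 0 := by exact_mod_cast h6
    rw [sub_dotProduct] at h7
    omega
  have hrank := rank_place htr hfin P hx hf0 hf hnd (bb := fun b : B => (b : Fin r → ℤ)) (b0 := b0)
    hb0 hy hl0 hl0' hyl hli (by
      intro b hb i
      have h1 := hbs b.1 b.2 (fun b' hb' => by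
        have := hb0 ⟨b', hb'⟩
        rw [hb]
        exact this) i
      have h2 := hbs b0.1 b0.2 (fun b' hb' => hb0 ⟨b', hb'⟩) i
      rw [sub_dotProduct, h1, h2, sub_self]) (L0 := L0) (by
      intro l hl m1 hm1 m2 hm2 h1 h2 i
      rw [hL0d, Finset.mem_filter] at hl
      obtain ⟨m0, hm0, hm0'⟩ := hl.2
      rw [hface l m0 hm0 hm0' m1 hm1 h1 i, hface l m0 hm0 hm0' m2 hm2 h2 i])
  have hj1 : 1 ≤ j := by
    by_contra hj
    obtain rfl : j = 0 := by omega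
    apply hv
    funext i
    have h1 := hsum i
    rw [Finset.univ_eq_empty, Finset.sum_empty] at h1
    rw [Pi.zero_apply]
    exact_mod_cast h1.symm
  have hT : ∀ l ∈ L0ᶜ, ∀ m ∈ (f l).support, ∃ i, mn (σ i) (f l) < m ⬝ᵥ σ i := by
    intro l hl m' hm'
    rw [Finset.mem_compl, hL0d, Finset.mem_filter] at hl
    by_contra hcon
    push Not at hcon
    exact hl ⟨Finset.mem_univ _, m', hm', fun i => le_antisymm (hcon i) (mn_le hm')⟩
  have hcard : j ≤ (L0ᶜ).card + 1 := by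
    rw [Finset.card_compl]
    have h1 : L0.card ≤ Fintype.card J := Finset.card_le_univ _
    omega
  have hsumS := key_sum hf0 hc hF hS hj1 (fun i => (hσ i).1) hli hT hcard
  obtain rfl : j = 1 := le_antisymm (himp hsumS) hj1
  obtain ⟨c1', hc1'⟩ := primitive hf0 hc hF hS (hσ 0).1
  have hv1 : ∀ i, α 0 * (σ 0 i : ℚ) = vec P x i := by
    intro i
    have h1 := hsum i
    rwa [Fin.sum_univ_one] at h1
  have hα : ((c1' ⬝ᵥ vec P x : ℤ) : ℚ) = α 0 := by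
    rw [← dq_int]
    have h2 := dq_sum (fun i => ((c1' i : ℤ) : ℚ)) σ α hsum
    rw [Fin.sum_univ_one, dq_int _ (σ 0), hc1', Int.cast_one, mul_one] at h2
    exact h2
  refine ⟨σ 0, c1', c1' ⬝ᵥ vec P x, ?_, ?_, hc1', ((hS _).1 (hσ 0).1).2.2⟩
  · have h1 := (hσ 0).2
    rw [← hα] at h1
    exact_mod_cast h1
  · funext i
    have h1 := hv1 i
    rw [← hα] at h1
    rw [Pi.smul_apply, smul_eq_mul]
    exact_mod_cast h1.symm

theorem hfin_of_gen (hgen : IntermediateField.adjoin k (Set.range x) = ⊤) {d : ℕ}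
    {y : Fin d → K} (hy : IsTranscendenceBasis k y) :
    FiniteDimensional (IntermediateField.adjoin k (Set.range y)) K := by
  have halg : Algebra.IsAlgebraic (IntermediateField.adjoin k (Set.range y)) K :=
    hy.isAlgebraic_field
  refine (Pool.Agent.TH122.AB.fin_of_gen (IntermediateField.adjoin k (Set.range y))
    (S := Set.range x) (Set.finite_range _) (fun L _ hSL => ?_)
    (fun z _ => (Algebra.IsAlgebraic.isAlgebraic z).isIntegral)).1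
  rw [eq_top_iff, ← hgen, IntermediateField.adjoin_le_iff]
  exact hSL

theorem ini_zero {f : (Fin r → ℤ) →₀ k} (hf : f ≠ 0) : ini 0 f = f := by
  classical
  unfold ini
  rw [Finsupp.filter_eq_self_iff]
  intro m hm
  rw [dotProduct_zero, mn_zero hf]

theorem gr'_zero (hx : ∀ i, x i ≠ 0) (f : (Fin r → ℤ) →₀ k) (i : Fin r) :
    gr' x f 0 i = gr x f i := by
  rw [gr_eq hx f 0 i, mono_zero, one_mul]

/-- the frames at the places over the charts -/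
theorem place_frame (htr : Algebra.trdeg k K = (m + 1 : ℕ))
    (hgen : IntermediateField.adjoin k (Set.range x) = ⊤)
    (P : Place k K) (hx : ∀ i, x i ≠ 0) {J : Type} [Fintype J] [DecidableEq J]
    (e : J ⊕ Fin (m + 1) ≃ Fin r) {f : J → (Fin r → ℤ) →₀ k}
    (hf0 : ∀ l, f l ≠ 0) (hf : ∀ l, ev x (f l) = 0) (hnd : NonDeg P.RF f (vec P x))
    {S : Finset (Fin r → ℤ)} {u0 : Fin r → ℤ} {c : ℤ} (hc : 0 < c)
    (hF : ∀ v, v ≠ 0 → InSpan S v → c * (1 + ∑ l, mn v (f l)) ≤ u0 ⬝ᵥ v)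
    (hS : ∀ s, s ∈ S ↔ s ≠ 0 ∧ InSpan S s ∧ u0 ⬝ᵥ s = c * (1 + ∑ l, mn s (f l)))
    (hsp : InSpan S (vec P x)) {c1 : ℤ} {B : Finset (Fin r → ℤ)} (h0B : (0 : Fin r → ℤ) ∈ B)
    (hB : ∀ v : Fin r → ℤ, (∀ q : Fin r → ℚ, (∀ s ∈ S, dq q s = 0) → dq q v = 0) →
        ∃ (j : ℕ) (σ : Fin j → Fin r → ℤ) (α : Fin j → ℚ), (∀ i, σ i ∈ S ∧ 0 < α i) ∧
          (∀ k, ∑ i, α i * (σ i k : ℚ) = v k) ∧
          (LinearIndependent ℚ fun (i : Fin j) (k : Fin r) => (σ i k : ℚ)) ∧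
          ((∑ i, σ i) ∈ S → j ≤ 1) ∧
          ∀ b ∈ B, (∀ b' ∈ B, b ⬝ᵥ v ≤ b' ⬝ᵥ v) → ∀ i, b ⬝ᵥ σ i = -c1)
    {v : Fin (m + 2) → B → k} (hℓ : ∀ l, ∑ b : B, v l b • mono x b ≠ 0)
    (hbas : ∀ l0 : Fin (m + 2), IsTranscendenceBasis k fun j : Fin (m + 1) =>
        (∑ b : B, v (l0.succAbove j) b • mono x b) / ∑ b : B, v l0 b • mono x b)
    (hord : ∀ b : B, ∃ l, P.ord (∑ b : B, v l b • mono x b) ≤ P.ord (mono x b))
    {C0 : Fin (m + 1) → Fin r → ℤ} (h0 : dt e (fun l => gr x (f l)) C0 ≠ 0)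
    (l0 : Fin (m + 2)) {p : MvPolynomial (Fin (m + 1)) k} (hp : Irreducible p)
    (hP : Adic (fun j : Fin (m + 1) =>
        (∑ b : B, v (l0.succAbove j) b • mono x b) / ∑ b : B, v l0 b • mono x b) p P) :
    IsDivisorial P (m + 1) ∧
    ∃ D : Fin (m + 1) → Derivation k K K, (∀ a, Pres P (D a)) ∧ Om e x f C0 D ≠ 0 ∧
      c * P.ord (Om e x f C0 D) + u0 ⬝ᵥ vec P x = 0 := by
  classical
  have hfin : ∀ y : Fin (m + 1) → K, IsTranscendenceBasis k y →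
      FiniteDimensional (IntermediateField.adjoin k (Set.range y)) K :=
    fun y hy => hfin_of_gen hgen hy
  obtain ⟨b, hy⟩ := adic_res (hbas l0).1 hp hP
  refine ⟨⟨_, hy⟩, ?_⟩
  obtain ⟨bs, -, hbs⟩ := Finset.exists_min_image (Finset.univ : Finset B)
    (fun b => (b : Fin r → ℤ) ⬝ᵥ vec P x) ⟨⟨0, h0B⟩, Finset.mem_univ _⟩
  have hbs' : ∀ b : B, (bs : Fin r → ℤ) ⬝ᵥ vec P x ≤ (b : Fin r → ℤ) ⬝ᵥ vec P x := fun b =>
    hbs b (Finset.mem_univ _)
  obtain ⟨ℓ, hℓd⟩ : ∃ ℓ : Fin (m + 2) → K, ℓ = fun l => ∑ b : B, v l b • mono x b := ⟨_, rfl⟩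
  have hℓd' : ∀ l, ∑ b : B, v l b • mono x b = ℓ l := fun l => by rw [hℓd]
  simp only [hℓd'] at hℓ hbas hord hP hy ⊢
  have hZ0 : ∀ j : Fin (m + 1), 0 ≤ P.ord (ℓ (l0.succAbove j) / ℓ l0) := by
    intro j
    have h1 := (hP (MvPolynomial.X j) (MvPolynomial.X_ne_zero j)).1
    rwa [MvPolynomial.aeval_X] at h1
  have hmin : ∀ l, P.ord (ℓ l0) ≤ P.ord (ℓ l) := by
    intro l
    by_cases hl : l = l0
    · rw [hl]
    · obtain ⟨j, rfl⟩ := Fin.exists_succAbove_eq hl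
      have h1 := hZ0 j
      rw [P.ord_div (hℓ _) (hℓ _)] at h1
      omega
  have hordℓ : P.ord (ℓ l0) = (bs : Fin r → ℤ) ⬝ᵥ vec P x := by
    apply le_antisymm
    · obtain ⟨l, hl⟩ := hord bs
      rw [ord_mono P hx] at hl
      exact (hmin l).trans hl
    · have h1 : Ge P ((bs : Fin r → ℤ) ⬝ᵥ vec P x) (ℓ l0) := by
        rw [← hℓd']
        refine Ge.sum _ _ fun b _ => ?_
        rw [Algebra.smul_def]
        have h2 : Ge P ((bs : Fin r → ℤ) ⬝ᵥ vec P x) (mono x (b : Fin r → ℤ)) := Or.inr (by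
          rw [ord_mono P hx]
          exact hbs' b)
        have h3 := (Ge.const (P := P) (v l0 b)).mul h2
        rwa [zero_add] at h3
      exact h1.resolve_left (hℓ _)
  -- the forms divided by the monomial
  have hz0 : mono x (bs : Fin r → ℤ) ≠ 0 := mono_ne hx _
  have ht : ∀ l, ∑ b : B, v l b • mono x ((b : Fin r → ℤ) - bs) = ℓ l / mono x (bs : Fin r → ℤ) := by
    intro l
    rw [← hℓd', Finset.sum_div]
    refine Finset.sum_congr rfl fun b _ => ?_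
    rw [mono_sub hx, smul_div_assoc]
  have hA : ∀ l, ℓ l / mono x (bs : Fin r → ℤ) ∈ A0 P x := by
    intro l
    rw [← ht]
    refine sum_mem fun b _ => ?_
    rw [Algebra.smul_def]
    refine mul_mem (const_mem P x _) (mono_mem P x ?_)
    rw [sub_dotProduct]
    exact sub_nonneg.2 (hbs' b)
  have hne : ℓ l0 / mono x (bs : Fin r → ℤ) ≠ 0 := div_ne_zero (hℓ _) hz0
  have ho : P.ord (ℓ l0 / mono x (bs : Fin r → ℤ)) = 0 := by
    rw [P.ord_div (hℓ _) hz0, ord_mono P hx, hordℓ, sub_self]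
  have hmul : ∀ j : Fin m, ℓ (l0.succAbove (b.succAbove j)) / ℓ l0 *
      (ℓ l0 / mono x (bs : Fin r → ℤ)) =
      ℓ (l0.succAbove (b.succAbove j)) / mono x (bs : Fin r → ℤ) := by
    intro j
    have := hℓ l0
    field_simp
  have hdir := place_dir htr hfin P hx (by
      rw [← Fintype.card_fin r, ← Fintype.card_congr e, Fintype.card_sum, Fintype.card_fin]) hf0 hf
      hnd hc hF hS hsp hB hbs' hy
      (a := fun j => v (l0.succAbove (b.succAbove j))) (a0 := v l0)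
      (by rw [ht]; exact hne) (by rw [ht]; exact ho) (fun j => by rw [ht, ht]; exact hmul j)
  exact frame_at htr hfin P hx hgen hf0 hf hnd hy
    (fun j => ⟨_, hA (l0.succAbove (b.succAbove j)), _, hA l0, hne, ho, hmul j⟩) h0 hdir

end

end Pool.Agent.R885
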