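import Pool.Agent.R885.DV

/-!
Divisors which are `ℚ`-linearly equivalent to multiples of `K_X + Δ`.
-/

set_option autoImplicit false
set_option linter.overlappingInstances false
set_option linter.unusedSectionVars false

open FF Filter Pool.Agent.W602.GT Pool.Agent.W603.LV Pool.Agent.W619.PQ Pool.Agent.W619.TW
  Pool.Agent.W619.Y Pool.Agent.Y172 Pool.Agent.Y191 Pool.Agent.Y174

namespace Pool.Agent.R885.DV

section

variable {K : Type} [Field K] [Algebra ℂ K] {N n : ℕ}

/-- powers of independent elements -/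
theorem pow_indep {F ι : Type} [Field F] [Algebra F K] {y : ι → K} (hy : AlgebraicIndependent F y)
    {n : ι → ℕ} (hn : ∀ i, n i ≠ 0) : AlgebraicIndependent F fun i => y i ^ n i := by
  have h1 := hy.polynomial_aeval_of_transcendental (f := fun i => (Polynomial.X : Polynomial F) ^ n i)
    fun i => (Polynomial.transcendental_X F).pow (Nat.pos_of_ne_zero (hn i))
  simpa using h1

theorem frame_pluri {E : Fin n → Derivation ℂ K K} (hfr : IsFrame E)
    (D : Fin n → Derivation ℂ K K) : ∃ δ : K, ∀ (m : ℕ) (ω : (Fin n → Derivation ℂ K K) → K),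
      IsPluri m ω → ω D = δ ^ m * ω E := by
  choose B hB using fun i => hfr (D i)
  refine ⟨(Matrix.of B).det, fun m ω hω => ?_⟩
  have h1 := hω (Matrix.of B) E
  have h2 : (fun i => ∑ j, Matrix.of B i j • E j) = D := by
    funext i
    exact (hB i).symm
  rw [h2] at h1
  exact h1

/-- **Divisors which are `ℚ`-linearly equivalent to a multiple of `K_X + Δ`.** -/
theorem transfer {d : ℕ} (htr : Algebra.trdeg ℂ K = (n : ℕ)) {y : Fin (N + 1) → K}
    (hy : NormalModel y) {Δ : Place ℂ K → ℚ} {β : Place ℂ K → ℚ}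
    (hβ : ∀ P, IsPrimeDivisor y P → β P ≤ Δ P)
    (hdisc : ∀ Q, Divisorial n Q → LogDisc y n Δ Q (1 - β Q))
    (h1 : PairKod ℂ K n (fun P => (β P : ℝ)) d) (h2 : PairNum ℂ K n (fun P => (β P : ℝ)) d)
    {L : Place ℂ K → ℚ} (hL : IsDiv y L) {a b : ℕ} (ha : 1 ≤ a) (hb : 1 ≤ b)
    {η : (Fin n → Derivation ℂ K K) → K} (hη : IsPluri a η) (hη0 : η ≠ 0)
    (hηP : ∀ P, IsPrimeDivisor y P → OrdEq P η (b * L P - a * Δ P)) :
    iitakaDim y L = (d : WithBot ℕ) ∧
      ∀ A, Effective y A → Integral y A → numDim y L A = (d : EReal) := by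
  classical
  obtain ⟨x, E, hx, hE⟩ := exists_crd htr
  have hfr : IsFrame E := fun G =>
    ⟨fun j => G (x j), (Pool.Agent.W73.PG.PULL.expand x hx E hE G).symm⟩
  have hηE : η E ≠ 0 := fun h0 => hη0 (pluri_zero hfr hη h0)
  obtain ⟨m0, hm0, ω, hω, D, hD, hind⟩ := h1
  -- the sections at the frame
  obtain ⟨δ, hδ⟩ := frame_pluri hfr D
  have hδω : ∀ l, ω l D = δ ^ m0 * ω l E := fun l => hδ m0 (ω l) (hω l).1
  have hωE : ∀ l, ω l E ≠ 0 := fun l h0 => hD l (by rw [hδω, h0, mul_zero])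
  have hδ0 : δ ^ m0 ≠ 0 := fun h0 => hD 0 (by rw [hδω, h0, zero_mul])
  have hind' : AlgebraicIndependent ℂ fun l : Fin d => ω l.succ E / ω 0 E := by
    have h3 : (fun l : Fin d => ω l.succ D / ω 0 D) = fun l => ω l.succ E / ω 0 E := by
      funext l
      rw [hδω, hδω, mul_div_mul_left _ _ hδ0]
    rwa [h3] at hind
  refine dimsD hL ?_ (m0 := m0 * b) (Nat.mul_pos hm0 hb)
    (g := fun j => ω j E ^ a / η E ^ m0) ?_ ?_ ?_
  · intro A hA
    obtain ⟨A', hA'd⟩ : ∃ A' : Place ℂ K → ℚ, A' = fun P => A P + b * |L P| := ⟨_, rfl⟩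
    have hA' : Effective y A' := by
      refine ⟨fun P hP => ?_, ?_⟩
      · rw [hA'd]
        have := hA.1 P hP
        positivity
      · refine (hA.2.union hL).subset ?_
        rintro P ⟨hP, h0⟩
        by_cases h3 : A P = 0
        · right
          refine ⟨hP, fun h4 => h0 ?_⟩
          rw [hA'd]
          beta_reduce
          rw [h3, h4]
          simp
        · exact Or.inl ⟨hP, h3⟩
    obtain ⟨C, hC⟩ := _root_.Pool.Agent.R885.N.sec_bound hy hdisc h2 hfr hA'
    refine ⟨C * (2 * a) ^ d, fun m hm r f hf hfs => ?_⟩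
    have hmb := Nat.div_add_mod m b
    have hmb' := Nat.mod_lt m hb
    have hmb'' := Nat.div_le_self m b
    obtain ⟨q, hq⟩ : ∃ q, q = m / b := ⟨_, rfl⟩
    obtain ⟨ρ, hρ⟩ : ∃ ρ, ρ = m % b := ⟨_, rfl⟩
    rw [← hq] at hmb hmb''
    rw [← hρ] at hmb hmb'
    obtain ⟨i, hi⟩ : ∃ i, i = q + 1 := ⟨_, rfl⟩
    have hi1 : 1 ≤ i := by omega
    have hib : i * b = b * q + b := by rw [hi]; ring
    have hlow : m ≤ i * b := by omega
    have hup : i * b ≤ m + b := by omega
    have him : i ≤ 2 * m := by omega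
    have h3 := hC (a * i) (Nat.mul_pos ha hi1) r (fun l => f l * η E ^ i) (by
      have h4 := hf.map' (LinearMap.mulRight ℂ (η E ^ i)) (by
        rw [LinearMap.ker_eq_bot]
        exact fun a b hab => mul_right_cancel₀ (pow_ne_zero _ hηE) hab)
      exact h4) fun l => ⟨fun D => f l * η D ^ i, ⟨?_, ?_⟩, rfl⟩
    · refine h3.trans ?_
      rw [mul_assoc, ← mul_pow]
      refine Nat.mul_le_mul_left _ (Nat.pow_le_pow_left ?_ _)
      calc a * i ≤ a * (2 * m) := Nat.mul_le_mul_left _ him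
        _ = 2 * a * m := by ring
    · intro B D
      have h4 := hη B D
      beta_reduce
      rw [h4, mul_pow, ← pow_mul]
      ring
    · intro P hP E' hE'
      beta_reduce
      by_cases hf0 : f l = 0
      · exact Or.inl (by rw [hf0, zero_mul])
      by_cases hη' : η E' = 0
      · exact Or.inl (by rw [hη', zero_pow (by omega), mul_zero])
      right
      rw [P.ord_mul hf0 (pow_ne_zero _ hη'), P.ord_pow]
      have h4 := ((hηP P hP).1 E' hE').resolve_left hη'
      have h5 := (hfs l P hP).resolve_left hf0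
      have hiq : (0 : ℚ) ≤ i := Nat.cast_nonneg _
      have h6 := mul_le_mul_of_nonneg_left h4 hiq
      have h7 : (m : ℚ) ≤ i * b := by exact_mod_cast hlow
      have h8 : (i : ℚ) * b ≤ m + b := by exact_mod_cast hup
      have h9 : -((i * b - m : ℚ) * L P) ≤ b * |L P| := by
        have h10 : -((i * b - m : ℚ) * L P) ≤ (i * b - m : ℚ) * |L P| := by
          rw [← mul_neg]
          exact mul_le_mul_of_nonneg_left (neg_le_abs _) (by linarith)
        exact h10.trans (mul_le_mul_of_nonneg_right (by linarith) (abs_nonneg _))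
      rw [Pi.add_apply, Pi.smul_apply, nsmul_eq_mul] at h5 ⊢
      rw [hA'd]
      push_cast at h6 ⊢
      nlinarith
  · intro j P hP
    right
    obtain ⟨-, E', hE', hηE', hord⟩ := hηP P hP
    obtain ⟨δ', hδ'⟩ := frame_pluri hfr E'
    have h3 := hδ' a η hη
    have h4 := hδ' m0 (ω j) (hω j).1
    have hδ'0 : δ' ≠ 0 := by
      rintro rfl
      rw [h3, zero_pow (by omega), zero_mul] at hηE'
      exact hηE' rfl
    have hω' : ω j E' ≠ 0 := by
      rw [h4]
      exact mul_ne_zero (pow_ne_zero _ hδ'0) (hωE j)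
    have h5 : ω j E ^ a / η E ^ m0 = ω j E' ^ a / η E' ^ m0 := by
      rw [h3, h4, mul_pow, mul_pow, ← pow_mul, ← pow_mul, mul_comm a m0,
        mul_div_mul_left _ _ (pow_ne_zero _ hδ'0)]
    rw [h5, div_eq_mul_inv, P.ord_mul (pow_ne_zero _ hω') (inv_ne_zero (pow_ne_zero _ hηE')),
      P.ord_inv, P.ord_pow, P.ord_pow]
    rcases (hω j).2 P (hP.divisorial hy htr) E' hE' with h6 | ⟨s, hs, hs0, h6⟩
    · exact absurd h6 hω'
    · rw [Nat.cast_zero, zero_mul, zero_sub] at h6
      beta_reduce at h6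
      have h7 : -((m0 : ℚ) * β P) ≤ (P.ord (ω j E') : ℤ) := by exact_mod_cast h6
      have h8 := mul_le_mul_of_nonneg_left (hβ P hP) (Nat.cast_nonneg (α := ℚ) m0)
      have haq : (0 : ℚ) ≤ a := Nat.cast_nonneg _
      have h9 : -((m0 : ℚ) * Δ P) ≤ (P.ord (ω j E') : ℤ) := by linarith
      have h10 := mul_le_mul_of_nonneg_left h9 haq
      simp only [Pi.smul_apply, nsmul_eq_mul]
      push_cast
      rw [hord]
      nlinarith
  · exact div_ne_zero (pow_ne_zero _ (hωE 0)) (pow_ne_zero _ hηE)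
  · have h3 : (fun i : Fin d => (ω i.succ E ^ a / η E ^ m0) / (ω 0 E ^ a / η E ^ m0)) =
        fun i => (ω i.succ E / ω 0 E) ^ a := by
      funext i
      rw [div_div_div_cancel_right₀ (pow_ne_zero _ hηE), div_pow]
    rw [h3]
    exact pow_indep hind' fun _ => by omega

end

end Pool.Agent.R885.DV
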