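import Pool.Agent.R885.G17

/-!
The theorem on nondegenerate pairs, for the hand-ins.
-/

set_option autoImplicit false
set_option linter.overlappingInstances false
set_option linter.unusedSectionVars false

open FF Pool.Agent.W602.GT Pool.Agent.Y172 Pool.Agent.Y191 Pool.Agent.Y174

namespace Pool.Agent.R885

/-- The function `A` on the integral vectors: positive, at most `1`, with bounded denominators,
`A (v + w) ≥ A v + A w - 1` and `A (g v) ≤ g A v`. -/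
structure IsWeight {r : ℕ} (A : (Fin r → ℤ) → ℚ) : Prop where
  pos : ∀ v, v ≠ 0 → 0 < A v
  le_one : ∀ v, A v ≤ 1
  denom : ∃ D : ℕ, 1 ≤ D ∧ ∀ v, ∃ z : ℤ, (D : ℚ) * A v = z
  add : ∀ v w, v ≠ 0 → w ≠ 0 → v + w ≠ 0 → A v + A w - 1 ≤ A (v + w)
  smul : ∀ (g : ℤ) v, 0 < g → v ≠ 0 → A (g • v) ≤ g * A v

/-- The polytope of the rational `u` with
`⟨u, v⟩ ≥ t A v + ∑ l, min ⟨supp (f l), v⟩ + ∑ j, c j * min ⟨supp (h j), v⟩` for all integral
`v ≠ 0`. -/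
def Ftope {r q p : ℕ} (t : ℚ) (A : (Fin r → ℤ) → ℚ) (c : Fin p → ℚ)
    (f : Fin q → (Fin r → ℤ) →₀ ℂ) (h : Fin p → (Fin r → ℤ) →₀ ℂ) : Set (Fin r → ℚ) :=
  {u | ∀ v : Fin r → ℤ, v ≠ 0 →
    t * A v + ∑ l, (mn v (f l) : ℚ) + ∑ j, c j * (mn v (h j) : ℚ) ≤ ∑ i, u i * (v i : ℚ)}

/-- The integral vectors which are parallel to the set `F`: those `w` such that `u` and `u + w / N`
are in `F` for some `u` and some `N ≥ 1`. -/
def Parallel {r : ℕ} (F : Set (Fin r → ℚ)) : Set (Fin r → ℤ) :=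
  {w | ∃ u ∈ F, ∃ N : ℕ, 1 ≤ N ∧ (fun i => u i + (w i : ℚ) / N) ∈ F}

theorem ftope_eq {r q p : ℕ} {t : ℚ} {A : (Fin r → ℤ) → ℚ} {c : Fin p → ℚ}
    {f : Fin q → (Fin r → ℤ) →₀ ℂ} {h : Fin p → (Fin r → ℤ) →₀ ℂ} :
    Ftope t A c f h = FineW (fun v => t * A v) (Sum.elim (fun _ => 1) c) (Sum.elim f h) := by
  ext u
  unfold Ftope FineW
  simp only [Set.mem_ofPred_eq, Fintype.sum_sum_type, Sum.elim_inl, Sum.elim_inr, one_mul]
  constructor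
  · intro h1 v hv
    have := h1 v hv
    linarith
  · intro h1 v hv
    have := h1 v hv
    linarith

theorem parallel_eq {r q p : ℕ} {t : ℚ} {A : (Fin r → ℤ) → ℚ} {c : Fin p → ℚ}
    {f : Fin q → (Fin r → ℤ) →₀ ℂ} {h : Fin p → (Fin r → ℤ) →₀ ℂ} :
    Parallel (Ftope t A c f h) =
      dirsW (fun v => t * A v) (Sum.elim (fun _ => 1) c) (Sum.elim f h) := by
  unfold Parallel dirsW
  rw [ftope_eq]

section

variable {k K : Type} [Field k] [CharZero k] [IsAlgClosed k] [Field K] [Algebra k K]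

theorem denomW {r p : ℕ} {A : (Fin r → ℤ) → ℚ} (hA : IsWeight A) (c : Fin p → ℚ) :
    ∃ D : ℕ, 1 ≤ D ∧ (∀ v, ∃ z : ℤ, (D : ℚ) * A v = z) ∧ ∀ j, ∃ z : ℤ, (D : ℚ) * c j = z := by
  obtain ⟨D, hD, hDA⟩ := hA.denom
  refine ⟨D * ∏ j, (c j).den, Nat.mul_pos hD (Finset.prod_pos fun j _ => (c j).den_pos),
    fun v => ?_, fun j => ?_⟩
  · obtain ⟨z, hz⟩ := hDA v
    refine ⟨z * (∏ j, (c j).den : ℕ), ?_⟩
    push_cast
    rw [← hz]
    ring
  · refine ⟨D * (∏ i ∈ Finset.univ.erase j, (c i).den : ℕ) * (c j).num, ?_⟩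
    rw [← Finset.prod_erase_mul _ _ (Finset.mem_univ j)]
    have h1 : ((c j).den : ℚ) * c j = (c j).num := by
      rw [mul_comm]
      exact Rat.mul_den_eq_num (c j)
    push_cast
    rw [← h1]
    ring

end

/-- **Weak abundance for nondegenerate pairs.** -/
theorem pairs_kappa_nu {n q p : ℕ} (hn : 1 ≤ n) {f : Fin q → (Fin (n + q) → ℤ) →₀ ℂ}
    {h : Fin p → (Fin (n + q) → ℤ) →₀ ℂ}
    (hnd : ∀ (v : Fin (n + q) → ℤ) (V : Finset (Fin p)), NonDeg ℂ (Sum.elim f fun j : V => h j) v)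
    {A : (Fin (n + q) → ℤ) → ℚ} (hA : IsWeight A) {c : Fin p → ℚ} (hc : ∀ j, 0 ≤ c j ∧ c j ≤ 1)
    {K : Type} [Field K] [Algebra ℂ K] (htr : Algebra.trdeg ℂ K = (n : ℕ)) {x : Fin (n + q) → K}
    (hx : ∀ i, x i ≠ 0) (hgen : IntermediateField.adjoin ℂ (Set.range x) = ⊤)
    (hf : ∀ l, ev x (f l) = 0) (hhx : ∀ j, ev x (h j) ≠ 0) {t : ℚ} (ht0 : 0 < t) (ht1 : t ≤ 1)
    (hF : (Ftope t A c f h).Nonempty) {d : ℕ}
    (hd : Algebra.trdeg ℂ (IntermediateField.adjoin ℂ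
      {z : K | ∃ w ∈ Parallel (Ftope t A c f h), z = mono x w}) = (d : ℕ)) (htd : t = 1 ∨ d < n) :
    (t = 1 → PairKod ℂ K n (fun P => (bdry A c x h P : ℝ)) d ∧
      PairNum ℂ K n (fun P => (bdry A c x h P : ℝ)) d) ∧
    (t ≠ 1 → ∀ T : Finset K, ∃ M0 : ℕ, ∀ M : ℕ, M0 ≤ M →
      ∀ ω : (Fin n → Derivation ℂ K K) → K,
        PairSec ℂ K n (fun P => (bdry A c x h P : ℝ)) T M 1 ω → ω = 0) := by
  obtain ⟨D, hD, hDA, hDc⟩ := denomW hA c
  rw [ftope_eq] at hF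
  rw [parallel_eq] at hd
  refine ⟨fun h1 => ?_, fun h1 => ?_⟩
  · subst h1
    have e1 : (fun v => (1 : ℚ) * A v) = A := funext fun v => one_mul _
    rw [e1] at hF hd
    exact mainW hn rfl htr hx hgen hf hhx hnd hD hA.pos hA.le_one hDA hDc (fun j => (hc j).1)
      (fun j => (hc j).2) hA.add hA.smul hF hd
  · exact mainNeg hn rfl htr hx hgen hf hhx hnd hD hA.pos hA.le_one hDA hDc (fun j => (hc j).1)
      (fun j => (hc j).2) hA.add hA.smul ht0 (lt_of_le_of_ne ht1 h1) hF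
      (htd.resolve_left h1) hd

end Pool.Agent.R885
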