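import Pool.Agent.R885.G19

/-!
Quotients of nondegenerate pairs, and nondegenerate complete intersections without boundary.
-/

set_option autoImplicit false
set_option linter.overlappingInstances false
set_option linter.unusedSectionVars false

open FF IntermediateField Pool.Agent.W602.GT Pool.Agent.W619.PQ Pool.Agent.Y172 Pool.Agent.Y191
  Pool.Agent.Y174 Pool.Agent.W672.PG Pool.Agent.W824.PG

namespace Pool.Agent.R885

/-- **Weak abundance for quotients of nondegenerate pairs.** -/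
theorem quot_kappa_nu {n q p : ℕ} (hn : 1 ≤ n) {f : Fin q → (Fin (n + q) → ℤ) →₀ ℂ}
    {h : Fin p → (Fin (n + q) → ℤ) →₀ ℂ}
    (hnd : ∀ (v : Fin (n + q) → ℤ) (V : Finset (Fin p)), NonDeg ℂ (Sum.elim f fun j : V => h j) v)
    {A : (Fin (n + q) → ℤ) → ℚ} (hA : IsWeight A) {c : Fin p → ℚ} (hc : ∀ j, 0 ≤ c j ∧ c j ≤ 1)
    {L : Type} [Field L] [Algebra ℂ L] (htr : Algebra.trdeg ℂ L = (n : ℕ)) {x : Fin (n + q) → L}
    (hx : ∀ i, x i ≠ 0) (hgen : IntermediateField.adjoin ℂ (Set.range x) = ⊤)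
    (hf : ∀ l, ev x (f l) = 0) (hhx : ∀ j, ev x (h j) ≠ 0) {t : ℚ} (ht0 : 0 < t) (ht1 : t ≤ 1)
    (hF : (Ftope t A c f h).Nonempty) {d : ℕ}
    (hd : Algebra.trdeg ℂ (IntermediateField.adjoin ℂ
      {z : L | ∃ w ∈ Parallel (Ftope t A c f h), z = mono x w}) = (d : ℕ)) (htd : t = 1 ∨ d < n)
    {G : Subgroup (L ≃ₐ[ℂ] L)} [Finite G] {δ : Place ℂ (fixedField G) → ℚ}
    (hδ : ∀ Q, Divisorial n Q → ∀ Q' e, LiesOn Q' Q e → bdry A c x h Q' = 1 - e * (1 - δ Q))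
    {N : ℕ} {y : Fin (N + 1) → fixedField G} {Δ : Place ℂ (fixedField G) → ℚ}
    (hy : NormalModel y) (hΔ : Effective y Δ) (hm : ∀ P, IsPrimeDivisor y P → δ P ≤ Δ P)
    (hdisc : ∀ Q, Divisorial n Q → LogDisc y n Δ Q (1 - δ Q)) :
    (t = 1 → kodairaDim y n Δ = (d : WithBot ℕ) ∧
      ∀ A', Effective y A' → Integral y A' → numericalDim y n Δ A' = (d : EReal)) ∧
    (t ≠ 1 → kodairaDim y n Δ = ⊥ ∧ ∀ A', Effective y A' →
      (∃ M0 : ℕ, ∀ m : ℕ, M0 ≤ m → h0 y n m (m • Δ + A') = 0) ∧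
        numericalDim y n Δ A' = ⊥) := by
  obtain ⟨h1, h2⟩ := pairs_kappa_nu hn hnd hA hc htr hx hgen hf hhx ht0 ht1 hF hd htd
  have hess : Algebra.EssFiniteType ℂ L := by
    classical
    rw [← IntermediateField.fg_top_iff, ← hgen]
    exact ⟨Finset.univ.image x, by rw [Finset.coe_image, Finset.coe_univ, Set.image_univ]⟩
  have hfinK := fixed_finite G
  obtain ⟨hnK, -⟩ := Pool.Agent.W721.PG.EFF2.exists_basis (fixedField G) n htr
  have hβ0 : ∀ w, (0 : ℝ) ≤ (bdry A c x h w : ℝ) := fun w => by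
    exact_mod_cast bdry_nonneg hA.le_one
  have hδ' : ∀ v, IsDivisorial v n → ∀ w e, LiesOn w v e →
      ((bdry A c x h w : ℚ) : ℝ) = 1 - e * (1 - ((δ v : ℚ) : ℝ)) := by
    intro v hv w e hwv
    exact_mod_cast hδ v hv w e hwv
  refine ⟨fun ht => ?_, fun ht => ?_⟩
  · obtain ⟨h3, h4⟩ := h1 ht
    exact dims_pair hnK hy hΔ hm hdisc
      (quot_kod (δ := fun v => ((δ v : ℚ) : ℝ)) htr hess hβ0 hδ' h3)
      (quot_num (δ := fun v => ((δ v : ℚ) : ℝ)) htr hess hβ0 hδ' h4)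
  · exact neg_pair hnK hy hdisc
      (quot_neg (δ := fun v => ((δ v : ℚ) : ℝ)) htr hess hβ0 hδ' (h2 ht))

/-- The rational `u` with `⟨u, v⟩ ≥ t + ∑ l, min ⟨supp (f l), v⟩` for all integral `v ≠ 0`. -/
def Ft {r q : ℕ} (t : ℚ) (f : Fin q → (Fin r → ℤ) →₀ ℂ) : Set (Fin r → ℚ) :=
  {u | ∀ v : Fin r → ℤ, v ≠ 0 → t + ∑ l, (mn v (f l) : ℚ) ≤ ∑ i, u i * (v i : ℚ)}

theorem ft_eq {r q : ℕ} {t : ℚ} {f : Fin q → (Fin r → ℤ) →₀ ℂ} {c : Fin 0 → ℚ}
    {h : Fin 0 → (Fin r → ℤ) →₀ ℂ} : Ft t f = Ftope t (fun _ => 1) c f h := by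
  ext u
  unfold Ft Ftope
  simp only [Set.mem_ofPred_eq, mul_one, Finset.univ_eq_empty, Finset.sum_empty, add_zero]

theorem isWeight_one {r : ℕ} : IsWeight (r := r) fun _ => 1 where
  pos _ _ := one_pos
  le_one _ := le_rfl
  denom := ⟨1, le_rfl, fun _ => ⟨1, by norm_num⟩⟩
  add _ _ _ _ _ := by norm_num
  smul g v hg _ := by
    have : (1 : ℚ) ≤ g := by exact_mod_cast hg
    linarith

theorem bdry_one' {k K : Type} [Field k] [Field K] [Algebra k K] {r : ℕ} {c : Fin 0 → ℚ}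
    {x : Fin r → K} {h : Fin 0 → (Fin r → ℤ) →₀ k} (P : Place k K) :
    bdry (fun _ => 1) c x h P = 0 := by
  by_cases hv : vec P x = 0
  · exact bdry_no hv fun j => j.elim0
  · rw [bdry_ne hv, sub_self]

/-- **Abundance for nondegenerate complete intersections.** -/
theorem can_kappa_nu {n q : ℕ} (hn : 1 ≤ n) {f : Fin q → (Fin (n + q) → ℤ) →₀ ℂ}
    (hnd : ∀ v : Fin (n + q) → ℤ, NonDeg ℂ f v)
    {K : Type} [Field K] [Algebra ℂ K] (htr : Algebra.trdeg ℂ K = (n : ℕ)) {x : Fin (n + q) → K}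
    (hx : ∀ i, x i ≠ 0) (hgen : IntermediateField.adjoin ℂ (Set.range x) = ⊤)
    (hf : ∀ l, ev x (f l) = 0) {t : ℚ} (ht0 : 0 < t) (ht1 : t ≤ 1)
    (hF : (Ft t f).Nonempty) {d : ℕ}
    (hd : Algebra.trdeg ℂ (IntermediateField.adjoin ℂ
      {z : K | ∃ w ∈ Parallel (Ft t f), z = mono x w}) = (d : ℕ)) (htd : t = 1 ∨ d < n)
    {N : ℕ} {y : Fin (N + 1) → K} (hy : NormalModel y) (hcan : Canonical y n) :
    (t = 1 → kodairaDim y n 0 = (d : WithBot ℕ) ∧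
      ∀ A', Effective y A' → Integral y A' → numericalDim y n 0 A' = (d : EReal)) ∧
    (t ≠ 1 → kodairaDim y n 0 = ⊥ ∧ ∀ A', Effective y A' →
      (∃ M0 : ℕ, ∀ m : ℕ, M0 ≤ m → h0 y n m (m • (0 : Place ℂ K → ℚ) + A') = 0) ∧
        numericalDim y n 0 A' = ⊥) := by
  obtain ⟨c, -⟩ : ∃ c : Fin 0 → ℚ, c = c := ⟨fun _ => 0, rfl⟩
  obtain ⟨h, -⟩ : ∃ h : Fin 0 → (Fin (n + q) → ℤ) →₀ ℂ, h = h := ⟨fun _ => 0, rfl⟩
  rw [ft_eq (c := c) (h := h)] at hF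
  rw [ft_eq (c := c) (h := h)] at hd
  have hnd' : ∀ (v : Fin (n + q) → ℤ) (V : Finset (Fin 0)),
      NonDeg ℂ (Sum.elim f fun j : V => h j) v := by
    intro v V
    refine nd_comp (f := f) (Sum.elim id fun j : V => (j : Fin 0).elim0) ?_ ?_ ?_ (hnd v)
    · rintro (l | j) (l' | j') hll
      · exact congrArg _ hll
      · exact (j' : Fin 0).elim0
      · exact (j : Fin 0).elim0
      · exact (j : Fin 0).elim0
    · intro l
      exact ⟨Sum.inl l, rfl⟩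
    · rintro (l | j)
      · rfl
      · exact (j : Fin 0).elim0
  obtain ⟨h1, h2⟩ := pairs_kappa_nu hn hnd' isWeight_one (c := c) (fun j => j.elim0) htr hx hgen hf
    (fun j => j.elim0) ht0 ht1 hF hd htd
  have hdisc : ∀ Q, Divisorial n Q →
      LogDisc y n 0 Q (1 - bdry (fun _ => 1) c x h Q) := by
    intro Q hQ
    rw [bdry_one', sub_zero]
    exact hcan.disc (fun _ => rfl) hQ
  refine ⟨fun ht => ?_, fun ht => ?_⟩
  · obtain ⟨h3, h4⟩ := h1 ht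
    exact dims_pair htr hy ⟨fun _ _ => le_rfl, by simp⟩ (fun P _ => by rw [bdry_one']; rfl) hdisc
      h3 h4
  · exact neg_pair htr hy hdisc (h2 ht)

end Pool.Agent.R885
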