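import Pool.Agent.R885.P8
import Pool.Agent.R885.G20

/-!
The complete theorem on nondegenerate complete intersections, for the hand-ins.
-/

set_option autoImplicit false
set_option linter.overlappingInstances false
set_option linter.unusedSectionVars false

open FF IntermediateField Pool.Agent.W602.GT Pool.Agent.W619.PQ Pool.Agent.W619.TW
  Pool.Agent.W603.LV Pool.Agent.W672.PG Pool.Agent.W824.PG Pool.Agent.Y172 Pool.Agent.Y191
  Pool.Agent.Y174

namespace Pool.Agent.R885.N

section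

variable {ι J k : Type} [Fintype ι] [Field k]

/-- **Nondegeneracy over extensions**, at the points where the initial parts of the elements of `I`
vanish. -/
theorem nd_ext' [IsAlgClosed k] [Fintype J] {f : J → (ι → ℤ) →₀ k} {v : ι → ℤ}
    {I : Set ((ι → ℤ) →₀ k)}
    (h : ∀ c : ι → k, (∀ i, c i ≠ 0) → (∀ g ∈ I, ev c (ini v g) = 0) →
      LinearIndependent k fun l => gr c (ini v (f l)))
    {F : Type} [Field F] [Algebra k F] {c : ι → F} (hc : ∀ i, c i ≠ 0)
    (hev : ∀ g ∈ I, ev c (ini v g) = 0) : LinearIndependent F fun l => gr c (ini v (f l)) := by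
  classical
  rw [Fintype.linearIndependent_iff]
  by_contra hcon
  push Not at hcon
  obtain ⟨a, ha, l0, hl0⟩ := hcon
  -- normalize
  obtain ⟨b, hb, hb0⟩ : ∃ b : J → F, (∑ l, b l • gr c (ini v (f l))) = 0 ∧ b l0 = 1 := by
    refine ⟨fun l => (a l0)⁻¹ * a l, ?_, inv_mul_cancel₀ hl0⟩
    have h1 : ∑ l, ((a l0)⁻¹ * a l) • gr c (ini v (f l)) =
        (a l0)⁻¹ • ∑ l, a l • gr c (ini v (f l)) := by
      rw [Finset.smul_sum]
      exact Finset.sum_congr rfl fun l _ => mul_smul _ _ _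
    rw [h1, ha, smul_zero]
  let T : Set F := Set.range c ∪ Set.range (fun i => (c i)⁻¹) ∪ Set.range b
  let A : Subalgebra k F := Algebra.adjoin k T
  have hTfin : T.Finite :=
    ((Set.finite_range _).union (Set.finite_range _)).union (Set.finite_range _)
  have hft : Algebra.FiniteType k A := by
    rw [← Subalgebra.fg_iff_finiteType]
    exact ⟨hTfin.toFinset, by rw [Set.Finite.coe_toFinset]⟩
  have hcA : ∀ i, c i ∈ A := fun i => Algebra.subset_adjoin (Or.inl (Or.inl ⟨i, rfl⟩))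
  have hcA' : ∀ i, (c i)⁻¹ ∈ A := fun i => Algebra.subset_adjoin (Or.inl (Or.inr ⟨i, rfl⟩))
  have hbA : ∀ l, b l ∈ A := fun l => Algebra.subset_adjoin (Or.inr ⟨l, rfl⟩)
  obtain ⟨φ⟩ := exists_point k A
  obtain ⟨c', hc'd⟩ : ∃ c' : ι → k, c' = fun i => φ ⟨c i, hcA i⟩ := ⟨_, rfl⟩
  have hc' : ∀ i, c' i ≠ 0 := by
    intro i h0
    rw [hc'd] at h0
    beta_reduce at h0
    have h1 : (⟨c i, hcA i⟩ : A) * ⟨(c i)⁻¹, hcA' i⟩ = 1 := by
      apply Subtype.ext
      exact mul_inv_cancel₀ (hc i)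
    have h2 := congrArg φ h1
    rw [map_mul, h0, zero_mul, map_one] at h2
    exact one_ne_zero h2.symm
  have hmono := fun w => ev_hom φ hc hcA hcA' w
  choose hmA hmφ using hmono
  -- sums of monomials
  have hsum : ∀ (g : (ι → ℤ) →₀ k) (ψ : (ι → ℤ) → ℤ),
      ∃ hm : (g.sum fun m a => algebraMap k F a * (ψ m : F) * mono c m) ∈ A,
        φ ⟨g.sum fun m a => algebraMap k F a * (ψ m : F) * mono c m, hm⟩ =
          g.sum fun m a => a * (ψ m : k) * mono c' m := by
    intro g ψ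
    have hm : (g.sum fun m a => algebraMap k F a * (ψ m : F) * mono c m) ∈ A := by
      refine sum_mem fun m _ => mul_mem (mul_mem (A.algebraMap_mem _) (intCast_mem _ _)) (hmA m)
    refine ⟨hm, ?_⟩
    have h1 : (⟨g.sum fun m a => algebraMap k F a * (ψ m : F) * mono c m, hm⟩ : A) =
        ∑ m ∈ g.support, algebraMap k A (g m) * (ψ m : A) * ⟨mono c m, hmA m⟩ := by
      apply Subtype.ext
      rw [AddSubmonoidClass.coe_finsetSum]
      refine Finset.sum_congr rfl fun m _ => ?_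
      push_cast
      rfl
    rw [h1, map_sum]
    refine Finset.sum_congr rfl fun m _ => ?_
    rw [map_mul, map_mul, φ.commutes, map_intCast, hmφ, ← hc'd]
    rfl
  have hev' : ∀ g ∈ I, ev c' (ini v g) = 0 := by
    intro g hg
    obtain ⟨hm, h1⟩ := hsum (ini v g) fun _ => 1
    have h2 : ((ini v g).sum fun m a => algebraMap k F a * ((1 : ℤ) : F) * mono c m) = 0 := by
      rw [← hev g hg]
      unfold ev
      refine Finset.sum_congr rfl fun m _ => ?_
      simp
    have h3 : (⟨_, hm⟩ : A) = 0 := Subtype.ext h2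
    rw [h3, map_zero] at h1
    rw [h1]
    unfold ev
    refine Finset.sum_congr rfl fun m _ => ?_
    simp
  have hind := Fintype.linearIndependent_iff.1 (h c' hc' hev') (fun l => φ ⟨b l, hbA l⟩) (by
    funext i
    rw [Finset.sum_apply, Pi.zero_apply]
    have hgr : ∀ l, ∃ hm : gr c (ini v (f l)) i ∈ A,
        φ ⟨gr c (ini v (f l)) i, hm⟩ = gr c' (ini v (f l)) i := fun l =>
      hsum (ini v (f l)) fun m => m i
    choose hgA hgφ using hgr
    have h1 : ∑ l, (⟨b l, hbA l⟩ : A) * ⟨gr c (ini v (f l)) i, hgA l⟩ = 0 := by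
      apply Subtype.ext
      rw [AddSubmonoidClass.coe_finsetSum]
      have h2 := congrFun hb i
      rw [Finset.sum_apply, Pi.zero_apply] at h2
      exact h2
    have h2 := congrArg φ h1
    rw [map_sum, map_zero] at h2
    rw [← h2]
    refine Finset.sum_congr rfl fun l _ => ?_
    rw [map_mul, hgφ, Pi.smul_apply, smul_eq_mul]) l0
  have h1 : φ ⟨b l0, hbA l0⟩ = 1 := by
    have h2 : (⟨b l0, hbA l0⟩ : A) = 1 := Subtype.ext hb0
    rw [h2, map_one]
  rw [h1] at hind
  exact one_ne_zero hind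

end

/-- Nondegeneracy along the subvariety of the torus with the generic point `x`: for all integral
vectors `v`, the logarithmic gradients of the initial parts of the `f l` are linearly independent at
all points of the initial degeneration of the subvariety in the direction `v`. -/
def Along {k K : Type} [Field k] [Field K] [Algebra k K] {r q : ℕ}
    (f : Fin q → (Fin r → ℤ) →₀ k) (x : Fin r → K) : Prop :=
  ∀ (v : Fin r → ℤ) (c : Fin r → k), (∀ i, c i ≠ 0) →
    (∀ g : (Fin r → ℤ) →₀ k, ev x g = 0 → ev c (ini v g) = 0) →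
      LinearIndependent k fun l => gr c (ini v (f l))

section

variable {k K : Type} [Field k] [CharZero k] [IsAlgClosed k] [Field K] [Algebra k K] {r q : ℕ}

theorem hn_of_along {f : Fin q → (Fin r → ℤ) →₀ k} {x : Fin r → K} (hx : ∀ i, x i ≠ 0)
    (h : Along f x) : HN x f where
  gen F _ _ φ := by
    intro _
    refine nd_ext' (I := {g | ev x g = 0}) (h 0) (fun i h0 => hx i ((map_eq_zero φ).1 h0)) ?_
    intro g hg
    have h1 : ev x g = 0 := hg
    rw [ini_zero', ← map_ev, h1, map_zero]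
  place Λ F _ _ _ _ _ _ φ P := by
    let iA : Algebra k P.RF := ((algebraMap Λ P.RF).comp (algebraMap k Λ)).toAlgebra
    have hT : IsScalarTower k Λ P.RF := IsScalarTower.of_algebraMap_eq fun _ => rfl
    intro _
    have hφx : ∀ i, φ (x i) ≠ 0 := fun i h0 => hx i ((map_eq_zero φ).1 h0)
    have h1 := nd_ext' (I := {g | ev x g = 0}) (h (vec P fun i => φ (x i))) (F := P.RF)
      (pt_ne P hφx) (by
        intro g hg
        have h1 : ev x g = 0 := hg
        have h2 := ev_pt P hφx (f := g.mapRange (algebraMap k Λ) (map_zero _)) (by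
          rw [ev_map, ← map_ev, h1, map_zero])
        rwa [ini_map, ev_map] at h2)
    have h3 : (fun l => gr (pt P fun i => φ (x i)) (ini (vec P fun i => φ (x i))
        ((f l).mapRange (algebraMap k Λ) (map_zero _)))) =
        fun l => gr (pt P fun i => φ (x i)) (ini (vec P fun i => φ (x i)) (f l)) := by
      funext l i
      rw [ini_map, gr_map]
    rw [h3]
    exact h1

theorem along_of_nonDeg {f : Fin q → (Fin r → ℤ) →₀ k} {x : Fin r → K}
    (hf : ∀ l, ev x (f l) = 0) (h : ∀ v, NonDeg k f v) : Along f x :=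
  fun v c hc hev => h v c hc fun l => hev _ (hf l)

/-- **The dichotomy.** -/
theorem pos_or_neg {n : ℕ} (hn : 1 ≤ n) (htr : Algebra.trdeg k K = (n : ℕ))
    {x : Fin (n + q) → K} (hx : ∀ i, x i ≠ 0)
    (hgen : IntermediateField.adjoin k (Set.range x) = ⊤) {f : Fin q → (Fin (n + q) → ℤ) →₀ k}
    (hf : ∀ l, ev x (f l) = 0) (h : Along f x) : Pos k K n ∨ Neg k K n :=
  all_sys hn htr q _ q x f rfl hx hgen hf (hn_of_along hx h) le_rfl

end

/-- `κ (K + Δ) = ν (K + Δ)`: either both are equal to `d ≥ 0`, or both are `-∞` and `K + Δ` is not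
pseudoeffective. -/
def EqualDims {K : Type} [Field K] [Algebra ℂ K] {N : ℕ} (y : Fin (N + 1) → K) (n : ℕ)
    (Δ : Place ℂ K → ℚ) : Prop :=
  (∃ d : ℕ, d ≤ n ∧ kodairaDim y n Δ = (d : WithBot ℕ) ∧
    ∀ A, Effective y A → Integral y A → numericalDim y n Δ A = (d : EReal)) ∨
  (kodairaDim y n Δ = ⊥ ∧ ∀ A, Effective y A →
    (∃ M0 : ℕ, ∀ m : ℕ, M0 ≤ m → h0 y n m (m • Δ + A) = 0) ∧ numericalDim y n Δ A = ⊥)

/-- **Canonical varieties.** -/
theorem can_all {K : Type} [Field K] [Algebra ℂ K] {n : ℕ} (htr : Algebra.trdeg ℂ K = (n : ℕ))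
    (h : Pos ℂ K n ∨ Neg ℂ K n) {N : ℕ} {y : Fin (N + 1) → K} (hy : NormalModel y)
    (hcan : Canonical y n) : EqualDims y n 0 := by
  have hdisc : ∀ Q, Divisorial n Q → LogDisc y n 0 Q (1 - (fun _ : Place ℂ K => (0 : ℚ)) Q) := by
    intro Q hQ
    beta_reduce
    rw [sub_zero]
    exact hcan.disc (fun _ => rfl) hQ
  have hz : (fun P : Place ℂ K => (((fun _ : Place ℂ K => (0 : ℚ)) P : ℚ) : ℝ)) = fun _ => 0 := by
    funext P
    exact Rat.cast_zero
  rcases h with ⟨d, hdn, h1, h2⟩ | h1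
  · left
    rw [← hz] at h1 h2
    exact ⟨d, hdn, dims_pair htr hy ⟨fun _ _ => le_rfl, by simp⟩ (fun P _ => le_rfl) hdisc h1 h2⟩
  · right
    refine neg_pair htr hy hdisc ?_
    rw [hz]
    exact h1

/-- **Quotients.** -/
theorem quot_all {L : Type} [Field L] [Algebra ℂ L] {n : ℕ} (htr : Algebra.trdeg ℂ L = (n : ℕ))
    (hess : Algebra.EssFiniteType ℂ L) (h : Pos ℂ L n ∨ Neg ℂ L n)
    {G : Subgroup (L ≃ₐ[ℂ] L)} [Finite G] {δ : Place ℂ (fixedField G) → ℚ}
    (hδ : ∀ Q, Divisorial n Q → ∀ (Q' : Place ℂ L) (e : ℕ), LiesOn Q' Q e →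
      (e : ℚ) * (1 - δ Q) = 1)
    {N : ℕ} {y : Fin (N + 1) → fixedField G} {Δ : Place ℂ (fixedField G) → ℚ}
    (hy : NormalModel y) (hΔ : Effective y Δ) (hm : ∀ P, IsPrimeDivisor y P → δ P ≤ Δ P)
    (hdisc : ∀ Q, Divisorial n Q → LogDisc y n Δ Q (1 - δ Q)) : EqualDims y n Δ := by
  have hfinK := fixed_finite G
  obtain ⟨hnK, -⟩ := Pool.Agent.W721.PG.EFF2.exists_basis (fixedField G) n htr
  have hβ0 : ∀ w : Place ℂ L, (0 : ℝ) ≤ (fun _ => 0 : Place ℂ L → ℝ) w := fun w => le_rfl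
  have hδ' : ∀ v, IsDivisorial v n → ∀ w e, LiesOn w v e →
      (fun _ => 0 : Place ℂ L → ℝ) w = 1 - e * (1 - ((δ v : ℚ) : ℝ)) := by
    intro v hv w e hwv
    have h1 := hδ v hv w e hwv
    have h2 : (e : ℝ) * (1 - ((δ v : ℚ) : ℝ)) = 1 := by exact_mod_cast h1
    change (0 : ℝ) = _
    rw [h2, sub_self]
  rcases h with ⟨d, hdn, h3, h4⟩ | h3
  · left
    exact ⟨d, hdn, dims_pair hnK hy hΔ hm hdisc
      (quot_kod (δ := fun v => ((δ v : ℚ) : ℝ)) htr hess hβ0 hδ' h3)
      (quot_num (δ := fun v => ((δ v : ℚ) : ℝ)) htr hess hβ0 hδ' h4)⟩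
  · right
    exact neg_pair hnK hy hdisc
      (quot_neg (δ := fun v => ((δ v : ℚ) : ℝ)) htr hess hβ0 hδ' h3)

theorem ess_of_gen {K : Type} [Field K] [Algebra ℂ K] {r : ℕ} {x : Fin r → K}
    (hgen : IntermediateField.adjoin ℂ (Set.range x) = ⊤) : Algebra.EssFiniteType ℂ K := by
  classical
  rw [← IntermediateField.fg_top_iff, ← hgen]
  exact ⟨Finset.univ.image x, by rw [Finset.coe_image, Finset.coe_univ, Set.image_univ]⟩

end Pool.Agent.R885.N
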