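import Pool.Agent.R885.Q3
import Pool.Agent.R885.P9

/-!
Pairs with reduced boundary: the class of systems, and the two cases of the theorem.
-/

set_option autoImplicit false
set_option linter.overlappingInstances false
set_option linter.unusedSectionVars false

open FF IntermediateField Pool.Agent.W603.LV Pool.Agent.W619.PQ Pool.Agent.Y173.QA
  Pool.Agent.W619.TW Pool.Agent.W619.Y Pool.Agent.Y174

namespace Pool.Agent.R885.N

/-- high multiples have no sections -/
def NegB (k K : Type) [Field k] [Field K] [Algebra k K] (n : ℕ) (β : Place k K → ℝ) : Prop :=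
  ∀ T : Finset K, ∃ M0 : ℕ, ∀ M : ℕ, M0 ≤ M → ∀ ω : (Fin n → Derivation k K K) → K,
    PairSec k K n β T M 1 ω → ω = 0

/-- the dimensions are equal -/
def PosB (k K : Type) [Field k] [Field K] [Algebra k K] (n : ℕ) (β : Place k K → ℝ) : Prop :=
  ∃ d : ℕ, d ≤ n ∧ PairKod k K n β d ∧ PairNum k K n β d

/-- The class of the systems `(x, f, h)` which describe the pair with the multiplicities `β`. -/
structure BSys {k K : Type} [Field k] [Field K] [Algebra k K] (n : ℕ) (β : Place k K → ℝ)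
    {r q p : ℕ} (x : Fin r → K) (f : Fin q → (Fin r → ℤ) →₀ k) (h : Fin p → (Fin r → ℤ) →₀ k) :
    Prop where
  hr : r = n + q
  hx : ∀ i, x i ≠ 0
  hgen : IntermediateField.adjoin k (Set.range x) = ⊤
  hf : ∀ l, ev x (f l) = 0
  hhx : ∀ j, ev x (h j) ≠ 0
  hnd : HN x f
  hndh : ∀ V : Finset (Fin p), HN x (Sum.elim f fun j : V => h j)
  low : ∃ (e : Fin q ⊕ Fin n ≃ Fin r) (C0 : Fin n → Fin r → ℤ),
    dt e (fun l => gr x (f l)) C0 ≠ 0 ∧ SLow e x f C0 h (fun _ => 1) β
  up : ∀ P, IsDivisorial P n → β P ≤ ((bdry (fun _ => 1) (fun _ => 1) x h P : ℚ) : ℝ)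

end Pool.Agent.R885.N
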