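import Pool.Agent.R885.DW
import Pool.Agent.R885.QD
import Pool.Agent.R885.G18

/-!
Pairs which are nondegenerate along a subvariety of the torus, and their quotients.
-/

set_option autoImplicit false
set_option linter.overlappingInstances false
set_option linter.unusedSectionVars false

open FF IntermediateField Pool.Agent.W602.GT Pool.Agent.W603.LV Pool.Agent.W619.PQ
  Pool.Agent.W619.TW Pool.Agent.W619.Y Pool.Agent.Y172 Pool.Agent.Y191 Pool.Agent.Y174

namespace Pool.Agent.R885.N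

/-- Nondegeneracy of the pair along the subvariety of the torus with the generic point `x`: for all
subsets `V` and all integral vectors `v`, the logarithmic gradients of the initial parts of the
`f l` and of the `h j`, `j ∈ V`, are linearly independent at all points of the initial degeneration
of the subvariety in the direction `v` at which the initial parts of the `h j`, `j ∈ V`, vanish. -/
def AlongP {k K : Type} [Field k] [Field K] [Algebra k K] {r q p : ℕ}
    (f : Fin q → (Fin r → ℤ) →₀ k) (h : Fin p → (Fin r → ℤ) →₀ k) (x : Fin r → K) : Prop :=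
  ∀ (V : Finset (Fin p)) (v : Fin r → ℤ) (c : Fin r → k), (∀ i, c i ≠ 0) →
    (∀ g : (Fin r → ℤ) →₀ k, ev x g = 0 → ev c (ini v g) = 0) →
      (∀ j ∈ V, ev c (ini v (h j)) = 0) →
        LinearIndependent k (Sum.elim (fun l => gr c (ini v (f l))) fun j : V => gr c (ini v (h j)))

section

variable {k K : Type} [Field k] [CharZero k] [IsAlgClosed k] [Field K] [Algebra k K] {r q p : ℕ}

theorem hn_of_alongP {f : Fin q → (Fin r → ℤ) →₀ k} {h : Fin p → (Fin r → ℤ) →₀ k}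
    {x : Fin r → K} (hx : ∀ i, x i ≠ 0) (H : AlongP f h x) (V : Finset (Fin p)) :
    HN x (Sum.elim f fun j : V => h j) := by
  classical
  obtain ⟨I, hI⟩ : ∃ I : Set ((Fin r → ℤ) →₀ k), I = {g | ev x g = 0 ∨ ∃ j ∈ V, g = h j} :=
    ⟨_, rfl⟩
  have key : ∀ (v : Fin r → ℤ) (c : Fin r → k), (∀ i, c i ≠ 0) →
      (∀ g ∈ I, ev c (ini v g) = 0) →
        LinearIndependent k fun l => gr c (ini v ((Sum.elim f fun j : V => h j) l)) := by
    intro v c hc hev
    have h1 := H V v c hc (fun g hg => hev g (by rw [hI]; exact Or.inl hg))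
      (fun j hj => hev (h j) (by rw [hI]; exact Or.inr ⟨j, hj, rfl⟩))
    have h2 : (Sum.elim (fun l => gr c (ini v (f l))) fun j : V => gr c (ini v (h j))) =
        fun l => gr c (ini v ((Sum.elim f fun j : V => h j) l)) := by
      funext l
      rcases l with l | j
      · rfl
      · rfl
    rw [h2] at h1
    exact h1
  refine ⟨?_, ?_⟩
  · intro F _ _ φ hev0
    refine nd_ext' (I := I) (key 0) (fun i h0 => hx i ((map_eq_zero φ).1 h0)) ?_
    intro g hg
    rw [hI] at hg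
    rcases hg with hg | ⟨j, hj, rfl⟩
    · rw [ini_zero', ← map_ev, hg, map_zero]
    · exact hev0 (Sum.inr ⟨j, hj⟩)
  · intro Λ F _ _ _ _ _ _ φ P
    let iA : Algebra k P.RF := ((algebraMap Λ P.RF).comp (algebraMap k Λ)).toAlgebra
    have hT : IsScalarTower k Λ P.RF := IsScalarTower.of_algebraMap_eq fun _ => rfl
    intro hev0
    have hφx : ∀ i, φ (x i) ≠ 0 := fun i h0 => hx i ((map_eq_zero φ).1 h0)
    have h1 := nd_ext' (I := I) (key (vec P fun i => φ (x i))) (F := P.RF)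
      (pt_ne P hφx) (by
        intro g hg
        rw [hI] at hg
        rcases hg with hg | ⟨j, hj, rfl⟩
        · have h2 := ev_pt P hφx (f := g.mapRange (algebraMap k Λ) (map_zero _)) (by
            rw [ev_map, ← map_ev, hg, map_zero])
          rwa [ini_map, ev_map] at h2
        · have h2 := hev0 (Sum.inr ⟨j, hj⟩)
          beta_reduce at h2
          rw [Sum.elim_inr] at h2
          rwa [ini_map, ev_map] at h2)
    have h3 : (fun l => gr (pt P fun i => φ (x i)) (ini (vec P fun i => φ (x i))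
        (((Sum.elim f fun j : V => h j) l).mapRange (algebraMap k Λ) (map_zero _)))) =
        fun l => gr (pt P fun i => φ (x i)) (ini (vec P fun i => φ (x i))
          ((Sum.elim f fun j : V => h j) l)) := by
      funext l i
      rw [ini_map, gr_map]
    rw [h3]
    exact h1

theorem hn_of_alongP' {f : Fin q → (Fin r → ℤ) →₀ k} {h : Fin p → (Fin r → ℤ) →₀ k}
    {x : Fin r → K} (hx : ∀ i, x i ≠ 0) (H : AlongP f h x) : HN x f := by
  refine hn_of_along hx fun v c hc hev => ?_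
  have h1 := H ∅ v c hc hev (fun j hj => absurd hj (Finset.notMem_empty j))
  exact h1.comp Sum.inl Sum.inl_injective

end

/-- **Pairs with a polytope which is not empty.** -/
theorem pair_cond {n q p : ℕ} (hn : 1 ≤ n) {K : Type} [Field K] [Algebra ℂ K]
    (htr : Algebra.trdeg ℂ K = (n : ℕ)) {x : Fin (n + q) → K} (hx : ∀ i, x i ≠ 0)
    (hgen : IntermediateField.adjoin ℂ (Set.range x) = ⊤) {f : Fin q → (Fin (n + q) → ℤ) →₀ ℂ}
    (hf : ∀ l, ev x (f l) = 0) {h : Fin p → (Fin (n + q) → ℤ) →₀ ℂ} (hhx : ∀ j, ev x (h j) ≠ 0)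
    (H : AlongP f h x) {A : (Fin (n + q) → ℤ) → ℚ} (hA : IsWeight A) {c : Fin p → ℚ}
    (hc : ∀ j, 0 ≤ c j ∧ c j ≤ 1) {t : ℚ} (ht0 : 0 < t) (ht1 : t ≤ 1)
    (hF : (Ftope t A c f h).Nonempty) (htd : t = 1 ∨ Algebra.trdeg ℂ (IntermediateField.adjoin ℂ
      {z : K | ∃ w ∈ Parallel (Ftope t A c f h), z = mono x w}) < n) :
    PosB ℂ K n (fun P => ((bdry A c x h P : ℚ) : ℝ)) ∨
      NegB ℂ K n (fun P => ((bdry A c x h P : ℚ) : ℝ)) := by
  have hndf := hn_of_alongP' hx H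
  have hndh := hn_of_alongP hx H
  obtain ⟨D, hD, hDA, hDc⟩ := denomW hA c
  have htrE : ∀ E : IntermediateField ℂ K, ∃ d : ℕ, d ≤ n ∧ Algebra.trdeg ℂ E = (d : ℕ) := by
    intro E
    have h1 : Algebra.trdeg ℂ E ≤ n := by
      rw [← htr]
      exact trdeg_le_of_injective E.val E.val.injective
    obtain ⟨d, hd⟩ := Cardinal.lt_aleph0.1 (h1.trans_lt Cardinal.natCast_lt_aleph0)
    refine ⟨d, ?_, hd⟩
    rw [hd] at h1
    exact_mod_cast h1
  obtain ⟨d, hdn, hd⟩ := htrE (IntermediateField.adjoin ℂ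
      {z : K | ∃ w ∈ Parallel (Ftope t A c f h), z = mono x w})
  rw [hd] at htd
  rw [ftope_eq] at hF
  rw [parallel_eq] at hd
  rcases ht1.lt_or_eq with h1 | h1
  · right
    have h2 : d < n := by
      rcases htd with h3 | h3
      · exact absurd h3 h1.ne
      · exact_mod_cast h3
    exact mainNeg hn rfl htr hx hgen hf hhx hndf hndh hD hA.pos hA.le_one hDA hDc
      (fun j => (hc j).1) (fun j => (hc j).2) hA.add hA.smul ht0 h1 hF h2 hd
  · left
    subst h1
    have e1 : (fun v => (1 : ℚ) * A v) = A := funext fun v => one_mul _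
    rw [e1] at hF hd
    exact ⟨d, hdn, mainW hn rfl htr hx hgen hf hhx hndf hndh hD hA.pos hA.le_one hDA hDc
      (fun j => (hc j).1) (fun j => (hc j).2) hA.add hA.smul hF hd⟩

section

variable {L : Type} [Field L] [Algebra ℂ L] {n : ℕ}

/-- **Quotients of pairs.** -/
theorem quotB (htr : Algebra.trdeg ℂ L = (n : ℕ)) (hess : Algebra.EssFiniteType ℂ L)
    {β : Place ℂ L → ℚ} (hβ0 : ∀ w, 0 ≤ β w)
    (h : PosB ℂ L n (fun P => ((β P : ℚ) : ℝ)) ∨ NegB ℂ L n (fun P => ((β P : ℚ) : ℝ)))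
    {G : Subgroup (L ≃ₐ[ℂ] L)} [Finite G] {δ : Place ℂ (fixedField G) → ℚ}
    (hδ : ∀ Q, Divisorial n Q → ∀ (Q' : Place ℂ L) (e : ℕ), LiesOn Q' Q e →
      β Q' = 1 - e * (1 - δ Q)) :
    PosB ℂ (fixedField G) n (fun P => ((δ P : ℚ) : ℝ)) ∨
      NegB ℂ (fixedField G) n (fun P => ((δ P : ℚ) : ℝ)) := by
  have hβ0' : ∀ w : Place ℂ L, (0 : ℝ) ≤ (fun P => ((β P : ℚ) : ℝ)) w := fun w => by
    have := hβ0 w
    beta_reduce
    exact_mod_cast this
  have hδ' : ∀ v, IsDivisorial v n → ∀ w e, LiesOn w v e →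
      (fun P => ((β P : ℚ) : ℝ)) w = 1 - e * (1 - ((δ v : ℚ) : ℝ)) := by
    intro v hv w e hwv
    have h1 := hδ v hv w e hwv
    beta_reduce
    rw [h1]
    push_cast
    ring
  rcases h with ⟨d, hdn, h3, h4⟩ | h3
  · exact Or.inl ⟨d, hdn, quot_kod (δ := fun v => ((δ v : ℚ) : ℝ)) htr hess hβ0' hδ' h3,
      quot_num (δ := fun v => ((δ v : ℚ) : ℝ)) htr hess hβ0' hδ' h4⟩
  · exact Or.inr (quot_neg (δ := fun v => ((δ v : ℚ) : ℝ)) htr hess hβ0' hδ' h3)

end

section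

variable {K : Type} [Field K] [Algebra ℂ K] {n N : ℕ}

/-- **`κ = ν` for the pairs.** -/
theorem equalB (htr : Algebra.trdeg ℂ K = (n : ℕ)) {β : Place ℂ K → ℚ}
    (h : PosB ℂ K n (fun P => ((β P : ℚ) : ℝ)) ∨ NegB ℂ K n (fun P => ((β P : ℚ) : ℝ)))
    {y : Fin (N + 1) → K} {Δ : Place ℂ K → ℚ} (hy : NormalModel y) (hΔ : Effective y Δ)
    (hm : ∀ P, IsPrimeDivisor y P → β P ≤ Δ P)
    (hdisc : ∀ Q, Divisorial n Q → LogDisc y n Δ Q (1 - β Q)) : EqualDims y n Δ := by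
  rcases h with ⟨d, hdn, h3, h4⟩ | h3
  · exact Or.inl ⟨d, hdn, dims_pair htr hy hΔ hm hdisc h3 h4⟩
  · exact Or.inr (neg_pair htr hy hdisc h3)

/-- `K_X` is `ℚ`-linearly trivial: some nonzero pluricanonical form has order `0` along all prime
divisors of `X`. -/
def TorsionK (y : Fin (N + 1) → K) (n : ℕ) : Prop :=
  ∃ a : ℕ, 1 ≤ a ∧ ∃ ω : (Fin n → Derivation ℂ K K) → K, ω ≠ 0 ∧ IsPluri a ω ∧
    ∀ P, IsPrimeDivisor y P → OrdEq P ω 0

/-- `D` is `ℚ`-linearly equivalent to a positive multiple of `Δ`: `b D = a Δ + div g`. -/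
def QMultiple (y : Fin (N + 1) → K) (D Δ : Place ℂ K → ℚ) : Prop :=
  ∃ a b : ℕ, 1 ≤ a ∧ 1 ≤ b ∧ ∃ g : K, g ≠ 0 ∧
    ∀ P, IsPrimeDivisor y P → b * D P = a * Δ P + P.ord g

/-- `D` is `ℚ`-linearly equivalent to a positive multiple of `K_X + Δ`: `b D = div η + a Δ` for an
`a`-canonical form `η`. -/
def AdjMultiple (y : Fin (N + 1) → K) (n : ℕ) (D Δ : Place ℂ K → ℚ) : Prop :=
  ∃ a b : ℕ, 1 ≤ a ∧ 1 ≤ b ∧ ∃ η : (Fin n → Derivation ℂ K K) → K, η ≠ 0 ∧ IsPluri a η ∧
    ∀ P, IsPrimeDivisor y P → OrdEq P η (b * D P - a * Δ P)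

/-- the Iitaka dimension and the numerical dimension of `D` are equal to `d ≥ 0` -/
def EqualDimsD (y : Fin (N + 1) → K) (n : ℕ) (D : Place ℂ K → ℚ) : Prop :=
  ∃ d : ℕ, d ≤ n ∧ DV.iitakaDim y D = (d : WithBot ℕ) ∧
    ∀ A, Effective y A → Integral y A → DV.numDim y D A = (d : EReal)

/-- **Multiples of `K_X + Δ`.** -/
theorem adjB (htr : Algebra.trdeg ℂ K = (n : ℕ)) {β : Place ℂ K → ℚ}
    (h : PosB ℂ K n (fun P => ((β P : ℚ) : ℝ)))
    {y : Fin (N + 1) → K} {Δ : Place ℂ K → ℚ} (hy : NormalModel y)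
    (hm : ∀ P, IsPrimeDivisor y P → β P ≤ Δ P)
    (hdisc : ∀ Q, Divisorial n Q → LogDisc y n Δ Q (1 - β Q)) {D : Place ℂ K → ℚ}
    (hD : DV.IsDiv y D) (hDΔ : AdjMultiple y n D Δ) : EqualDimsD y n D := by
  obtain ⟨d, hdn, h3, h4⟩ := h
  obtain ⟨a, b, ha, hb, η, hη0, hη, hηP⟩ := hDΔ
  exact ⟨d, hdn, DV.transfer htr hy hm hdisc h3 h4 hD ha hb hη hη0 hηP⟩

theorem adj_of_torsion {y : Fin (N + 1) → K} {D Δ : Place ℂ K → ℚ}
    (hK : TorsionK y n) (hDΔ : QMultiple y D Δ) : AdjMultiple y n D Δ := by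
  obtain ⟨a1, ha1, ω, hω0, hω, hωP⟩ := hK
  obtain ⟨a, b, ha, hb, g, hg0, hg⟩ := hDΔ
  refine ⟨a * a1, b * a1, Nat.mul_pos ha ha1, Nat.mul_pos hb ha1, fun E => g ^ a1 * ω E ^ a, ?_,
    ?_, ?_⟩
  · intro h0
    apply hω0
    funext E
    have h1 := congrFun h0 E
    beta_reduce at h1
    exact (pow_eq_zero_iff (by omega)).1 ((mul_eq_zero.1 h1).resolve_left (pow_ne_zero _ hg0))
  · intro B E
    have h1 := hω B E
    beta_reduce
    rw [h1, mul_pow, ← pow_mul, mul_comm a1 a]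
    ring
  · intro P hP
    obtain ⟨h1, E, hE, hωE, hord⟩ := hωP P hP
    have h2 : ((b * a1 : ℕ) : ℚ) * D P - ((a * a1 : ℕ) : ℚ) * Δ P = a1 * (P.ord g : ℚ) := by
      have h3 := hg P hP
      push_cast
      linear_combination (a1 : ℚ) * h3
    rw [h2]
    refine ⟨fun E' hE' => ?_, E, hE, mul_ne_zero (pow_ne_zero _ hg0) (pow_ne_zero _ hωE), ?_⟩
    · beta_reduce
      by_cases h3 : ω E' = 0
      · left
        rw [h3, zero_pow (by omega), mul_zero]
      · right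
        have h4 := (h1 E' hE').resolve_left h3
        rw [P.ord_mul (pow_ne_zero _ hg0) (pow_ne_zero _ h3), P.ord_pow, P.ord_pow]
        push_cast
        have h5 : (0 : ℚ) ≤ (a : ℚ) * (P.ord (ω E') : ℚ) := mul_nonneg (Nat.cast_nonneg _) h4
        linarith
    · rw [P.ord_mul (pow_ne_zero _ hg0) (pow_ne_zero _ hωE), P.ord_pow, P.ord_pow]
      push_cast
      rw [hord]
      ring

/-- `K_X` is pseudoeffective: for some effective divisor `A` there are arbitrarily large `m` such that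
`m K_X + A` has a nonzero section. -/
def PsefK (y : Fin (N + 1) → K) (n : ℕ) : Prop :=
  ∃ A, Effective y A ∧ ∀ M : ℕ, ∃ m, M ≤ m ∧ h0 y n m A ≠ 0

theorem pos_of_psef (htr : Algebra.trdeg ℂ K = (n : ℕ)) {β : Place ℂ K → ℚ}
    (h : PosB ℂ K n (fun P => ((β P : ℚ) : ℝ)) ∨ NegB ℂ K n (fun P => ((β P : ℚ) : ℝ)))
    {y : Fin (N + 1) → K} {Δ : Place ℂ K → ℚ} (hy : NormalModel y) (hΔ : Effective y Δ)
    (hdisc : ∀ Q, Divisorial n Q → LogDisc y n Δ Q (1 - β Q)) (hK : PsefK y n) :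
    PosB ℂ K n (fun P => ((β P : ℚ) : ℝ)) := by
  rcases h with h | h
  · exact h
  · exfalso
    obtain ⟨A, hA, hm⟩ := hK
    obtain ⟨T, hT⟩ := sec_of_disc htr hy hdisc hA
    obtain ⟨M0, hM0⟩ := h T
    obtain ⟨m, hm0, hm1⟩ := hm (M0 + 1)
    apply hm1
    refine h0_zero fun ω hω => hM0 m (by omega) ω (hT m (by omega) ω ⟨hω.1, fun P hP => ?_⟩)
    refine (hω.2 P hP).mono ?_
    have h1 := hΔ.1 P hP
    have h2 : (0 : ℚ) ≤ m * Δ P := mul_nonneg (Nat.cast_nonneg _) h1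
    rw [Pi.add_apply, Pi.smul_apply, nsmul_eq_mul]
    linarith

/-- **Varieties with torsion canonical class.** -/
theorem torB (htr : Algebra.trdeg ℂ K = (n : ℕ)) {β : Place ℂ K → ℚ}
    (h : PosB ℂ K n (fun P => ((β P : ℚ) : ℝ)) ∨ NegB ℂ K n (fun P => ((β P : ℚ) : ℝ)))
    {y : Fin (N + 1) → K} {Δ : Place ℂ K → ℚ} (hy : NormalModel y) (hΔ : Effective y Δ)
    (hm : ∀ P, IsPrimeDivisor y P → β P ≤ Δ P)
    (hdisc : ∀ Q, Divisorial n Q → LogDisc y n Δ Q (1 - β Q)) (hK : TorsionK y n)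
    {D : Place ℂ K → ℚ} (hD : DV.IsDiv y D) (hDΔ : QMultiple y D Δ) : EqualDimsD y n D := by
  rcases h with h | h
  · exact adjB htr h hy hm hdisc hD (adj_of_torsion hK hDΔ)
  · exfalso
    obtain ⟨a1, ha1, ω, hω0, hω, hωP⟩ := hK
    obtain ⟨T, hT⟩ := sec_of_disc htr hy hdisc (A := 0) ⟨fun _ _ => le_rfl, by simp⟩
    obtain ⟨M0, hM0⟩ := h T
    have h1 : (fun E => ω E ^ (M0 + 1)) = (0 : (Fin n → Derivation ℂ K K) → K) := by
      refine hM0 (a1 * (M0 + 1)) (by nlinarith) _ (hT _ (Nat.mul_pos ha1 (by omega)) _ ⟨?_, ?_⟩)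
      · intro B E
        have h2 := hω B E
        beta_reduce
        rw [h2, mul_pow, ← pow_mul]
      · intro P hP E hE
        beta_reduce
        rcases (hωP P hP).1 E hE with h2 | h2
        · left
          rw [h2, zero_pow (by omega)]
        · right
          rw [P.ord_pow]
          have h5 : ((a1 * (M0 + 1)) • Δ + (0 : Place ℂ K → ℚ)) P = (a1 : ℚ) * (M0 + 1) * Δ P := by
            rw [Pi.add_apply, Pi.smul_apply, Pi.zero_apply, add_zero, nsmul_eq_mul]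
            push_cast
            ring
          rw [h5]
          have h6 := hΔ.1 P hP
          have h7 : (0 : ℚ) ≤ (a1 : ℚ) * (M0 + 1) * Δ P := by positivity
          push_cast
          have h8 : (0 : ℚ) ≤ ((M0 : ℚ) + 1) * (P.ord (ω E) : ℚ) := mul_nonneg (by positivity) h2
          linarith
    apply hω0
    funext E
    have h2 := congrFun h1 E
    exact (pow_eq_zero_iff (by omega)).1 h2

end

end Pool.Agent.R885.N
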