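import Pool.Agent.R885.P10
import Pool.Agent.W619.PQ.Approx

/-!
The ramification index of a place over the fixed field of a finite group; quotients.
-/

set_option autoImplicit false
set_option linter.overlappingInstances false
set_option linter.unusedSectionVars false

open FF IntermediateField Pool.Agent.W602.GT Pool.Agent.W619.PQ Pool.Agent.W619.TW
  Pool.Agent.W603.LV Pool.Agent.W672.PG Pool.Agent.W824.PG Pool.Agent.Y172 Pool.Agent.Y191
  Pool.Agent.Y174

namespace Pool.Agent.R885.N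

section

variable {k L : Type} [Field k] [CharZero k] [Field L] [Algebra k L]

theorem ord_prod_ne {ι : Type*} (P : Place k L) (s : Finset ι) (g : ι → L)
    (hg : ∀ i ∈ s, g i ≠ 0) : (∏ i ∈ s, g i) ≠ 0 ∧ P.ord (∏ i ∈ s, g i) = ∑ i ∈ s, P.ord (g i) := by
  classical
  induction s using Finset.induction_on with
  | empty => exact ⟨by simp, by simp [P.ord_one]⟩
  | insert a s ha ih =>
    obtain ⟨h1, h2⟩ := ih fun i hi => hg i (Finset.mem_insert_of_mem hi)
    have h3 := hg a (Finset.mem_insert_self _ _)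
    rw [Finset.prod_insert ha, Finset.sum_insert ha]
    exact ⟨mul_ne_zero h3 h1, by rw [P.ord_mul h3 h1, h2]⟩

/-- an element which is close to `a` at the places of `S` and close to `0` at those of `T` -/
theorem approx_set (S T : Finset (Place k L)) (hST : Disjoint S T) (a : L) :
    ∃ b : L, (∀ P ∈ S, Ge P 1 (b - a)) ∧ ∀ Q ∈ T, Ge Q 1 b := by
  classical
  have h1 : ∀ P : Place k L, ∃ b : L, P ∈ S → Ge P 1 (b - a) ∧ ∀ Q ∈ (S ∪ T).erase P, Ge Q 1 b := by
    intro P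
    obtain ⟨b, hb⟩ := approx_one ((S ∪ T).erase P) P (Finset.notMem_erase _ _) a 1
    exact ⟨b, fun _ => hb⟩
  choose b hb using h1
  refine ⟨∑ P ∈ S, b P, fun P hP => ?_, fun Q hQ => ?_⟩
  · rw [← Finset.add_sum_erase _ _ hP]
    have e : b P + ∑ x ∈ S.erase P, b x - a = (b P - a) + ∑ x ∈ S.erase P, b x := by ring
    rw [e]
    refine (hb P hP).1.add (Ge.sum _ _ fun x hx => ?_)
    obtain ⟨hx1, hx2⟩ := Finset.mem_erase.1 hx
    exact (hb x hx2).2 P (Finset.mem_erase.2 ⟨hx1.symm, Finset.mem_union_left _ hP⟩)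
  · refine Ge.sum _ _ fun x hx => ?_
    refine (hb x hx).2 Q (Finset.mem_erase.2 ⟨?_, Finset.mem_union_right _ hQ⟩)
    rintro rfl
    exact Finset.disjoint_left.1 hST hx hQ

/-- **The ramification index depends only on the place of the fixed field.** -/
theorem index_unique {G : Subgroup (L ≃ₐ[k] L)} [Finite G] {v : Place k (fixedField G)}
    {w w' : Place k L} {e e' : ℕ} (h : LiesOn w v e) (h' : LiesOn w' v e') : e = e' := by
  classical
  have := Fintype.ofFinite G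
  by_cases hc : ∃ g : G, w' = w.comp (g : L ≃ₐ[k] L)
  · obtain ⟨g, rfl⟩ := hc
    obtain ⟨t, ht0, ht⟩ := v.surj
    have h1 := h.2 t
    have h2 := h'.2 t
    rw [Place.comp_ord] at h2
    have h3 : (g : L ≃ₐ[k] L) (algebraMap (fixedField G) L t) = algebraMap (fixedField G) L t :=
      t.2 g
    rw [h3, h1, ht] at h2
    have h4 : (e : ℤ) = e' := by linarith
    exact_mod_cast h4
  exfalso
  push Not at hc
  obtain ⟨t, ht0, ht⟩ := v.surj
  obtain ⟨a, ha⟩ : ∃ a, a = (algebraMap (fixedField G) L t)⁻¹ := ⟨_, rfl⟩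
  have htL : algebraMap (fixedField G) L t ≠ 0 := (map_ne_zero _).2 ht0
  have ha0 : a ≠ 0 := by rw [ha]; exact inv_ne_zero htL
  have hga : ∀ g : G, (g : L ≃ₐ[k] L) a = a := by
    intro g
    rw [ha, map_inv₀]
    congr 1
    exact t.2 g
  have hw'a : ∀ g : G, (w'.comp (g : L ≃ₐ[k] L)).ord a = - (e' : ℤ) := by
    intro g
    rw [Place.comp_ord, hga, ha, w'.ord_inv, h'.2 t, ht, mul_one]
  obtain ⟨S, hS⟩ : ∃ S : Finset (Place k L),
      S = Finset.univ.image fun g : G => w'.comp (g : L ≃ₐ[k] L) := ⟨_, rfl⟩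
  obtain ⟨T, hT⟩ : ∃ T : Finset (Place k L),
      T = Finset.univ.image fun g : G => w.comp (g : L ≃ₐ[k] L) := ⟨_, rfl⟩
  have hdis : Disjoint S T := by
    rw [Finset.disjoint_left]
    intro P hP hP'
    rw [hS, Finset.mem_image] at hP
    rw [hT, Finset.mem_image] at hP'
    obtain ⟨g1, -, h1⟩ := hP
    obtain ⟨g2, -, h2⟩ := hP'
    refine hc (g2 * g1⁻¹) ?_
    ext z
    have h3 := congrArg (fun P : Place k L => P.ord ((g1⁻¹ : G) • z)) (h1.trans h2.symm)
    simp only [Place.comp_ord] at h3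
    rw [Place.comp_ord]
    have h4 : (g1 : L ≃ₐ[k] L) ((g1⁻¹ : G) • z) = z := by
      change ((g1 : L ≃ₐ[k] L) * ((g1⁻¹ : G) : L ≃ₐ[k] L)) z = z
      rw [← Subgroup.coe_mul, mul_inv_cancel]
      rfl
    rw [h4] at h3
    exact h3
  obtain ⟨b, hb1, hb2⟩ := approx_set S T hdis a
  have he'0 : (0 : ℤ) < e' := by exact_mod_cast h'.1
  have he0 : (0 : ℤ) < e := by exact_mod_cast h.1
  have hbneg : ∀ g : G, b ≠ 0 ∧ w'.ord ((g : L ≃ₐ[k] L) b) < 0 := by
    intro g
    have h1 := hb1 (w'.comp (g : L ≃ₐ[k] L)) (by rw [hS]; exact Finset.mem_image_of_mem _ (Finset.mem_univ _))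
    have h2 := hw'a g
    have hb0 : b ≠ 0 := by
      rintro rfl
      rw [zero_sub] at h1
      rcases h1 with h1 | h1
      · exact ha0 (neg_eq_zero.1 h1)
      · rw [Place.ord_neg, h2] at h1
        linarith
    refine ⟨hb0, ?_⟩
    by_contra hcon
    push Not at hcon
    have h3 : Ge (w'.comp (g : L ≃ₐ[k] L)) 0 b := Or.inr (by rw [Place.comp_ord]; exact hcon)
    have h4 := h3.sub (h1.mono (by norm_num : (0 : ℤ) ≤ 1))
    rw [sub_sub_cancel] at h4
    have h5 := h4.resolve_left ha0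
    rw [h2] at h5
    linarith
  have hb0 : b ≠ 0 := (hbneg 1).1
  have hbpos : ∀ g : G, 1 ≤ w.ord ((g : L ≃ₐ[k] L) b) := by
    intro g
    have h1 := hb2 (w.comp (g : L ≃ₐ[k] L)) (by rw [hT]; exact Finset.mem_image_of_mem _ (Finset.mem_univ _))
    have h2 := h1.resolve_left hb0
    rwa [Place.comp_ord] at h2
  -- the norm
  have hprod : ∀ g : G, (g : L ≃ₐ[k] L) (∏ g' : G, (g' : L ≃ₐ[k] L) b) =
      ∏ g' : G, (g' : L ≃ₐ[k] L) b := by
    intro g
    rw [map_prod]
    exact Fintype.prod_equiv (Equiv.mulLeft g) _ _ fun g' => rfl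
  obtain ⟨z, hz⟩ : ∃ z : fixedField G, algebraMap (fixedField G) L z =
      ∏ g' : G, (g' : L ≃ₐ[k] L) b := ⟨⟨_, fun g => hprod g⟩, rfl⟩
  have hne : ∀ g : G, (g : L ≃ₐ[k] L) b ≠ 0 := fun g => by simpa using hb0
  have h1 := h.2 z
  have h2 := h'.2 z
  rw [hz, (ord_prod_ne w _ _ fun g _ => hne g).2] at h1
  rw [hz, (ord_prod_ne w' _ _ fun g _ => hne g).2] at h2
  have h3 : 0 < ∑ g : G, w.ord ((g : L ≃ₐ[k] L) b) :=
    Finset.sum_pos (fun g _ => by have := hbpos g; omega) ⟨1, Finset.mem_univ _⟩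
  have h4 : ∑ g : G, w'.ord ((g : L ≃ₐ[k] L) b) < 0 :=
    Finset.sum_neg (fun g _ => (hbneg g).2) ⟨1, Finset.mem_univ _⟩
  rw [h1] at h3
  rw [h2] at h4
  have h5 : 0 < v.ord z := by
    by_contra hcon
    push Not at hcon
    have := mul_nonpos_of_nonneg_of_nonpos he0.le hcon
    linarith
  have := mul_pos he'0 h5
  linarith

end

theorem logDisc_mono {K : Type} [Field K] [Algebra ℂ K] {N n : ℕ} {y : Fin (N + 1) → K}
    {Δ : Place ℂ K → ℚ} {Q : Place ℂ K} {a b : ℚ} (hab : a ≤ b) (h : LogDisc y n Δ Q b) :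
    LogDisc y n Δ Q a := by
  rcases h with ⟨h1, h2⟩ | ⟨r, hr, η, hη, h1, h2⟩
  · exact Or.inl ⟨h1, hab.trans h2⟩
  · refine Or.inr ⟨r, hr, η, hη, h1, fun E hE => ?_⟩
    rcases h2 E hE with h3 | h3
    · exact Or.inl h3
    · refine Or.inr (le_trans ?_ h3)
      have hr' : (0 : ℚ) ≤ r := Nat.cast_nonneg _
      exact mul_le_mul_of_nonneg_left (by linarith) hr'

/-- **Quotients by finite groups**: `Δ P = 1 - 1 / e` for the prime divisors `P` of ramification
index `e`, and the log discrepancy along `Q` is at least `1 / e`, where `e` is the ramification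
index of `Q`. -/
theorem quot_orb {L : Type} [Field L] [Algebra ℂ L] {n : ℕ} (htr : Algebra.trdeg ℂ L = (n : ℕ))
    (hess : Algebra.EssFiniteType ℂ L) (h : Pos ℂ L n ∨ Neg ℂ L n)
    {G : Subgroup (L ≃ₐ[ℂ] L)} [Finite G] {N : ℕ} {y : Fin (N + 1) → fixedField G}
    {Δ : Place ℂ (fixedField G) → ℚ} (hy : NormalModel y) (hΔ : Effective y Δ)
    (hm : ∀ P, IsPrimeDivisor y P → ∀ (P' : Place ℂ L) (e : ℕ), LiesOn P' P e →
      (1 : ℚ) - 1 / e ≤ Δ P)
    (hdisc : ∀ Q, Divisorial n Q → ∀ (Q' : Place ℂ L) (e : ℕ), LiesOn Q' Q e →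
      LogDisc y n Δ Q (1 / e)) : EqualDims y n Δ := by
  classical
  choose w e I hwv hcard hI using exists_inertia (k := ℂ) (L := L) G
  have hl : ∀ v, LiesOn (w v) v (e v) := fun v => hwv v
  refine quot_all (δ := fun v => 1 - 1 / (e v : ℚ)) htr hess h ?_ hy hΔ ?_ ?_
  · intro Q hQ Q' e' hQ'
    have h1 : e Q = e' := index_unique (hl Q) hQ'
    have h2 : (e' : ℚ) ≠ 0 := by
      have := hQ'.1
      exact_mod_cast this.ne'
    rw [h1]
    field_simp
    ring
  · intro P hP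
    exact hm P hP (w P) (e P) (hl P)
  · intro Q hQ
    rw [sub_sub_cancel]
    exact hdisc Q hQ (w Q) (e Q) (hl Q)

/-- **Canonical varieties with a Galois cover which is unramified in codimension one.** -/
theorem quot_etale {L : Type} [Field L] [Algebra ℂ L] {n : ℕ} (htr : Algebra.trdeg ℂ L = (n : ℕ))
    (hess : Algebra.EssFiniteType ℂ L) (h : Pos ℂ L n ∨ Neg ℂ L n)
    {G : Subgroup (L ≃ₐ[ℂ] L)} [Finite G] {N : ℕ} {y : Fin (N + 1) → fixedField G}
    (hy : NormalModel y) (hcan : Canonical y n)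
    (hm : ∀ P, IsPrimeDivisor y P → ∀ (P' : Place ℂ L) (e : ℕ), LiesOn P' P e → e = 1) :
    EqualDims y n 0 := by
  refine quot_orb htr hess h hy ⟨fun _ _ => le_rfl, by simp⟩ ?_ ?_
  · intro P hP P' e he
    rw [hm P hP P' e he]
    simp
  · intro Q hQ Q' e he
    refine logDisc_mono (b := 1) ?_ ?_
    · have h1 : (1 : ℚ) ≤ e := by exact_mod_cast he.1
      rw [div_le_one (by linarith)]
      exact h1
    · exact hcan.disc (fun _ => rfl) hQ

/-- canonical varieties with a Galois cover which is unramified in codimension one, with given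
sections on the cover -/
theorem etale_val {L : Type} [Field L] [Algebra ℂ L] {n d : ℕ} (htr : Algebra.trdeg ℂ L = (n : ℕ))
    (hess : Algebra.EssFiniteType ℂ L)
    (h : PairKod ℂ L n (fun _ => 0) d ∧ PairNum ℂ L n (fun _ => 0) d)
    {G : Subgroup (L ≃ₐ[ℂ] L)} [Finite G] {N : ℕ} {y : Fin (N + 1) → fixedField G}
    (hy : NormalModel y) (hcan : Canonical y n)
    (hm : ∀ P, IsPrimeDivisor y P → ∀ (P' : Place ℂ L) (e : ℕ), LiesOn P' P e → e = 1) :
    kodairaDim y n 0 = (d : WithBot ℕ) ∧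
      ∀ A, Effective y A → Integral y A → numericalDim y n 0 A = (d : EReal) := by
  classical
  have hfinK := fixed_finite G
  obtain ⟨hnK, -⟩ := Pool.Agent.W721.PG.EFF2.exists_basis (fixedField G) n htr
  choose w e I hwv hcard hI using exists_inertia (k := ℂ) (L := L) G
  have hl : ∀ v, LiesOn (w v) v (e v) := fun v => hwv v
  obtain ⟨δ, hδd⟩ : ∃ δ : Place ℂ (fixedField G) → ℚ, δ = fun v => 1 - 1 / (e v : ℚ) := ⟨_, rfl⟩
  have hβ0 : ∀ w : Place ℂ L, (0 : ℝ) ≤ (fun _ => 0 : Place ℂ L → ℝ) w := fun w => le_rfl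
  have hδ : ∀ v, IsDivisorial v n → ∀ w' e', LiesOn w' v e' →
      (fun _ => 0 : Place ℂ L → ℝ) w' = 1 - e' * (1 - ((δ v : ℚ) : ℝ)) := by
    intro v hv w' e' hwv'
    have h1 : e v = e' := index_unique (hl v) hwv'
    have h2 : (e' : ℝ) ≠ 0 := by
      have := hwv'.1
      exact_mod_cast this.ne'
    rw [hδd]
    change (0 : ℝ) = 1 - e' * (1 - ((1 - 1 / (e v : ℚ) : ℚ) : ℝ))
    rw [h1]
    push_cast
    field_simp
    ring
  refine dims_pair (β := δ) hnK hy ⟨fun _ _ => le_rfl, by simp⟩ ?_ ?_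
    (quot_kod (δ := fun v => ((δ v : ℚ) : ℝ)) htr hess hβ0 hδ h.1)
    (quot_num (δ := fun v => ((δ v : ℚ) : ℝ)) htr hess hβ0 hδ h.2)
  · intro P hP
    rw [hδd]
    change 1 - 1 / (e P : ℚ) ≤ 0
    rw [hm P hP _ _ (hl P)]
    simp
  · intro Q hQ
    refine logDisc_mono (b := 1) ?_ (hcan.disc (fun _ => rfl) hQ)
    rw [hδd]
    change 1 - (1 - 1 / (e Q : ℚ)) ≤ 1
    rw [sub_sub_cancel]
    have h1 : (1 : ℚ) ≤ e Q := by exact_mod_cast (hl Q).1
    rw [div_le_one (by linarith)]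
    exact h1

end Pool.Agent.R885.N
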