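import Pool.Agent.R885.DX
import Pool.Agent.R885.P11

/-!
Quotients of pairs by finite groups, for the hand-ins.
-/

set_option autoImplicit false
set_option linter.overlappingInstances false
set_option linter.unusedSectionVars false

open FF IntermediateField Pool.Agent.W602.GT Pool.Agent.W619.PQ Pool.Agent.W619.TW
  Pool.Agent.W603.LV Pool.Agent.W672.PG Pool.Agent.W824.PG Pool.Agent.Y172 Pool.Agent.Y191
  Pool.Agent.Y174

namespace Pool.Agent.R885.N

section

variable {L : Type} [Field L] [Algebra ℂ L]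

/-- `(X, Δ)` is a projective pair with function field `L ^ G`, and `β` gives the multiplicities of
the pull-back `Δ'` of the divisor to `L`, `K + Δ' = π^* (K_X + Δ)`: for the prime divisors `P` of `X`
and the places `P'` of `L` over `P`, with the ramification index `e`, we have
`β P' = 1 - e (1 - Δ P)`, and the log discrepancy along a divisor `Q` over `X` is at least
`(1 - β Q') / e`, for the places `Q'` of `L` over `Q`, with the ramification index `e`; `β` is
invariant under `G`. -/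
structure IsQuotientPair (β : Place ℂ L → ℚ) (G : Subgroup (L ≃ₐ[ℂ] L)) {N : ℕ}
    (y : Fin (N + 1) → fixedField G) (n : ℕ) (Δ : Place ℂ (fixedField G) → ℚ) : Prop where
  normal : NormalModel y
  effective : Effective y Δ
  invariant : ∀ Q : Place ℂ (fixedField G), Divisorial n Q → ∀ (Q' Q'' : Place ℂ L) (e e' : ℕ),
    LiesOn Q' Q e → LiesOn Q'' Q e' → β Q' = β Q''
  mult : ∀ P, IsPrimeDivisor y P → ∀ (P' : Place ℂ L) (e : ℕ), LiesOn P' P e →
    β P' = 1 - e * (1 - Δ P)
  disc : ∀ Q, Divisorial n Q → ∀ (Q' : Place ℂ L) (e : ℕ), LiesOn Q' Q e →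
    LogDisc y n Δ Q ((1 - β Q') / e)

variable {n : ℕ}

theorem quotC (htr : Algebra.trdeg ℂ L = (n : ℕ)) (hess : Algebra.EssFiniteType ℂ L)
    {β : Place ℂ L → ℚ} (hβ0 : ∀ w, 0 ≤ β w)
    (h : PosB ℂ L n (fun P => ((β P : ℚ) : ℝ)) ∨ NegB ℂ L n (fun P => ((β P : ℚ) : ℝ)))
    {G : Subgroup (L ≃ₐ[ℂ] L)} [Finite G] {N : ℕ} {y : Fin (N + 1) → fixedField G}
    {Δ : Place ℂ (fixedField G) → ℚ} (hy : IsQuotientPair β G y n Δ) :
    ∃ δ : Place ℂ (fixedField G) → ℚ, (PosB ℂ (fixedField G) n (fun P => ((δ P : ℚ) : ℝ)) ∨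
      NegB ℂ (fixedField G) n (fun P => ((δ P : ℚ) : ℝ))) ∧
      (∀ P, IsPrimeDivisor y P → δ P ≤ Δ P) ∧
      ∀ Q, Divisorial n Q → LogDisc y n Δ Q (1 - δ Q) := by
  classical
  choose w e I hwv hcard hI using exists_inertia (k := ℂ) (L := L) G
  have hl : ∀ v, LiesOn (w v) v (e v) := fun v => hwv v
  have he : ∀ v, (0 : ℚ) < e v := fun v => by
    have := (hl v).1
    exact_mod_cast this
  refine ⟨fun v => 1 - (1 - β (w v)) / (e v : ℚ), quotB htr hess hβ0 h ?_, ?_, ?_⟩
  · intro Q hQ Q' e' hQ'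
    have h1 : e Q = e' := index_unique (hl Q) hQ'
    have h2 := hy.invariant Q hQ Q' (w Q) e' (e Q) hQ' (hl Q)
    have h3 := (he Q).ne'
    rw [h2, ← h1]
    field_simp
    ring
  · intro P hP
    beta_reduce
    have h1 := hy.mult P hP (w P) (e P) (hl P)
    have h3 := (he P).ne'
    rw [h1]
    have h4 : 1 - (1 - (1 - (e P : ℚ) * (1 - Δ P))) / (e P : ℚ) = Δ P := by
      field_simp
      ring
    rw [h4]
  · intro Q hQ
    rw [sub_sub_cancel]
    exact hy.disc Q hQ (w Q) (e Q) (hl Q)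

end

end Pool.Agent.R885.N
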