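import Pool.Agent.R885.Ext

/-!
Nondegeneracy of the fibres of monomial maps.
-/

set_option autoImplicit false
set_option linter.overlappingInstances false
set_option linter.unusedSectionVars false

open FF

namespace Pool.Agent.R885

section

variable {ι J J' k Λ : Type} [Fintype ι] [Field k] [Field Λ] [Algebra k Λ]

/-- the system of the fibre -/
noncomputable def fibSys (f : J → (ι → ℤ) →₀ k) (w : J' → ι → ℤ) (t : J' → Λ) :
    J ⊕ J' → (ι → ℤ) →₀ Λ :=
  Sum.elim (fun l => (f l).mapRange (algebraMap k Λ) (map_zero _))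
    fun j => Finsupp.single (w j) 1 - Finsupp.single 0 (t j)

theorem supp_map (g : (ι → ℤ) →₀ k) :
    (g.mapRange (algebraMap k Λ) (map_zero _)).support = g.support :=
  Finsupp.support_mapRange_of_injective _ _ (algebraMap k Λ).injective

theorem mn_map (g : (ι → ℤ) →₀ k) (v : ι → ℤ) :
    mn v (g.mapRange (algebraMap k Λ) (map_zero _)) = mn v g := by
  unfold mn
  rw [supp_map]

theorem ini_map (g : (ι → ℤ) →₀ k) (v : ι → ℤ) :
    ini v (g.mapRange (algebraMap k Λ) (map_zero _)) =
      (ini v g).mapRange (algebraMap k Λ) (map_zero _) := by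
  classical
  unfold ini
  rw [mn_map]
  ext m
  rw [Finsupp.filter_apply, Finsupp.mapRange_apply, Finsupp.mapRange_apply, Finsupp.filter_apply]
  split_ifs
  · rfl
  · rw [map_zero]

variable {R : Type} [Field R] [Algebra Λ R] [Algebra k R] [IsScalarTower k Λ R]

theorem ev_map (c : ι → R) (g : (ι → ℤ) →₀ k) :
    ev c (g.mapRange (algebraMap k Λ) (map_zero _)) = ev c g := by
  unfold ev
  rw [Finsupp.sum_mapRange_index (by intro m; rw [map_zero, zero_mul])]
  refine Finset.sum_congr rfl fun m _ => ?_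
  beta_reduce
  rw [← IsScalarTower.algebraMap_apply]

theorem gr_map (c : ι → R) (g : (ι → ℤ) →₀ k) (i : ι) :
    gr c (g.mapRange (algebraMap k Λ) (map_zero _)) i = gr c g i := by
  unfold gr
  rw [Finsupp.sum_mapRange_index (by intro m; rw [map_zero, zero_mul, zero_mul])]
  refine Finset.sum_congr rfl fun m _ => ?_
  beta_reduce
  rw [← IsScalarTower.algebraMap_apply]

/-- binomials -/
theorem bin_supp {w : ι → ℤ} {t : Λ} {m : ι → ℤ}
    (hm : m ∈ (Finsupp.single w (1 : Λ) - Finsupp.single 0 t).support) : m = w ∨ m = 0 := by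
  classical
  by_contra hcon
  push Not at hcon
  rw [Finsupp.mem_support_iff, Finsupp.sub_apply, Finsupp.single_apply, Finsupp.single_apply,
    if_neg (Ne.symm hcon.1), if_neg (Ne.symm hcon.2), sub_zero] at hm
  exact hm rfl

theorem bin_ne {w : ι → ℤ} (hw : w ≠ 0) (t : Λ) :
    Finsupp.single w (1 : Λ) - Finsupp.single 0 t ≠ 0 := by
  classical
  intro h
  have h1 := DFunLike.congr_fun h w
  rw [Finsupp.sub_apply, Finsupp.single_eq_same, Finsupp.single_apply, if_neg (Ne.symm hw),
    sub_zero, Finsupp.zero_apply] at h1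
  exact one_ne_zero h1

theorem bin_mn {w : ι → ℤ} (hw : w ≠ 0) (t : Λ) {v : ι → ℤ} (hwv : w ⬝ᵥ v = 0) :
    mn v (Finsupp.single w (1 : Λ) - Finsupp.single 0 t) = 0 := by
  obtain ⟨m, hm, h⟩ := exists_mn (bin_ne hw t) v
  rw [← h]
  rcases bin_supp hm with rfl | rfl
  · exact hwv
  · exact zero_dotProduct v

theorem bin_ini {w : ι → ℤ} (hw : w ≠ 0) (t : Λ) {v : ι → ℤ} (hwv : w ⬝ᵥ v = 0) :
    ini v (Finsupp.single w (1 : Λ) - Finsupp.single 0 t) =
      Finsupp.single w (1 : Λ) - Finsupp.single 0 t := by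
  classical
  unfold ini
  rw [Finsupp.filter_eq_self_iff]
  intro m hm
  rw [bin_mn hw t hwv]
  rcases bin_supp (Finsupp.mem_support_iff.2 hm) with rfl | rfl
  · exact hwv
  · exact zero_dotProduct v

theorem bin_ev (c : ι → R) (w : ι → ℤ) (t : Λ) :
    ev c (Finsupp.single w (1 : Λ) - Finsupp.single 0 t) = mono c w - algebraMap Λ R t := by
  unfold ev
  rw [Finsupp.sum_sub_index (fun a b1 b2 => by rw [map_sub, sub_mul]),
    Finsupp.sum_single_index (by rw [map_zero, zero_mul]),
    Finsupp.sum_single_index (by rw [map_zero, zero_mul]), map_one, one_mul, mono_zero, mul_one]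

theorem bin_gr (c : ι → R) (w : ι → ℤ) (t : Λ) (i : ι) :
    gr c (Finsupp.single w (1 : Λ) - Finsupp.single 0 t) i = (w i : R) * mono c w := by
  unfold gr
  rw [Finsupp.sum_sub_index (fun a b1 b2 => by rw [map_sub, sub_mul, sub_mul]),
    Finsupp.sum_single_index (by rw [map_zero, zero_mul, zero_mul]),
    Finsupp.sum_single_index (by rw [map_zero, zero_mul, zero_mul]), map_one, one_mul,
    Pi.zero_apply, Int.cast_zero, mul_zero, zero_mul, sub_zero]

/-- **Nondegeneracy of the fibres.** -/
theorem nd_fibre [CharZero k] [Fintype J] [Fintype J'] {f : J → (ι → ℤ) →₀ k} {v : ι → ℤ}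
    (h : NonDeg R f v) {w : J' → ι → ℤ} (hw : ∀ j, w j ≠ 0) {t : J' → Λ}
    (ht : AlgebraicIndependent k t) (hwv : ∀ j, w j ⬝ᵥ v = 0) :
    NonDeg R (fibSys f w t) v := by
  classical
  intro c hc hev
  have hev1 : ∀ l, ev c (ini v (f l)) = 0 := by
    intro l
    have h1 := hev (Sum.inl l)
    change ev c (ini v ((f l).mapRange (algebraMap k Λ) (map_zero _))) = 0 at h1
    rwa [ini_map, ev_map] at h1
  have hev2 : ∀ j, mono c (w j) = algebraMap Λ R (t j) := by
    intro j
    have h1 := hev (Sum.inr j)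
    change ev c (ini v (Finsupp.single (w j) 1 - Finsupp.single 0 (t j))) = 0 at h1
    rw [bin_ini (hw j) _ (hwv j), bin_ev] at h1
    exact sub_eq_zero.1 h1
  have ht' : AlgebraicIndependent k fun j => algebraMap Λ R (t j) :=
    ht.map' (f := IsScalarTower.toAlgHom k Λ R) (algebraMap Λ R).injective
  -- derivations dual to the `t`
  have hE : ∀ j, ∃ E : Derivation k R R, ∀ j', E (algebraMap Λ R (t j')) =
      if j' = j then 1 else 0 := by
    intro j
    obtain ⟨s, hs, hs'⟩ := exists_isTranscendenceBasis_superset (R := k)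
      (s := Set.range fun j => algebraMap Λ R (t j)) (AlgebraicIndependent.to_subtype_range ht')
    let a : J' → s := fun j => ⟨algebraMap Λ R (t j), hs ⟨j, rfl⟩⟩
    obtain ⟨E, hE⟩ := Pool.Agent.W619.PQ.exists_dual (fun z : s => (z : R)) hs' (a j)
    refine ⟨E, fun j' => ?_⟩
    have h1 := hE (a j')
    change E (algebraMap Λ R (t j')) = _ at h1
    rw [h1]
    by_cases hj : j' = j
    · rw [if_pos hj, if_pos (by rw [hj])]
    · rw [if_neg hj, if_neg]
      intro h2
      exact hj (ht'.injective (congrArg Subtype.val h2))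
  rw [Fintype.linearIndependent_iff]
  intro g hg
  have hg1 : ∀ i, (∑ l, g (Sum.inl l) * gr c (ini v (f l)) i) +
      ∑ j, g (Sum.inr j) * ((w j i : R) * mono c (w j)) = 0 := by
    intro i
    have h1 := congrFun hg i
    rw [Fintype.sum_sum_type, Pi.add_apply, Finset.sum_apply, Finset.sum_apply] at h1
    rw [← Pi.zero_apply i (M := fun _ : ι => R), ← h1]
    congr 1
    · refine Finset.sum_congr rfl fun l _ => ?_
      rw [Pi.smul_apply, smul_eq_mul]
      change _ = _ * gr c (ini v ((f l).mapRange (algebraMap k Λ) (map_zero _))) i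
      rw [ini_map, gr_map]
    · refine Finset.sum_congr rfl fun j _ => ?_
      rw [Pi.smul_apply, smul_eq_mul]
      change _ = _ * gr c (ini v (Finsupp.single (w j) 1 - Finsupp.single 0 (t j))) i
      rw [bin_ini (hw j) _ (hwv j), bin_gr]
  have hinr : ∀ j0, g (Sum.inr j0) = 0 := by
    intro j0
    obtain ⟨E, hE⟩ := hE j0
    have h1 : ∑ i, ((∑ l, g (Sum.inl l) * gr c (ini v (f l)) i) +
        ∑ j, g (Sum.inr j) * ((w j i : R) * mono c (w j))) * (E (c i) / c i) = 0 :=
      Finset.sum_eq_zero fun i _ => by rw [hg1, zero_mul]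
    simp only [add_mul] at h1
    rw [Finset.sum_add_distrib] at h1
    have h2 : ∑ i, (∑ l, g (Sum.inl l) * gr c (ini v (f l)) i) * (E (c i) / c i) = 0 := by
      simp only [Finset.sum_mul]
      rw [Finset.sum_comm]
      refine Finset.sum_eq_zero fun l _ => ?_
      have h3 := der_ev E hc (ini v (f l))
      rw [hev1 l, map_zero] at h3
      have h4 : ∑ i, g (Sum.inl l) * gr c (ini v (f l)) i * (E (c i) / c i) =
          g (Sum.inl l) * ∑ i, gr c (ini v (f l)) i * (E (c i) / c i) := by
        rw [Finset.mul_sum]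
        exact Finset.sum_congr rfl fun i _ => by ring
      rw [h4, ← h3, mul_zero]
    have h3 : ∑ i, (∑ j, g (Sum.inr j) * ((w j i : R) * mono c (w j))) * (E (c i) / c i) =
        g (Sum.inr j0) := by
      simp only [Finset.sum_mul]
      rw [Finset.sum_comm]
      have h4 : ∀ j, ∑ i, g (Sum.inr j) * ((w j i : R) * mono c (w j)) * (E (c i) / c i) =
          g (Sum.inr j) * (if j = j0 then 1 else 0) := by
        intro j
        rw [← hE j, ← hev2 j, der_mono E hc, Finset.mul_sum, Finset.mul_sum]
        exact Finset.sum_congr rfl fun i _ => by ring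
      rw [Finset.sum_congr rfl fun j _ => h4 j, Finset.sum_eq_single j0]
      · rw [if_pos rfl, mul_one]
      · intro j _ hj
        rw [if_neg hj, mul_zero]
      · intro hj
        exact absurd (Finset.mem_univ _) hj
    rw [h2, h3, zero_add] at h1
    exact h1
  have hinl := Fintype.linearIndependent_iff.1 (h c hc hev1) (fun l => g (Sum.inl l)) (by
    funext i
    rw [Finset.sum_apply, Pi.zero_apply]
    have h1 := hg1 i
    rw [Finset.sum_eq_zero (s := Finset.univ) (f := fun j =>
      g (Sum.inr j) * ((w j i : R) * mono c (w j))) (fun j _ => by rw [hinr j, zero_mul]),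
      add_zero] at h1
    exact h1)
  rintro (l | j)
  · exact hinl l
  · exact hinr j

end

end Pool.Agent.R885
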