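import Pool.Agent.Y173.QA.Fr
import Pool.Agent.Y173.QA.Str1

/-!
A derivation which preserves a subring of the valuation ring with the same field of fractions, and
takes functions with independent residues to regular functions, preserves the valuation ring.
-/

set_option autoImplicit false
set_option linter.overlappingInstances false
set_option linter.unusedSectionVars false

open FF Pool.Agent.W603.LV Pool.Agent.W619.PQ Pool.Agent.Y173.QA

namespace Pool.Agent.R885

section

variable {k K : Type} [Field k] [CharZero k] [Field K] [Algebra k K]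

theorem ord_intCast (P : Place k K) {z : ℤ} (hz : z ≠ 0) : (z : K) ≠ 0 ∧ P.ord (z : K) = 0 := by
  have h1 : ((z : ℤ) : K) = algebraMap k K (z : k) := (map_intCast _ _).symm
  have h2 : (z : k) ≠ 0 := Int.cast_ne_zero.2 hz
  rw [h1]
  exact ⟨by rwa [Ne, map_eq_zero], P.ord_const h2⟩

/-- the order of the derivative in the direction of a uniformizer -/
theorem ord_der_unif (P : Place k K) {s : K} (hs : P.ord s = 1) {E : Derivation k K K}
    (hE : Pres P E) (hEs : E s = 1) {a : K} (ha : a ≠ 0) (hq : P.ord a ≠ 0) :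
    E a ≠ 0 ∧ P.ord (E a) = P.ord a - 1 := by
  have hs0 : s ≠ 0 := by
    rintro rfl
    rw [P.ord_zero] at hs
    omega
  obtain ⟨q, hq'⟩ : ∃ q, q = P.ord a := ⟨_, rfl⟩
  rw [← hq'] at hq ⊢
  obtain ⟨u, hu⟩ : ∃ u, u = a * s ^ (-q) := ⟨_, rfl⟩
  have hu0 : u ≠ 0 := by rw [hu]; exact mul_ne_zero ha (zpow_ne_zero _ hs0)
  have hu1 : P.ord u = 0 := by
    rw [hu, P.ord_mul ha (zpow_ne_zero _ hs0), P.ord_zpow, hs, ← hq']
    ring
  have hau : a = s ^ q * u := by
    rw [hu, mul_comm a, ← mul_assoc, ← zpow_add₀ hs0, add_neg_cancel, zpow_zero, one_mul]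
  have hEa : E a = s ^ (q - 1) * ((q : K) * u + s * E u) := by
    rw [hau, E.leibniz, E.leibniz_zpow, hEs]
    simp only [smul_eq_mul, zsmul_eq_mul, mul_one]
    rw [zpow_sub_one₀ hs0]
    field_simp
    ring
  obtain ⟨hc0, hc1⟩ := ord_intCast P hq
  have h1 : (q : K) * u ≠ 0 := mul_ne_zero hc0 hu0
  have h2 : P.ord ((q : K) * u) = 0 := by rw [P.ord_mul hc0 hu0, hc1, hu1, add_zero]
  have h3 : Ge P 1 (s * E u) := by
    have h4 : Ge P 1 s := Or.inr hs.ge
    have h5 : Ge P 0 (E u) := hE u (Or.inr hu1.ge)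
    simpa using h4.mul h5
  have h4 : (q : K) * u + s * E u ≠ 0 ∧ P.ord ((q : K) * u + s * E u) = 0 := by
    rcases h3 with h3 | h3
    · rw [h3, add_zero]
      exact ⟨h1, h2⟩
    · by_cases h5 : s * E u = 0
      · rw [h5, add_zero]
        exact ⟨h1, h2⟩
      · obtain ⟨h6, h7⟩ := P.ord_add_eq h1 h5 (by omega)
        exact ⟨h6, by rw [h7, h2]⟩
  rw [hEa]
  refine ⟨mul_ne_zero (zpow_ne_zero _ hs0) h4.1, ?_⟩
  rw [P.ord_mul (zpow_ne_zero _ hs0) h4.1, h4.2, P.ord_zpow, hs]
  ring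

/-- the order of the derivative in a direction in which a uniformizer is constant -/
theorem ord_der_flat (P : Place k K) {s : K} (hs : P.ord s = 1) {E : Derivation k K K}
    (hE : Pres P E) (hEs : E s = 0) (a : K) : Ge P (P.ord a) (E a) := by
  by_cases ha : a = 0
  · left
    rw [ha, map_zero]
  have hs0 : s ≠ 0 := by
    rintro rfl
    rw [P.ord_zero] at hs
    omega
  obtain ⟨q, hq'⟩ : ∃ q, q = P.ord a := ⟨_, rfl⟩
  rw [← hq']
  obtain ⟨u, hu⟩ : ∃ u, u = a * s ^ (-q) := ⟨_, rfl⟩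
  have hu1 : P.ord u = 0 := by
    rw [hu, P.ord_mul ha (zpow_ne_zero _ hs0), P.ord_zpow, hs, ← hq']
    ring
  have hau : a = s ^ q * u := by
    rw [hu, mul_comm a, ← mul_assoc, ← zpow_add₀ hs0, add_neg_cancel, zpow_zero, one_mul]
  have hEa : E a = s ^ q * E u := by
    rw [hau, E.leibniz, E.leibniz_zpow, hEs]
    simp
  rw [hEa]
  have h1 : Ge P q (s ^ q) := Or.inr (by rw [P.ord_zpow, hs, mul_one])
  have h2 : Ge P 0 (E u) := hE u (Or.inr hu1.ge)
  simpa using h1.mul h2

/-- a derivation which preserves the valuation ring and kills a uniformizer is logarithmic -/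
theorem log_flat (P : Place k K) {s : K} (hs : P.ord s = 1) {E : Derivation k K K}
    (hE : Pres P E) (hEs : E s = 0) (a : K) : P.Reg (E a / a) := by
  by_cases ha : a = 0
  · left
    rw [ha, div_zero]
  rcases ord_der_flat P hs hE hEs a with h | h
  · left
    rw [h, zero_div]
  · by_cases h0 : E a = 0
    · left
      rw [h0, zero_div]
    · right
      rw [P.ord_div h0 ha]
      omega

theorem der_sum' {ι : Type} (s : Finset ι) (E : ι → Derivation k K K) (c : ι → K) (f : K) :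
    (∑ b ∈ s, c b • E b) f = ∑ b ∈ s, c b * E b f := by
  classical
  induction s using Finset.induction_on with
  | empty => simp
  | insert a s ha ih =>
    rw [Finset.sum_insert ha, Finset.sum_insert ha, Derivation.add_apply, ih,
      Derivation.smul_apply, smul_eq_mul]

/-- **Smoothness in codimension one.** -/
theorem smooth {m : ℕ} (htr : Algebra.trdeg k K = (m + 1 : ℕ))
    (hfin : ∀ y : Fin (m + 1) → K, IsTranscendenceBasis k y →
      FiniteDimensional (IntermediateField.adjoin k (Set.range y)) K)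
    (P : Place k K) {y : Fin m → K}
    (hy : ∀ p : MvPolynomial (Fin m) k, p ≠ 0 →
      MvPolynomial.aeval y p ≠ 0 ∧ P.ord (MvPolynomial.aeval y p) = 0)
    (A : Subring K) (hreg : ∀ a ∈ A, P.Reg a) (hfrac : ∀ z : K, ∃ a ∈ A, a ≠ 0 ∧ a * z ∈ A)
    (D : Derivation k K K) (hD : ∀ a ∈ A, D a ∈ A) (hDy : ∀ j, P.Reg (D (y j))) : Pres P D := by
  obtain ⟨s, hs0, hs⟩ := P.surj
  obtain ⟨hbas, E, hE1, hE2⟩ := frame_of htr hfin P hs hy
  have hexp := der_expand hbas hE1 D
  have hE0s : E 0 s = 1 := by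
    have := hE1 0 0
    rwa [Fin.cons_zero, if_pos rfl] at this
  have hEjs : ∀ j : Fin m, E j.succ s = 0 := by
    intro j
    have := hE1 j.succ 0
    rwa [Fin.cons_zero, if_neg (Fin.succ_ne_zero j)] at this
  have hDf : ∀ f, D f = D s * E 0 f + ∑ j : Fin m, D (y j) * E j.succ f := by
    intro f
    conv_lhs => rw [hexp]
    rw [der_sum', Fin.sum_univ_succ, Fin.cons_zero]
    rfl
  have hflat : ∀ f, Ge P (P.ord f) (∑ j : Fin m, D (y j) * E j.succ f) := by
    intro f
    refine Ge.sum _ _ fun j _ => ?_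
    have h1 : Ge P 0 (D (y j)) := hDy j
    have h2 := h1.mul (ord_der_flat P hs (hE2 j.succ) (hEjs j) f)
    rwa [zero_add] at h2
  by_cases hDs : P.Reg (D s)
  · intro f hf
    rw [hDf]
    refine P.reg_add (P.reg_mul hDs (hE2 0 f hf)) ?_
    by_cases hf0 : f = 0
    · rw [hf0]
      simpa using P.reg_zero
    · exact (hflat f).mono ((P.reg_iff hf0).1 hf)
  exfalso
  unfold Place.Reg at hDs
  push Not at hDs
  obtain ⟨hDs0, hδ⟩ := hDs
  obtain ⟨e, he⟩ : ∃ e : ℤ, e = 1 - P.ord (D s) := ⟨_, rfl⟩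
  have he2 : 2 ≤ e := by omega
  have key : ∀ a, a ≠ 0 → P.ord a ≠ 0 → D a ≠ 0 ∧ P.ord (D a) = P.ord a - e := by
    intro a ha hq
    obtain ⟨h1, h2⟩ := ord_der_unif P hs (hE2 0) hE0s ha hq
    have h3 : P.ord (D s * E 0 a) = P.ord a - e := by
      rw [P.ord_mul hDs0 h1, h2]
      omega
    have h4 : D s * E 0 a ≠ 0 := mul_ne_zero hDs0 h1
    rw [hDf]
    by_cases h5 : ∑ j : Fin m, D (y j) * E j.succ a = 0
    · rw [h5, add_zero]
      exact ⟨h4, h3⟩
    · have h6 := (hflat a).resolve_left h5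
      obtain ⟨h7, h8⟩ := P.ord_add_eq h4 h5 (by omega)
      exact ⟨h7, by rw [h8, h3]⟩
  have hdvd : ∀ (q : ℕ) (a : K), a ∈ A → a ≠ 0 → P.ord a = q → e ∣ (q : ℤ) := by
    intro q
    induction q using Nat.strong_induction_on with
    | _ q ih =>
      intro a ha ha0 hq
      by_cases hq0 : q = 0
      · rw [hq0]
        simp
      obtain ⟨h1, h2⟩ := key a ha0 (by rw [hq]; exact_mod_cast hq0)
      have h3 := (P.reg_iff h1).1 (hreg _ (hD a ha))
      rw [h2, hq] at h3
      obtain ⟨q', hq'⟩ : ∃ q' : ℕ, (q' : ℤ) = q - e := ⟨((q : ℤ) - e).toNat, by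
        rw [Int.toNat_of_nonneg h3]⟩
      have h4 := ih q' (by omega) (D a) (hD a ha) h1 (by rw [h2, hq, hq'])
      rw [hq'] at h4
      have h5 : (q : ℤ) = (q - e) + e := by ring
      rw [h5]
      exact dvd_add h4 (dvd_refl e)
  have hdvd' : ∀ a ∈ A, a ≠ 0 → e ∣ P.ord a := by
    intro a ha ha0
    have h1 := (P.reg_iff ha0).1 (hreg a ha)
    obtain ⟨q, hq⟩ : ∃ q : ℕ, P.ord a = q := ⟨(P.ord a).toNat, by rw [Int.toNat_of_nonneg h1]⟩
    rw [hq]
    exact hdvd q a ha ha0 hq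
  obtain ⟨a, ha, ha0, haz⟩ := hfrac s
  have h1 := hdvd' a ha ha0
  have h2 := hdvd' (a * s) haz (mul_ne_zero ha0 hs0)
  rw [P.ord_mul ha0 hs0, hs] at h2
  have h3 : e ∣ 1 := (Int.dvd_add_right h1).1 h2
  have h4 := Int.le_of_dvd one_pos h3
  omega

end

end Pool.Agent.R885
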