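import Pool.Agent.R885.Loc
import Pool.Agent.R885.Sm

/-!
Regular vector fields at a place in codimension one on which the residue form has its exact order.
-/

set_option autoImplicit false
set_option linter.overlappingInstances false
set_option linter.unusedSectionVars false

open FF Pool.Agent.W603.LV Pool.Agent.W619.PQ Pool.Agent.Y173.QA

namespace Pool.Agent.R885

section

variable {k K : Type} [Field k] [CharZero k] [Field K] [Algebra k K] {r m : ℕ} {J : Type}
  [Fintype J] [DecidableEq J] {x : Fin r → K}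

theorem mn_smul {f : (Fin r → ℤ) →₀ k} (hf : f ≠ 0) {α : ℤ} (hα : 0 ≤ α) (s : Fin r → ℤ) :
    mn (α • s) f = α * mn s f := by
  apply le_antisymm
  · obtain ⟨m, hm, h⟩ := exists_mn hf s
    rw [← h]
    have h1 := mn_le (v := α • s) hm
    rwa [dotProduct_smul, smul_eq_mul] at h1
  · refine le_mn hf fun m hm => ?_
    rw [dotProduct_smul, smul_eq_mul]
    exact mul_le_mul_of_nonneg_left (mn_le hm) hα

theorem gr'_mem (P : Place k K) (x : Fin r → K) (f : (Fin r → ℤ) →₀ k) {m0 : Fin r → ℤ}
    (hm0 : m0 ⬝ᵥ vec P x = mn (vec P x) f) (i : Fin r) : gr' x f m0 i ∈ A0 P x := by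
  unfold gr' Finsupp.sum
  refine sum_mem fun m hm => mul_mem (mul_mem (const_mem P x _) (intCast_mem _ _))
    (mono_mem P x ?_)
  rw [sub_dotProduct, hm0]
  exact sub_nonneg.2 (mn_le hm)

theorem ev'_zero (hx : ∀ i, x i ≠ 0) {f : (Fin r → ℤ) →₀ k} (hf : ev x f = 0) (m0 : Fin r → ℤ) :
    ev' x f m0 = 0 := by
  have h := ev_eq hx f m0
  rw [hf] at h
  exact (mul_eq_zero.1 h.symm).resolve_left (mono_ne hx _)

/-- the pairing of the gradient with the direction of the place -/
theorem gr'_dir (P : Place k K) (hx : ∀ i, x i ≠ 0) {f : (Fin r → ℤ) →₀ k} (hf : ev x f = 0)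
    {m0 s c1 : Fin r → ℤ} {α : ℤ} (hα : 0 < α) (hv : vec P x = α • s) (hc1 : c1 ⬝ᵥ s = 1)
    (hm0 : m0 ⬝ᵥ vec P x = mn (vec P x) f) :
    ∃ t ∈ A0 P x, ∑ i, gr' x f m0 i * (s i : K) = mono x c1 * t := by
  classical
  have hge : ∀ m ∈ f.support, 0 ≤ (m - m0) ⬝ᵥ s := by
    intro m hm
    have h1 : 0 ≤ (m - m0) ⬝ᵥ vec P x := by
      rw [sub_dotProduct, hm0]
      exact sub_nonneg.2 (mn_le hm)
    rw [hv, dotProduct_smul, smul_eq_mul] at h1
    exact nonneg_of_mul_nonneg_right h1 hα
  have h1 : ∑ i, gr' x f m0 i * (s i : K) = ∑ m ∈ f.support, algebraMap k K (f m) *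
      (((m - m0) ⬝ᵥ s : ℤ) : K) * mono x (m - m0) := by
    have h2 : ∑ i, gr' x f m0 i * (s i : K) = ∑ m ∈ f.support, algebraMap k K (f m) *
        ((m ⬝ᵥ s : ℤ) : K) * mono x (m - m0) := by
      unfold gr' Finsupp.sum
      simp only [Finset.sum_mul]
      rw [Finset.sum_comm]
      refine Finset.sum_congr rfl fun m _ => ?_
      have h3 : ((m ⬝ᵥ s : ℤ) : K) = ∑ i, (m i : K) * (s i : K) := by
        unfold dotProduct
        push_cast
        rfl
      rw [h3, Finset.mul_sum, Finset.sum_mul]
      exact Finset.sum_congr rfl fun i _ => by ring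
    have h3 := ev'_zero hx hf m0
    have h4 : ∑ m ∈ f.support, algebraMap k K (f m) * (((m - m0) ⬝ᵥ s : ℤ) : K) *
        mono x (m - m0) = (∑ m ∈ f.support, algebraMap k K (f m) *
        ((m ⬝ᵥ s : ℤ) : K) * mono x (m - m0)) - ((m0 ⬝ᵥ s : ℤ) : K) * ev' x f m0 := by
      unfold ev' Finsupp.sum
      rw [Finset.mul_sum, ← Finset.sum_sub_distrib]
      refine Finset.sum_congr rfl fun m _ => ?_
      rw [sub_dotProduct]
      push_cast
      ring
    rw [h2, h4, h3, mul_zero, sub_zero]
  rw [h1]
  -- each term is divisible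
  have h2 : ∀ m ∈ f.support, ∃ t ∈ A0 P x, algebraMap k K (f m) *
      (((m - m0) ⬝ᵥ s : ℤ) : K) * mono x (m - m0) = mono x c1 * t := by
    intro m hm
    rcases (hge m hm).lt_or_eq with h | h
    · refine ⟨algebraMap k K (f m) * (((m - m0) ⬝ᵥ s : ℤ) : K) * mono x (m - m0 - c1),
        mul_mem (mul_mem (const_mem P x _) (intCast_mem _ _)) (mono_mem P x ?_), ?_⟩
      · rw [hv, dotProduct_smul, smul_eq_mul, sub_dotProduct _ c1, hc1]
        exact mul_nonneg hα.le (by omega)
      · have h3 : mono x (m - m0) = mono x c1 * mono x (m - m0 - c1) := by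
          rw [← mono_add hx]
          congr 1
          abel
        rw [h3]
        ring
    · exact ⟨0, zero_mem _, by rw [← h]; simp⟩
  choose! t ht1 ht2 using h2
  refine ⟨∑ m ∈ f.support, t m, sum_mem fun m hm => ht1 m hm, ?_⟩
  rw [Finset.mul_sum]
  exact Finset.sum_congr rfl fun m hm => ht2 m hm

theorem om_theta {e : J ⊕ Fin (m + 1) ≃ Fin r} {f : J → (Fin r → ℤ) →₀ k}
    {C : Fin (m + 1) → Fin r → ℤ} {θ : Fin (m + 1) → Derivation k K K}
    (hθ : ∀ a b, ∑ i, (C b i : K) * lg x (θ a) i = if a = b then 1 else 0) (d : Fin (m + 1) → K) :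
    Om e x f C (fun a => d a • θ a) = (∏ a, d a) / dt e (fun l => gr x (f l)) C := by
  classical
  unfold Om
  congr 1
  have h1 : (cw C fun a => lg x (d a • θ a)) = Matrix.diagonal d := by
    ext b a
    change ∑ i, (C b i : K) * ((d a • θ a) (x i) / x i) = _
    have h2 : ∑ i, (C b i : K) * ((d a • θ a) (x i) / x i) =
        d a * ∑ i, (C b i : K) * lg x (θ a) i := by
      rw [Finset.mul_sum]
      refine Finset.sum_congr rfl fun i _ => ?_
      unfold lg
      rw [Derivation.smul_apply, smul_eq_mul]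
      ring
    rw [h2, hθ, Matrix.diagonal_apply]
    by_cases h : a = b
    · rw [if_pos h, if_pos h.symm, mul_one, h]
    · rw [if_neg h, if_neg (Ne.symm h), mul_zero]
  rw [h1, Matrix.det_diagonal]

/-- **Regular vector fields with the exact order.** -/
theorem frame_at (htr : Algebra.trdeg k K = (m + 1 : ℕ))
    (hfin : ∀ y : Fin (m + 1) → K, IsTranscendenceBasis k y →
      FiniteDimensional (IntermediateField.adjoin k (Set.range y)) K)
    (P : Place k K) (hx : ∀ i, x i ≠ 0) (hgen : IntermediateField.adjoin k (Set.range x) = ⊤)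
    {e : J ⊕ Fin (m + 1) ≃ Fin r} {f : J → (Fin r → ℤ) →₀ k} (hf0 : ∀ l, f l ≠ 0)
    (hf : ∀ l, ev x (f l) = 0) (hnd : NonDeg P.RF f (vec P x)) {y : Fin m → K}
    (hy : ∀ p : MvPolynomial (Fin m) k, p ≠ 0 →
      MvPolynomial.aeval y p ≠ 0 ∧ P.ord (MvPolynomial.aeval y p) = 0)
    (hyA : ∀ j, y j ∈ AA P x) {C0 : Fin (m + 1) → Fin r → ℤ}
    (h0 : dt e (fun l => gr x (f l)) C0 ≠ 0) {u0 : Fin r → ℤ} {c : ℤ}
    (h : vec P x = 0 ∨ ∃ (s c1 : Fin r → ℤ) (α : ℤ), 0 < α ∧ vec P x = α • s ∧ c1 ⬝ᵥ s = 1 ∧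
      u0 ⬝ᵥ s = c * (1 + ∑ l, mn s (f l))) :
    ∃ D : Fin (m + 1) → Derivation k K K, (∀ a, Pres P (D a)) ∧ Om e x f C0 D ≠ 0 ∧
      c * P.ord (Om e x f C0 D) + u0 ⬝ᵥ vec P x = 0 := by
  classical
  obtain ⟨t, ht0, ht⟩ := P.surj
  obtain ⟨hbas, E, hE1, hE2⟩ := frame_of htr hfin P ht hy
  choose m0 hm0 hm0' using fun l => exists_mn (hf0 l) (vec P x)
  have hli := nd_place P hx hf hnd hm0'
  have hcard : Fintype.card (Fin r) = Fintype.card J + (m + 1) := by
    rw [← Fintype.card_congr e, Fintype.card_sum, Fintype.card_fin]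
  have hGA : ∀ l i, gr' x (f l) (m0 l) i ∈ AA P x := fun l i =>
    A0_le P x (gr'_mem P x (f l) (hm0' l) i)
  -- preservation
  have hpres : ∀ D : Derivation k K K, (∀ w, 0 ≤ w ⬝ᵥ vec P x → D (mono x w) ∈ AA P x) →
      Pres P D := by
    intro D hD
    refine smooth htr hfin P hy (AA P x) (fun a ha => AA_reg P hx ha) (AA_frac P hx hgen) D
      (fun a ha => AA_der P hD ha) fun j => AA_reg P hx (AA_der P hD (hyA j))
  rcases h with hv | ⟨s, c1, α, hα, hv, hc1, hs⟩
  · obtain ⟨C, hC⟩ := complete_zero hli (n := m + 1) hcard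
    obtain ⟨h1, h2⟩ := ord_dt P e (fun l i => reg_gr' P hx (f l) (hm0' l) i) hC
    have h1' : dt e (fun l => gr' x (f l) (m0 l)) C ≠ 0 := h1
    have h2' : P.ord (dt e (fun l => gr' x (f l) (m0 l)) C) = 0 := h2
    obtain ⟨h3, h4⟩ := ord_dt_gr P (e := e) hx hm0' hC
    obtain ⟨θ, hθ⟩ := exists_theta hx hgen hf h1' hE1
    have hdA : (dt e (fun l => gr' x (f l) (m0 l)) C)⁻¹ ∈ AA P x := by
      refine AA_inv P ?_ h1' h2'
      unfold dt
      rw [Matrix.det_apply']
      refine sum_mem fun σ _ => mul_mem (intCast_mem _ _) (prod_mem fun a _ => ?_)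
      rcases σ a with a' | a'
      · exact hGA a' _
      · exact intCast_mem _ _
    have hlg : ∀ a i, lg x (θ a) i ∈ AA P x := by
      intro a i
      obtain ⟨t', ht', h5⟩ := solve_mem h1' (AA P x) hGA hdA (w := lg x (θ a)) (z := 1) (by
        rintro (l | b)
        · exact ⟨0, zero_mem _, by
            rw [mul_zero]
            exact gr'_lg hx (hf l) (m0 l) (θ a)⟩
        · refine ⟨if a = b then 1 else 0, ?_, ?_⟩
          · split_ifs
            · exact one_mem _
            · exact zero_mem _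
          · rw [one_mul]
            exact hθ a b) i
      rw [h5, one_mul]
      exact ht'
    refine ⟨fun a => (1 : K) • θ a, fun a => hpres _ fun w hw => ?_, ?_, ?_⟩
    · change ((1 : K) • θ a) (mono x w) ∈ _
      rw [one_smul, der_mono (θ a) hx]
      exact mul_mem (A0_le P x (mono_mem P x hw)) (sum_mem fun i _ =>
        mul_mem (intCast_mem _ _) (hlg a i))
    · rw [om_eq hx hf h0 h3, om_theta hθ fun _ => 1]
      rw [Finset.prod_const_one]
      exact one_div_ne_zero h3
    · rw [om_eq hx hf h0 h3, om_theta hθ fun _ => 1, Finset.prod_const_one, one_div, P.ord_inv,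
        h4, hv, dotProduct_zero, Finset.sum_eq_zero fun l _ => mn_zero (hf0 l)]
      ring
  · -- a place at the boundary
    have hdir := fun l => gr'_dir P hx (hf l) hα hv hc1 (hm0' l)
    choose tt htt1 htt2 using hdir
    have hz0 : mono x c1 ≠ 0 := mono_ne hx _
    have hzord : P.ord (mono x c1) = α := by
      rw [ord_mono P hx, hv, dotProduct_smul, hc1, smul_eq_mul, mul_one]
    have hzA : mono x c1 ∈ AA P x := A0_le P x (mono_mem P x (by
      rw [hv, dotProduct_smul, hc1, smul_eq_mul, mul_one]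
      exact hα.le))
    have has : ∀ l, (fun i => P.red (gr' x (f l) (m0 l) i)) ⬝ᵥ (fun i => (s i : P.RF)) = 0 := by
      intro l
      have h5 : P.red (∑ i, gr' x (f l) (m0 l) i * (s i : K)) = 0 := by
        have h6 : Ge P 1 (mono x c1 * tt l) := by
          have h7 : Ge P 1 (mono x c1) := Or.inr (by rw [hzord]; omega)
          have h8 : Ge P 0 (tt l) := A0_reg P hx (htt1 l)
          simpa using h7.mul h8
        rw [htt2 l]
        rw [P.red_eq_zero_iff (h6.mono (by omega))]
        rcases h6 with h6 | h6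
        · exact Or.inl h6
        · exact Or.inr (by omega)
      rw [red_sum P _ _ fun i _ => P.reg_mul (reg_gr' P hx (f l) (hm0' l) i) (reg_int P (s i))] at h5
      rw [← h5]
      unfold dotProduct
      refine Finset.sum_congr rfl fun i _ => ?_
      rw [P.red_mul (reg_gr' P hx (f l) (hm0' l) i) (reg_int P (s i)), red_int]
    obtain ⟨C, hC0, hCs, hC⟩ := complete_s hli hcard hc1 has
    obtain ⟨h1, h2⟩ := ord_dt P e (fun l i => reg_gr' P hx (f l) (hm0' l) i) hC
    have h1' : dt e (fun l => gr' x (f l) (m0 l)) C ≠ 0 := h1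
    have h2' : P.ord (dt e (fun l => gr' x (f l) (m0 l)) C) = 0 := h2
    obtain ⟨h3, h4⟩ := ord_dt_gr P (e := e) hx hm0' hC
    obtain ⟨θ, hθ⟩ := exists_theta hx hgen hf h1' hE1
    have hdA : (dt e (fun l => gr' x (f l) (m0 l)) C)⁻¹ ∈ AA P x := by
      refine AA_inv P ?_ h1' h2'
      unfold dt
      rw [Matrix.det_apply']
      refine sum_mem fun σ _ => mul_mem (intCast_mem _ _) (prod_mem fun a _ => ?_)
      rcases σ a with a' | a'
      · exact hGA a' _
      · exact intCast_mem _ _
    have hlg : ∀ a i, lg x (θ a) i ∈ AA P x := by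
      intro a i
      obtain ⟨t', ht', h5⟩ := solve_mem h1' (AA P x) hGA hdA (w := lg x (θ a)) (z := 1) (by
        rintro (l | b)
        · exact ⟨0, zero_mem _, by
            rw [mul_zero]
            exact gr'_lg hx (hf l) (m0 l) (θ a)⟩
        · refine ⟨if a = b then 1 else 0, ?_, ?_⟩
          · split_ifs
            · exact one_mem _
            · exact zero_mem _
          · rw [one_mul]
            exact hθ a b) i
      rw [h5, one_mul]
      exact ht'
    -- the first vector field
    have hδ : ∀ i, ∃ t' ∈ AA P x, lg x (θ 0) i - (s i : K) = mono x c1 * t' := by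
      intro i
      refine solve_mem h1' (AA P x) hGA hdA (w := fun i => lg x (θ 0) i - (s i : K))
        (z := mono x c1) ?_ i
      rintro (l | b)
      · refine ⟨-tt l, neg_mem (A0_le P x (htt1 l)), ?_⟩
        change ∑ i, gr' x (f l) (m0 l) i * (lg x (θ 0) i - (s i : K)) = _
        simp only [mul_sub]
        rw [Finset.sum_sub_distrib, gr'_lg hx (hf l) (m0 l) (θ 0), htt2 l, zero_sub, mul_neg]
      · refine ⟨0, zero_mem _, ?_⟩
        change ∑ i, (C b i : K) * (lg x (θ 0) i - (s i : K)) = _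
        simp only [mul_sub]
        rw [Finset.sum_sub_distrib, hθ 0 b, mul_zero]
        have h5 : ∑ i, (C b i : K) * (s i : K) = ((C b ⬝ᵥ s : ℤ) : K) := by
          unfold dotProduct
          push_cast
          rfl
        rw [h5]
        refine Fin.cases ?_ (fun b => ?_) b
        · rw [if_pos rfl, hC0, hc1, Int.cast_one, sub_self]
        · rw [if_neg (Fin.succ_ne_zero b).symm, hCs, Int.cast_zero, sub_self]
    choose δ hδ1 hδ2 using hδ
    let d : Fin (m + 1) → K := Fin.cons (mono x c1)⁻¹ fun _ => 1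
    have hd0 : d 0 = (mono x c1)⁻¹ := rfl
    have hdprod : ∏ a, d a = (mono x c1)⁻¹ := by
      rw [Fin.prod_univ_succ]
      simp [d]
    refine ⟨fun a => d a • θ a, fun a => hpres _ fun w hw => ?_, ?_, ?_⟩
    · revert a
      intro a
      refine Fin.cases ?_ (fun a => ?_) a
      · change (d 0 • θ 0) (mono x w) ∈ _
        rw [hd0, Derivation.smul_apply, smul_eq_mul, der_mono (θ 0) hx]
        rw [hv, dotProduct_smul, smul_eq_mul] at hw
        have hws : 0 ≤ w ⬝ᵥ s := nonneg_of_mul_nonneg_right hw hα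
        rcases hws.lt_or_eq with h5 | h5
        · have h6 : (mono x c1)⁻¹ * (mono x w * ∑ i, (w i : K) * (θ 0 (x i) / x i)) =
              mono x (w - c1) * ∑ i, (w i : K) * lg x (θ 0) i := by
            rw [mono_sub hx]
            unfold lg
            ring
          rw [h6]
          refine mul_mem (A0_le P x (mono_mem P x ?_)) (sum_mem fun i _ =>
            mul_mem (intCast_mem _ _) (hlg 0 i))
          rw [hv, dotProduct_smul, smul_eq_mul, sub_dotProduct, hc1]
          exact mul_nonneg hα.le (by omega)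
        · have h6 : ∑ i, (w i : K) * (θ 0 (x i) / x i) = mono x c1 * ∑ i, (w i : K) * δ i := by
            have h7 : ∑ i, (w i : K) * (s i : K) = 0 := by
              have h8 : ∑ i, (w i : K) * (s i : K) = ((w ⬝ᵥ s : ℤ) : K) := by
                unfold dotProduct
                push_cast
                rfl
              rw [h8, ← h5, Int.cast_zero]
            have h9 : ∑ i, (w i : K) * (θ 0 (x i) / x i) =
                ∑ i, (w i : K) * (lg x (θ 0) i - (s i : K)) := by
              simp only [mul_sub]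
              rw [Finset.sum_sub_distrib, h7, sub_zero]
              rfl
            rw [h9, Finset.mul_sum]
            refine Finset.sum_congr rfl fun i _ => ?_
            rw [hδ2]
            ring
          rw [h6]
          have h7 : (mono x c1)⁻¹ * (mono x w * (mono x c1 * ∑ i, (w i : K) * δ i)) =
              mono x w * ∑ i, (w i : K) * δ i := by
            field_simp
          rw [h7]
          refine mul_mem (A0_le P x (mono_mem P x ?_)) (sum_mem fun i _ =>
            mul_mem (intCast_mem _ _) (hδ1 i))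
          rw [hv, dotProduct_smul, ← h5, smul_zero]
      · change ((1 : K) • θ a.succ) (mono x w) ∈ _
        rw [one_smul, der_mono (θ a.succ) hx]
        exact mul_mem (A0_le P x (mono_mem P x hw)) (sum_mem fun i _ =>
          mul_mem (intCast_mem _ _) (hlg a.succ i))
    · rw [om_eq hx hf h0 h3, om_theta hθ d, hdprod]
      exact div_ne_zero (inv_ne_zero hz0) h3
    · rw [om_eq hx hf h0 h3, om_theta hθ d, hdprod, P.ord_div (inv_ne_zero hz0) h3, P.ord_inv,
        hzord]
      have h5 : P.ord (dt e (fun l => gr x (f l)) C) = α * ∑ l, mn s (f l) := by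
        rw [h4, Finset.mul_sum]
        exact Finset.sum_congr rfl fun l _ => by rw [hv, mn_smul (hf0 l) hα.le]
      rw [h5, hv, dotProduct_smul, hs, smul_eq_mul]
      ring

end

end Pool.Agent.R885
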