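import Pool.Agent.R885.G9

/-!
The numerical dimension of a pair is at most the dimension.
-/

set_option autoImplicit false
set_option linter.overlappingInstances false
set_option linter.unusedSectionVars false

open FF IntermediateField Pool.Agent.W619.PQ Pool.Agent.W619.PL Pool.Agent.W619.TW
  Pool.Agent.W603.LV Pool.Agent.W619.Y Pool.Agent.W824.PG Pool.Agent.TH122.AB MvPolynomial
  Pool.Agent.Y173.QA Pool.Agent.Y174

namespace Pool.Agent.R885

section

variable {k K : Type} [Field k] [CharZero k] [Field K] [Algebra k K]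

/-- **The numerical dimension of a pair is at most the dimension.** -/
theorem pair_top (hess : Algebra.EssFiniteType k K) {n : ℕ} (hn : Algebra.trdeg k K = (n : ℕ))
    {δ : Place k K → ℝ} {G : Finset K}
    (hG : ∀ P : Place k K, 0 < δ P → ∃ g ∈ G, P.ord g ≠ 0) (hδ1 : ∀ P : Place k K, δ P ≤ 1) :
    PairNum k K n δ n := by
  classical
  obtain ⟨t, ht⟩ := Pool.Agent.W636.PG.exists_basis k K n hn
  obtain ⟨x, hx⟩ : ∃ x : Fin 0 → K, IsTranscendenceBasis K x :=
    ⟨Fin.elim0, basis_of_ind algebraicIndependent_empty_type (by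
      constructor
      intro z
      exact isAlgebraic_algebraMap (R := IntermediateField.adjoin K (Set.range Fin.elim0)) (A := K)
        ⟨z, by
          have : (algebraMap K K z) ∈ IntermediateField.adjoin K (Set.range Fin.elim0) :=
            IntermediateField.algebraMap_mem _ z
          exact this⟩)⟩
  have hZ := basis_append (L := K) ht hx
  have hfdL := fin_adj hess t ht
  have hfin : ∀ y : Fin (n + 0) → K, IsTranscendenceBasis k y →
      FiniteDimensional (IntermediateField.adjoin k (Set.range y)) K :=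
    fun y hy => fin_adj hess y hy
  have hfd := hfin _ hZ
  obtain ⟨E, hE⟩ := Pool.Agent.W636.PG.exists_duals k K (n + 0) _ hZ
  obtain ⟨b0, hb0, hbP⟩ := exists_supp hZ G
  intro S
  -- clearing the denominators
  choose q hq0 hq using fun i => exists_clear hZ hfd (E i)
  obtain ⟨c, hc⟩ : ∃ c : K, c = ∏ i, aeval (Fin.append (algebraMap K K ∘ t) x) (q i) := ⟨_, rfl⟩
  have hc0 : c ≠ 0 := by
    rw [hc]
    refine Finset.prod_ne_zero_iff.2 fun i _ h0 => hq0 i ?_
    exact (injective_iff_map_eq_zero _).1 hZ.1 _ h0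
  obtain ⟨b, hbd⟩ : ∃ b : K, b = aeval (Fin.append (algebraMap K K ∘ t) x) b0 := ⟨_, rfl⟩
  have hb : b ≠ 0 := by
    rw [hbd]
    intro h0
    exact hb0 ((injective_iff_map_eq_zero _).1 hZ.1 _ h0)
  have hcE : ∀ p : MvPolynomial (Fin (n + 0)) k, Irreducible p → ∀ P : Place k K,
      Adic (Fin.append (algebraMap K K ∘ t) x) p P → ∀ i, Pres P (c • E i) := by
    intro p hp P hP i f hf
    have h1 := hq i p hp P hP f hf
    rw [hc, ← Finset.mul_prod_erase Finset.univ _ (Finset.mem_univ i), mul_comm, mul_smul,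
      Derivation.smul_apply, smul_eq_mul]
    refine P.reg_mul ?_ h1
    have h2 : (∏ j ∈ Finset.univ.erase i,
        aeval (Fin.append (algebraMap K K ∘ t) x) (q j)) ∈ regRing P :=
      prod_mem fun j _ => adic_reg hP (q j)
    exact h2
  obtain ⟨T, hTfin, hTdeg, C2, c2, hC2⟩ := count_rel ht hx hfd hfdL S
  -- the bound at infinity
  have hlb : ∀ P : Place k K, IsDivisorial P (n + 0) → ∃ C : ℕ,
      ∀ (m : ℕ) (ω : (Fin (n + 0) → Derivation k K K) → K), 1 ≤ m →
      PairSec k K (n + 0) δ S m 1 ω →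
        Ge P (-((C * m : ℕ) : ℤ)) ((c ^ (n + 0) * b) ^ m * ω E) :=
    fun P hP => pair_lin_bound (n := n + 0) hn hfin hP E S (c ^ (n + 0) * b) δ
  have hdivT : ∀ b, ∀ P ∈ T b, IsDivisorial P (n + 0) := by
    intro b P hP
    obtain ⟨e, he, hdeg⟩ := hTdeg b P hP
    refine div_of_deg hZ.1 (b := b) fun f hf hf0 => ?_
    rw [hdeg f hf, hf0]
    simp
  obtain ⟨C3, hC3⟩ : ∃ C3 : ℕ, ∀ b', ∀ P ∈ T b', ∀ (m : ℕ)
      (ω : (Fin (n + 0) → Derivation k K K) → K), 1 ≤ m →
      PairSec k K (n + 0) δ S m 1 ω →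
        Ge P (-((C3 * m : ℕ) : ℤ)) ((c ^ (n + 0) * b) ^ m * ω E) := by
    choose Cf hCf using hlb
    have hfin2 : (⋃ b, T b).Finite := Set.finite_iUnion hTfin
    have := hfin2.fintype
    let g : (⋃ b, T b) → ℕ := fun P => Cf P.1 (by
      obtain ⟨b, hb⟩ := Set.mem_iUnion.1 P.2
      exact hdivT b P.1 hb)
    refine ⟨∑ P, g P, fun b' P hP m ω hm hω => ?_⟩
    have hPm : P ∈ ⋃ b, T b := Set.mem_iUnion.2 ⟨b', hP⟩
    have h1 := hCf P (hdivT b' P hP) m ω hm hω
    refine h1.mono ?_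
    have h2 : g ⟨P, hPm⟩ ≤ ∑ P, g P :=
      Finset.single_le_sum (fun _ _ => Nat.zero_le _) (Finset.mem_univ _)
    have h3 : Cf P (hdivT b' P hP) * m ≤ (∑ P, g P) * m := Nat.mul_le_mul_right _ h2
    have h4 : ((Cf P (hdivT b' P hP) * m : ℕ) : ℤ) ≤ (((∑ P, g P) * m : ℕ) : ℤ) := by
      exact_mod_cast h3
    exact neg_le_neg h4
  have hexp : ∀ D : Derivation k K K, ∃ a : Fin (n + 0) → K, D = ∑ i, a i • E i :=
    fun D => ⟨_, der_expand hZ hE D⟩
  refine ⟨C2 * 1 * (C3 + c2) ^ n, fun m N hm hI => ?_⟩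
  obtain ⟨ω, hli, hω⟩ := hI
  have hcm : (c ^ (n + 0) * b) ^ m ≠ 0 := pow_ne_zero _ (mul_ne_zero (pow_ne_zero _ hc0) hb)
  have hlin := lin_frame (fun D => hexp D) hli (fun l => (hω l).1) hcm
  have hrk : Module.finrank K (Submodule.span K (Set.range fun l =>
      (c ^ (n + 0) * b) ^ m * ω l E)) ≤ 1 := by
    have h1 := Submodule.finrank_le (Submodule.span K (Set.range fun l =>
      (c ^ (n + 0) * b) ^ m * ω l E))
    rwa [Module.finrank_self] at h1
  have h1 := hC2 (fun _ => C3 * m) N 1 _ hlin hrk (fun l p hp P hP => ?_)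
    fun l b' P hP => hC3 b' P hP m (ω l) hm (hω l)
  · refine h1.trans ?_
    rw [Finset.prod_const, Finset.card_univ, Fintype.card_fin]
    have h2 : C3 * m + c2 ≤ (C3 + c2) * m := by
      rw [Nat.add_mul]
      have := Nat.le_mul_of_pos_right c2 hm
      omega
    have h3 : (C3 * m + c2) ^ n ≤ (C3 + c2) ^ n * m ^ n := by
      rw [← Nat.mul_pow]
      exact Nat.pow_le_pow_left h2 n
    calc C2 * 1 * (C3 * m + c2) ^ n ≤
        C2 * 1 * ((C3 + c2) ^ n * m ^ n) := Nat.mul_le_mul_left _ h3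
      _ = C2 * 1 * (C3 + c2) ^ n * m ^ n := by ring
  · change Dom P S 1 ((c ^ (n + 0) * b) ^ m * ω l E)
    have h2 : (c ^ (n + 0) * b) ^ m * ω l E =
        b ^ m * ω l (fun i => c • E i) := by
      rw [phi_smul (hω l).1 c E, mul_pow]
      ring
    rw [h2]
    rcases (hω l).2 P (adic_div hZ.1 hp hP) _ (fun i f hf => hcE p hp P hP i f hf) with
      h3 | ⟨s, hs, hs0, hle⟩
    · left
      rw [h3, mul_zero]
    · by_cases h4 : ω l (fun i => c • E i) = 0
      · left
        rw [h4, mul_zero]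
      right
      refine ⟨s, hs, hs0, ?_⟩
      rw [P.ord_mul (pow_ne_zero _ hb) h4, P.ord_pow]
      have hb1 : 0 ≤ P.ord b := by
        rw [hbd]
        exact (hP b0 hb0).1
      have h5 : (m : ℝ) * δ P ≤ m * ((P.ord b : ℤ) : ℝ) := by
        refine mul_le_mul_of_nonneg_left ?_ (Nat.cast_nonneg _)
        by_cases hpos : 0 < δ P
        · have h6 := hbP p P hP (hG P hpos)
          rw [← hbd] at h6
          have h7 : (1 : ℝ) ≤ ((P.ord b : ℤ) : ℝ) := by exact_mod_cast h6
          exact (hδ1 P).trans h7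
        · push Not at hpos
          have h7 : (0 : ℝ) ≤ ((P.ord b : ℤ) : ℝ) := by exact_mod_cast hb1
          linarith
      have h6 : (((1 : ℕ) : ℤ) : ℝ) * ((P.ord s : ℤ) : ℝ) ≤ ((m * P.ord b +
          P.ord (ω l fun i => c • E i) : ℤ) : ℝ) := by
        push_cast
        push_cast at hle
        linarith
      exact_mod_cast h6

end

end Pool.Agent.R885
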