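import Pool.Agent.R885.G6

/-!
The lower bound of the Kodaira dimension, for pairs.
-/

set_option autoImplicit false
set_option linter.overlappingInstances false
set_option linter.unusedSectionVars false

open FF Pool.Agent.W603.LV Pool.Agent.W619.PQ Pool.Agent.Y173.QA Pool.Agent.W619.TW
  Pool.Agent.W619.Y Pool.Agent.Y174

namespace Pool.Agent.R885

section

variable {k K : Type} [Field k] [CharZero k] [Field K] [Algebra k K] {r n : ℕ} {x : Fin r → K}

open scoped Classical in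
/-- **The Kodaira dimension of a pair is at least the number of independent directions.** -/
theorem pairKod_geW (hx : ∀ i, x i ≠ 0)
    (hgen : IntermediateField.adjoin k (Set.range x) = ⊤) {J : Type} [Fintype J] [DecidableEq J]
    (e : J ⊕ Fin n ≃ Fin r) {f : J → (Fin r → ℤ) →₀ k}
    (hf0 : ∀ l, f l ≠ 0) (hf : ∀ l, ev x (f l) = 0) (hndK : NonDeg K f 0)
    (hnd : ∀ P : Place k K, NonDeg P.RF f (vec P x)) {Z : Fin n → K}
    (hZ : IsTranscendenceBasis k Z)
    {J' : Type} [Fintype J'] {h : J' → (Fin r → ℤ) →₀ k} (hh0 : ∀ j, h j ≠ 0)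
    (hhx : ∀ j, ev x (h j) ≠ 0)
    (hndh : ∀ (P : Place k K) (V : Finset J'),
      NonDeg P.RF (Sum.elim f fun j : V => h j) (vec P x))
    {S : Finset (Fin r → ℤ)} {u0 : Fin r → ℤ} {c : ℤ} {a' : (Fin r → ℤ) → ℤ} {nn : J' → ℤ}
    (hc : 0 < c) (hnc : ∀ j, nn j ≤ c)
    (hF : ∀ v, v ≠ 0 → Ph c a' nn f h v ≤ u0 ⬝ᵥ v) {A : ℚ} (hA : 0 ≤ A)
    (hgr : ∀ v, v ≠ 0 → v ∉ S → ∀ i,
        |(v i : ℚ)| ≤ A * ((u0 ⬝ᵥ v - Ph c a' nn f h v : ℤ) : ℚ)) {d : ℕ}
    {w : Fin d → Fin r → ℤ} (hw : ∀ j, ∀ s ∈ S, w j ⬝ᵥ s = 0)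
    (hind : AlgebraicIndependent k fun j => mono x (w j)) {β : Place k K → ℝ}
    (hβ0 : ∀ P : Place k K, IsDivisorial P n → vec P x = 0 → (∀ j, ¬ Van P x (h j)) → 0 ≤ β P)
    (hβ1 : ∀ P : Place k K, IsDivisorial P n → vec P x = 0 → (∃ j, Van P x (h j)) →
      ((c - ∑ j ∈ Finset.univ.filter (fun j => Van P x (h j)), (c - nn j) : ℤ) : ℝ) ≤ c * β P)
    (hβ2 : ∀ P : Place k K, IsDivisorial P n → vec P x ≠ 0 →
      ((c - a' (vec P x) : ℤ) : ℝ) ≤ c * β P) : PairKod k K n β d := by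
  obtain ⟨C0, h0⟩ := exists_C0 hx e hf0 hf hndK
  obtain ⟨D0, hD0'⟩ := Pool.Agent.W602.GT.exists_dual hZ
  have hD0 : ∀ i j, D0 i (Z j) = if i = j then 1 else 0 := by
    intro i j
    have h1 := congrFun (congrFun hD0' i) j
    rw [Matrix.of_apply, Matrix.one_apply] at h1
    exact h1
  have hOm0 := om_ne hx hgen hf h0 hZ hD0
  obtain ⟨cn, hcn⟩ : ∃ cn : ℕ, (cn : ℤ) = c := ⟨c.toNat, Int.toNat_of_nonneg hc.le⟩
  have hcn1 : 1 ≤ cn := by omega
  obtain ⟨N, hN⟩ := exists_nat_ge ((∑ j, ∑ i, |(w j i : ℚ)|) * A + 1)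
  have hW0 : ∀ j, 0 ≤ ∑ i, |(w j i : ℚ)| := fun j => Finset.sum_nonneg fun i _ => abs_nonneg _
  have hN1 : 1 ≤ N := by
    have h1 : (0 : ℚ) ≤ (∑ j, ∑ i, |(w j i : ℚ)|) * A :=
      mul_nonneg (Finset.sum_nonneg fun j _ => hW0 j) hA
    have h2 : (1 : ℚ) ≤ N := by linarith
    exact_mod_cast h2
  let w' : Fin (d + 1) → Fin r → ℤ := Fin.cons 0 w
  have hw' : ∀ l, ∀ s ∈ S, w' l ⬝ᵥ s = 0 := by
    intro l s hs
    refine Fin.cases ?_ (fun j => ?_) l
    · change (0 : Fin r → ℤ) ⬝ᵥ s = 0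
      exact zero_dotProduct s
    · exact hw j s hs
  have hwN : ∀ l, (∑ i, |(w' l i : ℚ)|) * A ≤ N := by
    intro l
    have h1 : (∑ i, |(w' l i : ℚ)|) ≤ ∑ j, ∑ i, |(w j i : ℚ)| := by
      refine Fin.cases ?_ (fun j => ?_) l
      · change (∑ i : Fin r, |(((0 : Fin r → ℤ) i : ℤ) : ℚ)|) ≤ _
        simp only [Pi.zero_apply, Int.cast_zero, abs_zero, Finset.sum_const_zero]
        exact Finset.sum_nonneg fun j _ => hW0 j
      · exact Finset.single_le_sum (f := fun j => ∑ i, |(w j i : ℚ)|) (fun j _ => hW0 j)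
          (Finset.mem_univ j)
    have h2 := mul_le_mul_of_nonneg_right h1 hA
    linarith
  obtain ⟨H, hHd⟩ : ∃ H : K, H = ∏ j, ev x (h j) ^ (-((N : ℤ) * nn j)) := ⟨_, rfl⟩
  have hH0 : H ≠ 0 := by
    rw [hHd]
    exact Finset.prod_ne_zero_iff.2 fun j _ => zpow_ne_zero _ (hhx j)
  let ω : Fin (d + 1) → (Fin n → Derivation k K K) → K := fun l D =>
    (mono x ((N : ℤ) • u0 + w' l) * H) * Om e x f C0 D ^ (N * cn)
  have hωd : ∀ l D, ω l D = (mono x ((N : ℤ) • u0 + w' l) * H) * Om e x f C0 D ^ (N * cn) :=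
    fun l D => rfl
  have hpre : ∀ l, mono x ((N : ℤ) • u0 + w' l) * H ≠ 0 := fun l => mul_ne_zero (mono_ne hx _) hH0
  refine ⟨N * cn, Nat.mul_pos hN1 hcn1, ω, fun l => ⟨?_, ?_⟩, D0, ?_, ?_⟩
  · intro B D
    rw [hωd, hωd]
    have h1 := om_pluri e x f C0 (N * cn) B D
    change Om e x f C0 (fun i => ∑ j, B i j • D j) ^ (N * cn) = B.det ^ (N * cn) *
      Om e x f C0 D ^ (N * cn) at h1
    rw [h1]
    ring
  · intro P hPd D hD
    have hD' : ∀ a, Pres P (D a) := hD
    by_cases hO : Om e x f C0 D = 0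
    · left
      rw [hωd, hO, zero_pow (Nat.mul_pos hN1 hcn1).ne', mul_zero]
    right
    refine ⟨1, Finset.mem_singleton_self _, one_ne_zero, ?_⟩
    rw [Nat.cast_zero, zero_mul, zero_sub]
    obtain ⟨V, hVd⟩ : ∃ V : Finset J', V = Finset.univ.filter fun j => Van P x (h j) := ⟨_, rfl⟩
    have hVmem : ∀ j, j ∈ V ↔ Van P x (h j) := fun j => by
      rw [hVd, Finset.mem_filter]
      simp
    have h1 := om_geW P (e := e) hx hf0 hf (V := V) (h := fun j : V => h j) (fun j => hh0 j)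
      (fun j => hhx j) (fun j => (hVmem j).1 j.2) (hndh P V) h0 hD'
    have h2 := (om_ge P hx hf0 hf (hnd P) h0 hD').2
    have h1' := h1.resolve_left hO
    rw [Finset.sum_coe_sort V (fun j => P.ord (ev x (h j)) - mn (vec P x) (h j))] at h1'
    obtain ⟨v, hv⟩ : ∃ v, v = vec P x := ⟨_, rfl⟩
    obtain ⟨o, ho⟩ : ∃ o, o = P.ord (Om e x f C0 D) := ⟨_, rfl⟩
    have hN0 : (0 : ℤ) ≤ N := by positivity
    have hpH : P.ord H = -((N : ℤ) * ∑ j, nn j * P.ord (ev x (h j))) := by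
      rw [hHd, ord_prod_zpow P _ _ hhx, Finset.mul_sum, ← Finset.sum_neg_distrib]
      exact Finset.sum_congr rfl fun j _ => by ring
    have hsplit : ∑ j, nn j * P.ord (ev x (h j)) = (∑ j, nn j * mn v (h j)) +
        ∑ j ∈ V, nn j * (P.ord (ev x (h j)) - mn v (h j)) := by
      rw [hVd, Finset.sum_filter, ← Finset.sum_add_distrib]
      refine Finset.sum_congr rfl fun j _ => ?_
      split_ifs with hj
      · ring
      · rw [ord_of_not_van P hx hj, hv]
        ring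
    have hord : P.ord (ω l D) = (N : ℤ) * (u0 ⬝ᵥ v) + w' l ⬝ᵥ v + N * c * o -
        N * ((∑ j, nn j * mn v (h j)) + ∑ j ∈ V, nn j * (P.ord (ev x (h j)) - mn v (h j))) := by
      rw [hωd, P.ord_mul (hpre l) (pow_ne_zero _ hO), P.ord_mul (mono_ne hx _) hH0,
        ord_mono P hx, P.ord_pow, hpH, hsplit, add_dotProduct, smul_dotProduct, smul_eq_mul,
        ← ho, ← hv]
      push_cast
      rw [hcn]
      ring
    have hVge : ∀ j ∈ V, 1 ≤ P.ord (ev x (h j)) - mn v (h j) := by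
      intro j hj
      have h3 := ((hVmem j).1 hj).resolve_left (hhx j)
      rw [← hv] at h3
      omega
    have hVs : ∑ j ∈ V, (c - nn j) ≤
        ∑ j ∈ V, (c - nn j) * (P.ord (ev x (h j)) - mn v (h j)) := by
      refine Finset.sum_le_sum fun j hj => ?_
      have h3 := hVge j hj
      have h4 : 0 ≤ c - nn j := by
        have := hnc j
        omega
      nlinarith
    have hVe : ∑ j ∈ V, (c - nn j) * (P.ord (ev x (h j)) - mn v (h j)) =
        c * ∑ j ∈ V, (P.ord (ev x (h j)) - mn v (h j)) -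
          ∑ j ∈ V, nn j * (P.ord (ev x (h j)) - mn v (h j)) := by
      rw [Finset.mul_sum, ← Finset.sum_sub_distrib]
      exact Finset.sum_congr rfl fun j _ => by ring
    have hV0 : 0 ≤ ∑ j ∈ V, (c - nn j) := Finset.sum_nonneg fun j _ => by
      have := hnc j
      omega
    -- the integral bound
    have hgoal : ∀ B : ℤ, ((B : ℤ) : ℝ) ≤ c * β P → -(N * B) ≤ P.ord (ω l D) →
        -(((N * cn : ℕ) : ℝ) * β P) ≤ ((P.ord (ω l D) : ℤ) : ℝ) := by
      intro B hB hB'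
      have h3 : ((-(N * B) : ℤ) : ℝ) ≤ ((P.ord (ω l D) : ℤ) : ℝ) := by exact_mod_cast hB'
      have h4 : (N : ℝ) * B ≤ N * (c * β P) := mul_le_mul_of_nonneg_left hB (Nat.cast_nonneg _)
      have h5 : ((cn : ℕ) : ℝ) = (c : ℝ) := by
        rw [← hcn]
        push_cast
        rfl
      push_cast at h3 ⊢
      rw [h5]
      nlinarith
    rw [← hv, ← ho] at h1'
    by_cases hv0 : v = 0
    · have hmn0 : ∑ l, mn v (f l) = 0 := Finset.sum_eq_zero fun l _ => by
        rw [hv0]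
        exact mn_zero (hf0 l)
      have hmnh : ∑ j, nn j * mn v (h j) = 0 := Finset.sum_eq_zero fun j _ => by
        rw [hv0, mn_zero (hh0 j), mul_zero]
      by_cases hex : ∃ j, Van P x (h j)
      · refine hgoal _ (hβ1 P hPd (by rw [← hv]; exact hv0) hex) ?_
        rw [← hVd, hord, hmnh, hv0, dotProduct_zero, dotProduct_zero]
        rw [hv0] at hVs hVe h1'
        have h3 : (N : ℤ) * c * (-1 - 0 + ∑ j ∈ V, (P.ord (ev x (h j)) - mn 0 (h j))) ≤
            N * c * o := by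
          refine mul_le_mul_of_nonneg_left ?_ (mul_nonneg hN0 hc.le)
          rw [← hv0] at h1' ⊢
          rw [hmn0] at h1'
          exact h1'
        have h4 := mul_le_mul_of_nonneg_left hVs hN0
        rw [hVe] at h4
        nlinarith
      · push Not at hex
        have hVemp : V = ∅ := by
          rw [Finset.eq_empty_iff_forall_notMem]
          exact fun j hj => hex j ((hVmem j).1 hj)
        have ho0 : 0 ≤ o := by
          rw [ho]
          exact (h2 (by rw [← hv]; exact hv0)).resolve_left hO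
        have hβ := hβ0 P hPd (by rw [← hv]; exact hv0) hex
        have h3 : 0 ≤ P.ord (ω l D) := by
          rw [hord, hmnh, hVemp, Finset.sum_empty, hv0, dotProduct_zero, dotProduct_zero]
          have := mul_nonneg (mul_nonneg hN0 hc.le) ho0
          linarith
        have h4 : (0 : ℝ) ≤ ((P.ord (ω l D) : ℤ) : ℝ) := by exact_mod_cast h3
        have h5 : (0 : ℝ) ≤ ((N * cn : ℕ) : ℝ) * β P := mul_nonneg (Nat.cast_nonneg _) hβ
        linarith
    · refine hgoal _ (hβ2 P hPd (by rw [← hv]; exact hv0)) ?_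
      rw [← hv, hord]
      have h3 := hF v hv0
      have h4 : (N : ℤ) * c * (-1 - ∑ l, mn v (f l) +
          ∑ j ∈ V, (P.ord (ev x (h j)) - mn v (h j))) ≤ N * c * o :=
        mul_le_mul_of_nonneg_left h1' (mul_nonneg hN0 hc.le)
      have h5 : -(w' l ⬝ᵥ v) ≤ (N : ℤ) * (u0 ⬝ᵥ v - Ph c a' nn f h v) := by
        by_cases hVS : v ∈ S
        · rw [hw' l v hVS, neg_zero]
          exact mul_nonneg hN0 (by linarith)
        · have h6 := hgr v hv0 hVS
          have hG0 : (0 : ℚ) ≤ ((u0 ⬝ᵥ v - Ph c a' nn f h v : ℤ) : ℚ) := by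
            have : (0 : ℤ) ≤ u0 ⬝ᵥ v - Ph c a' nn f h v := by linarith
            exact_mod_cast this
          have h7 : -((w' l ⬝ᵥ v : ℤ) : ℚ) ≤
              (N : ℚ) * ((u0 ⬝ᵥ v - Ph c a' nn f h v : ℤ) : ℚ) := by
            have h8 : ((w' l ⬝ᵥ v : ℤ) : ℚ) = ∑ i, (w' l i : ℚ) * (v i : ℚ) := by
              unfold dotProduct
              push_cast
              rfl
            calc -((w' l ⬝ᵥ v : ℤ) : ℚ) ≤ |((w' l ⬝ᵥ v : ℤ) : ℚ)| := neg_le_abs _
              _ = |∑ i, (w' l i : ℚ) * (v i : ℚ)| := by rw [h8]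
              _ ≤ ∑ i, |(w' l i : ℚ) * (v i : ℚ)| := Finset.abs_sum_le_sum_abs _ _
              _ = ∑ i, |(w' l i : ℚ)| * |(v i : ℚ)| :=
                  Finset.sum_congr rfl fun i _ => abs_mul _ _
              _ ≤ ∑ i, |(w' l i : ℚ)| *
                  (A * ((u0 ⬝ᵥ v - Ph c a' nn f h v : ℤ) : ℚ)) :=
                  Finset.sum_le_sum fun i _ => mul_le_mul_of_nonneg_left (h6 i) (abs_nonneg _)
              _ = ((∑ i, |(w' l i : ℚ)|) * A) *
                  ((u0 ⬝ᵥ v - Ph c a' nn f h v : ℤ) : ℚ) := by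
                  rw [← Finset.sum_mul]
                  ring
              _ ≤ _ := mul_le_mul_of_nonneg_right (hwN l) hG0
          exact_mod_cast h7
      have h6 := mul_le_mul_of_nonneg_left (hV0.trans hVs) hN0
      rw [hVe] at h6
      have h7 : Ph c a' nn f h v = a' v + c * ∑ l, mn v (f l) + ∑ j, nn j * mn v (h j) := rfl
      rw [h7] at h5
      nlinarith
  · intro l
    rw [hωd]
    exact mul_ne_zero (hpre l) (pow_ne_zero _ hOm0)
  · have h1 : (fun l : Fin d => ω l.succ D0 / ω 0 D0) = fun j => mono x (w j) := by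
      funext j
      rw [hωd, hωd]
      have h2 : w' j.succ = w j := Fin.cons_succ _ _ _
      have h3 : w' 0 = 0 := Fin.cons_zero _ _
      rw [h2, h3, add_zero, mono_add hx, mul_div_mul_right _ _ (pow_ne_zero _ hOm0),
        mul_div_mul_right _ _ hH0, mul_div_cancel_left₀ _ (mono_ne hx _)]
    rw [h1]
    exact hind

end

end Pool.Agent.R885
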