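import Pool.Agent.R885.FinAc
import Pool.Agent.Y174.W4

/-!
The generic fibre of the map given by algebraically independent functions.
-/

set_option autoImplicit false
set_option linter.overlappingInstances false
set_option linter.unusedSectionVars false

open FF IntermediateField Pool.Agent.W619.PQ Pool.Agent.W619.PL Pool.Agent.W619.TW
  Pool.Agent.W603.LV Pool.Agent.Y174

namespace Pool.Agent.R885

/-- **The numerical dimension through the generic fibre.** -/
theorem num_gen {k K : Type} [Field k] [CharZero k] [Field K] [Algebra k K]
    (hess : Algebra.EssFiniteType k K) {d m : ℕ} {t : Fin d → K} (ht : AlgebraicIndependent k t)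
    (htr : Algebra.trdeg k K = (d + (m + 1) : ℕ)) {h : ℕ}
    (H : ∀ (Λ F : Type) [Field Λ] [IsAlgClosed Λ] [Algebra k Λ] [Field F] [Algebra Λ F]
      [Algebra k F] [IsScalarTower k Λ F] (φ : K →ₐ[k] F),
      IntermediateField.adjoin Λ (Set.range φ) = ⊤ → Algebra.trdeg Λ F = (m + 1 : ℕ) →
      ∀ t' : Fin d → Λ, AlgebraicIndependent k t' → (∀ j, algebraMap Λ F (t' j) = φ (t j)) →
      (∀ z : K, IsAlgebraic (IntermediateField.adjoin k (Set.range t)) z →
        ∃ a : Λ, algebraMap Λ F a = φ z) →
      NumLe Λ F (m + 1) (fun _ => False) h) :
    NumLe k K (d + (m + 1)) (fun _ => False) (d + h) := by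
  classical
  let E : IntermediateField k K := IntermediateField.adjoin k (Set.range t)
  have hessE : Algebra.EssFiniteType k E := by
    rw [IntermediateField.essFiniteType_iff]
    exact ⟨Finset.univ.image t, by rw [Finset.coe_image, Finset.coe_univ, Set.image_univ]⟩
  have hessEK : Algebra.EssFiniteType E K := Algebra.EssFiniteType.of_comp k E K
  let L0 : IntermediateField E K := algebraicClosure E K
  have hfinL0 : FiniteDimensional E L0 := fin_algClosure E K
  have hessL0 : Algebra.EssFiniteType k L0 := by
    have h1 : Algebra.EssFiniteType E L0 := inferInstance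
    exact Algebra.EssFiniteType.comp k E L0
  let L : IntermediateField k K := L0.restrictScalars k
  have hmem : ∀ z : K, z ∈ L ↔ IsAlgebraic E z := fun z => mem_algebraicClosure_iff
  have hessL : Algebra.EssFiniteType k L := hessL0
  have htL : ∀ j, t j ∈ L := by
    intro j
    rw [hmem]
    exact isAlgebraic_algebraMap (R := E) (A := K)
      ⟨t j, IntermediateField.subset_adjoin _ _ ⟨j, rfl⟩⟩
  have hELe : E ≤ L := by
    intro z hz
    rw [hmem]
    exact isAlgebraic_algebraMap (R := E) (A := K) ⟨z, hz⟩
  let tL : Fin d → L := fun j => ⟨t j, htL j⟩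
  have htLind : AlgebraicIndependent k tL := AlgebraicIndependent.of_comp L.val ht
  -- the transcendence degree of `L`
  have hLbas : IsTranscendenceBasis k tL := by
    have halg : Algebra.IsAlgebraic (IntermediateField.adjoin k (Set.range tL)) L := by
      constructor
      intro z
      have hz : IsAlgebraic E (z : K) := (hmem z).1 z.2
      obtain ⟨p, hp0, hp⟩ := hz
      -- the field `E` inside `L`
      have hE' : ∀ c : E, ∃ c' : IntermediateField.adjoin k (Set.range tL),
          (((c' : L) : K)) = (c : K) := by
        intro c
        have h1 : E = (IntermediateField.adjoin k (Set.range tL)).map L.val := by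
          change IntermediateField.adjoin k (Set.range t) = _
          rw [IntermediateField.adjoin_map]
          congr 1
          ext z
          simp only [Set.mem_range, Set.mem_image]
          constructor
          · rintro ⟨j, rfl⟩
            exact ⟨tL j, ⟨j, rfl⟩, rfl⟩
          · rintro ⟨_, ⟨j, rfl⟩, rfl⟩
            exact ⟨j, rfl⟩
        have h2 : (c : K) ∈ (IntermediateField.adjoin k (Set.range tL)).map L.val := by
          rw [← h1]
          exact c.2
        obtain ⟨c', hc', hc''⟩ := h2
        exact ⟨⟨c', hc'⟩, hc''⟩
      choose g hg using hE'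
      have hginj : ∀ c, g c = 0 → c = 0 := by
        intro c hc
        apply Subtype.ext
        rw [← hg c, hc]
        rfl
      let gh : E →+* IntermediateField.adjoin k (Set.range tL) :=
        { toFun := g
          map_one' := by
            apply Subtype.ext
            apply Subtype.ext
            rw [hg]
            rfl
          map_mul' := fun a b => by
            apply Subtype.ext
            apply Subtype.ext
            rw [hg]
            change (a : K) * b = ((g a : L) : K) * ((g b : L) : K)
            rw [hg, hg]
          map_zero' := by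
            apply Subtype.ext
            apply Subtype.ext
            rw [hg]
            rfl
          map_add' := fun a b => by
            apply Subtype.ext
            apply Subtype.ext
            rw [hg]
            change (a : K) + b = ((g a : L) : K) + ((g b : L) : K)
            rw [hg, hg] }
      refine ⟨p.map gh, ?_, ?_⟩
      · rw [Ne, Polynomial.map_eq_zero]
        exact hp0
      · apply Subtype.ext
        rw [Polynomial.aeval_def, Polynomial.eval₂_map]
        have h2 := Polynomial.hom_eval₂ p ((algebraMap
          (IntermediateField.adjoin k (Set.range tL)) L).comp gh) (L.val : L →+* K) z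
        change L.val _ = _
        rw [ZeroMemClass.coe_zero]
        refine h2.trans ?_
        rw [← hp, Polynomial.aeval_def]
        congr 1
        ext c
        exact hg c
    exact basis_of_ind htLind halg
  have hLtr : Algebra.trdeg k L = d := Pool.Agent.W602.GT.trdeg_of_basis hLbas
  have hcl : ∀ z : K, IsIntegral L z → ∃ y : L, algebraMap L K y = z := by
    intro z hz
    have h1 : IsAlgebraic L0 z := (show IsIntegral L0 z from hz).isAlgebraic
    have h2 : IsAlgebraic E z := by
      have : Algebra.IsAlgebraic E L0 := inferInstance
      exact h1.restrictScalars E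
    exact ⟨⟨z, (hmem z).2 h2⟩, rfl⟩
  -- the fibre
  let Ω := AlgebraicClosure K
  let Λ : IntermediateField L Ω := algebraicClosure L Ω
  have hΛ : IsAlgClosed Λ := (algebraicClosure.isAlgClosure L Ω).isAlgClosed
  have hΛalg : Algebra.IsAlgebraic L Λ := inferInstance
  let F : IntermediateField Λ Ω := IntermediateField.adjoin Λ (Set.range (algebraMap K Ω))
  have hTL : IsScalarTower k L Ω := IsScalarTower.of_algebraMap_eq fun z => by
    rw [IsScalarTower.algebraMap_apply k K Ω]
    rfl
  have hTΛ : IsScalarTower k Λ Ω := IsScalarTower.of_algebraMap_eq fun z => by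
    rw [IsScalarTower.algebraMap_apply k L Ω]
    rfl
  let φ0 : K →+* F :=
    { toFun := fun z => ⟨algebraMap K Ω z, IntermediateField.subset_adjoin _ _ ⟨z, rfl⟩⟩
      map_one' := Subtype.ext (map_one _)
      map_mul' := fun a b => Subtype.ext (map_mul _ _ _)
      map_zero' := Subtype.ext (map_zero _)
      map_add' := fun a b => Subtype.ext (map_add _ _ _) }
  let iKF : Algebra K F := φ0.toAlgebra
  have hKF : ∀ z : K, ((algebraMap K F z : F) : Ω) = algebraMap K Ω z := fun z => rfl
  have hT1 : IsScalarTower L K F := IsScalarTower.of_algebraMap_eq fun z => Subtype.ext rfl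
  have hT2 : IsScalarTower k K F := IsScalarTower.of_algebraMap_eq fun z => by
    apply Subtype.ext
    rw [hKF, ← IsScalarTower.algebraMap_apply k K Ω]
    rfl
  have hT3 : IsScalarTower k L Λ := inferInstance
  have hT4 : IsScalarTower L Λ F := IsScalarTower.of_algebraMap_eq fun z => Subtype.ext rfl
  have hT5 : IsScalarTower k Λ F := inferInstance
  have hgenF : IntermediateField.adjoin Λ (Set.range (algebraMap K F)) = ⊤ := by
    have h1 : (IntermediateField.adjoin Λ (Set.range (algebraMap K F))).map F.val =
        (⊤ : IntermediateField Λ F).map F.val := by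
      rw [IntermediateField.adjoin_map, ← AlgHom.fieldRange_eq_map,
        IntermediateField.fieldRange_val]
      congr 1
      ext z
      simp only [Set.mem_image, Set.mem_range]
      constructor
      · rintro ⟨_, ⟨y, rfl⟩, rfl⟩
        exact ⟨y, rfl⟩
      · rintro ⟨y, rfl⟩
        exact ⟨_, ⟨y, rfl⟩, rfl⟩
    exact IntermediateField.map_injective _ h1
  have htrF : Algebra.trdeg Λ F = (m + 1 : ℕ) :=
    trdeg_F (L := L) (K := K) (trdeg_LK (L := L) hLtr htr) hgenF
  have key := H Λ F (IsScalarTower.toAlgHom k K F) hgenF htrF (fun j => algebraMap L Λ (tL j))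
    (htLind.map' (f := IsScalarTower.toAlgHom k L Λ) (algebraMap L Λ).injective)
    (fun j => Subtype.ext rfl) (fun z hz => ⟨algebraMap L Λ ⟨z, (hmem z).2 hz⟩, Subtype.ext rfl⟩)
  exact easy_add (L := L) (Λ := Λ) (F := F) hessL hess hgenF hcl hLtr htr key

end Pool.Agent.R885
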