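import Pool.Agent.R885.Fd
import Pool.Agent.Y173.QA.Clr

/-!
The numerical dimension is at most the dimension.
-/

set_option autoImplicit false
set_option linter.overlappingInstances false
set_option linter.unusedSectionVars false

open FF MvPolynomial IntermediateField Pool.Agent.W603.LV Pool.Agent.W619.PQ Pool.Agent.TH122.AB
  Pool.Agent.Y173.QA Pool.Agent.W619.TW Pool.Agent.TH756.PN

namespace Pool.Agent.R885

section

variable {k K : Type} [Field k] [CharZero k] [Field K] [Algebra k K]

/-- regular vector fields lower the order by at most one -/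
theorem pres_ge {P : Place k K} {D : Derivation k K K} (hD : Pres P D) {z : K} (hz : z ≠ 0)
    {m : ℕ} (hm : P.ord z = m + 1) : Ge P m (D z) := by
  obtain ⟨t, ht0, ht⟩ := P.surj
  have hu : P.Reg (z / t ^ m) := by
    right
    rw [P.ord_div hz (pow_ne_zero _ ht0), P.ord_pow, ht, hm]
    omega
  have h1 : z = t ^ m * (z / t ^ m) := by
    rw [mul_div_cancel₀ _ (pow_ne_zero _ ht0)]
  have hord : P.ord (z / t ^ m) = 1 := by
    rw [P.ord_div hz (pow_ne_zero _ ht0), P.ord_pow, ht, hm]
    omega
  rw [h1, D.leibniz, D.leibniz_pow, smul_eq_mul, smul_eq_mul, nsmul_eq_mul, smul_eq_mul]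
  have ht' : P.Reg t := Or.inr (by rw [ht]; norm_num)
  have h2 : Ge P m (t ^ m * D (z / t ^ m)) := by
    have h3 : Ge P m (t ^ m) := Or.inr (by rw [P.ord_pow, ht]; omega)
    have h4 : Ge P 0 (D (z / t ^ m)) := hD _ hu
    simpa using h3.mul h4
  have h3 : Ge P m (z / t ^ m * ((m : K) * (t ^ (m - 1) * D t))) := by
    cases m with
    | zero => exact Or.inl (by simp)
    | succ m =>
      have h4 : Ge P 1 (z / t ^ (m + 1)) := Or.inr hord.ge
      have h5 : Ge P 0 (((m + 1 : ℕ) : K)) := by
        have := Ge.intCast (P := P) ((m + 1 : ℕ) : ℤ)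
        simpa using this
      have h6 : Ge P m (t ^ (m + 1 - 1)) := Or.inr (by
        rw [P.ord_pow, ht]
        push_cast
        simp)
      have h7 : Ge P 0 (D t) := hD _ ht'
      have h8 := h4.mul (h5.mul (h6.mul h7))
      refine h8.mono ?_
      push_cast
      omega
  exact h2.add h3

/-- **The numerical dimension is at most the dimension.** -/
theorem num_top {m : ℕ} {Z : Fin (m + 1) → K} (hZ : IsTranscendenceBasis k Z)
    (hfd : FiniteDimensional (IntermediateField.adjoin k (Set.range Z)) K) :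
    NumLe k K (m + 1) (fun _ => False) (m + 1) := by
  classical
  obtain ⟨D0, hD0'⟩ := Pool.Agent.W602.GT.exists_dual hZ
  have hD0 : ∀ i j, D0 i (Z j) = if i = j then 1 else 0 := by
    intro i j
    have h1 := congrFun (congrFun hD0' i) j
    rw [Matrix.of_apply, Matrix.one_apply] at h1
    exact h1
  choose q hq0 hq using fun i => exists_clear hZ hfd (D0 i)
  have h := numLe_pairs (K := K) hZ hfd (κ := Unit) (α := Unit) (fun _ => Finset.univ) (fun _ => 0)
    (fun _ => Finset.mem_univ _) (fun _ => m) (fun _ => by simp) (fun _ => ())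
    (fun _ => Finset.mem_univ _) (fun _ => True) (fun _ => ∏ i, q i)
    (fun _ => Finset.prod_ne_zero_iff.2 fun i _ => hq0 i) (fun _ => ())
    (fun _ _ h => absurd rfl h) (fun _ h => absurd trivial h) Set.univ (fun _ => 0)
    (by
      intro p hp P hP
      refine ⟨Set.mem_univ _, ?_⟩
      by_cases hpq : p ∣ ∏ i, q i
      · exact Or.inr ⟨(), hpq, zero_le_one, fun h => absurd trivial h⟩
      left
      refine ⟨?_, le_rfl⟩
      obtain ⟨b, hb0, hb⟩ := exists_pderiv hp
      have hqb : P.ord (aeval Z (q b)) = 0 := (hP _ (hq0 b)).2.2 fun h1 =>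
        hpq (h1.trans (Finset.dvd_prod_of_mem _ (Finset.mem_univ b)))
      have hqb0 : aeval Z (q b) ≠ 0 := fun h0 =>
        hq0 b ((injective_iff_map_eq_zero _).1 hZ.1 _ h0)
      have hp0 : aeval Z p ≠ 0 := fun h0 =>
        hp.ne_zero ((injective_iff_map_eq_zero _).1 hZ.1 _ h0)
      have hder : D0 b (aeval Z p) = aeval Z (pderiv b p) := der_aeval (hD0 b) p
      have hd0 : aeval Z (pderiv b p) ≠ 0 := fun h0 =>
        hb0 ((injective_iff_map_eq_zero _).1 hZ.1 _ h0)
      have hdo : P.ord (aeval Z (pderiv b p)) = 0 := (hP _ hb0).2.2 hb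
      have h1 := hP p hp.ne_zero
      have h2 : P.ord (aeval Z p) ≠ 0 := fun h3 => (h1.2.1 h3) dvd_rfl
      obtain ⟨e, he⟩ : ∃ e : ℕ, P.ord (aeval Z p) = e + 1 :=
        ⟨(P.ord (aeval Z p) - 1).toNat, by omega⟩
      have h3 := pres_ge (hq b p hp P hP) hp0 he
      rw [Derivation.smul_apply, smul_eq_mul, hder] at h3
      have h4 := h3.resolve_left (mul_ne_zero hqb0 hd0)
      rw [P.ord_mul hqb0 hd0, hqb, hdo] at h4
      omega)
    (fun _ P e _ _ => ⟨Set.mem_univ _, zero_le_one, fun h => absurd trivial h⟩)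
  have hcard : (Finset.univ.filter fun b : Fin (m + 1) => True).card = m + 1 := by
    rw [Finset.filter_true, Finset.card_univ, Fintype.card_fin]
  intro S
  obtain ⟨C, hC⟩ := h S
  refine ⟨C, fun m' N hm' hI => ?_⟩
  obtain ⟨ω, hlin, hsec⟩ := hI
  have h1 := hC m' N hm' ⟨ω, hlin, fun l => ⟨(hsec l).1, fun P _ hP D hD => ?_⟩⟩
  · have h2 : (Finset.univ.filter fun b : Fin (m + 1) => True).card = m + 1 := hcard
    rw [h2] at h1
    exact h1
  · rcases (hsec l).2.1 P hP (fun h => h) D hD with h2 | ⟨s, hs, hs0, hle⟩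
    · exact Or.inl h2
    · refine Or.inr ⟨s, hs, hs0, ?_⟩
      have h3 : (P.ord s : ℝ) ≤ P.ord (ω l D) := by
        have : P.ord s ≤ P.ord (ω l D) := by simpa using hle
        exact_mod_cast this
      simpa using h3

end

end Pool.Agent.R885
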