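import Pool.Agent.R885.Kod
import Pool.Agent.R885.Top
import Pool.Agent.R885.Gen
import Pool.Agent.R885.MB
import Pool.Agent.R885.Rel
import Pool.Agent.R885.Fib

/-!
Kodaira dimension and numerical dimension of nondegenerate complete intersections.
-/

set_option autoImplicit false
set_option linter.overlappingInstances false
set_option linter.unusedSectionVars false

open FF IntermediateField Pool.Agent.W619.PQ Pool.Agent.W619.PL Pool.Agent.W619.TW
  Pool.Agent.W603.LV Pool.Agent.W619.Y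

namespace Pool.Agent.R885

theorem fibSys_inl {ι J J' k Λ : Type} [Fintype ι] [Field k] [Field Λ] [Algebra k Λ]
    (f : J → (ι → ℤ) →₀ k) (w : J' → ι → ℤ) (t : J' → Λ) (l : J) :
    fibSys f w t (Sum.inl l) = (f l).mapRange (algebraMap k Λ) (map_zero _) := rfl

theorem fibSys_inr {ι J J' k Λ : Type} [Fintype ι] [Field k] [Field Λ] [Algebra k Λ]
    (f : J → (ι → ℤ) →₀ k) (w : J' → ι → ℤ) (t : J' → Λ) (j : J') :
    fibSys f w t (Sum.inr j) = Finsupp.single (w j) 1 - Finsupp.single 0 (t j) := rfl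

/-- **The generic fibre has numerical dimension zero.** -/
theorem fibre_zero {k Λ F : Type} [Field k] [CharZero k] [Field Λ] [IsAlgClosed k]
    [Algebra k Λ] [Field F] [Algebra Λ F] [Algebra k F] [IsScalarTower k Λ F] {r d m : ℕ}
    {J : Type} [Fintype J] [DecidableEq J] (e : (J ⊕ Fin d) ⊕ Fin (m + 1) ≃ Fin r)
    (htr : Algebra.trdeg Λ F = (m + 1 : ℕ)) {x : Fin r → F} (hx : ∀ i, x i ≠ 0)
    (hgen : IntermediateField.adjoin Λ (Set.range x) = ⊤) {f : J → (Fin r → ℤ) →₀ k}
    (hf0 : ∀ l, f l ≠ 0) (hf : ∀ l, ev x (f l) = 0) (hnd : ∀ v, NonDeg k f v)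
    {S : Finset (Fin r → ℤ)} {u0 : Fin r → ℤ} {c : ℤ} (hc : 0 < c)
    (hF : ∀ v, v ≠ 0 → c * (1 + ∑ l, mn v (f l)) ≤ u0 ⬝ᵥ v)
    (hS : ∀ s, s ∈ S ↔ s ≠ 0 ∧ u0 ⬝ᵥ s = c * (1 + ∑ l, mn s (f l)))
    (hpos : ∀ q : Fin r → ℚ, (∀ s ∈ S, 0 ≤ dq q s) → ∀ s ∈ S, dq q s = 0)
    {w : Fin d → Fin r → ℤ} (hw : ∀ j, w j ≠ 0) (hwS : ∀ j, ∀ s ∈ S, w j ⬝ᵥ s = 0)
    {t : Fin d → Λ} (ht : AlgebraicIndependent k t) (hwt : ∀ j, algebraMap Λ F (t j) = mono x (w j))
    (hcon : ∀ w' : Fin r → ℤ, (∀ s ∈ S, w' ⬝ᵥ s = 0) → ∃ a : Λ, algebraMap Λ F a = mono x w') :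
    NumLe Λ F (m + 1) (fun _ => False) 0 := by
  classical
  have hcΛ : CharZero Λ := charZero_of_injective_algebraMap (algebraMap k Λ).injective
  have hsp : ∀ P : Place Λ F, InSpan S (vec P x) := by
    intro P w' hw'
    obtain ⟨a, ha⟩ := hcon w' hw'
    rw [← ord_mono P hx, ← ha]
    have ha0 : a ≠ 0 := by
      rintro rfl
      rw [map_zero] at ha
      exact mono_ne hx w' ha.symm
    exact P.ord_const ha0
  have hwv : ∀ v, InSpan S v → ∀ j, w j ⬝ᵥ v = 0 := fun v hv j => hv (w j) (hwS j)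
  have hsum : ∀ v, InSpan S v → ∑ l, mn v (fibSys f w t l) = ∑ l, mn v (f l) := by
    intro v hv
    rw [Fintype.sum_sum_type]
    have h1 : ∀ l, mn v (fibSys f w t (Sum.inl l)) = mn v (f l) := fun l => by
      rw [fibSys_inl, mn_map]
    have h2 : ∀ j, mn v (fibSys f w t (Sum.inr j)) = 0 := fun j => by
      rw [fibSys_inr, bin_mn (hw j) _ (hwv v hv j)]
    rw [Finset.sum_congr rfl fun l _ => h1 l, Finset.sum_eq_zero fun j _ => h2 j, add_zero]
  refine numLe_zero (f := fibSys f w t) (S := S) (u0 := u0) (c := c) htr hx hgen e ?_ ?_ ?_ ?_ hc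
    ?_ ?_ hpos hsp
  · rintro (l | j)
    · rw [fibSys_inl]
      intro h0
      apply hf0 l
      have h1 := supp_map (Λ := Λ) (f l)
      rw [h0, Finsupp.support_zero] at h1
      exact Finsupp.support_eq_empty.1 h1.symm
    · rw [fibSys_inr]
      exact bin_ne (hw j) _
  · rintro (l | j)
    · rw [fibSys_inl, ev_map]
      exact hf l
    · rw [fibSys_inr, bin_ev, hwt, sub_self]
  · exact nd_fibre (nd_ext (hnd 0) F) hw ht fun j => dotProduct_zero _
  · intro P
    let iA : Algebra k P.RF := ((algebraMap Λ P.RF).comp (algebraMap k Λ)).toAlgebra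
    have hT : IsScalarTower k Λ P.RF := IsScalarTower.of_algebraMap_eq fun _ => rfl
    exact nd_fibre (nd_ext (hnd _) P.RF) hw ht (hwv _ (hsp P))
  · intro v hv hvS
    rw [hsum v hvS]
    exact hF v hv
  · intro s
    rw [hS]
    constructor
    · rintro ⟨h1, h2⟩
      have h3 : InSpan S s := fun w' hw' => hw' s ((hS s).2 ⟨h1, h2⟩)
      exact ⟨h1, h3, by rw [hsum s h3]; exact h2⟩
    · rintro ⟨h1, h2, h3⟩
      rw [hsum s h2] at h3
      exact ⟨h1, h3⟩

/-- **Abundance for nondegenerate complete intersections.** -/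
theorem main {k K : Type} [Field k] [CharZero k] [IsAlgClosed k] [Field K] [Algebra k K]
    {r n q : ℕ} (hn : 1 ≤ n) (hr : r = n + q) (htr : Algebra.trdeg k K = (n : ℕ)) {x : Fin r → K}
    (hx : ∀ i, x i ≠ 0) (hgen : IntermediateField.adjoin k (Set.range x) = ⊤)
    {f : Fin q → (Fin r → ℤ) →₀ k} (hf : ∀ l, ev x (f l) = 0) (hnd : ∀ v, NonDeg k f v)
    (hF : (FineInt f).Nonempty) {d : ℕ}
    (hd : Algebra.trdeg k (IntermediateField.adjoin k {z : K | ∃ w ∈ dirs f, z = mono x w}) =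
      (d : ℕ)) :
    KodTr k K n d ∧ NumLe k K n (fun _ => False) d := by
  classical
  -- the polynomials are not zero
  have hini : ∀ g : (Fin r → ℤ) →₀ k, ini 0 g = g := by
    intro g
    by_cases hg : g = 0
    · rw [hg]
      unfold ini
      rw [Finsupp.filter_zero]
    · exact ini_zero hg
  have hf0 : ∀ l, f l ≠ 0 := by
    have h1 := nd_ext (hnd 0) K x hx fun l => by rw [hini]; exact hf l
    intro l h0
    have h2 := h1.ne_zero l
    apply h2
    rw [hini, h0]
    funext i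
    unfold gr
    exact Finsupp.sum_zero_index
  have hndK : ∀ v, NonDeg K f v := fun v => nd_ext (hnd v) K
  have hndP : ∀ P : Place k K, NonDeg P.RF f (vec P x) := fun P => nd_ext (hnd _) P.RF
  obtain ⟨u0, c, S, A, hc, hA, hF', hS, hpos, hgr, hdirs⟩ := exists_tight hf0 hF
  obtain ⟨t, htG, htind, htalg⟩ := exists_mono_basis hd
  choose w hw hwt using htG
  have hwS : ∀ j, ∀ s ∈ S, w j ⬝ᵥ s = 0 := fun j => (hdirs (w j)).1 (hw j)
  have htw : t = fun j => mono x (w j) := funext hwt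
  obtain ⟨Z, hZ⟩ := Pool.Agent.W636.PG.exists_basis k K n htr
  have e : Fin q ⊕ Fin n ≃ Fin r := Fintype.equivOfCardEq (by
    rw [Fintype.card_sum, Fintype.card_fin, Fintype.card_fin, Fintype.card_fin, hr, add_comm])
  refine ⟨kod_ge hx hgen e hf0 hf (hndK 0) hndP hZ hc hF' hA hgr hwS (by rw [← htw]; exact htind),
    ?_⟩
  have hdn : d ≤ n := by
    have h1 := htind.cardinalMk_le_trdeg
    rw [htr, Cardinal.mk_fin] at h1
    exact_mod_cast h1
  rcases hdn.lt_or_eq with hlt | rfl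
  · -- the generic fibre
    obtain ⟨m, rfl⟩ : ∃ m, n = d + (m + 1) := ⟨n - d - 1, by omega⟩
    have hess : Algebra.EssFiniteType k K := by
      rw [← IntermediateField.fg_top_iff, ← hgen]
      exact ⟨Finset.univ.image x, by rw [Finset.coe_image, Finset.coe_univ, Set.image_univ]⟩
    refine num_gen (h := 0) hess htind htr ?_
    intro Λ F _ _ _ _ _ _ _ φ hφgen hΛF t' ht' htt' hcon
    have hinj : Function.Injective φ := (φ : K →+* F).injective
    have e' : (Fin q ⊕ Fin d) ⊕ Fin (m + 1) ≃ Fin r := Fintype.equivOfCardEq (by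
      simp only [Fintype.card_sum, Fintype.card_fin]
      omega)
    have hmono : ∀ w' : Fin r → ℤ, φ (mono x w') = mono (fun i => φ (x i)) w' := fun w' =>
      map_mono (φ : K →+* F) x w'
    refine fibre_zero (k := k) (f := f) (S := S) (u0 := u0) (c := c) (w := w) (t := t')
      (x := fun i => φ (x i)) e' hΛF ?_ ?_ hf0 ?_ hnd hc hF' hS hpos ?_ hwS ht' ?_ ?_
    · intro i h0
      exact hx i (hinj (by rw [h0, map_zero]))
    · rw [eq_top_iff, ← hφgen, IntermediateField.adjoin_le_iff]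
      rintro _ ⟨z, rfl⟩
      have hz : z ∈ IntermediateField.adjoin k (Set.range x) := by
        rw [hgen]
        trivial
      have h1 : IntermediateField.adjoin k (Set.range x) ≤
          ((IntermediateField.adjoin Λ (Set.range fun i => φ (x i))).restrictScalars k).comap
            φ := by
        rw [IntermediateField.adjoin_le_iff]
        rintro _ ⟨i, rfl⟩
        exact IntermediateField.subset_adjoin Λ _ ⟨i, rfl⟩
      exact h1 hz
    · intro l
      rw [← map_ev, hf, map_zero]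
    · intro j h0
      have h1 : t j = algebraMap k K 1 := by
        rw [hwt, h0, mono_zero, map_one]
      have h2 := htind.transcendental j
      rw [h1] at h2
      exact h2 (isAlgebraic_algebraMap 1)
    · intro j
      rw [htt', hwt, hmono]
    · intro w' hw'
      have h1 := htalg (mono x w') ⟨w', (hdirs w').2 hw', rfl⟩
      obtain ⟨a, ha⟩ := hcon _ h1
      exact ⟨a, by rw [ha, hmono]⟩
  · -- the top dimension
    obtain ⟨m, rfl⟩ : ∃ m, d = m + 1 := ⟨d - 1, by omega⟩
    exact num_top hZ (hfin_of_gen hgen hZ)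

end Pool.Agent.R885
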