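import Pool.Agent.R885.G11

/-!
Kodaira dimension and numerical dimension of nondegenerate pairs.
-/

set_option autoImplicit false
set_option linter.overlappingInstances false
set_option linter.unusedSectionVars false

open FF IntermediateField Pool.Agent.W619.PQ Pool.Agent.W619.PL Pool.Agent.W619.TW
  Pool.Agent.W603.LV Pool.Agent.W619.Y Pool.Agent.Y174

namespace Pool.Agent.R885

open scoped Classical in
/-- the multiplicity along the place `P`: `1 - A v` if the vector `v` of `P` is not zero, otherwise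
`1 - ∑ (1 - c j)`, the sum over the `j` such that `h j` vanishes at `P`, if this is positive and
there are such `j` -/
noncomputable def bdry {k K : Type} [Field k] [Field K] [Algebra k K] {r : ℕ} {J' : Type}
    [Fintype J'] (A : (Fin r → ℤ) → ℚ) (cw : J' → ℚ) (x : Fin r → K) (h : J' → (Fin r → ℤ) →₀ k)
    (P : Place k K) : ℚ :=
  if (fun i => P.ord (x i)) ≠ 0 then 1 - A fun i => P.ord (x i)
  else if ∃ j, 0 < P.ord (ev x (h j)) then
    max 0 (1 - ∑ j ∈ Finset.univ.filter (fun j => 0 < P.ord (ev x (h j))), (1 - cw j))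
  else 0

section

variable {k K : Type} [Field k] [Field K] [Algebra k K] {r : ℕ} {J' : Type}
  [Fintype J'] {A : (Fin r → ℤ) → ℚ} {cw : J' → ℚ} {x : Fin r → K} {h : J' → (Fin r → ℤ) →₀ k}
  {P : Place k K}

theorem bdry_ne (hv : vec P x ≠ 0) : bdry A cw x h P = 1 - A (vec P x) := if_pos hv

theorem bdry_no (hv : vec P x = 0) (hj : ∀ j, ¬ 0 < P.ord (ev x (h j))) :
    bdry A cw x h P = 0 := by
  have hv' : (fun i => P.ord (x i)) = 0 := hv
  unfold bdry
  rw [if_neg (not_not.2 hv'), if_neg]
  rintro ⟨j, h1⟩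
  exact hj j h1

open scoped Classical in
theorem bdry_van (hv : vec P x = 0) (hj : ∃ j, 0 < P.ord (ev x (h j))) :
    bdry A cw x h P =
      max 0 (1 - ∑ j ∈ Finset.univ.filter (fun j => 0 < P.ord (ev x (h j))), (1 - cw j)) := by
  have hv' : (fun i => P.ord (x i)) = 0 := hv
  unfold bdry
  rw [if_neg (not_not.2 hv'), if_pos hj]

theorem bdry_one (hv : vec P x = 0) {j : J'} (hj : 0 < P.ord (ev x (h j)))
    (hu : ∀ j', 0 < P.ord (ev x (h j')) → j' = j) (hc : 0 ≤ cw j) :
    bdry A cw x h P = cw j := by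
  classical
  rw [bdry_van hv ⟨j, hj⟩]
  have h1 : Finset.univ.filter (fun j => 0 < P.ord (ev x (h j))) = {j} := by
    ext j'
    rw [Finset.mem_filter, Finset.mem_singleton]
    constructor
    · rintro ⟨-, h2⟩
      exact hu j' h2
    · rintro rfl
      exact ⟨Finset.mem_univ _, hj⟩
  rw [h1, Finset.sum_singleton, sub_sub_cancel, max_eq_right hc]

theorem bdry_nonneg (hA1 : ∀ v, A v ≤ 1) : 0 ≤ bdry A cw x h P := by
  classical
  by_cases hv : vec P x = 0
  · by_cases hj : ∃ j, 0 < P.ord (ev x (h j))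
    · rw [bdry_van hv hj]
      exact le_max_left _ _
    · push Not at hj
      rw [bdry_no hv fun j => not_lt.2 (hj j)]
  · rw [bdry_ne hv]
    have := hA1 (vec P x)
    linarith

theorem bdry_le (hA : ∀ v, v ≠ 0 → 0 < A v) (hc1 : ∀ j, cw j ≤ 1) : bdry A cw x h P ≤ 1 := by
  classical
  by_cases hv : vec P x = 0
  · by_cases hj : ∃ j, 0 < P.ord (ev x (h j))
    · rw [bdry_van hv hj]
      refine max_le zero_le_one ?_
      have : 0 ≤ ∑ j ∈ Finset.univ.filter (fun j => 0 < P.ord (ev x (h j))), (1 - cw j) :=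
        Finset.sum_nonneg fun j _ => sub_nonneg.2 (hc1 j)
      linarith
    · push Not at hj
      rw [bdry_no hv fun j => not_lt.2 (hj j)]
      exact zero_le_one
  · rw [bdry_ne hv]
    have := hA _ hv
    linarith

end

/-- **Abundance for nondegenerate pairs.** -/
theorem mainW {k K : Type} [Field k] [CharZero k] [IsAlgClosed k] [Field K] [Algebra k K]
    {r n q p : ℕ} (hn : 1 ≤ n) (hr : r = n + q) (htr : Algebra.trdeg k K = (n : ℕ)) {x : Fin r → K}
    (hx : ∀ i, x i ≠ 0) (hgen : IntermediateField.adjoin k (Set.range x) = ⊤)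
    {f : Fin q → (Fin r → ℤ) →₀ k} (hf : ∀ l, ev x (f l) = 0)
    {h : Fin p → (Fin r → ℤ) →₀ k} (hhx : ∀ j, ev x (h j) ≠ 0)
    (hnd : ∀ (v : Fin r → ℤ) (V : Finset (Fin p)), NonDeg k (Sum.elim f fun j : V => h j) v)
    {A : (Fin r → ℤ) → ℚ} {cw : Fin p → ℚ} {D : ℕ} (hD : 1 ≤ D)
    (hA : ∀ v, v ≠ 0 → 0 < A v) (hA1 : ∀ v, A v ≤ 1) (hAD : ∀ v, ∃ z : ℤ, (D : ℚ) * A v = z)
    (hcD : ∀ j, ∃ z : ℤ, (D : ℚ) * cw j = z) (hc0 : ∀ j, 0 ≤ cw j) (hc1 : ∀ j, cw j ≤ 1)
    (hA2 : ∀ v w, v ≠ 0 → w ≠ 0 → v + w ≠ 0 → A v + A w - 1 ≤ A (v + w))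
    (hA3 : ∀ (g : ℤ) v, 0 < g → v ≠ 0 → A (g • v) ≤ g * A v)
    (hF : (FineW A (Sum.elim (fun _ => 1) cw) (Sum.elim f h)).Nonempty) {d : ℕ}
    (hd : Algebra.trdeg k (IntermediateField.adjoin k
      {z : K | ∃ w ∈ dirsW A (Sum.elim (fun _ => 1) cw) (Sum.elim f h), z = mono x w}) =
      (d : ℕ)) :
    PairKod k K n (fun P => (bdry A cw x h P : ℝ)) d ∧
      PairNum k K n (fun P => (bdry A cw x h P : ℝ)) d := by
  classical
  have hndf : ∀ v, NonDeg k f v := fun v =>
    nd_comp (f := Sum.elim f fun j : (∅ : Finset (Fin p)) => h j)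
      (Sum.inl : Fin q → Fin q ⊕ (∅ : Finset (Fin p)))
      Sum.inl_injective (by
        rintro (l | j)
        · exact ⟨l, rfl⟩
        · exact absurd j.2 (Finset.notMem_empty _)) (fun _ => rfl) (hnd v ∅)
  have hini : ∀ g : (Fin r → ℤ) →₀ k, ini 0 g = g := by
    intro g
    by_cases hg : g = 0
    · rw [hg]
      unfold ini
      rw [Finsupp.filter_zero]
    · exact ini_zero hg
  have hf0 : ∀ l, f l ≠ 0 := by
    have h1 := nd_ext (hndf 0) K x hx fun l => by rw [hini]; exact hf l
    intro l h0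
    have h2 := h1.ne_zero l
    apply h2
    rw [hini, h0]
    funext i
    unfold gr
    exact Finsupp.sum_zero_index
  have hh0 : ∀ j, h j ≠ 0 := by
    intro j h0
    apply hhx j
    rw [h0]
    unfold ev
    exact Finsupp.sum_zero_index
  have hndK : ∀ v, NonDeg K f v := fun v => nd_ext (hndf v) K
  have hndP : ∀ P : Place k K, NonDeg P.RF f (vec P x) := fun P => nd_ext (hndf _) P.RF
  obtain ⟨u0, c, a, nl, S, B, hc, hB, ha, hnl, hF', hS, hpos, hgr, hdirs⟩ :=
    exists_tightW (g := Sum.elim f h) (wt := Sum.elim (fun _ => 1) cw) (by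
      rintro (l | j)
      · exact hf0 l
      · exact hh0 j) hD hA hA1 hAD (by
      rintro (l | j)
      · exact ⟨D, by simp⟩
      · exact hcD j) hF
  have hcq : (0 : ℚ) < c := by exact_mod_cast hc
  have hnl1 : ∀ l, nl (Sum.inl l) = c := by
    intro l
    have h1 := hnl (Sum.inl l)
    rw [Sum.elim_inl, mul_one] at h1
    exact_mod_cast h1
  obtain ⟨nn, hnnd⟩ : ∃ nn : Fin p → ℤ, nn = fun j => nl (Sum.inr j) := ⟨_, rfl⟩
  have hnnq : ∀ j, (nn j : ℚ) = c * cw j := by
    intro j
    rw [hnnd]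
    exact hnl (Sum.inr j)
  have hPh : ∀ v, a v + ∑ l, nl l * mn v (Sum.elim f h l) = Ph c a nn f h v := by
    intro v
    unfold Ph
    rw [Fintype.sum_sum_type, Finset.mul_sum, ← add_assoc, hnnd]
    congr 2
    refine Finset.sum_congr rfl fun l _ => ?_
    rw [hnl1]
    rfl
  simp only [hPh] at hF' hS hgr
  have hnn : ∀ j, 0 ≤ nn j := by
    intro j
    have h1 : (0 : ℚ) ≤ nn j := by
      rw [hnnq]
      exact mul_nonneg hcq.le (hc0 j)
    exact_mod_cast h1
  have hnc : ∀ j, nn j ≤ c := by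
    intro j
    have h1 : (nn j : ℚ) ≤ c := by
      rw [hnnq]
      have := hc1 j
      nlinarith
    exact_mod_cast h1
  have ha0 : ∀ v, v ≠ 0 → 0 ≤ a v := by
    intro v hv
    have h1 : (0 : ℚ) ≤ a v := by
      rw [ha]
      exact mul_nonneg hcq.le (hA v hv).le
    exact_mod_cast h1
  have hac : ∀ v, v ≠ 0 → a v ≤ c := by
    intro v _
    have h1 : (a v : ℚ) ≤ c := by
      rw [ha]
      have := hA1 v
      nlinarith
    exact_mod_cast h1
  have ha2 : ∀ v w, v ≠ 0 → w ≠ 0 → v + w ≠ 0 → a v + a w - c ≤ a (v + w) := by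
    intro v w hv hw hvw
    have h1 : (a v : ℚ) + a w - c ≤ a (v + w) := by
      rw [ha, ha, ha]
      have h2 := mul_le_mul_of_nonneg_left (hA2 v w hv hw hvw) hcq.le
      linarith
    exact_mod_cast h1
  have ha3 : ∀ (g : ℤ) v, 0 < g → v ≠ 0 → a (g • v) ≤ g * a v := by
    intro g v hg hv
    have h1 : (a (g • v) : ℚ) ≤ g * a v := by
      rw [ha, ha]
      have h2 := mul_le_mul_of_nonneg_left (hA3 g v hg hv) hcq.le
      linarith
    exact_mod_cast h1
  have hvanK : ∀ (P : Place k K) j, vec P x = 0 → (Van P x (h j) ↔ 0 < P.ord (ev x (h j))) := by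
    intro P j hv
    unfold Van
    rw [hv, mn_zero (hh0 j), zero_add]
    constructor
    · intro h1
      have := h1.resolve_left (hhx j)
      omega
    · intro h1
      exact Or.inr (by omega)
  have hcr : (0 : ℝ) < c := by exact_mod_cast hc
  obtain ⟨t, htG, htind, htalg⟩ := exists_mono_basis hd
  choose w hw hwt using htG
  have hwS : ∀ j, ∀ s ∈ S, w j ⬝ᵥ s = 0 := fun j => (hdirs (w j)).1 (hw j)
  have htw : t = fun j => mono x (w j) := funext hwt
  obtain ⟨Z, hZ⟩ := Pool.Agent.W636.PG.exists_basis k K n htr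
  have e : Fin q ⊕ Fin n ≃ Fin r := Fintype.equivOfCardEq (by
    rw [Fintype.card_sum, Fintype.card_fin, Fintype.card_fin, Fintype.card_fin, hr, add_comm])
  refine ⟨pairKod_geW hx hgen e hf0 hf (hndK 0) hndP hZ hh0 hhx
    (fun P V => nd_ext (hnd _ V) P.RF) hc hnc hF' hB hgr hwS (by rw [← htw]; exact htind)
    ?_ ?_ ?_, ?_⟩
  · intro P _ _ _
    exact_mod_cast bdry_nonneg hA1
  · intro P _ hv hex
    have hex' : ∃ j, 0 < P.ord (ev x (h j)) := by
      obtain ⟨j, hj⟩ := hex
      exact ⟨j, (hvanK P j hv).1 hj⟩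
    have hfil : Finset.univ.filter (fun j => Van P x (h j)) =
        Finset.univ.filter (fun j => 0 < P.ord (ev x (h j))) :=
      Finset.filter_congr fun j _ => hvanK P j hv
    have h1 : ((c - ∑ j ∈ Finset.univ.filter (fun j => Van P x (h j)), (c - nn j) : ℤ) : ℚ) ≤
        c * bdry A cw x h P := by
      rw [bdry_van hv hex', hfil]
      have h2 : ((c - ∑ j ∈ Finset.univ.filter (fun j => 0 < P.ord (ev x (h j))),
          (c - nn j) : ℤ) : ℚ) = c * (1 - ∑ j ∈ Finset.univ.filter
            (fun j => 0 < P.ord (ev x (h j))), (1 - cw j)) := by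
        push_cast
        rw [mul_sub, mul_one, Finset.mul_sum]
        congr 1
        refine Finset.sum_congr rfl fun j _ => ?_
        rw [hnnq]
        ring
      rw [h2]
      exact mul_le_mul_of_nonneg_left (le_max_right _ _) hcq.le
    exact_mod_cast h1
  · intro P _ hv
    have h1 : ((c - a (vec P x) : ℤ) : ℚ) ≤ c * bdry A cw x h P := by
      rw [bdry_ne hv]
      push_cast
      rw [ha]
      linarith
    exact_mod_cast h1
  have hess : Algebra.EssFiniteType k K := by
    rw [← IntermediateField.fg_top_iff, ← hgen]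
    exact ⟨Finset.univ.image x, by rw [Finset.coe_image, Finset.coe_univ, Set.image_univ]⟩
  have hG : ∀ P : Place k K, 0 < ((bdry A cw x h P : ℚ) : ℝ) →
      ∃ g ∈ Finset.univ.image x ∪ Finset.univ.image (fun j => ev x (h j)), P.ord g ≠ 0 := by
    intro P hP
    by_cases hv : vec P x = 0
    · by_cases hj : ∃ j, 0 < P.ord (ev x (h j))
      · obtain ⟨j, hj⟩ := hj
        exact ⟨_, Finset.mem_union_right _ (Finset.mem_image_of_mem _ (Finset.mem_univ j)), hj.ne'⟩
      · push Not at hj
        rw [bdry_no hv fun j => not_lt.2 (hj j)] at hP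
        norm_num at hP
    · obtain ⟨i, hi⟩ : ∃ i, vec P x i ≠ 0 := by
        by_contra hcon
        push Not at hcon
        exact hv (funext hcon)
      exact ⟨x i, Finset.mem_union_left _ (Finset.mem_image_of_mem _ (Finset.mem_univ i)), hi⟩
  have hδ1 : ∀ P : Place k K, ((bdry A cw x h P : ℚ) : ℝ) ≤ 1 := by
    intro P
    exact_mod_cast bdry_le hA hc1
  have hdn : d ≤ n := by
    have h1 := htind.cardinalMk_le_trdeg
    rw [htr, Cardinal.mk_fin] at h1
    exact_mod_cast h1
  rcases hdn.lt_or_eq with hlt | rfl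
  · -- the generic fibre
    obtain ⟨m, rfl⟩ : ∃ m, n = d + (m + 1) := ⟨n - d - 1, by omega⟩
    refine pair_gen (h := 0) hess htind htr hG hδ1 ?_
    intro Λ F _ _ _ _ _ _ _ φ hφgen hΛF t' ht' htt' hcon δ' hδ'
    have hinj : Function.Injective φ := (φ : K →+* F).injective
    have e' : (Fin q ⊕ Fin d) ⊕ Fin (m + 1) ≃ Fin r := Fintype.equivOfCardEq (by
      simp only [Fintype.card_sum, Fintype.card_fin]
      omega)
    have hmono : ∀ w' : Fin r → ℤ, φ (mono x w') = mono (fun i => φ (x i)) w' := fun w' =>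
      map_mono (φ : K →+* F) x w'
    have hevφ : ∀ j, ev (fun i => φ (x i)) (h j) = φ (ev x (h j)) := fun j => (map_ev φ x _).symm
    -- places under the places of the fibre
    have hvecφ : ∀ (P : Place Λ F) (v : Place k K) (e : ℕ), (∀ z, P.ord (φ z) = e * v.ord z) →
        vec P (fun i => φ (x i)) = (e : ℤ) • vec v x := by
      intro P v e hv
      funext i
      exact hv (x i)
    have hgeφ : ∀ (P : Place Λ F) (v : Place k K) (e : ℕ), 0 < e →
        (∀ z, P.ord (φ z) = e * v.ord z) → ∀ j,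
        (Ge P 1 (ev (fun i => φ (x i)) (h j)) ↔ 0 < v.ord (ev x (h j))) := by
      intro P v e he hv j
      have he' : (0 : ℤ) < e := by exact_mod_cast he
      rw [hevφ]
      constructor
      · intro h1
        have h2 := h1.resolve_left fun h0 => hhx j (hinj (by rw [h0, map_zero]))
        rw [hv] at h2
        by_contra hcon
        push Not at hcon
        have := mul_nonpos_of_nonneg_of_nonpos he'.le hcon
        omega
      · intro h1
        right
        rw [hv]
        have := mul_pos he' h1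
        omega
    refine pair_fibre_zero (k := k) (f := f) (h := h) (S := S) (u0 := u0) (c := c) (a' := a)
      (nn := nn) (w := w) (t := t')
      (x := fun i => φ (x i)) e' hΛF ?_ ?_ hf0 ?_ hh0 ?_ hnd hc hnn hnc ha0 hac ha2 ha3 hF' hS hpos
      ?_ hwS ht' ?_ ?_ ?_ ?_ ?_
    · intro i h0
      exact hx i (hinj (by rw [h0, map_zero]))
    · rw [eq_top_iff, ← hφgen, IntermediateField.adjoin_le_iff]
      rintro _ ⟨z, rfl⟩
      have hz : z ∈ IntermediateField.adjoin k (Set.range x) := by
        rw [hgen]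
        trivial
      have h1 : IntermediateField.adjoin k (Set.range x) ≤
          ((IntermediateField.adjoin Λ (Set.range fun i => φ (x i))).restrictScalars k).comap
            φ := by
        rw [IntermediateField.adjoin_le_iff]
        rintro _ ⟨i, rfl⟩
        exact IntermediateField.subset_adjoin Λ _ ⟨i, rfl⟩
      exact h1 hz
    · intro l
      rw [← map_ev, hf, map_zero]
    · intro j h0
      rw [hevφ] at h0
      exact hhx j (hinj (by rw [h0, map_zero]))
    · intro j h0
      have h1 : t j = algebraMap k K 1 := by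
        rw [hwt, h0, mono_zero, map_one]
      have h2 := htind.transcendental j
      rw [h1] at h2
      exact h2 (isAlgebraic_algebraMap 1)
    · intro j
      rw [htt', hwt, hmono]
    · intro w' hw'
      have h1 := htalg (mono x w') ⟨w', (hdirs w').2 hw', rfl⟩
      obtain ⟨a, ha⟩ := hcon _ h1
      exact ⟨a, by rw [ha, hmono]⟩
    · intro P hP hj
      rcases hδ' P with ⟨v, e, he, hv, hδ⟩ | h0
      · have he' : ((e : ℕ) : ℤ) ≠ 0 := by omega
        have hvv : vec v x = 0 := by
          rw [hvecφ P v e hv] at hP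
          exact (smul_eq_zero.1 hP).resolve_left he'
        rw [hδ, bdry_no hvv fun j h1 => hj j ((hgeφ P v e he hv j).2 h1)]
        have h1 : (1 : ℝ) ≤ e := by exact_mod_cast he
        refine max_le le_rfl ?_
        push_cast
        linarith
      · exact h0.le
    · intro P j hP hj hu
      have hnnr : (nn j : ℝ) = c * (cw j : ℝ) := by exact_mod_cast hnnq j
      have hcwr : (0 : ℝ) ≤ (cw j : ℝ) := by exact_mod_cast hc0 j
      have hcwr1 : ((cw j : ℚ) : ℝ) ≤ 1 := by exact_mod_cast hc1 j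
      rcases hδ' P with ⟨v, e, he, hv, hδ⟩ | h0
      · have he' : ((e : ℕ) : ℤ) ≠ 0 := by omega
        have hvv : vec v x = 0 := by
          rw [hvecφ P v e hv] at hP
          exact (smul_eq_zero.1 hP).resolve_left he'
        rw [hδ, bdry_one hvv ((hgeφ P v e he hv j).1 hj)
          (fun j' h1 => hu j' ((hgeφ P v e he hv j').2 h1)) (hc0 j), hnnr]
        refine mul_le_mul_of_nonneg_left (max_le hcwr ?_) hcr.le
        have h1 : (1 : ℝ) ≤ e := by exact_mod_cast he
        nlinarith
      · rw [h0, mul_zero]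
        exact_mod_cast hnn j
    · intro P hP
      have hac' := hac _ hP
      have h0' : (0 : ℝ) ≤ ((c - a (vec P fun i => φ (x i)) : ℤ) : ℝ) := by
        have : 0 ≤ c - a (vec P fun i => φ (x i)) := by omega
        exact_mod_cast this
      rcases hδ' P with ⟨v, e, he, hv, hδ⟩ | h0
      · have he' : (0 : ℤ) < (e : ℕ) := by omega
        have hPv := hvecφ P v e hv
        have hvv : vec v x ≠ 0 := by
          intro h1
          rw [h1, smul_zero] at hPv
          exact hP hPv
        rw [hδ, bdry_ne hvv]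
        have h1 := ha3 e (vec v x) he' hvv
        rw [← hPv] at h1
        have h2 : (a (vec v x) : ℝ) = c * ((A (vec v x) : ℚ) : ℝ) := by exact_mod_cast ha (vec v x)
        have h3 : (a (vec P fun i => φ (x i)) : ℝ) ≤ e * a (vec v x) := by exact_mod_cast h1
        rw [mul_max_of_nonneg _ _ hcr.le, mul_zero]
        refine max_le h0' ?_
        push_cast
        rw [h2] at h3
        linarith
      · rw [h0, mul_zero]
        exact h0'
  · -- the top dimension
    exact pair_top hess htr hG hδ1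

end Pool.Agent.R885
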