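import Pool.Agent.R885.G12
import Pool.Agent.R885.Cv
import Pool.Agent.Y191.Disc

/-!
The Kodaira dimension and the numerical dimension of pairs with a given function field and given
bounds for the log discrepancies.
-/

set_option autoImplicit false
set_option linter.overlappingInstances false
set_option linter.unusedSectionVars false

open FF Pool.Agent.W602.GT Pool.Agent.W619.PQ Pool.Agent.W619.TW Pool.Agent.W619.Y
  Pool.Agent.Y172 Pool.Agent.Y191 Pool.Agent.Y174

namespace Pool.Agent.R885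

/-- From the sections over all models to the sections on a pair. -/
theorem dims_pair {K : Type} [Field K] [Algebra ℂ K] {n N d : ℕ}
    (htr : Algebra.trdeg ℂ K = (n : ℕ)) {y : Fin (N + 1) → K} (hy : NormalModel y)
    {Δ : Place ℂ K → ℚ} (hΔ : Effective y Δ) {β : Place ℂ K → ℚ}
    (hβ : ∀ P, IsPrimeDivisor y P → β P ≤ Δ P)
    (hdisc : ∀ Q, Divisorial n Q → LogDisc y n Δ Q (1 - β Q))
    (h1 : PairKod ℂ K n (fun P => (β P : ℝ)) d) (h2 : PairNum ℂ K n (fun P => (β P : ℝ)) d) :
    kodairaDim y n Δ = (d : WithBot ℕ) ∧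
      ∀ A, Effective y A → Integral y A → numericalDim y n Δ A = (d : EReal) := by
  classical
  obtain ⟨x, E, hx, hE⟩ := exists_crd htr
  have hfr : IsFrame E := fun G =>
    ⟨fun j => G (x j), (Pool.Agent.W73.PG.PULL.expand x hx E hE G).symm⟩
  obtain ⟨m0, hm0, ω, hω, D, hD, hind⟩ := h1
  refine dims hΔ hfr ?_ (m0 := m0) hm0 (ω := ω) ?_ (hD 0) hind
  · intro A hA
    choose s hs hs0 hsQ using fun j => disc_bound (n := n) (Δ := Δ) hy hA hfr j
    obtain ⟨C, hC⟩ := h2 (Finset.univ.image fun j => (s j)⁻¹)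
    refine ⟨C, fun m hm r f hf hω' => hC m r hm ?_⟩
    choose ω' hω' hωf using hω'
    refine ⟨ω', ?_, fun l => ⟨(hω' l).1, ?_⟩⟩
    · have h3 : (LinearMap.proj E : ((Fin n → Derivation ℂ K K) → K) →ₗ[ℂ] K) ∘ ω' = f := by
        funext i
        exact hωf i
      rw [← h3] at hf
      exact hf.of_comp _
    · intro Q hQ E' hE'
      obtain ⟨j, hj⟩ := exists_centred hy Q
      rcases hsQ j Q hj (1 - β Q) (hdisc Q hQ) m hm (ω' l) (hω' l) E' hE' with h5 | h5
      · exact Or.inl h5
      · right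
        refine ⟨(s j)⁻¹, Finset.mem_image_of_mem _ (Finset.mem_univ j), inv_ne_zero (hs0 j), ?_⟩
        rw [Q.ord_inv, Nat.cast_one, one_mul]
        have h6 : ((m * (1 - β Q - 1) - (Q.ord (s j) : ℤ) : ℚ) : ℝ) ≤
            ((Q.ord (ω' l E') : ℤ) : ℝ) := by exact_mod_cast h5
        push_cast at h6 ⊢
        linarith
  · intro l
    refine ⟨(hω l).1, fun P hP E' hE' => ?_⟩
    rcases (hω l).2 P (hP.divisorial hy htr) E' hE' with h3 | ⟨s, hs, hs0, h3⟩
    · exact Or.inl h3
    · right
      rw [Nat.cast_zero, zero_mul, zero_sub] at h3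
      beta_reduce at h3
      have h4 : -((m0 : ℚ) * β P) ≤ (P.ord (ω l E') : ℤ) := by exact_mod_cast h3
      have h5 := mul_le_mul_of_nonneg_left (hβ P hP) (Nat.cast_nonneg (α := ℚ) m0)
      simp only [Pi.smul_apply, nsmul_eq_mul]
      linarith

end Pool.Agent.R885
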