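import Pool.Agent.R885.G14

/-!
Pairs which are not pseudoeffective, through the generic fibre.
-/

set_option autoImplicit false
set_option linter.overlappingInstances false
set_option linter.unusedSectionVars false

open FF IntermediateField Pool.Agent.W619.PQ Pool.Agent.W619.PL Pool.Agent.W619.TW
  Pool.Agent.W603.LV Pool.Agent.W619.Y Pool.Agent.W824.PG Pool.Agent.TH122.AB
  Pool.Agent.Y173.QA Pool.Agent.Y174

namespace Pool.Agent.R885

/-- **The generic fibre without sections of high multiples.** -/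
theorem pair_fibre_neg {k Λ F : Type} [Field k] [CharZero k] [Field Λ] [IsAlgClosed k]
    [Algebra k Λ] [Field F] [Algebra Λ F] [Algebra k F] [IsScalarTower k Λ F] {r d m : ℕ}
    {J : Type} [Fintype J] [DecidableEq J] (e : (J ⊕ Fin d) ⊕ Fin (m + 1) ≃ Fin r)
    (htr : Algebra.trdeg Λ F = (m + 1 : ℕ)) {x : Fin r → F} (hx : ∀ i, x i ≠ 0)
    (hgen : IntermediateField.adjoin Λ (Set.range x) = ⊤) {f : J → (Fin r → ℤ) →₀ k}
    (hf0 : ∀ l, f l ≠ 0) (hf : ∀ l, ev x (f l) = 0)
    {J' : Type} [Fintype J'] {h : J' → (Fin r → ℤ) →₀ k} (hh0 : ∀ j, h j ≠ 0)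
    (hhx : ∀ j, ev x (h j) ≠ 0)
    (hnd : ∀ v, ∀ V : Finset J', NonDeg k (Sum.elim f fun j : V => h j) v)
    {S : Finset (Fin r → ℤ)} {u0 : Fin r → ℤ} {c : ℤ} {a' : (Fin r → ℤ) → ℤ} {nn : J' → ℤ}
    (hc : 0 < c) (hnn : ∀ j, 0 ≤ nn j) (hnc : ∀ j, nn j ≤ c)
    (ha0 : ∀ v, v ≠ 0 → 0 ≤ a' v) (hac : ∀ v, v ≠ 0 → a' v ≤ c)
    (hA2 : ∀ v w, v ≠ 0 → w ≠ 0 → v + w ≠ 0 → a' v + a' w - c ≤ a' (v + w))
    (hA3 : ∀ (g : ℤ) v, 0 < g → v ≠ 0 → a' (g • v) ≤ g * a' v)
    (hF : ∀ v, v ≠ 0 → Ph c a' nn f h v ≤ u0 ⬝ᵥ v)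
    (hS : ∀ s, s ∈ S ↔ s ≠ 0 ∧ u0 ⬝ᵥ s = Ph c a' nn f h s)
    (hpos : ∀ q : Fin r → ℚ, (∀ s ∈ S, 0 ≤ dq q s) → ∀ s ∈ S, dq q s = 0)
    {w : Fin d → Fin r → ℤ} (hw : ∀ j, w j ≠ 0) (hwS : ∀ j, ∀ s ∈ S, w j ⬝ᵥ s = 0)
    {t : Fin d → Λ} (ht : AlgebraicIndependent k t) (hwt : ∀ j, algebraMap Λ F (t j) = mono x (w j))
    (hcon : ∀ w' : Fin r → ℤ, (∀ s ∈ S, w' ⬝ᵥ s = 0) → ∃ a : Λ, algebraMap Λ F a = mono x w')
    {β : Place Λ F → ℝ}
    (hβ0 : ∀ P : Place Λ F, vec P x = 0 → (∀ j, ¬ Ge P 1 (ev x (h j))) → β P ≤ 0)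
    (hβ1 : ∀ (P : Place Λ F) j, vec P x = 0 → Ge P 1 (ev x (h j)) →
      (∀ j', Ge P 1 (ev x (h j')) → j' = j) → (c : ℝ) * β P ≤ (nn j : ℝ))
    {ε : ℝ} (hε : 0 < ε) (hβ2 : ∀ P : Place Λ F, vec P x ≠ 0 →
      (c : ℝ) * β P + ε ≤ ((c - a' (vec P x) : ℤ) : ℝ)) (T : Finset F) :
    ∃ M0 : ℕ, ∀ M : ℕ, M0 ≤ M → ∀ ω : (Fin (m + 1) → Derivation Λ F F) → F,
      PairSec Λ F (m + 1) β T M 1 ω → ω = 0 := by
  classical
  have hcΛ : CharZero Λ := charZero_of_injective_algebraMap (algebraMap k Λ).injective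
  have hsp : ∀ P : Place Λ F, InSpan S (vec P x) := by
    intro P w' hw'
    obtain ⟨a, ha⟩ := hcon w' hw'
    rw [← ord_mono P hx, ← ha]
    have ha0 : a ≠ 0 := by
      rintro rfl
      rw [map_zero] at ha
      exact mono_ne hx w' ha.symm
    exact P.ord_const ha0
  have hwv : ∀ v, InSpan S v → ∀ j, w j ⬝ᵥ v = 0 := fun v hv j => hv (w j) (hwS j)
  have hsum : ∀ v, InSpan S v → ∑ l, mn v (fibSys f w t l) = ∑ l, mn v (f l) := by
    intro v hv
    rw [Fintype.sum_sum_type]
    have h1 : ∀ l, mn v (fibSys f w t (Sum.inl l)) = mn v (f l) := fun l => by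
      rw [fibSys_inl, mn_map]
    have h2 : ∀ j, mn v (fibSys f w t (Sum.inr j)) = 0 := fun j => by
      rw [fibSys_inr, bin_mn (hw j) _ (hwv v hv j)]
    rw [Finset.sum_congr rfl fun l _ => h1 l, Finset.sum_eq_zero fun j _ => h2 j, add_zero]
  obtain ⟨h', hh'd⟩ : ∃ h' : J' → (Fin r → ℤ) →₀ Λ,
    h' = fun j => (h j).mapRange (algebraMap k Λ) (map_zero _) := ⟨_, rfl⟩
  have hmn' : ∀ v j, mn v (h' j) = mn v (h j) := fun v j => by rw [hh'd]; exact mn_map _ _
  have hev' : ∀ j, ev x (h' j) = ev x (h j) := fun j => by rw [hh'd]; exact ev_map _ _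
  have hh'0 : ∀ j, h' j ≠ 0 := by
    intro j h0
    apply hh0 j
    have h1 := supp_map (Λ := Λ) (h j)
    rw [hh'd] at h0
    have h2 : (h j).mapRange (algebraMap k Λ) (map_zero _) = 0 := h0
    rw [h2, Finsupp.support_zero] at h1
    exact Finsupp.support_eq_empty.1 h1.symm
  have hPh : ∀ v, InSpan S v → Ph c a' nn (fibSys f w t) h' v = Ph c a' nn f h v := by
    intro v hv
    unfold Ph
    rw [hsum v hv]
    simp only [hmn']
  have hvan : ∀ (P : Place Λ F) j, vec P x = 0 → (Van P x (h' j) ↔ Ge P 1 (ev x (h j))) := by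
    intro P j hv
    unfold Van
    rw [hv, mn_zero (hh'0 j), zero_add, hev']
  have hndk : ∀ v, NonDeg k f v := fun v =>
    nd_comp (f := Sum.elim f fun j : (∅ : Finset J') => h j) (Sum.inl : J → J ⊕ (∅ : Finset J'))
      Sum.inl_injective (by
        rintro (l | j)
        · exact ⟨l, rfl⟩
        · exact absurd j.2 (Finset.notMem_empty _)) (fun _ => rfl) (hnd v ∅)
  refine pairNeg_zeroW (f := fibSys f w t) (h := h') (S := S) (u0 := u0) (c := c) (a' := a')
    (nn := nn) htr hx hgen e ?_ ?_ ?_ ?_ hh'0 ?_ ?_ hc hnn hnc ha0 hac hA2 hA3 ?_ ?_ hpos hsp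
    ?_ ?_ hε ?_ T
  · rintro (l | j)
    · rw [fibSys_inl]
      intro h0
      apply hf0 l
      have h1 := supp_map (Λ := Λ) (f l)
      rw [h0, Finsupp.support_zero] at h1
      exact Finsupp.support_eq_empty.1 h1.symm
    · rw [fibSys_inr]
      exact bin_ne (hw j) _
  · rintro (l | j)
    · rw [fibSys_inl, ev_map]
      exact hf l
    · rw [fibSys_inr, bin_ev, hwt, sub_self]
  · exact nd_fibre (nd_ext (hndk 0) F) hw ht fun j => dotProduct_zero _
  · intro P
    let iA : Algebra k P.RF := ((algebraMap Λ P.RF).comp (algebraMap k Λ)).toAlgebra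
    have hT : IsScalarTower k Λ P.RF := IsScalarTower.of_algebraMap_eq fun _ => rfl
    exact nd_fibre (nd_ext (hndk _) P.RF) hw ht (hwv _ (hsp P))
  · intro j
    rw [hev']
    exact hhx j
  · intro P V
    let iA : Algebra k P.RF := ((algebraMap Λ P.RF).comp (algebraMap k Λ)).toAlgebra
    have hT : IsScalarTower k Λ P.RF := IsScalarTower.of_algebraMap_eq fun _ => rfl
    refine nd_comp (f := fibSys (Sum.elim f fun j : V => h j) w t)
      (Sum.elim (Sum.elim (fun l => Sum.inl (Sum.inl l)) Sum.inr) fun j => Sum.inl (Sum.inr j))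
      ?_ ?_ ?_ (nd_fibre (nd_ext (hnd _ V) P.RF) hw ht (hwv _ (hsp P)))
    · rintro ((l | j) | j) ((l' | j') | j') hll
      all_goals first
        | (simp only [Sum.elim_inl, Sum.elim_inr, Sum.inl.injEq, Sum.inr.injEq] at hll
           rw [hll])
        | (simp only [Sum.elim_inl, Sum.elim_inr, reduceCtorEq, Sum.inl.injEq] at hll)
    · rintro ((l | j) | j)
      · exact ⟨Sum.inl (Sum.inl l), rfl⟩
      · exact ⟨Sum.inr j, rfl⟩
      · exact ⟨Sum.inl (Sum.inr j), rfl⟩
    · rintro ((l | j) | j)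
      · rfl
      · rfl
      · rw [hh'd]
        rfl
  · intro v hv hvS
    rw [hPh v hvS]
    exact hF v hv
  · intro s
    rw [hS]
    constructor
    · rintro ⟨h1, h2⟩
      have h3 : InSpan S s := fun w' hw' => hw' s ((hS s).2 ⟨h1, h2⟩)
      exact ⟨h1, h3, by rw [hPh s h3]; exact h2⟩
    · rintro ⟨h1, h2, h3⟩
      rw [hPh s h2] at h3
      exact ⟨h1, h3⟩
  · intro P hv hj
    exact hβ0 P hv fun j h1 => hj j ((hvan P j hv).2 h1)
  · intro P j hv hj hu
    exact hβ1 P j hv ((hvan P j hv).1 hj) fun j' h1 => hu j' ((hvan P j' hv).2 h1)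
  · intro P hP
    exact hβ2 P ((hS _).1 hP).1


section

variable {k L K Λ F : Type} [Field k] [CharZero k] [Field L] [Field K] [Field Λ]
  [Field F] [Algebra k L] [Algebra k K] [Algebra L K] [IsScalarTower k L K] [Algebra L Λ]
  [Algebra Λ F] [Algebra K F] [Algebra L F] [IsScalarTower L Λ F] [IsScalarTower L K F]
  [Algebra k Λ] [Algebra k F] [IsScalarTower k Λ F] [IsScalarTower k K F]
  [IsScalarTower k L Λ]

/-- **Restriction to the generic fibre of a nonzero section.** -/
theorem pairNeg_add (hess : Algebra.EssFiniteType k K)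
    [Algebra.IsAlgebraic L Λ]
    (hgenF : IntermediateField.adjoin Λ (Set.range (algebraMap K F)) = ⊤)
    {d r : ℕ} (hL : Algebra.trdeg k L = d) (hn : Algebra.trdeg k K = (d + (r + 1) : ℕ))
    {δ : Place k K → ℝ} {δ' : Place Λ F → ℝ} (hδ : IsPullFib δ δ')
    (H : ∀ T : Finset F, ∃ M0 : ℕ, ∀ M : ℕ, M0 ≤ M →
      ∀ ω : (Fin (r + 1) → Derivation Λ F F) → F, PairSec Λ F (r + 1) δ' T M 1 ω → ω = 0)
    (T : Finset K) :
    ∃ M0 : ℕ, ∀ M : ℕ, M0 ≤ M → ∀ ω : (Fin (d + (r + 1)) → Derivation k K K) → K,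
      PairSec k K (d + (r + 1)) δ T M 1 ω → ω = 0 := by
  classical
  have hL0 : CharZero L := charZero_of_injective_algebraMap (algebraMap k L).injective
  have hΛ0 : CharZero Λ := charZero_of_injective_algebraMap (algebraMap k Λ).injective
  have hLK := trdeg_LK (L := L) hL hn
  have halg : Algebra.IsAlgebraic K F := alg_KF (L := L) hgenF
  obtain ⟨t, ht⟩ := Pool.Agent.W636.PG.exists_basis k L d hL
  obtain ⟨x, hx⟩ := Pool.Agent.W636.PG.exists_basis L K (r + 1) hLK
  have hZ := basis_append ht hx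
  obtain ⟨E, hE⟩ := Pool.Agent.W636.PG.exists_duals k K (d + (r + 1)) _ hZ
  have hx' := basis_F hLK hgenF hx
  obtain ⟨E', hE'⟩ := Pool.Agent.W636.PG.exists_duals Λ F (r + 1) _ hx'
  have hdet : (Matrix.of fun a b => E' a (algebraMap K F (x b))).det = 1 := by
    have h1 : (Matrix.of fun a b => E' a (algebraMap K F (x b))) = 1 := by
      ext a b
      rw [Matrix.of_apply, Matrix.one_apply]
      exact hE' a b
    rw [h1, Matrix.det_one]
  obtain ⟨M0, hM0⟩ := H (T.image (algebraMap K F))
  refine ⟨M0, fun M hM ω hω => ?_⟩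
  have h1 := hM0 M hM _ (res_sec hess hn ht hx hE hδ hω)
  have h2 := congrFun h1 E'
  simp only [hdet, one_pow, one_mul, Pi.zero_apply] at h2
  have h3 : ω E = 0 := (map_eq_zero (algebraMap K F)).1 h2
  funext D
  have h4 : D = fun i => ∑ b, (Matrix.of fun i j => D i (Fin.append (algebraMap L K ∘ t) x j)) i b
      • E b := by
    funext i
    exact der_expand hZ hE (D i)
  have h5 := hω.1 (Matrix.of fun i j => D i (Fin.append (algebraMap L K ∘ t) x j)) E
  rw [← h4, h3, mul_zero] at h5
  exact h5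

end

/-- **Pairs without sections of high multiples, through the generic fibre.** -/
theorem pairNeg_gen {k K : Type} [Field k] [CharZero k] [Field K] [Algebra k K]
    (hess : Algebra.EssFiniteType k K) {d m : ℕ} {t : Fin d → K} (ht : AlgebraicIndependent k t)
    (htr : Algebra.trdeg k K = (d + (m + 1) : ℕ)) {δ : Place k K → ℝ}
    (H : ∀ (Λ F : Type) [Field Λ] [IsAlgClosed Λ] [Algebra k Λ] [Field F] [Algebra Λ F]
      [Algebra k F] [IsScalarTower k Λ F] (φ : K →ₐ[k] F),
      IntermediateField.adjoin Λ (Set.range φ) = ⊤ → Algebra.trdeg Λ F = (m + 1 : ℕ) →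
      ∀ t' : Fin d → Λ, AlgebraicIndependent k t' → (∀ j, algebraMap Λ F (t' j) = φ (t j)) →
      (∀ z : K, IsAlgebraic (IntermediateField.adjoin k (Set.range t)) z →
        ∃ a : Λ, algebraMap Λ F a = φ z) →
      ∀ δ' : Place Λ F → ℝ, (∀ w, (∃ (v : Place k K) (e : ℕ), 0 < e ∧
        (∀ z, w.ord (φ z) = e * v.ord z) ∧ δ' w = max 0 (1 - e * (1 - δ v))) ∨ δ' w = 0) →
      ∀ T : Finset F, ∃ M0 : ℕ, ∀ M : ℕ, M0 ≤ M →
        ∀ ω : (Fin (m + 1) → Derivation Λ F F) → F, PairSec Λ F (m + 1) δ' T M 1 ω → ω = 0)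
    (T : Finset K) :
    ∃ M0 : ℕ, ∀ M : ℕ, M0 ≤ M → ∀ ω : (Fin (d + (m + 1)) → Derivation k K K) → K,
      PairSec k K (d + (m + 1)) δ T M 1 ω → ω = 0 := by
  classical
  let E : IntermediateField k K := IntermediateField.adjoin k (Set.range t)
  have hessE : Algebra.EssFiniteType k E := by
    rw [IntermediateField.essFiniteType_iff]
    exact ⟨Finset.univ.image t, by rw [Finset.coe_image, Finset.coe_univ, Set.image_univ]⟩
  have hessEK : Algebra.EssFiniteType E K := Algebra.EssFiniteType.of_comp k E K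
  let L0 : IntermediateField E K := algebraicClosure E K
  have hfinL0 : FiniteDimensional E L0 := fin_algClosure E K
  have hessL0 : Algebra.EssFiniteType k L0 := by
    have h1 : Algebra.EssFiniteType E L0 := inferInstance
    exact Algebra.EssFiniteType.comp k E L0
  let L : IntermediateField k K := L0.restrictScalars k
  have hmem : ∀ z : K, z ∈ L ↔ IsAlgebraic E z := fun z => mem_algebraicClosure_iff
  have hessL : Algebra.EssFiniteType k L := hessL0
  have htL : ∀ j, t j ∈ L := by
    intro j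
    rw [hmem]
    exact isAlgebraic_algebraMap (R := E) (A := K)
      ⟨t j, IntermediateField.subset_adjoin _ _ ⟨j, rfl⟩⟩
  have hELe : E ≤ L := by
    intro z hz
    rw [hmem]
    exact isAlgebraic_algebraMap (R := E) (A := K) ⟨z, hz⟩
  let tL : Fin d → L := fun j => ⟨t j, htL j⟩
  have htLind : AlgebraicIndependent k tL := AlgebraicIndependent.of_comp L.val ht
  -- the transcendence degree of `L`
  have hLbas : IsTranscendenceBasis k tL := by
    have halg : Algebra.IsAlgebraic (IntermediateField.adjoin k (Set.range tL)) L := by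
      constructor
      intro z
      have hz : IsAlgebraic E (z : K) := (hmem z).1 z.2
      obtain ⟨p, hp0, hp⟩ := hz
      -- the field `E` inside `L`
      have hE' : ∀ c : E, ∃ c' : IntermediateField.adjoin k (Set.range tL),
          (((c' : L) : K)) = (c : K) := by
        intro c
        have h1 : E = (IntermediateField.adjoin k (Set.range tL)).map L.val := by
          change IntermediateField.adjoin k (Set.range t) = _
          rw [IntermediateField.adjoin_map]
          congr 1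
          ext z
          simp only [Set.mem_range, Set.mem_image]
          constructor
          · rintro ⟨j, rfl⟩
            exact ⟨tL j, ⟨j, rfl⟩, rfl⟩
          · rintro ⟨_, ⟨j, rfl⟩, rfl⟩
            exact ⟨j, rfl⟩
        have h2 : (c : K) ∈ (IntermediateField.adjoin k (Set.range tL)).map L.val := by
          rw [← h1]
          exact c.2
        obtain ⟨c', hc', hc''⟩ := h2
        exact ⟨⟨c', hc'⟩, hc''⟩
      choose g hg using hE'
      have hginj : ∀ c, g c = 0 → c = 0 := by
        intro c hc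
        apply Subtype.ext
        rw [← hg c, hc]
        rfl
      let gh : E →+* IntermediateField.adjoin k (Set.range tL) :=
        { toFun := g
          map_one' := by
            apply Subtype.ext
            apply Subtype.ext
            rw [hg]
            rfl
          map_mul' := fun a b => by
            apply Subtype.ext
            apply Subtype.ext
            rw [hg]
            change (a : K) * b = ((g a : L) : K) * ((g b : L) : K)
            rw [hg, hg]
          map_zero' := by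
            apply Subtype.ext
            apply Subtype.ext
            rw [hg]
            rfl
          map_add' := fun a b => by
            apply Subtype.ext
            apply Subtype.ext
            rw [hg]
            change (a : K) + b = ((g a : L) : K) + ((g b : L) : K)
            rw [hg, hg] }
      refine ⟨p.map gh, ?_, ?_⟩
      · rw [Ne, Polynomial.map_eq_zero]
        exact hp0
      · apply Subtype.ext
        rw [Polynomial.aeval_def, Polynomial.eval₂_map]
        have h2 := Polynomial.hom_eval₂ p ((algebraMap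
          (IntermediateField.adjoin k (Set.range tL)) L).comp gh) (L.val : L →+* K) z
        change L.val _ = _
        rw [ZeroMemClass.coe_zero]
        refine h2.trans ?_
        rw [← hp, Polynomial.aeval_def]
        congr 1
        ext c
        exact hg c
    exact basis_of_ind htLind halg
  have hLtr : Algebra.trdeg k L = d := Pool.Agent.W602.GT.trdeg_of_basis hLbas
  have hcl : ∀ z : K, IsIntegral L z → ∃ y : L, algebraMap L K y = z := by
    intro z hz
    have h1 : IsAlgebraic L0 z := (show IsIntegral L0 z from hz).isAlgebraic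
    have h2 : IsAlgebraic E z := by
      have : Algebra.IsAlgebraic E L0 := inferInstance
      exact h1.restrictScalars E
    exact ⟨⟨z, (hmem z).2 h2⟩, rfl⟩
  -- the fibre
  let Ω := AlgebraicClosure K
  let Λ : IntermediateField L Ω := algebraicClosure L Ω
  have hΛ : IsAlgClosed Λ := (algebraicClosure.isAlgClosure L Ω).isAlgClosed
  have hΛalg : Algebra.IsAlgebraic L Λ := inferInstance
  let F : IntermediateField Λ Ω := IntermediateField.adjoin Λ (Set.range (algebraMap K Ω))
  have hTL : IsScalarTower k L Ω := IsScalarTower.of_algebraMap_eq fun z => by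
    rw [IsScalarTower.algebraMap_apply k K Ω]
    rfl
  have hTΛ : IsScalarTower k Λ Ω := IsScalarTower.of_algebraMap_eq fun z => by
    rw [IsScalarTower.algebraMap_apply k L Ω]
    rfl
  let φ0 : K →+* F :=
    { toFun := fun z => ⟨algebraMap K Ω z, IntermediateField.subset_adjoin _ _ ⟨z, rfl⟩⟩
      map_one' := Subtype.ext (map_one _)
      map_mul' := fun a b => Subtype.ext (map_mul _ _ _)
      map_zero' := Subtype.ext (map_zero _)
      map_add' := fun a b => Subtype.ext (map_add _ _ _) }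
  let iKF : Algebra K F := φ0.toAlgebra
  have hKF : ∀ z : K, ((algebraMap K F z : F) : Ω) = algebraMap K Ω z := fun z => rfl
  have hT1 : IsScalarTower L K F := IsScalarTower.of_algebraMap_eq fun z => Subtype.ext rfl
  have hT2 : IsScalarTower k K F := IsScalarTower.of_algebraMap_eq fun z => by
    apply Subtype.ext
    rw [hKF, ← IsScalarTower.algebraMap_apply k K Ω]
    rfl
  have hT3 : IsScalarTower k L Λ := inferInstance
  have hT4 : IsScalarTower L Λ F := IsScalarTower.of_algebraMap_eq fun z => Subtype.ext rfl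
  have hT5 : IsScalarTower k Λ F := inferInstance
  have hgenF : IntermediateField.adjoin Λ (Set.range (algebraMap K F)) = ⊤ := by
    have h1 : (IntermediateField.adjoin Λ (Set.range (algebraMap K F))).map F.val =
        (⊤ : IntermediateField Λ F).map F.val := by
      rw [IntermediateField.adjoin_map, ← AlgHom.fieldRange_eq_map,
        IntermediateField.fieldRange_val]
      congr 1
      ext z
      simp only [Set.mem_image, Set.mem_range]
      constructor
      · rintro ⟨_, ⟨y, rfl⟩, rfl⟩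
        exact ⟨y, rfl⟩
      · rintro ⟨y, rfl⟩
        exact ⟨_, ⟨y, rfl⟩, rfl⟩
    exact IntermediateField.map_injective _ h1
  have htrF : Algebra.trdeg Λ F = (m + 1 : ℕ) :=
    trdeg_F (L := L) (K := K) (trdeg_LK (L := L) hLtr htr) hgenF
  let δ' : Place Λ F → ℝ := fun w => if hw : ∃ ve : Place k K × ℕ, LiesFib w ve.1 ve.2 then
    max 0 (1 - hw.choose.2 * (1 - δ hw.choose.1)) else 0
  have hpull : IsPullFib δ δ' := by
    intro v w e hve
    have hw : ∃ ve : Place k K × ℕ, LiesFib w ve.1 ve.2 := ⟨(v, e), hve⟩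
    have h1 : δ' w = max 0 (1 - hw.choose.2 * (1 - δ hw.choose.1)) := dif_pos hw
    obtain ⟨h2, h3⟩ := liesFib_unique hw.choose_spec hve
    rw [h1, h2, h3]
  have hδ' : ∀ w, (∃ (v : Place k K) (e : ℕ), 0 < e ∧
      (∀ z, w.ord (IsScalarTower.toAlgHom k K F z) = e * v.ord z) ∧
        δ' w = max 0 (1 - e * (1 - δ v))) ∨ δ' w = 0 := by
    intro w
    by_cases hw : ∃ ve : Place k K × ℕ, LiesFib w ve.1 ve.2
    · obtain ⟨⟨v, e⟩, hve⟩ := hw
      exact Or.inl ⟨v, e, hve.1, hve.2, hpull v w e hve⟩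
    · exact Or.inr (dif_neg hw)
  have key := H Λ F (IsScalarTower.toAlgHom k K F) hgenF htrF (fun j => algebraMap L Λ (tL j))
    (htLind.map' (f := IsScalarTower.toAlgHom k L Λ) (algebraMap L Λ).injective)
    (fun j => Subtype.ext rfl) (fun z hz => ⟨algebraMap L Λ ⟨z, (hmem z).2 hz⟩, Subtype.ext rfl⟩)
    δ' hδ'
  exact pairNeg_add (L := L) (Λ := Λ) (F := F) hess hgenF hLtr htr hpull key T


end Pool.Agent.R885
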