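import Pool.Agent.R885.G13
import Pool.Agent.R885.G16

/-!
Pairs without sections of high multiples: Kodaira dimension and numerical dimension.
-/

set_option autoImplicit false
set_option linter.overlappingInstances false
set_option linter.unusedSectionVars false

open FF Filter Pool.Agent.W602.GT Pool.Agent.W619.PQ Pool.Agent.W619.TW Pool.Agent.W619.Y
  Pool.Agent.Y172 Pool.Agent.Y191 Pool.Agent.Y174

namespace Pool.Agent.R885

section

variable {K : Type} [Field K] [Algebra ℂ K] {n N : ℕ} {y : Fin (N + 1) → K}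
  {Δ : Place ℂ K → ℚ} {β : Place ℂ K → ℚ}

/-- The sections of `m (K + Δ) + A` as sections over all models. -/
theorem sec_of_disc (htr : Algebra.trdeg ℂ K = (n : ℕ)) (hy : NormalModel y)
    (hdisc : ∀ Q, Divisorial n Q → LogDisc y n Δ Q (1 - β Q)) {A : Place ℂ K → ℚ}
    (hA : Effective y A) : ∃ T : Finset K, ∀ m : ℕ, 1 ≤ m → ∀ ω,
      IsSection y n m (m • Δ + A) ω → PairSec ℂ K n (fun P => (β P : ℝ)) T m 1 ω := by
  classical
  obtain ⟨x, E, hx, hE⟩ := exists_crd htr
  have hfr : IsFrame E := fun G =>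
    ⟨fun j => G (x j), (Pool.Agent.W73.PG.PULL.expand x hx E hE G).symm⟩
  choose s hs hs0 hsQ using fun j => disc_bound (n := n) (Δ := Δ) hy hA hfr j
  refine ⟨Finset.univ.image fun j => (s j)⁻¹, fun m hm ω hω => ⟨hω.1, ?_⟩⟩
  intro Q hQ E' hE'
  obtain ⟨j, hj⟩ := exists_centred hy Q
  rcases hsQ j Q hj (1 - β Q) (hdisc Q hQ) m hm ω hω E' hE' with h5 | h5
  · exact Or.inl h5
  · right
    refine ⟨(s j)⁻¹, Finset.mem_image_of_mem _ (Finset.mem_univ j), inv_ne_zero (hs0 j), ?_⟩
    rw [Q.ord_inv, Nat.cast_one, one_mul]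
    have h6 : ((m * (1 - β Q - 1) - (Q.ord (s j) : ℤ) : ℚ) : ℝ) ≤
        ((Q.ord (ω E') : ℤ) : ℝ) := by exact_mod_cast h5
    push_cast at h6 ⊢
    linarith

theorem h0_zero {m : ℕ} {A : Place ℂ K → ℚ} (h : ∀ ω, IsSection y n m A ω → ω = 0) :
    h0 y n m A = 0 := by
  unfold h0
  have h1 : Submodule.span ℂ {ω | IsSection y n m A ω} = ⊥ := by
    rw [Submodule.span_eq_bot]
    exact fun ω hω => h ω hω
  rw [h1, finrank_bot]

/-- **Not pseudoeffective.** -/
theorem neg_pair (htr : Algebra.trdeg ℂ K = (n : ℕ)) (hy : NormalModel y)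
    (hdisc : ∀ Q, Divisorial n Q → LogDisc y n Δ Q (1 - β Q))
    (h : ∀ T : Finset K, ∃ M0 : ℕ, ∀ M : ℕ, M0 ≤ M → ∀ ω : (Fin n → Derivation ℂ K K) → K,
      PairSec ℂ K n (fun P => (β P : ℝ)) T M 1 ω → ω = 0) :
    kodairaDim y n Δ = ⊥ ∧ ∀ A, Effective y A →
      (∃ M0 : ℕ, ∀ m : ℕ, M0 ≤ m → h0 y n m (m • Δ + A) = 0) ∧ numericalDim y n Δ A = ⊥ := by
  classical
  have key : ∀ A, Effective y A → ∃ M0 : ℕ, ∀ m : ℕ, M0 ≤ m → ∀ ω,
      IsSection y n m (m • Δ + A) ω → ω = 0 := by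
    intro A hA
    obtain ⟨T, hT⟩ := sec_of_disc htr hy hdisc hA
    obtain ⟨M0, hM0⟩ := h T
    exact ⟨M0 + 1, fun m hm ω hω => hM0 m (by omega) ω (hT m (by omega) ω hω)⟩
  refine ⟨?_, fun A hA => ?_⟩
  · unfold kodairaDim
    rw [if_pos]
    intro m hm _
    apply h0_zero
    intro ω hω
    obtain ⟨M0, hM0⟩ := key 0 ⟨fun _ _ => le_rfl, by simp⟩
    have h1 : (fun D => (ω D) ^ (M0 + 1)) = (0 : (Fin n → Derivation ℂ K K) → K) := by
      refine hM0 (m * (M0 + 1)) (by nlinarith) _ ⟨?_, ?_⟩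
      · intro B D
        have h2 := hω.1 B D
        beta_reduce
        have h3 : (ω fun i => ∑ j, B i j • D j) ^ (M0 + 1) =
            B.det ^ (m * (M0 + 1)) * ω D ^ (M0 + 1) := by
          rw [h2, mul_pow, ← pow_mul]
        exact h3
      · intro P hP E hE
        rcases hω.2 P hP E hE with h2 | h2
        · left
          beta_reduce
          rw [h2, zero_pow (by omega)]
        · right
          beta_reduce
          rw [P.ord_pow]
          have h5 : ((m * (M0 + 1)) • Δ + (0 : Place ℂ K → ℚ)) P = (m : ℚ) * (M0 + 1) * Δ P := by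
            rw [Pi.add_apply, Pi.smul_apply, Pi.zero_apply, add_zero, nsmul_eq_mul]
            push_cast
            ring
          have h6 : (m • Δ) P = (m : ℚ) * Δ P := by
            rw [Pi.smul_apply, nsmul_eq_mul]
          rw [h5]
          rw [h6] at h2
          push_cast
          have h3 : (0 : ℚ) ≤ (M0 : ℚ) + 1 := by positivity
          have h4 := mul_le_mul_of_nonneg_left h2 h3
          linarith
    funext D
    have h2 := congrFun h1 D
    exact pow_eq_zero_iff (by omega) |>.1 h2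
  · obtain ⟨M0, hM0⟩ := key A hA
    have h0z : ∀ m : ℕ, M0 ≤ m → h0 y n m (m • Δ + A) = 0 := fun m hm => h0_zero (hM0 m hm)
    refine ⟨⟨M0, h0z⟩, ?_⟩
    unfold numericalDim
    rw [eq_bot_iff]
    refine limsup_le_of_le (h := ?_)
    have h2 : ∀ᶠ m : ℕ in atTop, ENNReal.log (h0 y n m (m • Δ + A) : ENNReal) /
        (Real.log m : EReal) ≤ ⊥ := by
      filter_upwards [eventually_ge_atTop (M0 + 2)] with m hm
      rw [h0z m (by omega), Nat.cast_zero, ENNReal.log_zero, EReal.bot_div_of_pos_ne_top]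
      · have h3 : 0 < Real.log m := Real.log_pos (by exact_mod_cast (by omega : 1 < m))
        exact_mod_cast h3
      · exact EReal.coe_ne_top _
    exact h2.filter_mono inf_le_left

end

end Pool.Agent.R885
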