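import Pool.Agent.R885.G18
import Pool.Agent.Y174.B7

/-!
Quotients of pairs by finite groups.
-/

set_option autoImplicit false
set_option linter.overlappingInstances false
set_option linter.unusedSectionVars false

open FF IntermediateField Pool.Agent.W619.PQ Pool.Agent.W619.PL Pool.Agent.W619.TW
  Pool.Agent.W603.LV Pool.Agent.W619.Y Pool.Agent.W672.PG Pool.Agent.W824.PG Pool.Agent.Y174

namespace Pool.Agent.R885

section

variable {k L : Type} [Field k] [CharZero k] [Field L] [Algebra k L] {n : ℕ}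

theorem pull_eq {K : Type} [Field K] [Algebra k K] [Algebra K L] [IsScalarTower k K L]
    [FiniteDimensional K L] {δ : Place k K → ℝ} {β : Place k L → ℝ} (hβ0 : ∀ w, 0 ≤ β w)
    (hδ : ∀ v, IsDivisorial v n → ∀ w e, LiesOn w v e → β w = 1 - e * (1 - δ v))
    {δ' : Place k L → ℝ} (hδ' : IsPull δ δ') (w : Place k L) (hw : IsDivisorial w n) :
    δ' w = β w := by
  obtain ⟨e, v, hwv⟩ := Pool.Agent.W73.PG.PULL.exists_over' (K := K) w
  have hv := Pool.Agent.Y174.pDIVI k K L n v w e hwv hw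
  have hl : LiesOn w v e := hwv
  have h1 := hδ v hv w e hl
  rw [hδ' v w e hl, ← h1, max_eq_right (hβ0 w)]

theorem sec_congr {β β' : Place k L → ℝ} (h : ∀ w, IsDivisorial w n → β w = β' w) {S : Finset L}
    {m j : ℕ} {ω : (Fin n → Derivation k L L) → L} (hω : PairSec k L n β S m j ω) :
    PairSec k L n β' S m j ω := by
  refine ⟨hω.1, fun w hw D hD => ?_⟩
  rw [← h w hw]
  exact hω.2 w hw D hD

variable {G : Subgroup (L ≃ₐ[k] L)} [Finite G] {δ : Place k (fixedField G) → ℝ}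
  {β : Place k L → ℝ}

theorem quot_nonneg (hβ0 : ∀ w, 0 ≤ β w)
    (hδ : ∀ v, IsDivisorial v n → ∀ w e, LiesOn w v e → β w = 1 - e * (1 - δ v))
    (v : Place k (fixedField G)) (hv : IsDivisorial v n) : 0 ≤ δ v := by
  obtain ⟨w, e, -, hwv, -⟩ := exists_inertia G v
  have h1 := hδ v hv w e hwv
  have h2 := hβ0 w
  have h3 : (1 : ℝ) ≤ e := by exact_mod_cast hwv.1
  by_contra hcon
  push Not at hcon
  nlinarith

/-- descent of sections -/
theorem quot_kod {d : ℕ} (hn : Algebra.trdeg k L = n) (hess : Algebra.EssFiniteType k L)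
    (hβ0 : ∀ w, 0 ≤ β w)
    (hδ : ∀ v, IsDivisorial v n → ∀ w e, LiesOn w v e → β w = 1 - e * (1 - δ v))
    (h : PairKod k L n β d) : PairKod k (fixedField G) n δ d := by
  have hfin := fixed_finite G
  obtain ⟨δ', hδ'⟩ := exists_pull (L := L) δ
  have h1 : PairKod k L n δ' d := by
    obtain ⟨m, hm, ω, hω, h2⟩ := h
    exact ⟨m, hm, ω, fun l => sec_congr (fun w hw => (pull_eq hβ0 hδ hδ' w hw).symm) (hω l), h2⟩
  refine pair_desc hn hess G δ δ' (quot_nonneg hβ0 hδ) hδ' 0 (fun _ => 1) ?_ ?_ ⟨fun _ => 0, one_ne_zero⟩ ?_ h1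
  · intro A D
    rw [pow_zero, one_mul]
  · intro v _ D _
    right
    rw [v.ord_one]
    simp
  · intro v w e hv hwv hlt
    exfalso
    have h2 := hδ v hv w e hwv
    have h3 := hβ0 w
    linarith

theorem quot_num {d : ℕ} (hn : Algebra.trdeg k L = n) (hess : Algebra.EssFiniteType k L)
    (hβ0 : ∀ w, 0 ≤ β w)
    (hδ : ∀ v, IsDivisorial v n → ∀ w e, LiesOn w v e → β w = 1 - e * (1 - δ v))
    (h : PairNum k L n β d) : PairNum k (fixedField G) n δ d := by
  have hfin := fixed_finite G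
  obtain ⟨hnK, z, hz⟩ := Pool.Agent.W721.PG.EFF2.exists_basis (fixedField G) n hn
  have hessK : Algebra.EssFiniteType k (fixedField G) := ess_down hess z hz
  obtain ⟨δ', hδ'⟩ := exists_pull (L := L) δ
  refine pair_num hessK hnK hδ' ?_
  intro S
  obtain ⟨C, hC⟩ := h S
  refine ⟨C, fun m N hm hI => hC m N hm ?_⟩
  obtain ⟨ω, hli, hω⟩ := hI
  exact ⟨ω, hli, fun l => sec_congr (fun w hw => pull_eq hβ0 hδ hδ' w hw) (hω l)⟩

theorem quot_neg (hn : Algebra.trdeg k L = n) (hess : Algebra.EssFiniteType k L)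
    (hβ0 : ∀ w, 0 ≤ β w)
    (hδ : ∀ v, IsDivisorial v n → ∀ w e, LiesOn w v e → β w = 1 - e * (1 - δ v))
    (h : ∀ T : Finset L, ∃ M0 : ℕ, ∀ M : ℕ, M0 ≤ M → ∀ ω : (Fin n → Derivation k L L) → L,
      PairSec k L n β T M 1 ω → ω = 0) (T : Finset (fixedField G)) :
    ∃ M0 : ℕ, ∀ M : ℕ, M0 ≤ M →
      ∀ ω : (Fin n → Derivation k (fixedField G) (fixedField G)) → fixedField G,
      PairSec k (fixedField G) n δ T M 1 ω → ω = 0 := by
  classical
  have hfin := fixed_finite G
  obtain ⟨hnK, z, hz⟩ := Pool.Agent.W721.PG.EFF2.exists_basis (fixedField G) n hn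
  have hessK : Algebra.EssFiniteType k (fixedField G) := ess_down hess z hz
  obtain ⟨δ', hδ'⟩ := exists_pull (L := L) δ
  obtain ⟨E, hE⟩ := Pool.Agent.W636.PG.exists_duals k (fixedField G) n z hz
  have hzL : IsTranscendenceBasis k (algebraMap (fixedField G) L ∘ z) := hz.algebraMap_comp
  obtain ⟨E', hE'⟩ := Pool.Agent.W636.PG.exists_duals k L n _ hzL
  have hdet : (Matrix.of fun a b => E' a (algebraMap (fixedField G) L (z b))).det = 1 := by
    have h1 : (Matrix.of fun a b => E' a (algebraMap (fixedField G) L (z b))) = 1 := by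
      ext a b
      rw [Matrix.of_apply, Matrix.one_apply]
      exact hE' a b
    rw [h1, Matrix.det_one]
  obtain ⟨M0, hM0⟩ := h (T.image (algebraMap (fixedField G) L))
  refine ⟨M0, fun M hM ω hω => ?_⟩
  have h1 := hM0 M hM _ (sec_congr (fun w hw => pull_eq hβ0 hδ hδ' w hw)
    (pair_pull hessK hnK hδ' z E hz hE hω))
  have h2 := congrFun h1 E'
  simp only [hdet, one_pow, one_mul, Pi.zero_apply] at h2
  have h3 : ω E = 0 := (map_eq_zero (algebraMap (fixedField G) L)).1 h2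
  funext D
  rw [Pool.Agent.W636.PG.form_eq k (fixedField G) n M z hz E hE ω hω.1 D, h3, mul_zero]
  rfl

end

end Pool.Agent.R885
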