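import Pool.Agent.R885.G1
import Pool.Agent.R885.D0b

/-!
The combinatorial lemma and the places of codimension one, for pairs.
-/

set_option autoImplicit false
set_option linter.overlappingInstances false
set_option linter.unusedSectionVars false

open FF Pool.Agent.W603.LV Pool.Agent.W619.PQ Pool.Agent.Y173.QA Pool.Agent.W619.TW
  Pool.Agent.TH165.ACC

namespace Pool.Agent.R885

/-- the support function of a pair -/
noncomputable def Ph {r : ℕ} {J J' k : Type} [Fintype J] [Fintype J'] [Field k] (c : ℤ)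
    (a : (Fin r → ℤ) → ℤ) (nn : J' → ℤ) (f : J → (Fin r → ℤ) →₀ k) (h : J' → (Fin r → ℤ) →₀ k)
    (v : Fin r → ℤ) : ℤ :=
  a v + c * ∑ l, mn v (f l) + ∑ j, nn j * mn v (h j)

section

variable {r : ℕ} {k J J' : Type} [Field k] [Fintype J] [Fintype J'] {f : J → (Fin r → ℤ) →₀ k}
  {h : J' → (Fin r → ℤ) →₀ k} {S : Finset (Fin r → ℤ)} {u0 : Fin r → ℤ} {c : ℤ}
  {a : (Fin r → ℤ) → ℤ} {nn : J' → ℤ}

theorem key_sumW (hf0 : ∀ l, f l ≠ 0) (hh0 : ∀ j, h j ≠ 0) (hc : 0 < c) (hnn : ∀ j, 0 ≤ nn j)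
    (hA : ∀ v w, v ≠ 0 → w ≠ 0 → v + w ≠ 0 → a v + a w - c ≤ a (v + w))
    (hF : ∀ v, v ≠ 0 → InSpan S v → Ph c a nn f h v ≤ u0 ⬝ᵥ v)
    (hS : ∀ s, s ∈ S ↔ s ≠ 0 ∧ InSpan S s ∧ u0 ⬝ᵥ s = Ph c a nn f h s)
    {j : ℕ} (hj : 1 ≤ j) {σ : Fin j → Fin r → ℤ} (hσ : ∀ i, σ i ∈ S)
    (hli : LinearIndependent ℚ fun (i : Fin j) (k : Fin r) => (σ i k : ℚ))
    {T : Finset J} (hT : ∀ l ∈ T, ∀ m ∈ (f l).support, ∃ i, mn (σ i) (f l) < m ⬝ᵥ σ i)
    (hcard : j ≤ T.card + 1) : (∑ i, σ i) ∈ S := by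
  classical
  have hneI : ∀ I : Finset (Fin j), I.Nonempty → (∑ i ∈ I, σ i) ≠ 0 := by
    intro I hI h0
    have h1 := Fintype.linearIndependent_iff.1 hli (fun i => if i ∈ I then 1 else 0) (by
      funext k
      have h2 := congrFun h0 k
      rw [Finset.sum_apply] at h2
      rw [Finset.sum_apply]
      simp only [ite_smul, one_smul, zero_smul, Pi.zero_apply] at h2 ⊢
      have h3 : ∀ i : Fin j, (if i ∈ I then (fun k : Fin r => (σ i k : ℚ)) else 0) k =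
          if i ∈ I then (σ i k : ℚ) else 0 := by
        intro i
        split_ifs
        · rfl
        · rfl
      rw [Finset.sum_congr rfl fun i _ => h3 i, ← Finset.sum_filter,
        Finset.filter_mem_eq_inter, Finset.univ_inter]
      exact_mod_cast h2)
    obtain ⟨i, hi⟩ := hI
    have h2 := h1 i
    rw [if_pos hi] at h2
    norm_num at h2
  have hne : (∑ i, σ i) ≠ 0 := hneI Finset.univ ⟨⟨0, hj⟩, Finset.mem_univ _⟩
  have hsp : InSpan S (∑ i, σ i) := by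
    intro w hw
    rw [sum_dot]
    exact Finset.sum_eq_zero fun i _ => hw _ (hσ i)
  have haI : ∀ I : Finset (Fin j), I.Nonempty →
      (∑ i ∈ I, a (σ i)) - (I.card - 1) * c ≤ a (∑ i ∈ I, σ i) := by
    intro I hI
    induction hI using Finset.Nonempty.cons_induction with
    | singleton i =>
      simp
    | cons i I hi hI ih =>
      rw [Finset.sum_cons, Finset.sum_cons, Finset.card_cons]
      have h1 := hA (σ i) (∑ i ∈ I, σ i) (((hS _).1 (hσ i)).1) (hneI I hI) (by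
        rw [← Finset.sum_cons hi]
        exact hneI _ (Finset.cons_nonempty hi))
      push_cast
      nlinarith
  have ha := haI Finset.univ ⟨⟨0, hj⟩, Finset.mem_univ _⟩
  rw [Finset.card_univ, Fintype.card_fin] at ha
  have hmn : ∀ l, (∑ i, mn (σ i) (f l)) + (if l ∈ T then 1 else 0) ≤ mn (∑ i, σ i) (f l) := by
    intro l
    refine le_mn (hf0 l) fun m hm => ?_
    rw [sum_dot]
    have h1 : ∀ i ∈ (Finset.univ : Finset (Fin j)), mn (σ i) (f l) ≤ m ⬝ᵥ σ i :=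
      fun i _ => mn_le hm
    by_cases hl : l ∈ T
    · rw [if_pos hl]
      obtain ⟨i, hi⟩ := hT l hl m hm
      have h2 := Finset.sum_lt_sum h1 ⟨i, Finset.mem_univ _, hi⟩
      omega
    · rw [if_neg hl, add_zero]
      exact Finset.sum_le_sum h1
  have hmh : ∀ l, (∑ i, mn (σ i) (h l)) ≤ mn (∑ i, σ i) (h l) := by
    intro l
    refine le_mn (hh0 l) fun m hm => ?_
    rw [sum_dot]
    exact Finset.sum_le_sum fun i _ => mn_le hm
  have h1 : (∑ l, ∑ i, mn (σ i) (f l)) + T.card ≤ ∑ l, mn (∑ i, σ i) (f l) := by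
    have h2 : ∑ l, ((∑ i, mn (σ i) (f l)) + (if l ∈ T then (1 : ℤ) else 0)) =
        (∑ l, ∑ i, mn (σ i) (f l)) + T.card := by
      rw [Finset.sum_add_distrib]
      simp
    rw [← h2]
    exact Finset.sum_le_sum fun l _ => hmn l
  have h1' : (∑ l, nn l * ∑ i, mn (σ i) (h l)) ≤ ∑ l, nn l * mn (∑ i, σ i) (h l) :=
    Finset.sum_le_sum fun l _ => mul_le_mul_of_nonneg_left (hmh l) (hnn l)
  have h2 : u0 ⬝ᵥ (∑ i, σ i) = (∑ i, a (σ i)) + c * (∑ l, ∑ i, mn (σ i) (f l)) +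
      ∑ l, nn l * ∑ i, mn (σ i) (h l) := by
    rw [sum_dot, Finset.sum_congr rfl fun i _ => ((hS _).1 (hσ i)).2.2]
    unfold Ph
    rw [Finset.sum_add_distrib, Finset.sum_add_distrib, ← Finset.mul_sum,
      Finset.sum_comm (f := fun i l => mn (σ i) (f l)),
      Finset.sum_comm (f := fun i l => nn l * mn (σ i) (h l))]
    simp only [Finset.mul_sum]
  have h3 := hF _ hne hsp
  rw [hS]
  refine ⟨hne, hsp, le_antisymm ?_ h3⟩
  rw [h2]
  unfold Ph
  have h4 : (j : ℤ) ≤ T.card + 1 := by exact_mod_cast hcard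
  have h5 : c * ((∑ l, ∑ i, mn (σ i) (f l)) + T.card) ≤ c * ∑ l, mn (∑ i, σ i) (f l) :=
    mul_le_mul_of_nonneg_left h1 hc.le
  nlinarith

theorem mn_smul' {f : (Fin r → ℤ) →₀ k} (hf : f ≠ 0) {α : ℤ} (hα : 0 ≤ α) (s : Fin r → ℤ) :
    mn (α • s) f = α * mn s f := by
  apply le_antisymm
  · obtain ⟨m, hm, h⟩ := exists_mn hf s
    rw [← h]
    have h1 := mn_le (v := α • s) hm
    rwa [dotProduct_smul, smul_eq_mul] at h1
  · refine le_mn hf fun m hm => ?_
    rw [dotProduct_smul, smul_eq_mul]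
    exact mul_le_mul_of_nonneg_left (mn_le hm) hα

/-- every nonzero vector is a positive multiple of a primitive one -/
theorem exists_prim {s : Fin r → ℤ} (hs : s ≠ 0) : ∃ (g : ℤ) (s' c1 : Fin r → ℤ), 0 < g ∧
    s = g • s' ∧ c1 ⬝ᵥ s' = 1 := by
  classical
  obtain ⟨g, hg⟩ : ∃ g, g = Finset.univ.gcd s := ⟨_, rfl⟩
  have h1 : ∀ i, g ∣ s i := fun i => by
    rw [hg]
    exact Finset.gcd_dvd (Finset.mem_univ i)
  choose s' hs' using h1
  have hg0 : g ≠ 0 := by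
    rintro rfl
    apply hs
    funext i
    rw [hs' i, zero_mul, Pi.zero_apply]
  have hgn : 0 ≤ g := by
    rw [hg]
    exact Int.nonneg_of_normalize_eq_self Finset.normalize_gcd
  obtain ⟨c1, hc1⟩ := exists_dot_one (s := s') (fun g' s'' h => by
    have h2 : g * g' ∣ g := by
      conv_rhs => rw [hg]
      refine Finset.dvd_gcd fun i _ => ?_
      rw [hs' i, h, Pi.smul_apply, smul_eq_mul, ← mul_assoc]
      exact Dvd.intro _ rfl
    have h3 : g * g' ∣ g * 1 := by rwa [mul_one]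
    exact (mul_dvd_mul_iff_left hg0).1 h3)
  exact ⟨g, s', c1, lt_of_le_of_ne hgn (Ne.symm hg0), funext hs', hc1⟩

/-- the primitive vector of a tight vector is tight -/
theorem prim_mem (hf0 : ∀ l, f l ≠ 0) (hh0 : ∀ j, h j ≠ 0)
    (hA3 : ∀ (g : ℤ) v, 0 < g → v ≠ 0 → a (g • v) ≤ g * a v)
    (hF : ∀ v, v ≠ 0 → InSpan S v → Ph c a nn f h v ≤ u0 ⬝ᵥ v)
    (hS : ∀ s, s ∈ S ↔ s ≠ 0 ∧ InSpan S s ∧ u0 ⬝ᵥ s = Ph c a nn f h s)
    {g : ℤ} (hg : 0 < g) {s : Fin r → ℤ} (hs : g • s ∈ S) : s ∈ S := by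
  obtain ⟨h1, h2, h3⟩ := (hS _).1 hs
  have hs0 : s ≠ 0 := by
    rintro rfl
    exact h1 (smul_zero g)
  have hsp : InSpan S s := by
    intro w hw
    have h4 := h2 w hw
    rw [dotProduct_smul, smul_eq_mul] at h4
    exact (mul_eq_zero.1 h4).resolve_left hg.ne'
  refine (hS s).2 ⟨hs0, hsp, le_antisymm ?_ (hF s hs0 hsp)⟩
  rw [dotProduct_smul, smul_eq_mul] at h3
  unfold Ph at h3 ⊢
  have h4 : ∑ j, nn j * mn (g • s) (h j) = g * ∑ j, nn j * mn s (h j) := by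
    rw [Finset.mul_sum]
    exact Finset.sum_congr rfl fun j _ => by rw [mn_smul' (hh0 j) hg.le s]; ring
  have h4' : ∑ l, mn (g • s) (f l) = g * ∑ l, mn s (f l) := by
    rw [Finset.mul_sum]
    exact Finset.sum_congr rfl fun l _ => mn_smul' (hf0 l) hg.le s
  rw [h4', h4] at h3
  have h5 := hA3 g s hg hs0
  refine le_of_mul_le_mul_left ?_ hg
  rw [h3]
  have h6 : c * (g * ∑ l, mn s (f l)) = g * (c * ∑ l, mn s (f l)) := by ring
  rw [h6]
  nlinarith

end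

end Pool.Agent.R885
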