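import Pool.Agent.R885.G2

/-!
The rank argument with additional polynomials which vanish at the place.
-/

set_option autoImplicit false
set_option linter.overlappingInstances false
set_option linter.unusedSectionVars false

open FF Pool.Agent.W603.LV Pool.Agent.W619.PQ Pool.Agent.Y173.QA

namespace Pool.Agent.R885

section

variable {k K : Type} [Field k] [CharZero k] [Field K] [Algebra k K] {r m : ℕ} {x : Fin r → K}

/-- the Laurent polynomial `f` vanishes at the place, after division by an initial monomial -/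
def Van (P : Place k K) (x : Fin r → K) (f : (Fin r → ℤ) →₀ k) : Prop :=
  Ge P (mn (vec P x) f + 1) (ev x f)

theorem van_of_zero (P : Place k K) {x : Fin r → K} {f : (Fin r → ℤ) →₀ k} (h : ev x f = 0) :
    Van P x f := Or.inl h

theorem van_ev' (P : Place k K) (hx : ∀ i, x i ≠ 0) {f : (Fin r → ℤ) →₀ k} (hf : Van P x f)
    {m0 : Fin r → ℤ} (hm0 : m0 ⬝ᵥ vec P x = mn (vec P x) f) : Ge P 1 (ev' x f m0) := by
  have h1 := ev_eq hx f m0
  by_cases h0 : ev' x f m0 = 0
  · exact Or.inl h0
  right
  rcases hf with h2 | h2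
  · rw [h1] at h2
    exact absurd ((mul_eq_zero.1 h2).resolve_left (mono_ne hx _)) h0
  · rw [h1, P.ord_mul (mono_ne hx _) h0, ord_mono P hx, hm0] at h2
    linarith

theorem red_van (P : Place k K) (hx : ∀ i, x i ≠ 0) {f : (Fin r → ℤ) →₀ k} (hf : Van P x f)
    {m0 : Fin r → ℤ} (hm0 : m0 ⬝ᵥ vec P x = mn (vec P x) f) : P.red (ev' x f m0) = 0 := by
  have h1 := van_ev' P hx hf hm0
  rw [P.red_eq_zero_iff (h1.mono (by omega))]
  rcases h1 with h1 | h1
  · exact Or.inl h1
  · exact Or.inr (by omega)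

theorem nd_placeW (P : Place k K) (hx : ∀ i, x i ≠ 0) {J : Type} {f : J → (Fin r → ℤ) →₀ k}
    (hf : ∀ l, Van P x (f l)) (hnd : NonDeg P.RF f (vec P x)) {m0 : J → Fin r → ℤ}
    (hm0 : ∀ l, m0 l ⬝ᵥ vec P x = mn (vec P x) (f l)) :
    LinearIndependent P.RF fun l i => P.red (gr' x (f l) (m0 l) i) := by
  have hpt := pt_ne P hx
  have h1 : ∀ l, ev (pt P x) (ini (vec P x) (f l)) = 0 := by
    intro l
    have h2 := red_ev' P hx (f l) (hm0 l)
    rw [red_van P hx (hf l) (hm0 l)] at h2
    exact (div_eq_zero_iff.1 h2.symm).resolve_right (mono_ne hpt _)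
  have h2 := hnd (pt P x) hpt h1
  have h3 := h2.units_smul fun l => (Units.mk0 (mono (pt P x) (m0 l)) (mono_ne hpt _))⁻¹
  have h4 : (fun l i => P.red (gr' x (f l) (m0 l) i)) =
      (fun l => (Units.mk0 (mono (pt P x) (m0 l)) (mono_ne hpt _))⁻¹) •
        fun l => gr (pt P x) (ini (vec P x) (f l)) := by
    funext l i
    rw [red_gr' P hx (f l) (hm0 l)]
    change _ = ((mono (pt P x) (m0 l))⁻¹ • gr (pt P x) (ini (vec P x) (f l))) i
    rw [Pi.smul_apply, smul_eq_mul, div_eq_mul_inv, mul_comm]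
  rw [h4]
  exact h3

theorem gr'_lgW (hx : ∀ i, x i ≠ 0) (f : (Fin r → ℤ) →₀ k) (m0 : Fin r → ℤ)
    (D : Derivation k K K) : ∑ i, gr' x f m0 i * lg x D i =
      D (ev' x f m0) + ev' x f m0 * ∑ i, (m0 i : K) * lg x D i := by
  have h1 : D (ev' x f m0) = ∑ m ∈ f.support, algebraMap k K (f m) *
      (mono x (m - m0) * ∑ i, (((m - m0) i : ℤ) : K) * lg x D i) := by
    unfold ev' Finsupp.sum
    rw [map_sum]
    refine Finset.sum_congr rfl fun m _ => ?_
    change D (algebraMap k K (f m) * mono x (m - m0)) = _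
    rw [← Algebra.smul_def, D.map_smul, der_mono D hx, Algebra.smul_def]
    rfl
  have h2 : ev' x f m0 * ∑ i, (m0 i : K) * lg x D i = ∑ m ∈ f.support, algebraMap k K (f m) *
      (mono x (m - m0) * ∑ i, (m0 i : K) * lg x D i) := by
    unfold ev' Finsupp.sum
    rw [Finset.sum_mul]
    exact Finset.sum_congr rfl fun m _ => by ring
  have h3 : ∑ i, gr' x f m0 i * lg x D i = ∑ m ∈ f.support, algebraMap k K (f m) *
      (mono x (m - m0) * ∑ i, (m i : K) * lg x D i) := by
    unfold gr' Finsupp.sum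
    simp only [Finset.sum_mul, Finset.mul_sum]
    rw [Finset.sum_comm]
    exact Finset.sum_congr rfl fun m _ => Finset.sum_congr rfl fun i _ => by ring
  rw [h1, h2, h3, ← Finset.sum_add_distrib]
  refine Finset.sum_congr rfl fun m _ => ?_
  rw [← mul_add, ← mul_add, ← Finset.sum_add_distrib]
  congr 2
  refine Finset.sum_congr rfl fun i _ => ?_
  rw [Pi.sub_apply]
  push_cast
  ring

/-- flat derivations preserve the maximal ideal -/
theorem flat_pos (P : Place k K) {t : K} (ht : P.ord t = 1) {E : Derivation k K K}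
    (hE : Pres P E) (hEt : E t = 0) {g : K} (hg : Ge P 1 g) : Ge P 1 (E g) := by
  have ht0 : t ≠ 0 := by
    rintro rfl
    rw [P.ord_zero] at ht
    omega
  have h1 : g = t * (g / t) := by field_simp
  have h2 : P.Reg (g / t) := by
    by_cases h0 : g = 0
    · rw [h0, zero_div]
      exact P.reg_zero
    · right
      rw [P.ord_div h0 ht0, ht]
      have := hg.resolve_left h0
      omega
  rw [h1, E.leibniz, hEt, smul_zero, add_zero, smul_eq_mul]
  have h3 : Ge P 1 t := Or.inr ht.ge
  have h4 : Ge P 0 (E (g / t)) := hE _ h2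
  simpa using h3.mul h4

theorem red_lgW (P : Place k K) (hx : ∀ i, x i ≠ 0) {f : (Fin r → ℤ) →₀ k} (hf : Van P x f)
    {m0 : Fin r → ℤ} (hm0 : m0 ⬝ᵥ vec P x = mn (vec P x) f) {t : K} (ht : P.ord t = 1)
    {E : Derivation k K K} (hE : Pres P E) (hEt : E t = 0) (hlg : ∀ i, P.Reg (lg x E i)) :
    P.red (∑ i, gr' x f m0 i * lg x E i) = 0 := by
  have h1 := van_ev' P hx hf hm0
  have h2 : Ge P 1 (∑ i, gr' x f m0 i * lg x E i) := by
    rw [gr'_lgW hx]
    refine (flat_pos P ht hE hEt h1).add ?_
    have h3 : Ge P 0 (∑ i, (m0 i : K) * lg x E i) :=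
      Ge.sum _ _ fun i _ => P.reg_mul (reg_int P (m0 i)) (hlg i)
    simpa using h1.mul h3
  rw [P.red_eq_zero_iff (h2.mono (by omega))]
  rcases h2 with h2 | h2
  · exact Or.inl h2
  · exact Or.inr (by omega)

theorem gr'_pairW (f : (Fin r → ℤ) →₀ k) (m0 s : Fin r → ℤ) :
    ∑ i, gr' x f m0 i * (s i : K) = ∑ m ∈ f.support, algebraMap k K (f m) *
      (((m - m0) ⬝ᵥ s : ℤ) : K) * mono x (m - m0) + ((m0 ⬝ᵥ s : ℤ) : K) * ev' x f m0 := by
  have h2 : ∑ i, gr' x f m0 i * (s i : K) = ∑ m ∈ f.support, algebraMap k K (f m) *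
      ((m ⬝ᵥ s : ℤ) : K) * mono x (m - m0) := by
    unfold gr' Finsupp.sum
    simp only [Finset.sum_mul]
    rw [Finset.sum_comm]
    refine Finset.sum_congr rfl fun m _ => ?_
    have h3 : ((m ⬝ᵥ s : ℤ) : K) = ∑ i, (m i : K) * (s i : K) := by
      unfold dotProduct
      push_cast
      rfl
    rw [h3, Finset.mul_sum, Finset.sum_mul]
    exact Finset.sum_congr rfl fun i _ => by ring
  rw [h2]
  unfold ev' Finsupp.sum
  rw [Finset.mul_sum, ← Finset.sum_add_distrib]
  refine Finset.sum_congr rfl fun m _ => ?_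
  rw [sub_dotProduct]
  push_cast
  ring

theorem red_add_van (P : Place k K) (hx : ∀ i, x i ≠ 0) {f : (Fin r → ℤ) →₀ k} (hf : Van P x f)
    {m0 : Fin r → ℤ} (hm0 : m0 ⬝ᵥ vec P x = mn (vec P x) f) {s : Fin r → ℤ} :
    P.red (∑ m ∈ f.support, algebraMap k K (f m) *
      (((m - m0) ⬝ᵥ s : ℤ) : K) * mono x (m - m0) + ((m0 ⬝ᵥ s : ℤ) : K) * ev' x f m0) =
    P.red (∑ m ∈ f.support, algebraMap k K (f m) *
      (((m - m0) ⬝ᵥ s : ℤ) : K) * mono x (m - m0)) := by
  have h1 := van_ev' P hx hf hm0
  have h2 : P.Reg (∑ m ∈ f.support, algebraMap k K (f m) *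
      (((m - m0) ⬝ᵥ s : ℤ) : K) * mono x (m - m0)) := by
    refine Ge.sum _ _ fun m hm => P.reg_mul (P.reg_mul (P.reg_const _) (reg_int P _))
      (reg_mono P hx ?_)
    rw [sub_dotProduct, hm0]
    exact sub_nonneg.2 (mn_le hm)
  have h3 : P.Reg (((m0 ⬝ᵥ s : ℤ) : K) * ev' x f m0) :=
    P.reg_mul (reg_int P _) (h1.mono (by omega))
  rw [P.red_add h2 h3, P.red_mul (reg_int P _) (h1.mono (by omega)), red_van P hx hf hm0,
    mul_zero, add_zero]

/-- **The rank argument.** -/
theorem rank_placeW (htr : Algebra.trdeg k K = (m + 1 : ℕ))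
    (hfin : ∀ y : Fin (m + 1) → K, IsTranscendenceBasis k y →
      FiniteDimensional (IntermediateField.adjoin k (Set.range y)) K)
    (P : Place k K) (hx : ∀ i, x i ≠ 0) {J : Type} {f : J → (Fin r → ℤ) →₀ k}
    (hf0 : ∀ l, f l ≠ 0) (hf : ∀ l, Van P x (f l)) (hnd : NonDeg P.RF f (vec P x))
    {β : Type} [Fintype β] {bb : β → Fin r → ℤ} {b0 : β}
    (hb0 : ∀ b, bb b0 ⬝ᵥ vec P x ≤ bb b ⬝ᵥ vec P x) {y : Fin m → K}
    (hy : ∀ p : MvPolynomial (Fin m) k, p ≠ 0 →
      MvPolynomial.aeval y p ≠ 0 ∧ P.ord (MvPolynomial.aeval y p) = 0)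
    {a : Fin m → β → k} {a0 : β → k} (hl0 : (∑ b, a0 b • mono x (bb b - bb b0)) ≠ 0)
    (hl0' : P.ord (∑ b, a0 b • mono x (bb b - bb b0)) = 0)
    (hyl : ∀ j, y j * (∑ b, a0 b • mono x (bb b - bb b0)) = ∑ b, a j b • mono x (bb b - bb b0))
    {jj : ℕ} {σ : Fin jj → Fin r → ℤ}
    (hli : LinearIndependent ℚ fun (i : Fin jj) (k : Fin r) => (σ i k : ℚ))
    (hσb : ∀ b, bb b ⬝ᵥ vec P x = bb b0 ⬝ᵥ vec P x → ∀ i, (bb b - bb b0) ⬝ᵥ σ i = 0)
    {L0 : Finset J} (hL0 : ∀ l ∈ L0, ∀ m ∈ (f l).support, ∀ m' ∈ (f l).support,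
      m ⬝ᵥ vec P x = mn (vec P x) (f l) → m' ⬝ᵥ vec P x = mn (vec P x) (f l) →
      ∀ i, m ⬝ᵥ σ i = m' ⬝ᵥ σ i) : L0.card + (m + jj) ≤ r := by
  classical
  have hcRF : CharZero P.RF := charZero_of_injective_algebraMap (algebraMap k P.RF).injective
  obtain ⟨t, ht0, ht⟩ := P.surj
  obtain ⟨hbas, E, hE1, hE2⟩ := frame_of htr hfin P ht hy
  choose m0 hm0 hm0' using fun l => exists_mn (hf0 l) (vec P x)
  have hrows := nd_placeW P hx hf hnd hm0'
  -- the logarithmic derivatives
  have hEt : ∀ a : Fin m, E a.succ t = 0 := by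
    intro a
    have h1 := hE1 a.succ 0
    rwa [Fin.cons_zero, if_neg (Fin.succ_ne_zero a)] at h1
  have hEy : ∀ a j : Fin m, E a.succ (y j) = if a = j then 1 else 0 := by
    intro a j
    have h1 := hE1 a.succ j.succ
    rw [Fin.cons_succ] at h1
    rw [h1]
    by_cases h : a = j
    · rw [if_pos h, if_pos (by rw [h])]
    · rw [if_neg h, if_neg (fun h' => h (Fin.succ_injective _ h'))]
  have hlg : ∀ (a : Fin m) i, P.Reg (lg x (E a.succ) i) := fun a i =>
    log_flat P ht (hE2 _) (hEt a) (x i)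
  let ρ : Fin m → Fin r → P.RF := fun a i => P.red (lg x (E a.succ) i)
  have hw0 : ∀ b, 0 ≤ (bb b - bb b0) ⬝ᵥ vec P x := by
    intro b
    rw [sub_dotProduct]
    exact sub_nonneg.2 (hb0 b)
  have hregm : ∀ b, P.Reg (mono x (bb b - bb b0)) := fun b => reg_mono P hx (hw0 b)
  have hder := fun (a : Fin m) b => red_der_mono P hx (hlg a) (hw0 b)
  -- independence
  have hvec : LinearIndependent P.RF
      (Sum.elim ρ fun (i : Fin jj) (k : Fin r) => (σ i k : P.RF)) := by
    rw [Fintype.linearIndependent_iff]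
    intro g hg
    have hg1 : ∀ i : Fin r, (∑ a : Fin m, g (Sum.inl a) * ρ a i) +
        ∑ i', g (Sum.inr i') * (σ i' i : P.RF) = 0 := by
      intro i
      have h1 := congrFun hg i
      rw [Fintype.sum_sum_type, Pi.add_apply, Finset.sum_apply, Finset.sum_apply] at h1
      exact h1
    -- the monomials
    have h1 : ∀ b, ∑ a : Fin m, g (Sum.inl a) * P.red (E a.succ (mono x (bb b - bb b0))) = 0 := by
      intro b
      have h2 : ∑ a : Fin m, g (Sum.inl a) * P.red (E a.succ (mono x (bb b - bb b0))) =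
          P.red (mono x (bb b - bb b0)) * ∑ a : Fin m, g (Sum.inl a) *
            ∑ i, ((bb b - bb b0) i : P.RF) * ρ a i := by
        rw [Finset.mul_sum]
        refine Finset.sum_congr rfl fun a _ => ?_
        rw [(hder a b).2]
        ring
      rw [h2]
      rcases (hw0 b).lt_or_eq with h3 | h3
      · rw [red_mono_pos P hx h3, zero_mul]
      · have h4 : bb b ⬝ᵥ vec P x = bb b0 ⬝ᵥ vec P x := by
          rw [sub_dotProduct] at h3
          omega
        have h5 := hσb b h4
        have h6 : ∑ a : Fin m, g (Sum.inl a) * ∑ i, ((bb b - bb b0) i : P.RF) * ρ a i = 0 := by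
          have h7 : ∑ i, ((bb b - bb b0) i : P.RF) * ((∑ a : Fin m, g (Sum.inl a) * ρ a i) +
              ∑ i', g (Sum.inr i') * (σ i' i : P.RF)) = 0 :=
            Finset.sum_eq_zero fun i _ => by rw [hg1, mul_zero]
          simp only [mul_add] at h7
          rw [Finset.sum_add_distrib] at h7
          have h8 : ∑ i, ((bb b - bb b0) i : P.RF) * ∑ i', g (Sum.inr i') * (σ i' i : P.RF) =
              0 := by
            simp only [Finset.mul_sum]
            rw [Finset.sum_comm]
            refine Finset.sum_eq_zero fun i' _ => ?_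
            have h9 : ∑ i, ((bb b - bb b0) i : P.RF) * (g (Sum.inr i') * (σ i' i : P.RF)) =
                g (Sum.inr i') * ∑ i, ((bb b - bb b0) i : P.RF) * (σ i' i : P.RF) := by
              rw [Finset.mul_sum]
              exact Finset.sum_congr rfl fun i _ => by ring
            rw [h9, dot_intCast, h5 i', Int.cast_zero, mul_zero]
          rw [h8, add_zero] at h7
          rw [← h7]
          simp only [Finset.mul_sum]
          rw [Finset.sum_comm]
          exact Finset.sum_congr rfl fun i _ => Finset.sum_congr rfl fun a _ => by ring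
        rw [h6, mul_zero]
    -- the linear forms
    have h2 : ∀ α : β → k, (∀ a : Fin m, P.Reg (E a.succ (∑ b, α b • mono x (bb b - bb b0)))) ∧
        P.Reg (∑ b, α b • mono x (bb b - bb b0)) ∧
        ∑ a : Fin m, g (Sum.inl a) * P.red (E a.succ (∑ b, α b • mono x (bb b - bb b0))) = 0 := by
      intro α
      have h3 : ∀ a : Fin m, E a.succ (∑ b, α b • mono x (bb b - bb b0)) =
          ∑ b, algebraMap k K (α b) * E a.succ (mono x (bb b - bb b0)) := by
        intro a
        rw [map_sum]
        refine Finset.sum_congr rfl fun b _ => ?_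
        rw [(E a.succ).map_smul, Algebra.smul_def]
      have h4 : ∀ a : Fin m, ∀ b ∈ (Finset.univ : Finset β),
          P.Reg (algebraMap k K (α b) * E a.succ (mono x (bb b - bb b0))) := fun a b _ =>
        P.reg_mul (P.reg_const _) (hder a b).1
      refine ⟨fun a => ?_, ?_, ?_⟩
      · rw [h3]
        exact Ge.sum _ _ (h4 a)
      · refine Ge.sum _ _ fun b _ => ?_
        rw [Algebra.smul_def]
        exact P.reg_mul (P.reg_const _) (hregm b)
      · have h5 : ∀ a : Fin m, P.red (E a.succ (∑ b, α b • mono x (bb b - bb b0))) =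
            ∑ b, P.red (algebraMap k K (α b)) * P.red (E a.succ (mono x (bb b - bb b0))) := by
          intro a
          rw [h3, red_sum P _ _ (h4 a)]
          exact Finset.sum_congr rfl fun b _ => P.red_mul (P.reg_const _) (hder a b).1
        simp only [h5, Finset.mul_sum]
        rw [Finset.sum_comm]
        refine Finset.sum_eq_zero fun b _ => ?_
        have h6 := h1 b
        have h7 : ∑ a : Fin m, g (Sum.inl a) * (P.red (algebraMap k K (α b)) *
            P.red (E a.succ (mono x (bb b - bb b0)))) = P.red (algebraMap k K (α b)) *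
            ∑ a : Fin m, g (Sum.inl a) * P.red (E a.succ (mono x (bb b - bb b0))) := by
          rw [Finset.mul_sum]
          exact Finset.sum_congr rfl fun a _ => by ring
        rw [h7, h6, mul_zero]
    -- the first coefficients
    have hℓ0 : P.red (∑ b, a0 b • mono x (bb b - bb b0)) ≠ 0 := by
      rw [Ne, P.red_eq_zero_iff (h2 a0).2.1]
      rintro (h3 | h3)
      · exact hl0 h3
      · omega
    have hyreg : ∀ j, P.Reg (y j) := by
      intro j
      have h3 := (hy (MvPolynomial.X j) (MvPolynomial.X_ne_zero j)).2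
      rw [MvPolynomial.aeval_X] at h3
      exact Or.inr h3.ge
    have hc : ∀ j : Fin m, g (Sum.inl j) = 0 := by
      intro j
      have h3 : ∀ a' : Fin m, P.red (y j) * P.red (E a'.succ (∑ b, a0 b • mono x (bb b - bb b0))) +
          P.red (∑ b, a0 b • mono x (bb b - bb b0)) * (if a' = j then 1 else 0) =
          P.red (E a'.succ (∑ b, a j b • mono x (bb b - bb b0))) := by
        intro a'
        rw [← hyl j, (E a'.succ).leibniz, smul_eq_mul, smul_eq_mul, hEy a' j]
        have h4 : P.Reg (if a' = j then (1 : K) else 0) := by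
          split_ifs
          · exact P.reg_one
          · exact P.reg_zero
        rw [P.red_add (P.reg_mul (hyreg j) ((h2 a0).1 a')) (P.reg_mul (h2 a0).2.1 h4),
          P.red_mul (hyreg j) ((h2 a0).1 a'), P.red_mul (h2 a0).2.1 h4]
        congr 2
        split_ifs
        · exact P.red_one.symm
        · exact P.red_zero.symm
      have h4 : ∑ a', g (Sum.inl a') * (P.red (y j) *
          P.red (E a'.succ (∑ b, a0 b • mono x (bb b - bb b0))) +
          P.red (∑ b, a0 b • mono x (bb b - bb b0)) * (if a' = j then 1 else 0)) = 0 := by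
        refine Eq.trans ?_ (h2 (a j)).2.2
        exact Finset.sum_congr rfl fun a' _ => by rw [h3]
      simp only [mul_add] at h4
      rw [Finset.sum_add_distrib] at h4
      have h5 : ∑ a', g (Sum.inl a') * (P.red (y j) *
          P.red (E a'.succ (∑ b, a0 b • mono x (bb b - bb b0)))) = 0 := by
        have h6 := (h2 a0).2.2
        have h7 : ∑ a', g (Sum.inl a') * (P.red (y j) *
            P.red (E a'.succ (∑ b, a0 b • mono x (bb b - bb b0)))) = P.red (y j) *
            ∑ a', g (Sum.inl a') * P.red (E a'.succ (∑ b, a0 b • mono x (bb b - bb b0))) := by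
          rw [Finset.mul_sum]
          exact Finset.sum_congr rfl fun a' _ => by ring
        rw [h7, h6, mul_zero]
      rw [h5, zero_add, Finset.sum_eq_single j] at h4
      · rw [if_pos rfl, mul_one] at h4
        exact (mul_eq_zero.1 h4).resolve_right hℓ0
      · intro a' _ ha'
        rw [if_neg ha', mul_zero, mul_zero]
      · intro h
        exact absurd (Finset.mem_univ _) h
    -- the other coefficients
    have hd := Fintype.linearIndependent_iff.1 (li_field (F := P.RF) hli)
      (fun i => g (Sum.inr i)) (by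
        funext i
        rw [Finset.sum_apply, Pi.zero_apply]
        have h3 := hg1 i
        rw [Finset.sum_eq_zero fun a _ => by rw [hc a, zero_mul], zero_add] at h3
        exact h3)
    rintro (a' | i)
    · exact hc a'
    · exact hd i
  -- orthogonality
  have hA : LinearIndependent P.RF fun l : L0 => fun i => P.red (gr' x (f l) (m0 l) i) :=
    hrows.comp (fun l : L0 => (l : J)) Subtype.val_injective
  have h1 := rank_le hA hvec (by
    rintro ⟨l, hl⟩ (a' | i)
    · have h3 : P.red (∑ i, gr' x (f l) (m0 l) i * lg x (E a'.succ) i) = 0 :=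
        red_lgW P hx (hf l) (hm0' l) ht (hE2 _) (hEt a') (hlg a')
      rw [red_sum P _ _ fun i _ => P.reg_mul (reg_gr' P hx (f l) (hm0' l) i) (hlg a' i)] at h3
      rw [← h3]
      unfold dotProduct
      exact Finset.sum_congr rfl fun i _ =>
        (P.red_mul (reg_gr' P hx (f l) (hm0' l) i) (hlg a' i)).symm
    · have h3 : P.red (∑ i', gr' x (f l) (m0 l) i' * (σ i i' : K)) = 0 := by
        rw [gr'_pairW, red_add_van P hx (hf l) (hm0' l)]
        have hge : ∀ m ∈ (f l).support, 0 ≤ (m - m0 l) ⬝ᵥ vec P x := by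
          intro m hm
          rw [sub_dotProduct, hm0' l]
          exact sub_nonneg.2 (mn_le hm)
        rw [red_sum P _ _ fun m hm => P.reg_mul (P.reg_mul (P.reg_const _) (reg_int P _))
          (reg_mono P hx (hge m hm))]
        refine Finset.sum_eq_zero fun m hm => ?_
        rcases (hge m hm).lt_or_eq with h4 | h4
        · rw [P.red_mul (P.reg_mul (P.reg_const _) (reg_int P _)) (reg_mono P hx h4.le),
            red_mono_pos P hx h4, mul_zero]
        · have h5 : m ⬝ᵥ vec P x = mn (vec P x) (f l) := by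
            rw [sub_dotProduct, hm0' l] at h4
            omega
          have h6 := hL0 l hl m hm (m0 l) (hm0 l) h5 (hm0' l) i
          have h7 : (m - m0 l) ⬝ᵥ σ i = 0 := by rw [sub_dotProduct, h6, sub_self]
          rw [h7, Int.cast_zero, mul_zero, zero_mul, P.red_zero]
      rw [red_sum P _ _ fun i' _ => P.reg_mul (reg_gr' P hx (f l) (hm0' l) i') (reg_int P _)] at h3
      rw [← h3]
      unfold dotProduct
      refine Finset.sum_congr rfl fun i' _ => ?_
      rw [P.red_mul (reg_gr' P hx (f l) (hm0' l) i') (reg_int P _), red_int]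
      rfl)
  rw [Fintype.card_coe, Fintype.card_sum, Fintype.card_fin, Fintype.card_fin,
    Fintype.card_fin] at h1
  exact h1

end

end Pool.Agent.R885
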