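import Pool.Agent.R885.G3

/-!
The places of codimension one, for pairs.
-/

set_option autoImplicit false
set_option linter.overlappingInstances false
set_option linter.unusedSectionVars false

open FF Pool.Agent.W603.LV Pool.Agent.W619.PQ Pool.Agent.Y173.QA Pool.Agent.W619.TW
  Pool.Agent.TH165.ACC

namespace Pool.Agent.R885

section

variable {k K : Type} [Field k] [CharZero k] [Field K] [Algebra k K] {r m : ℕ} {x : Fin r → K}

theorem ge_mn (P : Place k K) (hx : ∀ i, x i ≠ 0) (f : (Fin r → ℤ) →₀ k) :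
    Ge P (mn (vec P x) f) (ev x f) := by
  unfold ev Finsupp.sum
  refine Ge.sum _ _ fun m hm => ?_
  have h1 := (Ge.const (P := P) (f m)).mul (show Ge P (mn (vec P x) f) (mono x m) from Or.inr (by
    rw [ord_mono P hx]
    exact mn_le hm))
  rwa [zero_add] at h1

theorem ord_of_not_van (P : Place k K) (hx : ∀ i, x i ≠ 0) {f : (Fin r → ℤ) →₀ k}
    (h : ¬ Van P x f) : P.ord (ev x f) = mn (vec P x) f := by
  have h1 := ge_mn P hx f
  unfold Van at h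
  have h2 : ev x f ≠ 0 := fun h0 => h (Or.inl h0)
  have h3 := h1.resolve_left h2
  by_contra hne
  exact h (Or.inr (by omega))

theorem place_dirW (htr : Algebra.trdeg k K = (m + 1 : ℕ))
    (hfin : ∀ y : Fin (m + 1) → K, IsTranscendenceBasis k y →
      FiniteDimensional (IntermediateField.adjoin k (Set.range y)) K)
    (P : Place k K) (hx : ∀ i, x i ≠ 0) {J : Type} [Fintype J]
    (hr : r = Fintype.card J + (m + 1)) {f : J → (Fin r → ℤ) →₀ k}
    (hf0 : ∀ l, f l ≠ 0) (hf : ∀ l, ev x (f l) = 0) (hnd : NonDeg P.RF f (vec P x))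
    {J' : Type} [Fintype J'] {h : J' → (Fin r → ℤ) →₀ k} (hh0 : ∀ j, h j ≠ 0)
    {S : Finset (Fin r → ℤ)} {u0 : Fin r → ℤ} {c : ℤ} {a' : (Fin r → ℤ) → ℤ} {nn : J' → ℤ}
    (hc : 0 < c) (hnn : ∀ j, 0 ≤ nn j)
    (hA2 : ∀ v w, v ≠ 0 → w ≠ 0 → v + w ≠ 0 → a' v + a' w - c ≤ a' (v + w))
    (hA3 : ∀ (g : ℤ) v, 0 < g → v ≠ 0 → a' (g • v) ≤ g * a' v)
    (hF : ∀ v, v ≠ 0 → InSpan S v → Ph c a' nn f h v ≤ u0 ⬝ᵥ v)
    (hS : ∀ s, s ∈ S ↔ s ≠ 0 ∧ InSpan S s ∧ u0 ⬝ᵥ s = Ph c a' nn f h s)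
    (hsp : InSpan S (vec P x)) {c1 : ℤ} {B : Finset (Fin r → ℤ)}
    (hB : ∀ v : Fin r → ℤ, (∀ q : Fin r → ℚ, (∀ s ∈ S, dq q s = 0) → dq q v = 0) →
        ∃ (j : ℕ) (σ : Fin j → Fin r → ℤ) (α : Fin j → ℚ), (∀ i, σ i ∈ S ∧ 0 < α i) ∧
          (∀ k, ∑ i, α i * (σ i k : ℚ) = v k) ∧
          (LinearIndependent ℚ fun (i : Fin j) (k : Fin r) => (σ i k : ℚ)) ∧
          ((∑ i, σ i) ∈ S → j ≤ 1) ∧
          ∀ b ∈ B, (∀ b' ∈ B, b ⬝ᵥ v ≤ b' ⬝ᵥ v) → ∀ i, b ⬝ᵥ σ i = -c1)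
    {b0 : B} (hb0 : ∀ b : B, (b0 : Fin r → ℤ) ⬝ᵥ vec P x ≤ (b : Fin r → ℤ) ⬝ᵥ vec P x)
    {y : Fin m → K}
    (hy : ∀ p : MvPolynomial (Fin m) k, p ≠ 0 →
      MvPolynomial.aeval y p ≠ 0 ∧ P.ord (MvPolynomial.aeval y p) = 0)
    {a : Fin m → B → k} {a0 : B → k}
    (hl0 : (∑ b : B, a0 b • mono x ((b : Fin r → ℤ) - b0)) ≠ 0)
    (hl0' : P.ord (∑ b : B, a0 b • mono x ((b : Fin r → ℤ) - b0)) = 0)
    (hyl : ∀ j, y j * (∑ b : B, a0 b • mono x ((b : Fin r → ℤ) - b0)) =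
      ∑ b : B, a j b • mono x ((b : Fin r → ℤ) - b0)) :
    vec P x = 0 ∨ ∃ (s c1 : Fin r → ℤ) (α : ℤ), 0 < α ∧ vec P x = α • s ∧ c1 ⬝ᵥ s = 1 ∧
      s ∈ S := by
  classical
  by_cases hv : vec P x = 0
  · exact Or.inl hv
  right
  obtain ⟨j, σ, α, hσ, hsum, hli, himp, hbs⟩ := hB (vec P x) (inSpan_dq hsp)
  -- the faces
  obtain ⟨L0, hL0d⟩ : ∃ L0 : Finset J, L0 = Finset.univ.filter fun l =>
    ∃ m0 ∈ (f l).support, ∀ i, m0 ⬝ᵥ σ i = mn (σ i) (f l) := ⟨_, rfl⟩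
  have hface : ∀ l, ∀ m0 ∈ (f l).support, (∀ i, m0 ⬝ᵥ σ i = mn (σ i) (f l)) →
      ∀ m ∈ (f l).support, m ⬝ᵥ vec P x = mn (vec P x) (f l) → ∀ i, m ⬝ᵥ σ i = m0 ⬝ᵥ σ i := by
    intro l m0 hm0 hm0' m' hm' hmv
    have h1 : ((m' - m0) ⬝ᵥ vec P x : ℤ) ≤ 0 := by
      rw [sub_dotProduct, hmv]
      have := mn_le (v := vec P x) hm0
      omega
    have h2 := dq_sum (fun i => (((m' - m0) i : ℤ) : ℚ)) σ α hsum
    rw [dq_int] at h2
    have h3 : ∀ i ∈ (Finset.univ : Finset (Fin j)),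
        0 ≤ α i * dq (fun i => (((m' - m0) i : ℤ) : ℚ)) (σ i) := by
      intro i _
      rw [dq_int]
      refine mul_nonneg (hσ i).2.le ?_
      have h4 : 0 ≤ (m' - m0) ⬝ᵥ σ i := by
        rw [sub_dotProduct, hm0' i]
        exact sub_nonneg.2 (mn_le hm')
      exact_mod_cast h4
    have h4 : ∑ i, α i * dq (fun i => (((m' - m0) i : ℤ) : ℚ)) (σ i) = 0 := by
      refine le_antisymm ?_ (Finset.sum_nonneg h3)
      rw [← h2]
      exact_mod_cast h1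
    intro i
    have h5 := (Finset.sum_eq_zero_iff_of_nonneg h3).1 h4 i (Finset.mem_univ _)
    have h6 := (mul_eq_zero.1 h5).resolve_left (hσ i).2.ne'
    rw [dq_int] at h6
    have h7 : (m' - m0) ⬝ᵥ σ i = 0 := by exact_mod_cast h6
    rw [sub_dotProduct] at h7
    omega
  have hrank := rank_place htr hfin P hx hf0 hf hnd (bb := fun b : B => (b : Fin r → ℤ)) (b0 := b0)
    hb0 hy hl0 hl0' hyl hli (by
      intro b hb i
      have h1 := hbs b.1 b.2 (fun b' hb' => by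
        have := hb0 ⟨b', hb'⟩
        rw [hb]
        exact this) i
      have h2 := hbs b0.1 b0.2 (fun b' hb' => hb0 ⟨b', hb'⟩) i
      rw [sub_dotProduct, h1, h2, sub_self]) (L0 := L0) (by
      intro l hl m1 hm1 m2 hm2 h1 h2 i
      rw [hL0d, Finset.mem_filter] at hl
      obtain ⟨m0, hm0, hm0'⟩ := hl.2
      rw [hface l m0 hm0 hm0' m1 hm1 h1 i, hface l m0 hm0 hm0' m2 hm2 h2 i])
  have hj1 : 1 ≤ j := by
    by_contra hj
    obtain rfl : j = 0 := by omega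
    apply hv
    funext i
    have h1 := hsum i
    rw [Finset.univ_eq_empty, Finset.sum_empty] at h1
    rw [Pi.zero_apply]
    exact_mod_cast h1.symm
  have hT : ∀ l ∈ L0ᶜ, ∀ m ∈ (f l).support, ∃ i, mn (σ i) (f l) < m ⬝ᵥ σ i := by
    intro l hl m' hm'
    rw [Finset.mem_compl, hL0d, Finset.mem_filter] at hl
    by_contra hcon
    push Not at hcon
    exact hl ⟨Finset.mem_univ _, m', hm', fun i => le_antisymm (hcon i) (mn_le hm')⟩
  have hcard : j ≤ (L0ᶜ).card + 1 := by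
    rw [Finset.card_compl]
    have h1 : L0.card ≤ Fintype.card J := Finset.card_le_univ _
    omega
  have hsumS := key_sumW hf0 hh0 hc hnn hA2 hF hS hj1 (fun i => (hσ i).1) hli hT hcard
  obtain rfl : j = 1 := le_antisymm (himp hsumS) hj1
  obtain ⟨g, s', c1', hg, hgs, hc1'⟩ := exists_prim ((hS _).1 (hσ 0).1).1
  have hs' : s' ∈ S := prim_mem hf0 hh0 hA3 hF hS hg (by rw [← hgs]; exact (hσ 0).1)
  have hv1 : ∀ i, α 0 * g * (s' i : ℚ) = vec P x i := by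
    intro i
    have h1 := hsum i
    rw [Fin.sum_univ_one, hgs, Pi.smul_apply, smul_eq_mul] at h1
    push_cast at h1
    rw [← h1]
    ring
  have hα : ((c1' ⬝ᵥ vec P x : ℤ) : ℚ) = α 0 * g := by
    have h2 : ((c1' ⬝ᵥ vec P x : ℤ) : ℚ) = α 0 * g * ((c1' ⬝ᵥ s' : ℤ) : ℚ) := by
      unfold dotProduct
      push_cast
      rw [Finset.mul_sum]
      refine Finset.sum_congr rfl fun i _ => ?_
      rw [← hv1 i]
      ring
    rw [h2, hc1', Int.cast_one, mul_one]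
  refine ⟨s', c1', c1' ⬝ᵥ vec P x, ?_, ?_, hc1', hs'⟩
  · have h1 := (hσ 0).2
    have h2 : (0 : ℚ) < g := by exact_mod_cast hg
    have h3 : (0 : ℚ) < α 0 * g := mul_pos h1 h2
    rw [← hα] at h3
    exact_mod_cast h3
  · funext i
    have h1 := hv1 i
    rw [← hα] at h1
    rw [Pi.smul_apply, smul_eq_mul]
    exact_mod_cast h1.symm

/-- the frames at the places over the charts -/
theorem place_frameW (htr : Algebra.trdeg k K = (m + 1 : ℕ))
    (hgen : IntermediateField.adjoin k (Set.range x) = ⊤)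
    (P : Place k K) (hx : ∀ i, x i ≠ 0) {J : Type} [Fintype J] [DecidableEq J]
    (e : J ⊕ Fin (m + 1) ≃ Fin r) {f : J → (Fin r → ℤ) →₀ k}
    (hf0 : ∀ l, f l ≠ 0) (hf : ∀ l, ev x (f l) = 0) (hnd : NonDeg P.RF f (vec P x))
    {J' : Type} [Fintype J'] {h : J' → (Fin r → ℤ) →₀ k} (hh0 : ∀ j, h j ≠ 0)
    (hndh : ∀ V : Finset J', NonDeg P.RF (Sum.elim f fun j : V => h j) (vec P x))
    {S : Finset (Fin r → ℤ)} {u0 : Fin r → ℤ} {c : ℤ} {a' : (Fin r → ℤ) → ℤ} {nn : J' → ℤ}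
    (hc : 0 < c) (hnn : ∀ j, 0 ≤ nn j)
    (hA2 : ∀ v w, v ≠ 0 → w ≠ 0 → v + w ≠ 0 → a' v + a' w - c ≤ a' (v + w))
    (hA3 : ∀ (g : ℤ) v, 0 < g → v ≠ 0 → a' (g • v) ≤ g * a' v)
    (hF : ∀ v, v ≠ 0 → InSpan S v → Ph c a' nn f h v ≤ u0 ⬝ᵥ v)
    (hS : ∀ s, s ∈ S ↔ s ≠ 0 ∧ InSpan S s ∧ u0 ⬝ᵥ s = Ph c a' nn f h s)
    (hsp : InSpan S (vec P x)) {c1 : ℤ} {B : Finset (Fin r → ℤ)} (h0B : (0 : Fin r → ℤ) ∈ B)
    (hB : ∀ v : Fin r → ℤ, (∀ q : Fin r → ℚ, (∀ s ∈ S, dq q s = 0) → dq q v = 0) →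
        ∃ (j : ℕ) (σ : Fin j → Fin r → ℤ) (α : Fin j → ℚ), (∀ i, σ i ∈ S ∧ 0 < α i) ∧
          (∀ k, ∑ i, α i * (σ i k : ℚ) = v k) ∧
          (LinearIndependent ℚ fun (i : Fin j) (k : Fin r) => (σ i k : ℚ)) ∧
          ((∑ i, σ i) ∈ S → j ≤ 1) ∧
          ∀ b ∈ B, (∀ b' ∈ B, b ⬝ᵥ v ≤ b' ⬝ᵥ v) → ∀ i, b ⬝ᵥ σ i = -c1)
    {v : Fin (m + 2) → B → k} (hℓ : ∀ l, ∑ b : B, v l b • mono x b ≠ 0)
    (hbas : ∀ l0 : Fin (m + 2), IsTranscendenceBasis k fun j : Fin (m + 1) =>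
        (∑ b : B, v (l0.succAbove j) b • mono x b) / ∑ b : B, v l0 b • mono x b)
    (hord : ∀ b : B, ∃ l, P.ord (∑ b : B, v l b • mono x b) ≤ P.ord (mono x b))
    {C0 : Fin (m + 1) → Fin r → ℤ} (h0 : dt e (fun l => gr x (f l)) C0 ≠ 0)
    (l0 : Fin (m + 2)) {p : MvPolynomial (Fin (m + 1)) k} (hp : Irreducible p)
    (hP : Adic (fun j : Fin (m + 1) =>
        (∑ b : B, v (l0.succAbove j) b • mono x b) / ∑ b : B, v l0 b • mono x b) p P) :
    IsDivisorial P (m + 1) ∧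
    ∃ D : Fin (m + 1) → Derivation k K K, (∀ a, Pres P (D a)) ∧ Om e x f C0 D ≠ 0 ∧
      ((vec P x = 0 ∧ P.ord (Om e x f C0 D) = 0 ∧
        ∀ j j', Van P x (h j) → Van P x (h j') → j = j') ∨
      (vec P x ∈ S ∧ P.ord (Om e x f C0 D) = -1 - ∑ l, mn (vec P x) (f l) ∧
        ∀ j, ¬ Van P x (h j))) := by
  classical
  have hfin : ∀ y : Fin (m + 1) → K, IsTranscendenceBasis k y →
      FiniteDimensional (IntermediateField.adjoin k (Set.range y)) K :=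
    fun y hy => hfin_of_gen hgen hy
  obtain ⟨b, hy⟩ := adic_res (hbas l0).1 hp hP
  refine ⟨⟨_, hy⟩, ?_⟩
  obtain ⟨bs, -, hbs⟩ := Finset.exists_min_image (Finset.univ : Finset B)
    (fun b => (b : Fin r → ℤ) ⬝ᵥ vec P x) ⟨⟨0, h0B⟩, Finset.mem_univ _⟩
  have hbs' : ∀ b : B, (bs : Fin r → ℤ) ⬝ᵥ vec P x ≤ (b : Fin r → ℤ) ⬝ᵥ vec P x := fun b =>
    hbs b (Finset.mem_univ _)
  obtain ⟨ℓ, hℓd⟩ : ∃ ℓ : Fin (m + 2) → K, ℓ = fun l => ∑ b : B, v l b • mono x b := ⟨_, rfl⟩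
  have hℓd' : ∀ l, ∑ b : B, v l b • mono x b = ℓ l := fun l => by rw [hℓd]
  simp only [hℓd'] at hℓ hbas hord hP hy ⊢
  have hZ0 : ∀ j : Fin (m + 1), 0 ≤ P.ord (ℓ (l0.succAbove j) / ℓ l0) := by
    intro j
    have h1 := (hP (MvPolynomial.X j) (MvPolynomial.X_ne_zero j)).1
    rwa [MvPolynomial.aeval_X] at h1
  have hmin : ∀ l, P.ord (ℓ l0) ≤ P.ord (ℓ l) := by
    intro l
    by_cases hl : l = l0
    · rw [hl]
    · obtain ⟨j, rfl⟩ := Fin.exists_succAbove_eq hl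
      have h1 := hZ0 j
      rw [P.ord_div (hℓ _) (hℓ _)] at h1
      omega
  have hordℓ : P.ord (ℓ l0) = (bs : Fin r → ℤ) ⬝ᵥ vec P x := by
    apply le_antisymm
    · obtain ⟨l, hl⟩ := hord bs
      rw [ord_mono P hx] at hl
      exact (hmin l).trans hl
    · have h1 : Ge P ((bs : Fin r → ℤ) ⬝ᵥ vec P x) (ℓ l0) := by
        rw [← hℓd']
        refine Ge.sum _ _ fun b _ => ?_
        rw [Algebra.smul_def]
        have h2 : Ge P ((bs : Fin r → ℤ) ⬝ᵥ vec P x) (mono x (b : Fin r → ℤ)) := Or.inr (by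
          rw [ord_mono P hx]
          exact hbs' b)
        have h3 := (Ge.const (P := P) (v l0 b)).mul h2
        rwa [zero_add] at h3
      exact h1.resolve_left (hℓ _)
  -- the forms divided by the monomial
  have hz0 : mono x (bs : Fin r → ℤ) ≠ 0 := mono_ne hx _
  have ht : ∀ l, ∑ b : B, v l b • mono x ((b : Fin r → ℤ) - bs) = ℓ l / mono x (bs : Fin r → ℤ) := by
    intro l
    rw [← hℓd', Finset.sum_div]
    refine Finset.sum_congr rfl fun b _ => ?_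
    rw [mono_sub hx, smul_div_assoc]
  have hA : ∀ l, ℓ l / mono x (bs : Fin r → ℤ) ∈ A0 P x := by
    intro l
    rw [← ht]
    refine sum_mem fun b _ => ?_
    rw [Algebra.smul_def]
    refine mul_mem (const_mem P x _) (mono_mem P x ?_)
    rw [sub_dotProduct]
    exact sub_nonneg.2 (hbs' b)
  have hne : ℓ l0 / mono x (bs : Fin r → ℤ) ≠ 0 := div_ne_zero (hℓ _) hz0
  have ho : P.ord (ℓ l0 / mono x (bs : Fin r → ℤ)) = 0 := by
    rw [P.ord_div (hℓ _) hz0, ord_mono P hx, hordℓ, sub_self]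
  have hmul : ∀ j : Fin m, ℓ (l0.succAbove (b.succAbove j)) / ℓ l0 *
      (ℓ l0 / mono x (bs : Fin r → ℤ)) =
      ℓ (l0.succAbove (b.succAbove j)) / mono x (bs : Fin r → ℤ) := by
    intro j
    have := hℓ l0
    field_simp
  have hr : r = Fintype.card J + (m + 1) := by
    rw [← Fintype.card_fin r, ← Fintype.card_congr e, Fintype.card_sum, Fintype.card_fin]
  have hyl : ∀ j : Fin m, ℓ (l0.succAbove (b.succAbove j)) / ℓ l0 *
      (∑ b : B, v l0 b • mono x ((b : Fin r → ℤ) - bs)) =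
      ∑ b_1 : B, v (l0.succAbove (b.succAbove j)) b_1 • mono x ((b_1 : Fin r → ℤ) - bs) :=
    fun j => by rw [ht, ht]; exact hmul j
  have hl0 : (∑ b : B, v l0 b • mono x ((b : Fin r → ℤ) - bs)) ≠ 0 := by rw [ht]; exact hne
  have hl0' : P.ord (∑ b : B, v l0 b • mono x ((b : Fin r → ℤ) - bs)) = 0 := by
    rw [ht]
    exact ho
  have hdir := place_dirW htr hfin P hx hr hf0 hf
      hnd hh0 hc hnn hA2 hA3 hF hS hsp hB hbs' hy
      (a := fun j => v (l0.succAbove (b.succAbove j))) (a0 := v l0) hl0 hl0' hyl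
  -- the additional polynomials
  have hrankh : ∀ (V : Finset J'), (∀ j ∈ V, Van P x (h j)) → ∀ (jj : ℕ)
      (σ : Fin jj → Fin r → ℤ), (LinearIndependent ℚ fun (i : Fin jj) (k : Fin r) => (σ i k : ℚ)) →
      (∀ w : Fin r → ℤ, w ⬝ᵥ vec P x = 0 → ∀ i, w ⬝ᵥ σ i = 0) → V.card + jj ≤ 1 := by
    intro V hV jj σ hli hσ0
    have h1 := rank_placeW htr hfin P hx (f := Sum.elim f fun j : V => h j) (by
      rintro (l | j)
      · exact hf0 l
      · exact hh0 j) (by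
      rintro (l | j)
      · exact van_of_zero P (hf l)
      · exact hV j j.2) (hndh V) (bb := fun b : B => (b : Fin r → ℤ)) (b0 := bs) hbs' hy
      (a := fun j => v (l0.succAbove (b.succAbove j))) (a0 := v l0) hl0 hl0' hyl hli
      (fun b hb i => hσ0 _ (by rw [sub_dotProduct, hb, sub_self]) i)
      (L0 := Finset.univ) (fun l _ m1 _ m2 _ h1 h2 i => by
        have h3 := hσ0 (m1 - m2) (by rw [sub_dotProduct, h1, h2, sub_self]) i
        rw [sub_dotProduct] at h3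
        omega)
    rw [Finset.card_univ, Fintype.card_sum, Fintype.card_coe] at h1
    omega
  rcases hdir with hv | ⟨s, c1', α, hα, hv, hc1', hs⟩
  · obtain ⟨D, hD, hOm, hOmc⟩ := frame_at htr hfin P hx hgen hf0 hf hnd hy
      (fun j => ⟨_, hA (l0.succAbove (b.succAbove j)), _, hA l0, hne, ho, hmul j⟩) h0
      (u0 := 0) (c := 1) (Or.inl hv)
    refine ⟨D, hD, hOm, Or.inl ⟨hv, ?_, ?_⟩⟩
    · rw [zero_dotProduct, add_zero, one_mul] at hOmc
      exact hOmc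
    · intro j j' hj hj'
      by_contra hjj
      have h1 := hrankh {j, j'} (by
        intro i hi
        rw [Finset.mem_insert, Finset.mem_singleton] at hi
        rcases hi with rfl | rfl
        · exact hj
        · exact hj') 0 (fun i => i.elim0) linearIndependent_empty_type (fun _ _ i => i.elim0)
      rw [Finset.card_pair hjj] at h1
      omega
  · obtain ⟨D, hD, hOm, hOmc⟩ := frame_at htr hfin P hx hgen hf0 hf hnd hy
      (fun j => ⟨_, hA (l0.succAbove (b.succAbove j)), _, hA l0, hne, ho, hmul j⟩) h0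
      (u0 := (1 + ∑ l, mn s (f l)) • c1') (c := 1) (Or.inr ⟨s, c1', α, hα, hv, hc1', by
        rw [smul_dotProduct, hc1', smul_eq_mul]
        ring⟩)
    have h1 := (om_ge P hx hf0 hf hnd h0 hD).1.resolve_left hOm
    have h2 : ∑ l, mn (vec P x) (f l) = α * ∑ l, mn s (f l) := by
      rw [Finset.mul_sum]
      exact Finset.sum_congr rfl fun l _ => by rw [hv, mn_smul (hf0 l) hα.le]
    have h3 : ((1 + ∑ l, mn s (f l)) • c1') ⬝ᵥ vec P x = α * (1 + ∑ l, mn s (f l)) := by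
      rw [smul_dotProduct, hv, dotProduct_smul, hc1', smul_eq_mul, smul_eq_mul]
      ring
    rw [h3] at hOmc
    rw [h2] at h1
    obtain rfl : α = 1 := by
      obtain ⟨M, hM⟩ : ∃ M, M = ∑ l, mn s (f l) := ⟨_, rfl⟩
      rw [← hM] at h1 hOmc
      have h4 : α + α * M = α * (1 + M) := by ring
      omega
    rw [one_smul] at hv
    have hs0 : s ≠ 0 := ((hS s).1 hs).1
    refine ⟨D, hD, hOm, Or.inr ⟨by rw [hv]; exact hs, ?_, ?_⟩⟩
    · rw [hv]
      linarith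
    · intro j hj
      have h5 := hrankh {j} (by
        intro i hi
        rw [Finset.mem_singleton] at hi
        rw [hi]
        exact hj) 1 (fun _ => s) (by
          rw [linearIndependent_unique_iff]
          intro h6
          apply hs0
          funext i
          have h7 : ((s i : ℤ) : ℚ) = 0 := congrFun h6 i
          rw [Pi.zero_apply]
          exact_mod_cast h7) (fun w hw _ => by rw [← hv]; exact hw)
      rw [Finset.card_singleton] at h5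
      omega

end

end Pool.Agent.R885
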