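import Pool.Agent.R885.G4
import Pool.Agent.Y174.BDefs

/-!
Numerical dimension at most zero, for pairs.
-/

set_option autoImplicit false
set_option linter.overlappingInstances false
set_option linter.unusedSectionVars false

open FF Pool.Agent.W603.LV Pool.Agent.W619.PQ Pool.Agent.Y173.QA Pool.Agent.W619.TW
  Pool.Agent.TH165.ACC Pool.Agent.TH122.AB Pool.Agent.Y174

namespace Pool.Agent.R885

theorem ord_prod_zpow {k K : Type} [Field k] [Field K] [Algebra k K] (P : Place k K) {J : Type}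
    (s : Finset J) (g : J → K) (hg : ∀ j, g j ≠ 0) (e : J → ℤ) :
    P.ord (∏ j ∈ s, g j ^ e j) = ∑ j ∈ s, e j * P.ord (g j) := by
  classical
  induction s using Finset.induction_on with
  | empty => simp [P.ord_one]
  | insert a s ha ih =>
    rw [Finset.prod_insert ha, Finset.sum_insert ha, P.ord_mul (zpow_ne_zero _ (hg a))
      (Finset.prod_ne_zero_iff.2 fun j _ => zpow_ne_zero _ (hg j)), ih, P.ord_zpow]

/-- arithmetic at a boundary place -/
theorem arith_bd {c q ρ M a F o U Hs w s0 N0 : ℤ} {β : ℝ} (hc : 0 < c) (hM : M = c * q + ρ)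
    (hρ0 : 0 ≤ ρ) (hρc : ρ < c) (ha0 : 0 ≤ a) (hac : a ≤ c) (ho : o = -1 - F)
    (hU : U = a + c * F + Hs) (hβ : (c : ℝ) * β ≤ ((c - a : ℤ) : ℝ)) (hM0 : 0 ≤ M)
    (hw : ((s0 : ℤ) : ℝ) - M * β ≤ (w : ℝ)) (hN : c * (1 + |F|) ≤ N0) :
    s0 - N0 ≤ w - M * o - q * U + q * Hs := by
  have hc' : (0 : ℝ) < c := by exact_mod_cast hc
  have h1 : (M : ℝ) * β * c ≤ M * ((c - a : ℤ) : ℝ) := by
    have h2 := mul_le_mul_of_nonneg_left hβ (show (0 : ℝ) ≤ M by exact_mod_cast hM0)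
    nlinarith
  have h2 : (c : ℝ) * s0 - M * ((c - a : ℤ) : ℝ) ≤ c * w := by nlinarith
  have h3 : c * s0 - M * (c - a) ≤ c * w := by exact_mod_cast h2
  have h4 : w - M * o - q * U + q * Hs = w + q * (c - a) + ρ * (1 + F) := by
    rw [ho, hU, hM]
    ring
  rw [h4]
  have h5 : c * (w + q * (c - a) + ρ * (1 + F)) ≥ c * s0 - ρ * (c - a) + c * (ρ * (1 + F)) := by
    rw [hM] at h3
    nlinarith
  have h6 : ρ * (c - a) ≤ c * c := by
    have : c - a ≤ c := by omega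
    have h7 : 0 ≤ c - a := by omega
    nlinarith
  have h7 : -(|F| * c) ≤ ρ * F := by
    have h8 : -|F| ≤ F := neg_abs_le F
    have h9 : ρ * F ≥ ρ * (-|F|) := mul_le_mul_of_nonneg_left h8 hρ0
    have h10 : 0 ≤ |F| := abs_nonneg F
    nlinarith
  have h8 : c * (s0 - N0) ≤ c * (w + q * (c - a) + ρ * (1 + F)) := by
    have h9 : c * (ρ * (1 + F)) ≥ c * (-(|F| * c)) := by
      refine mul_le_mul_of_nonneg_left ?_ hc.le
      nlinarith
    have h10 : c * (c * (1 + |F|)) ≤ c * N0 := mul_le_mul_of_nonneg_left hN hc.le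
    nlinarith
  exact le_of_mul_le_mul_left h8 hc

/-- arithmetic at a place of a hypersurface section -/
theorem arith_h {c q ρ M nj w s0 N0 e : ℤ} {β : ℝ} (hc : 0 < c) (hM : M = c * q + ρ)
    (hρ0 : 0 ≤ ρ) (hρc : ρ < c) (hq : 0 ≤ q) (hn : 0 ≤ nj) (hβ : (c : ℝ) * β ≤ (nj : ℝ))
    (hM0 : 0 ≤ M) (he : 1 ≤ e) (hw : ((s0 : ℤ) : ℝ) - M * β ≤ (w : ℝ)) (hN : nj ≤ N0) :
    s0 - N0 ≤ w + q * (nj * e) := by
  have hc' : (0 : ℝ) < c := by exact_mod_cast hc
  have h1 : (M : ℝ) * β * c ≤ M * (nj : ℝ) := by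
    have h2 := mul_le_mul_of_nonneg_left hβ (show (0 : ℝ) ≤ M by exact_mod_cast hM0)
    nlinarith
  have h2 : (c : ℝ) * s0 - M * (nj : ℝ) ≤ c * w := by nlinarith
  have h3 : c * s0 - M * nj ≤ c * w := by exact_mod_cast h2
  have h4 : q * nj ≤ q * (nj * e) := mul_le_mul_of_nonneg_left (by nlinarith) hq
  have h5 : c * (s0 - N0) ≤ c * (w + q * (nj * e)) := by
    have h6 : c * (q * nj) ≤ c * (q * (nj * e)) := mul_le_mul_of_nonneg_left h4 hc.le
    have h7 : ρ * nj ≤ c * nj := mul_le_mul_of_nonneg_right hρc.le hn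
    have h8 : c * nj ≤ c * N0 := mul_le_mul_of_nonneg_left hN hc.le
    rw [hM] at h3
    nlinarith
  exact le_of_mul_le_mul_left h5 hc

section

variable {k K : Type} [Field k] [CharZero k] [Field K] [Algebra k K] {r m : ℕ} {x : Fin r → K}

/-- **Numerical dimension at most zero, for pairs.** -/
theorem pairNum_zeroW (htr : Algebra.trdeg k K = (m + 1 : ℕ)) (hx : ∀ i, x i ≠ 0)
    (hgen : IntermediateField.adjoin k (Set.range x) = ⊤) {J : Type} [Fintype J] [DecidableEq J]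
    (e : J ⊕ Fin (m + 1) ≃ Fin r) {f : J → (Fin r → ℤ) →₀ k}
    (hf0 : ∀ l, f l ≠ 0) (hf : ∀ l, ev x (f l) = 0) (hndK : NonDeg K f 0)
    (hnd : ∀ P : Place k K, NonDeg P.RF f (vec P x))
    {J' : Type} [Fintype J'] {h : J' → (Fin r → ℤ) →₀ k} (hh0 : ∀ j, h j ≠ 0)
    (hhx : ∀ j, ev x (h j) ≠ 0)
    (hndh : ∀ (P : Place k K) (V : Finset J'),
      NonDeg P.RF (Sum.elim f fun j : V => h j) (vec P x))
    {S : Finset (Fin r → ℤ)} {u0 : Fin r → ℤ} {c : ℤ} {a' : (Fin r → ℤ) → ℤ} {nn : J' → ℤ}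
    (hc : 0 < c) (hnn : ∀ j, 0 ≤ nn j) (hnc : ∀ j, nn j ≤ c)
    (ha0 : ∀ v, v ≠ 0 → 0 ≤ a' v) (hac : ∀ v, v ≠ 0 → a' v ≤ c)
    (hA2 : ∀ v w, v ≠ 0 → w ≠ 0 → v + w ≠ 0 → a' v + a' w - c ≤ a' (v + w))
    (hA3 : ∀ (g : ℤ) v, 0 < g → v ≠ 0 → a' (g • v) ≤ g * a' v)
    (hF : ∀ v, v ≠ 0 → InSpan S v → Ph c a' nn f h v ≤ u0 ⬝ᵥ v)
    (hS : ∀ s, s ∈ S ↔ s ≠ 0 ∧ InSpan S s ∧ u0 ⬝ᵥ s = Ph c a' nn f h s)
    (hpos : ∀ q : Fin r → ℚ, (∀ s ∈ S, 0 ≤ dq q s) → ∀ s ∈ S, dq q s = 0)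
    (hsp : ∀ P : Place k K, InSpan S (vec P x)) {β : Place k K → ℝ}
    (hβ0 : ∀ P : Place k K, vec P x = 0 → (∀ j, ¬ Van P x (h j)) → β P ≤ 0)
    (hβ1 : ∀ (P : Place k K) j, vec P x = 0 → Van P x (h j) →
      (∀ j', Van P x (h j') → j' = j) → (c : ℝ) * β P ≤ (nn j : ℝ))
    (hβ2 : ∀ P : Place k K, vec P x ∈ S → (c : ℝ) * β P ≤ ((c - a' (vec P x) : ℤ) : ℝ)) :
    PairNum k K (m + 1) β 0 := by
  classical
  intro T
  obtain ⟨c1, B, hc1, h0B, hsB, hB⟩ := exists_B S hpos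
  obtain ⟨C0, h0⟩ := exists_C0 hx e hf0 hf hndK
  have hgenB : IntermediateField.adjoin k (Set.range fun b : B => mono x (b : Fin r → ℤ)) = ⊤ := by
    rw [eq_top_iff, ← hgen, IntermediateField.adjoin_le_iff]
    rintro _ ⟨i, rfl⟩
    apply IntermediateField.subset_adjoin
    exact ⟨⟨Pi.single i 1, hsB i⟩, mono_single x i⟩
  obtain ⟨v, hℓ, hbas, hord⟩ := noether (u := fun b : B => mono x (b : Fin r → ℤ))
    (fun b => mono_ne hx _) (b0 := ⟨0, h0B⟩) (mono_zero x) hgenB htr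
  obtain ⟨ℓ, hℓd⟩ : ∃ ℓ : Fin (m + 2) → K, ℓ = fun l => ∑ b : B, v l b • mono x b := ⟨_, rfl⟩
  have hℓd' : ∀ l, ∑ b : B, v l b • mono x b = ℓ l := fun l => by rw [hℓd]
  obtain ⟨Z, hZd⟩ : ∃ Z : Fin (m + 1) → K, Z = fun j => ℓ ((0 : Fin (m + 2)).succAbove j) / ℓ 0 :=
    ⟨_, rfl⟩
  obtain ⟨Z', hZ'd⟩ : ∃ Z' : Fin (m + 1) → K,
    Z' = fun j => ℓ ((1 : Fin (m + 2)).succAbove j) / ℓ 1 := ⟨_, rfl⟩
  have hℓ0 : ∀ l, ℓ l ≠ 0 := fun l => by rw [← hℓd']; exact hℓ l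
  have hZ : IsTranscendenceBasis k Z := by
    have h1 := hbas 0
    simp only [hℓd'] at h1
    rw [hZd]
    exact h1
  have hZ0 : Z' 0 = (Z 0)⁻¹ := by
    rw [hZ'd, hZd]
    beta_reduce
    have h1 : (1 : Fin (m + 2)).succAbove 0 = 0 := by
      rw [Fin.succAbove_of_castSucc_lt _ _ (by simp [Fin.lt_def])]
      rfl
    have h2 : (0 : Fin (m + 2)).succAbove 0 = 1 := by
      rw [Fin.succAbove_zero]
      rfl
    rw [h1, h2, inv_div]
  have hZs : ∀ j : Fin m, Z' j.succ = Z j.succ / Z 0 := by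
    intro j
    rw [hZ'd, hZd]
    beta_reduce
    have h1 : (1 : Fin (m + 2)).succAbove j.succ = j.succ.succ := by
      rw [Fin.succAbove_of_le_castSucc _ _ (by simp [Fin.le_def])]
    have h2 : (0 : Fin (m + 2)).succAbove 0 = 1 := by
      rw [Fin.succAbove_zero]
      rfl
    have h3 : (0 : Fin (m + 2)).succAbove j.succ = j.succ.succ := by
      rw [Fin.succAbove_zero]
    rw [h1, h2, h3]
    have := hℓ0 0
    have := hℓ0 1
    field_simp
  obtain ⟨D0, hD0'⟩ := Pool.Agent.W602.GT.exists_dual hZ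
  have hD0 : ∀ i j, D0 i (Z j) = if i = j then 1 else 0 := by
    intro i j
    have h1 := congrFun (congrFun hD0' i) j
    rw [Matrix.of_apply, Matrix.one_apply] at h1
    exact h1
  have hOm0 := om_ne hx hgen hf h0 hZ hD0
  -- the bound for the orders
  obtain ⟨N0, hN0, hN1, hN2⟩ : ∃ N0 : ℤ, 0 ≤ N0 ∧ (∀ j, nn j ≤ N0) ∧
      ∀ s ∈ S, c * (1 + |∑ l, mn s (f l)|) ≤ N0 := by
    refine ⟨c + ∑ s ∈ S, c * (1 + |∑ l, mn s (f l)|), ?_, fun j => ?_, fun s hs => ?_⟩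
    · have := Finset.sum_nonneg fun s (_ : s ∈ S) =>
        mul_nonneg hc.le (add_nonneg zero_le_one (abs_nonneg (∑ l, mn s (f l))))
      omega
    · have h1 := Finset.sum_nonneg fun s (_ : s ∈ S) =>
        mul_nonneg hc.le (add_nonneg zero_le_one (abs_nonneg (∑ l, mn s (f l))))
      have := hnc j
      omega
    · have h1 := Finset.single_le_sum (f := fun s => c * (1 + |∑ l, mn s (f l)|))
        (fun s _ => mul_nonneg hc.le (add_nonneg zero_le_one (abs_nonneg _))) hs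
      have h2 : c * (1 + |∑ l, mn s (f l)|) ≤ ∑ s ∈ S, c * (1 + |∑ l, mn s (f l)|) := h1
      omega
  -- the finite set
  obtain ⟨T0, hT0d⟩ : ∃ T0 : Finset K, T0 = T.filter fun s => s ≠ 0 := ⟨_, rfl⟩
  obtain ⟨T', hT'd⟩ : ∃ T' : Finset K, T' = T0 ∪
      ((T0 ×ˢ B).image fun p => p.1 * mono x (N0 • p.2)) ∪
      ((T0 ×ˢ (Finset.univ : Finset J')).image fun p => p.1 * (ev x (h p.2)) ^ (-N0)) :=
    ⟨_, rfl⟩
  have hT0 : ∀ s ∈ T0, s ≠ 0 := by
    intro s hs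
    rw [hT0d] at hs
    exact (Finset.mem_filter.1 hs).2
  have hT'0 : ∀ s ∈ T', s ≠ 0 := by
    intro s hs
    rw [hT'd, Finset.mem_union, Finset.mem_union] at hs
    rcases hs with (hs | hs) | hs
    · exact hT0 s hs
    · obtain ⟨p, hp, rfl⟩ := Finset.mem_image.1 hs
      exact mul_ne_zero (hT0 _ (Finset.mem_product.1 hp).1) (mono_ne hx _)
    · obtain ⟨p, hp, rfl⟩ := Finset.mem_image.1 hs
      exact mul_ne_zero (hT0 _ (Finset.mem_product.1 hp).1) (zpow_ne_zero _ (hhx _))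
  obtain ⟨C, hC⟩ := fd_bound hZ (hfin_of_gen hgen hZ) hZ0 hZs T' hT'0
  refine ⟨C, fun M N hM hind => ?_⟩
  obtain ⟨ω, hlin, hsec⟩ := hind
  rw [pow_zero, mul_one]
  obtain ⟨q, hqd⟩ : ∃ q : ℤ, q = (M : ℤ) / c := ⟨_, rfl⟩
  obtain ⟨ρ, hρd⟩ : ∃ ρ : ℤ, ρ = (M : ℤ) % c := ⟨_, rfl⟩
  have hMq : (M : ℤ) = c * q + ρ := by
    rw [hqd, hρd]
    have := Int.emod_add_mul_ediv (M : ℤ) c
    linarith
  have hρ0 : 0 ≤ ρ := by
    rw [hρd]
    exact Int.emod_nonneg _ hc.ne'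
  have hρc : ρ < c := by
    rw [hρd]
    exact Int.emod_lt_of_pos _ hc
  have hq0 : 0 ≤ q := by
    rw [hqd]
    exact Int.ediv_nonneg (Int.natCast_nonneg M) hc.le
  have hM0 : (0 : ℤ) ≤ M := Int.natCast_nonneg M
  obtain ⟨R, hRd⟩ : ∃ R : K, R = mono x (q • u0) * ∏ j, ev x (h j) ^ (-(q * nn j)) := ⟨_, rfl⟩
  have hR0 : R ≠ 0 := by
    rw [hRd]
    exact mul_ne_zero (mono_ne hx _) (Finset.prod_ne_zero_iff.2 fun j _ => zpow_ne_zero _ (hhx j))
  have hRord : ∀ P : Place k K, P.ord R = q * (u0 ⬝ᵥ vec P x) -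
      q * ∑ j, nn j * P.ord (ev x (h j)) := by
    intro P
    rw [hRd, P.ord_mul (mono_ne hx _) (Finset.prod_ne_zero_iff.2 fun j _ =>
      zpow_ne_zero _ (hhx j)), ord_mono P hx, ord_prod_zpow P _ _ hhx, smul_dotProduct,
      smul_eq_mul, Finset.mul_sum, sub_eq_add_neg, ← Finset.sum_neg_distrib]
    congr 1
    exact Finset.sum_congr rfl fun j _ => by ring
  have hc'0 : (Om e x f C0 D0 ^ M * R)⁻¹ ≠ 0 :=
    inv_ne_zero (mul_ne_zero (pow_ne_zero _ hOm0) hR0)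
  have hlin' := lin_sec hZ hD0 hlin (fun l => (hsec l).1) hc'0
  refine hC N _ hlin' fun l P hP => ?_
  -- the frame at the place
  have hfr : IsDivisorial P (m + 1) ∧
      ∃ D : Fin (m + 1) → Derivation k K K, (∀ a, Pres P (D a)) ∧ Om e x f C0 D ≠ 0 ∧
      ((vec P x = 0 ∧ P.ord (Om e x f C0 D) = 0 ∧
        ∀ j j', Van P x (h j) → Van P x (h j') → j = j') ∨
      (vec P x ∈ S ∧ P.ord (Om e x f C0 D) = -1 - ∑ l, mn (vec P x) (f l) ∧
        ∀ j, ¬ Van P x (h j))) := by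
    rcases hP with ⟨p, hp, hP⟩ | hP
    · exact place_frameW htr hgen P hx e hf0 hf (hnd P) hh0 (hndh P) hc hnn hA2 hA3 hF hS (hsp P)
        h0B hB hℓ hbas (hord P) h0 0 hp (by
          simp only [hℓd']
          rw [hZd] at hP
          exact hP)
    · exact place_frameW htr hgen P hx e hf0 hf (hnd P) hh0 (hndh P) hc hnn hA2 hA3 hF hS (hsp P)
        h0B hB hℓ hbas (hord P) h0 1
        (MvPolynomial.X_prime (R := k) (i := (0 : Fin (m + 1)))).irreducible (by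
          simp only [hℓd']
          rw [hZ'd] at hP
          exact hP)
  obtain ⟨hdiv, D, hD, hOm, hcase⟩ := hfr
  have hne : ω l D0 ≠ 0 := by
    intro h1
    have h2 := hlin'.ne_zero l
    rw [h1, zero_mul] at h2
    exact h2 rfl
  have h1 : D = fun i => ∑ b, D i (Z b) • D0 b := by
    funext i
    apply der_ext' hZ
    intro j
    rw [sum_der, Finset.sum_eq_single j]
    · rw [hD0, if_pos rfl, mul_one]
    · intro b _ hb
      rw [hD0, if_neg hb, mul_zero]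
    · intro hj
      exact absurd (Finset.mem_univ _) hj
  obtain ⟨δ, hδ⟩ : ∃ δ : K, δ = (Matrix.of fun i b => D i (Z b)).det := ⟨_, rfl⟩
  have h2 : Om e x f C0 D = δ * Om e x f C0 D0 := by
    have h3 := om_pluri e x f C0 1 (Matrix.of fun i b => D i (Z b)) D0
    simp only [Matrix.of_apply, pow_one] at h3
    rw [← h1, ← hδ] at h3
    exact h3
  have h3 : ω l D = δ ^ M * ω l D0 := by
    have h4 := (hsec l).1 (Matrix.of fun i b => D i (Z b)) D0
    simp only [Matrix.of_apply] at h4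
    rw [← h1, ← hδ] at h4
    exact h4
  have hδ0 : δ ≠ 0 := by
    intro h4
    rw [h4, zero_mul] at h2
    exact hOm h2
  have hωD : ω l D ≠ 0 := by
    rw [h3]
    exact mul_ne_zero (pow_ne_zero _ hδ0) hne
  have h4 : ω l D0 * (Om e x f C0 D0 ^ M * R)⁻¹ = ω l D / (Om e x f C0 D ^ M * R) := by
    rw [h2, h3, mul_pow, mul_assoc, ← div_eq_mul_inv, mul_div_mul_left _ _ (pow_ne_zero _ hδ0)]
  have h5 : P.ord (ω l D0 * (Om e x f C0 D0 ^ M * R)⁻¹) =
      P.ord (ω l D) - M * P.ord (Om e x f C0 D) - q * (u0 ⬝ᵥ vec P x) +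
        q * ∑ j, nn j * P.ord (ev x (h j)) := by
    rw [h4, P.ord_div hωD (mul_ne_zero (pow_ne_zero _ hOm) hR0),
      P.ord_mul (pow_ne_zero _ hOm) hR0, P.ord_pow, hRord]
    ring
  obtain ⟨s, hs, hs0, hle⟩ := ((hsec l).2 P hdiv D hD).resolve_left hωD
  rw [Nat.cast_one, one_mul] at hle
  have hle' : ((P.ord s : ℤ) : ℝ) - ((M : ℤ) : ℝ) * β P ≤ ((P.ord (ω l D) : ℤ) : ℝ) := by
    push_cast
    exact hle
  have hsf : s ∈ T0 := by
    rw [hT0d]
    exact Finset.mem_filter.2 ⟨hs, hs0⟩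
  rcases hcase with ⟨hv, ho, huniq⟩ | ⟨hvS, ho, hnv⟩
  · rw [h5, ho, hv, dotProduct_zero, mul_zero, mul_zero, sub_zero, sub_zero]
    by_cases hex : ∃ j, Van P x (h j)
    · obtain ⟨j0, hj0⟩ := hex
      have hsum : ∑ j, nn j * P.ord (ev x (h j)) = nn j0 * P.ord (ev x (h j0)) := by
        refine Finset.sum_eq_single j0 (fun j _ hj => ?_) fun hj => absurd (Finset.mem_univ _) hj
        have h6 : ¬ Van P x (h j) := fun h7 => hj (huniq j j0 h7 hj0)
        rw [ord_of_not_van P hx h6, hv, mn_zero (hh0 j), mul_zero]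
      have he : 1 ≤ P.ord (ev x (h j0)) := by
        have h6 := hj0.resolve_left (hhx j0)
        rw [hv, mn_zero (hh0 j0)] at h6
        omega
      rw [hsum]
      have hβ := hβ1 P j0 hv hj0 fun j' hj' => huniq j' j0 hj' hj0
      have h6 := arith_h hc hMq hρ0 hρc hq0 (hnn j0) hβ hM0 he hle' (hN1 j0)
      refine ⟨s * (ev x (h j0)) ^ (-N0), ?_, ?_⟩
      · rw [hT'd]
        exact Finset.mem_union_right _ (Finset.mem_image.2 ⟨(s, j0),
          Finset.mem_product.2 ⟨hsf, Finset.mem_univ _⟩, rfl⟩)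
      · rw [P.ord_mul hs0 (zpow_ne_zero _ (hhx j0)), P.ord_zpow]
        have h7 : N0 * 1 ≤ N0 * P.ord (ev x (h j0)) := mul_le_mul_of_nonneg_left he hN0
        have h8 : -N0 * P.ord (ev x (h j0)) = -(N0 * P.ord (ev x (h j0))) := by ring
        rw [h8]
        linarith
    · push Not at hex
      have hsum : ∑ j, nn j * P.ord (ev x (h j)) = 0 := by
        refine Finset.sum_eq_zero fun j _ => ?_
        rw [ord_of_not_van P hx (hex j), hv, mn_zero (hh0 j), mul_zero]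
      rw [hsum, mul_zero, add_zero]
      refine ⟨s, ?_, ?_⟩
      · rw [hT'd]
        exact Finset.mem_union_left _ (Finset.mem_union_left _ hsf)
      · have hβ := hβ0 P hv hex
        have h6 : ((M : ℤ) : ℝ) * β P ≤ 0 :=
          mul_nonpos_of_nonneg_of_nonpos (by exact_mod_cast hM0) hβ
        have h7 : ((P.ord s : ℤ) : ℝ) ≤ ((P.ord (ω l D) : ℤ) : ℝ) := by linarith
        exact_mod_cast h7
  · have hsum : ∑ j, nn j * P.ord (ev x (h j)) = ∑ j, nn j * mn (vec P x) (h j) :=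
      Finset.sum_congr rfl fun j _ => by rw [ord_of_not_van P hx (hnv j)]
    have hvne : vec P x ≠ 0 := ((hS _).1 hvS).1
    have hU := ((hS _).1 hvS).2.2
    unfold Ph at hU
    have h6 := arith_bd hc hMq hρ0 hρc (ha0 _ hvne) (hac _ hvne) ho hU (hβ2 P hvS) hM0 hle'
      (hN2 _ hvS)
    rw [← hsum] at h6
    rw [← h5] at h6
    -- a monomial with a pole
    obtain ⟨jj, σ, α, hσ, hsumσ, -, -, hbs⟩ := hB (vec P x) (inSpan_dq (hsp P))
    obtain ⟨bs, hbsm, hbsmin⟩ := Finset.exists_min_image B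
      (fun b => b ⬝ᵥ vec P x) ⟨0, h0B⟩
    have h7 := hbs bs hbsm hbsmin
    have hjj : 1 ≤ jj := by
      by_contra hcon
      obtain rfl : jj = 0 := by omega
      apply hvne
      funext i
      have h8 := hsumσ i
      rw [Finset.univ_eq_empty, Finset.sum_empty] at h8
      rw [Pi.zero_apply]
      exact_mod_cast h8.symm
    have h8 : bs ⬝ᵥ vec P x ≤ -1 := by
      have h9 := dq_sum (fun i => ((bs i : ℤ) : ℚ)) σ α hsumσ
      rw [dq_int] at h9
      have h10 : ∑ i, α i * dq (fun i => ((bs i : ℤ) : ℚ)) (σ i) < 0 := by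
        refine Finset.sum_neg (fun i _ => ?_) ⟨⟨0, hjj⟩, Finset.mem_univ _⟩
        rw [dq_int, h7 i]
        have h11 : (0 : ℚ) < c1 := by exact_mod_cast hc1
        have h12 := (hσ i).2
        push_cast
        nlinarith
      rw [← h9] at h10
      have h11 : bs ⬝ᵥ vec P x < 0 := by exact_mod_cast h10
      omega
    refine ⟨s * mono x (N0 • bs), ?_, ?_⟩
    · rw [hT'd]
      exact Finset.mem_union_left _ (Finset.mem_union_right _ (Finset.mem_image.2 ⟨(s, bs),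
        Finset.mem_product.2 ⟨hsf, hbsm⟩, rfl⟩))
    · rw [P.ord_mul hs0 (mono_ne hx _), ord_mono P hx, smul_dotProduct, smul_eq_mul]
      have h9 : N0 * (bs ⬝ᵥ vec P x) ≤ N0 * (-1) := mul_le_mul_of_nonneg_left h8 hN0
      linarith

end

end Pool.Agent.R885
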