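import Pool.Agent.R885.D0b
import Pool.Agent.W619.Y.Stm6

/-!
The lower bound of the Kodaira dimension.
-/

set_option autoImplicit false
set_option linter.overlappingInstances false
set_option linter.unusedSectionVars false

open FF Pool.Agent.W603.LV Pool.Agent.W619.PQ Pool.Agent.Y173.QA Pool.Agent.W619.TW
  Pool.Agent.W619.Y

namespace Pool.Agent.R885

section

variable {k K : Type} [Field k] [CharZero k] [Field K] [Algebra k K] {r n : ℕ} {x : Fin r → K}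

/-- **The Kodaira dimension is at least the number of independent directions.** -/
theorem kod_ge (hx : ∀ i, x i ≠ 0)
    (hgen : IntermediateField.adjoin k (Set.range x) = ⊤) {J : Type} [Fintype J] [DecidableEq J]
    (e : J ⊕ Fin n ≃ Fin r) {f : J → (Fin r → ℤ) →₀ k}
    (hf0 : ∀ l, f l ≠ 0) (hf : ∀ l, ev x (f l) = 0) (hndK : NonDeg K f 0)
    (hnd : ∀ P : Place k K, NonDeg P.RF f (vec P x)) {Z : Fin n → K}
    (hZ : IsTranscendenceBasis k Z)
    {S : Finset (Fin r → ℤ)} {u0 : Fin r → ℤ} {c : ℤ} (hc : 0 < c)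
    (hF : ∀ v, v ≠ 0 → c * (1 + ∑ l, mn v (f l)) ≤ u0 ⬝ᵥ v) {A : ℚ} (hA : 0 ≤ A)
    (hgr : ∀ v, v ≠ 0 → v ∉ S → ∀ i,
        |(v i : ℚ)| ≤ A * ((u0 ⬝ᵥ v - c * (1 + ∑ l, mn v (f l)) : ℤ) : ℚ)) {d : ℕ}
    {w : Fin d → Fin r → ℤ} (hw : ∀ j, ∀ s ∈ S, w j ⬝ᵥ s = 0)
    (hind : AlgebraicIndependent k fun j => mono x (w j)) : KodTr k K n d := by
  classical
  obtain ⟨C0, h0⟩ := exists_C0 hx e hf0 hf hndK
  obtain ⟨D0, hD0'⟩ := Pool.Agent.W602.GT.exists_dual hZ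
  have hD0 : ∀ i j, D0 i (Z j) = if i = j then 1 else 0 := by
    intro i j
    have h1 := congrFun (congrFun hD0' i) j
    rw [Matrix.of_apply, Matrix.one_apply] at h1
    exact h1
  have hOm0 := om_ne hx hgen hf h0 hZ hD0
  obtain ⟨cn, hcn⟩ : ∃ cn : ℕ, (cn : ℤ) = c := ⟨c.toNat, Int.toNat_of_nonneg hc.le⟩
  have hcn1 : 1 ≤ cn := by omega
  obtain ⟨N, hN⟩ := exists_nat_ge ((∑ j, ∑ i, |(w j i : ℚ)|) * A + 1)
  have hW0 : ∀ j, 0 ≤ ∑ i, |(w j i : ℚ)| := fun j => Finset.sum_nonneg fun i _ => abs_nonneg _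
  have hN1 : 1 ≤ N := by
    have h1 : (0 : ℚ) ≤ (∑ j, ∑ i, |(w j i : ℚ)|) * A :=
      mul_nonneg (Finset.sum_nonneg fun j _ => hW0 j) hA
    have h2 : (1 : ℚ) ≤ N := by linarith
    exact_mod_cast h2
  let w' : Fin (d + 1) → Fin r → ℤ := Fin.cons 0 w
  have hw' : ∀ l, ∀ s ∈ S, w' l ⬝ᵥ s = 0 := by
    intro l s hs
    refine Fin.cases ?_ (fun j => ?_) l
    · change (0 : Fin r → ℤ) ⬝ᵥ s = 0
      exact zero_dotProduct s
    · exact hw j s hs
  have hwN : ∀ l, (∑ i, |(w' l i : ℚ)|) * A ≤ N := by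
    intro l
    have h1 : (∑ i, |(w' l i : ℚ)|) ≤ ∑ j, ∑ i, |(w j i : ℚ)| := by
      refine Fin.cases ?_ (fun j => ?_) l
      · change (∑ i : Fin r, |(((0 : Fin r → ℤ) i : ℤ) : ℚ)|) ≤ _
        simp only [Pi.zero_apply, Int.cast_zero, abs_zero, Finset.sum_const_zero]
        exact Finset.sum_nonneg fun j _ => hW0 j
      · exact Finset.single_le_sum (f := fun j => ∑ i, |(w j i : ℚ)|) (fun j _ => hW0 j)
          (Finset.mem_univ j)
    have h2 := mul_le_mul_of_nonneg_right h1 hA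
    linarith
  let ω : Fin (d + 1) → (Fin n → Derivation k K K) → K := fun l D =>
    mono x ((N : ℤ) • u0 + w' l) * Om e x f C0 D ^ (N * cn)
  have hωd : ∀ l D, ω l D = mono x ((N : ℤ) • u0 + w' l) * Om e x f C0 D ^ (N * cn) :=
    fun l D => rfl
  refine ⟨N * cn, Nat.mul_pos hN1 hcn1, ω, fun l => ⟨?_, ?_, fun v _ h => h.elim⟩, D0, ?_, ?_⟩
  · intro B D
    rw [hωd, hωd]
    have h1 := om_pluri e x f C0 (N * cn) B D
    change Om e x f C0 (fun i => ∑ j, B i j • D j) ^ (N * cn) = B.det ^ (N * cn) *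
      Om e x f C0 D ^ (N * cn) at h1
    rw [h1]
    ring
  · intro P _ _ D hD
    have hD' : ∀ a, Pres P (D a) := hD
    obtain ⟨h1, h2⟩ := om_ge P hx hf0 hf (hnd P) h0 hD'
    by_cases hO : Om e x f C0 D = 0
    · left
      rw [hωd, hO, zero_pow (Nat.mul_pos hN1 hcn1).ne', mul_zero]
    right
    refine ⟨1, Finset.mem_singleton_self _, one_ne_zero, ?_⟩
    rw [hωd, P.ord_mul (mono_ne hx _) (pow_ne_zero _ hO), ord_mono P hx, P.ord_pow]
    have h1' := h1.resolve_left hO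
    obtain ⟨V, hV⟩ : ∃ V, V = vec P x := ⟨_, rfl⟩
    rw [← hV] at h1' h2 ⊢
    rw [add_dotProduct, smul_dotProduct, smul_eq_mul]
    obtain ⟨o, ho⟩ : ∃ o, o = P.ord (Om e x f C0 D) := ⟨_, rfl⟩
    rw [← ho] at h1' ⊢
    push_cast
    rw [hcn]
    have hN0 : (0 : ℤ) ≤ N := by positivity
    rw [zero_mul]
    by_cases hV0 : V = 0
    · have h3 := (h2 hV0).resolve_left hO
      rw [← ho] at h3
      rw [hV0, dotProduct_zero, dotProduct_zero, mul_zero, add_zero, zero_add]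
      exact mul_nonneg (mul_nonneg hN0 hc.le) h3
    · have h3 := hF V hV0
      have h4 : (N : ℤ) * c * (-1 - ∑ l, mn V (f l)) ≤ (N : ℤ) * c * o :=
        mul_le_mul_of_nonneg_left h1' (mul_nonneg hN0 hc.le)
      have h5 : -(w' l ⬝ᵥ V) ≤ (N : ℤ) * (u0 ⬝ᵥ V - c * (1 + ∑ l, mn V (f l))) := by
        by_cases hVS : V ∈ S
        · rw [hw' l V hVS, neg_zero]
          exact mul_nonneg hN0 (by linarith)
        · have h6 := hgr V hV0 hVS
          have hG0 : (0 : ℚ) ≤ ((u0 ⬝ᵥ V - c * (1 + ∑ l, mn V (f l)) : ℤ) : ℚ) := by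
            have : (0 : ℤ) ≤ u0 ⬝ᵥ V - c * (1 + ∑ l, mn V (f l)) := by linarith
            exact_mod_cast this
          have h7 : -((w' l ⬝ᵥ V : ℤ) : ℚ) ≤
              (N : ℚ) * ((u0 ⬝ᵥ V - c * (1 + ∑ l, mn V (f l)) : ℤ) : ℚ) := by
            have h8 : ((w' l ⬝ᵥ V : ℤ) : ℚ) = ∑ i, (w' l i : ℚ) * (V i : ℚ) := by
              unfold dotProduct
              push_cast
              rfl
            calc -((w' l ⬝ᵥ V : ℤ) : ℚ) ≤ |((w' l ⬝ᵥ V : ℤ) : ℚ)| := neg_le_abs _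
              _ = |∑ i, (w' l i : ℚ) * (V i : ℚ)| := by rw [h8]
              _ ≤ ∑ i, |(w' l i : ℚ) * (V i : ℚ)| := Finset.abs_sum_le_sum_abs _ _
              _ = ∑ i, |(w' l i : ℚ)| * |(V i : ℚ)| :=
                  Finset.sum_congr rfl fun i _ => abs_mul _ _
              _ ≤ ∑ i, |(w' l i : ℚ)| *
                  (A * ((u0 ⬝ᵥ V - c * (1 + ∑ l, mn V (f l)) : ℤ) : ℚ)) :=
                  Finset.sum_le_sum fun i _ => mul_le_mul_of_nonneg_left (h6 i) (abs_nonneg _)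
              _ = ((∑ i, |(w' l i : ℚ)|) * A) *
                  ((u0 ⬝ᵥ V - c * (1 + ∑ l, mn V (f l)) : ℤ) : ℚ) := by
                  rw [← Finset.sum_mul]
                  ring
              _ ≤ _ := mul_le_mul_of_nonneg_right (hwN l) hG0
          exact_mod_cast h7
      have h6 : (N : ℤ) * (u0 ⬝ᵥ V) + w' l ⬝ᵥ V + (N : ℤ) * c * (-1 - ∑ l, mn V (f l)) =
          (N : ℤ) * (u0 ⬝ᵥ V - c * (1 + ∑ l, mn V (f l))) + w' l ⬝ᵥ V := by ring
      linarith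
  · intro l
    rw [hωd]
    exact mul_ne_zero (mono_ne hx _) (pow_ne_zero _ hOm0)
  · have h1 : (fun l : Fin d => ω l.succ D0 / ω 0 D0) = fun j => mono x (w j) := by
      funext j
      rw [hωd, hωd]
      have h2 : w' j.succ = w j := Fin.cons_succ _ _ _
      have h3 : w' 0 = 0 := Fin.cons_zero _ _
      rw [h2, h3, add_zero, mono_add hx, mul_div_mul_right _ _ (pow_ne_zero _ hOm0),
        mul_div_cancel_left₀ _ (mono_ne hx _)]
    rw [h1]
    exact hind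

end

end Pool.Agent.R885
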