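import Pool.Agent.R885.G5
import Pool.Agent.R885.Kod

/-!
The order of the residue form at the places where some of the additional polynomials vanish.
-/

set_option autoImplicit false
set_option linter.overlappingInstances false
set_option linter.unusedSectionVars false

open FF Pool.Agent.W603.LV Pool.Agent.W619.PQ Pool.Agent.Y173.QA Pool.Agent.W619.TW
  Pool.Agent.W619.Y Pool.Agent.Y174

namespace Pool.Agent.R885

section

variable {r n : ℕ} {J : Type} [Fintype J] [DecidableEq J] {K : Type} [Field K]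

/-- the determinant of the rows `G` and `R` -/
noncomputable def dtK (e : J ⊕ Fin n ≃ Fin r) (G : J → Fin r → K) (R : Fin n → Fin r → K) : K :=
  Matrix.det (Matrix.of fun a b => (Sum.elim G R : J ⊕ Fin n → Fin r → K) a (e b))

/-- the pairings of the rows `R` and the vectors `W` -/
noncomputable def cwK (R : Fin n → Fin r → K) (W : Fin n → Fin r → K) :
    Matrix (Fin n) (Fin n) K :=
  Matrix.of fun b a => ∑ i, R b i * W a i

theorem dtK_ne {e : J ⊕ Fin n ≃ Fin r} {G : J → Fin r → K} {R : Fin n → Fin r → K}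
    (h : LinearIndependent K (Sum.elim G R : J ⊕ Fin n → Fin r → K)) : dtK e G R ≠ 0 := by
  unfold dtK
  have h1 : LinearIndependent K (Matrix.of fun a b =>
      (Sum.elim G R : J ⊕ Fin n → Fin r → K) a (e b)).row := by
    have h2 := h.map' (LinearEquiv.funCongrLeft K K e).toLinearMap
      (LinearMap.ker_eq_bot.2 (LinearEquiv.injective _))
    exact h2
  rw [Matrix.linearIndependent_rows_iff_isUnit, Matrix.isUnit_iff_isUnit_det] at h1
  exact h1.ne_zero

theorem dt_cwK {e : J ⊕ Fin n ≃ Fin r} {G : J → Fin r → K} {R0 R : Fin n → Fin r → K}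
    (h0 : dtK e G R0 ≠ 0) {W : Fin n → Fin r → K} (hW : ∀ l a, ∑ i, G l i * W a i = 0) :
    dtK e G R0 * (cwK R W).det = dtK e G R * (cwK R0 W).det := by
  classical
  let M0 : Matrix (J ⊕ Fin n) (J ⊕ Fin n) K := Matrix.of fun a b =>
    (Sum.elim G R0 : J ⊕ Fin n → Fin r → K) a (e b)
  have hM0 : IsUnit M0.det := isUnit_iff_ne_zero.2 h0
  let X : Matrix (J ⊕ Fin n) (J ⊕ Fin n) K := Matrix.of fun b a =>
    Sum.elim (fun l => M0⁻¹ b (Sum.inl l)) (fun a => W a (e b)) a
  have key : ∀ C' : Fin n → Fin r → K, dtK e G C' * X.det = (cwK C' W).det := by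
    intro C'
    let M : Matrix (J ⊕ Fin n) (J ⊕ Fin n) K := Matrix.of fun a b =>
      (Sum.elim G C' : J ⊕ Fin n → Fin r → K) a (e b)
    have h1 : M * X = Matrix.fromBlocks 1 0
        (Matrix.of fun b l => ∑ c, M (Sum.inr b) c * X c (Sum.inl l)) (cwK C' W) := by
      ext a b
      rw [Matrix.mul_apply]
      rcases a with a | a <;> rcases b with b | b
      · rw [Matrix.fromBlocks_apply₁₁]
        have h2 := congrFun (congrFun (Matrix.mul_nonsing_inv M0 hM0) (Sum.inl a)) (Sum.inl b)
        rw [Matrix.mul_apply] at h2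
        rw [Matrix.one_apply] at h2 ⊢
        simp only [Sum.inl.injEq] at h2
        rw [← h2]
        rfl
      · rw [Matrix.fromBlocks_apply₁₂, Matrix.zero_apply]
        change ∑ c, G a (e c) * W b (e c) = 0
        rw [e.sum_comp fun i => G a i * W b i]
        exact hW a b
      · rfl
      · rw [Matrix.fromBlocks_apply₂₂]
        change ∑ c, C' a (e c) * W b (e c) = ∑ i, C' a i * W b i
        rw [e.sum_comp fun i => C' a i * W b i]
    have h2 := congrArg Matrix.det h1
    rw [Matrix.det_mul, Matrix.det_fromBlocks_zero₁₂, Matrix.det_one, one_mul] at h2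
    exact h2
  rw [← key R, ← key R0]
  ring

theorem dtK_scale {e : J ⊕ Fin n ≃ Fin r} {G G' : J → Fin r → K} {R : Fin n → Fin r → K}
    {c : J → K} (h : ∀ l i, G l i = c l * G' l i) : dtK e G R = (∏ l, c l) * dtK e G' R := by
  unfold dtK
  have h1 : (Matrix.of fun a b => (Sum.elim G R : J ⊕ Fin n → Fin r → K) a (e b)) =
      Matrix.of fun a b => (Sum.elim c (fun _ => 1) a) *
        (Matrix.of fun a b => (Sum.elim G' R : J ⊕ Fin n → Fin r → K) a (e b)) a b := by
    ext a b
    rcases a with a | a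
    · exact h a (e b)
    · change R a (e b) = 1 * R a (e b)
      rw [one_mul]
  rw [h1, Matrix.det_mul_column]
  rw [Fintype.prod_sum_type]
  simp

end

section

variable {k K : Type} [Field k] [CharZero k] [Field K] [Algebra k K] {r n : ℕ} {x : Fin r → K}
  {J : Type} [Fintype J] [DecidableEq J]

/-- a determinant which is a unit at the place -/
theorem ord_dtK (P : Place k K) (e : J ⊕ Fin n ≃ Fin r) {G : J → Fin r → K}
    {R : Fin n → Fin r → K} (hG : ∀ l i, P.Reg (G l i)) (hR : ∀ l i, P.Reg (R l i))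
    (hC : LinearIndependent P.RF (Sum.elim (fun l i => P.red (G l i)) (fun l i => P.red (R l i)) :
      J ⊕ Fin n → Fin r → P.RF)) :
    dtK e G R ≠ 0 ∧ P.ord (dtK e G R) = 0 := by
  have h1 := red_det P (Matrix.of fun a b => (Sum.elim G R : J ⊕ Fin n → Fin r → K) a (e b)) (by
    rintro (a | a) b
    · exact hG a (e b)
    · exact hR a (e b))
  have h2 : P.red (dtK e G R) = dtK e (fun l i => P.red (G l i)) (fun l i => P.red (R l i)) := by
    refine h1.2.trans ?_
    unfold dtK
    congr 1
    ext a b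
    rcases a with a | a
    · rfl
    · rfl
  have h3 : P.red (dtK e G R) ≠ 0 := by
    rw [h2]
    exact dtK_ne hC
  have h1' : P.Reg (dtK e G R) := h1.1
  rw [Ne, P.red_eq_zero_iff h1'] at h3
  push Not at h3
  have h4 := (P.reg_iff h3.1).1 h1'
  exact ⟨h3.1, by have := h3.2; omega⟩

/-- the residue form with other rows -/
theorem om_eqK {e : J ⊕ Fin n ≃ Fin r} (hx : ∀ i, x i ≠ 0) {f : J → (Fin r → ℤ) →₀ k}
    (hf : ∀ l, ev x (f l) = 0) {C0 : Fin n → Fin r → ℤ} {R : Fin n → Fin r → K}
    (h0 : dt e (fun l => gr x (f l)) C0 ≠ 0) (h1 : dtK e (fun l => gr x (f l)) R ≠ 0)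
    (D : Fin n → Derivation k K K) :
    Om e x f C0 D = (cwK R fun a => lg x (D a)).det / dtK e (fun l => gr x (f l)) R := by
  unfold Om
  rw [div_eq_div_iff h0 h1]
  have h2 := dt_cwK (R0 := fun b i => ((C0 b i : ℤ) : K)) (R := R) (e := e)
    (G := fun l => gr x (f l)) h0 (W := fun a => lg x (D a)) fun l a => gr_lg hx (hf l) (D a)
  have h3 : (cwK (fun b i => ((C0 b i : ℤ) : K)) fun a => lg x (D a)).det =
      (cw C0 fun a => lg x (D a)).det := rfl
  have h4 : dtK e (fun l => gr x (f l)) (fun b i => ((C0 b i : ℤ) : K)) =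
      dt e (fun l => gr x (f l)) C0 := rfl
  rw [h3, h4] at h2
  rw [mul_comm _ (dt e _ C0), h2]
  ring

/-- the logarithmic derivative of an additional polynomial -/
theorem row_h (hx : ∀ i, x i ≠ 0) {g : (Fin r → ℤ) →₀ k} (hg : ev x g ≠ 0) (m0 : Fin r → ℤ)
    (D : Derivation k K K) : ∑ i, gr' x g m0 i * lg x D i =
      ev' x g m0 * (D (ev x g) / ev x g) := by
  have h1 := ev_eq hx g m0
  have h2 : ev' x g m0 ≠ 0 := by
    intro h0
    rw [h0, mul_zero] at h1
    exact hg h1
  have h3 := mono_ne hx m0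
  rw [gr'_lgW hx, h1, D.leibniz, der_mono D hx, smul_eq_mul, smul_eq_mul]
  unfold lg
  field_simp

/-- **The order of the residue form.** -/
theorem om_geW (P : Place k K) {e : J ⊕ Fin n ≃ Fin r} (hx : ∀ i, x i ≠ 0)
    {f : J → (Fin r → ℤ) →₀ k} (hf0 : ∀ l, f l ≠ 0) (hf : ∀ l, ev x (f l) = 0)
    {V : Type} [Fintype V] [DecidableEq V] {h : V → (Fin r → ℤ) →₀ k} (hh0 : ∀ j, h j ≠ 0)
    (hhx : ∀ j, ev x (h j) ≠ 0) (hV : ∀ j, Van P x (h j))
    (hnd : NonDeg P.RF (Sum.elim f h) (vec P x)) {C0 : Fin n → Fin r → ℤ}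
    (h0 : dt e (fun l => gr x (f l)) C0 ≠ 0) {D : Fin n → Derivation k K K}
    (hD : ∀ a, Pres P (D a)) :
    Ge P (-1 - ∑ l, mn (vec P x) (f l) + ∑ j, (P.ord (ev x (h j)) - mn (vec P x) (h j)))
      (Om e x f C0 D) := by
  classical
  choose m0 hm0 hm0' using fun l => exists_mn (hf0 l) (vec P x)
  choose m1 hm1 hm1' using fun j => exists_mn (hh0 j) (vec P x)
  have hli := nd_placeW P hx (f := Sum.elim f h) (by
    rintro (l | j)
    · exact van_of_zero P (hf l)
    · exact hV j) hnd (m0 := Sum.elim m0 m1) (by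
    rintro (l | j)
    · exact hm0' l
    · exact hm1' j)
  have hcard : Fintype.card (Fin r) = Fintype.card J + n := by
    rw [← Fintype.card_congr e, Fintype.card_sum, Fintype.card_fin]
  have hle : Fintype.card V ≤ n := by
    have h1 := hli.fintype_card_le_finrank
    rw [Module.finrank_fintype_fun_eq_card, hcard, Fintype.card_sum] at h1
    omega
  obtain ⟨n', hn'⟩ : ∃ n', n = Fintype.card V + n' := ⟨n - Fintype.card V, by omega⟩
  obtain ⟨C, hC⟩ := complete_zero hli (n := n') (by
    rw [hcard, Fintype.card_sum, hn']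
    ring)
  have ε : Fin n ≃ V ⊕ Fin n' := (Fintype.equivOfCardEq (by
    rw [Fintype.card_sum, Fintype.card_fin, Fintype.card_fin, hn']))
  let R0 : V ⊕ Fin n' → Fin r → K := Sum.elim (fun j => gr' x (h j) (m1 j)) fun b i => (C b i : K)
  let R : Fin n → Fin r → K := fun b => R0 (ε b)
  have hRreg : ∀ b i, P.Reg (R b i) := by
    intro b i
    change P.Reg (R0 (ε b) i)
    rcases ε b with j | b'
    · exact reg_gr' P hx (h j) (hm1' j) i
    · exact reg_int P (C b' i)
  have hGreg : ∀ l i, P.Reg (gr' x (f l) (m0 l) i) := fun l i => reg_gr' P hx (f l) (hm0' l) i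
  obtain ⟨h1, h2⟩ := ord_dtK P e (R := R) hGreg hRreg (by
    have h3 := hC.comp (fun a : J ⊕ Fin n => (Sum.elim (fun l => Sum.inl (Sum.inl l))
      (fun b => Sum.elim (fun j => Sum.inl (Sum.inr j)) (fun b' => Sum.inr b') (ε b)) a :
        (J ⊕ V) ⊕ Fin n')) (by
      have hinj : Function.Injective (fun a : V ⊕ Fin n' => (Sum.elim (fun j => Sum.inl (Sum.inr j))
          (fun b' => Sum.inr b') a : (J ⊕ V) ⊕ Fin n')) := by
        rintro (a | a) (b | b) hab
        · simpa using hab
        · simp at hab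
        · simp at hab
        · simpa using hab
      rintro (a | a) (b | b) hab
      · simpa using hab
      · exfalso
        simp only [Sum.elim_inl, Sum.elim_inr] at hab
        rcases hε : ε b with j | b' <;> rw [hε] at hab <;> simp at hab
      · exfalso
        simp only [Sum.elim_inl, Sum.elim_inr] at hab
        rcases hε : ε a with j | b' <;> rw [hε] at hab <;> simp at hab
      · congr 1
        exact ε.injective (hinj hab))
    convert h3 using 1
    funext a
    rcases a with l | b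
    · rfl
    · change (fun i => P.red (R0 (ε b) i)) = (Sum.elim (fun l i => P.red (gr' x (Sum.elim f h l)
        (Sum.elim m0 m1 l) i)) (fun b i => ((C b i : ℤ) : P.RF)) : (J ⊕ V) ⊕ Fin n' → Fin r → P.RF)
        (Sum.elim (fun j => Sum.inl (Sum.inr j)) (fun b' => Sum.inr b') (ε b))
      rcases ε b with j | b'
      · rfl
      · funext i
        change P.red ((C b' i : ℤ) : K) = ((C b' i : ℤ) : P.RF)
        rw [red_int])
  have hscale : dtK e (fun l => gr x (f l)) R = (∏ l, mono x (m0 l)) *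
      dtK e (fun l => gr' x (f l) (m0 l)) R := dtK_scale fun l i => gr_eq hx (f l) (m0 l) i
  have h1' : dtK e (fun l => gr' x (f l) (m0 l)) R ≠ 0 := h1
  have h2' : P.ord (dtK e (fun l => gr' x (f l) (m0 l)) R) = 0 := h2
  have hpm : ∏ l, mono x (m0 l) ≠ 0 := Finset.prod_ne_zero_iff.2 fun l _ => mono_ne hx _
  have hne : dtK e (fun l => gr x (f l)) R ≠ 0 := by
    rw [hscale]
    exact mul_ne_zero hpm h1'
  have hordpm : ∀ s : Finset J, P.ord (∏ l ∈ s, mono x (m0 l)) =
      ∑ l ∈ s, mn (vec P x) (f l) := by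
    intro s
    induction s using Finset.induction_on with
    | empty => simp [P.ord_one]
    | insert a s ha ih =>
      rw [Finset.prod_insert ha, Finset.sum_insert ha, P.ord_mul (mono_ne hx _)
        (Finset.prod_ne_zero_iff.2 fun l _ => mono_ne hx _), ih, ord_mono P hx, hm0']
  have hord : P.ord (dtK e (fun l => gr x (f l)) R) = ∑ l, mn (vec P x) (f l) := by
    rw [hscale, P.ord_mul hpm h1', h2', add_zero, hordpm]
  rw [om_eqK hx hf h0 hne]
  -- the numerator
  let z : V ⊕ Fin n' → K := Sum.elim (fun j => ev x (h j)) fun b => mono x (C b)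
  let cc : V ⊕ Fin n' → K := Sum.elim (fun j => ev' x (h j) (m1 j)) fun _ => 1
  have hz : ∀ a, z a ≠ 0 := by
    rintro (j | b)
    · exact hhx j
    · exact mono_ne hx _
  have hev' : ∀ j, ev' x (h j) (m1 j) ≠ 0 := by
    intro j h5
    have h6 := ev_eq hx (h j) (m1 j)
    rw [h5, mul_zero] at h6
    exact hhx j h6
  have hcc : ∀ a, cc a ≠ 0 := by
    rintro (j | b)
    · exact hev' j
    · exact one_ne_zero
  have hmat : cwK R (fun a => lg x (D a)) = Matrix.of fun b a => cc (ε b) *
      (Matrix.of fun (b : Fin n) (a : Fin n) => D a (z (ε b)) / z (ε b)) b a := by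
    ext b a
    change ∑ i, R0 (ε b) i * lg x (D a) i = cc (ε b) * (D a (z (ε b)) / z (ε b))
    rcases ε b with j | b'
    · exact row_h hx (hhx j) (m1 j) (D a)
    · change ∑ i, ((C b' i : ℤ) : K) * (D a (x i) / x i) = 1 * (D a (mono x (C b')) / mono x (C b'))
      rw [der_mono (D a) hx, mul_div_cancel_left₀ _ (mono_ne hx _), one_mul]
  rw [hmat, Matrix.det_mul_column]
  have hdl := det_log P D hD (fun b => z (ε b)) fun b => hz _
  have hdl' : Ge P (-1) (Matrix.det (Matrix.of fun (b : Fin n) (a : Fin n) =>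
      D a (z (ε b)) / z (ε b))) := by
    rw [← Matrix.det_transpose]
    exact hdl
  have hprod : ∏ b, cc (ε b) = ∏ j, ev' x (h j) (m1 j) := by
    rw [ε.prod_comp cc, Fintype.prod_sum_type]
    simp [cc]
  have hevord : ∀ j, P.ord (ev' x (h j) (m1 j)) = P.ord (ev x (h j)) - mn (vec P x) (h j) := by
    intro j
    rw [ev_eq hx (h j) (m1 j), P.ord_mul (mono_ne hx _) (hev' j), ord_mono P hx, hm1']
    ring
  have hpord : P.ord (∏ j, ev' x (h j) (m1 j)) =
      ∑ j, (P.ord (ev x (h j)) - mn (vec P x) (h j)) := by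
    have h5 : ∀ s : Finset V, P.ord (∏ j ∈ s, ev' x (h j) (m1 j)) =
        ∑ j ∈ s, (P.ord (ev x (h j)) - mn (vec P x) (h j)) := by
      intro s
      induction s using Finset.induction_on with
      | empty => simp [P.ord_one]
      | insert a s ha ih =>
        rw [Finset.prod_insert ha, Finset.sum_insert ha, P.ord_mul (hev' a)
          (Finset.prod_ne_zero_iff.2 fun j _ => hev' j), ih, hevord]
    exact h5 _
  rw [hprod, div_eq_mul_inv]
  have h5 : Ge P (∑ j, (P.ord (ev x (h j)) - mn (vec P x) (h j))) (∏ j, ev' x (h j) (m1 j)) :=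
    Or.inr hpord.ge
  have h6 : Ge P (-∑ l, mn (vec P x) (f l)) (dtK e (fun l => gr x (f l)) R)⁻¹ :=
    Or.inr (by rw [P.ord_inv, hord])
  have h7 := (h5.mul hdl').mul h6
  refine h7.mono ?_
  linarith

end

end Pool.Agent.R885
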