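import Pool.Agent.R885.Gen
import Pool.Agent.Y191.UCore
import Pool.Agent.Y174.W4

/-!
The numerical dimension of a pair through the generic fibre.
-/

set_option autoImplicit false
set_option linter.overlappingInstances false
set_option linter.unusedSectionVars false

open FF IntermediateField Pool.Agent.W619.PQ Pool.Agent.W619.PL Pool.Agent.W619.TW
  Pool.Agent.W603.LV Pool.Agent.W619.Y Pool.Agent.W824.PG Pool.Agent.TH122.AB MvPolynomial
  Pool.Agent.Y173.QA Pool.Agent.Y174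

namespace Pool.Agent.R885

section

variable {k K : Type} [Field k] [CharZero k] [Field K] [Algebra k K] {d : ℕ}

/-- regularity of integral elements at the places over the polynomials -/
theorem adic_int {Z : Fin d → K} {p : MvPolynomial (Fin d) k} {P : Place k K}
    (hP : Adic Z p P) {z : K} (hz : IsIntegral (Algebra.adjoin k (Set.range Z)) z) : P.Reg z := by
  refine P.reg_of_isIntegral (A := Algebra.adjoin k (Set.range Z)) (fun a => ?_) hz
  have ha : (a : K) ∈ (aeval Z : MvPolynomial (Fin d) k →ₐ[k] K).range := by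
    rw [← Algebra.adjoin_range_eq_range_aeval]
    exact a.2
  obtain ⟨R, hR⟩ := ha
  have h1 : algebraMap (Algebra.adjoin k (Set.range Z)) K a = aeval Z R := hR.symm
  rw [h1]
  exact adic_reg hP R

/-- a polynomial which vanishes along the places where some of finitely many functions are not
units -/
theorem exists_supp {Z : Fin d → K} (hZ : IsTranscendenceBasis k Z) (G : Finset K) :
    ∃ b : MvPolynomial (Fin d) k, b ≠ 0 ∧ ∀ (p : MvPolynomial (Fin d) k) (P : Place k K),
      Adic Z p P → (∃ g ∈ G, P.ord g ≠ 0) → 1 ≤ P.ord (aeval Z b) := by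
  classical
  have hne : ∀ q : MvPolynomial (Fin d) k, q ≠ 0 → aeval Z q ≠ 0 := fun q hq h0 =>
    hq ((injective_iff_map_eq_zero _).1 hZ.1 q h0)
  induction G using Finset.induction_on with
  | empty =>
    refine ⟨1, one_ne_zero, fun p P _ h => ?_⟩
    obtain ⟨g, hg, -⟩ := h
    exact absurd hg (Finset.notMem_empty g)
  | insert g G _ ih =>
    obtain ⟨b, hb, hbP⟩ := ih
    obtain ⟨Q, hQ, hQi⟩ := Pool.Agent.Y191.exists_multS (k := k) hZ g
    obtain ⟨Q', hQ', hQi'⟩ := Pool.Agent.Y191.exists_multS (k := k) hZ g⁻¹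
    refine ⟨b * (Q * Q'), mul_ne_zero hb (mul_ne_zero hQ hQ'), fun p P hP h => ?_⟩
    have h1 := (hP b hb).1
    have h2 := (hP Q hQ).1
    have h3 := (hP Q' hQ').1
    rw [map_mul, map_mul, P.ord_mul (hne b hb) (mul_ne_zero (hne Q hQ) (hne Q' hQ')),
      P.ord_mul (hne Q hQ) (hne Q' hQ')]
    obtain ⟨g', hg', hne'⟩ := h
    rcases Finset.mem_insert.1 hg' with rfl | hg'
    · have hg0 : g' ≠ 0 := by
        rintro rfl
        exact hne' P.ord_zero
      have h4 := (P.reg_iff (mul_ne_zero (hne Q hQ) hg0)).1 (adic_int hP hQi)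
      have h5 := (P.reg_iff (mul_ne_zero (hne Q' hQ') (inv_ne_zero hg0))).1 (adic_int hP hQi')
      rw [P.ord_mul (hne Q hQ) hg0] at h4
      rw [P.ord_mul (hne Q' hQ') (inv_ne_zero hg0), P.ord_inv] at h5
      omega
    · have := hbP p P hP ⟨g', hg', hne'⟩
      omega

/-- linear lower bound for the orders of the sections of pairs at a divisorial place -/
theorem pair_lin_bound {n : ℕ} (htr : Algebra.trdeg k K = n)
    (hfin : ∀ y : Fin n → K, IsTranscendenceBasis k y →
      FiniteDimensional (IntermediateField.adjoin k (Set.range y)) K)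
    {w : Place k K} (hw : IsDivisorial w n) (E : Fin n → Derivation k K K) (S : Finset K)
    (c : K) (δ : Place k K → ℝ) :
    ∃ C : ℕ, ∀ (m : ℕ) (ω : (Fin n → Derivation k K K) → K), 1 ≤ m →
      PairSec k K n δ S m 1 ω → Ge w (-((C * m : ℕ) : ℤ)) (c ^ m * ω E) := by
  classical
  obtain ⟨y, F, i0, hy, hFy, hi0, hyreg, hF⟩ := Pool.Agent.Y174.pFRAME k K n htr hfin w hw
  obtain ⟨M, hM⟩ : ∃ M : Matrix (Fin n) (Fin n) K, M = Matrix.of fun b c => E b (y c) := ⟨_, rfl⟩
  have hEF : E = fun b => ∑ c, M b c • F c := by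
    funext b
    rw [der_expand hy hFy (E b), hM]
    rfl
  obtain ⟨Dδ, hDδ⟩ := exists_nat_ge (δ w)
  obtain ⟨C, hC⟩ : ∃ C : ℕ, (w.ord c).natAbs + (w.ord M.det).natAbs +
    ∑ s ∈ S, (w.ord s).natAbs + Dδ ≤ C := ⟨_, le_rfl⟩
  refine ⟨C, fun m ω hm hω => ?_⟩
  have h1 := hω.1 M F
  rw [← hEF] at h1
  rw [h1]
  by_cases hc0 : c = 0
  · left
    rw [hc0, zero_pow (by omega), zero_mul]
  by_cases hM0 : M.det = 0
  · left
    rw [hM0, zero_pow (by omega), zero_mul, mul_zero]
  by_cases hF0 : ω F = 0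
  · left
    rw [hF0, mul_zero, mul_zero]
  obtain ⟨s, hs, hs0, hle⟩ := (hω.2 w hw F hF).resolve_left hF0
  right
  rw [w.ord_mul (pow_ne_zero _ hc0) (mul_ne_zero (pow_ne_zero _ hM0) hF0),
    w.ord_mul (pow_ne_zero _ hM0) hF0, w.ord_pow, w.ord_pow]
  have h2 : (w.ord s).natAbs ≤ ∑ s ∈ S, (w.ord s).natAbs :=
    Finset.single_le_sum (f := fun s => (w.ord s).natAbs) (fun _ _ => Nat.zero_le _) hs
  have h3 : ((w.ord c).natAbs : ℤ) + (w.ord M.det).natAbs + (w.ord s).natAbs + Dδ ≤ C := by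
    exact_mod_cast (by omega : (w.ord c).natAbs + (w.ord M.det).natAbs + (w.ord s).natAbs + Dδ ≤ C)
  have h4 : -((w.ord c).natAbs : ℤ) ≤ w.ord c := by omega
  have h5 : -((w.ord M.det).natAbs : ℤ) ≤ w.ord M.det := by omega
  have h6 : -((w.ord s).natAbs : ℤ) ≤ w.ord s := by omega
  have hm' : (1 : ℤ) ≤ m := by exact_mod_cast hm
  have hle' : w.ord s - m * Dδ ≤ w.ord (ω F) := by
    have h7 : (m : ℝ) * δ w ≤ m * Dδ := mul_le_mul_of_nonneg_left hDδ (Nat.cast_nonneg _)
    have h8 : ((w.ord s : ℤ) : ℝ) - m * Dδ ≤ ((w.ord (ω F) : ℤ) : ℝ) := by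
      rw [Nat.cast_one, one_mul] at hle
      linarith
    exact_mod_cast h8
  push_cast
  have h7 : (C : ℤ) * m ≥ (((w.ord c).natAbs : ℤ) + (w.ord M.det).natAbs +
      (w.ord s).natAbs + Dδ) * m := mul_le_mul_of_nonneg_right h3 (by linarith)
  have h8 : (m : ℤ) * (-((w.ord c).natAbs : ℤ)) ≤ m * w.ord c :=
    mul_le_mul_of_nonneg_left h4 (by linarith)
  have h9 : (m : ℤ) * (-((w.ord M.det).natAbs : ℤ)) ≤ m * w.ord M.det :=
    mul_le_mul_of_nonneg_left h5 (by linarith)
  have h10 : ((w.ord s).natAbs : ℤ) * 1 ≤ ((w.ord s).natAbs : ℤ) * m :=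
    mul_le_mul_of_nonneg_left hm' (by positivity)
  nlinarith

end

section

variable {k L K Λ F : Type} [Field k] [CharZero k] [Field L] [Field K] [Field Λ]
  [Field F] [Algebra k L] [Algebra k K] [Algebra L K] [IsScalarTower k L K] [Algebra L Λ]
  [Algebra Λ F] [Algebra K F] [Algebra L F] [IsScalarTower L Λ F] [IsScalarTower L K F]
  [Algebra k Λ] [Algebra k F] [IsScalarTower k Λ F] [IsScalarTower k K F]
  [IsScalarTower k L Λ]

/-- **The numerical dimension of a pair on the total space.** -/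
theorem pair_add (hessL : Algebra.EssFiniteType k L) (hess : Algebra.EssFiniteType k K)
    [Algebra.IsAlgebraic L Λ]
    (hgenF : IntermediateField.adjoin Λ (Set.range (algebraMap K F)) = ⊤)
    (hcl : ∀ x : K, IsIntegral L x → ∃ y : L, algebraMap L K y = x)
    {d r : ℕ} (hL : Algebra.trdeg k L = d) (hn : Algebra.trdeg k K = (d + (r + 1) : ℕ)) {h : ℕ}
    {δ : Place k K → ℝ} {δ' : Place Λ F → ℝ} (hδ : IsPullFib δ δ')
    (hnum : PairNum Λ F (r + 1) δ' h) {G : Finset K}
    (hG : ∀ P : Place k K, 0 < δ P → ∃ g ∈ G, P.ord g ≠ 0) (hδ1 : ∀ P : Place k K, δ P ≤ 1) :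
    PairNum k K (d + (r + 1)) δ (d + h) := by
  classical
  have hL0 : CharZero L := charZero_of_injective_algebraMap (algebraMap k L).injective
  have hΛ0 : CharZero Λ := charZero_of_injective_algebraMap (algebraMap k Λ).injective
  have hLK := trdeg_LK (L := L) hL hn
  obtain ⟨t, ht⟩ := Pool.Agent.W636.PG.exists_basis k L d hL
  obtain ⟨x, hx⟩ := Pool.Agent.W636.PG.exists_basis L K (r + 1) hLK
  have hZ := basis_append ht hx
  have hfdL := fin_adj hessL t ht
  have hfin : ∀ y : Fin (d + (r + 1)) → K, IsTranscendenceBasis k y →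
      FiniteDimensional (IntermediateField.adjoin k (Set.range y)) K :=
    fun y hy => fin_adj hess y hy
  have hfd := hfin _ hZ
  obtain ⟨E, hE⟩ := Pool.Agent.W636.PG.exists_duals k K (d + (r + 1)) _ hZ
  obtain ⟨b0, hb0, hbP⟩ := exists_supp hZ G
  intro S
  obtain ⟨C1, hC1⟩ := fib_count (Λ := Λ) (F := F) hess hgenF hcl hL hn ht hx hE hδ hnum S
  -- clearing the denominators
  choose q hq0 hq using fun i => exists_clear hZ hfd (E i)
  obtain ⟨c, hc⟩ : ∃ c : K, c = ∏ i, aeval (Fin.append (algebraMap L K ∘ t) x) (q i) := ⟨_, rfl⟩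
  have hc0 : c ≠ 0 := by
    rw [hc]
    refine Finset.prod_ne_zero_iff.2 fun i _ h0 => hq0 i ?_
    exact (injective_iff_map_eq_zero _).1 hZ.1 _ h0
  obtain ⟨b, hbd⟩ : ∃ b : K, b = aeval (Fin.append (algebraMap L K ∘ t) x) b0 := ⟨_, rfl⟩
  have hb : b ≠ 0 := by
    rw [hbd]
    intro h0
    exact hb0 ((injective_iff_map_eq_zero _).1 hZ.1 _ h0)
  have hcE : ∀ p : MvPolynomial (Fin (d + (r + 1))) k, Irreducible p → ∀ P : Place k K,
      Adic (Fin.append (algebraMap L K ∘ t) x) p P → ∀ i, Pres P (c • E i) := by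
    intro p hp P hP i f hf
    have h1 := hq i p hp P hP f hf
    rw [hc, ← Finset.mul_prod_erase Finset.univ _ (Finset.mem_univ i), mul_comm, mul_smul,
      Derivation.smul_apply, smul_eq_mul]
    refine P.reg_mul ?_ h1
    have h2 : (∏ j ∈ Finset.univ.erase i,
        aeval (Fin.append (algebraMap L K ∘ t) x) (q j)) ∈ regRing P :=
      prod_mem fun j _ => adic_reg hP (q j)
    exact h2
  obtain ⟨T, hTfin, hTdeg, C2, c2, hC2⟩ := count_rel ht hx hfd hfdL S
  -- the bound at infinity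
  have hlb : ∀ P : Place k K, IsDivisorial P (d + (r + 1)) → ∃ C : ℕ,
      ∀ (m : ℕ) (ω : (Fin (d + (r + 1)) → Derivation k K K) → K), 1 ≤ m →
      PairSec k K (d + (r + 1)) δ S m 1 ω →
        Ge P (-((C * m : ℕ) : ℤ)) ((c ^ (d + (r + 1)) * b) ^ m * ω E) :=
    fun P hP => pair_lin_bound hn hfin hP E S (c ^ (d + (r + 1)) * b) δ
  have hdivT : ∀ b, ∀ P ∈ T b, IsDivisorial P (d + (r + 1)) := by
    intro b P hP
    obtain ⟨e, he, hdeg⟩ := hTdeg b P hP
    refine div_of_deg hZ.1 (b := b) fun f hf hf0 => ?_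
    rw [hdeg f hf, hf0]
    simp
  obtain ⟨C3, hC3⟩ : ∃ C3 : ℕ, ∀ b', ∀ P ∈ T b', ∀ (m : ℕ)
      (ω : (Fin (d + (r + 1)) → Derivation k K K) → K), 1 ≤ m →
      PairSec k K (d + (r + 1)) δ S m 1 ω →
        Ge P (-((C3 * m : ℕ) : ℤ)) ((c ^ (d + (r + 1)) * b) ^ m * ω E) := by
    choose Cf hCf using hlb
    have hfin2 : (⋃ b, T b).Finite := Set.finite_iUnion hTfin
    have := hfin2.fintype
    let g : (⋃ b, T b) → ℕ := fun P => Cf P.1 (by
      obtain ⟨b, hb⟩ := Set.mem_iUnion.1 P.2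
      exact hdivT b P.1 hb)
    refine ⟨∑ P, g P, fun b' P hP m ω hm hω => ?_⟩
    have hPm : P ∈ ⋃ b, T b := Set.mem_iUnion.2 ⟨b', hP⟩
    have h1 := hCf P (hdivT b' P hP) m ω hm hω
    refine h1.mono ?_
    have h2 : g ⟨P, hPm⟩ ≤ ∑ P, g P :=
      Finset.single_le_sum (fun _ _ => Nat.zero_le _) (Finset.mem_univ _)
    have h3 : Cf P (hdivT b' P hP) * m ≤ (∑ P, g P) * m := Nat.mul_le_mul_right _ h2
    have h4 : ((Cf P (hdivT b' P hP) * m : ℕ) : ℤ) ≤ (((∑ P, g P) * m : ℕ) : ℤ) := by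
      exact_mod_cast h3
    exact neg_le_neg h4
  have hexp : ∀ D : Derivation k K K, ∃ a : Fin (d + (r + 1)) → K, D = ∑ i, a i • E i :=
    fun D => ⟨_, der_expand hZ hE D⟩
  refine ⟨C2 * C1 * (C3 + c2) ^ d, fun m N hm hI => ?_⟩
  obtain ⟨ω, hli, hω⟩ := hI
  have hcm : (c ^ (d + (r + 1)) * b) ^ m ≠ 0 := pow_ne_zero _ (mul_ne_zero (pow_ne_zero _ hc0) hb)
  have hlin := lin_frame (fun D => hexp D) hli (fun l => (hω l).1) hcm
  have hrk : Module.finrank L (Submodule.span L (Set.range fun l =>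
      (c ^ (d + (r + 1)) * b) ^ m * ω l E)) ≤ C1 * m ^ h := by
    have h1 := hC1 m N hm ω fun l => hω l
    have h2 : Submodule.span L (Set.range fun l => (c ^ (d + (r + 1)) * b) ^ m * ω l E) =
        (Submodule.span L (Set.range fun l => ω l E)).map
          (LinearMap.mulLeft L ((c ^ (d + (r + 1)) * b) ^ m)) := by
      rw [Submodule.map_span, ← Set.range_comp]
      rfl
    rw [h2]
    have h3 : FiniteDimensional L (Submodule.span L (Set.range fun l => ω l E)) :=
      FiniteDimensional.span_of_finite L (Set.finite_range _)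
    exact (Submodule.finrank_map_le _ _).trans h1
  have h1 := hC2 (fun _ => C3 * m) N (C1 * m ^ h) _ hlin hrk (fun l p hp P hP => ?_)
    fun l b' P hP => hC3 b' P hP m (ω l) hm (hω l)
  · refine h1.trans ?_
    rw [Finset.prod_const, Finset.card_univ, Fintype.card_fin]
    have h2 : C3 * m + c2 ≤ (C3 + c2) * m := by
      rw [Nat.add_mul]
      have := Nat.le_mul_of_pos_right c2 hm
      omega
    have h3 : (C3 * m + c2) ^ d ≤ (C3 + c2) ^ d * m ^ d := by
      rw [← Nat.mul_pow]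
      exact Nat.pow_le_pow_left h2 d
    calc C2 * (C1 * m ^ h) * (C3 * m + c2) ^ d ≤
        C2 * (C1 * m ^ h) * ((C3 + c2) ^ d * m ^ d) := Nat.mul_le_mul_left _ h3
      _ = C2 * C1 * (C3 + c2) ^ d * m ^ (d + h) := by
        rw [pow_add]
        ring
  · change Dom P S 1 ((c ^ (d + (r + 1)) * b) ^ m * ω l E)
    have h2 : (c ^ (d + (r + 1)) * b) ^ m * ω l E =
        b ^ m * ω l (fun i => c • E i) := by
      rw [phi_smul (hω l).1 c E, mul_pow]
      ring
    rw [h2]
    rcases (hω l).2 P (adic_div hZ.1 hp hP) _ (fun i f hf => hcE p hp P hP i f hf) with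
      h3 | ⟨s, hs, hs0, hle⟩
    · left
      rw [h3, mul_zero]
    · by_cases h4 : ω l (fun i => c • E i) = 0
      · left
        rw [h4, mul_zero]
      right
      refine ⟨s, hs, hs0, ?_⟩
      rw [P.ord_mul (pow_ne_zero _ hb) h4, P.ord_pow]
      have hb1 : 0 ≤ P.ord b := by
        rw [hbd]
        exact (hP b0 hb0).1
      have h5 : (m : ℝ) * δ P ≤ m * ((P.ord b : ℤ) : ℝ) := by
        refine mul_le_mul_of_nonneg_left ?_ (Nat.cast_nonneg _)
        by_cases hpos : 0 < δ P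
        · have h6 := hbP p P hP (hG P hpos)
          rw [← hbd] at h6
          have h7 : (1 : ℝ) ≤ ((P.ord b : ℤ) : ℝ) := by exact_mod_cast h6
          exact (hδ1 P).trans h7
        · push Not at hpos
          have h7 : (0 : ℝ) ≤ ((P.ord b : ℤ) : ℝ) := by exact_mod_cast hb1
          linarith
      have h6 : (((1 : ℕ) : ℤ) : ℝ) * ((P.ord s : ℤ) : ℝ) ≤ ((m * P.ord b +
          P.ord (ω l fun i => c • E i) : ℤ) : ℝ) := by
        push_cast
        push_cast at hle
        linarith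
      exact_mod_cast h6

end

end Pool.Agent.R885
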