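import Pool.Agent.R885.G8
import Pool.Agent.Y172.Cov1

/-!
The generic fibre of the map given by algebraically independent functions, for pairs.
-/

set_option autoImplicit false
set_option linter.overlappingInstances false
set_option linter.unusedSectionVars false

open FF IntermediateField Pool.Agent.W619.PQ Pool.Agent.W619.PL Pool.Agent.W619.TW
  Pool.Agent.W603.LV Pool.Agent.Y174

namespace Pool.Agent.R885

theorem liesFib_unique {k K Λ F : Type} [Field k] [Field K] [Field Λ] [Field F] [Algebra k K]
    [Algebra Λ F] [Algebra K F] {w : Place Λ F} {v v' : Place k K} {e e' : ℕ}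
    (h : LiesFib w v e) (h' : LiesFib w v' e') : v = v' ∧ e = e' := by
  have h1 : ∀ f, (e : ℤ) * v.ord f = e' * v'.ord f := fun f => by rw [← h.2, ← h'.2]
  obtain ⟨t, -, ht⟩ := v.surj
  obtain ⟨t', -, ht'⟩ := v'.surj
  have h2 := h1 t
  have h3 := h1 t'
  rw [ht, mul_one] at h2
  rw [ht', mul_one] at h3
  have h4 : (e' : ℤ) ∣ e := ⟨_, h2⟩
  have h5 : (e : ℤ) ∣ e' := ⟨_, h3.symm⟩
  have h6 : e = e' := Nat.dvd_antisymm (Int.natCast_dvd_natCast.1 h5) (Int.natCast_dvd_natCast.1 h4)
  subst h6
  refine ⟨?_, rfl⟩
  have he : (e : ℤ) ≠ 0 := by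
    have := h.1
    omega
  have h7 : v.ord = v'.ord := funext fun f => mul_left_cancel₀ he (h1 f)
  exact Place.ext h7

/-- **The numerical dimension of a pair through the generic fibre.** -/
theorem pair_gen {k K : Type} [Field k] [CharZero k] [Field K] [Algebra k K]
    (hess : Algebra.EssFiniteType k K) {d m : ℕ} {t : Fin d → K} (ht : AlgebraicIndependent k t)
    (htr : Algebra.trdeg k K = (d + (m + 1) : ℕ)) {h : ℕ} {δ : Place k K → ℝ} {G : Finset K}
    (hG : ∀ P : Place k K, 0 < δ P → ∃ g ∈ G, P.ord g ≠ 0) (hδ1 : ∀ P : Place k K, δ P ≤ 1)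
    (H : ∀ (Λ F : Type) [Field Λ] [IsAlgClosed Λ] [Algebra k Λ] [Field F] [Algebra Λ F]
      [Algebra k F] [IsScalarTower k Λ F] (φ : K →ₐ[k] F),
      IntermediateField.adjoin Λ (Set.range φ) = ⊤ → Algebra.trdeg Λ F = (m + 1 : ℕ) →
      ∀ t' : Fin d → Λ, AlgebraicIndependent k t' → (∀ j, algebraMap Λ F (t' j) = φ (t j)) →
      (∀ z : K, IsAlgebraic (IntermediateField.adjoin k (Set.range t)) z →
        ∃ a : Λ, algebraMap Λ F a = φ z) →
      ∀ δ' : Place Λ F → ℝ, (∀ w, (∃ (v : Place k K) (e : ℕ), 0 < e ∧
        (∀ z, w.ord (φ z) = e * v.ord z) ∧ δ' w = max 0 (1 - e * (1 - δ v))) ∨ δ' w = 0) →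
      PairNum Λ F (m + 1) δ' h) :
    PairNum k K (d + (m + 1)) δ (d + h) := by
  classical
  let E : IntermediateField k K := IntermediateField.adjoin k (Set.range t)
  have hessE : Algebra.EssFiniteType k E := by
    rw [IntermediateField.essFiniteType_iff]
    exact ⟨Finset.univ.image t, by rw [Finset.coe_image, Finset.coe_univ, Set.image_univ]⟩
  have hessEK : Algebra.EssFiniteType E K := Algebra.EssFiniteType.of_comp k E K
  let L0 : IntermediateField E K := algebraicClosure E K
  have hfinL0 : FiniteDimensional E L0 := fin_algClosure E K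
  have hessL0 : Algebra.EssFiniteType k L0 := by
    have h1 : Algebra.EssFiniteType E L0 := inferInstance
    exact Algebra.EssFiniteType.comp k E L0
  let L : IntermediateField k K := L0.restrictScalars k
  have hmem : ∀ z : K, z ∈ L ↔ IsAlgebraic E z := fun z => mem_algebraicClosure_iff
  have hessL : Algebra.EssFiniteType k L := hessL0
  have htL : ∀ j, t j ∈ L := by
    intro j
    rw [hmem]
    exact isAlgebraic_algebraMap (R := E) (A := K)
      ⟨t j, IntermediateField.subset_adjoin _ _ ⟨j, rfl⟩⟩
  have hELe : E ≤ L := by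
    intro z hz
    rw [hmem]
    exact isAlgebraic_algebraMap (R := E) (A := K) ⟨z, hz⟩
  let tL : Fin d → L := fun j => ⟨t j, htL j⟩
  have htLind : AlgebraicIndependent k tL := AlgebraicIndependent.of_comp L.val ht
  -- the transcendence degree of `L`
  have hLbas : IsTranscendenceBasis k tL := by
    have halg : Algebra.IsAlgebraic (IntermediateField.adjoin k (Set.range tL)) L := by
      constructor
      intro z
      have hz : IsAlgebraic E (z : K) := (hmem z).1 z.2
      obtain ⟨p, hp0, hp⟩ := hz
      -- the field `E` inside `L`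
      have hE' : ∀ c : E, ∃ c' : IntermediateField.adjoin k (Set.range tL),
          (((c' : L) : K)) = (c : K) := by
        intro c
        have h1 : E = (IntermediateField.adjoin k (Set.range tL)).map L.val := by
          change IntermediateField.adjoin k (Set.range t) = _
          rw [IntermediateField.adjoin_map]
          congr 1
          ext z
          simp only [Set.mem_range, Set.mem_image]
          constructor
          · rintro ⟨j, rfl⟩
            exact ⟨tL j, ⟨j, rfl⟩, rfl⟩
          · rintro ⟨_, ⟨j, rfl⟩, rfl⟩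
            exact ⟨j, rfl⟩
        have h2 : (c : K) ∈ (IntermediateField.adjoin k (Set.range tL)).map L.val := by
          rw [← h1]
          exact c.2
        obtain ⟨c', hc', hc''⟩ := h2
        exact ⟨⟨c', hc'⟩, hc''⟩
      choose g hg using hE'
      have hginj : ∀ c, g c = 0 → c = 0 := by
        intro c hc
        apply Subtype.ext
        rw [← hg c, hc]
        rfl
      let gh : E →+* IntermediateField.adjoin k (Set.range tL) :=
        { toFun := g
          map_one' := by
            apply Subtype.ext
            apply Subtype.ext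
            rw [hg]
            rfl
          map_mul' := fun a b => by
            apply Subtype.ext
            apply Subtype.ext
            rw [hg]
            change (a : K) * b = ((g a : L) : K) * ((g b : L) : K)
            rw [hg, hg]
          map_zero' := by
            apply Subtype.ext
            apply Subtype.ext
            rw [hg]
            rfl
          map_add' := fun a b => by
            apply Subtype.ext
            apply Subtype.ext
            rw [hg]
            change (a : K) + b = ((g a : L) : K) + ((g b : L) : K)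
            rw [hg, hg] }
      refine ⟨p.map gh, ?_, ?_⟩
      · rw [Ne, Polynomial.map_eq_zero]
        exact hp0
      · apply Subtype.ext
        rw [Polynomial.aeval_def, Polynomial.eval₂_map]
        have h2 := Polynomial.hom_eval₂ p ((algebraMap
          (IntermediateField.adjoin k (Set.range tL)) L).comp gh) (L.val : L →+* K) z
        change L.val _ = _
        rw [ZeroMemClass.coe_zero]
        refine h2.trans ?_
        rw [← hp, Polynomial.aeval_def]
        congr 1
        ext c
        exact hg c
    exact basis_of_ind htLind halg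
  have hLtr : Algebra.trdeg k L = d := Pool.Agent.W602.GT.trdeg_of_basis hLbas
  have hcl : ∀ z : K, IsIntegral L z → ∃ y : L, algebraMap L K y = z := by
    intro z hz
    have h1 : IsAlgebraic L0 z := (show IsIntegral L0 z from hz).isAlgebraic
    have h2 : IsAlgebraic E z := by
      have : Algebra.IsAlgebraic E L0 := inferInstance
      exact h1.restrictScalars E
    exact ⟨⟨z, (hmem z).2 h2⟩, rfl⟩
  -- the fibre
  let Ω := AlgebraicClosure K
  let Λ : IntermediateField L Ω := algebraicClosure L Ω
  have hΛ : IsAlgClosed Λ := (algebraicClosure.isAlgClosure L Ω).isAlgClosed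
  have hΛalg : Algebra.IsAlgebraic L Λ := inferInstance
  let F : IntermediateField Λ Ω := IntermediateField.adjoin Λ (Set.range (algebraMap K Ω))
  have hTL : IsScalarTower k L Ω := IsScalarTower.of_algebraMap_eq fun z => by
    rw [IsScalarTower.algebraMap_apply k K Ω]
    rfl
  have hTΛ : IsScalarTower k Λ Ω := IsScalarTower.of_algebraMap_eq fun z => by
    rw [IsScalarTower.algebraMap_apply k L Ω]
    rfl
  let φ0 : K →+* F :=
    { toFun := fun z => ⟨algebraMap K Ω z, IntermediateField.subset_adjoin _ _ ⟨z, rfl⟩⟩
      map_one' := Subtype.ext (map_one _)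
      map_mul' := fun a b => Subtype.ext (map_mul _ _ _)
      map_zero' := Subtype.ext (map_zero _)
      map_add' := fun a b => Subtype.ext (map_add _ _ _) }
  let iKF : Algebra K F := φ0.toAlgebra
  have hKF : ∀ z : K, ((algebraMap K F z : F) : Ω) = algebraMap K Ω z := fun z => rfl
  have hT1 : IsScalarTower L K F := IsScalarTower.of_algebraMap_eq fun z => Subtype.ext rfl
  have hT2 : IsScalarTower k K F := IsScalarTower.of_algebraMap_eq fun z => by
    apply Subtype.ext
    rw [hKF, ← IsScalarTower.algebraMap_apply k K Ω]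
    rfl
  have hT3 : IsScalarTower k L Λ := inferInstance
  have hT4 : IsScalarTower L Λ F := IsScalarTower.of_algebraMap_eq fun z => Subtype.ext rfl
  have hT5 : IsScalarTower k Λ F := inferInstance
  have hgenF : IntermediateField.adjoin Λ (Set.range (algebraMap K F)) = ⊤ := by
    have h1 : (IntermediateField.adjoin Λ (Set.range (algebraMap K F))).map F.val =
        (⊤ : IntermediateField Λ F).map F.val := by
      rw [IntermediateField.adjoin_map, ← AlgHom.fieldRange_eq_map,
        IntermediateField.fieldRange_val]
      congr 1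
      ext z
      simp only [Set.mem_image, Set.mem_range]
      constructor
      · rintro ⟨_, ⟨y, rfl⟩, rfl⟩
        exact ⟨y, rfl⟩
      · rintro ⟨y, rfl⟩
        exact ⟨_, ⟨y, rfl⟩, rfl⟩
    exact IntermediateField.map_injective _ h1
  have htrF : Algebra.trdeg Λ F = (m + 1 : ℕ) :=
    trdeg_F (L := L) (K := K) (trdeg_LK (L := L) hLtr htr) hgenF
  let δ' : Place Λ F → ℝ := fun w => if hw : ∃ ve : Place k K × ℕ, LiesFib w ve.1 ve.2 then
    max 0 (1 - hw.choose.2 * (1 - δ hw.choose.1)) else 0
  have hpull : IsPullFib δ δ' := by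
    intro v w e hve
    have hw : ∃ ve : Place k K × ℕ, LiesFib w ve.1 ve.2 := ⟨(v, e), hve⟩
    have h1 : δ' w = max 0 (1 - hw.choose.2 * (1 - δ hw.choose.1)) := dif_pos hw
    obtain ⟨h2, h3⟩ := liesFib_unique hw.choose_spec hve
    rw [h1, h2, h3]
  have hδ' : ∀ w, (∃ (v : Place k K) (e : ℕ), 0 < e ∧
      (∀ z, w.ord (IsScalarTower.toAlgHom k K F z) = e * v.ord z) ∧
        δ' w = max 0 (1 - e * (1 - δ v))) ∨ δ' w = 0 := by
    intro w
    by_cases hw : ∃ ve : Place k K × ℕ, LiesFib w ve.1 ve.2
    · obtain ⟨⟨v, e⟩, hve⟩ := hw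
      exact Or.inl ⟨v, e, hve.1, hve.2, hpull v w e hve⟩
    · exact Or.inr (dif_neg hw)
  have key := H Λ F (IsScalarTower.toAlgHom k K F) hgenF htrF (fun j => algebraMap L Λ (tL j))
    (htLind.map' (f := IsScalarTower.toAlgHom k L Λ) (algebraMap L Λ).injective)
    (fun j => Subtype.ext rfl) (fun z hz => ⟨algebraMap L Λ ⟨z, (hmem z).2 hz⟩, Subtype.ext rfl⟩)
    δ' hδ'
  exact pair_add (L := L) (Λ := Λ) (F := F) hessL hess hgenF hcl hLtr htr hpull key hG hδ1

end Pool.Agent.R885
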