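import Mathlib

/-!
Linear algebra: completion of independent vectors, orthogonal systems.
-/

set_option autoImplicit false
set_option linter.overlappingInstances false
set_option linter.unusedSectionVars false

open Module

namespace Pool.Agent.R885

section

variable {κ : Type} [Field κ]

/-- completion of an independent family by members of a generating family -/
theorem exists_ext {V J ι' : Type} [AddCommGroup V] [Module κ V] [FiniteDimensional κ V]
    [Fintype J] {a : J → V} (ha : LinearIndependent κ a) {U : Submodule κ V} {t : ι' → V}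
    (haU : ∀ j, a j ∈ U) (ht : Submodule.span κ (Set.range t) = U) {m : ℕ}
    (hm : finrank κ U = Fintype.card J + m) :
    ∃ i : Fin m → ι', LinearIndependent κ (Sum.elim a (t ∘ i)) := by
  classical
  obtain ⟨b, hbt, hsb, htb, hb⟩ := exists_linearIndepOn_id_extension
    (s := Set.range a) (t := Set.range a ∪ Set.range t) ha.linearIndepOn_id
    Set.subset_union_left
  have hspan : Submodule.span κ b = U := by
    apply le_antisymm
    · refine Submodule.span_le.2 (hbt.trans (Set.union_subset ?_ ?_))
      · rintro _ ⟨j, rfl⟩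
        exact haU j
      · rw [← ht]
        exact Submodule.subset_span
    · rw [← ht]
      exact Submodule.span_le.2 (Set.subset_union_right.trans htb)
  have hbfin : b.Finite := hb.setFinite
  have : Fintype b := hbfin.fintype
  have hcard : Fintype.card b = Fintype.card J + m := by
    rw [← hm, ← hspan]
    have h1 := finrank_span_eq_card (R := κ) (b := ((↑) : b → V)) hb
    rw [Subtype.range_coe] at h1
    exact h1.symm
  -- the new vectors
  let c : Set V := b \ Set.range a
  have hcfin : c.Finite := hbfin.subset Set.sdiff_subset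
  have : Fintype c := hcfin.fintype
  have hcc : Fintype.card c = m := by
    have h1 : (Set.range a).ncard = Fintype.card J := by
      rw [← Nat.card_coe_set_eq, Nat.card_range_of_injective ha.injective,
        Nat.card_eq_fintype_card]
    have h2 := Set.ncard_sdiff_add_ncard_of_subset hsb hbfin
    rw [h1] at h2
    have h3 : b.ncard = Fintype.card b := by
      rw [← Nat.card_coe_set_eq, Nat.card_eq_fintype_card]
    have h4 : (b \ Set.range a).ncard = Fintype.card c := by
      rw [← Nat.card_coe_set_eq, Nat.card_eq_fintype_card]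
    omega
  let g : Fin m ≃ c := (Fintype.equivFinOfCardEq hcc).symm
  have hct : ∀ z : c, ∃ i, t i = z := by
    rintro ⟨z, hz1, hz2⟩
    rcases hbt hz1 with h | h
    · exact absurd h hz2
    · exact h
  choose i0 hi0 using hct
  refine ⟨fun j => i0 (g j), ?_⟩
  have h1 : t ∘ (fun j => i0 (g j)) = fun j => ((g j : c) : V) := funext fun j => hi0 (g j)
  rw [h1]
  -- injectivity into b
  let F : J ⊕ Fin m → b := Sum.elim (fun j => ⟨a j, hsb ⟨j, rfl⟩⟩) fun j => ⟨(g j : V), (g j).2.1⟩
  have hF : Function.Injective F := by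
    rintro (j | j) (j' | j') h
    · exact congrArg _ (ha.injective (congrArg Subtype.val h))
    · exfalso
      have h2 : a j = ((g j' : c) : V) := congrArg Subtype.val h
      exact (g j').2.2 ⟨j, h2⟩
    · exfalso
      have h2 : ((g j : c) : V) = a j' := congrArg Subtype.val h
      exact (g j).2.2 ⟨j', h2.symm⟩
    · have h2 : ((g j : c) : V) = (g j' : c) := congrArg (fun z : b => (z : V)) h
      exact congrArg _ (g.injective (Subtype.ext h2))
  have h2 : LinearIndependent κ ((fun z : b => (z : V)) ∘ F) := LinearIndependent.comp hb F hF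
  have h3 : (fun z : b => (z : V)) ∘ F = Sum.elim a fun j => ((g j : c) : V) := by
    funext z
    rcases z with j | j <;> rfl
  rwa [h3] at h2

variable {ι : Type} [Fintype ι]

theorem rank_le {A B : Type} [Fintype A] [Fintype B] {a : A → ι → κ} {b : B → ι → κ}
    (ha : LinearIndependent κ a) (hb : LinearIndependent κ b)
    (hab : ∀ i j, a i ⬝ᵥ b j = 0) : Fintype.card A + Fintype.card B ≤ Fintype.card ι := by
  classical
  let M : Matrix A ι κ := Matrix.of a
  have h1 : M.rank = Fintype.card A := LinearIndependent.rank_matrix ha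
  have h2 : finrank κ (LinearMap.range M.mulVecLin) = Fintype.card A := h1
  have h3 := LinearMap.finrank_range_add_finrank_ker M.mulVecLin
  rw [h2, finrank_fintype_fun_eq_card] at h3
  have hker : ∀ j, b j ∈ LinearMap.ker M.mulVecLin := by
    intro j
    rw [LinearMap.mem_ker, Matrix.mulVecLin_apply]
    funext i
    exact hab i j
  have h4 : LinearIndependent κ fun j => (⟨b j, hker j⟩ : LinearMap.ker M.mulVecLin) :=
    LinearIndependent.of_comp (LinearMap.ker M.mulVecLin).subtype hb
  have h5 := h4.fintype_card_le_finrank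
  omega

theorem complete_zero {J : Type} [Fintype J] {a : J → ι → κ} (ha : LinearIndependent κ a) {n : ℕ}
    (hc : Fintype.card ι = Fintype.card J + n) :
    ∃ C : Fin n → ι → ℤ, LinearIndependent κ (Sum.elim a fun b i => (C b i : κ)) := by
  classical
  obtain ⟨i, hi⟩ := exists_ext ha (U := ⊤) (t := fun i : ι => (Pi.single i 1 : ι → κ))
    (fun _ => trivial) (by
      have h := (Pi.basisFun κ ι).span_eq
      have h2 : (⇑(Pi.basisFun κ ι)) = fun i : ι => (Pi.single i 1 : ι → κ) := by
        funext i
        exact Pi.basisFun_apply κ ι i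
      rwa [h2] at h) (m := n) (by
      rw [finrank_top, finrank_fintype_fun_eq_card, hc])
  refine ⟨fun b => Pi.single (i b) 1, ?_⟩
  have h1 : ((fun i : ι => (Pi.single i 1 : ι → κ)) ∘ i) =
      fun b j => ((Pi.single (i b) 1 : ι → ℤ) j : κ) := by
    funext b j
    change (Pi.single (i b) 1 : ι → κ) j = _
    by_cases h : j = i b
    · subst h
      rw [Pi.single_eq_same, Pi.single_eq_same, Int.cast_one]
    · rw [Pi.single_eq_of_ne h, Pi.single_eq_of_ne h, Int.cast_zero]
  rwa [h1] at hi

theorem complete_s {J : Type} [Fintype J] {a : J → ι → κ} (ha : LinearIndependent κ a) {m : ℕ}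
    (hc : Fintype.card ι = Fintype.card J + (m + 1)) {s c1 : ι → ℤ} (hs : c1 ⬝ᵥ s = 1)
    (has : ∀ l, a l ⬝ᵥ (fun i => (s i : κ)) = 0) :
    ∃ C : Fin (m + 1) → ι → ℤ, C 0 = c1 ∧ (∀ b : Fin m, C b.succ ⬝ᵥ s = 0) ∧
      LinearIndependent κ (Sum.elim a fun b i => (C b i : κ)) := by
  classical
  let sk : ι → κ := fun i => (s i : κ)
  let ck : ι → κ := fun i => (c1 i : κ)
  have hcs : ck ⬝ᵥ sk = 1 := by
    have h := congrArg (Int.cast : ℤ → κ) hs
    rw [Int.cast_one] at h
    rw [← h]
    unfold dotProduct
    push_cast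
    rfl
  let φ : (ι → κ) →ₗ[κ] κ :=
    { toFun := fun z => z ⬝ᵥ sk
      map_add' := fun a b => add_dotProduct a b sk
      map_smul' := fun c a => by rw [smul_dotProduct]; rfl }
  have hφ : ∀ z, φ z = z ⬝ᵥ sk := fun _ => rfl
  have hrange : LinearMap.range φ = ⊤ := by
    rw [LinearMap.range_eq_top]
    intro c
    refine ⟨c • ck, ?_⟩
    rw [map_smul, hφ, hcs, smul_eq_mul, mul_one]
  have h3 := LinearMap.finrank_range_add_finrank_ker φ
  rw [hrange, finrank_top, finrank_self, finrank_fintype_fun_eq_card, hc] at h3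
  let t : ι → ι → ℤ := fun i => Pi.single i 1 - s i • c1
  let tk : ι → ι → κ := fun i j => ((t i j : ℤ) : κ)
  have htk : ∀ i, tk i = Pi.single i 1 - sk i • ck := by
    intro i
    funext j
    change (((Pi.single i 1 - s i • c1 : ι → ℤ) j : ℤ) : κ) = _
    rw [Pi.sub_apply, Pi.sub_apply, Pi.smul_apply, Pi.smul_apply, smul_eq_mul, smul_eq_mul]
    push_cast
    congr 1
    by_cases h : j = i
    · subst h
      rw [Pi.single_eq_same, Pi.single_eq_same, Int.cast_one]
    · rw [Pi.single_eq_of_ne h, Pi.single_eq_of_ne h, Int.cast_zero]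
  have hts : ∀ i, t i ⬝ᵥ s = 0 := by
    intro i
    change (Pi.single i 1 - s i • c1) ⬝ᵥ s = 0
    rw [sub_dotProduct, smul_dotProduct, hs, single_dotProduct, one_mul, smul_eq_mul, mul_one,
      sub_self]
  have htks : ∀ i, tk i ⬝ᵥ sk = 0 := by
    intro i
    rw [htk, sub_dotProduct, smul_dotProduct, hcs, single_dotProduct, one_mul, smul_eq_mul,
      mul_one, sub_self]
  have hspan : Submodule.span κ (Set.range tk) = LinearMap.ker φ := by
    apply le_antisymm
    · rw [Submodule.span_le]
      rintro _ ⟨i, rfl⟩
      exact htks i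
    · intro z hz
      have hz' : z ⬝ᵥ sk = 0 := hz
      have h1 : z = ∑ i, z i • tk i := by
        have h2 : ∑ i, z i • tk i = (∑ i, z i • (Pi.single i 1 : ι → κ)) - (z ⬝ᵥ sk) • ck := by
          unfold dotProduct
          rw [Finset.sum_smul, ← Finset.sum_sub_distrib]
          refine Finset.sum_congr rfl fun i _ => ?_
          rw [htk, smul_sub, smul_smul]
        rw [h2, hz', zero_smul, sub_zero]
        exact pi_eq_sum_univ' z
      rw [h1]
      exact Submodule.sum_mem _ fun i _ => Submodule.smul_mem _ _ (Submodule.subset_span ⟨i, rfl⟩)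
  obtain ⟨i, hi⟩ := exists_ext ha (U := LinearMap.ker φ) (t := tk) (fun l => has l) hspan (m := m)
    (by omega)
  refine ⟨Fin.cons c1 fun b => t (i b), rfl, fun b => hts _, ?_⟩
  rw [Fintype.linearIndependent_iff] at hi ⊢
  intro g hg
  have hg' : (∑ l, g (Sum.inl l) • a l) + (g (Sum.inr 0) • ck +
      ∑ b : Fin m, g (Sum.inr b.succ) • tk (i b)) = 0 := by
    rw [← hg, Fintype.sum_sum_type, Fin.sum_univ_succ]
    rfl
  have h0 : g (Sum.inr 0) = 0 := by
    have h4 := congrArg φ hg'
    rw [map_add, map_add, map_sum, map_sum, map_zero, map_smul] at h4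
    simp only [map_smul, hφ] at h4
    rw [Finset.sum_eq_zero fun l _ => by
      rw [smul_dotProduct, show a l ⬝ᵥ sk = 0 from has l, smul_zero],
      Finset.sum_eq_zero fun b _ => by rw [smul_dotProduct, htks, smul_zero], zero_add, add_zero, hcs,
      smul_eq_mul, mul_one] at h4
    exact h4
  have h1 := hi (fun z => Sum.elim (fun l => g (Sum.inl l)) (fun b => g (Sum.inr b.succ)) z) (by
    rw [Fintype.sum_sum_type]
    rw [h0, zero_smul, zero_add] at hg'
    exact hg')
  rintro (l | b)
  · exact h1 (Sum.inl l)
  · refine Fin.cases h0 (fun b => ?_) b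
    exact h1 (Sum.inr b)

end

end Pool.Agent.R885
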