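import Pool.Agent.R885.Om

/-!
The local ring at the centre of a place on a toric chart; vector fields on a complete intersection.
-/

set_option autoImplicit false
set_option linter.overlappingInstances false
set_option linter.unusedSectionVars false

open FF Pool.Agent.W603.LV Pool.Agent.W619.PQ

namespace Pool.Agent.R885

section

variable {k K : Type} [Field k] [Field K] [Algebra k K] {r : ℕ}

/-- the ring of the toric chart -/
def A0 (P : Place k K) (x : Fin r → K) : Subring K :=
  Subring.closure (Set.range (algebraMap k K) ∪ {z | ∃ w, 0 ≤ w ⬝ᵥ vec P x ∧ z = mono x w})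

theorem const_mem (P : Place k K) (x : Fin r → K) (c : k) : algebraMap k K c ∈ A0 P x :=
  Subring.subset_closure (Or.inl ⟨c, rfl⟩)

theorem mono_mem (P : Place k K) (x : Fin r → K) {w : Fin r → ℤ} (hw : 0 ≤ w ⬝ᵥ vec P x) :
    mono x w ∈ A0 P x := Subring.subset_closure (Or.inr ⟨w, hw, rfl⟩)

theorem A0_reg (P : Place k K) {x : Fin r → K} (hx : ∀ i, x i ≠ 0) {z : K} (hz : z ∈ A0 P x) :
    P.Reg z := by
  have h : A0 P x ≤ P.O.toSubring := by
    unfold A0
    rw [Subring.closure_le]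
    rintro z (⟨c, rfl⟩ | ⟨w, hw, rfl⟩)
    · exact P.reg_const c
    · exact reg_mono P hx hw
  exact h hz

/-- the local ring -/
def AA (P : Place k K) (x : Fin r → K) : Subring K where
  carrier := {z | ∃ a ∈ A0 P x, ∃ b ∈ A0 P x, b ≠ 0 ∧ P.ord b = 0 ∧ z * b = a}
  mul_mem' := by
    rintro z z' ⟨a, ha, b, hb, hb0, hb1, h⟩ ⟨a', ha', b', hb', hb0', hb1', h'⟩
    refine ⟨a * a', mul_mem ha ha', b * b', mul_mem hb hb', mul_ne_zero hb0 hb0', ?_, ?_⟩
    · rw [P.ord_mul hb0 hb0', hb1, hb1', add_zero]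
    · rw [← h, ← h']
      ring
  one_mem' := ⟨1, one_mem _, 1, one_mem _, one_ne_zero, P.ord_one, one_mul 1⟩
  add_mem' := by
    rintro z z' ⟨a, ha, b, hb, hb0, hb1, h⟩ ⟨a', ha', b', hb', hb0', hb1', h'⟩
    refine ⟨a * b' + a' * b, add_mem (mul_mem ha hb') (mul_mem ha' hb), b * b', mul_mem hb hb',
      mul_ne_zero hb0 hb0', ?_, ?_⟩
    · rw [P.ord_mul hb0 hb0', hb1, hb1', add_zero]
    · rw [← h, ← h']
      ring
  zero_mem' := ⟨0, zero_mem _, 1, one_mem _, one_ne_zero, P.ord_one, zero_mul 1⟩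
  neg_mem' := by
    rintro z ⟨a, ha, b, hb, hb0, hb1, h⟩
    exact ⟨-a, neg_mem ha, b, hb, hb0, hb1, by rw [← h, neg_mul]⟩

theorem A0_le (P : Place k K) (x : Fin r → K) : A0 P x ≤ AA P x := fun a ha =>
  ⟨a, ha, 1, one_mem _, one_ne_zero, P.ord_one, mul_one a⟩

theorem AA_reg (P : Place k K) {x : Fin r → K} (hx : ∀ i, x i ≠ 0) {z : K} (hz : z ∈ AA P x) :
    P.Reg z := by
  obtain ⟨a, ha, b, hb, hb0, hb1, h⟩ := hz
  have h1 : Ge P 0 (b * z) := by
    rw [mul_comm, h]
    exact A0_reg P hx ha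
  exact Ge.of_mul' (h := b) (m := 0) hb0 hb1 (by simpa using h1)

theorem AA_inv (P : Place k K) {x : Fin r → K} {z : K} (hz : z ∈ AA P x) (hz0 : z ≠ 0)
    (hz1 : P.ord z = 0) : z⁻¹ ∈ AA P x := by
  obtain ⟨a, ha, b, hb, hb0, hb1, h⟩ := hz
  have ha0 : a ≠ 0 := by
    rw [← h]
    exact mul_ne_zero hz0 hb0
  refine ⟨b, hb, a, ha, ha0, ?_, ?_⟩
  · rw [← h, P.ord_mul hz0 hb0, hz1, hb1, add_zero]
  · rw [← h]
    field_simp

theorem AA_der (P : Place k K) {x : Fin r → K} {D : Derivation k K K}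
    (hD : ∀ w, 0 ≤ w ⬝ᵥ vec P x → D (mono x w) ∈ AA P x) {z : K} (hz : z ∈ AA P x) :
    D z ∈ AA P x := by
  have h0 : ∀ a ∈ A0 P x, D a ∈ AA P x := by
    intro a ha
    unfold A0 at ha
    induction ha using Subring.closure_induction with
    | mem z hz =>
      rcases hz with ⟨c, rfl⟩ | ⟨w, hw, rfl⟩
      · rw [D.map_algebraMap]
        exact zero_mem _
      · exact hD w hw
    | zero => rw [map_zero]; exact zero_mem _
    | one => rw [D.map_one_eq_zero]; exact zero_mem _
    | add y z _ _ hy hz => rw [map_add]; exact add_mem hy hz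
    | neg y _ hy => rw [map_neg]; exact neg_mem hy
    | mul y z hy' hz' hy hz =>
      rw [D.leibniz, smul_eq_mul, smul_eq_mul]
      exact add_mem (mul_mem (A0_le P x hy') hz) (mul_mem (A0_le P x hz') hy)
  obtain ⟨a, ha, b, hb, hb0, hb1, h⟩ := hz
  have h1 : z = a * b⁻¹ := by
    rw [← h, mul_inv_cancel_right₀ hb0]
  have hbi : b⁻¹ ∈ AA P x := AA_inv P (A0_le P x hb) hb0 hb1
  rw [h1, D.leibniz, D.leibniz_inv, smul_eq_mul, smul_eq_mul, smul_eq_mul]
  exact add_mem (mul_mem (A0_le P x ha) (mul_mem (neg_mem (pow_mem hbi 2)) (h0 b hb)))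
    (mul_mem hbi (h0 a ha))

theorem AA_frac (P : Place k K) {x : Fin r → K} (hx : ∀ i, x i ≠ 0)
    (hgen : IntermediateField.adjoin k (Set.range x) = ⊤) (z : K) :
    ∃ a ∈ AA P x, a ≠ 0 ∧ a * z ∈ AA P x := by
  classical
  have hz : z ∈ IntermediateField.adjoin k (Set.range x) := by
    rw [hgen]
    trivial
  induction hz using IntermediateField.adjoin_induction with
  | mem z hz =>
    obtain ⟨i, rfl⟩ := hz
    rcases le_total 0 (P.ord (x i)) with h | h
    · refine ⟨1, one_mem _, one_ne_zero, ?_⟩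
      rw [one_mul, ← mono_single x i]
      refine A0_le P x (mono_mem P x ?_)
      rw [single_dotProduct, one_mul]
      exact h
    · refine ⟨mono x (-(Pi.single i 1)), A0_le P x (mono_mem P x ?_), mono_ne hx _, ?_⟩
      · rw [neg_dotProduct, single_dotProduct, one_mul]
        change 0 ≤ -P.ord (x i)
        omega
      · rw [mono_neg, mono_single, inv_mul_cancel₀ (hx i)]
        exact one_mem _
  | algebraMap c => exact ⟨1, one_mem _, one_ne_zero, by
      rw [one_mul]
      exact A0_le P x (const_mem P x c)⟩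
  | add y z _ _ hy hz =>
    obtain ⟨a, ha, ha0, hay⟩ := hy
    obtain ⟨b, hb, hb0, hbz⟩ := hz
    refine ⟨a * b, mul_mem ha hb, mul_ne_zero ha0 hb0, ?_⟩
    have h1 : a * b * (y + z) = b * (a * y) + a * (b * z) := by ring
    rw [h1]
    exact add_mem (mul_mem hb hay) (mul_mem ha hbz)
  | inv z _ hz =>
    obtain ⟨a, ha, ha0, haz⟩ := hz
    by_cases hz0 : z = 0
    · rw [hz0, inv_zero]
      exact ⟨1, one_mem _, one_ne_zero, by rw [mul_zero]; exact zero_mem _⟩
    · refine ⟨a * z, haz, mul_ne_zero ha0 hz0, ?_⟩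
      rw [mul_assoc, mul_inv_cancel₀ hz0, mul_one]
      exact ha
  | mul y z _ _ hy hz =>
    obtain ⟨a, ha, ha0, hay⟩ := hy
    obtain ⟨b, hb, hb0, hbz⟩ := hz
    refine ⟨a * b, mul_mem ha hb, mul_ne_zero ha0 hb0, ?_⟩
    have h1 : a * b * (y * z) = (a * y) * (b * z) := by ring
    rw [h1]
    exact mul_mem hay hbz

/-- the inverse of a matrix over a subring -/
theorem inv_mem_subring {α : Type} [Fintype α] [DecidableEq α] (A : Subring K) (M : Matrix α α K)
    (hM : ∀ i j, M i j ∈ A) (hd : M.det⁻¹ ∈ A) (i j : α) : M⁻¹ i j ∈ A := by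
  let B : Matrix α α A := fun i j => ⟨M i j, hM i j⟩
  have h : M = A.subtype.mapMatrix B := by
    ext i j; rfl
  have h1 : M.adjugate i j ∈ A := by
    rw [h, ← RingHom.map_adjugate]
    exact (B.adjugate i j).2
  rw [Matrix.inv_def, Matrix.smul_apply, Ring.inverse_eq_inv', smul_eq_mul]
  exact mul_mem hd h1

end

section

variable {k K : Type} [Field k] [Field K] [Algebra k K] {r n : ℕ} {J : Type} [Fintype J]
  [DecidableEq J] {x : Fin r → K}

theorem der_eq_zero (hgen : IntermediateField.adjoin k (Set.range x) = ⊤) {D : Derivation k K K}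
    (hD : ∀ i, D (x i) = 0) (z : K) : D z = 0 := by
  have hz : z ∈ IntermediateField.adjoin k (Set.range x) := by
    rw [hgen]
    trivial
  induction hz using IntermediateField.adjoin_induction with
  | mem z hz =>
    obtain ⟨i, rfl⟩ := hz
    exact hD i
  | algebraMap c => exact D.map_algebraMap c
  | add y z _ _ hy hz => rw [map_add, hy, hz, add_zero]
  | inv z _ hz => rw [Derivation.leibniz_inv, hz, smul_zero]
  | mul y z _ _ hy hz => rw [D.leibniz, hy, hz, smul_zero, smul_zero, add_zero]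

/-- a vector which is orthogonal to all rows vanishes -/
theorem rows_zero {e : J ⊕ Fin n ≃ Fin r} {G : J → Fin r → K} {C : Fin n → Fin r → ℤ}
    (h0 : dt e G C ≠ 0) {w : Fin r → K} (hw : ∀ a, ∑ i, rows G C a i * w i = 0) : w = 0 := by
  let M : Matrix (J ⊕ Fin n) (J ⊕ Fin n) K := Matrix.of fun a b => rows G C a (e b)
  have hM : M.det ≠ 0 := h0
  have h1 : M.mulVec (fun b => w (e b)) = 0 := by
    funext a
    change ∑ b, rows G C a (e b) * w (e b) = 0
    rw [e.sum_comp fun i => rows G C a i * w i]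
    exact hw a
  have h2 := Matrix.eq_zero_of_mulVec_eq_zero hM h1
  funext i
  have h3 := congrFun h2 (e.symm i)
  simpa using h3

/-- **Dual logarithmic vector fields.** -/
theorem exists_theta {e : J ⊕ Fin n ≃ Fin r} (hx : ∀ i, x i ≠ 0)
    (hgen : IntermediateField.adjoin k (Set.range x) = ⊤)
    {f : J → (Fin r → ℤ) →₀ k} (hf : ∀ l, ev x (f l) = 0) {m0 : J → Fin r → ℤ}
    {C : Fin n → Fin r → ℤ} (h0 : dt e (fun l => gr' x (f l) (m0 l)) C ≠ 0)
    {Z : Fin n → K} {E : Fin n → Derivation k K K}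
    (hE : ∀ i j, E i (Z j) = if i = j then 1 else 0) :
    ∃ θ : Fin n → Derivation k K K,
      ∀ a b, ∑ i, (C b i : K) * lg x (θ a) i = if a = b then 1 else 0 := by
  classical
  let N : Matrix (Fin n) (Fin n) K := cw C fun a => lg x (E a)
  have hN : N.det ≠ 0 := by
    intro hdet
    obtain ⟨c, hc0, hc⟩ := Matrix.exists_mulVec_eq_zero_iff.2 hdet
    let D : Derivation k K K := ∑ a, c a • E a
    have hlg : ∀ i, lg x D i = ∑ a, c a * lg x (E a) i := fun i => lg_sum x _ _ _ i
    have h1 : lg x D = 0 := by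
      refine rows_zero h0 ?_
      rintro (l | b)
      · exact gr'_lg hx (hf l) (m0 l) D
      · have h2 := congrFun hc b
        change ∑ a, (∑ i, (C b i : K) * lg x (E a) i) * c a = 0 at h2
        change ∑ i, (C b i : K) * lg x D i = 0
        rw [← h2]
        simp only [hlg, Finset.mul_sum, Finset.sum_mul]
        rw [Finset.sum_comm]
        exact Finset.sum_congr rfl fun a _ => Finset.sum_congr rfl fun i _ => by ring
    have h2 : ∀ i, D (x i) = 0 := by
      intro i
      have h3 := congrFun h1 i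
      exact (div_eq_zero_iff.1 h3).resolve_right (hx i)
    apply hc0
    funext j
    have h3 := der_eq_zero hgen h2 (Z j)
    have h4 : D (Z j) = ∑ a, c a * E a (Z j) := by
      have h5 : ∀ s : Finset (Fin n), (∑ a ∈ s, c a • E a) (Z j) = ∑ a ∈ s, c a * E a (Z j) := by
        intro s
        induction s using Finset.induction_on with
        | empty => simp
        | insert a s ha ih =>
          rw [Finset.sum_insert ha, Finset.sum_insert ha, Derivation.add_apply, ih,
            Derivation.smul_apply, smul_eq_mul]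
      exact h5 _
    rw [h4] at h3
    simp only [hE, mul_ite, mul_one, mul_zero] at h3
    rw [Finset.sum_ite_eq' Finset.univ j, if_pos (Finset.mem_univ _)] at h3
    exact h3
  refine ⟨fun a => ∑ c, N⁻¹ c a • E c, fun a b => ?_⟩
  have h1 := congrFun (congrFun (Matrix.mul_nonsing_inv N (isUnit_iff_ne_zero.2 hN)) b) a
  rw [Matrix.mul_apply, Matrix.one_apply] at h1
  have h2 : (if a = b then (1 : K) else 0) = if b = a then 1 else 0 := by
    by_cases h : a = b
    · rw [if_pos h, if_pos h.symm]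
    · rw [if_neg h, if_neg (Ne.symm h)]
  rw [h2, ← h1]
  change ∑ i, (C b i : K) * lg x (∑ c, N⁻¹ c a • E c) i =
    ∑ c, (∑ i, (C b i : K) * lg x (E c) i) * N⁻¹ c a
  simp only [lg_sum, Finset.mul_sum, Finset.sum_mul]
  rw [Finset.sum_comm]
  exact Finset.sum_congr rfl fun c _ => Finset.sum_congr rfl fun i _ => by ring

/-- the solution of a linear system over a subring -/
theorem solve_mem {e : J ⊕ Fin n ≃ Fin r} {G : J → Fin r → K} {C : Fin n → Fin r → ℤ}
    (h0 : dt e G C ≠ 0) (A : Subring K) (hG : ∀ l i, G l i ∈ A) (hd : (dt e G C)⁻¹ ∈ A)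
    {w : Fin r → K} {z : K} (hw : ∀ a, ∃ t ∈ A, ∑ i, rows G C a i * w i = z * t) (i : Fin r) :
    ∃ t ∈ A, w i = z * t := by
  let M : Matrix (J ⊕ Fin n) (J ⊕ Fin n) K := Matrix.of fun a b => rows G C a (e b)
  have hM : IsUnit M.det := isUnit_iff_ne_zero.2 h0
  choose t ht hwt using hw
  have h1 : M.mulVec (fun b => w (e b)) = fun a => z * t a := by
    funext a
    change ∑ b, rows G C a (e b) * w (e b) = _
    rw [e.sum_comp fun i => rows G C a i * w i]
    exact hwt a
  have h2 : (fun b => w (e b)) = M⁻¹.mulVec fun a => z * t a := by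
    rw [← h1, Matrix.mulVec_mulVec, Matrix.nonsing_inv_mul M hM, Matrix.one_mulVec]
  have hMA : ∀ a b, M a b ∈ A := by
    rintro (a | a) b
    · exact hG a (e b)
    · exact intCast_mem A (C a (e b))
  refine ⟨∑ a, M⁻¹ (e.symm i) a * t a, sum_mem fun a _ =>
    mul_mem (inv_mem_subring A M hMA hd _ _) (ht a), ?_⟩
  have h3 := congrFun h2 (e.symm i)
  rw [e.apply_symm_apply] at h3
  rw [h3, Finset.mul_sum]
  change ∑ a, M⁻¹ (e.symm i) a * (z * t a) = _
  exact Finset.sum_congr rfl fun a _ => by ring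

end

end Pool.Agent.R885
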