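import Pool.Agent.W619.PQ.Log

/-!
Monomials and Laurent polynomials in elements of a field, their orders and residues at a place.
-/

set_option autoImplicit false
set_option linter.overlappingInstances false
set_option linter.unusedSectionVars false

open FF Pool.Agent.W603.LV Pool.Agent.W619.PQ

namespace Pool.Agent.R885

/-- The value at `x` of the monomial with the exponent `w`. -/
def mono {ι K : Type} [Fintype ι] [Field K] (x : ι → K) (w : ι → ℤ) : K := ∏ i, x i ^ w i

/-- The value at `x` of the Laurent polynomial `f`, given by its coefficients. -/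
noncomputable def ev {ι k K : Type} [Fintype ι] [Field k] [Field K] [Algebra k K] (x : ι → K)
    (f : (ι → ℤ) →₀ k) : K :=
  f.sum fun m a => algebraMap k K a * mono x m

/-- The logarithmic gradient of the Laurent polynomial `f` at `x`. -/
noncomputable def gr {ι k K : Type} [Fintype ι] [Field k] [Field K] [Algebra k K] (x : ι → K)
    (f : (ι → ℤ) →₀ k) (i : ι) : K :=
  f.sum fun m a => algebraMap k K a * ((m i : ℤ) : K) * mono x m

/-- The minimum of the linear function `v` on the exponents of `f`. -/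
noncomputable def mn {ι k : Type} [Fintype ι] [Field k] (v : ι → ℤ) (f : (ι → ℤ) →₀ k) : ℤ :=
  sInf ((fun m => m ⬝ᵥ v) '' (f.support : Set (ι → ℤ)))

open scoped Classical in
/-- The initial part of `f` in the direction `v`: the sum of the terms of `f` for which the linear
function `v` is minimal. -/
noncomputable def ini {ι k : Type} [Fintype ι] [Field k] (v : ι → ℤ) (f : (ι → ℤ) →₀ k) :
    (ι → ℤ) →₀ k :=
  f.filter fun m => m ⬝ᵥ v = mn v f

section

variable {ι : Type} [Fintype ι] {K : Type} [Field K] {x : ι → K}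

theorem mono_zero (x : ι → K) : mono x 0 = 1 := by simp [mono]

theorem mono_add (hx : ∀ i, x i ≠ 0) (w w' : ι → ℤ) :
    mono x (w + w') = mono x w * mono x w' := by
  unfold mono
  rw [← Finset.prod_mul_distrib]
  exact Finset.prod_congr rfl fun i _ => by rw [Pi.add_apply, zpow_add₀ (hx i)]

theorem mono_ne (hx : ∀ i, x i ≠ 0) (w : ι → ℤ) : mono x w ≠ 0 :=
  Finset.prod_ne_zero_iff.2 fun i _ => zpow_ne_zero _ (hx i)

theorem mono_neg (x : ι → K) (w : ι → ℤ) : mono x (-w) = (mono x w)⁻¹ := by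
  unfold mono
  rw [← Finset.prod_inv_distrib]
  exact Finset.prod_congr rfl fun i _ => by rw [Pi.neg_apply, zpow_neg]

theorem mono_sub (hx : ∀ i, x i ≠ 0) (w w' : ι → ℤ) :
    mono x (w - w') = mono x w / mono x w' := by
  rw [sub_eq_add_neg, mono_add hx, mono_neg, div_eq_mul_inv]

theorem mono_zsmul (x : ι → K) (n : ℤ) (w : ι → ℤ) : mono x (n • w) = mono x w ^ n := by
  unfold mono
  rw [← Finset.prod_zpow]
  exact Finset.prod_congr rfl fun i _ => by rw [Pi.smul_apply, smul_eq_mul, mul_comm, zpow_mul]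

theorem mono_single [DecidableEq ι] (x : ι → K) (i : ι) : mono x (Pi.single i 1) = x i := by
  unfold mono
  rw [Finset.prod_eq_single i]
  · rw [Pi.single_eq_same, zpow_one]
  · intro j _ hj
    rw [Pi.single_eq_of_ne hj, zpow_zero]
  · intro h
    exact absurd (Finset.mem_univ _) h

theorem mono_mul (x y : ι → K) (w : ι → ℤ) : mono (fun i => x i * y i) w = mono x w * mono y w := by
  unfold mono
  rw [← Finset.prod_mul_distrib]
  exact Finset.prod_congr rfl fun i _ => mul_zpow _ _ _

theorem mono_zpow {t : K} (ht : t ≠ 0) (v w : ι → ℤ) :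
    mono (fun i => t ^ v i) w = t ^ (w ⬝ᵥ v) := by
  unfold mono dotProduct
  have h : ∀ s : Finset ι, t ^ (∑ i ∈ s, w i * v i) = ∏ i ∈ s, t ^ (w i * v i) := by
    intro s
    classical
    induction s using Finset.induction_on with
    | empty => simp
    | insert a s ha ih => rw [Finset.sum_insert ha, Finset.prod_insert ha, zpow_add₀ ht, ih]
  rw [h]
  exact Finset.prod_congr rfl fun i _ => by rw [← zpow_mul, mul_comm]

theorem map_mono {L : Type} [Field L] (φ : K →+* L) (x : ι → K) (w : ι → ℤ) :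
    φ (mono x w) = mono (fun i => φ (x i)) w := by
  unfold mono
  rw [map_prod]
  exact Finset.prod_congr rfl fun i _ => map_zpow₀ φ _ _

end

section

variable {ι : Type} [Fintype ι] {k K : Type} [Field k] [Field K] [Algebra k K] {x : ι → K}

/-- the vector of the orders -/
def vec (P : Place k K) (x : ι → K) : ι → ℤ := fun i => P.ord (x i)

theorem ord_mono (P : Place k K) (hx : ∀ i, x i ≠ 0) (w : ι → ℤ) :
    P.ord (mono x w) = w ⬝ᵥ vec P x := by
  unfold mono dotProduct
  have h : ∀ s : Finset ι, P.ord (∏ i ∈ s, x i ^ w i) = ∑ i ∈ s, w i * P.ord (x i) := by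
    intro s
    classical
    induction s using Finset.induction_on with
    | empty => simp [P.ord_one]
    | insert a s ha ih =>
      rw [Finset.sum_insert ha, Finset.prod_insert ha, P.ord_mul (zpow_ne_zero _ (hx a))
        (Finset.prod_ne_zero_iff.2 fun i _ => zpow_ne_zero _ (hx i)), ih, P.ord_zpow]
  exact h _

theorem der_mono (D : Derivation k K K) (hx : ∀ i, x i ≠ 0) (w : ι → ℤ) :
    D (mono x w) = mono x w * ∑ i, (w i : K) * (D (x i) / x i) := by
  have h : ∀ s : Finset ι, D (∏ i ∈ s, x i ^ w i) / (∏ i ∈ s, x i ^ w i) =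
      ∑ i ∈ s, (w i : K) * (D (x i) / x i) := by
    intro s
    classical
    induction s using Finset.induction_on with
    | empty => simp
    | insert a s ha ih =>
      rw [Finset.sum_insert ha, Finset.prod_insert ha, dlog_mul D (zpow_ne_zero _ (hx a))
        (Finset.prod_ne_zero_iff.2 fun i _ => zpow_ne_zero _ (hx i)), ih, dlog_zpow D (hx a)]
  have h1 : D (mono x w) / mono x w = ∑ i, (w i : K) * (D (x i) / x i) := h Finset.univ
  rw [div_eq_iff (mono_ne hx w)] at h1
  rw [mul_comm]
  exact h1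

theorem der_ev (D : Derivation k K K) (hx : ∀ i, x i ≠ 0) (f : (ι → ℤ) →₀ k) :
    D (ev x f) = ∑ i, gr x f i * (D (x i) / x i) := by
  classical
  unfold ev gr Finsupp.sum
  rw [map_sum]
  simp only [Finset.sum_mul]
  rw [Finset.sum_comm]
  refine Finset.sum_congr rfl fun m _ => ?_
  rw [D.leibniz, der_mono D hx, D.map_algebraMap, smul_zero, add_zero, smul_eq_mul,
    Finset.mul_sum, Finset.mul_sum]
  refine Finset.sum_congr rfl fun i _ => ?_
  ring

/-- the Laurent polynomial divided by a monomial -/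
noncomputable def ev' (x : ι → K) (f : (ι → ℤ) →₀ k) (m0 : ι → ℤ) : K :=
  f.sum fun m a => algebraMap k K a * mono x (m - m0)

/-- its gradient, where `f` vanishes -/
noncomputable def gr' (x : ι → K) (f : (ι → ℤ) →₀ k) (m0 : ι → ℤ) (i : ι) : K :=
  f.sum fun m a => algebraMap k K a * ((m i : ℤ) : K) * mono x (m - m0)

theorem ev_eq (hx : ∀ i, x i ≠ 0) (f : (ι → ℤ) →₀ k) (m0 : ι → ℤ) :
    ev x f = mono x m0 * ev' x f m0 := by
  unfold ev ev' Finsupp.sum
  rw [Finset.mul_sum]
  refine Finset.sum_congr rfl fun m _ => ?_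
  beta_reduce
  rw [mono_sub hx]
  have := mono_ne hx m0
  field_simp

theorem gr_eq (hx : ∀ i, x i ≠ 0) (f : (ι → ℤ) →₀ k) (m0 : ι → ℤ) (i : ι) :
    gr x f i = mono x m0 * gr' x f m0 i := by
  unfold gr gr' Finsupp.sum
  rw [Finset.mul_sum]
  refine Finset.sum_congr rfl fun m _ => ?_
  beta_reduce
  rw [mono_sub hx]
  have := mono_ne hx m0
  field_simp

end

section

variable {ι : Type} [Fintype ι] {k : Type} [Field k] {f : (ι → ℤ) →₀ k}

theorem bdd_mn (v : ι → ℤ) (f : (ι → ℤ) →₀ k) :
    BddBelow ((fun m => m ⬝ᵥ v) '' (f.support : Set (ι → ℤ))) :=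
  (f.support.finite_toSet.image _).bddBelow

theorem mn_le {v : ι → ℤ} {m : ι → ℤ} (hm : m ∈ f.support) : mn v f ≤ m ⬝ᵥ v :=
  csInf_le (bdd_mn v f) ⟨m, hm, rfl⟩

theorem exists_mn (hf : f ≠ 0) (v : ι → ℤ) : ∃ m ∈ f.support, m ⬝ᵥ v = mn v f := by
  have h := Int.csInf_mem (s := (fun m => m ⬝ᵥ v) '' (f.support : Set (ι → ℤ)))
    (((Finsupp.support_nonempty_iff.2 hf).to_set).image _) (bdd_mn v f)
  obtain ⟨m, hm, h⟩ := h
  exact ⟨m, hm, h⟩

theorem le_mn (hf : f ≠ 0) {v : ι → ℤ} {c : ℤ} (h : ∀ m ∈ f.support, c ≤ m ⬝ᵥ v) : c ≤ mn v f := by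
  obtain ⟨m, hm, h1⟩ := exists_mn hf v
  rw [← h1]
  exact h m hm

theorem mem_ini {v m : ι → ℤ} : m ∈ (ini v f).support ↔ m ∈ f.support ∧ m ⬝ᵥ v = mn v f := by
  classical
  unfold ini
  rw [Finsupp.support_filter, Finset.mem_filter]

theorem ini_apply {v m : ι → ℤ} (h : m ⬝ᵥ v = mn v f) : ini v f m = f m := by
  classical
  unfold ini
  rw [Finsupp.filter_apply, if_pos h]

theorem ini_sum {A : Type} [AddCommMonoid A] (v : ι → ℤ) (φ : (ι → ℤ) → k → A) :
    (ini v f).sum φ = ∑ m ∈ (ini v f).support, φ m (f m) := by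
  unfold Finsupp.sum
  refine Finset.sum_congr rfl fun m hm => ?_
  rw [ini_apply (mem_ini.1 hm).2]

theorem mn_zero (hf : f ≠ 0) : mn 0 f = 0 := by
  obtain ⟨m, -, h⟩ := exists_mn hf 0
  rw [← h, dotProduct_zero]

end

end Pool.Agent.R885
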