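import Pool.Agent.R885.G16

/-!
Pointwise nondegeneracy.
-/

set_option autoImplicit false
set_option linter.overlappingInstances false
set_option linter.unusedSectionVars false

open FF Pool.Agent.W603.LV Pool.Agent.W619.PQ

namespace Pool.Agent.R885.N

/-- Nondegeneracy at the residue of the generic point at the place `P`. -/
def NDP {ι J k K : Type} [Fintype ι] [Field k] [Field K] [Algebra k K] (P : Place k K) (x : ι → K)
    (f : J → (ι → ℤ) →₀ k) : Prop :=
  (∀ l, ev (pt P x) (ini (vec P x) (f l)) = 0) →
    LinearIndependent P.RF fun l => gr (pt P x) (ini (vec P x) (f l))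

/-- Nondegeneracy at the generic point. -/
def NDX {ι J k : Type} [Fintype ι] [Field k] (K : Type) [Field K] [Algebra k K] (x : ι → K)
    (f : J → (ι → ℤ) →₀ k) : Prop :=
  (∀ l, ev x (ini 0 (f l)) = 0) → LinearIndependent K fun l => gr x (ini 0 (f l))

end Pool.Agent.R885.N
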