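import Pool.Agent.R885.N0

/-!
Pointwise version of `D0b`.
-/

set_option autoImplicit false

set_option linter.overlappingInstances false

set_option linter.unusedSectionVars false

open FF Pool.Agent.W603.LV Pool.Agent.W619.PQ Pool.Agent.Y173.QA Pool.Agent.W619.TW
  Pool.Agent.TH165.ACC Pool.Agent.TH122.AB

namespace Pool.Agent.R885.N

section

variable {k K : Type} [Field k] [CharZero k] [Field K] [Algebra k K] {r m : ℕ} {x : Fin r → K}

/-- the gradients are independent -/
theorem exists_C0 (_hx : ∀ i, x i ≠ 0) {J : Type} [Fintype J] [DecidableEq J] {n : ℕ}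
    (e : J ⊕ Fin n ≃ Fin r) {f : J → (Fin r → ℤ) →₀ k}
    (hf0 : ∀ l, f l ≠ 0) (hf : ∀ l, ev x (f l) = 0) (hnd : NDX K x f) :
    ∃ C0 : Fin n → Fin r → ℤ, dt e (fun l => gr x (f l)) C0 ≠ 0 := by
  have h1 := hnd fun l => by rw [ini_zero (hf0 l)]; exact hf l
  have h2 : (fun l => gr x (ini 0 (f l))) = fun l => gr x (f l) := by
    funext l
    rw [ini_zero (hf0 l)]
  rw [h2] at h1
  obtain ⟨C, hC⟩ := complete_zero h1 (n := n) (by
    rw [← Fintype.card_congr e, Fintype.card_sum, Fintype.card_fin])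
  exact ⟨C, dt_ne hC⟩

end

end Pool.Agent.R885.N
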