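import Pool.Agent.R885.N0

/-!
Pointwise version of `Fib`; hereditary nondegeneracy.
-/

set_option autoImplicit false
set_option linter.overlappingInstances false
set_option linter.unusedSectionVars false

open FF

namespace Pool.Agent.R885.N

section

variable {ι J J' k Λ : Type} [Fintype ι] [Field k] [Field Λ] [Algebra k Λ]
  {R : Type} [Field R] [Algebra Λ R] [Algebra k R] [IsScalarTower k Λ R]

/-- **Nondegeneracy of the fibres.** -/
theorem pt_fibre [CharZero k] [Fintype J] [Fintype J'] {f : J → (ι → ℤ) →₀ k} {v : ι → ℤ}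
    {c : ι → R} (hc : ∀ i, c i ≠ 0)
    (h : (∀ l, ev c (ini v ((f l).mapRange (algebraMap k Λ) (map_zero _))) = 0) →
      LinearIndependent R fun l => gr c (ini v ((f l).mapRange (algebraMap k Λ) (map_zero _))))
    {w : J' → ι → ℤ} (hw : ∀ j, w j ≠ 0) {t : J' → Λ}
    (ht : AlgebraicIndependent k t) (hwv : ∀ j, w j ⬝ᵥ v = 0)
    (hev : ∀ l, ev c (ini v (fibSys f w t l)) = 0) :
    LinearIndependent R fun l => gr c (ini v (fibSys f w t l)) := by
  classical
  have hlin : LinearIndependent R fun l => gr c (ini v (f l)) := by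
    have h1 := h fun l => hev (Sum.inl l)
    have h2 : (fun l => gr c (ini v (f l))) =
        fun l => gr c (ini v ((f l).mapRange (algebraMap k Λ) (map_zero _))) := by
      funext l i
      rw [ini_map, gr_map]
    rw [h2]
    exact h1
  have hev1 : ∀ l, ev c (ini v (f l)) = 0 := by
    intro l
    have h1 := hev (Sum.inl l)
    change ev c (ini v ((f l).mapRange (algebraMap k Λ) (map_zero _))) = 0 at h1
    rwa [ini_map, ev_map] at h1
  have hev2 : ∀ j, mono c (w j) = algebraMap Λ R (t j) := by
    intro j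
    have h1 := hev (Sum.inr j)
    change ev c (ini v (Finsupp.single (w j) 1 - Finsupp.single 0 (t j))) = 0 at h1
    rw [bin_ini (hw j) _ (hwv j), bin_ev] at h1
    exact sub_eq_zero.1 h1
  have ht' : AlgebraicIndependent k fun j => algebraMap Λ R (t j) :=
    ht.map' (f := IsScalarTower.toAlgHom k Λ R) (algebraMap Λ R).injective
  -- derivations dual to the `t`
  have hE : ∀ j, ∃ E : Derivation k R R, ∀ j', E (algebraMap Λ R (t j')) =
      if j' = j then 1 else 0 := by
    intro j
    obtain ⟨s, hs, hs'⟩ := exists_isTranscendenceBasis_superset (R := k)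
      (s := Set.range fun j => algebraMap Λ R (t j)) (AlgebraicIndependent.to_subtype_range ht')
    let a : J' → s := fun j => ⟨algebraMap Λ R (t j), hs ⟨j, rfl⟩⟩
    obtain ⟨E, hE⟩ := Pool.Agent.W619.PQ.exists_dual (fun z : s => (z : R)) hs' (a j)
    refine ⟨E, fun j' => ?_⟩
    have h1 := hE (a j')
    change E (algebraMap Λ R (t j')) = _ at h1
    rw [h1]
    by_cases hj : j' = j
    · rw [if_pos hj, if_pos (by rw [hj])]
    · rw [if_neg hj, if_neg]
      intro h2
      exact hj (ht'.injective (congrArg Subtype.val h2))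
  rw [Fintype.linearIndependent_iff]
  intro g hg
  have hg1 : ∀ i, (∑ l, g (Sum.inl l) * gr c (ini v (f l)) i) +
      ∑ j, g (Sum.inr j) * ((w j i : R) * mono c (w j)) = 0 := by
    intro i
    have h1 := congrFun hg i
    rw [Fintype.sum_sum_type, Pi.add_apply, Finset.sum_apply, Finset.sum_apply] at h1
    rw [← Pi.zero_apply i (M := fun _ : ι => R), ← h1]
    congr 1
    · refine Finset.sum_congr rfl fun l _ => ?_
      rw [Pi.smul_apply, smul_eq_mul]
      change _ = _ * gr c (ini v ((f l).mapRange (algebraMap k Λ) (map_zero _))) i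
      rw [ini_map, gr_map]
    · refine Finset.sum_congr rfl fun j _ => ?_
      rw [Pi.smul_apply, smul_eq_mul]
      change _ = _ * gr c (ini v (Finsupp.single (w j) 1 - Finsupp.single 0 (t j))) i
      rw [bin_ini (hw j) _ (hwv j), bin_gr]
  have hinr : ∀ j0, g (Sum.inr j0) = 0 := by
    intro j0
    obtain ⟨E, hE⟩ := hE j0
    have h1 : ∑ i, ((∑ l, g (Sum.inl l) * gr c (ini v (f l)) i) +
        ∑ j, g (Sum.inr j) * ((w j i : R) * mono c (w j))) * (E (c i) / c i) = 0 :=
      Finset.sum_eq_zero fun i _ => by rw [hg1, zero_mul]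
    simp only [add_mul] at h1
    rw [Finset.sum_add_distrib] at h1
    have h2 : ∑ i, (∑ l, g (Sum.inl l) * gr c (ini v (f l)) i) * (E (c i) / c i) = 0 := by
      simp only [Finset.sum_mul]
      rw [Finset.sum_comm]
      refine Finset.sum_eq_zero fun l _ => ?_
      have h3 := der_ev E hc (ini v (f l))
      rw [hev1 l, map_zero] at h3
      have h4 : ∑ i, g (Sum.inl l) * gr c (ini v (f l)) i * (E (c i) / c i) =
          g (Sum.inl l) * ∑ i, gr c (ini v (f l)) i * (E (c i) / c i) := by
        rw [Finset.mul_sum]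
        exact Finset.sum_congr rfl fun i _ => by ring
      rw [h4, ← h3, mul_zero]
    have h3 : ∑ i, (∑ j, g (Sum.inr j) * ((w j i : R) * mono c (w j))) * (E (c i) / c i) =
        g (Sum.inr j0) := by
      simp only [Finset.sum_mul]
      rw [Finset.sum_comm]
      have h4 : ∀ j, ∑ i, g (Sum.inr j) * ((w j i : R) * mono c (w j)) * (E (c i) / c i) =
          g (Sum.inr j) * (if j = j0 then 1 else 0) := by
        intro j
        rw [← hE j, ← hev2 j, der_mono E hc, Finset.mul_sum, Finset.mul_sum]
        exact Finset.sum_congr rfl fun i _ => by ring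
      rw [Finset.sum_congr rfl fun j _ => h4 j, Finset.sum_eq_single j0]
      · rw [if_pos rfl, mul_one]
      · intro j _ hj
        rw [if_neg hj, mul_zero]
      · intro hj
        exact absurd (Finset.mem_univ _) hj
    rw [h2, h3, zero_add] at h1
    exact h1
  have hinl := Fintype.linearIndependent_iff.1 hlin (fun l => g (Sum.inl l)) (by
    funext i
    rw [Finset.sum_apply, Pi.zero_apply]
    have h1 := hg1 i
    rw [Finset.sum_eq_zero (s := Finset.univ) (f := fun j =>
      g (Sum.inr j) * ((w j i : R) * mono c (w j))) (fun j _ => by rw [hinr j, zero_mul]),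
      add_zero] at h1
    exact h1)
  rintro (l | j)
  · exact hinl l
  · exact hinr j

end

section

variable {ι J J' J1 k Λ K F : Type} [Fintype ι] [Field k] [Field Λ] [Algebra k Λ] [Field K]
  [Algebra k K] [Field F] [Algebra Λ F] [Algebra k F] [IsScalarTower k Λ F]

theorem ndp_comp {P : Place Λ F} {x : ι → F} {f : J → (ι → ℤ) →₀ Λ} {g : J1 → (ι → ℤ) →₀ Λ}
    (e : J1 → J) (he : Function.Injective e) (hs : Function.Surjective e)
    (hg : ∀ l, g l = f (e l)) (h : NDP P x f) : NDP P x g := by
  intro hev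
  have h1 := h fun l => by
    obtain ⟨l', rfl⟩ := hs l
    rw [← hg]
    exact hev l'
  have h2 := h1.comp e he
  have h3 : (fun l => gr (pt P x) (ini (vec P x) (g l))) =
      (fun l => gr (pt P x) (ini (vec P x) (f l))) ∘ e := by
    funext l
    rw [hg]
    rfl
  rw [h3]
  exact h2

theorem ndx_comp {x : ι → F} {f : J → (ι → ℤ) →₀ Λ} {g : J1 → (ι → ℤ) →₀ Λ}
    (e : J1 → J) (he : Function.Injective e) (hs : Function.Surjective e)
    (hg : ∀ l, g l = f (e l)) (h : NDX F x f) : NDX F x g := by
  intro hev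
  have h1 := h fun l => by
    obtain ⟨l', rfl⟩ := hs l
    rw [← hg]
    exact hev l'
  have h2 := h1.comp e he
  have h3 : (fun l => gr x (ini 0 (g l))) = (fun l => gr x (ini 0 (f l))) ∘ e := by
    funext l
    rw [hg]
    rfl
  rw [h3]
  exact h2

theorem ndp_fibre [CharZero k] [Fintype J] [Fintype J'] {P : Place Λ F} {x : ι → F}
    (hx : ∀ i, x i ≠ 0) {f : J → (ι → ℤ) →₀ k}
    (h : NDP P x fun l => (f l).mapRange (algebraMap k Λ) (map_zero _))
    {w : J' → ι → ℤ} (hw : ∀ j, w j ≠ 0) {t : J' → Λ} (ht : AlgebraicIndependent k t)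
    (hwv : ∀ j, w j ⬝ᵥ vec P x = 0) : NDP P x (fibSys f w t) := by
  let iA : Algebra k P.RF := ((algebraMap Λ P.RF).comp (algebraMap k Λ)).toAlgebra
  have hT : IsScalarTower k Λ P.RF := IsScalarTower.of_algebraMap_eq fun _ => rfl
  intro hev
  exact pt_fibre (pt_ne P hx) h hw ht hwv hev

theorem ndx_fibre [CharZero k] [Fintype J] [Fintype J'] {x : ι → F}
    (hx : ∀ i, x i ≠ 0) {f : J → (ι → ℤ) →₀ k} (h : NDX F x f)
    {w : J' → ι → ℤ} (hw : ∀ j, w j ≠ 0) {t : J' → Λ} (ht : AlgebraicIndependent k t) :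
    NDX F x (fibSys f w t) := by
  intro hev
  refine pt_fibre hx ?_ hw ht (fun j => dotProduct_zero _) hev
  intro h1
  have h2 := h fun l => by
    have h3 := h1 l
    rwa [ini_map, ev_map] at h3
  have h3 : (fun l => gr x (ini 0 ((f l).mapRange (algebraMap k Λ) (map_zero _)))) =
      fun l => gr x (ini 0 (f l)) := by
    funext l i
    rw [ini_map, gr_map]
  rw [h3]
  exact h2

/-- Hereditary nondegeneracy: nondegeneracy at the residues of the generic point at all the places
of all the extensions. -/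
structure HN {ι J k K : Type} [Fintype ι] [Field k] [Field K] [Algebra k K] (x : ι → K)
    (f : J → (ι → ℤ) →₀ k) : Prop where
  gen : ∀ (F : Type) [Field F] [Algebra k F] (φ : K →ₐ[k] F), NDX F (fun i => φ (x i)) f
  place : ∀ (Λ F : Type) [Field Λ] [Field F] [Algebra k Λ] [Algebra Λ F] [Algebra k F]
    [IsScalarTower k Λ F] (φ : K →ₐ[k] F) (P : Place Λ F),
    NDP P (fun i => φ (x i)) fun l => (f l).mapRange (algebraMap k Λ) (map_zero _)

theorem HN.self {x : ι → K} {f : J → (ι → ℤ) →₀ k} (h : HN x f) : NDX K x f :=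
  h.gen K (AlgHom.id k K)

theorem HN.places {x : ι → K} {f : J → (ι → ℤ) →₀ k} (h : HN x f) (P : Place k K) :
    NDP P x f := by
  have h1 := h.place k K (AlgHom.id k K) P
  have h2 : (fun l => (f l).mapRange (algebraMap k k) (map_zero _)) = f := by
    funext l
    ext m
    rw [Finsupp.mapRange_apply]
    rfl
  rw [h2] at h1
  exact h1

/-- A nondegenerate system is hereditarily nondegenerate. -/
theorem hn_of_nonDeg [CharZero k] [IsAlgClosed k] [Fintype J] {x : ι → K} (hx : ∀ i, x i ≠ 0)
    {f : J → (ι → ℤ) →₀ k} (h : ∀ v, NonDeg k f v) : HN x f where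
  gen F _ _ φ hev := nd_ext (h 0) F _ (fun i h0 => hx i ((map_eq_zero φ).1 h0)) hev
  place Λ F _ _ _ _ _ _ φ P := by
    let iA : Algebra k P.RF := ((algebraMap Λ P.RF).comp (algebraMap k Λ)).toAlgebra
    have hT : IsScalarTower k Λ P.RF := IsScalarTower.of_algebraMap_eq fun _ => rfl
    intro hev
    have h1 := nd_ext (h (vec P fun i => φ (x i))) P.RF (pt P fun i => φ (x i))
      (pt_ne P fun i h0 => hx i ((map_eq_zero φ).1 h0)) fun l => by
        have h2 := hev l
        rwa [ini_map, ev_map] at h2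
    have h3 : (fun l => gr (pt P fun i => φ (x i)) (ini (vec P fun i => φ (x i))
        ((f l).mapRange (algebraMap k Λ) (map_zero _)))) =
        fun l => gr (pt P fun i => φ (x i)) (ini (vec P fun i => φ (x i)) (f l)) := by
      funext l i
      rw [ini_map, gr_map]
    rw [h3]
    exact h1

end

end Pool.Agent.R885.N
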