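import Pool.Agent.R885.NRes

/-!
Pointwise version of `Frm`.
-/

set_option autoImplicit false

set_option linter.overlappingInstances false

set_option linter.unusedSectionVars false

open FF Pool.Agent.W603.LV Pool.Agent.W619.PQ Pool.Agent.Y173.QA

namespace Pool.Agent.R885.N

section

variable {k K : Type} [Field k] [CharZero k] [Field K] [Algebra k K] {r m : ℕ} {J : Type}
  [Fintype J] [DecidableEq J] {x : Fin r → K}

/-- **Regular vector fields with the exact order.** -/
theorem frame_at (htr : Algebra.trdeg k K = (m + 1 : ℕ))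
    (hfin : ∀ y : Fin (m + 1) → K, IsTranscendenceBasis k y →
      FiniteDimensional (IntermediateField.adjoin k (Set.range y)) K)
    (P : Place k K) (hx : ∀ i, x i ≠ 0) (hgen : IntermediateField.adjoin k (Set.range x) = ⊤)
    {e : J ⊕ Fin (m + 1) ≃ Fin r} {f : J → (Fin r → ℤ) →₀ k} (hf0 : ∀ l, f l ≠ 0)
    (hf : ∀ l, ev x (f l) = 0) (hnd : NDP P x f) {y : Fin m → K}
    (hy : ∀ p : MvPolynomial (Fin m) k, p ≠ 0 →
      MvPolynomial.aeval y p ≠ 0 ∧ P.ord (MvPolynomial.aeval y p) = 0)
    (hyA : ∀ j, y j ∈ AA P x) {C0 : Fin (m + 1) → Fin r → ℤ}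
    (h0 : dt e (fun l => gr x (f l)) C0 ≠ 0) {u0 : Fin r → ℤ} {c : ℤ}
    (h : vec P x = 0 ∨ ∃ (s c1 : Fin r → ℤ) (α : ℤ), 0 < α ∧ vec P x = α • s ∧ c1 ⬝ᵥ s = 1 ∧
      u0 ⬝ᵥ s = c * (1 + ∑ l, mn s (f l))) :
    ∃ D : Fin (m + 1) → Derivation k K K, (∀ a, Pres P (D a)) ∧ Om e x f C0 D ≠ 0 ∧
      c * P.ord (Om e x f C0 D) + u0 ⬝ᵥ vec P x = 0 := by
  classical
  obtain ⟨t, ht0, ht⟩ := P.surj
  obtain ⟨hbas, E, hE1, hE2⟩ := frame_of htr hfin P ht hy
  choose m0 hm0 hm0' using fun l => exists_mn (hf0 l) (vec P x)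
  have hli := nd_place P hx hf hnd hm0'
  have hcard : Fintype.card (Fin r) = Fintype.card J + (m + 1) := by
    rw [← Fintype.card_congr e, Fintype.card_sum, Fintype.card_fin]
  have hGA : ∀ l i, gr' x (f l) (m0 l) i ∈ AA P x := fun l i =>
    A0_le P x (gr'_mem P x (f l) (hm0' l) i)
  -- preservation
  have hpres : ∀ D : Derivation k K K, (∀ w, 0 ≤ w ⬝ᵥ vec P x → D (mono x w) ∈ AA P x) →
      Pres P D := by
    intro D hD
    refine smooth htr hfin P hy (AA P x) (fun a ha => AA_reg P hx ha) (AA_frac P hx hgen) D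
      (fun a ha => AA_der P hD ha) fun j => AA_reg P hx (AA_der P hD (hyA j))
  rcases h with hv | ⟨s, c1, α, hα, hv, hc1, hs⟩
  · obtain ⟨C, hC⟩ := complete_zero hli (n := m + 1) hcard
    obtain ⟨h1, h2⟩ := ord_dt P e (fun l i => reg_gr' P hx (f l) (hm0' l) i) hC
    have h1' : dt e (fun l => gr' x (f l) (m0 l)) C ≠ 0 := h1
    have h2' : P.ord (dt e (fun l => gr' x (f l) (m0 l)) C) = 0 := h2
    obtain ⟨h3, h4⟩ := ord_dt_gr P (e := e) hx hm0' hC
    obtain ⟨θ, hθ⟩ := exists_theta hx hgen hf h1' hE1
    have hdA : (dt e (fun l => gr' x (f l) (m0 l)) C)⁻¹ ∈ AA P x := by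
      refine AA_inv P ?_ h1' h2'
      unfold dt
      rw [Matrix.det_apply']
      refine sum_mem fun σ _ => mul_mem (intCast_mem _ _) (prod_mem fun a _ => ?_)
      rcases σ a with a' | a'
      · exact hGA a' _
      · exact intCast_mem _ _
    have hlg : ∀ a i, lg x (θ a) i ∈ AA P x := by
      intro a i
      obtain ⟨t', ht', h5⟩ := solve_mem h1' (AA P x) hGA hdA (w := lg x (θ a)) (z := 1) (by
        rintro (l | b)
        · exact ⟨0, zero_mem _, by
            rw [mul_zero]
            exact gr'_lg hx (hf l) (m0 l) (θ a)⟩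
        · refine ⟨if a = b then 1 else 0, ?_, ?_⟩
          · split_ifs
            · exact one_mem _
            · exact zero_mem _
          · rw [one_mul]
            exact hθ a b) i
      rw [h5, one_mul]
      exact ht'
    refine ⟨fun a => (1 : K) • θ a, fun a => hpres _ fun w hw => ?_, ?_, ?_⟩
    · change ((1 : K) • θ a) (mono x w) ∈ _
      rw [one_smul, der_mono (θ a) hx]
      exact mul_mem (A0_le P x (mono_mem P x hw)) (sum_mem fun i _ =>
        mul_mem (intCast_mem _ _) (hlg a i))
    · rw [om_eq hx hf h0 h3, om_theta hθ fun _ => 1]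
      rw [Finset.prod_const_one]
      exact one_div_ne_zero h3
    · rw [om_eq hx hf h0 h3, om_theta hθ fun _ => 1, Finset.prod_const_one, one_div, P.ord_inv,
        h4, hv, dotProduct_zero, Finset.sum_eq_zero fun l _ => mn_zero (hf0 l)]
      ring
  · -- a place at the boundary
    have hdir := fun l => gr'_dir P hx (hf l) hα hv hc1 (hm0' l)
    choose tt htt1 htt2 using hdir
    have hz0 : mono x c1 ≠ 0 := mono_ne hx _
    have hzord : P.ord (mono x c1) = α := by
      rw [ord_mono P hx, hv, dotProduct_smul, hc1, smul_eq_mul, mul_one]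
    have hzA : mono x c1 ∈ AA P x := A0_le P x (mono_mem P x (by
      rw [hv, dotProduct_smul, hc1, smul_eq_mul, mul_one]
      exact hα.le))
    have has : ∀ l, (fun i => P.red (gr' x (f l) (m0 l) i)) ⬝ᵥ (fun i => (s i : P.RF)) = 0 := by
      intro l
      have h5 : P.red (∑ i, gr' x (f l) (m0 l) i * (s i : K)) = 0 := by
        have h6 : Ge P 1 (mono x c1 * tt l) := by
          have h7 : Ge P 1 (mono x c1) := Or.inr (by rw [hzord]; omega)
          have h8 : Ge P 0 (tt l) := A0_reg P hx (htt1 l)
          simpa using h7.mul h8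
        rw [htt2 l]
        rw [P.red_eq_zero_iff (h6.mono (by omega))]
        rcases h6 with h6 | h6
        · exact Or.inl h6
        · exact Or.inr (by omega)
      rw [red_sum P _ _ fun i _ => P.reg_mul (reg_gr' P hx (f l) (hm0' l) i) (reg_int P (s i))] at h5
      rw [← h5]
      unfold dotProduct
      refine Finset.sum_congr rfl fun i _ => ?_
      rw [P.red_mul (reg_gr' P hx (f l) (hm0' l) i) (reg_int P (s i)), red_int]
    obtain ⟨C, hC0, hCs, hC⟩ := complete_s hli hcard hc1 has
    obtain ⟨h1, h2⟩ := ord_dt P e (fun l i => reg_gr' P hx (f l) (hm0' l) i) hC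
    have h1' : dt e (fun l => gr' x (f l) (m0 l)) C ≠ 0 := h1
    have h2' : P.ord (dt e (fun l => gr' x (f l) (m0 l)) C) = 0 := h2
    obtain ⟨h3, h4⟩ := ord_dt_gr P (e := e) hx hm0' hC
    obtain ⟨θ, hθ⟩ := exists_theta hx hgen hf h1' hE1
    have hdA : (dt e (fun l => gr' x (f l) (m0 l)) C)⁻¹ ∈ AA P x := by
      refine AA_inv P ?_ h1' h2'
      unfold dt
      rw [Matrix.det_apply']
      refine sum_mem fun σ _ => mul_mem (intCast_mem _ _) (prod_mem fun a _ => ?_)
      rcases σ a with a' | a'
      · exact hGA a' _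
      · exact intCast_mem _ _
    have hlg : ∀ a i, lg x (θ a) i ∈ AA P x := by
      intro a i
      obtain ⟨t', ht', h5⟩ := solve_mem h1' (AA P x) hGA hdA (w := lg x (θ a)) (z := 1) (by
        rintro (l | b)
        · exact ⟨0, zero_mem _, by
            rw [mul_zero]
            exact gr'_lg hx (hf l) (m0 l) (θ a)⟩
        · refine ⟨if a = b then 1 else 0, ?_, ?_⟩
          · split_ifs
            · exact one_mem _
            · exact zero_mem _
          · rw [one_mul]
            exact hθ a b) i
      rw [h5, one_mul]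
      exact ht'
    -- the first vector field
    have hδ : ∀ i, ∃ t' ∈ AA P x, lg x (θ 0) i - (s i : K) = mono x c1 * t' := by
      intro i
      refine solve_mem h1' (AA P x) hGA hdA (w := fun i => lg x (θ 0) i - (s i : K))
        (z := mono x c1) ?_ i
      rintro (l | b)
      · refine ⟨-tt l, neg_mem (A0_le P x (htt1 l)), ?_⟩
        change ∑ i, gr' x (f l) (m0 l) i * (lg x (θ 0) i - (s i : K)) = _
        simp only [mul_sub]
        rw [Finset.sum_sub_distrib, gr'_lg hx (hf l) (m0 l) (θ 0), htt2 l, zero_sub, mul_neg]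
      · refine ⟨0, zero_mem _, ?_⟩
        change ∑ i, (C b i : K) * (lg x (θ 0) i - (s i : K)) = _
        simp only [mul_sub]
        rw [Finset.sum_sub_distrib, hθ 0 b, mul_zero]
        have h5 : ∑ i, (C b i : K) * (s i : K) = ((C b ⬝ᵥ s : ℤ) : K) := by
          unfold dotProduct
          push_cast
          rfl
        rw [h5]
        refine Fin.cases ?_ (fun b => ?_) b
        · rw [if_pos rfl, hC0, hc1, Int.cast_one, sub_self]
        · rw [if_neg (Fin.succ_ne_zero b).symm, hCs, Int.cast_zero, sub_self]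
    choose δ hδ1 hδ2 using hδ
    let d : Fin (m + 1) → K := Fin.cons (mono x c1)⁻¹ fun _ => 1
    have hd0 : d 0 = (mono x c1)⁻¹ := rfl
    have hdprod : ∏ a, d a = (mono x c1)⁻¹ := by
      rw [Fin.prod_univ_succ]
      simp [d]
    refine ⟨fun a => d a • θ a, fun a => hpres _ fun w hw => ?_, ?_, ?_⟩
    · revert a
      intro a
      refine Fin.cases ?_ (fun a => ?_) a
      · change (d 0 • θ 0) (mono x w) ∈ _
        rw [hd0, Derivation.smul_apply, smul_eq_mul, der_mono (θ 0) hx]
        rw [hv, dotProduct_smul, smul_eq_mul] at hw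
        have hws : 0 ≤ w ⬝ᵥ s := nonneg_of_mul_nonneg_right hw hα
        rcases hws.lt_or_eq with h5 | h5
        · have h6 : (mono x c1)⁻¹ * (mono x w * ∑ i, (w i : K) * (θ 0 (x i) / x i)) =
              mono x (w - c1) * ∑ i, (w i : K) * lg x (θ 0) i := by
            rw [mono_sub hx]
            unfold lg
            ring
          rw [h6]
          refine mul_mem (A0_le P x (mono_mem P x ?_)) (sum_mem fun i _ =>
            mul_mem (intCast_mem _ _) (hlg 0 i))
          rw [hv, dotProduct_smul, smul_eq_mul, sub_dotProduct, hc1]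
          exact mul_nonneg hα.le (by omega)
        · have h6 : ∑ i, (w i : K) * (θ 0 (x i) / x i) = mono x c1 * ∑ i, (w i : K) * δ i := by
            have h7 : ∑ i, (w i : K) * (s i : K) = 0 := by
              have h8 : ∑ i, (w i : K) * (s i : K) = ((w ⬝ᵥ s : ℤ) : K) := by
                unfold dotProduct
                push_cast
                rfl
              rw [h8, ← h5, Int.cast_zero]
            have h9 : ∑ i, (w i : K) * (θ 0 (x i) / x i) =
                ∑ i, (w i : K) * (lg x (θ 0) i - (s i : K)) := by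
              simp only [mul_sub]
              rw [Finset.sum_sub_distrib, h7, sub_zero]
              rfl
            rw [h9, Finset.mul_sum]
            refine Finset.sum_congr rfl fun i _ => ?_
            rw [hδ2]
            ring
          rw [h6]
          have h7 : (mono x c1)⁻¹ * (mono x w * (mono x c1 * ∑ i, (w i : K) * δ i)) =
              mono x w * ∑ i, (w i : K) * δ i := by
            field_simp
          rw [h7]
          refine mul_mem (A0_le P x (mono_mem P x ?_)) (sum_mem fun i _ =>
            mul_mem (intCast_mem _ _) (hδ1 i))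
          rw [hv, dotProduct_smul, ← h5, smul_zero]
      · change ((1 : K) • θ a.succ) (mono x w) ∈ _
        rw [one_smul, der_mono (θ a.succ) hx]
        exact mul_mem (A0_le P x (mono_mem P x hw)) (sum_mem fun i _ =>
          mul_mem (intCast_mem _ _) (hlg a.succ i))
    · rw [om_eq hx hf h0 h3, om_theta hθ d, hdprod]
      exact div_ne_zero (inv_ne_zero hz0) h3
    · rw [om_eq hx hf h0 h3, om_theta hθ d, hdprod, P.ord_div (inv_ne_zero hz0) h3, P.ord_inv,
        hzord]
      have h5 : P.ord (dt e (fun l => gr x (f l)) C) = α * ∑ l, mn s (f l) := by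
        rw [h4, Finset.mul_sum]
        exact Finset.sum_congr rfl fun l _ => by rw [hv, mn_smul (hf0 l) hα.le]
      rw [h5, hv, dotProduct_smul, hs, smul_eq_mul]
      ring

end

end Pool.Agent.R885.N
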