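import Pool.Agent.R885.NG5
import Pool.Agent.R885.NG14
import Pool.Agent.R885.NFib

/-!
Pointwise version of `G11` and `G15`.
-/

set_option autoImplicit false
set_option linter.overlappingInstances false
set_option linter.unusedSectionVars false

open FF IntermediateField Pool.Agent.W619.PQ Pool.Agent.W619.PL Pool.Agent.W619.TW
  Pool.Agent.W603.LV Pool.Agent.W619.Y Pool.Agent.W824.PG Pool.Agent.TH122.AB
  Pool.Agent.Y173.QA Pool.Agent.Y174

namespace Pool.Agent.R885.N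

/-- **The generic fibre of a nondegenerate pair has numerical dimension zero.** -/
theorem pair_fibre_zero {k Λ F : Type} [Field k] [CharZero k] [Field Λ] [IsAlgClosed k]
    [Algebra k Λ] [Field F] [Algebra Λ F] [Algebra k F] [IsScalarTower k Λ F] {r d m : ℕ}
    {J : Type} [Fintype J] [DecidableEq J] (e : (J ⊕ Fin d) ⊕ Fin (m + 1) ≃ Fin r)
    (htr : Algebra.trdeg Λ F = (m + 1 : ℕ)) {x : Fin r → F} (hx : ∀ i, x i ≠ 0)
    (hgen : IntermediateField.adjoin Λ (Set.range x) = ⊤) {f : J → (Fin r → ℤ) →₀ k}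
    (hf0 : ∀ l, f l ≠ 0) (hf : ∀ l, ev x (f l) = 0)
    {J' : Type} [Fintype J'] {h : J' → (Fin r → ℤ) →₀ k} (hh0 : ∀ j, h j ≠ 0)
    (hhx : ∀ j, ev x (h j) ≠ 0)
    (hndX : NDX F x f)
    (hnd : ∀ (P : Place Λ F) (V : Finset J'), NDP P x fun l =>
      ((Sum.elim f fun j : V => h j) l).mapRange (algebraMap k Λ) (map_zero _))
    {S : Finset (Fin r → ℤ)} {u0 : Fin r → ℤ} {c : ℤ} {a' : (Fin r → ℤ) → ℤ} {nn : J' → ℤ}
    (hc : 0 < c) (hnn : ∀ j, 0 ≤ nn j) (hnc : ∀ j, nn j ≤ c)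
    (ha0 : ∀ v, v ≠ 0 → 0 ≤ a' v) (hac : ∀ v, v ≠ 0 → a' v ≤ c)
    (hA2 : ∀ v w, v ≠ 0 → w ≠ 0 → v + w ≠ 0 → a' v + a' w - c ≤ a' (v + w))
    (hA3 : ∀ (g : ℤ) v, 0 < g → v ≠ 0 → a' (g • v) ≤ g * a' v)
    (hF : ∀ v, v ≠ 0 → Ph c a' nn f h v ≤ u0 ⬝ᵥ v)
    (hS : ∀ s, s ∈ S ↔ s ≠ 0 ∧ u0 ⬝ᵥ s = Ph c a' nn f h s)
    (hpos : ∀ q : Fin r → ℚ, (∀ s ∈ S, 0 ≤ dq q s) → ∀ s ∈ S, dq q s = 0)
    {w : Fin d → Fin r → ℤ} (hw : ∀ j, w j ≠ 0) (hwS : ∀ j, ∀ s ∈ S, w j ⬝ᵥ s = 0)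
    {t : Fin d → Λ} (ht : AlgebraicIndependent k t) (hwt : ∀ j, algebraMap Λ F (t j) = mono x (w j))
    (hcon : ∀ w' : Fin r → ℤ, (∀ s ∈ S, w' ⬝ᵥ s = 0) → ∃ a : Λ, algebraMap Λ F a = mono x w')
    {β : Place Λ F → ℝ}
    (hβ0 : ∀ P : Place Λ F, vec P x = 0 → (∀ j, ¬ Ge P 1 (ev x (h j))) → β P ≤ 0)
    (hβ1 : ∀ (P : Place Λ F) j, vec P x = 0 → Ge P 1 (ev x (h j)) →
      (∀ j', Ge P 1 (ev x (h j')) → j' = j) → (c : ℝ) * β P ≤ (nn j : ℝ))
    (hβ2 : ∀ P : Place Λ F, vec P x ≠ 0 → (c : ℝ) * β P ≤ ((c - a' (vec P x) : ℤ) : ℝ)) :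
    PairNum Λ F (m + 1) β 0 := by
  classical
  have hcΛ : CharZero Λ := charZero_of_injective_algebraMap (algebraMap k Λ).injective
  have hsp : ∀ P : Place Λ F, InSpan S (vec P x) := by
    intro P w' hw'
    obtain ⟨a, ha⟩ := hcon w' hw'
    rw [← ord_mono P hx, ← ha]
    have ha0 : a ≠ 0 := by
      rintro rfl
      rw [map_zero] at ha
      exact mono_ne hx w' ha.symm
    exact P.ord_const ha0
  have hwv : ∀ v, InSpan S v → ∀ j, w j ⬝ᵥ v = 0 := fun v hv j => hv (w j) (hwS j)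
  have hsum : ∀ v, InSpan S v → ∑ l, mn v (fibSys f w t l) = ∑ l, mn v (f l) := by
    intro v hv
    rw [Fintype.sum_sum_type]
    have h1 : ∀ l, mn v (fibSys f w t (Sum.inl l)) = mn v (f l) := fun l => by
      rw [fibSys_inl, mn_map]
    have h2 : ∀ j, mn v (fibSys f w t (Sum.inr j)) = 0 := fun j => by
      rw [fibSys_inr, bin_mn (hw j) _ (hwv v hv j)]
    rw [Finset.sum_congr rfl fun l _ => h1 l, Finset.sum_eq_zero fun j _ => h2 j, add_zero]
  obtain ⟨h', hh'd⟩ : ∃ h' : J' → (Fin r → ℤ) →₀ Λ,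
    h' = fun j => (h j).mapRange (algebraMap k Λ) (map_zero _) := ⟨_, rfl⟩
  have hmn' : ∀ v j, mn v (h' j) = mn v (h j) := fun v j => by rw [hh'd]; exact mn_map _ _
  have hev' : ∀ j, ev x (h' j) = ev x (h j) := fun j => by rw [hh'd]; exact ev_map _ _
  have hh'0 : ∀ j, h' j ≠ 0 := by
    intro j h0
    apply hh0 j
    have h1 := supp_map (Λ := Λ) (h j)
    rw [hh'd] at h0
    have h2 : (h j).mapRange (algebraMap k Λ) (map_zero _) = 0 := h0
    rw [h2, Finsupp.support_zero] at h1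
    exact Finsupp.support_eq_empty.1 h1.symm
  have hPh : ∀ v, InSpan S v → Ph c a' nn (fibSys f w t) h' v = Ph c a' nn f h v := by
    intro v hv
    unfold Ph
    rw [hsum v hv]
    simp only [hmn']
  have hvan : ∀ (P : Place Λ F) j, vec P x = 0 → (Van P x (h' j) ↔ Ge P 1 (ev x (h j))) := by
    intro P j hv
    unfold Van
    rw [hv, mn_zero (hh'0 j), zero_add, hev']
  have hndk : ∀ P : Place Λ F, NDP P x fun l => (f l).mapRange (algebraMap k Λ) (map_zero _) :=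
    fun P => ndp_comp (f := fun l => ((Sum.elim f fun j : (∅ : Finset J') => h j) l).mapRange
      (algebraMap k Λ) (map_zero _)) (Sum.inl : J → J ⊕ (∅ : Finset J'))
      Sum.inl_injective (by
        rintro (l | j)
        · exact ⟨l, rfl⟩
        · exact absurd j.2 (Finset.notMem_empty _)) (fun _ => rfl) (hnd P ∅)
  refine pairNum_zeroW (f := fibSys f w t) (h := h') (S := S) (u0 := u0) (c := c) (a' := a')
    (nn := nn) htr hx hgen e ?_ ?_ ?_ ?_ hh'0 ?_ ?_ hc hnn hnc ha0 hac hA2 hA3 ?_ ?_ hpos hsp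
    ?_ ?_ ?_
  · rintro (l | j)
    · rw [fibSys_inl]
      intro h0
      apply hf0 l
      have h1 := supp_map (Λ := Λ) (f l)
      rw [h0, Finsupp.support_zero] at h1
      exact Finsupp.support_eq_empty.1 h1.symm
    · rw [fibSys_inr]
      exact bin_ne (hw j) _
  · rintro (l | j)
    · rw [fibSys_inl, ev_map]
      exact hf l
    · rw [fibSys_inr, bin_ev, hwt, sub_self]
  · exact ndx_fibre hx hndX hw ht
  · intro P
    exact ndp_fibre hx (hndk P) hw ht (hwv _ (hsp P))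
  · intro j
    rw [hev']
    exact hhx j
  · intro P V
    refine ndp_comp (f := fibSys (Sum.elim f fun j : V => h j) w t)
      (Sum.elim (Sum.elim (fun l => Sum.inl (Sum.inl l)) Sum.inr) fun j => Sum.inl (Sum.inr j))
      ?_ ?_ ?_ (ndp_fibre hx (hnd P V) hw ht (hwv _ (hsp P)))
    · rintro ((l | j) | j) ((l' | j') | j') hll
      all_goals first
        | (simp only [Sum.elim_inl, Sum.elim_inr, Sum.inl.injEq, Sum.inr.injEq] at hll
           rw [hll])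
        | (simp only [Sum.elim_inl, Sum.elim_inr, reduceCtorEq, Sum.inl.injEq] at hll)
    · rintro ((l | j) | j)
      · exact ⟨Sum.inl (Sum.inl l), rfl⟩
      · exact ⟨Sum.inr j, rfl⟩
      · exact ⟨Sum.inl (Sum.inr j), rfl⟩
    · rintro ((l | j) | j)
      · rfl
      · rfl
      · rw [hh'd]
        rfl
  · intro v hv hvS
    rw [hPh v hvS]
    exact hF v hv
  · intro s
    rw [hS]
    constructor
    · rintro ⟨h1, h2⟩
      have h3 : InSpan S s := fun w' hw' => hw' s ((hS s).2 ⟨h1, h2⟩)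
      exact ⟨h1, h3, by rw [hPh s h3]; exact h2⟩
    · rintro ⟨h1, h2, h3⟩
      rw [hPh s h2] at h3
      exact ⟨h1, h3⟩
  · intro P hv hj
    exact hβ0 P hv fun j h1 => hj j ((hvan P j hv).2 h1)
  · intro P j hv hj hu
    exact hβ1 P j hv ((hvan P j hv).1 hj) fun j' h1 => hu j' ((hvan P j' hv).2 h1)
  · intro P hP
    exact hβ2 P ((hS _).1 hP).1

/-- **The generic fibre without sections of high multiples.** -/
theorem pair_fibre_neg {k Λ F : Type} [Field k] [CharZero k] [Field Λ] [IsAlgClosed k]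
    [Algebra k Λ] [Field F] [Algebra Λ F] [Algebra k F] [IsScalarTower k Λ F] {r d m : ℕ}
    {J : Type} [Fintype J] [DecidableEq J] (e : (J ⊕ Fin d) ⊕ Fin (m + 1) ≃ Fin r)
    (htr : Algebra.trdeg Λ F = (m + 1 : ℕ)) {x : Fin r → F} (hx : ∀ i, x i ≠ 0)
    (hgen : IntermediateField.adjoin Λ (Set.range x) = ⊤) {f : J → (Fin r → ℤ) →₀ k}
    (hf0 : ∀ l, f l ≠ 0) (hf : ∀ l, ev x (f l) = 0)
    {J' : Type} [Fintype J'] {h : J' → (Fin r → ℤ) →₀ k} (hh0 : ∀ j, h j ≠ 0)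
    (hhx : ∀ j, ev x (h j) ≠ 0)
    (hndX : NDX F x f)
    (hnd : ∀ (P : Place Λ F) (V : Finset J'), NDP P x fun l =>
      ((Sum.elim f fun j : V => h j) l).mapRange (algebraMap k Λ) (map_zero _))
    {S : Finset (Fin r → ℤ)} {u0 : Fin r → ℤ} {c : ℤ} {a' : (Fin r → ℤ) → ℤ} {nn : J' → ℤ}
    (hc : 0 < c) (hnn : ∀ j, 0 ≤ nn j) (hnc : ∀ j, nn j ≤ c)
    (ha0 : ∀ v, v ≠ 0 → 0 ≤ a' v) (hac : ∀ v, v ≠ 0 → a' v ≤ c)
    (hA2 : ∀ v w, v ≠ 0 → w ≠ 0 → v + w ≠ 0 → a' v + a' w - c ≤ a' (v + w))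
    (hA3 : ∀ (g : ℤ) v, 0 < g → v ≠ 0 → a' (g • v) ≤ g * a' v)
    (hF : ∀ v, v ≠ 0 → Ph c a' nn f h v ≤ u0 ⬝ᵥ v)
    (hS : ∀ s, s ∈ S ↔ s ≠ 0 ∧ u0 ⬝ᵥ s = Ph c a' nn f h s)
    (hpos : ∀ q : Fin r → ℚ, (∀ s ∈ S, 0 ≤ dq q s) → ∀ s ∈ S, dq q s = 0)
    {w : Fin d → Fin r → ℤ} (hw : ∀ j, w j ≠ 0) (hwS : ∀ j, ∀ s ∈ S, w j ⬝ᵥ s = 0)
    {t : Fin d → Λ} (ht : AlgebraicIndependent k t) (hwt : ∀ j, algebraMap Λ F (t j) = mono x (w j))
    (hcon : ∀ w' : Fin r → ℤ, (∀ s ∈ S, w' ⬝ᵥ s = 0) → ∃ a : Λ, algebraMap Λ F a = mono x w')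
    {β : Place Λ F → ℝ}
    (hβ0 : ∀ P : Place Λ F, vec P x = 0 → (∀ j, ¬ Ge P 1 (ev x (h j))) → β P ≤ 0)
    (hβ1 : ∀ (P : Place Λ F) j, vec P x = 0 → Ge P 1 (ev x (h j)) →
      (∀ j', Ge P 1 (ev x (h j')) → j' = j) → (c : ℝ) * β P ≤ (nn j : ℝ))
    {ε : ℝ} (hε : 0 < ε) (hβ2 : ∀ P : Place Λ F, vec P x ≠ 0 →
      (c : ℝ) * β P + ε ≤ ((c - a' (vec P x) : ℤ) : ℝ)) (T : Finset F) :
    ∃ M0 : ℕ, ∀ M : ℕ, M0 ≤ M → ∀ ω : (Fin (m + 1) → Derivation Λ F F) → F,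
      PairSec Λ F (m + 1) β T M 1 ω → ω = 0 := by
  classical
  have hcΛ : CharZero Λ := charZero_of_injective_algebraMap (algebraMap k Λ).injective
  have hsp : ∀ P : Place Λ F, InSpan S (vec P x) := by
    intro P w' hw'
    obtain ⟨a, ha⟩ := hcon w' hw'
    rw [← ord_mono P hx, ← ha]
    have ha0 : a ≠ 0 := by
      rintro rfl
      rw [map_zero] at ha
      exact mono_ne hx w' ha.symm
    exact P.ord_const ha0
  have hwv : ∀ v, InSpan S v → ∀ j, w j ⬝ᵥ v = 0 := fun v hv j => hv (w j) (hwS j)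
  have hsum : ∀ v, InSpan S v → ∑ l, mn v (fibSys f w t l) = ∑ l, mn v (f l) := by
    intro v hv
    rw [Fintype.sum_sum_type]
    have h1 : ∀ l, mn v (fibSys f w t (Sum.inl l)) = mn v (f l) := fun l => by
      rw [fibSys_inl, mn_map]
    have h2 : ∀ j, mn v (fibSys f w t (Sum.inr j)) = 0 := fun j => by
      rw [fibSys_inr, bin_mn (hw j) _ (hwv v hv j)]
    rw [Finset.sum_congr rfl fun l _ => h1 l, Finset.sum_eq_zero fun j _ => h2 j, add_zero]
  obtain ⟨h', hh'd⟩ : ∃ h' : J' → (Fin r → ℤ) →₀ Λ,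
    h' = fun j => (h j).mapRange (algebraMap k Λ) (map_zero _) := ⟨_, rfl⟩
  have hmn' : ∀ v j, mn v (h' j) = mn v (h j) := fun v j => by rw [hh'd]; exact mn_map _ _
  have hev' : ∀ j, ev x (h' j) = ev x (h j) := fun j => by rw [hh'd]; exact ev_map _ _
  have hh'0 : ∀ j, h' j ≠ 0 := by
    intro j h0
    apply hh0 j
    have h1 := supp_map (Λ := Λ) (h j)
    rw [hh'd] at h0
    have h2 : (h j).mapRange (algebraMap k Λ) (map_zero _) = 0 := h0
    rw [h2, Finsupp.support_zero] at h1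
    exact Finsupp.support_eq_empty.1 h1.symm
  have hPh : ∀ v, InSpan S v → Ph c a' nn (fibSys f w t) h' v = Ph c a' nn f h v := by
    intro v hv
    unfold Ph
    rw [hsum v hv]
    simp only [hmn']
  have hvan : ∀ (P : Place Λ F) j, vec P x = 0 → (Van P x (h' j) ↔ Ge P 1 (ev x (h j))) := by
    intro P j hv
    unfold Van
    rw [hv, mn_zero (hh'0 j), zero_add, hev']
  have hndk : ∀ P : Place Λ F, NDP P x fun l => (f l).mapRange (algebraMap k Λ) (map_zero _) :=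
    fun P => ndp_comp (f := fun l => ((Sum.elim f fun j : (∅ : Finset J') => h j) l).mapRange
      (algebraMap k Λ) (map_zero _)) (Sum.inl : J → J ⊕ (∅ : Finset J'))
      Sum.inl_injective (by
        rintro (l | j)
        · exact ⟨l, rfl⟩
        · exact absurd j.2 (Finset.notMem_empty _)) (fun _ => rfl) (hnd P ∅)
  refine pairNeg_zeroW (f := fibSys f w t) (h := h') (S := S) (u0 := u0) (c := c) (a' := a')
    (nn := nn) htr hx hgen e ?_ ?_ ?_ ?_ hh'0 ?_ ?_ hc hnn hnc ha0 hac hA2 hA3 ?_ ?_ hpos hsp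
    ?_ ?_ hε ?_ T
  · rintro (l | j)
    · rw [fibSys_inl]
      intro h0
      apply hf0 l
      have h1 := supp_map (Λ := Λ) (f l)
      rw [h0, Finsupp.support_zero] at h1
      exact Finsupp.support_eq_empty.1 h1.symm
    · rw [fibSys_inr]
      exact bin_ne (hw j) _
  · rintro (l | j)
    · rw [fibSys_inl, ev_map]
      exact hf l
    · rw [fibSys_inr, bin_ev, hwt, sub_self]
  · exact ndx_fibre hx hndX hw ht
  · intro P
    exact ndp_fibre hx (hndk P) hw ht (hwv _ (hsp P))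
  · intro j
    rw [hev']
    exact hhx j
  · intro P V
    refine ndp_comp (f := fibSys (Sum.elim f fun j : V => h j) w t)
      (Sum.elim (Sum.elim (fun l => Sum.inl (Sum.inl l)) Sum.inr) fun j => Sum.inl (Sum.inr j))
      ?_ ?_ ?_ (ndp_fibre hx (hnd P V) hw ht (hwv _ (hsp P)))
    · rintro ((l | j) | j) ((l' | j') | j') hll
      all_goals first
        | (simp only [Sum.elim_inl, Sum.elim_inr, Sum.inl.injEq, Sum.inr.injEq] at hll
           rw [hll])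
        | (simp only [Sum.elim_inl, Sum.elim_inr, reduceCtorEq, Sum.inl.injEq] at hll)
    · rintro ((l | j) | j)
      · exact ⟨Sum.inl (Sum.inl l), rfl⟩
      · exact ⟨Sum.inr j, rfl⟩
      · exact ⟨Sum.inl (Sum.inr j), rfl⟩
    · rintro ((l | j) | j)
      · rfl
      · rfl
      · rw [hh'd]
        rfl
  · intro v hv hvS
    rw [hPh v hvS]
    exact hF v hv
  · intro s
    rw [hS]
    constructor
    · rintro ⟨h1, h2⟩
      have h3 : InSpan S s := fun w' hw' => hw' s ((hS s).2 ⟨h1, h2⟩)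
      exact ⟨h1, h3, by rw [hPh s h3]; exact h2⟩
    · rintro ⟨h1, h2, h3⟩
      rw [hPh s h2] at h3
      exact ⟨h1, h3⟩
  · intro P hv hj
    exact hβ0 P hv fun j h1 => hj j ((hvan P j hv).2 h1)
  · intro P j hv hj hu
    exact hβ1 P j hv ((hvan P j hv).1 hj) fun j' h1 => hu j' ((hvan P j' hv).2 h1)
  · intro P hP
    exact hβ2 P ((hS _).1 hP).1


end Pool.Agent.R885.N
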