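import Pool.Agent.R885.NG7
import Pool.Agent.R885.NG11

/-!
Pointwise version of `G12` and `G16`.
-/

set_option autoImplicit false
set_option linter.overlappingInstances false
set_option linter.unusedSectionVars false

open FF IntermediateField Pool.Agent.W619.PQ Pool.Agent.W619.PL Pool.Agent.W619.TW
  Pool.Agent.W603.LV Pool.Agent.W619.Y Pool.Agent.W824.PG Pool.Agent.TH122.AB
  Pool.Agent.Y173.QA Pool.Agent.Y174

namespace Pool.Agent.R885.N

/-- **Abundance for nondegenerate pairs.** -/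
theorem mainW {k K : Type} [Field k] [CharZero k] [IsAlgClosed k] [Field K] [Algebra k K]
    {r n q p : ℕ} (hn : 1 ≤ n) (hr : r = n + q) (htr : Algebra.trdeg k K = (n : ℕ)) {x : Fin r → K}
    (hx : ∀ i, x i ≠ 0) (hgen : IntermediateField.adjoin k (Set.range x) = ⊤)
    {f : Fin q → (Fin r → ℤ) →₀ k} (hf : ∀ l, ev x (f l) = 0)
    {h : Fin p → (Fin r → ℤ) →₀ k} (hhx : ∀ j, ev x (h j) ≠ 0)
    (hndf : HN x f) (hnd : ∀ V : Finset (Fin p), HN x (Sum.elim f fun j : V => h j))
    {A : (Fin r → ℤ) → ℚ} {cw : Fin p → ℚ} {D : ℕ} (hD : 1 ≤ D)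
    (hA : ∀ v, v ≠ 0 → 0 < A v) (hA1 : ∀ v, A v ≤ 1) (hAD : ∀ v, ∃ z : ℤ, (D : ℚ) * A v = z)
    (hcD : ∀ j, ∃ z : ℤ, (D : ℚ) * cw j = z) (hc0 : ∀ j, 0 ≤ cw j) (hc1 : ∀ j, cw j ≤ 1)
    (hA2 : ∀ v w, v ≠ 0 → w ≠ 0 → v + w ≠ 0 → A v + A w - 1 ≤ A (v + w))
    (hA3 : ∀ (g : ℤ) v, 0 < g → v ≠ 0 → A (g • v) ≤ g * A v)
    (hF : (FineW A (Sum.elim (fun _ => 1) cw) (Sum.elim f h)).Nonempty) {d : ℕ}
    (hd : Algebra.trdeg k (IntermediateField.adjoin k
      {z : K | ∃ w ∈ dirsW A (Sum.elim (fun _ => 1) cw) (Sum.elim f h), z = mono x w}) =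
      (d : ℕ)) :
    PairKod k K n (fun P => (bdry A cw x h P : ℝ)) d ∧
      PairNum k K n (fun P => (bdry A cw x h P : ℝ)) d := by
  classical
  have hini : ∀ g : (Fin r → ℤ) →₀ k, ini 0 g = g := by
    intro g
    by_cases hg : g = 0
    · rw [hg]
      unfold ini
      rw [Finsupp.filter_zero]
    · exact ini_zero hg
  have hf0 : ∀ l, f l ≠ 0 := by
    have h1 := hndf.self fun l => by rw [hini]; exact hf l
    intro l h0
    have h2 := h1.ne_zero l
    apply h2
    rw [hini, h0]
    funext i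
    unfold gr
    exact Finsupp.sum_zero_index
  have hh0 : ∀ j, h j ≠ 0 := by
    intro j h0
    apply hhx j
    rw [h0]
    unfold ev
    exact Finsupp.sum_zero_index
  have hndP : ∀ P : Place k K, NDP P x f := fun P => hndf.places P
  obtain ⟨u0, c, a, nl, S, B, hc, hB, ha, hnl, hF', hS, hpos, hgr, hdirs⟩ :=
    exists_tightW (g := Sum.elim f h) (wt := Sum.elim (fun _ => 1) cw) (by
      rintro (l | j)
      · exact hf0 l
      · exact hh0 j) hD hA hA1 hAD (by
      rintro (l | j)
      · exact ⟨D, by simp⟩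
      · exact hcD j) hF
  have hcq : (0 : ℚ) < c := by exact_mod_cast hc
  have hnl1 : ∀ l, nl (Sum.inl l) = c := by
    intro l
    have h1 := hnl (Sum.inl l)
    rw [Sum.elim_inl, mul_one] at h1
    exact_mod_cast h1
  obtain ⟨nn, hnnd⟩ : ∃ nn : Fin p → ℤ, nn = fun j => nl (Sum.inr j) := ⟨_, rfl⟩
  have hnnq : ∀ j, (nn j : ℚ) = c * cw j := by
    intro j
    rw [hnnd]
    exact hnl (Sum.inr j)
  have hPh : ∀ v, a v + ∑ l, nl l * mn v (Sum.elim f h l) = Ph c a nn f h v := by
    intro v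
    unfold Ph
    rw [Fintype.sum_sum_type, Finset.mul_sum, ← add_assoc, hnnd]
    congr 2
    refine Finset.sum_congr rfl fun l _ => ?_
    rw [hnl1]
    rfl
  simp only [hPh] at hF' hS hgr
  have hnn : ∀ j, 0 ≤ nn j := by
    intro j
    have h1 : (0 : ℚ) ≤ nn j := by
      rw [hnnq]
      exact mul_nonneg hcq.le (hc0 j)
    exact_mod_cast h1
  have hnc : ∀ j, nn j ≤ c := by
    intro j
    have h1 : (nn j : ℚ) ≤ c := by
      rw [hnnq]
      have := hc1 j
      nlinarith
    exact_mod_cast h1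
  have ha0 : ∀ v, v ≠ 0 → 0 ≤ a v := by
    intro v hv
    have h1 : (0 : ℚ) ≤ a v := by
      rw [ha]
      exact mul_nonneg hcq.le (hA v hv).le
    exact_mod_cast h1
  have hac : ∀ v, v ≠ 0 → a v ≤ c := by
    intro v _
    have h1 : (a v : ℚ) ≤ c := by
      rw [ha]
      have := hA1 v
      nlinarith
    exact_mod_cast h1
  have ha2 : ∀ v w, v ≠ 0 → w ≠ 0 → v + w ≠ 0 → a v + a w - c ≤ a (v + w) := by
    intro v w hv hw hvw
    have h1 : (a v : ℚ) + a w - c ≤ a (v + w) := by
      rw [ha, ha, ha]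
      have h2 := mul_le_mul_of_nonneg_left (hA2 v w hv hw hvw) hcq.le
      linarith
    exact_mod_cast h1
  have ha3 : ∀ (g : ℤ) v, 0 < g → v ≠ 0 → a (g • v) ≤ g * a v := by
    intro g v hg hv
    have h1 : (a (g • v) : ℚ) ≤ g * a v := by
      rw [ha, ha]
      have h2 := mul_le_mul_of_nonneg_left (hA3 g v hg hv) hcq.le
      linarith
    exact_mod_cast h1
  have hvanK : ∀ (P : Place k K) j, vec P x = 0 → (Van P x (h j) ↔ 0 < P.ord (ev x (h j))) := by
    intro P j hv
    unfold Van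
    rw [hv, mn_zero (hh0 j), zero_add]
    constructor
    · intro h1
      have := h1.resolve_left (hhx j)
      omega
    · intro h1
      exact Or.inr (by omega)
  have hcr : (0 : ℝ) < c := by exact_mod_cast hc
  obtain ⟨t, htG, htind, htalg⟩ := exists_mono_basis hd
  choose w hw hwt using htG
  have hwS : ∀ j, ∀ s ∈ S, w j ⬝ᵥ s = 0 := fun j => (hdirs (w j)).1 (hw j)
  have htw : t = fun j => mono x (w j) := funext hwt
  obtain ⟨Z, hZ⟩ := Pool.Agent.W636.PG.exists_basis k K n htr
  have e : Fin q ⊕ Fin n ≃ Fin r := Fintype.equivOfCardEq (by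
    rw [Fintype.card_sum, Fintype.card_fin, Fintype.card_fin, Fintype.card_fin, hr, add_comm])
  refine ⟨pairKod_geW hx hgen e hf0 hf hndf.self hndP hZ hh0 hhx
    (fun P V => (hnd V).places P) hc hnc hF' hB hgr hwS (by rw [← htw]; exact htind)
    ?_ ?_ ?_, ?_⟩
  · intro P _ _ _
    exact_mod_cast bdry_nonneg hA1
  · intro P _ hv hex
    have hex' : ∃ j, 0 < P.ord (ev x (h j)) := by
      obtain ⟨j, hj⟩ := hex
      exact ⟨j, (hvanK P j hv).1 hj⟩
    have hfil : Finset.univ.filter (fun j => Van P x (h j)) =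
        Finset.univ.filter (fun j => 0 < P.ord (ev x (h j))) :=
      Finset.filter_congr fun j _ => hvanK P j hv
    have h1 : ((c - ∑ j ∈ Finset.univ.filter (fun j => Van P x (h j)), (c - nn j) : ℤ) : ℚ) ≤
        c * bdry A cw x h P := by
      rw [bdry_van hv hex', hfil]
      have h2 : ((c - ∑ j ∈ Finset.univ.filter (fun j => 0 < P.ord (ev x (h j))),
          (c - nn j) : ℤ) : ℚ) = c * (1 - ∑ j ∈ Finset.univ.filter
            (fun j => 0 < P.ord (ev x (h j))), (1 - cw j)) := by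
        push_cast
        rw [mul_sub, mul_one, Finset.mul_sum]
        congr 1
        refine Finset.sum_congr rfl fun j _ => ?_
        rw [hnnq]
        ring
      rw [h2]
      exact mul_le_mul_of_nonneg_left (le_max_right _ _) hcq.le
    exact_mod_cast h1
  · intro P _ hv
    have h1 : ((c - a (vec P x) : ℤ) : ℚ) ≤ c * bdry A cw x h P := by
      rw [bdry_ne hv]
      push_cast
      rw [ha]
      linarith
    exact_mod_cast h1
  have hess : Algebra.EssFiniteType k K := by
    rw [← IntermediateField.fg_top_iff, ← hgen]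
    exact ⟨Finset.univ.image x, by rw [Finset.coe_image, Finset.coe_univ, Set.image_univ]⟩
  have hG : ∀ P : Place k K, 0 < ((bdry A cw x h P : ℚ) : ℝ) →
      ∃ g ∈ Finset.univ.image x ∪ Finset.univ.image (fun j => ev x (h j)), P.ord g ≠ 0 := by
    intro P hP
    by_cases hv : vec P x = 0
    · by_cases hj : ∃ j, 0 < P.ord (ev x (h j))
      · obtain ⟨j, hj⟩ := hj
        exact ⟨_, Finset.mem_union_right _ (Finset.mem_image_of_mem _ (Finset.mem_univ j)), hj.ne'⟩
      · push Not at hj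
        rw [bdry_no hv fun j => not_lt.2 (hj j)] at hP
        norm_num at hP
    · obtain ⟨i, hi⟩ : ∃ i, vec P x i ≠ 0 := by
        by_contra hcon
        push Not at hcon
        exact hv (funext hcon)
      exact ⟨x i, Finset.mem_union_left _ (Finset.mem_image_of_mem _ (Finset.mem_univ i)), hi⟩
  have hδ1 : ∀ P : Place k K, ((bdry A cw x h P : ℚ) : ℝ) ≤ 1 := by
    intro P
    exact_mod_cast bdry_le hA hc1
  have hdn : d ≤ n := by
    have h1 := htind.cardinalMk_le_trdeg
    rw [htr, Cardinal.mk_fin] at h1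
    exact_mod_cast h1
  rcases hdn.lt_or_eq with hlt | rfl
  · -- the generic fibre
    obtain ⟨m, rfl⟩ : ∃ m, n = d + (m + 1) := ⟨n - d - 1, by omega⟩
    refine pair_gen (h := 0) hess htind htr hG hδ1 ?_
    intro Λ F _ _ _ _ _ _ _ φ hφgen hΛF t' ht' htt' hcon δ' hδ'
    have hinj : Function.Injective φ := (φ : K →+* F).injective
    have e' : (Fin q ⊕ Fin d) ⊕ Fin (m + 1) ≃ Fin r := Fintype.equivOfCardEq (by
      simp only [Fintype.card_sum, Fintype.card_fin]
      omega)
    have hmono : ∀ w' : Fin r → ℤ, φ (mono x w') = mono (fun i => φ (x i)) w' := fun w' =>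
      map_mono (φ : K →+* F) x w'
    have hevφ : ∀ j, ev (fun i => φ (x i)) (h j) = φ (ev x (h j)) := fun j => (map_ev φ x _).symm
    -- places under the places of the fibre
    have hvecφ : ∀ (P : Place Λ F) (v : Place k K) (e : ℕ), (∀ z, P.ord (φ z) = e * v.ord z) →
        vec P (fun i => φ (x i)) = (e : ℤ) • vec v x := by
      intro P v e hv
      funext i
      exact hv (x i)
    have hgeφ : ∀ (P : Place Λ F) (v : Place k K) (e : ℕ), 0 < e →
        (∀ z, P.ord (φ z) = e * v.ord z) → ∀ j,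
        (Ge P 1 (ev (fun i => φ (x i)) (h j)) ↔ 0 < v.ord (ev x (h j))) := by
      intro P v e he hv j
      have he' : (0 : ℤ) < e := by exact_mod_cast he
      rw [hevφ]
      constructor
      · intro h1
        have h2 := h1.resolve_left fun h0 => hhx j (hinj (by rw [h0, map_zero]))
        rw [hv] at h2
        by_contra hcon
        push Not at hcon
        have := mul_nonpos_of_nonneg_of_nonpos he'.le hcon
        omega
      · intro h1
        right
        rw [hv]
        have := mul_pos he' h1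
        omega
    refine pair_fibre_zero (k := k) (f := f) (h := h) (S := S) (u0 := u0) (c := c) (a' := a)
      (nn := nn) (w := w) (t := t')
      (x := fun i => φ (x i)) e' hΛF ?_ ?_ hf0 ?_ hh0 ?_ (hndf.gen F φ)
      (fun P V => (hnd V).place Λ F φ P) hc hnn hnc ha0 hac ha2 ha3 hF' hS hpos
      ?_ hwS ht' ?_ ?_ ?_ ?_ ?_
    · intro i h0
      exact hx i (hinj (by rw [h0, map_zero]))
    · rw [eq_top_iff, ← hφgen, IntermediateField.adjoin_le_iff]
      rintro _ ⟨z, rfl⟩
      have hz : z ∈ IntermediateField.adjoin k (Set.range x) := by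
        rw [hgen]
        trivial
      have h1 : IntermediateField.adjoin k (Set.range x) ≤
          ((IntermediateField.adjoin Λ (Set.range fun i => φ (x i))).restrictScalars k).comap
            φ := by
        rw [IntermediateField.adjoin_le_iff]
        rintro _ ⟨i, rfl⟩
        exact IntermediateField.subset_adjoin Λ _ ⟨i, rfl⟩
      exact h1 hz
    · intro l
      rw [← map_ev, hf, map_zero]
    · intro j h0
      rw [hevφ] at h0
      exact hhx j (hinj (by rw [h0, map_zero]))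
    · intro j h0
      have h1 : t j = algebraMap k K 1 := by
        rw [hwt, h0, mono_zero, map_one]
      have h2 := htind.transcendental j
      rw [h1] at h2
      exact h2 (isAlgebraic_algebraMap 1)
    · intro j
      rw [htt', hwt, hmono]
    · intro w' hw'
      have h1 := htalg (mono x w') ⟨w', (hdirs w').2 hw', rfl⟩
      obtain ⟨a, ha⟩ := hcon _ h1
      exact ⟨a, by rw [ha, hmono]⟩
    · intro P hP hj
      rcases hδ' P with ⟨v, e, he, hv, hδ⟩ | h0
      · have he' : ((e : ℕ) : ℤ) ≠ 0 := by omega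
        have hvv : vec v x = 0 := by
          rw [hvecφ P v e hv] at hP
          exact (smul_eq_zero.1 hP).resolve_left he'
        rw [hδ, bdry_no hvv fun j h1 => hj j ((hgeφ P v e he hv j).2 h1)]
        have h1 : (1 : ℝ) ≤ e := by exact_mod_cast he
        refine max_le le_rfl ?_
        push_cast
        linarith
      · exact h0.le
    · intro P j hP hj hu
      have hnnr : (nn j : ℝ) = c * (cw j : ℝ) := by exact_mod_cast hnnq j
      have hcwr : (0 : ℝ) ≤ (cw j : ℝ) := by exact_mod_cast hc0 j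
      have hcwr1 : ((cw j : ℚ) : ℝ) ≤ 1 := by exact_mod_cast hc1 j
      rcases hδ' P with ⟨v, e, he, hv, hδ⟩ | h0
      · have he' : ((e : ℕ) : ℤ) ≠ 0 := by omega
        have hvv : vec v x = 0 := by
          rw [hvecφ P v e hv] at hP
          exact (smul_eq_zero.1 hP).resolve_left he'
        rw [hδ, bdry_one hvv ((hgeφ P v e he hv j).1 hj)
          (fun j' h1 => hu j' ((hgeφ P v e he hv j').2 h1)) (hc0 j), hnnr]
        refine mul_le_mul_of_nonneg_left (max_le hcwr ?_) hcr.le
        have h1 : (1 : ℝ) ≤ e := by exact_mod_cast he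
        nlinarith
      · rw [h0, mul_zero]
        exact_mod_cast hnn j
    · intro P hP
      have hac' := hac _ hP
      have h0' : (0 : ℝ) ≤ ((c - a (vec P fun i => φ (x i)) : ℤ) : ℝ) := by
        have : 0 ≤ c - a (vec P fun i => φ (x i)) := by omega
        exact_mod_cast this
      rcases hδ' P with ⟨v, e, he, hv, hδ⟩ | h0
      · have he' : (0 : ℤ) < (e : ℕ) := by omega
        have hPv := hvecφ P v e hv
        have hvv : vec v x ≠ 0 := by
          intro h1
          rw [h1, smul_zero] at hPv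
          exact hP hPv
        rw [hδ, bdry_ne hvv]
        have h1 := ha3 e (vec v x) he' hvv
        rw [← hPv] at h1
        have h2 : (a (vec v x) : ℝ) = c * ((A (vec v x) : ℚ) : ℝ) := by exact_mod_cast ha (vec v x)
        have h3 : (a (vec P fun i => φ (x i)) : ℝ) ≤ e * a (vec v x) := by exact_mod_cast h1
        rw [mul_max_of_nonneg _ _ hcr.le, mul_zero]
        refine max_le h0' ?_
        push_cast
        rw [h2] at h3
        linarith
      · rw [h0, mul_zero]
        exact h0'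
  · -- the top dimension
    exact pair_top hess htr hG hδ1

/-- **Nondegenerate pairs which are not pseudoeffective.** -/
theorem mainNeg {k K : Type} [Field k] [CharZero k] [IsAlgClosed k] [Field K] [Algebra k K]
    {r n q p : ℕ} (hn : 1 ≤ n) (hr : r = n + q) (htr : Algebra.trdeg k K = (n : ℕ)) {x : Fin r → K}
    (hx : ∀ i, x i ≠ 0) (hgen : IntermediateField.adjoin k (Set.range x) = ⊤)
    {f : Fin q → (Fin r → ℤ) →₀ k} (hf : ∀ l, ev x (f l) = 0)
    {h : Fin p → (Fin r → ℤ) →₀ k} (hhx : ∀ j, ev x (h j) ≠ 0)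
    (hndf : HN x f) (hnd : ∀ V : Finset (Fin p), HN x (Sum.elim f fun j : V => h j))
    {A : (Fin r → ℤ) → ℚ} {cw : Fin p → ℚ} {D : ℕ} (hD : 1 ≤ D)
    (hA : ∀ v, v ≠ 0 → 0 < A v) (hA1 : ∀ v, A v ≤ 1) (hAD : ∀ v, ∃ z : ℤ, (D : ℚ) * A v = z)
    (hcD : ∀ j, ∃ z : ℤ, (D : ℚ) * cw j = z) (hc0 : ∀ j, 0 ≤ cw j) (hc1 : ∀ j, cw j ≤ 1)
    (hA2 : ∀ v w, v ≠ 0 → w ≠ 0 → v + w ≠ 0 → A v + A w - 1 ≤ A (v + w))
    (hA3 : ∀ (g : ℤ) v, 0 < g → v ≠ 0 → A (g • v) ≤ g * A v)
    {τ : ℚ} (hτ0 : 0 < τ) (hτ1 : τ < 1)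
    (hF : (FineW (fun v => τ * A v) (Sum.elim (fun _ => 1) cw) (Sum.elim f h)).Nonempty) {d : ℕ}
    (hdn : d < n) (hd : Algebra.trdeg k (IntermediateField.adjoin k
      {z : K | ∃ w ∈ dirsW (fun v => τ * A v) (Sum.elim (fun _ => 1) cw) (Sum.elim f h),
        z = mono x w}) = (d : ℕ)) (T : Finset K) :
    ∃ M0 : ℕ, ∀ M : ℕ, M0 ≤ M → ∀ ω : (Fin n → Derivation k K K) → K,
      PairSec k K n (fun P => (bdry A cw x h P : ℝ)) T M 1 ω → ω = 0 := by
  classical
  -- the modified function
  have hD' : (1 : ℚ) ≤ D := by exact_mod_cast hD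
  obtain ⟨A', hA'd⟩ : ∃ A' : (Fin r → ℤ) → ℚ, A' = fun v => τ * A v := ⟨_, rfl⟩
  rw [← hA'd] at hF hd
  have hA' : ∀ v, v ≠ 0 → 0 < A' v := fun v hv => by
    rw [hA'd]
    exact mul_pos hτ0 (hA v hv)
  have hA1' : ∀ v, A' v ≤ 1 := fun v => by
    rw [hA'd]
    have := hA1 v
    nlinarith
  have hAD' : ∀ v, ∃ z : ℤ, ((D * τ.den : ℕ) : ℚ) * A' v = z := by
    intro v
    obtain ⟨z, hz⟩ := hAD v
    refine ⟨z * τ.num, ?_⟩
    have h1 : τ * τ.den = τ.num := Rat.mul_den_eq_num τ
    rw [hA'd]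
    push_cast
    rw [← hz, ← h1]
    ring
  have hA2' : ∀ v w, v ≠ 0 → w ≠ 0 → v + w ≠ 0 → A' v + A' w - 1 ≤ A' (v + w) := by
    intro v w hv hw hvw
    rw [hA'd]
    have := hA2 v w hv hw hvw
    nlinarith
  have hA3' : ∀ (g : ℤ) v, 0 < g → v ≠ 0 → A' (g • v) ≤ g * A' v := by
    intro g v hg hv
    rw [hA'd]
    have := mul_le_mul_of_nonneg_left (hA3 g v hg hv) hτ0.le
    calc τ * A (g • v) ≤ τ * (g * A v) := this
      _ = g * (τ * A v) := by ring
  have hcD' : ∀ j, ∃ z : ℤ, ((D * τ.den : ℕ) : ℚ) * cw j = z := by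
    intro j
    obtain ⟨z, hz⟩ := hcD j
    refine ⟨z * τ.den, ?_⟩
    push_cast
    rw [← hz]
    ring
  have hDτ : 1 ≤ D * τ.den := Nat.mul_pos hD τ.den_pos
  have hini : ∀ g : (Fin r → ℤ) →₀ k, ini 0 g = g := by
    intro g
    by_cases hg : g = 0
    · rw [hg]
      unfold ini
      rw [Finsupp.filter_zero]
    · exact ini_zero hg
  have hf0 : ∀ l, f l ≠ 0 := by
    have h1 := hndf.self fun l => by rw [hini]; exact hf l
    intro l h0
    have h2 := h1.ne_zero l
    apply h2
    rw [hini, h0]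
    funext i
    unfold gr
    exact Finsupp.sum_zero_index
  have hh0 : ∀ j, h j ≠ 0 := by
    intro j h0
    apply hhx j
    rw [h0]
    unfold ev
    exact Finsupp.sum_zero_index
  have hndP : ∀ P : Place k K, NDP P x f := fun P => hndf.places P
  obtain ⟨u0, c, a, nl, S, B, hc, hB, ha, hnl, hF', hS, hpos, hgr, hdirs⟩ :=
    exists_tightW (g := Sum.elim f h) (wt := Sum.elim (fun _ => 1) cw) (by
      rintro (l | j)
      · exact hf0 l
      · exact hh0 j) hDτ hA' hA1' hAD' (by
      rintro (l | j)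
      · exact ⟨((D * τ.den : ℕ) : ℤ), by simp⟩
      · exact hcD' j) hF
  have hcq : (0 : ℚ) < c := by exact_mod_cast hc
  have hnl1 : ∀ l, nl (Sum.inl l) = c := by
    intro l
    have h1 := hnl (Sum.inl l)
    rw [Sum.elim_inl, mul_one] at h1
    exact_mod_cast h1
  obtain ⟨nn, hnnd⟩ : ∃ nn : Fin p → ℤ, nn = fun j => nl (Sum.inr j) := ⟨_, rfl⟩
  have hnnq : ∀ j, (nn j : ℚ) = c * cw j := by
    intro j
    rw [hnnd]
    exact hnl (Sum.inr j)
  have hPh : ∀ v, a v + ∑ l, nl l * mn v (Sum.elim f h l) = Ph c a nn f h v := by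
    intro v
    unfold Ph
    rw [Fintype.sum_sum_type, Finset.mul_sum, ← add_assoc, hnnd]
    congr 2
    refine Finset.sum_congr rfl fun l _ => ?_
    rw [hnl1]
    rfl
  simp only [hPh] at hF' hS hgr
  have hnn : ∀ j, 0 ≤ nn j := by
    intro j
    have h1 : (0 : ℚ) ≤ nn j := by
      rw [hnnq]
      exact mul_nonneg hcq.le (hc0 j)
    exact_mod_cast h1
  have hnc : ∀ j, nn j ≤ c := by
    intro j
    have h1 : (nn j : ℚ) ≤ c := by
      rw [hnnq]
      have := hc1 j
      nlinarith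
    exact_mod_cast h1
  have ha0 : ∀ v, v ≠ 0 → 0 ≤ a v := by
    intro v hv
    have h1 : (0 : ℚ) ≤ a v := by
      rw [ha]
      exact mul_nonneg hcq.le (hA' v hv).le
    exact_mod_cast h1
  have hac : ∀ v, v ≠ 0 → a v ≤ c := by
    intro v _
    have h1 : (a v : ℚ) ≤ c := by
      rw [ha]
      have := hA1' v
      nlinarith
    exact_mod_cast h1
  have ha2 : ∀ v w, v ≠ 0 → w ≠ 0 → v + w ≠ 0 → a v + a w - c ≤ a (v + w) := by
    intro v w hv hw hvw
    have h1 : (a v : ℚ) + a w - c ≤ a (v + w) := by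
      rw [ha, ha, ha]
      have h2 := mul_le_mul_of_nonneg_left (hA2' v w hv hw hvw) hcq.le
      linarith
    exact_mod_cast h1
  have ha3 : ∀ (g : ℤ) v, 0 < g → v ≠ 0 → a (g • v) ≤ g * a v := by
    intro g v hg hv
    have h1 : (a (g • v) : ℚ) ≤ g * a v := by
      rw [ha, ha]
      have h2 := mul_le_mul_of_nonneg_left (hA3' g v hg hv) hcq.le
      linarith
    exact_mod_cast h1
  have hvanK : ∀ (P : Place k K) j, vec P x = 0 → (Van P x (h j) ↔ 0 < P.ord (ev x (h j))) := by
    intro P j hv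
    unfold Van
    rw [hv, mn_zero (hh0 j), zero_add]
    constructor
    · intro h1
      have := h1.resolve_left (hhx j)
      omega
    · intro h1
      exact Or.inr (by omega)
  have hcr : (0 : ℝ) < c := by exact_mod_cast hc
  obtain ⟨t, htG, htind, htalg⟩ := exists_mono_basis hd
  choose w hw hwt using htG
  have hwS : ∀ j, ∀ s ∈ S, w j ⬝ᵥ s = 0 := fun j => (hdirs (w j)).1 (hw j)
  have htw : t = fun j => mono x (w j) := funext hwt
  have hess : Algebra.EssFiniteType k K := by
    rw [← IntermediateField.fg_top_iff, ← hgen]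
    exact ⟨Finset.univ.image x, by rw [Finset.coe_image, Finset.coe_univ, Set.image_univ]⟩
  obtain ⟨m, rfl⟩ : ∃ m, n = d + (m + 1) := ⟨n - d - 1, by omega⟩
  refine pairNeg_gen hess htind htr ?_ T
  intro Λ F _ _ _ _ _ _ _ φ hφgen hΛF t' ht' htt' hcon δ' hδ' T'
  have hinj : Function.Injective φ := (φ : K →+* F).injective
  have e' : (Fin q ⊕ Fin d) ⊕ Fin (m + 1) ≃ Fin r := Fintype.equivOfCardEq (by
    simp only [Fintype.card_sum, Fintype.card_fin]
    omega)
  have hmono : ∀ w' : Fin r → ℤ, φ (mono x w') = mono (fun i => φ (x i)) w' := fun w' =>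
    map_mono (φ : K →+* F) x w'
  have hevφ : ∀ j, ev (fun i => φ (x i)) (h j) = φ (ev x (h j)) := fun j => (map_ev φ x _).symm
  -- places under the places of the fibre
  have hvecφ : ∀ (P : Place Λ F) (v : Place k K) (e : ℕ), (∀ z, P.ord (φ z) = e * v.ord z) →
      vec P (fun i => φ (x i)) = (e : ℤ) • vec v x := by
    intro P v e hv
    funext i
    exact hv (x i)
  have hgeφ : ∀ (P : Place Λ F) (v : Place k K) (e : ℕ), 0 < e →
      (∀ z, P.ord (φ z) = e * v.ord z) → ∀ j,
      (Ge P 1 (ev (fun i => φ (x i)) (h j)) ↔ 0 < v.ord (ev x (h j))) := by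
    intro P v e he hv j
    have he' : (0 : ℤ) < e := by exact_mod_cast he
    rw [hevφ]
    constructor
    · intro h1
      have h2 := h1.resolve_left fun h0 => hhx j (hinj (by rw [h0, map_zero]))
      rw [hv] at h2
      by_contra hcon
      push Not at hcon
      have := mul_nonpos_of_nonneg_of_nonpos he'.le hcon
      omega
    · intro h1
      right
      rw [hv]
      have := mul_pos he' h1
      omega
  refine pair_fibre_neg (k := k) (f := f) (h := h) (S := S) (u0 := u0) (c := c) (a' := a)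
    (nn := nn) (w := w) (t := t')
    (x := fun i => φ (x i)) e' hΛF ?_ ?_ hf0 ?_ hh0 ?_ (hndf.gen F φ)
      (fun P V => (hnd V).place Λ F φ P) hc hnn hnc ha0 hac ha2 ha3 hF' hS hpos
    ?_ hwS ht' ?_ ?_ ?_ ?_ (ε := c * (1 - τ) / D) ?_ ?_ T'
  · intro i h0
    exact hx i (hinj (by rw [h0, map_zero]))
  · rw [eq_top_iff, ← hφgen, IntermediateField.adjoin_le_iff]
    rintro _ ⟨z, rfl⟩
    have hz : z ∈ IntermediateField.adjoin k (Set.range x) := by
      rw [hgen]
      trivial
    have h1 : IntermediateField.adjoin k (Set.range x) ≤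
        ((IntermediateField.adjoin Λ (Set.range fun i => φ (x i))).restrictScalars k).comap
          φ := by
      rw [IntermediateField.adjoin_le_iff]
      rintro _ ⟨i, rfl⟩
      exact IntermediateField.subset_adjoin Λ _ ⟨i, rfl⟩
    exact h1 hz
  · intro l
    rw [← map_ev, hf, map_zero]
  · intro j h0
    rw [hevφ] at h0
    exact hhx j (hinj (by rw [h0, map_zero]))
  · intro j h0
    have h1 : t j = algebraMap k K 1 := by
      rw [hwt, h0, mono_zero, map_one]
    have h2 := htind.transcendental j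
    rw [h1] at h2
    exact h2 (isAlgebraic_algebraMap 1)
  · intro j
    rw [htt', hwt, hmono]
  · intro w' hw'
    have h1 := htalg (mono x w') ⟨w', (hdirs w').2 hw', rfl⟩
    obtain ⟨a, ha⟩ := hcon _ h1
    exact ⟨a, by rw [ha, hmono]⟩
  · intro P hP hj
    rcases hδ' P with ⟨v, e, he, hv, hδ⟩ | h0
    · have he' : ((e : ℕ) : ℤ) ≠ 0 := by omega
      have hvv : vec v x = 0 := by
        rw [hvecφ P v e hv] at hP
        exact (smul_eq_zero.1 hP).resolve_left he'
      rw [hδ, bdry_no hvv fun j h1 => hj j ((hgeφ P v e he hv j).2 h1)]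
      have h1 : (1 : ℝ) ≤ e := by exact_mod_cast he
      refine max_le le_rfl ?_
      push_cast
      linarith
    · exact h0.le
  · intro P j hP hj hu
    have hnnr : (nn j : ℝ) = c * (cw j : ℝ) := by exact_mod_cast hnnq j
    have hcwr : (0 : ℝ) ≤ (cw j : ℝ) := by exact_mod_cast hc0 j
    have hcwr1 : ((cw j : ℚ) : ℝ) ≤ 1 := by exact_mod_cast hc1 j
    rcases hδ' P with ⟨v, e, he, hv, hδ⟩ | h0
    · have he' : ((e : ℕ) : ℤ) ≠ 0 := by omega
      have hvv : vec v x = 0 := by
        rw [hvecφ P v e hv] at hP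
        exact (smul_eq_zero.1 hP).resolve_left he'
      rw [hδ, bdry_one hvv ((hgeφ P v e he hv j).1 hj)
        (fun j' h1 => hu j' ((hgeφ P v e he hv j').2 h1)) (hc0 j), hnnr]
      refine mul_le_mul_of_nonneg_left (max_le hcwr ?_) hcr.le
      have h1 : (1 : ℝ) ≤ e := by exact_mod_cast he
      nlinarith
    · rw [h0, mul_zero]
      exact_mod_cast hnn j
  · have h1 : (0 : ℝ) < 1 - τ := by
      have : ((τ : ℚ) : ℝ) < 1 := by exact_mod_cast hτ1
      linarith
    have h2 : (0 : ℝ) < D := by exact_mod_cast (by omega : 0 < D)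
    exact div_pos (mul_pos hcr h1) h2
  · intro P hP
    have hτr0 : (0 : ℝ) < ((τ : ℚ) : ℝ) := by exact_mod_cast hτ0
    have hτr1 : ((τ : ℚ) : ℝ) < 1 := by exact_mod_cast hτ1
    have hDr : (1 : ℝ) ≤ D := by exact_mod_cast hD
    have hεle : (c : ℝ) * (1 - τ) / D ≤ c * (1 - τ) :=
      div_le_self (mul_nonneg hcr.le (by linarith)) hDr
    have har : ∀ v, (a v : ℝ) = c * (τ * ((A v : ℚ) : ℝ)) := by
      intro v
      have h1 := ha v
      rw [hA'd] at h1
      exact_mod_cast h1
    have hA1r : ∀ v, ((A v : ℚ) : ℝ) ≤ 1 := fun v => by exact_mod_cast hA1 v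
    have h0' : (c : ℝ) * (1 - τ) ≤ ((c - a (vec P fun i => φ (x i)) : ℤ) : ℝ) := by
      push_cast
      rw [har]
      have h1 := hA1r (vec P fun i => φ (x i))
      have h2 : (τ : ℝ) * ((A (vec P fun i => φ (x i)) : ℚ) : ℝ) ≤ τ * 1 :=
        mul_le_mul_of_nonneg_left h1 hτr0.le
      have h3 := mul_le_mul_of_nonneg_left h2 hcr.le
      linarith
    rcases hδ' P with ⟨v, e, he, hv, hδ⟩ | h0
    · have he' : (0 : ℤ) < (e : ℕ) := by omega
      have hPv := hvecφ P v e hv
      have hvv : vec v x ≠ 0 := by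
        intro h1
        rw [h1, smul_zero] at hPv
        exact hP hPv
      rw [hδ, bdry_ne hvv]
      have h1 := ha3 e (vec v x) he' hvv
      rw [← hPv] at h1
      have h3 : (a (vec P fun i => φ (x i)) : ℝ) ≤ e * a (vec v x) := by exact_mod_cast h1
      have her : (1 : ℝ) ≤ e := by exact_mod_cast he
      have hADr : (1 : ℝ) ≤ D * ((A (vec v x) : ℚ) : ℝ) := by
        obtain ⟨z, hz⟩ := hAD (vec v x)
        have h4 : (0 : ℚ) < z := by
          rw [← hz]
          exact mul_pos (by linarith) (hA _ hvv)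
        have h5 : 0 < z := by exact_mod_cast h4
        have h6 : (1 : ℚ) ≤ D * A (vec v x) := by
          rw [hz]
          exact_mod_cast h5
        exact_mod_cast h6
      rw [mul_max_of_nonneg _ _ hcr.le, mul_zero, ← max_add_add_right, zero_add]
      refine max_le (hεle.trans h0') ?_
      push_cast
      rw [har (vec v x)] at h3
      have hD0 : (0 : ℝ) < D := by linarith
      have h7 : (c : ℝ) * (1 - τ) / D ≤ c * (1 - τ) * ((A (vec v x) : ℚ) : ℝ) := by
        rw [div_le_iff₀ hD0]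
        have h8 : (0 : ℝ) ≤ c * (1 - τ) := mul_nonneg hcr.le (by linarith)
        nlinarith
      have h8 : (c : ℝ) * (1 - τ) * ((A (vec v x) : ℚ) : ℝ) ≤
          e * (c * (1 - τ) * ((A (vec v x) : ℚ) : ℝ)) := by
        have h9 : (0 : ℝ) ≤ c * (1 - τ) * ((A (vec v x) : ℚ) : ℝ) := by
          have h10 : (0 : ℝ) ≤ ((A (vec v x) : ℚ) : ℝ) := by
            have := (hA _ hvv).le
            exact_mod_cast this
          exact mul_nonneg (mul_nonneg hcr.le (by linarith)) h10
        nlinarith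
      nlinarith
    · rw [h0, mul_zero, zero_add]
      exact hεle.trans h0'

end Pool.Agent.R885.N
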