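import Pool.Agent.R885.NRes

/-!
Pointwise version of `Om`.
-/

set_option autoImplicit false

set_option linter.overlappingInstances false

set_option linter.unusedSectionVars false

open FF Pool.Agent.W603.LV Pool.Agent.W619.PQ

namespace Pool.Agent.R885.N

section

variable {r n : ℕ} {J : Type} [Fintype J] [DecidableEq J]

variable {K : Type} [Field K]

end

section

variable {k K : Type} [Field k] [Field K] [Algebra k K]

variable {r n : ℕ} {J : Type} [Fintype J] [DecidableEq J] {x : Fin r → K}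

/-- **The order of the residue form.** -/
theorem om_ge (P : Place k K) {e : J ⊕ Fin n ≃ Fin r} (hx : ∀ i, x i ≠ 0)
    {f : J → (Fin r → ℤ) →₀ k} (hf0 : ∀ l, f l ≠ 0) (hf : ∀ l, ev x (f l) = 0)
    (hnd : NDP P x f) {C0 : Fin n → Fin r → ℤ}
    (h0 : dt e (fun l => gr x (f l)) C0 ≠ 0) {D : Fin n → Derivation k K K}
    (hD : ∀ a, Pres P (D a)) :
    Ge P (-1 - ∑ l, mn (vec P x) (f l)) (Om e x f C0 D) ∧
      (vec P x = 0 → Ge P 0 (Om e x f C0 D)) := by
  choose m0 hm0 hm0' using fun l => exists_mn (hf0 l) (vec P x)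
  have hli := nd_place P hx hf hnd hm0'
  obtain ⟨C, hC⟩ := complete_zero hli (n := n) (by
    rw [← Fintype.card_congr e, Fintype.card_sum, Fintype.card_fin])
  obtain ⟨h1, h2⟩ := ord_dt_gr P (e := e) hx hm0' hC
  rw [om_eq hx hf h0 h1]
  have h3 : (cw C fun a => lg x (D a)).det =
      Matrix.det (Matrix.of fun j i => D j (mono x (C i)) / mono x (C i)) := by
    rw [← cw_lg hx, Matrix.det_transpose]
  have h4 := det_log P D hD (fun b => mono x (C b)) fun b => mono_ne hx _
  unfold Om
  rw [h3]
  constructor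
  · rw [div_eq_mul_inv]
    have h5 : Ge P (-∑ l, mn (vec P x) (f l)) (dt e (fun l => gr x (f l)) C)⁻¹ :=
      Or.inr (by rw [P.ord_inv, h2])
    have h6 := h4.mul h5
    rwa [← sub_eq_add_neg] at h6
  · intro hv
    have h5 := det_log_unit P D hD (fun b => mono x (C b)) fun b => by
      rw [ord_mono P hx, hv, dotProduct_zero]
    rw [div_eq_mul_inv]
    have h6 : Ge P 0 (dt e (fun l => gr x (f l)) C)⁻¹ := Or.inr (by
      rw [P.ord_inv, h2, hv, Finset.sum_eq_zero fun l _ => mn_zero (hf0 l), neg_zero])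
    simpa using h5.mul h6

end

end Pool.Agent.R885.N
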