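import Pool.Agent.R885.N0

/-!
Pointwise version of `Res`.
-/

set_option autoImplicit false

set_option linter.overlappingInstances false

set_option linter.unusedSectionVars false

open FF Pool.Agent.W603.LV Pool.Agent.W619.PQ

namespace Pool.Agent.R885.N

section

variable {ι : Type} [Fintype ι] {k K : Type} [Field k] [Field K] [Algebra k K] {x : ι → K}

/-- **Nondegeneracy at a place.** -/
theorem nd_place (P : Place k K) (hx : ∀ i, x i ≠ 0) {J : Type} {f : J → (ι → ℤ) →₀ k}
    (hf : ∀ l, ev x (f l) = 0) (hnd : NDP P x f) {m0 : J → ι → ℤ}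
    (hm0 : ∀ l, m0 l ⬝ᵥ vec P x = mn (vec P x) (f l)) :
    LinearIndependent P.RF fun l i => P.red (gr' x (f l) (m0 l) i) := by
  have hpt := pt_ne P hx
  have h1 : ∀ l, ev (pt P x) (ini (vec P x) (f l)) = 0 := by
    intro l
    have h2 := red_ev' P hx (f l) (hm0 l)
    have h3 : ev' x (f l) (m0 l) = 0 := by
      have h4 := ev_eq hx (f l) (m0 l)
      rw [hf] at h4
      exact (mul_eq_zero.1 h4.symm).resolve_left (mono_ne hx _)
    rw [h3, P.red_zero] at h2
    exact (div_eq_zero_iff.1 h2.symm).resolve_right (mono_ne hpt _)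
  have h2 := hnd h1
  have h3 := h2.units_smul fun l => (Units.mk0 (mono (pt P x) (m0 l)) (mono_ne hpt _))⁻¹
  have h4 : (fun l i => P.red (gr' x (f l) (m0 l) i)) =
      (fun l => (Units.mk0 (mono (pt P x) (m0 l)) (mono_ne hpt _))⁻¹) •
        fun l => gr (pt P x) (ini (vec P x) (f l)) := by
    funext l i
    rw [red_gr' P hx (f l) (hm0 l)]
    change _ = ((mono (pt P x) (m0 l))⁻¹ • gr (pt P x) (ini (vec P x) (f l))) i
    rw [Pi.smul_apply, smul_eq_mul, div_eq_mul_inv, mul_comm]
  rw [h4]
  exact h3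

end

end Pool.Agent.R885.N
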