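import Pool.Agent.R885.Res
import Pool.Agent.R885.Lin
import Pool.Agent.W619.PQ.Defs

/-!
The residue form of a complete intersection in a torus.
-/

set_option autoImplicit false
set_option linter.overlappingInstances false
set_option linter.unusedSectionVars false

open FF Pool.Agent.W603.LV Pool.Agent.W619.PQ

namespace Pool.Agent.R885

section

variable {r n : ℕ} {J : Type} [Fintype J] [DecidableEq J]

/-- the rows `G` and `C` -/
def rows {K : Type} [Field K] (G : J → Fin r → K) (C : Fin n → Fin r → ℤ) :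
    J ⊕ Fin n → Fin r → K := Sum.elim G fun b i => (C b i : K)

/-- their determinant -/
noncomputable def dt {K : Type} [Field K] (e : J ⊕ Fin n ≃ Fin r) (G : J → Fin r → K)
    (C : Fin n → Fin r → ℤ) : K :=
  Matrix.det (Matrix.of fun a b => rows G C a (e b))

/-- the pairings of the rows `C` and the vectors `W` -/
noncomputable def cw {K : Type} [Field K] (C : Fin n → Fin r → ℤ) (W : Fin n → Fin r → K) :
    Matrix (Fin n) (Fin n) K :=
  Matrix.of fun b a => ∑ i, (C b i : K) * W a i

variable {K : Type} [Field K]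

theorem dt_ne {e : J ⊕ Fin n ≃ Fin r} {G : J → Fin r → K} {C : Fin n → Fin r → ℤ}
    (h : LinearIndependent K (rows G C)) : dt e G C ≠ 0 := by
  unfold dt
  have h1 : LinearIndependent K (Matrix.of fun a b => rows G C a (e b)).row := by
    have h2 := h.map' (LinearEquiv.funCongrLeft K K e).toLinearMap
      (LinearMap.ker_eq_bot.2 (LinearEquiv.injective _))
    exact h2
  rw [Matrix.linearIndependent_rows_iff_isUnit, Matrix.isUnit_iff_isUnit_det] at h1
  exact h1.ne_zero

theorem dt_cw {e : J ⊕ Fin n ≃ Fin r} {G : J → Fin r → K} {C0 C : Fin n → Fin r → ℤ}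
    (h0 : dt e G C0 ≠ 0) {W : Fin n → Fin r → K} (hW : ∀ l a, ∑ i, G l i * W a i = 0) :
    dt e G C0 * (cw C W).det = dt e G C * (cw C0 W).det := by
  classical
  let M0 : Matrix (J ⊕ Fin n) (J ⊕ Fin n) K := Matrix.of fun a b => rows G C0 a (e b)
  have hM0 : IsUnit M0.det := isUnit_iff_ne_zero.2 h0
  let X : Matrix (J ⊕ Fin n) (J ⊕ Fin n) K := Matrix.of fun b a =>
    Sum.elim (fun l => M0⁻¹ b (Sum.inl l)) (fun a => W a (e b)) a
  have key : ∀ C' : Fin n → Fin r → ℤ, dt e G C' * X.det = (cw C' W).det := by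
    intro C'
    let M : Matrix (J ⊕ Fin n) (J ⊕ Fin n) K := Matrix.of fun a b => rows G C' a (e b)
    have h1 : M * X = Matrix.fromBlocks 1 0
        (Matrix.of fun b l => ∑ c, M (Sum.inr b) c * X c (Sum.inl l)) (cw C' W) := by
      ext a b
      rw [Matrix.mul_apply]
      rcases a with a | a <;> rcases b with b | b
      · rw [Matrix.fromBlocks_apply₁₁]
        have h2 := congrFun (congrFun (Matrix.mul_nonsing_inv M0 hM0) (Sum.inl a)) (Sum.inl b)
        rw [Matrix.mul_apply] at h2
        rw [Matrix.one_apply] at h2 ⊢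
        simp only [Sum.inl.injEq] at h2
        rw [← h2]
        rfl
      · rw [Matrix.fromBlocks_apply₁₂, Matrix.zero_apply]
        change ∑ c, G a (e c) * W b (e c) = 0
        rw [e.sum_comp fun i => G a i * W b i]
        exact hW a b
      · rfl
      · rw [Matrix.fromBlocks_apply₂₂]
        change ∑ c, (C' a (e c) : K) * W b (e c) = ∑ i, (C' a i : K) * W b i
        rw [e.sum_comp fun i => (C' a i : K) * W b i]
    have h2 := congrArg Matrix.det h1
    rw [Matrix.det_mul, Matrix.det_fromBlocks_zero₁₂, Matrix.det_one, one_mul] at h2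
    exact h2
  rw [← key C, ← key C0]
  ring

theorem dt_scale {e : J ⊕ Fin n ≃ Fin r} {G G' : J → Fin r → K} {C : Fin n → Fin r → ℤ}
    {c : J → K} (h : ∀ l i, G l i = c l * G' l i) : dt e G C = (∏ l, c l) * dt e G' C := by
  unfold dt
  have h1 : (Matrix.of fun a b => rows G C a (e b)) =
      Matrix.of fun a b => (Sum.elim c (fun _ => 1) a) * (Matrix.of fun a b => rows G' C a (e b)) a b := by
    ext a b
    rcases a with a | a
    · exact h a (e b)
    · change (C a (e b) : K) = 1 * (C a (e b) : K)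
      rw [one_mul]
  rw [h1, Matrix.det_mul_column]
  rw [Fintype.prod_sum_type]
  simp

end

section

variable {k K : Type} [Field k] [Field K] [Algebra k K]

theorem red_det {α : Type} [Fintype α] [DecidableEq α] (P : Place k K) (A : Matrix α α K)
    (hA : ∀ i j, P.Reg (A i j)) : P.Reg A.det ∧ P.red A.det = (A.map P.red).det := by
  let B : Matrix α α P.O := fun i j => ⟨A i j, hA i j⟩
  have h : A = P.O.subtype.mapMatrix B := by
    ext i j; rfl
  have h1 : A.det = (B.det : K) := by
    conv_lhs => rw [h]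
    rw [← RingHom.map_det]
    rfl
  have h2 : P.Reg A.det := by
    rw [h1]
    exact B.det.2
  refine ⟨h2, ?_⟩
  have h3 : P.red A.det = P.resHom B.det := by
    rw [P.red_of_reg h2]
    congr 1
    exact Subtype.ext h1
  rw [h3, RingHom.map_det]
  congr 1
  ext i j
  change P.resHom (B i j) = P.red (A i j)
  rw [P.red_of_reg (hA i j)]

variable {r n : ℕ} {J : Type} [Fintype J] [DecidableEq J] {x : Fin r → K}

theorem red_dt (P : Place k K) (e : J ⊕ Fin n ≃ Fin r) {G : J → Fin r → K}
    (hG : ∀ l i, P.Reg (G l i)) (C : Fin n → Fin r → ℤ) :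
    P.Reg (dt e G C) ∧ P.red (dt e G C) = dt e (fun l i => P.red (G l i)) C := by
  have h1 := red_det P (Matrix.of fun a b => rows G C a (e b)) (by
    rintro (a | a) b
    · exact hG a (e b)
    · exact reg_int P (C a (e b)))
  refine ⟨h1.1, h1.2.trans ?_⟩
  unfold dt
  congr 1
  ext a b
  rcases a with a | a
  · rfl
  · change P.red ((C a (e b) : ℤ) : K) = ((C a (e b) : ℤ) : P.RF)
    rw [red_int]

/-- a determinant which is a unit at the place -/
theorem ord_dt (P : Place k K) (e : J ⊕ Fin n ≃ Fin r) {G : J → Fin r → K}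
    (hG : ∀ l i, P.Reg (G l i)) {C : Fin n → Fin r → ℤ}
    (hC : LinearIndependent P.RF (rows (fun l i => P.red (G l i)) C)) :
    dt e G C ≠ 0 ∧ P.ord (dt e G C) = 0 := by
  obtain ⟨h1, h2⟩ := red_dt P e hG C
  have h3 : P.red (dt e G C) ≠ 0 := by
    rw [h2]
    exact dt_ne hC
  rw [Ne, P.red_eq_zero_iff h1] at h3
  push Not at h3
  have h4 := (P.reg_iff h3.1).1 h1
  exact ⟨h3.1, by have := h3.2; omega⟩

/-- the logarithmic derivatives of the coordinates -/
def lg (x : Fin r → K) (D : Derivation k K K) : Fin r → K := fun i => D (x i) / x i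

theorem gr_lg (hx : ∀ i, x i ≠ 0) {f : (Fin r → ℤ) →₀ k} (hf : ev x f = 0)
    (D : Derivation k K K) : ∑ i, gr x f i * lg x D i = 0 := by
  have h := der_ev D hx f
  rw [hf, map_zero] at h
  exact h.symm

theorem gr'_lg (hx : ∀ i, x i ≠ 0) {f : (Fin r → ℤ) →₀ k} (hf : ev x f = 0) (m0 : Fin r → ℤ)
    (D : Derivation k K K) : ∑ i, gr' x f m0 i * lg x D i = 0 := by
  have h := gr_lg hx hf D
  have h1 : ∑ i, gr x f i * lg x D i = mono x m0 * ∑ i, gr' x f m0 i * lg x D i := by
    rw [Finset.mul_sum]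
    refine Finset.sum_congr rfl fun i _ => ?_
    rw [gr_eq hx f m0, mul_assoc]
  rw [h1] at h
  exact (mul_eq_zero.1 h).resolve_left (mono_ne hx _)

/-- the residue form -/
noncomputable def Om (e : J ⊕ Fin n ≃ Fin r) (x : Fin r → K) (f : J → (Fin r → ℤ) →₀ k)
    (C : Fin n → Fin r → ℤ) (D : Fin n → Derivation k K K) : K :=
  (cw C fun a => lg x (D a)).det / dt e (fun l => gr x (f l)) C

theorem lg_sum (x : Fin r → K) {ι : Type} (s : Finset ι) (c : ι → K) (D : ι → Derivation k K K)
    (i : Fin r) : lg x (∑ b ∈ s, c b • D b) i = ∑ b ∈ s, c b * lg x (D b) i := by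
  classical
  unfold lg
  have h : (∑ b ∈ s, c b • D b) (x i) = ∑ b ∈ s, c b * D b (x i) := by
    induction s using Finset.induction_on with
    | empty => simp
    | insert a s ha ih =>
      rw [Finset.sum_insert ha, Finset.sum_insert ha, Derivation.add_apply, ih,
        Derivation.smul_apply, smul_eq_mul]
  rw [h, Finset.sum_div]
  exact Finset.sum_congr rfl fun b _ => mul_div_assoc _ _ _

theorem om_pluri (e : J ⊕ Fin n ≃ Fin r) (x : Fin r → K) (f : J → (Fin r → ℤ) →₀ k)
    (C : Fin n → Fin r → ℤ) (m : ℕ) : IsPluriForm k K n m fun D => Om e x f C D ^ m := by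
  intro A D
  have h1 : (cw C fun a => lg x (∑ j, A a j • D j)) = (cw C fun a => lg x (D a)) * A.transpose := by
    ext b a
    rw [Matrix.mul_apply]
    change ∑ i, (C b i : K) * lg x (∑ j, A a j • D j) i =
      ∑ j, (∑ i, (C b i : K) * lg x (D j) i) * A a j
    simp only [lg_sum, Finset.mul_sum, Finset.sum_mul]
    rw [Finset.sum_comm]
    exact Finset.sum_congr rfl fun j _ => Finset.sum_congr rfl fun i _ => by ring
  have h2 : Om e x f C (fun i => ∑ j, A i j • D j) = A.det * Om e x f C D := by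
    unfold Om
    rw [h1, Matrix.det_mul, Matrix.det_transpose]
    ring
  change Om e x f C (fun i => ∑ j, A i j • D j) ^ m = A.det ^ m * Om e x f C D ^ m
  rw [h2, mul_pow]

/-- independence of the residue form of the choice of the rows -/
theorem om_eq {e : J ⊕ Fin n ≃ Fin r} (hx : ∀ i, x i ≠ 0) {f : J → (Fin r → ℤ) →₀ k}
    (hf : ∀ l, ev x (f l) = 0) {C0 C : Fin n → Fin r → ℤ}
    (h0 : dt e (fun l => gr x (f l)) C0 ≠ 0) (h1 : dt e (fun l => gr x (f l)) C ≠ 0)
    (D : Fin n → Derivation k K K) : Om e x f C0 D = Om e x f C D := by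
  unfold Om
  rw [div_eq_div_iff h0 h1]
  have h2 := dt_cw (C := C) h0 (W := fun a => lg x (D a)) fun l a => gr_lg hx (hf l) (D a)
  rw [mul_comm (dt e _ C0)] at h2
  rw [h2]
  ring

theorem cw_lg (hx : ∀ i, x i ≠ 0) (C : Fin n → Fin r → ℤ) (D : Fin n → Derivation k K K) :
    (cw C fun a => lg x (D a)).transpose =
      Matrix.of fun j i => D j (mono x (C i)) / mono x (C i) := by
  ext a b
  change ∑ i, (C b i : K) * (D a (x i) / x i) = D a (mono x (C b)) / mono x (C b)
  rw [der_mono (D a) hx, mul_div_cancel_left₀ _ (mono_ne hx _)]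

/-- the order of the determinant of the gradients -/
theorem ord_dt_gr (P : Place k K) {e : J ⊕ Fin n ≃ Fin r} (hx : ∀ i, x i ≠ 0)
    {f : J → (Fin r → ℤ) →₀ k} {m0 : J → Fin r → ℤ}
    (hm0 : ∀ l, m0 l ⬝ᵥ vec P x = mn (vec P x) (f l)) {C : Fin n → Fin r → ℤ}
    (hC : LinearIndependent P.RF (rows (fun l i => P.red (gr' x (f l) (m0 l) i)) C)) :
    dt e (fun l => gr x (f l)) C ≠ 0 ∧
      P.ord (dt e (fun l => gr x (f l)) C) = ∑ l, mn (vec P x) (f l) := by
  obtain ⟨h1, h2⟩ := ord_dt P e (fun l i => reg_gr' P hx (f l) (hm0 l) i) hC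
  have h3 : dt e (fun l => gr x (f l)) C = (∏ l, mono x (m0 l)) *
      dt e (fun l => gr' x (f l) (m0 l)) C := dt_scale fun l i => gr_eq hx (f l) (m0 l) i
  have h4 : ∏ l, mono x (m0 l) ≠ 0 := Finset.prod_ne_zero_iff.2 fun l _ => mono_ne hx _
  rw [h3]
  refine ⟨mul_ne_zero h4 h1, ?_⟩
  rw [P.ord_mul h4 h1]
  have h5 : ∀ s : Finset J, P.ord (∏ l ∈ s, mono x (m0 l)) = ∑ l ∈ s, mn (vec P x) (f l) := by
    intro s
    induction s using Finset.induction_on with
    | empty => simp [P.ord_one]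
    | insert a s ha ih =>
      rw [Finset.prod_insert ha, Finset.sum_insert ha, P.ord_mul (mono_ne hx _)
        (Finset.prod_ne_zero_iff.2 fun l _ => mono_ne hx _), ih, ord_mono P hx, hm0]
  rw [h5]
  change _ + P.ord (dt e (fun l => gr' x (f l) (m0 l)) C) = _
  have h6 : P.ord (dt e (fun l => gr' x (f l) (m0 l)) C) = 0 := h2
  rw [h6, add_zero]

/-- **The order of the residue form.** -/
theorem om_ge (P : Place k K) {e : J ⊕ Fin n ≃ Fin r} (hx : ∀ i, x i ≠ 0)
    {f : J → (Fin r → ℤ) →₀ k} (hf0 : ∀ l, f l ≠ 0) (hf : ∀ l, ev x (f l) = 0)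
    (hnd : NonDeg P.RF f (vec P x)) {C0 : Fin n → Fin r → ℤ}
    (h0 : dt e (fun l => gr x (f l)) C0 ≠ 0) {D : Fin n → Derivation k K K}
    (hD : ∀ a, Pres P (D a)) :
    Ge P (-1 - ∑ l, mn (vec P x) (f l)) (Om e x f C0 D) ∧
      (vec P x = 0 → Ge P 0 (Om e x f C0 D)) := by
  choose m0 hm0 hm0' using fun l => exists_mn (hf0 l) (vec P x)
  have hli := nd_place P hx hf hnd hm0'
  obtain ⟨C, hC⟩ := complete_zero hli (n := n) (by
    rw [← Fintype.card_congr e, Fintype.card_sum, Fintype.card_fin])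
  obtain ⟨h1, h2⟩ := ord_dt_gr P (e := e) hx hm0' hC
  rw [om_eq hx hf h0 h1]
  have h3 : (cw C fun a => lg x (D a)).det =
      Matrix.det (Matrix.of fun j i => D j (mono x (C i)) / mono x (C i)) := by
    rw [← cw_lg hx, Matrix.det_transpose]
  have h4 := det_log P D hD (fun b => mono x (C b)) fun b => mono_ne hx _
  unfold Om
  rw [h3]
  constructor
  · rw [div_eq_mul_inv]
    have h5 : Ge P (-∑ l, mn (vec P x) (f l)) (dt e (fun l => gr x (f l)) C)⁻¹ :=
      Or.inr (by rw [P.ord_inv, h2])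
    have h6 := h4.mul h5
    rwa [← sub_eq_add_neg] at h6
  · intro hv
    have h5 := det_log_unit P D hD (fun b => mono x (C b)) fun b => by
      rw [ord_mono P hx, hv, dotProduct_zero]
    rw [div_eq_mul_inv]
    have h6 : Ge P 0 (dt e (fun l => gr x (f l)) C)⁻¹ := Or.inr (by
      rw [P.ord_inv, h2, hv, Finset.sum_eq_zero fun l _ => mn_zero (hf0 l), neg_zero])
    simpa using h5.mul h6

end

end Pool.Agent.R885
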