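import Pool.Agent.R885.NFib

/-!
Push-forward of Laurent polynomials along affine maps of exponents.
-/

set_option autoImplicit false
set_option linter.overlappingInstances false
set_option linter.unusedSectionVars false

open FF Pool.Agent.W603.LV Pool.Agent.W619.PQ

namespace Pool.Agent.R885.N

section

variable {ι ι' : Type} [Fintype ι] [Fintype ι'] {k : Type} [Field k]

/-- affine maps of exponents -/
def aff (m0 : ι → ℤ) (W : ι' → ι → ℤ) (u : ι' → ℤ) : ι → ℤ := m0 + ∑ j, u j • W j

/-- the push-forward -/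
noncomputable def push (m0 : ι → ℤ) (W : ι' → ι → ℤ) (g : (ι' → ℤ) →₀ k) : (ι → ℤ) →₀ k :=
  g.mapDomain (aff m0 W)

theorem aff_dot (m0 : ι → ℤ) (W : ι' → ι → ℤ) (u : ι' → ℤ) (v : ι → ℤ) :
    aff m0 W u ⬝ᵥ v = m0 ⬝ᵥ v + u ⬝ᵥ fun j => W j ⬝ᵥ v := by
  unfold aff
  rw [add_dotProduct]
  congr 1
  unfold dotProduct
  simp only [Finset.sum_apply, Pi.smul_apply, smul_eq_mul, Finset.sum_mul, Finset.mul_sum]
  rw [Finset.sum_comm]
  exact Finset.sum_congr rfl fun j _ => Finset.sum_congr rfl fun i _ => by ring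

theorem supp_push {m0 : ι → ℤ} {W : ι' → ι → ℤ} (hinj : Function.Injective (aff m0 W))
    (g : (ι' → ℤ) →₀ k) {m : ι → ℤ} :
    m ∈ (push m0 W g).support ↔ ∃ u ∈ g.support, aff m0 W u = m := by
  classical
  unfold push
  rw [Finsupp.mapDomain_support_of_injective hinj, Finset.mem_image]

theorem push_apply {m0 : ι → ℤ} {W : ι' → ι → ℤ} (hinj : Function.Injective (aff m0 W))
    (g : (ι' → ℤ) →₀ k) (u : ι' → ℤ) : push m0 W g (aff m0 W u) = g u :=
  Finsupp.mapDomain_apply hinj g u

theorem push_ne {m0 : ι → ℤ} {W : ι' → ι → ℤ} (hinj : Function.Injective (aff m0 W))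
    {g : (ι' → ℤ) →₀ k} (hg : g ≠ 0) : push m0 W g ≠ 0 := by
  intro h
  apply hg
  ext u
  rw [← push_apply hinj g u, h]
  rfl

theorem push_zero (m0 : ι → ℤ) (W : ι' → ι → ℤ) : push m0 W (0 : (ι' → ℤ) →₀ k) = 0 :=
  Finsupp.mapDomain_zero

theorem mn_push {m0 : ι → ℤ} {W : ι' → ι → ℤ} (hinj : Function.Injective (aff m0 W))
    {g : (ι' → ℤ) →₀ k} (hg : g ≠ 0) (v : ι → ℤ) :
    mn v (push m0 W g) = m0 ⬝ᵥ v + mn (fun j => W j ⬝ᵥ v) g := by
  apply le_antisymm
  · obtain ⟨u, hu, h⟩ := exists_mn hg fun j => W j ⬝ᵥ v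
    rw [← h, ← aff_dot]
    exact mn_le ((supp_push hinj g).2 ⟨u, hu, rfl⟩)
  · refine le_mn (push_ne hinj hg) fun m hm => ?_
    obtain ⟨u, hu, rfl⟩ := (supp_push hinj g).1 hm
    rw [aff_dot]
    have := mn_le (v := fun j => W j ⬝ᵥ v) hu
    omega

theorem ini_push {m0 : ι → ℤ} {W : ι' → ι → ℤ} (hinj : Function.Injective (aff m0 W))
    (g : (ι' → ℤ) →₀ k) (v : ι → ℤ) :
    ini v (push m0 W g) = push m0 W (ini (fun j => W j ⬝ᵥ v) g) := by
  classical
  by_cases hg : g = 0
  · rw [hg]
    have h1 : ∀ (ι : Type) [Fintype ι] (v : ι → ℤ), ini v (0 : (ι → ℤ) →₀ k) = 0 := by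
      intro ι _ v
      unfold ini
      exact Finsupp.filter_zero _
    rw [push_zero, h1, h1, push_zero]
  ext m
  by_cases hm : ∃ u, aff m0 W u = m
  · obtain ⟨u, rfl⟩ := hm
    rw [push_apply hinj]
    unfold ini
    rw [Finsupp.filter_apply, Finsupp.filter_apply, mn_push hinj hg, aff_dot, push_apply hinj]
    simp only [add_right_inj]
  · have h1 : ∀ g' : (ι' → ℤ) →₀ k, push m0 W g' m = 0 := fun g' =>
      Finsupp.mapDomain_of_notMem_range g' m fun ⟨u, hu⟩ => hm ⟨u, hu⟩
    rw [h1]
    unfold ini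
    rw [Finsupp.filter_apply, h1, ite_self]

variable {F : Type} [Field F] [Algebra k F]

theorem mono_sum {x : ι → F} (hx : ∀ i, x i ≠ 0) (W : ι' → ι → ℤ) (u : ι' → ℤ) :
    mono x (∑ j, u j • W j) = mono (fun j => mono x (W j)) u := by
  classical
  have h : ∀ s : Finset ι', mono x (∑ j ∈ s, u j • W j) = ∏ j ∈ s, mono x (W j) ^ u j := by
    intro s
    induction s using Finset.induction_on with
    | empty => rw [Finset.sum_empty, Finset.prod_empty, mono_zero]
    | insert a s ha ih =>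
      rw [Finset.sum_insert ha, Finset.prod_insert ha, mono_add hx, mono_zsmul, ih]
  exact h _

theorem mono_aff {x : ι → F} (hx : ∀ i, x i ≠ 0) (m0 : ι → ℤ) (W : ι' → ι → ℤ) (u : ι' → ℤ) :
    mono x (aff m0 W u) = mono x m0 * mono (fun j => mono x (W j)) u := by
  unfold aff
  rw [mono_add hx, mono_sum hx]

theorem ev_push {x : ι → F} (hx : ∀ i, x i ≠ 0) (m0 : ι → ℤ) (W : ι' → ι → ℤ)
    (g : (ι' → ℤ) →₀ k) :
    ev x (push m0 W g) = mono x m0 * ev (fun j => mono x (W j)) g := by
  unfold ev push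
  rw [Finsupp.sum_mapDomain_index (by intro m; rw [map_zero, zero_mul])
    (by intro m a b; rw [map_add, add_mul])]
  unfold Finsupp.sum
  rw [Finset.mul_sum]
  refine Finset.sum_congr rfl fun u _ => ?_
  beta_reduce
  rw [mono_aff hx]
  ring

theorem gr_push {x : ι → F} (hx : ∀ i, x i ≠ 0) (m0 : ι → ℤ) (W : ι' → ι → ℤ)
    (g : (ι' → ℤ) →₀ k) (i : ι) :
    gr x (push m0 W g) i = mono x m0 * ((m0 i : F) * ev (fun j => mono x (W j)) g +
      ∑ j, (W j i : F) * gr (fun j => mono x (W j)) g j) := by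
  unfold ev gr push
  rw [Finsupp.sum_mapDomain_index (by intro m; rw [map_zero, zero_mul, zero_mul])
    (by intro m a b; rw [map_add, add_mul, add_mul])]
  unfold Finsupp.sum
  simp only [Finset.mul_sum]
  rw [Finset.sum_comm, ← Finset.sum_add_distrib, Finset.mul_sum]
  refine Finset.sum_congr rfl fun u _ => ?_
  beta_reduce
  rw [mono_aff hx]
  have h1 : ((aff m0 W u i : ℤ) : F) = (m0 i : F) + ∑ j, (u j : F) * (W j i : F) := by
    unfold aff
    simp only [Pi.add_apply, Finset.sum_apply, Pi.smul_apply, smul_eq_mul, Int.cast_add,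
      Int.cast_sum, Int.cast_mul]
  rw [h1, mul_add, mul_add, add_mul]
  congr 1
  · ring
  · rw [Finset.mul_sum, Finset.mul_sum, Finset.sum_mul]
    refine Finset.sum_congr rfl fun j _ => ?_
    ring

theorem push_mapRange {Λ : Type} [Field Λ] [Algebra k Λ] (m0 : ι → ℤ) (W : ι' → ι → ℤ)
    (g : (ι' → ℤ) →₀ k) :
    (push m0 W g).mapRange (algebraMap k Λ) (map_zero _) =
      push m0 W (g.mapRange (algebraMap k Λ) (map_zero _)) :=
  (Finsupp.mapDomain_mapRange _ g (algebraMap k Λ) (map_zero _) (map_add _)).symm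

end

section

variable {ι ι' : Type} [Fintype ι] [Fintype ι'] {k K : Type} [Field k] [Field K] [Algebra k K]

theorem vec_mono (P : Place k K) {x : ι → K} (hx : ∀ i, x i ≠ 0) (W : ι' → ι → ℤ) :
    vec P (fun j => mono x (W j)) = fun j => W j ⬝ᵥ vec P x := by
  funext j
  exact ord_mono P hx (W j)

theorem pt_mono (P : Place k K) {x : ι → K} (hx : ∀ i, x i ≠ 0) (W : ι' → ι → ℤ) :
    pt P (fun j => mono x (W j)) = fun j => mono (pt P x) (W j) := by
  funext j
  change P.red (unt P (fun j => mono x (W j)) j) = _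
  rw [← red_mono_unt P hx]
  congr 1
  change mono x (W j) * P.surj.choose ^ (-(P.ord (mono x (W j)))) = mono (unt P x) (W j)
  rw [ord_mono P hx, mono_unt P hx, mul_assoc, ← zpow_add₀ P.surj.choose_spec.1,
    add_neg_cancel, zpow_zero, mul_one]

theorem ev_pt (P : Place k K) {x : ι → K} (hx : ∀ i, x i ≠ 0) {f : (ι → ℤ) →₀ k}
    (hf : ev x f = 0) : ev (pt P x) (ini (vec P x) f) = 0 := by
  by_cases hf0 : f = 0
  · rw [hf0]
    unfold ini ev
    rw [Finsupp.filter_zero]
    exact Finsupp.sum_zero_index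
  obtain ⟨m0, -, hm0⟩ := exists_mn hf0 (vec P x)
  have h2 := red_ev' P hx f hm0
  have h3 : ev' x f m0 = 0 := by
    have h4 := ev_eq hx f m0
    rw [hf] at h4
    exact (mul_eq_zero.1 h4.symm).resolve_left (mono_ne hx _)
  rw [h3, P.red_zero] at h2
  exact (div_eq_zero_iff.1 h2.symm).resolve_right (mono_ne (pt_ne P hx) _)

theorem ini_zero' (g : (ι → ℤ) →₀ k) : ini 0 g = g := by
  by_cases hg : g = 0
  · rw [hg]
    unfold ini
    rw [Finsupp.filter_zero]
  · classical
    unfold ini
    rw [Finsupp.filter_eq_self_iff]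
    intro m _
    rw [dotProduct_zero, mn_zero hg]

/-- the linear algebra of the push-forward -/
theorem li_push {R : Type} [Field R] [Algebra k R] {J J1 : Type} {y : ι → R} (hy : ∀ i, y i ≠ 0)
    {f : J → (ι → ℤ) →₀ k} {g : J1 → (ι' → ℤ) →₀ k} {e : J1 → J} (he : Function.Injective e)
    {m0 : J1 → ι → ℤ} {W : ι' → ι → ℤ} (hfg : ∀ l, f (e l) = push (m0 l) W (g l))
    (hg : ∀ l, ev (fun j => mono y (W j)) (g l) = 0)
    (h : LinearIndependent R fun l => gr y (f l)) :
    LinearIndependent R fun l => gr (fun j => mono y (W j)) (g l) := by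
  classical
  have h1 := h.comp e he
  let T : (ι' → R) →ₗ[R] (ι → R) :=
    { toFun := fun γ i => ∑ j, (W j i : R) * γ j
      map_add' := fun a b => by
        funext i
        simp only [Pi.add_apply, mul_add]
        rw [Finset.sum_add_distrib]
      map_smul' := fun c a => by
        funext i
        simp only [Pi.smul_apply, smul_eq_mul, RingHom.id_apply, Finset.mul_sum]
        exact Finset.sum_congr rfl fun j _ => by ring }
  have h2 : (fun l => gr y (f l)) ∘ e = (fun l => Units.mk0 (mono y (m0 l)) (mono_ne hy _)) •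
      fun l => T (gr (fun j => mono y (W j)) (g l)) := by
    funext l i
    change gr y (f (e l)) i = mono y (m0 l) * ∑ j, (W j i : R) * gr (fun j => mono y (W j)) (g l) j
    rw [hfg, gr_push hy, hg, mul_zero, zero_add]
  rw [h2] at h1
  have h3 := h1.units_smul fun l => (Units.mk0 (mono y (m0 l)) (mono_ne hy _))⁻¹
  have h4 : ((fun l => (Units.mk0 (mono y (m0 l)) (mono_ne hy _))⁻¹) •
      (fun l => Units.mk0 (mono y (m0 l)) (mono_ne hy _)) •
      fun l => T (gr (fun j => mono y (W j)) (g l))) =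
      ⇑T ∘ fun l => gr (fun j => mono y (W j)) (g l) := by
    funext l
    change (Units.mk0 (mono y (m0 l)) (mono_ne hy _))⁻¹ •
      Units.mk0 (mono y (m0 l)) (mono_ne hy _) • T (gr (fun j => mono y (W j)) (g l)) = _
    rw [inv_smul_smul]
    rfl
  rw [h4] at h3
  exact h3.of_comp T

/-- **Hereditary nondegeneracy of the system in the monomials.** -/
theorem hn_push {J J1 : Type} {x : ι → K} (hx : ∀ i, x i ≠ 0)
    {f : J → (ι → ℤ) →₀ k} (hf : ∀ l, ev x (f l) = 0) {g : J1 → (ι' → ℤ) →₀ k} {e : J1 → J}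
    (he : Function.Injective e) {m0 : J1 → ι → ℤ} {W : ι' → ι → ℤ}
    (hinj : ∀ l, Function.Injective (aff (m0 l) W)) (hfg : ∀ l, f (e l) = push (m0 l) W (g l))
    (h : HN x f) : HN (fun j => mono x (W j)) g where
  gen F _ _ φ hev := by
    have hφx : ∀ i, φ (x i) ≠ 0 := fun i h0 => hx i ((map_eq_zero φ).1 h0)
    have hz : (fun j => φ (mono x (W j))) = fun j => mono (fun i => φ (x i)) (W j) := by
      funext j
      exact map_mono (φ : K →+* F) x (W j)
    rw [hz] at hev ⊢
    simp only [ini_zero'] at hev ⊢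
    refine li_push hφx he hfg hev ?_
    have h1 := h.gen F φ fun l => by
      rw [ini_zero']
      have h2 := hf l
      have h3 : φ (ev x (f l)) = ev (fun i => φ (x i)) (f l) := by
        unfold ev Finsupp.sum
        rw [map_sum]
        refine Finset.sum_congr rfl fun m _ => ?_
        rw [map_mul, AlgHom.commutes]
        congr 1
        exact map_mono (φ : K →+* F) x m
      rw [← h3, h2, map_zero]
    simp only [ini_zero'] at h1
    exact h1
  place Λ F _ _ _ _ _ _ φ P := by
    intro hev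
    have hφx : ∀ i, φ (x i) ≠ 0 := fun i h0 => hx i ((map_eq_zero φ).1 h0)
    have hz : (fun j => φ (mono x (W j))) = fun j => mono (fun i => φ (x i)) (W j) := by
      funext j
      exact map_mono (φ : K →+* F) x (W j)
    rw [hz, pt_mono P hφx, vec_mono P hφx] at hev ⊢
    refine li_push (f := fun l => ini (vec P fun i => φ (x i))
      ((f l).mapRange (algebraMap k Λ) (map_zero _))) (pt_ne P hφx) he (m0 := m0) (fun l => ?_)
      hev ?_
    · beta_reduce
      rw [hfg, push_mapRange, ini_push (hinj l)]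
    · refine h.place Λ F φ P fun l => ev_pt P hφx ?_
      have h2 := hf l
      have h3 : φ (ev x (f l)) = ev (fun i => φ (x i))
          ((f l).mapRange (algebraMap k Λ) (map_zero _)) := by
        rw [ev_map]
        unfold ev Finsupp.sum
        rw [map_sum]
        refine Finset.sum_congr rfl fun m _ => ?_
        rw [map_mul, AlgHom.commutes]
        congr 1
        exact map_mono (φ : K →+* F) x m
      rw [← h3, h2, map_zero]

end

end Pool.Agent.R885.N
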