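import Pool.Agent.R885.P9

/-!
The value of the dimensions when the Fine interior is not empty.
-/

set_option autoImplicit false
set_option linter.overlappingInstances false
set_option linter.unusedSectionVars false

open FF IntermediateField Pool.Agent.W602.GT Pool.Agent.W619.PQ Pool.Agent.W619.TW
  Pool.Agent.W603.LV Pool.Agent.W672.PG Pool.Agent.W824.PG Pool.Agent.Y172 Pool.Agent.Y191
  Pool.Agent.Y174

namespace Pool.Agent.R885.N

/-- **The value when the Fine interior is not empty.** -/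
theorem fine_val {k K : Type} [Field k] [CharZero k] [IsAlgClosed k] [Field K] [Algebra k K]
    {n q : ℕ} (hn : 1 ≤ n) (htr : Algebra.trdeg k K = (n : ℕ)) {x : Fin (n + q) → K}
    (hx : ∀ i, x i ≠ 0) (hgen : IntermediateField.adjoin k (Set.range x) = ⊤)
    {f : Fin q → (Fin (n + q) → ℤ) →₀ k} (hf : ∀ l, ev x (f l) = 0) (hnd : HN x f)
    (hF : (FineInt f).Nonempty) {d : ℕ}
    (hd : Algebra.trdeg k (IntermediateField.adjoin k {z : K | ∃ w ∈ dirs f, z = mono x w}) =
      (d : ℕ)) : PairKod k K n (fun _ => 0) d ∧ PairNum k K n (fun _ => 0) d := by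
  classical
  obtain ⟨cw, hcw⟩ : ∃ cw : Fin 0 → ℚ, cw = fun _ => 0 := ⟨_, rfl⟩
  obtain ⟨h, hh⟩ : ∃ h : Fin 0 → (Fin (n + q) → ℤ) →₀ k, h = fun _ => 0 := ⟨_, rfl⟩
  have hndV : ∀ V : Finset (Fin 0), HN x (Sum.elim f fun j : V => h j) := by
    intro V
    refine hn_comp (f := f) (Sum.elim id fun j : V => (j : Fin 0).elim0) ?_ ?_ ?_ hnd
    · rintro (l | j) (l' | j') hll
      · exact congrArg _ hll
      · exact (j' : Fin 0).elim0
      · exact (j : Fin 0).elim0
      · exact (j : Fin 0).elim0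
    · intro l
      exact ⟨Sum.inl l, rfl⟩
    · rintro (l | j)
      · rfl
      · exact (j : Fin 0).elim0
  have hbd : (fun P : Place k K => ((bdry (fun _ => 1) cw x h P : ℚ) : ℝ)) = fun _ => 0 := by
    funext P
    by_cases hv : vec P x = 0
    · rw [bdry_no hv fun j => j.elim0, Rat.cast_zero]
    · rw [bdry_ne hv, sub_self, Rat.cast_zero]
  have hFW : FineW (fun _ : Fin (n + q) → ℤ => (1 : ℚ)) (Sum.elim (fun _ => 1) cw)
      (Sum.elim f h) = FineInt f := by
    ext u
    unfold FineW FineInt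
    simp only [Set.mem_ofPred_eq, Fintype.sum_sum_type, Sum.elim_inl, one_mul,
      Finset.univ_eq_empty, Finset.sum_empty, add_zero]
  have hdW : dirsW (fun _ : Fin (n + q) → ℤ => (1 : ℚ)) (Sum.elim (fun _ => 1) cw)
      (Sum.elim f h) = dirs f := by
    unfold dirsW dirs
    rw [hFW]
  have hD1 : ∀ v : Fin (n + q) → ℤ, ∃ z : ℤ,
      ((1 : ℕ) : ℚ) * (fun _ : Fin (n + q) → ℤ => (1 : ℚ)) v = z := fun v => ⟨1, by norm_num⟩
  have h1 := mainW hn rfl htr hx hgen hf (fun j => j.elim0) hnd hndV (A := fun _ => 1) (cw := cw)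
    (D := 1) le_rfl (fun _ _ => one_pos) (fun _ => le_rfl) hD1 (fun j => j.elim0)
    (fun j => j.elim0) (fun j => j.elim0) (fun _ _ _ _ _ => by norm_num) (fun g v hg _ => by
      have h2 : (1 : ℚ) ≤ g := by exact_mod_cast hg
      linarith) (by rw [hFW]; exact hF) (by rw [hdW]; exact hd)
  rw [hbd] at h1
  exact h1

/-- canonical varieties, with given sections -/
theorem can_val {K : Type} [Field K] [Algebra ℂ K] {n d : ℕ} (htr : Algebra.trdeg ℂ K = (n : ℕ))
    (h1 : PairKod ℂ K n (fun _ => 0) d) (h2 : PairNum ℂ K n (fun _ => 0) d) {N : ℕ}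
    {y : Fin (N + 1) → K} (hy : NormalModel y) (hcan : Canonical y n) :
    kodairaDim y n 0 = (d : WithBot ℕ) ∧
      ∀ A, Effective y A → Integral y A → numericalDim y n 0 A = (d : EReal) := by
  have hdisc : ∀ Q, Divisorial n Q → LogDisc y n 0 Q (1 - (fun _ : Place ℂ K => (0 : ℚ)) Q) := by
    intro Q hQ
    beta_reduce
    rw [sub_zero]
    exact hcan.disc (fun _ => rfl) hQ
  have hz : (fun P : Place ℂ K => (((fun _ : Place ℂ K => (0 : ℚ)) P : ℚ) : ℝ)) = fun _ => 0 := by
    funext P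
    exact Rat.cast_zero
  rw [← hz] at h1 h2
  exact dims_pair htr hy ⟨fun _ _ => le_rfl, by simp⟩ (fun P _ => le_rfl) hdisc h1 h2

end Pool.Agent.R885.N
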