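import Pool.Agent.R885.P11
import Pool.Agent.Y191.CorCP

/-!
The Campana-Peternell inequality.
-/

set_option autoImplicit false
set_option linter.overlappingInstances false
set_option linter.unusedSectionVars false

open FF IntermediateField Pool.Agent.W602.GT Pool.Agent.W619.PQ Pool.Agent.W619.TW
  Pool.Agent.W603.LV Pool.Agent.W672.PG Pool.Agent.W824.PG Pool.Agent.Y172 Pool.Agent.Y191
  Pool.Agent.Y174

namespace Pool.Agent.R885.N

/-- the number of the sections of `m (K_X + Δ) + A` -/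
theorem sec_bound {K : Type} [Field K] [Algebra ℂ K] {n N d : ℕ}
    {y : Fin (N + 1) → K} (hy : NormalModel y)
    {Δ : Place ℂ K → ℚ} {β : Place ℂ K → ℚ}
    (hdisc : ∀ Q, Divisorial n Q → LogDisc y n Δ Q (1 - β Q))
    (h2 : PairNum ℂ K n (fun P => (β P : ℝ)) d) {E : Fin n → Derivation ℂ K K} (hfr : IsFrame E)
    {A : Place ℂ K → ℚ} (hA : Effective y A) : ∃ C : ℕ, ∀ m : ℕ, 1 ≤ m → ∀ (r : ℕ) (f : Fin r → K),
      LinearIndependent ℂ f → (∀ i, ∃ ω, IsSection y n m (m • Δ + A) ω ∧ ω E = f i) →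
      r ≤ C * m ^ d := by
  classical
  choose s hs hs0 hsQ using fun j => disc_bound (n := n) (Δ := Δ) hy hA hfr j
  obtain ⟨C, hC⟩ := h2 (Finset.univ.image fun j => (s j)⁻¹)
  refine ⟨C, fun m hm r f hf hω' => hC m r hm ?_⟩
  choose ω' hω' hωf using hω'
  refine ⟨ω', ?_, fun l => ⟨(hω' l).1, ?_⟩⟩
  · have h3 : (LinearMap.proj E : ((Fin n → Derivation ℂ K K) → K) →ₗ[ℂ] K) ∘ ω' = f := by
      funext i
      exact hωf i
    rw [← h3] at hf
    exact hf.of_comp _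
  · intro Q hQ E' hE'
    obtain ⟨j, hj⟩ := exists_centred hy Q
    rcases hsQ j Q hj (1 - β Q) (hdisc Q hQ) m hm (ω' l) (hω' l) E' hE' with h5 | h5
    · exact Or.inl h5
    · right
      refine ⟨(s j)⁻¹, Finset.mem_image_of_mem _ (Finset.mem_univ j), inv_ne_zero (hs0 j), ?_⟩
      rw [Q.ord_inv, Nat.cast_one, one_mul]
      have h6 : ((m * (1 - β Q - 1) - (Q.ord (s j) : ℤ) : ℚ) : ℝ) ≤
          ((Q.ord (ω' l E') : ℤ) : ℝ) := by exact_mod_cast h5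
      push_cast at h6 ⊢
      linarith

/-- **The Campana-Peternell inequality.** -/
theorem cp_all {K : Type} [Field K] [Algebra ℂ K] {n N : ℕ} (htr : Algebra.trdeg ℂ K = (n : ℕ))
    {y : Fin (N + 1) → K} (hy : NormalModel y) {Δ β : Place ℂ K → ℚ}
    (hdisc : ∀ Q, Divisorial n Q → LogDisc y n Δ Q (1 - β Q))
    (h : (∃ d : ℕ, kodairaDim y n Δ = (d : WithBot ℕ) ∧
        PairNum ℂ K n (fun P => (β P : ℝ)) d) ∨
      ∀ T : Finset K, ∃ M0 : ℕ, ∀ M : ℕ, M0 ≤ M → ∀ ω : (Fin n → Derivation ℂ K K) → K,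
        PairSec ℂ K n (fun P => (β P : ℝ)) T M 1 ω → ω = 0)
    {D : Place ℂ K → ℚ} (hD : Effective y D) (hps : PsefSub y n Δ D) {j : ℕ}
    (hj : IitakaGe y D j) : (j : WithBot ℕ) ≤ kodairaDim y n Δ := by
  classical
  obtain ⟨H, hH, m1, hm1, hω⟩ := hps
  rcases h with ⟨d, h1, h2⟩ | h
  · obtain ⟨x, E, hx, hE⟩ := exists_crd htr
    have hfr : IsFrame E := fun G =>
      ⟨fun j => G (x j), (Pool.Agent.W73.PG.PULL.expand x hx E hE G).symm⟩
    obtain ⟨C, hC⟩ := sec_bound hy hdisc h2 hfr hH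
    have h3 := cp_bound (n := n) hfr hC hm1 hω hj
    rw [h1]
    exact_mod_cast h3
  · exfalso
    obtain ⟨T, hT⟩ := sec_of_disc htr hy hdisc hH
    obtain ⟨M0, hM0⟩ := h T
    obtain ⟨ω, hω0, hωs⟩ := hω (M0 + 1) (by omega)
    have h1 : M0 ≤ (M0 + 1) * m1 := by nlinarith
    have h2 : 1 ≤ (M0 + 1) * m1 := Nat.mul_pos (by omega) hm1
    refine hω0 (hM0 _ h1 ω (hT _ h2 ω ⟨hωs.1, fun P hP => (hωs.2 P hP).mono ?_⟩))
    have h3 := hD.1 P hP
    have h4 : (0 : ℚ) ≤ (((M0 + 1) * m1 : ℕ) : ℚ) * D P := mul_nonneg (Nat.cast_nonneg _) h3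
    rw [Pi.add_apply, Pi.add_apply, Pi.smul_apply, Pi.smul_apply, Pi.sub_apply, nsmul_eq_mul,
      nsmul_eq_mul, mul_sub]
    linarith

/-- the data of a quotient -/
theorem orb_data {L : Type} [Field L] [Algebra ℂ L] {n : ℕ} (htr : Algebra.trdeg ℂ L = (n : ℕ))
    (hess : Algebra.EssFiniteType ℂ L) (h : Pos ℂ L n ∨ Neg ℂ L n)
    {G : Subgroup (L ≃ₐ[ℂ] L)} [Finite G] {N : ℕ} {y : Fin (N + 1) → fixedField G}
    {Δ : Place ℂ (fixedField G) → ℚ} (hy : NormalModel y) (hΔ : Effective y Δ)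
    (hm : ∀ P, IsPrimeDivisor y P → ∀ (P' : Place ℂ L) (e : ℕ), LiesOn P' P e →
      (1 : ℚ) - 1 / e ≤ Δ P)
    (hdisc : ∀ Q, Divisorial n Q → ∀ (Q' : Place ℂ L) (e : ℕ), LiesOn Q' Q e →
      LogDisc y n Δ Q (1 / e)) :
    Algebra.trdeg ℂ (fixedField G) = (n : ℕ) ∧ ∃ β : Place ℂ (fixedField G) → ℚ,
      (∀ Q, Divisorial n Q → LogDisc y n Δ Q (1 - β Q)) ∧
      ((∃ d : ℕ, kodairaDim y n Δ = (d : WithBot ℕ) ∧
        PairNum ℂ (fixedField G) n (fun P => (β P : ℝ)) d) ∨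
      ∀ T : Finset (fixedField G), ∃ M0 : ℕ, ∀ M : ℕ, M0 ≤ M →
        ∀ ω : (Fin n → Derivation ℂ (fixedField G) (fixedField G)) → fixedField G,
        PairSec ℂ (fixedField G) n (fun P => (β P : ℝ)) T M 1 ω → ω = 0) := by
  classical
  have hfinK := fixed_finite G
  obtain ⟨hnK, -⟩ := Pool.Agent.W721.PG.EFF2.exists_basis (fixedField G) n htr
  choose w e I hwv hcard hI using exists_inertia (k := ℂ) (L := L) G
  have hl : ∀ v, LiesOn (w v) v (e v) := fun v => hwv v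
  obtain ⟨δ, hδd⟩ : ∃ δ : Place ℂ (fixedField G) → ℚ, δ = fun v => 1 - 1 / (e v : ℚ) := ⟨_, rfl⟩
  have hβ0 : ∀ w : Place ℂ L, (0 : ℝ) ≤ (fun _ => 0 : Place ℂ L → ℝ) w := fun w => le_rfl
  have hδ : ∀ v, IsDivisorial v n → ∀ w' e', LiesOn w' v e' →
      (fun _ => 0 : Place ℂ L → ℝ) w' = 1 - e' * (1 - ((δ v : ℚ) : ℝ)) := by
    intro v hv w' e' hwv'
    have h1 : e v = e' := index_unique (hl v) hwv'
    have h2 : (e' : ℝ) ≠ 0 := by
      have := hwv'.1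
      exact_mod_cast this.ne'
    rw [hδd]
    change (0 : ℝ) = 1 - e' * (1 - ((1 - 1 / (e v : ℚ) : ℚ) : ℝ))
    rw [h1]
    push_cast
    field_simp
    ring
  have hdisc' : ∀ Q, Divisorial n Q → LogDisc y n Δ Q (1 - δ Q) := by
    intro Q hQ
    rw [hδd]
    change LogDisc y n Δ Q (1 - (1 - 1 / (e Q : ℚ)))
    rw [sub_sub_cancel]
    exact hdisc Q hQ (w Q) (e Q) (hl Q)
  refine ⟨hnK, δ, hdisc', ?_⟩
  rcases h with ⟨d, hdn, h3, h4⟩ | h3
  · left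
    have h5 := quot_num (δ := fun v => ((δ v : ℚ) : ℝ)) htr hess hβ0 hδ h4
    refine ⟨d, (dims_pair hnK hy hΔ (fun P hP => ?_) hdisc'
      (quot_kod (δ := fun v => ((δ v : ℚ) : ℝ)) htr hess hβ0 hδ h3) h5).1, h5⟩
    rw [hδd]
    exact hm P hP (w P) (e P) (hl P)
  · right
    exact quot_neg (δ := fun v => ((δ v : ℚ) : ℝ)) htr hess hβ0 hδ h3

end Pool.Agent.R885.N
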