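import Pool.Agent.R885.N0

/-!
The largest parameter for which the polytope is not empty.
-/

set_option autoImplicit false
set_option linter.overlappingInstances false
set_option linter.unusedSectionVars false

namespace Pool.Agent.R885.N

theorem exists_between_fin {α β : Type} [Finite α] [Finite β] (lo : α → ℚ) (hi : β → ℚ)
    (h : ∀ a b, lo a ≤ hi b) : ∃ x, (∀ a, lo a ≤ x) ∧ ∀ b, x ≤ hi b := by
  rcases isEmpty_or_nonempty α with h1 | h1
  · rcases isEmpty_or_nonempty β with h2 | h2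
    · exact ⟨0, fun a => h1.elim a, fun b => h2.elim b⟩
    · obtain ⟨b0, hb0⟩ := Finite.exists_min hi
      exact ⟨hi b0, fun a => h1.elim a, hb0⟩
  · obtain ⟨a0, ha0⟩ := Finite.exists_max lo
    exact ⟨lo a0, ha0, fun b => h a0 b⟩

/-- **Fourier–Motzkin elimination** of all the variables but the parameter. -/
theorem fm (r : ℕ) : ∀ (ι : Type) [Finite ι] (a : ι → Fin r → ℚ) (b c : ι → ℚ),
    ∃ (ι' : Type) (_ : Finite ι') (b' c' : ι' → ℚ), ∀ t : ℚ,
      (∃ u : Fin r → ℚ, ∀ i, b i * t + c i ≤ ∑ j, u j * a i j) ↔ ∀ i, b' i * t + c' i ≤ 0 := by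
  induction r with
  | zero =>
    intro ι _ a b c
    refine ⟨ι, inferInstance, b, c, fun t => ?_⟩
    simp
  | succ r ih =>
    intro ι _ a b c
    let ι1 := {i // a i 0 = 0} ⊕ ({i // 0 < a i 0} × {i // a i 0 < 0})
    let a1 : ι1 → Fin r → ℚ := Sum.elim (fun i j => a i j.succ)
      fun p j => a p.1 j.succ / a p.1 0 - a p.2 j.succ / a p.2 0
    let b1 : ι1 → ℚ := Sum.elim (fun i => b i) fun p => b p.1 / a p.1 0 - b p.2 / a p.2 0
    let c1 : ι1 → ℚ := Sum.elim (fun i => c i) fun p => c p.1 / a p.1 0 - c p.2 / a p.2 0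
    obtain ⟨ι', hι', b', c', h⟩ := ih ι1 a1 b1 c1
    refine ⟨ι', hι', b', c', fun t => ?_⟩
    rw [← h t]
    constructor
    · rintro ⟨u, hu⟩
      refine ⟨fun j => u j.succ, ?_⟩
      rintro (i | ⟨p, q⟩)
      · change b i * t + c i ≤ ∑ j : Fin r, u j.succ * a i j.succ
        have h1 := hu i
        rw [Fin.sum_univ_succ, i.2, mul_zero, zero_add] at h1
        exact h1
      · change (b p / a p 0 - b q / a q 0) * t + (c p / a p 0 - c q / a q 0) ≤
          ∑ j : Fin r, u j.succ * (a p j.succ / a p 0 - a q j.succ / a q 0)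
        have h1 := hu p
        have h2 := hu q
        rw [Fin.sum_univ_succ] at h1 h2
        have h3 : (b p * t + c p) / a p 0 ≤ (u 0 * a p 0 + ∑ j : Fin r, u j.succ * a p j.succ) /
            a p 0 := div_le_div_of_nonneg_right h1 p.2.le
        have h4 : (u 0 * a q 0 + ∑ j : Fin r, u j.succ * a q j.succ) / a q 0 ≤
            (b q * t + c q) / a q 0 := div_le_div_of_nonpos_of_le q.2.le h2
        have h5 : (u 0 * a p 0 + ∑ j : Fin r, u j.succ * a p j.succ) / a p 0 =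
            u 0 + ∑ j : Fin r, u j.succ * (a p j.succ / a p 0) := by
          rw [add_div, mul_div_assoc, div_self p.2.ne', mul_one, Finset.sum_div]
          congr 1
          exact Finset.sum_congr rfl fun j _ => by rw [mul_div_assoc]
        have h6 : (u 0 * a q 0 + ∑ j : Fin r, u j.succ * a q j.succ) / a q 0 =
            u 0 + ∑ j : Fin r, u j.succ * (a q j.succ / a q 0) := by
          rw [add_div, mul_div_assoc, div_self q.2.ne, mul_one, Finset.sum_div]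
          congr 1
          exact Finset.sum_congr rfl fun j _ => by rw [mul_div_assoc]
        rw [h5] at h3
        rw [h6] at h4
        simp only [mul_sub]
        rw [Finset.sum_sub_distrib]
        have h7 : (b p / a p 0 - b q / a q 0) * t + (c p / a p 0 - c q / a q 0) =
            (b p * t + c p) / a p 0 - (b q * t + c q) / a q 0 := by ring
        rw [h7]
        linarith
    · rintro ⟨u, hu⟩
      obtain ⟨x, hx1, hx2⟩ := exists_between_fin
        (fun p : {i // 0 < a i 0} => (b p * t + c p - ∑ j : Fin r, u j * a p j.succ) / a p 0)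
        (fun q : {i // a i 0 < 0} => (b q * t + c q - ∑ j : Fin r, u j * a q j.succ) / a q 0) (by
          intro p q
          have h1 := hu (Sum.inr (p, q))
          change (b p / a p 0 - b q / a q 0) * t + (c p / a p 0 - c q / a q 0) ≤
            ∑ j : Fin r, u j * (a p j.succ / a p 0 - a q j.succ / a q 0) at h1
          simp only [mul_sub] at h1
          rw [Finset.sum_sub_distrib] at h1
          have h2 : ∀ s : ι, (∑ j : Fin r, u j * (a s j.succ / a s 0)) =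
              (∑ j : Fin r, u j * a s j.succ) / a s 0 := by
            intro s
            rw [Finset.sum_div]
            exact Finset.sum_congr rfl fun j _ => by rw [mul_div_assoc]
          rw [h2, h2] at h1
          have h7 : (b p / a p 0 - b q / a q 0) * t + (c p / a p 0 - c q / a q 0) =
              (b p * t + c p) / a p 0 - (b q * t + c q) / a q 0 := by ring
          rw [h7] at h1
          change (b p * t + c p - _) / a p 0 ≤ (b q * t + c q - _) / a q 0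
          rw [sub_div, sub_div]
          linarith)
      refine ⟨Fin.cons x u, fun i => ?_⟩
      rw [Fin.sum_univ_succ]
      simp only [Fin.cons_zero, Fin.cons_succ]
      rcases lt_trichotomy (a i 0) 0 with h1 | h1 | h1
      · have h2 := hx2 ⟨i, h1⟩
        change x ≤ (b i * t + c i - ∑ j : Fin r, u j * a i j.succ) / a i 0 at h2
        rw [le_div_iff_of_neg h1] at h2
        linarith
      · have h2 := hu (Sum.inl ⟨i, h1⟩)
        change b i * t + c i ≤ ∑ j : Fin r, u j * a i j.succ at h2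
        rw [h1, mul_zero, zero_add]
        exact h2
      · have h2 := hx1 ⟨i, h1⟩
        change (b i * t + c i - ∑ j : Fin r, u j * a i j.succ) / a i 0 ≤ x at h2
        rw [div_le_iff₀ h1] at h2
        linarith

/-- the largest parameter `≤ 1` -/
theorem exists_tmax {r : ℕ} (V0 : Finset (Fin r → ℤ)) (φ : (Fin r → ℤ) → ℚ) {t0 : ℚ}
    (h0 : ∃ u : Fin r → ℚ, ∀ v ∈ V0, t0 + φ v ≤ dq u v) (h1 : t0 ≤ 1) :
    ∃ t, t0 ≤ t ∧ t ≤ 1 ∧ (∃ u : Fin r → ℚ, ∀ v ∈ V0, t + φ v ≤ dq u v) ∧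
      (t < 1 → ∀ t', t < t' → ¬ ∃ u : Fin r → ℚ, ∀ v ∈ V0, t' + φ v ≤ dq u v) := by
  classical
  obtain ⟨ι', hι', b', c', h⟩ := fm r V0 (fun v i => ((v : Fin r → ℤ) i : ℚ)) (fun _ => 1)
    (fun v => φ v)
  have h' : ∀ t : ℚ, (∃ u : Fin r → ℚ, ∀ v ∈ V0, t + φ v ≤ dq u v) ↔
      ∀ i, b' i * t + c' i ≤ 0 := by
    intro t
    rw [← h t]
    refine exists_congr fun u => ?_
    constructor
    · rintro h2 ⟨v, hv⟩
      have := h2 v hv
      unfold dq at this
      simpa using this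
    · intro h2 v hv
      have := h2 ⟨v, hv⟩
      unfold dq
      simpa using this
  rw [h'] at h0
  simp only [h']
  by_cases hall : ∀ i, b' i * 1 + c' i ≤ 0
  · exact ⟨1, h1, le_rfl, hall, fun h2 => absurd h2 (lt_irrefl _)⟩
  push Not at hall
  obtain ⟨i1, hi1⟩ := hall
  have hb1 : 0 < b' i1 := by
    by_contra hcon
    push Not at hcon
    have := h0 i1
    nlinarith
  have hne : Nonempty {i // 0 < b' i} := ⟨⟨i1, hb1⟩⟩
  obtain ⟨i0, hi0⟩ := Finite.exists_min fun i : {i // 0 < b' i} => -c' i / b' i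
  have ht0 : t0 ≤ -c' i0 / b' i0 := by
    rw [le_div_iff₀ i0.2]
    have := h0 i0
    linarith
  refine ⟨-c' i0 / b' i0, ht0, ?_, ?_, ?_⟩
  · refine (hi0 ⟨i1, hb1⟩).trans ?_
    change -c' i1 / b' i1 ≤ 1
    rw [div_le_one hb1]
    linarith
  · intro i
    rcases le_or_gt (b' i) 0 with h2 | h2
    · have := h0 i
      nlinarith
    · have h3 := hi0 ⟨i, h2⟩
      change -c' i0 / b' i0 ≤ -c' i / b' i at h3
      rw [le_div_iff₀ h2] at h3
      linarith
  · intro _ t' ht' hcon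
    have h2 := hcon i0
    rw [div_lt_iff₀ i0.2] at ht'
    linarith

section

variable {r : ℕ} {J k : Type} [Fintype J] [Field k] {f : J → (Fin r → ℤ) →₀ k}

theorem dq_add' (u : Fin r → ℚ) (v w : Fin r → ℤ) : dq u (v + w) = dq u v + dq u w := by
  unfold dq
  rw [← Finset.sum_add_distrib]
  refine Finset.sum_congr rfl fun i _ => ?_
  rw [Pi.add_apply]
  push_cast
  ring

/-- **Finitely many vectors suffice.** -/
theorem fin_red (hf0 : ∀ l, f l ≠ 0)
    (hU : ∀ v : Fin r → ℤ, (∀ l, ∀ m ∈ (f l).support, ∀ m' ∈ (f l).support,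
      m ⬝ᵥ v = m' ⬝ᵥ v) → v = 0) :
    ∃ V0 : Finset (Fin r → ℤ), (∀ v ∈ V0, v ≠ 0) ∧ ∀ (u : Fin r → ℚ) (t : ℚ), 0 ≤ t →
      (∀ v ∈ V0, t + ∑ l, (mn v (f l) : ℚ) ≤ dq u v) →
      ∀ v, v ≠ 0 → t + ∑ l, (mn v (f l) : ℚ) ≤ dq u v := by
  classical
  let Ch := (l : J) → {m // m ∈ (f l).support}
  let E := Σ l : J, {m // m ∈ (f l).support}
  let σ : Ch → Set (Fin r → ℤ) := fun a => {v | ∀ l, (a l : Fin r → ℤ) ⬝ᵥ v = mn v (f l)}
  let Φ : Ch → (Fin r → ℤ) → E → ℕ := fun a v e =>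
    (((e.2 : Fin r → ℤ) - (a e.1 : Fin r → ℤ)) ⬝ᵥ v).toNat
  have hΦ : ∀ a v, v ∈ σ a → ∀ e, (Φ a v e : ℤ) =
      ((e.2 : Fin r → ℤ) - (a e.1 : Fin r → ℤ)) ⬝ᵥ v := by
    intro a v hv e
    refine Int.toNat_of_nonneg ?_
    rw [sub_dotProduct, hv e.1]
    exact sub_nonneg.2 (mn_le e.2.2)
  have hinj : ∀ a, Set.InjOn (Φ a) (σ a) := by
    intro a v hv w hw hvw
    rw [← sub_eq_zero]
    refine hU _ fun l m hm m' hm' => ?_
    have key : ∀ m ∈ (f l).support, m ⬝ᵥ (v - w) = (a l : Fin r → ℤ) ⬝ᵥ (v - w) := by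
      intro m hm
      have h1 := hΦ a v hv ⟨l, m, hm⟩
      have h2 := hΦ a w hw ⟨l, m, hm⟩
      rw [hvw, h2] at h1
      change (m - (a l : Fin r → ℤ)) ⬝ᵥ w = (m - (a l : Fin r → ℤ)) ⬝ᵥ v at h1
      rw [sub_dotProduct, sub_dotProduct] at h1
      rw [dotProduct_sub, dotProduct_sub]
      omega
    rw [key m hm, key m' hm']
  have h0σ : ∀ a, (0 : Fin r → ℤ) ∈ σ a := by
    intro a l
    rw [dotProduct_zero, mn_zero (hf0 l)]
  have hsub : ∀ a v w, v ∈ σ a → w ∈ σ a → Φ a w ≤ Φ a v → v - w ∈ σ a := by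
    intro a v w hv hw hle l
    apply le_antisymm
    · refine le_mn (hf0 l) fun m hm => ?_
      have h1 := hΦ a v hv ⟨l, m, hm⟩
      have h2 := hΦ a w hw ⟨l, m, hm⟩
      have h3 : (Φ a w ⟨l, m, hm⟩ : ℤ) ≤ Φ a v ⟨l, m, hm⟩ := by exact_mod_cast hle ⟨l, m, hm⟩
      rw [h1, h2] at h3
      change (m - (a l : Fin r → ℤ)) ⬝ᵥ w ≤ (m - (a l : Fin r → ℤ)) ⬝ᵥ v at h3
      rw [sub_dotProduct, sub_dotProduct] at h3
      rw [dotProduct_sub, dotProduct_sub]
      omega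
    · exact mn_le (a l).2
  let Mi : Ch → Set (Fin r → ℤ) := fun a => {v | v ∈ σ a ∧ v ≠ 0 ∧
    ∀ w ∈ σ a, w ≠ 0 → Φ a w ≤ Φ a v → Φ a w = Φ a v}
  have hMfin : ∀ a, (Mi a).Finite := by
    intro a
    refine Set.Finite.of_finite_image (f := Φ a) ?_ ((hinj a).mono fun v hv => hv.1)
    refine WellQuasiOrderedLE.finite_of_isAntichain ?_
    rintro _ ⟨v, hv, rfl⟩ _ ⟨w, hw, rfl⟩ hne hle
    exact hne (hw.2.2 v hv.1 hv.2.1 hle)
  have hfin : (⋃ a, Mi a).Finite := Set.finite_iUnion hMfin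
  refine ⟨hfin.toFinset, fun v hv => ?_, fun u t ht hV v hv => ?_⟩
  · rw [Set.Finite.mem_toFinset, Set.mem_iUnion] at hv
    obtain ⟨a, ha⟩ := hv
    exact ha.2.1
  have hV' : ∀ a, ∀ v ∈ Mi a, t + ∑ l, (mn v (f l) : ℚ) ≤ dq u v := fun a v hv =>
    hV v (by rw [Set.Finite.mem_toFinset, Set.mem_iUnion]; exact ⟨a, hv⟩)
  choose m hm hm' using fun l => exists_mn (hf0 l) v
  obtain ⟨a, had⟩ : ∃ a : Ch, a = fun l => ⟨m l, hm l⟩ := ⟨_, rfl⟩
  have hva : v ∈ σ a := by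
    intro l
    rw [had]
    exact hm' l
  clear hm hm' had m
  obtain ⟨N, hN⟩ : ∃ N, ∑ e, Φ a v e ≤ N := ⟨_, le_rfl⟩
  induction N generalizing v with
  | zero =>
    exfalso
    apply hv
    refine hinj a hva (h0σ a) ?_
    funext e
    have h1 : Φ a v e = 0 := by
      have h2 := (Finset.sum_eq_zero_iff (s := Finset.univ) (f := fun e => Φ a v e)).1
        (Nat.le_zero.1 hN) e (Finset.mem_univ e)
      exact h2
    rw [h1]
    change 0 = (((e.2 : Fin r → ℤ) - (a e.1 : Fin r → ℤ)) ⬝ᵥ (0 : Fin r → ℤ)).toNat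
    rw [dotProduct_zero, Int.toNat_zero]
  | succ N ih =>
    -- a minimal vector below `v`
    obtain ⟨w, hwa, hw0, hwv, hwmin⟩ : ∃ w ∈ σ a, w ≠ 0 ∧ Φ a w ≤ Φ a v ∧
        ∀ w' ∈ σ a, w' ≠ 0 → Φ a w' ≤ Φ a v → ∑ e, Φ a w e ≤ ∑ e, Φ a w' e := by
      have h1 : ∃ s, ∃ w ∈ σ a, w ≠ 0 ∧ Φ a w ≤ Φ a v ∧ ∑ e, Φ a w e = s :=
        ⟨_, v, hva, hv, le_rfl, rfl⟩
      obtain ⟨w, hw1, hw2, hw3, hw4⟩ := Nat.find_spec h1
      refine ⟨w, hw1, hw2, hw3, fun w' h5 h6 h7 => ?_⟩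
      rw [hw4]
      exact Nat.find_min' h1 ⟨w', h5, h6, h7, rfl⟩
    have hwM : w ∈ Mi a := by
      refine ⟨hwa, hw0, fun w' h1 h2 h3 => ?_⟩
      have h4 := hwmin w' h1 h2 (h3.trans hwv)
      by_contra hne
      obtain ⟨e, he⟩ : ∃ e, Φ a w' e < Φ a w e := by
        by_contra hcon
        push Not at hcon
        exact hne (le_antisymm h3 hcon)
      have h5 := Finset.sum_lt_sum (s := Finset.univ) (fun e _ => h3 e) ⟨e, Finset.mem_univ e, he⟩
      omega
    by_cases hvw : v = w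
    · rw [hvw]
      exact hV' a w hwM
    have hd : v - w ∈ σ a := hsub a v w hva hwa hwv
    have hd0 : v - w ≠ 0 := sub_ne_zero.2 hvw
    have hsum : ∀ e, Φ a (v - w) e + Φ a w e = Φ a v e := by
      intro e
      have h1 := hΦ a v hva e
      have h2 := hΦ a w hwa e
      have h3 := hΦ a (v - w) hd e
      rw [dotProduct_sub, ← h1, ← h2] at h3
      omega
    have hwpos : 0 < ∑ e, Φ a w e := by
      rw [pos_iff_ne_zero]
      intro h1
      apply hw0
      refine hinj a hwa (h0σ a) ?_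
      funext e
      have h2 := (Finset.sum_eq_zero_iff (s := Finset.univ) (f := fun e => Φ a w e)).1 h1 e
        (Finset.mem_univ e)
      rw [h2]
      change 0 = (((e.2 : Fin r → ℤ) - (a e.1 : Fin r → ℤ)) ⬝ᵥ (0 : Fin r → ℤ)).toNat
      rw [dotProduct_zero, Int.toNat_zero]
    have h1 := ih (v - w) hd0 hd (by
      have h2 : ∑ e, Φ a (v - w) e + ∑ e, Φ a w e = ∑ e, Φ a v e := by
        rw [← Finset.sum_add_distrib]
        exact Finset.sum_congr rfl fun e _ => hsum e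
      omega)
    have h2 := hV' a w hwM
    have h3 : ∀ l, mn v (f l) = mn (v - w) (f l) + mn w (f l) := by
      intro l
      rw [← hva l, ← hd l, ← hwa l, dotProduct_sub]
      ring
    have h4 : ∑ l, (mn v (f l) : ℚ) = ∑ l, (mn (v - w) (f l) : ℚ) + ∑ l, (mn w (f l) : ℚ) := by
      rw [← Finset.sum_add_distrib]
      refine Finset.sum_congr rfl fun l _ => ?_
      rw [h3]
      push_cast
      rfl
    have h5 : dq u v = dq u (v - w) + dq u w := by
      rw [← dq_add', sub_add_cancel]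
    rw [h4, h5]
    linarith

/-- a point for a small parameter -/
theorem exists_small (hf0 : ∀ l, f l ≠ 0)
    (hU : ∀ v : Fin r → ℤ, (∀ l, ∀ m ∈ (f l).support, ∀ m' ∈ (f l).support,
      m ⬝ᵥ v = m' ⬝ᵥ v) → v = 0) :
    ∃ t0 : ℚ, 0 < t0 ∧ t0 ≤ 1 ∧ ∃ u : Fin r → ℚ, ∀ v, v ≠ 0 →
      t0 + ∑ l, (mn v (f l) : ℚ) ≤ dq u v := by
  classical
  obtain ⟨N, hN⟩ : ∃ N : J → ℚ, N = fun l => ((f l).support.card : ℚ) := ⟨_, rfl⟩
  have hN1 : ∀ l, 1 ≤ N l := by
    intro l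
    rw [hN]
    have : 1 ≤ (f l).support.card := Finset.card_pos.2 (Finsupp.support_nonempty_iff.2 (hf0 l))
    change (1 : ℚ) ≤ ((f l).support.card : ℚ)
    exact_mod_cast this
  obtain ⟨y, hy⟩ : ∃ y : Fin r → ℚ, y = fun i => ∑ l, (∑ m ∈ (f l).support, (m i : ℚ)) / N l :=
    ⟨_, rfl⟩
  have hyv : ∀ v, dq y v - ∑ l, (mn v (f l) : ℚ) =
      ∑ l, (∑ m ∈ (f l).support, ((m ⬝ᵥ v - mn v (f l) : ℤ) : ℚ)) / N l := by
    intro v
    have h1 : dq y v = ∑ l, (∑ m ∈ (f l).support, ((m ⬝ᵥ v : ℤ) : ℚ)) / N l := by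
      rw [hy]
      unfold dq dotProduct
      push_cast
      simp only [Finset.sum_mul, div_mul_eq_mul_div]
      rw [Finset.sum_comm]
      refine Finset.sum_congr rfl fun l _ => ?_
      rw [← Finset.sum_div, Finset.sum_comm]
    rw [h1, ← Finset.sum_sub_distrib]
    refine Finset.sum_congr rfl fun l _ => ?_
    have h2 : ∑ m ∈ (f l).support, ((m ⬝ᵥ v - mn v (f l) : ℤ) : ℚ) =
        ∑ m ∈ (f l).support, ((m ⬝ᵥ v : ℤ) : ℚ) - N l * (mn v (f l) : ℚ) := by
      push_cast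
      rw [Finset.sum_sub_distrib, Finset.sum_const, nsmul_eq_mul, hN]
    rw [h2, sub_div, mul_div_cancel_left₀]
    have := hN1 l
    linarith
  have hSN : 0 ≤ ∑ l, N l := Finset.sum_nonneg fun l _ => by
    have := hN1 l
    linarith
  refine ⟨1 / (1 + ∑ l, N l), by positivity, ?_, y, fun v hv => ?_⟩
  · rw [div_le_one (by positivity)]
    linarith
  · have hex : ∃ l, ∃ m ∈ (f l).support, mn v (f l) < m ⬝ᵥ v := by
      by_contra hcon
      push Not at hcon
      refine hv (hU v fun l m hm m' hm' => ?_)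
      rw [le_antisymm (hcon l m hm) (mn_le hm), le_antisymm (hcon l m' hm') (mn_le hm')]
    obtain ⟨l0, m0, hm0, hlt⟩ := hex
    have hnn : ∀ l, 0 ≤ (∑ m ∈ (f l).support, ((m ⬝ᵥ v - mn v (f l) : ℤ) : ℚ)) / N l := by
      intro l
      refine div_nonneg (Finset.sum_nonneg fun m hm => ?_) (by have := hN1 l; linarith)
      have : 0 ≤ m ⬝ᵥ v - mn v (f l) := sub_nonneg.2 (mn_le hm)
      exact_mod_cast this
    have h1 : 1 / N l0 ≤ (∑ m ∈ (f l0).support, ((m ⬝ᵥ v - mn v (f l0) : ℤ) : ℚ)) / N l0 := by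
      refine div_le_div_of_nonneg_right ?_ (by have := hN1 l0; linarith)
      have h2 : (1 : ℚ) ≤ ((m0 ⬝ᵥ v - mn v (f l0) : ℤ) : ℚ) := by
        have : 1 ≤ m0 ⬝ᵥ v - mn v (f l0) := by omega
        exact_mod_cast this
      refine h2.trans (Finset.single_le_sum (f := fun m => ((m ⬝ᵥ v - mn v (f l0) : ℤ) : ℚ))
        (fun m hm => ?_) hm0)
      have : 0 ≤ m ⬝ᵥ v - mn v (f l0) := sub_nonneg.2 (mn_le hm)
      exact_mod_cast this
    have h2 : 1 / (1 + ∑ l, N l) ≤ 1 / N l0 := by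
      refine one_div_le_one_div_of_le (by have := hN1 l0; linarith) ?_
      have h3 := Finset.single_le_sum (f := N) (fun l _ => by
        have := hN1 l
        linarith) (Finset.mem_univ l0)
      linarith
    have h3 := Finset.single_le_sum (s := Finset.univ) (fun l _ => hnn l) (Finset.mem_univ l0)
    have h4 := hyv v
    linarith

/-- **The largest parameter.** -/
theorem exists_best (hf0 : ∀ l, f l ≠ 0)
    (hU : ∀ v : Fin r → ℤ, (∀ l, ∀ m ∈ (f l).support, ∀ m' ∈ (f l).support,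
      m ⬝ᵥ v = m' ⬝ᵥ v) → v = 0) :
    ∃ t : ℚ, 0 < t ∧ t ≤ 1 ∧ (∃ u : Fin r → ℚ, ∀ v, v ≠ 0 →
      t + ∑ l, (mn v (f l) : ℚ) ≤ dq u v) ∧
      (t < 1 → ∀ t', t < t' → ¬ ∃ u : Fin r → ℚ, ∀ v, v ≠ 0 →
        t' + ∑ l, (mn v (f l) : ℚ) ≤ dq u v) := by
  obtain ⟨V0, hV0, hred⟩ := fin_red hf0 hU
  obtain ⟨t0, h0, h1, u, hu⟩ := exists_small hf0 hU
  obtain ⟨t, ht0, ht1, ⟨u', hu'⟩, hmax⟩ := exists_tmax V0 (fun v => ∑ l, (mn v (f l) : ℚ))
    ⟨u, fun v hv => hu v (hV0 v hv)⟩ h1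
  refine ⟨t, h0.trans_le ht0, ht1, ⟨u', hred u' t (h0.le.trans ht0) hu'⟩, fun ht t' htt' => ?_⟩
  rintro ⟨w, hw⟩
  exact hmax ht t' htt' ⟨w, fun v hv => hw v (hV0 v hv)⟩

end

end Pool.Agent.R885.N
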