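import Pool.Agent.R885.P1
import Pool.Agent.R885.P2

/-!
The exceptional systems: circuits of tight vectors and their arithmetic.
-/

set_option autoImplicit false
set_option linter.overlappingInstances false
set_option linter.unusedSectionVars false

open FF Pool.Agent.W603.LV Pool.Agent.W619.PQ Pool.Agent.Y173.QA Pool.Agent.W619.TW
  Pool.Agent.TH165.ACC Pool.Agent.TH122.AB Pool.Agent.Y174

namespace Pool.Agent.R885.N

section

variable {k K : Type} [Field k] [Field K] [Algebra k K] {r n : ℕ} {x : Fin r → K}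

/-- the pairing of the gradient with an integral vector -/
theorem gr_dot (f : (Fin r → ℤ) →₀ k) (s : Fin r → ℤ) :
    ∑ i, gr x f i * (s i : K) =
      ∑ m ∈ f.support, algebraMap k K (f m) * ((m ⬝ᵥ s : ℤ) : K) * mono x m := by
  unfold gr Finsupp.sum
  simp only [Finset.sum_mul]
  rw [Finset.sum_comm]
  refine Finset.sum_congr rfl fun m _ => ?_
  rw [← dot_intCast, Finset.mul_sum, Finset.sum_mul]
  exact Finset.sum_congr rfl fun i _ => by ring

theorem gr_dot_const {f : (Fin r → ℤ) →₀ k} (hf : ev x f = 0) {s : Fin r → ℤ} {c : ℤ}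
    (hs : ∀ m ∈ f.support, m ⬝ᵥ s = c) : ∑ i, gr x f i * (s i : K) = 0 := by
  rw [gr_dot]
  have h1 : ∑ m ∈ f.support, algebraMap k K (f m) * ((m ⬝ᵥ s : ℤ) : K) * mono x m =
      (c : K) * ev x f := by
    unfold ev Finsupp.sum
    rw [Finset.mul_sum]
    refine Finset.sum_congr rfl fun m hm => ?_
    rw [hs m hm]
    ring
  rw [h1, hf, mul_zero]

theorem gr'_zero (f : (Fin r → ℤ) →₀ k) (i : Fin r) : gr' x f 0 i = gr x f i := by
  unfold gr gr'
  refine Finset.sum_congr rfl fun m _ => ?_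
  beta_reduce
  rw [sub_zero]

/-- **Derivations with given logarithmic derivatives.** -/
theorem der_of_ker [CharZero k] (htr : Algebra.trdeg k K = (n : ℕ)) (hx : ∀ i, x i ≠ 0)
    (hgen : IntermediateField.adjoin k (Set.range x) = ⊤) {J : Type} [Fintype J]
    (hr : r = Fintype.card J + n) {f : J → (Fin r → ℤ) →₀ k} (hf : ∀ l, ev x (f l) = 0)
    (hli : LinearIndependent K fun l => gr x (f l)) {η : Fin r → K}
    (hη : ∀ l, ∑ i, gr x (f l) i * η i = 0) : ∃ D : Derivation k K K, lg x D = η := by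
  classical
  have e : J ⊕ Fin n ≃ Fin r := Fintype.equivOfCardEq (by
    rw [Fintype.card_sum, Fintype.card_fin, Fintype.card_fin, hr])
  obtain ⟨C, hC⟩ := complete_zero hli (n := n) (by
    rw [Fintype.card_fin, hr])
  have h0 : dt e (fun l => gr x (f l)) C ≠ 0 := dt_ne hC
  obtain ⟨Z, hZ⟩ := Pool.Agent.W636.PG.exists_basis k K n htr
  obtain ⟨E, hE⟩ := Pool.Agent.W636.PG.exists_duals k K n _ hZ
  have h0' : dt e (fun l => gr' x (f l) ((fun _ => 0 : J → Fin r → ℤ) l)) C ≠ 0 := by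
    have h1 : (fun l => gr' x (f l) ((fun _ => 0 : J → Fin r → ℤ) l)) = fun l => gr x (f l) := by
      funext l i
      exact gr'_zero _ _
    rw [h1]
    exact h0
  obtain ⟨θ, hθ⟩ := exists_theta hx hgen hf h0' hE
  refine ⟨∑ a, (∑ i, (C a i : K) * η i) • θ a, ?_⟩
  rw [← sub_eq_zero]
  refine rows_zero h0 ?_
  have hlg : ∀ i, lg x (∑ a, (∑ i, (C a i : K) * η i) • θ a) i =
      ∑ a, (∑ i, (C a i : K) * η i) * lg x (θ a) i := fun i => lg_sum x _ _ _ i
  rintro (l | b)
  · change ∑ i, gr x (f l) i * (lg x (∑ a, (∑ i, (C a i : K) * η i) • θ a) i - η i) = 0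
    simp only [mul_sub]
    rw [Finset.sum_sub_distrib, hη, gr_lg hx (hf l), sub_zero]
  · change ∑ i, (C b i : K) * (lg x (∑ a, (∑ i, (C a i : K) * η i) • θ a) i - η i) = 0
    simp only [mul_sub]
    rw [Finset.sum_sub_distrib, sub_eq_zero]
    simp only [hlg, Finset.mul_sum]
    rw [Finset.sum_comm]
    have h1 : ∀ a, ∑ i, (C b i : K) * ((∑ i, (C a i : K) * η i) * lg x (θ a) i) =
        (∑ i, (C a i : K) * η i) * if a = b then 1 else 0 := by
      intro a
      rw [← hθ a b, Finset.mul_sum]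
      exact Finset.sum_congr rfl fun i _ => by ring
    have h2 : ∀ a, ∑ i, (C b i : K) * ((∑ j, (C a j : K) * η j) * lg x (θ a) i) =
        if a = b then (∑ i, (C a i : K) * η i) else 0 := by
      intro a
      rw [h1, mul_ite, mul_one, mul_zero]
    have h3 := Finset.sum_congr (s₁ := Finset.univ) rfl fun a (_ : a ∈ Finset.univ) => h2 a
    rw [Finset.sum_ite_eq' Finset.univ b, if_pos (Finset.mem_univ _)] at h3
    rw [← h3]

/-- **Directions of the kernel which are orthogonal to a transcendence basis of monomials.** -/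
theorem eta_zero [CharZero k] (htr : Algebra.trdeg k K = (n : ℕ)) (hx : ∀ i, x i ≠ 0)
    (hgen : IntermediateField.adjoin k (Set.range x) = ⊤) {J : Type} [Fintype J]
    (hr : r = Fintype.card J + n) {f : J → (Fin r → ℤ) →₀ k} (hf : ∀ l, ev x (f l) = 0)
    (hli : LinearIndependent K fun l => gr x (f l)) {w : Fin n → Fin r → ℤ}
    (hw : AlgebraicIndependent k fun j => mono x (w j)) {η : Fin r → K}
    (hη : ∀ l, ∑ i, gr x (f l) i * η i = 0) (hwη : ∀ j, ∑ i, (w j i : K) * η i = 0) : η = 0 := by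
  obtain ⟨D, hD⟩ := der_of_ker htr hx hgen hr hf hli hη
  have hZ : IsTranscendenceBasis k fun j => mono x (w j) :=
    hw.isTranscendenceBasis_of_trdeg_le_of_finite (by rw [htr, Cardinal.mk_fin])
  obtain ⟨E, hE⟩ := Pool.Agent.W636.PG.exists_duals k K n _ hZ
  have h1 := der_expand hZ hE D
  have h2 : D = 0 := by
    rw [h1]
    refine Finset.sum_eq_zero fun j _ => ?_
    have h3 : D (mono x (w j)) = 0 := by
      rw [der_mono D hx]
      have h4 : ∑ i, (w j i : K) * (D (x i) / x i) = ∑ i, (w j i : K) * η i := by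
        rw [← hD]
        rfl
      rw [h4, hwη, mul_zero]
    rw [h3, zero_smul]
  rw [← hD, h2]
  funext i
  change (0 : Derivation k K K) (x i) / x i = 0
  rw [Derivation.zero_apply, zero_div]

end

/-- **Circuits.** -/
theorem exists_circuit {r : ℕ} {S : Finset (Fin r → ℤ)} (hS0 : ∀ s ∈ S, s ≠ 0) (hne : S.Nonempty)
    (hpos : ∀ q : Fin r → ℚ, (∀ s ∈ S, 0 ≤ dq q s) → ∀ s ∈ S, dq q s = 0) :
    ∃ (m : ℕ) (s : Fin (m + 1) → Fin r → ℤ) (c : Fin (m + 1) → ℚ), 1 ≤ m ∧
      (∀ i, s i ∈ S ∧ 0 < c i) ∧ (∀ j, ∑ i, c i * (s i j : ℚ) = 0) ∧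
      ∀ μ : Fin (m + 1) → ℚ, (∀ j, ∑ i, μ i * (s i j : ℚ) = 0) → ∃ d, ∀ i, μ i = d * c i := by
  classical
  -- a positive relation
  obtain ⟨w, hw, hw'⟩ := farkas_fin (J := S) (fun s => -dl (s : Fin r → ℤ)) (∑ s : S, dl (s : Fin r → ℤ))
    (by
      intro q hq
      have h1 : ∀ s ∈ S, 0 ≤ dq q s := by
        intro s hs
        have h2 := hq ⟨s, hs⟩
        rw [LinearMap.neg_apply, dl_apply] at h2
        linarith
      have h2 := hpos q h1
      rw [LinearMap.sum_apply]
      refine (Finset.sum_eq_zero fun s _ => ?_).le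
      rw [dl_apply]
      exact h2 s s.2)
  have hrel0 : ∃ c : (Fin r → ℤ) → ℚ, (∀ s ∈ S, 0 < c s) ∧ ∀ j, ∑ s ∈ S, c s * (s j : ℚ) = 0 := by
    refine ⟨fun s => if h : s ∈ S then 1 + w ⟨s, h⟩ else 0, fun s hs => ?_, fun j => ?_⟩
    · beta_reduce
      rw [dif_pos hs]
      have := hw ⟨s, hs⟩
      linarith
    · have h1 := hw' (Pi.single j 1)
      rw [LinearMap.sum_apply] at h1
      simp only [LinearMap.neg_apply, dl_apply] at h1
      have h2 : ∀ s : Fin r → ℤ, dq (Pi.single j 1) s = (s j : ℚ) := by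
        intro s
        unfold dq
        rw [Finset.sum_eq_single j]
        · rw [Pi.single_eq_same, one_mul]
        · intro i _ hi
          rw [Pi.single_eq_of_ne hi, zero_mul]
        · intro h
          exact absurd (Finset.mem_univ _) h
      simp only [h2] at h1
      rw [← Finset.sum_coe_sort S]
      have h3 : ∀ s : S, (if h : (s : Fin r → ℤ) ∈ S then 1 + w ⟨s, h⟩ else 0) * ((s : Fin r → ℤ) j : ℚ) =
          ((s : Fin r → ℤ) j : ℚ) - w s * -((s : Fin r → ℤ) j : ℚ) := by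
        intro s
        rw [dif_pos s.2]
        ring
      rw [Finset.sum_congr rfl fun s _ => h3 s, Finset.sum_sub_distrib, h1, sub_self]
  -- a minimal support
  have hex : ∃ N, ∃ T : Finset (Fin r → ℤ), T ⊆ S ∧ T.Nonempty ∧ T.card = N ∧
      ∃ c : (Fin r → ℤ) → ℚ, (∀ s ∈ T, 0 < c s) ∧ ∀ j, ∑ s ∈ T, c s * (s j : ℚ) = 0 :=
    ⟨_, S, Finset.Subset.refl _, hne, rfl, hrel0⟩
  obtain ⟨T, hTS, hT, hTN, c, hc, hrel⟩ := Nat.find_spec hex
  have hmin : ∀ T' : Finset (Fin r → ℤ), T' ⊆ S → T'.Nonempty →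
      (∃ c : (Fin r → ℤ) → ℚ, (∀ s ∈ T', 0 < c s) ∧ ∀ j, ∑ s ∈ T', c s * (s j : ℚ) = 0) →
      T.card ≤ T'.card := by
    intro T' h1 h2 h3
    rw [hTN]
    exact Nat.find_min' hex ⟨T', h1, h2, rfl, h3⟩
  have huniq : ∀ μ : (Fin r → ℤ) → ℚ, (∀ j, ∑ s ∈ T, μ s * (s j : ℚ) = 0) →
      ∃ d, ∀ s ∈ T, μ s = d * c s := by
    intro μ hμ
    obtain ⟨s0, hs0, hs0'⟩ := Finset.exists_min_image T (fun s => μ s / c s) hT
    refine ⟨μ s0 / c s0, ?_⟩
    by_contra hcon
    push Not at hcon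
    obtain ⟨s1, hs1, hs1'⟩ := hcon
    let ν : (Fin r → ℤ) → ℚ := fun s => μ s - μ s0 / c s0 * c s
    have hν : ∀ s ∈ T, 0 ≤ ν s := by
      intro s hs
      have h1 := hs0' s hs
      change 0 ≤ μ s - μ s0 / c s0 * c s
      rw [le_div_iff₀ (hc s hs)] at h1
      linarith
    have h1 := hmin (T.filter fun s => ν s ≠ 0) ((Finset.filter_subset _ _).trans hTS)
      ⟨s1, Finset.mem_filter.2 ⟨hs1, sub_ne_zero.2 hs1'⟩⟩ ⟨ν, fun s hs => ?_, fun j => ?_⟩
    · have h2 : T.filter (fun s => ν s ≠ 0) ⊂ T := by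
        refine (Finset.filter_ssubset).2 ⟨s0, hs0, ?_⟩
        rw [not_not]
        change μ s0 - μ s0 / c s0 * c s0 = 0
        rw [div_mul_cancel₀ _ (hc s0 hs0).ne', sub_self]
      have h3 := Finset.card_lt_card h2
      omega
    · rw [Finset.mem_filter] at hs
      exact lt_of_le_of_ne (hν s hs.1) (Ne.symm hs.2)
    · have h2 : ∑ s ∈ T.filter (fun s => ν s ≠ 0), ν s * (s j : ℚ) = ∑ s ∈ T, ν s * (s j : ℚ) := by
        rw [Finset.sum_filter]
        refine Finset.sum_congr rfl fun s _ => ?_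
        split_ifs with h
        · rfl
        · rw [not_not.1 h, zero_mul]
      rw [h2]
      change ∑ s ∈ T, (μ s - μ s0 / c s0 * c s) * (s j : ℚ) = 0
      simp only [sub_mul]
      rw [Finset.sum_sub_distrib, hμ]
      have h3 : ∑ s ∈ T, μ s0 / c s0 * c s * (s j : ℚ) = μ s0 / c s0 * ∑ s ∈ T, c s * (s j : ℚ) := by
        rw [Finset.mul_sum]
        exact Finset.sum_congr rfl fun s _ => by ring
      rw [h3, hrel, mul_zero, sub_zero]
  -- enumeration
  have hcard : 2 ≤ T.card := by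
    by_contra hcon
    have h1 : T.card = 1 := by
      have := Finset.card_pos.2 hT
      omega
    obtain ⟨s, hs⟩ := Finset.card_eq_one.1 h1
    apply hS0 s (hTS (by rw [hs]; exact Finset.mem_singleton_self s))
    funext j
    have h2 := hrel j
    rw [hs, Finset.sum_singleton] at h2
    have hsT : s ∈ T := by
      rw [hs]
      exact Finset.mem_singleton_self s
    have h3 := (mul_eq_zero.1 h2).resolve_left (hc s hsT).ne'
    exact_mod_cast h3
  obtain ⟨m, hm⟩ : ∃ m, T.card = m + 1 := ⟨T.card - 1, by omega⟩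
  let e : T ≃ Fin (m + 1) := Finset.equivFinOfCardEq hm
  have hsum : ∀ g : (Fin r → ℤ) → ℚ, ∑ i, g (e.symm i) = ∑ s ∈ T, g s := by
    intro g
    rw [← Finset.sum_coe_sort T]
    exact e.symm.sum_comp fun s : T => g s
  refine ⟨m, fun i => (e.symm i : Fin r → ℤ), fun i => c (e.symm i), by omega,
    fun i => ⟨hTS (e.symm i).2, hc _ (e.symm i).2⟩, fun j => ?_, fun μ hμ => ?_⟩
  · rw [← hrel j]
    exact hsum fun s => c s * (s j : ℚ)
  · obtain ⟨d, hd⟩ := huniq (fun s => if h : s ∈ T then μ (e ⟨s, h⟩) else 0) (fun j => by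
      rw [← hμ j, ← hsum]
      refine Finset.sum_congr rfl fun i _ => ?_
      beta_reduce
      rw [dif_pos (e.symm i).2]
      simp)
    refine ⟨d, fun i => ?_⟩
    have h1 := hd _ (e.symm i).2
    rw [dif_pos (e.symm i).2] at h1
    simpa using h1

section

variable {k : Type} [Field k] {r m : ℕ} {J : Type} [Fintype J] {f : J → (Fin r → ℤ) →₀ k}

/-- independence of the vectors of a circuit but one -/
theorem circ_li {s : Fin (m + 1) → Fin r → ℤ} {c : Fin (m + 1) → ℚ} (hc : ∀ i, 0 < c i)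
    (huniq : ∀ μ : Fin (m + 1) → ℚ, (∀ j, ∑ i, μ i * (s i j : ℚ) = 0) → ∃ d, ∀ i, μ i = d * c i) :
    LinearIndependent ℚ fun (i : Fin m) (j : Fin r) => (s i.succ j : ℚ) := by
  rw [Fintype.linearIndependent_iff]
  intro g hg i
  obtain ⟨d, hd⟩ := huniq (Fin.cons 0 g) (fun j => by
    rw [Fin.sum_univ_succ]
    simp only [Fin.cons_zero, Fin.cons_succ, zero_mul, zero_add]
    have h1 := congrFun hg j
    rw [Finset.sum_apply] at h1
    exact h1)
  have h0 := hd 0
  rw [Fin.cons_zero] at h0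
  have hd0 : d = 0 := (mul_eq_zero.1 h0.symm).resolve_right (hc 0).ne'
  have h1 := hd i.succ
  rw [Fin.cons_succ, hd0, zero_mul] at h1
  exact h1

open scoped Classical in
/-- the equations which are not constant along the circuit -/
noncomputable def JC (f : J → (Fin r → ℤ) →₀ k) (s : Fin (m + 1) → Fin r → ℤ) : Finset J :=
  Finset.univ.filter fun l => ∃ i, ∃ m' ∈ (f l).support, mn (s i) (f l) < m' ⬝ᵥ s i

theorem not_mem_JC {s : Fin (m + 1) → Fin r → ℤ} {l : J} (h : l ∉ JC f s) (i : Fin (m + 1))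
    {m' : Fin r → ℤ} (hm' : m' ∈ (f l).support) : m' ⬝ᵥ s i = mn (s i) (f l) := by
  classical
  unfold JC at h
  rw [Finset.mem_filter] at h
  push Not at h
  exact le_antisymm (h (Finset.mem_univ l) i m' hm') (mn_le hm')

theorem mem_JC {s : Fin (m + 1) → Fin r → ℤ} {c : Fin (m + 1) → ℚ} (hc : ∀ i, 0 < c i)
    (hrel : ∀ j, ∑ i, c i * (s i j : ℚ) = 0) {l : J} (h : l ∈ JC f s) {m' : Fin r → ℤ}
    (hm' : m' ∈ (f l).support) : ∃ i, mn (s i) (f l) < m' ⬝ᵥ s i := by
  classical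
  by_contra hcon
  push Not at hcon
  unfold JC at h
  rw [Finset.mem_filter] at h
  obtain ⟨-, i0, m1, hm1, hlt⟩ := h
  have h1 : ∑ i, c i * (((m1 - m') ⬝ᵥ s i : ℤ) : ℚ) = 0 := by
    have h2 : ∀ i, c i * (((m1 - m') ⬝ᵥ s i : ℤ) : ℚ) =
        ∑ j, (((m1 - m') j : ℤ) : ℚ) * (c i * (s i j : ℚ)) := by
      intro i
      unfold dotProduct
      push_cast
      rw [Finset.mul_sum]
      exact Finset.sum_congr rfl fun j _ => by ring
    rw [Finset.sum_congr rfl fun i _ => h2 i, Finset.sum_comm]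
    refine Finset.sum_eq_zero fun j _ => ?_
    rw [← Finset.mul_sum, hrel, mul_zero]
  have h2 : ∀ i ∈ (Finset.univ : Finset (Fin (m + 1))), 0 ≤ c i * (((m1 - m') ⬝ᵥ s i : ℤ) : ℚ) := by
    intro i _
    refine mul_nonneg (hc i).le ?_
    have h3 : 0 ≤ (m1 - m') ⬝ᵥ s i := by
      rw [sub_dotProduct]
      have := hcon i
      have := mn_le (v := s i) hm1
      omega
    exact_mod_cast h3
  have h3 := (Finset.sum_eq_zero_iff_of_nonneg h2).1 h1 i0 (Finset.mem_univ _)
  have h4 := (mul_eq_zero.1 h3).resolve_left (hc i0).ne'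
  have h5 : (m1 - m') ⬝ᵥ s i0 = 0 := by exact_mod_cast h4
  rw [sub_dotProduct] at h5
  have := hcon i0
  omega

/-- **The number of the equations which are not constant along the circuit.** -/
theorem card_JC {K : Type} [Field K] [CharZero K] [Algebra k K] {x : Fin r → K}
    (hf : ∀ l, ev x (f l) = 0) {s : Fin (m + 1) → Fin r → ℤ}
    (hli : LinearIndependent ℚ fun (i : Fin m) (j : Fin r) => (s i.succ j : ℚ))
    (hη : ∀ c : Fin m → K, (∀ l, ∑ j, gr x (f l) j * (∑ i, c i * (s i.succ j : K)) = 0) →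
      (fun j => ∑ i, c i * (s i.succ j : K)) = 0) : m ≤ (JC f s).card := by
  classical
  let T : (Fin m → K) →ₗ[K] (JC f s → K) :=
    { toFun := fun c l => ∑ j, gr x (f l) j * (∑ i, c i * (s i.succ j : K))
      map_add' := fun a b => by
        funext l
        simp only [Pi.add_apply, add_mul, Finset.sum_add_distrib, mul_add]
      map_smul' := fun a b => by
        funext l
        simp only [Pi.smul_apply, smul_eq_mul, RingHom.id_apply, Finset.mul_sum]
        exact Finset.sum_congr rfl fun j _ => Finset.sum_congr rfl fun i _ => by ring }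
  have hinj : Function.Injective T := by
    rw [← LinearMap.ker_eq_bot, LinearMap.ker_eq_bot']
    intro c hcT
    have h1 := hη c fun l => by
      by_cases hl : l ∈ JC f s
      · exact congrFun hcT ⟨l, hl⟩
      · have h2 : ∑ j, gr x (f l) j * (∑ i, c i * (s i.succ j : K)) =
            ∑ i, c i * ∑ j, gr x (f l) j * (s i.succ j : K) := by
          simp only [Finset.mul_sum]
          rw [Finset.sum_comm]
          exact Finset.sum_congr rfl fun i _ => Finset.sum_congr rfl fun j _ => by ring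
        rw [h2]
        refine Finset.sum_eq_zero fun i _ => ?_
        rw [gr_dot_const (hf l) fun m' hm' => not_mem_JC hl i.succ hm', mul_zero]
    have h2 := Fintype.linearIndependent_iff.1 (li_field (F := K) hli) c (by
      funext j
      rw [Finset.sum_apply]
      exact congrFun h1 j)
    funext i
    exact h2 i
  have h1 := LinearMap.finrank_le_finrank_of_injective hinj
  rw [Module.finrank_fintype_fun_eq_card, Module.finrank_fintype_fun_eq_card, Fintype.card_fin,
    Fintype.card_coe] at h1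
  exact h1

/-- **The arithmetic of the exceptional systems.** -/
theorem exc_arith (hf0 : ∀ l, f l ≠ 0) {s : Fin (m + 1) → Fin r → ℤ} {c : Fin (m + 1) → ℚ}
    (hm : 1 ≤ m) (hc : ∀ i, 0 < c i) (hrel : ∀ j, ∑ i, c i * (s i j : ℚ) = 0)
    {u0 : Fin r → ℤ} {C a : ℤ} (hC : 0 < C) (ha : a < C)
    (hF : ∀ v, v ≠ 0 → a + C * ∑ l, mn v (f l) ≤ u0 ⬝ᵥ v)
    (hs : ∀ i, u0 ⬝ᵥ s i = a + C * ∑ l, mn (s i) (f l)) (hcard : m ≤ (JC f s).card) :
    ∑ i, s i = 0 ∧ (JC f s).card = m ∧ (∀ l ∈ JC f s, ∑ i, mn (s i) (f l) = -1) ∧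
      (m + 1) * a = m * C := by
  classical
  obtain ⟨N, hN⟩ : ∃ N : J → ℤ, N = fun l => -∑ i, mn (s i) (f l) := ⟨_, rfl⟩
  have hmn : ∀ l, ∑ i, mn (s i) (f l) + (if l ∈ JC f s then 1 else 0) ≤
      mn (∑ i, s i) (f l) := by
    intro l
    refine le_mn (hf0 l) fun m' hm' => ?_
    rw [dotProduct_sum]
    have h1 : ∀ i ∈ (Finset.univ : Finset (Fin (m + 1))), mn (s i) (f l) ≤ m' ⬝ᵥ s i :=
      fun i _ => mn_le hm'
    by_cases hl : l ∈ JC f s
    · rw [if_pos hl]
      obtain ⟨i, hi⟩ := mem_JC hc hrel hl hm'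
      have h2 := Finset.sum_lt_sum h1 ⟨i, Finset.mem_univ _, hi⟩
      omega
    · rw [if_neg hl, add_zero]
      exact Finset.sum_le_sum h1
  have hsum : (∑ l, ∑ i, mn (s i) (f l)) + (JC f s).card ≤ ∑ l, mn (∑ i, s i) (f l) := by
    have h1 : ∑ l, (∑ i, mn (s i) (f l) + (if l ∈ JC f s then (1 : ℤ) else 0)) =
        (∑ l, ∑ i, mn (s i) (f l)) + (JC f s).card := by
      rw [Finset.sum_add_distrib]
      simp
    rw [← h1]
    exact Finset.sum_le_sum fun l _ => hmn l
  have hu : u0 ⬝ᵥ (∑ i, s i) = (m + 1) * a + C * ∑ l, ∑ i, mn (s i) (f l) := by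
    rw [dotProduct_sum, Finset.sum_congr rfl fun i _ => hs i, Finset.sum_add_distrib,
      ← Finset.mul_sum, Finset.sum_comm, Finset.sum_const, Finset.card_univ, Fintype.card_fin,
      nsmul_eq_mul]
    push_cast
    rfl
  have hcard' : (m : ℤ) ≤ (JC f s).card := by exact_mod_cast hcard
  have hm' : (1 : ℤ) ≤ m := by exact_mod_cast hm
  have hσ : ∑ i, s i = 0 := by
    by_contra hne
    have h1 := hF _ hne
    rw [hu] at h1
    have h2 := mul_le_mul_of_nonneg_left hsum hC.le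
    have h3 : C * (JC f s).card ≤ m * a := by nlinarith
    have h4 : (m : ℤ) * a < m * C := mul_lt_mul_of_pos_left ha (by omega)
    have h5 : C * m ≤ C * (JC f s).card := mul_le_mul_of_nonneg_left hcard' hC.le
    nlinarith
  have hmn0 : ∀ l, (if l ∈ JC f s then (1 : ℤ) else 0) ≤ N l := by
    intro l
    have h1 := hmn l
    rw [hσ, mn_zero (hf0 l)] at h1
    rw [hN]
    change _ ≤ -∑ i, mn (s i) (f l)
    omega
  have hNsum : ∑ l, ∑ i, mn (s i) (f l) = -∑ l, N l := by
    rw [hN, ← Finset.sum_neg_distrib]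
    exact Finset.sum_congr rfl fun l _ => by rw [neg_neg]
  rw [hσ, dotProduct_zero, hNsum] at hu
  have h1 : C * ∑ l, N l = (m + 1) * a := by linarith
  have h2 : ∑ l, (if l ∈ JC f s then (1 : ℤ) else 0) ≤ ∑ l, N l :=
    Finset.sum_le_sum fun l _ => hmn0 l
  have h3 : ∑ l, (if l ∈ JC f s then (1 : ℤ) else 0) = (JC f s).card := by simp
  have h4 : ∑ l, N l < m + 1 := by
    by_contra hcon
    push Not at hcon
    have h5 := mul_le_mul_of_nonneg_left hcon hC.le
    have h6 : ((m : ℤ) + 1) * a < (m + 1) * C := mul_lt_mul_of_pos_left ha (by omega)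
    nlinarith
  have h5 : ∑ l, N l = m := by omega
  have h6 : ((JC f s).card : ℤ) = m := by omega
  refine ⟨hσ, by exact_mod_cast h6, fun l hl => ?_, by rw [← h1, h5]; ring⟩
  have h7 : ∑ l, (N l - (if l ∈ JC f s then (1 : ℤ) else 0)) = 0 := by
    rw [Finset.sum_sub_distrib, h3]
    omega
  have h8 := (Finset.sum_eq_zero_iff_of_nonneg fun l _ => sub_nonneg.2 (hmn0 l)).1 h7 l
    (Finset.mem_univ _)
  rw [if_pos hl, hN] at h8
  change -∑ i, mn (s i) (f l) - 1 = 0 at h8
  omega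

end

end Pool.Agent.R885.N
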