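import Pool.Agent.R885.P3

/-!
The exceptional systems: the field is generated by the monomials which are orthogonal to the
circuit.
-/

set_option autoImplicit false
set_option linter.overlappingInstances false
set_option linter.unusedSectionVars false

open FF Pool.Agent.W603.LV Pool.Agent.W619.PQ

namespace Pool.Agent.R885.N

/-- nonnegative integers of sum one -/
theorem sum_one {α : Type} [Fintype α] [DecidableEq α] {g : α → ℤ} (hg : ∀ i, 0 ≤ g i)
    (h : ∑ i, g i = 1) : ∃ a, ∀ i, g i = if i = a then 1 else 0 := by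
  obtain ⟨a, ha⟩ : ∃ a, g a ≠ 0 := by
    by_contra hcon
    push Not at hcon
    rw [Finset.sum_eq_zero fun i _ => hcon i] at h
    omega
  refine ⟨a, ?_⟩
  rw [← Finset.add_sum_erase _ _ (Finset.mem_univ a)] at h
  have h1 : 0 ≤ ∑ i ∈ Finset.univ.erase a, g i := Finset.sum_nonneg fun i _ => hg i
  have h2 := hg a
  have h3 : g a = 1 := by omega
  have h4 : ∑ i ∈ Finset.univ.erase a, g i = 0 := by omega
  have h5 := (Finset.sum_eq_zero_iff_of_nonneg fun i _ => hg i).1 h4
  intro i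
  split_ifs with hi
  · rw [hi, h3]
  · exact h5 i (Finset.mem_erase.2 ⟨hi, Finset.mem_univ i⟩)

section

variable {k K : Type} [Field k] [Field K] [Algebra k K] {r m : ℕ} {x : Fin r → K}

open scoped Classical in
/-- the part of `f` of the type `a` -/
noncomputable def Gp (x : Fin r → K) (s : Fin (m + 1) → Fin r → ℤ) (f : (Fin r → ℤ) →₀ k)
    (a : Fin (m + 1)) : K :=
  ∑ m' ∈ f.support.filter (fun m' => m' ⬝ᵥ s a = mn (s a) f + 1), algebraMap k K (f m') * mono x m'

/-- the type of an exponent -/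
theorem exists_type {s : Fin (m + 1) → Fin r → ℤ} (hs : ∑ i, s i = 0) {f : (Fin r → ℤ) →₀ k}
    (h1 : ∑ i, mn (s i) f = -1) {m' : Fin r → ℤ} (hm' : m' ∈ f.support) :
    ∃ a, ∀ i, m' ⬝ᵥ s i = mn (s i) f + if i = a then 1 else 0 := by
  obtain ⟨a, ha⟩ := sum_one (g := fun i => m' ⬝ᵥ s i - mn (s i) f)
    (fun i => sub_nonneg.2 (mn_le hm')) (by
      rw [Finset.sum_sub_distrib, h1, ← dotProduct_sum, hs, dotProduct_zero]
      norm_num)
  refine ⟨a, fun i => ?_⟩
  have := ha i
  beta_reduce at this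
  omega

theorem type_eq {s : Fin (m + 1) → Fin r → ℤ} (hs : ∑ i, s i = 0) {f : (Fin r → ℤ) →₀ k}
    (h1 : ∑ i, mn (s i) f = -1) {m' : Fin r → ℤ} (hm' : m' ∈ f.support) {a : Fin (m + 1)}
    (ha : m' ⬝ᵥ s a = mn (s a) f + 1) (i : Fin (m + 1)) :
    m' ⬝ᵥ s i = mn (s i) f + if i = a then 1 else 0 := by
  obtain ⟨b, hb⟩ := exists_type hs h1 hm'
  have h2 := hb a
  rw [ha] at h2
  have h3 : a = b := by
    by_contra hne
    rw [if_neg hne] at h2
    omega
  rw [h3]
  exact hb i

theorem gr_dot_type {s : Fin (m + 1) → Fin r → ℤ} (hs : ∑ i, s i = 0) {f : (Fin r → ℤ) →₀ k}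
    (hf : ev x f = 0) (h1 : ∑ i, mn (s i) f = -1) (a : Fin (m + 1)) :
    ∑ j, gr x f j * (s a j : K) = Gp x s f a := by
  classical
  rw [gr_dot]
  have h2 : ∀ m' ∈ f.support, algebraMap k K (f m') * ((m' ⬝ᵥ s a : ℤ) : K) * mono x m' =
      (mn (s a) f : K) * (algebraMap k K (f m') * mono x m') +
        if m' ⬝ᵥ s a = mn (s a) f + 1 then algebraMap k K (f m') * mono x m' else 0 := by
    intro m' hm'
    obtain ⟨b, hb⟩ := exists_type hs h1 hm'
    have h3 := hb a
    by_cases hab : a = b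
    · rw [if_pos hab] at h3
      rw [if_pos h3, h3]
      push_cast
      ring
    · rw [if_neg hab, add_zero] at h3
      rw [if_neg (by omega), h3]
      ring
  rw [Finset.sum_congr rfl h2, Finset.sum_add_distrib, ← Finset.mul_sum, ← Finset.sum_filter]
  have h3 : ∑ m' ∈ f.support, algebraMap k K (f m') * mono x m' = 0 := hf
  rw [h3, mul_zero, zero_add]
  unfold Gp
  congr 1

/-- **The reduction**: data of an exceptional circuit. -/
structure Exc (x : Fin r → K) {J : Type} [Fintype J] (f : J → (Fin r → ℤ) →₀ k)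
    (s : Fin (m + 1) → Fin r → ℤ) : Prop where
  hx : ∀ i, x i ≠ 0
  hf : ∀ l, ev x (f l) = 0
  hs : ∑ i, s i = 0
  card : (JC f s).card = m
  mn_eq : ∀ l ∈ JC f s, ∑ i, mn (s i) (f l) = -1
  ker : ∀ c : Fin (m + 1) → K, (∀ l, ∑ j, gr x (f l) j * (∑ i, c i * (s i j : K)) = 0) →
    ∀ i, c i = c 0

variable {J : Type} [Fintype J] {f : J → (Fin r → ℤ) →₀ k} {s : Fin (m + 1) → Fin r → ℤ}

theorem Exc.ker' (h : Exc x f s) {c : Fin (m + 1) → K}
    (hc : ∀ l ∈ JC f s, ∑ a, Gp x s (f l) a * c a = 0) (i : Fin (m + 1)) : c i = c 0 := by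
  refine h.ker c (fun l => ?_) i
  have h1 : ∑ j, gr x (f l) j * (∑ i, c i * (s i j : K)) =
      ∑ i, (∑ j, gr x (f l) j * (s i j : K)) * c i := by
    simp only [Finset.mul_sum, Finset.sum_mul]
    rw [Finset.sum_comm]
    exact Finset.sum_congr rfl fun i _ => Finset.sum_congr rfl fun j _ => by ring
  rw [h1]
  by_cases hl : l ∈ JC f s
  · rw [← hc l hl]
    exact Finset.sum_congr rfl fun i _ => by rw [gr_dot_type h.hs (h.hf l) (h.mn_eq l hl)]
  · refine Finset.sum_eq_zero fun i _ => ?_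
    rw [gr_dot_const (h.hf l) fun m' hm' => not_mem_JC hl i hm', zero_mul]

/-- the dual vectors -/
theorem Exc.dual (h : Exc x f s) : ∃ b : Fin (m + 1) → Fin r → ℤ, ∀ a i,
    b a ⬝ᵥ s i = (if i = a then 1 else 0) - if i = 0 then 1 else 0 := by
  classical
  let e : Fin m ≃ JC f s := (Finset.equivFinOfCardEq h.card).symm
  have key : ∀ a : Fin (m + 1), ∃ w : Fin r → ℤ, ∀ i,
      w ⬝ᵥ s i = (∑ j, mn (s i) (f (e j))) + (1 - if i = a then 1 else 0) := by
    intro a
    let M : Matrix (Fin m) (Fin m) K := Matrix.of fun l j => Gp x s (f (e l)) (a.succAbove j)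
    have hM : M.det ≠ 0 := by
      intro h0
      obtain ⟨v, hv0, hv⟩ := Matrix.exists_mulVec_eq_zero_iff.2 h0
      apply hv0
      have h1 := h.ker' (c := a.insertNth 0 v) (fun l hl => by
        rw [Fin.sum_univ_succAbove _ a, Fin.insertNth_apply_same, mul_zero, zero_add]
        have h2 := congrFun hv (e.symm ⟨l, hl⟩)
        change ∑ j, Gp x s (f (e (e.symm ⟨l, hl⟩))) (a.succAbove j) * v j = 0 at h2
        rw [e.apply_symm_apply] at h2
        simp only [Fin.insertNth_apply_succAbove]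
        exact h2)
      funext j
      have h2 := h1 (a.succAbove j)
      rw [Fin.insertNth_apply_succAbove, ← h1 a, Fin.insertNth_apply_same] at h2
      exact h2
    rw [Matrix.det_apply] at hM
    obtain ⟨σ, -, hσ⟩ := Finset.exists_ne_zero_of_sum_ne_zero hM
    have hσ' : ∏ j, M (σ j) j ≠ 0 := by
      intro h1
      rw [h1, smul_zero] at hσ
      exact hσ rfl
    have h2 : ∀ j, ∃ m' ∈ (f (e (σ j))).support,
        m' ⬝ᵥ s (a.succAbove j) = mn (s (a.succAbove j)) (f (e (σ j))) + 1 := by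
      intro j
      have h3 : Gp x s (f (e (σ j))) (a.succAbove j) ≠ 0 :=
        Finset.prod_ne_zero_iff.1 hσ' j (Finset.mem_univ j)
      obtain ⟨m', hm', -⟩ := Finset.exists_ne_zero_of_sum_ne_zero h3
      rw [Finset.mem_filter] at hm'
      exact ⟨m', hm'.1, hm'.2⟩
    choose w hw hw' using h2
    refine ⟨∑ j, w j, fun i => ?_⟩
    rw [sum_dotProduct]
    have h3 : ∀ j, w j ⬝ᵥ s i = mn (s i) (f (e (σ j))) + if i = a.succAbove j then 1 else 0 :=
      fun j => type_eq h.hs (h.mn_eq _ (e (σ j)).2) (hw j) (hw' j) i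
    rw [Finset.sum_congr rfl fun j _ => h3 j, Finset.sum_add_distrib]
    congr 1
    · exact Equiv.sum_comp σ fun j => mn (s i) (f (e j))
    · have h4 : ∑ b : Fin (m + 1), (if i = b then (1 : ℤ) else 0) = 1 := by
        rw [Finset.sum_ite_eq Finset.univ i, if_pos (Finset.mem_univ i)]
      rw [Fin.sum_univ_succAbove _ a] at h4
      omega
  choose w hw using key
  refine ⟨fun a => w 0 - w a, fun a i => ?_⟩
  rw [sub_dotProduct, hw, hw]
  ring

/-- **The field is generated by the monomials which are orthogonal to the circuit.** -/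
theorem Exc.top (h : Exc x f s) (hf0 : ∀ l, f l ≠ 0)
    (hgen : IntermediateField.adjoin k (Set.range x) = ⊤) :
    IntermediateField.adjoin k {z : K | ∃ w : Fin r → ℤ, (∀ i, w ⬝ᵥ s i = 0) ∧ z = mono x w} =
      ⊤ := by
  classical
  obtain ⟨K0, hK0⟩ : ∃ K0 : IntermediateField k K, K0 =
    IntermediateField.adjoin k {z : K | ∃ w : Fin r → ℤ, (∀ i, w ⬝ᵥ s i = 0) ∧ z = mono x w} :=
    ⟨_, rfl⟩
  rw [← hK0]
  have hmem : ∀ w : Fin r → ℤ, (∀ i, w ⬝ᵥ s i = 0) → mono x w ∈ K0 := by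
    intro w hw
    rw [hK0]
    exact IntermediateField.subset_adjoin _ _ ⟨w, hw, rfl⟩
  obtain ⟨b, hb⟩ := h.dual
  let e : Fin m ≃ JC f s := (Finset.equivFinOfCardEq h.card).symm
  -- base exponents
  have hB : ∀ l : Fin m, ∃ B : Fin r → ℤ, ∀ i, B ⬝ᵥ s i = mn (s i) (f (e l)) +
      if i = 0 then 1 else 0 := by
    intro l
    obtain ⟨m1, hm1⟩ := Finsupp.support_nonempty_iff.2 (hf0 (e l))
    obtain ⟨a, ha⟩ := exists_type h.hs (h.mn_eq _ (e l).2) hm1
    refine ⟨m1 - b a, fun i => ?_⟩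
    rw [sub_dotProduct, ha, hb]
    ring
  choose B hB using hB
  have hγ : ∀ (l : Fin m) (a : Fin (m + 1)), ∃ γ : K0,
      Gp x s (f (e l)) a = mono x (B l) * mono x (b a) * (γ : K) := by
    intro l a
    have h1 : ∑ m' ∈ (f (e l)).support.filter (fun m' => m' ⬝ᵥ s a = mn (s a) (f (e l)) + 1),
        algebraMap k K (f (e l) m') * mono x (m' - B l - b a) ∈ K0 := by
      refine sum_mem fun m' hm' => mul_mem (K0.algebraMap_mem _) (hmem _ fun i => ?_)
      rw [Finset.mem_filter] at hm'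
      rw [sub_dotProduct, sub_dotProduct, type_eq h.hs (h.mn_eq _ (e l).2) hm'.1 hm'.2, hB, hb]
      ring
    refine ⟨⟨_, h1⟩, ?_⟩
    change Gp x s (f (e l)) a = mono x (B l) * mono x (b a) * ∑ m' ∈ (f (e l)).support.filter
      (fun m' => m' ⬝ᵥ s a = mn (s a) (f (e l)) + 1), _
    rw [Finset.mul_sum]
    unfold Gp
    refine Finset.sum_congr (by congr 1) fun m' _ => ?_
    rw [mono_sub h.hx, mono_sub h.hx]
    have h2 := mono_ne h.hx (B l)
    have h3 := mono_ne h.hx (b a)
    field_simp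
  choose γ hγ using hγ
  -- the kernel over the small field
  let T : (Fin (m + 1) → K0) →ₗ[K0] (Fin m → K0) := (Matrix.of γ).mulVecLin
  have hker : LinearMap.ker T ≠ ⊥ := LinearMap.ker_ne_bot_of_finrank_lt (by
    rw [Module.finrank_fintype_fun_eq_card, Module.finrank_fintype_fun_eq_card, Fintype.card_fin,
      Fintype.card_fin]
    omega)
  obtain ⟨θ, hθ, hθ0⟩ := (Submodule.ne_bot_iff _).1 hker
  have hθ' : ∀ l, ∑ a, (γ l a : K) * (θ a : K) = 0 := by
    intro l
    have h1 := congrFun (LinearMap.mem_ker.1 hθ) l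
    change ∑ a, γ l a * θ a = 0 at h1
    have h2 := congrArg (fun z : K0 => (z : K)) h1
    simpa using h2
  have hη := h.ker' (c := fun a => (θ a : K) / mono x (b a)) (fun l hl => by
    have h1 := hθ' (e.symm ⟨l, hl⟩)
    have h2 : ∀ a, Gp x s (f l) a * ((θ a : K) / mono x (b a)) =
        mono x (B (e.symm ⟨l, hl⟩)) * ((γ (e.symm ⟨l, hl⟩) a : K) * (θ a : K)) := by
      intro a
      have h3 := hγ (e.symm ⟨l, hl⟩) a
      rw [e.apply_symm_apply] at h3
      rw [h3]
      have h4 := mono_ne h.hx (b a)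
      field_simp
    rw [Finset.sum_congr rfl fun a _ => h2 a, ← Finset.mul_sum, h1, mul_zero])
  obtain ⟨a0, ha0⟩ : ∃ a, θ a ≠ 0 := by
    by_contra hcon
    push Not at hcon
    exact hθ0 (funext hcon)
  have hne0 : (θ 0 : K) / mono x (b 0) ≠ 0 := by
    have h1 := hη a0
    beta_reduce at h1
    rw [← h1]
    exact div_ne_zero (fun h2 => ha0 (Subtype.ext h2)) (mono_ne h.hx _)
  have hY : ∀ a, mono x (b a) ∈ K0 := by
    intro a
    have h1 := hη a
    beta_reduce at h1
    have h2 := mono_ne h.hx (b a)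
    have h3 : mono x (b 0) ∈ K0 := hmem _ fun i => by
      rw [hb]
      ring
    have h4 : mono x (b a) = (θ a : K) * mono x (b 0) / (θ 0 : K) := by
      have h5 : (θ 0 : K) ≠ 0 := fun h6 => hne0 (by rw [h6, zero_div])
      have h6 := mono_ne h.hx (b 0)
      rw [div_eq_div_iff h2 h6] at h1
      rw [eq_div_iff h5, h1]
      ring
    rw [h4]
    exact div_mem (mul_mem (θ a).2 h3) (θ 0).2
  have hall : ∀ w : Fin r → ℤ, mono x w ∈ K0 := by
    intro w
    have h1 : mono x (w - ∑ a, (w ⬝ᵥ s a) • b a) ∈ K0 := by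
      refine hmem _ fun i => ?_
      rw [sub_dotProduct, sum_dotProduct]
      have h2 : ∀ a, ((w ⬝ᵥ s a) • b a) ⬝ᵥ s i =
          (if i = a then w ⬝ᵥ s a else 0) - (w ⬝ᵥ s a) * if i = 0 then 1 else 0 := by
        intro a
        rw [smul_dotProduct, hb, smul_eq_mul, mul_sub, mul_ite, mul_one, mul_zero]
      rw [Finset.sum_congr rfl fun a _ => h2 a, Finset.sum_sub_distrib,
        Finset.sum_ite_eq Finset.univ i, if_pos (Finset.mem_univ i), ← Finset.sum_mul,
        ← dotProduct_sum, h.hs, dotProduct_zero]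
      ring
    have h2 : mono x (∑ a, (w ⬝ᵥ s a) • b a) ∈ K0 := by
      rw [mono_sum h.hx]
      unfold mono
      exact prod_mem fun a _ => zpow_mem (hY a) _
    have h3 := mul_mem h1 h2
    rw [← mono_add h.hx, sub_add_cancel] at h3
    exact h3
  rw [eq_top_iff, ← hgen, IntermediateField.adjoin_le_iff]
  rintro _ ⟨i, rfl⟩
  rw [← mono_single x i]
  exact hall _

end

end Pool.Agent.R885.N
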