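import Pool.Agent.R885.P4

/-!
Elimination of the equations which are not constant along an exceptional circuit.
-/

set_option autoImplicit false
set_option linter.overlappingInstances false
set_option linter.unusedSectionVars false

open FF Pool.Agent.W603.LV Pool.Agent.W619.PQ

namespace Pool.Agent.R885.N

section

variable {k K : Type} [Field k] [Field K] [Algebra k K] {r m q n : ℕ} {x : Fin r → K}
  {f : Fin q → (Fin r → ℤ) →₀ k} {s : Fin (m + 1) → Fin r → ℤ}

/-- **Elimination.** -/
theorem Exc.reduce (h : Exc x f s) (hf0 : ∀ l, f l ≠ 0)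
    (hgen : IntermediateField.adjoin k (Set.range x) = ⊤) (hnd : HN x f) (hr : r = n + q) :
    ∃ (r' q' : ℕ) (z : Fin r' → K) (g : Fin q' → (Fin r' → ℤ) →₀ k), q' + m = q ∧ r' = n + q' ∧
      (∀ i, z i ≠ 0) ∧ IntermediateField.adjoin k (Set.range z) = ⊤ ∧ (∀ l, ev z (g l) = 0) ∧
      HN z g := by
  classical
  let L : (Fin r → ℤ) →ₗ[ℤ] (Fin m → ℤ) :=
    { toFun := fun w i => w ⬝ᵥ s i.succ
      map_add' := fun a b => by
        funext i
        exact add_dotProduct _ _ _
      map_smul' := fun c a => by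
        funext i
        exact smul_dotProduct _ _ _ }
  obtain ⟨b, hb⟩ := h.dual
  have hsurj : Function.Surjective L := by
    intro c
    refine ⟨∑ i, c i • b i.succ, ?_⟩
    funext j
    change (∑ i, c i • b i.succ) ⬝ᵥ s j.succ = c j
    rw [sum_dotProduct]
    have h1 : ∀ i, (c i • b i.succ) ⬝ᵥ s j.succ = if j = i then c i else 0 := by
      intro i
      rw [smul_dotProduct, hb, if_neg (Fin.succ_ne_zero j), sub_zero, smul_eq_mul, mul_ite, mul_one,
        mul_zero]
      simp only [Fin.succ_inj]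
    rw [Finset.sum_congr rfl fun i _ => h1 i, Finset.sum_ite_eq Finset.univ j,
      if_pos (Finset.mem_univ j)]
  have hker : ∀ w, w ∈ LinearMap.ker L ↔ ∀ i, w ⬝ᵥ s i = 0 := by
    intro w
    rw [LinearMap.mem_ker]
    constructor
    · intro h1
      have h2 : ∀ i : Fin m, w ⬝ᵥ s i.succ = 0 := fun i => congrFun h1 i
      intro i
      refine Fin.cases ?_ h2 i
      have h3 : w ⬝ᵥ ∑ i, s i = 0 := by rw [h.hs, dotProduct_zero]
      rw [dotProduct_sum, Fin.sum_univ_succ, Finset.sum_eq_zero fun i _ => h2 i, add_zero] at h3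
      exact h3
    · intro h1
      funext i
      exact h1 i.succ
  have hrank : Module.finrank ℤ (LinearMap.ker L) + m = r := by
    have h1 := Submodule.finrank_quotient_add_finrank (LinearMap.ker L)
    rw [(L.quotKerEquivOfSurjective hsurj).finrank_eq, Module.finrank_fintype_fun_eq_card,
      Module.finrank_fintype_fun_eq_card, Fintype.card_fin, Fintype.card_fin] at h1
    omega
  obtain ⟨r', hr'⟩ : ∃ r', r' = Module.finrank ℤ (LinearMap.ker L) := ⟨_, rfl⟩
  let bas : Module.Basis (Fin r') ℤ (LinearMap.ker L) := Module.finBasisOfFinrankEq ℤ _ hr'.symm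
  let W : Fin r' → Fin r → ℤ := fun j => (bas j : Fin r → ℤ)
  have hWs : ∀ j i, W j ⬝ᵥ s i = 0 := fun j i => (hker _).1 (bas j).2 i
  have hspan : ∀ w, (∀ i, w ⬝ᵥ s i = 0) → ∃ u : Fin r' → ℤ, ∑ j, u j • W j = w := by
    intro w hw
    have h1 := bas.sum_repr ⟨w, (hker w).2 hw⟩
    refine ⟨fun j => bas.repr ⟨w, (hker w).2 hw⟩ j, ?_⟩
    have h2 := congrArg (fun z : LinearMap.ker L => (z : Fin r → ℤ)) h1
    beta_reduce at h2
    rw [AddSubmonoidClass.coe_finsetSum] at h2
    exact h2
  have hinj0 : ∀ u : Fin r' → ℤ, ∑ j, u j • W j = 0 → u = 0 := by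
    intro u hu
    have h1 := bas.linearIndependent
    rw [Fintype.linearIndependent_iff] at h1
    funext j
    refine h1 u ?_ j
    apply Subtype.ext
    rw [AddSubmonoidClass.coe_finsetSum]
    exact hu
  have hinj : ∀ m0 : Fin r → ℤ, Function.Injective (aff m0 W) := by
    intro m0 u u' huu
    rw [← sub_eq_zero]
    apply hinj0
    unfold aff at huu
    have h1 := add_left_cancel huu
    have h2 : ∑ j, (u - u') j • W j = ∑ j, u j • W j - ∑ j, u' j • W j := by
      rw [← Finset.sum_sub_distrib]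
      exact Finset.sum_congr rfl fun j _ => by rw [Pi.sub_apply, sub_smul]
    rw [h2, h1, sub_self]
  have hcard : Fintype.card {l // l ∉ JC f s} + m = q := by
    have h1 := Fintype.card_subtype_compl (fun l => l ∈ JC f s)
    have h2 : Fintype.card {l // l ∈ JC f s} = m := by
      rw [Fintype.card_coe]
      exact h.card
    rw [h2, Fintype.card_fin] at h1
    have h3 : m ≤ q := by
      rw [← h.card]
      exact (Finset.card_le_univ _).trans (by rw [Fintype.card_fin])
    rw [h1]
    omega
  obtain ⟨q', hq'⟩ : ∃ q', q' = Fintype.card {l // l ∉ JC f s} := ⟨_, rfl⟩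
  let e : Fin q' ≃ {l // l ∉ JC f s} := (Fintype.equivFinOfCardEq hq'.symm).symm
  have hm0 : ∀ l : Fin q', ∃ m0, m0 ∈ (f (e l)).support := fun l =>
    Finsupp.support_nonempty_iff.2 (hf0 (e l))
  choose m0 hm0 using hm0
  let g : Fin q' → (Fin r' → ℤ) →₀ k := fun l =>
    (f (e l)).comapDomain (aff (m0 l) W) (hinj (m0 l)).injOn
  have hfg : ∀ l, f (e l) = push (m0 l) W (g l) := by
    intro l
    refine (Finsupp.mapDomain_comapDomain (aff (m0 l) W) (hinj (m0 l)) (f (e l)) ?_).symm
    intro m' hm'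
    obtain ⟨u, hu⟩ := hspan (m' - m0 l) (fun i => by
      rw [sub_dotProduct, not_mem_JC (e l).2 i hm', not_mem_JC (e l).2 i (hm0 l), sub_self])
    refine ⟨u, ?_⟩
    unfold aff
    rw [hu]
    abel
  refine ⟨r', q', fun j => mono x (W j), g, by omega, by omega, fun j => mono_ne h.hx _, ?_, ?_,
    hn_push h.hx h.hf (e := fun l => (e l : Fin q)) (Subtype.val_injective.comp e.injective)
      (fun l => hinj (m0 l)) hfg hnd⟩
  · rw [eq_top_iff, ← h.top hf0 hgen, IntermediateField.adjoin_le_iff]
    rintro _ ⟨w, hw, rfl⟩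
    obtain ⟨u, hu⟩ := hspan w hw
    rw [← hu, mono_sum h.hx]
    change ∏ j, mono x (W j) ^ u j ∈ IntermediateField.adjoin k (Set.range fun j => mono x (W j))
    refine prod_mem fun j _ => zpow_mem (IntermediateField.subset_adjoin _ _ ?_) _
    exact ⟨j, rfl⟩
  · intro l
    have h1 := h.hf (e l)
    rw [hfg, ev_push h.hx] at h1
    exact (mul_eq_zero.1 h1).resolve_left (mono_ne h.hx _)

end

end Pool.Agent.R885.N
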