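import Pool.Agent.R885.P5
import Pool.Agent.R885.NG12

/-!
Systems with a full-dimensional Newton polytope.
-/

set_option autoImplicit false
set_option linter.overlappingInstances false
set_option linter.unusedSectionVars false

open FF IntermediateField Pool.Agent.W619.PQ Pool.Agent.W619.PL Pool.Agent.W619.TW
  Pool.Agent.W603.LV Pool.Agent.W619.Y Pool.Agent.Y174

namespace Pool.Agent.R885.N

/-- high multiples have no sections -/
def Neg (k K : Type) [Field k] [Field K] [Algebra k K] (n : ℕ) : Prop :=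
  ∀ T : Finset K, ∃ M0 : ℕ, ∀ M : ℕ, M0 ≤ M → ∀ ω : (Fin n → Derivation k K K) → K,
    PairSec k K n (fun _ => 0) T M 1 ω → ω = 0

/-- the dimensions are equal -/
def Pos (k K : Type) [Field k] [Field K] [Algebra k K] (n : ℕ) : Prop :=
  ∃ d : ℕ, d ≤ n ∧ PairKod k K n (fun _ => 0) d ∧ PairNum k K n (fun _ => 0) d

theorem hn_comp {ι J J1 k K : Type} [Fintype ι] [Field k] [Field K] [Algebra k K] {x : ι → K}
    {f : J → (ι → ℤ) →₀ k} {g : J1 → (ι → ℤ) →₀ k} (e : J1 → J) (he : Function.Injective e)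
    (hs : Function.Surjective e) (hg : ∀ l, g l = f (e l)) (h : HN x f) : HN x g where
  gen F _ _ φ := by
    intro hev
    have h1 := h.gen F φ fun l => by
      obtain ⟨l', rfl⟩ := hs l
      rw [← hg]
      exact hev l'
    have h2 := h1.comp e he
    have h3 : (fun l => gr (fun i => φ (x i)) (ini 0 (g l))) =
        (fun l => gr (fun i => φ (x i)) (ini 0 (f l))) ∘ e := by
      funext l
      rw [hg]
      rfl
    rw [h3]
    exact h2
  place Λ F _ _ _ _ _ _ φ P := by
    refine ndp_comp e he hs (fun l => ?_) (h.place Λ F φ P)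
    beta_reduce
    rw [hg]

theorem hn_ne {ι J k K : Type} [Fintype ι] [Field k] [Field K] [Algebra k K] {x : ι → K}
    {f : J → (ι → ℤ) →₀ k} (h : HN x f) (hf : ∀ l, ev x (f l) = 0) :
    LinearIndependent K fun l => gr x (f l) := by
  have h1 := h.self fun l => by rw [ini_zero']; exact hf l
  simp only [ini_zero'] at h1
  exact h1

theorem hn_ne0 {ι J k K : Type} [Fintype ι] [Field k] [Field K] [Algebra k K] {x : ι → K}
    {f : J → (ι → ℤ) →₀ k} (h : HN x f) (hf : ∀ l, ev x (f l) = 0) (l : J) : f l ≠ 0 := by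
  intro h0
  refine (hn_ne h hf).ne_zero l ?_
  beta_reduce
  rw [h0]
  funext i
  unfold gr
  exact Finsupp.sum_zero_index

/-- **Systems with a full-dimensional Newton polytope.** -/
theorem stepV {k K : Type} [Field k] [CharZero k] [IsAlgClosed k] [Field K] [Algebra k K]
    {r n q : ℕ} (hn : 1 ≤ n) (hr : r = n + q) (htr : Algebra.trdeg k K = (n : ℕ)) {x : Fin r → K}
    (hx : ∀ i, x i ≠ 0) (hgen : IntermediateField.adjoin k (Set.range x) = ⊤)
    {f : Fin q → (Fin r → ℤ) →₀ k} (hf : ∀ l, ev x (f l) = 0) (hnd : HN x f)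
    (hU : ∀ v : Fin r → ℤ, (∀ l, ∀ m ∈ (f l).support, ∀ m' ∈ (f l).support,
      m ⬝ᵥ v = m' ⬝ᵥ v) → v = 0) :
    ∃ t : ℚ, (∃ u : Fin r → ℚ, ∀ v, v ≠ 0 → t + ∑ l, (mn v (f l) : ℚ) ≤ dq u v) ∧
      (t = 1 ∧ Pos k K n ∨ Neg k K n ∨ (1 / 2 ≤ t ∧ ∃ (m : ℕ) (s : Fin (m + 1) → Fin r → ℤ),
        1 ≤ m ∧ Exc x f s)) := by
  classical
  have hf0 := hn_ne0 hnd hf
  have hli := hn_ne hnd hf
  have hK0 : CharZero K := charZero_of_injective_algebraMap (algebraMap k K).injective
  obtain ⟨t, ht0, ht1, hF, hmax⟩ := exists_best hf0 hU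
  refine ⟨t, hF, ?_⟩
  obtain ⟨cw, hcw⟩ : ∃ cw : Fin 0 → ℚ, cw = fun _ => 0 := ⟨_, rfl⟩
  obtain ⟨h, hh⟩ : ∃ h : Fin 0 → (Fin r → ℤ) →₀ k, h = fun _ => 0 := ⟨_, rfl⟩
  have hhx : ∀ j : Fin 0, ev x (h j) ≠ 0 := fun j => j.elim0
  have hndV : ∀ V : Finset (Fin 0), HN x (Sum.elim f fun j : V => h j) := by
    intro V
    refine hn_comp (f := f) (Sum.elim id fun j : V => (j : Fin 0).elim0) ?_ ?_ ?_ hnd
    · rintro (l | j) (l' | j') hll
      · exact congrArg _ hll
      · exact (j' : Fin 0).elim0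
      · exact (j : Fin 0).elim0
      · exact (j : Fin 0).elim0
    · intro l
      exact ⟨Sum.inl l, rfl⟩
    · rintro (l | j)
      · rfl
      · exact (j : Fin 0).elim0
  have hbd : (fun P : Place k K => ((bdry (fun _ => 1) cw x h P : ℚ) : ℝ)) = fun _ => 0 := by
    funext P
    by_cases hv : vec P x = 0
    · rw [bdry_no hv fun j => j.elim0, Rat.cast_zero]
    · rw [bdry_ne hv, sub_self, Rat.cast_zero]
  have hFW : (FineW (fun v : Fin r → ℤ => t * (fun _ => 1) v) (Sum.elim (fun _ => 1) cw)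
      (Sum.elim f h)).Nonempty := by
    obtain ⟨u, hu⟩ := hF
    refine ⟨u, fun v hv => ?_⟩
    have h1 := hu v hv
    rw [Fintype.sum_sum_type]
    simp only [Sum.elim_inl, one_mul, mul_one, Finset.univ_eq_empty, Finset.sum_empty, add_zero]
    exact h1
  have hD1 : ∀ v : Fin r → ℤ, ∃ z : ℤ, ((1 : ℕ) : ℚ) * (fun _ : Fin r → ℤ => (1 : ℚ)) v = z :=
    fun v => ⟨1, by norm_num⟩
  have htrE : ∀ E : IntermediateField k K, ∃ d : ℕ, d ≤ n ∧ Algebra.trdeg k E = (d : ℕ) := by
    intro E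
    have h1 : Algebra.trdeg k E ≤ n := by
      rw [← htr]
      exact trdeg_le_of_injective E.val E.val.injective
    obtain ⟨d, hd⟩ := Cardinal.lt_aleph0.1 (h1.trans_lt Cardinal.natCast_lt_aleph0)
    refine ⟨d, ?_, hd⟩
    rw [hd] at h1
    exact_mod_cast h1
  rcases ht1.lt_or_eq with htlt | hteq
  swap
  · -- the largest value is one
    left
    refine ⟨hteq, ?_⟩
    have hFW1 : (FineW (fun _ : Fin r → ℤ => (1 : ℚ)) (Sum.elim (fun _ => 1) cw)
        (Sum.elim f h)).Nonempty := by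
      obtain ⟨u, hu⟩ := hFW
      refine ⟨u, fun v hv => ?_⟩
      have h1 := hu v hv
      rw [hteq] at h1
      simpa using h1
    obtain ⟨d, hdn, hd⟩ := htrE (IntermediateField.adjoin k
      {z : K | ∃ w ∈ dirsW (fun _ : Fin r → ℤ => (1 : ℚ)) (Sum.elim (fun _ => 1) cw)
        (Sum.elim f h), z = mono x w})
    have h1 := mainW hn hr htr hx hgen hf hhx hnd hndV (A := fun _ => 1) (cw := cw) (D := 1) le_rfl
      (fun _ _ => one_pos) (fun _ => le_rfl) hD1 (fun j => j.elim0) (fun j => j.elim0)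
      (fun j => j.elim0) (fun _ _ _ _ _ => by norm_num) (fun g v hg _ => by
        have h2 : (1 : ℚ) ≤ g := by exact_mod_cast hg
        linarith) hFW1 hd
    rw [hbd] at h1
    exact ⟨d, hdn, h1⟩
  right
  obtain ⟨d, hdn, hd⟩ := htrE (IntermediateField.adjoin k
    {z : K | ∃ w ∈ dirsW (fun v : Fin r → ℤ => t * (fun _ => 1) v) (Sum.elim (fun _ => 1) cw)
      (Sum.elim f h), z = mono x w})
  rcases hdn.lt_or_eq with hdlt | hdeq
  · left
    intro T
    have h1 := mainNeg hn hr htr hx hgen hf hhx hnd hndV (A := fun _ => 1) (cw := cw) (D := 1)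
      le_rfl (fun _ _ => one_pos) (fun _ => le_rfl) hD1 (fun j => j.elim0) (fun j => j.elim0)
      (fun j => j.elim0) (fun _ _ _ _ _ => by norm_num) (fun g v hg _ => by
        have h2 : (1 : ℚ) ≤ g := by exact_mod_cast hg
        linarith) ht0 htlt hFW hdlt hd T
    rw [hbd] at h1
    exact h1
  right
  rw [hdeq] at hd
  -- the tight vectors
  have hDt : ∀ v : Fin r → ℤ, ∃ z : ℤ, ((t.den : ℕ) : ℚ) *
      (fun v : Fin r → ℤ => t * (fun _ => 1) v) v = z := by
    intro v
    refine ⟨t.num, ?_⟩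
    have h1 : t * t.den = t.num := Rat.mul_den_eq_num t
    beta_reduce
    rw [mul_one, mul_comm]
    exact h1
  obtain ⟨u0, c, a, nl, S, B, hc, -, ha, hnl, hF', hS, hpos, -, hdirs⟩ :=
    exists_tightW (g := Sum.elim f h) (wt := Sum.elim (fun _ => 1) cw)
      (A := fun v : Fin r → ℤ => t * (fun _ => 1) v) (by
      rintro (l | j)
      · exact hf0 l
      · exact j.elim0) (D := t.den) t.den_pos (fun v _ => by
        beta_reduce
        rw [mul_one]
        exact ht0) (fun v => by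
        beta_reduce
        rw [mul_one]
        exact ht1) hDt (by
      rintro (l | j)
      · exact ⟨t.den, by simp⟩
      · exact j.elim0) hFW
  have hcq : (0 : ℚ) < c := by exact_mod_cast hc
  obtain ⟨a0, ha0⟩ : ∃ a0, a0 = a 0 := ⟨_, rfl⟩
  have hat : (a0 : ℚ) = c * t := by
    rw [ha0, ha]
    ring
  have haa : ∀ v, a v = a0 := by
    intro v
    have h1 : (a v : ℚ) = a0 := by
      rw [hat, ha]
      ring
    exact_mod_cast h1
  have hnl1 : ∀ l, nl (Sum.inl l) = c := by
    intro l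
    have h1 := hnl (Sum.inl l)
    rw [Sum.elim_inl, mul_one] at h1
    exact_mod_cast h1
  have hΦ : ∀ v, a v + ∑ l, nl l * mn v (Sum.elim f h l) = a0 + c * ∑ l, mn v (f l) := by
    intro v
    rw [haa, Fintype.sum_sum_type, Finset.mul_sum]
    simp only [Sum.elim_inl, hnl1, Finset.univ_eq_empty, Finset.sum_empty, add_zero]
  simp only [hΦ] at hF' hS
  have hac : a0 < c := by
    have h1 : (a0 : ℚ) < c := by
      rw [hat]
      nlinarith
    exact_mod_cast h1
  have hSne : S.Nonempty := by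
    by_contra hcon
    rw [Finset.not_nonempty_iff_eq_empty] at hcon
    refine hmax htlt (t + 1 / c) (by
      have := one_div_pos.2 hcq
      linarith) ⟨fun i => (u0 i : ℚ) / c, fun v hv => ?_⟩
    have h1 := hF' v hv
    have h2 : u0 ⬝ᵥ v ≠ a0 + c * ∑ l, mn v (f l) := by
      intro h3
      have h4 := (hS v).2 ⟨hv, h3⟩
      rw [hcon] at h4
      exact absurd h4 (Finset.notMem_empty _)
    have h3 : a0 + c * ∑ l, mn v (f l) + 1 ≤ u0 ⬝ᵥ v := by omega
    have h4 : (a0 : ℚ) + c * ∑ l, (mn v (f l) : ℚ) + 1 ≤ ((u0 ⬝ᵥ v : ℤ) : ℚ) := by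
      exact_mod_cast h3
    have h5 : dq (fun i => (u0 i : ℚ) / c) v = ((u0 ⬝ᵥ v : ℤ) : ℚ) / c := by
      rw [← dq_int]
      unfold dq
      rw [Finset.sum_div]
      exact Finset.sum_congr rfl fun i _ => by ring
    rw [h5, le_div_iff₀ hcq]
    rw [hat] at h4
    have h6 : (t + 1 / c + ∑ l, (mn v (f l) : ℚ)) * c = c * t + c * ∑ l, (mn v (f l) : ℚ) + 1 := by
      field_simp
      ring
    rw [h6]
    exact h4
  obtain ⟨m, s, c', hm, hsS, hrel, huniq⟩ := exists_circuit (fun s hs => ((hS s).1 hs).1) hSne hpos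
  have hlis := circ_li (fun i => (hsS i).2) huniq
  -- the monomials
  obtain ⟨y, hyG, hyind, -⟩ := exists_mono_basis hd
  choose w hw hwy using hyG
  have hyw : y = fun j => mono x (w j) := funext hwy
  rw [hyw] at hyind
  have hws : ∀ j i, w j ⬝ᵥ s i = 0 := fun j i => (hdirs (w j)).1 (hw j) (s i) (hsS i).1
  have heta : ∀ (N : ℕ) (s' : Fin N → Fin r → ℤ) (c : Fin N → K), (∀ j i, w j ⬝ᵥ s' i = 0) →
      (∀ l, ∑ j, gr x (f l) j * (∑ i, c i * (s' i j : K)) = 0) →
      (fun j => ∑ i, c i * (s' i j : K)) = 0 := by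
    intro N s' c hws' h1
    refine eta_zero htr hx hgen (J := Fin q) (by rw [Fintype.card_fin, hr, add_comm]) hf hli hyind
      h1 fun j => ?_
    have h2 : ∑ i, (w j i : K) * ∑ i', c i' * (s' i' i : K) =
        ∑ i', c i' * ((w j ⬝ᵥ s' i' : ℤ) : K) := by
      simp only [Finset.mul_sum]
      rw [Finset.sum_comm]
      refine Finset.sum_congr rfl fun i' _ => ?_
      rw [← dot_intCast, Finset.mul_sum]
      exact Finset.sum_congr rfl fun i _ => by ring
    rw [h2]
    exact Finset.sum_eq_zero fun i' _ => by rw [hws', Int.cast_zero, mul_zero]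
  have hcard := card_JC hf hlis fun c hc => heta m (fun i => s i.succ) c (fun j i => hws j i.succ) hc
  obtain ⟨h1, h2, h3, h4⟩ := exc_arith hf0 hm (fun i => (hsS i).2) hrel hc hac hF'
    (fun i => ((hS _).1 (hsS i).1).2) hcard
  refine ⟨?_, m, s, hm, ⟨hx, hf, h1, h2, h3, fun c hc => ?_⟩⟩
  · have h5 : ((m : ℚ) + 1) * (c * t) = m * c := by
      rw [← hat]
      exact_mod_cast h4
    have h6 : ((m : ℚ) + 1) * t = m := by
      have h7 : (c : ℚ) * (((m : ℚ) + 1) * t) = c * m := by linarith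
      exact mul_left_cancel₀ hcq.ne' h7
    have h7 : (1 : ℚ) ≤ m := by exact_mod_cast hm
    nlinarith
  · have h5 := heta (m + 1) s c hws hc
    have h6 := Fintype.linearIndependent_iff.1 (li_field (F := K) hlis)
      (fun i => c i.succ - c 0) (by
        funext j
        rw [Finset.sum_apply]
        have h7 := congrFun h5 j
        beta_reduce at h7
        rw [Fin.sum_univ_succ, Pi.zero_apply] at h7
        have h8 : (s 0 j : K) + ∑ i : Fin m, (s i.succ j : K) = 0 := by
          have h9 := congrFun h1 j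
          rw [Finset.sum_apply, Fin.sum_univ_succ, Pi.zero_apply] at h9
          exact_mod_cast h9
        have h9 : ∑ i : Fin m, (c i.succ - c 0) * (s i.succ j : K) =
            ∑ i : Fin m, c i.succ * (s i.succ j : K) - c 0 * ∑ i : Fin m, (s i.succ j : K) := by
          rw [Finset.mul_sum, ← Finset.sum_sub_distrib]
          exact Finset.sum_congr rfl fun i _ => by ring
        change ∑ i : Fin m, (c i.succ - c 0) * (s i.succ j : K) = 0
        rw [h9]
        linear_combination h7 - c 0 * h8)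
    intro i
    refine Fin.cases rfl (fun i => ?_) i
    exact sub_eq_zero.1 (h6 i)

end Pool.Agent.R885.N
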