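import Pool.Agent.R885.P6

/-!
Systems which are constant along a direction.
-/

set_option autoImplicit false
set_option linter.overlappingInstances false
set_option linter.unusedSectionVars false

open FF IntermediateField Pool.Agent.W619.PQ Pool.Agent.W619.PL Pool.Agent.W619.TW
  Pool.Agent.W603.LV Pool.Agent.W619.Y Pool.Agent.Y174

namespace Pool.Agent.R885.N

section

variable {k : Type} [Field k] {r q : ℕ}

/-- the exponents of the new variable and of the monomial -/
def e0 (r : ℕ) : Fin (r + 1) → ℤ := Fin.cons 1 0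

/-- the exponent of the monomial -/
def ec {r : ℕ} (c : Fin r → ℤ) : Fin (r + 1) → ℤ := Fin.cons 0 c

/-- the new equation `1 + x^c + y` -/
noncomputable def g0 (k : Type) [Field k] {r : ℕ} (c : Fin r → ℤ) : (Fin (r + 1) → ℤ) →₀ k :=
  Finsupp.single 0 1 + Finsupp.single (ec c) 1 + Finsupp.single (e0 r) 1

/-- the embedding of the exponents -/
def W1 (r : ℕ) : Fin r → Fin (r + 1) → ℤ := fun j => Pi.single j.succ 1

/-- the new system -/
noncomputable def fadd (c : Fin r → ℤ) (f : Fin q → (Fin r → ℤ) →₀ k) :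
    Fin (q + 1) → (Fin (r + 1) → ℤ) →₀ k := Fin.cons (g0 k c) fun l => push 0 (W1 r) (f l)

theorem cons_dot (a b : ℤ) (u v : Fin r → ℤ) :
    (Fin.cons a u : Fin (r + 1) → ℤ) ⬝ᵥ (Fin.cons b v : Fin (r + 1) → ℤ) = a * b + u ⬝ᵥ v := by
  unfold dotProduct
  rw [Fin.sum_univ_succ]
  simp only [Fin.cons_zero, Fin.cons_succ]

theorem aff_W1 (u : Fin r → ℤ) : aff 0 (W1 r) u = Fin.cons 0 u := by
  funext i
  unfold aff W1
  rw [zero_add, Finset.sum_apply]
  refine Fin.cases ?_ (fun i => ?_) i
  · rw [Fin.cons_zero]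
    refine Finset.sum_eq_zero fun j _ => ?_
    rw [Pi.smul_apply, Pi.single_eq_of_ne (Fin.succ_ne_zero j).symm, smul_zero]
  · rw [Fin.cons_succ, Finset.sum_eq_single i]
    · rw [Pi.smul_apply, Pi.single_eq_same, smul_eq_mul, mul_one]
    · intro j _ hj
      rw [Pi.smul_apply, Pi.single_eq_of_ne (fun h => hj (Fin.succ_injective _ h).symm), smul_zero]
    · intro h
      exact absurd (Finset.mem_univ _) h

theorem inj_W1 : Function.Injective (aff 0 (W1 r)) := by
  intro u u' h
  rw [aff_W1, aff_W1] at h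
  funext i
  have h1 := congrFun h i.succ
  rwa [Fin.cons_succ, Fin.cons_succ] at h1

theorem W1_dot (v : Fin (r + 1) → ℤ) : (fun j => W1 r j ⬝ᵥ v) = fun j => v j.succ := by
  funext j
  unfold W1
  exact single_one_dotProduct _ _

theorem g0_supp {c : Fin r → ℤ} {m : Fin (r + 1) → ℤ} (hm : m ∈ (g0 k c).support) :
    m = 0 ∨ m = ec c ∨ m = e0 r := by
  classical
  by_contra hcon
  push Not at hcon
  rw [Finsupp.mem_support_iff] at hm
  apply hm
  unfold g0
  rw [Finsupp.add_apply, Finsupp.add_apply, Finsupp.single_eq_of_ne hcon.1,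
    Finsupp.single_eq_of_ne hcon.2.1, Finsupp.single_eq_of_ne hcon.2.2, add_zero, add_zero]

theorem e0_ne : e0 r ≠ 0 := by
  intro h
  have h1 := congrFun h 0
  unfold e0 at h1
  rw [Fin.cons_zero, Pi.zero_apply] at h1
  exact one_ne_zero h1

theorem ec_ne {c : Fin r → ℤ} (hc : c ≠ 0) : ec c ≠ 0 := by
  intro h
  apply hc
  funext i
  have h1 := congrFun h i.succ
  unfold ec at h1
  rwa [Fin.cons_succ] at h1

theorem ec_ne_e0 {c : Fin r → ℤ} : ec c ≠ e0 r := by
  intro h
  have h1 := congrFun h 0
  unfold ec e0 at h1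
  rw [Fin.cons_zero, Fin.cons_zero] at h1
  exact zero_ne_one h1

theorem g0_e0 (c : Fin r → ℤ) : g0 k c (e0 r) = 1 := by
  unfold g0
  rw [Finsupp.add_apply, Finsupp.add_apply, Finsupp.single_eq_same,
    Finsupp.single_eq_of_ne e0_ne, Finsupp.single_eq_of_ne ec_ne_e0.symm, add_zero, zero_add]

theorem g0_ec {c : Fin r → ℤ} (hc : c ≠ 0) : g0 k c (ec c) = 1 := by
  unfold g0
  rw [Finsupp.add_apply, Finsupp.add_apply, Finsupp.single_eq_same,
    Finsupp.single_eq_of_ne (ec_ne hc), Finsupp.single_eq_of_ne ec_ne_e0, add_zero, zero_add]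

theorem g0_ne (c : Fin r → ℤ) : g0 k c ≠ 0 := by
  intro h
  have h1 := g0_e0 (k := k) c
  rw [h, Finsupp.zero_apply] at h1
  exact zero_ne_one h1

theorem g0_map {Λ : Type} [Field Λ] [Algebra k Λ] (c : Fin r → ℤ) :
    (g0 k c).mapRange (algebraMap k Λ) (map_zero _) = g0 Λ c := by
  unfold g0
  rw [Finsupp.mapRange_add (map_add _), Finsupp.mapRange_add (map_add _),
    Finsupp.mapRange_single, Finsupp.mapRange_single, Finsupp.mapRange_single, map_one]

theorem fadd_map {Λ : Type} [Field Λ] [Algebra k Λ] (c : Fin r → ℤ)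
    (f : Fin q → (Fin r → ℤ) →₀ k) :
    (fun l => (fadd c f l).mapRange (algebraMap k Λ) (map_zero _)) =
      fadd c fun l => (f l).mapRange (algebraMap k Λ) (map_zero _) := by
  funext l
  unfold fadd
  refine Fin.cases ?_ (fun l => ?_) l
  · rw [Fin.cons_zero, Fin.cons_zero, g0_map]
  · rw [Fin.cons_succ, Fin.cons_succ, push_mapRange]

variable {R : Type} [Field R] [Algebra k R]

theorem mono_W1 (y : Fin (r + 1) → R) : (fun j => mono y (W1 r j)) = fun j => y j.succ := by
  funext j
  exact mono_single y j.succ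

theorem ev_g0 (y : Fin (r + 1) → R) (c : Fin r → ℤ) :
    ev y (g0 k c) = 1 + mono y (ec c) + mono y (e0 r) := by
  unfold g0 ev
  have h1 : ∀ a b : (Fin (r + 1) → ℤ) →₀ k,
      ((a + b).sum fun m a => algebraMap k R a * mono y m) =
        (a.sum fun m a => algebraMap k R a * mono y m) +
          b.sum fun m a => algebraMap k R a * mono y m := by
    intro a b
    exact Finsupp.sum_add_index' (fun m => by rw [map_zero, zero_mul])
      fun m a b => by rw [map_add, add_mul]
  rw [h1, h1, Finsupp.sum_single_index (by rw [map_zero, zero_mul]),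
    Finsupp.sum_single_index (by rw [map_zero, zero_mul]),
    Finsupp.sum_single_index (by rw [map_zero, zero_mul]), map_one, one_mul, one_mul, one_mul,
    mono_zero]

/-- **The new system is nondegenerate.** -/
theorem li_add {y : Fin (r + 1) → R} (hy : ∀ i, y i ≠ 0) {v : Fin (r + 1) → ℤ}
    {f : Fin q → (Fin r → ℤ) →₀ k} {v0 c : Fin r → ℤ} (hc : c ⬝ᵥ v0 = 1)
    (hcon : ∀ l, ∃ d, ∀ m ∈ (f l).support, m ⬝ᵥ v0 = d)
    (hev : ∀ l, ev y (ini v (fadd c f l)) = 0)
    (h : (∀ l, ev (fun j => y j.succ) (ini (fun j => v j.succ) (f l)) = 0) →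
      LinearIndependent R fun l => gr (fun j => y j.succ) (ini (fun j => v j.succ) (f l))) :
    LinearIndependent R fun l => gr y (ini v (fadd c f l)) := by
  classical
  have hc0 : c ≠ 0 := by
    rintro rfl
    rw [zero_dotProduct] at hc
    exact zero_ne_one hc
  have hini : ∀ l, ini v (push 0 (W1 r) (f l)) =
      push 0 (W1 r) (ini (fun j => v j.succ) (f l)) := by
    intro l
    rw [ini_push inj_W1, W1_dot]
  have hev0 : ev y (ini v (g0 k c)) = 0 := hev 0
  have hev1 : ∀ l, ev y (ini v (push 0 (W1 r) (f l))) = 0 := fun l => hev l.succ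
  have hli := h fun l => by
    have h1 := hev1 l
    rw [hini, ev_push hy, mono_zero, one_mul, mono_W1] at h1
    exact h1
  -- the old gradients
  let T : (Fin r → R) →ₗ[R] (Fin (r + 1) → R) :=
    { toFun := fun γ => Fin.cons 0 γ
      map_add' := fun a b => by
        funext i
        refine Fin.cases ?_ (fun i => ?_) i
        · simp
        · simp
      map_smul' := fun c a => by
        funext i
        refine Fin.cases ?_ (fun i => ?_) i
        · simp
        · simp }
  have hT : LinearMap.ker T = ⊥ := by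
    rw [LinearMap.ker_eq_bot']
    intro γ hγ
    funext i
    have h1 := congrFun hγ i.succ
    change (Fin.cons 0 γ : Fin (r + 1) → R) i.succ = 0 at h1
    rwa [Fin.cons_succ] at h1
  have hli' : LinearIndependent R fun l => gr y (ini v (push 0 (W1 r) (f l))) := by
    have h1 := hli.map' T hT
    have h2 : (⇑T ∘ fun l => gr (fun j => y j.succ) (ini (fun j => v j.succ) (f l))) =
        fun l => gr y (ini v (push 0 (W1 r) (f l))) := by
      funext l i
      rw [hini, gr_push hy, mono_zero, one_mul, mono_W1, Pi.zero_apply, Int.cast_zero, zero_mul,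
        zero_add]
      change (Fin.cons 0 (gr (fun j => y j.succ) (ini (fun j => v j.succ) (f l))) :
        Fin (r + 1) → R) i = _
      unfold W1
      refine Fin.cases ?_ (fun i => ?_) i
      · rw [Fin.cons_zero]
        refine (Finset.sum_eq_zero fun j _ => ?_).symm
        rw [Pi.single_eq_of_ne (Fin.succ_ne_zero j).symm, Int.cast_zero, zero_mul]
      · rw [Fin.cons_succ, Finset.sum_eq_single i]
        · rw [Pi.single_eq_same, Int.cast_one, one_mul]
        · intro j _ hj
          rw [Pi.single_eq_of_ne (fun h => hj (Fin.succ_injective _ h).symm), Int.cast_zero,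
            zero_mul]
        · intro h
          exact absurd (Finset.mem_univ _) h
    rwa [h2] at h1
  -- the exponents of the initial part of the new equation
  have hex : e0 r ∈ (ini v (g0 k c)).support ∨ ec c ∈ (ini v (g0 k c)).support := by
    by_contra hcon'
    push Not at hcon'
    have h1 : ∀ m ∈ (ini v (g0 k c)).support, m = 0 := by
      intro m hm
      rcases g0_supp (mem_ini.1 hm).1 with h2 | h2 | h2
      · exact h2
      · exact absurd (h2 ▸ hm) hcon'.2
      · exact absurd (h2 ▸ hm) hcon'.1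
    obtain ⟨m1, hm1, hm1'⟩ := exists_mn (g0_ne (k := k) c) v
    have h2 : m1 ∈ (ini v (g0 k c)).support := mem_ini.2 ⟨hm1, hm1'⟩
    have h3 := h1 m1 h2
    rw [h3] at h2
    have h4 : (ini v (g0 k c)).support = {0} := by
      ext m
      rw [Finset.mem_singleton]
      constructor
      · exact h1 m
      · rintro rfl
        exact h2
    unfold ev Finsupp.sum at hev0
    rw [h4, Finset.sum_singleton] at hev0
    beta_reduce at hev0
    rw [mono_zero, mul_one] at hev0
    rw [Finsupp.mem_support_iff] at h2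
    exact h2 ((map_eq_zero _).1 hev0)
  -- the functional
  obtain ⟨s, ms, hms, hsg, hms1, hsf⟩ : ∃ s ms : Fin (r + 1) → ℤ, ms ∈ (ini v (g0 k c)).support ∧
      (∀ m ∈ (g0 k c).support, m ≠ ms → m ⬝ᵥ s = 0) ∧ ms ⬝ᵥ s = 1 ∧
      ∀ l, ∃ d, ∀ m ∈ (push 0 (W1 r) (f l)).support, m ⬝ᵥ s = d := by
    rcases hex with h1 | h1
    · refine ⟨e0 r, e0 r, h1, fun m hm hne => ?_, ?_, fun l => ⟨0, fun m hm => ?_⟩⟩
      · rcases g0_supp hm with rfl | rfl | rfl
        · exact zero_dotProduct _
        · unfold ec e0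
          rw [cons_dot, dotProduct_zero, zero_mul, add_zero]
        · exact absurd rfl hne
      · unfold e0
        rw [cons_dot, dotProduct_zero, mul_one, add_zero]
      · obtain ⟨u, -, rfl⟩ := (supp_push inj_W1 _).1 hm
        unfold e0
        rw [aff_W1, cons_dot, dotProduct_zero, zero_mul, add_zero]
    · refine ⟨Fin.cons 0 v0, ec c, h1, fun m hm hne => ?_, ?_, fun l => ?_⟩
      · rcases g0_supp hm with rfl | rfl | rfl
        · exact zero_dotProduct _
        · exact absurd rfl hne
        · unfold e0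
          rw [cons_dot, zero_dotProduct, mul_zero, add_zero]
      · unfold ec
        rw [cons_dot, hc, mul_zero, zero_add]
      · obtain ⟨d, hd⟩ := hcon l
        refine ⟨d, fun m hm => ?_⟩
        obtain ⟨u, hu, rfl⟩ := (supp_push inj_W1 _).1 hm
        rw [aff_W1, cons_dot, mul_zero, zero_add]
        exact hd u hu
  let lam : (Fin (r + 1) → R) →ₗ[R] R :=
    { toFun := fun γ => ∑ i, γ i * (s i : R)
      map_add' := fun a b => by
        simp only [Pi.add_apply, add_mul]
        rw [Finset.sum_add_distrib]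
      map_smul' := fun c a => by
        simp only [Pi.smul_apply, smul_eq_mul, RingHom.id_apply, Finset.mul_sum]
        exact Finset.sum_congr rfl fun j _ => by ring }
  have hlam0 : lam (gr y (ini v (g0 k c))) ≠ 0 := by
    change ∑ i, gr y (ini v (g0 k c)) i * (s i : R) ≠ 0
    rw [gr_dot, Finset.sum_eq_single ms]
    · rw [hms1, Int.cast_one, mul_one]
      refine mul_ne_zero ?_ (mono_ne hy _)
      rw [Ne, map_eq_zero]
      exact Finsupp.mem_support_iff.1 hms
    · intro m hm hne
      rw [hsg m (mem_ini.1 hm).1 hne, Int.cast_zero, mul_zero, zero_mul]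
    · intro h1
      exact absurd hms h1
  have hlam1 : ∀ l, lam (gr y (ini v (push 0 (W1 r) (f l)))) = 0 := by
    intro l
    obtain ⟨d, hd⟩ := hsf l
    exact gr_dot_const (hev1 l) fun m hm => hd m (mem_ini.1 hm).1
  have h1 : (fun l => gr y (ini v (fadd c f l))) =
      Fin.cons (gr y (ini v (g0 k c))) fun l => gr y (ini v (push 0 (W1 r) (f l))) := by
    funext l
    unfold fadd
    refine Fin.cases ?_ (fun l => ?_) l
    · rfl
    · rfl
  rw [h1, linearIndependent_finCons]
  refine ⟨hli', fun hmem => hlam0 ?_⟩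
  have h2 : Submodule.span R (Set.range fun l => gr y (ini v (push 0 (W1 r) (f l)))) ≤
      LinearMap.ker lam := by
    rw [Submodule.span_le]
    rintro _ ⟨l, rfl⟩
    exact hlam1 l
  exact h2 hmem

end

section

variable {k K : Type} [Field k] [Field K] [Algebra k K] {r q : ℕ} {x : Fin r → K}

/-- **Hereditary nondegeneracy of the new system.** -/
theorem hn_add {f : Fin q → (Fin r → ℤ) →₀ k} {v0 c : Fin r → ℤ} (hc : c ⬝ᵥ v0 = 1)
    (hcon : ∀ l, ∃ d, ∀ m ∈ (f l).support, m ⬝ᵥ v0 = d) {y : K}
    (hx : ∀ i, (Fin.cons y x : Fin (r + 1) → K) i ≠ 0) (hnd : HN x f) :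
    HN (Fin.cons y x : Fin (r + 1) → K) (fadd c f) where
  gen F _ _ φ := by
    intro hev
    exact li_add (y := fun i => φ ((Fin.cons y x : Fin (r + 1) → K) i))
      (fun i h0 => hx i ((map_eq_zero φ).1 h0)) hc hcon hev (hnd.gen F φ)
  place Λ F _ _ _ _ _ _ φ P := by
    have h1 := fadd_map (Λ := Λ) c f
    rw [h1]
    intro hev
    refine li_add (pt_ne P fun i h0 => hx i ((map_eq_zero φ).1 h0)) hc ?_ hev
      (hnd.place Λ F φ P)
    intro l
    obtain ⟨d, hd⟩ := hcon l
    refine ⟨d, fun m hm => hd m ?_⟩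
    rwa [supp_map] at hm

end

end Pool.Agent.R885.N
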