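import Pool.Agent.R885.P7

/-!
All nondegenerate systems.
-/

set_option autoImplicit false
set_option linter.overlappingInstances false
set_option linter.unusedSectionVars false

open FF IntermediateField Pool.Agent.W619.PQ Pool.Agent.W619.PL Pool.Agent.W619.TW
  Pool.Agent.W603.LV Pool.Agent.W619.Y Pool.Agent.Y174

namespace Pool.Agent.R885.N

/-- the rational directions along which the system is constant -/
def Uq {k : Type} [Field k] {r q : ℕ} (f : Fin q → (Fin r → ℤ) →₀ k) : Submodule ℚ (Fin r → ℚ) where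
  carrier := {p | ∀ l, ∀ m ∈ (f l).support, ∀ m' ∈ (f l).support,
    ∑ i, (m i : ℚ) * p i = ∑ i, (m' i : ℚ) * p i}
  add_mem' := by
    intro a b ha hb l m hm m' hm'
    simp only [Pi.add_apply, mul_add]
    rw [Finset.sum_add_distrib, Finset.sum_add_distrib, ha l m hm m' hm', hb l m hm m' hm']
  zero_mem' := by
    intro l m hm m' hm'
    simp
  smul_mem' := by
    intro c a ha l m hm m' hm'
    have h1 : ∀ m : Fin r → ℤ, ∑ i, (m i : ℚ) * (c • a) i = c * ∑ i, (m i : ℚ) * a i := by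
      intro m
      rw [Finset.mul_sum]
      refine Finset.sum_congr rfl fun i _ => ?_
      rw [Pi.smul_apply, smul_eq_mul]
      ring
    rw [h1, h1, ha l m hm m' hm']

section

variable {k : Type} [Field k] {r q : ℕ} {f : Fin q → (Fin r → ℤ) →₀ k}

theorem int_mem_Uq {v : Fin r → ℤ} (h : ∀ l, ∀ m ∈ (f l).support, ∀ m' ∈ (f l).support,
    m ⬝ᵥ v = m' ⬝ᵥ v) : (fun i => (v i : ℚ)) ∈ Uq f := by
  intro l m hm m' hm'
  rw [dot_intCast, dot_intCast, h l m hm m' hm']

theorem supp_fadd_zero {c : Fin r → ℤ} (hc : c ≠ 0) :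
    (0 : Fin (r + 1) → ℤ) ∈ (g0 k c).support ∧ ec c ∈ (g0 k c).support ∧
      e0 r ∈ (g0 k c).support := by
  refine ⟨?_, ?_, ?_⟩
  · rw [Finsupp.mem_support_iff]
    unfold g0
    rw [Finsupp.add_apply, Finsupp.add_apply, Finsupp.single_eq_same,
      Finsupp.single_eq_of_ne (ec_ne hc).symm, Finsupp.single_eq_of_ne e0_ne.symm, add_zero,
      add_zero]
    exact one_ne_zero
  · rw [Finsupp.mem_support_iff, g0_ec hc]
    exact one_ne_zero
  · rw [Finsupp.mem_support_iff, g0_e0]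
    exact one_ne_zero

/-- the directions of the new system -/
theorem Uq_lt {v0 c : Fin r → ℤ} (hc : c ⬝ᵥ v0 = 1)
    (hcon : ∀ l, ∀ m ∈ (f l).support, ∀ m' ∈ (f l).support, m ⬝ᵥ v0 = m' ⬝ᵥ v0) :
    Module.finrank ℚ (Uq (fadd c f)) < Module.finrank ℚ (Uq f) := by
  classical
  have hc0 : c ≠ 0 := by
    rintro rfl
    rw [zero_dotProduct] at hc
    exact zero_ne_one hc
  let Cp : Submodule ℚ (Fin r → ℚ) :=
    { carrier := {p | ∑ i, (c i : ℚ) * p i = 0}
      add_mem' := by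
        intro a b ha hb
        change ∑ i, (c i : ℚ) * (a i + b i) = 0
        simp only [mul_add]
        rw [Finset.sum_add_distrib]
        rw [show ∑ i, (c i : ℚ) * a i = 0 from ha, show ∑ i, (c i : ℚ) * b i = 0 from hb, add_zero]
      zero_mem' := by simp
      smul_mem' := by
        intro d a ha
        change ∑ i, (c i : ℚ) * (d * a i) = 0
        have h1 : ∑ i, (c i : ℚ) * (d * a i) = d * ∑ i, (c i : ℚ) * a i := by
          rw [Finset.mul_sum]
          exact Finset.sum_congr rfl fun i _ => by ring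
        rw [h1, show ∑ i, (c i : ℚ) * a i = 0 from ha, mul_zero] }
  obtain ⟨h0s, hcs, hes⟩ := supp_fadd_zero (k := k) hc0
  -- the projection
  have hp : ∀ p : Fin (r + 1) → ℚ, p ∈ Uq (fadd c f) → p 0 = 0 ∧ (fun j => p j.succ) ∈ Uq f ⊓ Cp := by
    intro p hp
    have hg : ∀ m ∈ (g0 k c).support, ∀ m' ∈ (g0 k c).support,
        ∑ i, (m i : ℚ) * p i = ∑ i, (m' i : ℚ) * p i := fun m hm m' hm' => hp 0 m hm m' hm'
    have h1 := hg _ hes _ h0s
    have h2 := hg _ hcs _ h0s
    rw [Fin.sum_univ_succ] at h1 h2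
    unfold e0 at h1
    unfold ec at h2
    simp only [Fin.cons_zero, Fin.cons_succ, Pi.zero_apply, Int.cast_zero, zero_mul,
      Finset.sum_const_zero, Int.cast_one, one_mul, add_zero, zero_add] at h1 h2
    refine ⟨h1, fun l m hm m' hm' => ?_, h2⟩
    have h3 := hp l.succ (aff 0 (W1 r) m) ((supp_push inj_W1 _).2 ⟨m, hm, rfl⟩)
      (aff 0 (W1 r) m') ((supp_push inj_W1 _).2 ⟨m', hm', rfl⟩)
    rw [aff_W1, aff_W1, Fin.sum_univ_succ, Fin.sum_univ_succ] at h3
    simpa using h3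
  let π : Uq (fadd c f) →ₗ[ℚ] (Uq f ⊓ Cp : Submodule ℚ (Fin r → ℚ)) :=
    { toFun := fun p => ⟨fun j => (p : Fin (r + 1) → ℚ) j.succ, (hp p p.2).2⟩
      map_add' := fun a b => rfl
      map_smul' := fun a b => rfl }
  have hinj : Function.Injective π := by
    rw [← LinearMap.ker_eq_bot, LinearMap.ker_eq_bot']
    intro p h1
    apply Subtype.ext
    funext i
    refine Fin.cases ?_ (fun i => ?_) i
    · exact (hp p p.2).1
    · have h2 := congrArg (fun z : (Uq f ⊓ Cp : Submodule ℚ (Fin r → ℚ)) => (z : Fin r → ℚ) i) h1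
      exact h2
  have h1 := LinearMap.finrank_le_finrank_of_injective hinj
  refine h1.trans_lt (Submodule.finrank_lt_finrank_of_lt (lt_of_le_of_ne inf_le_left fun h2 => ?_))
  have h3 : (fun i => (v0 i : ℚ)) ∈ Uq f := int_mem_Uq hcon
  rw [← h2] at h3
  have h4 : ∑ i, (c i : ℚ) * (v0 i : ℚ) = 0 := h3.2
  rw [dot_intCast, hc, Int.cast_one] at h4
  exact one_ne_zero h4

/-- the parameter of the new system -/
theorem third {v0 c : Fin r → ℤ} (hc : c ⬝ᵥ v0 = 1) (hf0 : ∀ l, f l ≠ 0)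
    (hcon : ∀ l, ∀ m ∈ (f l).support, ∀ m' ∈ (f l).support, m ⬝ᵥ v0 = m' ⬝ᵥ v0) {t : ℚ}
    (h : ∃ u : Fin (r + 1) → ℚ, ∀ v, v ≠ 0 → t + ∑ l, (mn v (fadd c f l) : ℚ) ≤ dq u v) :
    t ≤ 1 / 3 := by
  classical
  obtain ⟨u, hu⟩ := h
  have hv0 : v0 ≠ 0 := by
    rintro rfl
    rw [dotProduct_zero] at hc
    exact zero_ne_one hc
  have hc0 : c ≠ 0 := by
    rintro rfl
    rw [zero_dotProduct] at hc
    exact zero_ne_one hc
  choose m0 hm0 using fun l => Finsupp.support_nonempty_iff.2 (hf0 l)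
  have hmn : ∀ (a b : ℤ) (l : Fin q), b * (m0 l ⬝ᵥ v0) ≤
      mn (Fin.cons a (b • v0) : Fin (r + 1) → ℤ) (push 0 (W1 r) (f l)) := by
    intro a b l
    refine le_mn (push_ne inj_W1 (hf0 l)) fun m hm => ?_
    obtain ⟨u, hu, rfl⟩ := (supp_push inj_W1 _).1 hm
    rw [aff_W1, cons_dot, zero_mul, zero_add, dotProduct_smul, smul_eq_mul,
      hcon l u hu _ (hm0 l)]
  have hg : ∀ (a b d : ℤ), d ≤ 0 → d ≤ b → d ≤ a →
      d ≤ mn (Fin.cons a (b • v0) : Fin (r + 1) → ℤ) (g0 k c) := by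
    intro a b d h0 h1 h2
    refine le_mn (g0_ne c) fun m hm => ?_
    rcases g0_supp hm with rfl | rfl | rfl
    · rw [zero_dotProduct]
      exact h0
    · unfold ec
      rw [cons_dot, dotProduct_smul, hc, zero_mul, zero_add, smul_eq_mul, mul_one]
      exact h1
    · unfold e0
      rw [cons_dot, zero_dotProduct, one_mul, add_zero]
      exact h2
  have hsum : ∀ (a b d : ℤ), d ≤ 0 → d ≤ b → d ≤ a →
      (d : ℚ) + b * ∑ l, ((m0 l ⬝ᵥ v0 : ℤ) : ℚ) ≤
        ∑ l, (mn (Fin.cons a (b • v0) : Fin (r + 1) → ℤ) (fadd c f l) : ℚ) := by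
    intro a b d h0 h1 h2
    rw [Fin.sum_univ_succ, Finset.mul_sum]
    refine add_le_add ?_ (Finset.sum_le_sum fun l _ => ?_)
    · exact_mod_cast hg a b d h0 h1 h2
    · exact_mod_cast hmn a b l
  have hne : ∀ a b : ℤ, (a ≠ 0 ∨ b ≠ 0) → (Fin.cons a (b • v0) : Fin (r + 1) → ℤ) ≠ 0 := by
    intro a b hab h1
    have h2 := congrFun h1 0
    rw [Fin.cons_zero] at h2
    have h2' : a = 0 := h2
    rcases hab with h3 | h3
    · exact h3 h2'
    · have h4 : b • v0 = 0 := by
        funext j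
        have h5 := congrFun h1 j.succ
        rwa [Fin.cons_succ] at h5
      exact hv0 ((smul_eq_zero.1 h4).resolve_left h3)
  have h1 := hu _ (hne 0 1 (Or.inr one_ne_zero))
  have h2 := hu _ (hne (-1) (-1) (Or.inl (by norm_num)))
  have h3 := hu _ (hne 1 0 (Or.inl one_ne_zero))
  have h4 := hsum 0 1 0 le_rfl (by norm_num) le_rfl
  have h5 := hsum (-1) (-1) (-1) (by norm_num) le_rfl le_rfl
  have h6 := hsum 1 0 0 le_rfl le_rfl (by norm_num)
  have h7 : dq u (Fin.cons 0 ((1 : ℤ) • v0) : Fin (r + 1) → ℤ) +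
      dq u (Fin.cons (-1) ((-1 : ℤ) • v0) : Fin (r + 1) → ℤ) +
      dq u (Fin.cons 1 ((0 : ℤ) • v0) : Fin (r + 1) → ℤ) = 0 := by
    rw [← dq_add', ← dq_add']
    have h8 : (Fin.cons 0 ((1 : ℤ) • v0) : Fin (r + 1) → ℤ) + Fin.cons (-1) ((-1 : ℤ) • v0) +
        Fin.cons 1 ((0 : ℤ) • v0) = 0 := by
      funext i
      refine Fin.cases ?_ (fun i => ?_) i
      · simp
      · simp
    rw [h8]
    unfold dq
    simp
  push_cast at h4 h5 h6
  linarith

end

/-- **Nondegenerate systems which are constant along a direction.** -/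
theorem neg_of_third {k K : Type} [Field k] [CharZero k] [IsAlgClosed k] [Field K] [Algebra k K]
    {n : ℕ} (hn : 1 ≤ n) (htr : Algebra.trdeg k K = (n : ℕ)) (N : ℕ) :
    ∀ (r q : ℕ) (x : Fin r → K) (f : Fin q → (Fin r → ℤ) →₀ k), r = n + q → (∀ i, x i ≠ 0) →
      IntermediateField.adjoin k (Set.range x) = ⊤ → (∀ l, ev x (f l) = 0) → HN x f →
      ((∀ t : ℚ, (∃ u : Fin r → ℚ, ∀ v, v ≠ 0 → t + ∑ l, (mn v (f l) : ℚ) ≤ dq u v) →
        t ≤ 1 / 3) ∨ ∃ v0 : Fin r → ℤ, v0 ≠ 0 ∧ ∀ l, ∀ m ∈ (f l).support,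
          ∀ m' ∈ (f l).support, m ⬝ᵥ v0 = m' ⬝ᵥ v0) →
      Module.finrank ℚ (Uq f) ≤ N → Neg k K n := by
  have hK0 : CharZero K := charZero_of_injective_algebraMap (algebraMap k K).injective
  induction N with
  | zero =>
    intro r q x f hr hx hgen hf hnd h3 hN
    have hU : ∀ v : Fin r → ℤ, (∀ l, ∀ m ∈ (f l).support, ∀ m' ∈ (f l).support,
        m ⬝ᵥ v = m' ⬝ᵥ v) → v = 0 := by
      intro v hv
      have h1 := int_mem_Uq hv
      have h2 : Uq f = ⊥ := Submodule.finrank_eq_zero.1 (Nat.le_zero.1 hN)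
      rw [h2, Submodule.mem_bot] at h1
      funext i
      have h4 : (v i : ℚ) = 0 := congrFun h1 i
      change v i = 0
      exact_mod_cast h4
    obtain ⟨t, ht, hor⟩ := stepV hn hr htr hx hgen hf hnd hU
    have ht3 : t ≤ 1 / 3 := by
      rcases h3 with h3 | ⟨v0, hv0, h4⟩
      · exact h3 t ht
      · exact absurd (hU v0 h4) hv0
    rcases hor with ⟨h5, -⟩ | h5 | ⟨h5, -⟩
    · rw [h5] at ht3
      norm_num at ht3
    · exact h5
    · exfalso
      have := h5.trans ht3
      norm_num at this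
  | succ N ih =>
    intro r q x f hr hx hgen hf hnd h3 hN
    by_cases hU : ∀ v : Fin r → ℤ, (∀ l, ∀ m ∈ (f l).support, ∀ m' ∈ (f l).support,
        m ⬝ᵥ v = m' ⬝ᵥ v) → v = 0
    · obtain ⟨t, ht, hor⟩ := stepV hn hr htr hx hgen hf hnd hU
      have ht3 : t ≤ 1 / 3 := by
        rcases h3 with h3 | ⟨v0, hv0, h4⟩
        · exact h3 t ht
        · exact absurd (hU v0 h4) hv0
      rcases hor with ⟨h5, -⟩ | h5 | ⟨h5, -⟩
      · rw [h5] at ht3
        norm_num at ht3
      · exact h5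
      · exfalso
        have := h5.trans ht3
        norm_num at this
    push Not at hU
    obtain ⟨v1, hv1, hv10⟩ := hU
    obtain ⟨g, v0, c, hg, rfl, hc⟩ := exists_prim hv10
    have hcon : ∀ l, ∀ m ∈ (f l).support, ∀ m' ∈ (f l).support, m ⬝ᵥ v0 = m' ⬝ᵥ v0 := by
      intro l m hm m' hm'
      have h1 := hv1 l m hm m' hm'
      rw [dotProduct_smul, dotProduct_smul, smul_eq_mul, smul_eq_mul] at h1
      exact mul_left_cancel₀ hg.ne' h1
    have hf0 := hn_ne0 hnd hf
    have hcon' : ∀ l, ∃ d, ∀ m ∈ (f l).support, m ⬝ᵥ v0 = d := by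
      intro l
      obtain ⟨m0, hm0⟩ := Finsupp.support_nonempty_iff.2 (hf0 l)
      exact ⟨m0 ⬝ᵥ v0, fun m hm => hcon l m hm m0 hm0⟩
    -- the monomial is not a constant
    have hy0 : -1 - mono x c ≠ 0 := by
      intro h0
      obtain ⟨D, hD⟩ := der_of_ker htr hx hgen (J := Fin q) (by rw [Fintype.card_fin, hr, add_comm])
        hf (hn_ne hnd hf) (η := fun i => (v0 i : K)) fun l => by
          obtain ⟨d, hd⟩ := hcon' l
          exact gr_dot_const (hf l) hd
      have h1 : D (mono x c) = mono x c := by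
        rw [der_mono D hx]
        have h2 : ∑ i, (c i : K) * (D (x i) / x i) = 1 := by
          have h4 : ∑ i, (c i : K) * (D (x i) / x i) = ∑ i, (c i : K) * (v0 i : K) := by
            refine Finset.sum_congr rfl fun i _ => ?_
            have h5 := congrFun hD i
            unfold lg at h5
            rw [h5]
          rw [h4, dot_intCast, hc, Int.cast_one]
        rw [h2, mul_one]
      have h2 : mono x c = algebraMap k K (-1) := by
        rw [map_neg, map_one]
        linear_combination -h0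
      rw [h2, D.map_algebraMap, ← h2] at h1
      exact mono_ne hx c h1.symm
    have hx' : ∀ i, (Fin.cons (-1 - mono x c) x : Fin (r + 1) → K) i ≠ 0 := by
      intro i
      refine Fin.cases ?_ (fun i => ?_) i
      · rw [Fin.cons_zero]
        exact hy0
      · rw [Fin.cons_succ]
        exact hx i
    refine ih (r + 1) (q + 1) (Fin.cons (-1 - mono x c) x) (fadd c f) (by omega) hx' ?_ ?_
      (hn_add hc hcon' hx' hnd) (Or.inl fun t ht => third hc hf0 hcon ht) ?_
    · rw [eq_top_iff, ← hgen, IntermediateField.adjoin_le_iff]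
      rintro _ ⟨i, rfl⟩
      refine IntermediateField.subset_adjoin _ _ ⟨i.succ, ?_⟩
      rw [Fin.cons_succ]
    · intro l
      refine Fin.cases ?_ (fun l => ?_) l
      · change ev _ (g0 k c) = 0
        rw [ev_g0]
        have h1 : mono (Fin.cons (-1 - mono x c) x : Fin (r + 1) → K) (ec c) = mono x c := by
          unfold mono ec
          rw [Fin.prod_univ_succ]
          simp only [Fin.cons_zero, Fin.cons_succ, zpow_zero, one_mul]
        have h2 : mono (Fin.cons (-1 - mono x c) x : Fin (r + 1) → K) (e0 r) = -1 - mono x c := by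
          unfold e0
          change ∏ i, _ = _
          rw [Fin.prod_univ_succ]
          simp only [Fin.cons_zero, Fin.cons_succ, zpow_one, Pi.zero_apply, zpow_zero,
            Finset.prod_const_one, mul_one]
        rw [h1, h2]
        ring
      · change ev _ (push 0 (W1 r) (f l)) = 0
        rw [ev_push hx', mono_zero, one_mul, mono_W1]
        exact hf l
    · have h1 := Uq_lt hc hcon
      omega

/-- **All nondegenerate systems.** -/
theorem all_sys {k K : Type} [Field k] [CharZero k] [IsAlgClosed k] [Field K] [Algebra k K]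
    {n : ℕ} (hn : 1 ≤ n) (htr : Algebra.trdeg k K = (n : ℕ)) (N : ℕ) :
    ∀ (r q : ℕ) (x : Fin r → K) (f : Fin q → (Fin r → ℤ) →₀ k), r = n + q → (∀ i, x i ≠ 0) →
      IntermediateField.adjoin k (Set.range x) = ⊤ → (∀ l, ev x (f l) = 0) → HN x f →
      q ≤ N → Pos k K n ∨ Neg k K n := by
  induction N with
  | zero =>
    intro r q x f hr hx hgen hf hnd hq
    by_cases hU : ∀ v : Fin r → ℤ, (∀ l, ∀ m ∈ (f l).support, ∀ m' ∈ (f l).support,
        m ⬝ᵥ v = m' ⬝ᵥ v) → v = 0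
    · obtain ⟨t, -, hor⟩ := stepV hn hr htr hx hgen hf hnd hU
      rcases hor with ⟨-, h5⟩ | h5 | ⟨-, m, s, hm, hexc⟩
      · exact Or.inl h5
      · exact Or.inr h5
      · exfalso
        have h1 := (Finset.card_le_univ (JC f s))
        rw [hexc.card, Fintype.card_fin] at h1
        omega
    · push Not at hU
      obtain ⟨v1, hv1, hv10⟩ := hU
      exact Or.inr (neg_of_third hn htr _ r q x f hr hx hgen hf hnd (Or.inr ⟨v1, hv10, hv1⟩) le_rfl)
  | succ N ih =>
    intro r q x f hr hx hgen hf hnd hq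
    by_cases hU : ∀ v : Fin r → ℤ, (∀ l, ∀ m ∈ (f l).support, ∀ m' ∈ (f l).support,
        m ⬝ᵥ v = m' ⬝ᵥ v) → v = 0
    · obtain ⟨t, -, hor⟩ := stepV hn hr htr hx hgen hf hnd hU
      rcases hor with ⟨-, h5⟩ | h5 | ⟨-, m, s, hm, hexc⟩
      · exact Or.inl h5
      · exact Or.inr h5
      · obtain ⟨r', q', z, g, h1, h2, h3, h4, h5, h6⟩ :=
          hexc.reduce (hn_ne0 hnd hf) hgen hnd hr
        exact ih r' q' z g h2 h3 h4 h5 h6 (by omega)
    · push Not at hU
      obtain ⟨v1, hv1, hv10⟩ := hU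
      exact Or.inr (neg_of_third hn htr _ r q x f hr hx hgen hf hnd (Or.inr ⟨v1, hv10, hv1⟩) le_rfl)

end Pool.Agent.R885.N
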