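import Pool.Agent.R885.Frm
import Pool.Agent.R885.Key
import Pool.Agent.R885.Lin
import Pool.Agent.Y173.QA.Vt
import Pool.Agent.Y173.QA.Pl
import Mathlib.LinearAlgebra.LinearIndependent.BaseChange

/-!
The places of codimension one on the model given by the monomials: they come from the tight vectors.
-/

set_option autoImplicit false
set_option linter.overlappingInstances false
set_option linter.unusedSectionVars false

open FF Pool.Agent.W603.LV Pool.Agent.W619.PQ Pool.Agent.Y173.QA

namespace Pool.Agent.R885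

theorem li_field {F : Type} [Field F] [CharZero F] {r j : ℕ} {σ : Fin j → Fin r → ℤ}
    (h : LinearIndependent ℚ fun (i : Fin j) (k : Fin r) => (σ i k : ℚ)) :
    LinearIndependent F fun (i : Fin j) (k : Fin r) => (σ i k : F) := by
  have h1 := (linearIndependent_algebraMap_comp_iff (R := ℚ) (S := F)).2 h
  have h2 : (fun i => (algebraMap ℚ F) ∘ fun k : Fin r => (σ i k : ℚ)) =
      fun (i : Fin j) (k : Fin r) => (σ i k : F) := by
    funext i k
    simp
  rwa [h2] at h1

theorem dot_intCast {F : Type} [Field F] {r : ℕ} (w s : Fin r → ℤ) :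
    ∑ k, (w k : F) * (s k : F) = ((w ⬝ᵥ s : ℤ) : F) := by
  unfold dotProduct
  push_cast
  rfl

section

variable {k K : Type} [Field k] [CharZero k] [Field K] [Algebra k K] {r m : ℕ} {x : Fin r → K}

/-- residually independent functions at the places over the irreducible polynomials -/
theorem adic_res {Z : Fin (m + 1) → K} (hZ : AlgebraicIndependent k Z)
    {p : MvPolynomial (Fin (m + 1)) k} (hp : Irreducible p) {P : Place k K} (hP : Adic Z p P) :
    ∃ b : Fin (m + 1), ∀ q : MvPolynomial (Fin m) k, q ≠ 0 →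
      MvPolynomial.aeval (fun j => Z (b.succAbove j)) q ≠ 0 ∧
        P.ord (MvPolynomial.aeval (fun j => Z (b.succAbove j)) q) = 0 := by
  classical
  obtain ⟨b, hb⟩ : ∃ b, MvPolynomial.degreeOf b p ≠ 0 := by
    by_contra hcon
    push Not at hcon
    apply hp.not_isUnit
    have h1 : p = MvPolynomial.C (MvPolynomial.coeff 0 p) := by
      rw [← MvPolynomial.totalDegree_eq_zero_iff_eq_C]
      apply Nat.eq_zero_of_le_zero
      unfold MvPolynomial.totalDegree
      refine Finset.sup_le fun s hs => ?_
      rw [Finsupp.sum_fintype _ _ fun _ => rfl]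
      rw [Finset.sum_eq_zero fun i _ => ?_]
      have h2 := MvPolynomial.monomial_le_degreeOf i hs
      rw [hcon i] at h2
      omega
    rw [h1]
    refine (isUnit_iff_ne_zero.2 ?_).map MvPolynomial.C
    intro h0
    rw [h0, map_zero] at h1
    exact hp.ne_zero h1
  refine ⟨b, fun q hq => ?_⟩
  have h0 : MvPolynomial.rename b.succAbove q ≠ 0 :=
    (map_ne_zero_iff _ (MvPolynomial.rename_injective _ Fin.succAbove_right_injective)).2 hq
  have h1 : MvPolynomial.aeval Z (MvPolynomial.rename b.succAbove q) =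
      MvPolynomial.aeval (fun j => Z (b.succAbove j)) q := by
    rw [MvPolynomial.aeval_rename]
    rfl
  have h2 := (hP (MvPolynomial.rename b.succAbove q) h0).2.2 (not_dvd_succAbove hb hq)
  rw [h1] at h2
  refine ⟨?_, h2⟩
  rw [← h1]
  intro h3
  exact h0 ((injective_iff_map_eq_zero _).1 hZ _ h3)

theorem gr'_pair (hx : ∀ i, x i ≠ 0) {f : (Fin r → ℤ) →₀ k} (hf : ev x f = 0)
    (m0 s : Fin r → ℤ) : ∑ i, gr' x f m0 i * (s i : K) = ∑ m ∈ f.support, algebraMap k K (f m) *
      (((m - m0) ⬝ᵥ s : ℤ) : K) * mono x (m - m0) := by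
  have h2 : ∑ i, gr' x f m0 i * (s i : K) = ∑ m ∈ f.support, algebraMap k K (f m) *
      ((m ⬝ᵥ s : ℤ) : K) * mono x (m - m0) := by
    unfold gr' Finsupp.sum
    simp only [Finset.sum_mul]
    rw [Finset.sum_comm]
    refine Finset.sum_congr rfl fun m _ => ?_
    have h3 : ((m ⬝ᵥ s : ℤ) : K) = ∑ i, (m i : K) * (s i : K) := by
      unfold dotProduct
      push_cast
      rfl
    rw [h3, Finset.mul_sum, Finset.sum_mul]
    exact Finset.sum_congr rfl fun i _ => by ring
  have h3 := ev'_zero hx hf m0
  have h4 : ∑ m ∈ f.support, algebraMap k K (f m) * (((m - m0) ⬝ᵥ s : ℤ) : K) *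
      mono x (m - m0) = (∑ m ∈ f.support, algebraMap k K (f m) *
      ((m ⬝ᵥ s : ℤ) : K) * mono x (m - m0)) - ((m0 ⬝ᵥ s : ℤ) : K) * ev' x f m0 := by
    unfold ev' Finsupp.sum
    rw [Finset.mul_sum, ← Finset.sum_sub_distrib]
    refine Finset.sum_congr rfl fun m _ => ?_
    rw [sub_dotProduct]
    push_cast
    ring
  rw [h2, h4, h3, mul_zero, sub_zero]

/-- the residue of the logarithmic derivatives of a monomial -/
theorem red_der_mono (P : Place k K) (hx : ∀ i, x i ≠ 0) {E : Derivation k K K}
    (hE : ∀ i, P.Reg (lg x E i)) {w : Fin r → ℤ} (hw : 0 ≤ w ⬝ᵥ vec P x) :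
    P.Reg (E (mono x w)) ∧ P.red (E (mono x w)) =
      P.red (mono x w) * ∑ i, (w i : P.RF) * P.red (lg x E i) := by
  have h1 : E (mono x w) = mono x w * ∑ i, (w i : K) * lg x E i := der_mono E hx w
  have h2 : ∀ i ∈ (Finset.univ : Finset (Fin r)), P.Reg ((w i : K) * lg x E i) := fun i _ =>
    P.reg_mul (reg_int P (w i)) (hE i)
  have h3 : P.Reg (∑ i, (w i : K) * lg x E i) := Ge.sum _ _ h2
  have h4 : P.Reg (mono x w) := reg_mono P hx hw
  rw [h1]
  refine ⟨P.reg_mul h4 h3, ?_⟩
  rw [P.red_mul h4 h3, red_sum P _ _ h2]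
  congr 1
  exact Finset.sum_congr rfl fun i _ => by rw [P.red_mul (reg_int P (w i)) (hE i), red_int]

/-- **The rank argument.** -/
theorem rank_place (htr : Algebra.trdeg k K = (m + 1 : ℕ))
    (hfin : ∀ y : Fin (m + 1) → K, IsTranscendenceBasis k y →
      FiniteDimensional (IntermediateField.adjoin k (Set.range y)) K)
    (P : Place k K) (hx : ∀ i, x i ≠ 0) {J : Type} {f : J → (Fin r → ℤ) →₀ k}
    (hf0 : ∀ l, f l ≠ 0) (hf : ∀ l, ev x (f l) = 0) (hnd : NonDeg P.RF f (vec P x))
    {β : Type} [Fintype β] {bb : β → Fin r → ℤ} {b0 : β}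
    (hb0 : ∀ b, bb b0 ⬝ᵥ vec P x ≤ bb b ⬝ᵥ vec P x) {y : Fin m → K}
    (hy : ∀ p : MvPolynomial (Fin m) k, p ≠ 0 →
      MvPolynomial.aeval y p ≠ 0 ∧ P.ord (MvPolynomial.aeval y p) = 0)
    {a : Fin m → β → k} {a0 : β → k} (hl0 : (∑ b, a0 b • mono x (bb b - bb b0)) ≠ 0)
    (hl0' : P.ord (∑ b, a0 b • mono x (bb b - bb b0)) = 0)
    (hyl : ∀ j, y j * (∑ b, a0 b • mono x (bb b - bb b0)) = ∑ b, a j b • mono x (bb b - bb b0))
    {jj : ℕ} {σ : Fin jj → Fin r → ℤ}
    (hli : LinearIndependent ℚ fun (i : Fin jj) (k : Fin r) => (σ i k : ℚ))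
    (hσb : ∀ b, bb b ⬝ᵥ vec P x = bb b0 ⬝ᵥ vec P x → ∀ i, (bb b - bb b0) ⬝ᵥ σ i = 0)
    {L0 : Finset J} (hL0 : ∀ l ∈ L0, ∀ m ∈ (f l).support, ∀ m' ∈ (f l).support,
      m ⬝ᵥ vec P x = mn (vec P x) (f l) → m' ⬝ᵥ vec P x = mn (vec P x) (f l) →
      ∀ i, m ⬝ᵥ σ i = m' ⬝ᵥ σ i) : L0.card + (m + jj) ≤ r := by
  classical
  have hcRF : CharZero P.RF := charZero_of_injective_algebraMap (algebraMap k P.RF).injective
  obtain ⟨t, ht0, ht⟩ := P.surj
  obtain ⟨hbas, E, hE1, hE2⟩ := frame_of htr hfin P ht hy
  choose m0 hm0 hm0' using fun l => exists_mn (hf0 l) (vec P x)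
  have hrows := nd_place P hx hf hnd hm0'
  -- the logarithmic derivatives
  have hEt : ∀ a : Fin m, E a.succ t = 0 := by
    intro a
    have h1 := hE1 a.succ 0
    rwa [Fin.cons_zero, if_neg (Fin.succ_ne_zero a)] at h1
  have hEy : ∀ a j : Fin m, E a.succ (y j) = if a = j then 1 else 0 := by
    intro a j
    have h1 := hE1 a.succ j.succ
    rw [Fin.cons_succ] at h1
    rw [h1]
    by_cases h : a = j
    · rw [if_pos h, if_pos (by rw [h])]
    · rw [if_neg h, if_neg (fun h' => h (Fin.succ_injective _ h'))]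
  have hlg : ∀ (a : Fin m) i, P.Reg (lg x (E a.succ) i) := fun a i =>
    log_flat P ht (hE2 _) (hEt a) (x i)
  let ρ : Fin m → Fin r → P.RF := fun a i => P.red (lg x (E a.succ) i)
  have hw0 : ∀ b, 0 ≤ (bb b - bb b0) ⬝ᵥ vec P x := by
    intro b
    rw [sub_dotProduct]
    exact sub_nonneg.2 (hb0 b)
  have hregm : ∀ b, P.Reg (mono x (bb b - bb b0)) := fun b => reg_mono P hx (hw0 b)
  have hder := fun (a : Fin m) b => red_der_mono P hx (hlg a) (hw0 b)
  -- independence
  have hvec : LinearIndependent P.RF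
      (Sum.elim ρ fun (i : Fin jj) (k : Fin r) => (σ i k : P.RF)) := by
    rw [Fintype.linearIndependent_iff]
    intro g hg
    have hg1 : ∀ i : Fin r, (∑ a : Fin m, g (Sum.inl a) * ρ a i) +
        ∑ i', g (Sum.inr i') * (σ i' i : P.RF) = 0 := by
      intro i
      have h1 := congrFun hg i
      rw [Fintype.sum_sum_type, Pi.add_apply, Finset.sum_apply, Finset.sum_apply] at h1
      exact h1
    -- the monomials
    have h1 : ∀ b, ∑ a : Fin m, g (Sum.inl a) * P.red (E a.succ (mono x (bb b - bb b0))) = 0 := by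
      intro b
      have h2 : ∑ a : Fin m, g (Sum.inl a) * P.red (E a.succ (mono x (bb b - bb b0))) =
          P.red (mono x (bb b - bb b0)) * ∑ a : Fin m, g (Sum.inl a) *
            ∑ i, ((bb b - bb b0) i : P.RF) * ρ a i := by
        rw [Finset.mul_sum]
        refine Finset.sum_congr rfl fun a _ => ?_
        rw [(hder a b).2]
        ring
      rw [h2]
      rcases (hw0 b).lt_or_eq with h3 | h3
      · rw [red_mono_pos P hx h3, zero_mul]
      · have h4 : bb b ⬝ᵥ vec P x = bb b0 ⬝ᵥ vec P x := by
          rw [sub_dotProduct] at h3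
          omega
        have h5 := hσb b h4
        have h6 : ∑ a : Fin m, g (Sum.inl a) * ∑ i, ((bb b - bb b0) i : P.RF) * ρ a i = 0 := by
          have h7 : ∑ i, ((bb b - bb b0) i : P.RF) * ((∑ a : Fin m, g (Sum.inl a) * ρ a i) +
              ∑ i', g (Sum.inr i') * (σ i' i : P.RF)) = 0 :=
            Finset.sum_eq_zero fun i _ => by rw [hg1, mul_zero]
          simp only [mul_add] at h7
          rw [Finset.sum_add_distrib] at h7
          have h8 : ∑ i, ((bb b - bb b0) i : P.RF) * ∑ i', g (Sum.inr i') * (σ i' i : P.RF) =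
              0 := by
            simp only [Finset.mul_sum]
            rw [Finset.sum_comm]
            refine Finset.sum_eq_zero fun i' _ => ?_
            have h9 : ∑ i, ((bb b - bb b0) i : P.RF) * (g (Sum.inr i') * (σ i' i : P.RF)) =
                g (Sum.inr i') * ∑ i, ((bb b - bb b0) i : P.RF) * (σ i' i : P.RF) := by
              rw [Finset.mul_sum]
              exact Finset.sum_congr rfl fun i _ => by ring
            rw [h9, dot_intCast, h5 i', Int.cast_zero, mul_zero]
          rw [h8, add_zero] at h7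
          rw [← h7]
          simp only [Finset.mul_sum]
          rw [Finset.sum_comm]
          exact Finset.sum_congr rfl fun i _ => Finset.sum_congr rfl fun a _ => by ring
        rw [h6, mul_zero]
    -- the linear forms
    have h2 : ∀ α : β → k, (∀ a : Fin m, P.Reg (E a.succ (∑ b, α b • mono x (bb b - bb b0)))) ∧
        P.Reg (∑ b, α b • mono x (bb b - bb b0)) ∧
        ∑ a : Fin m, g (Sum.inl a) * P.red (E a.succ (∑ b, α b • mono x (bb b - bb b0))) = 0 := by
      intro α
      have h3 : ∀ a : Fin m, E a.succ (∑ b, α b • mono x (bb b - bb b0)) =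
          ∑ b, algebraMap k K (α b) * E a.succ (mono x (bb b - bb b0)) := by
        intro a
        rw [map_sum]
        refine Finset.sum_congr rfl fun b _ => ?_
        rw [(E a.succ).map_smul, Algebra.smul_def]
      have h4 : ∀ a : Fin m, ∀ b ∈ (Finset.univ : Finset β),
          P.Reg (algebraMap k K (α b) * E a.succ (mono x (bb b - bb b0))) := fun a b _ =>
        P.reg_mul (P.reg_const _) (hder a b).1
      refine ⟨fun a => ?_, ?_, ?_⟩
      · rw [h3]
        exact Ge.sum _ _ (h4 a)
      · refine Ge.sum _ _ fun b _ => ?_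
        rw [Algebra.smul_def]
        exact P.reg_mul (P.reg_const _) (hregm b)
      · have h5 : ∀ a : Fin m, P.red (E a.succ (∑ b, α b • mono x (bb b - bb b0))) =
            ∑ b, P.red (algebraMap k K (α b)) * P.red (E a.succ (mono x (bb b - bb b0))) := by
          intro a
          rw [h3, red_sum P _ _ (h4 a)]
          exact Finset.sum_congr rfl fun b _ => P.red_mul (P.reg_const _) (hder a b).1
        simp only [h5, Finset.mul_sum]
        rw [Finset.sum_comm]
        refine Finset.sum_eq_zero fun b _ => ?_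
        have h6 := h1 b
        have h7 : ∑ a : Fin m, g (Sum.inl a) * (P.red (algebraMap k K (α b)) *
            P.red (E a.succ (mono x (bb b - bb b0)))) = P.red (algebraMap k K (α b)) *
            ∑ a : Fin m, g (Sum.inl a) * P.red (E a.succ (mono x (bb b - bb b0))) := by
          rw [Finset.mul_sum]
          exact Finset.sum_congr rfl fun a _ => by ring
        rw [h7, h6, mul_zero]
    -- the first coefficients
    have hℓ0 : P.red (∑ b, a0 b • mono x (bb b - bb b0)) ≠ 0 := by
      rw [Ne, P.red_eq_zero_iff (h2 a0).2.1]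
      rintro (h3 | h3)
      · exact hl0 h3
      · omega
    have hyreg : ∀ j, P.Reg (y j) := by
      intro j
      have h3 := (hy (MvPolynomial.X j) (MvPolynomial.X_ne_zero j)).2
      rw [MvPolynomial.aeval_X] at h3
      exact Or.inr h3.ge
    have hc : ∀ j : Fin m, g (Sum.inl j) = 0 := by
      intro j
      have h3 : ∀ a' : Fin m, P.red (y j) * P.red (E a'.succ (∑ b, a0 b • mono x (bb b - bb b0))) +
          P.red (∑ b, a0 b • mono x (bb b - bb b0)) * (if a' = j then 1 else 0) =
          P.red (E a'.succ (∑ b, a j b • mono x (bb b - bb b0))) := by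
        intro a'
        rw [← hyl j, (E a'.succ).leibniz, smul_eq_mul, smul_eq_mul, hEy a' j]
        have h4 : P.Reg (if a' = j then (1 : K) else 0) := by
          split_ifs
          · exact P.reg_one
          · exact P.reg_zero
        rw [P.red_add (P.reg_mul (hyreg j) ((h2 a0).1 a')) (P.reg_mul (h2 a0).2.1 h4),
          P.red_mul (hyreg j) ((h2 a0).1 a'), P.red_mul (h2 a0).2.1 h4]
        congr 2
        split_ifs
        · exact P.red_one.symm
        · exact P.red_zero.symm
      have h4 : ∑ a', g (Sum.inl a') * (P.red (y j) *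
          P.red (E a'.succ (∑ b, a0 b • mono x (bb b - bb b0))) +
          P.red (∑ b, a0 b • mono x (bb b - bb b0)) * (if a' = j then 1 else 0)) = 0 := by
        refine Eq.trans ?_ (h2 (a j)).2.2
        exact Finset.sum_congr rfl fun a' _ => by rw [h3]
      simp only [mul_add] at h4
      rw [Finset.sum_add_distrib] at h4
      have h5 : ∑ a', g (Sum.inl a') * (P.red (y j) *
          P.red (E a'.succ (∑ b, a0 b • mono x (bb b - bb b0)))) = 0 := by
        have h6 := (h2 a0).2.2
        have h7 : ∑ a', g (Sum.inl a') * (P.red (y j) *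
            P.red (E a'.succ (∑ b, a0 b • mono x (bb b - bb b0)))) = P.red (y j) *
            ∑ a', g (Sum.inl a') * P.red (E a'.succ (∑ b, a0 b • mono x (bb b - bb b0))) := by
          rw [Finset.mul_sum]
          exact Finset.sum_congr rfl fun a' _ => by ring
        rw [h7, h6, mul_zero]
      rw [h5, zero_add, Finset.sum_eq_single j] at h4
      · rw [if_pos rfl, mul_one] at h4
        exact (mul_eq_zero.1 h4).resolve_right hℓ0
      · intro a' _ ha'
        rw [if_neg ha', mul_zero, mul_zero]
      · intro h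
        exact absurd (Finset.mem_univ _) h
    -- the other coefficients
    have hd := Fintype.linearIndependent_iff.1 (li_field (F := P.RF) hli)
      (fun i => g (Sum.inr i)) (by
        funext i
        rw [Finset.sum_apply, Pi.zero_apply]
        have h3 := hg1 i
        rw [Finset.sum_eq_zero fun a _ => by rw [hc a, zero_mul], zero_add] at h3
        exact h3)
    rintro (a' | i)
    · exact hc a'
    · exact hd i
  -- orthogonality
  have hA : LinearIndependent P.RF fun l : L0 => fun i => P.red (gr' x (f l) (m0 l) i) :=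
    hrows.comp (fun l : L0 => (l : J)) Subtype.val_injective
  have h1 := rank_le hA hvec (by
    rintro ⟨l, hl⟩ (a' | i)
    · have h2 := gr'_lg hx (hf l) (m0 l) (E a'.succ)
      have h3 : P.red (∑ i, gr' x (f l) (m0 l) i * lg x (E a'.succ) i) = 0 := by
        rw [h2, P.red_zero]
      rw [red_sum P _ _ fun i _ => P.reg_mul (reg_gr' P hx (f l) (hm0' l) i) (hlg a' i)] at h3
      rw [← h3]
      unfold dotProduct
      exact Finset.sum_congr rfl fun i _ =>
        (P.red_mul (reg_gr' P hx (f l) (hm0' l) i) (hlg a' i)).symm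
    · have h2 := gr'_pair hx (hf l) (m0 l) (σ i)
      have h3 : P.red (∑ i', gr' x (f l) (m0 l) i' * (σ i i' : K)) = 0 := by
        rw [h2]
        have hge : ∀ m ∈ (f l).support, 0 ≤ (m - m0 l) ⬝ᵥ vec P x := by
          intro m hm
          rw [sub_dotProduct, hm0' l]
          exact sub_nonneg.2 (mn_le hm)
        rw [red_sum P _ _ fun m hm => P.reg_mul (P.reg_mul (P.reg_const _) (reg_int P _))
          (reg_mono P hx (hge m hm))]
        refine Finset.sum_eq_zero fun m hm => ?_
        rcases (hge m hm).lt_or_eq with h4 | h4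
        · rw [P.red_mul (P.reg_mul (P.reg_const _) (reg_int P _)) (reg_mono P hx h4.le),
            red_mono_pos P hx h4, mul_zero]
        · have h5 : m ⬝ᵥ vec P x = mn (vec P x) (f l) := by
            rw [sub_dotProduct, hm0' l] at h4
            omega
          have h6 := hL0 l hl m hm (m0 l) (hm0 l) h5 (hm0' l) i
          have h7 : (m - m0 l) ⬝ᵥ σ i = 0 := by rw [sub_dotProduct, h6, sub_self]
          rw [h7, Int.cast_zero, mul_zero, zero_mul, P.red_zero]
      rw [red_sum P _ _ fun i' _ => P.reg_mul (reg_gr' P hx (f l) (hm0' l) i') (reg_int P _)] at h3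
      rw [← h3]
      unfold dotProduct
      refine Finset.sum_congr rfl fun i' _ => ?_
      rw [P.red_mul (reg_gr' P hx (f l) (hm0' l) i') (reg_int P _), red_int]
      rfl)
  rw [Fintype.card_coe, Fintype.card_sum, Fintype.card_fin, Fintype.card_fin,
    Fintype.card_fin] at h1
  exact h1

end

end Pool.Agent.R885
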