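import Pool.Agent.R885.P9

/-!
Sections from a lower bound for the order of the residue form.
-/

set_option autoImplicit false
set_option linter.overlappingInstances false
set_option linter.unusedSectionVars false

open FF Pool.Agent.W603.LV Pool.Agent.W619.PQ Pool.Agent.Y173.QA Pool.Agent.W619.TW
  Pool.Agent.W619.Y Pool.Agent.Y174

namespace Pool.Agent.R885.N

section

variable {k K : Type} [Field k] [Field K] [Algebra k K] {r n : ℕ} {x : Fin r → K}
  {J J' : Type} [Fintype J] [DecidableEq J] [Fintype J']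

/-- The lower bound for the order of the residue form divided by the powers of the `h j`. -/
def SLow (e : J ⊕ Fin n ≃ Fin r) (x : Fin r → K) (f : J → (Fin r → ℤ) →₀ k)
    (C0 : Fin n → Fin r → ℤ) (h : J' → (Fin r → ℤ) →₀ k) (cw : J' → ℚ) (β : Place k K → ℝ) : Prop :=
  ∀ P : Place k K, IsDivisorial P n → ∀ D : Fin n → Derivation k K K, (∀ a, Pres P (D a)) →
    Om e x f C0 D ≠ 0 →
      -(if vec P x = 0 then (0 : ℝ) else 1) - ((∑ l, mn (vec P x) (f l) : ℤ) : ℝ) -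
        ∑ j, ((cw j : ℚ) : ℝ) * (mn (vec P x) (h j) : ℝ) ≤
      (P.ord (Om e x f C0 D) : ℝ) - ∑ j, ((cw j : ℚ) : ℝ) * (P.ord (ev x (h j)) : ℝ) + β P

variable [CharZero k]

/-- **The Kodaira dimension is at least the number of independent directions.** -/
theorem kodS (hx : ∀ i, x i ≠ 0)
    (hgen : IntermediateField.adjoin k (Set.range x) = ⊤)
    {e : J ⊕ Fin n ≃ Fin r} {f : J → (Fin r → ℤ) →₀ k}
    (hf : ∀ l, ev x (f l) = 0) {C0 : Fin n → Fin r → ℤ}
    (hC0 : dt e (fun l => gr x (f l)) C0 ≠ 0) {Z : Fin n → K}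
    (hZ : IsTranscendenceBasis k Z)
    {h : J' → (Fin r → ℤ) →₀ k} (hf0 : ∀ l, f l ≠ 0) (hh0 : ∀ j, h j ≠ 0)
    (hhx : ∀ j, ev x (h j) ≠ 0) {cw : J' → ℚ} {β : Place k K → ℝ}
    (hS1 : SLow e x f C0 h cw β)
    {S : Finset (Fin r → ℤ)} {u0 : Fin r → ℤ} {c : ℤ} {nn : J' → ℤ}
    (hc : 0 < c) (hnn : ∀ j, (nn j : ℚ) = c * cw j)
    (hF : ∀ v, v ≠ 0 → Ph c (fun _ => c) nn f h v ≤ u0 ⬝ᵥ v) {A : ℚ} (hA : 0 ≤ A)
    (hgr : ∀ v, v ≠ 0 → v ∉ S → ∀ i,
        |(v i : ℚ)| ≤ A * ((u0 ⬝ᵥ v - Ph c (fun _ => c) nn f h v : ℤ) : ℚ)) {d : ℕ}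
    {w : Fin d → Fin r → ℤ} (hw : ∀ j, ∀ s ∈ S, w j ⬝ᵥ s = 0)
    (hind : AlgebraicIndependent k fun j => mono x (w j)) : PairKod k K n β d := by
  classical
  obtain ⟨D0, hD0'⟩ := Pool.Agent.W602.GT.exists_dual hZ
  have hD0 : ∀ i j, D0 i (Z j) = if i = j then 1 else 0 := by
    intro i j
    have h1 := congrFun (congrFun hD0' i) j
    rw [Matrix.of_apply, Matrix.one_apply] at h1
    exact h1
  have hOm0 := om_ne hx hgen hf hC0 hZ hD0
  obtain ⟨cn, hcn⟩ : ∃ cn : ℕ, (cn : ℤ) = c := ⟨c.toNat, Int.toNat_of_nonneg hc.le⟩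
  have hcn1 : 1 ≤ cn := by omega
  obtain ⟨N, hN⟩ := exists_nat_ge ((∑ j, ∑ i, |(w j i : ℚ)|) * A + 1)
  have hW0 : ∀ j, 0 ≤ ∑ i, |(w j i : ℚ)| := fun j => Finset.sum_nonneg fun i _ => abs_nonneg _
  have hN1 : 1 ≤ N := by
    have h1 : (0 : ℚ) ≤ (∑ j, ∑ i, |(w j i : ℚ)|) * A :=
      mul_nonneg (Finset.sum_nonneg fun j _ => hW0 j) hA
    have h2 : (1 : ℚ) ≤ N := by linarith
    exact_mod_cast h2
  let w' : Fin (d + 1) → Fin r → ℤ := Fin.cons 0 w
  have hw' : ∀ l, ∀ s ∈ S, w' l ⬝ᵥ s = 0 := by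
    intro l s hs
    refine Fin.cases ?_ (fun j => ?_) l
    · change (0 : Fin r → ℤ) ⬝ᵥ s = 0
      exact zero_dotProduct s
    · exact hw j s hs
  have hwN : ∀ l, (∑ i, |(w' l i : ℚ)|) * A ≤ N := by
    intro l
    have h1 : (∑ i, |(w' l i : ℚ)|) ≤ ∑ j, ∑ i, |(w j i : ℚ)| := by
      refine Fin.cases ?_ (fun j => ?_) l
      · change (∑ i : Fin r, |(((0 : Fin r → ℤ) i : ℤ) : ℚ)|) ≤ _
        simp only [Pi.zero_apply, Int.cast_zero, abs_zero, Finset.sum_const_zero]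
        exact Finset.sum_nonneg fun j _ => hW0 j
      · exact Finset.single_le_sum (f := fun j => ∑ i, |(w j i : ℚ)|) (fun j _ => hW0 j)
          (Finset.mem_univ j)
    have h2 := mul_le_mul_of_nonneg_right h1 hA
    linarith
  obtain ⟨H, hHd⟩ : ∃ H : K, H = ∏ j, ev x (h j) ^ (-((N : ℤ) * nn j)) := ⟨_, rfl⟩
  have hH0 : H ≠ 0 := by
    rw [hHd]
    exact Finset.prod_ne_zero_iff.2 fun j _ => zpow_ne_zero _ (hhx j)
  let ω : Fin (d + 1) → (Fin n → Derivation k K K) → K := fun l D =>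
    (mono x ((N : ℤ) • u0 + w' l) * H) * Om e x f C0 D ^ (N * cn)
  have hωd : ∀ l D, ω l D = (mono x ((N : ℤ) • u0 + w' l) * H) * Om e x f C0 D ^ (N * cn) :=
    fun l D => rfl
  have hpre : ∀ l, mono x ((N : ℤ) • u0 + w' l) * H ≠ 0 := fun l => mul_ne_zero (mono_ne hx _) hH0
  refine ⟨N * cn, Nat.mul_pos hN1 hcn1, ω, fun l => ⟨?_, ?_⟩, D0, ?_, ?_⟩
  · intro B D
    rw [hωd, hωd]
    have h1 := om_pluri e x f C0 (N * cn) B D
    change Om e x f C0 (fun i => ∑ j, B i j • D j) ^ (N * cn) = B.det ^ (N * cn) *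
      Om e x f C0 D ^ (N * cn) at h1
    rw [h1]
    ring
  · intro P hPd D hD
    by_cases hO : Om e x f C0 D = 0
    · left
      rw [hωd, hO, zero_pow (Nat.mul_pos hN1 hcn1).ne', mul_zero]
    right
    refine ⟨1, Finset.mem_singleton_self _, one_ne_zero, ?_⟩
    rw [Nat.cast_zero, zero_mul, zero_sub]
    have h1 := hS1 P hPd D hD hO
    obtain ⟨v, hv⟩ : ∃ v, v = vec P x := ⟨_, rfl⟩
    obtain ⟨o, ho⟩ : ∃ o, o = P.ord (Om e x f C0 D) := ⟨_, rfl⟩
    rw [← hv, ← ho] at h1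
    have hN0 : (0 : ℝ) ≤ N := Nat.cast_nonneg _
    have hcr : (0 : ℝ) < c := by exact_mod_cast hc
    have hpH : P.ord H = -((N : ℤ) * ∑ j, nn j * P.ord (ev x (h j))) := by
      rw [hHd, ord_prod_zpow P _ _ hhx, Finset.mul_sum, ← Finset.sum_neg_distrib]
      exact Finset.sum_congr rfl fun j _ => by ring
    have hord : P.ord (ω l D) = (N : ℤ) * (u0 ⬝ᵥ v) + w' l ⬝ᵥ v + N * c * o -
        N * ∑ j, nn j * P.ord (ev x (h j)) := by
      rw [hωd, P.ord_mul (hpre l) (pow_ne_zero _ hO), P.ord_mul (mono_ne hx _) hH0,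
        ord_mono P hx, P.ord_pow, hpH, add_dotProduct, smul_dotProduct, smul_eq_mul,
        ← ho, ← hv]
      push_cast
      rw [hcn]
      ring
    have hnnr : ∀ j, (nn j : ℝ) = c * ((cw j : ℚ) : ℝ) := fun j => by exact_mod_cast hnn j
    have hs1 : ((∑ j, nn j * P.ord (ev x (h j)) : ℤ) : ℝ) =
        c * ∑ j, ((cw j : ℚ) : ℝ) * (P.ord (ev x (h j)) : ℝ) := by
      push_cast
      rw [Finset.mul_sum]
      exact Finset.sum_congr rfl fun j _ => by rw [hnnr]; ring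
    have hs2 : ((∑ j, nn j * mn v (h j) : ℤ) : ℝ) =
        c * ∑ j, ((cw j : ℚ) : ℝ) * (mn v (h j) : ℝ) := by
      push_cast
      rw [Finset.mul_sum]
      exact Finset.sum_congr rfl fun j _ => by rw [hnnr]; ring
    have hordr : ((P.ord (ω l D) : ℤ) : ℝ) = (N : ℝ) * ((u0 ⬝ᵥ v : ℤ) : ℝ) +
        ((w' l ⬝ᵥ v : ℤ) : ℝ) + N * c * o -
          N * (c * ∑ j, ((cw j : ℚ) : ℝ) * (P.ord (ev x (h j)) : ℝ)) := by
      rw [hord, ← hs1]
      push_cast
      ring
    have hcnr : ((cn : ℕ) : ℝ) = (c : ℝ) := by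
      rw [← hcn]
      push_cast
      rfl
    have h2 := mul_le_mul_of_nonneg_left h1 (mul_nonneg hN0 hcr.le)
    -- the combinatorial bound
    have h3 : (0 : ℝ) ≤ (N : ℝ) * ((u0 ⬝ᵥ v : ℤ) : ℝ) + ((w' l ⬝ᵥ v : ℤ) : ℝ) -
        N * (c * (if v = 0 then (0 : ℝ) else 1) + c * ((∑ l, mn v (f l) : ℤ) : ℝ) +
          ((∑ j, nn j * mn v (h j) : ℤ) : ℝ)) := by
      by_cases hv0 : v = 0
      · rw [if_pos hv0, hv0, dotProduct_zero, dotProduct_zero,
          Finset.sum_eq_zero fun l _ => mn_zero (hf0 l),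
          Finset.sum_eq_zero fun j _ => by rw [mn_zero (hh0 j), mul_zero]]
        simp
      · rw [if_neg hv0]
        have h5 : -(w' l ⬝ᵥ v) ≤ (N : ℤ) * (u0 ⬝ᵥ v - Ph c (fun _ => c) nn f h v) := by
          by_cases hVS : v ∈ S
          · rw [hw' l v hVS, neg_zero]
            have := hF v hv0
            exact mul_nonneg (Int.natCast_nonneg _) (by linarith)
          · have h6 := hgr v hv0 hVS
            have hG0 : (0 : ℚ) ≤ ((u0 ⬝ᵥ v - Ph c (fun _ => c) nn f h v : ℤ) : ℚ) := by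
              have : (0 : ℤ) ≤ u0 ⬝ᵥ v - Ph c (fun _ => c) nn f h v := by
                have := hF v hv0
                linarith
              exact_mod_cast this
            have h7 : -((w' l ⬝ᵥ v : ℤ) : ℚ) ≤
                (N : ℚ) * ((u0 ⬝ᵥ v - Ph c (fun _ => c) nn f h v : ℤ) : ℚ) := by
              have h8 : ((w' l ⬝ᵥ v : ℤ) : ℚ) = ∑ i, (w' l i : ℚ) * (v i : ℚ) := by
                unfold dotProduct
                push_cast
                rfl
              calc -((w' l ⬝ᵥ v : ℤ) : ℚ) ≤ |((w' l ⬝ᵥ v : ℤ) : ℚ)| := neg_le_abs _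
                _ = |∑ i, (w' l i : ℚ) * (v i : ℚ)| := by rw [h8]
                _ ≤ ∑ i, |(w' l i : ℚ) * (v i : ℚ)| := Finset.abs_sum_le_sum_abs _ _
                _ = ∑ i, |(w' l i : ℚ)| * |(v i : ℚ)| :=
                    Finset.sum_congr rfl fun i _ => abs_mul _ _
                _ ≤ ∑ i, |(w' l i : ℚ)| *
                    (A * ((u0 ⬝ᵥ v - Ph c (fun _ => c) nn f h v : ℤ) : ℚ)) :=
                    Finset.sum_le_sum fun i _ =>
                      mul_le_mul_of_nonneg_left (h6 i) (abs_nonneg _)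
                _ = ((∑ i, |(w' l i : ℚ)|) * A) *
                    ((u0 ⬝ᵥ v - Ph c (fun _ => c) nn f h v : ℤ) : ℚ) := by
                    rw [← Finset.sum_mul]
                    ring
                _ ≤ _ := mul_le_mul_of_nonneg_right (hwN l) hG0
            exact_mod_cast h7
        have h7 : Ph c (fun _ => c) nn f h v =
            c + c * ∑ l, mn v (f l) + ∑ j, nn j * mn v (h j) := rfl
        rw [h7] at h5
        have h8 : (-((w' l ⬝ᵥ v : ℤ) : ℝ)) ≤ (N : ℝ) * (((u0 ⬝ᵥ v : ℤ) : ℝ) -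
            (c + c * ((∑ l, mn v (f l) : ℤ) : ℝ) + ((∑ j, nn j * mn v (h j) : ℤ) : ℝ))) := by
          have := (Int.cast_le (R := ℝ)).2 h5
          push_cast at this ⊢
          exact this
        linarith
    rw [hs2] at h3
    rw [hordr]
    have h4 : ((N * cn : ℕ) : ℝ) * β P = (N : ℝ) * c * β P := by
      push_cast
      rw [hcnr]
    rw [h4]
    nlinarith
  · intro l
    rw [hωd]
    exact mul_ne_zero (hpre l) (pow_ne_zero _ hOm0)
  · have h1 : (fun l : Fin d => ω l.succ D0 / ω 0 D0) = fun j => mono x (w j) := by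
      funext j
      rw [hωd, hωd]
      have h2 : w' j.succ = w j := Fin.cons_succ _ _ _
      have h3 : w' 0 = 0 := Fin.cons_zero _ _
      rw [h2, h3, add_zero, mono_add hx, mul_div_mul_right _ _ (pow_ne_zero _ hOm0),
        mul_div_mul_right _ _ hH0, mul_div_cancel_left₀ _ (mono_ne hx _)]
    rw [h1]
    exact hind

end

end Pool.Agent.R885.N
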