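import Pool.Agent.R885.Q1

/-!
The bounds for nondegenerate pairs.
-/

set_option autoImplicit false
set_option linter.overlappingInstances false
set_option linter.unusedSectionVars false

open FF Pool.Agent.W603.LV Pool.Agent.W619.PQ Pool.Agent.Y173.QA Pool.Agent.W619.TW
  Pool.Agent.W619.Y Pool.Agent.Y174

namespace Pool.Agent.R885.N

section

variable {k K : Type} [Field k] [Field K] [Algebra k K] {r n : ℕ} {x : Fin r → K}
  {J J' : Type} [Fintype J] [DecidableEq J] [Fintype J']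

/-- The upper bounds for `β`. -/
def SUp (e : J ⊕ Fin n ≃ Fin r) (x : Fin r → K) (f : J → (Fin r → ℤ) →₀ k)
    (C0 : Fin n → Fin r → ℤ) (h : J' → (Fin r → ℤ) →₀ k) (cw : J' → ℚ) (β : Place k K → ℝ) : Prop :=
  ∀ P : Place k K, IsDivisorial P n →
    (vec P x = 0 → β P ≤ ∑ j, ((cw j : ℚ) : ℝ) * (P.ord (ev x (h j)) : ℝ)) ∧
    (vec P x ≠ 0 → β P ≤ 0 ∧ ∀ D : Fin n → Derivation k K K, (∀ a, Pres P (D a)) →
      Om e x f C0 D ≠ 0 → P.ord (Om e x f C0 D) = -1 - ∑ l, mn (vec P x) (f l) →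
      ∑ j, ((cw j : ℚ) : ℝ) * (P.ord (ev x (h j)) : ℝ) ≤
        ∑ j, ((cw j : ℚ) : ℝ) * (mn (vec P x) (h j) : ℝ))

variable [CharZero k]

theorem van_iff {P : Place k K} {h : J' → (Fin r → ℤ) →₀ k} (hh0 : ∀ j, h j ≠ 0)
    (hhx : ∀ j, ev x (h j) ≠ 0) (hv : vec P x = 0) (j : J') :
    Van P x (h j) ↔ 0 < P.ord (ev x (h j)) := by
  unfold Van
  rw [hv, mn_zero (hh0 j), zero_add]
  constructor
  · intro h1
    have := h1.resolve_left (hhx j)
    omega
  · intro h1
    exact Or.inr (by omega)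

/-- **The bounds for nondegenerate pairs.** -/
theorem base_low (hx : ∀ i, x i ≠ 0) {e : J ⊕ Fin n ≃ Fin r} {f : J → (Fin r → ℤ) →₀ k}
    (hf0 : ∀ l, f l ≠ 0) (hf : ∀ l, ev x (f l) = 0) {C0 : Fin n → Fin r → ℤ}
    (hC0 : dt e (fun l => gr x (f l)) C0 ≠ 0)
    {h : J' → (Fin r → ℤ) →₀ k} (hh0 : ∀ j, h j ≠ 0) (hhx : ∀ j, ev x (h j) ≠ 0)
    (hnd : ∀ P : Place k K, NDP P x f)
    (hndh : ∀ (P : Place k K) (V : Finset J'), NDP P x (Sum.elim f fun j : V => h j))
    {cw : J' → ℚ} (hc1 : ∀ j, cw j ≤ 1) :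
    SLow e x f C0 h cw fun P => ((bdry (fun _ => 1) cw x h P : ℚ) : ℝ) := by
  classical
  intro P hPd D hD hO
  obtain ⟨V, hVd⟩ : ∃ V : Finset J', V = Finset.univ.filter fun j => Van P x (h j) := ⟨_, rfl⟩
  have hVmem : ∀ j, j ∈ V ↔ Van P x (h j) := fun j => by
    rw [hVd, Finset.mem_filter]
    simp
  have h1 := om_geW P (e := e) hx hf0 hf (V := V) (h := fun j : V => h j) (fun j => hh0 j)
    (fun j => hhx j) (fun j => (hVmem j).1 j.2) (hndh P V) hC0 hD
  have h2 := (om_ge P hx hf0 hf (hnd P) hC0 hD).2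
  have h1' := h1.resolve_left hO
  rw [Finset.sum_coe_sort V (fun j => P.ord (ev x (h j)) - mn (vec P x) (h j))] at h1'
  obtain ⟨v, hv⟩ : ∃ v, v = vec P x := ⟨_, rfl⟩
  obtain ⟨o, ho⟩ : ∃ o, o = P.ord (Om e x f C0 D) := ⟨_, rfl⟩
  rw [← hv, ← ho] at h1' ⊢
  have hVge : ∀ j ∈ V, 1 ≤ P.ord (ev x (h j)) - mn v (h j) := by
    intro j hj
    have h3 := ((hVmem j).1 hj).resolve_left (hhx j)
    rw [← hv] at h3
    omega
  have hsplit : ∑ j, cw j * (P.ord (ev x (h j)) : ℚ) = (∑ j, cw j * (mn v (h j) : ℚ)) +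
      ∑ j ∈ V, cw j * ((P.ord (ev x (h j)) - mn v (h j) : ℤ) : ℚ) := by
    rw [hVd, Finset.sum_filter, ← Finset.sum_add_distrib]
    refine Finset.sum_congr rfl fun j _ => ?_
    split_ifs with hj
    · push_cast
      ring
    · rw [ord_of_not_van P hx hj, hv]
      ring
  have hV1 : ∑ j ∈ V, cw j * ((P.ord (ev x (h j)) - mn v (h j) : ℤ) : ℚ) =
      ((∑ j ∈ V, (P.ord (ev x (h j)) - mn v (h j)) : ℤ) : ℚ) -
        ∑ j ∈ V, (1 - cw j) * ((P.ord (ev x (h j)) - mn v (h j) : ℤ) : ℚ) := by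
    rw [Int.cast_sum, ← Finset.sum_sub_distrib]
    exact Finset.sum_congr rfl fun j _ => by ring
  have hV2 : ∑ j ∈ V, (1 - cw j) ≤
      ∑ j ∈ V, (1 - cw j) * ((P.ord (ev x (h j)) - mn v (h j) : ℤ) : ℚ) := by
    refine Finset.sum_le_sum fun j hj => ?_
    have h3 : (1 : ℚ) ≤ ((P.ord (ev x (h j)) - mn v (h j) : ℤ) : ℚ) := by
      exact_mod_cast hVge j hj
    have h4 := hc1 j
    nlinarith
  have hV3 : 0 ≤ ∑ j ∈ V, (1 - cw j) := Finset.sum_nonneg fun j _ => by
    have := hc1 j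
    linarith
  have key : -(if v = 0 then (0 : ℚ) else 1) - ((∑ l, mn v (f l) : ℤ) : ℚ) -
      ∑ j, cw j * (mn v (h j) : ℚ) ≤
      (o : ℚ) - ∑ j, cw j * (P.ord (ev x (h j)) : ℚ) + bdry (fun _ => 1) cw x h P := by
    rw [hsplit, hV1]
    have h3 : ((-1 - ∑ l, mn v (f l) + ∑ j ∈ V, (P.ord (ev x (h j)) - mn v (h j)) : ℤ) : ℚ) ≤ o := by
      exact_mod_cast h1'
    push_cast at h3 ⊢
    by_cases hv0 : v = 0
    · rw [if_pos hv0]
      have hvP : vec P x = 0 := by rw [← hv]; exact hv0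
      have hmn0 : ∀ l, mn v (f l) = 0 := fun l => by
        rw [hv0]
        exact mn_zero (hf0 l)
      simp only [hmn0, Int.cast_zero, Finset.sum_const_zero] at h3 ⊢
      by_cases hex : ∃ j, 0 < P.ord (ev x (h j))
      · have h4 := bdry_van (A := fun _ => 1) (cw := cw) hvP hex
        have h5 : Finset.univ.filter (fun j => 0 < P.ord (ev x (h j))) = V := by
          rw [hVd]
          exact (Finset.filter_congr fun j _ => van_iff hh0 hhx hvP j).symm
        rw [h5] at h4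
        have h6 : 1 - ∑ j ∈ V, (1 - cw j) ≤ bdry (fun _ => 1) cw x h P := by
          rw [h4]
          exact le_max_right _ _
        push_cast at hV2 h3
        linarith
      · push Not at hex
        have h4 := bdry_no (A := fun _ => 1) (cw := cw) hvP fun j => not_lt.2 (hex j)
        have hVe : V = ∅ := by
          rw [Finset.eq_empty_iff_forall_notMem]
          intro j hj
          have := (van_iff hh0 hhx hvP j).1 ((hVmem j).1 hj)
          have := hex j
          omega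
        have ho0 : (0 : ℚ) ≤ o := by
          rw [ho]
          exact_mod_cast (h2 hvP).resolve_left hO
        rw [h4, hVe]
        simp only [Finset.sum_empty]
        linarith
    · rw [if_neg hv0, bdry_ne (by rw [← hv]; exact hv0)]
      push_cast at hV2
      linarith
  have key' := (Rat.cast_le (K := ℝ)).2 key
  push_cast at key' ⊢
  have h7 : ((if v = 0 then (0 : ℚ) else 1 : ℚ) : ℝ) = if v = 0 then (0 : ℝ) else 1 := by
    split_ifs <;> norm_num
  rw [h7] at key'
  exact key'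

/-- **The upper bounds for nondegenerate pairs.** -/
theorem base_up (hx : ∀ i, x i ≠ 0) {e : J ⊕ Fin n ≃ Fin r} {f : J → (Fin r → ℤ) →₀ k}
    (hf0 : ∀ l, f l ≠ 0) (hf : ∀ l, ev x (f l) = 0) {C0 : Fin n → Fin r → ℤ}
    (hC0 : dt e (fun l => gr x (f l)) C0 ≠ 0)
    {h : J' → (Fin r → ℤ) →₀ k} (hh0 : ∀ j, h j ≠ 0) (hhx : ∀ j, ev x (h j) ≠ 0)
    (hndh : ∀ (P : Place k K) (V : Finset J'), NDP P x (Sum.elim f fun j : V => h j))
    {cw : J' → ℚ} (hc0 : ∀ j, 0 ≤ cw j) :
    SUp e x f C0 h cw fun P => ((bdry (fun _ => 1) cw x h P : ℚ) : ℝ) := by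
  classical
  intro P hPd
  refine ⟨fun hv => ?_, fun hv => ⟨?_, fun D hD hO ho => ?_⟩⟩
  · have hnn : ∀ j, 0 ≤ P.ord (ev x (h j)) := by
      intro j
      by_cases hj : Van P x (h j)
      · have := (van_iff hh0 hhx hv j).1 hj
        omega
      · rw [ord_of_not_van P hx hj, hv, mn_zero (hh0 j)]
    have hterm : ∀ j, 0 ≤ cw j * (P.ord (ev x (h j)) : ℚ) := fun j =>
      mul_nonneg (hc0 j) (by exact_mod_cast hnn j)
    have key : bdry (fun _ => 1) cw x h P ≤ ∑ j, cw j * (P.ord (ev x (h j)) : ℚ) := by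
      by_cases hex : ∃ j, 0 < P.ord (ev x (h j))
      · rw [bdry_van hv hex]
        refine max_le (Finset.sum_nonneg fun j _ => hterm j) ?_
        obtain ⟨j0, hj0⟩ := hex
        have h1 : ∑ j ∈ Finset.univ.filter (fun j => 0 < P.ord (ev x (h j))), cw j ≤
            ∑ j, cw j * (P.ord (ev x (h j)) : ℚ) := by
          refine le_trans (Finset.sum_le_sum fun j hj => ?_)
            (Finset.sum_le_sum_of_subset_of_nonneg (Finset.filter_subset _ _)
              fun j _ _ => hterm j)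
          have h2 : (1 : ℚ) ≤ (P.ord (ev x (h j)) : ℚ) := by
            have := (Finset.mem_filter.1 hj).2
            exact_mod_cast (by omega : (1 : ℤ) ≤ P.ord (ev x (h j)))
          have := hc0 j
          nlinarith
        have h2 : (1 : ℚ) ≤ ((Finset.univ.filter (fun j => 0 < P.ord (ev x (h j)))).card : ℚ) := by
          have : 1 ≤ (Finset.univ.filter (fun j => 0 < P.ord (ev x (h j)))).card :=
            Finset.card_pos.2 ⟨j0, Finset.mem_filter.2 ⟨Finset.mem_univ _, hj0⟩⟩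
          exact_mod_cast this
        rw [Finset.sum_sub_distrib, Finset.sum_const, nsmul_eq_mul, mul_one]
        linarith
      · push Not at hex
        rw [bdry_no hv fun j => not_lt.2 (hex j)]
        exact Finset.sum_nonneg fun j _ => hterm j
    have key' := (Rat.cast_le (K := ℝ)).2 key
    push_cast at key' ⊢
    exact key'
  · beta_reduce
    rw [bdry_ne hv, sub_self, Rat.cast_zero]
  · obtain ⟨V, hVd⟩ : ∃ V : Finset J', V = Finset.univ.filter fun j => Van P x (h j) := ⟨_, rfl⟩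
    have hVmem : ∀ j, j ∈ V ↔ Van P x (h j) := fun j => by
      rw [hVd, Finset.mem_filter]
      simp
    have h1 := om_geW P (e := e) hx hf0 hf (V := V) (h := fun j : V => h j) (fun j => hh0 j)
      (fun j => hhx j) (fun j => (hVmem j).1 j.2) (hndh P V) hC0 hD
    have h1' := h1.resolve_left hO
    rw [Finset.sum_coe_sort V (fun j => P.ord (ev x (h j)) - mn (vec P x) (h j)), ho] at h1'
    have hVge : ∀ j ∈ V, 1 ≤ P.ord (ev x (h j)) - mn (vec P x) (h j) := by
      intro j hj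
      have h3 := ((hVmem j).1 hj).resolve_left (hhx j)
      omega
    have h2 : (V.card : ℤ) ≤ ∑ j ∈ V, (P.ord (ev x (h j)) - mn (vec P x) (h j)) := by
      have := Finset.sum_le_sum hVge
      simpa using this
    have hV0 : V.card = 0 := by omega
    refine Finset.sum_le_sum fun j _ => ?_
    have hj : ¬ Van P x (h j) := by
      rw [← hVmem, Finset.card_eq_zero.1 hV0]
      exact Finset.notMem_empty j
    rw [ord_of_not_van P hx hj]

end

end Pool.Agent.R885.N
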