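import Pool.Agent.R885.Q2

/-!
The residue form under an elimination: the determinants.
-/

set_option autoImplicit false
set_option linter.overlappingInstances false
set_option linter.unusedSectionVars false

open FF Pool.Agent.W603.LV Pool.Agent.W619.PQ

namespace Pool.Agent.R885.N

/-- the Gram determinant -/
theorem gram_ne {r r' : ℕ} {W : Fin r' → Fin r → ℤ}
    (hinj : ∀ u : Fin r' → ℤ, ∑ j, u j • W j = 0 → u = 0) :
    (Matrix.of fun j j' => W j ⬝ᵥ W j' : Matrix (Fin r') (Fin r') ℤ).det ≠ 0 := by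
  intro h0
  obtain ⟨u, hu0, hu⟩ := Matrix.exists_mulVec_eq_zero_iff.2 h0
  apply hu0
  apply hinj
  have h1 : ∀ j, W j ⬝ᵥ (∑ j', u j' • W j') = 0 := by
    intro j
    have h2 := congrFun hu j
    change ∑ j', W j ⬝ᵥ W j' * u j' = 0 at h2
    rw [dotProduct_sum, ← h2]
    refine Finset.sum_congr rfl fun j' _ => ?_
    rw [dotProduct_smul, smul_eq_mul, mul_comm]
  have h2 : (∑ j', u j' • W j') ⬝ᵥ (∑ j', u j' • W j') = 0 := by
    conv_lhs => rw [sum_dotProduct]
    refine Finset.sum_eq_zero fun j _ => ?_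
    rw [smul_dotProduct, h1, smul_zero]
  exact dotProduct_self_eq_zero.1 h2

section

variable {K : Type} [Field K] [CharZero K] {r r' m q q' n : ℕ}

/-- the rows of the new system among the old rows -/
def emb (el : Fin q' ⊕ Fin m ≃ Fin q) : Fin q' ⊕ Fin n → Fin q ⊕ Fin n :=
  Sum.elim (fun l => Sum.inl (el (Sum.inl l))) Sum.inr

/-- the equivalence of the rows -/
def rowE (e' : Fin q' ⊕ Fin n ≃ Fin r') (el : Fin q' ⊕ Fin m ≃ Fin q) :
    Fin r' ⊕ Fin m ≃ Fin q ⊕ Fin n where
  toFun := Sum.elim (fun j => emb el (e'.symm j)) fun l => Sum.inl (el (Sum.inr l))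
  invFun := Sum.elim (fun l => Sum.elim (fun l' => Sum.inl (e' (Sum.inl l'))) Sum.inr (el.symm l))
    fun b => Sum.inl (e' (Sum.inr b))
  left_inv := by
    rintro (j | l)
    · obtain ⟨a, rfl⟩ := e'.surjective j
      rcases a with a | a
      · simp [emb]
      · simp [emb]
    · simp
  right_inv := by
    rintro (l | b)
    · obtain ⟨a, rfl⟩ := el.surjective l
      rcases a with a | a
      · simp [emb]
      · simp
    · simp [emb]

/-- **The block determinant.** -/
theorem det_elim (e : Fin q ⊕ Fin n ≃ Fin r) (e' : Fin q' ⊕ Fin n ≃ Fin r')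
    (el : Fin q' ⊕ Fin m ≃ Fin q) {R : Fin q ⊕ Fin n → Fin r → K}
    {R' : Fin q' ⊕ Fin n → Fin r' → K} {W : Fin r' → Fin r → ℤ} {s : Fin m → Fin r → ℤ}
    {μ : Fin q' ⊕ Fin n → K} {G : Matrix (Fin m) (Fin m) K}
    (h1 : ∀ a i, R (emb el a) i = μ a * ∑ j, R' a j * (W j i : K))
    (hWs : ∀ j i, W j ⬝ᵥ s i = 0)
    (h2 : ∀ l i, ∑ k, R (Sum.inl (el (Sum.inr l))) k * (s i k : K) = G l i)
    (hinj : ∀ u : Fin r' → ℤ, ∑ j, u j • W j = 0 → u = 0) :
    ∃ τ κ : ℤ, κ ≠ 0 ∧ Matrix.det (Matrix.of fun a b => R a (e b)) * (τ : K) =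
      (κ : K) * ((∏ a, μ a) * Matrix.det (Matrix.of fun a b => R' a (e' b)) * G.det) := by
  classical
  let T : Matrix (Fin r) (Fin r' ⊕ Fin m) ℤ := Matrix.of fun i b => Sum.elim (fun j => W j i)
    (fun i' => s i' i) b
  let TK : Matrix (Fin r) (Fin r' ⊕ Fin m) K := T.map (Int.cast : ℤ → K)
  let RM : Matrix (Fin q ⊕ Fin n) (Fin r) K := Matrix.of R
  let RM' : Matrix (Fin q' ⊕ Fin n) (Fin r') K := Matrix.of R'
  let ε := rowE (n := n) e' el
  let η : Fin r' ⊕ Fin m ≃ Fin r := ε.trans e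
  let Gr : Matrix (Fin r') (Fin r') ℤ := Matrix.of fun j j' => W j ⬝ᵥ W j'
  have hGr : Gr.det ≠ 0 := gram_ne hinj
  refine ⟨(T.submatrix η id).det, Gr.det, hGr, ?_⟩
  have hM : (RM * TK).submatrix ε id = (RM.submatrix ε η) * (TK.submatrix η id) :=
    (Matrix.submatrix_mul_equiv RM TK ε η id).symm
  have hdR : (RM.submatrix ε η).det = Matrix.det (Matrix.of fun a b => R a (e b)) := by
    have h3 : RM.submatrix ε η = (Matrix.of fun a b => R a (e b)).submatrix ε ε := by
      ext a b
      rfl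
    rw [h3, Matrix.det_submatrix_equiv_self]
  have hdT : (TK.submatrix η id).det = (((T.submatrix η id).det : ℤ) : K) := by
    have h3 : TK.submatrix η id = (T.submatrix η id).map (Int.cast : ℤ → K) := by
      ext a b
      rfl
    rw [h3]
    exact (Int.cast_det _).symm
  -- the blocks
  have hblock : (RM * TK).submatrix ε id = Matrix.fromBlocks
      (Matrix.of fun j j' => μ (e'.symm j) * ∑ i, R' (e'.symm j) i * ((W i ⬝ᵥ W j' : ℤ) : K)) 0
      (Matrix.of fun l j' => ∑ k, R (Sum.inl (el (Sum.inr l))) k * (W j' k : K)) G := by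
    ext a b
    rw [Matrix.submatrix_apply, Matrix.mul_apply]
    have hkey : ∀ (a : Fin q' ⊕ Fin n) (t : Fin r → ℤ), ∑ k, R (emb el a) k * (t k : K) =
        μ a * ∑ i, R' a i * ((W i ⬝ᵥ t : ℤ) : K) := by
      intro a t
      simp only [h1]
      rw [Finset.mul_sum]
      have h3 : ∀ i, μ a * (R' a i * ((W i ⬝ᵥ t : ℤ) : K)) =
          ∑ k, μ a * (R' a i * (W i k : K)) * (t k : K) := by
        intro i
        rw [← dot_intCast, Finset.mul_sum, Finset.mul_sum]
        exact Finset.sum_congr rfl fun k _ => by ring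
      rw [Finset.sum_congr rfl fun i _ => h3 i, Finset.sum_comm]
      refine Finset.sum_congr rfl fun k _ => ?_
      rw [Finset.mul_sum, Finset.sum_mul]
    rcases a with j | l
    · rcases b with j' | i'
      · rw [Matrix.fromBlocks_apply₁₁, Matrix.of_apply]
        exact hkey _ (W j')
      · rw [Matrix.fromBlocks_apply₁₂, Matrix.zero_apply]
        refine (hkey _ (s i')).trans ?_
        rw [Finset.sum_eq_zero fun i _ => by rw [hWs, Int.cast_zero, mul_zero], mul_zero]
    · rcases b with j' | i'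
      · rw [Matrix.fromBlocks_apply₂₁, Matrix.of_apply]
        rfl
      · rw [Matrix.fromBlocks_apply₂₂]
        exact h2 l i'
  have hA : (Matrix.of fun j j' => μ (e'.symm j) *
      ∑ i, R' (e'.symm j) i * ((W i ⬝ᵥ W j' : ℤ) : K)).det =
      (∏ a, μ a) * Matrix.det (Matrix.of fun a b => R' a (e' b)) * ((Gr.det : ℤ) : K) := by
    have h3 : (Matrix.of fun j j' => μ (e'.symm j) *
        ∑ i, R' (e'.symm j) i * ((W i ⬝ᵥ W j' : ℤ) : K)) =
        Matrix.of fun j j' => μ (e'.symm j) *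
          ((RM'.submatrix e'.symm id) * (Gr.map (Int.cast : ℤ → K))) j j' := by
      ext j j'
      rw [Matrix.of_apply, Matrix.of_apply, Matrix.mul_apply]
      rfl
    rw [h3, Matrix.det_mul_column, Matrix.det_mul, e'.symm.prod_comp μ]
    have h4 : (RM'.submatrix e'.symm id).det = Matrix.det (Matrix.of fun a b => R' a (e' b)) := by
      have h5 : RM'.submatrix e'.symm id =
          (Matrix.of fun a b => R' a (e' b)).submatrix e'.symm e'.symm := by
        ext a b
        rw [Matrix.submatrix_apply, Matrix.submatrix_apply, Matrix.of_apply, e'.apply_symm_apply]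
        rfl
      rw [h5, Matrix.det_submatrix_equiv_self]
    have h5 : (Gr.map (Int.cast : ℤ → K)).det = ((Gr.det : ℤ) : K) := (Int.cast_det _).symm
    rw [h4, h5]
    ring
  have h6 := congrArg Matrix.det hM
  rw [hblock, Matrix.det_fromBlocks_zero₁₂, hA, Matrix.det_mul, hdR, hdT] at h6
  rw [← h6]
  ring

end

end Pool.Agent.R885.N
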