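import Pool.Agent.R885.QD

/-!
The minors of an exceptional system and their orders.
-/

set_option autoImplicit false
set_option linter.overlappingInstances false
set_option linter.unusedSectionVars false

open FF Pool.Agent.W603.LV Pool.Agent.W619.PQ

namespace Pool.Agent.R885.N

/-! ## Q4: the determinant of an exceptional system. -/

section

variable {k K : Type} [Field k] [Field K] [Algebra k K] {r m : ℕ} {x : Fin r → K}
  {J : Type} [Fintype J] {f : J → (Fin r → ℤ) →₀ k} {s : Fin (m + 1) → Fin r → ℤ}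

/-- the minors -/
noncomputable def MQ (x : Fin r → K) (f : J → (Fin r → ℤ) →₀ k) (s : Fin (m + 1) → Fin r → ℤ)
    (ε : Fin m ≃ JC f s) (a : Fin (m + 1)) : Matrix (Fin m) (Fin m) K :=
  Matrix.of fun l j => Gp x s (f (ε l)) (a.succAbove j)

theorem MQ_apply (ε : Fin m ≃ JC f s) (a : Fin (m + 1)) (l j : Fin m) :
    MQ x f s ε a l j = Gp x s (f (ε l)) (a.succAbove j) := rfl

/-- the minors do not vanish -/
theorem Exc.det_MQ_ne (h : Exc x f s) (ε : Fin m ≃ JC f s) (a : Fin (m + 1)) :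
    (MQ x f s ε a).det ≠ 0 := by
  intro h0
  obtain ⟨v, hv0, hv⟩ := Matrix.exists_mulVec_eq_zero_iff.2 h0
  apply hv0
  have h1 := h.ker' (c := a.insertNth 0 v) (fun l hl => by
    rw [Fin.sum_univ_succAbove _ a, Fin.insertNth_apply_same, mul_zero, zero_add]
    have h2 := congrFun hv (ε.symm ⟨l, hl⟩)
    change ∑ j, Gp x s (f (ε (ε.symm ⟨l, hl⟩))) (a.succAbove j) * v j = 0 at h2
    rw [ε.apply_symm_apply] at h2
    simp only [Fin.insertNth_apply_succAbove]
    exact h2)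
  funext j
  have h2 := h1 (a.succAbove j)
  rw [Fin.insertNth_apply_succAbove, ← h1 a, Fin.insertNth_apply_same] at h2
  exact h2

/-- up to the sign the minors are equal -/
theorem Exc.det_MQ_eq (h : Exc x f s) (ε : Fin m ≃ JC f s) (a : Fin (m + 1)) :
    (-1) ^ (a : ℕ) * (MQ x f s ε a).det = (MQ x f s ε 0).det := by
  have h1 := h.ker' (c := fun a : Fin (m + 1) => (-1) ^ (a : ℕ) * (MQ x f s ε a).det)
    (fun l hl => by
      obtain ⟨l', rfl⟩ : ∃ l', (ε l' : J) = l := ⟨ε.symm ⟨l, hl⟩, by rw [ε.apply_symm_apply]⟩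
      let B : Matrix (Fin (m + 1)) (Fin (m + 1)) K :=
        Matrix.of (Fin.cons (fun a => Gp x s (f (ε l')) a) fun l a => Gp x s (f (ε l)) a)
      have hB : B.det = 0 := by
        refine Matrix.det_zero_of_row_eq (i := 0) (j := l'.succ) (Fin.succ_ne_zero l').symm ?_
        rfl
      rw [Matrix.det_succ_row_zero] at hB
      rw [← hB]
      refine Finset.sum_congr rfl fun a _ => ?_
      have h2 : B 0 a = Gp x s (f (ε l')) a := rfl
      have h3 : B.submatrix Fin.succ a.succAbove = MQ x f s ε a := rfl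
      rw [h2, h3]
      ring) a
  beta_reduce at h1
  rw [h1, Fin.val_zero, pow_zero, one_mul]

theorem Exc.ord_MQ (h : Exc x f s) (ε : Fin m ≃ JC f s) (P : Place k K) (a : Fin (m + 1)) :
    P.ord (MQ x f s ε 0).det = P.ord (MQ x f s ε a).det := by
  rw [← h.det_MQ_eq ε a]
  rcases neg_one_pow_eq_or K (a : ℕ) with h1 | h1
  · rw [h1, one_mul]
  · rw [h1, neg_one_mul, P.ord_neg]

/-- every exponent of the type `a` gives the same order -/
theorem ge_GpQ (hx : ∀ i, x i ≠ 0) (P : Place k K) (g : (Fin r → ℤ) →₀ k) (a : Fin (m + 1))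
    {N : ℤ}
    (hN : ∀ m' ∈ g.support, m' ⬝ᵥ s a = mn (s a) g + 1 → N ≤ m' ⬝ᵥ vec P x) :
    Ge P N (Gp x s g a) := by
  classical
  unfold Gp
  refine Ge.sum _ _ fun m' hm' => ?_
  rw [Finset.mem_filter] at hm'
  have h1 : Ge P (0 + m' ⬝ᵥ vec P x) (algebraMap k K (g m') * mono x m') :=
    (Ge.const (P := P) (g m')).mul (Or.inr (by rw [ord_mono P hx]))
  rw [zero_add] at h1
  exact h1.mono (hN m' hm'.1 hm'.2)

/-- exponents of a non vanishing Leibniz term -/
theorem Exc.exps (h : Exc x f s) (ε : Fin m ≃ JC f s) (a : Fin (m + 1)) (σ : Equiv.Perm (Fin m))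
    (hσ : ∏ j, MQ x f s ε a (σ j) j ≠ 0) : ∃ w : Fin m → Fin r → ℤ,
      (∀ j, w j ∈ (f (ε (σ j))).support) ∧
      (∀ j i, w j ⬝ᵥ s i = mn (s i) (f (ε (σ j))) + if i = a.succAbove j then 1 else 0) ∧
      ∀ i, (∑ j, w j) ⬝ᵥ s i = (∑ l, mn (s i) (f (ε l))) + (1 - if i = a then 1 else 0) := by
  classical
  have h2 : ∀ j, ∃ m' ∈ (f (ε (σ j))).support,
      m' ⬝ᵥ s (a.succAbove j) = mn (s (a.succAbove j)) (f (ε (σ j))) + 1 := by
    intro j
    have h3 : Gp x s (f (ε (σ j))) (a.succAbove j) ≠ 0 :=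
      Finset.prod_ne_zero_iff.1 hσ j (Finset.mem_univ j)
    obtain ⟨m', hm', -⟩ := Finset.exists_ne_zero_of_sum_ne_zero h3
    rw [Finset.mem_filter] at hm'
    exact ⟨m', hm'.1, hm'.2⟩
  choose w hw hw' using h2
  have h3 : ∀ j i, w j ⬝ᵥ s i = mn (s i) (f (ε (σ j))) + if i = a.succAbove j then 1 else 0 :=
    fun j i => type_eq h.hs (h.mn_eq _ (ε (σ j)).2) (hw j) (hw' j) i
  refine ⟨w, hw, h3, fun i => ?_⟩
  rw [sum_dotProduct, Finset.sum_congr rfl fun j _ => h3 j i, Finset.sum_add_distrib]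
  congr 1
  · exact Equiv.sum_comp σ fun j => mn (s i) (f (ε j))
  · have h4 : ∑ b : Fin (m + 1), (if i = b then (1 : ℤ) else 0) = 1 := by
      rw [Finset.sum_ite_eq Finset.univ i, if_pos (Finset.mem_univ i)]
    rw [Fin.sum_univ_succAbove _ a] at h4
    omega

/-- a Leibniz term which is not zero -/
theorem Exc.exists_perm (h : Exc x f s) (ε : Fin m ≃ JC f s) (a : Fin (m + 1)) :
    ∃ σ : Equiv.Perm (Fin m), ∏ j, MQ x f s ε a (σ j) j ≠ 0 := by
  have hM := h.det_MQ_ne ε a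
  rw [Matrix.det_apply] at hM
  obtain ⟨σ, -, hσ⟩ := Finset.exists_ne_zero_of_sum_ne_zero hM
  refine ⟨σ, fun h1 => ?_⟩
  rw [h1, smul_zero] at hσ
  exact hσ rfl

/-- order of a determinant -/
theorem ge_detQ (P : Place k K) (M : Matrix (Fin m) (Fin m) K) {N : ℤ}
    (h : ∀ σ : Equiv.Perm (Fin m), ∏ j, M (σ j) j ≠ 0 → Ge P N (∏ j, M (σ j) j)) :
    Ge P N M.det := by
  rw [Matrix.det_apply]
  refine Ge.sum _ _ fun σ _ => ?_
  by_cases h1 : ∏ j, M (σ j) j = 0
  · rw [h1, smul_zero]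
    exact Ge.zero
  · have h2 := h σ h1
    rcases Int.units_eq_one_or (Equiv.Perm.sign σ) with h3 | h3
    · rw [h3, one_smul]
      exact h2
    · rw [h3, Units.neg_smul, one_smul]
      exact h2.neg

theorem Exc.det_ord (h : Exc x f s) (ε : Fin m ≃ JC f s) :
    (Matrix.of fun (l : Fin m) (i : Fin m) => Gp x s (f (ε l)) i.succ).det ≠ 0 ∧
    ∀ P : Place k K,
      ∑ l, mn (vec P x) (f (ε l)) ≤
        P.ord (Matrix.of fun (l : Fin m) (i : Fin m) => Gp x s (f (ε l)) i.succ).det ∧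
      (vec P x ≠ 0 → (∀ w : Fin r → ℤ, (∀ i, w ⬝ᵥ s i = 0) → w ⬝ᵥ vec P x = 0) →
        1 + ∑ l, mn (vec P x) (f (ε l)) ≤
          P.ord (Matrix.of fun (l : Fin m) (i : Fin m) => Gp x s (f (ε l)) i.succ).det) := by
  classical
  have e0 : (Matrix.of fun (l : Fin m) (i : Fin m) => Gp x s (f (ε l)) i.succ) =
      MQ x f s ε 0 := by
    ext l j
    rw [MQ_apply, Fin.zero_succAbove]
    rfl
  rw [e0]
  refine ⟨h.det_MQ_ne ε 0, fun P => ⟨?_, fun hv0 hv => ?_⟩⟩
  · refine (ge_detQ P _ fun σ _ => ?_).resolve_left (h.det_MQ_ne ε 0)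
    have h1 := Ge.prod (P := P) Finset.univ (fun j => MQ x f s ε 0 (σ j) j)
      (fun j => mn (vec P x) (f (ε (σ j)))) (fun j _ => by
        rw [MQ_apply]
        exact ge_GpQ h.hx P _ _ fun m' hm' _ => mn_le hm')
    rw [Equiv.sum_comp σ fun j => mn (vec P x) (f (ε j))] at h1
    exact h1
  -- the second bound
  have hσ : ∀ a, ∃ σ : Equiv.Perm (Fin m), ∏ j, MQ x f s ε a (σ j) j ≠ 0 := h.exists_perm ε
  choose σ hσ using hσ
  have hw := fun a => h.exps ε a (σ a) (hσ a)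
  choose w hw1 hw2 hw3 using hw
  have hS : ∀ a, ∑ l, mn (vec P x) (f (ε l)) ≤ (∑ j, w a j) ⬝ᵥ vec P x := by
    intro a
    rw [sum_dotProduct, ← Equiv.sum_comp (σ a) fun j => mn (vec P x) (f (ε j))]
    exact Finset.sum_le_sum fun j _ => mn_le (hw1 a j)
  have hdiff : ∀ w w' : Fin r → ℤ, (∀ i, w ⬝ᵥ s i = w' ⬝ᵥ s i) →
      w ⬝ᵥ vec P x = w' ⬝ᵥ vec P x := by
    intro w w' hww
    have h1 := hv (w - w') fun i => by rw [sub_dotProduct, hww, sub_self]
    rw [sub_dotProduct] at h1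
    omega
  have hord : ∀ a, (∑ j, w a j) ⬝ᵥ vec P x ≤ P.ord (MQ x f s ε 0).det := by
    intro a
    rw [h.ord_MQ ε P a]
    refine (ge_detQ P _ fun τ hτ => ?_).resolve_left (h.det_MQ_ne ε a)
    obtain ⟨u, hu1, hu2, hu3⟩ := h.exps ε a τ hτ
    have h1 := Ge.prod (P := P) Finset.univ (fun j => MQ x f s ε a (τ j) j)
      (fun j => u j ⬝ᵥ vec P x) (fun j _ => by
        rw [MQ_apply]
        refine ge_GpQ h.hx P _ _ fun m' hm' hm'' => ?_
        refine (hdiff _ _ fun i => ?_).le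
        rw [hu2 j i, type_eq h.hs (h.mn_eq _ (ε (τ j)).2) hm' hm'' i])
    rw [← sum_dotProduct] at h1
    rw [hdiff (∑ j, w a j) (∑ j, u j) fun i => by rw [hw3, hu3]]
    exact h1
  by_contra hcon
  push Not at hcon
  have hall : ∀ a, (∑ j, w a j) ⬝ᵥ vec P x = ∑ l, mn (vec P x) (f (ε l)) := by
    intro a
    have h1 := hS a
    have h2 := hord a
    omega
  apply hv0
  have hzero : ∀ w' : Fin r → ℤ, w' ⬝ᵥ vec P x = 0 := by
    intro w'
    have h1 := hv (w' - ∑ a, (w' ⬝ᵥ s a) • ((∑ j, w 0 j) - ∑ j, w a j)) (fun i => by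
      rw [sub_dotProduct, sum_dotProduct]
      have h2 : ∀ a, ((w' ⬝ᵥ s a) • ((∑ j, w 0 j) - ∑ j, w a j)) ⬝ᵥ s i =
          (if i = a then w' ⬝ᵥ s a else 0) - (w' ⬝ᵥ s a) * if i = 0 then 1 else 0 := by
        intro a
        rw [smul_dotProduct, sub_dotProduct, hw3, hw3, smul_eq_mul]
        split_ifs <;> ring
      rw [Finset.sum_congr rfl fun a _ => h2 a, Finset.sum_sub_distrib,
        Finset.sum_ite_eq Finset.univ i, if_pos (Finset.mem_univ i), ← Finset.sum_mul,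
        ← dotProduct_sum, h.hs, dotProduct_zero]
      ring)
    rw [sub_dotProduct, sum_dotProduct, Finset.sum_eq_zero, sub_zero] at h1
    · exact h1
    · intro a _
      rw [smul_dotProduct, sub_dotProduct, hall, hall, sub_self, smul_zero]
  funext i
  have h1 := hzero (Pi.single i 1)
  rw [single_dotProduct, one_mul] at h1
  exact h1

end

end Pool.Agent.R885.N
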