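import Pool.Agent.R885.Q4

/-!
Elimination for pairs with reduced boundary.
-/

set_option autoImplicit false
set_option linter.overlappingInstances false
set_option linter.unusedSectionVars false

open FF Pool.Agent.W603.LV Pool.Agent.W619.PQ

namespace Pool.Agent.R885.N

section

variable {ι ι' : Type} [Fintype ι] [Fintype ι'] {k K : Type} [Field k] [Field K] [Algebra k K]

/-- **Hereditary nondegeneracy of the system in the monomials**, where only the polynomials which
do not occur in the new system have to vanish. -/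
theorem hn_push' {J J1 : Type} {x : ι → K} (hx : ∀ i, x i ≠ 0)
    {f : J → (ι → ℤ) →₀ k} {g : J1 → (ι' → ℤ) →₀ k} {e : J1 → J}
    (hf : ∀ l, l ∉ Set.range e → ev x (f l) = 0)
    (he : Function.Injective e) {m0 : J1 → ι → ℤ} {W : ι' → ι → ℤ}
    (hinj : ∀ l, Function.Injective (aff (m0 l) W)) (hfg : ∀ l, f (e l) = push (m0 l) W (g l))
    (h : HN x f) : HN (fun j => mono x (W j)) g where
  gen F _ _ φ hev := by
    have hφx : ∀ i, φ (x i) ≠ 0 := fun i h0 => hx i ((map_eq_zero φ).1 h0)
    have hz : (fun j => φ (mono x (W j))) = fun j => mono (fun i => φ (x i)) (W j) := by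
      funext j
      exact map_mono (φ : K →+* F) x (W j)
    rw [hz] at hev ⊢
    simp only [ini_zero'] at hev ⊢
    refine li_push hφx he hfg hev ?_
    have h1 := h.gen F φ fun l => by
      rw [ini_zero']
      by_cases hl : l ∈ Set.range e
      · obtain ⟨l', rfl⟩ := hl
        rw [hfg, ev_push hφx, hev l', mul_zero]
      · have h2 := hf l hl
        have h3 : φ (ev x (f l)) = ev (fun i => φ (x i)) (f l) := by
          unfold ev Finsupp.sum
          rw [map_sum]
          refine Finset.sum_congr rfl fun m _ => ?_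
          rw [map_mul, AlgHom.commutes]
          congr 1
          exact map_mono (φ : K →+* F) x m
        rw [← h3, h2, map_zero]
    simp only [ini_zero'] at h1
    exact h1
  place Λ F _ _ _ _ _ _ φ P := by
    intro hev
    have hφx : ∀ i, φ (x i) ≠ 0 := fun i h0 => hx i ((map_eq_zero φ).1 h0)
    have hz : (fun j => φ (mono x (W j))) = fun j => mono (fun i => φ (x i)) (W j) := by
      funext j
      exact map_mono (φ : K →+* F) x (W j)
    rw [hz, pt_mono P hφx, vec_mono P hφx] at hev ⊢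
    refine li_push (f := fun l => ini (vec P fun i => φ (x i))
      ((f l).mapRange (algebraMap k Λ) (map_zero _))) (pt_ne P hφx) he (m0 := m0) (fun l => ?_)
      hev ?_
    · beta_reduce
      rw [hfg, push_mapRange, ini_push (hinj l)]
    · refine h.place Λ F φ P fun l => ?_
      by_cases hl : l ∈ Set.range e
      · obtain ⟨l', rfl⟩ := hl
        have h5 := hev l'
        beta_reduce at h5 ⊢
        rw [hfg, push_mapRange, ini_push (hinj l'), ev_push (pt_ne P hφx), h5, mul_zero]
      · refine ev_pt P hφx ?_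
        have h2 := hf l hl
        have h3 : φ (ev x (f l)) = ev (fun i => φ (x i))
            ((f l).mapRange (algebraMap k Λ) (map_zero _)) := by
          rw [ev_map]
          unfold ev Finsupp.sum
          rw [map_sum]
          refine Finset.sum_congr rfl fun m _ => ?_
          rw [map_mul, AlgHom.commutes]
          congr 1
          exact map_mono (φ : K →+* F) x m
        rw [← h3, h2, map_zero]

end

section

variable {k K : Type} [Field k] [Field K] [Algebra k K] {r m q p n : ℕ} {x : Fin r → K}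
  {f : Fin q → (Fin r → ℤ) →₀ k} {h : Fin p → (Fin r → ℤ) →₀ k} {s : Fin (m + 1) → Fin r → ℤ}

/-- The data of the elimination. -/
theorem Exc.data (hs : Exc x f s) (hf0 : ∀ l, f l ≠ 0) (hh0 : ∀ j, h j ≠ 0)
    (hh : ∀ j i, ∀ m' ∈ (h j).support, m' ⬝ᵥ s i = mn (s i) (h j))
    (hgen : IntermediateField.adjoin k (Set.range x) = ⊤) (hr : r = n + q) :
    ∃ (r' q' : ℕ) (W : Fin r' → Fin r → ℤ) (g : Fin q' → (Fin r' → ℤ) →₀ k)
      (h' : Fin p → (Fin r' → ℤ) →₀ k) (el : Fin q' ⊕ Fin m ≃ Fin q) (ε : Fin m ≃ JC f s)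
      (m0 : Fin q' → Fin r → ℤ) (m1 : Fin p → Fin r → ℤ), q' + m = q ∧ r' = n + q' ∧
      (∀ l, el (Sum.inr l) = ε l) ∧
      (∀ j i, W j ⬝ᵥ s i = 0) ∧
      (∀ w, (∀ i, w ⬝ᵥ s i = 0) → ∃ u : Fin r' → ℤ, ∑ j, u j • W j = w) ∧
      (∀ u : Fin r' → ℤ, ∑ j, u j • W j = 0 → u = 0) ∧
      (∀ m0, Function.Injective (aff m0 W)) ∧
      (∀ l, f (el (Sum.inl l)) = push (m0 l) W (g l)) ∧
      (∀ j, h j = push (m1 j) W (h' j)) ∧
      IntermediateField.adjoin k (Set.range fun j => mono x (W j)) = ⊤ := by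
  classical
  let L : (Fin r → ℤ) →ₗ[ℤ] (Fin m → ℤ) :=
    { toFun := fun w i => w ⬝ᵥ s i.succ
      map_add' := fun a b => by
        funext i
        exact add_dotProduct _ _ _
      map_smul' := fun c a => by
        funext i
        exact smul_dotProduct _ _ _ }
  obtain ⟨b, hb⟩ := hs.dual
  have hsurj : Function.Surjective L := by
    intro c
    refine ⟨∑ i, c i • b i.succ, ?_⟩
    funext j
    change (∑ i, c i • b i.succ) ⬝ᵥ s j.succ = c j
    rw [sum_dotProduct]
    have h1 : ∀ i, (c i • b i.succ) ⬝ᵥ s j.succ = if j = i then c i else 0 := by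
      intro i
      rw [smul_dotProduct, hb, if_neg (Fin.succ_ne_zero j), sub_zero, smul_eq_mul, mul_ite, mul_one,
        mul_zero]
      simp only [Fin.succ_inj]
    rw [Finset.sum_congr rfl fun i _ => h1 i, Finset.sum_ite_eq Finset.univ j,
      if_pos (Finset.mem_univ j)]
  have hker : ∀ w, w ∈ LinearMap.ker L ↔ ∀ i, w ⬝ᵥ s i = 0 := by
    intro w
    rw [LinearMap.mem_ker]
    constructor
    · intro h1
      have h2 : ∀ i : Fin m, w ⬝ᵥ s i.succ = 0 := fun i => congrFun h1 i
      intro i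
      refine Fin.cases ?_ h2 i
      have h3 : w ⬝ᵥ ∑ i, s i = 0 := by rw [hs.hs, dotProduct_zero]
      rw [dotProduct_sum, Fin.sum_univ_succ, Finset.sum_eq_zero fun i _ => h2 i, add_zero] at h3
      exact h3
    · intro h1
      funext i
      exact h1 i.succ
  have hrank : Module.finrank ℤ (LinearMap.ker L) + m = r := by
    have h1 := Submodule.finrank_quotient_add_finrank (LinearMap.ker L)
    rw [(L.quotKerEquivOfSurjective hsurj).finrank_eq, Module.finrank_fintype_fun_eq_card,
      Module.finrank_fintype_fun_eq_card, Fintype.card_fin, Fintype.card_fin] at h1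
    omega
  obtain ⟨r', hr'⟩ : ∃ r', r' = Module.finrank ℤ (LinearMap.ker L) := ⟨_, rfl⟩
  let bas : Module.Basis (Fin r') ℤ (LinearMap.ker L) := Module.finBasisOfFinrankEq ℤ _ hr'.symm
  let W : Fin r' → Fin r → ℤ := fun j => (bas j : Fin r → ℤ)
  have hWs : ∀ j i, W j ⬝ᵥ s i = 0 := fun j i => (hker _).1 (bas j).2 i
  have hspan : ∀ w, (∀ i, w ⬝ᵥ s i = 0) → ∃ u : Fin r' → ℤ, ∑ j, u j • W j = w := by
    intro w hw
    have h1 := bas.sum_repr ⟨w, (hker w).2 hw⟩
    refine ⟨fun j => bas.repr ⟨w, (hker w).2 hw⟩ j, ?_⟩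
    have h2 := congrArg (fun z : LinearMap.ker L => (z : Fin r → ℤ)) h1
    beta_reduce at h2
    rw [AddSubmonoidClass.coe_finsetSum] at h2
    exact h2
  have hinj0 : ∀ u : Fin r' → ℤ, ∑ j, u j • W j = 0 → u = 0 := by
    intro u hu
    have h1 := bas.linearIndependent
    rw [Fintype.linearIndependent_iff] at h1
    funext j
    refine h1 u ?_ j
    apply Subtype.ext
    rw [AddSubmonoidClass.coe_finsetSum]
    exact hu
  have hinj : ∀ m0 : Fin r → ℤ, Function.Injective (aff m0 W) := by
    intro m0 u u' huu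
    rw [← sub_eq_zero]
    apply hinj0
    unfold aff at huu
    have h1 := add_left_cancel huu
    have h2 : ∑ j, (u - u') j • W j = ∑ j, u j • W j - ∑ j, u' j • W j := by
      rw [← Finset.sum_sub_distrib]
      exact Finset.sum_congr rfl fun j _ => by rw [Pi.sub_apply, sub_smul]
    rw [h2, h1, sub_self]
  have hcard : Fintype.card {l // l ∉ JC f s} + m = q := by
    have h1 := Fintype.card_subtype_compl (fun l => l ∈ JC f s)
    have h2 : Fintype.card {l // l ∈ JC f s} = m := by
      rw [Fintype.card_coe]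
      exact hs.card
    rw [h2, Fintype.card_fin] at h1
    have h3 : m ≤ q := by
      rw [← hs.card]
      exact (Finset.card_le_univ _).trans (by rw [Fintype.card_fin])
    rw [h1]
    omega
  obtain ⟨q', hq'⟩ : ∃ q', q' = Fintype.card {l // l ∉ JC f s} := ⟨_, rfl⟩
  let e : Fin q' ≃ {l // l ∉ JC f s} := (Fintype.equivFinOfCardEq hq'.symm).symm
  let ε : Fin m ≃ JC f s := (Finset.equivFinOfCardEq hs.card).symm
  let el : Fin q' ⊕ Fin m ≃ Fin q :=
    ((Equiv.sumComm _ _).trans (Equiv.sumCongr ε e)).trans (Equiv.sumCompl fun l => l ∈ JC f s)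
  have hel : ∀ l, el (Sum.inl l) = (e l : Fin q) := fun l => rfl
  have hm0 : ∀ l : Fin q', ∃ m0, m0 ∈ (f (e l)).support := fun l =>
    Finsupp.support_nonempty_iff.2 (hf0 (e l))
  choose m0 hm0 using hm0
  let g : Fin q' → (Fin r' → ℤ) →₀ k := fun l =>
    (f (e l)).comapDomain (aff (m0 l) W) (hinj (m0 l)).injOn
  have hfg : ∀ l, f (e l) = push (m0 l) W (g l) := by
    intro l
    refine (Finsupp.mapDomain_comapDomain (aff (m0 l) W) (hinj (m0 l)) (f (e l)) ?_).symm
    intro m' hm'
    obtain ⟨u, hu⟩ := hspan (m' - m0 l) (fun i => by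
      rw [sub_dotProduct, not_mem_JC (e l).2 i hm', not_mem_JC (e l).2 i (hm0 l), sub_self])
    refine ⟨u, ?_⟩
    unfold aff
    rw [hu]
    abel
  have hm1 : ∀ j : Fin p, ∃ m1, m1 ∈ (h j).support := fun j =>
    Finsupp.support_nonempty_iff.2 (hh0 j)
  choose m1 hm1 using hm1
  let h' : Fin p → (Fin r' → ℤ) →₀ k := fun j =>
    (h j).comapDomain (aff (m1 j) W) (hinj (m1 j)).injOn
  have hhg : ∀ j, h j = push (m1 j) W (h' j) := by
    intro j
    refine (Finsupp.mapDomain_comapDomain (aff (m1 j) W) (hinj (m1 j)) (h j) ?_).symm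
    intro m' hm'
    obtain ⟨u, hu⟩ := hspan (m' - m1 j) (fun i => by
      rw [sub_dotProduct, hh j i m' hm', hh j i _ (hm1 j), sub_self])
    refine ⟨u, ?_⟩
    unfold aff
    rw [hu]
    abel
  refine ⟨r', q', W, g, h', el, ε, m0, m1, by omega, by omega, fun l => rfl, hWs, hspan, hinj0,
    hinj, fun l => hfg l, hhg, ?_⟩
  rw [eq_top_iff, ← hs.top hf0 hgen, IntermediateField.adjoin_le_iff]
  rintro _ ⟨w, hw, rfl⟩
  obtain ⟨u, hu⟩ := hspan w hw
  rw [← hu, mono_sum hs.hx]
  change ∏ j, mono x (W j) ^ u j ∈ IntermediateField.adjoin k (Set.range fun j => mono x (W j))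
  refine prod_mem fun j _ => zpow_mem (IntermediateField.subset_adjoin _ _ ?_) _
  exact ⟨j, rfl⟩

end

section

variable {k K : Type} [Field k] [CharZero k] [Field K] [Algebra k K] {n : ℕ}

theorem fNe5 {β : Place k K → ℝ} {r q p : ℕ} {x : Fin r → K} {f : Fin q → (Fin r → ℤ) →₀ k}
    {h : Fin p → (Fin r → ℤ) →₀ k} (hB : BSys n β x f h) (l : Fin q) : f l ≠ 0 := by
  intro h0
  have h1 := hB.hnd.self fun l => by rw [ini_zero']; exact hB.hf l
  have h2 := h1.ne_zero l
  apply h2
  rw [h0, ini_zero']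
  funext i
  unfold gr
  exact Finsupp.sum_zero_index

theorem ordProd5 {ι : Type} (P : Place k K) (a : ι → K) (s : Finset ι) (ha : ∀ i ∈ s, a i ≠ 0) :
    P.ord (∏ i ∈ s, a i) = ∑ i ∈ s, P.ord (a i) := by
  classical
  induction s using Finset.induction_on with
  | empty => simp [P.ord_one]
  | insert b s hb ih =>
    have h1 : ∀ i ∈ s, a i ≠ 0 := fun i hi => ha i (Finset.mem_insert_of_mem hi)
    rw [Finset.prod_insert hb, Finset.sum_insert hb, P.ord_mul (ha b (Finset.mem_insert_self _ _))
      (Finset.prod_ne_zero_iff.2 h1), ih h1]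

/-- the pairings with the logarithmic derivatives of the monomials -/
theorem cwMono5 {r r' : ℕ} {x : Fin r → K} (hx : ∀ i, x i ≠ 0) (W : Fin r' → Fin r → ℤ)
    (C' : Fin n → Fin r' → ℤ) (D : Fin n → Derivation k K K) :
    cw (fun b => ∑ j, C' b j • W j) (fun a => lg x (D a)) =
      cw C' fun a => lg (fun j => mono x (W j)) (D a) := by
  ext b a
  change ∑ i, (((∑ j, C' b j • W j) i : ℤ) : K) * lg x (D a) i =
    ∑ j, (C' b j : K) * lg (fun j => mono x (W j)) (D a) j
  have h1 : ∀ j, lg (fun j => mono x (W j)) (D a) j = ∑ i, (W j i : K) * lg x (D a) i := by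
    intro j
    change D a (mono x (W j)) / mono x (W j) = _
    rw [der_mono (D a) hx, mul_div_cancel_left₀ _ (mono_ne hx _)]
    rfl
  simp only [h1, Finset.mul_sum]
  rw [Finset.sum_comm]
  refine Finset.sum_congr rfl fun i _ => ?_
  rw [Finset.sum_apply, Int.cast_sum, Finset.sum_mul]
  refine Finset.sum_congr rfl fun j _ => ?_
  rw [Pi.smul_apply, smul_eq_mul, Int.cast_mul]
  ring

/-- **Elimination.** -/
theorem BSys.elim {β : Place k K → ℝ} {r q p m : ℕ} {x : Fin r → K}
    {f : Fin q → (Fin r → ℤ) →₀ k}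
    {h : Fin p → (Fin r → ℤ) →₀ k} (hB : BSys n β x f h) {s : Fin (m + 1) → Fin r → ℤ}
    (hs : Exc x f s) (hh : ∀ j i, ∀ m' ∈ (h j).support, m' ⬝ᵥ s i = mn (s i) (h j)) :
    ∃ (r' q' : ℕ) (z : Fin r' → K) (g : Fin q' → (Fin r' → ℤ) →₀ k)
      (h' : Fin p → (Fin r' → ℤ) →₀ k), q' + m = q ∧ BSys n β z g h' := by
  classical
  have hf0 : ∀ l, f l ≠ 0 := fNe5 hB
  have hh0 : ∀ j, h j ≠ 0 := by
    intro j h0
    apply hB.hhx j
    rw [h0]
    unfold ev
    exact Finsupp.sum_zero_index
  have hx := hB.hx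
  obtain ⟨r', q', W, g, h', el, ε, m0, m1, hq', hr', hel, hWs, hspan, hinj0, hinj, hfg, hhg,
    htop⟩ := Exc.data hs hf0 hh0 hh hB.hgen hB.hr
  obtain ⟨z, hz⟩ : ∃ z : Fin r' → K, z = fun j => mono x (W j) := ⟨_, rfl⟩
  have hz0 : ∀ j, z j ≠ 0 := fun j => by rw [hz]; exact mono_ne hx _
  have hgz : ∀ l, ev z (g l) = 0 := by
    intro l
    have h1 := hB.hf (el (Sum.inl l))
    rw [hfg, ev_push hx] at h1
    rw [hz]
    exact (mul_eq_zero.1 h1).resolve_left (mono_ne hx _)
  have hhz : ∀ j, ev x (h j) = mono x (m1 j) * ev z (h' j) := by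
    intro j
    rw [hhg, ev_push hx, hz]
  have hhz0 : ∀ j, ev z (h' j) ≠ 0 := by
    intro j h0
    apply hB.hhx j
    rw [hhz, h0, mul_zero]
  have hg0 : ∀ l, g l ≠ 0 := by
    intro l h0
    apply hf0 (el (Sum.inl l))
    rw [hfg, h0, push_zero]
  have hh'0 : ∀ j, h' j ≠ 0 := by
    intro j h0
    apply hh0 j
    rw [hhg, h0, push_zero]
  have helinj : Function.Injective fun l : Fin q' => el (Sum.inl l) :=
    el.injective.comp Sum.inl_injective
  have hnd : HN z g := by
    rw [hz]
    exact hn_push hx hB.hf helinj (fun l => hinj (m0 l)) hfg hB.hnd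
  have hndh : ∀ V : Finset (Fin p), HN z (Sum.elim g fun j : V => h' j) := by
    intro V
    rw [hz]
    refine hn_push' (f := Sum.elim f fun j : V => h j)
      (e := Sum.map (fun l : Fin q' => el (Sum.inl l)) id)
      (m0 := Sum.elim m0 fun j : V => m1 j) hx ?_ ?_ ?_ ?_ (hB.hndh V)
    · rintro (l | j) hl
      · exact hB.hf l
      · exact absurd ⟨Sum.inr j, rfl⟩ hl
    · exact helinj.sumMap Function.injective_id
    · rintro (l | j)
      · exact hinj _
      · exact hinj _
    · rintro (l | j)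
      · exact hfg l
      · exact hhg j
  have hvec : ∀ P : Place k K, vec P z = fun j => W j ⬝ᵥ vec P x := by
    intro P
    rw [hz, vec_mono P hx]
  have hordh : ∀ (P : Place k K) j, P.ord (ev x (h j)) = m1 j ⬝ᵥ vec P x + P.ord (ev z (h' j)) := by
    intro P j
    rw [hhz, P.ord_mul (mono_ne hx _) (hhz0 j), ord_mono P hx]
  refine ⟨r', q', z, g, h', hq', ?_⟩
  refine
    { hr := hr'
      hx := hz0
      hgen := by rw [hz]; exact htop
      hf := hgz
      hhx := hhz0
      hnd := hnd
      hndh := hndh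
      low := ?_
      up := ?_ }
  · obtain ⟨e, C0, hdt, hS⟩ := hB.low
    have e' : Fin q' ⊕ Fin n ≃ Fin r' := Fintype.equivOfCardEq (by
      rw [Fintype.card_sum, Fintype.card_fin, Fintype.card_fin, Fintype.card_fin, hr', add_comm])
    obtain ⟨C', hC'⟩ := exists_C0 hz0 e' hg0 hgz hnd.self
    refine ⟨e', C', hC', ?_⟩
    intro P hP D hD hO
    obtain ⟨C, hCd⟩ : ∃ C : Fin n → Fin r → ℤ, C = fun b => ∑ j, C' b j • W j := ⟨_, rfl⟩
    obtain ⟨G, hGd⟩ : ∃ G : Matrix (Fin m) (Fin m) K,
      G = Matrix.of fun (l : Fin m) (i : Fin m) => Gp x s (f (ε l)) i.succ := ⟨_, rfl⟩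
    obtain ⟨hG0, hGP⟩ := Exc.det_ord hs ε
    rw [← hGd] at hG0 hGP
    obtain ⟨hGP1, hGP2⟩ := hGP P
    obtain ⟨μ, hμd⟩ : ∃ μ : Fin q' ⊕ Fin n → K, μ = Sum.elim (fun l => mono x (m0 l)) fun _ => 1 :=
      ⟨_, rfl⟩
    have hK0 : CharZero K := charZero_of_injective_algebraMap (algebraMap k K).injective
    have hdet := det_elim (n := n) e e' el (R := rows (fun l => gr x (f l)) C)
      (R' := rows (fun l => gr z (g l)) C') (W := W) (s := fun i => s i.succ) (μ := μ) (G := G)
      (by
        rintro (l | b) i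
        · change gr x (f (el (Sum.inl l))) i = μ (Sum.inl l) * ∑ j, gr z (g l) j * (W j i : K)
          have h1 := hgz l
          rw [hz] at h1
          rw [hfg, gr_push hx, h1, mul_zero, zero_add, hμd, hz]
          change mono x (m0 l) * _ = mono x (m0 l) * _
          congr 1
          exact Finset.sum_congr rfl fun j _ => mul_comm _ _
        · change ((C b i : ℤ) : K) = μ (Sum.inr b) * ∑ j, (C' b j : K) * (W j i : K)
          rw [hμd, hCd]
          change (((∑ j, C' b j • W j) i : ℤ) : K) = (1 : K) * _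
          rw [one_mul, Finset.sum_apply, Int.cast_sum]
          refine Finset.sum_congr rfl fun j _ => ?_
          rw [Pi.smul_apply, smul_eq_mul, Int.cast_mul])
      (fun j i => hWs j i.succ)
      (by
        intro l i
        change ∑ k, gr x (f (el (Sum.inr l))) k * (s i.succ k : K) = G l i
        rw [hel, gr_dot_type hs.hs (hs.hf _) (hs.mn_eq _ (ε l).2), hGd]
        rfl)
      hinj0
    obtain ⟨τ, κ, hκ, hdet⟩ := hdet
    change dt e (fun l => gr x (f l)) C * (τ : K) =
      (κ : K) * ((∏ a, μ a) * dt e' (fun l => gr z (g l)) C' * G.det) at hdet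
    have hμ : ∏ a, μ a = ∏ l, mono x (m0 l) := by
      rw [hμd, Fintype.prod_sum_type]
      simp
    have hμ0 : ∏ l, mono x (m0 l) ≠ 0 := Finset.prod_ne_zero_iff.2 fun l _ => mono_ne hx _
    rw [hμ] at hdet
    obtain ⟨hκK, hκP⟩ := ord_intCast (K := K) P hκ
    have hR0 : (κ : K) * ((∏ l, mono x (m0 l)) * dt e' (fun l => gr z (g l)) C' * G.det) ≠ 0 :=
      mul_ne_zero hκK (mul_ne_zero (mul_ne_zero hμ0 hC') hG0)
    have hL0 := hR0
    rw [← hdet] at hL0
    have hdx : dt e (fun l => gr x (f l)) C ≠ 0 := left_ne_zero_of_mul hL0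
    have hτK : (τ : K) ≠ 0 := right_ne_zero_of_mul hL0
    have hτ : τ ≠ 0 := by
      rintro rfl
      exact hτK Int.cast_zero
    obtain ⟨-, hτP⟩ := ord_intCast (K := K) P hτ
    have hord := congrArg P.ord hdet
    rw [P.ord_mul hdx hτK, hτP, P.ord_mul hκK (mul_ne_zero (mul_ne_zero hμ0 hC') hG0), hκP,
      P.ord_mul (mul_ne_zero hμ0 hC') hG0, P.ord_mul hμ0 hC', zero_add, add_zero,
      ordProd5 P _ _ fun l _ => mono_ne hx _] at hord
    have hcw : (cw C fun a => lg x (D a)) = cw C' fun a => lg z (D a) := by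
      rw [hCd, hz]
      exact cwMono5 hx W C' D
    have hOz : Om e' z g C' D = (cw C' fun a => lg z (D a)).det / dt e' (fun l => gr z (g l)) C' :=
      rfl
    have hOx : Om e x f C0 D = (cw C' fun a => lg z (D a)).det / dt e (fun l => gr x (f l)) C := by
      rw [om_eq hx hB.hf hdt hdx D]
      unfold Om
      rw [hcw]
    have hN0 : (cw C' fun a => lg z (D a)).det ≠ 0 := by
      intro h0
      apply hO
      rw [hOz, h0, zero_div]
    have hOx0 : Om e x f C0 D ≠ 0 := by
      rw [hOx]
      exact div_ne_zero hN0 hdx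
    have hordx : P.ord (Om e x f C0 D) = P.ord (Om e' z g C' D) -
        ∑ l, m0 l ⬝ᵥ vec P x - P.ord G.det := by
      rw [hOx, hOz, div_eq_mul_inv, div_eq_mul_inv, P.ord_mul hN0 (inv_ne_zero hdx),
        P.ord_mul hN0 (inv_ne_zero hC'), P.ord_inv, P.ord_inv, hord]
      have h1 : ∀ l, P.ord (mono x (m0 l)) = m0 l ⬝ᵥ vec P x := fun l => ord_mono P hx _
      simp only [h1]
      ring
    have hlow := hS P hP D hD hOx0
    -- translate
    have hmnf : ∑ l, mn (vec P x) (f l) = (∑ l, m0 l ⬝ᵥ vec P x) + (∑ l, mn (vec P z) (g l)) +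
        ∑ l, mn (vec P x) (f (ε l)) := by
      rw [← el.sum_comp, Fintype.sum_sum_type, ← Finset.sum_add_distrib]
      congr 1
      · refine Finset.sum_congr rfl fun l _ => ?_
        rw [hfg, mn_push (hinj _) (hg0 l), hvec]
      · exact Finset.sum_congr rfl fun l _ => by rw [hel]
    have hmnh : ∀ j, mn (vec P x) (h j) = m1 j ⬝ᵥ vec P x + mn (vec P z) (h' j) := by
      intro j
      rw [hhg, mn_push (hinj _) (hh'0 j), hvec]
    have hkey : (if vec P x = 0 then (0 : ℝ) else 1) - ((P.ord G.det : ℤ) : ℝ) +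
        ((∑ l, mn (vec P x) (f (ε l)) : ℤ) : ℝ) ≤ if vec P z = 0 then (0 : ℝ) else 1 := by
      have h1 : ((∑ l, mn (vec P x) (f (ε l)) : ℤ) : ℝ) ≤ ((P.ord G.det : ℤ) : ℝ) := by
        exact_mod_cast hGP1
      by_cases hvz : vec P z = 0
      · rw [if_pos hvz]
        by_cases hvx : vec P x = 0
        · rw [if_pos hvx]
          linarith
        · rw [if_neg hvx]
          have h2 := hGP2 hvx (by
            intro w hw
            obtain ⟨u, hu⟩ := hspan w hw
            rw [← hu, sum_dotProduct]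
            refine Finset.sum_eq_zero fun j _ => ?_
            have h3 := congrFun hvz j
            rw [hvec] at h3
            change W j ⬝ᵥ vec P x = 0 at h3
            rw [smul_dotProduct, h3, smul_zero])
          have h3 : ((1 + ∑ l, mn (vec P x) (f (ε l)) : ℤ) : ℝ) ≤ ((P.ord G.det : ℤ) : ℝ) := by
            exact_mod_cast h2
          push_cast at h3
          push_cast
          linarith
      · rw [if_neg hvz]
        have h4 : (if vec P x = 0 then (0 : ℝ) else 1) ≤ 1 := by
          split_ifs <;> norm_num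
        linarith
    rw [hordx, hmnf] at hlow
    simp only [hmnh, hordh, Rat.cast_one, one_mul] at hlow ⊢
    push_cast at hlow hkey ⊢
    rw [Finset.sum_add_distrib, Finset.sum_add_distrib] at hlow
    linarith
  · intro P hP
    refine (hB.up P hP).trans ?_
    have h1 : bdry (fun _ => 1) (fun _ => 1) x h P ≤ bdry (fun _ => 1) (fun _ => 1) z h' P := by
      by_cases hvx : vec P x = 0
      · have hvz : vec P z = 0 := by
          rw [hvec, hvx]
          funext j
          exact dotProduct_zero _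
        have ho : ∀ j, P.ord (ev x (h j)) = P.ord (ev z (h' j)) := by
          intro j
          rw [hordh, hvx, dotProduct_zero, zero_add]
        by_cases hj : ∃ j, 0 < P.ord (ev x (h j))
        · have hj' : ∃ j, 0 < P.ord (ev z (h' j)) := by
            obtain ⟨j, hj⟩ := hj
            exact ⟨j, by rw [← ho]; exact hj⟩
          rw [bdry_van hvx hj, bdry_van hvz hj']
          simp only [ho]
          exact le_rfl
        · push Not at hj
          rw [bdry_no hvx fun j => not_lt.2 (hj j),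
            bdry_no hvz fun j => not_lt.2 (by rw [← ho]; exact hj j)]
      · rw [bdry_ne hvx, sub_self]
        exact bdry_nonneg fun _ => le_rfl
    exact_mod_cast h1

end

end Pool.Agent.R885.N
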