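import Pool.Agent.R885.QD

/-!
Pairs with reduced boundary: systems with a full-dimensional Newton polytope.
-/

set_option autoImplicit false
set_option linter.overlappingInstances false
set_option linter.unusedSectionVars false

open FF IntermediateField Pool.Agent.W603.LV Pool.Agent.W619.PQ Pool.Agent.W619.PL
  Pool.Agent.Y173.QA Pool.Agent.W619.TW Pool.Agent.W619.Y Pool.Agent.Y174

namespace Pool.Agent.R885.N

section

variable {k K : Type} [Field k] [Field K] [Algebra k K] {n : ℕ} {β β' : Place k K → ℝ}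

theorem pairSec_mono (hβ : ∀ P, IsDivisorial P n → β P ≤ β' P) {T : Finset K} {M j : ℕ}
    {ω : (Fin n → Derivation k K K) → K} (h : PairSec k K n β T M j ω) :
    PairSec k K n β' T M j ω := by
  refine ⟨h.1, fun v hv D hD => ?_⟩
  rcases h.2 v hv D hD with h0 | ⟨s, hs, hs0, hle⟩
  · exact Or.inl h0
  · refine Or.inr ⟨s, hs, hs0, ?_⟩
    have h1 : (M : ℝ) * β v ≤ M * β' v := mul_le_mul_of_nonneg_left (hβ v hv) (Nat.cast_nonneg M)
    linarith

theorem pairNum_mono (hβ : ∀ P, IsDivisorial P n → β P ≤ β' P) {d : ℕ}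
    (h : PairNum k K n β' d) : PairNum k K n β d := by
  intro S
  obtain ⟨C, hC⟩ := h S
  refine ⟨C, fun m N hm hN => hC m N hm ?_⟩
  obtain ⟨ω, hω, hs⟩ := hN
  exact ⟨ω, hω, fun l => pairSec_mono hβ (hs l)⟩

theorem negB_mono (hβ : ∀ P, IsDivisorial P n → β P ≤ β' P) (h : NegB k K n β') :
    NegB k K n β := by
  intro T
  obtain ⟨M0, hM0⟩ := h T
  exact ⟨M0, fun M hM ω hω => hM0 M hM ω (pairSec_mono hβ hω)⟩

end

section

variable {k : Type} [Field k] {r m : ℕ} {J J' : Type} [Fintype J] [Fintype J']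
  {f : J → (Fin r → ℤ) →₀ k} {h : J' → (Fin r → ℤ) →₀ k} {s : Fin (m + 1) → Fin r → ℤ}

theorem mem_JC_inl {l : J} (hl : l ∈ JC f s) : Sum.inl l ∈ JC (Sum.elim f h) s := by
  classical
  unfold JC at hl ⊢
  rw [Finset.mem_filter] at hl ⊢
  exact ⟨Finset.mem_univ _, hl.2⟩

theorem JC_elim (hc : (JC (Sum.elim f h) s).card ≤ (JC f s).card) :
    (JC f s).card = (JC (Sum.elim f h) s).card ∧ ∀ j, Sum.inr j ∉ JC (Sum.elim f h) s := by
  classical
  have h1 : (JC f s).map ⟨Sum.inl, Sum.inl_injective⟩ ⊆ JC (Sum.elim f h) s := by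
    intro a ha
    rw [Finset.mem_map] at ha
    obtain ⟨l, hl, rfl⟩ := ha
    exact mem_JC_inl hl
  have h2 : (JC f s).map ⟨Sum.inl, Sum.inl_injective⟩ = JC (Sum.elim f h) s :=
    Finset.eq_of_subset_of_card_le h1 (by rw [Finset.card_map]; exact hc)
  refine ⟨?_, fun j hj => ?_⟩
  · rw [← h2, Finset.card_map]
  · rw [← h2, Finset.mem_map] at hj
    obtain ⟨l, -, hl⟩ := hj
    exact Sum.inl_ne_inr hl

end

/-- **Systems with a full-dimensional Newton polytope.** -/
theorem BSys.stepV {k K : Type} [Field k] [CharZero k] [IsAlgClosed k] [Field K]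
    [Algebra k K] {n : ℕ} (hn : 1 ≤ n) (htr : Algebra.trdeg k K = (n : ℕ)) {β : Place k K → ℝ}
    {r q p : ℕ} {x : Fin r → K} {f : Fin q → (Fin r → ℤ) →₀ k}
    {h : Fin p → (Fin r → ℤ) →₀ k} (hB : BSys n β x f h)
    (hU : ∀ v : Fin r → ℤ, (∀ l, ∀ m ∈ (f l).support, ∀ m' ∈ (f l).support,
      m ⬝ᵥ v = m' ⬝ᵥ v) → (∀ j, ∀ m ∈ (h j).support, ∀ m' ∈ (h j).support,
      m ⬝ᵥ v = m' ⬝ᵥ v) → v = 0) :
    PosB k K n β ∨ NegB k K n β ∨ ∃ (m : ℕ) (s : Fin (m + 1) → Fin r → ℤ),
      1 ≤ m ∧ Exc x f s ∧ ∀ j i, ∀ m' ∈ (h j).support, m' ⬝ᵥ s i = mn (s i) (h j) := by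
  classical
  have hr := hB.hr
  have hx := hB.hx
  have hgen := hB.hgen
  have hf := hB.hf
  have hhx := hB.hhx
  have hnd := hB.hnd
  have hndV := hB.hndh
  have hf0 := hn_ne0 hnd hf
  have hli := hn_ne hnd hf
  have hK0 : CharZero K := charZero_of_injective_algebraMap (algebraMap k K).injective
  have hh0 : ∀ j, h j ≠ 0 := by
    intro j h0
    apply hhx j
    rw [h0]
    unfold ev
    exact Finsupp.sum_zero_index
  have hg0 : ∀ l, Sum.elim f h l ≠ 0 := by
    rintro (l | j)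
    · exact hf0 l
    · exact hh0 j
  obtain ⟨t, ht0, ht1, hF, hmax⟩ := exists_best hg0 (fun v hv =>
    hU v (fun l => hv (Sum.inl l)) (fun j => hv (Sum.inr j)))
  obtain ⟨cw, hcw⟩ : ∃ cw : Fin p → ℚ, cw = fun _ => 1 := ⟨_, rfl⟩
  have hwt : (Sum.elim (fun _ => 1) cw : Fin q ⊕ Fin p → ℚ) = fun _ => 1 := by
    funext l
    rcases l with l | j
    · rfl
    · rw [hcw]; rfl
  have hup : ∀ P, IsDivisorial P n → β P ≤ ((bdry (fun _ => 1) cw x h P : ℚ) : ℝ) := by
    rw [hcw]
    exact hB.up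
  have hFW : (FineW (fun v : Fin r → ℤ => t * (fun _ => 1) v) (Sum.elim (fun _ => 1) cw)
      (Sum.elim f h)).Nonempty := by
    obtain ⟨u, hu⟩ := hF
    refine ⟨u, fun v hv => ?_⟩
    have h1 := hu v hv
    rw [hwt]
    simp only [one_mul, mul_one]
    exact h1
  have hD1 : ∀ v : Fin r → ℤ, ∃ z : ℤ, ((1 : ℕ) : ℚ) * (fun _ : Fin r → ℤ => (1 : ℚ)) v = z :=
    fun v => ⟨1, by norm_num⟩
  have hcwD : ∀ j, ∃ z : ℤ, ((1 : ℕ) : ℚ) * cw j = z := fun j => ⟨1, by rw [hcw]; norm_num⟩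
  have hcw0 : ∀ j, 0 ≤ cw j := fun j => by rw [hcw]; exact zero_le_one
  have hcw1 : ∀ j, cw j ≤ 1 := fun j => by rw [hcw]
  have htrE : ∀ E : IntermediateField k K, ∃ d : ℕ, d ≤ n ∧ Algebra.trdeg k E = (d : ℕ) := by
    intro E
    have h1 : Algebra.trdeg k E ≤ n := by
      rw [← htr]
      exact trdeg_le_of_injective E.val E.val.injective
    obtain ⟨d, hd⟩ := Cardinal.lt_aleph0.1 (h1.trans_lt Cardinal.natCast_lt_aleph0)
    refine ⟨d, ?_, hd⟩
    rw [hd] at h1
    exact_mod_cast h1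
  rcases ht1.lt_or_eq with htlt | hteq
  swap
  · -- the largest value is one
    left
    have hFW1 : (FineW (fun _ : Fin r → ℤ => (1 : ℚ)) (Sum.elim (fun _ => 1) cw)
        (Sum.elim f h)).Nonempty := by
      obtain ⟨u, hu⟩ := hFW
      refine ⟨u, fun v hv => ?_⟩
      have h1 := hu v hv
      rw [hteq] at h1
      simpa using h1
    obtain ⟨d, hdn, hd⟩ := htrE (IntermediateField.adjoin k
      {z : K | ∃ w ∈ dirsW (fun _ : Fin r → ℤ => (1 : ℚ)) (Sum.elim (fun _ => 1) cw)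
        (Sum.elim f h), z = mono x w})
    have h1 := (mainW hn hr htr hx hgen hf hhx hnd hndV (A := fun _ => 1) (cw := cw) (D := 1) le_rfl
      (fun _ _ => one_pos) (fun _ => le_rfl) hD1 hcwD hcw0
      hcw1 (fun _ _ _ _ _ => by norm_num) (fun g v hg _ => by
        have h2 : (1 : ℚ) ≤ g := by exact_mod_cast hg
        linarith) hFW1 hd).2
    refine ⟨d, hdn, ?_, pairNum_mono hup h1⟩
    -- the Kodaira dimension
    obtain ⟨u0, c, a, nl, S, B, hc, hB0, ha, hnl, hF', hS, hpos, hgr, hdirs⟩ :=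
      exists_tightW (g := Sum.elim f h) (wt := Sum.elim (fun _ => 1) cw)
        (A := fun _ : Fin r → ℤ => (1 : ℚ)) hg0 (D := 1) le_rfl (fun _ _ => one_pos)
        (fun _ => le_rfl) hD1 (by
        rintro (l | j)
        · exact ⟨1, by simp⟩
        · exact hcwD j) hFW1
    have hcq : (0 : ℚ) < c := by exact_mod_cast hc
    have haa : a = fun _ => c := by
      funext v
      have h2 := ha v
      rw [mul_one] at h2
      exact_mod_cast h2
    have hnl1 : ∀ l, nl (Sum.inl l) = c := by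
      intro l
      have h2 := hnl (Sum.inl l)
      rw [Sum.elim_inl, mul_one] at h2
      exact_mod_cast h2
    obtain ⟨nn, hnnd⟩ : ∃ nn : Fin p → ℤ, nn = fun j => nl (Sum.inr j) := ⟨_, rfl⟩
    have hnnq : ∀ j, (nn j : ℚ) = c * cw j := by
      intro j
      rw [hnnd]
      exact hnl (Sum.inr j)
    have hPh : ∀ v, a v + ∑ l, nl l * mn v (Sum.elim f h l) = Ph c (fun _ => c) nn f h v := by
      intro v
      unfold Ph
      rw [Fintype.sum_sum_type, Finset.mul_sum, ← add_assoc, hnnd, haa]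
      congr 2
      refine Finset.sum_congr rfl fun l _ => ?_
      rw [hnl1]
      rfl
    simp only [hPh] at hF' hS hgr
    obtain ⟨t', htG, htind, htalg⟩ := exists_mono_basis hd
    choose w hw hwt' using htG
    have hwS : ∀ j, ∀ s ∈ S, w j ⬝ᵥ s = 0 := fun j => (hdirs (w j)).1 (hw j)
    have htw : t' = fun j => mono x (w j) := funext hwt'
    obtain ⟨Z, hZ⟩ := Pool.Agent.W636.PG.exists_basis k K n htr
    obtain ⟨e, C0, hC0, hlow⟩ := hB.low
    rw [← hcw] at hlow
    exact kodS hx hgen hf hC0 hZ hf0 hh0 hhx hlow hc hnnq hF' hB0 hgr hwS (by rw [← htw]; exact htind)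
  right
  obtain ⟨d, hdn, hd⟩ := htrE (IntermediateField.adjoin k
    {z : K | ∃ w ∈ dirsW (fun v : Fin r → ℤ => t * (fun _ => 1) v) (Sum.elim (fun _ => 1) cw)
      (Sum.elim f h), z = mono x w})
  rcases hdn.lt_or_eq with hdlt | hdeq
  · left
    refine negB_mono hup fun T => ?_
    exact mainNeg hn hr htr hx hgen hf hhx hnd hndV (A := fun _ => 1) (cw := cw) (D := 1)
      le_rfl (fun _ _ => one_pos) (fun _ => le_rfl) hD1 hcwD hcw0
      hcw1 (fun _ _ _ _ _ => by norm_num) (fun g v hg _ => by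
        have h2 : (1 : ℚ) ≤ g := by exact_mod_cast hg
        linarith) ht0 htlt hFW hdlt hd T
  right
  rw [hdeq] at hd
  -- the tight vectors
  have hDt : ∀ v : Fin r → ℤ, ∃ z : ℤ, ((t.den : ℕ) : ℚ) *
      (fun v : Fin r → ℤ => t * (fun _ => 1) v) v = z := by
    intro v
    refine ⟨t.num, ?_⟩
    have h1 : t * t.den = t.num := Rat.mul_den_eq_num t
    beta_reduce
    rw [mul_one, mul_comm]
    exact h1
  obtain ⟨u0, c, a, nl, S, B, hc, -, ha, hnl, hF', hS, hpos, -, hdirs⟩ :=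
    exists_tightW (g := Sum.elim f h) (wt := Sum.elim (fun _ => 1) cw)
      (A := fun v : Fin r → ℤ => t * (fun _ => 1) v) hg0 (D := t.den) t.den_pos (fun v _ => by
        beta_reduce
        rw [mul_one]
        exact ht0) (fun v => by
        beta_reduce
        rw [mul_one]
        exact ht1) hDt (by
      intro l
      rw [hwt]
      exact ⟨t.den, by simp⟩) hFW
  have hcq : (0 : ℚ) < c := by exact_mod_cast hc
  obtain ⟨a0, ha0⟩ : ∃ a0, a0 = a 0 := ⟨_, rfl⟩
  have hat : (a0 : ℚ) = c * t := by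
    rw [ha0, ha]
    ring
  have haa : ∀ v, a v = a0 := by
    intro v
    have h1 : (a v : ℚ) = a0 := by
      rw [hat, ha]
      ring
    exact_mod_cast h1
  have hnl1 : ∀ l, nl l = c := by
    intro l
    have h1 := hnl l
    rw [hwt, mul_one] at h1
    exact_mod_cast h1
  have hΦ : ∀ v, a v + ∑ l, nl l * mn v (Sum.elim f h l) =
      a0 + c * ∑ l, mn v (Sum.elim f h l) := by
    intro v
    rw [haa, Finset.mul_sum]
    simp only [hnl1]
  simp only [hΦ] at hF' hS
  have hac : a0 < c := by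
    have h1 : (a0 : ℚ) < c := by
      rw [hat]
      nlinarith
    exact_mod_cast h1
  have hSne : S.Nonempty := by
    by_contra hcon
    rw [Finset.not_nonempty_iff_eq_empty] at hcon
    refine hmax htlt (t + 1 / c) (by
      have := one_div_pos.2 hcq
      linarith) ⟨fun i => (u0 i : ℚ) / c, fun v hv => ?_⟩
    have h1 := hF' v hv
    have h2 : u0 ⬝ᵥ v ≠ a0 + c * ∑ l, mn v (Sum.elim f h l) := by
      intro h3
      have h4 := (hS v).2 ⟨hv, h3⟩
      rw [hcon] at h4
      exact absurd h4 (Finset.notMem_empty _)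
    have h3 : a0 + c * ∑ l, mn v (Sum.elim f h l) + 1 ≤ u0 ⬝ᵥ v := by omega
    have h4 : (a0 : ℚ) + c * ∑ l, (mn v (Sum.elim f h l) : ℚ) + 1 ≤ ((u0 ⬝ᵥ v : ℤ) : ℚ) := by
      exact_mod_cast h3
    have h5 : dq (fun i => (u0 i : ℚ) / c) v = ((u0 ⬝ᵥ v : ℤ) : ℚ) / c := by
      rw [← dq_int]
      unfold dq
      rw [Finset.sum_div]
      exact Finset.sum_congr rfl fun i _ => by ring
    rw [h5, le_div_iff₀ hcq]
    rw [hat] at h4
    have h6 : (t + 1 / c + ∑ l, (mn v (Sum.elim f h l) : ℚ)) * c =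
        c * t + c * ∑ l, (mn v (Sum.elim f h l) : ℚ) + 1 := by
      field_simp
      ring
    rw [h6]
    exact h4
  obtain ⟨m, s, c', hm, hsS, hrel, huniq⟩ := exists_circuit (fun s hs => ((hS s).1 hs).1) hSne hpos
  have hlis := circ_li (fun i => (hsS i).2) huniq
  -- the monomials
  obtain ⟨y, hyG, hyind, -⟩ := exists_mono_basis hd
  choose w hw hwy using hyG
  have hyw : y = fun j => mono x (w j) := funext hwy
  rw [hyw] at hyind
  have hws : ∀ j i, w j ⬝ᵥ s i = 0 := fun j i => (hdirs (w j)).1 (hw j) (s i) (hsS i).1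
  have heta : ∀ (N : ℕ) (s' : Fin N → Fin r → ℤ) (c : Fin N → K), (∀ j i, w j ⬝ᵥ s' i = 0) →
      (∀ l, ∑ j, gr x (f l) j * (∑ i, c i * (s' i j : K)) = 0) →
      (fun j => ∑ i, c i * (s' i j : K)) = 0 := by
    intro N s' c hws' h1
    refine eta_zero htr hx hgen (J := Fin q) (by rw [Fintype.card_fin, hr, add_comm]) hf hli hyind
      h1 fun j => ?_
    have h2 : ∑ i, (w j i : K) * ∑ i', c i' * (s' i' i : K) =
        ∑ i', c i' * ((w j ⬝ᵥ s' i' : ℤ) : K) := by
      simp only [Finset.mul_sum]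
      rw [Finset.sum_comm]
      refine Finset.sum_congr rfl fun i' _ => ?_
      rw [← dot_intCast, Finset.mul_sum]
      exact Finset.sum_congr rfl fun i _ => by ring
    rw [h2]
    exact Finset.sum_eq_zero fun i' _ => by rw [hws', Int.cast_zero, mul_zero]
  have hcardf := card_JC hf hlis fun c hc => heta m (fun i => s i.succ) c
    (fun j i => hws j i.succ) hc
  have hcard : m ≤ (JC (Sum.elim f h) s).card := by
    have h1 : (JC f s).map ⟨Sum.inl, Sum.inl_injective⟩ ⊆ JC (Sum.elim f h) s := by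
      intro a ha
      rw [Finset.mem_map] at ha
      obtain ⟨l, hl, rfl⟩ := ha
      exact mem_JC_inl hl
    have h2 := Finset.card_le_card h1
    rw [Finset.card_map] at h2
    exact hcardf.trans h2
  obtain ⟨h1, h2, h3, -⟩ := exc_arith hg0 hm (fun i => (hsS i).2) hrel hc hac hF'
    (fun i => ((hS _).1 (hsS i).1).2) hcard
  obtain ⟨hc1, hc2⟩ := JC_elim (f := f) (h := h) (s := s) (by rw [h2]; exact hcardf)
  refine ⟨m, s, hm, ⟨hx, hf, h1, hc1.trans h2, fun l hl => h3 (Sum.inl l) (mem_JC_inl hl),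
    fun c hc => ?_⟩, fun j i m' hm' => not_mem_JC (hc2 j) i hm'⟩
  have h5 := heta (m + 1) s c hws hc
  have h6 := Fintype.linearIndependent_iff.1 (li_field (F := K) hlis)
    (fun i => c i.succ - c 0) (by
      funext j
      rw [Finset.sum_apply]
      have h7 := congrFun h5 j
      beta_reduce at h7
      rw [Fin.sum_univ_succ, Pi.zero_apply] at h7
      have h8 : (s 0 j : K) + ∑ i : Fin m, (s i.succ j : K) = 0 := by
        have h9 := congrFun h1 j
        rw [Finset.sum_apply, Fin.sum_univ_succ, Pi.zero_apply] at h9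
        exact_mod_cast h9
      have h9 : ∑ i : Fin m, (c i.succ - c 0) * (s i.succ j : K) =
          ∑ i : Fin m, c i.succ * (s i.succ j : K) - c 0 * ∑ i : Fin m, (s i.succ j : K) := by
        rw [Finset.mul_sum, ← Finset.sum_sub_distrib]
        exact Finset.sum_congr rfl fun i _ => by ring
      change ∑ i : Fin m, (c i.succ - c 0) * (s i.succ j : K) = 0
      rw [h9]
      linear_combination h7 - c 0 * h8)
  intro i
  refine Fin.cases rfl (fun i => ?_) i
  exact sub_eq_zero.1 (h6 i)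

end Pool.Agent.R885.N
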