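import Pool.Agent.R885.Q5
import Pool.Agent.R885.Q6
import Pool.Agent.R885.Q7
import Pool.Agent.R885.DX

/-!
The complete theorem on nondegenerate pairs with reduced boundary.
-/

set_option autoImplicit false
set_option linter.overlappingInstances false
set_option linter.unusedSectionVars false

open FF IntermediateField Pool.Agent.W602.GT Pool.Agent.W603.LV Pool.Agent.W619.PQ
  Pool.Agent.Y173.QA Pool.Agent.W619.TW Pool.Agent.W619.Y Pool.Agent.Y172 Pool.Agent.Y191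
  Pool.Agent.Y174

namespace Pool.Agent.R885.N

/-- **The dichotomy for the systems of the class.** -/
theorem BSys.all {k K : Type} [Field k] [CharZero k] [IsAlgClosed k] [Field K] [Algebra k K]
    {n : ℕ} (hn : 1 ≤ n) (htr : Algebra.trdeg k K = (n : ℕ)) {β : Place k K → ℝ} (N : ℕ) :
    ∀ (r q p : ℕ) (x : Fin r → K) (f : Fin q → (Fin r → ℤ) →₀ k)
      (h : Fin p → (Fin r → ℤ) →₀ k), BSys n β x f h → q ≤ N → PosB k K n β ∨ NegB k K n β := by
  induction N with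
  | zero =>
    intro r q p x f h hB hq
    by_cases hU : ∀ v : Fin r → ℤ, (∀ l, ∀ m ∈ (f l).support, ∀ m' ∈ (f l).support,
        m ⬝ᵥ v = m' ⬝ᵥ v) → (∀ j, ∀ m ∈ (h j).support, ∀ m' ∈ (h j).support,
        m ⬝ᵥ v = m' ⬝ᵥ v) → v = 0
    · rcases hB.stepV hn htr hU with h1 | h1 | ⟨m, s, hm, hs, -⟩
      · exact Or.inl h1
      · exact Or.inr h1
      · exfalso
        have h1 := Finset.card_le_univ (JC f s)
        rw [hs.card, Fintype.card_fin] at h1
        omega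
    · push Not at hU
      obtain ⟨v, hv1, hv2, hv0⟩ := hU
      exact Or.inr (hB.neg_const hn htr hv0 hv1 hv2)
  | succ N ih =>
    intro r q p x f h hB hq
    by_cases hU : ∀ v : Fin r → ℤ, (∀ l, ∀ m ∈ (f l).support, ∀ m' ∈ (f l).support,
        m ⬝ᵥ v = m' ⬝ᵥ v) → (∀ j, ∀ m ∈ (h j).support, ∀ m' ∈ (h j).support,
        m ⬝ᵥ v = m' ⬝ᵥ v) → v = 0
    · rcases hB.stepV hn htr hU with h1 | h1 | ⟨m, s, hm, hs, hh⟩
      · exact Or.inl h1
      · exact Or.inr h1
      · obtain ⟨r', q', z, g, h', h1, h2⟩ := hB.elim hs hh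
        exact ih r' q' p z g h' h2 (by omega)
    · push Not at hU
      obtain ⟨v, hv1, hv2, hv0⟩ := hU
      exact Or.inr (hB.neg_const hn htr hv0 hv1 hv2)

/-- **The dichotomy for nondegenerate pairs with reduced boundary.** -/
theorem pair_red {k K : Type} [Field k] [CharZero k] [IsAlgClosed k] [Field K] [Algebra k K]
    {n q p : ℕ} (hn : 1 ≤ n) (htr : Algebra.trdeg k K = (n : ℕ)) {x : Fin (n + q) → K}
    (hx : ∀ i, x i ≠ 0) (hgen : IntermediateField.adjoin k (Set.range x) = ⊤)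
    {f : Fin q → (Fin (n + q) → ℤ) →₀ k} (hf : ∀ l, ev x (f l) = 0)
    {h : Fin p → (Fin (n + q) → ℤ) →₀ k} (hhx : ∀ j, ev x (h j) ≠ 0) (H : AlongP f h x) :
    PosB k K n (fun P => ((bdry (fun _ => 1) (fun _ => 1) x h P : ℚ) : ℝ)) ∨
      NegB k K n (fun P => ((bdry (fun _ => 1) (fun _ => 1) x h P : ℚ) : ℝ)) := by
  have hndf := hn_of_alongP' hx H
  have hndh := hn_of_alongP hx H
  have hf0 := hn_ne0 hndf hf
  have hh0 : ∀ j, h j ≠ 0 := by
    intro j h0
    apply hhx j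
    rw [h0]
    unfold ev
    exact Finsupp.sum_zero_index
  have e : Fin q ⊕ Fin n ≃ Fin (n + q) := Fintype.equivOfCardEq (by
    rw [Fintype.card_sum, Fintype.card_fin, Fintype.card_fin, Fintype.card_fin, add_comm])
  obtain ⟨C0, hC0⟩ := exists_C0 hx e hf0 hf hndf.self
  have hB : BSys n (fun P => ((bdry (fun _ => 1) (fun _ => 1) x h P : ℚ) : ℝ)) x f h := by
    refine ⟨rfl, hx, hgen, hf, hhx, hndf, hndh, ⟨e, C0, hC0, ?_⟩, fun P _ => le_rfl⟩
    exact base_low hx hf0 hf hC0 hh0 hhx (fun P => hndf.places P) (fun P V => (hndh V).places P)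
      fun j => le_rfl
  exact BSys.all hn htr q _ q p x f h hB le_rfl

/-- The condition on the polytopes: either there is none, for the reduced boundary and `A = 1`, or
for some `0 < t ≤ 1` the polytope `F_t` is not empty, and `t = 1` or the dimension of the image of
the variety in the torus whose characters are parallel to `F_t` is less than `n`. -/
def PolyCond {K : Type} [Field K] [Algebra ℂ K] {n q p : ℕ} (A : (Fin (n + q) → ℤ) → ℚ)
    (c : Fin p → ℚ) (f : Fin q → (Fin (n + q) → ℤ) →₀ ℂ) (h : Fin p → (Fin (n + q) → ℤ) →₀ ℂ)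
    (x : Fin (n + q) → K) : Prop :=
  ((∀ v, A v = 1) ∧ ∀ j, c j = 1) ∨ ∃ t : ℚ, 0 < t ∧ t ≤ 1 ∧ (Ftope t A c f h).Nonempty ∧
    (t = 1 ∨ Algebra.trdeg ℂ (IntermediateField.adjoin ℂ
      {z : K | ∃ w ∈ Parallel (Ftope t A c f h), z = mono x w}) < n)

/-- **The dichotomy for nondegenerate pairs.** -/
theorem pair_all {n q p : ℕ} (hn : 1 ≤ n) {K : Type} [Field K] [Algebra ℂ K]
    (htr : Algebra.trdeg ℂ K = (n : ℕ)) {x : Fin (n + q) → K} (hx : ∀ i, x i ≠ 0)
    (hgen : IntermediateField.adjoin ℂ (Set.range x) = ⊤) {f : Fin q → (Fin (n + q) → ℤ) →₀ ℂ}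
    (hf : ∀ l, ev x (f l) = 0) {h : Fin p → (Fin (n + q) → ℤ) →₀ ℂ} (hhx : ∀ j, ev x (h j) ≠ 0)
    (H : AlongP f h x) {A : (Fin (n + q) → ℤ) → ℚ} (hA : IsWeight A) {c : Fin p → ℚ}
    (hc : ∀ j, 0 ≤ c j ∧ c j ≤ 1) (hpoly : PolyCond A c f h x) :
    PosB ℂ K n (fun P => ((bdry A c x h P : ℚ) : ℝ)) ∨
      NegB ℂ K n (fun P => ((bdry A c x h P : ℚ) : ℝ)) := by
  rcases hpoly with ⟨h1, h2⟩ | ⟨t, ht0, ht1, hF, htd⟩
  · have h1' : A = fun _ => 1 := funext h1
    have h2' : c = fun _ => 1 := funext h2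
    rw [h1', h2']
    exact pair_red hn htr hx hgen hf hhx H
  · exact pair_cond hn htr hx hgen hf hhx H hA hc ht0 ht1 hF htd

end Pool.Agent.R885.N
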