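import Pool.Agent.R885.Q8
import Pool.Agent.R885.DY

/-!
Quotients of nondegenerate pairs, for the hand-ins.
-/

set_option autoImplicit false
set_option linter.overlappingInstances false
set_option linter.unusedSectionVars false

open FF IntermediateField Pool.Agent.W602.GT Pool.Agent.W619.PQ Pool.Agent.W619.TW
  Pool.Agent.W603.LV Pool.Agent.W672.PG Pool.Agent.W824.PG Pool.Agent.Y172 Pool.Agent.Y191
  Pool.Agent.Y174

namespace Pool.Agent.R885.N

section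

variable {L : Type} [Field L] [Algebra ℂ L]

/-- the data at the quotient -/
def QData {n N : ℕ} (G : Subgroup (L ≃ₐ[ℂ] L)) (y : Fin (N + 1) → fixedField G)
    (Δ : Place ℂ (fixedField G) → ℚ) : Prop :=
  Algebra.trdeg ℂ (fixedField G) = (n : ℕ) ∧ ∃ δ : Place ℂ (fixedField G) → ℚ,
    (PosB ℂ (fixedField G) n (fun P => ((δ P : ℚ) : ℝ)) ∨
      NegB ℂ (fixedField G) n (fun P => ((δ P : ℚ) : ℝ))) ∧
      (∀ P, IsPrimeDivisor y P → δ P ≤ Δ P) ∧
      ∀ Q, Divisorial n Q → LogDisc y n Δ Q (1 - δ Q)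

theorem qdata {n : ℕ} (htr : Algebra.trdeg ℂ L = (n : ℕ)) {r : ℕ} {x : Fin r → L}
    (hgen : IntermediateField.adjoin ℂ (Set.range x) = ⊤) {β : Place ℂ L → ℚ}
    (hβ0 : ∀ w, 0 ≤ β w)
    (h : PosB ℂ L n (fun P => ((β P : ℚ) : ℝ)) ∨ NegB ℂ L n (fun P => ((β P : ℚ) : ℝ)))
    {G : Subgroup (L ≃ₐ[ℂ] L)} [Finite G] {N : ℕ} {y : Fin (N + 1) → fixedField G}
    {Δ : Place ℂ (fixedField G) → ℚ} (hy : IsQuotientPair β G y n Δ) :
    QData (n := n) G y Δ := by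
  have hfinK := fixed_finite G
  obtain ⟨hnK, -⟩ := Pool.Agent.W721.PG.EFF2.exists_basis (fixedField G) n htr
  exact ⟨hnK, quotC htr (ess_of_gen hgen) hβ0 h hy⟩

end

end Pool.Agent.R885.N
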