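import Pool.Agent.R885.Mono

/-!
Residues of Laurent polynomials at a place; nondegeneracy at a place.
-/

set_option autoImplicit false
set_option linter.overlappingInstances false
set_option linter.unusedSectionVars false

open FF Pool.Agent.W603.LV Pool.Agent.W619.PQ

namespace Pool.Agent.R885

/-- Nondegeneracy of the system `f` of Laurent polynomials in the direction `v`, over the field `F`:
at the common zeros in the torus of the initial parts their logarithmic gradients are linearly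
independent. -/
def NonDeg {ι J k : Type} [Fintype ι] [Field k] (F : Type) [Field F] [Algebra k F]
    (f : J → (ι → ℤ) →₀ k) (v : ι → ℤ) : Prop :=
  ∀ c : ι → F, (∀ i, c i ≠ 0) → (∀ l, ev c (ini v (f l)) = 0) →
    LinearIndependent F fun l => gr c (ini v (f l))

section

variable {ι : Type} [Fintype ι] {k K : Type} [Field k] [Field K] [Algebra k K] {x : ι → K}

theorem red_sum (P : Place k K) {α : Type} (s : Finset α) (F : α → K)
    (h : ∀ i ∈ s, P.Reg (F i)) : P.red (∑ i ∈ s, F i) = ∑ i ∈ s, P.red (F i) := by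
  classical
  induction s using Finset.induction_on with
  | empty => simp [P.red_zero]
  | insert a s ha ih =>
    rw [Finset.sum_insert ha, Finset.sum_insert ha,
      P.red_add (h a (Finset.mem_insert_self a s)) (Ge.sum (P := P) (N := 0) s F fun i hi =>
        h i (Finset.mem_insert_of_mem hi)), ih fun i hi => h i (Finset.mem_insert_of_mem hi)]

theorem red_int (P : Place k K) (z : ℤ) : P.red (z : K) = (z : P.RF) := by
  have h1 : ((z : ℤ) : K) = algebraMap k K (z : k) := (map_intCast _ _).symm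
  rw [h1, ← P.algebraMap_RF, map_intCast]

theorem reg_int (P : Place k K) (z : ℤ) : P.Reg (z : K) := Ge.intCast (P := P) z

theorem red_zpow (P : Place k K) {u : K} (hu0 : u ≠ 0) (hu : P.ord u = 0) (z : ℤ) :
    P.red (u ^ z) = P.red u ^ z := by
  have hr : P.Reg u := Or.inr hu.ge
  have hri : P.Reg u⁻¹ := Or.inr (by rw [P.ord_inv, hu]; simp)
  have hinv : P.red u⁻¹ = (P.red u)⁻¹ := by
    rw [← mul_eq_one_iff_eq_inv₀ (P.red_ne_zero hu0 hu), ← P.red_mul hri hr,
      inv_mul_cancel₀ hu0, P.red_one]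
  cases z with
  | ofNat n => simpa using P.red_pow hr n
  | negSucc n =>
    rw [zpow_negSucc, zpow_negSucc, ← inv_pow, P.red_pow hri, hinv, inv_pow]

/-- the units with the residues `c` -/
noncomputable def unt (P : Place k K) (x : ι → K) : ι → K := fun i => x i * P.surj.choose ^ (-(P.ord (x i)))

/-- the residues of the coordinates at a place -/
noncomputable def pt (P : Place k K) (x : ι → K) : ι → P.RF := fun i => P.red (unt P x i)

theorem unt_ne (P : Place k K) (hx : ∀ i, x i ≠ 0) (i : ι) : unt P x i ≠ 0 :=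
  mul_ne_zero (hx i) (zpow_ne_zero _ P.surj.choose_spec.1)

theorem ord_unt (P : Place k K) (hx : ∀ i, x i ≠ 0) (i : ι) : P.ord (unt P x i) = 0 := by
  unfold unt
  rw [P.ord_mul (hx i) (zpow_ne_zero _ P.surj.choose_spec.1), P.ord_zpow, P.surj.choose_spec.2]
  ring

theorem pt_ne (P : Place k K) (hx : ∀ i, x i ≠ 0) (i : ι) : pt P x i ≠ 0 :=
  P.red_ne_zero (unt_ne P hx i) (ord_unt P hx i)

theorem mono_unt (P : Place k K) (hx : ∀ i, x i ≠ 0) (w : ι → ℤ) :
    mono x w = mono (unt P x) w * P.surj.choose ^ (w ⬝ᵥ vec P x) := by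
  have ht := P.surj.choose_spec.1
  rw [← mono_zpow ht, ← mono_mul]
  congr 1
  funext i
  unfold unt vec
  rw [mul_assoc, ← zpow_add₀ ht, neg_add_cancel, zpow_zero, mul_one]

theorem red_mono_unt (P : Place k K) (hx : ∀ i, x i ≠ 0) (w : ι → ℤ) :
    P.red (mono (unt P x) w) = mono (pt P x) w := by
  have h : ∀ s : Finset ι, P.red (∏ i ∈ s, unt P x i ^ w i) = ∏ i ∈ s, pt P x i ^ w i ∧
      P.Reg (∏ i ∈ s, unt P x i ^ w i) := by
    intro s
    classical
    induction s using Finset.induction_on with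
    | empty => simpa using ⟨P.red_one, P.reg_one⟩
    | insert a s ha ih =>
      have h1 : P.Reg (unt P x a ^ w a) := Or.inr (by rw [P.ord_zpow, ord_unt P hx]; simp)
      rw [Finset.prod_insert ha, Finset.prod_insert ha, P.red_mul h1 ih.2, ih.1,
        red_zpow P (unt_ne P hx a) (ord_unt P hx a)]
      exact ⟨rfl, P.reg_mul h1 ih.2⟩
  exact (h _).1

theorem red_mono_zero (P : Place k K) (hx : ∀ i, x i ≠ 0) {w : ι → ℤ} (hw : w ⬝ᵥ vec P x = 0) :
    P.red (mono x w) = mono (pt P x) w := by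
  rw [mono_unt P hx, hw, zpow_zero, mul_one, red_mono_unt P hx]

theorem red_mono_pos (P : Place k K) (hx : ∀ i, x i ≠ 0) {w : ι → ℤ} (hw : 0 < w ⬝ᵥ vec P x) :
    P.red (mono x w) = 0 := by
  rw [P.red_eq_zero_iff (Or.inr (by rw [ord_mono P hx]; exact hw.le))]
  right
  rwa [ord_mono P hx]

theorem reg_mono (P : Place k K) (hx : ∀ i, x i ≠ 0) {w : ι → ℤ} (hw : 0 ≤ w ⬝ᵥ vec P x) :
    P.Reg (mono x w) := Or.inr (by rwa [ord_mono P hx])

theorem reg_const_int_mono (P : Place k K) (hx : ∀ i, x i ≠ 0) (a : k) (z : ℤ) {w : ι → ℤ}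
    (hw : 0 ≤ w ⬝ᵥ vec P x) : P.Reg (algebraMap k K a * (z : K) * mono x w) :=
  P.reg_mul (P.reg_mul (P.reg_const a) (reg_int P z)) (reg_mono P hx hw)

/-- the residue of a Laurent polynomial divided by an initial monomial -/
theorem red_lau (P : Place k K) (hx : ∀ i, x i ≠ 0) (f : (ι → ℤ) →₀ k) {m0 : ι → ℤ}
    (hm0 : m0 ⬝ᵥ vec P x = mn (vec P x) f) (φ : (ι → ℤ) → ℤ) :
    P.red (∑ m ∈ f.support, algebraMap k K (f m) * (φ m : K) * mono x (m - m0)) =
      (∑ m ∈ (ini (vec P x) f).support, algebraMap k P.RF (f m) * (φ m : P.RF) *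
        mono (pt P x) m) / mono (pt P x) m0 := by
  classical
  have hge : ∀ m ∈ f.support, 0 ≤ (m - m0) ⬝ᵥ vec P x := by
    intro m hm
    rw [sub_dotProduct, hm0]
    exact sub_nonneg.2 (mn_le hm)
  rw [red_sum P _ _ fun m hm => reg_const_int_mono P hx _ _ (hge m hm)]
  have hsup : (ini (vec P x) f).support =
      f.support.filter fun m => m ⬝ᵥ vec P x = mn (vec P x) f := by
    ext m
    rw [mem_ini, Finset.mem_filter]
  rw [hsup, Finset.sum_div, Finset.sum_filter]
  refine Finset.sum_congr rfl fun m hm => ?_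
  rw [P.red_mul (P.reg_mul (P.reg_const _) (reg_int P _)) (reg_mono P hx (hge m hm)),
    P.red_mul (P.reg_const _) (reg_int P _), ← P.algebraMap_RF, red_int]
  by_cases h : m ⬝ᵥ vec P x = mn (vec P x) f
  · rw [if_pos h, red_mono_zero P hx (by rw [sub_dotProduct, hm0, h, sub_self]),
      mono_sub (pt_ne P hx)]
    ring
  · rw [if_neg h, red_mono_pos P hx, mul_zero]
    have h1 := hge m hm
    rcases h1.lt_or_eq with h2 | h2
    · exact h2
    · exact absurd (by rw [sub_dotProduct, hm0] at h2; omega) h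

theorem red_gr' (P : Place k K) (hx : ∀ i, x i ≠ 0) (f : (ι → ℤ) →₀ k) {m0 : ι → ℤ}
    (hm0 : m0 ⬝ᵥ vec P x = mn (vec P x) f) (i : ι) :
    P.red (gr' x f m0 i) = gr (pt P x) (ini (vec P x) f) i / mono (pt P x) m0 := by
  have h := red_lau P hx f hm0 fun m => m i
  unfold gr
  rw [ini_sum]
  exact h

theorem red_ev' (P : Place k K) (hx : ∀ i, x i ≠ 0) (f : (ι → ℤ) →₀ k) {m0 : ι → ℤ}
    (hm0 : m0 ⬝ᵥ vec P x = mn (vec P x) f) :
    P.red (ev' x f m0) = ev (pt P x) (ini (vec P x) f) / mono (pt P x) m0 := by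
  have h := red_lau P hx f hm0 fun _ => 1
  simp only [Int.cast_one, mul_one] at h
  unfold ev
  rw [ini_sum]
  exact h

theorem reg_gr' (P : Place k K) (hx : ∀ i, x i ≠ 0) (f : (ι → ℤ) →₀ k) {m0 : ι → ℤ}
    (hm0 : m0 ⬝ᵥ vec P x = mn (vec P x) f) (i : ι) : P.Reg (gr' x f m0 i) := by
  unfold gr' Finsupp.sum
  refine Ge.sum (P := P) (N := 0) _ _ fun m hm => reg_const_int_mono P hx _ _ ?_
  rw [sub_dotProduct, hm0]
  exact sub_nonneg.2 (mn_le hm)

/-- **Nondegeneracy at a place.** -/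
theorem nd_place (P : Place k K) (hx : ∀ i, x i ≠ 0) {J : Type} {f : J → (ι → ℤ) →₀ k}
    (hf : ∀ l, ev x (f l) = 0) (hnd : NonDeg P.RF f (vec P x)) {m0 : J → ι → ℤ}
    (hm0 : ∀ l, m0 l ⬝ᵥ vec P x = mn (vec P x) (f l)) :
    LinearIndependent P.RF fun l i => P.red (gr' x (f l) (m0 l) i) := by
  have hpt := pt_ne P hx
  have h1 : ∀ l, ev (pt P x) (ini (vec P x) (f l)) = 0 := by
    intro l
    have h2 := red_ev' P hx (f l) (hm0 l)
    have h3 : ev' x (f l) (m0 l) = 0 := by
      have h4 := ev_eq hx (f l) (m0 l)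
      rw [hf] at h4
      exact (mul_eq_zero.1 h4.symm).resolve_left (mono_ne hx _)
    rw [h3, P.red_zero] at h2
    exact (div_eq_zero_iff.1 h2.symm).resolve_right (mono_ne hpt _)
  have h2 := hnd (pt P x) hpt h1
  have h3 := h2.units_smul fun l => (Units.mk0 (mono (pt P x) (m0 l)) (mono_ne hpt _))⁻¹
  have h4 : (fun l i => P.red (gr' x (f l) (m0 l) i)) =
      (fun l => (Units.mk0 (mono (pt P x) (m0 l)) (mono_ne hpt _))⁻¹) •
        fun l => gr (pt P x) (ini (vec P x) (f l)) := by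
    funext l i
    rw [red_gr' P hx (f l) (hm0 l)]
    change _ = ((mono (pt P x) (m0 l))⁻¹ • gr (pt P x) (ini (vec P x) (f l))) i
    rw [Pi.smul_apply, smul_eq_mul, div_eq_mul_inv, mul_comm]
  rw [h4]
  exact h3

end

end Pool.Agent.R885
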