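import Pool.Agent.R885.Q5
import Pool.Agent.R885.Q7

/-!
Pairs with arbitrary coefficients: the class of the systems, and the data of the elimination.
-/

set_option autoImplicit false
set_option linter.overlappingInstances false
set_option linter.unusedSectionVars false

open FF IntermediateField Pool.Agent.W603.LV Pool.Agent.W619.PQ Pool.Agent.Y173.QA
  Pool.Agent.W619.TW Pool.Agent.W619.Y Pool.Agent.Y174

namespace Pool.Agent.R885.N

/-- The class of the systems `(x, f, h)` with the coefficients `cw` which bound the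
multiplicities `β`; the `h j` need not be nondegenerate. -/
structure CSys {k K : Type} [Field k] [Field K] [Algebra k K] (n : ℕ) (β : Place k K → ℝ)
    {r q p : ℕ} (x : Fin r → K) (f : Fin q → (Fin r → ℤ) →₀ k) (h : Fin p → (Fin r → ℤ) →₀ k)
    (cw : Fin p → ℚ) : Prop where
  hr : r = n + q
  hx : ∀ i, x i ≠ 0
  hgen : IntermediateField.adjoin k (Set.range x) = ⊤
  hf : ∀ l, ev x (f l) = 0
  hhx : ∀ j, ev x (h j) ≠ 0
  hnd : HN x f
  cw0 : ∀ j, 0 < cw j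
  cw1 : ∀ j, cw j ≤ 1
  le1 : ∀ P : Place k K, β P ≤ 1
  low : ∃ (e : Fin q ⊕ Fin n ≃ Fin r) (C0 : Fin n → Fin r → ℤ),
    dt e (fun l => gr x (f l)) C0 ≠ 0 ∧ SLow e x f C0 h cw β
  up0 : ∀ P : Place k K, vec P x = 0 →
    β P ≤ ∑ j, ((cw j : ℚ) : ℝ) * (P.ord (ev x (h j)) : ℝ)
  up1 : ∀ P : Place k K, vec P x ≠ 0 → β P ≤ 0

/-- The arithmetic conditions for a circuit. -/
def SubC {k : Type} [Field k] {r m : ℕ} {J J' : Type} [Fintype J] [Fintype J']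
    (f : J → (Fin r → ℤ) →₀ k) (h : J' → (Fin r → ℤ) →₀ k) (cw : J' → ℚ)
    (s : Fin (m + 1) → Fin r → ℤ) : Prop :=
  (∀ T : Finset (Fin (m + 1)), T.Nonempty → T ≠ Finset.univ →
    ((∑ l, (mn (∑ a ∈ T, s a) (f l) - ∑ a ∈ T, mn (s a) (f l)) : ℤ) : ℚ) +
      ∑ j, cw j * ((mn (∑ a ∈ T, s a) (h j) - ∑ a ∈ T, mn (s a) (h j) : ℤ) : ℚ) ≤
        (T.card : ℚ) - 1) ∧
  ∑ j, cw j * ((-∑ a, mn (s a) (h j) : ℤ) : ℚ) ≤ 1

/-- The data of the solution of an exceptional system: `Δ a` are the signed maximal minors of the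
matrix of the equations divided by monomials. -/
structure Sol {k K : Type} [Field k] [Field K] [Algebra k K] {r m : ℕ} (x : Fin r → K)
    {J : Type} [Fintype J] (f : J → (Fin r → ℤ) →₀ k) (s : Fin (m + 1) → Fin r → ℤ)
    (ε : Fin m ≃ JC f s) (B : Fin m → Fin r → ℤ) (b : Fin (m + 1) → Fin r → ℤ)
    (Δ : Fin (m + 1) → (Fin r → ℤ) →₀ k) (lam : K) : Prop where
  lam0 : lam ≠ 0
  hB : ∀ l i, B l ⬝ᵥ s i = mn (s i) (f (ε l)) + if i = 0 then 1 else 0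
  hb : ∀ a i, b a ⬝ᵥ s i = (if i = a then 1 else 0) - if i = 0 then 1 else 0
  hΔs : ∀ a, ∀ w ∈ (Δ a).support, ∀ i, w ⬝ᵥ s i = 0
  hΔ0 : ∀ a, ev x (Δ a) ≠ 0
  hΔb : ∀ a, ev x (Δ a) = lam * mono x (b a)
  hG : ∀ a, (Matrix.of fun (l : Fin m) (i : Fin m) => Gp x s (f (ε l)) i.succ).det =
    (∏ l, mono x (B l)) * (∏ a' ∈ Finset.univ.erase a, mono x (b a')) * ev x (Δ a)
  hexp : ∀ a, ∀ w ∈ (Δ a).support, ∃ (σ : Fin m → Fin (m + 1)) (e : Fin m → Fin r → ℤ),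
    Function.Injective σ ∧ (∀ l, σ l ≠ a) ∧
      (∀ l, e l ∈ (f (ε l)).support ∧ e l ⬝ᵥ s (σ l) = mn (s (σ l)) (f (ε l)) + 1) ∧
      w = ∑ l, (e l - B l - b (σ l))

end Pool.Agent.R885.N
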