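import Pool.Agent.R885.T0

set_option autoImplicit false
set_option linter.overlappingInstances false
set_option linter.unusedSectionVars false

namespace Pool.Agent.R885.N

/-! ## T1: the solution of an exceptional system. -/

section

variable {ι : Type} [Fintype ι] {k K : Type} [Field k] [Field K] [Algebra k K]

theorem t1_ev_single (x : ι → K) (w : ι → ℤ) (c : k) :
    ev x (Finsupp.single w c) = algebraMap k K c * mono x w := by
  unfold ev
  rw [Finsupp.sum_single_index]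
  rw [map_zero, zero_mul]

theorem t1_ev_add (x : ι → K) (f g : (ι → ℤ) →₀ k) : ev x (f + g) = ev x f + ev x g := by
  classical
  unfold ev
  exact Finsupp.sum_add_index' (fun m => by rw [map_zero, zero_mul])
    (fun m a b => by rw [map_add, add_mul])

theorem t1_ev_zero (x : ι → K) : ev x (0 : (ι → ℤ) →₀ k) = 0 := by
  unfold ev
  exact Finsupp.sum_zero_index

theorem t1_ev_sum {α : Type} (x : ι → K) (S : Finset α) (g : α → (ι → ℤ) →₀ k) :
    ev x (∑ i ∈ S, g i) = ∑ i ∈ S, ev x (g i) := by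
  classical
  induction S using Finset.induction_on with
  | empty => rw [Finset.sum_empty, Finset.sum_empty, t1_ev_zero]
  | insert a S ha ih => rw [Finset.sum_insert ha, Finset.sum_insert ha, t1_ev_add, ih]

theorem t1_mono_sum {α : Type} {x : ι → K} (hx : ∀ i, x i ≠ 0) (S : Finset α)
    (g : α → ι → ℤ) : mono x (∑ i ∈ S, g i) = ∏ i ∈ S, mono x (g i) := by
  classical
  induction S using Finset.induction_on with
  | empty => rw [Finset.sum_empty, Finset.prod_empty, mono_zero]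
  | insert a S ha ih => rw [Finset.sum_insert ha, Finset.prod_insert ha, mono_add hx, ih]

end

section

variable {k K : Type} [Field k] [Field K] [Algebra k K] {r m : ℕ} {x : Fin r → K}
  {J : Type} [Fintype J] {f : J → (Fin r → ℤ) →₀ k} {s : Fin (m + 1) → Fin r → ℤ}

open scoped Classical in
/-- the exponents of `f` of the type `a` -/
noncomputable def t1_F (s : Fin (m + 1) → Fin r → ℤ) (f : (Fin r → ℤ) →₀ k) (a : Fin (m + 1)) :
    Finset (Fin r → ℤ) :=
  f.support.filter fun m' => m' ⬝ᵥ s a = mn (s a) f + 1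

theorem t1_mem_F {s : Fin (m + 1) → Fin r → ℤ} {f : (Fin r → ℤ) →₀ k} {a : Fin (m + 1)}
    {m' : Fin r → ℤ} : m' ∈ t1_F s f a ↔ m' ∈ f.support ∧ m' ⬝ᵥ s a = mn (s a) f + 1 := by
  classical
  unfold t1_F
  rw [Finset.mem_filter]

theorem t1_Gp_eq (x : Fin r → K) (s : Fin (m + 1) → Fin r → ℤ) (f : (Fin r → ℤ) →₀ k)
    (a : Fin (m + 1)) :
    Gp x s f a = ∑ m' ∈ t1_F s f a, algebraMap k K (f m') * mono x m' := by
  unfold Gp t1_F
  rfl

/-- the entries of the matrix divided by monomials -/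
noncomputable def t1_γ (x : Fin r → K) (f : J → (Fin r → ℤ) →₀ k) (s : Fin (m + 1) → Fin r → ℤ)
    (ε : Fin m ≃ JC f s) (B : Fin m → Fin r → ℤ) (b : Fin (m + 1) → Fin r → ℤ) (l : Fin m)
    (a : Fin (m + 1)) : K :=
  ∑ m' ∈ t1_F s (f (ε l)) a, algebraMap k K (f (ε l) m') * mono x (m' - B l - b a)

theorem t1_Gp_γ (hx : ∀ i, x i ≠ 0) (ε : Fin m ≃ JC f s) (B : Fin m → Fin r → ℤ)
    (b : Fin (m + 1) → Fin r → ℤ) (l : Fin m) (a : Fin (m + 1)) :
    Gp x s (f (ε l)) a = mono x (B l) * (mono x (b a) * t1_γ x f s ε B b l a) := by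
  rw [t1_Gp_eq]
  unfold t1_γ
  rw [Finset.mul_sum, Finset.mul_sum]
  refine Finset.sum_congr rfl fun m' _ => ?_
  rw [mono_sub hx, mono_sub hx]
  have h2 := mono_ne hx (B l)
  have h3 := mono_ne hx (b a)
  field_simp

open scoped Classical in
/-- the signed minors as Laurent polynomials -/
noncomputable def t1_Δ (f : J → (Fin r → ℤ) →₀ k) (s : Fin (m + 1) → Fin r → ℤ)
    (ε : Fin m ≃ JC f s) (B : Fin m → Fin r → ℤ) (b : Fin (m + 1) → Fin r → ℤ)
    (a : Fin (m + 1)) : (Fin r → ℤ) →₀ k :=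
  ∑ σ : Equiv.Perm (Fin m),
    ∑ p ∈ Fintype.piFinset (fun i => t1_F s (f (ε (σ i))) (a.succAbove i)),
      Finsupp.single (∑ i, (p i - B (σ i) - b (a.succAbove i)))
        ((-1) ^ (a : ℕ) * ((Equiv.Perm.sign σ : ℤ) : k) * ∏ i, f (ε (σ i)) (p i))

theorem t1_ev_Δ (hx : ∀ i, x i ≠ 0) (ε : Fin m ≃ JC f s) (B : Fin m → Fin r → ℤ)
    (b : Fin (m + 1) → Fin r → ℤ) (a : Fin (m + 1)) :
    ev x (t1_Δ f s ε B b a) = (-1) ^ (a : ℕ) *
      (Matrix.of fun (l j : Fin m) => t1_γ x f s ε B b l (a.succAbove j)).det := by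
  classical
  unfold t1_Δ
  rw [t1_ev_sum, Matrix.det_apply', Finset.mul_sum]
  refine Finset.sum_congr rfl fun σ _ => ?_
  rw [t1_ev_sum]
  have h1 : ∏ i, (Matrix.of fun (l j : Fin m) => t1_γ x f s ε B b l (a.succAbove j)) (σ i) i =
      ∑ p ∈ Fintype.piFinset (fun i => t1_F s (f (ε (σ i))) (a.succAbove i)),
        ∏ i, (algebraMap k K (f (ε (σ i)) (p i)) *
          mono x (p i - B (σ i) - b (a.succAbove i))) := by
    have h2 := Finset.prod_univ_sum (fun i => t1_F s (f (ε (σ i))) (a.succAbove i))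
      (fun i m' => algebraMap k K (f (ε (σ i)) m') *
        mono x (m' - B (σ i) - b (a.succAbove i)))
    exact h2
  rw [h1, Finset.mul_sum, Finset.mul_sum]
  refine Finset.sum_congr rfl fun p _ => ?_
  rw [t1_ev_single, t1_mono_sum hx, Finset.prod_mul_distrib, map_mul, map_mul, map_prod, map_pow,
    map_neg, map_one, map_intCast]
  ring

theorem t1_supp_Δ (ε : Fin m ≃ JC f s) (B : Fin m → Fin r → ℤ)
    (b : Fin (m + 1) → Fin r → ℤ) (a : Fin (m + 1)) {w : Fin r → ℤ}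
    (hw : w ∈ (t1_Δ f s ε B b a).support) :
    ∃ (σ : Fin m → Fin (m + 1)) (e : Fin m → Fin r → ℤ),
    Function.Injective σ ∧ (∀ l, σ l ≠ a) ∧
      (∀ l, e l ∈ (f (ε l)).support ∧ e l ⬝ᵥ s (σ l) = mn (s (σ l)) (f (ε l)) + 1) ∧
      w = ∑ l, (e l - B l - b (σ l)) := by
  classical
  unfold t1_Δ at hw
  obtain ⟨σ, -, hw⟩ := Finsupp.mem_support_finsetSum _ hw
  obtain ⟨p, hp, hw⟩ := Finsupp.mem_support_finsetSum _ hw
  rw [Fintype.mem_piFinset] at hp
  have hw' := Finset.mem_singleton.1 (Finsupp.support_single_subset hw)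
  refine ⟨fun l => a.succAbove (σ.symm l), fun l => p (σ.symm l), ?_, ?_, ?_, ?_⟩
  · intro l l' h
    exact σ.symm.injective (Fin.succAbove_right_injective h)
  · intro l
    exact Fin.succAbove_ne _ _
  · intro l
    have h1 := t1_mem_F.1 (hp (σ.symm l))
    rw [σ.apply_symm_apply] at h1
    exact h1
  · rw [hw', ← Equiv.sum_comp σ fun l => p (σ.symm l) - B l - b (a.succAbove (σ.symm l))]
    refine Finset.sum_congr rfl fun i _ => ?_
    rw [σ.symm_apply_apply]

theorem Exc.solve (hE : Exc x f s) (hf0 : ∀ l, f l ≠ 0) (ε : Fin m ≃ JC f s) :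
    ∃ (B : Fin m → Fin r → ℤ) (b : Fin (m + 1) → Fin r → ℤ) (Δ : Fin (m + 1) → (Fin r → ℤ) →₀ k)
      (lam : K), Sol x f s ε B b Δ lam := by
  classical
  obtain ⟨b, hb⟩ := hE.dual
  -- base exponents
  have hB : ∀ l : Fin m, ∃ B : Fin r → ℤ, ∀ i, B ⬝ᵥ s i = mn (s i) (f (ε l)) +
      if i = 0 then 1 else 0 := by
    intro l
    obtain ⟨m1, hm1⟩ := Finsupp.support_nonempty_iff.2 (hf0 (ε l))
    obtain ⟨a, ha⟩ := exists_type hE.hs (hE.mn_eq _ (ε l).2) hm1
    refine ⟨m1 - b a, fun i => ?_⟩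
    rw [sub_dotProduct, ha, hb]
    ring
  choose B hB using hB
  have hexp : ∀ a, ∀ w ∈ (t1_Δ f s ε B b a).support,
      ∃ (σ : Fin m → Fin (m + 1)) (e : Fin m → Fin r → ℤ),
      Function.Injective σ ∧ (∀ l, σ l ≠ a) ∧
      (∀ l, e l ∈ (f (ε l)).support ∧ e l ⬝ᵥ s (σ l) = mn (s (σ l)) (f (ε l)) + 1) ∧
      w = ∑ l, (e l - B l - b (σ l)) := fun a w hw => t1_supp_Δ ε B b a hw
  have hG : ∀ a, (MQ x f s ε 0).det =
      (∏ l, mono x (B l)) * (∏ a' ∈ Finset.univ.erase a, mono x (b a')) *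
        ev x (t1_Δ f s ε B b a) := by
    intro a
    rw [← hE.det_MQ_eq ε a, t1_ev_Δ hE.hx]
    have h1 : MQ x f s ε a = Matrix.of fun (l j : Fin m) => mono x (B l) *
        (Matrix.of fun (l j : Fin m) => mono x (b (a.succAbove j)) *
          (Matrix.of fun (l j : Fin m) => t1_γ x f s ε B b l (a.succAbove j)) l j) l j := by
      ext l j
      rw [MQ_apply, t1_Gp_γ hE.hx ε B b]
      rfl
    rw [h1, Matrix.det_mul_column, Matrix.det_mul_row]
    have h2 : ∏ a' ∈ Finset.univ.erase a, mono x (b a') =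
        ∏ j : Fin m, mono x (b (a.succAbove j)) := by
      have h3 := Finset.mul_prod_erase Finset.univ (fun a' => mono x (b a')) (Finset.mem_univ a)
      rw [Fin.prod_univ_succAbove _ a] at h3
      exact mul_left_cancel₀ (mono_ne hE.hx (b a)) h3
    rw [h2]
    ring
  have h0 := hE.det_MQ_ne ε 0
  have hΔ0 : ∀ a, ev x (t1_Δ f s ε B b a) ≠ 0 := by
    intro a h1
    apply h0
    rw [hG a, h1, mul_zero]
  have hB0 : ∏ l, mono x (B l) ≠ 0 := Finset.prod_ne_zero_iff.2 fun l _ => mono_ne hE.hx _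
  have hb0 : ∏ a', mono x (b a') ≠ 0 := Finset.prod_ne_zero_iff.2 fun l _ => mono_ne hE.hx _
  refine ⟨B, b, t1_Δ f s ε B b,
    (MQ x f s ε 0).det / ((∏ l, mono x (B l)) * ∏ a', mono x (b a')), ?_, hB, hb, ?_, hΔ0, ?_,
    ?_, hexp⟩
  · exact div_ne_zero h0 (mul_ne_zero hB0 hb0)
  · intro a w hw i
    obtain ⟨σ, e, -, -, he, rfl⟩ := hexp a w hw
    rw [sum_dotProduct]
    refine Finset.sum_eq_zero fun l _ => ?_
    rw [sub_dotProduct, sub_dotProduct, type_eq hE.hs (hE.mn_eq _ (ε l).2) (he l).1 (he l).2, hB,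
      hb]
    ring
  · intro a
    have h3 := Finset.mul_prod_erase Finset.univ (fun a' => mono x (b a')) (Finset.mem_univ a)
    have h4 : ∏ a' ∈ Finset.univ.erase a, mono x (b a') ≠ 0 :=
      Finset.prod_ne_zero_iff.2 fun l _ => mono_ne hE.hx _
    have h5 := mono_ne hE.hx (b a)
    rw [hG a, ← h3]
    field_simp
  · intro a
    have e0 : (Matrix.of fun (l : Fin m) (i : Fin m) => Gp x s (f (ε l)) i.succ) =
        MQ x f s ε 0 := by
      ext l j
      rw [MQ_apply, Fin.zero_succAbove]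
      rfl
    rw [e0]
    exact hG a

end

end Pool.Agent.R885.N
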