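import Pool.Agent.R885.T8
import Pool.Agent.R885.NG12

/-!
Pairs with arbitrary coefficients: the polytope for `t < 1` is not empty.
-/

set_option autoImplicit false
set_option linter.overlappingInstances false
set_option linter.unusedSectionVars false

open FF IntermediateField Pool.Agent.W603.LV Pool.Agent.W619.PQ Pool.Agent.W619.PL
  Pool.Agent.W619.TW Pool.Agent.TH165.ACC Pool.Agent.TH122.AB
  Pool.Agent.W619.Y Pool.Agent.W824.PG Pool.Agent.Y173.QA Pool.Agent.Y174

namespace Pool.Agent.R885.N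

theorem t10_common {p : ℕ} (cw : Fin p → ℚ) (τ : ℚ) :
    ∃ D : ℕ, 1 ≤ D ∧ (∃ z : ℤ, (D : ℚ) * τ = z) ∧ ∀ j, ∃ z : ℤ, (D : ℚ) * cw j = z := by
  classical
  refine ⟨τ.den * ∏ j, (cw j).den, ?_, ?_, ?_⟩
  · exact Nat.mul_pos τ.den_pos (Finset.prod_pos fun j _ => (cw j).den_pos)
  · refine ⟨(∏ j, ((cw j).den : ℤ)) * τ.num, ?_⟩
    push_cast
    rw [← Rat.mul_den_eq_num τ]
    ring
  · intro j
    refine ⟨τ.den * (∏ i ∈ Finset.univ.erase j, ((cw i).den : ℤ)) * (cw j).num, ?_⟩
    rw [← Finset.mul_prod_erase Finset.univ (fun i => (cw i).den) (Finset.mem_univ j)]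
    push_cast
    rw [← Rat.mul_den_eq_num (cw j)]
    ring

theorem CSys.neg {k K : Type} [Field k] [CharZero k] [IsAlgClosed k] [Field K] [Algebra k K]
    {n : ℕ} (hn : 1 ≤ n) (htr : Algebra.trdeg k K = (n : ℕ)) {β : Place k K → ℝ} {r q p : ℕ}
    {x : Fin r → K} {f : Fin q → (Fin r → ℤ) →₀ k} {h : Fin p → (Fin r → ℤ) →₀ k}
    {cw : Fin p → ℚ} (hB : CSys n β x f h cw) {τ : ℚ} (hτ0 : 0 < τ) (hτ1 : τ < 1)
    (hF : (FineW (fun _ => τ) (Sum.elim (fun _ => 1) cw) (Sum.elim f h)).Nonempty) {d : ℕ}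
    (hdn : d < n) (hd : Algebra.trdeg k (IntermediateField.adjoin k
      {z : K | ∃ w ∈ dirsW (fun _ => τ) (Sum.elim (fun _ => 1) cw) (Sum.elim f h),
        z = mono x w}) = (d : ℕ)) : NegB k K n β := by
  classical
  intro T
  have hr := hB.hr
  have hx := hB.hx
  have hgen := hB.hgen
  have hf := hB.hf
  have hhx := hB.hhx
  have hndf := hB.hnd
  obtain ⟨D, hD, hAD, hcD⟩ := t10_common cw τ
  have hini : ∀ g : (Fin r → ℤ) →₀ k, ini 0 g = g := by
    intro g
    by_cases hg : g = 0
    · rw [hg]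
      unfold ini
      rw [Finsupp.filter_zero]
    · exact ini_zero hg
  have hf0 : ∀ l, f l ≠ 0 := by
    have h1 := hndf.self fun l => by rw [hini]; exact hf l
    intro l h0
    have h2 := h1.ne_zero l
    apply h2
    rw [hini, h0]
    funext i
    unfold gr
    exact Finsupp.sum_zero_index
  have hh0 : ∀ j, h j ≠ 0 := by
    intro j h0
    apply hhx j
    rw [h0]
    unfold ev
    exact Finsupp.sum_zero_index
  obtain ⟨u0, c, a, nl, S, B, hc, hB0, ha, hnl, hF', hS, hpos, hgr, hdirs⟩ :=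
    exists_tightW (g := Sum.elim f h) (wt := Sum.elim (fun _ => 1) cw) (by
      rintro (l | j)
      · exact hf0 l
      · exact hh0 j) hD (fun _ _ => hτ0) (fun _ => hτ1.le) (fun _ => hAD) (by
      rintro (l | j)
      · exact ⟨D, by simp⟩
      · exact hcD j) hF
  have hcq : (0 : ℚ) < c := by exact_mod_cast hc
  have hnl1 : ∀ l, nl (Sum.inl l) = c := by
    intro l
    have h1 := hnl (Sum.inl l)
    rw [Sum.elim_inl, mul_one] at h1
    exact_mod_cast h1
  obtain ⟨nn, hnnd⟩ : ∃ nn : Fin p → ℤ, nn = fun j => nl (Sum.inr j) := ⟨_, rfl⟩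
  have hnnq : ∀ j, (nn j : ℚ) = c * cw j := by
    intro j
    rw [hnnd]
    exact hnl (Sum.inr j)
  have hPh : ∀ v, a v + ∑ l, nl l * mn v (Sum.elim f h l) = Ph c a nn f h v := by
    intro v
    unfold Ph
    rw [Fintype.sum_sum_type, Finset.mul_sum, ← add_assoc, hnnd]
    congr 2
    refine Finset.sum_congr rfl fun l _ => ?_
    rw [hnl1]
    rfl
  simp only [hPh] at hF' hS hgr
  have hnn : ∀ j, 0 ≤ nn j := by
    intro j
    have h1 : (0 : ℚ) ≤ nn j := by
      rw [hnnq]
      exact mul_nonneg hcq.le (hB.cw0 j).le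
    exact_mod_cast h1
  have hnc : ∀ j, nn j ≤ c := by
    intro j
    have h1 : (nn j : ℚ) ≤ c := by
      rw [hnnq]
      have := hB.cw1 j
      nlinarith
    exact_mod_cast h1
  have ha0 : ∀ v, v ≠ 0 → 0 ≤ a v := by
    intro v hv
    have h1 : (0 : ℚ) ≤ a v := by
      rw [ha]
      exact mul_nonneg hcq.le hτ0.le
    exact_mod_cast h1
  have hac : ∀ v, v ≠ 0 → a v ≤ c := by
    intro v _
    have h1 : (a v : ℚ) ≤ c := by
      rw [ha]
      nlinarith
    exact_mod_cast h1
  have ha2 : ∀ v w, v ≠ 0 → w ≠ 0 → v + w ≠ 0 → a v + a w - c ≤ a (v + w) := by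
    intro v w hv hw hvw
    have h1 : (a v : ℚ) + a w - c ≤ a (v + w) := by
      rw [ha, ha, ha]
      nlinarith
    exact_mod_cast h1
  have ha3 : ∀ (g : ℤ) v, 0 < g → v ≠ 0 → a (g • v) ≤ g * a v := by
    intro g v hg hv
    have h1 : (a (g • v) : ℚ) ≤ g * a v := by
      rw [ha, ha]
      have h2 : (1 : ℚ) ≤ g := by exact_mod_cast hg
      have h3 : 0 < (c : ℚ) * τ := mul_pos hcq hτ0
      nlinarith
    exact_mod_cast h1
  have hcr : (0 : ℝ) < c := by exact_mod_cast hc
  obtain ⟨t, htG, htind, htalg⟩ := exists_mono_basis hd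
  choose w hw hwt using htG
  have hwS : ∀ j, ∀ s ∈ S, w j ⬝ᵥ s = 0 := fun j => (hdirs (w j)).1 (hw j)
  have htw : t = fun j => mono x (w j) := funext hwt
  have hess : Algebra.EssFiniteType k K := by
    rw [← IntermediateField.fg_top_iff, ← hgen]
    exact ⟨Finset.univ.image x, by rw [Finset.coe_image, Finset.coe_univ, Set.image_univ]⟩
  obtain ⟨m, rfl⟩ : ∃ m, n = d + (m + 1) := ⟨n - d - 1, by omega⟩
  refine pairNeg_gen hess htind htr ?_ T
  intro Λ F _ _ _ _ _ _ _ φ hφgen hΛF t' ht' htt' hcon δ' hδ' T'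
  have hinj : Function.Injective φ := (φ : K →+* F).injective
  have e' : (Fin q ⊕ Fin d) ⊕ Fin (m + 1) ≃ Fin r := Fintype.equivOfCardEq (by
    simp only [Fintype.card_sum, Fintype.card_fin]
    omega)
  have hmono : ∀ w' : Fin r → ℤ, φ (mono x w') = mono (fun i => φ (x i)) w' := fun w' =>
    map_mono (φ : K →+* F) x w'
  have hevφ : ∀ j, ev (fun i => φ (x i)) (h j) = φ (ev x (h j)) := fun j => (map_ev φ x _).symm
  have hxφ : ∀ i, φ (x i) ≠ 0 := fun i h0 => hx i (hinj (by rw [h0, map_zero]))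
  have hhφ : ∀ j, ev (fun i => φ (x i)) (h j) ≠ 0 := by
    intro j h0
    rw [hevφ] at h0
    exact hhx j (hinj (by rw [h0, map_zero]))
  -- places under the places of the fibre
  have hvecφ : ∀ (P : Place Λ F) (v : Place k K) (e : ℕ), (∀ z, P.ord (φ z) = e * v.ord z) →
      vec P (fun i => φ (x i)) = (e : ℤ) • vec v x := by
    intro P v e hv
    funext i
    exact hv (x i)
  have hcΛ : CharZero Λ := charZero_of_injective_algebraMap (algebraMap k Λ).injective
  -- the orders of the polynomials at the places with the vector zero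
  have hord0 : ∀ (P : Place Λ F), vec P (fun i => φ (x i)) = 0 → ∀ j,
      0 ≤ P.ord (ev (fun i => φ (x i)) (h j)) := by
    intro P hP j
    have h1 := ge_mn P hxφ ((h j).mapRange (algebraMap k Λ) (map_zero _))
    rw [mn_map, ev_map, hP, mn_zero (hh0 j)] at h1
    exact h1.resolve_left (hhφ j)
  refine pair_fibre_negC (k := k) (f := f) (h := h) (S := S) (u0 := u0) (c := c) (a' := a)
    (nn := nn) (w := w) (t := t')
    (x := fun i => φ (x i)) e' hΛF hxφ ?_ hf0 ?_ hh0 hhφ (hndf.gen F φ)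
      (fun P => hndf.place Λ F φ P) hc hnn hnc ha0 hac ha2 ha3 hF' hS hpos
    ?_ hwS ht' ?_ ?_ ?_ ?_ (ε := c * (1 - τ)) ?_ ?_ T'
  · rw [eq_top_iff, ← hφgen, IntermediateField.adjoin_le_iff]
    rintro _ ⟨z, rfl⟩
    have hz : z ∈ IntermediateField.adjoin k (Set.range x) := by
      rw [hgen]
      trivial
    have h1 : IntermediateField.adjoin k (Set.range x) ≤
        ((IntermediateField.adjoin Λ (Set.range fun i => φ (x i))).restrictScalars k).comap
          φ := by
      rw [IntermediateField.adjoin_le_iff]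
      rintro _ ⟨i, rfl⟩
      exact IntermediateField.subset_adjoin Λ _ ⟨i, rfl⟩
    exact h1 hz
  · intro l
    rw [← map_ev, hf, map_zero]
  · intro j h0
    have h1 : t j = algebraMap k K 1 := by
      rw [hwt, h0, mono_zero, map_one]
    have h2 := htind.transcendental j
    rw [h1] at h2
    exact h2 (isAlgebraic_algebraMap 1)
  · intro j
    rw [htt', hwt, hmono]
  · intro w' hw'
    have h1 := htalg (mono x w') ⟨w', (hdirs w').2 hw', rfl⟩
    obtain ⟨a, ha⟩ := hcon _ h1
    exact ⟨a, by rw [ha, hmono]⟩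
  · -- the multiplicities are at most one
    intro P
    rcases hδ' P with ⟨v, e, he, hv, hδ⟩ | h0
    · rw [hδ]
      have h1 : (1 : ℝ) ≤ e := by exact_mod_cast he
      have h2 := hB.le1 v
      refine max_le zero_le_one ?_
      nlinarith
    · rw [h0]
      exact zero_le_one
  · -- the places with the vector zero
    intro P hP
    have hsum0 : (0 : ℝ) ≤ ((∑ j, nn j * P.ord (ev (fun i => φ (x i)) (h j)) : ℤ) : ℝ) := by
      have h1 : 0 ≤ ∑ j, nn j * P.ord (ev (fun i => φ (x i)) (h j)) :=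
        Finset.sum_nonneg fun j _ => mul_nonneg (hnn j) (hord0 P hP j)
      exact_mod_cast h1
    rcases hδ' P with ⟨v, e, he, hv, hδ⟩ | h0
    · have he' : ((e : ℕ) : ℤ) ≠ 0 := by omega
      have hvv : vec v x = 0 := by
        rw [hvecφ P v e hv] at hP
        exact (smul_eq_zero.1 hP).resolve_left he'
      have h1 : (1 : ℝ) ≤ e := by exact_mod_cast he
      rw [hδ, mul_max_of_nonneg _ _ hcr.le, mul_zero]
      refine max_le hsum0 ?_
      have h2 := mul_le_mul_of_nonneg_left (hB.up0 v hvv) hcr.le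
      have h3 : ((∑ j, nn j * P.ord (ev (fun i => φ (x i)) (h j)) : ℤ) : ℝ) =
          e * (c * ∑ j, ((cw j : ℚ) : ℝ) * (v.ord (ev x (h j)) : ℝ)) := by
        push_cast
        rw [Finset.mul_sum, Finset.mul_sum]
        refine Finset.sum_congr rfl fun j _ => ?_
        have h4 : (nn j : ℝ) = c * ((cw j : ℚ) : ℝ) := by exact_mod_cast hnnq j
        rw [hevφ, hv, h4]
        push_cast
        ring
      rw [h3]
      have h5 : (c : ℝ) * (1 - e * (1 - β v)) ≤ e * (c * β v) := by
        nlinarith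
      exact h5.trans (mul_le_mul_of_nonneg_left h2 (by linarith))
    · rw [h0, mul_zero]
      exact hsum0
  · have h1 : (0 : ℝ) < 1 - τ := by
      have : ((τ : ℚ) : ℝ) < 1 := by exact_mod_cast hτ1
      linarith
    exact mul_pos hcr h1
  · intro P hP
    have har : (a (vec P fun i => φ (x i)) : ℝ) = c * ((τ : ℚ) : ℝ) := by
      exact_mod_cast ha (vec P fun i => φ (x i))
    have hδ0 : δ' P ≤ 0 := by
      rcases hδ' P with ⟨v, e, he, hv, hδ⟩ | h0
      · have hPv := hvecφ P v e hv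
        have hvv : vec v x ≠ 0 := by
          intro h1
          rw [h1, smul_zero] at hPv
          exact hP hPv
        rw [hδ]
        have h1 : (1 : ℝ) ≤ e := by exact_mod_cast he
        have h2 := hB.up1 v hvv
        refine max_le le_rfl ?_
        nlinarith
      · exact h0.le
    push_cast
    rw [har]
    nlinarith

end Pool.Agent.R885.N
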