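import Pool.Agent.R885.P2

/-!
The largest parameter for which the polytope is not empty, with weights.
-/

set_option autoImplicit false
set_option linter.overlappingInstances false
set_option linter.unusedSectionVars false

namespace Pool.Agent.R885.N

section

variable {r : ℕ} {J k : Type} [Fintype J] [Field k] {g : J → (Fin r → ℤ) →₀ k}

/-- **Finitely many vectors suffice** (with weights). -/
theorem t11_fin_red (hf0 : ∀ l, g l ≠ 0) (wt : J → ℚ)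
    (hU : ∀ v : Fin r → ℤ, (∀ l, ∀ m ∈ (g l).support, ∀ m' ∈ (g l).support,
      m ⬝ᵥ v = m' ⬝ᵥ v) → v = 0) :
    ∃ V0 : Finset (Fin r → ℤ), (∀ v ∈ V0, v ≠ 0) ∧ ∀ (u : Fin r → ℚ) (t : ℚ), 0 ≤ t →
      (∀ v ∈ V0, t + ∑ l, wt l * (mn v (g l) : ℚ) ≤ dq u v) →
      ∀ v, v ≠ 0 → t + ∑ l, wt l * (mn v (g l) : ℚ) ≤ dq u v := by
  classical
  let Ch := (l : J) → {m // m ∈ (g l).support}
  let E := Σ l : J, {m // m ∈ (g l).support}
  let σ : Ch → Set (Fin r → ℤ) := fun a => {v | ∀ l, (a l : Fin r → ℤ) ⬝ᵥ v = mn v (g l)}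
  let Φ : Ch → (Fin r → ℤ) → E → ℕ := fun a v e =>
    (((e.2 : Fin r → ℤ) - (a e.1 : Fin r → ℤ)) ⬝ᵥ v).toNat
  have hΦ : ∀ a v, v ∈ σ a → ∀ e, (Φ a v e : ℤ) =
      ((e.2 : Fin r → ℤ) - (a e.1 : Fin r → ℤ)) ⬝ᵥ v := by
    intro a v hv e
    refine Int.toNat_of_nonneg ?_
    rw [sub_dotProduct, hv e.1]
    exact sub_nonneg.2 (mn_le e.2.2)
  have hinj : ∀ a, Set.InjOn (Φ a) (σ a) := by
    intro a v hv w hw hvw
    rw [← sub_eq_zero]
    refine hU _ fun l m hm m' hm' => ?_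
    have key : ∀ m ∈ (g l).support, m ⬝ᵥ (v - w) = (a l : Fin r → ℤ) ⬝ᵥ (v - w) := by
      intro m hm
      have h1 := hΦ a v hv ⟨l, m, hm⟩
      have h2 := hΦ a w hw ⟨l, m, hm⟩
      rw [hvw, h2] at h1
      change (m - (a l : Fin r → ℤ)) ⬝ᵥ w = (m - (a l : Fin r → ℤ)) ⬝ᵥ v at h1
      rw [sub_dotProduct, sub_dotProduct] at h1
      rw [dotProduct_sub, dotProduct_sub]
      omega
    rw [key m hm, key m' hm']
  have h0σ : ∀ a, (0 : Fin r → ℤ) ∈ σ a := by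
    intro a l
    rw [dotProduct_zero, mn_zero (hf0 l)]
  have hsub : ∀ a v w, v ∈ σ a → w ∈ σ a → Φ a w ≤ Φ a v → v - w ∈ σ a := by
    intro a v w hv hw hle l
    apply le_antisymm
    · refine le_mn (hf0 l) fun m hm => ?_
      have h1 := hΦ a v hv ⟨l, m, hm⟩
      have h2 := hΦ a w hw ⟨l, m, hm⟩
      have h3 : (Φ a w ⟨l, m, hm⟩ : ℤ) ≤ Φ a v ⟨l, m, hm⟩ := by exact_mod_cast hle ⟨l, m, hm⟩
      rw [h1, h2] at h3
      change (m - (a l : Fin r → ℤ)) ⬝ᵥ w ≤ (m - (a l : Fin r → ℤ)) ⬝ᵥ v at h3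
      rw [sub_dotProduct, sub_dotProduct] at h3
      rw [dotProduct_sub, dotProduct_sub]
      omega
    · exact mn_le (a l).2
  let Mi : Ch → Set (Fin r → ℤ) := fun a => {v | v ∈ σ a ∧ v ≠ 0 ∧
    ∀ w ∈ σ a, w ≠ 0 → Φ a w ≤ Φ a v → Φ a w = Φ a v}
  have hMfin : ∀ a, (Mi a).Finite := by
    intro a
    refine Set.Finite.of_finite_image (f := Φ a) ?_ ((hinj a).mono fun v hv => hv.1)
    refine WellQuasiOrderedLE.finite_of_isAntichain ?_
    rintro _ ⟨v, hv, rfl⟩ _ ⟨w, hw, rfl⟩ hne hle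
    exact hne (hw.2.2 v hv.1 hv.2.1 hle)
  have hfin : (⋃ a, Mi a).Finite := Set.finite_iUnion hMfin
  refine ⟨hfin.toFinset, fun v hv => ?_, fun u t ht hV v hv => ?_⟩
  · rw [Set.Finite.mem_toFinset, Set.mem_iUnion] at hv
    obtain ⟨a, ha⟩ := hv
    exact ha.2.1
  have hV' : ∀ a, ∀ v ∈ Mi a, t + ∑ l, wt l * (mn v (g l) : ℚ) ≤ dq u v := fun a v hv =>
    hV v (by rw [Set.Finite.mem_toFinset, Set.mem_iUnion]; exact ⟨a, hv⟩)
  choose m hm hm' using fun l => exists_mn (hf0 l) v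
  obtain ⟨a, had⟩ : ∃ a : Ch, a = fun l => ⟨m l, hm l⟩ := ⟨_, rfl⟩
  have hva : v ∈ σ a := by
    intro l
    rw [had]
    exact hm' l
  clear hm hm' had m
  obtain ⟨N, hN⟩ : ∃ N, ∑ e, Φ a v e ≤ N := ⟨_, le_rfl⟩
  induction N generalizing v with
  | zero =>
    exfalso
    apply hv
    refine hinj a hva (h0σ a) ?_
    funext e
    have h1 : Φ a v e = 0 := by
      have h2 := (Finset.sum_eq_zero_iff (s := Finset.univ) (f := fun e => Φ a v e)).1
        (Nat.le_zero.1 hN) e (Finset.mem_univ e)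
      exact h2
    rw [h1]
    change 0 = (((e.2 : Fin r → ℤ) - (a e.1 : Fin r → ℤ)) ⬝ᵥ (0 : Fin r → ℤ)).toNat
    rw [dotProduct_zero, Int.toNat_zero]
  | succ N ih =>
    -- a minimal vector below `v`
    obtain ⟨w, hwa, hw0, hwv, hwmin⟩ : ∃ w ∈ σ a, w ≠ 0 ∧ Φ a w ≤ Φ a v ∧
        ∀ w' ∈ σ a, w' ≠ 0 → Φ a w' ≤ Φ a v → ∑ e, Φ a w e ≤ ∑ e, Φ a w' e := by
      have h1 : ∃ s, ∃ w ∈ σ a, w ≠ 0 ∧ Φ a w ≤ Φ a v ∧ ∑ e, Φ a w e = s :=
        ⟨_, v, hva, hv, le_rfl, rfl⟩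
      obtain ⟨w, hw1, hw2, hw3, hw4⟩ := Nat.find_spec h1
      refine ⟨w, hw1, hw2, hw3, fun w' h5 h6 h7 => ?_⟩
      rw [hw4]
      exact Nat.find_min' h1 ⟨w', h5, h6, h7, rfl⟩
    have hwM : w ∈ Mi a := by
      refine ⟨hwa, hw0, fun w' h1 h2 h3 => ?_⟩
      have h4 := hwmin w' h1 h2 (h3.trans hwv)
      by_contra hne
      obtain ⟨e, he⟩ : ∃ e, Φ a w' e < Φ a w e := by
        by_contra hcon
        push Not at hcon
        exact hne (le_antisymm h3 hcon)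
      have h5 := Finset.sum_lt_sum (s := Finset.univ) (fun e _ => h3 e) ⟨e, Finset.mem_univ e, he⟩
      omega
    by_cases hvw : v = w
    · rw [hvw]
      exact hV' a w hwM
    have hd : v - w ∈ σ a := hsub a v w hva hwa hwv
    have hd0 : v - w ≠ 0 := sub_ne_zero.2 hvw
    have hsum : ∀ e, Φ a (v - w) e + Φ a w e = Φ a v e := by
      intro e
      have h1 := hΦ a v hva e
      have h2 := hΦ a w hwa e
      have h3 := hΦ a (v - w) hd e
      rw [dotProduct_sub, ← h1, ← h2] at h3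
      omega
    have hwpos : 0 < ∑ e, Φ a w e := by
      rw [pos_iff_ne_zero]
      intro h1
      apply hw0
      refine hinj a hwa (h0σ a) ?_
      funext e
      have h2 := (Finset.sum_eq_zero_iff (s := Finset.univ) (f := fun e => Φ a w e)).1 h1 e
        (Finset.mem_univ e)
      rw [h2]
      change 0 = (((e.2 : Fin r → ℤ) - (a e.1 : Fin r → ℤ)) ⬝ᵥ (0 : Fin r → ℤ)).toNat
      rw [dotProduct_zero, Int.toNat_zero]
    have h1 := ih (v - w) hd0 hd (by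
      have h2 : ∑ e, Φ a (v - w) e + ∑ e, Φ a w e = ∑ e, Φ a v e := by
        rw [← Finset.sum_add_distrib]
        exact Finset.sum_congr rfl fun e _ => hsum e
      omega)
    have h2 := hV' a w hwM
    have h3 : ∀ l, mn v (g l) = mn (v - w) (g l) + mn w (g l) := by
      intro l
      rw [← hva l, ← hd l, ← hwa l, dotProduct_sub]
      ring
    have h4 : ∑ l, wt l * (mn v (g l) : ℚ) =
        ∑ l, wt l * (mn (v - w) (g l) : ℚ) + ∑ l, wt l * (mn w (g l) : ℚ) := by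
      rw [← Finset.sum_add_distrib]
      refine Finset.sum_congr rfl fun l _ => ?_
      rw [h3]
      push_cast
      ring
    have h5 : dq u v = dq u (v - w) + dq u w := by
      rw [← dq_add', sub_add_cancel]
    rw [h4, h5]
    linarith

/-- a point for a small parameter (with weights) -/
theorem t11_exists_small (hf0 : ∀ l, g l ≠ 0) {wt : J → ℚ} (hwt : ∀ l, 0 < wt l)
    (hU : ∀ v : Fin r → ℤ, (∀ l, ∀ m ∈ (g l).support, ∀ m' ∈ (g l).support,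
      m ⬝ᵥ v = m' ⬝ᵥ v) → v = 0) :
    ∃ t0 : ℚ, 0 < t0 ∧ t0 ≤ 1 ∧ ∃ u : Fin r → ℚ, ∀ v, v ≠ 0 →
      t0 + ∑ l, wt l * (mn v (g l) : ℚ) ≤ dq u v := by
  classical
  obtain ⟨N, hN⟩ : ∃ N : J → ℚ, N = fun l => ((g l).support.card : ℚ) := ⟨_, rfl⟩
  have hN1 : ∀ l, 1 ≤ N l := by
    intro l
    rw [hN]
    have : 1 ≤ (g l).support.card := Finset.card_pos.2 (Finsupp.support_nonempty_iff.2 (hf0 l))
    change (1 : ℚ) ≤ ((g l).support.card : ℚ)
    exact_mod_cast this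
  obtain ⟨y, hy⟩ : ∃ y : Fin r → ℚ, y = fun i =>
      ∑ l, wt l * ((∑ m ∈ (g l).support, (m i : ℚ)) / N l) := ⟨_, rfl⟩
  have hyv : ∀ v, dq y v - ∑ l, wt l * (mn v (g l) : ℚ) =
      ∑ l, wt l * ((∑ m ∈ (g l).support, ((m ⬝ᵥ v - mn v (g l) : ℤ) : ℚ)) / N l) := by
    intro v
    have h1 : dq y v = ∑ l, wt l * ((∑ m ∈ (g l).support, ((m ⬝ᵥ v : ℤ) : ℚ)) / N l) := by
      rw [hy]
      unfold dq dotProduct
      push_cast
      simp only [Finset.sum_mul]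
      rw [Finset.sum_comm]
      refine Finset.sum_congr rfl fun l _ => ?_
      rw [Finset.sum_comm, Finset.sum_div, Finset.mul_sum]
      refine Finset.sum_congr rfl fun i _ => ?_
      rw [← Finset.sum_mul]
      ring
    rw [h1, ← Finset.sum_sub_distrib]
    refine Finset.sum_congr rfl fun l _ => ?_
    have h2 : ∑ m ∈ (g l).support, ((m ⬝ᵥ v - mn v (g l) : ℤ) : ℚ) =
        ∑ m ∈ (g l).support, ((m ⬝ᵥ v : ℤ) : ℚ) - N l * (mn v (g l) : ℚ) := by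
      push_cast
      rw [Finset.sum_sub_distrib, Finset.sum_const, nsmul_eq_mul, hN]
    rw [h2, sub_div, mul_div_cancel_left₀]
    · ring
    · have := hN1 l
      linarith
  have hnw : ∀ l, 0 < N l / wt l := fun l => div_pos (by have := hN1 l; linarith) (hwt l)
  have hSN : 0 ≤ ∑ l, N l / wt l := Finset.sum_nonneg fun l _ => (hnw l).le
  refine ⟨1 / (1 + ∑ l, N l / wt l), by positivity, ?_, y, fun v hv => ?_⟩
  · rw [div_le_one (by positivity)]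
    linarith
  · have hex : ∃ l, ∃ m ∈ (g l).support, mn v (g l) < m ⬝ᵥ v := by
      by_contra hcon
      push Not at hcon
      refine hv (hU v fun l m hm m' hm' => ?_)
      rw [le_antisymm (hcon l m hm) (mn_le hm), le_antisymm (hcon l m' hm') (mn_le hm')]
    obtain ⟨l0, m0, hm0, hlt⟩ := hex
    have hnn : ∀ l, 0 ≤ wt l * ((∑ m ∈ (g l).support, ((m ⬝ᵥ v - mn v (g l) : ℤ) : ℚ)) / N l) := by
      intro l
      refine mul_nonneg (hwt l).le (div_nonneg (Finset.sum_nonneg fun m hm => ?_)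
        (by have := hN1 l; linarith))
      have : 0 ≤ m ⬝ᵥ v - mn v (g l) := sub_nonneg.2 (mn_le hm)
      exact_mod_cast this
    have h1 : 1 / (N l0 / wt l0) ≤
        wt l0 * ((∑ m ∈ (g l0).support, ((m ⬝ᵥ v - mn v (g l0) : ℤ) : ℚ)) / N l0) := by
      have h2 : (1 : ℚ) ≤ ((m0 ⬝ᵥ v - mn v (g l0) : ℤ) : ℚ) := by
        have : 1 ≤ m0 ⬝ᵥ v - mn v (g l0) := by omega
        exact_mod_cast this
      have h3 : (1 : ℚ) ≤ ∑ m ∈ (g l0).support, ((m ⬝ᵥ v - mn v (g l0) : ℤ) : ℚ) := by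
        refine h2.trans (Finset.single_le_sum
          (f := fun m => ((m ⬝ᵥ v - mn v (g l0) : ℤ) : ℚ)) (fun m hm => ?_) hm0)
        have : 0 ≤ m ⬝ᵥ v - mn v (g l0) := sub_nonneg.2 (mn_le hm)
        exact_mod_cast this
      have h4 : 1 / (N l0 / wt l0) = wt l0 * (1 / N l0) := by
        rw [one_div_div]
        ring
      rw [h4]
      refine mul_le_mul_of_nonneg_left ?_ (hwt l0).le
      exact div_le_div_of_nonneg_right h3 (by have := hN1 l0; linarith)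
    have h2 : 1 / (1 + ∑ l, N l / wt l) ≤ 1 / (N l0 / wt l0) := by
      refine one_div_le_one_div_of_le (hnw l0) ?_
      have h3 := Finset.single_le_sum (f := fun l => N l / wt l) (fun l _ => (hnw l).le)
        (Finset.mem_univ l0)
      linarith
    have h3 := Finset.single_le_sum (s := Finset.univ) (fun l _ => hnn l) (Finset.mem_univ l0)
    have h4 := hyv v
    linarith

end

/-- **The largest parameter** (with weights). -/
theorem exists_bestW {r : ℕ} {J k : Type} [Fintype J] [Field k] {g : J → (Fin r → ℤ) →₀ k}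
    (hg0 : ∀ l, g l ≠ 0) {wt : J → ℚ} (hwt : ∀ l, 0 < wt l)
    (hU : ∀ v : Fin r → ℤ, (∀ l, ∀ m ∈ (g l).support, ∀ m' ∈ (g l).support,
      m ⬝ᵥ v = m' ⬝ᵥ v) → v = 0) :
    ∃ t : ℚ, 0 < t ∧ t ≤ 1 ∧ (∃ u : Fin r → ℚ, ∀ v, v ≠ 0 →
      t + ∑ l, wt l * (mn v (g l) : ℚ) ≤ dq u v) ∧
      (t < 1 → ∀ t', t < t' → ¬ ∃ u : Fin r → ℚ, ∀ v, v ≠ 0 →
        t' + ∑ l, wt l * (mn v (g l) : ℚ) ≤ dq u v) := by
  obtain ⟨V0, hV0, hred⟩ := t11_fin_red hg0 wt hU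
  obtain ⟨t0, h0, h1, u, hu⟩ := t11_exists_small hg0 hwt hU
  obtain ⟨t, ht0, ht1, ⟨u', hu'⟩, hmax⟩ := exists_tmax V0
    (fun v => ∑ l, wt l * (mn v (g l) : ℚ)) ⟨u, fun v hv => hu v (hV0 v hv)⟩ h1
  refine ⟨t, h0.trans_le ht0, ht1, ⟨u', hred u' t (h0.le.trans ht0) hu'⟩, fun ht t' htt' => ?_⟩
  rintro ⟨w, hw⟩
  exact hmax ht t' htt' ⟨w, fun v hv => hw v (hV0 v hv)⟩

end Pool.Agent.R885.N
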