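import Pool.Agent.R885.T0

/-!
The arithmetic of the circuits, for pairs.
-/

set_option autoImplicit false
set_option linter.overlappingInstances false
set_option linter.unusedSectionVars false
set_option linter.unusedVariables false

namespace Pool.Agent.R885.N

/-- linear functions on the lattice and the minimum, for a sum -/
theorem t12_sum_mn_le {ι : Type} [Fintype ι] {k : Type} [Field k] {A : Type}
    {g : (ι → ℤ) →₀ k} (hg : g ≠ 0) (T : Finset A) (s : A → ι → ℤ) :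
    ∑ a ∈ T, mn (s a) g ≤ mn (∑ a ∈ T, s a) g := by
  refine le_mn hg fun m' hm' => ?_
  rw [dotProduct_sum]
  exact Finset.sum_le_sum fun i _ => mn_le hm'

/-- the support function of a pair, for a sum over a finite set -/
theorem t12_Ph_sum {r m : ℕ} {k J J' : Type} [Field k] [Fintype J] [Fintype J']
    {f : J → (Fin r → ℤ) →₀ k} {h : J' → (Fin r → ℤ) →₀ k} {s : Fin (m + 1) → Fin r → ℤ}
    {u0 : Fin r → ℤ} {C a : ℤ} {nn : J' → ℤ}
    (hs : ∀ i, u0 ⬝ᵥ s i = Ph C (fun _ => a) nn f h (s i)) (T : Finset (Fin (m + 1))) :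
    u0 ⬝ᵥ (∑ i ∈ T, s i) = T.card * a + C * ∑ l, ∑ i ∈ T, mn (s i) (f l) +
      ∑ j, nn j * ∑ i ∈ T, mn (s i) (h j) := by
  rw [dotProduct_sum, Finset.sum_congr rfl fun i _ => hs i]
  unfold Ph
  rw [Finset.sum_add_distrib, Finset.sum_add_distrib, Finset.sum_const, nsmul_eq_mul,
    ← Finset.mul_sum, Finset.sum_comm]
  congr 1
  rw [Finset.sum_comm]
  exact Finset.sum_congr rfl fun j _ => by rw [Finset.mul_sum]

/-- **The arithmetic of the circuits.** -/
theorem exc_arithW {k : Type} [Field k] {r m : ℕ} {J J' : Type} [Fintype J] [Fintype J']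
    {f : J → (Fin r → ℤ) →₀ k} {h : J' → (Fin r → ℤ) →₀ k} (hf0 : ∀ l, f l ≠ 0)
    (hh0 : ∀ j, h j ≠ 0) {s : Fin (m + 1) → Fin r → ℤ} {c : Fin (m + 1) → ℚ}
    (hm : 1 ≤ m) (hc : ∀ i, 0 < c i) (hrel : ∀ j, ∑ i, c i * (s i j : ℚ) = 0)
    (huniq : ∀ μ : Fin (m + 1) → ℚ, (∀ j, ∑ i, μ i * (s i j : ℚ) = 0) → ∃ d, ∀ i, μ i = d * c i)
    {u0 : Fin r → ℤ} {C a : ℤ} {nn : J' → ℤ} {cw : J' → ℚ} (hC : 0 < C) (ha : a < C)
    (ha0 : 0 ≤ a) (hnn : ∀ j, 0 ≤ nn j) (hcw : ∀ j, (nn j : ℚ) = C * cw j)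
    (hF : ∀ v, v ≠ 0 → Ph C (fun _ => a) nn f h v ≤ u0 ⬝ᵥ v)
    (hs : ∀ i, u0 ⬝ᵥ s i = Ph C (fun _ => a) nn f h (s i)) (hcard : m ≤ (JC f s).card) :
    ∑ i, s i = 0 ∧ (JC f s).card = m ∧ (∀ l ∈ JC f s, ∑ i, mn (s i) (f l) = -1) ∧
      SubC f h cw s := by
  classical
  obtain ⟨N, hN⟩ : ∃ N : J → ℤ, N = fun l => -∑ i, mn (s i) (f l) := ⟨_, rfl⟩
  have hmn : ∀ l, ∑ i, mn (s i) (f l) + (if l ∈ JC f s then 1 else 0) ≤
      mn (∑ i, s i) (f l) := by
    intro l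
    refine le_mn (hf0 l) fun m' hm' => ?_
    rw [dotProduct_sum]
    have h1 : ∀ i ∈ (Finset.univ : Finset (Fin (m + 1))), mn (s i) (f l) ≤ m' ⬝ᵥ s i :=
      fun i _ => mn_le hm'
    by_cases hl : l ∈ JC f s
    · rw [if_pos hl]
      obtain ⟨i, hi⟩ := mem_JC hc hrel hl hm'
      have h2 := Finset.sum_lt_sum h1 ⟨i, Finset.mem_univ _, hi⟩
      omega
    · rw [if_neg hl, add_zero]
      exact Finset.sum_le_sum h1
  have hsum : (∑ l, ∑ i, mn (s i) (f l)) + (JC f s).card ≤ ∑ l, mn (∑ i, s i) (f l) := by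
    have h1 : ∑ l, (∑ i, mn (s i) (f l) + (if l ∈ JC f s then (1 : ℤ) else 0)) =
        (∑ l, ∑ i, mn (s i) (f l)) + (JC f s).card := by
      rw [Finset.sum_add_distrib]
      simp
    rw [← h1]
    exact Finset.sum_le_sum fun l _ => hmn l
  have hmnh : ∀ j, ∑ i, mn (s i) (h j) ≤ mn (∑ i, s i) (h j) :=
    fun j => t12_sum_mn_le (hh0 j) Finset.univ s
  have hsumh : ∑ j, nn j * ∑ i, mn (s i) (h j) ≤ ∑ j, nn j * mn (∑ i, s i) (h j) :=
    Finset.sum_le_sum fun j _ => mul_le_mul_of_nonneg_left (hmnh j) (hnn j)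
  have hu := t12_Ph_sum hs Finset.univ
  rw [Finset.card_univ, Fintype.card_fin] at hu
  push_cast at hu
  have hcard' : (m : ℤ) ≤ (JC f s).card := by exact_mod_cast hcard
  have hm' : (1 : ℤ) ≤ m := by exact_mod_cast hm
  have hσ : ∑ i, s i = 0 := by
    by_contra hne
    have h1 := hF _ hne
    rw [hu] at h1
    unfold Ph at h1
    have h2 := mul_le_mul_of_nonneg_left hsum hC.le
    have h3 : C * (JC f s).card ≤ m * a := by linarith
    have h4 : (m : ℤ) * a < m * C := mul_lt_mul_of_pos_left ha (by omega)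
    have h5 : C * m ≤ C * (JC f s).card := mul_le_mul_of_nonneg_left hcard' hC.le
    linarith
  have hmn0 : ∀ l, (if l ∈ JC f s then (1 : ℤ) else 0) ≤ N l := by
    intro l
    have h1 := hmn l
    rw [hσ, mn_zero (hf0 l)] at h1
    rw [hN]
    change _ ≤ -∑ i, mn (s i) (f l)
    omega
  have hmnh0 : ∀ j, ∑ i, mn (s i) (h j) ≤ 0 := by
    intro j
    have h1 := hmnh j
    rwa [hσ, mn_zero (hh0 j)] at h1
  have hNsum : ∑ l, ∑ i, mn (s i) (f l) = -∑ l, N l := by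
    rw [hN, ← Finset.sum_neg_distrib]
    exact Finset.sum_congr rfl fun l _ => by rw [neg_neg]
  rw [hσ, dotProduct_zero, hNsum] at hu
  obtain ⟨H, hH⟩ : ∃ H : ℤ, H = -∑ j, nn j * ∑ i, mn (s i) (h j) := ⟨_, rfl⟩
  have hH0 : 0 ≤ H := by
    rw [hH, ← Finset.sum_neg_distrib]
    refine Finset.sum_nonneg fun j _ => ?_
    have := mul_nonneg (hnn j) (neg_nonneg.2 (hmnh0 j))
    linarith
  have h1 : C * ∑ l, N l + H = (m + 1) * a := by
    rw [hH]
    linarith
  have h2 : ∑ l, (if l ∈ JC f s then (1 : ℤ) else 0) ≤ ∑ l, N l :=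
    Finset.sum_le_sum fun l _ => hmn0 l
  have h3 : ∑ l, (if l ∈ JC f s then (1 : ℤ) else 0) = (JC f s).card := by simp
  have h6' : ((m : ℤ) + 1) * a < (m + 1) * C := mul_lt_mul_of_pos_left ha (by omega)
  have h4 : ∑ l, N l < m + 1 := by
    by_contra hcon
    push Not at hcon
    have h5 := mul_le_mul_of_nonneg_left hcon hC.le
    linarith
  have h5 : ∑ l, N l = m := by omega
  have h6 : ((JC f s).card : ℤ) = m := by omega
  refine ⟨hσ, by exact_mod_cast h6, fun l hl => ?_, fun T hT hTu => ?_, ?_⟩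
  · have h7 : ∑ l, (N l - (if l ∈ JC f s then (1 : ℤ) else 0)) = 0 := by
      rw [Finset.sum_sub_distrib, h3]
      omega
    have h8 := (Finset.sum_eq_zero_iff_of_nonneg fun l _ => sub_nonneg.2 (hmn0 l)).1 h7 l
      (Finset.mem_univ _)
    rw [if_pos hl, hN] at h8
    change -∑ i, mn (s i) (f l) - 1 = 0 at h8
    omega
  · -- the partial sums
    have hne : ∑ i ∈ T, s i ≠ 0 := by
      intro h0
      obtain ⟨d, hd⟩ := huniq (fun i => if i ∈ T then 1 else 0) (fun j => by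
        have h7 := congrFun h0 j
        rw [Finset.sum_apply, Pi.zero_apply] at h7
        have h8 : ∑ i, (if i ∈ T then (1 : ℚ) else 0) * (s i j : ℚ) = ∑ i ∈ T, (s i j : ℚ) := by
          simp only [ite_mul, one_mul, zero_mul]
          rw [Finset.sum_ite_mem, Finset.univ_inter]
        rw [h8]
        exact_mod_cast h7)
      obtain ⟨i1, hi1⟩ : ∃ i, i ∉ T := by
        by_contra hcon
        push Not at hcon
        exact hTu (Finset.eq_univ_iff_forall.2 hcon)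
      obtain ⟨i2, hi2⟩ := hT
      have h7 := hd i1
      have h8 := hd i2
      rw [if_neg hi1] at h7
      rw [if_pos hi2] at h8
      have h9 : d = 0 := (mul_eq_zero.1 h7.symm).resolve_right (hc i1).ne'
      rw [h9, zero_mul] at h8
      exact one_ne_zero h8
    have h7 := hF _ hne
    rw [t12_Ph_sum hs T] at h7
    unfold Ph at h7
    have hTc : (1 : ℤ) ≤ T.card := by exact_mod_cast Finset.card_pos.2 hT
    have h8 : C * (∑ l, (mn (∑ i ∈ T, s i) (f l) - ∑ i ∈ T, mn (s i) (f l))) +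
        ∑ j, nn j * (mn (∑ i ∈ T, s i) (h j) - ∑ i ∈ T, mn (s i) (h j)) ≤
          ((T.card : ℤ) - 1) * C := by
      have h9 : ((T.card : ℤ) - 1) * a ≤ ((T.card : ℤ) - 1) * C :=
        mul_le_mul_of_nonneg_left ha.le (by omega)
      have h10 : ∑ j, nn j * (mn (∑ i ∈ T, s i) (h j) - ∑ i ∈ T, mn (s i) (h j)) =
          ∑ j, nn j * mn (∑ i ∈ T, s i) (h j) - ∑ j, nn j * ∑ i ∈ T, mn (s i) (h j) := by
        rw [← Finset.sum_sub_distrib]
        exact Finset.sum_congr rfl fun j _ => by ring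
      rw [h10, Finset.sum_sub_distrib]
      linarith
    have hCq : (0 : ℚ) < C := by exact_mod_cast hC
    refine le_of_mul_le_mul_left (a := (C : ℚ)) ?_ hCq
    have h9 : ((C * (∑ l, (mn (∑ i ∈ T, s i) (f l) - ∑ i ∈ T, mn (s i) (f l))) +
        ∑ j, nn j * (mn (∑ i ∈ T, s i) (h j) - ∑ i ∈ T, mn (s i) (h j)) : ℤ) : ℚ) ≤
          ((((T.card : ℤ) - 1) * C : ℤ) : ℚ) := by exact_mod_cast h8
    rw [Int.cast_add, Int.cast_mul, Int.cast_sum (s := Finset.univ)
      (f := fun j => nn j * (mn (∑ i ∈ T, s i) (h j) - ∑ i ∈ T, mn (s i) (h j)))] at h9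
    have h10 : ∀ j, ((nn j * (mn (∑ i ∈ T, s i) (h j) - ∑ i ∈ T, mn (s i) (h j)) : ℤ) : ℚ) =
        C * (cw j * ((mn (∑ i ∈ T, s i) (h j) - ∑ i ∈ T, mn (s i) (h j) : ℤ) : ℚ)) := by
      intro j
      rw [Int.cast_mul, hcw]
      ring
    rw [Finset.sum_congr rfl fun j _ => h10 j, ← Finset.mul_sum, ← mul_add] at h9
    refine h9.trans (le_of_eq ?_)
    push_cast
    ring
  · have hCq : (0 : ℚ) < C := by exact_mod_cast hC
    refine le_of_mul_le_mul_left (a := (C : ℚ)) ?_ hCq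
    have h7 : H ≤ C := by
      rw [h5] at h1
      linarith
    have h8 : (C : ℚ) * ∑ j, cw j * ((-∑ i, mn (s i) (h j) : ℤ) : ℚ) = (H : ℚ) := by
      rw [hH, Int.cast_neg, Int.cast_sum, Finset.mul_sum, ← Finset.sum_neg_distrib]
      refine Finset.sum_congr rfl fun j _ => ?_
      rw [Int.cast_mul, hcw, Int.cast_neg]
      ring
    rw [h8, mul_one]
    exact_mod_cast h7

end Pool.Agent.R885.N
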