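import Pool.Agent.R885.T9
import Pool.Agent.R885.T10
import Pool.Agent.R885.T11
import Pool.Agent.R885.T12

/-!
Pairs with arbitrary coefficients: systems with a full-dimensional Newton polytope.
-/

set_option autoImplicit false
set_option linter.overlappingInstances false
set_option linter.unusedSectionVars false

open FF IntermediateField Pool.Agent.W603.LV Pool.Agent.W619.PQ Pool.Agent.W619.PL
  Pool.Agent.Y173.QA Pool.Agent.W619.TW Pool.Agent.TH165.ACC Pool.Agent.TH122.AB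
  Pool.Agent.W619.Y Pool.Agent.W824.PG Pool.Agent.Y174

namespace Pool.Agent.R885.N

/-- A common denominator. -/
theorem t13_den {p : ℕ} (t : ℚ) (cw : Fin p → ℚ) : ∃ D : ℕ, 1 ≤ D ∧
    (∃ z : ℤ, (D : ℚ) * t = z) ∧ ∀ j, ∃ z : ℤ, (D : ℚ) * cw j = z := by
  classical
  refine ⟨t.den * ∏ j, (cw j).den, ?_, ?_, ?_⟩
  · exact Nat.succ_le_of_lt (Nat.mul_pos t.den_pos (Finset.prod_pos fun j _ => (cw j).den_pos))
  · refine ⟨t.num * ((∏ j, (cw j).den : ℕ) : ℤ), ?_⟩
    have h1 : t * t.den = t.num := Rat.mul_den_eq_num t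
    push_cast
    rw [← h1]
    ring
  · intro j
    refine ⟨(cw j).num * ((t.den * ∏ i ∈ Finset.univ.erase j, (cw i).den : ℕ) : ℤ), ?_⟩
    have h1 : cw j * (cw j).den = (cw j).num := Rat.mul_den_eq_num (cw j)
    have h2 : ∏ i, ((cw i).den : ℚ) = ((cw j).den : ℚ) *
        ∏ i ∈ Finset.univ.erase j, ((cw i).den : ℚ) :=
      (Finset.mul_prod_erase Finset.univ (fun i => ((cw i).den : ℚ)) (Finset.mem_univ j)).symm
    push_cast
    rw [← h1, h2]
    ring

/-- **Systems with a full-dimensional Newton polytope.** -/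
theorem CSys.stepV {k K : Type} [Field k] [CharZero k] [IsAlgClosed k] [Field K]
    [Algebra k K] {n : ℕ} (hn : 1 ≤ n) (htr : Algebra.trdeg k K = (n : ℕ)) {β : Place k K → ℝ}
    {r q p : ℕ} {x : Fin r → K} {f : Fin q → (Fin r → ℤ) →₀ k}
    {h : Fin p → (Fin r → ℤ) →₀ k} {cw : Fin p → ℚ} (hB : CSys n β x f h cw)
    (hU : ∀ v : Fin r → ℤ, (∀ l, ∀ m ∈ (f l).support, ∀ m' ∈ (f l).support,
      m ⬝ᵥ v = m' ⬝ᵥ v) → (∀ j, ∀ m ∈ (h j).support, ∀ m' ∈ (h j).support,
      m ⬝ᵥ v = m' ⬝ᵥ v) → v = 0) :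
    PosB k K n β ∨ NegB k K n β ∨ ∃ (m : ℕ) (s : Fin (m + 1) → Fin r → ℤ),
      1 ≤ m ∧ Exc x f s ∧ SubC f h cw s := by
  classical
  have hr := hB.hr
  have hx := hB.hx
  have hgen := hB.hgen
  have hf := hB.hf
  have hhx := hB.hhx
  have hnd := hB.hnd
  have hf0 := hn_ne0 hnd hf
  have hli := hn_ne hnd hf
  have hK0 : CharZero K := charZero_of_injective_algebraMap (algebraMap k K).injective
  have hh0 : ∀ j, h j ≠ 0 := by
    intro j h0
    apply hhx j
    rw [h0]
    unfold ev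
    exact Finsupp.sum_zero_index
  have hg0 : ∀ l, Sum.elim f h l ≠ 0 := by
    rintro (l | j)
    · exact hf0 l
    · exact hh0 j
  have hwt0 : ∀ l, 0 < (Sum.elim (fun _ => 1) cw : Fin q ⊕ Fin p → ℚ) l := by
    rintro (l | j)
    · exact one_pos
    · exact hB.cw0 j
  obtain ⟨t, ht0, ht1, hF, hmax⟩ := exists_bestW hg0 hwt0 (fun v hv =>
    hU v (fun l => hv (Sum.inl l)) (fun j => hv (Sum.inr j)))
  have hFW : (FineW (fun _ : Fin r → ℤ => t) (Sum.elim (fun _ => 1) cw)
      (Sum.elim f h)).Nonempty := by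
    obtain ⟨u, hu⟩ := hF
    exact ⟨u, fun v hv => hu v hv⟩
  have htrE : ∀ E : IntermediateField k K, ∃ d : ℕ, d ≤ n ∧ Algebra.trdeg k E = (d : ℕ) := by
    intro E
    have h1 : Algebra.trdeg k E ≤ n := by
      rw [← htr]
      exact trdeg_le_of_injective E.val E.val.injective
    obtain ⟨d, hd⟩ := Cardinal.lt_aleph0.1 (h1.trans_lt Cardinal.natCast_lt_aleph0)
    refine ⟨d, ?_, hd⟩
    rw [hd] at h1
    exact_mod_cast h1
  rcases ht1.lt_or_eq with htlt | hteq
  swap
  · -- the largest value is one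
    left
    rw [hteq] at hFW
    exact hB.pos hn htr hFW
  right
  obtain ⟨d, hdn, hd⟩ := htrE (IntermediateField.adjoin k
    {z : K | ∃ w ∈ dirsW (fun _ : Fin r → ℤ => t) (Sum.elim (fun _ => 1) cw)
      (Sum.elim f h), z = mono x w})
  rcases hdn.lt_or_eq with hdlt | hdeq
  · left
    exact hB.neg hn htr ht0 htlt hFW hdlt hd
  right
  rw [hdeq] at hd
  -- the tight vectors
  obtain ⟨D, hD, hDt, hDc⟩ := t13_den t cw
  obtain ⟨u0, c, a, nl, S, B, hc, -, ha, hnl, hF', hS, hpos, -, hdirs⟩ :=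
    exists_tightW (g := Sum.elim f h) (wt := Sum.elim (fun _ => 1) cw)
      (A := fun _ : Fin r → ℤ => t) hg0 hD (fun _ _ => ht0) (fun _ => ht1) (fun _ => hDt) (by
      rintro (l | j)
      · exact ⟨D, by simp⟩
      · exact hDc j) hFW
  have hcq : (0 : ℚ) < c := by exact_mod_cast hc
  obtain ⟨a0, ha0⟩ : ∃ a0, a0 = a 0 := ⟨_, rfl⟩
  have hat : (a0 : ℚ) = c * t := by
    rw [ha0, ha]
  have haa : ∀ v, a v = a0 := by
    intro v
    have h1 : (a v : ℚ) = a0 := by
      rw [hat, ha]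
    exact_mod_cast h1
  have hnl1 : ∀ l, nl (Sum.inl l) = c := by
    intro l
    have h1 := hnl (Sum.inl l)
    rw [Sum.elim_inl, mul_one] at h1
    exact_mod_cast h1
  obtain ⟨nn, hnnd⟩ : ∃ nn : Fin p → ℤ, nn = fun j => nl (Sum.inr j) := ⟨_, rfl⟩
  have hnnq : ∀ j, (nn j : ℚ) = c * cw j := by
    intro j
    rw [hnnd]
    exact hnl (Sum.inr j)
  have hPh : ∀ v, a v + ∑ l, nl l * mn v (Sum.elim f h l) = Ph c (fun _ => a0) nn f h v := by
    intro v
    unfold Ph
    rw [Fintype.sum_sum_type, Finset.mul_sum, ← add_assoc, hnnd, haa]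
    congr 2
    refine Finset.sum_congr rfl fun l _ => ?_
    rw [hnl1]
    rfl
  simp only [hPh] at hF' hS
  have hac : a0 < c := by
    have h1 : (a0 : ℚ) < c := by
      rw [hat]
      nlinarith
    exact_mod_cast h1
  have ha00 : 0 ≤ a0 := by
    have h1 : (0 : ℚ) ≤ a0 := by
      rw [hat]
      exact (mul_pos hcq ht0).le
    exact_mod_cast h1
  have hnn0 : ∀ j, 0 ≤ nn j := by
    intro j
    have h1 : (0 : ℚ) ≤ nn j := by
      rw [hnnq]
      exact (mul_pos hcq (hB.cw0 j)).le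
    exact_mod_cast h1
  have hPhq : ∀ v : Fin r → ℤ, ((Ph c (fun _ => a0) nn f h v : ℤ) : ℚ) =
      c * (t + ∑ l, (Sum.elim (fun _ => 1) cw : Fin q ⊕ Fin p → ℚ) l *
        (mn v (Sum.elim f h l) : ℚ)) := by
    intro v
    unfold Ph
    push_cast
    rw [hat, Fintype.sum_sum_type]
    simp only [Sum.elim_inl, Sum.elim_inr, one_mul, hnnq]
    rw [mul_add, mul_add, Finset.mul_sum (s := (Finset.univ : Finset (Fin p))), add_assoc]
    congr 2
    exact Finset.sum_congr rfl fun j _ => by ring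
  have hSne : S.Nonempty := by
    by_contra hcon
    rw [Finset.not_nonempty_iff_eq_empty] at hcon
    refine hmax htlt (t + 1 / c) (by
      have := one_div_pos.2 hcq
      linarith) ⟨fun i => (u0 i : ℚ) / c, fun v hv => ?_⟩
    have h1 := hF' v hv
    have h2 : u0 ⬝ᵥ v ≠ Ph c (fun _ => a0) nn f h v := by
      intro h3
      have h4 := (hS v).2 ⟨hv, h3⟩
      rw [hcon] at h4
      exact absurd h4 (Finset.notMem_empty _)
    have h3 : Ph c (fun _ => a0) nn f h v + 1 ≤ u0 ⬝ᵥ v := by omega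
    have h4 : ((Ph c (fun _ => a0) nn f h v : ℤ) : ℚ) + 1 ≤ ((u0 ⬝ᵥ v : ℤ) : ℚ) := by
      exact_mod_cast h3
    have h5 : dq (fun i => (u0 i : ℚ) / c) v = ((u0 ⬝ᵥ v : ℤ) : ℚ) / c := by
      rw [← dq_int]
      unfold dq
      rw [Finset.sum_div]
      exact Finset.sum_congr rfl fun i _ => by ring
    rw [h5, le_div_iff₀ hcq]
    rw [hPhq] at h4
    refine le_trans (le_of_eq ?_) h4
    field_simp
    ring
  obtain ⟨m, s, c', hm, hsS, hrel, huniq⟩ := exists_circuit (fun s hs => ((hS s).1 hs).1) hSne hpos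
  have hlis := circ_li (fun i => (hsS i).2) huniq
  -- the monomials
  obtain ⟨y, hyG, hyind, -⟩ := exists_mono_basis hd
  choose w hw hwy using hyG
  have hyw : y = fun j => mono x (w j) := funext hwy
  rw [hyw] at hyind
  have hws : ∀ j i, w j ⬝ᵥ s i = 0 := fun j i => (hdirs (w j)).1 (hw j) (s i) (hsS i).1
  have heta : ∀ (N : ℕ) (s' : Fin N → Fin r → ℤ) (c : Fin N → K), (∀ j i, w j ⬝ᵥ s' i = 0) →
      (∀ l, ∑ j, gr x (f l) j * (∑ i, c i * (s' i j : K)) = 0) →
      (fun j => ∑ i, c i * (s' i j : K)) = 0 := by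
    intro N s' c hws' h1
    refine eta_zero htr hx hgen (J := Fin q) (by rw [Fintype.card_fin, hr, add_comm]) hf hli hyind
      h1 fun j => ?_
    have h2 : ∑ i, (w j i : K) * ∑ i', c i' * (s' i' i : K) =
        ∑ i', c i' * ((w j ⬝ᵥ s' i' : ℤ) : K) := by
      simp only [Finset.mul_sum]
      rw [Finset.sum_comm]
      refine Finset.sum_congr rfl fun i' _ => ?_
      rw [← dot_intCast, Finset.mul_sum]
      exact Finset.sum_congr rfl fun i _ => by ring
    rw [h2]
    exact Finset.sum_eq_zero fun i' _ => by rw [hws', Int.cast_zero, mul_zero]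
  have hcardf := card_JC hf hlis fun c hc => heta m (fun i => s i.succ) c
    (fun j i => hws j i.succ) hc
  obtain ⟨h1, h2, h3, hsub⟩ := exc_arithW (cw := cw) hf0 hh0 hm (fun i => (hsS i).2) hrel huniq
    hc hac ha00 hnn0 hnnq hF' (fun i => ((hS _).1 (hsS i).1).2) hcardf
  refine ⟨m, s, hm, ⟨hx, hf, h1, h2, h3, fun c hc => ?_⟩, hsub⟩
  have h5 := heta (m + 1) s c hws hc
  have h6 := Fintype.linearIndependent_iff.1 (li_field (F := K) hlis)
    (fun i => c i.succ - c 0) (by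
      funext j
      rw [Finset.sum_apply]
      have h7 := congrFun h5 j
      beta_reduce at h7
      rw [Fin.sum_univ_succ, Pi.zero_apply] at h7
      have h8 : (s 0 j : K) + ∑ i : Fin m, (s i.succ j : K) = 0 := by
        have h9 := congrFun h1 j
        rw [Finset.sum_apply, Fin.sum_univ_succ, Pi.zero_apply] at h9
        exact_mod_cast h9
      have h9 : ∑ i : Fin m, (c i.succ - c 0) * (s i.succ j : K) =
          ∑ i : Fin m, c i.succ * (s i.succ j : K) - c 0 * ∑ i : Fin m, (s i.succ j : K) := by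
        rw [Finset.mul_sum, ← Finset.sum_sub_distrib]
        exact Finset.sum_congr rfl fun i _ => by ring
      change ∑ i : Fin m, (c i.succ - c 0) * (s i.succ j : K) = 0
      rw [h9]
      linear_combination h7 - c 0 * h8)
  intro i
  refine Fin.cases rfl (fun i => ?_) i
  exact sub_eq_zero.1 (h6 i)

end Pool.Agent.R885.N
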