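import Pool.Agent.R885.T0
import Pool.Agent.R885.Q6

/-!
Constant directions of pairs with arbitrary coefficients.
-/

set_option autoImplicit false
set_option linter.overlappingInstances false
set_option linter.unusedSectionVars false

open FF IntermediateField Pool.Agent.W603.LV Pool.Agent.W619.PQ Pool.Agent.W619.PL
  Pool.Agent.Y173.QA Pool.Agent.W619.TW Pool.Agent.W619.Y Pool.Agent.Y174

namespace Pool.Agent.R885.N

/-- **Constant directions.** -/
theorem CSys.neg_const {k K : Type} [Field k] [CharZero k] [IsAlgClosed k] [Field K]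
    [Algebra k K] {n : ℕ} (hn : 1 ≤ n) (htr : Algebra.trdeg k K = (n : ℕ)) {β : Place k K → ℝ}
    {r q p : ℕ} {x : Fin r → K} {f : Fin q → (Fin r → ℤ) →₀ k}
    {h : Fin p → (Fin r → ℤ) →₀ k} {cw : Fin p → ℚ} (hB : CSys n β x f h cw)
    {v0 : Fin r → ℤ} (hv0 : v0 ≠ 0)
    (hcf : ∀ l, ∀ m ∈ (f l).support, ∀ m' ∈ (f l).support, m ⬝ᵥ v0 = m' ⬝ᵥ v0)
    (hch : ∀ j, ∀ m ∈ (h j).support, ∀ m' ∈ (h j).support, m ⬝ᵥ v0 = m' ⬝ᵥ v0) :
    NegB k K n β := by
  classical
  have hK0 : CharZero K := charZero_of_injective_algebraMap (algebraMap k K).injective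
  -- the vector is primitive
  obtain ⟨g0, v0', c, hg0, hv0e, hc⟩ := exists_prim hv0
  have hprim : ∀ m m' : Fin r → ℤ, m ⬝ᵥ v0 = m' ⬝ᵥ v0 → m ⬝ᵥ v0' = m' ⬝ᵥ v0' := by
    intro m m' h1
    rw [hv0e, dotProduct_smul, dotProduct_smul, smul_eq_mul, smul_eq_mul] at h1
    exact mul_left_cancel₀ hg0.ne' h1
  replace hcf : ∀ l, ∀ m ∈ (f l).support, ∀ m' ∈ (f l).support, m ⬝ᵥ v0' = m' ⬝ᵥ v0' :=
    fun l m hm m' hm' => hprim _ _ (hcf l m hm m' hm')
  replace hch : ∀ j, ∀ m ∈ (h j).support, ∀ m' ∈ (h j).support, m ⬝ᵥ v0' = m' ⬝ᵥ v0' :=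
    fun l m hm m' hm' => hprim _ _ (hch l m hm m' hm')
  have hx := hB.hx
  have hgen := hB.hgen
  have hf0 : ∀ l, f l ≠ 0 := hn_ne0 hB.hnd hB.hf
  have hfli : LinearIndependent K fun l => gr x (f l) := hn_ne hB.hnd hB.hf
  -- the monomials of degree zero
  obtain ⟨G, hG⟩ : ∃ G : Set K, G = {z | ∃ w : Fin r → ℤ, w ⬝ᵥ v0' = 0 ∧ z = mono x w} := ⟨_, rfl⟩
  have hlt : Algebra.trdeg k (IntermediateField.adjoin k G) ≤ (n : ℕ) := by
    rw [← htr]
    exact trdeg_le_of_injective (IntermediateField.adjoin k G).val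
      (IntermediateField.adjoin k G).val.injective
  obtain ⟨d, hd⟩ : ∃ d : ℕ, Algebra.trdeg k (IntermediateField.adjoin k G) = (d : ℕ) :=
    Cardinal.lt_aleph0.1 (hlt.trans_lt Cardinal.natCast_lt_aleph0)
  have hdn : d ≤ n := by
    rw [hd] at hlt
    exact_mod_cast hlt
  obtain ⟨t, htG, htind, htalg⟩ := exists_mono_basis hd
  have htG' : ∀ j, ∃ w : Fin r → ℤ, w ⬝ᵥ v0' = 0 ∧ t j = mono x w := fun j => by
    have := htG j
    rw [hG] at this
    exact this
  choose w hw hwt using htG'
  have hdlt : d < n := by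
    rcases hdn.lt_or_eq with h1 | h1
    · exact h1
    exfalso
    subst h1
    have h2 := eta_zero (J := Fin q) htr hx hgen (by rw [Fintype.card_fin, hB.hr, add_comm]) hB.hf
      hfli (w := w) (by
        have : (fun j => mono x (w j)) = t := (funext hwt).symm
        rw [this]
        exact htind) (η := fun i => (v0' i : K)) (fun l => by
          obtain ⟨m0, hm0⟩ := Finsupp.support_nonempty_iff.2 (hf0 l)
          exact gr_dot_const (hB.hf l) (c := m0 ⬝ᵥ v0') fun m hm => hcf l m hm m0 hm0)
      (fun j => by rw [dot_intCast, hw j, Int.cast_zero])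
    have h3 : c ⬝ᵥ v0' = 0 := by
      have h4 : v0' = 0 := by
        funext i
        have h5 := congrFun h2 i
        change ((v0' i : ℤ) : K) = 0 at h5
        exact_mod_cast h5
      rw [h4, dotProduct_zero]
    rw [hc] at h3
    exact one_ne_zero h3
  obtain ⟨m, rfl⟩ : ∃ m, n = d + (m + 1) := ⟨n - d - 1, by omega⟩
  have hess : Algebra.EssFiniteType k K := by
    rw [← IntermediateField.fg_top_iff, ← hgen]
    exact ⟨Finset.univ.image x, by rw [Finset.coe_image, Finset.coe_univ, Set.image_univ]⟩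
  intro T
  refine pairNeg_gen hess htind htr ?_ T
  intro Λ F _ _ _ _ _ _ _ φ hφgen hΛF t' ht' htt' hcon δ' hδ'
  have hΛ0 : CharZero Λ := charZero_of_injective_algebraMap (algebraMap k Λ).injective
  have hinj : Function.Injective φ := (φ : K →+* F).injective
  have hmono : ∀ w' : Fin r → ℤ, φ (mono x w') = mono (fun i => φ (x i)) w' := fun w' =>
    map_mono (φ : K →+* F) x w'
  have hφx : ∀ i, φ (x i) ≠ 0 := fun i h0 => hx i (hinj (by rw [h0, map_zero]))
  -- the monomials of degree zero are constants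
  have hconst : ∀ w' : Fin r → ℤ, w' ⬝ᵥ v0' = 0 → ∃ a : Λ, algebraMap Λ F a = φ (mono x w') := by
    intro w' hw'
    refine hcon _ (htalg _ ?_)
    rw [hG]
    exact ⟨w', hw', rfl⟩
  -- the fibre is rational
  obtain ⟨y, hy⟩ : ∃ y : F, y = φ (mono x c) := ⟨_, rfl⟩
  have hy0 : y ≠ 0 := by
    rw [hy]
    intro h0
    exact mono_ne hx c (hinj (by rw [h0, map_zero]))
  have hgenx : IntermediateField.adjoin Λ {y} = ⊤ := by
    rw [eq_top_iff, ← hφgen, IntermediateField.adjoin_le_iff]
    rintro _ ⟨z, rfl⟩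
    have hz : z ∈ IntermediateField.adjoin k (Set.range x) := by
      rw [hgen]
      trivial
    have h0 : ∀ i, φ (x i) ∈ IntermediateField.adjoin Λ {y} := by
      intro i
      obtain ⟨a, ha⟩ := hconst (Pi.single i 1 - (v0' i) • c) (by
        rw [sub_dotProduct, smul_dotProduct, hc, smul_eq_mul, mul_one, single_one_dotProduct,
          sub_self])
      have h2 : φ (x i) = algebraMap Λ F a * y ^ (v0' i) := by
        rw [ha, hy, ← map_zpow₀, ← mono_zsmul, ← map_mul, ← mono_add hx, sub_add_cancel,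
          mono_single]
      rw [h2]
      exact mul_mem (IntermediateField.algebraMap_mem _ _)
        (zpow_mem (IntermediateField.mem_adjoin_simple_self Λ y) _)
    have h1 : IntermediateField.adjoin k (Set.range x) ≤
        ((IntermediateField.adjoin Λ {y}).restrictScalars k).comap φ := by
      rw [IntermediateField.adjoin_le_iff]
      rintro _ ⟨i, rfl⟩
      exact h0 i
    exact h1 hz
  have hm : m = 0 := by
    have h1 : Algebra.trdeg Λ F ≤ 1 := trdeg_line hgenx
    rw [hΛF] at h1
    have h2 : m + 1 ≤ 1 := by exact_mod_cast h1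
    omega
  subst hm
  -- the orders
  have hordΛ : ∀ (P : Place Λ F) (a : Λ), P.ord (algebraMap Λ F a) = 0 := by
    intro P a
    by_cases ha : a = 0
    · rw [ha, map_zero]
      exact P.ord_zero
    · exact P.ord_const ha
  have hhφ : ∀ j, ∃ (m0 : Fin r → ℤ) (b : Λ), φ (ev x (h j)) = φ (mono x m0) * algebraMap Λ F b := by
    intro j
    have hhj : h j ≠ 0 := by
      intro h0
      apply hB.hhx j
      rw [h0]
      unfold ev
      exact Finsupp.sum_zero_index
    obtain ⟨m0, hm0⟩ := Finsupp.support_nonempty_iff.2 hhj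
    have h1 : ∀ m' : Fin r → ℤ, ∃ b : Λ, m' ∈ (h j).support →
        φ (mono x m') = φ (mono x m0) * algebraMap Λ F b := by
      intro m'
      by_cases hm' : m' ∈ (h j).support
      · obtain ⟨b, hb⟩ := hconst (m' - m0) (by
          rw [sub_dotProduct, hch j m' hm' m0 hm0, sub_self])
        refine ⟨b, fun _ => ?_⟩
        rw [hb, ← map_mul, ← mono_add hx, add_sub_cancel]
      · exact ⟨0, fun h2 => absurd h2 hm'⟩
    choose b hb using h1
    refine ⟨m0, ∑ m' ∈ (h j).support, algebraMap k Λ (h j m') * b m', ?_⟩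
    unfold ev Finsupp.sum
    rw [map_sum, map_sum, Finset.mul_sum]
    refine Finset.sum_congr rfl fun m' hm' => ?_
    rw [map_mul, map_mul, hb m' hm', φ.commutes, ← IsScalarTower.algebraMap_apply]
    ring
  have hδ0 : δ' = fun _ => 0 := by
    funext P
    rcases hδ' P with ⟨v, e, he, hv, hδ⟩ | h0
    · have he' : (0 : ℤ) < (e : ℕ) := by exact_mod_cast he
      have her : (1 : ℝ) ≤ e := by exact_mod_cast he
      have hb : β v ≤ 0 := by
        by_cases hvv : vec v x = 0
        · have h1 : ∀ j, v.ord (ev x (h j)) = 0 := by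
            intro j
            obtain ⟨m0, b, hmb⟩ := hhφ j
            have hb0 : algebraMap Λ F b ≠ 0 := by
              intro h0
              rw [h0, mul_zero] at hmb
              exact hB.hhx j (hinj (by rw [hmb, map_zero]))
            have hm00 : φ (mono x m0) ≠ 0 := fun h0 => mono_ne hx m0 (hinj (by rw [h0, map_zero]))
            have h2 := congrArg P.ord hmb
            rw [hv, P.ord_mul hm00 hb0, hv, hordΛ, add_zero, ord_mono v hx, hvv, dotProduct_zero,
              mul_zero] at h2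
            rcases mul_eq_zero.1 h2 with h3 | h3
            · exact absurd h3 he'.ne'
            · exact h3
          refine (hB.up0 v hvv).trans (le_of_eq ?_)
          refine Finset.sum_eq_zero fun j _ => ?_
          rw [h1 j, Int.cast_zero, mul_zero]
        · exact hB.up1 v hvv
      rw [hδ]
      refine max_eq_left ?_
      nlinarith
    · exact h0
  rw [hδ0]
  intro T'
  exact neg_line (by simpa using hΛF) hy0 hgenx T'

end Pool.Agent.R885.N
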