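import Pool.Agent.R885.T4
import Pool.Agent.R885.T13
import Pool.Agent.R885.T14
import Pool.Agent.R885.Q9

/-!
The complete theorem on nondegenerate pairs with arbitrary coefficients.
-/

set_option autoImplicit false
set_option linter.overlappingInstances false
set_option linter.unusedSectionVars false

open FF IntermediateField Pool.Agent.W602.GT Pool.Agent.W603.LV Pool.Agent.W619.PQ
  Pool.Agent.Y173.QA Pool.Agent.W619.TW Pool.Agent.W619.Y Pool.Agent.Y172 Pool.Agent.Y191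
  Pool.Agent.Y174

namespace Pool.Agent.R885.N

/-- **The dichotomy for the systems of the class.** -/
theorem CSys.all {k K : Type} [Field k] [CharZero k] [IsAlgClosed k] [Field K] [Algebra k K]
    {n : ℕ} (hn : 1 ≤ n) (htr : Algebra.trdeg k K = (n : ℕ)) {β : Place k K → ℝ} (N : ℕ) :
    ∀ (r q p : ℕ) (x : Fin r → K) (f : Fin q → (Fin r → ℤ) →₀ k)
      (h : Fin p → (Fin r → ℤ) →₀ k) (cw : Fin p → ℚ), CSys n β x f h cw → q ≤ N →
      PosB k K n β ∨ NegB k K n β := by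
  induction N with
  | zero =>
    intro r q p x f h cw hB hq
    by_cases hU : ∀ v : Fin r → ℤ, (∀ l, ∀ m ∈ (f l).support, ∀ m' ∈ (f l).support,
        m ⬝ᵥ v = m' ⬝ᵥ v) → (∀ j, ∀ m ∈ (h j).support, ∀ m' ∈ (h j).support,
        m ⬝ᵥ v = m' ⬝ᵥ v) → v = 0
    · rcases hB.stepV hn htr hU with h1 | h1 | ⟨m, s, hm, hs, -⟩
      · exact Or.inl h1
      · exact Or.inr h1
      · exfalso
        have h1 := Finset.card_le_univ (JC f s)
        rw [hs.card, Fintype.card_fin] at h1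
        omega
    · push Not at hU
      obtain ⟨v, hv1, hv2, hv0⟩ := hU
      exact Or.inr (hB.neg_const hn htr hv0 hv1 hv2)
  | succ N ih =>
    intro r q p x f h cw hB hq
    by_cases hU : ∀ v : Fin r → ℤ, (∀ l, ∀ m ∈ (f l).support, ∀ m' ∈ (f l).support,
        m ⬝ᵥ v = m' ⬝ᵥ v) → (∀ j, ∀ m ∈ (h j).support, ∀ m' ∈ (h j).support,
        m ⬝ᵥ v = m' ⬝ᵥ v) → v = 0
    · rcases hB.stepV hn htr hU with h1 | h1 | ⟨m, s, hm, hs, hh⟩
      · exact Or.inl h1
      · exact Or.inr h1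
      · obtain ⟨r', q', z, g, h', h1, h2⟩ := hB.elim hs hh
        exact ih r' q' p z g h' cw h2 (by omega)
    · push Not at hU
      obtain ⟨v, hv1, hv2, hv0⟩ := hU
      exact Or.inr (hB.neg_const hn htr hv0 hv1 hv2)

/-- the upper bound for the multiplicities -/
theorem bdry_up0 {k K : Type} [Field k] [CharZero k] [Field K] [Algebra k K] {r : ℕ}
    {x : Fin r → K} (hx : ∀ i, x i ≠ 0) {J' : Type} [Fintype J'] {h : J' → (Fin r → ℤ) →₀ k}
    (hh0 : ∀ j, h j ≠ 0) (hhx : ∀ j, ev x (h j) ≠ 0) {cw : J' → ℚ} (hc0 : ∀ j, 0 ≤ cw j)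
    (P : Place k K) (hv : vec P x = 0) :
    bdry (fun _ => 1) cw x h P ≤ ∑ j, cw j * (P.ord (ev x (h j)) : ℚ) := by
  classical
  have hnn : ∀ j, 0 ≤ P.ord (ev x (h j)) := by
    intro j
    by_cases hj : Van P x (h j)
    · have := (van_iff hh0 hhx hv j).1 hj
      omega
    · rw [ord_of_not_van P hx hj, hv, mn_zero (hh0 j)]
  have hterm : ∀ j, 0 ≤ cw j * (P.ord (ev x (h j)) : ℚ) := fun j =>
    mul_nonneg (hc0 j) (by exact_mod_cast hnn j)
  by_cases hex : ∃ j, 0 < P.ord (ev x (h j))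
  · rw [bdry_van hv hex]
    refine max_le (Finset.sum_nonneg fun j _ => hterm j) ?_
    obtain ⟨j0, hj0⟩ := hex
    have h1 : ∑ j ∈ Finset.univ.filter (fun j => 0 < P.ord (ev x (h j))), cw j ≤
        ∑ j, cw j * (P.ord (ev x (h j)) : ℚ) := by
      refine le_trans (Finset.sum_le_sum fun j hj => ?_)
        (Finset.sum_le_sum_of_subset_of_nonneg (Finset.filter_subset _ _)
          fun j _ _ => hterm j)
      have h2 : (1 : ℚ) ≤ (P.ord (ev x (h j)) : ℚ) := by
        have := (Finset.mem_filter.1 hj).2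
        exact_mod_cast (by omega : (1 : ℤ) ≤ P.ord (ev x (h j)))
      have := hc0 j
      nlinarith
    have h2 : (1 : ℚ) ≤ ((Finset.univ.filter (fun j => 0 < P.ord (ev x (h j)))).card : ℚ) := by
      have : 1 ≤ (Finset.univ.filter (fun j => 0 < P.ord (ev x (h j)))).card :=
        Finset.card_pos.2 ⟨j0, Finset.mem_filter.2 ⟨Finset.mem_univ _, hj0⟩⟩
      exact_mod_cast this
    rw [Finset.sum_sub_distrib, Finset.sum_const, nsmul_eq_mul, mul_one]
    linarith
  · push Not at hex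
    rw [bdry_no hv fun j => not_lt.2 (hex j)]
    exact Finset.sum_nonneg fun j _ => hterm j

/-- dropping the coefficients `0` -/
theorem sum_drop {p p' : ℕ} {c : Fin p → ℚ} (hc : ∀ j, 0 ≤ c j) (e : Fin p' ≃ {j // 0 < c j})
    (X : Fin p → ℝ) : ∑ j, ((c j : ℚ) : ℝ) * X j = ∑ i, ((c (e i) : ℚ) : ℝ) * X (e i) := by
  classical
  have h1 : ∑ i, ((c (e i) : ℚ) : ℝ) * X (e i) = ∑ j : {j // 0 < c j}, ((c j : ℚ) : ℝ) * X j :=
    e.sum_comp fun j : {j // 0 < c j} => ((c j : ℚ) : ℝ) * X j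
  rw [h1, ← Finset.sum_subtype (Finset.univ.filter fun j => 0 < c j) (fun j => by simp)
    (fun j => ((c j : ℚ) : ℝ) * X j), Finset.sum_filter]
  refine Finset.sum_congr rfl fun j _ => ?_
  by_cases h2 : 0 < c j
  · rw [if_pos h2]
  · rw [if_neg h2, le_antisymm (not_lt.1 h2) (hc j), Rat.cast_zero, zero_mul]

/-- **The dichotomy for nondegenerate pairs with arbitrary coefficients.** -/
theorem pair_coef {k K : Type} [Field k] [CharZero k] [IsAlgClosed k] [Field K] [Algebra k K]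
    {n q p : ℕ} (hn : 1 ≤ n) (htr : Algebra.trdeg k K = (n : ℕ)) {x : Fin (n + q) → K}
    (hx : ∀ i, x i ≠ 0) (hgen : IntermediateField.adjoin k (Set.range x) = ⊤)
    {f : Fin q → (Fin (n + q) → ℤ) →₀ k} (hf : ∀ l, ev x (f l) = 0)
    {h : Fin p → (Fin (n + q) → ℤ) →₀ k} (hhx : ∀ j, ev x (h j) ≠ 0) (H : AlongP f h x)
    {c : Fin p → ℚ} (hc : ∀ j, 0 ≤ c j ∧ c j ≤ 1) :
    PosB k K n (fun P => ((bdry (fun _ => 1) c x h P : ℚ) : ℝ)) ∨
      NegB k K n (fun P => ((bdry (fun _ => 1) c x h P : ℚ) : ℝ)) := by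
  classical
  have hndf := hn_of_alongP' hx H
  have hndh := hn_of_alongP hx H
  have hf0 := hn_ne0 hndf hf
  have hh0 : ∀ j, h j ≠ 0 := by
    intro j h0
    apply hhx j
    rw [h0]
    unfold ev
    exact Finsupp.sum_zero_index
  have e : Fin q ⊕ Fin n ≃ Fin (n + q) := Fintype.equivOfCardEq (by
    rw [Fintype.card_sum, Fintype.card_fin, Fintype.card_fin, Fintype.card_fin, add_comm])
  obtain ⟨C0, hC0⟩ := exists_C0 hx e hf0 hf hndf.self
  obtain ⟨p', hp'⟩ : ∃ p', p' = Fintype.card {j // 0 < c j} := ⟨_, rfl⟩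
  let ec : Fin p' ≃ {j // 0 < c j} := (Fintype.equivFinOfCardEq hp'.symm).symm
  have hlow := base_low hx hf0 hf hC0 hh0 hhx (fun P => hndf.places P)
    (fun P V => (hndh V).places P) fun j => (hc j).2
  have hB : CSys n (fun P => ((bdry (fun _ => 1) c x h P : ℚ) : ℝ)) x f (fun i => h (ec i))
      (fun i => c (ec i)) := by
    refine ⟨rfl, hx, hgen, hf, fun i => hhx _, hndf, fun i => (ec i).2, fun i => (hc _).2,
      fun P => ?_, ⟨e, C0, hC0, fun P hP D hD hO => ?_⟩, fun P hv => ?_, fun P hv => ?_⟩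
    · have h1 : bdry (fun _ => 1) c x h P ≤ 1 := bdry_le (fun _ _ => one_pos) fun j => (hc j).2
      exact_mod_cast h1
    · have h1 := hlow P hP D hD hO
      rw [sum_drop (fun j => (hc j).1) ec, sum_drop (fun j => (hc j).1) ec] at h1
      exact h1
    · have h1 := bdry_up0 hx hh0 hhx (fun j => (hc j).1) P hv
      have h2 : ((bdry (fun _ => 1) c x h P : ℚ) : ℝ) ≤
          ∑ j, ((c j : ℚ) : ℝ) * (P.ord (ev x (h j)) : ℝ) := by
        have h3 := (Rat.cast_le (K := ℝ)).2 h1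
        push_cast at h3 ⊢
        exact h3
      rw [sum_drop (fun j => (hc j).1) ec] at h2
      exact h2
    · rw [bdry_ne hv, sub_self, Rat.cast_zero]
  exact CSys.all hn htr q _ q p' x f _ _ hB le_rfl

/-- The condition on the polytopes: either there is none, for `A = 1`, or for some `0 < t ≤ 1` the
polytope `F_t` is not empty, and `t = 1` or the dimension of the image of the variety in the torus
whose characters are parallel to `F_t` is less than `n`. -/
def PolyCondC {K : Type} [Field K] [Algebra ℂ K] {n q p : ℕ} (A : (Fin (n + q) → ℤ) → ℚ)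
    (c : Fin p → ℚ) (f : Fin q → (Fin (n + q) → ℤ) →₀ ℂ) (h : Fin p → (Fin (n + q) → ℤ) →₀ ℂ)
    (x : Fin (n + q) → K) : Prop :=
  (∀ v, A v = 1) ∨ ∃ t : ℚ, 0 < t ∧ t ≤ 1 ∧ (Ftope t A c f h).Nonempty ∧
    (t = 1 ∨ Algebra.trdeg ℂ (IntermediateField.adjoin ℂ
      {z : K | ∃ w ∈ Parallel (Ftope t A c f h), z = mono x w}) < n)

/-- **The dichotomy for nondegenerate pairs.** -/
theorem pair_allC {n q p : ℕ} (hn : 1 ≤ n) {K : Type} [Field K] [Algebra ℂ K]
    (htr : Algebra.trdeg ℂ K = (n : ℕ)) {x : Fin (n + q) → K} (hx : ∀ i, x i ≠ 0)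
    (hgen : IntermediateField.adjoin ℂ (Set.range x) = ⊤) {f : Fin q → (Fin (n + q) → ℤ) →₀ ℂ}
    (hf : ∀ l, ev x (f l) = 0) {h : Fin p → (Fin (n + q) → ℤ) →₀ ℂ} (hhx : ∀ j, ev x (h j) ≠ 0)
    (H : AlongP f h x) {A : (Fin (n + q) → ℤ) → ℚ} (hA : IsWeight A) {c : Fin p → ℚ}
    (hc : ∀ j, 0 ≤ c j ∧ c j ≤ 1) (hpoly : PolyCondC A c f h x) :
    PosB ℂ K n (fun P => ((bdry A c x h P : ℚ) : ℝ)) ∨
      NegB ℂ K n (fun P => ((bdry A c x h P : ℚ) : ℝ)) := by
  rcases hpoly with h1 | ⟨t, ht0, ht1, hF, htd⟩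
  · have h1' : A = fun _ => 1 := funext h1
    rw [h1']
    exact pair_coef hn htr hx hgen hf hhx H hc
  · exact pair_cond hn htr hx hgen hf hhx H hA hc ht0 ht1 hF htd

end Pool.Agent.R885.N
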