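import Pool.Agent.R885.T15

/-!
Quotients of nondegenerate pairs with arbitrary coefficients, for the hand-ins.
-/

set_option autoImplicit false
set_option linter.overlappingInstances false
set_option linter.unusedSectionVars false

open FF IntermediateField Pool.Agent.W602.GT Pool.Agent.W619.PQ Pool.Agent.W619.TW
  Pool.Agent.W603.LV Pool.Agent.W672.PG Pool.Agent.W824.PG Pool.Agent.Y172 Pool.Agent.Y191
  Pool.Agent.Y174

namespace Pool.Agent.R885.N

theorem qfinal {n q p : ℕ} (hn : 1 ≤ n) {L : Type} [Field L] [Algebra ℂ L]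
    (htr : Algebra.trdeg ℂ L = (n : ℕ)) {x : Fin (n + q) → L} (hx : ∀ i, x i ≠ 0)
    (hgen : IntermediateField.adjoin ℂ (Set.range x) = ⊤) {f : Fin q → (Fin (n + q) → ℤ) →₀ ℂ}
    (hf : ∀ l, ev x (f l) = 0) {h : Fin p → (Fin (n + q) → ℤ) →₀ ℂ} (hhx : ∀ j, ev x (h j) ≠ 0)
    (H : AlongP f h x) {A : (Fin (n + q) → ℤ) → ℚ} (hA : IsWeight A) {c : Fin p → ℚ}
    (hc : ∀ j, 0 ≤ c j ∧ c j ≤ 1) (hpoly : PolyCondC A c f h x)
    {G : Subgroup (L ≃ₐ[ℂ] L)} [Finite G] {N : ℕ} {y : Fin (N + 1) → fixedField G}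
    {Δ : Place ℂ (fixedField G) → ℚ} (hy : IsQuotientPair (bdry A c x h) G y n Δ) :
    QData (n := n) G y Δ :=
  qdata htr hgen (fun _ => bdry_nonneg hA.le_one)
    (pair_allC hn htr hx hgen hf hhx H hA hc hpoly) hy

theorem QData.equal {L : Type} [Field L] [Algebra ℂ L] {n N : ℕ} {G : Subgroup (L ≃ₐ[ℂ] L)}
    {y : Fin (N + 1) → fixedField G} {Δ : Place ℂ (fixedField G) → ℚ}
    (h : QData (n := n) G y Δ) (hy : NormalModel y) (hΔ : Effective y Δ) : EqualDims y n Δ := by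
  obtain ⟨htr, δ, hδ, hm, hdisc⟩ := h
  exact equalB htr hδ hy hΔ hm hdisc

end Pool.Agent.R885.N
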