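import Pool.Agent.R885.T0

/-!
R885, part T2: the orders of the minors of an exceptional system.
-/

set_option autoImplicit false
set_option linter.overlappingInstances false
set_option linter.unusedSectionVars false

open FF Pool.Agent.W603.LV

namespace Pool.Agent.R885.N

section

variable {k K : Type} [Field k] [Field K] [Algebra k K] {r m : ℕ} {x : Fin r → K}
  {J : Type} [Fintype J] {f : J → (Fin r → ℤ) →₀ k} {s : Fin (m + 1) → Fin r → ℤ}

theorem t2_ge_ev (hx : ∀ i, x i ≠ 0) (P : Place k K) (g : (Fin r → ℤ) →₀ k) :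
    Ge P (mn (vec P x) g) (ev x g) := by
  unfold ev Finsupp.sum
  refine Ge.sum _ _ fun w hw => ?_
  have h1 : Ge P (0 + w ⬝ᵥ vec P x) (algebraMap k K (g w) * mono x w) :=
    (Ge.const (P := P) (g w)).mul (Or.inr (by rw [ord_mono P hx]))
  rw [zero_add] at h1
  exact h1.mono (mn_le hw)

theorem t2_ne {g : (Fin r → ℤ) →₀ k} (hg : ev x g ≠ 0) : g ≠ 0 := by
  rintro rfl
  exact hg (by unfold ev; simp)

theorem t2_sum_sigma {A : Type} [AddCommMonoid A] {a : Fin (m + 1)} {σ : Fin m → Fin (m + 1)}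
    (hσ : Function.Injective σ) (hσa : ∀ l, σ l ≠ a) (g : Fin (m + 1) → A) :
    ∑ l, g (σ l) = ∑ a' ∈ Finset.univ.erase a, g a' := by
  classical
  have h1 : Finset.univ.image σ = Finset.univ.erase a := by
    refine Finset.eq_of_subset_of_card_le (fun i hi => ?_) ?_
    · obtain ⟨l, -, rfl⟩ := Finset.mem_image.1 hi
      exact Finset.mem_erase.2 ⟨hσa l, Finset.mem_univ _⟩
    · rw [Finset.card_image_of_injective _ hσ, Finset.card_erase_of_mem (Finset.mem_univ a),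
        Finset.card_univ, Finset.card_univ, Fintype.card_fin, Fintype.card_fin]
      omega
  rw [← h1, Finset.sum_image fun i _ j _ hij => hσ hij]

theorem t2_ord_prod {α : Type} (P : Place k K) (S : Finset α) (g : α → K)
    (hg : ∀ i ∈ S, g i ≠ 0) : P.ord (∏ i ∈ S, g i) = ∑ i ∈ S, P.ord (g i) := by
  classical
  induction S using Finset.induction_on with
  | empty => simp [P.ord_one]
  | insert a S ha ih =>
    have h1 : ∀ i ∈ S, g i ≠ 0 := fun i hi => hg i (Finset.mem_insert_of_mem hi)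
    rw [Finset.prod_insert ha, Finset.sum_insert ha,
      P.ord_mul (hg a (Finset.mem_insert_self a S)) (Finset.prod_ne_zero_iff.2 h1), ih h1]

theorem t2_ordG (hE : Exc x f s) {ε : Fin m ≃ JC f s}
    {B : Fin m → Fin r → ℤ} {b : Fin (m + 1) → Fin r → ℤ} {Δ : Fin (m + 1) → (Fin r → ℤ) →₀ k}
    {lam : K} (hS : Sol x f s ε B b Δ lam) (P : Place k K) (a : Fin (m + 1)) :
    P.ord (Matrix.of fun (l : Fin m) (i : Fin m) => Gp x s (f (ε l)) i.succ).det =
      ∑ l, B l ⬝ᵥ vec P x + ∑ a' ∈ Finset.univ.erase a, b a' ⬝ᵥ vec P x +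
        P.ord (ev x (Δ a)) := by
  rw [hS.hG a]
  have h1 : ∏ l, mono x (B l) ≠ 0 := Finset.prod_ne_zero_iff.2 fun l _ => mono_ne hE.hx _
  have h2 : ∏ a' ∈ Finset.univ.erase a, mono x (b a') ≠ 0 :=
    Finset.prod_ne_zero_iff.2 fun l _ => mono_ne hE.hx _
  rw [P.ord_mul (mul_ne_zero h1 h2) (hS.hΔ0 a), P.ord_mul h1 h2,
    t2_ord_prod P _ _ fun l _ => mono_ne hE.hx _, t2_ord_prod P _ _ fun l _ => mono_ne hE.hx _]
  simp only [ord_mono P hE.hx]

theorem t2_ordb (hE : Exc x f s) {ε : Fin m ≃ JC f s}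
    {B : Fin m → Fin r → ℤ} {b : Fin (m + 1) → Fin r → ℤ} {Δ : Fin (m + 1) → (Fin r → ℤ) →₀ k}
    {lam : K} (hS : Sol x f s ε B b Δ lam) (P : Place k K) (a : Fin (m + 1)) :
    b a ⬝ᵥ vec P x = P.ord (ev x (Δ a)) - P.ord lam := by
  rw [hS.hΔb a, P.ord_mul hS.lam0 (mono_ne hE.hx _), ord_mono P hE.hx]
  ring

/-- the pairing with the vector of the orders -/
theorem t2_pair (hE : Exc x f s) {ε : Fin m ≃ JC f s}
    {B : Fin m → Fin r → ℤ} {b : Fin (m + 1) → Fin r → ℤ} {Δ : Fin (m + 1) → (Fin r → ℤ) →₀ k}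
    {lam : K} (hS : Sol x f s ε B b Δ lam) (P : Place k K)
    (hv : ∀ w : Fin r → ℤ, (∀ i, w ⬝ᵥ s i = 0) → w ⬝ᵥ vec P x = 0) (w : Fin r → ℤ) :
    w ⬝ᵥ vec P x = ∑ a, P.ord (ev x (Δ a)) * (w ⬝ᵥ s a) := by
  classical
  have h1 := hv (w - ∑ a, (w ⬝ᵥ s a) • b a) (fun i => by
    rw [sub_dotProduct, sum_dotProduct]
    have h2 : ∀ a, ((w ⬝ᵥ s a) • b a) ⬝ᵥ s i =
        (if i = a then w ⬝ᵥ s a else 0) - (w ⬝ᵥ s a) * if i = 0 then 1 else 0 := by
      intro a
      rw [smul_dotProduct, hS.hb, smul_eq_mul, mul_sub, mul_ite, mul_one, mul_zero]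
    rw [Finset.sum_congr rfl fun a _ => h2 a, Finset.sum_sub_distrib,
      Finset.sum_ite_eq Finset.univ i, if_pos (Finset.mem_univ i), ← Finset.sum_mul,
      ← dotProduct_sum, hE.hs, dotProduct_zero]
    ring)
  rw [sub_dotProduct, sum_dotProduct, sub_eq_zero] at h1
  rw [h1]
  have h2 : ∀ a, ((w ⬝ᵥ s a) • b a) ⬝ᵥ vec P x =
      P.ord (ev x (Δ a)) * (w ⬝ᵥ s a) - P.ord lam * (w ⬝ᵥ s a) := by
    intro a
    rw [smul_dotProduct, t2_ordb hE hS P a, smul_eq_mul]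
    ring
  have h3 : ∑ a, P.ord lam * (w ⬝ᵥ s a) = 0 := by
    rw [← Finset.mul_sum, ← dotProduct_sum, hE.hs, dotProduct_zero, mul_zero]
  rw [Finset.sum_congr rfl fun a _ => h2 a, Finset.sum_sub_distrib, h3, sub_zero]

theorem Sol.ordE (hE : Exc x f s) (hf0 : ∀ l, f l ≠ 0) {ε : Fin m ≃ JC f s}
    {B : Fin m → Fin r → ℤ} {b : Fin (m + 1) → Fin r → ℤ} {Δ : Fin (m + 1) → (Fin r → ℤ) →₀ k}
    {lam : K} (hS : Sol x f s ε B b Δ lam) (P : Place k K) :
    (∀ a, mn (vec P x) (Δ a) ≤ P.ord (ev x (Δ a))) ∧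
    (∀ a, P.ord (ev x (Δ a)) - mn (vec P x) (Δ a) ≤
      P.ord (Matrix.of fun (l : Fin m) (i : Fin m) => Gp x s (f (ε l)) i.succ).det -
        ∑ l, mn (vec P x) (f (ε l))) ∧
    (∀ a, b a ⬝ᵥ vec P x = P.ord (ev x (Δ a)) - P.ord lam) ∧
    (vec P x ≠ 0 → (∀ w : Fin r → ℤ, (∀ i, w ⬝ᵥ s i = 0) → w ⬝ᵥ vec P x = 0) →
      vec P x = ∑ a, P.ord (ev x (Δ a)) • s a ∧
      ∃ (T : Finset (Fin (m + 1))) (e1 : ℤ), T.Nonempty ∧ T ≠ Finset.univ ∧ 1 ≤ e1 ∧
        (∀ a ∈ T, P.ord (ev x (Δ a)) = e1) ∧ (∀ a, a ∉ T → P.ord (ev x (Δ a)) ≤ e1 - 1) ∧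
        e1 + T.card - 1 -
            ∑ l, (mn (∑ a ∈ T, s a) (f (ε l)) - ∑ a ∈ T, mn (s a) (f (ε l))) ≤
          P.ord (Matrix.of fun (l : Fin m) (i : Fin m) => Gp x s (f (ε l)) i.succ).det -
            ∑ l, mn (vec P x) (f (ε l))) := by
  classical
  have h1 : ∀ a, mn (vec P x) (Δ a) ≤ P.ord (ev x (Δ a)) := fun a =>
    (t2_ge_ev hE.hx P (Δ a)).resolve_left (hS.hΔ0 a)
  refine ⟨h1, fun a => ?_, fun a => t2_ordb hE hS P a, fun hv0 hv => ?_⟩
  · rw [t2_ordG hE hS P a]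
    have h2 : ∑ l, mn (vec P x) (f (ε l)) - ∑ l, B l ⬝ᵥ vec P x -
        ∑ a' ∈ Finset.univ.erase a, b a' ⬝ᵥ vec P x ≤ mn (vec P x) (Δ a) := by
      refine le_mn (t2_ne (hS.hΔ0 a)) fun w hw => ?_
      obtain ⟨σ, e, hσ, hσa, he, rfl⟩ := hS.hexp a w hw
      rw [sum_dotProduct]
      simp only [sub_dotProduct]
      rw [Finset.sum_sub_distrib, Finset.sum_sub_distrib,
        t2_sum_sigma hσ hσa (fun a' => b a' ⬝ᵥ vec P x)]
      have h3 : ∑ l, mn (vec P x) (f (ε l)) ≤ ∑ l, e l ⬝ᵥ vec P x :=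
        Finset.sum_le_sum fun l _ => mn_le (he l).1
      linarith
    linarith
  -- the vector of the orders
  have hpair := t2_pair hE hS P hv
  have hvec : vec P x = ∑ a, P.ord (ev x (Δ a)) • s a := by
    funext i
    have h2 := hpair (Pi.single i 1)
    rw [single_dotProduct, one_mul] at h2
    rw [h2, Finset.sum_apply]
    refine Finset.sum_congr rfl fun a _ => ?_
    rw [single_dotProduct, one_mul, Pi.smul_apply, smul_eq_mul]
  refine ⟨hvec, ?_⟩
  have hmn0 : ∀ a, 0 ≤ P.ord (ev x (Δ a)) := by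
    intro a
    obtain ⟨w, hw, hw'⟩ := exists_mn (t2_ne (hS.hΔ0 a)) (vec P x)
    have h2 := h1 a
    rw [← hw', hv w (hS.hΔs a w hw)] at h2
    exact h2
  set o : Fin (m + 1) → ℤ := fun a => P.ord (ev x (Δ a)) with ho
  obtain ⟨a1, -, ha1⟩ := Finset.exists_max_image (Finset.univ : Finset (Fin (m + 1))) o
    ⟨0, Finset.mem_univ _⟩
  set e1 := o a1 with he1
  set T : Finset (Fin (m + 1)) := Finset.univ.filter fun a => o a = e1 with hT
  have hmemT : ∀ a, a ∈ T ↔ o a = e1 := fun a => by simp [hT]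
  have hTu : T ≠ Finset.univ := by
    intro h2
    apply hv0
    have h3 : ∀ a, P.ord (ev x (Δ a)) = e1 := fun a =>
      (hmemT a).1 (by rw [h2]; exact Finset.mem_univ a)
    rw [hvec, Finset.sum_congr rfl fun a _ => by rw [h3 a], ← Finset.smul_sum, hE.hs, smul_zero]
  have he1pos : 1 ≤ e1 := by
    by_contra hcon
    apply hTu
    ext a
    simp only [Finset.mem_univ, iff_true]
    rw [hmemT]
    have h2 := ha1 a (Finset.mem_univ a)
    have h3 : 0 ≤ o a := hmn0 a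
    omega
  refine ⟨T, e1, ⟨a1, (hmemT a1).2 rfl⟩, hTu, he1pos, fun a ha => (hmemT a).1 ha,
    fun a ha => ?_, ?_⟩
  · have h2 := ha1 a (Finset.mem_univ a)
    have h3 : o a ≠ e1 := fun h4 => ha ((hmemT a).2 h4)
    change o a ≤ e1 - 1
    omega
  -- the bound
  have ha1T : a1 ∈ T := (hmemT a1).2 rfl
  obtain ⟨w, hw⟩ := Finsupp.support_nonempty_iff.2 (t2_ne (hS.hΔ0 a1))
  obtain ⟨σ, e, hσ, hσa, he, -⟩ := hS.hexp a1 w hw
  have htv : ∀ (l : Fin m) (e' : Fin r → ℤ), e' ∈ (f (ε l)).support → ∀ t : Fin (m + 1),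
      (∀ i, e' ⬝ᵥ s i = mn (s i) (f (ε l)) + if i = t then 1 else 0) →
      e' ⬝ᵥ vec P x = ∑ i, o i * mn (s i) (f (ε l)) + o t := by
    intro l e' he' t ht
    rw [hpair e']
    have h2 : ∀ i, P.ord (ev x (Δ i)) * (e' ⬝ᵥ s i) =
        o i * mn (s i) (f (ε l)) + if i = t then o i else 0 := by
      intro i
      rw [ht i, mul_add, mul_ite, mul_one, mul_zero]
    rw [Finset.sum_congr rfl fun i _ => h2 i, Finset.sum_add_distrib,
      Finset.sum_ite_eq' Finset.univ t, if_pos (Finset.mem_univ t)]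
  have htT : ∀ (l : Fin m) (e' : Fin r → ℤ), e' ∈ (f (ε l)).support → ∀ t : Fin (m + 1),
      (∀ i, e' ⬝ᵥ s i = mn (s i) (f (ε l)) + if i = t then 1 else 0) →
      e' ⬝ᵥ (∑ a ∈ T, s a) = ∑ a ∈ T, mn (s a) (f (ε l)) + if t ∈ T then 1 else 0 := by
    intro l e' he' t ht
    rw [dotProduct_sum, Finset.sum_congr rfl fun i _ => ht i, Finset.sum_add_distrib,
      Finset.sum_ite_eq' T t]
  have hkey : ∀ l : Fin m, (if σ l ∈ T then (1 : ℤ) else 0) -
      (mn (∑ a ∈ T, s a) (f (ε l)) - ∑ a ∈ T, mn (s a) (f (ε l))) ≤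
      o (σ l) - (mn (vec P x) (f (ε l)) - ∑ i, o i * mn (s i) (f (ε l))) := by
    intro l
    have h2 := type_eq hE.hs (hE.mn_eq _ (ε l).2) (he l).1 (he l).2
    have h3 : mn (vec P x) (f (ε l)) ≤ ∑ i, o i * mn (s i) (f (ε l)) + o (σ l) := by
      rw [← htv l (e l) (he l).1 (σ l) h2]
      exact mn_le (he l).1
    obtain ⟨e', he', he''⟩ := exists_mn (hf0 (ε l)) (∑ a ∈ T, s a)
    obtain ⟨t, ht⟩ := exists_type hE.hs (hE.mn_eq _ (ε l).2) he'
    have h4 := htT l e' he' t ht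
    rw [he''] at h4
    have h5 : mn (vec P x) (f (ε l)) ≤ ∑ i, o i * mn (s i) (f (ε l)) + o t := by
      rw [← htv l e' he' t ht]
      exact mn_le he'
    by_cases htT' : t ∈ T
    · rw [if_pos htT'] at h4
      split_ifs <;> linarith
    · rw [if_neg htT'] at h4
      have h6 : o t ≤ e1 - 1 := by
        have h7 := ha1 t (Finset.mem_univ t)
        have h8 : o t ≠ e1 := fun h9 => htT' ((hmemT t).2 h9)
        omega
      by_cases hσT : σ l ∈ T
      · rw [if_pos hσT]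
        have h7 : o (σ l) = e1 := (hmemT _).1 hσT
        linarith
      · rw [if_neg hσT]
        linarith
  have hsum := Finset.sum_le_sum fun l (_ : l ∈ (Finset.univ : Finset (Fin m))) => hkey l
  rw [Finset.sum_sub_distrib, Finset.sum_sub_distrib,
    t2_sum_sigma hσ hσa (fun a' => if a' ∈ T then (1 : ℤ) else 0)] at hsum
  have hcard : ∑ a' ∈ Finset.univ.erase a1, (if a' ∈ T then (1 : ℤ) else 0) = T.card - 1 := by
    have h2 : ∑ a', (if a' ∈ T then (1 : ℤ) else 0) = T.card := by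
      rw [Finset.sum_ite_mem, Finset.univ_inter]
      simp
    rw [← Finset.add_sum_erase _ _ (Finset.mem_univ a1), if_pos ha1T] at h2
    linarith
  rw [hcard] at hsum
  have hG := t2_ordG hE hS P a1
  have hBv : ∀ l, B l ⬝ᵥ vec P x = ∑ i, o i * mn (s i) (f (ε l)) + o 0 := by
    intro l
    rw [hpair]
    have h2 : ∀ i, P.ord (ev x (Δ i)) * (B l ⬝ᵥ s i) =
        o i * mn (s i) (f (ε l)) + if i = 0 then o i else 0 := by
      intro i
      rw [hS.hB, mul_add, mul_ite, mul_one, mul_zero]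
    rw [Finset.sum_congr rfl fun i _ => h2 i, Finset.sum_add_distrib,
      Finset.sum_ite_eq' Finset.univ 0, if_pos (Finset.mem_univ 0)]
  have hbv : ∀ a', b a' ⬝ᵥ vec P x = o a' - o 0 := by
    intro a'
    rw [hpair]
    have h2 : ∀ i, P.ord (ev x (Δ i)) * (b a' ⬝ᵥ s i) =
        (if i = a' then o i else 0) - if i = 0 then o i else 0 := by
      intro i
      rw [hS.hb, mul_sub, mul_ite, mul_one, mul_zero, mul_ite, mul_one, mul_zero]
    rw [Finset.sum_congr rfl fun i _ => h2 i, Finset.sum_sub_distrib,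
      Finset.sum_ite_eq' Finset.univ a', if_pos (Finset.mem_univ a'),
      Finset.sum_ite_eq' Finset.univ 0, if_pos (Finset.mem_univ 0)]
  have hB2 : ∑ l, B l ⬝ᵥ vec P x = ∑ l, ∑ i, o i * mn (s i) (f (ε l)) + m * o 0 := by
    rw [Finset.sum_congr rfl fun l _ => hBv l, Finset.sum_add_distrib, Finset.sum_const,
      Finset.card_univ, Fintype.card_fin, nsmul_eq_mul]
  have hb2 : ∑ a' ∈ Finset.univ.erase a1, b a' ⬝ᵥ vec P x = ∑ l, o (σ l) - m * o 0 := by
    rw [Finset.sum_congr rfl fun l _ => hbv l, Finset.sum_sub_distrib, Finset.sum_const,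
      Finset.card_erase_of_mem (Finset.mem_univ a1), Finset.card_univ, Fintype.card_fin,
      nsmul_eq_mul, t2_sum_sigma hσ hσa o]
    norm_num
  rw [hB2, hb2] at hG
  rw [hG]
  rw [Finset.sum_sub_distrib (f := fun l => o (σ l)),
    Finset.sum_sub_distrib (f := fun l => mn (vec P x) (f (ε l)))] at hsum
  rw [Finset.sum_sub_distrib]
  change e1 + (T.card : ℤ) - 1 - _ ≤ _ + _ + (∑ l, o (σ l) - m * o 0) + e1 - _
  linarith

end

end Pool.Agent.R885.N
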