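import Pool.Agent.R885.T0

/-!
T3: the substitution of the solutions of an exceptional system into the other polynomials.
-/

set_option autoImplicit false
set_option linter.overlappingInstances false
set_option linter.unusedSectionVars false

open FF IntermediateField Pool.Agent.W603.LV Pool.Agent.W619.PQ Pool.Agent.W619.PL
  Pool.Agent.Y173.QA Pool.Agent.W619.TW Pool.Agent.TH165.ACC Pool.Agent.TH122.AB
  Pool.Agent.W619.Y Pool.Agent.W824.PG Pool.Agent.Y174

namespace Pool.Agent.R885.N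

section

variable {k K : Type} [Field k] [Field K] [Algebra k K] {r m : ℕ} {x : Fin r → K}

theorem t3_ev_single (x : Fin r → K) (w : Fin r → ℤ) (c : k) :
    ev x (Finsupp.single w c) = algebraMap k K c * mono x w := by
  unfold ev
  rw [Finsupp.sum_single_index]
  rw [map_zero, zero_mul]

theorem t3_ev_add (x : Fin r → K) (f g : (Fin r → ℤ) →₀ k) : ev x (f + g) = ev x f + ev x g := by
  classical
  unfold ev
  exact Finsupp.sum_add_index' (fun _ => by rw [map_zero, zero_mul])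
    (fun _ _ _ => by rw [map_add, add_mul])

theorem t3_ev_zero (x : Fin r → K) : ev x (0 : (Fin r → ℤ) →₀ k) = 0 := by
  unfold ev
  exact Finsupp.sum_zero_index

theorem t3_ev_sum (x : Fin r → K) {α : Type} (S : Finset α) (g : α → (Fin r → ℤ) →₀ k) :
    ev x (∑ a ∈ S, g a) = ∑ a ∈ S, ev x (g a) := by
  classical
  induction S using Finset.induction_on with
  | empty => rw [Finset.sum_empty, Finset.sum_empty, t3_ev_zero]
  | insert a S ha ih => rw [Finset.sum_insert ha, Finset.sum_insert ha, t3_ev_add, ih]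

theorem t3_supp_sum {α : Type} (S : Finset α) (g : α → (Fin r → ℤ) →₀ k) {w : Fin r → ℤ}
    (hw : w ∈ (∑ a ∈ S, g a).support) : ∃ a ∈ S, w ∈ (g a).support := by
  classical
  by_contra hcon
  push Not at hcon
  rw [Finsupp.mem_support_iff] at hw
  apply hw
  rw [Finsupp.finsetSum_apply]
  refine Finset.sum_eq_zero fun a ha => ?_
  exact Finsupp.notMem_support_iff.1 (hcon a ha)

/-- `g` has the value `z`, its exponents are orthogonal to `s` and bounded below by `L`. -/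
def t3_Good (x : Fin r → K) (s : Fin (m + 1) → Fin r → ℤ) (g : (Fin r → ℤ) →₀ k) (z : K)
    (L : (Fin r → ℤ) → ℤ) : Prop :=
  ev x g = z ∧ ∀ w ∈ g.support, (∀ i, w ⬝ᵥ s i = 0) ∧ ∀ v, L v ≤ w ⬝ᵥ v

theorem t3_Good.mul (hx : ∀ i, x i ≠ 0) {s : Fin (m + 1) → Fin r → ℤ}
    {g g' : (Fin r → ℤ) →₀ k} {z z' : K} {L L' : (Fin r → ℤ) → ℤ} (h : t3_Good x s g z L)
    (h' : t3_Good x s g' z' L') :
    ∃ g'' : (Fin r → ℤ) →₀ k, t3_Good x s g'' (z * z') (fun v => L v + L' v) := by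
  classical
  refine ⟨∑ p ∈ g.support, ∑ q ∈ g'.support, Finsupp.single (p + q) (g p * g' q), ?_, ?_⟩
  · rw [t3_ev_sum]
    have h1 : ∀ p ∈ g.support, ev x (∑ q ∈ g'.support, Finsupp.single (p + q) (g p * g' q)) =
        algebraMap k K (g p) * mono x p * z' := by
      intro p _
      rw [t3_ev_sum, ← h'.1]
      unfold ev Finsupp.sum
      rw [Finset.mul_sum]
      refine Finset.sum_congr rfl fun q _ => ?_
      have h2 := t3_ev_single x (p + q) (g p * g' q)
      unfold ev Finsupp.sum at h2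
      rw [h2, mono_add hx, map_mul]
      ring
    rw [Finset.sum_congr rfl h1, ← Finset.sum_mul]
    congr 1
    exact h.1
  · intro w hw
    obtain ⟨p, hp, hw⟩ := t3_supp_sum _ _ hw
    obtain ⟨q, hq, hw⟩ := t3_supp_sum _ _ hw
    have h2 := Finset.mem_singleton.1 (Finsupp.support_single_subset hw)
    subst h2
    refine ⟨fun i => ?_, fun v => ?_⟩
    · rw [add_dotProduct, (h.2 p hp).1 i, (h'.2 q hq).1 i, add_zero]
    · rw [add_dotProduct]
      exact add_le_add ((h.2 p hp).2 v) ((h'.2 q hq).2 v)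

theorem t3_Good.one (x : Fin r → K) (s : Fin (m + 1) → Fin r → ℤ) :
    t3_Good x s (Finsupp.single 0 (1 : k)) 1 (fun _ => 0) := by
  classical
  refine ⟨?_, fun w hw => ?_⟩
  · rw [t3_ev_single, map_one, mono_zero, mul_one]
  · have h2 := Finset.mem_singleton.1 (Finsupp.support_single_subset hw)
    subst h2
    exact ⟨fun i => zero_dotProduct _, fun v => by rw [zero_dotProduct]⟩

theorem t3_Good.pow (hx : ∀ i, x i ≠ 0) {s : Fin (m + 1) → Fin r → ℤ}
    {g : (Fin r → ℤ) →₀ k} {z : K} {L : (Fin r → ℤ) → ℤ} (h : t3_Good x s g z L) (n : ℕ) :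
    ∃ g'' : (Fin r → ℤ) →₀ k, t3_Good x s g'' (z ^ n) (fun v => n * L v) := by
  induction n with
  | zero =>
    refine ⟨Finsupp.single 0 1, ?_⟩
    have := t3_Good.one (k := k) x s
    simpa using this
  | succ n ih =>
    obtain ⟨g1, h1⟩ := ih
    obtain ⟨g2, h2⟩ := h1.mul hx h
    refine ⟨g2, ?_⟩
    have e1 : (fun v => ((n : ℕ) : ℤ) * L v + L v) = fun v => ((n + 1 : ℕ) : ℤ) * L v := by
      funext v
      push_cast
      ring
    rw [e1, ← pow_succ] at h2
    exact h2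

theorem t3_Good.prod (hx : ∀ i, x i ≠ 0) {s : Fin (m + 1) → Fin r → ℤ} {α : Type}
    (S : Finset α) {g : α → (Fin r → ℤ) →₀ k} {z : α → K} {L : α → (Fin r → ℤ) → ℤ}
    (h : ∀ a, t3_Good x s (g a) (z a) (L a)) :
    ∃ g'' : (Fin r → ℤ) →₀ k, t3_Good x s g'' (∏ a ∈ S, z a) (fun v => ∑ a ∈ S, L a v) := by
  classical
  induction S using Finset.induction_on with
  | empty =>
    refine ⟨Finsupp.single 0 1, ?_⟩
    simpa using t3_Good.one (k := k) x s
  | insert a S ha ih =>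
    obtain ⟨g1, h1⟩ := ih
    obtain ⟨g2, h2⟩ := (h a).mul hx h1
    refine ⟨g2, ?_⟩
    simp only [Finset.prod_insert ha, Finset.sum_insert ha]
    exact h2

theorem t3_mono_sum (hx : ∀ i, x i ≠ 0) {α : Type} (S : Finset α) (g : α → Fin r → ℤ) :
    mono x (∑ a ∈ S, g a) = ∏ a ∈ S, mono x (g a) := by
  classical
  induction S using Finset.induction_on with
  | empty => rw [Finset.sum_empty, Finset.prod_empty, mono_zero]
  | insert a S ha ih => rw [Finset.sum_insert ha, Finset.prod_insert ha, mono_add hx, ih]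

theorem t3_prod_zpow {α : Type} [Fintype α] {lam : K} (hl : lam ≠ 0) {z : α → K} (n : α → ℤ)
    (hn : ∑ a, n a = 0) : ∏ a, (lam * z a) ^ n a = ∏ a, z a ^ n a := by
  classical
  have h1 : ∀ S : Finset α, ∏ a ∈ S, lam ^ n a = lam ^ (∑ a ∈ S, n a) := by
    intro S
    induction S using Finset.induction_on with
    | empty => simp
    | insert a S ha ih => rw [Finset.prod_insert ha, Finset.sum_insert ha, zpow_add₀ hl, ih]
  have h2 : ∀ a ∈ (Finset.univ : Finset α), (lam * z a) ^ n a = lam ^ n a * z a ^ n a :=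
    fun a _ => mul_zpow _ _ _
  rw [Finset.prod_congr rfl h2, Finset.prod_mul_distrib, h1, hn, zpow_zero, one_mul]

variable {J : Type} [Fintype J] {f : J → (Fin r → ℤ) →₀ k} {s : Fin (m + 1) → Fin r → ℤ}

theorem Sol.hcirc (hE : Exc x f s) {ε : Fin m ≃ JC f s}
    {B : Fin m → Fin r → ℤ} {b : Fin (m + 1) → Fin r → ℤ} {Δ : Fin (m + 1) → (Fin r → ℤ) →₀ k}
    {lam : K} (hS : Sol x f s ε B b Δ lam) {h : (Fin r → ℤ) →₀ k} (hh : ev x h ≠ 0) :
    ∃ h' : (Fin r → ℤ) →₀ k, (∀ w ∈ h'.support, ∀ i, w ⬝ᵥ s i = 0) ∧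
      ev x h = ev x h' * ∏ a, ev x (Δ a) ^ mn (s a) h ∧ 0 ≤ -∑ a, mn (s a) h ∧
      ∀ P : Place k K,
        (∀ κ : ℤ, 0 ≤ κ → (∀ a, P.ord (ev x (Δ a)) - mn (vec P x) (Δ a) ≤ κ) →
          mn (vec P x) h - ∑ a, mn (s a) h * P.ord (ev x (Δ a)) - mn (vec P x) h' ≤
            (-∑ a, mn (s a) h) * κ) ∧
        (vec P x = ∑ a, P.ord (ev x (Δ a)) • s a → ∀ (T : Finset (Fin (m + 1))) (e1 : ℤ),
          (∀ a ∈ T, P.ord (ev x (Δ a)) = e1) → (∀ a, a ∉ T → P.ord (ev x (Δ a)) ≤ e1 - 1) →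
          mn (vec P x) h - ∑ a, mn (s a) h * P.ord (ev x (Δ a)) ≤
            (e1 - 1) * (-∑ a, mn (s a) h) + (mn (∑ a ∈ T, s a) h - ∑ a ∈ T, mn (s a) h)) := by
  classical
  have hx := hE.hx
  have h0 : h ≠ 0 := by
    rintro rfl
    exact hh (t3_ev_zero x)
  have hes : ∀ e : Fin r → ℤ, ∑ a, e ⬝ᵥ s a = 0 := by
    intro e
    rw [← dotProduct_sum, hE.hs, dotProduct_zero]
  -- the nonnegative numbers `δ`
  have hδ : ∀ e ∈ h.support, ∀ a, 0 ≤ e ⬝ᵥ s a - mn (s a) h := fun e he a =>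
    sub_nonneg.2 (mn_le he)
  have hδs : ∀ e : Fin r → ℤ, ∑ a, (e ⬝ᵥ s a - mn (s a) h) = -∑ a, mn (s a) h := by
    intro e
    rw [Finset.sum_sub_distrib, hes, zero_sub]
  have hN : 0 ≤ -∑ a, mn (s a) h := by
    obtain ⟨e, he⟩ := Finsupp.support_nonempty_iff.2 h0
    rw [← hδs e]
    exact Finset.sum_nonneg fun a _ => hδ e he a
  let eo : (Fin r → ℤ) → Fin r → ℤ := fun e => e - ∑ a, (e ⬝ᵥ s a) • b a
  have heo : ∀ e i, eo e ⬝ᵥ s i = 0 := by
    intro e i
    show (e - ∑ a, (e ⬝ᵥ s a) • b a) ⬝ᵥ s i = 0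
    rw [sub_dotProduct, sum_dotProduct]
    have h1 : ∀ a ∈ (Finset.univ : Finset (Fin (m + 1))), ((e ⬝ᵥ s a) • b a) ⬝ᵥ s i =
        (if i = a then e ⬝ᵥ s a else 0) - (e ⬝ᵥ s a) * (if i = 0 then 1 else 0) := by
      intro a _
      rw [smul_dotProduct, hS.hb, smul_eq_mul, mul_sub]
      congr 1
      split_ifs <;> simp
    rw [Finset.sum_congr rfl h1, Finset.sum_sub_distrib, ← Finset.sum_mul, hes, zero_mul,
      sub_zero, Finset.sum_ite_eq, if_pos (Finset.mem_univ _), sub_self]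
  -- the monomials
  have hmono : ∀ e : Fin r → ℤ, mono x e = mono x (eo e) * ∏ a, ev x (Δ a) ^ (e ⬝ᵥ s a) := by
    intro e
    have h1 : e = eo e + ∑ a, (e ⬝ᵥ s a) • b a := by
      show e = (e - ∑ a, (e ⬝ᵥ s a) • b a) + _
      rw [sub_add_cancel]
    have h2 : ∏ a, ev x (Δ a) ^ (e ⬝ᵥ s a) = ∏ a, mono x (b a) ^ (e ⬝ᵥ s a) := by
      rw [← t3_prod_zpow hS.lam0 (z := fun a => mono x (b a)) (fun a => e ⬝ᵥ s a) (hes e)]
      exact Finset.prod_congr rfl fun a _ => by rw [hS.hΔb]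
    rw [h2]
    conv_lhs => rw [h1]
    rw [mono_add hx, t3_mono_sum hx]
    congr 1
    exact Finset.prod_congr rfl fun a _ => mono_zsmul _ _ _
  -- the pieces
  have hgood : ∀ e : Fin r → ℤ, ∃ g : (Fin r → ℤ) →₀ k, t3_Good x s g
      (algebraMap k K (h e) * mono x (eo e) *
        ∏ a, ev x (Δ a) ^ (e ⬝ᵥ s a - mn (s a) h).toNat)
      (fun v => eo e ⬝ᵥ v + ∑ a, ((e ⬝ᵥ s a - mn (s a) h).toNat : ℤ) * mn v (Δ a)) := by
    intro e
    have h1 : ∀ a : Fin (m + 1), ∃ g : (Fin r → ℤ) →₀ k, t3_Good x s g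
        (ev x (Δ a) ^ (e ⬝ᵥ s a - mn (s a) h).toNat)
        (fun v => ((e ⬝ᵥ s a - mn (s a) h).toNat : ℤ) * mn v (Δ a)) := by
      intro a
      refine t3_Good.pow hx ⟨rfl, fun w hw => ⟨hS.hΔs a w hw, fun v => mn_le hw⟩⟩ _
    choose g hg using h1
    obtain ⟨g1, hg1⟩ := t3_Good.prod hx Finset.univ hg
    have h2 : t3_Good x s (Finsupp.single (eo e) (h e)) (algebraMap k K (h e) * mono x (eo e))
        (fun v => eo e ⬝ᵥ v) := by
      refine ⟨t3_ev_single _ _ _, fun w hw => ?_⟩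
      have h2 := Finset.mem_singleton.1 (Finsupp.support_single_subset hw)
      subst h2
      exact ⟨heo e, fun v => le_rfl⟩
    exact h2.mul hx hg1
  choose g hg using hgood
  have hval : ∀ e ∈ h.support, algebraMap k K (h e) * mono x e =
      ev x (g e) * ∏ a, ev x (Δ a) ^ mn (s a) h := by
    intro e he
    rw [(hg e).1, hmono e, mul_assoc, mul_assoc]
    congr 2
    rw [← Finset.prod_mul_distrib]
    refine Finset.prod_congr rfl fun a _ => ?_
    rw [← zpow_natCast, Int.toNat_of_nonneg (hδ e he a), ← zpow_add₀ (hS.hΔ0 a),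
      sub_add_cancel]
  have hval' : ev x h = ev x (∑ e ∈ h.support, g e) * ∏ a, ev x (Δ a) ^ mn (s a) h := by
    rw [t3_ev_sum, Finset.sum_mul, ← Finset.sum_congr rfl hval]
    rfl
  refine ⟨∑ e ∈ h.support, g e, ?_, hval', hN, ?_⟩
  · intro w hw i
    obtain ⟨e, he, hw⟩ := t3_supp_sum _ _ hw
    exact ((hg e).2 w hw).1 i
  · intro P
    have hba : ∀ a, b a ⬝ᵥ vec P x = P.ord (ev x (Δ a)) - P.ord lam := by
      intro a
      rw [hS.hΔb, P.ord_mul hS.lam0 (mono_ne hx _), ord_mono P hx]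
      ring
    refine ⟨fun κ hκ hκa => ?_, fun hv T e1 hT hT' => ?_⟩
    · have hh' : (∑ e ∈ h.support, g e) ≠ 0 := by
        intro h1
        rw [h1, t3_ev_zero, zero_mul] at hval'
        exact hh hval'
      obtain ⟨w, hw, hwm⟩ := exists_mn hh' (vec P x)
      obtain ⟨e, he, hw⟩ := t3_supp_sum _ _ hw
      have h1 := ((hg e).2 w hw).2 (vec P x)
      rw [hwm] at h1
      have h2 : e ⬝ᵥ vec P x = eo e ⬝ᵥ vec P x + ∑ a, (e ⬝ᵥ s a) * P.ord (ev x (Δ a)) := by
        have h3 : e = eo e + ∑ a, (e ⬝ᵥ s a) • b a := by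
          show e = (e - ∑ a, (e ⬝ᵥ s a) • b a) + _
          rw [sub_add_cancel]
        conv_lhs => rw [h3]
        rw [add_dotProduct, sum_dotProduct]
        congr 1
        have h4 : ∀ a ∈ (Finset.univ : Finset (Fin (m + 1))), ((e ⬝ᵥ s a) • b a) ⬝ᵥ vec P x =
            (e ⬝ᵥ s a) * P.ord (ev x (Δ a)) - (e ⬝ᵥ s a) * P.ord lam := by
          intro a _
          rw [smul_dotProduct, hba, smul_eq_mul, mul_sub]
        rw [Finset.sum_congr rfl h4, Finset.sum_sub_distrib, ← Finset.sum_mul, hes, zero_mul,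
          sub_zero]
      have h3 : mn (vec P x) h ≤ e ⬝ᵥ vec P x := mn_le he
      have h4 : ∑ a, ((e ⬝ᵥ s a - mn (s a) h).toNat : ℤ) *
          (P.ord (ev x (Δ a)) - mn (vec P x) (Δ a)) ≤ (-∑ a, mn (s a) h) * κ := by
        rw [← hδs e, Finset.sum_mul]
        refine Finset.sum_le_sum fun a _ => ?_
        rw [Int.toNat_of_nonneg (hδ e he a)]
        exact mul_le_mul_of_nonneg_left (hκa a) (hδ e he a)
      have h5 : ∑ a, ((e ⬝ᵥ s a - mn (s a) h).toNat : ℤ) *
          (P.ord (ev x (Δ a)) - mn (vec P x) (Δ a)) =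
          ∑ a, (e ⬝ᵥ s a) * P.ord (ev x (Δ a)) - ∑ a, mn (s a) h * P.ord (ev x (Δ a)) -
            ∑ a, ((e ⬝ᵥ s a - mn (s a) h).toNat : ℤ) * mn (vec P x) (Δ a) := by
        rw [← Finset.sum_sub_distrib, ← Finset.sum_sub_distrib]
        refine Finset.sum_congr rfl fun a _ => ?_
        rw [Int.toNat_of_nonneg (hδ e he a)]
        ring
      linarith
    · obtain ⟨e, he, hem⟩ := exists_mn h0 (∑ a ∈ T, s a)
      have h3 : mn (vec P x) h ≤ e ⬝ᵥ vec P x := mn_le he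
      have h2 : e ⬝ᵥ vec P x = ∑ a, (e ⬝ᵥ s a) * P.ord (ev x (Δ a)) := by
        conv_lhs => rw [hv]
        rw [dotProduct_sum]
        refine Finset.sum_congr rfl fun a _ => ?_
        rw [dotProduct_smul, smul_eq_mul, mul_comm]
      have h4 : ∑ a, (e ⬝ᵥ s a) * P.ord (ev x (Δ a)) - ∑ a, mn (s a) h * P.ord (ev x (Δ a)) ≤
          ∑ a, ((e1 - 1) * (e ⬝ᵥ s a - mn (s a) h) +
            if a ∈ T then e ⬝ᵥ s a - mn (s a) h else 0) := by
        rw [← Finset.sum_sub_distrib]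
        refine Finset.sum_le_sum fun a _ => ?_
        by_cases ha : a ∈ T
        · rw [if_pos ha, hT a ha]
          apply le_of_eq
          ring
        · rw [if_neg ha, add_zero]
          have h5 := mul_le_mul_of_nonneg_left (hT' a ha) (hδ e he a)
          nlinarith [h5]
      have h5 : ∑ a, ((e1 - 1) * (e ⬝ᵥ s a - mn (s a) h) +
            if a ∈ T then e ⬝ᵥ s a - mn (s a) h else 0) =
          (e1 - 1) * (-∑ a, mn (s a) h) + (mn (∑ a ∈ T, s a) h - ∑ a ∈ T, mn (s a) h) := by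
        rw [Finset.sum_add_distrib, ← Finset.mul_sum, hδs, ← Finset.sum_filter,
          Finset.filter_mem_eq_inter, Finset.univ_inter, Finset.sum_sub_distrib, ← hem,
          dotProduct_sum]
      linarith

end

end Pool.Agent.R885.N
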