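import Pool.Agent.R885.T1
import Pool.Agent.R885.T2
import Pool.Agent.R885.T3

/-!
Pairs with arbitrary coefficients: elimination.
-/

set_option autoImplicit false
set_option linter.overlappingInstances false
set_option linter.unusedSectionVars false

open FF Pool.Agent.W603.LV Pool.Agent.W619.PQ

namespace Pool.Agent.R885.N

section

variable {k K : Type} [Field k] [Field K] [Algebra k K] {r m q p n : ℕ} {x : Fin r → K}
  {f : Fin q → (Fin r → ℤ) →₀ k} {h : Fin p → (Fin r → ℤ) →₀ k} {s : Fin (m + 1) → Fin r → ℤ}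

/-- The data of the elimination, for a given enumeration of the exceptional equations. -/
theorem t4_data (hs : Exc x f s) (hf0 : ∀ l, f l ≠ 0) (ε : Fin m ≃ JC f s) (hh0 : ∀ j, h j ≠ 0)
    (hh : ∀ j i, ∀ m' ∈ (h j).support, m' ⬝ᵥ s i = 0)
    (hgen : IntermediateField.adjoin k (Set.range x) = ⊤) (hr : r = n + q) :
    ∃ (r' q' : ℕ) (W : Fin r' → Fin r → ℤ) (g : Fin q' → (Fin r' → ℤ) →₀ k)
      (h' : Fin p → (Fin r' → ℤ) →₀ k) (el : Fin q' ⊕ Fin m ≃ Fin q)
      (m0 : Fin q' → Fin r → ℤ) (m1 : Fin p → Fin r → ℤ), q' + m = q ∧ r' = n + q' ∧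
      (∀ l, el (Sum.inr l) = ε l) ∧
      (∀ j i, W j ⬝ᵥ s i = 0) ∧
      (∀ w, (∀ i, w ⬝ᵥ s i = 0) → ∃ u : Fin r' → ℤ, ∑ j, u j • W j = w) ∧
      (∀ u : Fin r' → ℤ, ∑ j, u j • W j = 0 → u = 0) ∧
      (∀ m0, Function.Injective (aff m0 W)) ∧
      (∀ l, f (el (Sum.inl l)) = push (m0 l) W (g l)) ∧
      (∀ j, h j = push (m1 j) W (h' j)) ∧
      IntermediateField.adjoin k (Set.range fun j => mono x (W j)) = ⊤ := by
  classical
  let L : (Fin r → ℤ) →ₗ[ℤ] (Fin m → ℤ) :=
    { toFun := fun w i => w ⬝ᵥ s i.succ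
      map_add' := fun a b => by
        funext i
        exact add_dotProduct _ _ _
      map_smul' := fun c a => by
        funext i
        exact smul_dotProduct _ _ _ }
  obtain ⟨b, hb⟩ := hs.dual
  have hsurj : Function.Surjective L := by
    intro c
    refine ⟨∑ i, c i • b i.succ, ?_⟩
    funext j
    change (∑ i, c i • b i.succ) ⬝ᵥ s j.succ = c j
    rw [sum_dotProduct]
    have h1 : ∀ i, (c i • b i.succ) ⬝ᵥ s j.succ = if j = i then c i else 0 := by
      intro i
      rw [smul_dotProduct, hb, if_neg (Fin.succ_ne_zero j), sub_zero, smul_eq_mul, mul_ite, mul_one,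
        mul_zero]
      simp only [Fin.succ_inj]
    rw [Finset.sum_congr rfl fun i _ => h1 i, Finset.sum_ite_eq Finset.univ j,
      if_pos (Finset.mem_univ j)]
  have hker : ∀ w, w ∈ LinearMap.ker L ↔ ∀ i, w ⬝ᵥ s i = 0 := by
    intro w
    rw [LinearMap.mem_ker]
    constructor
    · intro h1
      have h2 : ∀ i : Fin m, w ⬝ᵥ s i.succ = 0 := fun i => congrFun h1 i
      intro i
      refine Fin.cases ?_ h2 i
      have h3 : w ⬝ᵥ ∑ i, s i = 0 := by rw [hs.hs, dotProduct_zero]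
      rw [dotProduct_sum, Fin.sum_univ_succ, Finset.sum_eq_zero fun i _ => h2 i, add_zero] at h3
      exact h3
    · intro h1
      funext i
      exact h1 i.succ
  have hrank : Module.finrank ℤ (LinearMap.ker L) + m = r := by
    have h1 := Submodule.finrank_quotient_add_finrank (LinearMap.ker L)
    rw [(L.quotKerEquivOfSurjective hsurj).finrank_eq, Module.finrank_fintype_fun_eq_card,
      Module.finrank_fintype_fun_eq_card, Fintype.card_fin, Fintype.card_fin] at h1
    omega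
  obtain ⟨r', hr'⟩ : ∃ r', r' = Module.finrank ℤ (LinearMap.ker L) := ⟨_, rfl⟩
  let bas : Module.Basis (Fin r') ℤ (LinearMap.ker L) := Module.finBasisOfFinrankEq ℤ _ hr'.symm
  let W : Fin r' → Fin r → ℤ := fun j => (bas j : Fin r → ℤ)
  have hWs : ∀ j i, W j ⬝ᵥ s i = 0 := fun j i => (hker _).1 (bas j).2 i
  have hspan : ∀ w, (∀ i, w ⬝ᵥ s i = 0) → ∃ u : Fin r' → ℤ, ∑ j, u j • W j = w := by
    intro w hw
    have h1 := bas.sum_repr ⟨w, (hker w).2 hw⟩
    refine ⟨fun j => bas.repr ⟨w, (hker w).2 hw⟩ j, ?_⟩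
    have h2 := congrArg (fun z : LinearMap.ker L => (z : Fin r → ℤ)) h1
    beta_reduce at h2
    rw [AddSubmonoidClass.coe_finsetSum] at h2
    exact h2
  have hinj0 : ∀ u : Fin r' → ℤ, ∑ j, u j • W j = 0 → u = 0 := by
    intro u hu
    have h1 := bas.linearIndependent
    rw [Fintype.linearIndependent_iff] at h1
    funext j
    refine h1 u ?_ j
    apply Subtype.ext
    rw [AddSubmonoidClass.coe_finsetSum]
    exact hu
  have hinj : ∀ m0 : Fin r → ℤ, Function.Injective (aff m0 W) := by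
    intro m0 u u' huu
    rw [← sub_eq_zero]
    apply hinj0
    unfold aff at huu
    have h1 := add_left_cancel huu
    have h2 : ∑ j, (u - u') j • W j = ∑ j, u j • W j - ∑ j, u' j • W j := by
      rw [← Finset.sum_sub_distrib]
      exact Finset.sum_congr rfl fun j _ => by rw [Pi.sub_apply, sub_smul]
    rw [h2, h1, sub_self]
  have hcard : Fintype.card {l // l ∉ JC f s} + m = q := by
    have h1 := Fintype.card_subtype_compl (fun l => l ∈ JC f s)
    have h2 : Fintype.card {l // l ∈ JC f s} = m := by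
      rw [Fintype.card_coe]
      exact hs.card
    rw [h2, Fintype.card_fin] at h1
    have h3 : m ≤ q := by
      rw [← hs.card]
      exact (Finset.card_le_univ _).trans (by rw [Fintype.card_fin])
    rw [h1]
    omega
  obtain ⟨q', hq'⟩ : ∃ q', q' = Fintype.card {l // l ∉ JC f s} := ⟨_, rfl⟩
  let e : Fin q' ≃ {l // l ∉ JC f s} := (Fintype.equivFinOfCardEq hq'.symm).symm
  let el : Fin q' ⊕ Fin m ≃ Fin q :=
    ((Equiv.sumComm _ _).trans (Equiv.sumCongr ε e)).trans (Equiv.sumCompl fun l => l ∈ JC f s)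
  have hel : ∀ l, el (Sum.inl l) = (e l : Fin q) := fun l => rfl
  have hm0 : ∀ l : Fin q', ∃ m0, m0 ∈ (f (e l)).support := fun l =>
    Finsupp.support_nonempty_iff.2 (hf0 (e l))
  choose m0 hm0 using hm0
  let g : Fin q' → (Fin r' → ℤ) →₀ k := fun l =>
    (f (e l)).comapDomain (aff (m0 l) W) (hinj (m0 l)).injOn
  have hfg : ∀ l, f (e l) = push (m0 l) W (g l) := by
    intro l
    refine (Finsupp.mapDomain_comapDomain (aff (m0 l) W) (hinj (m0 l)) (f (e l)) ?_).symm
    intro m' hm'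
    obtain ⟨u, hu⟩ := hspan (m' - m0 l) (fun i => by
      rw [sub_dotProduct, not_mem_JC (e l).2 i hm', not_mem_JC (e l).2 i (hm0 l), sub_self])
    refine ⟨u, ?_⟩
    unfold aff
    rw [hu]
    abel
  have hm1 : ∀ j : Fin p, ∃ m1, m1 ∈ (h j).support := fun j =>
    Finsupp.support_nonempty_iff.2 (hh0 j)
  choose m1 hm1 using hm1
  let h' : Fin p → (Fin r' → ℤ) →₀ k := fun j =>
    (h j).comapDomain (aff (m1 j) W) (hinj (m1 j)).injOn
  have hhg : ∀ j, h j = push (m1 j) W (h' j) := by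
    intro j
    refine (Finsupp.mapDomain_comapDomain (aff (m1 j) W) (hinj (m1 j)) (h j) ?_).symm
    intro m' hm'
    obtain ⟨u, hu⟩ := hspan (m' - m1 j) (fun i => by
      rw [sub_dotProduct, hh j i m' hm', hh j i _ (hm1 j), sub_self])
    refine ⟨u, ?_⟩
    unfold aff
    rw [hu]
    abel
  refine ⟨r', q', W, g, h', el, m0, m1, by omega, by omega, fun l => rfl, hWs, hspan, hinj0,
    hinj, fun l => hfg l, hhg, ?_⟩
  rw [eq_top_iff, ← hs.top hf0 hgen, IntermediateField.adjoin_le_iff]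
  rintro _ ⟨w, hw, rfl⟩
  obtain ⟨u, hu⟩ := hspan w hw
  rw [← hu, mono_sum hs.hx]
  change ∏ j, mono x (W j) ^ u j ∈ IntermediateField.adjoin k (Set.range fun j => mono x (W j))
  refine prod_mem fun j _ => zpow_mem (IntermediateField.subset_adjoin _ _ ?_) _
  exact ⟨j, rfl⟩


theorem t4_superadd {g : (Fin r → ℤ) →₀ k} (hg : g ≠ 0) (T : Finset (Fin (m + 1))) :
    ∑ a ∈ T, mn (s a) g ≤ mn (∑ a ∈ T, s a) g := by
  refine le_mn hg fun w hw => ?_
  rw [dotProduct_sum]
  exact Finset.sum_le_sum fun a _ => mn_le hw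

theorem t4_mn_orth {g : (Fin r → ℤ) →₀ k} (hg : g ≠ 0) {v : Fin r → ℤ}
    (hw : ∀ w ∈ g.support, w ⬝ᵥ v = 0) : mn v g = 0 := by
  obtain ⟨w, hw0⟩ := Finsupp.support_nonempty_iff.2 hg
  have h1 : mn v g ≤ 0 := by
    rw [← hw w hw0]
    exact mn_le hw0
  have h2 : 0 ≤ mn v g := le_mn hg fun w' hw' => by rw [hw w' hw']
  omega

end

section

variable {k K : Type} [Field k] [CharZero k] [Field K] [Algebra k K] {n : ℕ}

/-- **Elimination.** -/
theorem CSys.elim {β : Place k K → ℝ} {r q p m : ℕ} {x : Fin r → K} {f : Fin q → (Fin r → ℤ) →₀ k}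
    {h : Fin p → (Fin r → ℤ) →₀ k} {cw : Fin p → ℚ} (hB : CSys n β x f h cw)
    {s : Fin (m + 1) → Fin r → ℤ} (hs : Exc x f s) (hsub : SubC f h cw s) :
    ∃ (r' q' : ℕ) (z : Fin r' → K) (g : Fin q' → (Fin r' → ℤ) →₀ k)
      (h' : Fin p → (Fin r' → ℤ) →₀ k), q' + m = q ∧ CSys n β z g h' cw := by
  classical
  have hf0 : ∀ l, f l ≠ 0 := by
    intro l h0
    have h1 := hB.hnd.self fun l => by rw [ini_zero']; exact hB.hf l
    have h2 := h1.ne_zero l
    apply h2
    rw [h0, ini_zero']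
    funext i
    unfold gr
    exact Finsupp.sum_zero_index
  have hh0 : ∀ j, h j ≠ 0 := by
    intro j h0
    apply hB.hhx j
    rw [h0]
    unfold ev
    exact Finsupp.sum_zero_index
  have hx := hB.hx
  obtain ⟨ε, -⟩ : ∃ ε : Fin m ≃ JC f s, True := ⟨(Finset.equivFinOfCardEq hs.card).symm, trivial⟩
  obtain ⟨B, b, Δ, lam, hS⟩ := Exc.solve hs hf0 ε
  choose ho ho1 ho2 ho3 ho4 using fun j => hS.hcirc hs (hB.hhx j)
  have hpr0 : ∀ j, ∏ a, ev x (Δ a) ^ mn (s a) (h j) ≠ 0 := fun j =>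
    Finset.prod_ne_zero_iff.2 fun a _ => zpow_ne_zero _ (hS.hΔ0 a)
  have hox0 : ∀ j, ev x (ho j) ≠ 0 := by
    intro j h0
    apply hB.hhx j
    rw [ho2, h0, zero_mul]
  have ho0 : ∀ j, ho j ≠ 0 := fun j => t2_ne (hox0 j)
  obtain ⟨r', q', W, g, h', el, m0, m1, hq', hr', hel, hWs, hspan, hinj0, hinj, hfg, hhg,
    htop⟩ := t4_data hs hf0 ε ho0 (fun j i m' hm' => ho1 j m' hm' i) hB.hgen hB.hr
  obtain ⟨z, hz⟩ : ∃ z : Fin r' → K, z = fun j => mono x (W j) := ⟨_, rfl⟩
  have hz0 : ∀ j, z j ≠ 0 := fun j => by rw [hz]; exact mono_ne hx _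
  have hgz : ∀ l, ev z (g l) = 0 := by
    intro l
    have h1 := hB.hf (el (Sum.inl l))
    rw [hfg, ev_push hx] at h1
    rw [hz]
    exact (mul_eq_zero.1 h1).resolve_left (mono_ne hx _)
  have hhz : ∀ j, ev x (ho j) = mono x (m1 j) * ev z (h' j) := by
    intro j
    rw [hhg, ev_push hx, hz]
  have hhz0 : ∀ j, ev z (h' j) ≠ 0 := by
    intro j h0
    apply hox0 j
    rw [hhz, h0, mul_zero]
  have hg0 : ∀ l, g l ≠ 0 := by
    intro l h0
    apply hf0 (el (Sum.inl l))
    rw [hfg, h0, push_zero]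
  have hh'0 : ∀ j, h' j ≠ 0 := by
    intro j h0
    apply ho0 j
    rw [hhg, h0, push_zero]
  have helinj : Function.Injective fun l : Fin q' => el (Sum.inl l) :=
    el.injective.comp Sum.inl_injective
  have hnd : HN z g := by
    rw [hz]
    exact hn_push hx hB.hf helinj (fun l => hinj (m0 l)) hfg hB.hnd
  have hvec : ∀ P : Place k K, vec P z = fun j => W j ⬝ᵥ vec P x := by
    intro P
    rw [hz, vec_mono P hx]
  have hordh : ∀ (P : Place k K) j, P.ord (ev x (h j)) = m1 j ⬝ᵥ vec P x + P.ord (ev z (h' j)) +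
      ∑ a, mn (s a) (h j) * P.ord (ev x (Δ a)) := by
    intro P j
    have h1 := congrArg P.ord (ho2 j)
    rw [P.ord_mul (hox0 j) (hpr0 j), hhz, P.ord_mul (mono_ne hx _) (hhz0 j), ord_mono P hx,
      t2_ord_prod P _ _ fun a _ => zpow_ne_zero _ (hS.hΔ0 a)] at h1
    rw [h1]
    congr 1
    exact Finset.sum_congr rfl fun a _ => P.ord_zpow _ _
  have hmnh : ∀ (P : Place k K) j, mn (vec P x) (ho j) =
      m1 j ⬝ᵥ vec P x + mn (vec P z) (h' j) := by
    intro P j
    rw [hhg, mn_push (hinj _) (hh'0 j), hvec]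
  have hN0 : ∀ j, (0 : ℝ) ≤ ((-∑ a, mn (s a) (h j) : ℤ) : ℝ) := fun j => by
    exact_mod_cast ho3 j
  have hcw0 : ∀ j, (0 : ℝ) ≤ ((cw j : ℚ) : ℝ) := fun j => by
    exact_mod_cast (hB.cw0 j).le
  have hsub2 : ∑ j, ((cw j : ℚ) : ℝ) * ((-∑ a, mn (s a) (h j) : ℤ) : ℝ) ≤ 1 := by
    have h1 := hsub.2
    have h2 : ((∑ j, cw j * ((-∑ a, mn (s a) (h j) : ℤ) : ℚ) : ℚ) : ℝ) ≤ ((1 : ℚ) : ℝ) := by
      exact_mod_cast h1
    rw [Rat.cast_sum, Rat.cast_one] at h2
    refine le_trans (le_of_eq ?_) h2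
    refine Finset.sum_congr rfl fun j _ => ?_
    rw [Rat.cast_mul, Rat.cast_intCast]
  refine ⟨r', q', z, g, h', hq', ?_⟩
  refine
    { hr := hr'
      hx := hz0
      hgen := by rw [hz]; exact htop
      hf := hgz
      hhx := hhz0
      hnd := hnd
      cw0 := hB.cw0
      cw1 := hB.cw1
      le1 := hB.le1
      low := ?_
      up0 := ?_
      up1 := ?_ }
  · obtain ⟨e, C0, hdt, hSl⟩ := hB.low
    have e' : Fin q' ⊕ Fin n ≃ Fin r' := Fintype.equivOfCardEq (by
      rw [Fintype.card_sum, Fintype.card_fin, Fintype.card_fin, Fintype.card_fin, hr', add_comm])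
    obtain ⟨C', hC'⟩ := exists_C0 hz0 e' hg0 hgz hnd.self
    refine ⟨e', C', hC', ?_⟩
    intro P hP D hD hO
    obtain ⟨C, hCd⟩ : ∃ C : Fin n → Fin r → ℤ, C = fun b => ∑ j, C' b j • W j := ⟨_, rfl⟩
    obtain ⟨hE1, hE2, -, hE4⟩ := hS.ordE hs hf0 P
    obtain ⟨G, hGd⟩ : ∃ G : Matrix (Fin m) (Fin m) K,
      G = Matrix.of fun (l : Fin m) (i : Fin m) => Gp x s (f (ε l)) i.succ := ⟨_, rfl⟩
    obtain ⟨hG0, -⟩ := Exc.det_ord hs ε
    rw [← hGd] at hG0 hE2 hE4
    obtain ⟨μ, hμd⟩ : ∃ μ : Fin q' ⊕ Fin n → K, μ = Sum.elim (fun l => mono x (m0 l)) fun _ => 1 :=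
      ⟨_, rfl⟩
    have hK0 : CharZero K := charZero_of_injective_algebraMap (algebraMap k K).injective
    have hdet := det_elim (n := n) e e' el (R := rows (fun l => gr x (f l)) C)
      (R' := rows (fun l => gr z (g l)) C') (W := W) (s := fun i => s i.succ) (μ := μ) (G := G)
      (by
        rintro (l | b) i
        · change gr x (f (el (Sum.inl l))) i = μ (Sum.inl l) * ∑ j, gr z (g l) j * (W j i : K)
          have h1 := hgz l
          rw [hz] at h1
          rw [hfg, gr_push hx, h1, mul_zero, zero_add, hμd, hz]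
          change mono x (m0 l) * _ = mono x (m0 l) * _
          congr 1
          exact Finset.sum_congr rfl fun j _ => mul_comm _ _
        · change ((C b i : ℤ) : K) = μ (Sum.inr b) * ∑ j, (C' b j : K) * (W j i : K)
          rw [hμd, hCd]
          change (((∑ j, C' b j • W j) i : ℤ) : K) = (1 : K) * _
          rw [one_mul, Finset.sum_apply, Int.cast_sum]
          refine Finset.sum_congr rfl fun j _ => ?_
          rw [Pi.smul_apply, smul_eq_mul, Int.cast_mul])
      (fun j i => hWs j i.succ)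
      (by
        intro l i
        change ∑ k, gr x (f (el (Sum.inr l))) k * (s i.succ k : K) = G l i
        rw [hel, gr_dot_type hs.hs (hs.hf _) (hs.mn_eq _ (ε l).2), hGd]
        rfl)
      hinj0
    obtain ⟨τ, κ, hκ, hdet⟩ := hdet
    change dt e (fun l => gr x (f l)) C * (τ : K) =
      (κ : K) * ((∏ a, μ a) * dt e' (fun l => gr z (g l)) C' * G.det) at hdet
    have hμ : ∏ a, μ a = ∏ l, mono x (m0 l) := by
      rw [hμd, Fintype.prod_sum_type]
      simp
    have hμ0 : ∏ l, mono x (m0 l) ≠ 0 := Finset.prod_ne_zero_iff.2 fun l _ => mono_ne hx _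
    rw [hμ] at hdet
    obtain ⟨hκK, hκP⟩ := ord_intCast (K := K) P hκ
    have hR0 : (κ : K) * ((∏ l, mono x (m0 l)) * dt e' (fun l => gr z (g l)) C' * G.det) ≠ 0 :=
      mul_ne_zero hκK (mul_ne_zero (mul_ne_zero hμ0 hC') hG0)
    have hL0 := hR0
    rw [← hdet] at hL0
    have hdx : dt e (fun l => gr x (f l)) C ≠ 0 := left_ne_zero_of_mul hL0
    have hτK : (τ : K) ≠ 0 := right_ne_zero_of_mul hL0
    have hτ : τ ≠ 0 := by
      rintro rfl
      exact hτK Int.cast_zero
    obtain ⟨-, hτP⟩ := ord_intCast (K := K) P hτ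
    have hord := congrArg P.ord hdet
    rw [P.ord_mul hdx hτK, hτP, P.ord_mul hκK (mul_ne_zero (mul_ne_zero hμ0 hC') hG0), hκP,
      P.ord_mul (mul_ne_zero hμ0 hC') hG0, P.ord_mul hμ0 hC', zero_add, add_zero,
      ordProd5 P _ _ fun l _ => mono_ne hx _] at hord
    have hcw : (Pool.Agent.R885.cw C fun a => lg x (D a)) =
        Pool.Agent.R885.cw C' fun a => lg z (D a) := by
      rw [hCd, hz]
      exact cwMono5 hx W C' D
    have hOz : Om e' z g C' D = (Pool.Agent.R885.cw C' fun a => lg z (D a)).det /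
        dt e' (fun l => gr z (g l)) C' :=
      rfl
    have hOx : Om e x f C0 D = (Pool.Agent.R885.cw C' fun a => lg z (D a)).det /
        dt e (fun l => gr x (f l)) C := by
      rw [om_eq hx hB.hf hdt hdx D]
      unfold Om
      rw [hcw]
    have hN1 : (Pool.Agent.R885.cw C' fun a => lg z (D a)).det ≠ 0 := by
      intro h0
      apply hO
      rw [hOz, h0, zero_div]
    have hOx0 : Om e x f C0 D ≠ 0 := by
      rw [hOx]
      exact div_ne_zero hN1 hdx
    have hordx : P.ord (Om e x f C0 D) = P.ord (Om e' z g C' D) -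
        ∑ l, m0 l ⬝ᵥ vec P x - P.ord G.det := by
      rw [hOx, hOz, div_eq_mul_inv, div_eq_mul_inv, P.ord_mul hN1 (inv_ne_zero hdx),
        P.ord_mul hN1 (inv_ne_zero hC'), P.ord_inv, P.ord_inv, hord]
      have h1 : ∀ l, P.ord (mono x (m0 l)) = m0 l ⬝ᵥ vec P x := fun l => ord_mono P hx _
      simp only [h1]
      ring
    have hlow := hSl P hP D hD hOx0
    -- translate
    have hmnf : ∑ l, mn (vec P x) (f l) = (∑ l, m0 l ⬝ᵥ vec P x) + (∑ l, mn (vec P z) (g l)) +
        ∑ l, mn (vec P x) (f (ε l)) := by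
      rw [← el.sum_comp, Fintype.sum_sum_type, ← Finset.sum_add_distrib]
      congr 1
      · refine Finset.sum_congr rfl fun l _ => ?_
        rw [hfg, mn_push (hinj _) (hg0 l), hvec]
      · exact Finset.sum_congr rfl fun l _ => by rw [hel]
    obtain ⟨E, hEd⟩ : ∃ E : ℤ, E = P.ord G.det - ∑ l, mn (vec P x) (f (ε l)) := ⟨_, rfl⟩
    rw [← hEd] at hE2 hE4
    have hE0 : 0 ≤ E := by
      have h1 := hE1 0
      have h2 := hE2 0
      omega
    have hkey : (if vec P x = 0 then (0 : ℝ) else 1) - (E : ℝ) +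
        ∑ j, ((cw j : ℚ) : ℝ) * ((mn (vec P x) (h j) - ∑ a, mn (s a) (h j) *
          P.ord (ev x (Δ a)) - mn (vec P x) (ho j) : ℤ) : ℝ) ≤ if vec P z = 0 then (0 : ℝ) else 1 := by
      by_cases hvz : vec P z = 0 ∧ vec P x ≠ 0
      · obtain ⟨hvz, hvx⟩ := hvz
        rw [if_pos hvz, if_neg hvx]
        have hort : ∀ w : Fin r → ℤ, (∀ i, w ⬝ᵥ s i = 0) → w ⬝ᵥ vec P x = 0 := by
          intro w hw
          obtain ⟨u, hu⟩ := hspan w hw
          rw [← hu, sum_dotProduct]
          refine Finset.sum_eq_zero fun j _ => ?_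
          have h3 := congrFun hvz j
          rw [hvec] at h3
          change W j ⬝ᵥ vec P x = 0 at h3
          rw [smul_dotProduct, h3, smul_zero]
        obtain ⟨hv, T, e1, hTn, hTu, he1, hT1, hT2, hEE⟩ := hE4 hvx hort
        have hterm : ∀ j, ((mn (vec P x) (h j) - ∑ a, mn (s a) (h j) *
            P.ord (ev x (Δ a)) - mn (vec P x) (ho j) : ℤ) : ℝ) ≤
            ((e1 : ℝ) - 1) * ((-∑ a, mn (s a) (h j) : ℤ) : ℝ) +
              ((mn (∑ a ∈ T, s a) (h j) - ∑ a ∈ T, mn (s a) (h j) : ℤ) : ℝ) := by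
          intro j
          have h1 := (ho4 j P).2 hv T e1 hT1 hT2
          have h2 : mn (vec P x) (ho j) = 0 :=
            t4_mn_orth (ho0 j) fun w hw => hort w (ho1 j w hw)
          rw [h2, sub_zero]
          exact_mod_cast h1
        have hsum : ∑ j, ((cw j : ℚ) : ℝ) * ((mn (vec P x) (h j) - ∑ a, mn (s a) (h j) *
            P.ord (ev x (Δ a)) - mn (vec P x) (ho j) : ℤ) : ℝ) ≤
            ((e1 : ℝ) - 1) + ∑ j, ((cw j : ℚ) : ℝ) *
              ((mn (∑ a ∈ T, s a) (h j) - ∑ a ∈ T, mn (s a) (h j) : ℤ) : ℝ) := by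
          have h1 : ∑ j, ((cw j : ℚ) : ℝ) * ((mn (vec P x) (h j) - ∑ a, mn (s a) (h j) *
              P.ord (ev x (Δ a)) - mn (vec P x) (ho j) : ℤ) : ℝ) ≤
              ∑ j, (((e1 : ℝ) - 1) * (((cw j : ℚ) : ℝ) * ((-∑ a, mn (s a) (h j) : ℤ) : ℝ)) +
                ((cw j : ℚ) : ℝ) *
                  ((mn (∑ a ∈ T, s a) (h j) - ∑ a ∈ T, mn (s a) (h j) : ℤ) : ℝ)) := by
            refine Finset.sum_le_sum fun j _ => ?_
            have h2 := mul_le_mul_of_nonneg_left (hterm j) (hcw0 j)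
            linarith
          rw [Finset.sum_add_distrib, ← Finset.mul_sum] at h1
          have h3 : (0 : ℝ) ≤ (e1 : ℝ) - 1 := by
            have h4 : (1 : ℝ) ≤ (e1 : ℝ) := by exact_mod_cast he1
            linarith
          have h5 := mul_le_mul_of_nonneg_left hsub2 h3
          linarith
        have hsub1 : ((∑ l, (mn (∑ a ∈ T, s a) (f l) - ∑ a ∈ T, mn (s a) (f l)) : ℤ) : ℝ) +
            ∑ j, ((cw j : ℚ) : ℝ) *
              ((mn (∑ a ∈ T, s a) (h j) - ∑ a ∈ T, mn (s a) (h j) : ℤ) : ℝ) ≤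
              (T.card : ℝ) - 1 := by
          have h1 := hsub.1 T hTn hTu
          have h2 : ((((∑ l, (mn (∑ a ∈ T, s a) (f l) - ∑ a ∈ T, mn (s a) (f l)) : ℤ) : ℚ) +
            ∑ j, cw j * ((mn (∑ a ∈ T, s a) (h j) - ∑ a ∈ T, mn (s a) (h j) : ℤ) : ℚ) : ℚ) : ℝ) ≤
              (((T.card : ℚ) - 1 : ℚ) : ℝ) := by
            exact_mod_cast h1
          rw [Rat.cast_add, Rat.cast_sum, Rat.cast_intCast, Rat.cast_sub, Rat.cast_natCast,
            Rat.cast_one] at h2
          refine le_trans (le_of_eq ?_) h2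
          congr 1
          refine Finset.sum_congr rfl fun j _ => ?_
          rw [Rat.cast_mul, Rat.cast_intCast]
        have hJC : ∑ l, (mn (∑ a ∈ T, s a) (f (ε l)) - ∑ a ∈ T, mn (s a) (f (ε l))) ≤
            ∑ l, (mn (∑ a ∈ T, s a) (f l) - ∑ a ∈ T, mn (s a) (f l)) := by
          rw [← el.sum_comp, Fintype.sum_sum_type]
          have h1 : 0 ≤ ∑ l : Fin q', (mn (∑ a ∈ T, s a) (f (el (Sum.inl l))) -
              ∑ a ∈ T, mn (s a) (f (el (Sum.inl l)))) :=
            Finset.sum_nonneg fun l _ => sub_nonneg.2 (t4_superadd (hf0 _) T)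
          have h2 : ∑ l : Fin m, (mn (∑ a ∈ T, s a) (f (el (Sum.inr l))) -
              ∑ a ∈ T, mn (s a) (f (el (Sum.inr l)))) =
              ∑ l, (mn (∑ a ∈ T, s a) (f (ε l)) - ∑ a ∈ T, mn (s a) (f (ε l))) :=
            Finset.sum_congr rfl fun l _ => by rw [hel]
          rw [h2]
          linarith
        have hJC' : ((∑ l, (mn (∑ a ∈ T, s a) (f (ε l)) - ∑ a ∈ T, mn (s a) (f (ε l))) : ℤ) : ℝ) ≤
            ((∑ l, (mn (∑ a ∈ T, s a) (f l) - ∑ a ∈ T, mn (s a) (f l)) : ℤ) : ℝ) := by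
          exact_mod_cast hJC
        have hEE' : (e1 : ℝ) + (T.card : ℝ) - 1 -
            ((∑ l, (mn (∑ a ∈ T, s a) (f (ε l)) - ∑ a ∈ T, mn (s a) (f (ε l))) : ℤ) : ℝ) ≤
            (E : ℝ) := by
          exact_mod_cast hEE
        linarith
      · have h4 : (if vec P x = 0 then (0 : ℝ) else 1) ≤ if vec P z = 0 then (0 : ℝ) else 1 := by
          by_cases hvz0 : vec P z = 0
          · have hvx0 : vec P x = 0 := by
              by_contra h0
              exact hvz ⟨hvz0, h0⟩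
            rw [if_pos hvz0, if_pos hvx0]
          · rw [if_neg hvz0]
            split_ifs <;> norm_num
        have hsum : ∑ j, ((cw j : ℚ) : ℝ) * ((mn (vec P x) (h j) - ∑ a, mn (s a) (h j) *
            P.ord (ev x (Δ a)) - mn (vec P x) (ho j) : ℤ) : ℝ) ≤
            (∑ j, ((cw j : ℚ) : ℝ) * ((-∑ a, mn (s a) (h j) : ℤ) : ℝ)) * (E : ℝ) := by
          rw [Finset.sum_mul]
          refine Finset.sum_le_sum fun j _ => ?_
          have h1 := (ho4 j P).1 E hE0 hE2
          have h2 : ((mn (vec P x) (h j) - ∑ a, mn (s a) (h j) *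
              P.ord (ev x (Δ a)) - mn (vec P x) (ho j) : ℤ) : ℝ) ≤
              ((-∑ a, mn (s a) (h j) : ℤ) : ℝ) * (E : ℝ) := by
            exact_mod_cast h1
          have h3 := mul_le_mul_of_nonneg_left h2 (hcw0 j)
          linarith
        have hE0' : (0 : ℝ) ≤ (E : ℝ) := by exact_mod_cast hE0
        have h5 := mul_le_mul_of_nonneg_right hsub2 hE0'
        linarith
    have hEr : ((P.ord G.det : ℤ) : ℝ) = (E : ℝ) + ((∑ l, mn (vec P x) (f (ε l)) : ℤ) : ℝ) := by
      rw [hEd]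
      push_cast
      ring
    have hjs : ∑ j, ((cw j : ℚ) : ℝ) * (P.ord (ev x (h j)) : ℝ) -
        ∑ j, ((cw j : ℚ) : ℝ) * (mn (vec P x) (h j) : ℝ) =
        (∑ j, ((cw j : ℚ) : ℝ) * (P.ord (ev z (h' j)) : ℝ) -
        ∑ j, ((cw j : ℚ) : ℝ) * (mn (vec P z) (h' j) : ℝ)) -
        ∑ j, ((cw j : ℚ) : ℝ) * ((mn (vec P x) (h j) - ∑ a, mn (s a) (h j) *
          P.ord (ev x (Δ a)) - mn (vec P x) (ho j) : ℤ) : ℝ) := by
      rw [← Finset.sum_sub_distrib, ← Finset.sum_sub_distrib, ← Finset.sum_sub_distrib]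
      refine Finset.sum_congr rfl fun j _ => ?_
      rw [hordh P j, hmnh P j]
      push_cast
      ring
    rw [hordx, hmnf] at hlow
    rw [Int.cast_sub, Int.cast_sub, Int.cast_add, Int.cast_add, hEr] at hlow
    linarith
  · intro P hvz
    by_cases hvx : vec P x = 0
    · refine (hB.up0 P hvx).trans ?_
      refine Finset.sum_le_sum fun j _ => ?_
      refine mul_le_mul_of_nonneg_left ?_ (hcw0 j)
      obtain ⟨hE1, -, hE3, -⟩ := hS.ordE hs hf0 P
      have h1 : ∀ a, P.ord (ev x (Δ a)) = P.ord lam := by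
        intro a
        have h2 := hE3 a
        rw [hvx, dotProduct_zero] at h2
        omega
      have h2 : 0 ≤ P.ord lam := by
        have h3 := hE1 0
        rw [hvx, mn_zero (t2_ne (hS.hΔ0 0)), h1] at h3
        exact h3
      have h3 := hordh P j
      rw [hvx, dotProduct_zero, zero_add, Finset.sum_congr rfl fun a _ => by rw [h1 a],
        ← Finset.sum_mul] at h3
      have h4 := mul_nonneg (ho3 j) h2
      have h5 : P.ord (ev x (h j)) ≤ P.ord (ev z (h' j)) := by linarith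
      exact_mod_cast h5
    · refine (hB.up1 P hvx).trans ?_
      refine Finset.sum_nonneg fun j _ => mul_nonneg (hcw0 j) ?_
      have h1 := (t2_ge_ev hz0 P (h' j)).resolve_left (hhz0 j)
      rw [hvz, mn_zero (hh'0 j)] at h1
      exact_mod_cast h1
  · intro P hvz
    refine hB.up1 P fun hvx => hvz ?_
    rw [hvec, hvx]
    funext j
    exact dotProduct_zero _

end

end Pool.Agent.R885.N
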