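import Pool.Agent.R885.T0
import Pool.Agent.R885.NG12

/-!
The frames at the places over the charts, without nondegeneracy of the additional polynomials.
-/

set_option autoImplicit false
set_option linter.overlappingInstances false
set_option linter.unusedSectionVars false

open FF IntermediateField Pool.Agent.W603.LV Pool.Agent.W619.PQ Pool.Agent.W619.PL
  Pool.Agent.Y173.QA Pool.Agent.W619.TW Pool.Agent.TH165.ACC Pool.Agent.TH122.AB
  Pool.Agent.W619.Y Pool.Agent.W824.PG Pool.Agent.Y174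

namespace Pool.Agent.R885.N

section

variable {k K : Type} [Field k] [CharZero k] [Field K] [Algebra k K] {r m : ℕ} {x : Fin r → K}

/-- the frames at the places over the charts -/
theorem place_frameC (htr : Algebra.trdeg k K = (m + 1 : ℕ))
    (hgen : IntermediateField.adjoin k (Set.range x) = ⊤)
    (P : Place k K) (hx : ∀ i, x i ≠ 0) {J : Type} [Fintype J] [DecidableEq J]
    (e : J ⊕ Fin (m + 1) ≃ Fin r) {f : J → (Fin r → ℤ) →₀ k}
    (hf0 : ∀ l, f l ≠ 0) (hf : ∀ l, ev x (f l) = 0) (hnd : NDP P x f)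
    {J' : Type} [Fintype J'] {h : J' → (Fin r → ℤ) →₀ k} (hh0 : ∀ j, h j ≠ 0)
    {S : Finset (Fin r → ℤ)} {u0 : Fin r → ℤ} {c : ℤ} {a' : (Fin r → ℤ) → ℤ} {nn : J' → ℤ}
    (hc : 0 < c) (hnn : ∀ j, 0 ≤ nn j)
    (hA2 : ∀ v w, v ≠ 0 → w ≠ 0 → v + w ≠ 0 → a' v + a' w - c ≤ a' (v + w))
    (hA3 : ∀ (g : ℤ) v, 0 < g → v ≠ 0 → a' (g • v) ≤ g * a' v)
    (hF : ∀ v, v ≠ 0 → InSpan S v → Ph c a' nn f h v ≤ u0 ⬝ᵥ v)
    (hS : ∀ s, s ∈ S ↔ s ≠ 0 ∧ InSpan S s ∧ u0 ⬝ᵥ s = Ph c a' nn f h s)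
    (hsp : InSpan S (vec P x)) {c1 : ℤ} {B : Finset (Fin r → ℤ)} (h0B : (0 : Fin r → ℤ) ∈ B)
    (hB : ∀ v : Fin r → ℤ, (∀ q : Fin r → ℚ, (∀ s ∈ S, dq q s = 0) → dq q v = 0) →
        ∃ (j : ℕ) (σ : Fin j → Fin r → ℤ) (α : Fin j → ℚ), (∀ i, σ i ∈ S ∧ 0 < α i) ∧
          (∀ k, ∑ i, α i * (σ i k : ℚ) = v k) ∧
          (LinearIndependent ℚ fun (i : Fin j) (k : Fin r) => (σ i k : ℚ)) ∧
          ((∑ i, σ i) ∈ S → j ≤ 1) ∧
          ∀ b ∈ B, (∀ b' ∈ B, b ⬝ᵥ v ≤ b' ⬝ᵥ v) → ∀ i, b ⬝ᵥ σ i = -c1)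
    {v : Fin (m + 2) → B → k} (hℓ : ∀ l, ∑ b : B, v l b • mono x b ≠ 0)
    (hbas : ∀ l0 : Fin (m + 2), IsTranscendenceBasis k fun j : Fin (m + 1) =>
        (∑ b : B, v (l0.succAbove j) b • mono x b) / ∑ b : B, v l0 b • mono x b)
    (hord : ∀ b : B, ∃ l, P.ord (∑ b : B, v l b • mono x b) ≤ P.ord (mono x b))
    {C0 : Fin (m + 1) → Fin r → ℤ} (h0 : dt e (fun l => gr x (f l)) C0 ≠ 0)
    (l0 : Fin (m + 2)) {p : MvPolynomial (Fin (m + 1)) k} (hp : Irreducible p)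
    (hP : Adic (fun j : Fin (m + 1) =>
        (∑ b : B, v (l0.succAbove j) b • mono x b) / ∑ b : B, v l0 b • mono x b) p P) :
    IsDivisorial P (m + 1) ∧
    ∃ D : Fin (m + 1) → Derivation k K K, (∀ a, Pres P (D a)) ∧ Om e x f C0 D ≠ 0 ∧
      ((vec P x = 0 ∧ P.ord (Om e x f C0 D) = 0) ∨
      (vec P x ∈ S ∧ P.ord (Om e x f C0 D) = -1 - ∑ l, mn (vec P x) (f l))) := by
  classical
  have hfin : ∀ y : Fin (m + 1) → K, IsTranscendenceBasis k y →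
      FiniteDimensional (IntermediateField.adjoin k (Set.range y)) K :=
    fun y hy => hfin_of_gen hgen hy
  obtain ⟨b, hy⟩ := adic_res (hbas l0).1 hp hP
  refine ⟨⟨_, hy⟩, ?_⟩
  obtain ⟨bs, -, hbs⟩ := Finset.exists_min_image (Finset.univ : Finset B)
    (fun b => (b : Fin r → ℤ) ⬝ᵥ vec P x) ⟨⟨0, h0B⟩, Finset.mem_univ _⟩
  have hbs' : ∀ b : B, (bs : Fin r → ℤ) ⬝ᵥ vec P x ≤ (b : Fin r → ℤ) ⬝ᵥ vec P x := fun b =>
    hbs b (Finset.mem_univ _)
  obtain ⟨ℓ, hℓd⟩ : ∃ ℓ : Fin (m + 2) → K, ℓ = fun l => ∑ b : B, v l b • mono x b := ⟨_, rfl⟩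
  have hℓd' : ∀ l, ∑ b : B, v l b • mono x b = ℓ l := fun l => by rw [hℓd]
  simp only [hℓd'] at hℓ hbas hord hP hy ⊢
  have hZ0 : ∀ j : Fin (m + 1), 0 ≤ P.ord (ℓ (l0.succAbove j) / ℓ l0) := by
    intro j
    have h1 := (hP (MvPolynomial.X j) (MvPolynomial.X_ne_zero j)).1
    rwa [MvPolynomial.aeval_X] at h1
  have hmin : ∀ l, P.ord (ℓ l0) ≤ P.ord (ℓ l) := by
    intro l
    by_cases hl : l = l0
    · rw [hl]
    · obtain ⟨j, rfl⟩ := Fin.exists_succAbove_eq hl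
      have h1 := hZ0 j
      rw [P.ord_div (hℓ _) (hℓ _)] at h1
      omega
  have hordℓ : P.ord (ℓ l0) = (bs : Fin r → ℤ) ⬝ᵥ vec P x := by
    apply le_antisymm
    · obtain ⟨l, hl⟩ := hord bs
      rw [ord_mono P hx] at hl
      exact (hmin l).trans hl
    · have h1 : Ge P ((bs : Fin r → ℤ) ⬝ᵥ vec P x) (ℓ l0) := by
        rw [← hℓd']
        refine Ge.sum _ _ fun b _ => ?_
        rw [Algebra.smul_def]
        have h2 : Ge P ((bs : Fin r → ℤ) ⬝ᵥ vec P x) (mono x (b : Fin r → ℤ)) := Or.inr (by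
          rw [ord_mono P hx]
          exact hbs' b)
        have h3 := (Ge.const (P := P) (v l0 b)).mul h2
        rwa [zero_add] at h3
      exact h1.resolve_left (hℓ _)
  -- the forms divided by the monomial
  have hz0 : mono x (bs : Fin r → ℤ) ≠ 0 := mono_ne hx _
  have ht : ∀ l, ∑ b : B, v l b • mono x ((b : Fin r → ℤ) - bs) = ℓ l / mono x (bs : Fin r → ℤ) := by
    intro l
    rw [← hℓd', Finset.sum_div]
    refine Finset.sum_congr rfl fun b _ => ?_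
    rw [mono_sub hx, smul_div_assoc]
  have hA : ∀ l, ℓ l / mono x (bs : Fin r → ℤ) ∈ A0 P x := by
    intro l
    rw [← ht]
    refine sum_mem fun b _ => ?_
    rw [Algebra.smul_def]
    refine mul_mem (const_mem P x _) (mono_mem P x ?_)
    rw [sub_dotProduct]
    exact sub_nonneg.2 (hbs' b)
  have hne : ℓ l0 / mono x (bs : Fin r → ℤ) ≠ 0 := div_ne_zero (hℓ _) hz0
  have ho : P.ord (ℓ l0 / mono x (bs : Fin r → ℤ)) = 0 := by
    rw [P.ord_div (hℓ _) hz0, ord_mono P hx, hordℓ, sub_self]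
  have hmul : ∀ j : Fin m, ℓ (l0.succAbove (b.succAbove j)) / ℓ l0 *
      (ℓ l0 / mono x (bs : Fin r → ℤ)) =
      ℓ (l0.succAbove (b.succAbove j)) / mono x (bs : Fin r → ℤ) := by
    intro j
    have := hℓ l0
    field_simp
  have hr : r = Fintype.card J + (m + 1) := by
    rw [← Fintype.card_fin r, ← Fintype.card_congr e, Fintype.card_sum, Fintype.card_fin]
  have hyl : ∀ j : Fin m, ℓ (l0.succAbove (b.succAbove j)) / ℓ l0 *
      (∑ b : B, v l0 b • mono x ((b : Fin r → ℤ) - bs)) =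
      ∑ b_1 : B, v (l0.succAbove (b.succAbove j)) b_1 • mono x ((b_1 : Fin r → ℤ) - bs) :=
    fun j => by rw [ht, ht]; exact hmul j
  have hl0 : (∑ b : B, v l0 b • mono x ((b : Fin r → ℤ) - bs)) ≠ 0 := by rw [ht]; exact hne
  have hl0' : P.ord (∑ b : B, v l0 b • mono x ((b : Fin r → ℤ) - bs)) = 0 := by
    rw [ht]
    exact ho
  have hdir := place_dirW htr hfin P hx hr hf0 hf
      hnd hh0 hc hnn hA2 hA3 hF hS hsp hB hbs' hy
      (a := fun j => v (l0.succAbove (b.succAbove j))) (a0 := v l0) hl0 hl0' hyl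
  rcases hdir with hv | ⟨s, c1', α, hα, hv, hc1', hs⟩
  · obtain ⟨D, hD, hOm, hOmc⟩ := frame_at htr hfin P hx hgen hf0 hf hnd hy
      (fun j => ⟨_, hA (l0.succAbove (b.succAbove j)), _, hA l0, hne, ho, hmul j⟩) h0
      (u0 := 0) (c := 1) (Or.inl hv)
    refine ⟨D, hD, hOm, Or.inl ⟨hv, ?_⟩⟩
    rw [zero_dotProduct, add_zero, one_mul] at hOmc
    exact hOmc
  · obtain ⟨D, hD, hOm, hOmc⟩ := frame_at htr hfin P hx hgen hf0 hf hnd hy
      (fun j => ⟨_, hA (l0.succAbove (b.succAbove j)), _, hA l0, hne, ho, hmul j⟩) h0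
      (u0 := (1 + ∑ l, mn s (f l)) • c1') (c := 1) (Or.inr ⟨s, c1', α, hα, hv, hc1', by
        rw [smul_dotProduct, hc1', smul_eq_mul]
        ring⟩)
    have h1 := (om_ge P hx hf0 hf hnd h0 hD).1.resolve_left hOm
    have h2 : ∑ l, mn (vec P x) (f l) = α * ∑ l, mn s (f l) := by
      rw [Finset.mul_sum]
      exact Finset.sum_congr rfl fun l _ => by rw [hv, mn_smul (hf0 l) hα.le]
    have h3 : ((1 + ∑ l, mn s (f l)) • c1') ⬝ᵥ vec P x = α * (1 + ∑ l, mn s (f l)) := by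
      rw [smul_dotProduct, hv, dotProduct_smul, hc1', smul_eq_mul, smul_eq_mul]
      ring
    rw [h3] at hOmc
    rw [h2] at h1
    obtain rfl : α = 1 := by
      obtain ⟨M, hM⟩ : ∃ M, M = ∑ l, mn s (f l) := ⟨_, rfl⟩
      rw [← hM] at h1 hOmc
      have h4 : α + α * M = α * (1 + M) := by ring
      omega
    rw [one_smul] at hv
    refine ⟨D, hD, hOm, Or.inr ⟨by rw [hv]; exact hs, ?_⟩⟩
    rw [hv]
    linarith

end

end Pool.Agent.R885.N
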