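import Pool.Agent.R885.T8
import Pool.Agent.R885.T0
import Pool.Agent.R885.NG12

/-!
Log abundance with arbitrary coefficients: the polytope for t = 1 is not empty.
-/

set_option autoImplicit false
set_option linter.overlappingInstances false
set_option linter.unusedSectionVars false

open FF IntermediateField Pool.Agent.W603.LV Pool.Agent.W619.PQ Pool.Agent.W619.PL
  Pool.Agent.Y173.QA Pool.Agent.W619.TW Pool.Agent.TH165.ACC Pool.Agent.TH122.AB
  Pool.Agent.W619.Y Pool.Agent.W824.PG Pool.Agent.Y174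

namespace Pool.Agent.R885.N

theorem t9_denom {ι : Type} [Fintype ι] (cw : ι → ℚ) :
    ∃ D : ℕ, 1 ≤ D ∧ ∀ j, ∃ z : ℤ, (D : ℚ) * cw j = z := by
  classical
  refine ⟨∏ j, (cw j).den, Finset.prod_pos fun j _ => (cw j).den_pos, fun j => ?_⟩
  refine ⟨(∏ i ∈ Finset.univ.erase j, ((cw i).den : ℤ)) * (cw j).num, ?_⟩
  rw [← Finset.mul_prod_erase Finset.univ _ (Finset.mem_univ j)]
  have h1 : cw j * (cw j).den = (cw j).num := Rat.mul_den_eq_num _
  push_cast
  rw [← h1]
  ring

theorem t9_ord_nonneg {k Λ F : Type} [Field k] [CharZero k] [Field Λ] [Algebra k Λ] [Field F] [Algebra Λ F]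
    [Algebra k F] [IsScalarTower k Λ F] {r : ℕ} (P : Place Λ F) {x : Fin r → F}
    (hx : ∀ i, x i ≠ 0) (hv : vec P x = 0) {g : (Fin r → ℤ) →₀ k} (hg : g ≠ 0)
    (hgx : ev x g ≠ 0) : 0 ≤ P.ord (ev x g) := by
  have hcΛ : CharZero Λ := charZero_of_injective_algebraMap (algebraMap k Λ).injective
  have h1 := ge_mn P hx (g.mapRange (algebraMap k Λ) (map_zero _))
  rw [mn_map, ev_map, hv, mn_zero hg] at h1
  exact h1.resolve_left hgx

theorem t9_trdeg {k K : Type} [Field k] [Field K] [Algebra k K] {n : ℕ}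
    (htr : Algebra.trdeg k K = (n : ℕ)) (E : IntermediateField k K) :
    ∃ d : ℕ, d ≤ n ∧ Algebra.trdeg k E = (d : ℕ) := by
  have h1 : Algebra.trdeg k E ≤ n := by
    rw [← htr]
    exact trdeg_le_of_injective E.val E.val.injective
  obtain ⟨d, hd⟩ := Cardinal.lt_aleph0.1 (h1.trans_lt Cardinal.natCast_lt_aleph0)
  refine ⟨d, ?_, hd⟩
  rw [hd] at h1
  exact_mod_cast h1

/-- **The polytope for `t = 1` is not empty.** -/
theorem CSys.pos {k K : Type} [Field k] [CharZero k] [IsAlgClosed k] [Field K] [Algebra k K]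
    {n : ℕ} (hn : 1 ≤ n) (htr : Algebra.trdeg k K = (n : ℕ)) {β : Place k K → ℝ} {r q p : ℕ}
    {x : Fin r → K} {f : Fin q → (Fin r → ℤ) →₀ k} {h : Fin p → (Fin r → ℤ) →₀ k}
    {cw : Fin p → ℚ} (hB : CSys n β x f h cw)
    (hF : (FineW (fun _ => 1) (Sum.elim (fun _ => 1) cw) (Sum.elim f h)).Nonempty) :
    PosB k K n β := by
  classical
  have hr := hB.hr
  have hx := hB.hx
  have hgen := hB.hgen
  have hf := hB.hf
  have hhx := hB.hhx
  have hndf := hB.hnd
  have hc0 : ∀ j, 0 ≤ cw j := fun j => (hB.cw0 j).le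
  have hc1 := hB.cw1
  have hup0 := hB.up0
  have hup1 := hB.up1
  have hβ1 := hB.le1
  have hf0 := hn_ne0 hndf hf
  have hh0 : ∀ j, h j ≠ 0 := by
    intro j h0
    apply hhx j
    rw [h0]
    unfold ev
    exact Finsupp.sum_zero_index
  have hg0 : ∀ l, Sum.elim f h l ≠ 0 := by
    rintro (l | j)
    · exact hf0 l
    · exact hh0 j
  obtain ⟨D, hD, hcD⟩ := t9_denom cw
  obtain ⟨d, hdn, hd⟩ := t9_trdeg htr (IntermediateField.adjoin k
      {z : K | ∃ w ∈ dirsW (fun _ : Fin r → ℤ => (1 : ℚ)) (Sum.elim (fun _ => 1) cw)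
        (Sum.elim f h), z = mono x w})
  obtain ⟨u0, c, a, nl, S, B, hc, hB0, ha, hnl, hF', hS, hpos, hgr, hdirs⟩ :=
    exists_tightW (g := Sum.elim f h) (wt := Sum.elim (fun _ => 1) cw)
      (A := fun _ : Fin r → ℤ => (1 : ℚ)) hg0 hD (fun _ _ => one_pos)
      (fun _ => le_rfl) (fun _ => ⟨D, by simp⟩) (by
      rintro (l | j)
      · exact ⟨D, by simp⟩
      · exact hcD j) hF
  have hcq : (0 : ℚ) < c := by exact_mod_cast hc
  have hcr : (0 : ℝ) < c := by exact_mod_cast hc
  have haa : a = fun _ => c := by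
    funext v
    have h2 := ha v
    rw [mul_one] at h2
    exact_mod_cast h2
  have hnl1 : ∀ l, nl (Sum.inl l) = c := by
    intro l
    have h2 := hnl (Sum.inl l)
    rw [Sum.elim_inl, mul_one] at h2
    exact_mod_cast h2
  obtain ⟨nn, hnnd⟩ : ∃ nn : Fin p → ℤ, nn = fun j => nl (Sum.inr j) := ⟨_, rfl⟩
  have hnnq : ∀ j, (nn j : ℚ) = c * cw j := by
    intro j
    rw [hnnd]
    exact hnl (Sum.inr j)
  have hnnr : ∀ j, (nn j : ℝ) = c * ((cw j : ℚ) : ℝ) := fun j => by exact_mod_cast hnnq j
  have hPh : ∀ v, a v + ∑ l, nl l * mn v (Sum.elim f h l) = Ph c (fun _ => c) nn f h v := by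
    intro v
    unfold Ph
    rw [Fintype.sum_sum_type, Finset.mul_sum, ← add_assoc, hnnd, haa]
    congr 2
    refine Finset.sum_congr rfl fun l _ => ?_
    rw [hnl1]
    rfl
  simp only [hPh] at hF' hS hgr
  have hnn : ∀ j, 0 ≤ nn j := by
    intro j
    have h1 : (0 : ℚ) ≤ nn j := by
      rw [hnnq]
      exact mul_nonneg hcq.le (hc0 j)
    exact_mod_cast h1
  have hnc : ∀ j, nn j ≤ c := by
    intro j
    have h1 : (nn j : ℚ) ≤ c := by
      rw [hnnq]
      have := hc1 j
      nlinarith
    exact_mod_cast h1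
  obtain ⟨t, htG, htind, htalg⟩ := exists_mono_basis hd
  choose w hw hwt using htG
  have hwS : ∀ j, ∀ s ∈ S, w j ⬝ᵥ s = 0 := fun j => (hdirs (w j)).1 (hw j)
  have htw : t = fun j => mono x (w j) := funext hwt
  obtain ⟨Z, hZ⟩ := Pool.Agent.W636.PG.exists_basis k K n htr
  obtain ⟨e, C0, hC0, hlow⟩ := hB.low
  refine ⟨d, hdn, kodS hx hgen hf hC0 hZ hf0 hh0 hhx hlow hc hnnq hF' hB0 hgr hwS
    (by rw [← htw]; exact htind), ?_⟩
  have hess : Algebra.EssFiniteType k K := by
    rw [← IntermediateField.fg_top_iff, ← hgen]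
    exact ⟨Finset.univ.image x, by rw [Finset.coe_image, Finset.coe_univ, Set.image_univ]⟩
  have hG : ∀ P : Place k K, 0 < β P →
      ∃ g ∈ Finset.univ.image x ∪ Finset.univ.image (fun j => ev x (h j)), P.ord g ≠ 0 := by
    intro P hP
    by_cases hv : vec P x = 0
    · by_contra hcon
      push Not at hcon
      have h1 := hup0 P hv
      rw [Finset.sum_eq_zero fun j _ => by
        rw [hcon _ (Finset.mem_union_right _ (Finset.mem_image_of_mem _ (Finset.mem_univ j))),
          Int.cast_zero, mul_zero]] at h1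
      linarith
    · obtain ⟨i, hi⟩ : ∃ i, vec P x i ≠ 0 := by
        by_contra hcon
        push Not at hcon
        exact hv (funext hcon)
      exact ⟨x i, Finset.mem_union_left _ (Finset.mem_image_of_mem _ (Finset.mem_univ i)), hi⟩
  clear e hC0 hlow
  rcases hdn.lt_or_eq with hlt | rfl
  · -- the generic fibre
    obtain ⟨m, rfl⟩ : ∃ m, n = d + (m + 1) := ⟨n - d - 1, by omega⟩
    refine pair_gen (h := 0) hess htind htr hG hβ1 ?_
    intro Λ F _ _ _ _ _ _ _ φ hφgen hΛF t' ht' htt' hcon δ' hδ'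
    have hinj : Function.Injective φ := (φ : K →+* F).injective
    have e' : (Fin q ⊕ Fin d) ⊕ Fin (m + 1) ≃ Fin r := Fintype.equivOfCardEq (by
      simp only [Fintype.card_sum, Fintype.card_fin]
      omega)
    have hmono : ∀ w' : Fin r → ℤ, φ (mono x w') = mono (fun i => φ (x i)) w' := fun w' =>
      map_mono (φ : K →+* F) x w'
    have hevφ : ∀ j, ev (fun i => φ (x i)) (h j) = φ (ev x (h j)) := fun j => (map_ev φ x _).symm
    -- places under the places of the fibre
    have hvecφ : ∀ (P : Place Λ F) (v : Place k K) (e : ℕ), (∀ z, P.ord (φ z) = e * v.ord z) →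
        vec P (fun i => φ (x i)) = (e : ℤ) • vec v x := by
      intro P v e hv
      funext i
      exact hv (x i)
    have hφx : ∀ i, φ (x i) ≠ 0 := by
      intro i h0
      exact hx i (hinj (by rw [h0, map_zero]))
    have hφh : ∀ j, ev (fun i => φ (x i)) (h j) ≠ 0 := by
      intro j h0
      rw [hevφ] at h0
      exact hhx j (hinj (by rw [h0, map_zero]))
    refine pair_fibre_zeroC (k := k) (f := f) (h := h) (S := S) (u0 := u0) (c := c)
      (a' := fun _ => c) (nn := nn) (w := w) (t := t')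
      (x := fun i => φ (x i)) e' hΛF hφx ?_ hf0 ?_ hh0 hφh (hndf.gen F φ)
      (fun P => hndf.place Λ F φ P) hc hnn hnc (fun _ _ => hc.le) (fun _ _ => le_rfl)
      (fun _ _ _ _ _ => by linarith) (fun g _ hg _ => by nlinarith) hF' hS hpos
      ?_ hwS ht' ?_ ?_ ?_ ?_ ?_
    · rw [eq_top_iff, ← hφgen, IntermediateField.adjoin_le_iff]
      rintro _ ⟨z, rfl⟩
      have hz : z ∈ IntermediateField.adjoin k (Set.range x) := by
        rw [hgen]
        trivial
      have h1 : IntermediateField.adjoin k (Set.range x) ≤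
          ((IntermediateField.adjoin Λ (Set.range fun i => φ (x i))).restrictScalars k).comap
            φ := by
        rw [IntermediateField.adjoin_le_iff]
        rintro _ ⟨i, rfl⟩
        exact IntermediateField.subset_adjoin Λ _ ⟨i, rfl⟩
      exact h1 hz
    · intro l
      rw [← map_ev, hf, map_zero]
    · intro j h0
      have h1 : t j = algebraMap k K 1 := by
        rw [hwt, h0, mono_zero, map_one]
      have h2 := htind.transcendental j
      rw [h1] at h2
      exact h2 (isAlgebraic_algebraMap 1)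
    · intro j
      rw [htt', hwt, hmono]
    · intro w' hw'
      have h1 := htalg (mono x w') ⟨w', (hdirs w').2 hw', rfl⟩
      obtain ⟨a, ha⟩ := hcon _ h1
      exact ⟨a, by rw [ha, hmono]⟩
    · intro P
      rcases hδ' P with ⟨v, e, he, hv, hδ⟩ | h0
      · rw [hδ]
        refine max_le zero_le_one ?_
        have h1 : (0 : ℝ) ≤ e * (1 - β v) :=
          mul_nonneg (Nat.cast_nonneg e) (sub_nonneg.2 (hβ1 v))
        linarith
      · rw [h0]
        exact zero_le_one
    · intro P hP
      rcases hδ' P with ⟨v, e, he, hv, hδ⟩ | h0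
      · have he' : ((e : ℕ) : ℤ) ≠ 0 := by omega
        have hvv : vec v x = 0 := by
          rw [hvecφ P v e hv] at hP
          exact (smul_eq_zero.1 hP).resolve_left he'
        obtain ⟨s, hs⟩ : ∃ s : ℝ, s = ∑ j, ((cw j : ℚ) : ℝ) * (v.ord (ev x (h j)) : ℝ) := ⟨_, rfl⟩
        have h1 : ((∑ j, nn j * P.ord (ev (fun i => φ (x i)) (h j)) : ℤ) : ℝ) =
            e * (c * s) := by
          rw [hs]
          push_cast
          rw [Finset.mul_sum, Finset.mul_sum]
          refine Finset.sum_congr rfl fun j _ => ?_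
          rw [hevφ, hv, hnnr]
          push_cast
          ring
        have h2 : β v ≤ s := by
          rw [hs]
          exact hup0 v hvv
        have h3 : (0 : ℝ) ≤ s := by
          rw [hs]
          refine Finset.sum_nonneg fun j _ => mul_nonneg ?_ ?_
          · exact_mod_cast hc0 j
          · have h4 : 0 ≤ v.ord (ev x (h j)) := t9_ord_nonneg v hx hvv (hh0 j) (hhx j)
            exact_mod_cast h4
        have her : (1 : ℝ) ≤ e := by exact_mod_cast he
        rw [hδ, h1, mul_max_of_nonneg _ _ hcr.le, mul_zero]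
        refine max_le (mul_nonneg (by linarith) (mul_nonneg hcr.le h3)) ?_
        have h5 : (e : ℝ) * β v ≤ e * s := mul_le_mul_of_nonneg_left h2 (by linarith)
        have h6 : 1 - (e : ℝ) * (1 - β v) ≤ e * s := by linarith
        have h7 := mul_le_mul_of_nonneg_left h6 hcr.le
        linarith
      · rw [h0, mul_zero]
        have h1 : (0 : ℤ) ≤ ∑ j, nn j * P.ord (ev (fun i => φ (x i)) (h j)) :=
          Finset.sum_nonneg fun j _ => mul_nonneg (hnn j)
            (t9_ord_nonneg P hφx hP (hh0 j) (hφh j))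
        exact_mod_cast h1
    · intro P hP
      rw [sub_self, Int.cast_zero]
      rcases hδ' P with ⟨v, e, he, hv, hδ⟩ | h0
      · have hvv : vec v x ≠ 0 := by
          intro h1
          have hPv := hvecφ P v e hv
          rw [h1, smul_zero] at hPv
          exact hP hPv
        have h1 := hup1 v hvv
        have her : (1 : ℝ) ≤ e := by exact_mod_cast he
        have h2 : 1 - (e : ℝ) * (1 - β v) ≤ 0 := by nlinarith
        rw [hδ, max_eq_left h2, mul_zero]
      · rw [h0, mul_zero]
  · -- the top dimension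
    exact pair_top hess htr hG hβ1

end Pool.Agent.R885.N
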