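import Pool.Agent.R885.T2
import Pool.Agent.R885.T5
import Pool.Agent.R885.G18

/-!
Pairs with arbitrary weights at infinity: the class of the systems.
-/

set_option autoImplicit false
set_option linter.overlappingInstances false
set_option linter.unusedSectionVars false

open FF IntermediateField Pool.Agent.W603.LV Pool.Agent.W619.PQ Pool.Agent.Y173.QA
  Pool.Agent.W619.TW Pool.Agent.W619.Y Pool.Agent.Y174

namespace Pool.Agent.R885.N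

/-- `ψ` is the minimum of finitely many rational linear functions. -/
def PLin {r : ℕ} (ψ : (Fin r → ℤ) → ℚ) : Prop :=
  ∃ Y : Finset (Fin r → ℚ), (∀ v, ∀ y ∈ Y, ψ v ≤ dq y v) ∧ ∀ v, ∃ y ∈ Y, ψ v = dq y v

section

variable {k K : Type} [Field k] [Field K] [Algebra k K]

/-- The order of the formal product of the powers `y j ^ cw j`. -/
noncomputable def Th {J' : Type} [Fintype J'] (y : J' → K) (cw : J' → ℚ) (P : Place k K) : ℝ :=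
  ∑ j, ((cw j : ℚ) : ℝ) * (P.ord (y j) : ℝ)

/-- The lower bound for the order of the residue form divided by the powers of the `y j`. -/
def GLow {n r : ℕ} {J J' : Type} [Fintype J] [DecidableEq J] [Fintype J'] (e : J ⊕ Fin n ≃ Fin r)
    (x : Fin r → K) (f : J → (Fin r → ℤ) →₀ k) (C0 : Fin n → Fin r → ℤ) (y : J' → K)
    (cw : J' → ℚ) (b : (Fin r → ℤ) → ℚ) (β : Place k K → ℝ) : Prop :=
  ∀ P : Place k K, IsDivisorial P n → ∀ D : Fin n → Derivation k K K, (∀ a, Pres P (D a)) →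
    Om e x f C0 D ≠ 0 →
      -(if vec P x = 0 then (0 : ℝ) else ((b (vec P x) : ℚ) : ℝ)) -
        ((∑ l, mn (vec P x) (f l) : ℤ) : ℝ) ≤
      (P.ord (Om e x f C0 D) : ℝ) - Th y cw P + β P

/-- The class of the systems with weights `A` and support functions `Ψ`. -/
structure WSys (n : ℕ) (β : Place k K → ℝ) {r q : ℕ} {J' : Type} [Fintype J'] (x : Fin r → K)
    (f : Fin q → (Fin r → ℤ) →₀ k) (y : J' → K) (cw : J' → ℚ) (A Ψ : (Fin r → ℤ) → ℚ) :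
    Prop where
  hr : r = n + q
  hx : ∀ i, x i ≠ 0
  hgen : IntermediateField.adjoin k (Set.range x) = ⊤
  hf : ∀ l, ev x (f l) = 0
  hy : ∀ j, y j ≠ 0
  hnd : HN x f
  A0 : ∀ v, v ≠ 0 → 0 < A v
  A1 : ∀ v, A v ≤ 1
  AD : ∃ D : ℕ, 1 ≤ D ∧ ∀ v, ∃ z : ℤ, (D : ℚ) * A v = z
  A3 : ∀ (g : ℤ) (v : Fin r → ℤ), 0 < g → v ≠ 0 → A (g • v) ≤ g * A v
  P0 : PLin Ψ
  AP : ∀ v w, v ≠ 0 → w ≠ 0 → v + w ≠ 0 → A v + Ψ v + (A w + Ψ w) - 1 ≤ A (v + w) + Ψ (v + w)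
  le1 : ∀ P : Place k K, β P ≤ 1
  low : ∃ (e : Fin q ⊕ Fin n ≃ Fin r) (C0 : Fin n → Fin r → ℤ),
    dt e (fun l => gr x (f l)) C0 ≠ 0 ∧ GLow e x f C0 y cw (fun v => A v + Ψ v) β
  th0 : ∀ P : Place k K, vec P x = 0 → 0 ≤ Th y cw P
  th1 : ∀ P : Place k K, vec P x ≠ 0 → ((Ψ (vec P x) : ℚ) : ℝ) ≤ Th y cw P
  up0 : ∀ P : Place k K, vec P x = 0 → β P ≤ Th y cw P
  up1 : ∀ P : Place k K, vec P x ≠ 0 →
    β P ≤ 1 - ((A (vec P x) + Ψ (vec P x) : ℚ) : ℝ) + Th y cw P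

end

/-- The arithmetic conditions for a circuit. -/
structure SubD {k : Type} [Field k] {r m : ℕ} {J : Type} [Fintype J] (f : J → (Fin r → ℤ) →₀ k)
    (A Ψ : (Fin r → ℤ) → ℚ) (s : Fin (m + 1) → Fin r → ℤ) : Prop where
  sub : ∀ T : Finset (Fin (m + 1)), T.Nonempty → T ≠ Finset.univ →
    ((∑ l, (mn (∑ a ∈ T, s a) (f l) - ∑ a ∈ T, mn (s a) (f l)) : ℤ) : ℚ) ≤
      ∑ a ∈ T, (A (s a) + Ψ (s a)) - (A (∑ a ∈ T, s a) + Ψ (∑ a ∈ T, s a))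
  lo : (m : ℚ) ≤ ∑ a, (A (s a) + Ψ (s a))
  hi : ∑ a, (A (s a) + Ψ (s a)) ≤ (m : ℚ) + 1

/-- The polytope of the system with the weights `A` and the support function `Ψ`. -/
def FineG {k : Type} [Field k] {r : ℕ} {J : Type} [Fintype J] (A Ψ : (Fin r → ℤ) → ℚ)
    (f : J → (Fin r → ℤ) →₀ k) : Set (Fin r → ℚ) :=
  {u | ∀ v, v ≠ 0 → A v + Ψ v + ∑ l, (mn v (f l) : ℚ) ≤ dq u v}

/-- The integral vectors in the directions of this polytope. -/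
def dirsG {k : Type} [Field k] {r : ℕ} {J : Type} [Fintype J] (A Ψ : (Fin r → ℤ) → ℚ)
    (f : J → (Fin r → ℤ) →₀ k) : Set (Fin r → ℤ) :=
  {w | ∃ y ∈ FineG A Ψ f, ∃ N : ℕ, 1 ≤ N ∧ (fun i => y i + (w i : ℚ) / N) ∈ FineG A Ψ f}

/-- The minimum of `Δ a` in the direction of `w`. -/
noncomputable def dlt {k : Type} [Field k] {r r' m : ℕ} (L : (Fin r' → ℤ) →+ (Fin r → ℤ))
    (Δ : Fin (m + 1) → (Fin r → ℤ) →₀ k) (a : Fin (m + 1)) (w : Fin r' → ℤ) : ℤ :=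
  mn (L w) (Δ a)

/-- The lifting of the vectors. -/
noncomputable def v0f {k : Type} [Field k] {r r' m : ℕ} (L : (Fin r' → ℤ) →+ (Fin r → ℤ))
    (Δ : Fin (m + 1) → (Fin r → ℤ) →₀ k) (s : Fin (m + 1) → Fin r → ℤ) (w : Fin r' → ℤ) :
    Fin r → ℤ :=
  L w + ∑ a, dlt L Δ a w • s a

/-- The new coefficients. -/
def lamG {r m : ℕ} (A Ψ : (Fin r → ℤ) → ℚ) (s : Fin (m + 1) → Fin r → ℤ) (a : Fin (m + 1)) : ℚ :=
  1 - (A (s a) + Ψ (s a))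

/-- The new weights. -/
noncomputable def Anew {k : Type} [Field k] {r r' m : ℕ} (A : (Fin r → ℤ) → ℚ)
    (L : (Fin r' → ℤ) →+ (Fin r → ℤ)) (Δ : Fin (m + 1) → (Fin r → ℤ) →₀ k)
    (s : Fin (m + 1) → Fin r → ℤ) (w : Fin r' → ℤ) : ℚ :=
  A (v0f L Δ s w)

/-- The new support function. -/
noncomputable def Pnew {k : Type} [Field k] {r r' m : ℕ} (A Ψ : (Fin r → ℤ) → ℚ)
    (L : (Fin r' → ℤ) →+ (Fin r → ℤ)) (Δ : Fin (m + 1) → (Fin r → ℤ) →₀ k)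
    (s : Fin (m + 1) → Fin r → ℤ) (w : Fin r' → ℤ) : ℚ :=
  Ψ (v0f L Δ s w) + ∑ a, lamG A Ψ s a * (dlt L Δ a w : ℚ)

/-- The data of the transfer to the torus of the vectors orthogonal to the `s a`. -/
structure TrD {k : Type} [Field k] {r r' m : ℕ} (A Ψ : (Fin r → ℤ) → ℚ)
    (s : Fin (m + 1) → Fin r → ℤ) (W : Fin r' → Fin r → ℤ)
    (Δ : Fin (m + 1) → (Fin r → ℤ) →₀ k) (L : (Fin r' → ℤ) →+ (Fin r → ℤ)) : Prop where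
  A0 : ∀ v, v ≠ 0 → 0 < A v
  A1 : ∀ v, A v ≤ 1
  AD : ∃ D : ℕ, 1 ≤ D ∧ ∀ v, ∃ z : ℤ, (D : ℚ) * A v = z
  A3 : ∀ (g : ℤ) (v : Fin r → ℤ), 0 < g → v ≠ 0 → A (g • v) ≤ g * A v
  P0 : PLin Ψ
  AP : ∀ v w, v ≠ 0 → w ≠ 0 → v + w ≠ 0 → A v + Ψ v + (A w + Ψ w) - 1 ≤ A (v + w) + Ψ (v + w)
  hm : 1 ≤ m
  hs : ∑ a, s a = 0
  hn : ∀ n : Fin (m + 1) → ℤ, ∑ a, n a • s a = 0 → ∀ a a', n a = n a'
  lo : (m : ℚ) ≤ ∑ a, (A (s a) + Ψ (s a))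
  hi : ∑ a, (A (s a) + Ψ (s a)) ≤ (m : ℚ) + 1
  hWs : ∀ j i, W j ⬝ᵥ s i = 0
  hWL : ∀ w j, W j ⬝ᵥ L w = w j
  hΔs : ∀ a, ∀ w ∈ (Δ a).support, ∀ i, w ⬝ᵥ s i = 0
  hΔ0 : ∀ a, Δ a ≠ 0

end Pool.Agent.R885.N
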