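import Pool.Agent.R885.U0
import Pool.Agent.R885.NG5
import Pool.Agent.R885.T5
import Pool.Agent.R885.T6

/-!
Numerical dimension at most zero, for pairs with arbitrary weights (task R885-U1).
-/

set_option autoImplicit false

set_option linter.overlappingInstances false

set_option linter.unusedSectionVars false

open FF Pool.Agent.W603.LV Pool.Agent.W619.PQ Pool.Agent.Y173.QA Pool.Agent.W619.TW
  Pool.Agent.TH165.ACC Pool.Agent.TH122.AB Pool.Agent.Y174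

namespace Pool.Agent.R885.N

/-- arithmetic at a boundary place -/
theorem u1_arith {c q ρ M a F o U Hs w s0 N0 : ℤ} {β : ℝ} (hc : 0 < c) (hM : M = c * q + ρ)
    (hρ0 : 0 ≤ ρ) (hρc : ρ < c) (hq : 0 ≤ q) (ho : o = -1 - F) (hU : U = a + c * F)
    (hβ : (c : ℝ) * β ≤ ((c - a + Hs : ℤ) : ℝ)) (hβ1 : β ≤ 1)
    (hw : ((s0 : ℤ) : ℝ) - M * β ≤ (w : ℝ)) (hN : c * (1 + |F|) ≤ N0) :
    s0 - N0 ≤ w - M * o - q * U + q * Hs := by
  have h1 : w - M * o - q * U + q * Hs = w + q * (c - a + Hs) + ρ * (1 + F) := by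
    rw [ho, hU, hM]
    ring
  rw [h1]
  have hq' : (0 : ℝ) ≤ q := by exact_mod_cast hq
  have hρ' : (0 : ℝ) ≤ ρ := by exact_mod_cast hρ0
  have hM' : (M : ℝ) = c * q + ρ := by exact_mod_cast hM
  have h2 : (q : ℝ) * (c * β) ≤ q * ((c - a + Hs : ℤ) : ℝ) := mul_le_mul_of_nonneg_left hβ hq'
  have h3 : (ρ : ℝ) * β ≤ ρ * 1 := mul_le_mul_of_nonneg_left hβ1 hρ'
  have h4 : ((s0 : ℤ) : ℝ) - ρ ≤ (w : ℝ) + q * ((c - a + Hs : ℤ) : ℝ) := by
    rw [hM'] at hw
    nlinarith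
  have h5 : s0 - ρ ≤ w + q * (c - a + Hs) := by exact_mod_cast h4
  have h6 : -(c * |F|) ≤ ρ * F := by
    have h7 : ρ * (-|F|) ≤ ρ * F := mul_le_mul_of_nonneg_left (neg_abs_le F) hρ0
    have h8 : ρ * |F| ≤ c * |F| := mul_le_mul_of_nonneg_right hρc.le (abs_nonneg F)
    linarith
  have h9 : ρ * (1 + F) = ρ + ρ * F := by ring
  have h10 : c * (1 + |F|) = c + c * |F| := by ring
  rw [h9]
  rw [h10] at hN
  linarith

section

variable {k K : Type} [Field k] [CharZero k] [Field K] [Algebra k K] {r m : ℕ} {x : Fin r → K}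

/-- **Numerical dimension at most zero, for pairs with arbitrary weights.** -/
theorem pairNum_zeroG (htr : Algebra.trdeg k K = (m + 1 : ℕ)) (hx : ∀ i, x i ≠ 0)
    (hgen : IntermediateField.adjoin k (Set.range x) = ⊤) {J : Type} [Fintype J] [DecidableEq J]
    (e : J ⊕ Fin (m + 1) ≃ Fin r) {f : J → (Fin r → ℤ) →₀ k}
    (hf0 : ∀ l, f l ≠ 0) (hf : ∀ l, ev x (f l) = 0) (hndK : NDX K x f)
    (hnd : ∀ P : Place k K, NDP P x f)
    {J' : Type} [Fintype J'] {y : J' → K} (hy : ∀ j, y j ≠ 0)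
    {S : Finset (Fin r → ℤ)} {u0 : Fin r → ℤ} {c : ℤ} {a' : (Fin r → ℤ) → ℤ} {nn : J' → ℤ}
    (hc : 0 < c)
    (hA2 : ∀ v w, v ≠ 0 → w ≠ 0 → v + w ≠ 0 → a' v + a' w - c ≤ a' (v + w))
    (hA3 : ∀ (g : ℤ) v, 0 < g → v ≠ 0 → a' (g • v) ≤ g * a' v)
    (hF : ∀ v, v ≠ 0 → InSpan S v → a' v + c * ∑ l, mn v (f l) ≤ u0 ⬝ᵥ v)
    (hS : ∀ s, s ∈ S ↔ s ≠ 0 ∧ InSpan S s ∧ u0 ⬝ᵥ s = a' s + c * ∑ l, mn s (f l))
    (hpos : ∀ q : Fin r → ℚ, (∀ s ∈ S, 0 ≤ dq q s) → ∀ s ∈ S, dq q s = 0)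
    (hsp : ∀ P : Place k K, InSpan S (vec P x)) {β : Place k K → ℝ}
    (hβ1 : ∀ P : Place k K, β P ≤ 1)
    (hβ0 : ∀ P : Place k K, vec P x = 0 →
      (c : ℝ) * β P ≤ ((∑ j, nn j * P.ord (y j) : ℤ) : ℝ))
    (hβ2 : ∀ P : Place k K, vec P x ∈ S →
      (c : ℝ) * β P ≤ ((c - a' (vec P x) + ∑ j, nn j * P.ord (y j) : ℤ) : ℝ)) :
    PairNum k K (m + 1) β 0 := by
  classical
  intro T
  obtain ⟨c1, B, hc1, h0B, hsB, hB⟩ := exists_B S hpos
  obtain ⟨C0, h0⟩ := exists_C0 hx e hf0 hf hndK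
  have hgenB : IntermediateField.adjoin k (Set.range fun b : B => mono x (b : Fin r → ℤ)) = ⊤ := by
    rw [eq_top_iff, ← hgen, IntermediateField.adjoin_le_iff]
    rintro _ ⟨i, rfl⟩
    apply IntermediateField.subset_adjoin
    exact ⟨⟨Pi.single i 1, hsB i⟩, mono_single x i⟩
  obtain ⟨v, hℓ, hbas, hord⟩ := noether (u := fun b : B => mono x (b : Fin r → ℤ))
    (fun b => mono_ne hx _) (b0 := ⟨0, h0B⟩) (mono_zero x) hgenB htr
  obtain ⟨ℓ, hℓd⟩ : ∃ ℓ : Fin (m + 2) → K, ℓ = fun l => ∑ b : B, v l b • mono x b := ⟨_, rfl⟩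
  have hℓd' : ∀ l, ∑ b : B, v l b • mono x b = ℓ l := fun l => by rw [hℓd]
  obtain ⟨Z, hZd⟩ : ∃ Z : Fin (m + 1) → K, Z = fun j => ℓ ((0 : Fin (m + 2)).succAbove j) / ℓ 0 :=
    ⟨_, rfl⟩
  obtain ⟨Z', hZ'd⟩ : ∃ Z' : Fin (m + 1) → K,
    Z' = fun j => ℓ ((1 : Fin (m + 2)).succAbove j) / ℓ 1 := ⟨_, rfl⟩
  have hℓ0 : ∀ l, ℓ l ≠ 0 := fun l => by rw [← hℓd']; exact hℓ l
  have hZ : IsTranscendenceBasis k Z := by
    have h1 := hbas 0
    simp only [hℓd'] at h1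
    rw [hZd]
    exact h1
  have hZ0 : Z' 0 = (Z 0)⁻¹ := by
    rw [hZ'd, hZd]
    beta_reduce
    have h1 : (1 : Fin (m + 2)).succAbove 0 = 0 := by
      rw [Fin.succAbove_of_castSucc_lt _ _ (by simp [Fin.lt_def])]
      rfl
    have h2 : (0 : Fin (m + 2)).succAbove 0 = 1 := by
      rw [Fin.succAbove_zero]
      rfl
    rw [h1, h2, inv_div]
  have hZs : ∀ j : Fin m, Z' j.succ = Z j.succ / Z 0 := by
    intro j
    rw [hZ'd, hZd]
    beta_reduce
    have h1 : (1 : Fin (m + 2)).succAbove j.succ = j.succ.succ := by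
      rw [Fin.succAbove_of_le_castSucc _ _ (by simp [Fin.le_def])]
    have h2 : (0 : Fin (m + 2)).succAbove 0 = 1 := by
      rw [Fin.succAbove_zero]
      rfl
    have h3 : (0 : Fin (m + 2)).succAbove j.succ = j.succ.succ := by
      rw [Fin.succAbove_zero]
    rw [h1, h2, h3]
    have := hℓ0 0
    have := hℓ0 1
    field_simp
  obtain ⟨D0, hD0'⟩ := Pool.Agent.W602.GT.exists_dual hZ
  have hD0 : ∀ i j, D0 i (Z j) = if i = j then 1 else 0 := by
    intro i j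
    have h1 := congrFun (congrFun hD0' i) j
    rw [Matrix.of_apply, Matrix.one_apply] at h1
    exact h1
  have hOm0 := om_ne hx hgen hf h0 hZ hD0
  -- the bound for the orders
  obtain ⟨N0, hN0, hN1, hN2⟩ : ∃ N0 : ℤ, 0 ≤ N0 ∧ c ≤ N0 ∧
      ∀ s ∈ S, c * (1 + |∑ l, mn s (f l)|) ≤ N0 := by
    refine ⟨c + ∑ s ∈ S, c * (1 + |∑ l, mn s (f l)|), ?_, ?_, fun s hs => ?_⟩
    · have := Finset.sum_nonneg fun s (_ : s ∈ S) =>
        mul_nonneg hc.le (add_nonneg zero_le_one (abs_nonneg (∑ l, mn s (f l))))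
      omega
    · have h1 := Finset.sum_nonneg fun s (_ : s ∈ S) =>
        mul_nonneg hc.le (add_nonneg zero_le_one (abs_nonneg (∑ l, mn s (f l))))
      omega
    · have h1 := Finset.single_le_sum (f := fun s => c * (1 + |∑ l, mn s (f l)|))
        (fun s _ => mul_nonneg hc.le (add_nonneg zero_le_one (abs_nonneg _))) hs
      have h2 : c * (1 + |∑ l, mn s (f l)|) ≤ ∑ s ∈ S, c * (1 + |∑ l, mn s (f l)|) := h1
      omega
  -- the finite set
  obtain ⟨T0, hT0d⟩ : ∃ T0 : Finset K, T0 = T.filter fun s => s ≠ 0 := ⟨_, rfl⟩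
  obtain ⟨T', hT'd⟩ : ∃ T' : Finset K, T' = T0 ∪
      ((T0 ×ˢ B).image fun p => p.1 * mono x (N0 • p.2)) ∪
      ((T0 ×ˢ (Finset.univ : Finset (J' → Bool))).image fun p =>
        p.1 * ∏ j, (y j) ^ (if p.2 j then N0 else -N0)) :=
    ⟨_, rfl⟩
  have hT0 : ∀ s ∈ T0, s ≠ 0 := by
    intro s hs
    rw [hT0d] at hs
    exact (Finset.mem_filter.1 hs).2
  have hT'0 : ∀ s ∈ T', s ≠ 0 := by
    intro s hs
    rw [hT'd, Finset.mem_union, Finset.mem_union] at hs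
    rcases hs with (hs | hs) | hs
    · exact hT0 s hs
    · obtain ⟨p, hp, rfl⟩ := Finset.mem_image.1 hs
      exact mul_ne_zero (hT0 _ (Finset.mem_product.1 hp).1) (mono_ne hx _)
    · obtain ⟨p, hp, rfl⟩ := Finset.mem_image.1 hs
      exact mul_ne_zero (hT0 _ (Finset.mem_product.1 hp).1)
        (Finset.prod_ne_zero_iff.2 fun j _ => zpow_ne_zero _ (hy j))
  obtain ⟨C, hC⟩ := fd_bound hZ (hfin_of_gen hgen hZ) hZ0 hZs T' hT'0
  -- the support function without additional polynomials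
  obtain ⟨hE, hEd⟩ : ∃ hE : Fin 0 → (Fin r → ℤ) →₀ k, hE = fun j => j.elim0 := ⟨_, rfl⟩
  obtain ⟨nE, hnEd⟩ : ∃ nE : Fin 0 → ℤ, nE = fun j => j.elim0 := ⟨_, rfl⟩
  have hPh : ∀ v, Ph c a' nE f hE v = a' v + c * ∑ l, mn v (f l) := by
    intro v
    unfold Ph
    rw [Finset.univ_eq_empty (α := Fin 0), Finset.sum_empty, add_zero]
  have hh0' : ∀ j, hE j ≠ 0 := fun j => j.elim0
  have hnn' : ∀ j, 0 ≤ nE j := fun j => j.elim0
  have hF' : ∀ v, v ≠ 0 → InSpan S v → Ph c a' nE f hE v ≤ u0 ⬝ᵥ v := by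
    intro v hv hv'
    rw [hPh]
    exact hF v hv hv'
  have hS' : ∀ s, s ∈ S ↔ s ≠ 0 ∧ InSpan S s ∧ u0 ⬝ᵥ s = Ph c a' nE f hE s := by
    intro s
    rw [hPh]
    exact hS s
  refine ⟨C, fun M N hM hind => ?_⟩
  obtain ⟨ω, hlin, hsec⟩ := hind
  rw [pow_zero, mul_one]
  obtain ⟨q, hqd⟩ : ∃ q : ℤ, q = (M : ℤ) / c := ⟨_, rfl⟩
  obtain ⟨ρ, hρd⟩ : ∃ ρ : ℤ, ρ = (M : ℤ) % c := ⟨_, rfl⟩
  have hMq : (M : ℤ) = c * q + ρ := by
    rw [hqd, hρd]
    have := Int.emod_add_mul_ediv (M : ℤ) c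
    linarith
  have hρ0 : 0 ≤ ρ := by
    rw [hρd]
    exact Int.emod_nonneg _ hc.ne'
  have hρc : ρ < c := by
    rw [hρd]
    exact Int.emod_lt_of_pos _ hc
  have hq0 : 0 ≤ q := by
    rw [hqd]
    exact Int.ediv_nonneg (Int.natCast_nonneg M) hc.le
  have hM0 : (0 : ℤ) ≤ M := Int.natCast_nonneg M
  obtain ⟨R, hRd⟩ : ∃ R : K, R = mono x (q • u0) * ∏ j, (y j) ^ (-(q * nn j)) := ⟨_, rfl⟩
  have hR0 : R ≠ 0 := by
    rw [hRd]
    exact mul_ne_zero (mono_ne hx _) (Finset.prod_ne_zero_iff.2 fun j _ => zpow_ne_zero _ (hy j))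
  have hRord : ∀ P : Place k K, P.ord R = q * (u0 ⬝ᵥ vec P x) -
      q * ∑ j, nn j * P.ord (y j) := by
    intro P
    rw [hRd, P.ord_mul (mono_ne hx _) (Finset.prod_ne_zero_iff.2 fun j _ =>
      zpow_ne_zero _ (hy j)), ord_mono P hx, ord_prod_zpow P _ _ hy, smul_dotProduct,
      smul_eq_mul, Finset.mul_sum, sub_eq_add_neg, ← Finset.sum_neg_distrib]
    congr 1
    exact Finset.sum_congr rfl fun j _ => by ring
  have hc'0 : (Om e x f C0 D0 ^ M * R)⁻¹ ≠ 0 :=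
    inv_ne_zero (mul_ne_zero (pow_ne_zero _ hOm0) hR0)
  have hlin' := lin_sec hZ hD0 hlin (fun l => (hsec l).1) hc'0
  refine hC N _ hlin' fun l P hP => ?_
  -- the frame at the place
  have hfr : IsDivisorial P (m + 1) ∧
      ∃ D : Fin (m + 1) → Derivation k K K, (∀ a, Pres P (D a)) ∧ Om e x f C0 D ≠ 0 ∧
      ((vec P x = 0 ∧ P.ord (Om e x f C0 D) = 0) ∨
      (vec P x ∈ S ∧ P.ord (Om e x f C0 D) = -1 - ∑ l, mn (vec P x) (f l))) := by
    rcases hP with ⟨p, hp, hP⟩ | hP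
    · exact place_frameC htr hgen P hx e hf0 hf (hnd P) hh0' hc hnn' hA2 hA3 hF' hS' (hsp P)
        h0B hB hℓ hbas (hord P) h0 0 hp (by
          simp only [hℓd']
          rw [hZd] at hP
          exact hP)
    · exact place_frameC htr hgen P hx e hf0 hf (hnd P) hh0' hc hnn' hA2 hA3 hF' hS' (hsp P)
        h0B hB hℓ hbas (hord P) h0 1
        (MvPolynomial.X_prime (R := k) (i := (0 : Fin (m + 1)))).irreducible (by
          simp only [hℓd']
          rw [hZ'd] at hP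
          exact hP)
  obtain ⟨hdiv, D, hD, hOm, hcase⟩ := hfr
  have hne : ω l D0 ≠ 0 := by
    intro h1
    have h2 := hlin'.ne_zero l
    rw [h1, zero_mul] at h2
    exact h2 rfl
  have h1 : D = fun i => ∑ b, D i (Z b) • D0 b := by
    funext i
    apply der_ext' hZ
    intro j
    rw [sum_der, Finset.sum_eq_single j]
    · rw [hD0, if_pos rfl, mul_one]
    · intro b _ hb
      rw [hD0, if_neg hb, mul_zero]
    · intro hj
      exact absurd (Finset.mem_univ _) hj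
  obtain ⟨δ, hδ⟩ : ∃ δ : K, δ = (Matrix.of fun i b => D i (Z b)).det := ⟨_, rfl⟩
  have h2 : Om e x f C0 D = δ * Om e x f C0 D0 := by
    have h3 := om_pluri e x f C0 1 (Matrix.of fun i b => D i (Z b)) D0
    simp only [Matrix.of_apply, pow_one] at h3
    rw [← h1, ← hδ] at h3
    exact h3
  have h3 : ω l D = δ ^ M * ω l D0 := by
    have h4 := (hsec l).1 (Matrix.of fun i b => D i (Z b)) D0
    simp only [Matrix.of_apply] at h4
    rw [← h1, ← hδ] at h4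
    exact h4
  have hδ0 : δ ≠ 0 := by
    intro h4
    rw [h4, zero_mul] at h2
    exact hOm h2
  have hωD : ω l D ≠ 0 := by
    rw [h3]
    exact mul_ne_zero (pow_ne_zero _ hδ0) hne
  have h4 : ω l D0 * (Om e x f C0 D0 ^ M * R)⁻¹ = ω l D / (Om e x f C0 D ^ M * R) := by
    rw [h2, h3, mul_pow, mul_assoc, ← div_eq_mul_inv, mul_div_mul_left _ _ (pow_ne_zero _ hδ0)]
  have h5 : P.ord (ω l D0 * (Om e x f C0 D0 ^ M * R)⁻¹) =
      P.ord (ω l D) - M * P.ord (Om e x f C0 D) - q * (u0 ⬝ᵥ vec P x) +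
        q * ∑ j, nn j * P.ord (y j) := by
    rw [h4, P.ord_div hωD (mul_ne_zero (pow_ne_zero _ hOm) hR0),
      P.ord_mul (pow_ne_zero _ hOm) hR0, P.ord_pow, hRord]
    ring
  obtain ⟨s, hs, hs0, hle⟩ := ((hsec l).2 P hdiv D hD).resolve_left hωD
  rw [Nat.cast_one, one_mul] at hle
  have hle' : ((P.ord s : ℤ) : ℝ) - ((M : ℤ) : ℝ) * β P ≤ ((P.ord (ω l D) : ℤ) : ℝ) := by
    push_cast
    exact hle
  have hsf : s ∈ T0 := by
    rw [hT0d]
    exact Finset.mem_filter.2 ⟨hs, hs0⟩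
  rcases hcase with ⟨hv, ho⟩ | ⟨hvS, ho⟩
  · rw [h5, ho, hv, dotProduct_zero, mul_zero, mul_zero, sub_zero, sub_zero]
    have hβ := hβ0 P hv
    by_cases hex : ∀ j, P.ord (y j) = 0
    · have hsum : ∑ j, nn j * P.ord (y j) = 0 :=
        Finset.sum_eq_zero fun j _ => by rw [hex j, mul_zero]
      rw [hsum, mul_zero, add_zero]
      refine ⟨s, ?_, ?_⟩
      · rw [hT'd]
        exact Finset.mem_union_left _ (Finset.mem_union_left _ hsf)
      · rw [hsum, Int.cast_zero] at hβ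
        have hc' : (0 : ℝ) < c := by exact_mod_cast hc
        have hβ' : β P ≤ 0 := by
          by_contra hcon
          have := mul_pos hc' (not_le.1 hcon)
          linarith
        have h6 : ((M : ℤ) : ℝ) * β P ≤ 0 :=
          mul_nonpos_of_nonneg_of_nonpos (by exact_mod_cast hM0) hβ'
        have h7 : ((P.ord s : ℤ) : ℝ) ≤ ((P.ord (ω l D) : ℤ) : ℝ) := by linarith
        exact_mod_cast h7
    · push Not at hex
      obtain ⟨j0, hj0⟩ := hex
      have hE1 : 1 ≤ ∑ j, |P.ord (y j)| := by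
        have h6 := Finset.single_le_sum (f := fun j => |P.ord (y j)|)
          (fun j _ => abs_nonneg _) (Finset.mem_univ j0)
        have h7 : |P.ord (y j0)| ≤ ∑ j, |P.ord (y j)| := h6
        have h8 : 0 < |P.ord (y j0)| := abs_pos.2 hj0
        omega
      have h6 := t6_arith hc hMq hρ0 hρc hq0 hβ (hβ1 P) hle' hN1 hE1
      obtain ⟨sg, hsg⟩ : ∃ sg : J' → Bool, sg = fun j => decide (P.ord (y j) ≤ 0) := ⟨_, rfl⟩
      have hsgj : ∀ j, (if sg j then N0 else -N0) * P.ord (y j) = -N0 * |P.ord (y j)| := by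
        intro j
        rw [hsg]
        by_cases h7 : P.ord (y j) ≤ 0
        · rw [abs_of_nonpos h7]
          simp only [decide_eq_true_eq, if_pos h7]
          ring
        · rw [abs_of_pos (not_le.1 h7)]
          simp only [decide_eq_true_eq, if_neg h7]
      refine ⟨s * ∏ j, (y j) ^ (if sg j then N0 else -N0), ?_, ?_⟩
      · rw [hT'd]
        exact Finset.mem_union_right _ (Finset.mem_image.2 ⟨(s, sg),
          Finset.mem_product.2 ⟨hsf, Finset.mem_univ _⟩, rfl⟩)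
      · rw [P.ord_mul hs0 (Finset.prod_ne_zero_iff.2 fun j _ => zpow_ne_zero _ (hy j)),
          ord_prod_zpow P _ _ hy, Finset.sum_congr rfl fun j _ => hsgj j, ← Finset.mul_sum]
        have h8 : -N0 * ∑ j, |P.ord (y j)| = -(N0 * ∑ j, |P.ord (y j)|) := by ring
        rw [h8]
        linarith
  · have hvne : vec P x ≠ 0 := ((hS _).1 hvS).1
    have hU := ((hS _).1 hvS).2.2
    have h6 := u1_arith hc hMq hρ0 hρc hq0 ho hU (hβ2 P hvS) (hβ1 P) hle' (hN2 _ hvS)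
    have h6' : P.ord s - N0 ≤ P.ord (ω l D0 * (Om e x f C0 D0 ^ M * R)⁻¹) := by
      rw [h5]
      linarith
    -- a monomial with a pole
    obtain ⟨jj, σ, α, hσ, hsumσ, -, -, hbs⟩ := hB (vec P x) (inSpan_dq (hsp P))
    obtain ⟨bs, hbsm, hbsmin⟩ := Finset.exists_min_image B
      (fun b => b ⬝ᵥ vec P x) ⟨0, h0B⟩
    have h7 := hbs bs hbsm hbsmin
    have hjj : 1 ≤ jj := by
      by_contra hcon
      obtain rfl : jj = 0 := by omega
      apply hvne
      funext i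
      have h8 := hsumσ i
      rw [Finset.univ_eq_empty, Finset.sum_empty] at h8
      rw [Pi.zero_apply]
      exact_mod_cast h8.symm
    have h8 : bs ⬝ᵥ vec P x ≤ -1 := by
      have h9 := dq_sum (fun i => ((bs i : ℤ) : ℚ)) σ α hsumσ
      rw [dq_int] at h9
      have h10 : ∑ i, α i * dq (fun i => ((bs i : ℤ) : ℚ)) (σ i) < 0 := by
        refine Finset.sum_neg (fun i _ => ?_) ⟨⟨0, hjj⟩, Finset.mem_univ _⟩
        rw [dq_int, h7 i]
        have h11 : (0 : ℚ) < c1 := by exact_mod_cast hc1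
        have h12 := (hσ i).2
        push_cast
        nlinarith
      rw [← h9] at h10
      have h11 : bs ⬝ᵥ vec P x < 0 := by exact_mod_cast h10
      omega
    refine ⟨s * mono x (N0 • bs), ?_, ?_⟩
    · rw [hT'd]
      exact Finset.mem_union_left _ (Finset.mem_union_right _ (Finset.mem_image.2 ⟨(s, bs),
        Finset.mem_product.2 ⟨hsf, hbsm⟩, rfl⟩))
    · rw [P.ord_mul hs0 (mono_ne hx _), ord_mono P hx, smul_dotProduct, smul_eq_mul]
      have h9 : N0 * (bs ⬝ᵥ vec P x) ≤ N0 * (-1) := mul_le_mul_of_nonneg_left h8 hN0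
      linarith

end

end Pool.Agent.R885.N
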