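import Pool.Agent.R885.U0

/-!
R885, part U11: minima of finitely many linear functions, restriction of a place.
-/

set_option autoImplicit false
set_option linter.overlappingInstances false
set_option linter.unusedSectionVars false

open FF

namespace Pool.Agent.R885.N

/-- the lowest common multiple of the denominators of a finite set of vectors -/
theorem u11_den {r : ℕ} (Y : Finset (Fin r → ℚ)) :
    ∃ N : ℕ, 1 ≤ N ∧ ∀ y ∈ Y, ∀ i, ∃ z : ℤ, (z : ℚ) = N * y i := by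
  classical
  refine ⟨∏ y ∈ Y, ∏ i, (y i).den, ?_, ?_⟩
  · exact Nat.one_le_iff_ne_zero.2 (Finset.prod_ne_zero_iff.2 fun y _ =>
      Finset.prod_ne_zero_iff.2 fun i _ => (y i).den_ne_zero)
  · intro y hy i
    have h1 : (y i).den ∣ ∏ y ∈ Y, ∏ i, (y i).den :=
      (Finset.dvd_prod_of_mem (fun i => (y i).den) (Finset.mem_univ i)).trans
        (Finset.dvd_prod_of_mem (fun y : Fin r → ℚ => ∏ i, (y i).den) hy)
    obtain ⟨c, hc⟩ := h1
    refine ⟨(c : ℤ) * (y i).num, ?_⟩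
    rw [hc]
    push_cast
    have h2 : (y i).num = y i * ((y i).den : ℚ) := by
      rw [Rat.mul_den_eq_num]
    rw [h2]
    ring

theorem u11_dq_add {r : ℕ} (q : Fin r → ℚ) (v w : Fin r → ℤ) :
    dq q (v + w) = dq q v + dq q w := by
  unfold dq
  rw [← Finset.sum_add_distrib]
  refine Finset.sum_congr rfl fun i _ => ?_
  rw [Pi.add_apply]
  push_cast
  ring

theorem u11_dq_zsmul {r : ℕ} (q : Fin r → ℚ) (g : ℤ) (v : Fin r → ℤ) :
    dq q (g • v) = g * dq q v := by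
  unfold dq
  rw [Finset.mul_sum]
  refine Finset.sum_congr rfl fun i _ => ?_
  rw [Pi.smul_apply, smul_eq_mul]
  push_cast
  ring

theorem u11_dq_vzero {r : ℕ} (q : Fin r → ℚ) : dq q (0 : Fin r → ℤ) = 0 := by
  unfold dq
  simp

/-- U11: the restriction of a place -/
theorem restr_place {k K Λ F : Type} [Field k] [Field K] [Algebra k K] [Field Λ] [Field F]
    [Algebra Λ F] [Algebra k Λ] [Algebra k F] [IsScalarTower k Λ F] (φ : K →ₐ[k] F)
    (P : Place Λ F) : (∀ z : K, P.ord (φ z) = 0) ∨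
      ∃ (v : Place k K) (e : ℕ), 0 < e ∧ ∀ z, P.ord (φ z) = e * v.ord z := by
  classical
  have hφ : ∀ {z : K}, z ≠ 0 → φ z ≠ 0 := fun {z} hz => by
    intro h
    exact hz (φ.toRingHom.injective (by simpa using h))
  by_cases h : ∀ z : K, P.ord (φ z) = 0
  · exact Or.inl h
  right
  push Not at h
  obtain ⟨z0, hz0⟩ := h
  have hne0 : z0 ≠ 0 := by
    rintro rfl
    rw [map_zero, P.ord_zero] at hz0
    exact hz0 rfl
  have hex : ∃ n : ℕ, 0 < n ∧ ∃ z : K, z ≠ 0 ∧ P.ord (φ z) = n := by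
    rcases lt_or_gt_of_ne hz0 with h1 | h1
    · refine ⟨(-P.ord (φ z0)).toNat, by omega, z0⁻¹, inv_ne_zero hne0, ?_⟩
      rw [map_inv₀, P.ord_inv]
      omega
    · exact ⟨(P.ord (φ z0)).toNat, by omega, z0, hne0, by omega⟩
  set e := Nat.find hex with he
  obtain ⟨he0, t, ht0, ht⟩ := Nat.find_spec hex
  rw [← he] at he0 ht
  have hmin : ∀ m : ℕ, m < e → ¬ (0 < m ∧ ∃ z : K, z ≠ 0 ∧ P.ord (φ z) = m) :=
    fun m hm => Nat.find_min hex hm
  have hdvd : ∀ z : K, (e : ℤ) ∣ P.ord (φ z) := by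
    intro z
    by_cases hz : z = 0
    · rw [hz, map_zero, P.ord_zero]
      exact dvd_zero _
    · set a := P.ord (φ z) with ha
      have h1 : P.ord (φ (z * t ^ (-(a / e)))) = a % e := by
        rw [map_mul, map_zpow₀, P.ord_mul (hφ hz) (zpow_ne_zero _ (hφ ht0)), P.ord_zpow, ht, ← ha]
        have h2 := Int.emod_add_mul_ediv a e
        linarith [h2, mul_comm (e : ℤ) (a / e), neg_mul (a / e) (e : ℤ)]
      have he' : (0 : ℤ) < e := by exact_mod_cast he0
      have h3 : 0 ≤ a % e := Int.emod_nonneg _ he'.ne'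
      have h4 : a % e < e := Int.emod_lt_of_pos _ he'
      by_contra hcon
      have h5 : a % e ≠ 0 := fun h6 => hcon (Int.dvd_of_emod_eq_zero h6)
      refine hmin (a % e).toNat (by omega) ⟨by omega, z * t ^ (-(a / e)),
        mul_ne_zero hz (zpow_ne_zero _ ht0), ?_⟩
      rw [h1]
      omega
  have he' : (0 : ℤ) < e := by exact_mod_cast he0
  have hval : ∀ z : K, P.ord (φ z) = e * (P.ord (φ z) / e) := fun z =>
    (Int.mul_ediv_cancel' (hdvd z)).symm
  refine ⟨⟨fun z => P.ord (φ z) / e, ?_, ?_, ?_, ?_, ?_⟩, e, he0, fun z => hval z⟩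
  · rw [map_zero, P.ord_zero, Int.zero_ediv]
  · intro f g hf hg
    rw [map_mul, P.ord_mul (hφ hf) (hφ hg), Int.add_ediv_of_dvd_left (hdvd f)]
  · intro f g hf hg hfg
    have h1 := P.ord_add (hφ hf) (hφ hg) (by rw [← map_add]; exact hφ hfg)
    rw [← map_add] at h1
    rcases min_le_iff.1 h1 with h2 | h2
    · exact (min_le_left _ _).trans (Int.ediv_le_ediv he' h2)
    · exact (min_le_right _ _).trans (Int.ediv_le_ediv he' h2)
  · intro c hc
    rw [AlgHom.commutes, IsScalarTower.algebraMap_apply k Λ F,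
      P.ord_const (by simpa using hc), Int.zero_ediv]
  · exact ⟨t, ht0, by rw [ht, Int.ediv_self he'.ne']⟩

section U11

variable {r : ℕ} {Ψ : (Fin r → ℤ) → ℚ}

theorem PLin.zero (h : PLin Ψ) : Ψ 0 = 0 := by
  obtain ⟨Y, h1, h2⟩ := h
  obtain ⟨y, -, h3⟩ := h2 0
  rw [h3, u11_dq_vzero]

theorem PLin.superadd (h : PLin Ψ) (v w : Fin r → ℤ) : Ψ v + Ψ w ≤ Ψ (v + w) := by
  obtain ⟨Y, h1, h2⟩ := h
  obtain ⟨y, hy, h3⟩ := h2 (v + w)
  rw [h3, u11_dq_add]
  exact add_le_add (h1 v y hy) (h1 w y hy)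

theorem PLin.zsmul (h : PLin Ψ) {g : ℤ} (hg : 0 ≤ g) (v : Fin r → ℤ) : Ψ (g • v) = g * Ψ v := by
  obtain ⟨Y, h1, h2⟩ := h
  have hg' : (0 : ℚ) ≤ g := by exact_mod_cast hg
  refine le_antisymm ?_ ?_
  · obtain ⟨y, hy, h3⟩ := h2 v
    rw [h3, ← u11_dq_zsmul]
    exact h1 _ y hy
  · obtain ⟨y, hy, h3⟩ := h2 (g • v)
    rw [h3, u11_dq_zsmul]
    exact mul_le_mul_of_nonneg_left (h1 v y hy) hg'

theorem PLin.sum_le (h : PLin Ψ) {ι : Type} (T : Finset ι) (s : ι → Fin r → ℤ) :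
    ∑ a ∈ T, Ψ (s a) ≤ Ψ (∑ a ∈ T, s a) := by
  classical
  induction T using Finset.induction_on with
  | empty => rw [Finset.sum_empty, Finset.sum_empty, h.zero]
  | insert a T ha ih =>
    rw [Finset.sum_insert ha, Finset.sum_insert ha]
    exact (add_le_add le_rfl ih).trans (h.superadd _ _)

theorem PLin.add_neg_le (h : PLin Ψ) (v : Fin r → ℤ) : Ψ v + Ψ (-v) ≤ 0 := by
  have h1 := h.superadd v (-v)
  rwa [add_neg_cancel, h.zero] at h1

theorem PLin.ex_mn (k : Type) [Field k] (h : PLin Ψ) :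
    ∃ (ω : ℚ) (H : (Fin r → ℤ) →₀ k), 0 < ω ∧ H ≠ 0 ∧ ∀ v, Ψ v = ω * (mn v H : ℚ) := by
  classical
  obtain ⟨Y, h1, h2⟩ := h
  obtain ⟨N, hN, hden⟩ := u11_den Y
  choose! m hm using hden
  have hN' : (0 : ℚ) < N := by exact_mod_cast hN
  have hdot : ∀ y ∈ Y, ∀ v : Fin r → ℤ, ((m y ⬝ᵥ v : ℤ) : ℚ) = N * dq y v := by
    intro y hy v
    unfold dotProduct dq
    push_cast
    rw [Finset.mul_sum]
    refine Finset.sum_congr rfl fun i _ => ?_
    rw [hm y hy i]
    ring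
  set M : Finset (Fin r → ℤ) := Y.image m with hM
  let H : (Fin r → ℤ) →₀ k := Finsupp.onFinset M (fun a => if a ∈ M then 1 else 0) (by
    intro a ha
    by_contra hcon
    simp [hcon] at ha)
  have hsupp : ∀ a, a ∈ H.support ↔ a ∈ M := by
    intro a
    rw [Finsupp.mem_support_iff, Finsupp.onFinset_apply]
    by_cases ha : a ∈ M <;> simp [ha]
  obtain ⟨y0, hy0, -⟩ := h2 0
  have hH : H ≠ 0 := by
    intro h0
    have h3 : m y0 ∈ H.support := (hsupp _).2 (Finset.mem_image_of_mem m hy0)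
    rw [h0] at h3
    simp at h3
  refine ⟨(N : ℚ)⁻¹, H, inv_pos.2 hN', hH, fun v => ?_⟩
  have key : (N : ℚ) * Ψ v = (mn v H : ℚ) := by
    refine le_antisymm ?_ ?_
    · obtain ⟨a, ha, h3⟩ := exists_mn hH v
      rw [hsupp] at ha
      obtain ⟨y, hy, rfl⟩ := Finset.mem_image.1 ha
      rw [← h3, hdot y hy]
      exact mul_le_mul_of_nonneg_left (h1 v y hy) hN'.le
    · obtain ⟨y, hy, h3⟩ := h2 v
      rw [h3, ← hdot y hy]
      exact_mod_cast mn_le ((hsupp _).2 (Finset.mem_image_of_mem m hy))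
  rw [← key, ← mul_assoc, inv_mul_cancel₀ hN'.ne', one_mul]

theorem PLin.of_sum {k : Type} [Field k] {J' : Type} [Fintype J'] {h : J' → (Fin r → ℤ) →₀ k}
    (hh : ∀ j, h j ≠ 0) {c : J' → ℚ} (hc : ∀ j, 0 ≤ c j) :
    PLin fun v => ∑ j, c j * (mn v (h j) : ℚ) := by
  classical
  have hdq : ∀ (m : J' → Fin r → ℤ) (v : Fin r → ℤ),
      dq (fun i => ∑ j, c j * (m j i : ℚ)) v = ∑ j, c j * ((m j ⬝ᵥ v : ℤ) : ℚ) := by
    intro m v
    unfold dq dotProduct
    simp only [Finset.sum_mul]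
    rw [Finset.sum_comm]
    refine Finset.sum_congr rfl fun j _ => ?_
    push_cast
    rw [Finset.mul_sum]
    exact Finset.sum_congr rfl fun i _ => by ring
  refine ⟨(Fintype.piFinset fun j => (h j).support).image
    fun m => fun i => ∑ j, c j * (m j i : ℚ), ?_, ?_⟩
  · intro v y hy
    obtain ⟨m, hm, rfl⟩ := Finset.mem_image.1 hy
    rw [Fintype.mem_piFinset] at hm
    rw [hdq]
    refine Finset.sum_le_sum fun j _ => mul_le_mul_of_nonneg_left ?_ (hc j)
    exact_mod_cast mn_le (hm j)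
  · intro v
    choose m hm1 hm2 using fun j => exists_mn (hh j) v
    refine ⟨_, Finset.mem_image_of_mem _ (Fintype.mem_piFinset.2 hm1), ?_⟩
    rw [hdq]
    exact Finset.sum_congr rfl fun j _ => by rw [hm2 j]

end U11

end Pool.Agent.R885.N
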