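import Pool.Agent.R885.U0
import Pool.Agent.R885.G1
import Pool.Agent.R885.U11

/-!
Pairs with arbitrary weights at infinity: the tight vectors at a general point of the polytope.
-/

set_option autoImplicit false
set_option linter.overlappingInstances false
set_option linter.unusedSectionVars false

open FF IntermediateField Pool.Agent.W603.LV Pool.Agent.W619.PQ

namespace Pool.Agent.R885.N

theorem u11b_mn_single {k : Type} [Field k] {r : ℕ} (v : Fin r → ℤ) :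
    mn v (Finsupp.single (0 : Fin r → ℤ) (1 : k)) = 0 := by
  unfold mn
  have h : ((Finsupp.single (0 : Fin r → ℤ) (1 : k)).support : Set (Fin r → ℤ)) = {0} := by
    rw [Finsupp.support_single_ne_zero _ one_ne_zero, Finset.coe_singleton]
  rw [h, Set.image_singleton, zero_dotProduct, csInf_singleton]

theorem u11b_common {J' : Type} [Fintype J'] (cw : J' → ℚ) (ω : ℚ) (DA : ℕ) (hDA : 1 ≤ DA) :
    ∃ D : ℕ, 1 ≤ D ∧ (∃ z : ℤ, (D : ℚ) * ω = z) ∧ (∀ j, ∃ z : ℤ, (D : ℚ) * cw j = z) ∧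
      ∀ a : ℚ, (∃ z : ℤ, (DA : ℚ) * a = z) → ∃ z : ℤ, (D : ℚ) * a = z := by
  classical
  refine ⟨DA * (ω.den * ∏ j, (cw j).den), ?_, ?_, ?_, ?_⟩
  · exact Nat.mul_pos hDA (Nat.mul_pos ω.den_pos (Finset.prod_pos fun j _ => (cw j).den_pos))
  · refine ⟨(DA : ℤ) * (∏ j, ((cw j).den : ℤ)) * ω.num, ?_⟩
    push_cast
    rw [← Rat.mul_den_eq_num ω]
    ring
  · intro j
    refine ⟨(DA : ℤ) * ω.den * (∏ i ∈ Finset.univ.erase j, ((cw i).den : ℤ)) * (cw j).num, ?_⟩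
    rw [← Finset.mul_prod_erase Finset.univ (fun i => (cw i).den) (Finset.mem_univ j)]
    push_cast
    rw [← Rat.mul_den_eq_num (cw j)]
    ring
  · rintro a ⟨z, hz⟩
    refine ⟨z * (ω.den * ∏ j, (cw j).den : ℕ), ?_⟩
    push_cast
    rw [← hz]
    ring

/-- U11b: the tight vectors at a general point of the polytope. -/
theorem exists_tightG {r : ℕ} {Ψ : (Fin r → ℤ) → ℚ} {k : Type} [Field k] {J : Type} [Fintype J]
    {f : J → (Fin r → ℤ) →₀ k}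
    (hf0 : ∀ l, f l ≠ 0) {A : (Fin r → ℤ) → ℚ} (A0 : ∀ v, v ≠ 0 → 0 < A v) (A1 : ∀ v, A v ≤ 1)
    (AD : ∃ D : ℕ, 1 ≤ D ∧ ∀ v, ∃ z : ℤ, (D : ℚ) * A v = z) (P0 : PLin Ψ)
    {J' : Type} [Fintype J'] (cw : J' → ℚ) (hne : (FineG A Ψ f).Nonempty) :
    ∃ (u0 : Fin r → ℤ) (c : ℤ) (a' : (Fin r → ℤ) → ℤ) (nn : J' → ℤ) (S : Finset (Fin r → ℤ))
      (B : ℚ), 0 < c ∧ 0 ≤ B ∧ (∀ v, (a' v : ℚ) = c * (A v + Ψ v)) ∧
      (∀ j, (nn j : ℚ) = c * cw j) ∧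
      (∀ v, v ≠ 0 → a' v + c * ∑ l, mn v (f l) ≤ u0 ⬝ᵥ v) ∧
      (∀ s, s ∈ S ↔ s ≠ 0 ∧ u0 ⬝ᵥ s = a' s + c * ∑ l, mn s (f l)) ∧
      (∀ q : Fin r → ℚ, (∀ s ∈ S, 0 ≤ dq q s) → ∀ s ∈ S, dq q s = 0) ∧
      (∀ v, v ≠ 0 → v ∉ S → ∀ i,
        |(v i : ℚ)| ≤ B * ((u0 ⬝ᵥ v - (a' v + c * ∑ l, mn v (f l)) : ℤ) : ℚ)) ∧
      (∀ w, w ∈ dirsG A Ψ f ↔ ∀ s ∈ S, w ⬝ᵥ s = 0) := by
  classical
  obtain ⟨DA, hDA, hAD⟩ := AD
  obtain ⟨ω, H, hω, hH, hΨ⟩ := P0.ex_mn k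
  obtain ⟨D, hD, hDω, hDc, hDa⟩ := u11b_common cw ω DA hDA
  obtain ⟨g, hg⟩ : ∃ g : J ⊕ (Unit ⊕ J') → (Fin r → ℤ) →₀ k,
      g = Sum.elim f (Sum.elim (fun _ => H) fun _ => Finsupp.single 0 1) := ⟨_, rfl⟩
  obtain ⟨wt, hwt⟩ : ∃ wt : J ⊕ (Unit ⊕ J') → ℚ,
      wt = Sum.elim (fun _ => 1) (Sum.elim (fun _ => ω) cw) := ⟨_, rfl⟩
  have hsumq : ∀ v, ∑ l, wt l * (mn v (g l) : ℚ) = Ψ v + ∑ l, (mn v (f l) : ℚ) := by
    intro v
    rw [Fintype.sum_sum_type, Fintype.sum_sum_type, hg, hwt]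
    simp only [Sum.elim_inl, Sum.elim_inr, u11b_mn_single, Int.cast_zero, mul_zero,
      Finset.sum_const_zero, one_mul, Finset.univ_unique, Finset.sum_singleton, add_zero]
    rw [hΨ, add_comm]
  have hFeq : FineW A wt g = FineG A Ψ f := by
    ext y
    unfold FineW FineG
    simp only [Set.mem_ofPred_eq, hsumq, dq, add_assoc]
  have hdeq : dirsW A wt g = dirsG A Ψ f := by
    unfold dirsW dirsG
    rw [hFeq]
  obtain ⟨u0, c, a, nl, S, B, hc, hB0, ha, hnl, hF', hS, hpos, hgr, hdirs⟩ :=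
    exists_tightW (g := g) (wt := wt) (A := A) (by
      intro l
      rw [hg]
      rcases l with l | _ | j
      · exact hf0 l
      · exact hH
      · intro h0
        exact one_ne_zero (Finsupp.single_eq_zero.1 h0)) hD A0 A1 (fun v => hDa _ (hAD v)) (by
      intro l
      rw [hwt]
      rcases l with l | _ | j
      · exact ⟨D, by simp⟩
      · exact hDω
      · exact hDc j) (by rw [hFeq]; exact hne)
  have hcq : (0 : ℚ) < c := by exact_mod_cast hc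
  have hnl1 : ∀ l, nl (Sum.inl l) = c := by
    intro l
    have h1 := hnl (Sum.inl l)
    rw [hwt, Sum.elim_inl, mul_one] at h1
    exact_mod_cast h1
  obtain ⟨nH, hnH⟩ : ∃ nH : ℤ, nH = nl (Sum.inr (Sum.inl ())) := ⟨_, rfl⟩
  have hnHq : (nH : ℚ) = c * ω := by
    have h1 := hnl (Sum.inr (Sum.inl ()))
    rw [hwt, Sum.elim_inr, Sum.elim_inl, ← hnH] at h1
    exact h1
  have hsum : ∀ v, a v + ∑ l, nl l * mn v (g l) = (a v + nH * mn v H) + c * ∑ l, mn v (f l) := by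
    intro v
    rw [Fintype.sum_sum_type, Fintype.sum_sum_type, hg]
    simp only [Sum.elim_inl, Sum.elim_inr, u11b_mn_single, mul_zero,
      Finset.sum_const_zero, Finset.univ_unique, Finset.sum_singleton, add_zero, hnl1]
    rw [← Finset.mul_sum, hnH]
    change a v + (c * ∑ l, mn v (f l) + nl (Sum.inr (Sum.inl ())) * mn v H) = _
    ring
  simp only [hsum] at hF' hS hgr
  rw [hdeq] at hdirs
  refine ⟨u0, c, fun v => a v + nH * mn v H, fun j => nl (Sum.inr (Sum.inr j)), S, B, hc, hB0,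
    ?_, ?_, hF', hS, hpos, hgr, hdirs⟩
  · intro v
    push_cast
    rw [ha, hnHq, hΨ]
    ring
  · intro j
    have h1 := hnl (Sum.inr (Sum.inr j))
    rw [hwt, Sum.elim_inr, Sum.elim_inr] at h1
    exact h1

end Pool.Agent.R885.N
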