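import Pool.Agent.R885.U3
import Pool.Agent.R885.U4
import Pool.Agent.R885.U0
import Pool.Agent.R885.U11
import Pool.Agent.R885.U11b
import Pool.Agent.R885.T9

/-!
Pairs with arbitrary weights at infinity: the polytope for `t = 1` is not empty.
-/

set_option autoImplicit false
set_option linter.overlappingInstances false
set_option linter.unusedSectionVars false

open FF IntermediateField Pool.Agent.W603.LV Pool.Agent.W619.PQ Pool.Agent.W619.PL
  Pool.Agent.Y173.QA Pool.Agent.W619.TW Pool.Agent.TH165.ACC Pool.Agent.TH122.AB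
  Pool.Agent.W619.Y Pool.Agent.W824.PG Pool.Agent.Y174

namespace Pool.Agent.R885.N

section

variable {k K : Type} [Field k] [CharZero k] [Field K] [Algebra k K] {n : ℕ}
  {β : Place k K → ℝ} {r q : ℕ} {J' : Type} [Fintype J'] {x : Fin r → K}
  {f : Fin q → (Fin r → ℤ) →₀ k} {y : J' → K} {cw : J' → ℚ} {A Ψ : (Fin r → ℤ) → ℚ}

theorem u5_vec {Λ F : Type} [Field Λ] [Field F] [Algebra Λ F] [Algebra k F] (φ : K →ₐ[k] F)
    {P : Place Λ F} {v : Place k K} {e : ℕ} (hv : ∀ z, P.ord (φ z) = e * v.ord z) (x : Fin r → K) :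
    vec P (fun i => φ (x i)) = (e : ℤ) • vec v x := by
  funext i
  exact hv (x i)

theorem u5_Th {Λ F : Type} [Field Λ] [Field F] [Algebra Λ F] [Algebra k F] (φ : K →ₐ[k] F)
    {P : Place Λ F} {v : Place k K} {e : ℕ} (hv : ∀ z, P.ord (φ z) = e * v.ord z) (y : J' → K)
    (cw : J' → ℚ) : Th (fun j => φ (y j)) cw P = e * Th y cw v := by
  unfold Th
  rw [Finset.mul_sum]
  refine Finset.sum_congr rfl fun j _ => ?_
  rw [hv]
  push_cast
  ring

/-- The multiplicities on the generic fibre are nonnegative combinations. -/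
theorem u5_nonneg (hB : WSys n β x f y cw A Ψ) {Λ F : Type} [Field Λ] [Field F] [Algebra Λ F]
    [Algebra k Λ] [Algebra k F] [IsScalarTower k Λ F] (φ : K →ₐ[k] F) (P : Place Λ F) :
    (vec P (fun i => φ (x i)) = 0 → 0 ≤ Th (fun j => φ (y j)) cw P) ∧
      (vec P (fun i => φ (x i)) ≠ 0 →
        ((Ψ (vec P fun i => φ (x i)) : ℚ) : ℝ) ≤ Th (fun j => φ (y j)) cw P) := by
  rcases restr_place φ P with h0 | ⟨v, e, he, hv⟩
  · have hV : vec P (fun i => φ (x i)) = 0 := by
      funext i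
      exact h0 (x i)
    refine ⟨fun _ => ?_, fun h => absurd hV h⟩
    unfold Th
    refine (Finset.sum_eq_zero fun j _ => ?_).symm.le
    rw [h0, Int.cast_zero, mul_zero]
  · have he' : ((e : ℕ) : ℤ) ≠ 0 := by omega
    have her : (0 : ℝ) ≤ e := Nat.cast_nonneg e
    rw [u5_vec φ hv, u5_Th φ hv]
    refine ⟨fun h => ?_, fun h => ?_⟩
    · exact mul_nonneg her (hB.th0 v ((smul_eq_zero.1 h).resolve_left he'))
    · have hvv : vec v x ≠ 0 := fun h1 => h (by rw [h1, smul_zero])
      rw [hB.P0.zsmul (by omega)]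
      push_cast
      exact mul_le_mul_of_nonneg_left (hB.th1 v hvv) her

/-- The bounds for the multiplicities on the generic fibre. -/
theorem u5_bound (hB : WSys n β x f y cw A Ψ) {Λ F : Type} [Field Λ] [Field F] [Algebra Λ F]
    [Algebra k Λ] [Algebra k F] [IsScalarTower k Λ F] (φ : K →ₐ[k] F) (P : Place Λ F) {δ : ℝ}
    (hδ : (∃ (v : Place k K) (e : ℕ), 0 < e ∧ (∀ z, P.ord (φ z) = e * v.ord z) ∧
      δ = max 0 (1 - e * (1 - β v))) ∨ δ = 0) :
    (vec P (fun i => φ (x i)) = 0 → δ ≤ Th (fun j => φ (y j)) cw P) ∧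
      (vec P (fun i => φ (x i)) ≠ 0 →
        δ ≤ 1 - ((A (vec P fun i => φ (x i)) + Ψ (vec P fun i => φ (x i)) : ℚ) : ℝ) +
          Th (fun j => φ (y j)) cw P) := by
  obtain ⟨hn0, hn1⟩ := u5_nonneg hB φ P
  have hn2 : vec P (fun i => φ (x i)) ≠ 0 →
      0 ≤ 1 - ((A (vec P fun i => φ (x i)) + Ψ (vec P fun i => φ (x i)) : ℚ) : ℝ) +
        Th (fun j => φ (y j)) cw P := by
    intro h
    have h1 := hn1 h
    have h2 : ((A (vec P fun i => φ (x i)) : ℚ) : ℝ) ≤ 1 := by exact_mod_cast hB.A1 _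
    push_cast
    linarith
  rcases hδ with ⟨v, e, he, hv, rfl⟩ | rfl
  · have he' : ((e : ℕ) : ℤ) ≠ 0 := by omega
    have her : (1 : ℝ) ≤ e := by exact_mod_cast he
    refine ⟨fun h => max_le (hn0 h) ?_, fun h => max_le (hn2 h) ?_⟩
    · rw [u5_vec φ hv] at h
      have hvv : vec v x = 0 := (smul_eq_zero.1 h).resolve_left he'
      rw [u5_Th φ hv]
      have h1 := mul_le_mul_of_nonneg_left (hB.up0 v hvv) (by linarith : (0 : ℝ) ≤ e)
      linarith
    · have hvv : vec v x ≠ 0 := by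
        intro h1
        apply h
        rw [u5_vec φ hv, h1, smul_zero]
      rw [u5_Th φ hv, u5_vec φ hv, hB.P0.zsmul (by omega)]
      have h1 := mul_le_mul_of_nonneg_left (hB.up1 v hvv) (by linarith : (0 : ℝ) ≤ e)
      have h2 : ((A ((e : ℤ) • vec v x) : ℚ) : ℝ) ≤ e * ((A (vec v x) : ℚ) : ℝ) := by
        exact_mod_cast hB.A3 (e : ℤ) (vec v x) (by omega) hvv
      push_cast at h1 ⊢
      nlinarith
  · exact ⟨hn0, hn2⟩

/-- **The polytope for `t = 1` is not empty.** -/
theorem WSys.pos [IsAlgClosed k] (hn : 1 ≤ n) (htr : Algebra.trdeg k K = (n : ℕ))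
    (hB : WSys n β x f y cw A Ψ) (hF : (FineG A Ψ f).Nonempty) : PosB k K n β := by
  classical
  have hr := hB.hr
  have hx := hB.hx
  have hgen := hB.hgen
  have hf := hB.hf
  have hndf := hB.hnd
  have hβ1 := hB.le1
  have hf0 := hn_ne0 hndf hf
  obtain ⟨d, hdn, hd⟩ := t9_trdeg htr (IntermediateField.adjoin k
      {z : K | ∃ w ∈ dirsG A Ψ f, z = mono x w})
  obtain ⟨u0, c, a', nn, S, B, hc, hB0, ha, hnnq, hF', hS, hpos, hgr, hdirs⟩ :=
    exists_tightG hf0 hB.A0 hB.A1 hB.AD hB.P0 cw hF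
  have hcq : (0 : ℚ) < c := by exact_mod_cast hc
  have hcr : (0 : ℝ) < c := by exact_mod_cast hc
  have hnnr : ∀ j, (nn j : ℝ) = c * ((cw j : ℚ) : ℝ) := fun j => by exact_mod_cast hnnq j
  have har : ∀ v, (a' v : ℝ) = c * ((A v + Ψ v : ℚ) : ℝ) := fun v => by exact_mod_cast ha v
  have hA2 : ∀ v w, v ≠ 0 → w ≠ 0 → v + w ≠ 0 → a' v + a' w - c ≤ a' (v + w) := by
    intro v w hv hw hvw
    have h1 := mul_le_mul_of_nonneg_left (hB.AP v w hv hw hvw) hcq.le
    have h2 : (a' v : ℚ) + a' w - c ≤ a' (v + w) := by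
      rw [ha, ha, ha]
      linarith
    exact_mod_cast h2
  have hA3 : ∀ (g : ℤ) v, 0 < g → v ≠ 0 → a' (g • v) ≤ g * a' v := by
    intro g v hg hv
    have h1 := hB.A3 g v hg hv
    have h2 : (a' (g • v) : ℚ) ≤ g * a' v := by
      rw [ha, ha, hB.P0.zsmul hg.le]
      have h3 := mul_le_mul_of_nonneg_left h1 hcq.le
      linarith
    exact_mod_cast h2
  obtain ⟨t, htG, htind, htalg⟩ := exists_mono_basis hd
  choose w hw hwt using htG
  have hwS : ∀ j, ∀ s ∈ S, w j ⬝ᵥ s = 0 := fun j => (hdirs (w j)).1 (hw j)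
  have htw : t = fun j => mono x (w j) := funext hwt
  obtain ⟨Z, hZ⟩ := Pool.Agent.W636.PG.exists_basis k K n htr
  obtain ⟨e, C0, hC0, hlow⟩ := hB.low
  refine ⟨d, hdn, kodG hx hgen hf hC0 hZ hf0 hB.hy hlow hc hnnq (fun v _ => ha v) hF' hB0 hgr hwS
    (by rw [← htw]; exact htind), ?_⟩
  have hess : Algebra.EssFiniteType k K := by
    rw [← IntermediateField.fg_top_iff, ← hgen]
    exact ⟨Finset.univ.image x, by rw [Finset.coe_image, Finset.coe_univ, Set.image_univ]⟩
  have hG : ∀ P : Place k K, 0 < β P →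
      ∃ g ∈ Finset.univ.image x ∪ Finset.univ.image y, P.ord g ≠ 0 := by
    intro P hP
    by_cases hv : vec P x = 0
    · by_contra hcon
      push Not at hcon
      have h1 := hB.up0 P hv
      unfold Th at h1
      rw [Finset.sum_eq_zero fun j _ => by
        rw [hcon _ (Finset.mem_union_right _ (Finset.mem_image_of_mem _ (Finset.mem_univ j))),
          Int.cast_zero, mul_zero]] at h1
      linarith
    · obtain ⟨i, hi⟩ : ∃ i, vec P x i ≠ 0 := by
        by_contra hcon
        push Not at hcon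
        exact hv (funext hcon)
      exact ⟨x i, Finset.mem_union_left _ (Finset.mem_image_of_mem _ (Finset.mem_univ i)), hi⟩
  clear e hC0 hlow
  rcases hdn.lt_or_eq with hlt | rfl
  · -- the generic fibre
    obtain ⟨m, rfl⟩ : ∃ m, n = d + (m + 1) := ⟨n - d - 1, by omega⟩
    refine pair_gen (h := 0) hess htind htr hG hβ1 ?_
    intro Λ F _ _ _ _ _ _ _ φ hφgen hΛF t' ht' htt' hcon δ' hδ'
    have hinj : Function.Injective φ := (φ : K →+* F).injective
    have e' : (Fin q ⊕ Fin d) ⊕ Fin (m + 1) ≃ Fin r := Fintype.equivOfCardEq (by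
      simp only [Fintype.card_sum, Fintype.card_fin]
      omega)
    have hmono : ∀ w' : Fin r → ℤ, φ (mono x w') = mono (fun i => φ (x i)) w' := fun w' =>
      map_mono (φ : K →+* F) x w'
    have hφx : ∀ i, φ (x i) ≠ 0 := by
      intro i h0
      exact hx i (hinj (by rw [h0, map_zero]))
    have hφy : ∀ j, φ (y j) ≠ 0 := by
      intro j h0
      exact hB.hy j (hinj (by rw [h0, map_zero]))
    have hnnTh : ∀ P : Place Λ F, ((∑ j, nn j * P.ord (φ (y j)) : ℤ) : ℝ) =
        c * Th (fun j => φ (y j)) cw P := by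
      intro P
      unfold Th
      push_cast
      rw [Finset.mul_sum]
      refine Finset.sum_congr rfl fun j _ => ?_
      rw [hnnr]
      ring
    refine pair_fibre_zeroG (k := k) (f := f) (S := S) (u0 := u0) (c := c)
      (a' := a') (nn := nn) (w := w) (t := t') (y := fun j => φ (y j))
      (x := fun i => φ (x i)) e' hΛF hφx ?_ hf0 ?_ hφy (hndf.gen F φ)
      (fun P => hndf.place Λ F φ P) hc hA2 hA3 (fun v hv _ => hF' v hv) ?_ hpos
      ?_ hwS ht' ?_ ?_ ?_ ?_ ?_
    · rw [eq_top_iff, ← hφgen, IntermediateField.adjoin_le_iff]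
      rintro _ ⟨z, rfl⟩
      have hz : z ∈ IntermediateField.adjoin k (Set.range x) := by
        rw [hgen]
        trivial
      have h1 : IntermediateField.adjoin k (Set.range x) ≤
          ((IntermediateField.adjoin Λ (Set.range fun i => φ (x i))).restrictScalars k).comap
            φ := by
        rw [IntermediateField.adjoin_le_iff]
        rintro _ ⟨i, rfl⟩
        exact IntermediateField.subset_adjoin Λ _ ⟨i, rfl⟩
      exact h1 hz
    · intro l
      rw [← map_ev, hf, map_zero]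
    · intro s
      rw [hS s]
      refine ⟨fun h => ⟨h.1, fun w' hw' => hw' s ((hS s).2 h), h.2⟩, fun h => ⟨h.1, h.2.2⟩⟩
    · intro j h0
      have h1 : t j = algebraMap k K 1 := by
        rw [hwt, h0, mono_zero, map_one]
      have h2 := htind.transcendental j
      rw [h1] at h2
      exact h2 (isAlgebraic_algebraMap 1)
    · intro j
      rw [htt', hwt, hmono]
    · intro w' hw'
      have h1 := htalg (mono x w') ⟨w', (hdirs w').2 hw', rfl⟩
      obtain ⟨a, ha⟩ := hcon _ h1
      exact ⟨a, by rw [ha, hmono]⟩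
    · intro P
      rcases hδ' P with ⟨v, e, he, hv, hδ⟩ | h0
      · rw [hδ]
        refine max_le zero_le_one ?_
        have h1 : (0 : ℝ) ≤ e * (1 - β v) :=
          mul_nonneg (Nat.cast_nonneg e) (sub_nonneg.2 (hβ1 v))
        linarith
      · rw [h0]
        exact zero_le_one
    · intro P hP
      rw [hnnTh]
      exact mul_le_mul_of_nonneg_left ((u5_bound hB φ P (hδ' P)).1 hP) hcr.le
    · intro P hP
      have hP0 : vec P (fun i => φ (x i)) ≠ 0 := ((hS _).1 hP).1
      have h1 := mul_le_mul_of_nonneg_left ((u5_bound hB φ P (hδ' P)).2 hP0) hcr.le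
      have h2 : ((c - a' (vec P fun i => φ (x i)) + ∑ j, nn j * P.ord (φ (y j)) : ℤ) : ℝ) =
          c * (1 - ((A (vec P fun i => φ (x i)) + Ψ (vec P fun i => φ (x i)) : ℚ) : ℝ) +
            Th (fun j => φ (y j)) cw P) := by
        rw [Int.cast_add, Int.cast_sub, hnnTh, har]
        ring
      exact h1.trans h2.symm.le
  · -- the top dimension
    exact pair_top hess htr hG hβ1

end

end Pool.Agent.R885.N
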