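import Pool.Agent.R885.U0
import Pool.Agent.R885.U3
import Pool.Agent.R885.U11
import Pool.Agent.R885.U11b
import Pool.Agent.R885.T10

/-!
Pairs with arbitrary weights at infinity: the polytope for `t < 1` is not empty.
-/

set_option autoImplicit false
set_option linter.overlappingInstances false
set_option linter.unusedSectionVars false

open FF IntermediateField Pool.Agent.W603.LV Pool.Agent.W619.PQ
  Pool.Agent.W619.TW Pool.Agent.Y174

namespace Pool.Agent.R885.N

section WS

variable {k K : Type} [Field k] [CharZero k] [Field K] [Algebra k K] {n : ℕ}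
  {β : Place k K → ℝ} {r q : ℕ} {J' : Type} [Fintype J'] {x : Fin r → K}
  {f : Fin q → (Fin r → ℤ) →₀ k} {y : J' → K} {cw : J' → ℚ} {A Ψ : (Fin r → ℤ) → ℚ}

/-- U6 -/
theorem WSys.neg [IsAlgClosed k] (hn : 1 ≤ n) (htr : Algebra.trdeg k K = (n : ℕ))
    (hB : WSys n β x f y cw A Ψ) {τ : ℚ} (hτ0 : 0 < τ) (hτ1 : τ < 1)
    (hF : (FineG (fun v => τ * A v) Ψ f).Nonempty) {d : ℕ} (hdn : d < n)
    (hd : Algebra.trdeg k (IntermediateField.adjoin k
      {z : K | ∃ w ∈ dirsG (fun v => τ * A v) Ψ f, z = mono x w}) = (d : ℕ)) :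
    NegB k K n β := by
  classical
  intro T
  have hr := hB.hr
  have hx := hB.hx
  have hgen := hB.hgen
  have hf := hB.hf
  have hy := hB.hy
  have hndf := hB.hnd
  obtain ⟨D, hD, hAD⟩ := hB.AD
  have hini : ∀ g : (Fin r → ℤ) →₀ k, ini 0 g = g := by
    intro g
    by_cases hg : g = 0
    · rw [hg]
      unfold ini
      rw [Finsupp.filter_zero]
    · exact ini_zero hg
  have hf0 : ∀ l, f l ≠ 0 := by
    have h1 := hndf.self fun l => by rw [hini]; exact hf l
    intro l h0
    have h2 := h1.ne_zero l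
    apply h2
    rw [hini, h0]
    funext i
    unfold gr
    exact Finsupp.sum_zero_index
  obtain ⟨u0, c, a, nn, S, B, hc, hB0, ha, hnnq, hF', hS, hpos, hgr, hdirs⟩ :=
    exists_tightG (A := fun v => τ * A v) hf0 (fun v hv => mul_pos hτ0 (hB.A0 v hv))
      (fun v => by
        have h1 := hB.A1 v
        by_cases h2 : 0 ≤ A v
        · nlinarith
        · push Not at h2
          nlinarith [mul_pos hτ0 (neg_pos.2 h2)])
      ⟨τ.den * D, Nat.mul_pos τ.den_pos hD, fun v => by
        obtain ⟨z, hz⟩ := hAD v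
        refine ⟨τ.num * z, ?_⟩
        push_cast
        rw [← hz, ← Rat.mul_den_eq_num τ]
        ring⟩ hB.P0 cw hF
  have hcq : (0 : ℚ) < c := by exact_mod_cast hc
  have hcr : (0 : ℝ) < c := by exact_mod_cast hc
  have haq : ∀ v, (a v : ℚ) = c * (τ * A v + Ψ v) := ha
  have ha2 : ∀ v w, v ≠ 0 → w ≠ 0 → v + w ≠ 0 → a v + a w - c ≤ a (v + w) := by
    intro v w hv hw hvw
    have h1 : (a v : ℚ) + a w - c ≤ a (v + w) := by
      rw [haq, haq, haq]
      have h2 := hB.AP v w hv hw hvw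
      have h3 := hB.P0.superadd v w
      have h4 : τ * A v + Ψ v + (τ * A w + Ψ w) - 1 ≤ τ * A (v + w) + Ψ (v + w) := by
        have h5 := mul_le_mul_of_nonneg_left h2 hτ0.le
        have h6 := mul_le_mul_of_nonneg_left h3 (sub_nonneg.2 hτ1.le)
        nlinarith
      have h7 := mul_le_mul_of_nonneg_left h4 hcq.le
      nlinarith
    exact_mod_cast h1
  have ha3 : ∀ (g : ℤ) v, 0 < g → v ≠ 0 → a (g • v) ≤ g * a v := by
    intro g v hg hv
    have h1 : (a (g • v) : ℚ) ≤ g * a v := by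
      rw [haq, haq]
      have h2 := hB.A3 g v hg hv
      have h3 := hB.P0.zsmul hg.le v
      have h4 : τ * A (g • v) + Ψ (g • v) ≤ g * (τ * A v + Ψ v) := by
        rw [h3]
        have h5 := mul_le_mul_of_nonneg_left h2 hτ0.le
        nlinarith
      have h6 := mul_le_mul_of_nonneg_left h4 hcq.le
      nlinarith
    exact_mod_cast h1
  obtain ⟨t, htG, htind, htalg⟩ := exists_mono_basis hd
  choose w hw hwt using htG
  have hwS : ∀ j, ∀ s ∈ S, w j ⬝ᵥ s = 0 := fun j => (hdirs (w j)).1 (hw j)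
  have hess : Algebra.EssFiniteType k K := by
    rw [← IntermediateField.fg_top_iff, ← hgen]
    exact ⟨Finset.univ.image x, by rw [Finset.coe_image, Finset.coe_univ, Set.image_univ]⟩
  have hSs : ∀ s, s ∈ S ↔ s ≠ 0 ∧ InSpan S s ∧ u0 ⬝ᵥ s = a s + c * ∑ l, mn s (f l) := by
    intro s
    constructor
    · intro hs
      exact ⟨((hS s).1 hs).1, fun w' hw' => hw' s hs, ((hS s).1 hs).2⟩
    · rintro ⟨h1, -, h2⟩
      exact (hS s).2 ⟨h1, h2⟩
  obtain ⟨m, rfl⟩ : ∃ m, n = d + (m + 1) := ⟨n - d - 1, by omega⟩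
  refine pairNeg_gen hess htind htr ?_ T
  intro Λ F _ _ _ _ _ _ _ φ hφgen hΛF t' ht' htt' hcon δ' hδ' T'
  have hinj : Function.Injective φ := (φ : K →+* F).injective
  have e' : (Fin q ⊕ Fin d) ⊕ Fin (m + 1) ≃ Fin r := Fintype.equivOfCardEq (by
    simp only [Fintype.card_sum, Fintype.card_fin]
    omega)
  have hmono : ∀ w' : Fin r → ℤ, φ (mono x w') = mono (fun i => φ (x i)) w' := fun w' =>
    map_mono (φ : K →+* F) x w'
  have hxφ : ∀ i, φ (x i) ≠ 0 := fun i h0 => hx i (hinj (by rw [h0, map_zero]))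
  have hyφ : ∀ j, φ (y j) ≠ 0 := fun j h0 => hy j (hinj (by rw [h0, map_zero]))
  -- places under the places of the fibre
  have hvecφ : ∀ (P : Place Λ F) (v : Place k K) (e : ℕ), (∀ z, P.ord (φ z) = e * v.ord z) →
      vec P (fun i => φ (x i)) = (e : ℤ) • vec v x := by
    intro P v e hv
    funext i
    exact hv (x i)
  have hThφ : ∀ (P : Place Λ F) (v : Place k K) (e : ℕ), (∀ z, P.ord (φ z) = e * v.ord z) →
      ((∑ j, nn j * P.ord (φ (y j)) : ℤ) : ℝ) = e * (c * Th y cw v) := by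
    intro P v e hv
    unfold Th
    push_cast
    rw [Finset.mul_sum, Finset.mul_sum]
    refine Finset.sum_congr rfl fun j _ => ?_
    have h4 : (nn j : ℝ) = c * ((cw j : ℚ) : ℝ) := by exact_mod_cast hnnq j
    rw [hv, h4]
    push_cast
    ring
  -- the bound below for the places over places
  have hDr : (0 : ℝ) < D := by exact_mod_cast hD
  have hτr0 : (0 : ℝ) < ((τ : ℚ) : ℝ) := by exact_mod_cast hτ0
  have hτr1 : ((τ : ℚ) : ℝ) < 1 := by exact_mod_cast hτ1
  have hAge : ∀ v, v ≠ 0 → (1 : ℝ) / D ≤ ((A v : ℚ) : ℝ) := by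
    intro v hv
    obtain ⟨z, hz⟩ := hAD v
    have h1 : (0 : ℚ) < z := by
      rw [← hz]
      exact mul_pos (by exact_mod_cast hD) (hB.A0 v hv)
    have h2 : (1 : ℤ) ≤ z := by
      have : (0 : ℤ) < z := by exact_mod_cast h1
      omega
    rw [div_le_iff₀ hDr]
    have h3 : ((D : ℚ) * A v) = z := hz
    have h4 : (D : ℝ) * ((A v : ℚ) : ℝ) = z := by exact_mod_cast h3
    have h5 : (1 : ℝ) ≤ z := by exact_mod_cast h2
    linarith
  have hεc : (c : ℝ) * (1 - ((τ : ℚ) : ℝ)) / D ≤ c * (1 - ((τ : ℚ) : ℝ)) := by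
    rw [div_le_iff₀ hDr]
    have h1 : (0 : ℝ) ≤ c * (1 - ((τ : ℚ) : ℝ)) := mul_nonneg hcr.le (by linarith)
    have h2 : (1 : ℝ) ≤ D := by exact_mod_cast hD
    nlinarith
  have har : ∀ v, (a v : ℝ) = c * (((τ : ℚ) : ℝ) * ((A v : ℚ) : ℝ) + ((Ψ v : ℚ) : ℝ)) := by
    intro v
    exact_mod_cast haq v
  have hA1r : ∀ v, ((A v : ℚ) : ℝ) ≤ 1 := fun v => by exact_mod_cast hB.A1 v
  -- zero multiplicity
  have hzero : ∀ (P : Place Λ F) (v : Place k K) (e : ℕ), 0 < e →
      (∀ z, P.ord (φ z) = e * v.ord z) → vec P (fun i => φ (x i)) ≠ 0 →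
      (c : ℝ) * (1 - ((τ : ℚ) : ℝ)) / D ≤
        ((c - a (vec P fun i => φ (x i)) + ∑ j, nn j * P.ord (φ (y j)) : ℤ) : ℝ) := by
    intro P v e he hv hP
    have he1 : (1 : ℝ) ≤ e := by exact_mod_cast he
    have hPv := hvecφ P v e hv
    have hvv : vec v x ≠ 0 := by
      intro h1
      rw [h1, smul_zero] at hPv
      exact hP hPv
    have hT := hB.th1 v hvv
    have h1 := hThφ P v e hv
    have hΨ : ((Ψ (vec P fun i => φ (x i)) : ℚ) : ℝ) = e * ((Ψ (vec v x) : ℚ) : ℝ) := by
      rw [hPv]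
      have h2 := hB.P0.zsmul (g := (e : ℤ)) (by positivity) (vec v x)
      exact_mod_cast h2
    have h3 : ((c - a (vec P fun i => φ (x i)) + ∑ j, nn j * P.ord (φ (y j)) : ℤ) : ℝ) =
        c - (a (vec P fun i => φ (x i)) : ℝ) + ((∑ j, nn j * P.ord (φ (y j)) : ℤ) : ℝ) := by
      push_cast
      ring
    rw [h3, h1, har, hΨ]
    have h4 : (e : ℝ) * ((Ψ (vec v x) : ℚ) : ℝ) ≤ e * Th y cw v :=
      mul_le_mul_of_nonneg_left hT (by linarith)
    have h5 := mul_le_mul_of_nonneg_left h4 hcr.le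
    have h6 := mul_le_mul_of_nonneg_left (hA1r (vec P fun i => φ (x i)))
      (mul_nonneg hcr.le hτr0.le)
    nlinarith
  refine pair_fibre_negG (k := k) (f := f) (y := fun j => φ (y j)) (S := S) (u0 := u0) (c := c)
    (a' := a) (nn := nn) (w := w) (t := t')
    (x := fun i => φ (x i)) e' hΛF hxφ ?_ hf0 ?_ hyφ (hndf.gen F φ)
      (fun P => hndf.place Λ F φ P) hc ha2 ha3 (fun v hv _ => hF' v hv) hSs hpos
    ?_ hwS ht' ?_ ?_ ?_ ?_ (ε := c * (1 - τ) / D) ?_ ?_ T'
  · rw [eq_top_iff, ← hφgen, IntermediateField.adjoin_le_iff]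
    rintro _ ⟨z, rfl⟩
    have hz : z ∈ IntermediateField.adjoin k (Set.range x) := by
      rw [hgen]
      trivial
    have h1 : IntermediateField.adjoin k (Set.range x) ≤
        ((IntermediateField.adjoin Λ (Set.range fun i => φ (x i))).restrictScalars k).comap
          φ := by
      rw [IntermediateField.adjoin_le_iff]
      rintro _ ⟨i, rfl⟩
      exact IntermediateField.subset_adjoin Λ _ ⟨i, rfl⟩
    exact h1 hz
  · intro l
    rw [← map_ev, hf, map_zero]
  · intro j h0
    have h1 : t j = algebraMap k K 1 := by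
      rw [hwt, h0, mono_zero, map_one]
    have h2 := htind.transcendental j
    rw [h1] at h2
    exact h2 (isAlgebraic_algebraMap 1)
  · intro j
    rw [htt', hwt, hmono]
  · intro w' hw'
    have h1 := htalg (mono x w') ⟨w', (hdirs w').2 hw', rfl⟩
    obtain ⟨a, ha⟩ := hcon _ h1
    exact ⟨a, by rw [ha, hmono]⟩
  · -- the multiplicities are at most one
    intro P
    rcases hδ' P with ⟨v, e, he, hv, hδ⟩ | h0
    · rw [hδ]
      have h1 : (1 : ℝ) ≤ e := by exact_mod_cast he
      have h2 := hB.le1 v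
      refine max_le zero_le_one ?_
      nlinarith
    · rw [h0]
      exact zero_le_one
  · -- the places with the vector zero
    intro P hP
    have hz0 : ∀ (v : Place k K) (e : ℕ), 0 < e → (∀ z, P.ord (φ z) = e * v.ord z) →
        vec v x = 0 := by
      intro v e he hv
      have he' : ((e : ℕ) : ℤ) ≠ 0 := by omega
      rw [hvecφ P v e hv] at hP
      exact (smul_eq_zero.1 hP).resolve_left he'
    have hsum0 : (0 : ℝ) ≤ ((∑ j, nn j * P.ord (φ (y j)) : ℤ) : ℝ) := by
      rcases restr_place φ P with h0 | ⟨v, e, he, hv⟩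
      · have h1 : ∑ j, nn j * P.ord (φ (y j)) = 0 :=
          Finset.sum_eq_zero fun j _ => by rw [h0, mul_zero]
        rw [h1, Int.cast_zero]
      · rw [hThφ P v e hv]
        have h1 := hB.th0 v (hz0 v e he hv)
        positivity
    rcases hδ' P with ⟨v, e, he, hv, hδ⟩ | h0
    · have hvv := hz0 v e he hv
      have h1 : (1 : ℝ) ≤ e := by exact_mod_cast he
      rw [hδ, mul_max_of_nonneg _ _ hcr.le, mul_zero]
      refine max_le hsum0 ?_
      have h2 := mul_le_mul_of_nonneg_left (hB.up0 v hvv) hcr.le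
      rw [hThφ P v e hv]
      have h5 : (c : ℝ) * (1 - e * (1 - β v)) ≤ e * (c * β v) := by
        nlinarith
      exact h5.trans (mul_le_mul_of_nonneg_left h2 (by linarith))
    · rw [h0, mul_zero]
      exact hsum0
  · have h1 : (0 : ℝ) < 1 - τ := by linarith
    exact div_pos (mul_pos hcr h1) hDr
  · intro P hPS
    have hP : vec P (fun i => φ (x i)) ≠ 0 := ((hS _).1 hPS).1
    rcases hδ' P with ⟨v, e, he, hv, hδ⟩ | h0
    · rw [hδ, mul_max_of_nonneg _ _ hcr.le, mul_zero, max_add, zero_add]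
      refine max_le (hzero P v e he hv hP) ?_
      have he1 : (1 : ℝ) ≤ e := by exact_mod_cast he
      have hPv := hvecφ P v e hv
      have hvv : vec v x ≠ 0 := by
        intro h1
        rw [h1, smul_zero] at hPv
        exact hP hPv
      have hup := hB.up1 v hvv
      have h1 := hThφ P v e hv
      have hΨ : ((Ψ (vec P fun i => φ (x i)) : ℚ) : ℝ) = e * ((Ψ (vec v x) : ℚ) : ℝ) := by
        rw [hPv]
        have h2 := hB.P0.zsmul (g := (e : ℤ)) (by positivity) (vec v x)
        exact_mod_cast h2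
      have hA : ((A (vec P fun i => φ (x i)) : ℚ) : ℝ) ≤ e * ((A (vec v x) : ℚ) : ℝ) := by
        rw [hPv]
        have h2 := hB.A3 (e : ℤ) (vec v x) (by exact_mod_cast he) hvv
        exact_mod_cast h2
      have h3 : ((c - a (vec P fun i => φ (x i)) + ∑ j, nn j * P.ord (φ (y j)) : ℤ) : ℝ) =
          c - (a (vec P fun i => φ (x i)) : ℝ) + ((∑ j, nn j * P.ord (φ (y j)) : ℤ) : ℝ) := by
        push_cast
        ring
      rw [h3, h1, har, hΨ]
      have hlow := hAge (vec v x) hvv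
      push_cast at hup
      -- the estimate without the factor `c`
      have key : 1 - (e : ℝ) * (1 - β v) + (1 - ((τ : ℚ) : ℝ)) / D ≤
          1 - (((τ : ℚ) : ℝ) * ((A (vec P fun i => φ (x i)) : ℚ) : ℝ) +
            e * ((Ψ (vec v x) : ℚ) : ℝ)) + e * Th y cw v := by
        have h5 : (e : ℝ) * β v ≤ e * (1 - (((A (vec v x) : ℚ) : ℝ) + ((Ψ (vec v x) : ℚ) : ℝ)) +
            Th y cw v) := mul_le_mul_of_nonneg_left hup (by linarith)
        have h6 := mul_le_mul_of_nonneg_left hA hτr0.le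
        have h7 : (1 - ((τ : ℚ) : ℝ)) * (1 / D) ≤
            (1 - ((τ : ℚ) : ℝ)) * (e * ((A (vec v x) : ℚ) : ℝ)) := by
          refine mul_le_mul_of_nonneg_left ?_ (by linarith)
          have h8 : (0 : ℝ) ≤ ((A (vec v x) : ℚ) : ℝ) := le_trans (by positivity) hlow
          nlinarith
        have h9 : (1 - ((τ : ℚ) : ℝ)) / D = (1 - ((τ : ℚ) : ℝ)) * (1 / D) := by
          rw [mul_one_div]
        rw [h9]
        nlinarith
      have h10 := mul_le_mul_of_nonneg_left key hcr.le
      have h11 : (c : ℝ) * (1 - ((τ : ℚ) : ℝ)) / D = c * ((1 - ((τ : ℚ) : ℝ)) / D) := by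
        rw [mul_div_assoc]
      rw [h11]
      nlinarith
    · rw [h0, mul_zero, zero_add]
      rcases restr_place φ P with h1 | ⟨v, e, he, hv⟩
      · exact absurd (funext fun i => h1 (x i)) hP
      · exact hzero P v e he hv hP

end WS

end Pool.Agent.R885.N
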