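import Pool.Agent.R885.U0
import Pool.Agent.R885.T11
import Pool.Agent.R885.U11

/-!
The largest parameter for which the polytope is not empty, with arbitrary weights.
-/

set_option autoImplicit false
set_option linter.overlappingInstances false
set_option linter.unusedSectionVars false

namespace Pool.Agent.R885.N

section

variable {r : ℕ} {J k : Type} [Fintype J] [Field k] {g : J → (Fin r → ℤ) →₀ k}

/-- **Decomposition**: every vector is a sum of minimal vectors of a cone of the fan. -/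
theorem u7_dec (hf0 : ∀ l, g l ≠ 0)
    (hU : ∀ v : Fin r → ℤ, (∀ l, ∀ m ∈ (g l).support, ∀ m' ∈ (g l).support,
      m ⬝ᵥ v = m' ⬝ᵥ v) → v = 0) :
    ∃ (C : Type) (_ : Fintype C) (M : C → Finset (Fin r → ℤ)), (∀ a, ∀ v ∈ M a, v ≠ 0) ∧
      ∀ v : Fin r → ℤ, v ≠ 0 → ∃ (a : C) (n : ℕ) (s : Fin n → Fin r → ℤ), 1 ≤ n ∧
        (∀ j, s j ∈ M a) ∧ ∑ j, s j = v ∧ ∀ l, mn v (g l) = ∑ j, mn (s j) (g l) := by
  classical
  let Ch := (l : J) → {m // m ∈ (g l).support}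
  let E := Σ l : J, {m // m ∈ (g l).support}
  let σ : Ch → Set (Fin r → ℤ) := fun a => {v | ∀ l, (a l : Fin r → ℤ) ⬝ᵥ v = mn v (g l)}
  let Φ : Ch → (Fin r → ℤ) → E → ℕ := fun a v e =>
    (((e.2 : Fin r → ℤ) - (a e.1 : Fin r → ℤ)) ⬝ᵥ v).toNat
  have hΦ : ∀ a v, v ∈ σ a → ∀ e, (Φ a v e : ℤ) =
      ((e.2 : Fin r → ℤ) - (a e.1 : Fin r → ℤ)) ⬝ᵥ v := by
    intro a v hv e
    refine Int.toNat_of_nonneg ?_
    rw [sub_dotProduct, hv e.1]
    exact sub_nonneg.2 (mn_le e.2.2)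
  have hinj : ∀ a, Set.InjOn (Φ a) (σ a) := by
    intro a v hv w hw hvw
    rw [← sub_eq_zero]
    refine hU _ fun l m hm m' hm' => ?_
    have key : ∀ m ∈ (g l).support, m ⬝ᵥ (v - w) = (a l : Fin r → ℤ) ⬝ᵥ (v - w) := by
      intro m hm
      have h1 := hΦ a v hv ⟨l, m, hm⟩
      have h2 := hΦ a w hw ⟨l, m, hm⟩
      rw [hvw, h2] at h1
      change (m - (a l : Fin r → ℤ)) ⬝ᵥ w = (m - (a l : Fin r → ℤ)) ⬝ᵥ v at h1
      rw [sub_dotProduct, sub_dotProduct] at h1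
      rw [dotProduct_sub, dotProduct_sub]
      omega
    rw [key m hm, key m' hm']
  have h0σ : ∀ a, (0 : Fin r → ℤ) ∈ σ a := by
    intro a l
    rw [dotProduct_zero, mn_zero (hf0 l)]
  have hsub : ∀ a v w, v ∈ σ a → w ∈ σ a → Φ a w ≤ Φ a v → v - w ∈ σ a := by
    intro a v w hv hw hle l
    apply le_antisymm
    · refine le_mn (hf0 l) fun m hm => ?_
      have h1 := hΦ a v hv ⟨l, m, hm⟩
      have h2 := hΦ a w hw ⟨l, m, hm⟩
      have h3 : (Φ a w ⟨l, m, hm⟩ : ℤ) ≤ Φ a v ⟨l, m, hm⟩ := by exact_mod_cast hle ⟨l, m, hm⟩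
      rw [h1, h2] at h3
      change (m - (a l : Fin r → ℤ)) ⬝ᵥ w ≤ (m - (a l : Fin r → ℤ)) ⬝ᵥ v at h3
      rw [sub_dotProduct, sub_dotProduct] at h3
      rw [dotProduct_sub, dotProduct_sub]
      omega
    · exact mn_le (a l).2
  let Mi : Ch → Set (Fin r → ℤ) := fun a => {v | v ∈ σ a ∧ v ≠ 0 ∧
    ∀ w ∈ σ a, w ≠ 0 → Φ a w ≤ Φ a v → Φ a w = Φ a v}
  have hMfin : ∀ a, (Mi a).Finite := by
    intro a
    refine Set.Finite.of_finite_image (f := Φ a) ?_ ((hinj a).mono fun v hv => hv.1)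
    refine WellQuasiOrderedLE.finite_of_isAntichain ?_
    rintro _ ⟨v, hv, rfl⟩ _ ⟨w, hw, rfl⟩ hne hle
    exact hne (hw.2.2 v hv.1 hv.2.1 hle)
  refine ⟨Ch, inferInstance, fun a => (hMfin a).toFinset, fun a v hv => ?_, fun v hv => ?_⟩
  · rw [Set.Finite.mem_toFinset] at hv
    exact hv.2.1
  simp only [Set.Finite.mem_toFinset]
  choose m hm hm' using fun l => exists_mn (hf0 l) v
  obtain ⟨a, had⟩ : ∃ a : Ch, a = fun l => ⟨m l, hm l⟩ := ⟨_, rfl⟩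
  refine ⟨a, ?_⟩
  have hva : v ∈ σ a := by
    intro l
    rw [had]
    exact hm' l
  clear hm hm' had m
  obtain ⟨N, hN⟩ : ∃ N, ∑ e, Φ a v e ≤ N := ⟨_, le_rfl⟩
  induction N generalizing v with
  | zero =>
    exfalso
    apply hv
    refine hinj a hva (h0σ a) ?_
    funext e
    have h1 : Φ a v e = 0 := by
      have h2 := (Finset.sum_eq_zero_iff (s := Finset.univ) (f := fun e => Φ a v e)).1
        (Nat.le_zero.1 hN) e (Finset.mem_univ e)
      exact h2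
    rw [h1]
    change 0 = (((e.2 : Fin r → ℤ) - (a e.1 : Fin r → ℤ)) ⬝ᵥ (0 : Fin r → ℤ)).toNat
    rw [dotProduct_zero, Int.toNat_zero]
  | succ N ih =>
    -- a minimal vector below `v`
    obtain ⟨w, hwa, hw0, hwv, hwmin⟩ : ∃ w ∈ σ a, w ≠ 0 ∧ Φ a w ≤ Φ a v ∧
        ∀ w' ∈ σ a, w' ≠ 0 → Φ a w' ≤ Φ a v → ∑ e, Φ a w e ≤ ∑ e, Φ a w' e := by
      have h1 : ∃ s, ∃ w ∈ σ a, w ≠ 0 ∧ Φ a w ≤ Φ a v ∧ ∑ e, Φ a w e = s :=
        ⟨_, v, hva, hv, le_rfl, rfl⟩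
      obtain ⟨w, hw1, hw2, hw3, hw4⟩ := Nat.find_spec h1
      refine ⟨w, hw1, hw2, hw3, fun w' h5 h6 h7 => ?_⟩
      rw [hw4]
      exact Nat.find_min' h1 ⟨w', h5, h6, h7, rfl⟩
    have hwM : w ∈ Mi a := by
      refine ⟨hwa, hw0, fun w' h1 h2 h3 => ?_⟩
      have h4 := hwmin w' h1 h2 (h3.trans hwv)
      by_contra hne
      obtain ⟨e, he⟩ : ∃ e, Φ a w' e < Φ a w e := by
        by_contra hcon
        push Not at hcon
        exact hne (le_antisymm h3 hcon)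
      have h5 := Finset.sum_lt_sum (s := Finset.univ) (fun e _ => h3 e) ⟨e, Finset.mem_univ e, he⟩
      omega
    by_cases hvw : v = w
    · refine ⟨1, fun _ => v, le_rfl, fun _ => ?_, ?_, fun l => ?_⟩
      · rw [hvw]
        exact hwM
      · rw [Fin.sum_univ_one]
      · rw [Fin.sum_univ_one]
    have hd : v - w ∈ σ a := hsub a v w hva hwa hwv
    have hd0 : v - w ≠ 0 := sub_ne_zero.2 hvw
    have hsum : ∀ e, Φ a (v - w) e + Φ a w e = Φ a v e := by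
      intro e
      have h1 := hΦ a v hva e
      have h2 := hΦ a w hwa e
      have h3 := hΦ a (v - w) hd e
      rw [dotProduct_sub, ← h1, ← h2] at h3
      omega
    have hwpos : 0 < ∑ e, Φ a w e := by
      rw [pos_iff_ne_zero]
      intro h1
      apply hw0
      refine hinj a hwa (h0σ a) ?_
      funext e
      have h2 := (Finset.sum_eq_zero_iff (s := Finset.univ) (f := fun e => Φ a w e)).1 h1 e
        (Finset.mem_univ e)
      rw [h2]
      change 0 = (((e.2 : Fin r → ℤ) - (a e.1 : Fin r → ℤ)) ⬝ᵥ (0 : Fin r → ℤ)).toNat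
      rw [dotProduct_zero, Int.toNat_zero]
    obtain ⟨n, s, hn, hs, hsv, hsl⟩ := ih (v - w) hd0 hd (by
      have h2 : ∑ e, Φ a (v - w) e + ∑ e, Φ a w e = ∑ e, Φ a v e := by
        rw [← Finset.sum_add_distrib]
        exact Finset.sum_congr rfl fun e _ => hsum e
      omega)
    have h3 : ∀ l, mn v (g l) = mn w (g l) + mn (v - w) (g l) := by
      intro l
      rw [← hva l, ← hd l, ← hwa l, dotProduct_sub]
      ring
    refine ⟨n + 1, Fin.cons w s, by omega, fun j => ?_, ?_, fun l => ?_⟩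
    · refine Fin.cases ?_ (fun j => ?_) j
      · rw [Fin.cons_zero]
        exact hwM
      · rw [Fin.cons_succ]
        exact hs j
    · rw [Fin.sum_univ_succ, Fin.cons_zero]
      simp only [Fin.cons_succ]
      rw [hsv, add_sub_cancel]
    · rw [Fin.sum_univ_succ, Fin.cons_zero, h3, hsl]
      simp only [Fin.cons_succ]

theorem u7_dq_zero (u : Fin r → ℚ) : dq u (0 : Fin r → ℤ) = 0 := by
  simp [dq]

theorem u7_dq_sum {ι : Type} (T : Finset ι) (u : Fin r → ℚ) (s : ι → Fin r → ℤ) :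
    dq u (∑ a ∈ T, s a) = ∑ a ∈ T, dq u (s a) := by
  classical
  induction T using Finset.induction_on with
  | empty => rw [Finset.sum_empty, Finset.sum_empty, u7_dq_zero]
  | insert a T ha ih => rw [Finset.sum_insert ha, Finset.sum_insert ha, dq_add', ih]

/-- **Finitely many vectors suffice** (with arbitrary weights `A`). -/
theorem u7_fin_red (hf0 : ∀ l, g l ≠ 0) (wt : J → ℚ)
    (hU : ∀ v : Fin r → ℤ, (∀ l, ∀ m ∈ (g l).support, ∀ m' ∈ (g l).support,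
      m ⬝ᵥ v = m' ⬝ᵥ v) → v = 0) {A : (Fin r → ℤ) → ℚ} {D : ℕ} (hD : 1 ≤ D)
    (hA0 : ∀ v, v ≠ 0 → 1 ≤ (D : ℚ) * A v) (hA1 : ∀ v, A v ≤ 1) :
    ∃ V0 : Finset (Fin r → ℤ), (∀ v ∈ V0, v ≠ 0) ∧ ∀ (u : Fin r → ℚ) (t : ℚ), 0 ≤ t →
      (∀ v ∈ V0, t * A v + ∑ l, wt l * (mn v (g l) : ℚ) ≤ dq u v) →
      ∀ v, v ≠ 0 → t * A v + ∑ l, wt l * (mn v (g l) : ℚ) ≤ dq u v := by
  classical
  obtain ⟨C, _, M, hM0, hM⟩ := u7_dec hf0 hU
  refine ⟨(Finset.univ.biUnion fun a : C => (Finset.range (D + 1)).biUnion fun n =>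
    (Fintype.piFinset fun _ : Fin n => M a).image fun s => ∑ j, s j).filter (· ≠ 0),
    fun v hv => (Finset.mem_filter.1 hv).2, fun u t ht hV v hv => ?_⟩
  obtain ⟨a, n, s, hn, hs, hsv, hsl⟩ := hM v hv
  have hmem : ∀ (n : ℕ) (s : Fin n → Fin r → ℤ), n ≤ D → (∀ j, s j ∈ M a) → ∑ j, s j ≠ 0 →
      t * A (∑ j, s j) + ∑ l, wt l * (mn (∑ j, s j) (g l) : ℚ) ≤ dq u (∑ j, s j) := by
    intro n s hn hs h0
    refine hV _ (Finset.mem_filter.2 ⟨?_, h0⟩)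
    rw [Finset.mem_biUnion]
    refine ⟨a, Finset.mem_univ a, ?_⟩
    rw [Finset.mem_biUnion]
    refine ⟨n, Finset.mem_range.2 (by omega), ?_⟩
    rw [Finset.mem_image]
    exact ⟨s, Fintype.mem_piFinset.2 hs, rfl⟩
  rcases le_or_gt n D with h1 | h1
  · have h2 := hmem n s h1 hs (by rw [hsv]; exact hv)
    rwa [hsv] at h2
  · -- many minimal vectors
    have h2 : ∀ j, t * A (s j) + ∑ l, wt l * (mn (s j) (g l) : ℚ) ≤ dq u (s j) := by
      intro j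
      have h3 := hmem 1 (fun _ => s j) hD (fun _ => hs j) (by
        rw [Fin.sum_univ_one]
        exact hM0 a _ (hs j))
      rwa [Fin.sum_univ_one] at h3
    have h3 : ∑ l, wt l * (mn v (g l) : ℚ) = ∑ j, ∑ l, wt l * (mn (s j) (g l) : ℚ) := by
      rw [Finset.sum_comm]
      refine Finset.sum_congr rfl fun l _ => ?_
      rw [hsl, ← Finset.mul_sum]
      push_cast
      rfl
    have h4 : dq u v = ∑ j, dq u (s j) := by
      rw [← hsv, u7_dq_sum]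
    have h5 : t ≤ ∑ j, t * A (s j) := by
      have hD' : (0 : ℚ) < D := by exact_mod_cast hD
      have h6 : ∀ j, t / D ≤ t * A (s j) := by
        intro j
        rw [div_le_iff₀ hD']
        have := hA0 (s j) (hM0 a _ (hs j))
        nlinarith
      have h7 := Finset.sum_le_sum fun j (_ : j ∈ (Finset.univ : Finset (Fin n))) => h6 j
      rw [Finset.sum_const, Finset.card_univ, Fintype.card_fin, nsmul_eq_mul] at h7
      refine le_trans ?_ h7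
      rw [← mul_div_assoc, le_div_iff₀ hD']
      have h8 : (D : ℚ) ≤ n := by exact_mod_cast h1.le
      nlinarith
    have h6 : t * A v ≤ t := by
      have := hA1 v
      nlinarith
    have h7 := Finset.sum_le_sum fun j (_ : j ∈ (Finset.univ : Finset (Fin n))) => h2 j
    rw [Finset.sum_add_distrib] at h7
    rw [h3, h4]
    linarith

end

/-- the largest parameter `≤ 1` (with weights) -/
theorem u7_tmax {r : ℕ} (V0 : Finset (Fin r → ℤ)) (A φ : (Fin r → ℤ) → ℚ) {t0 : ℚ}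
    (h0 : ∃ u : Fin r → ℚ, ∀ v ∈ V0, t0 * A v + φ v ≤ dq u v) (h1 : t0 ≤ 1) :
    ∃ t, t0 ≤ t ∧ t ≤ 1 ∧ (∃ u : Fin r → ℚ, ∀ v ∈ V0, t * A v + φ v ≤ dq u v) ∧
      (t < 1 → ∀ t', t < t' → ¬ ∃ u : Fin r → ℚ, ∀ v ∈ V0, t' * A v + φ v ≤ dq u v) := by
  classical
  obtain ⟨ι', hι', b', c', h⟩ := fm r V0 (fun v i => ((v : Fin r → ℤ) i : ℚ)) (fun v => A v)
    (fun v => φ v)
  have h' : ∀ t : ℚ, (∃ u : Fin r → ℚ, ∀ v ∈ V0, t * A v + φ v ≤ dq u v) ↔
      ∀ i, b' i * t + c' i ≤ 0 := by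
    intro t
    rw [← h t]
    refine exists_congr fun u => ?_
    constructor
    · rintro h2 ⟨v, hv⟩
      have := h2 v hv
      unfold dq at this
      rw [mul_comm] at this
      exact this
    · intro h2 v hv
      have := h2 ⟨v, hv⟩
      unfold dq
      rw [mul_comm]
      exact this
  rw [h'] at h0
  simp only [h']
  by_cases hall : ∀ i, b' i * 1 + c' i ≤ 0
  · exact ⟨1, h1, le_rfl, hall, fun h2 => absurd h2 (lt_irrefl _)⟩
  push Not at hall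
  obtain ⟨i1, hi1⟩ := hall
  have hb1 : 0 < b' i1 := by
    by_contra hcon
    push Not at hcon
    have := h0 i1
    nlinarith
  have hne : Nonempty {i // 0 < b' i} := ⟨⟨i1, hb1⟩⟩
  obtain ⟨i0, hi0⟩ := Finite.exists_min fun i : {i // 0 < b' i} => -c' i / b' i
  have ht0 : t0 ≤ -c' i0 / b' i0 := by
    rw [le_div_iff₀ i0.2]
    have := h0 i0
    linarith
  refine ⟨-c' i0 / b' i0, ht0, ?_, ?_, ?_⟩
  · refine (hi0 ⟨i1, hb1⟩).trans ?_
    change -c' i1 / b' i1 ≤ 1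
    rw [div_le_one hb1]
    linarith
  · intro i
    rcases le_or_gt (b' i) 0 with h2 | h2
    · have := h0 i
      nlinarith
    · have h3 := hi0 ⟨i, h2⟩
      change -c' i0 / b' i0 ≤ -c' i / b' i at h3
      rw [le_div_iff₀ h2] at h3
      linarith
  · intro _ t' ht' hcon
    have h2 := hcon i0
    rw [div_lt_iff₀ i0.2] at ht'
    linarith

/-- U7: the largest parameter -/
theorem exists_bestG {r : ℕ} {J k : Type} [Fintype J] [Field k] {f : J → (Fin r → ℤ) →₀ k}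
    (hf0 : ∀ l, f l ≠ 0) {A Ψ : (Fin r → ℤ) → ℚ}
    (A0 : ∀ v, v ≠ 0 → 0 < A v) (A1 : ∀ v, A v ≤ 1)
    (AD : ∃ D : ℕ, 1 ≤ D ∧ ∀ v, ∃ z : ℤ, (D : ℚ) * A v = z) (P0 : PLin Ψ)
    (hU : ∀ v : Fin r → ℤ, (∀ l, ∀ m ∈ (f l).support, ∀ m' ∈ (f l).support,
      m ⬝ᵥ v = m' ⬝ᵥ v) → Ψ v + Ψ (-v) = 0 → v = 0) :
    ∃ t : ℚ, 0 < t ∧ t ≤ 1 ∧ (FineG (fun v => t * A v) Ψ f).Nonempty ∧
      (t < 1 → ∀ t', t < t' → ¬ (FineG (fun v => t' * A v) Ψ f).Nonempty) := by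
  classical
  obtain ⟨D, hD, hDA⟩ := AD
  obtain ⟨ω, H, hω, hH0, hH⟩ := P0.ex_mn k
  obtain ⟨g, hg⟩ : ∃ g : J ⊕ Unit → (Fin r → ℤ) →₀ k, g = Sum.elim f fun _ => H := ⟨_, rfl⟩
  obtain ⟨wt, hwt⟩ : ∃ wt : J ⊕ Unit → ℚ, wt = Sum.elim (fun _ => 1) fun _ => ω := ⟨_, rfl⟩
  have hg0 : ∀ l, g l ≠ 0 := by
    rintro (l | l)
    · rw [hg]
      exact hf0 l
    · rw [hg]
      exact hH0
  have hwt0 : ∀ l, 0 < wt l := by
    rintro (l | l)
    · rw [hwt]
      exact one_pos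
    · rw [hwt]
      exact hω
  have hsum : ∀ v, ∑ l, wt l * (mn v (g l) : ℚ) = Ψ v + ∑ l, (mn v (f l) : ℚ) := by
    intro v
    rw [Fintype.sum_sum_type, hg, hwt, hH v]
    simp only [Sum.elim_inl, Sum.elim_inr, one_mul]
    have h1 : ∑ _l : Unit, ω * (mn v H : ℚ) = ω * (mn v H : ℚ) := by simp
    rw [h1, add_comm]
  have hgU : ∀ v : Fin r → ℤ, (∀ l, ∀ m ∈ (g l).support, ∀ m' ∈ (g l).support,
      m ⬝ᵥ v = m' ⬝ᵥ v) → v = 0 := by
    intro v hv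
    refine hU v (fun l m hm m' hm' => hv (Sum.inl l) m (by rw [hg]; exact hm) m'
      (by rw [hg]; exact hm')) ?_
    have h1 : ∀ m ∈ H.support, ∀ m' ∈ H.support, m ⬝ᵥ v = m' ⬝ᵥ v := fun m hm m' hm' =>
      hv (Sum.inr ()) m (by rw [hg]; exact hm) m' (by rw [hg]; exact hm')
    obtain ⟨m1, hm1, e1⟩ := exists_mn hH0 v
    obtain ⟨m2, hm2, e2⟩ := exists_mn hH0 (-v)
    rw [hH v, hH (-v), ← e1, ← e2, dotProduct_neg, h1 m2 hm2 m1 hm1]
    push_cast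
    ring
  have hA0 : ∀ v, v ≠ 0 → 1 ≤ (D : ℚ) * A v := by
    intro v hv
    obtain ⟨z, hz⟩ := hDA v
    have hD' : (0 : ℚ) < D := by exact_mod_cast hD
    have h1 : 0 < (D : ℚ) * A v := mul_pos hD' (A0 v hv)
    rw [hz] at h1 ⊢
    have h2 : 0 < z := by exact_mod_cast h1
    have h3 : 1 ≤ z := h2
    exact_mod_cast h3
  obtain ⟨V0, hV0, hred⟩ := u7_fin_red hg0 wt hgU hD hA0 A1
  obtain ⟨t0, h0, h1, u, hu⟩ := t11_exists_small hg0 hwt0 hgU
  obtain ⟨t, ht0, ht1, ⟨u', hu'⟩, hmax⟩ := u7_tmax V0 A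
    (fun v => ∑ l, wt l * (mn v (g l) : ℚ)) (t0 := t0) ⟨u, fun v hv => by
      have h2 := hu v (hV0 v hv)
      have h3 := A1 v
      nlinarith⟩ h1
  have ht : 0 < t := h0.trans_le ht0
  refine ⟨t, ht, ht1, ⟨u', fun v hv => ?_⟩, fun ht t' htt' => ?_⟩
  · have h2 := hred u' t ht.le hu' v hv
    rw [hsum, ← add_assoc] at h2
    exact h2
  · rintro ⟨w, hw⟩
    refine hmax ht t' htt' ⟨w, fun v hv => ?_⟩
    have h2 := hw v (hV0 v hv)
    rw [hsum, ← add_assoc]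
    exact h2

end Pool.Agent.R885.N
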