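import Pool.Agent.R885.U0
import Pool.Agent.R885.U11
import Pool.Agent.R885.T12

/-!
The arithmetic of the circuits, with weights.
-/

set_option autoImplicit false
set_option linter.overlappingInstances false
set_option linter.unusedSectionVars false
set_option linter.unusedVariables false

namespace Pool.Agent.R885.N

theorem u8_dq_sum {r : ℕ} {ι : Type} (T : Finset ι) (u : Fin r → ℚ) (s : ι → Fin r → ℤ) :
    dq u (∑ a ∈ T, s a) = ∑ a ∈ T, dq u (s a) := by
  unfold dq
  rw [Finset.sum_comm]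
  refine Finset.sum_congr rfl fun i _ => ?_
  rw [Finset.sum_apply, Int.cast_sum, Finset.mul_sum]

/-- superadditivity along a sum without vanishing partial sums -/
theorem u8_super {r : ℕ} {ι : Type} [DecidableEq ι] {b : (Fin r → ℤ) → ℚ} {t : ℚ}
    (hb : ∀ v w, v ≠ 0 → w ≠ 0 → v + w ≠ 0 → b v + b w - t ≤ b (v + w)) (s : ι → Fin r → ℤ)
    (T : Finset ι) (hT : T.Nonempty)
    (hne : ∀ T' ⊆ T, T'.Nonempty → ∑ a ∈ T', s a ≠ 0) :
    ∑ a ∈ T, b (s a) - ((T.card : ℚ) - 1) * t ≤ b (∑ a ∈ T, s a) := by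
  induction T using Finset.induction_on with
  | empty => exact absurd hT Finset.not_nonempty_empty
  | insert a T ha ih =>
    rcases T.eq_empty_or_nonempty with rfl | hT'
    · simp
    · have h1 := ih hT' fun T' h => hne T' (h.trans (Finset.subset_insert a T))
      have h2 : s a ≠ 0 := by
        have h3 := hne {a} (Finset.singleton_subset_iff.2 (Finset.mem_insert_self a T))
          (Finset.singleton_nonempty a)
        rwa [Finset.sum_singleton] at h3
      have h3 := hb (s a) (∑ a ∈ T, s a) h2 (hne T (Finset.subset_insert a T) hT')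
        (by rw [← Finset.sum_insert ha]; exact hne _ subset_rfl hT)
      rw [Finset.sum_insert ha, Finset.sum_insert ha, Finset.card_insert_of_notMem ha]
      push_cast
      linarith

/-- **The arithmetic of the circuits.** -/
theorem exc_arithG {k : Type} [Field k] {r m : ℕ} {J : Type} [Fintype J]
    {f : J → (Fin r → ℤ) →₀ k} (hf0 : ∀ l, f l ≠ 0) {s : Fin (m + 1) → Fin r → ℤ}
    {c : Fin (m + 1) → ℚ} (hm : 1 ≤ m) (hc : ∀ i, 0 < c i)
    (hrel : ∀ j, ∑ i, c i * (s i j : ℚ) = 0)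
    (huniq : ∀ μ : Fin (m + 1) → ℚ, (∀ j, ∑ i, μ i * (s i j : ℚ) = 0) → ∃ d, ∀ i, μ i = d * c i)
    {A Ψ : (Fin r → ℤ) → ℚ} (A0 : ∀ v, v ≠ 0 → 0 < A v) (A1 : ∀ v, A v ≤ 1) (P0 : PLin Ψ)
    (AP : ∀ v w, v ≠ 0 → w ≠ 0 → v + w ≠ 0 → A v + Ψ v + (A w + Ψ w) - 1 ≤ A (v + w) + Ψ (v + w))
    {t : ℚ} (ht0 : 0 < t) (ht1 : t < 1) {u : Fin r → ℚ}
    (hF : ∀ v, v ≠ 0 → t * A v + Ψ v + ∑ l, (mn v (f l) : ℚ) ≤ dq u v)
    (hs : ∀ i, dq u (s i) = t * A (s i) + Ψ (s i) + ∑ l, (mn (s i) (f l) : ℚ))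
    (hcard : m ≤ (JC f s).card) :
    ∑ i, s i = 0 ∧ (JC f s).card = m ∧ (∀ l ∈ JC f s, ∑ i, mn (s i) (f l) = -1) ∧
      SubD f A Ψ s := by
  classical
  -- the partial sums
  have hpart : ∀ T : Finset (Fin (m + 1)), T.Nonempty → T ≠ Finset.univ → ∑ i ∈ T, s i ≠ 0 := by
    intro T hT hTu h0
    obtain ⟨d, hd⟩ := huniq (fun i => if i ∈ T then 1 else 0) (fun j => by
      have h7 := congrFun h0 j
      rw [Finset.sum_apply, Pi.zero_apply] at h7
      have h8 : ∑ i, (if i ∈ T then (1 : ℚ) else 0) * (s i j : ℚ) = ∑ i ∈ T, (s i j : ℚ) := by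
        simp only [ite_mul, one_mul, zero_mul]
        rw [Finset.sum_ite_mem, Finset.univ_inter]
      rw [h8]
      exact_mod_cast h7)
    obtain ⟨i1, hi1⟩ : ∃ i, i ∉ T := by
      by_contra hcon
      push Not at hcon
      exact hTu (Finset.eq_univ_iff_forall.2 hcon)
    obtain ⟨i2, hi2⟩ := hT
    have h7 := hd i1
    have h8 := hd i2
    rw [if_neg hi1] at h7
    rw [if_pos hi2] at h8
    have h9 : d = 0 := (mul_eq_zero.1 h7.symm).resolve_right (hc i1).ne'
    rw [h9, zero_mul] at h8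
    exact one_ne_zero h8
  -- superadditivity
  have hbt : ∀ τ : ℚ, 0 ≤ τ → τ ≤ 1 → ∀ v w : Fin r → ℤ, v ≠ 0 → w ≠ 0 → v + w ≠ 0 →
      (τ * A v + Ψ v) + (τ * A w + Ψ w) - τ ≤ τ * A (v + w) + Ψ (v + w) := by
    intro τ h0 h1 v w hv hw hvw
    have h2 := mul_le_mul_of_nonneg_left (AP v w hv hw hvw) h0
    have h3 := mul_le_mul_of_nonneg_left (P0.superadd v w) (sub_nonneg.2 h1)
    linarith
  -- the upper bound for the sum
  have hup : ∀ τ : ℚ, 0 ≤ τ → τ ≤ 1 → ∑ i, s i = 0 →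
      ∑ i, (τ * A (s i) + Ψ (s i)) ≤ ((m : ℚ) + 1) * τ := by
    intro τ h0 h1 hσ
    obtain ⟨T, hTd⟩ : ∃ T : Finset (Fin (m + 1)), T = Finset.univ.erase 0 := ⟨_, rfl⟩
    have hTc : T.card = m := by
      rw [hTd, Finset.card_erase_of_mem (Finset.mem_univ _), Finset.card_univ, Fintype.card_fin]
      omega
    have hTn : T.Nonempty := by
      rw [← Finset.card_pos, hTc]
      omega
    have h0T : (0 : Fin (m + 1)) ∉ T := by
      rw [hTd]
      exact Finset.notMem_erase _ _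
    have h2 := u8_super (b := fun v => τ * A v + Ψ v) (hbt τ h0 h1) s T hTn
      fun T' hT' hT'n => hpart T' hT'n fun h => h0T (hT' (by rw [h]; exact Finset.mem_univ _))
    have h3 : ∑ i ∈ T, s i = -s 0 := by
      rw [hTd]
      have h4 := Finset.add_sum_erase Finset.univ s (Finset.mem_univ 0)
      rw [hσ] at h4
      exact (neg_eq_of_add_eq_zero_right h4).symm
    rw [h3, hTc] at h2
    have h4 := P0.add_neg_le (s 0)
    have h5 := mul_le_mul_of_nonneg_left (A1 (s 0)) h0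
    have h6 := mul_le_mul_of_nonneg_left (A1 (-s 0)) h0
    have h7 : ∑ i, (τ * A (s i) + Ψ (s i)) =
        (τ * A (s 0) + Ψ (s 0)) + ∑ i ∈ T, (τ * A (s i) + Ψ (s i)) := by
      rw [hTd]
      exact (Finset.add_sum_erase Finset.univ (fun i => τ * A (s i) + Ψ (s i))
        (Finset.mem_univ 0)).symm
    rw [h7]
    beta_reduce at h2
    linarith
  -- the sum of the minima
  obtain ⟨N, hN⟩ : ∃ N : J → ℤ, N = fun l => -∑ i, mn (s i) (f l) := ⟨_, rfl⟩
  have hmn : ∀ l, ∑ i, mn (s i) (f l) + (if l ∈ JC f s then 1 else 0) ≤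
      mn (∑ i, s i) (f l) := by
    intro l
    refine le_mn (hf0 l) fun m' hm' => ?_
    rw [dotProduct_sum]
    have h1 : ∀ i ∈ (Finset.univ : Finset (Fin (m + 1))), mn (s i) (f l) ≤ m' ⬝ᵥ s i :=
      fun i _ => mn_le hm'
    by_cases hl : l ∈ JC f s
    · rw [if_pos hl]
      obtain ⟨i, hi⟩ := mem_JC hc hrel hl hm'
      have h2 := Finset.sum_lt_sum h1 ⟨i, Finset.mem_univ _, hi⟩
      omega
    · rw [if_neg hl, add_zero]
      exact Finset.sum_le_sum h1
  have hsum : (∑ l, ∑ i, mn (s i) (f l)) + (JC f s).card ≤ ∑ l, mn (∑ i, s i) (f l) := by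
    have h1 : ∑ l, (∑ i, mn (s i) (f l) + (if l ∈ JC f s then (1 : ℤ) else 0)) =
        (∑ l, ∑ i, mn (s i) (f l)) + (JC f s).card := by
      rw [Finset.sum_add_distrib]
      simp
    rw [← h1]
    exact Finset.sum_le_sum fun l _ => hmn l
  have hsumq : (∑ l, ∑ i, (mn (s i) (f l) : ℚ)) + ((JC f s).card : ℚ) ≤
      ∑ l, (mn (∑ i, s i) (f l) : ℚ) := by
    exact_mod_cast hsum
  have hcard' : (m : ℚ) ≤ ((JC f s).card : ℚ) := by exact_mod_cast hcard
  have hm1 : (1 : ℚ) ≤ m := by exact_mod_cast hm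
  have hu : ∀ T : Finset (Fin (m + 1)), dq u (∑ i ∈ T, s i) =
      ∑ i ∈ T, (t * A (s i) + Ψ (s i)) + ∑ l, ∑ i ∈ T, (mn (s i) (f l) : ℚ) := by
    intro T
    rw [u8_dq_sum, Finset.sum_congr rfl fun i _ => hs i, Finset.sum_add_distrib]
    congr 1
    exact Finset.sum_comm
  have hσ : ∑ i, s i = 0 := by
    by_contra hne
    have h1 := hF _ hne
    rw [hu] at h1
    have h2 := u8_super (b := fun v => t * A v + Ψ v) (hbt t ht0.le ht1.le) s Finset.univ
      ⟨0, Finset.mem_univ _⟩ fun T' _ hT'n => by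
        by_cases h : T' = Finset.univ
        · rw [h]
          exact hne
        · exact hpart T' hT'n h
    rw [Finset.card_univ, Fintype.card_fin] at h2
    push_cast at h2
    beta_reduce at h2
    have h3 : (m : ℚ) * t < m * 1 := mul_lt_mul_of_pos_left ht1 (by linarith)
    linarith
  have hmn0 : ∀ l, (if l ∈ JC f s then (1 : ℤ) else 0) ≤ N l := by
    intro l
    have h1 := hmn l
    rw [hσ, mn_zero (hf0 l)] at h1
    rw [hN]
    change _ ≤ -∑ i, mn (s i) (f l)
    omega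
  have hNsum : ∑ l, ∑ i, (mn (s i) (f l) : ℚ) = -((∑ l, N l : ℤ) : ℚ) := by
    rw [hN]
    push_cast
    rw [← Finset.sum_neg_distrib]
    exact Finset.sum_congr rfl fun l _ => by rw [neg_neg]
  have hu0 := hu Finset.univ
  have hdq0 : dq u (0 : Fin r → ℤ) = 0 := by simp [dq]
  rw [hσ, hdq0, hNsum] at hu0
  have h2 : ∑ l, (if l ∈ JC f s then (1 : ℤ) else 0) ≤ ∑ l, N l :=
    Finset.sum_le_sum fun l _ => hmn0 l
  have h3 : ∑ l, (if l ∈ JC f s then (1 : ℤ) else 0) = (JC f s).card := by simp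
  have h4 : ∑ l, N l < m + 1 := by
    have h5 := hup t ht0.le ht1.le hσ
    have h6 : ((∑ l, N l : ℤ) : ℚ) < m + 1 := by
      have h7 : ((m : ℚ) + 1) * t < (m + 1) * 1 := mul_lt_mul_of_pos_left ht1 (by linarith)
      linarith
    exact_mod_cast h6
  have h5 : ∑ l, N l = m := by
    have : (m : ℤ) ≤ (JC f s).card := by exact_mod_cast hcard
    omega
  have h6 : ((JC f s).card : ℤ) = m := by
    have : (m : ℤ) ≤ (JC f s).card := by exact_mod_cast hcard
    omega
  have hsumb : ∑ i, (t * A (s i) + Ψ (s i)) = m := by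
    have h7 : ((∑ l, N l : ℤ) : ℚ) = m := by
      rw [h5]
      norm_cast
    linarith
  refine ⟨hσ, by exact_mod_cast h6, fun l hl => ?_, ?_, ?_, ?_⟩
  · have h7 : ∑ l, (N l - (if l ∈ JC f s then (1 : ℤ) else 0)) = 0 := by
      rw [Finset.sum_sub_distrib, h3]
      omega
    have h8 := (Finset.sum_eq_zero_iff_of_nonneg fun l _ => sub_nonneg.2 (hmn0 l)).1 h7 l
      (Finset.mem_univ _)
    rw [if_pos hl, hN] at h8
    change -∑ i, mn (s i) (f l) - 1 = 0 at h8
    omega
  · intro T hT hTu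
    have hne := hpart T hT hTu
    have h7 := hF _ hne
    rw [hu T] at h7
    have h8 : (0 : ℚ) ≤ ∑ l, ((mn (∑ i ∈ T, s i) (f l) : ℚ) - ∑ i ∈ T, (mn (s i) (f l) : ℚ)) := by
      refine Finset.sum_nonneg fun l _ => sub_nonneg.2 ?_
      have h9 := t12_sum_mn_le (hf0 l) T s
      exact_mod_cast h9
    have h9 := P0.sum_le T s
    rw [Finset.sum_sub_distrib] at h8
    push_cast
    rw [Finset.sum_sub_distrib]
    rw [Finset.sum_add_distrib, ← Finset.mul_sum] at h7
    rw [Finset.sum_add_distrib]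
    have h10 : 0 ≤ ∑ i ∈ T, A (s i) - A (∑ i ∈ T, s i) := by
      by_contra hcon
      push Not at hcon
      have := mul_neg_of_pos_of_neg ht0 hcon
      linarith
    have h11 := mul_le_mul_of_nonneg_right ht1.le h10
    linarith
  · rw [← hsumb]
    refine Finset.sum_le_sum fun i _ => ?_
    have hsi : s i ≠ 0 := by
      have h7 := hpart {i} (Finset.singleton_nonempty i) (by
        intro h
        have h8 := congrArg Finset.card h
        rw [Finset.card_singleton, Finset.card_univ, Fintype.card_fin] at h8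
        omega)
      rwa [Finset.sum_singleton] at h7
    have h7 := A0 _ hsi
    nlinarith
  · have h7 := hup 1 zero_le_one le_rfl hσ
    simpa using h7

end Pool.Agent.R885.N
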