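import Pool.Agent.R885.U5
import Pool.Agent.R885.U6
import Pool.Agent.R885.U7
import Pool.Agent.R885.U8
import Pool.Agent.R885.U11b
import Pool.Agent.R885.T13

/-!
Pairs with arbitrary weights at infinity: systems with a full-dimensional Newton polytope.
-/

set_option autoImplicit false
set_option linter.overlappingInstances false
set_option linter.unusedSectionVars false

open FF IntermediateField Pool.Agent.W603.LV Pool.Agent.W619.PQ Pool.Agent.W619.PL
  Pool.Agent.Y173.QA Pool.Agent.W619.TW Pool.Agent.TH165.ACC Pool.Agent.TH122.AB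
  Pool.Agent.W619.Y Pool.Agent.W824.PG Pool.Agent.Y174

namespace Pool.Agent.R885.N

/-- A common denominator. -/
theorem u9_den {r : ℕ} {A : (Fin r → ℤ) → ℚ} (t : ℚ)
    (AD : ∃ D : ℕ, 1 ≤ D ∧ ∀ v, ∃ z : ℤ, (D : ℚ) * A v = z) :
    ∃ D : ℕ, 1 ≤ D ∧ ∀ v, ∃ z : ℤ, (D : ℚ) * (t * A v) = z := by
  obtain ⟨D, hD, h⟩ := AD
  refine ⟨t.den * D, Nat.succ_le_of_lt (Nat.mul_pos t.den_pos hD), fun v => ?_⟩
  obtain ⟨z, hz⟩ := h v
  refine ⟨t.num * z, ?_⟩
  have h1 : t * t.den = t.num := Rat.mul_den_eq_num t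
  push_cast
  rw [← hz, ← h1]
  ring

theorem u9_dq {r : ℕ} (u0 : Fin r → ℤ) (c : ℤ) (v : Fin r → ℤ) :
    dq (fun i => (u0 i : ℚ) / c) v = ((u0 ⬝ᵥ v : ℤ) : ℚ) / c := by
  rw [← dq_int]
  unfold dq
  rw [Finset.sum_div]
  exact Finset.sum_congr rfl fun i _ => by ring

/-- **Systems with a full-dimensional Newton polytope.** -/
theorem WSys.stepV {k K : Type} [Field k] [CharZero k] [Field K] [Algebra k K] {n : ℕ}
    {β : Place k K → ℝ} {r q : ℕ} {J' : Type} [Fintype J'] {x : Fin r → K}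
    {f : Fin q → (Fin r → ℤ) →₀ k} {y : J' → K} {cw : J' → ℚ} {A Ψ : (Fin r → ℤ) → ℚ}
    [IsAlgClosed k] (hn : 1 ≤ n) (htr : Algebra.trdeg k K = (n : ℕ))
    (hB : WSys n β x f y cw A Ψ)
    (hU : ∀ v : Fin r → ℤ, (∀ l, ∀ m ∈ (f l).support, ∀ m' ∈ (f l).support,
      m ⬝ᵥ v = m' ⬝ᵥ v) → Ψ v + Ψ (-v) = 0 → v = 0) :
    PosB k K n β ∨ NegB k K n β ∨ ∃ (m : ℕ) (s : Fin (m + 1) → Fin r → ℤ),
      1 ≤ m ∧ Exc x f s ∧ SubD f A Ψ s := by
  classical
  have hr := hB.hr
  have hx := hB.hx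
  have hgen := hB.hgen
  have hf := hB.hf
  have hnd := hB.hnd
  have hf0 := hn_ne0 hnd hf
  have hli := hn_ne hnd hf
  have hK0 : CharZero K := charZero_of_injective_algebraMap (algebraMap k K).injective
  obtain ⟨t, ht0, ht1, hF, hmax⟩ := exists_bestG hf0 hB.A0 hB.A1 hB.AD hB.P0 hU
  have htrE : ∀ E : IntermediateField k K, ∃ d : ℕ, d ≤ n ∧ Algebra.trdeg k E = (d : ℕ) := by
    intro E
    have h1 : Algebra.trdeg k E ≤ n := by
      rw [← htr]
      exact trdeg_le_of_injective E.val E.val.injective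
    obtain ⟨d, hd⟩ := Cardinal.lt_aleph0.1 (h1.trans_lt Cardinal.natCast_lt_aleph0)
    refine ⟨d, ?_, hd⟩
    rw [hd] at h1
    exact_mod_cast h1
  rcases ht1.lt_or_eq with htlt | hteq
  swap
  · -- the largest value is one
    left
    have h1 : (fun v => t * A v) = A := by
      funext v
      rw [hteq, one_mul]
    rw [h1] at hF
    exact hB.pos hn htr hF
  right
  obtain ⟨d, hdn, hd⟩ := htrE (IntermediateField.adjoin k
    {z : K | ∃ w ∈ dirsG (fun v => t * A v) Ψ f, z = mono x w})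
  rcases hdn.lt_or_eq with hdlt | hdeq
  · left
    exact hB.neg hn htr ht0 htlt hF hdlt hd
  right
  rw [hdeq] at hd
  -- the tight vectors
  obtain ⟨u0, c, a', nn, S, B, hc, -, ha, -, hF', hS, hpos, -, hdirs⟩ :=
    exists_tightG (A := fun v => t * A v) hf0 (fun v hv => mul_pos ht0 (hB.A0 v hv))
      (fun v => by
        have h1 := mul_le_mul_of_nonneg_left (hB.A1 v) ht0.le
        beta_reduce
        linarith) (u9_den t hB.AD) hB.P0 cw hF
  beta_reduce at ha
  have hcq : (0 : ℚ) < c := by exact_mod_cast hc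
  have hPhq : ∀ v : Fin r → ℤ, ((a' v + c * ∑ l, mn v (f l) : ℤ) : ℚ) =
      c * (t * A v + Ψ v + ∑ l, (mn v (f l) : ℚ)) := by
    intro v
    push_cast
    rw [ha]
    ring
  have hSne : S.Nonempty := by
    by_contra hcon
    rw [Finset.not_nonempty_iff_eq_empty] at hcon
    refine hmax htlt (t + 1 / c) (by
      have := one_div_pos.2 hcq
      linarith) ⟨fun i => (u0 i : ℚ) / c, fun v hv => ?_⟩
    have h1 := hF' v hv
    have h2 : u0 ⬝ᵥ v ≠ a' v + c * ∑ l, mn v (f l) := by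
      intro h3
      have h4 := (hS v).2 ⟨hv, h3⟩
      rw [hcon] at h4
      exact absurd h4 (Finset.notMem_empty _)
    have h3 : a' v + c * ∑ l, mn v (f l) + 1 ≤ u0 ⬝ᵥ v :=
      Int.add_one_le_iff.2 (lt_of_le_of_ne h1 (Ne.symm h2))
    have h4 : ((a' v + c * ∑ l, mn v (f l) : ℤ) : ℚ) + 1 ≤ ((u0 ⬝ᵥ v : ℤ) : ℚ) := by
      exact_mod_cast h3
    rw [u9_dq, le_div_iff₀ hcq]
    rw [hPhq] at h4
    have h5 := hB.A1 v
    have h6 : ((t + 1 / (c : ℚ)) * A v + Ψ v + ∑ l, (mn v (f l) : ℚ)) * c =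
        c * (t * A v + Ψ v + ∑ l, (mn v (f l) : ℚ)) + A v := by
      field_simp
      ring
    rw [h6]
    linarith
  obtain ⟨m, s, c', hm, hsS, hrel, huniq⟩ := exists_circuit (fun s hs => ((hS s).1 hs).1) hSne hpos
  have hlis := circ_li (fun i => (hsS i).2) huniq
  -- the monomials
  obtain ⟨Y, hYG, hYind, -⟩ := exists_mono_basis hd
  choose w hw hwY using hYG
  have hYw : Y = fun j => mono x (w j) := funext hwY
  rw [hYw] at hYind
  have hws : ∀ j i, w j ⬝ᵥ s i = 0 := fun j i => (hdirs (w j)).1 (hw j) (s i) (hsS i).1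
  have heta : ∀ (N : ℕ) (s' : Fin N → Fin r → ℤ) (c : Fin N → K), (∀ j i, w j ⬝ᵥ s' i = 0) →
      (∀ l, ∑ j, gr x (f l) j * (∑ i, c i * (s' i j : K)) = 0) →
      (fun j => ∑ i, c i * (s' i j : K)) = 0 := by
    intro N s' c hws' h1
    refine eta_zero htr hx hgen (J := Fin q) (by rw [Fintype.card_fin, hr, add_comm]) hf hli hYind
      h1 fun j => ?_
    have h2 : ∑ i, (w j i : K) * ∑ i', c i' * (s' i' i : K) =
        ∑ i', c i' * ((w j ⬝ᵥ s' i' : ℤ) : K) := by
      simp only [Finset.mul_sum]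
      rw [Finset.sum_comm]
      refine Finset.sum_congr rfl fun i' _ => ?_
      rw [← dot_intCast, Finset.mul_sum]
      exact Finset.sum_congr rfl fun i _ => by ring
    rw [h2]
    exact Finset.sum_eq_zero fun i' _ => by rw [hws', Int.cast_zero, mul_zero]
  have hcardf := card_JC hf hlis fun c hc => heta m (fun i => s i.succ) c
    (fun j i => hws j i.succ) hc
  have hFu : ∀ v, v ≠ 0 → t * A v + Ψ v + ∑ l, (mn v (f l) : ℚ) ≤
      dq (fun i => (u0 i : ℚ) / c) v := by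
    intro v hv
    have h1 : ((a' v + c * ∑ l, mn v (f l) : ℤ) : ℚ) ≤ ((u0 ⬝ᵥ v : ℤ) : ℚ) := by
      exact_mod_cast hF' v hv
    rw [hPhq] at h1
    rw [u9_dq, le_div_iff₀ hcq]
    linarith
  have hsu : ∀ i, dq (fun i => (u0 i : ℚ) / c) (s i) =
      t * A (s i) + Ψ (s i) + ∑ l, (mn (s i) (f l) : ℚ) := by
    intro i
    have h1 : ((u0 ⬝ᵥ s i : ℤ) : ℚ) = ((a' (s i) + c * ∑ l, mn (s i) (f l) : ℤ) : ℚ) := by
      exact_mod_cast ((hS _).1 (hsS i).1).2
    rw [hPhq] at h1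
    rw [u9_dq, div_eq_iff hcq.ne', h1]
    ring
  obtain ⟨h1, h2, h3, hsub⟩ := exc_arithG hf0 hm (fun i => (hsS i).2) hrel huniq
    hB.A0 hB.A1 hB.P0 hB.AP ht0 htlt hFu hsu hcardf
  refine ⟨m, s, hm, ⟨hx, hf, h1, h2, h3, fun c hc => ?_⟩, hsub⟩
  have h5 := heta (m + 1) s c hws hc
  have h6 := Fintype.linearIndependent_iff.1 (li_field (F := K) hlis)
    (fun i => c i.succ - c 0) (by
      funext j
      rw [Finset.sum_apply]
      have h7 := congrFun h5 j
      beta_reduce at h7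
      rw [Fin.sum_univ_succ, Pi.zero_apply] at h7
      have h8 : (s 0 j : K) + ∑ i : Fin m, (s i.succ j : K) = 0 := by
        have h9 := congrFun h1 j
        rw [Finset.sum_apply, Fin.sum_univ_succ, Pi.zero_apply] at h9
        exact_mod_cast h9
      have h9 : ∑ i : Fin m, (c i.succ - c 0) * (s i.succ j : K) =
          ∑ i : Fin m, c i.succ * (s i.succ j : K) - c 0 * ∑ i : Fin m, (s i.succ j : K) := by
        rw [Finset.mul_sum, ← Finset.sum_sub_distrib]
        exact Finset.sum_congr rfl fun i _ => by ring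
      change ∑ i : Fin m, (c i.succ - c 0) * (s i.succ j : K) = 0
      rw [h9]
      linear_combination h7 - c 0 * h8)
  intro i
  refine Fin.cases rfl (fun i => ?_) i
  exact sub_eq_zero.1 (h6 i)

end Pool.Agent.R885.N
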