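import Pool.Agent.R885.U0
import Pool.Agent.R885.U11
import Pool.Agent.R885.G18

/-!
Log canonical pairs with arbitrary weights at infinity (also zero): the class of the systems.
-/

set_option autoImplicit false
set_option linter.overlappingInstances false
set_option linter.unusedSectionVars false

open FF IntermediateField Pool.Agent.W603.LV Pool.Agent.W619.PQ Pool.Agent.Y173.QA
  Pool.Agent.W619.TW Pool.Agent.W619.Y Pool.Agent.Y174

namespace Pool.Agent.R885.N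

/-- The sum of the absolute values of the coordinates. -/
def n1 {r : ℕ} (v : Fin r → ℤ) : ℚ := ∑ i, |(v i : ℚ)|

theorem n1_nonneg {r : ℕ} (v : Fin r → ℤ) : 0 ≤ n1 v :=
  Finset.sum_nonneg fun _ _ => abs_nonneg _

theorem n1_ge_one {r : ℕ} {v : Fin r → ℤ} (hv : v ≠ 0) : 1 ≤ n1 v := by
  obtain ⟨i, hi⟩ : ∃ i, v i ≠ 0 := by
    by_contra hcon
    push Not at hcon
    exact hv (funext hcon)
  have h1 := Finset.single_le_sum (f := fun i => |(v i : ℚ)|) (fun i _ => abs_nonneg _)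
    (Finset.mem_univ i)
  have h2 : (1 : ℚ) ≤ |(v i : ℚ)| := by
    have h3 : (1 : ℤ) ≤ |v i| := Int.one_le_abs hi
    exact_mod_cast h3
  exact h2.trans h1

theorem n1_add {r : ℕ} (v w : Fin r → ℤ) : n1 (v + w) ≤ n1 v + n1 w := by
  unfold n1
  rw [← Finset.sum_add_distrib]
  refine Finset.sum_le_sum fun i _ => ?_
  rw [Pi.add_apply]
  push_cast
  exact abs_add_le _ _

theorem n1_sum {r : ℕ} {ι : Type} (T : Finset ι) (s : ι → Fin r → ℤ) :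
    n1 (∑ a ∈ T, s a) ≤ ∑ a ∈ T, n1 (s a) := by
  classical
  induction T using Finset.induction_on with
  | empty =>
    rw [Finset.sum_empty, Finset.sum_empty]
    unfold n1
    simp
  | insert a T ha ih =>
    rw [Finset.sum_insert ha, Finset.sum_insert ha]
    exact (n1_add _ _).trans (by linarith)

theorem n1_zero {r : ℕ} : n1 (0 : Fin r → ℤ) = 0 := by
  unfold n1
  simp

theorem n1_smul {r : ℕ} (g : ℤ) (v : Fin r → ℤ) : n1 (g • v) = |(g : ℚ)| * n1 v := by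
  unfold n1
  rw [Finset.mul_sum]
  refine Finset.sum_congr rfl fun i _ => ?_
  rw [Pi.smul_apply, smul_eq_mul]
  push_cast
  exact abs_mul _ _

theorem PLin.sub_n1 {r : ℕ} {Ψ : (Fin r → ℤ) → ℚ} (h : PLin Ψ) {ε : ℚ} (hε : 0 ≤ ε) :
    PLin fun v => Ψ v - ε * n1 v := by
  classical
  obtain ⟨Y, hY1, hY2⟩ := h
  have hdq : ∀ (y : Fin r → ℚ) (g : Fin r → Bool) (v : Fin r → ℤ),
      dq (fun i => y i + ε * (if g i then 1 else -1)) v =
        dq y v + ε * ∑ i, (if g i then (1 : ℚ) else -1) * (v i : ℚ) := by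
    intro y g v
    unfold dq
    rw [Finset.mul_sum, ← Finset.sum_add_distrib]
    exact Finset.sum_congr rfl fun i _ => by ring
  refine ⟨(Y ×ˢ (Finset.univ : Finset (Fin r → Bool))).image fun p =>
    fun i => p.1 i + ε * (if p.2 i then 1 else -1), fun v y hy => ?_, fun v => ?_⟩
  · obtain ⟨⟨y', g⟩, hp, rfl⟩ := Finset.mem_image.1 hy
    beta_reduce
    rw [hdq]
    have h1 := hY1 v y' (Finset.mem_product.1 hp).1
    have h2 : -n1 v ≤ ∑ i, (if g i then (1 : ℚ) else -1) * (v i : ℚ) := by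
      unfold n1
      rw [← Finset.sum_neg_distrib]
      refine Finset.sum_le_sum fun i _ => ?_
      split_ifs
      · rw [one_mul]
        exact neg_abs_le _
      · rw [neg_one_mul]
        exact neg_le_neg (le_abs_self _)
    have h3 := mul_le_mul_of_nonneg_left h2 hε
    linarith
  · obtain ⟨y', hy', h1⟩ := hY2 v
    refine ⟨_, Finset.mem_image.2 ⟨(y', fun i => decide (v i ≤ 0)),
      Finset.mem_product.2 ⟨hy', Finset.mem_univ _⟩, rfl⟩, ?_⟩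
    beta_reduce
    rw [hdq, h1]
    have h2 : ∑ i, (if (decide (v i ≤ 0)) = true then (1 : ℚ) else -1) * (v i : ℚ) = -n1 v := by
      unfold n1
      rw [← Finset.sum_neg_distrib]
      refine Finset.sum_congr rfl fun i _ => ?_
      by_cases h3 : v i ≤ 0
      · rw [if_pos (by simpa using h3), one_mul, abs_of_nonpos (by exact_mod_cast h3), neg_neg]
      · rw [if_neg (by simpa using h3), neg_one_mul, abs_of_pos (by
          push Not at h3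
          exact_mod_cast h3)]
    rw [h2]
    ring

section

variable {k K : Type} [Field k] [Field K] [Algebra k K]

/-- The class of the systems with weights `A`, possibly zero, and support functions `Ψ`. -/
structure VSys (n : ℕ) (β : Place k K → ℝ) {r q : ℕ} {J' : Type} [Fintype J'] (x : Fin r → K)
    (f : Fin q → (Fin r → ℤ) →₀ k) (y : J' → K) (cw : J' → ℚ) (A Ψ : (Fin r → ℤ) → ℚ) :
    Prop where
  hr : r = n + q
  hx : ∀ i, x i ≠ 0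
  hgen : IntermediateField.adjoin k (Set.range x) = ⊤
  hf : ∀ l, ev x (f l) = 0
  hy : ∀ j, y j ≠ 0
  hnd : HN x f
  A0 : ∀ v, v ≠ 0 → 0 ≤ A v
  A1 : ∀ v, A v ≤ 1
  AD : ∃ D : ℕ, 1 ≤ D ∧ ∀ v, ∃ z : ℤ, (D : ℚ) * A v = z
  A3 : ∀ (g : ℤ) (v : Fin r → ℤ), 0 < g → v ≠ 0 → A (g • v) ≤ g * A v
  P0 : PLin Ψ
  AP : ∀ v w, v ≠ 0 → w ≠ 0 → v + w ≠ 0 → A v + Ψ v + (A w + Ψ w) - 1 ≤ A (v + w) + Ψ (v + w)
  le1 : ∀ P : Place k K, β P ≤ 1
  low : ∃ (e : Fin q ⊕ Fin n ≃ Fin r) (C0 : Fin n → Fin r → ℤ),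
    dt e (fun l => gr x (f l)) C0 ≠ 0 ∧ GLow e x f C0 y cw (fun v => A v + Ψ v) β
  th0 : ∀ P : Place k K, vec P x = 0 → 0 ≤ Th y cw P
  th1 : ∀ P : Place k K, vec P x ≠ 0 → ((Ψ (vec P x) : ℚ) : ℝ) ≤ Th y cw P
  up0 : ∀ P : Place k K, vec P x = 0 → β P ≤ Th y cw P
  up1 : ∀ P : Place k K, vec P x ≠ 0 →
    β P ≤ 1 - ((A (vec P x) + Ψ (vec P x) : ℚ) : ℝ) + Th y cw P

end

/-- The data of the transfer to the torus of the vectors orthogonal to the `s a`. -/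
structure TrE {k : Type} [Field k] {r r' m : ℕ} (A Ψ : (Fin r → ℤ) → ℚ)
    (s : Fin (m + 1) → Fin r → ℤ) (W : Fin r' → Fin r → ℤ)
    (Δ : Fin (m + 1) → (Fin r → ℤ) →₀ k) (L : (Fin r' → ℤ) →+ (Fin r → ℤ)) : Prop where
  A0 : ∀ v, v ≠ 0 → 0 ≤ A v
  A1 : ∀ v, A v ≤ 1
  AD : ∃ D : ℕ, 1 ≤ D ∧ ∀ v, ∃ z : ℤ, (D : ℚ) * A v = z
  A3 : ∀ (g : ℤ) (v : Fin r → ℤ), 0 < g → v ≠ 0 → A (g • v) ≤ g * A v
  P0 : PLin Ψ
  AP : ∀ v w, v ≠ 0 → w ≠ 0 → v + w ≠ 0 → A v + Ψ v + (A w + Ψ w) - 1 ≤ A (v + w) + Ψ (v + w)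
  hm : 1 ≤ m
  hs : ∑ a, s a = 0
  hn : ∀ n : Fin (m + 1) → ℤ, ∑ a, n a • s a = 0 → ∀ a a', n a = n a'
  lo : (m : ℚ) ≤ ∑ a, (A (s a) + Ψ (s a))
  hi : ∑ a, (A (s a) + Ψ (s a)) ≤ (m : ℚ) + 1
  hWs : ∀ j i, W j ⬝ᵥ s i = 0
  hWL : ∀ w j, W j ⬝ᵥ L w = w j
  hΔs : ∀ a, ∀ w ∈ (Δ a).support, ∀ i, w ⬝ᵥ s i = 0
  hΔ0 : ∀ a, Δ a ≠ 0

/-- The function `A` on the integral vectors: nonnegative, at most `1`, with bounded denominators,
`A (v + w) ≥ A v + A w - 1` and `A (g v) ≤ g A v`. -/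
structure IsWeight {r : ℕ} (A : (Fin r → ℤ) → ℚ) : Prop where
  nonneg : ∀ v, v ≠ 0 → 0 ≤ A v
  le_one : ∀ v, A v ≤ 1
  denom : ∃ D : ℕ, 1 ≤ D ∧ ∀ v, ∃ z : ℤ, (D : ℚ) * A v = z
  add : ∀ v w, v ≠ 0 → w ≠ 0 → v + w ≠ 0 → A v + A w - 1 ≤ A (v + w)
  smul : ∀ (g : ℤ) v, 0 < g → v ≠ 0 → A (g • v) ≤ g * A v

/-- superadditivity with the correction `n1` -/
theorem n1_AP {r : ℕ} {A Ψ : (Fin r → ℤ) → ℚ}
    (AP : ∀ v w, v ≠ 0 → w ≠ 0 → v + w ≠ 0 → A v + Ψ v + (A w + Ψ w) - 1 ≤ A (v + w) + Ψ (v + w))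
    {ε : ℚ} (hε : 0 ≤ ε) (v w : Fin r → ℤ) (hv : v ≠ 0) (hw : w ≠ 0) (hvw : v + w ≠ 0) :
    A v + (Ψ v - ε * n1 v) + (A w + (Ψ w - ε * n1 w)) - 1 ≤
      A (v + w) + (Ψ (v + w) - ε * n1 (v + w)) := by
  have h1 := AP v w hv hw hvw
  have h2 := mul_le_mul_of_nonneg_left (n1_add v w) hε
  linarith

end Pool.Agent.R885.N
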