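import Pool.Agent.R885.V0
import Pool.Agent.R885.U7

/-!
V1: finitely many vectors suffice, uniformly in `ε`, with weights that may be zero (Dickson).
-/

set_option autoImplicit false
set_option linter.overlappingInstances false
set_option linter.unusedSectionVars false
set_option linter.unusedVariables false

namespace Pool.Agent.R885.N

section

variable {r : ℕ} {k : Type} [Field k]

theorem v1_mn_sup {g : (Fin r → ℤ) →₀ k} (hg : g ≠ 0) {ι : Type} [Fintype ι]
    (t : ι → Fin r → ℤ) (c : ι → ℕ) :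
    ∑ i, (c i : ℤ) * mn (t i) g ≤ mn (∑ i, c i • t i) g := by
  refine le_mn hg fun m hm => ?_
  rw [dotProduct_sum]
  refine Finset.sum_le_sum fun i _ => ?_
  rw [dotProduct_smul, nsmul_eq_mul]
  exact mul_le_mul_of_nonneg_left (mn_le hm) (Int.natCast_nonneg _)

/-- the two-term function with minimum `-|v i|` -/
noncomputable def v1_h (k : Type) [Field k] {r : ℕ} (i : Fin r) : (Fin r → ℤ) →₀ k :=
  Finsupp.single (Pi.single i 1) 1 + Finsupp.single (-Pi.single i 1) 1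

theorem v1_ne (i : Fin r) : (Pi.single i 1 : Fin r → ℤ) ≠ -Pi.single i 1 := by
  intro h
  have h1 := congrFun h i
  rw [Pi.neg_apply, Pi.single_eq_same] at h1
  omega

theorem v1_mem1 (i : Fin r) : (Pi.single i 1 : Fin r → ℤ) ∈ (v1_h k i).support := by
  rw [Finsupp.mem_support_iff, v1_h, Finsupp.add_apply, Finsupp.single_eq_same,
    Finsupp.single_eq_of_ne (v1_ne i), add_zero]
  exact one_ne_zero

theorem v1_mem2 (i : Fin r) : (-Pi.single i 1 : Fin r → ℤ) ∈ (v1_h k i).support := by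
  rw [Finsupp.mem_support_iff, v1_h, Finsupp.add_apply, Finsupp.single_eq_same,
    Finsupp.single_eq_of_ne (v1_ne i).symm, zero_add]
  exact one_ne_zero

theorem v1_h_ne (i : Fin r) : v1_h k i ≠ 0 := by
  intro h
  have := v1_mem1 (k := k) i
  rw [h] at this
  simp at this

theorem v1_mn_h (i : Fin r) (v : Fin r → ℤ) : mn v (v1_h k i) = -|v i| := by
  classical
  apply le_antisymm
  · have h1 := mn_le (v := v) (v1_mem1 (k := k) i)
    have h2 := mn_le (v := v) (v1_mem2 (k := k) i)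
    rw [single_one_dotProduct] at h1
    rw [neg_dotProduct, single_one_dotProduct] at h2
    rcases abs_cases (v i) with ⟨h, _⟩ | ⟨h, _⟩ <;> omega
  · refine le_mn (v1_h_ne i) fun m hm => ?_
    have h1 := Finsupp.support_add hm
    rw [Finset.mem_union] at h1
    rcases h1 with h1 | h1
    · have h2 := Finset.mem_singleton.1 (Finsupp.support_single_subset h1)
      rw [h2, single_one_dotProduct]
      exact neg_abs_le _
    · have h2 := Finset.mem_singleton.1 (Finsupp.support_single_subset h1)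
      rw [h2, neg_dotProduct, single_one_dotProduct]
      exact neg_le_neg (le_abs_self _)

theorem v1_n1 (v : Fin r → ℤ) : n1 v = -∑ i, (mn v (v1_h k i) : ℚ) := by
  unfold n1
  rw [← Finset.sum_neg_distrib]
  refine Finset.sum_congr rfl fun i _ => ?_
  rw [v1_mn_h]
  push_cast
  ring

theorem v1_dq_smul (u : Fin r → ℚ) {ι : Type} [Fintype ι] (t : ι → Fin r → ℤ) (c : ι → ℕ) :
    dq u (∑ i, c i • t i) = ∑ i, (c i : ℚ) * dq u (t i) := by
  rw [u7_dq_sum]
  refine Finset.sum_congr rfl fun i _ => ?_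
  unfold dq
  rw [Finset.mul_sum]
  refine Finset.sum_congr rfl fun j _ => ?_
  rw [Pi.smul_apply, nsmul_eq_mul]
  push_cast
  ring

theorem v1_count {ι κ : Type} [Fintype ι] [Fintype κ] [DecidableEq κ] (s : ι → κ) (F : κ → ℚ) :
    ∑ j, F (s j) = ∑ m, ((Finset.univ.filter fun j => s j = m).card : ℚ) * F m := by
  rw [← Finset.sum_fiberwise Finset.univ s]
  refine Finset.sum_congr rfl fun m _ => ?_
  rw [Finset.sum_congr rfl (g := fun _ => F m) (fun j hj => by rw [(Finset.mem_filter.1 hj).2]),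
    Finset.sum_const, nsmul_eq_mul]

theorem v1_countv {ι κ : Type} [Fintype ι] [Fintype κ] [DecidableEq κ] (s : ι → κ)
    (F : κ → Fin r → ℤ) :
    ∑ j, F (s j) = ∑ m, (Finset.univ.filter fun j => s j = m).card • F m := by
  rw [← Finset.sum_fiberwise Finset.univ s]
  refine Finset.sum_congr rfl fun m _ => ?_
  rw [Finset.sum_congr rfl (g := fun _ => F m) (fun j hj => by rw [(Finset.mem_filter.1 hj).2]),
    Finset.sum_const]

variable {J : Type} [Fintype J] {f : J → (Fin r → ℤ) →₀ k}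
  {A Ψ : (Fin r → ℤ) → ℚ}

/-- V1: finitely many vectors suffice, uniformly in `ε`. -/
theorem fin_redV (hf0 : ∀ l, f l ≠ 0) (A0 : ∀ v, v ≠ 0 → 0 ≤ A v) (A1 : ∀ v, A v ≤ 1)
    (AD : ∃ D : ℕ, 1 ≤ D ∧ ∀ v, ∃ z : ℤ, (D : ℚ) * A v = z) (P0 : PLin Ψ) :
    ∃ V0 : Finset (Fin r → ℤ), (∀ v ∈ V0, v ≠ 0) ∧ ∀ (u : Fin r → ℚ) (ε : ℚ), 0 ≤ ε →
      (∀ v ∈ V0, A v + (Ψ v - ε * n1 v) + ∑ l, (mn v (f l) : ℚ) ≤ dq u v) →
      ∀ v, v ≠ 0 → A v + (Ψ v - ε * n1 v) + ∑ l, (mn v (f l) : ℚ) ≤ dq u v := by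
  classical
  obtain ⟨D, hD, hDA⟩ := AD
  obtain ⟨ω, H, hω, hH0, hH⟩ := P0.ex_mn k
  obtain ⟨g, hg⟩ : ∃ g : J ⊕ (Unit ⊕ Fin r) → (Fin r → ℤ) →₀ k,
    g = Sum.elim f (Sum.elim (fun _ => H) fun i => v1_h k i) := ⟨_, rfl⟩
  have hg0 : ∀ l, g l ≠ 0 := by
    rintro (l | l | l)
    · rw [hg]
      exact hf0 l
    · rw [hg]
      exact hH0
    · rw [hg]
      exact v1_h_ne l
  have hgU : ∀ v : Fin r → ℤ, (∀ l, ∀ m ∈ (g l).support, ∀ m' ∈ (g l).support,
      m ⬝ᵥ v = m' ⬝ᵥ v) → v = 0 := by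
    intro v hv
    funext i
    have h1 := hv (Sum.inr (Sum.inr i)) (Pi.single i 1) (by rw [hg]; exact v1_mem1 i)
      (-Pi.single i 1) (by rw [hg]; exact v1_mem2 i)
    rw [neg_dotProduct, single_one_dotProduct] at h1
    rw [Pi.zero_apply]
    omega
  obtain ⟨C, _, M, hM0, hM⟩ := u7_dec hg0 hgU
  obtain ⟨P, hP⟩ : ∃ P : (a : C) → ℕ → ({m // m ∈ M a} → ℕ) → Prop, ∀ a α c, P a α c ↔
      (∑ m : {m // m ∈ M a}, c m • m.1 ≠ 0 ∧
        (D : ℚ) * A (∑ m : {m // m ∈ M a}, c m • m.1) = α) := ⟨fun a α c => _, fun _ _ _ => Iff.rfl⟩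
  have hfin : ∀ a α, {c | Minimal (P a α) c}.Finite := fun a α =>
    WellQuasiOrderedLE.finite_of_isAntichain (setOfPred_minimal_antichain _)
  refine ⟨(Finset.univ.biUnion fun a : C => M a) ∪ (Finset.univ.biUnion fun a : C =>
    (Finset.range (D + 1)).biUnion fun α => (hfin a α).toFinset.image
      fun c => ∑ m : {m // m ∈ M a}, c m • m.1), fun v hv => ?_, fun u ε hε hV v hv => ?_⟩
  · rw [Finset.mem_union] at hv
    rcases hv with hv | hv
    · rw [Finset.mem_biUnion] at hv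
      obtain ⟨a, _, ha⟩ := hv
      exact hM0 a v ha
    · rw [Finset.mem_biUnion] at hv
      obtain ⟨a, _, hv⟩ := hv
      rw [Finset.mem_biUnion] at hv
      obtain ⟨α, _, hv⟩ := hv
      rw [Finset.mem_image] at hv
      obtain ⟨c, hc, rfl⟩ := hv
      rw [Set.Finite.mem_toFinset] at hc
      exact ((hP a α c).1 hc.1).1
  obtain ⟨φ, hφ⟩ : ∃ φ : (Fin r → ℤ) → ℚ, ∀ w, φ w = dq u w - (Ψ w - ε * n1 w) -
    ∑ l, (mn w (f l) : ℚ) := ⟨_, fun _ => rfl⟩
  obtain ⟨a, n, s, hn, hs, hsv, hsl⟩ := hM v hv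
  obtain ⟨s', hs'⟩ : ∃ s' : Fin n → {m // m ∈ M a}, ∀ j, (s' j).1 = s j :=
    ⟨fun j => ⟨s j, hs j⟩, fun _ => rfl⟩
  obtain ⟨c, hc⟩ : ∃ c : {m // m ∈ M a} → ℕ, ∀ m, c m =
    (Finset.univ.filter fun j => s' j = m).card := ⟨_, fun _ => rfl⟩
  have hvc : ∑ m : {m // m ∈ M a}, c m • m.1 = v := by
    have h1 := v1_countv s' (fun m => m.1)
    simp only [hs', ← hc] at h1
    rw [← h1, hsv]
  -- additivity of `φ`
  have hmnf : ∀ l, mn v (f l) = ∑ j, mn (s j) (f l) := by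
    intro l
    have := hsl (Sum.inl l)
    rw [hg] at this
    exact this
  have hmnH : mn v H = ∑ j, mn (s j) H := by
    have := hsl (Sum.inr (Sum.inl ()))
    rw [hg] at this
    exact this
  have hmnh : ∀ i, mn v (v1_h k i) = ∑ j, mn (s j) (v1_h k i) := by
    intro i
    have := hsl (Sum.inr (Sum.inr i))
    rw [hg] at this
    exact this
  have hadd : φ v = ∑ j, φ (s j) := by
    simp only [hφ]
    rw [Finset.sum_sub_distrib, Finset.sum_sub_distrib, Finset.sum_sub_distrib]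
    have e1 : dq u v = ∑ j, dq u (s j) := by rw [← hsv, u7_dq_sum]
    have e2 : Ψ v = ∑ j, Ψ (s j) := by
      rw [hH, hmnH]
      push_cast
      rw [Finset.mul_sum]
      exact Finset.sum_congr rfl fun j _ => (hH _).symm
    have e3 : n1 v = ∑ j, n1 (s j) := by
      rw [v1_n1 (k := k)]
      simp only [v1_n1 (k := k) (s _)]
      rw [Finset.sum_neg_distrib, Finset.sum_comm]
      congr 1
      refine Finset.sum_congr rfl fun i _ => ?_
      rw [hmnh]
      push_cast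
      rfl
    have e4 : ∑ l, (mn v (f l) : ℚ) = ∑ j, ∑ l, (mn (s j) (f l) : ℚ) := by
      rw [Finset.sum_comm]
      refine Finset.sum_congr rfl fun l _ => ?_
      rw [hmnf]
      push_cast
      rfl
    rw [e1, e2, e3, e4, Finset.mul_sum]
  have hadd' : φ v = ∑ m : {m // m ∈ M a}, (c m : ℚ) * φ m.1 := by
    have h1 := v1_count s' (fun m => φ m.1)
    simp only [hs', ← hc] at h1
    rw [← h1, hadd]
  -- superadditivity
  have hsup : ∀ b : {m // m ∈ M a} → ℕ, φ (∑ m : {m // m ∈ M a}, b m • m.1) ≤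
      ∑ m : {m // m ∈ M a}, (b m : ℚ) * φ m.1 := by
    intro b
    have e1 := v1_dq_smul u (fun m : {m // m ∈ M a} => m.1) b
    have e2 : ∑ m : {m // m ∈ M a}, (b m : ℚ) * Ψ m.1 ≤ Ψ (∑ m : {m // m ∈ M a}, b m • m.1) := by
      have h1 := v1_mn_sup hH0 (fun m : {m // m ∈ M a} => m.1) b
      have h2 : ((∑ m : {m // m ∈ M a}, (b m : ℤ) * mn m.1 H : ℤ) : ℚ) ≤
        (mn (∑ m : {m // m ∈ M a}, b m • m.1) H : ℚ) := by exact_mod_cast h1
      rw [hH]
      have h3 := mul_le_mul_of_nonneg_left h2 hω.le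
      refine le_trans (le_of_eq ?_) h3
      push_cast
      rw [Finset.mul_sum]
      refine Finset.sum_congr rfl fun m _ => ?_
      rw [hH]
      ring
    have e3 : n1 (∑ m : {m // m ∈ M a}, b m • m.1) ≤ ∑ m : {m // m ∈ M a}, (b m : ℚ) * n1 m.1 := by
      refine (n1_sum _ _).trans (le_of_eq ?_)
      refine Finset.sum_congr rfl fun m _ => ?_
      rw [← natCast_zsmul, n1_smul]
      simp
    have e4 : ∑ m : {m // m ∈ M a}, (b m : ℚ) * ∑ l, (mn m.1 (f l) : ℚ) ≤
        ∑ l, (mn (∑ m : {m // m ∈ M a}, b m • m.1) (f l) : ℚ) := by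
      simp only [Finset.mul_sum]
      rw [Finset.sum_comm]
      refine Finset.sum_le_sum fun l _ => ?_
      have h1 := v1_mn_sup (hf0 l) (fun m : {m // m ∈ M a} => m.1) b
      exact_mod_cast h1
    have e5 := mul_le_mul_of_nonneg_left e3 hε
    have e6 : ∑ m : {m // m ∈ M a}, (b m : ℚ) * φ m.1 =
        ∑ m : {m // m ∈ M a}, (b m : ℚ) * dq u m.1 - (∑ m : {m // m ∈ M a}, (b m : ℚ) * Ψ m.1 -
          ε * ∑ m : {m // m ∈ M a}, (b m : ℚ) * n1 m.1) -
          ∑ m : {m // m ∈ M a}, (b m : ℚ) * ∑ l, (mn m.1 (f l) : ℚ) := by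
      rw [Finset.mul_sum, ← Finset.sum_sub_distrib, ← Finset.sum_sub_distrib,
        ← Finset.sum_sub_distrib]
      refine Finset.sum_congr rfl fun m _ => ?_
      rw [hφ]
      ring
    rw [e6, hφ, e1]
    linarith
  have hVφ : ∀ w, w ≠ 0 → w ∈ ((Finset.univ.biUnion fun a : C => M a) ∪
      (Finset.univ.biUnion fun a : C => (Finset.range (D + 1)).biUnion fun α =>
        (hfin a α).toFinset.image fun c => ∑ m : {m // m ∈ M a}, c m • m.1)) → A w ≤ φ w := by
    intro w _ hw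
    have := hV w hw
    rw [hφ]
    linarith
  have hm0 : ∀ m : {m // m ∈ M a}, 0 ≤ φ m.1 := by
    intro m
    have h0 := hM0 a m.1 m.2
    refine (A0 _ h0).trans (hVφ _ h0 ?_)
    rw [Finset.mem_union]
    left
    rw [Finset.mem_biUnion]
    exact ⟨a, Finset.mem_univ a, m.2⟩
  -- the value of `A`
  obtain ⟨z, hz⟩ := hDA v
  have hD' : (0 : ℚ) < D := by exact_mod_cast hD
  have hz0 : 0 ≤ z := by
    have : (0 : ℚ) ≤ z := by
      rw [← hz]
      exact mul_nonneg hD'.le (A0 v hv)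
    exact_mod_cast this
  have hz1 : z ≤ D := by
    have : (z : ℚ) ≤ D := by
      rw [← hz]
      have := A1 v
      nlinarith
    exact_mod_cast this
  have hPc : P a z.toNat c := by
    rw [hP, hvc]
    refine ⟨hv, ?_⟩
    rw [hz]
    have h1 : ((z.toNat : ℕ) : ℤ) = z := Int.toNat_of_nonneg hz0
    exact_mod_cast h1.symm
  obtain ⟨b, hbc, hb⟩ := exists_minimal_le_of_wellFoundedLT (P a z.toNat) c hPc
  have hPb := (hP _ _ _).1 hb.1
  have hAb : A (∑ m : {m // m ∈ M a}, b m • m.1) = A v := by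
    have h1 := hPb.2
    have h2 := ((hP _ _ _).1 hPc).2
    rw [hvc, ← h1] at h2
    exact (mul_left_cancel₀ hD'.ne' h2).symm
  have hb1 : A (∑ m : {m // m ∈ M a}, b m • m.1) ≤ φ (∑ m : {m // m ∈ M a}, b m • m.1) := by
    refine hVφ _ hPb.1 ?_
    rw [Finset.mem_union]
    right
    rw [Finset.mem_biUnion]
    refine ⟨a, Finset.mem_univ a, ?_⟩
    rw [Finset.mem_biUnion]
    refine ⟨z.toNat, Finset.mem_range.2 (by omega), ?_⟩
    rw [Finset.mem_image]
    exact ⟨b, (Set.Finite.mem_toFinset _).2 hb, rfl⟩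
  have hb2 : ∑ m : {m // m ∈ M a}, (b m : ℚ) * φ m.1 ≤ ∑ m : {m // m ∈ M a}, (c m : ℚ) * φ m.1 := by
    refine Finset.sum_le_sum fun m _ => ?_
    have : (b m : ℚ) ≤ c m := by exact_mod_cast hbc m
    exact mul_le_mul_of_nonneg_right this (hm0 m)
  have hfinal : A v ≤ φ v := by
    rw [← hAb, hadd']
    exact hb1.trans ((hsup b).trans hb2)
  rw [hφ] at hfinal
  linarith

end

end Pool.Agent.R885.N
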