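import Pool.Agent.R885.V0
import Pool.Agent.R885.U7
import Pool.Agent.R885.U8
import Pool.Agent.R885.U11

/-!
The tight vectors generated by finitely many ones.
-/

set_option autoImplicit false
set_option linter.overlappingInstances false
set_option linter.unusedSectionVars false
set_option linter.unusedVariables false

namespace Pool.Agent.R885.N

theorem v3a_super {r : ℕ} {ι : Type} [DecidableEq ι] {A Ψ : (Fin r → ℤ) → ℚ} (P0 : PLin Ψ)
    (AP : ∀ v w, v ≠ 0 → w ≠ 0 → v + w ≠ 0 → A v + Ψ v + (A w + Ψ w) - 1 ≤ A (v + w) + Ψ (v + w))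
    (s : ι → Fin r → ℤ) (N : ℕ) : ∀ T : Finset ι, T.card ≤ N → (∀ i ∈ T, A (s i) = 1) →
      ∑ i ∈ T, s i ≠ 0 → ∑ i ∈ T, Ψ (s i) = Ψ (∑ i ∈ T, s i) → 1 ≤ A (∑ i ∈ T, s i) := by
  induction N with
  | zero =>
    intro T hT _ h0 _
    exfalso
    apply h0
    rw [Finset.card_eq_zero.1 (Nat.le_zero.1 hT), Finset.sum_empty]
  | succ N ih =>
    intro T hT hA h0 hΨ
    by_cases hex : ∃ T' ⊆ T, T'.Nonempty ∧ ∑ a ∈ T', s a = 0
    · obtain ⟨T', hT', hn, hz⟩ := hex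
      have h1 : ∑ a ∈ T \ T', s a = ∑ a ∈ T, s a := by
        rw [← Finset.sum_sdiff hT', hz, add_zero]
      have h2 := Finset.sum_sdiff (f := fun a => Ψ (s a)) hT'
      have h3 := P0.sum_le T' s
      have h4 := P0.sum_le (T \ T') s
      rw [hz, P0.zero] at h3
      rw [h1] at h4
      have h5 : (T \ T').card < T.card :=
        Finset.card_lt_card (Finset.sdiff_ssubset hT' hn)
      rw [← h1]
      refine ih (T \ T') (by omega) (fun i hi => hA i (Finset.mem_sdiff.1 hi).1)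
        (by rw [h1]; exact h0) ?_
      rw [h1]
      linarith
    · push Not at hex
      have hTn : T.Nonempty := by
        rw [Finset.nonempty_iff_ne_empty]
        rintro rfl
        exact h0 Finset.sum_empty
      have h1 := u8_super (b := fun v => A v + Ψ v) (t := 1) AP s T hTn
        fun T' hT' hn => hex T' hT' hn
      beta_reduce at h1
      rw [Finset.sum_add_distrib, Finset.sum_congr rfl hA, Finset.sum_const, nsmul_eq_mul] at h1
      linarith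

/-- finitely many rational numbers in the unit interval with a given denominator -/
theorem v3a_fin {D : ℕ} (hD : 1 ≤ D) :
    {q : ℚ | 0 ≤ q ∧ q ≤ 1 ∧ ∃ z : ℤ, (D : ℚ) * q = z}.Finite := by
  have hD' : (0 : ℚ) < D := by exact_mod_cast hD
  refine Set.Finite.subset ((Finset.Icc (0 : ℤ) D).image fun z : ℤ => (z : ℚ) / D).finite_toSet ?_
  rintro q ⟨h0, h1, z, hz⟩
  rw [Finset.mem_coe, Finset.mem_image]
  refine ⟨z, Finset.mem_Icc.2 ⟨?_, ?_⟩, ?_⟩
  · have h2 : (0 : ℚ) ≤ z := by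
      rw [← hz]
      positivity
    exact_mod_cast h2
  · have h2 : (z : ℚ) ≤ D := by
      rw [← hz]
      nlinarith
    exact_mod_cast h2
  · rw [← hz]
    field_simp

section

variable {r : ℕ} {k : Type} [Field k] {J : Type} [Fintype J] {f : J → (Fin r → ℤ) →₀ k}
  {A Ψ : (Fin r → ℤ) → ℚ}

/-- V3a: finiteness of the tight vectors generated by finitely many ones. -/
theorem tight_finV (hf0 : ∀ l, f l ≠ 0) (A0 : ∀ v, v ≠ 0 → 0 ≤ A v) (A1 : ∀ v, A v ≤ 1)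
    (AD : ∃ D : ℕ, 1 ≤ D ∧ ∀ v, ∃ z : ℤ, (D : ℚ) * A v = z) (P0 : PLin Ψ)
    (AP : ∀ v w, v ≠ 0 → w ≠ 0 → v + w ≠ 0 → A v + Ψ v + (A w + Ψ w) - 1 ≤ A (v + w) + Ψ (v + w))
    {u : Fin r → ℚ} (hF : ∀ v, v ≠ 0 → A v + Ψ v + ∑ l, (mn v (f l) : ℚ) ≤ dq u v)
    {S0 : Finset (Fin r → ℤ)} (hS0 : ∀ s ∈ S0, s ≠ 0) :
    {v : Fin r → ℤ | v ≠ 0 ∧ dq u v = A v + Ψ v + ∑ l, (mn v (f l) : ℚ) ∧
      ∃ n : (Fin r → ℤ) → ℕ, v = ∑ s ∈ S0, n s • s ∧
        ∑ s ∈ S0, (n s : ℚ) * (1 - (A s + Ψ s)) ≤ 1 - (A v + Ψ v)}.Finite := by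
  classical
  obtain ⟨D1, hD1, hDA⟩ := AD
  obtain ⟨ω, H, hω, hH0, hH⟩ := P0.ex_mn k
  -- the common denominator
  obtain ⟨D, hDd⟩ : ∃ D : ℕ, D = D1 * ω.den := ⟨_, rfl⟩
  have hD : 1 ≤ D := by
    rw [hDd]
    exact Nat.mul_pos hD1 ω.den_pos
  have hDA' : ∀ v, ∃ z : ℤ, (D : ℚ) * A v = z := by
    intro v
    obtain ⟨z, hz⟩ := hDA v
    refine ⟨ω.den * z, ?_⟩
    rw [hDd]
    push_cast
    rw [← hz]
    ring
  have hDΨ : ∀ v, ∃ z : ℤ, (D : ℚ) * Ψ v = z := by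
    intro v
    refine ⟨D1 * ω.num * mn v H, ?_⟩
    rw [hDd, hH v]
    have h1 : ω * ω.den = ω.num := Rat.mul_den_eq_num ω
    push_cast
    rw [← h1]
    ring
  obtain ⟨g, hg⟩ : ∃ g : J ⊕ Unit → (Fin r → ℤ) →₀ k, g = Sum.elim f fun _ => H := ⟨_, rfl⟩
  have hg0 : ∀ l, g l ≠ 0 := by
    rintro (l | l)
    · rw [hg]
      exact hf0 l
    · rw [hg]
      exact hH0
  let Ch := (l : J ⊕ Unit) → {m // m ∈ (g l).support}
  let E := Σ l : J ⊕ Unit, {m // m ∈ (g l).support}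
  have hcone : ∀ v : Fin r → ℤ, ∃ a : Ch, ∀ l, (a l : Fin r → ℤ) ⬝ᵥ v = mn v (g l) := by
    intro v
    choose m hm hm' using fun l => exists_mn (hg0 l) v
    exact ⟨fun l => ⟨m l, hm l⟩, hm'⟩
  choose cone hcone' using hcone
  obtain ⟨X, hX⟩ : ∃ X : Set (Fin r → ℤ), X = {v : Fin r → ℤ | v ≠ 0 ∧
      dq u v = A v + Ψ v + ∑ l, (mn v (f l) : ℚ) ∧
      ∃ n : (Fin r → ℤ) → ℕ, v = ∑ s ∈ S0, n s • s ∧
        ∑ s ∈ S0, (n s : ℚ) * (1 - (A s + Ψ s)) ≤ 1 - (A v + Ψ v)} := ⟨_, rfl⟩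
  rw [← hX]
  have hX' : ∀ v : Fin r → ℤ, ∃ n : (Fin r → ℤ) → ℕ, v ∈ X → v = ∑ s ∈ S0, n s • s ∧
      ∑ s ∈ S0, (n s : ℚ) * (1 - (A s + Ψ s)) ≤ 1 - (A v + Ψ v) := by
    intro v
    by_cases hv : v ∈ X
    · have hv' := hv
      rw [hX] at hv'
      obtain ⟨-, -, n, hn⟩ := hv'
      exact ⟨n, fun _ => hn⟩
    · exact ⟨fun _ => 0, fun h => absurd h hv⟩
  choose nf hnf using hX'
  have hXt : ∀ v ∈ X, v ≠ 0 ∧ dq u v = A v + Ψ v + ∑ l, (mn v (f l) : ℚ) := by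
    intro v hv
    rw [hX] at hv
    exact ⟨hv.1, hv.2.1⟩
  -- the labels
  obtain ⟨Ev, hEv⟩ : ∃ Ev : (Fin r → ℤ) → ℚ, Ev = fun v => Ψ v - ∑ s ∈ S0, (nf v s : ℚ) * Ψ s :=
    ⟨_, rfl⟩
  obtain ⟨Fv, hFv⟩ : ∃ Fv : (Fin r → ℤ) → ℚ, Fv = fun v => ∑ s ∈ S0, (nf v s : ℚ) * (1 - A s) :=
    ⟨_, rfl⟩
  have hEF : ∀ v ∈ X, 0 ≤ Ev v ∧ 0 ≤ Fv v ∧ Ev v + Fv v ≤ 1 - A v := by
    intro v hv
    obtain ⟨h1, h2⟩ := hnf v hv
    have h3 : Ev v + Fv v = ∑ s ∈ S0, (nf v s : ℚ) * (1 - (A s + Ψ s)) + Ψ v := by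
      rw [hEv, hFv]
      beta_reduce
      have h4 : ∑ s ∈ S0, (nf v s : ℚ) * (1 - (A s + Ψ s)) =
          ∑ s ∈ S0, (nf v s : ℚ) * (1 - A s) - ∑ s ∈ S0, (nf v s : ℚ) * Ψ s := by
        rw [← Finset.sum_sub_distrib]
        exact Finset.sum_congr rfl fun s _ => by ring
      rw [h4]
      ring
    refine ⟨?_, ?_, by rw [h3]; linarith⟩
    · rw [hEv]
      beta_reduce
      have h5 := P0.sum_le S0 fun s => nf v s • s
      rw [← h1] at h5
      have h6 : ∀ s ∈ S0, Ψ (nf v s • s) = (nf v s : ℚ) * Ψ s := by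
        intro s _
        have h7 := P0.zsmul (g := (nf v s : ℤ)) (Int.natCast_nonneg _) s
        rw [natCast_zsmul] at h7
        rw [h7]
        push_cast
        rfl
      rw [Finset.sum_congr rfl h6] at h5
      linarith
    · rw [hFv]
      exact Finset.sum_nonneg fun s _ => mul_nonneg (Nat.cast_nonneg _) (sub_nonneg.2 (A1 s))
  have hint : ∀ (n : (Fin r → ℤ) → ℕ) (B : (Fin r → ℤ) → ℚ), (∀ s, ∃ z : ℤ, (D : ℚ) * B s = z) →
      ∃ z : ℤ, (D : ℚ) * ∑ s ∈ S0, (n s : ℚ) * B s = z := by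
    intro n B hB
    choose z hz using hB
    refine ⟨∑ s ∈ S0, n s * z s, ?_⟩
    push_cast
    rw [Finset.mul_sum]
    refine Finset.sum_congr rfl fun s _ => ?_
    rw [← hz]
    ring
  obtain ⟨Fin1, hFin1⟩ : ∃ Fin1 : Set ℚ,
      Fin1 = {q : ℚ | 0 ≤ q ∧ q ≤ 1 ∧ ∃ z : ℤ, (D : ℚ) * q = z} := ⟨_, rfl⟩
  have hFin1' : Fin1.Finite := by
    rw [hFin1]
    exact v3a_fin hD
  refine Set.Finite.of_finite_fibers (fun v => (cone v, A v, Ev v, Fv v)) ?_ ?_
  · refine Set.Finite.subset (Set.Finite.prod (Set.toFinite (Set.univ : Set Ch))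
      (Set.Finite.prod hFin1' (Set.Finite.prod hFin1' hFin1'))) ?_
    rintro _ ⟨v, hv, rfl⟩
    obtain ⟨h1, h2, h3⟩ := hEF v hv
    have h4 := A0 v (hXt v hv).1
    refine ⟨trivial, ?_, ?_, ?_⟩
    · rw [hFin1]
      exact ⟨h4, A1 v, hDA' v⟩
    · rw [hFin1]
      refine ⟨h1, by change Ev v ≤ 1; linarith, ?_⟩
      obtain ⟨z1, hz1⟩ := hDΨ v
      obtain ⟨z2, hz2⟩ := hint (nf v) Ψ hDΨ
      refine ⟨z1 - z2, ?_⟩
      rw [hEv]
      change (D : ℚ) * (Ψ v - ∑ s ∈ S0, (nf v s : ℚ) * Ψ s) = _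
      push_cast
      rw [← hz1, ← hz2]
      ring
    · rw [hFin1]
      refine ⟨h2, by change Fv v ≤ 1; linarith, ?_⟩
      rw [hFv]
      refine hint (nf v) (fun s => 1 - A s) fun s => ?_
      obtain ⟨z, hz⟩ := hDA' s
      refine ⟨D - z, ?_⟩
      push_cast
      rw [← hz]
      ring
  · rintro ⟨a, α, e1, e2⟩ -
    obtain ⟨Φ, hΦ⟩ : ∃ Φ : (Fin r → ℤ) → ({s // s ∈ S0} ⊕ E) → ℕ, Φ = fun v => Sum.elim
      (fun s : {s // s ∈ S0} => nf v (s : Fin r → ℤ)) (fun e : E => (((e.2 : Fin r → ℤ) - (a e.1 : Fin r → ℤ)) ⬝ᵥ v).toNat) :=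
      ⟨_, rfl⟩
    refine Set.Finite.of_finite_image (f := Φ) ?_ ?_
    swap
    · -- injectivity
      rintro v ⟨hv, -⟩ w ⟨hw, -⟩ hvw
      rw [(hnf v hv).1, (hnf w hw).1]
      refine Finset.sum_congr rfl fun s hs => ?_
      have h1 := congrFun hvw (Sum.inl ⟨s, hs⟩)
      rw [hΦ] at h1
      simp only [Sum.elim_inl] at h1
      rw [h1]
    refine WellQuasiOrderedLE.finite_of_isAntichain ?_
    rintro _ ⟨v, ⟨hv, hvl⟩, rfl⟩ _ ⟨w, ⟨hw, hwl⟩, rfl⟩ hne hle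
    have hvl' : (cone v, A v, Ev v, Fv v) = (a, α, e1, e2) := hvl
    have hwl' : (cone w, A w, Ev w, Fv w) = (a, α, e1, e2) := hwl
    rw [Prod.mk.injEq, Prod.mk.injEq, Prod.mk.injEq] at hvl' hwl'
    obtain ⟨v1, v2, v3, v4⟩ := hvl'
    obtain ⟨w1, w2, w3, w4⟩ := hwl'
    have hva := hcone' v
    have hwa := hcone' w
    rw [v1] at hva
    rw [w1] at hwa
    have hvw : w - v ≠ 0 := by
      intro h0
      apply hne
      rw [sub_eq_zero.1 h0]
    have hΦe : ∀ (z : Fin r → ℤ), (∀ l, (a l : Fin r → ℤ) ⬝ᵥ z = mn z (g l)) → ∀ e : E,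
        ((Φ z (Sum.inr e) : ℕ) : ℤ) = ((e.2 : Fin r → ℤ) - (a e.1 : Fin r → ℤ)) ⬝ᵥ z := by
      intro z hz e
      rw [hΦ]
      change (((((e.2 : Fin r → ℤ) - (a e.1 : Fin r → ℤ)) ⬝ᵥ z).toNat : ℕ) : ℤ) = _
      refine Int.toNat_of_nonneg ?_
      rw [sub_dotProduct, hz e.1]
      exact sub_nonneg.2 (mn_le e.2.2)
    have hmn : ∀ l, mn (w - v) (g l) = mn w (g l) - mn v (g l) := by
      intro l
      apply le_antisymm
      · have h1 := mn_le (v := w - v) (a l).2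
        rw [dotProduct_sub, hva, hwa] at h1
        exact h1
      · refine le_mn (hg0 l) fun m hm => ?_
        have h1 := hΦe v hva ⟨l, m, hm⟩
        have h2 := hΦe w hwa ⟨l, m, hm⟩
        have h3 : ((Φ v (Sum.inr ⟨l, m, hm⟩) : ℕ) : ℤ) ≤ Φ w (Sum.inr ⟨l, m, hm⟩) := by
          exact_mod_cast hle _
        rw [h1, h2] at h3
        change (m - (a l : Fin r → ℤ)) ⬝ᵥ v ≤ (m - (a l : Fin r → ℤ)) ⬝ᵥ w at h3
        rw [sub_dotProduct, sub_dotProduct, hva, hwa] at h3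
        rw [dotProduct_sub]
        omega
    have hΨd : Ψ (w - v) = Ψ w - Ψ v := by
      have h1 := hmn (Sum.inr ())
      rw [hg] at h1
      simp only [Sum.elim_inr] at h1
      rw [hH, hH w, hH v, h1]
      push_cast
      ring
    have hfd : ∑ l, (mn (w - v) (f l) : ℚ) = ∑ l, (mn w (f l) : ℚ) - ∑ l, (mn v (f l) : ℚ) := by
      rw [← Finset.sum_sub_distrib]
      refine Finset.sum_congr rfl fun l _ => ?_
      have h1 := hmn (Sum.inl l)
      rw [hg] at h1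
      simp only [Sum.elim_inl] at h1
      rw [h1]
      push_cast
      rfl
    have hdqd : dq u (w - v) = dq u w - dq u v := by
      have h1 := dq_add' u (w - v) v
      rw [sub_add_cancel] at h1
      linarith
    have hAd : A (w - v) ≤ 0 := by
      have h1 := hF _ hvw
      rw [hΨd, hfd, hdqd, (hXt v hv).2, (hXt w hw).2, v2, w2] at h1
      linarith
    -- the difference of the coefficients
    have hle' : ∀ s ∈ S0, nf v s ≤ nf w s := by
      intro s hs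
      have h1 := hle (Sum.inl ⟨s, hs⟩)
      rw [hΦ] at h1
      exact h1
    obtain ⟨p, hp⟩ : ∃ p : (Fin r → ℤ) → ℕ, p = fun s => nf w s - nf v s := ⟨_, rfl⟩
    have hpq : ∀ s ∈ S0, (p s : ℚ) = nf w s - nf v s := by
      intro s hs
      rw [hp]
      exact Nat.cast_sub (hle' s hs)
    have hd : w - v = ∑ s ∈ S0, p s • s := by
      have h1 : w - v = ∑ s ∈ S0, nf w s • s - ∑ s ∈ S0, nf v s • s := by
        rw [← (hnf v hv).1, ← (hnf w hw).1]
      rw [h1, ← Finset.sum_sub_distrib]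
      refine Finset.sum_congr rfl fun s hs => ?_
      have h2 : nf w s = p s + nf v s := by
        have h3 := hle' s hs
        rw [hp]
        beta_reduce
        omega
      rw [h2, add_smul, add_sub_cancel_right]
    have hFp : ∀ s ∈ S0, (p s : ℚ) * (1 - A s) = 0 := by
      refine (Finset.sum_eq_zero_iff_of_nonneg fun s _ =>
        mul_nonneg (Nat.cast_nonneg _) (sub_nonneg.2 (A1 s))).1 ?_
      have h1 : ∑ s ∈ S0, (p s : ℚ) * (1 - A s) = Fv w - Fv v := by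
        rw [hFv]
        beta_reduce
        rw [← Finset.sum_sub_distrib]
        exact Finset.sum_congr rfl fun s hs => by rw [hpq s hs]; ring
      rw [h1, v4, w4, sub_self]
    have hEp : Ψ (w - v) = ∑ s ∈ S0, (p s : ℚ) * Ψ s := by
      have h1 : ∑ s ∈ S0, (p s : ℚ) * Ψ s =
          ∑ s ∈ S0, (nf w s : ℚ) * Ψ s - ∑ s ∈ S0, (nf v s : ℚ) * Ψ s := by
        rw [← Finset.sum_sub_distrib]
        exact Finset.sum_congr rfl fun s hs => by rw [hpq s hs]; ring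
      have h2 : Ev w = Ev v := by rw [v3, w3]
      rw [hEv] at h2
      beta_reduce at h2
      rw [h1, hΨd]
      linarith
    -- the multiset
    obtain ⟨T, hT⟩ : ∃ T : Finset (Σ _ : (Fin r → ℤ), ℕ),
      T = S0.sigma fun s => Finset.range (p s) := ⟨_, rfl⟩
    have hTs : ∑ i ∈ T, i.1 = w - v := by
      rw [hT, Finset.sum_sigma, hd]
      refine Finset.sum_congr rfl fun s _ => ?_
      change ∑ _j ∈ Finset.range (p s), s = _
      rw [Finset.sum_const, Finset.card_range]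
    have hTΨ : ∑ i ∈ T, Ψ i.1 = Ψ (w - v) := by
      rw [hT, Finset.sum_sigma, hEp]
      refine Finset.sum_congr rfl fun s _ => ?_
      change ∑ _j ∈ Finset.range (p s), Ψ s = _
      rw [Finset.sum_const, Finset.card_range, nsmul_eq_mul]
    have hT1 := v3a_super P0 AP (fun i : (Σ _ : (Fin r → ℤ), ℕ) => i.1) T.card T le_rfl (by
      intro i hi
      rw [hT, Finset.mem_sigma, Finset.mem_range] at hi
      have h1 := hFp i.1 hi.1
      have h2 : (p i.1 : ℚ) ≠ 0 := by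
        have : 0 < p i.1 := by omega
        exact_mod_cast this.ne'
      have h3 := (mul_eq_zero.1 h1).resolve_left h2
      beta_reduce
      linarith) (by
      beta_reduce
      rw [hTs]
      exact hvw) (by
      beta_reduce
      rw [hTs, hTΨ])
    beta_reduce at hT1
    rw [hTs] at hT1
    linarith

end

end Pool.Agent.R885.N
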