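import Pool.Agent.R885.V0
import Pool.Agent.R885.V1
import Pool.Agent.R885.V3a
import Pool.Agent.R885.G1

/-!
The tight vectors at a general point of the polytope of a system with weights `0 ≤ A ≤ 1`.
-/

set_option autoImplicit false
set_option linter.overlappingInstances false
set_option linter.unusedSectionVars false

namespace Pool.Agent.R885.N

/-- finitely many conditions on small positive numbers -/
private theorem v3b_delta {α : Type} (V : Finset α) (P : α → ℚ → Prop)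
    (h : ∀ v ∈ V, ∃ δ0 : ℚ, 0 < δ0 ∧ ∀ δ : ℚ, 0 < δ → δ ≤ δ0 → P v δ) :
    ∃ δ0 : ℚ, 0 < δ0 ∧ ∀ δ : ℚ, 0 < δ → δ ≤ δ0 → ∀ v ∈ V, P v δ := by
  classical
  induction V using Finset.induction_on with
  | empty => exact ⟨1, one_pos, fun δ _ _ v hv => absurd hv (Finset.notMem_empty v)⟩
  | insert a V ha ih =>
    obtain ⟨δ1, h1, h1'⟩ := h a (Finset.mem_insert_self a V)
    obtain ⟨δ2, h2, h2'⟩ := ih fun v hv => h v (Finset.mem_insert_of_mem hv)
    refine ⟨min δ1 δ2, lt_min h1 h2, fun δ hδ hδ' v hv => ?_⟩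
    rcases Finset.mem_insert.1 hv with rfl | hv
    · exact h1' δ hδ (hδ'.trans (min_le_left _ _))
    · exact h2' δ hδ (hδ'.trans (min_le_right _ _)) v hv

section

variable {r : ℕ}

private theorem v3b_pert {V0 : Finset (Fin r → ℤ)} {Φ : (Fin r → ℤ) → ℚ} {u q : Fin r → ℚ}
    (hu : ∀ v ∈ V0, Φ v ≤ dq u v) (hq : ∀ v ∈ V0, Φ v = dq u v → 0 ≤ dq q v) :
    ∃ δ0 : ℚ, 0 < δ0 ∧ ∀ δ : ℚ, 0 < δ → δ ≤ δ0 →
      ∀ v ∈ V0, Φ v ≤ dq (fun i => u i + δ * q i) v := by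
  refine v3b_delta V0 (fun v δ => Φ v ≤ dq (fun i => u i + δ * q i) v) fun v hv => ?_
  by_cases h : Φ v = dq u v
  · refine ⟨1, one_pos, fun δ hδ _ => ?_⟩
    rw [dq_add_smul, h]
    have := mul_nonneg hδ.le (hq v hv h)
    linarith
  · have h1 : 0 < dq u v - Φ v := by
      have := lt_of_le_of_ne (hu v hv) h
      linarith
    refine ⟨(dq u v - Φ v) / (|dq q v| + 1), by positivity, fun δ hδ hδ' => ?_⟩
    rw [dq_add_smul]
    have h2 : δ * (|dq q v| + 1) ≤ dq u v - Φ v := by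
      rwa [le_div_iff₀ (by positivity)] at hδ'
    have h3 := mul_le_mul_of_nonneg_left (neg_abs_le (dq q v)) hδ.le
    linarith

/-- the point with the fewest tight vectors -/
private theorem v3b_rat {V0 : Finset (Fin r → ℤ)} {Φ : (Fin r → ℤ) → ℚ} {F : Set (Fin r → ℚ)}
    (hV0 : ∀ v ∈ V0, v ≠ 0) (hF : ∀ u, u ∈ F ↔ ∀ v ∈ V0, Φ v ≤ dq u v) (hne : F.Nonempty) :
    ∃ (u : Fin r → ℚ) (S0 : Finset (Fin r → ℤ)), u ∈ F ∧ (∀ s ∈ S0, s ≠ 0) ∧
      (∀ u' ∈ F, ∀ s ∈ S0, dq u' s = Φ s) ∧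
      ∀ q : Fin r → ℚ, (∀ s ∈ S0, 0 ≤ dq q s) → ∃ δ0 : ℚ, 0 < δ0 ∧
        ∀ δ : ℚ, 0 < δ → δ ≤ δ0 → (fun i => u i + δ * q i) ∈ F := by
  classical
  obtain ⟨u, hu, hmin⟩ : ∃ u ∈ F, ∀ u' ∈ F, (V0.filter fun v => Φ v = dq u v).card ≤
      (V0.filter fun v => Φ v = dq u' v).card := by
    have h1 : ∃ n, ∃ u ∈ F, (V0.filter fun v => Φ v = dq u v).card = n := by
      obtain ⟨u, hu⟩ := hne
      exact ⟨_, u, hu, rfl⟩
    obtain ⟨u, hu, hun⟩ := Nat.find_spec h1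
    refine ⟨u, hu, fun u' hu' => ?_⟩
    rw [hun]
    exact Nat.find_min' h1 ⟨u', hu', rfl⟩
  refine ⟨u, V0.filter fun v => Φ v = dq u v, hu, fun s hs => hV0 s (Finset.mem_filter.1 hs).1,
    ?_, ?_⟩
  · intro u' hu' s hs
    have hdm : ∀ v, dq (fun i => u i + 1 / 2 * (u' i - u i)) v = (dq u v + dq u' v) / 2 := by
      intro v
      rw [dq_add_smul]
      have h2 : dq (fun i => u' i - u i) v = dq u' v - dq u v := by
        unfold dq
        rw [← Finset.sum_sub_distrib]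
        exact Finset.sum_congr rfl fun i _ => by ring
      rw [h2]
      ring
    have h1 := (hF u).1 hu
    have h2 := (hF u').1 hu'
    have hmid : (fun i => u i + 1 / 2 * (u' i - u i)) ∈ F := by
      rw [hF]
      intro v hv
      rw [hdm]
      have := h1 v hv
      have := h2 v hv
      linarith
    have hsub : (V0.filter fun v => Φ v = dq (fun i => u i + 1 / 2 * (u' i - u i)) v) ⊆
        V0.filter fun v => Φ v = dq u v := by
      intro v hv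
      obtain ⟨hv0, hv1⟩ := Finset.mem_filter.1 hv
      refine Finset.mem_filter.2 ⟨hv0, ?_⟩
      rw [hdm] at hv1
      have := h1 v hv0
      have := h2 v hv0
      linarith
    have heq := Finset.eq_of_subset_of_card_le hsub (hmin _ hmid)
    have hs' := hs
    rw [← heq] at hs'
    have h3 := (Finset.mem_filter.1 hs').2
    have h4 := (Finset.mem_filter.1 hs).2
    rw [hdm] at h3
    linarith
  · intro q hq
    obtain ⟨δ0, h0, h1⟩ := v3b_pert ((hF u).1 hu) (q := q)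
      (fun v hv hv' => hq v (Finset.mem_filter.2 ⟨hv, hv'⟩))
    exact ⟨δ0, h0, fun δ hδ hδ' => (hF _).2 (h1 δ hδ hδ')⟩

private theorem v3b_dq_neg (q : Fin r → ℚ) (v : Fin r → ℤ) :
    dq (fun i => -q i) v = -dq q v := by
  unfold dq
  rw [← Finset.sum_neg_distrib]
  exact Finset.sum_congr rfl fun i _ => by ring

end

section

variable {r : ℕ} {k : Type} [Field k] {J : Type} [Fintype J] {f : J → (Fin r → ℤ) →₀ k}
  {A Ψ : (Fin r → ℤ) → ℚ}

/-- V3b: the tight vectors at a general point of the polytope. -/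
theorem exists_tightV (hf0 : ∀ l, f l ≠ 0) (A0 : ∀ v, v ≠ 0 → 0 ≤ A v) (A1 : ∀ v, A v ≤ 1)
    (AD : ∃ D : ℕ, 1 ≤ D ∧ ∀ v, ∃ z : ℤ, (D : ℚ) * A v = z) (P0 : PLin Ψ)
    (AP : ∀ v w, v ≠ 0 → w ≠ 0 → v + w ≠ 0 → A v + Ψ v + (A w + Ψ w) - 1 ≤ A (v + w) + Ψ (v + w))
    {J' : Type} [Fintype J'] (cw : J' → ℚ) (hne : (FineG A Ψ f).Nonempty) :
    ∃ (u0 : Fin r → ℤ) (c : ℤ) (a' : (Fin r → ℤ) → ℤ) (nn : J' → ℤ) (S : Finset (Fin r → ℤ)),
      0 < c ∧ (∀ v, (a' v : ℚ) = c * (A v + Ψ v)) ∧ (∀ j, (nn j : ℚ) = c * cw j) ∧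
      (∀ v, v ≠ 0 → a' v + c * ∑ l, mn v (f l) ≤ u0 ⬝ᵥ v) ∧
      (∀ s ∈ S, s ≠ 0 ∧ u0 ⬝ᵥ s = a' s + c * ∑ l, mn s (f l)) ∧
      (∀ (j : ℕ) (σ : Fin j → Fin r → ℤ), (∀ i, σ i ∈ S) → ∑ i, σ i ≠ 0 →
        u0 ⬝ᵥ (∑ i, σ i) = a' (∑ i, σ i) + c * ∑ l, mn (∑ i, σ i) (f l) →
        a' (∑ i, σ i) + c * ((j : ℤ) - 1) = ∑ i, a' (σ i) → ∑ i, σ i ∈ S) ∧
      (∀ q : Fin r → ℚ, (∀ s ∈ S, 0 ≤ dq q s) → ∀ s ∈ S, dq q s = 0) ∧
      (∀ w, w ∈ dirsG A Ψ f ↔ ∀ s ∈ S, w ⬝ᵥ s = 0) ∧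
      (∀ v, v ≠ 0 → u0 ⬝ᵥ v = a' v + c * ∑ l, mn v (f l) →
        ∀ w : Fin r → ℤ, (∀ s ∈ S, w ⬝ᵥ s = 0) → w ⬝ᵥ v = 0) := by
  classical
  obtain ⟨V0, hV0, hred⟩ := fin_redV hf0 A0 A1 AD P0
  let Φ : (Fin r → ℤ) → ℚ := fun v => A v + Ψ v + ∑ l, (mn v (f l) : ℚ)
  have hΦ : ∀ v, Φ v = A v + Ψ v + ∑ l, (mn v (f l) : ℚ) := fun v => rfl
  have hFV : ∀ u, u ∈ FineG A Ψ f ↔ ∀ v ∈ V0, Φ v ≤ dq u v := by
    intro u
    constructor
    · intro hu v hv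
      exact hu v (hV0 v hv)
    · intro hu v hv
      have h1 := hred u 0 le_rfl (fun v hv => by
        rw [zero_mul, sub_zero]
        exact hu v hv) v hv
      rw [zero_mul, sub_zero] at h1
      exact h1
  obtain ⟨u, S0, huF, hS0, hconst, hpert⟩ := v3b_rat hV0 hFV hne
  have hFu : ∀ v, v ≠ 0 → Φ v ≤ dq u v := fun v hv => huF v hv
  -- orthogonality of the tight vectors
  have hpos0 : ∀ q : Fin r → ℚ, (∀ s ∈ S0, 0 ≤ dq q s) → ∀ s ∈ S0, dq q s = 0 := by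
    intro q hq s hs
    obtain ⟨δ, hδ, h1⟩ := hpert q hq
    have h2 := hconst _ (h1 δ hδ le_rfl) s hs
    rw [dq_add_smul, hconst u huF s hs] at h2
    have h3 : δ * dq q s = 0 := by linarith
    exact (mul_eq_zero.1 h3).resolve_left hδ.ne'
  have horth1 : ∀ q : Fin r → ℚ, (∀ s ∈ S0, 0 ≤ dq q s) → ∀ v, v ≠ 0 → dq u v = Φ v →
      0 ≤ dq q v := by
    intro q hq v hv hv1
    obtain ⟨δ, hδ, h1⟩ := hpert q hq
    have h2 : Φ v ≤ _ := h1 δ hδ le_rfl v hv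
    rw [dq_add_smul, hv1] at h2
    have h3 : 0 ≤ δ * dq q v := by linarith
    exact nonneg_of_mul_nonneg_right h3 hδ
  have horth : ∀ q : Fin r → ℚ, (∀ s ∈ S0, dq q s = 0) → ∀ v, v ≠ 0 → dq u v = Φ v →
      dq q v = 0 := by
    intro q hq v hv hv1
    have h1 := horth1 q (fun s hs => (hq s hs).ge) v hv hv1
    have h2 := horth1 (fun i => -q i) (fun s hs => by rw [v3b_dq_neg, hq s hs, neg_zero]) v hv hv1
    rw [v3b_dq_neg] at h2
    linarith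
  -- the set `S`
  have hfin := tight_finV hf0 A0 A1 AD P0 AP huF hS0
  obtain ⟨S, hSd⟩ : ∃ S : Finset (Fin r → ℤ), S = hfin.toFinset := ⟨_, rfl⟩
  have hS : ∀ v, v ∈ S ↔ v ≠ 0 ∧ dq u v = Φ v ∧
      ∃ n : (Fin r → ℤ) → ℕ, v = ∑ s ∈ S0, n s • s ∧
        ∑ s ∈ S0, (n s : ℚ) * (1 - (A s + Ψ s)) ≤ 1 - (A v + Ψ v) := by
    intro v
    rw [hSd, Set.Finite.mem_toFinset]
    rfl
  have hSS : ∀ s ∈ S0, s ∈ S := by
    intro s hs
    rw [hS]
    refine ⟨hS0 s hs, hconst u huF s hs, Pi.single s 1, ?_, ?_⟩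
    · rw [Finset.sum_eq_single s]
      · rw [Pi.single_eq_same, one_smul]
      · intro t _ ht
        rw [Pi.single_eq_of_ne ht, zero_smul]
      · intro h
        exact absurd hs h
    · rw [Finset.sum_eq_single s]
      · rw [Pi.single_eq_same, Nat.cast_one, one_mul]
      · intro t _ ht
        rw [Pi.single_eq_of_ne ht, Nat.cast_zero, zero_mul]
      · intro h
        exact absurd hs h
  -- denominators
  obtain ⟨c0, hc0, hcy⟩ := Pool.Agent.TH165.ACC.exists_denom u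
  choose u1 hu1 using hcy
  obtain ⟨c1, hc1, hcw⟩ := Pool.Agent.TH165.ACC.exists_denom cw
  choose n1' hn1 using hcw
  obtain ⟨D, hD, hAD⟩ := AD
  choose a0 ha0 using hAD
  obtain ⟨ω, H, hω, -, hH⟩ := P0.ex_mn k
  obtain ⟨c, hcd⟩ : ∃ c : ℤ, c = c0 * c1 * D * ω.den := ⟨_, rfl⟩
  have hD' : (0 : ℤ) < D := by exact_mod_cast hD
  have hωd : (0 : ℤ) < ω.den := by exact_mod_cast ω.pos
  have hc : 0 < c := by
    rw [hcd]
    positivity
  have hc' : (0 : ℚ) < c := by exact_mod_cast hc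
  have hωn : (ω.den : ℚ) * ω = ω.num := by
    rw [mul_comm]
    exact Rat.mul_den_eq_num ω
  obtain ⟨u0, hu0d⟩ : ∃ u0 : Fin r → ℤ, u0 = fun i => c1 * D * ω.den * u1 i := ⟨_, rfl⟩
  obtain ⟨a', ha'd⟩ : ∃ a' : (Fin r → ℤ) → ℤ, a' = fun v =>
      c0 * c1 * ω.den * a0 v + c0 * c1 * D * ω.num * mn v H := ⟨_, rfl⟩
  obtain ⟨nn, hnnd⟩ : ∃ nn : J' → ℤ, nn = fun j => c0 * D * ω.den * n1' j := ⟨_, rfl⟩
  have ha' : ∀ v, (a' v : ℚ) = c * (A v + Ψ v) := by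
    intro v
    rw [ha'd, hcd, hH v]
    push_cast
    rw [← ha0 v, ← hωn]
    ring
  have hnn : ∀ j, (nn j : ℚ) = c * cw j := by
    intro j
    rw [hnnd, hcd]
    push_cast
    rw [← hn1 j]
    ring
  have hu : ∀ v : Fin r → ℤ, ((u0 ⬝ᵥ v : ℤ) : ℚ) = c * dq u v := by
    intro v
    rw [← dq_int]
    unfold dq
    rw [Finset.mul_sum]
    refine Finset.sum_congr rfl fun i _ => ?_
    rw [hu0d, hcd]
    push_cast
    rw [← hu1 i]
    ring
  have hΦc : ∀ v, ((a' v + c * ∑ l, mn v (f l) : ℤ) : ℚ) = c * Φ v := by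
    intro v
    rw [hΦ]
    push_cast
    rw [ha']
    ring
  have htight : ∀ v, u0 ⬝ᵥ v = a' v + c * ∑ l, mn v (f l) ↔ dq u v = Φ v := by
    intro v
    constructor
    · intro h
      have h1 : ((u0 ⬝ᵥ v : ℤ) : ℚ) = ((a' v + c * ∑ l, mn v (f l) : ℤ) : ℚ) := by rw [h]
      rw [hu, hΦc] at h1
      exact mul_left_cancel₀ hc'.ne' h1
    · intro h
      have h1 : ((u0 ⬝ᵥ v : ℤ) : ℚ) = ((a' v + c * ∑ l, mn v (f l) : ℤ) : ℚ) := by
        rw [hu, hΦc, h]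
      exact_mod_cast h1
  have hqint : ∀ (w : Fin r → ℤ) (s : Fin r → ℤ), w ⬝ᵥ s = 0 ↔ dq (fun i => (w i : ℚ)) s = 0 := by
    intro w s
    rw [dq_int]
    exact_mod_cast Iff.rfl
  refine ⟨u0, c, a', nn, S, hc, ha', hnn, ?_, ?_, ?_, ?_, ?_, ?_⟩
  · intro v hv
    have h1 : ((a' v + c * ∑ l, mn v (f l) : ℤ) : ℚ) ≤ ((u0 ⬝ᵥ v : ℤ) : ℚ) := by
      rw [hu, hΦc]
      exact mul_le_mul_of_nonneg_left (hFu v hv) hc'.le
    exact_mod_cast h1
  · intro s hs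
    obtain ⟨h1, h2, -⟩ := (hS s).1 hs
    exact ⟨h1, (htight s).2 h2⟩
  · intro j σ hσ hne' ht hsum
    choose n hn hn' using fun i => ((hS (σ i)).1 (hσ i)).2.2
    rw [hS]
    refine ⟨hne', (htight _).1 ht, fun s => ∑ i, n i s, ?_, ?_⟩
    · have h1 : ∑ i, σ i = ∑ i, ∑ s ∈ S0, n i s • s := Finset.sum_congr rfl fun i _ => hn i
      rw [h1, Finset.sum_comm]
      exact Finset.sum_congr rfl fun s _ => (Finset.sum_smul).symm
    · have h1 : ∑ s ∈ S0, ((∑ i, n i s : ℕ) : ℚ) * (1 - (A s + Ψ s)) =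
          ∑ i, ∑ s ∈ S0, (n i s : ℚ) * (1 - (A s + Ψ s)) := by
        rw [Finset.sum_comm]
        refine Finset.sum_congr rfl fun s _ => ?_
        rw [Nat.cast_sum, Finset.sum_mul]
      have h2 : ∑ i, ∑ s ∈ S0, (n i s : ℚ) * (1 - (A s + Ψ s)) ≤
          ∑ i, (1 - (A (σ i) + Ψ (σ i))) := Finset.sum_le_sum fun i _ => hn' i
      have h3 : (c : ℚ) * (A (∑ i, σ i) + Ψ (∑ i, σ i)) + c * ((j : ℚ) - 1) =
          c * ∑ i, (A (σ i) + Ψ (σ i)) := by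
        have h4 : ((a' (∑ i, σ i) + c * ((j : ℤ) - 1) : ℤ) : ℚ) = ((∑ i, a' (σ i) : ℤ) : ℚ) := by
          rw [hsum]
        push_cast at h4
        rw [ha'] at h4
        rw [h4, Finset.mul_sum]
        exact Finset.sum_congr rfl fun i _ => ha' _
      have h5 : A (∑ i, σ i) + Ψ (∑ i, σ i) + ((j : ℚ) - 1) = ∑ i, (A (σ i) + Ψ (σ i)) := by
        apply mul_left_cancel₀ hc'.ne'
        rw [← h3]
        ring
      have h6 : ∑ i : Fin j, (1 - (A (σ i) + Ψ (σ i))) = j - ∑ i, (A (σ i) + Ψ (σ i)) := by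
        rw [Finset.sum_sub_distrib]
        simp
      rw [h1]
      rw [h6, ← h5] at h2
      linarith
  · intro q hq s hs
    obtain ⟨h1, h2, -⟩ := (hS s).1 hs
    exact horth q (hpos0 q fun s hs => hq s (hSS s hs)) s h1 h2
  · intro w
    constructor
    · rintro ⟨y, hy, N, hN, hyN⟩ s hs
      have h0 : ∀ s ∈ S0, dq (fun i => (w i : ℚ)) s = 0 := by
        intro s hs
        have h1 := hconst y hy s hs
        have h2 := hconst _ hyN s hs
        have h3 : dq (fun i => y i + (w i : ℚ) / N) s = dq y s + (1 / (N : ℚ)) *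
            dq (fun i => (w i : ℚ)) s := by
          rw [← dq_add_smul]
          congr 1
          funext i
          ring
        rw [h3, h1] at h2
        have hN' : (0 : ℚ) < N := by exact_mod_cast hN
        have h4 : (1 / (N : ℚ)) * dq (fun i => (w i : ℚ)) s = 0 := by linarith
        exact (mul_eq_zero.1 h4).resolve_left (by positivity)
      obtain ⟨h1, h2, -⟩ := (hS s).1 hs
      rw [hqint]
      exact horth _ h0 s h1 h2
    · intro hw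
      obtain ⟨δ, hδ, h1⟩ := hpert (fun i => (w i : ℚ)) (fun s hs => by
        rw [(hqint w s).1 (hw s (hSS s hs))])
      obtain ⟨N, hN⟩ := exists_nat_ge (1 / δ)
      have hN0 : (0 : ℚ) < N := lt_of_lt_of_le (by positivity) hN
      have hN1 : 1 ≤ N := by
        have : (0 : ℕ) < N := by exact_mod_cast hN0
        omega
      refine ⟨u, huF, N, hN1, ?_⟩
      have h2 := h1 (1 / N) (by positivity) (by
        rw [div_le_iff₀ hN0]
        rw [div_le_iff₀ hδ] at hN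
        linarith)
      have h3 : (fun i => u i + (w i : ℚ) / N) = fun i => u i + 1 / (N : ℚ) * (w i : ℚ) := by
        funext i
        ring
      rw [h3]
      exact h2
  · intro v hv ht w hw
    rw [hqint]
    exact horth _ (fun s hs => (hqint w s).1 (hw s (hSS s hs))) v hv ((htight v).1 ht)

end

end Pool.Agent.R885.N
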