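import Pool.Agent.R885.U0
import Pool.Agent.R885.U1
import Pool.Agent.R885.U2
import Pool.Agent.R885.NG11
import Pool.Agent.R885.V0
import Pool.Agent.R885.V5
import Pool.Agent.R885.V5n

/-!
The generic fibre, pairs with arbitrary weights at infinity, zero weights included.
-/

set_option autoImplicit false
set_option linter.overlappingInstances false
set_option linter.unusedSectionVars false

open FF IntermediateField Pool.Agent.W619.PQ Pool.Agent.W619.PL Pool.Agent.W619.TW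
  Pool.Agent.W603.LV Pool.Agent.W619.Y Pool.Agent.W824.PG Pool.Agent.TH122.AB
  Pool.Agent.Y173.QA Pool.Agent.Y174

namespace Pool.Agent.R885.N

theorem v6_mem {r : ℕ} {S : Finset (Fin r → ℤ)} {s : Fin r → ℤ} (hs : s ∈ S) : InSpan S s :=
  fun w' hw' => hw' s hs

theorem v6_sum {r j : ℕ} {S : Finset (Fin r → ℤ)} {σ : Fin j → Fin r → ℤ}
    (hσ : ∀ i, σ i ∈ S) : InSpan S (∑ i, σ i) := by
  intro w' hw'
  rw [dotProduct_sum]
  exact Finset.sum_eq_zero fun i _ => hw' _ (hσ i)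

/-- **The generic fibre has numerical dimension zero.** -/
theorem pair_fibre_zeroV {k Λ F : Type} [Field k] [CharZero k] [Field Λ] [IsAlgClosed k]
    [Algebra k Λ] [Field F] [Algebra Λ F] [Algebra k F] [IsScalarTower k Λ F] {r d m : ℕ}
    {J : Type} [Fintype J] [DecidableEq J] (e : (J ⊕ Fin d) ⊕ Fin (m + 1) ≃ Fin r)
    (htr : Algebra.trdeg Λ F = (m + 1 : ℕ)) {x : Fin r → F} (hx : ∀ i, x i ≠ 0)
    (hgen : IntermediateField.adjoin Λ (Set.range x) = ⊤) {f : J → (Fin r → ℤ) →₀ k}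
    (hf0 : ∀ l, f l ≠ 0) (hf : ∀ l, ev x (f l) = 0)
    {J' : Type} [Fintype J'] {y : J' → F} (hy : ∀ j, y j ≠ 0)
    (hndX : NDX F x f)
    (hnd : ∀ P : Place Λ F, NDP P x fun l => (f l).mapRange (algebraMap k Λ) (map_zero _))
    {S : Finset (Fin r → ℤ)} {u0 : Fin r → ℤ} {c : ℤ} {a' : (Fin r → ℤ) → ℤ} {nn : J' → ℤ}
    (hc : 0 < c)
    (hA2 : ∀ v w, v ≠ 0 → w ≠ 0 → v + w ≠ 0 → a' v + a' w - c ≤ a' (v + w))
    (hA3 : ∀ (g : ℤ) v, 0 < g → v ≠ 0 → a' (g • v) ≤ g * a' v)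
    (hF : ∀ v, v ≠ 0 → InSpan S v → a' v + c * ∑ l, mn v (f l) ≤ u0 ⬝ᵥ v)
    (hS : ∀ s ∈ S, s ≠ 0 ∧ u0 ⬝ᵥ s = a' s + c * ∑ l, mn s (f l))
    (hcl : ∀ (j : ℕ) (σ : Fin j → Fin r → ℤ), (∀ i, σ i ∈ S) → ∑ i, σ i ≠ 0 →
        u0 ⬝ᵥ (∑ i, σ i) = a' (∑ i, σ i) + c * ∑ l, mn (∑ i, σ i) (f l) →
        a' (∑ i, σ i) + c * ((j : ℤ) - 1) = ∑ i, a' (σ i) → ∑ i, σ i ∈ S)
    (hpos : ∀ q : Fin r → ℚ, (∀ s ∈ S, 0 ≤ dq q s) → ∀ s ∈ S, dq q s = 0)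
    {w : Fin d → Fin r → ℤ} (hw : ∀ j, w j ≠ 0) (hwS : ∀ j, ∀ s ∈ S, w j ⬝ᵥ s = 0)
    {t : Fin d → Λ} (ht : AlgebraicIndependent k t) (hwt : ∀ j, algebraMap Λ F (t j) = mono x (w j))
    (hcon : ∀ w' : Fin r → ℤ, (∀ s ∈ S, w' ⬝ᵥ s = 0) → ∃ a : Λ, algebraMap Λ F a = mono x w')
    {β : Place Λ F → ℝ} (hβ1 : ∀ P : Place Λ F, β P ≤ 1)
    (hβ0 : ∀ P : Place Λ F, vec P x = 0 →
      (c : ℝ) * β P ≤ ((∑ j, nn j * P.ord (y j) : ℤ) : ℝ))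
    (hβ2 : ∀ P : Place Λ F, vec P x ≠ 0 →
      (c : ℝ) * β P ≤ ((c - a' (vec P x) + ∑ j, nn j * P.ord (y j) : ℤ) : ℝ)) :
    PairNum Λ F (m + 1) β 0 := by
  classical
  have hcΛ : CharZero Λ := charZero_of_injective_algebraMap (algebraMap k Λ).injective
  have hsp : ∀ P : Place Λ F, InSpan S (vec P x) := by
    intro P w' hw'
    obtain ⟨a, ha⟩ := hcon w' hw'
    rw [← ord_mono P hx, ← ha]
    have ha0 : a ≠ 0 := by
      rintro rfl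
      rw [map_zero] at ha
      exact mono_ne hx w' ha.symm
    exact P.ord_const ha0
  have hwv : ∀ v, InSpan S v → ∀ j, w j ⬝ᵥ v = 0 := fun v hv j => hv (w j) (hwS j)
  have hsum : ∀ v, InSpan S v → ∑ l, mn v (fibSys f w t l) = ∑ l, mn v (f l) := by
    intro v hv
    rw [Fintype.sum_sum_type]
    have h1 : ∀ l, mn v (fibSys f w t (Sum.inl l)) = mn v (f l) := fun l => by
      rw [fibSys_inl, mn_map]
    have h2 : ∀ j, mn v (fibSys f w t (Sum.inr j)) = 0 := fun j => by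
      rw [fibSys_inr, bin_mn (hw j) _ (hwv v hv j)]
    rw [Finset.sum_congr rfl fun l _ => h1 l, Finset.sum_eq_zero fun j _ => h2 j, add_zero]
  refine pairNum_zeroV (f := fibSys f w t) (y := y) (S := S) (u0 := u0) (c := c) (a' := a')
    (nn := nn) htr hx hgen e ?_ ?_ ?_ ?_ hy hc hA2 hA3 ?_ ?_ ?_ hpos hsp hβ1 hβ0 hβ2
  · rintro (l | j)
    · rw [fibSys_inl]
      intro h0
      apply hf0 l
      have h1 := supp_map (Λ := Λ) (f l)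
      rw [h0, Finsupp.support_zero] at h1
      exact Finsupp.support_eq_empty.1 h1.symm
    · rw [fibSys_inr]
      exact bin_ne (hw j) _
  · rintro (l | j)
    · rw [fibSys_inl, ev_map]
      exact hf l
    · rw [fibSys_inr, bin_ev, hwt, sub_self]
  · exact ndx_fibre hx hndX hw ht
  · intro P
    exact ndp_fibre hx (hnd P) hw ht (hwv _ (hsp P))
  · intro v hv hvS
    rw [hsum v hvS]
    exact hF v hv hvS
  · intro s hs
    obtain ⟨h1, h2⟩ := hS s hs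
    exact ⟨h1, by rw [hsum s (v6_mem hs)]; exact h2⟩
  · intro j σ hσ h0 h1 h2
    rw [hsum _ (v6_sum hσ)] at h1
    exact hcl j σ hσ h0 h1 h2

/-- **The generic fibre without sections of high multiples.** -/
theorem pair_fibre_negV {k Λ F : Type} [Field k] [CharZero k] [Field Λ] [IsAlgClosed k]
    [Algebra k Λ] [Field F] [Algebra Λ F] [Algebra k F] [IsScalarTower k Λ F] {r d m : ℕ}
    {J : Type} [Fintype J] [DecidableEq J] (e : (J ⊕ Fin d) ⊕ Fin (m + 1) ≃ Fin r)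
    (htr : Algebra.trdeg Λ F = (m + 1 : ℕ)) {x : Fin r → F} (hx : ∀ i, x i ≠ 0)
    (hgen : IntermediateField.adjoin Λ (Set.range x) = ⊤) {f : J → (Fin r → ℤ) →₀ k}
    (hf0 : ∀ l, f l ≠ 0) (hf : ∀ l, ev x (f l) = 0)
    {J' : Type} [Fintype J'] {y : J' → F} (hy : ∀ j, y j ≠ 0)
    (hndX : NDX F x f)
    (hnd : ∀ P : Place Λ F, NDP P x fun l => (f l).mapRange (algebraMap k Λ) (map_zero _))
    {S : Finset (Fin r → ℤ)} {u0 : Fin r → ℤ} {c : ℤ} {a' : (Fin r → ℤ) → ℤ} {nn : J' → ℤ}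
    (hc : 0 < c)
    (hA2 : ∀ v w, v ≠ 0 → w ≠ 0 → v + w ≠ 0 → a' v + a' w - c ≤ a' (v + w))
    (hA3 : ∀ (g : ℤ) v, 0 < g → v ≠ 0 → a' (g • v) ≤ g * a' v)
    (hF : ∀ v, v ≠ 0 → InSpan S v → a' v + c * ∑ l, mn v (f l) ≤ u0 ⬝ᵥ v)
    (hS : ∀ s ∈ S, s ≠ 0 ∧ u0 ⬝ᵥ s = a' s + c * ∑ l, mn s (f l))
    (hcl : ∀ (j : ℕ) (σ : Fin j → Fin r → ℤ), (∀ i, σ i ∈ S) → ∑ i, σ i ≠ 0 →
        u0 ⬝ᵥ (∑ i, σ i) = a' (∑ i, σ i) + c * ∑ l, mn (∑ i, σ i) (f l) →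
        a' (∑ i, σ i) + c * ((j : ℤ) - 1) = ∑ i, a' (σ i) → ∑ i, σ i ∈ S)
    (hpos : ∀ q : Fin r → ℚ, (∀ s ∈ S, 0 ≤ dq q s) → ∀ s ∈ S, dq q s = 0)
    {w : Fin d → Fin r → ℤ} (hw : ∀ j, w j ≠ 0) (hwS : ∀ j, ∀ s ∈ S, w j ⬝ᵥ s = 0)
    {t : Fin d → Λ} (ht : AlgebraicIndependent k t) (hwt : ∀ j, algebraMap Λ F (t j) = mono x (w j))
    (hcon : ∀ w' : Fin r → ℤ, (∀ s ∈ S, w' ⬝ᵥ s = 0) → ∃ a : Λ, algebraMap Λ F a = mono x w')
    {β : Place Λ F → ℝ} (hβ1 : ∀ P : Place Λ F, β P ≤ 1)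
    (hβ0 : ∀ P : Place Λ F, vec P x = 0 →
      (c : ℝ) * β P ≤ ((∑ j, nn j * P.ord (y j) : ℤ) : ℝ))
    {ε : ℝ} (hε : 0 < ε) (hβ2 : ∀ P : Place Λ F, vec P x ≠ 0 →
      (c : ℝ) * β P + ε ≤ ((c - a' (vec P x) + ∑ j, nn j * P.ord (y j) : ℤ) : ℝ))
    (T : Finset F) :
    ∃ M0 : ℕ, ∀ M : ℕ, M0 ≤ M → ∀ ω : (Fin (m + 1) → Derivation Λ F F) → F,
      PairSec Λ F (m + 1) β T M 1 ω → ω = 0 := by
  classical
  have hcΛ : CharZero Λ := charZero_of_injective_algebraMap (algebraMap k Λ).injective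
  have hsp : ∀ P : Place Λ F, InSpan S (vec P x) := by
    intro P w' hw'
    obtain ⟨a, ha⟩ := hcon w' hw'
    rw [← ord_mono P hx, ← ha]
    have ha0 : a ≠ 0 := by
      rintro rfl
      rw [map_zero] at ha
      exact mono_ne hx w' ha.symm
    exact P.ord_const ha0
  have hwv : ∀ v, InSpan S v → ∀ j, w j ⬝ᵥ v = 0 := fun v hv j => hv (w j) (hwS j)
  have hsum : ∀ v, InSpan S v → ∑ l, mn v (fibSys f w t l) = ∑ l, mn v (f l) := by
    intro v hv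
    rw [Fintype.sum_sum_type]
    have h1 : ∀ l, mn v (fibSys f w t (Sum.inl l)) = mn v (f l) := fun l => by
      rw [fibSys_inl, mn_map]
    have h2 : ∀ j, mn v (fibSys f w t (Sum.inr j)) = 0 := fun j => by
      rw [fibSys_inr, bin_mn (hw j) _ (hwv v hv j)]
    rw [Finset.sum_congr rfl fun l _ => h1 l, Finset.sum_eq_zero fun j _ => h2 j, add_zero]
  refine pairNeg_zeroV (f := fibSys f w t) (y := y) (S := S) (u0 := u0) (c := c) (a' := a')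
    (nn := nn) htr hx hgen e ?_ ?_ ?_ ?_ hy hc hA2 hA3 ?_ ?_ ?_ hpos hsp hβ1 hβ0 hε hβ2 T
  · rintro (l | j)
    · rw [fibSys_inl]
      intro h0
      apply hf0 l
      have h1 := supp_map (Λ := Λ) (f l)
      rw [h0, Finsupp.support_zero] at h1
      exact Finsupp.support_eq_empty.1 h1.symm
    · rw [fibSys_inr]
      exact bin_ne (hw j) _
  · rintro (l | j)
    · rw [fibSys_inl, ev_map]
      exact hf l
    · rw [fibSys_inr, bin_ev, hwt, sub_self]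
  · exact ndx_fibre hx hndX hw ht
  · intro P
    exact ndp_fibre hx (hnd P) hw ht (hwv _ (hsp P))
  · intro v hv hvS
    rw [hsum v hvS]
    exact hF v hv hvS
  · intro s hs
    obtain ⟨h1, h2⟩ := hS s hs
    exact ⟨h1, by rw [hsum s (v6_mem hs)]; exact h2⟩
  · intro j σ hσ h0 h1 h2
    rw [hsum _ (v6_sum hσ)] at h1
    exact hcl j σ hσ h0 h1 h2

end Pool.Agent.R885.N
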