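import Pool.Agent.R885.V0
import Pool.Agent.R885.U4

/-!
R885, part V7: sections from lattice points of a multiple of the polytope.
-/

set_option autoImplicit false
set_option linter.overlappingInstances false
set_option linter.unusedSectionVars false

namespace Pool.Agent.R885.N

section V7

open FF Pool.Agent.W603.LV Pool.Agent.W619.PQ Pool.Agent.Y173.QA Pool.Agent.W619.TW
  Pool.Agent.W619.Y Pool.Agent.Y174

variable {k K : Type} [Field k] [Field K] [Algebra k K] {r n : ℕ} {x : Fin r → K}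
  {J J' : Type} [Fintype J] [DecidableEq J] [Fintype J'] [CharZero k]

/-- V7a: sections from lattice points of a multiple of the polytope -/
theorem kodV (hx : ∀ i, x i ≠ 0)
    (hgen : IntermediateField.adjoin k (Set.range x) = ⊤)
    {e : J ⊕ Fin n ≃ Fin r} {f : J → (Fin r → ℤ) →₀ k}
    (hf : ∀ l, ev x (f l) = 0) {C0 : Fin n → Fin r → ℤ}
    (hC0 : dt e (fun l => gr x (f l)) C0 ≠ 0) {Z : Fin n → K}
    (hZ : IsTranscendenceBasis k Z) (hf0 : ∀ l, f l ≠ 0)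
    {y : J' → K} (hy : ∀ j, y j ≠ 0) {cw : J' → ℚ} {b : (Fin r → ℤ) → ℚ} {β : Place k K → ℝ}
    (hS1 : GLow e x f C0 y cw b β)
    {u0 : Fin r → ℤ} {c : ℤ} {a' : (Fin r → ℤ) → ℤ} {nn : J' → ℤ}
    (hc : 0 < c) (hnn : ∀ j, (nn j : ℚ) = c * cw j) (ha' : ∀ v, v ≠ 0 → (a' v : ℚ) = c * b v)
    (hF : ∀ v, v ≠ 0 → a' v + c * ∑ l, mn v (f l) ≤ u0 ⬝ᵥ v) {d : ℕ}
    {w : Fin d → Fin r → ℤ}
    (hw : ∀ j v, v ≠ 0 → a' v + c * ∑ l, mn v (f l) ≤ (u0 + w j) ⬝ᵥ v)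
    (hind : AlgebraicIndependent k fun j => mono x (w j)) : PairKod k K n β d := by
  classical
  obtain ⟨D0, hD0'⟩ := Pool.Agent.W602.GT.exists_dual hZ
  have hD0 : ∀ i j, D0 i (Z j) = if i = j then 1 else 0 := by
    intro i j
    have h1 := congrFun (congrFun hD0' i) j
    rw [Matrix.of_apply, Matrix.one_apply] at h1
    exact h1
  have hOm0 := om_ne hx hgen hf hC0 hZ hD0
  obtain ⟨cn, hcn⟩ : ∃ cn : ℕ, (cn : ℤ) = c := ⟨c.toNat, Int.toNat_of_nonneg hc.le⟩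
  have hcn1 : 1 ≤ cn := by omega
  let w' : Fin (d + 1) → Fin r → ℤ := Fin.cons 0 w
  have hw' : ∀ l v, v ≠ 0 → a' v + c * ∑ l, mn v (f l) ≤ (u0 + w' l) ⬝ᵥ v := by
    intro l v hv
    refine Fin.cases ?_ (fun j => ?_) l
    · change _ ≤ (u0 + 0) ⬝ᵥ v
      rw [add_zero]
      exact hF v hv
    · exact hw j v hv
  obtain ⟨H, hHd⟩ : ∃ H : K, H = ∏ j, y j ^ (-(nn j)) := ⟨_, rfl⟩
  have hH0 : H ≠ 0 := by
    rw [hHd]
    exact Finset.prod_ne_zero_iff.2 fun j _ => zpow_ne_zero _ (hy j)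
  let ω : Fin (d + 1) → (Fin n → Derivation k K K) → K := fun l D =>
    (mono x (u0 + w' l) * H) * Om e x f C0 D ^ cn
  have hωd : ∀ l D, ω l D = (mono x (u0 + w' l) * H) * Om e x f C0 D ^ cn :=
    fun l D => rfl
  have hpre : ∀ l, mono x (u0 + w' l) * H ≠ 0 := fun l => mul_ne_zero (mono_ne hx _) hH0
  refine ⟨cn, hcn1, ω, fun l => ⟨?_, ?_⟩, D0, ?_, ?_⟩
  · intro B D
    rw [hωd, hωd]
    have h1 := om_pluri e x f C0 cn B D
    change Om e x f C0 (fun i => ∑ j, B i j • D j) ^ cn = B.det ^ cn *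
      Om e x f C0 D ^ cn at h1
    rw [h1]
    ring
  · intro P hPd D hD
    by_cases hO : Om e x f C0 D = 0
    · left
      rw [hωd, hO, zero_pow (Nat.ne_of_gt hcn1), mul_zero]
    right
    refine ⟨1, Finset.mem_singleton_self _, one_ne_zero, ?_⟩
    rw [Nat.cast_zero, zero_mul, zero_sub]
    have h1 := hS1 P hPd D hD hO
    obtain ⟨v, hv⟩ : ∃ v, v = vec P x := ⟨_, rfl⟩
    obtain ⟨o, ho⟩ : ∃ o, o = P.ord (Om e x f C0 D) := ⟨_, rfl⟩
    rw [← hv, ← ho] at h1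
    have hcr : (0 : ℝ) < c := by exact_mod_cast hc
    have hpH : P.ord H = -(∑ j, nn j * P.ord (y j)) := by
      rw [hHd, ord_prod_zpow P _ _ hy, ← Finset.sum_neg_distrib]
      exact Finset.sum_congr rfl fun j _ => by ring
    have hord : P.ord (ω l D) = (u0 + w' l) ⬝ᵥ v + c * o - ∑ j, nn j * P.ord (y j) := by
      rw [hωd, P.ord_mul (hpre l) (pow_ne_zero _ hO), P.ord_mul (mono_ne hx _) hH0,
        ord_mono P hx, P.ord_pow, hpH, ← ho, ← hv, hcn]
      ring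
    have hnnr : ∀ j, (nn j : ℝ) = c * ((cw j : ℚ) : ℝ) := fun j => by exact_mod_cast hnn j
    have hs1 : ((∑ j, nn j * P.ord (y j) : ℤ) : ℝ) = c * Th y cw P := by
      unfold Th
      push_cast
      rw [Finset.mul_sum]
      exact Finset.sum_congr rfl fun j _ => by rw [hnnr]; ring
    have hordr : ((P.ord (ω l D) : ℤ) : ℝ) = (((u0 + w' l) ⬝ᵥ v : ℤ) : ℝ) +
        c * o - c * Th y cw P := by
      rw [hord, ← hs1]
      push_cast
      ring
    have hcnr : ((cn : ℕ) : ℝ) = (c : ℝ) := by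
      rw [← hcn]
      push_cast
      rfl
    have h2 := mul_le_mul_of_nonneg_left h1 hcr.le
    -- the combinatorial bound
    have h3 : (0 : ℝ) ≤ (((u0 + w' l) ⬝ᵥ v : ℤ) : ℝ) -
        (c * (if v = 0 then (0 : ℝ) else ((b v : ℚ) : ℝ)) +
          c * ((∑ l, mn v (f l) : ℤ) : ℝ)) := by
      by_cases hv0 : v = 0
      · rw [if_pos hv0, hv0, dotProduct_zero,
          Finset.sum_eq_zero fun l _ => mn_zero (hf0 l)]
        simp
      · rw [if_neg hv0]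
        have h5 := (Int.cast_le (R := ℝ)).2 (hw' l v hv0)
        rw [Int.cast_add, Int.cast_mul] at h5
        have h9 : ((a' v : ℤ) : ℝ) = c * ((b v : ℚ) : ℝ) := by exact_mod_cast ha' v hv0
        rw [h9] at h5
        linarith
    rw [hordr, hcnr]
    linarith
  · intro l
    rw [hωd]
    exact mul_ne_zero (hpre l) (pow_ne_zero _ hOm0)
  · have h1 : (fun l : Fin d => ω l.succ D0 / ω 0 D0) = fun j => mono x (w j) := by
      funext j
      rw [hωd, hωd]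
      have h2 : w' j.succ = w j := Fin.cons_succ _ _ _
      have h3 : w' 0 = 0 := Fin.cons_zero _ _
      rw [h2, h3, add_zero, mono_add hx, mul_div_mul_right _ _ (pow_ne_zero _ hOm0),
        mul_div_mul_right _ _ hH0, mul_div_cancel_left₀ _ (mono_ne hx _)]
    rw [h1]
    exact hind

end V7

/-- integrality of multiples -/
theorem v7_int {m C : ℕ} (hm : m ∣ C) {q : ℚ} (h : ∃ z : ℤ, (z : ℚ) = m * q) :
    ∃ z : ℤ, (z : ℚ) = C * q := by
  obtain ⟨t, rfl⟩ := hm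
  obtain ⟨z, hz⟩ := h
  refine ⟨(t : ℤ) * z, ?_⟩
  push_cast
  rw [hz]
  ring

theorem v7_den (q : ℚ) : ∃ z : ℤ, (z : ℚ) = q.den * q :=
  ⟨q.num, by rw [mul_comm]; exact (Rat.mul_den_eq_num q).symm⟩

/-- integrality for minima of finitely many linear functions -/
theorem v7_plin {r : ℕ} {Ψ : (Fin r → ℤ) → ℚ} (P0 : PLin Ψ) :
    ∃ N : ℕ, 1 ≤ N ∧ ∀ v, ∃ z : ℤ, (z : ℚ) = N * Ψ v := by
  classical
  obtain ⟨Y, h1, h2⟩ := P0
  obtain ⟨N, hN, hden⟩ := u11_den Y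
  refine ⟨N, hN, fun v => ?_⟩
  obtain ⟨y, hy, h3⟩ := h2 v
  choose z hz using hden y hy
  refine ⟨∑ i, z i * v i, ?_⟩
  rw [h3]
  unfold dq
  push_cast
  rw [Finset.mul_sum]
  refine Finset.sum_congr rfl fun i _ => ?_
  rw [hz i]
  ring

section VP

variable {r : ℕ} {k : Type} [Field k] {J : Type} [Fintype J] {f : J → (Fin r → ℤ) →₀ k}
  {A Ψ : (Fin r → ℤ) → ℚ}

/-- V7b: lattice points in a multiple of the polytope. -/
theorem exists_kodpt (AD : ∃ D : ℕ, 1 ≤ D ∧ ∀ v, ∃ z : ℤ, (D : ℚ) * A v = z) (P0 : PLin Ψ)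
    {J' : Type} [Fintype J'] (cw : J' → ℚ) (hne : (FineG A Ψ f).Nonempty) {d : ℕ}
    {w : Fin d → Fin r → ℤ} (hw : ∀ j, w j ∈ dirsG A Ψ f) :
    ∃ (u0 : Fin r → ℤ) (c : ℤ) (a' : (Fin r → ℤ) → ℤ) (nn : J' → ℤ), 0 < c ∧
      (∀ v, (a' v : ℚ) = c * (A v + Ψ v)) ∧ (∀ j, (nn j : ℚ) = c * cw j) ∧
      (∀ v, v ≠ 0 → a' v + c * ∑ l, mn v (f l) ≤ u0 ⬝ᵥ v) ∧
      (∀ j v, v ≠ 0 → a' v + c * ∑ l, mn v (f l) ≤ (u0 + w j) ⬝ᵥ v) := by
  classical
  obtain ⟨ys, hys⟩ := hne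
  choose y hy N hN1 hyN using hw
  obtain ⟨D, hD1, hD⟩ := AD
  obtain ⟨E, hE1, hE⟩ := v7_plin P0
  set u : Fin r → ℚ := fun i => (ys i + ∑ j, y j i) / (d + 1) with hu
  have hd1 : (0 : ℚ) < (d : ℚ) + 1 := by positivity
  -- the pairing with `u`
  have hdu : ∀ v : Fin r → ℤ, dq u v = (dq ys v + ∑ j, dq (y j) v) / (d + 1) := by
    intro v
    simp only [dq, hu]
    rw [Finset.sum_comm, ← Finset.sum_add_distrib, Finset.sum_div]
    refine Finset.sum_congr rfl fun i _ => ?_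
    rw [← Finset.sum_mul]
    ring
  have hyv : ∀ j (v : Fin r → ℤ), dq (fun i => y j i + (w j i : ℚ) / N j) v =
      dq (y j) v + ((w j ⬝ᵥ v : ℤ) : ℚ) / N j := by
    intro j v
    unfold dq dotProduct
    push_cast
    rw [Finset.sum_div, ← Finset.sum_add_distrib]
    exact Finset.sum_congr rfl fun i _ => by ring
  obtain ⟨g, hg⟩ : ∃ g : (Fin r → ℤ) → ℚ, ∀ v, g v = A v + Ψ v + ∑ l, (mn v (f l) : ℚ) :=
    ⟨_, fun _ => rfl⟩
  have hgs : ∀ v, v ≠ 0 → g v ≤ dq ys v := fun v hv => (hg v).trans_le (hys v hv)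
  have hgy : ∀ j v, v ≠ 0 → g v ≤ dq (y j) v := fun j v hv => (hg v).trans_le (hy j v hv)
  have hgw : ∀ j v, v ≠ 0 → g v ≤ dq (y j) v + ((w j ⬝ᵥ v : ℤ) : ℚ) / N j := by
    intro j v hv
    rw [← hyv, hg]
    exact hyN j v hv
  -- `u` is in the polytope
  have hsumc : ∀ c : ℚ, ∑ _j : Fin d, c = d * c := by
    intro c
    rw [Finset.sum_const, Finset.card_univ, Fintype.card_fin, nsmul_eq_mul]
  have hgu : ∀ v, v ≠ 0 → g v ≤ dq u v := by
    intro v hv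
    rw [hdu, le_div_iff₀ hd1]
    have h1 : ∑ _j : Fin d, g v ≤ ∑ j, dq (y j) v := Finset.sum_le_sum fun j _ => hgy j v hv
    rw [hsumc] at h1
    have h2 := hgs v hv
    linarith
  have hgu2 : ∀ j v, v ≠ 0 → g v ≤ dq u v + ((w j ⬝ᵥ v : ℤ) : ℚ) / ((d + 1) * N j) := by
    intro j v hv
    have h1 : ∑ i : Fin d, (if i = j then ((w j ⬝ᵥ v : ℤ) : ℚ) / N j else 0) =
        ((w j ⬝ᵥ v : ℤ) : ℚ) / N j := by
      rw [Finset.sum_ite_eq' Finset.univ j]
      simp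
    have h2 : ∑ _j : Fin d, g v ≤ ∑ i, (dq (y i) v +
        (if i = j then ((w j ⬝ᵥ v : ℤ) : ℚ) / N j else 0)) := by
      refine Finset.sum_le_sum fun i _ => ?_
      by_cases hij : i = j
      · rw [if_pos hij, hij]
        exact hgw j v hv
      · rw [if_neg hij, add_zero]
        exact hgy i v hv
    rw [Finset.sum_add_distrib, h1, hsumc] at h2
    have h3 := hgs v hv
    have h4 : dq u v + ((w j ⬝ᵥ v : ℤ) : ℚ) / ((d + 1) * N j) =
        (dq ys v + ∑ j, dq (y j) v + ((w j ⬝ᵥ v : ℤ) : ℚ) / N j) / (d + 1) := by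
      rw [hdu, add_div (dq ys v + ∑ j, dq (y j) v), div_div, mul_comm ((d : ℚ) + 1)]
    rw [h4, le_div_iff₀ hd1]
    linarith
  -- the multiple
  set U : ℕ := ∏ i, (u i).den with hU
  set V : ℕ := ∏ j, (cw j).den with hV
  set W : ℕ := ∏ j, ((d + 1) * N j) with hW
  set C : ℕ := D * E * U * V * W with hC
  have hUp : 0 < U := Finset.prod_pos fun i _ => (u i).den_pos
  have hVp : 0 < V := Finset.prod_pos fun j _ => (cw j).den_pos
  have hWp : 0 < W := Finset.prod_pos fun j _ => Nat.mul_pos (Nat.succ_pos d) (hN1 j)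
  have hCp : 0 < C := by
    have : 0 < D * E * U * V := by positivity
    exact Nat.mul_pos this hWp
  have hdD : D ∣ C := ⟨E * U * V * W, by rw [hC]; ring⟩
  have hdE : E ∣ C := ⟨D * U * V * W, by rw [hC]; ring⟩
  have hdU : U ∣ C := ⟨D * E * V * W, by rw [hC]; ring⟩
  have hdV : V ∣ C := ⟨D * E * U * W, by rw [hC]; ring⟩
  have hdW : W ∣ C := ⟨D * E * U * V, by rw [hC]; ring⟩
  have hNC : ∀ j, (d + 1) * N j ≤ C := fun j =>
    Nat.le_of_dvd hCp ((Finset.dvd_prod_of_mem (fun j => (d + 1) * N j)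
      (Finset.mem_univ j)).trans hdW)
  have hua : ∀ i, ∃ z : ℤ, (z : ℚ) = C * u i := fun i =>
    v7_int ((Finset.dvd_prod_of_mem (fun i => (u i).den) (Finset.mem_univ i)).trans hdU)
      (v7_den (u i))
  have hcwa : ∀ j, ∃ z : ℤ, (z : ℚ) = C * cw j := fun j =>
    v7_int ((Finset.dvd_prod_of_mem (fun j => (cw j).den) (Finset.mem_univ j)).trans hdV)
      (v7_den (cw j))
  have haa : ∀ v, ∃ z : ℤ, (z : ℚ) = C * (A v + Ψ v) := by
    intro v
    obtain ⟨z1, h1⟩ := hD v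
    obtain ⟨z2, h2⟩ := v7_int hdD ⟨z1, h1.symm⟩
    obtain ⟨z3, h3⟩ := v7_int hdE (hE v)
    refine ⟨z2 + z3, ?_⟩
    push_cast
    rw [h2, h3]
    ring
  choose u0 hu0 using hua
  choose nn hnn using hcwa
  choose a' ha' using haa
  have hCq : (0 : ℚ) < C := by exact_mod_cast hCp
  have hu0v : ∀ v : Fin r → ℤ, ((u0 ⬝ᵥ v : ℤ) : ℚ) = C * dq u v := by
    intro v
    unfold dotProduct dq
    push_cast
    rw [Finset.mul_sum]
    refine Finset.sum_congr rfl fun i _ => ?_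
    rw [hu0]
    ring
  have hlhs : ∀ v, ((a' v + (C : ℤ) * ∑ l, mn v (f l) : ℤ) : ℚ) = C * g v := by
    intro v
    push_cast
    rw [ha', hg]
    ring
  refine ⟨u0, C, a', nn, by exact_mod_cast hCp, ?_, ?_, ?_, ?_⟩
  · intro v
    rw [ha']
    push_cast
    rfl
  · intro j
    rw [hnn]
    push_cast
    rfl
  · intro v hv
    have h1 := mul_le_mul_of_nonneg_left (hgu v hv) hCq.le
    rw [← hlhs, ← hu0v] at h1
    exact_mod_cast h1
  · intro j v hv
    have h0 : (0 : ℚ) < ((d : ℚ) + 1) * N j := by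
      have : (0 : ℚ) < N j := by exact_mod_cast hN1 j
      positivity
    have hM : ((d : ℚ) + 1) * N j ≤ C := by exact_mod_cast hNC j
    have h1 : C * g v ≤ C * dq u v + ((w j ⬝ᵥ v : ℤ) : ℚ) := by
      rcases le_total 0 ((w j ⬝ᵥ v : ℤ) : ℚ) with hs | hs
      · have h2 := mul_le_mul_of_nonneg_left (hgu v hv) hCq.le
        linarith
      · have h2 := mul_le_mul_of_nonneg_left (hgu2 j v hv) hCq.le
        have h3 : (C : ℚ) * (((w j ⬝ᵥ v : ℤ) : ℚ) / ((d + 1) * N j)) ≤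
            ((w j ⬝ᵥ v : ℤ) : ℚ) := by
          rw [← mul_div_assoc, div_le_iff₀ h0, mul_comm (C : ℚ)]
          exact mul_le_mul_of_nonpos_left hM hs
        rw [mul_add] at h2
        linarith
    rw [← hlhs, ← hu0v] at h1
    rw [add_dotProduct]
    exact_mod_cast h1

end VP

end Pool.Agent.R885.N
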