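import Pool.Agent.R885.U0
import Pool.Agent.R885.U3
import Pool.Agent.R885.U11
import Pool.Agent.R885.U11b
import Pool.Agent.R885.T10
import Pool.Agent.R885.V0
import Pool.Agent.R885.V3b
import Pool.Agent.R885.V6

/-!
Log canonical pairs with arbitrary weights at infinity: the case where the polytope is not empty
only after a perturbation.
-/

set_option autoImplicit false
set_option linter.overlappingInstances false
set_option linter.unusedSectionVars false

open FF IntermediateField Pool.Agent.W603.LV Pool.Agent.W619.PQ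
  Pool.Agent.W619.TW Pool.Agent.Y174

namespace Pool.Agent.R885.N

section VS

variable {k K : Type} [Field k] [CharZero k] [Field K] [Algebra k K] {n : ℕ}
  {β : Place k K → ℝ} {r q : ℕ} {J' : Type} [Fintype J'] {x : Fin r → K}
  {f : Fin q → (Fin r → ℤ) →₀ k} {y : J' → K} {cw : J' → ℚ} {A Ψ : (Fin r → ℤ) → ℚ}

theorem v8n_vec {Λ F : Type} [Field Λ] [Field F] [Algebra Λ F] [Algebra k F] (φ : K →ₐ[k] F)
    {P : Place Λ F} {v : Place k K} {e : ℕ} (hv : ∀ z, P.ord (φ z) = e * v.ord z) (x : Fin r → K) :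
    vec P (fun i => φ (x i)) = (e : ℤ) • vec v x := by
  funext i
  exact hv (x i)

theorem v8n_Th {Λ F : Type} [Field Λ] [Field F] [Algebra Λ F] [Algebra k F] (φ : K →ₐ[k] F)
    {P : Place Λ F} {v : Place k K} {e : ℕ} (hv : ∀ z, P.ord (φ z) = e * v.ord z) (y : J' → K)
    (cw : J' → ℚ) : Th (fun j => φ (y j)) cw P = e * Th y cw v := by
  unfold Th
  rw [Finset.mul_sum]
  refine Finset.sum_congr rfl fun j _ => ?_
  rw [hv]
  push_cast
  ring

/-- The multiplicities on the generic fibre are nonnegative combinations. -/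
theorem v8n_nonneg (hB : VSys n β x f y cw A Ψ) {Λ F : Type} [Field Λ] [Field F] [Algebra Λ F]
    [Algebra k Λ] [Algebra k F] [IsScalarTower k Λ F] (φ : K →ₐ[k] F) (P : Place Λ F) :
    (vec P (fun i => φ (x i)) = 0 → 0 ≤ Th (fun j => φ (y j)) cw P) ∧
      (vec P (fun i => φ (x i)) ≠ 0 →
        ((Ψ (vec P fun i => φ (x i)) : ℚ) : ℝ) ≤ Th (fun j => φ (y j)) cw P) := by
  rcases restr_place φ P with h0 | ⟨v, e, he, hv⟩
  · have hV : vec P (fun i => φ (x i)) = 0 := by
      funext i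
      exact h0 (x i)
    refine ⟨fun _ => ?_, fun h => absurd hV h⟩
    unfold Th
    refine (Finset.sum_eq_zero fun j _ => ?_).symm.le
    rw [h0, Int.cast_zero, mul_zero]
  · have he' : ((e : ℕ) : ℤ) ≠ 0 := by omega
    have her : (0 : ℝ) ≤ e := Nat.cast_nonneg e
    rw [v8n_vec φ hv, v8n_Th φ hv]
    refine ⟨fun h => ?_, fun h => ?_⟩
    · exact mul_nonneg her (hB.th0 v ((smul_eq_zero.1 h).resolve_left he'))
    · have hvv : vec v x ≠ 0 := fun h1 => h (by rw [h1, smul_zero])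
      rw [hB.P0.zsmul (by omega)]
      push_cast
      exact mul_le_mul_of_nonneg_left (hB.th1 v hvv) her

/-- The bounds for the multiplicities on the generic fibre. -/
theorem v8n_bound (hB : VSys n β x f y cw A Ψ) {Λ F : Type} [Field Λ] [Field F] [Algebra Λ F]
    [Algebra k Λ] [Algebra k F] [IsScalarTower k Λ F] (φ : K →ₐ[k] F) (P : Place Λ F) {δ : ℝ}
    (hδ : (∃ (v : Place k K) (e : ℕ), 0 < e ∧ (∀ z, P.ord (φ z) = e * v.ord z) ∧
      δ = max 0 (1 - e * (1 - β v))) ∨ δ = 0) :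
    (vec P (fun i => φ (x i)) = 0 → δ ≤ Th (fun j => φ (y j)) cw P) ∧
      (vec P (fun i => φ (x i)) ≠ 0 →
        δ ≤ 1 - ((A (vec P fun i => φ (x i)) + Ψ (vec P fun i => φ (x i)) : ℚ) : ℝ) +
          Th (fun j => φ (y j)) cw P) := by
  obtain ⟨hn0, hn1⟩ := v8n_nonneg hB φ P
  have hn2 : vec P (fun i => φ (x i)) ≠ 0 →
      0 ≤ 1 - ((A (vec P fun i => φ (x i)) + Ψ (vec P fun i => φ (x i)) : ℚ) : ℝ) +
        Th (fun j => φ (y j)) cw P := by
    intro h
    have h1 := hn1 h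
    have h2 : ((A (vec P fun i => φ (x i)) : ℚ) : ℝ) ≤ 1 := by exact_mod_cast hB.A1 _
    push_cast
    linarith
  rcases hδ with ⟨v, e, he, hv, rfl⟩ | rfl
  · have he' : ((e : ℕ) : ℤ) ≠ 0 := by omega
    have her : (1 : ℝ) ≤ e := by exact_mod_cast he
    refine ⟨fun h => max_le (hn0 h) ?_, fun h => max_le (hn2 h) ?_⟩
    · rw [v8n_vec φ hv] at h
      have hvv : vec v x = 0 := (smul_eq_zero.1 h).resolve_left he'
      rw [v8n_Th φ hv]
      have h1 := mul_le_mul_of_nonneg_left (hB.up0 v hvv) (by linarith : (0 : ℝ) ≤ e)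
      linarith
    · have hvv : vec v x ≠ 0 := by
        intro h1
        apply h
        rw [v8n_vec φ hv, h1, smul_zero]
      rw [v8n_Th φ hv, v8n_vec φ hv, hB.P0.zsmul (by omega)]
      have h1 := mul_le_mul_of_nonneg_left (hB.up1 v hvv) (by linarith : (0 : ℝ) ≤ e)
      have h2 : ((A ((e : ℤ) • vec v x) : ℚ) : ℝ) ≤ e * ((A (vec v x) : ℚ) : ℝ) := by
        exact_mod_cast hB.A3 (e : ℤ) (vec v x) (by omega) hvv
      push_cast at h1 ⊢
      nlinarith
  · exact ⟨hn0, hn2⟩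

/-- V8n -/
theorem VSys.neg [IsAlgClosed k] (hn : 1 ≤ n) (htr : Algebra.trdeg k K = (n : ℕ))
    (hB : VSys n β x f y cw A Ψ) {ε : ℚ} (hε : 0 < ε)
    (hF : (FineG A (fun v => Ψ v - ε * n1 v) f).Nonempty) {d : ℕ} (hdn : d < n)
    (hd : Algebra.trdeg k (IntermediateField.adjoin k
      {z : K | ∃ w ∈ dirsG A (fun v => Ψ v - ε * n1 v) f, z = mono x w}) = (d : ℕ)) :
    NegB k K n β := by
  classical
  intro T
  have hr := hB.hr
  have hx := hB.hx
  have hgen := hB.hgen
  have hf := hB.hf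
  have hy := hB.hy
  have hndf := hB.hnd
  have hβ1 := hB.le1
  have hini : ∀ g : (Fin r → ℤ) →₀ k, ini 0 g = g := by
    intro g
    by_cases hg : g = 0
    · rw [hg]
      unfold ini
      rw [Finsupp.filter_zero]
    · exact ini_zero hg
  have hf0 : ∀ l, f l ≠ 0 := by
    have h1 := hndf.self fun l => by rw [hini]; exact hf l
    intro l h0
    have h2 := h1.ne_zero l
    apply h2
    rw [hini, h0]
    funext i
    unfold gr
    exact Finsupp.sum_zero_index
  have hP0' := hB.P0.sub_n1 hε.le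
  have hAP' := n1_AP hB.AP hε.le
  obtain ⟨u0, c, a, nn, S, hc, ha, hnnq, hF', hS, hcl, hpos, hdirs, -⟩ :=
    exists_tightV hf0 hB.A0 hB.A1 hB.AD hP0' hAP' cw hF
  have hcq : (0 : ℚ) < c := by exact_mod_cast hc
  have hcr : (0 : ℝ) < c := by exact_mod_cast hc
  have haq : ∀ v, (a v : ℚ) = c * (A v + (Ψ v - ε * n1 v)) := ha
  have hεr : (0 : ℝ) < ((ε : ℚ) : ℝ) := by exact_mod_cast hε
  have ha2 : ∀ v w, v ≠ 0 → w ≠ 0 → v + w ≠ 0 → a v + a w - c ≤ a (v + w) := by
    intro v w hv hw hvw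
    have h1 : (a v : ℚ) + a w - c ≤ a (v + w) := by
      rw [haq, haq, haq]
      have h2 := mul_le_mul_of_nonneg_left (hAP' v w hv hw hvw) hcq.le
      linarith
    exact_mod_cast h1
  have ha3 : ∀ (g : ℤ) v, 0 < g → v ≠ 0 → a (g • v) ≤ g * a v := by
    intro g v hg hv
    have h1 : (a (g • v) : ℚ) ≤ g * a v := by
      have h2 := hB.A3 g v hg hv
      have h3 : Ψ (g • v) - ε * n1 (g • v) = g * (Ψ v - ε * n1 v) := hP0'.zsmul hg.le v
      rw [haq, haq, h3]
      have h4 := mul_le_mul_of_nonneg_left h2 hcq.le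
      linarith
    exact_mod_cast h1
  obtain ⟨t, htG, htind, htalg⟩ := exists_mono_basis hd
  choose w hw hwt using htG
  have hwS : ∀ j, ∀ s ∈ S, w j ⬝ᵥ s = 0 := fun j => (hdirs (w j)).1 (hw j)
  have hess : Algebra.EssFiniteType k K := by
    rw [← IntermediateField.fg_top_iff, ← hgen]
    exact ⟨Finset.univ.image x, by rw [Finset.coe_image, Finset.coe_univ, Set.image_univ]⟩
  obtain ⟨m, rfl⟩ : ∃ m, n = d + (m + 1) := ⟨n - d - 1, by omega⟩
  refine pairNeg_gen hess htind htr ?_ T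
  intro Λ F _ _ _ _ _ _ _ φ hφgen hΛF t' ht' htt' hcon δ' hδ' T'
  have hinj : Function.Injective φ := (φ : K →+* F).injective
  have e' : (Fin q ⊕ Fin d) ⊕ Fin (m + 1) ≃ Fin r := Fintype.equivOfCardEq (by
    simp only [Fintype.card_sum, Fintype.card_fin]
    omega)
  have hmono : ∀ w' : Fin r → ℤ, φ (mono x w') = mono (fun i => φ (x i)) w' := fun w' =>
    map_mono (φ : K →+* F) x w'
  have hxφ : ∀ i, φ (x i) ≠ 0 := fun i h0 => hx i (hinj (by rw [h0, map_zero]))
  have hyφ : ∀ j, φ (y j) ≠ 0 := fun j h0 => hy j (hinj (by rw [h0, map_zero]))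
  have hnnTh : ∀ P : Place Λ F, ((∑ j, nn j * P.ord (φ (y j)) : ℤ) : ℝ) =
      c * Th (fun j => φ (y j)) cw P := by
    intro P
    unfold Th
    push_cast
    rw [Finset.mul_sum]
    refine Finset.sum_congr rfl fun j _ => ?_
    have h4 : (nn j : ℝ) = c * ((cw j : ℚ) : ℝ) := by exact_mod_cast hnnq j
    rw [h4]
    ring
  have har : ∀ v, (a v : ℝ) = c * (((A v + Ψ v : ℚ) : ℝ) - ((ε : ℚ) : ℝ) * ((n1 v : ℚ) : ℝ)) := by
    intro v
    have h1 : (a v : ℚ) = c * ((A v + Ψ v) - ε * n1 v) := by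
      rw [haq]
      ring
    exact_mod_cast h1
  refine pair_fibre_negV (k := k) (f := f) (y := fun j => φ (y j)) (S := S) (u0 := u0) (c := c)
    (a' := a) (nn := nn) (w := w) (t := t')
    (x := fun i => φ (x i)) e' hΛF hxφ ?_ hf0 ?_ hyφ (hndf.gen F φ)
      (fun P => hndf.place Λ F φ P) hc ha2 ha3 (fun v hv _ => hF' v hv) hS hcl hpos
    ?_ hwS ht' ?_ ?_ ?_ ?_ (ε := c * ε) ?_ ?_ T'
  · rw [eq_top_iff, ← hφgen, IntermediateField.adjoin_le_iff]
    rintro _ ⟨z, rfl⟩
    have hz : z ∈ IntermediateField.adjoin k (Set.range x) := by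
      rw [hgen]
      trivial
    have h1 : IntermediateField.adjoin k (Set.range x) ≤
        ((IntermediateField.adjoin Λ (Set.range fun i => φ (x i))).restrictScalars k).comap
          φ := by
      rw [IntermediateField.adjoin_le_iff]
      rintro _ ⟨i, rfl⟩
      exact IntermediateField.subset_adjoin Λ _ ⟨i, rfl⟩
    exact h1 hz
  · intro l
    rw [← map_ev, hf, map_zero]
  · intro j h0
    have h1 : t j = algebraMap k K 1 := by
      rw [hwt, h0, mono_zero, map_one]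
    have h2 := htind.transcendental j
    rw [h1] at h2
    exact h2 (isAlgebraic_algebraMap 1)
  · intro j
    rw [htt', hwt, hmono]
  · intro w' hw'
    have h1 := htalg (mono x w') ⟨w', (hdirs w').2 hw', rfl⟩
    obtain ⟨a, ha⟩ := hcon _ h1
    exact ⟨a, by rw [ha, hmono]⟩
  · -- the multiplicities are at most one
    intro P
    rcases hδ' P with ⟨v, e, he, hv, hδ⟩ | h0
    · rw [hδ]
      refine max_le zero_le_one ?_
      have h1 : (0 : ℝ) ≤ e * (1 - β v) :=
        mul_nonneg (Nat.cast_nonneg e) (sub_nonneg.2 (hβ1 v))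
      linarith
    · rw [h0]
      exact zero_le_one
  · -- the places with the vector zero
    intro P hP
    rw [hnnTh]
    exact mul_le_mul_of_nonneg_left ((v8n_bound hB φ P (hδ' P)).1 hP) hcr.le
  · exact mul_pos hcr hεr
  · -- the other places
    intro P hP
    have h1 := mul_le_mul_of_nonneg_left ((v8n_bound hB φ P (hδ' P)).2 hP) hcr.le
    have h2 : ((c - a (vec P fun i => φ (x i)) + ∑ j, nn j * P.ord (φ (y j)) : ℤ) : ℝ) =
        c * (1 - ((A (vec P fun i => φ (x i)) + Ψ (vec P fun i => φ (x i)) : ℚ) : ℝ) +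
          Th (fun j => φ (y j)) cw P) +
          c * ((ε : ℚ) : ℝ) * ((n1 (vec P fun i => φ (x i)) : ℚ) : ℝ) := by
      rw [Int.cast_add, Int.cast_sub, hnnTh, har]
      ring
    have h3 : (1 : ℝ) ≤ ((n1 (vec P fun i => φ (x i)) : ℚ) : ℝ) := by
      exact_mod_cast n1_ge_one hP
    have h4 : (c : ℝ) * ((ε : ℚ) : ℝ) ≤
        c * ((ε : ℚ) : ℝ) * ((n1 (vec P fun i => φ (x i)) : ℚ) : ℝ) :=
      le_mul_of_one_le_right (mul_pos hcr hεr).le h3
    rw [h2]
    linarith

end VS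

end Pool.Agent.R885.N
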