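import Pool.Agent.R885.V0
import Pool.Agent.R885.U8

/-!
The arithmetic of the circuits, with weights which may vanish.
-/

set_option autoImplicit false
set_option linter.overlappingInstances false
set_option linter.unusedSectionVars false
set_option linter.unusedVariables false

namespace Pool.Agent.R885.N

/-- the strict triangle inequality for a sum with a positive relation -/
private theorem v9_abs_lt {ι : Type} [Fintype ι] {c a : ι → ℚ} (hc : ∀ i, 0 < c i)
    (hrel : ∑ i, c i * a i = 0) {i0 : ι} (h0 : a i0 ≠ 0) : |∑ i, a i| < ∑ i, |a i| := by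
  have key : ∀ b : ι → ℚ, ∑ i, c i * b i = 0 → b i0 ≠ 0 → 0 ≤ ∑ i, b i →
      ∑ i, b i < ∑ i, |b i| := by
    intro b hb hb0 _
    by_contra hcon
    push Not at hcon
    have h1 : ∀ i ∈ (Finset.univ : Finset ι), 0 ≤ |b i| - b i :=
      fun i _ => sub_nonneg.2 (le_abs_self _)
    have h2 : ∑ i, (|b i| - b i) = 0 := by
      refine le_antisymm ?_ (Finset.sum_nonneg h1)
      rw [Finset.sum_sub_distrib]
      linarith
    have h3 := (Finset.sum_eq_zero_iff_of_nonneg h1).1 h2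
    have h4 : ∀ i ∈ (Finset.univ : Finset ι), 0 ≤ c i * b i := by
      intro i hi
      refine mul_nonneg (hc i).le ?_
      have h5 := h3 i hi
      have h6 := abs_nonneg (b i)
      linarith
    have h5 := (Finset.sum_eq_zero_iff_of_nonneg h4).1 hb i0 (Finset.mem_univ _)
    exact hb0 ((mul_eq_zero.1 h5).resolve_left (hc i0).ne')
  rcases le_total 0 (∑ i, a i) with h | h
  · rw [abs_of_nonneg h]
    exact key a hrel h0 h
  · rw [abs_of_nonpos h, ← Finset.sum_neg_distrib]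
    have h1 := key (fun i => -a i) (by
      have h2 : ∑ i, c i * -a i = -∑ i, c i * a i := by
        rw [← Finset.sum_neg_distrib]
        exact Finset.sum_congr rfl fun i _ => by ring
      rw [h2, hrel, neg_zero]) (neg_ne_zero.2 h0) (by
        rw [Finset.sum_neg_distrib]
        linarith)
    beta_reduce at h1
    simpa only [abs_neg] using h1

/-- the strict inequality for the sum of the absolute values of the coordinates -/
private theorem v9_n1_lt {r : ℕ} {ι : Type} [Fintype ι] {s : ι → Fin r → ℤ} {c : ι → ℚ}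
    (hc : ∀ i, 0 < c i) (hrel : ∀ j, ∑ i, c i * (s i j : ℚ) = 0) {i0 : ι} (h0 : s i0 ≠ 0) :
    n1 (∑ i, s i) < ∑ i, n1 (s i) := by
  classical
  obtain ⟨j0, hj0⟩ : ∃ j, s i0 j ≠ 0 := by
    by_contra hcon
    push Not at hcon
    exact h0 (funext hcon)
  unfold n1
  rw [Finset.sum_comm]
  refine Finset.sum_lt_sum (fun j _ => ?_) ⟨j0, Finset.mem_univ _, ?_⟩
  · rw [Finset.sum_apply, Int.cast_sum]
    exact Finset.abs_sum_le_sum_abs _ _
  · rw [Finset.sum_apply, Int.cast_sum]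
    exact v9_abs_lt hc (hrel j0) (i0 := i0) (by exact_mod_cast hj0)

/-- **The arithmetic of the circuits.** -/
theorem exc_arithV {k : Type} [Field k] {r m : ℕ} {J : Type} [Fintype J]
    {f : J → (Fin r → ℤ) →₀ k} (hf0 : ∀ l, f l ≠ 0) {s : Fin (m + 1) → Fin r → ℤ}
    {c : Fin (m + 1) → ℚ} (hm : 1 ≤ m) (hc : ∀ i, 0 < c i)
    (hrel : ∀ j, ∑ i, c i * (s i j : ℚ) = 0)
    (huniq : ∀ μ : Fin (m + 1) → ℚ, (∀ j, ∑ i, μ i * (s i j : ℚ) = 0) → ∃ d, ∀ i, μ i = d * c i)
    {A Ψ : (Fin r → ℤ) → ℚ} (A0 : ∀ v, v ≠ 0 → 0 ≤ A v) (A1 : ∀ v, A v ≤ 1) (P0 : PLin Ψ)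
    (AP : ∀ v w, v ≠ 0 → w ≠ 0 → v + w ≠ 0 → A v + Ψ v + (A w + Ψ w) - 1 ≤ A (v + w) + Ψ (v + w))
    {ε : ℚ} (hε : 0 < ε) {u : Fin r → ℚ}
    (hF : ∀ v, v ≠ 0 → A v + (Ψ v - ε * n1 v) + ∑ l, (mn v (f l) : ℚ) ≤ dq u v)
    (hs : ∀ i, dq u (s i) = A (s i) + (Ψ (s i) - ε * n1 (s i)) + ∑ l, (mn (s i) (f l) : ℚ))
    (hcard : m ≤ (JC f s).card) :
    ∑ i, s i = 0 ∧ (JC f s).card = m ∧ (∀ l ∈ JC f s, ∑ i, mn (s i) (f l) = -1) ∧
      SubD f A Ψ s := by
  classical
  -- the partial sums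
  have hpart : ∀ T : Finset (Fin (m + 1)), T.Nonempty → T ≠ Finset.univ → ∑ i ∈ T, s i ≠ 0 := by
    intro T hT hTu h0
    obtain ⟨d, hd⟩ := huniq (fun i => if i ∈ T then 1 else 0) (fun j => by
      have h7 := congrFun h0 j
      rw [Finset.sum_apply, Pi.zero_apply] at h7
      have h8 : ∑ i, (if i ∈ T then (1 : ℚ) else 0) * (s i j : ℚ) = ∑ i ∈ T, (s i j : ℚ) := by
        simp only [ite_mul, one_mul, zero_mul]
        rw [Finset.sum_ite_mem, Finset.univ_inter]
      rw [h8]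
      exact_mod_cast h7)
    obtain ⟨i1, hi1⟩ : ∃ i, i ∉ T := by
      by_contra hcon
      push Not at hcon
      exact hTu (Finset.eq_univ_iff_forall.2 hcon)
    obtain ⟨i2, hi2⟩ := hT
    have h7 := hd i1
    have h8 := hd i2
    rw [if_neg hi1] at h7
    rw [if_pos hi2] at h8
    have h9 : d = 0 := (mul_eq_zero.1 h7.symm).resolve_right (hc i1).ne'
    rw [h9, zero_mul] at h8
    exact one_ne_zero h8
  have hs0 : s 0 ≠ 0 := by
    have h7 := hpart {0} (Finset.singleton_nonempty _) (by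
      intro h
      have h8 := congrArg Finset.card h
      rw [Finset.card_singleton, Finset.card_univ, Fintype.card_fin] at h8
      omega)
    rwa [Finset.sum_singleton] at h7
  have hn1 := v9_n1_lt hc hrel hs0
  -- the upper bound for the sum
  have hup : ∑ i, s i = 0 → ∑ i, (A (s i) + Ψ (s i)) ≤ (m : ℚ) + 1 := by
    intro hσ
    obtain ⟨T, hTd⟩ : ∃ T : Finset (Fin (m + 1)), T = Finset.univ.erase 0 := ⟨_, rfl⟩
    have hTc : T.card = m := by
      rw [hTd, Finset.card_erase_of_mem (Finset.mem_univ _), Finset.card_univ, Fintype.card_fin]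
      omega
    have hTn : T.Nonempty := by
      rw [← Finset.card_pos, hTc]
      omega
    have h0T : (0 : Fin (m + 1)) ∉ T := by
      rw [hTd]
      exact Finset.notMem_erase _ _
    have h2 := u8_super (b := fun v => A v + Ψ v) (t := 1) AP s T hTn
      fun T' hT' hT'n => hpart T' hT'n fun h => h0T (hT' (by rw [h]; exact Finset.mem_univ _))
    have h3 : ∑ i ∈ T, s i = -s 0 := by
      rw [hTd]
      have h4 := Finset.add_sum_erase Finset.univ s (Finset.mem_univ 0)
      rw [hσ] at h4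
      exact (neg_eq_of_add_eq_zero_right h4).symm
    rw [h3, hTc] at h2
    have h4 := P0.add_neg_le (s 0)
    have h5 := A1 (s 0)
    have h6 := A1 (-s 0)
    have h7 : ∑ i, (A (s i) + Ψ (s i)) =
        (A (s 0) + Ψ (s 0)) + ∑ i ∈ T, (A (s i) + Ψ (s i)) := by
      rw [hTd]
      exact (Finset.add_sum_erase Finset.univ (fun i => A (s i) + Ψ (s i))
        (Finset.mem_univ 0)).symm
    rw [h7]
    linarith
  -- the sum of the minima
  obtain ⟨N, hN⟩ : ∃ N : J → ℤ, N = fun l => -∑ i, mn (s i) (f l) := ⟨_, rfl⟩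
  have hmn : ∀ l, ∑ i, mn (s i) (f l) + (if l ∈ JC f s then 1 else 0) ≤
      mn (∑ i, s i) (f l) := by
    intro l
    refine le_mn (hf0 l) fun m' hm' => ?_
    rw [dotProduct_sum]
    have h1 : ∀ i ∈ (Finset.univ : Finset (Fin (m + 1))), mn (s i) (f l) ≤ m' ⬝ᵥ s i :=
      fun i _ => mn_le hm'
    by_cases hl : l ∈ JC f s
    · rw [if_pos hl]
      obtain ⟨i, hi⟩ := mem_JC hc hrel hl hm'
      have h2 := Finset.sum_lt_sum h1 ⟨i, Finset.mem_univ _, hi⟩
      omega
    · rw [if_neg hl, add_zero]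
      exact Finset.sum_le_sum h1
  have hsum : (∑ l, ∑ i, mn (s i) (f l)) + (JC f s).card ≤ ∑ l, mn (∑ i, s i) (f l) := by
    have h1 : ∑ l, (∑ i, mn (s i) (f l) + (if l ∈ JC f s then (1 : ℤ) else 0)) =
        (∑ l, ∑ i, mn (s i) (f l)) + (JC f s).card := by
      rw [Finset.sum_add_distrib]
      simp
    rw [← h1]
    exact Finset.sum_le_sum fun l _ => hmn l
  have hsumq : (∑ l, ∑ i, (mn (s i) (f l) : ℚ)) + ((JC f s).card : ℚ) ≤
      ∑ l, (mn (∑ i, s i) (f l) : ℚ) := by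
    exact_mod_cast hsum
  have hcard' : (m : ℚ) ≤ ((JC f s).card : ℚ) := by exact_mod_cast hcard
  have hm1 : (1 : ℚ) ≤ m := by exact_mod_cast hm
  have hu : ∀ T : Finset (Fin (m + 1)), dq u (∑ i ∈ T, s i) =
      ∑ i ∈ T, (A (s i) + Ψ (s i)) - ε * ∑ i ∈ T, n1 (s i) +
        ∑ l, ∑ i ∈ T, (mn (s i) (f l) : ℚ) := by
    intro T
    rw [u8_dq_sum, Finset.sum_congr rfl fun i _ => hs i, Finset.sum_add_distrib,
      Finset.sum_comm (s := T) (t := Finset.univ), Finset.mul_sum, ← Finset.sum_sub_distrib]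
    congr 1
    exact Finset.sum_congr rfl fun i _ => by ring
  have hσ : ∑ i, s i = 0 := by
    by_contra hne
    have h1 := hF _ hne
    rw [hu] at h1
    have h2 := u8_super (b := fun v => A v + Ψ v) (t := 1) AP s Finset.univ
      ⟨0, Finset.mem_univ _⟩ fun T' _ hT'n => by
        by_cases h : T' = Finset.univ
        · rw [h]
          exact hne
        · exact hpart T' hT'n h
    rw [Finset.card_univ, Fintype.card_fin] at h2
    push_cast at h2
    have h3 := mul_lt_mul_of_pos_left hn1 hε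
    linarith
  have hmn0 : ∀ l, (if l ∈ JC f s then (1 : ℤ) else 0) ≤ N l := by
    intro l
    have h1 := hmn l
    rw [hσ, mn_zero (hf0 l)] at h1
    rw [hN]
    change _ ≤ -∑ i, mn (s i) (f l)
    omega
  have hNsum : ∑ l, ∑ i, (mn (s i) (f l) : ℚ) = -((∑ l, N l : ℤ) : ℚ) := by
    rw [hN]
    push_cast
    rw [← Finset.sum_neg_distrib]
    exact Finset.sum_congr rfl fun l _ => by rw [neg_neg]
  have hu0 := hu Finset.univ
  have hdq0 : dq u (0 : Fin r → ℤ) = 0 := by simp [dq]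
  rw [hσ, hdq0, hNsum] at hu0
  rw [hσ, n1_zero] at hn1
  have hεn := mul_pos hε hn1
  have h2 : ∑ l, (if l ∈ JC f s then (1 : ℤ) else 0) ≤ ∑ l, N l :=
    Finset.sum_le_sum fun l _ => hmn0 l
  have h3 : ∑ l, (if l ∈ JC f s then (1 : ℤ) else 0) = (JC f s).card := by simp
  have h4 : ∑ l, N l < m + 1 := by
    have h5 := hup hσ
    have h6 : ((∑ l, N l : ℤ) : ℚ) < m + 1 := by linarith
    exact_mod_cast h6
  have h5 : ∑ l, N l = m := by
    have : (m : ℤ) ≤ (JC f s).card := by exact_mod_cast hcard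
    omega
  have h6 : ((JC f s).card : ℤ) = m := by
    have : (m : ℤ) ≤ (JC f s).card := by exact_mod_cast hcard
    omega
  have hNm : ((∑ l, N l : ℤ) : ℚ) = m := by
    rw [h5]
    norm_cast
  refine ⟨hσ, by exact_mod_cast h6, fun l hl => ?_, ?_, ?_, hup hσ⟩
  · have h7 : ∑ l, (N l - (if l ∈ JC f s then (1 : ℤ) else 0)) = 0 := by
      rw [Finset.sum_sub_distrib, h3]
      omega
    have h8 := (Finset.sum_eq_zero_iff_of_nonneg fun l _ => sub_nonneg.2 (hmn0 l)).1 h7 l
      (Finset.mem_univ _)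
    rw [if_pos hl, hN] at h8
    change -∑ i, mn (s i) (f l) - 1 = 0 at h8
    omega
  · intro T hT hTu
    have hne := hpart T hT hTu
    have h7 := hF _ hne
    rw [hu T] at h7
    have h8 := mul_le_mul_of_nonneg_left (n1_sum T s) hε.le
    push_cast
    rw [Finset.sum_sub_distrib]
    linarith
  · linarith

end Pool.Agent.R885.N
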