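import Pool.Agent.R885.V0

set_option autoImplicit false
set_option linter.overlappingInstances false
set_option linter.unusedSectionVars false

namespace Pool.Agent.R885.N

section v12a

variable {r : ℕ}

theorem v12a_dq_add (u : Fin r → ℚ) (v w : Fin r → ℤ) : dq u (v + w) = dq u v + dq u w := by
  unfold dq
  rw [← Finset.sum_add_distrib]
  refine Finset.sum_congr rfl fun i _ => ?_
  rw [Pi.add_apply]
  push_cast
  ring

theorem v12a_dq_zero (u : Fin r → ℚ) : dq u (0 : Fin r → ℤ) = 0 := by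
  simp [dq]

theorem v12a_dq_zsmul (u : Fin r → ℚ) (g : ℤ) (v : Fin r → ℤ) :
    dq u (g • v) = (g : ℚ) * dq u v := by
  unfold dq
  rw [Finset.mul_sum]
  refine Finset.sum_congr rfl fun i _ => ?_
  rw [Pi.smul_apply, smul_eq_mul]
  push_cast
  ring

theorem v12a_dq_sum {ι : Type} (T : Finset ι) (u : Fin r → ℚ) (s : ι → Fin r → ℤ) :
    dq u (∑ a ∈ T, s a) = ∑ a ∈ T, dq u (s a) := by
  classical
  induction T using Finset.induction_on with
  | empty => rw [Finset.sum_empty, Finset.sum_empty, v12a_dq_zero]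
  | insert a T ha ih => rw [Finset.sum_insert ha, Finset.sum_insert ha, v12a_dq_add, ih]

theorem v12a_zero {Ψ : (Fin r → ℤ) → ℚ} (h : PLin Ψ) : Ψ 0 = 0 := by
  obtain ⟨Y, -, h2⟩ := h
  obtain ⟨y, -, hy⟩ := h2 0
  rw [hy, v12a_dq_zero]

theorem v12a_mn_smul {k : Type} [Field k] {f : (Fin r → ℤ) →₀ k} (hf : f ≠ 0) {α : ℤ}
    (hα : 0 ≤ α) (s : Fin r → ℤ) : mn (α • s) f = α * mn s f := by
  apply le_antisymm
  · obtain ⟨m, hm, h⟩ := exists_mn hf s
    rw [← h]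
    have h1 := mn_le (v := α • s) hm
    rwa [dotProduct_smul, smul_eq_mul] at h1
  · refine le_mn hf fun m hm => ?_
    rw [dotProduct_smul, smul_eq_mul]
    exact mul_le_mul_of_nonneg_left (mn_le hm) hα

theorem v12a_mn_add {k : Type} [Field k] {f : (Fin r → ℤ) →₀ k} (hf : f ≠ 0)
    (v w : Fin r → ℤ) : mn v f + mn w f ≤ mn (v + w) f := by
  refine le_mn hf fun m hm => ?_
  rw [dotProduct_add]
  exact add_le_add (mn_le hm) (mn_le hm)

theorem v12a_plin_zsmul {Ψ : (Fin r → ℤ) → ℚ} (h : PLin Ψ) {g : ℤ} (hg : 0 ≤ g)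
    (v : Fin r → ℤ) : Ψ (g • v) = g * Ψ v := by
  obtain ⟨Y, h1, h2⟩ := h
  have hg' : (0 : ℚ) ≤ g := by exact_mod_cast hg
  apply le_antisymm
  · obtain ⟨y, hy, hyv⟩ := h2 v
    have := h1 (g • v) y hy
    rwa [v12a_dq_zsmul, ← hyv] at this
  · obtain ⟨y, hy, hyv⟩ := h2 (g • v)
    rw [hyv, v12a_dq_zsmul]
    exact mul_le_mul_of_nonneg_left (h1 v y hy) hg'

/-- an additive function with rational values is given by a rational vector -/
theorem v12a_repr (F : (Fin r → ℤ) →+ ℚ) (w : Fin r → ℤ) :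
    dq (fun i => F (Pi.single i 1)) w = F w := by
  have h : w = ∑ i, w i • (Pi.single i (1 : ℤ) : Fin r → ℤ) := by
    funext j
    simp [Finset.sum_apply, Pi.single_apply]
  conv_rhs => rw [h]
  rw [map_sum]
  unfold dq
  refine Finset.sum_congr rfl fun i _ => ?_
  rw [map_zsmul, zsmul_eq_mul, mul_comm]

/-- the pairing with a rational vector as an additive map -/
def v12aDq (u : Fin r → ℚ) : (Fin r → ℤ) →+ ℚ where
  toFun := dq u
  map_zero' := v12a_dq_zero u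
  map_add' := v12a_dq_add u

/-- the pairing with an integral vector as an additive map -/
def v12aDot (m : Fin r → ℤ) : (Fin r → ℤ) →+ ℚ where
  toFun v := ((m ⬝ᵥ v : ℤ) : ℚ)
  map_zero' := by simp
  map_add' v w := by rw [dotProduct_add]; push_cast; rfl

end v12a

section U12

variable {k : Type} [Field k] {r r' m : ℕ} {A Ψ : (Fin r → ℤ) → ℚ}
  {s : Fin (m + 1) → Fin r → ℤ} {W : Fin r' → Fin r → ℤ} {Δ : Fin (m + 1) → (Fin r → ℤ) →₀ k}
  {L : (Fin r' → ℤ) →+ (Fin r → ℤ)}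

theorem v12a_dot_sum {ι : Type} (T : Finset ι) (u : Fin r → ℤ) (x : ι → Fin r → ℤ) :
    u ⬝ᵥ (∑ a ∈ T, x a) = ∑ a ∈ T, u ⬝ᵥ x a := dotProduct_sum u T x

/-- U12a -/
theorem exists_LV (hs : ∑ a, s a = 0) {b : Fin (m + 1) → Fin r → ℤ}
    (hb : ∀ a i, b a ⬝ᵥ s i = (if i = a then 1 else 0) - if i = 0 then 1 else 0)
    (hWs : ∀ j i, W j ⬝ᵥ s i = 0)
    (hspan : ∀ w, (∀ i, w ⬝ᵥ s i = 0) → ∃ u : Fin r' → ℤ, ∑ j, u j • W j = w)
    (hinj0 : ∀ u : Fin r' → ℤ, ∑ j, u j • W j = 0 → u = 0) :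
    ∃ L : (Fin r' → ℤ) →+ (Fin r → ℤ), (∀ w j, W j ⬝ᵥ L w = w j) ∧
      ∀ v, v = L (fun j => W j ⬝ᵥ v) + ∑ a, (b a ⬝ᵥ v) • s a := by
  classical
  let p : (Fin r → ℤ) → (Fin r → ℤ) := fun u => u - ∑ a, (u ⬝ᵥ s a) • b a
  have hp : ∀ u i, p u ⬝ᵥ s i = 0 := by
    intro u i
    simp only [p]
    rw [sub_dotProduct, sum_dotProduct]
    have h1 : ∀ a, ((u ⬝ᵥ s a) • b a) ⬝ᵥ s i =
        (u ⬝ᵥ s a) * (if i = a then 1 else 0) - (u ⬝ᵥ s a) * (if i = 0 then 1 else 0) := by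
      intro a
      rw [smul_dotProduct, hb, smul_eq_mul, mul_sub]
    rw [Finset.sum_congr rfl fun a _ => h1 a, Finset.sum_sub_distrib, ← Finset.sum_mul,
      ← v12a_dot_sum, hs, dotProduct_zero]
    simp
  choose c hc using fun u => hspan (p u) (hp u)
  have huniq : ∀ u u' : Fin r' → ℤ, ∑ j, u j • W j = ∑ j, u' j • W j → u = u' := by
    intro u u' h
    rw [← sub_eq_zero]
    refine hinj0 _ ?_
    simp only [Pi.sub_apply, sub_smul, Finset.sum_sub_distrib, h, sub_self]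
  have hpl : ∀ u : Fin r → ℤ, ∑ i, u i • p (Pi.single i 1) = p u := by
    intro u
    have h : u = ∑ i, u i • (Pi.single i (1 : ℤ) : Fin r → ℤ) := by
      funext j
      simp [Finset.sum_apply, Pi.single_apply]
    simp only [p, smul_sub, Finset.sum_sub_distrib]
    rw [← h]
    congr 1
    simp only [Finset.smul_sum]
    rw [Finset.sum_comm]
    refine Finset.sum_congr rfl fun a _ => ?_
    have h2 : u ⬝ᵥ s a = ∑ i, u i * ((Pi.single i (1 : ℤ) : Fin r → ℤ) ⬝ᵥ s a) := by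
      conv_lhs => rw [h]
      rw [sum_dotProduct]
      refine Finset.sum_congr rfl fun i _ => ?_
      rw [smul_dotProduct, smul_eq_mul]
    rw [h2, Finset.sum_smul]
    refine Finset.sum_congr rfl fun i _ => ?_
    rw [smul_smul]
  have hcu : ∀ u : Fin r → ℤ, c u = fun j => ∑ i, u i * c (Pi.single i 1) j := by
    intro u
    apply huniq
    rw [hc u, ← hpl u]
    simp only [Finset.sum_smul]
    rw [Finset.sum_comm]
    refine Finset.sum_congr rfl fun i _ => ?_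
    rw [← hc (Pi.single i 1), Finset.smul_sum]
    refine Finset.sum_congr rfl fun j _ => ?_
    rw [smul_smul]
  let L : (Fin r' → ℤ) →+ (Fin r → ℤ) :=
    { toFun := fun w i => c (Pi.single i 1) ⬝ᵥ w
      map_zero' := by
        funext i
        simp
      map_add' := by
        intro v w
        funext i
        simp only [Pi.add_apply]
        rw [dotProduct_add] }
  have hL : ∀ (u : Fin r → ℤ) (w : Fin r' → ℤ), u ⬝ᵥ L w = c u ⬝ᵥ w := by
    intro u w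
    rw [hcu u]
    show ∑ i, u i * (∑ j, c (Pi.single i 1) j * w j) = ∑ j, (∑ i, u i * c (Pi.single i 1) j) * w j
    simp only [Finset.mul_sum, Finset.sum_mul]
    rw [Finset.sum_comm]
    refine Finset.sum_congr rfl fun j _ => Finset.sum_congr rfl fun i _ => ?_
    ring
  refine ⟨L, ?_, ?_⟩
  · intro w j
    rw [hL]
    have h1 : c (W j) = Pi.single j 1 := by
      apply huniq
      rw [hc]
      simp only [p, hWs, zero_smul, Finset.sum_const_zero, sub_zero]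
      simp [Pi.single_apply]
    rw [h1, single_dotProduct, one_mul]
  · intro v
    funext i
    have h1 : (L (fun j => W j ⬝ᵥ v)) i = p (Pi.single i 1) ⬝ᵥ v := by
      show c (Pi.single i 1) ⬝ᵥ (fun j => W j ⬝ᵥ v) = _
      rw [← hc (Pi.single i 1), sum_dotProduct]
      unfold dotProduct
      refine Finset.sum_congr rfl fun j _ => ?_
      rw [Finset.mul_sum]
      refine Finset.sum_congr rfl fun l _ => ?_
      rw [Pi.smul_apply, smul_eq_mul]
      ring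
    rw [Pi.add_apply, h1]
    simp only [p]
    rw [sub_dotProduct, sum_dotProduct, single_dotProduct, one_mul, Finset.sum_apply]
    have h2 : ∀ a, (((Pi.single i (1 : ℤ) : Fin r → ℤ) ⬝ᵥ s a) • b a) ⬝ᵥ v =
        ((b a ⬝ᵥ v) • s a) i := by
      intro a
      rw [smul_dotProduct, single_dotProduct, one_mul, Pi.smul_apply, smul_eq_mul, smul_eq_mul,
        mul_comm]
    rw [Finset.sum_congr rfl fun a _ => h2 a]
    ring

theorem v12a_W (H : TrE A Ψ s W Δ L) (x : Fin r → ℤ) (n : Fin (m + 1) → ℤ) (j : Fin r') :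
    W j ⬝ᵥ (x + ∑ a, n a • s a) = W j ⬝ᵥ x := by
  have h : ∀ a, W j ⬝ᵥ (n a • s a) = 0 := by
    intro a
    rw [dotProduct_smul, H.hWs, smul_zero]
  rw [dotProduct_add, v12a_dot_sum, Finset.sum_congr rfl fun a _ => h a, Finset.sum_const_zero,
    add_zero]

theorem v12a_W0 (H : TrE A Ψ s W Δ L) (w : Fin r' → ℤ) (j : Fin r') :
    W j ⬝ᵥ v0f L Δ s w = w j := by
  unfold v0f
  rw [v12a_W H, H.hWL]

theorem v12a_ne (H : TrE A Ψ s W Δ L) {w : Fin r' → ℤ} (hw : w ≠ 0) : v0f L Δ s w ≠ 0 := by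
  intro h
  apply hw
  funext j
  rw [← v12a_W0 H w j, h, dotProduct_zero, Pi.zero_apply]

theorem v12a_s_ne (H : TrE A Ψ s W Δ L) (a : Fin (m + 1)) : s a ≠ 0 := by
  classical
  intro h
  have h1 := H.hn (Pi.single a 1) (by
    rw [Finset.sum_eq_single a]
    · rw [h, smul_zero]
    · intro i _ hi
      rw [Pi.single_eq_of_ne hi, zero_smul]
    · intro h
      exact absurd (Finset.mem_univ _) h)
  have hm := H.hm
  obtain ⟨a', ha'⟩ : ∃ a' : Fin (m + 1), a' ≠ a := by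
    by_cases h0 : a = 0
    · refine ⟨⟨1, by omega⟩, ?_⟩
      rw [h0]
      intro h2
      have := congrArg Fin.val h2
      simp at this
    · exact ⟨0, fun h2 => h0 h2.symm⟩
  have h2 := h1 a a'
  rw [Pi.single_eq_same, Pi.single_eq_of_ne ha'] at h2
  exact one_ne_zero h2

/-- U12a -/
theorem TrE.A0' (H : TrE A Ψ s W Δ L) (w : Fin r' → ℤ) (hw : w ≠ 0) : 0 ≤ Anew A L Δ s w :=
  H.A0 _ (v12a_ne H hw)

theorem TrE.A1' (H : TrE A Ψ s W Δ L) (w : Fin r' → ℤ) : Anew A L Δ s w ≤ 1 :=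
  H.A1 _

theorem TrE.AD' (H : TrE A Ψ s W Δ L) :
    ∃ D : ℕ, 1 ≤ D ∧ ∀ w, ∃ z : ℤ, (D : ℚ) * Anew A L Δ s w = z := by
  obtain ⟨D, h1, h2⟩ := H.AD
  exact ⟨D, h1, fun w => h2 _⟩

theorem v12a_dlt_smul (H : TrE A Ψ s W Δ L) {g : ℤ} (hg : 0 ≤ g) (w : Fin r' → ℤ)
    (a : Fin (m + 1)) : dlt L Δ a (g • w) = g * dlt L Δ a w := by
  unfold dlt
  rw [map_zsmul, v12a_mn_smul (H.hΔ0 a) hg]

theorem v12a_v0f_smul (H : TrE A Ψ s W Δ L) {g : ℤ} (hg : 0 ≤ g) (w : Fin r' → ℤ) :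
    v0f L Δ s (g • w) = g • v0f L Δ s w := by
  unfold v0f
  rw [map_zsmul, smul_add, Finset.smul_sum]
  congr 1
  refine Finset.sum_congr rfl fun a _ => ?_
  rw [v12a_dlt_smul H hg, smul_smul]

theorem TrE.A3' (H : TrE A Ψ s W Δ L) (g : ℤ) (w : Fin r' → ℤ) (hg : 0 < g) (hw : w ≠ 0) :
    Anew A L Δ s (g • w) ≤ g * Anew A L Δ s w := by
  unfold Anew
  rw [v12a_v0f_smul H hg.le]
  exact H.A3 g _ hg (v12a_ne H hw)

/-- Lemma B, one vector -/
theorem v12a_one (H : TrE A Ψ s W Δ L) (x : Fin r → ℤ) (hx : ∃ j, W j ⬝ᵥ x ≠ 0)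
    (a : Fin (m + 1)) :
    A x + Ψ x - lamG A Ψ s a ≤ A (x + s a) + Ψ (x + s a) := by
  obtain ⟨j, hj⟩ := hx
  have h1 : x ≠ 0 := by
    rintro rfl
    exact hj (dotProduct_zero _)
  have h2 : x + s a ≠ 0 := by
    intro h
    apply hj
    have h3 : W j ⬝ᵥ (x + s a) = 0 := by rw [h, dotProduct_zero]
    rwa [dotProduct_add, H.hWs, add_zero] at h3
  have h4 := H.AP x (s a) h1 (v12a_s_ne H a) h2
  unfold lamG
  linarith

theorem v12a_mul (H : TrE A Ψ s W Δ L) (x : Fin r → ℤ) (hx : ∃ j, W j ⬝ᵥ x ≠ 0)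
    (a : Fin (m + 1)) (n : ℕ) :
    A x + Ψ x - n * lamG A Ψ s a ≤ A (x + (n : ℤ) • s a) + Ψ (x + (n : ℤ) • s a) := by
  induction n with
  | zero => simp
  | succ n ih =>
    obtain ⟨j, hj⟩ := hx
    have h1 := v12a_one H (x + (n : ℤ) • s a) ⟨j, by
      rw [dotProduct_add, dotProduct_smul, H.hWs, smul_zero, add_zero]
      exact hj⟩ a
    have e : x + ((n + 1 : ℕ) : ℤ) • s a = x + (n : ℤ) • s a + s a := by
      push_cast
      rw [add_smul, one_smul, add_assoc]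
    rw [e]
    push_cast
    linarith

/-- Lemma B -/
theorem TrE.lemB (H : TrE A Ψ s W Δ L) (x : Fin r → ℤ) (hx : ∃ j, W j ⬝ᵥ x ≠ 0)
    (n : Fin (m + 1) → ℤ) (hn : ∀ a, 0 ≤ n a) :
    A x + Ψ x - ∑ a, (n a : ℚ) * lamG A Ψ s a ≤
      A (x + ∑ a, n a • s a) + Ψ (x + ∑ a, n a • s a) := by
  classical
  have key : ∀ T : Finset (Fin (m + 1)), A x + Ψ x - ∑ a ∈ T, (n a : ℚ) * lamG A Ψ s a ≤
      A (x + ∑ a ∈ T, n a • s a) + Ψ (x + ∑ a ∈ T, n a • s a) := by
    intro T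
    induction T using Finset.induction_on with
    | empty => simp
    | insert a T ha ih =>
      obtain ⟨j, hj⟩ := hx
      obtain ⟨N, hN⟩ := Int.eq_ofNat_of_zero_le (hn a)
      have h1 := v12a_mul H (x + ∑ a ∈ T, n a • s a) ⟨j, by
        rw [dotProduct_add, v12a_dot_sum]
        simp only [dotProduct_smul, H.hWs, smul_zero, Finset.sum_const_zero, add_zero]
        exact hj⟩ a N
      rw [Finset.sum_insert ha, Finset.sum_insert ha, add_comm (n a • s a), ← add_assoc, hN]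
      push_cast
      linarith
  exact key Finset.univ

theorem v12a_psi (H : TrE A Ψ s W Δ L) {y : Fin r → ℚ} (hy : ∀ v, Ψ v ≤ dq y v)
    (a : Fin (m + 1)) : 0 ≤ dq y (s a) + lamG A Ψ s a := by
  have h1 := hy (s a)
  have h2 := H.A1 (s a)
  unfold lamG
  linarith

theorem TrE.P0' (H : TrE A Ψ s W Δ L) : PLin (Pnew A Ψ L Δ s) := by
  classical
  obtain ⟨Y, hY1, hY2⟩ := H.P0
  let F : (Fin r → ℚ) → (Fin (m + 1) → Fin r → ℤ) → (Fin r' → ℤ) →+ ℚ := fun y χ =>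
    (v12aDq y).comp L + ∑ a, (dq y (s a) + lamG A Ψ s a) • (v12aDot (χ a)).comp L
  have hF : ∀ y χ w, F y χ w = dq y (L w) +
      ∑ a, (dq y (s a) + lamG A Ψ s a) * ((χ a ⬝ᵥ L w : ℤ) : ℚ) := by
    intro y χ w
    simp only [F, AddMonoidHom.add_apply, AddMonoidHom.finsetSum_apply, AddMonoidHom.smul_apply,
      AddMonoidHom.comp_apply]
    rfl
  have hv : ∀ y w, dq y (v0f L Δ s w) + ∑ a, lamG A Ψ s a * (dlt L Δ a w : ℚ) = dq y (L w) +
      ∑ a, (dq y (s a) + lamG A Ψ s a) * (dlt L Δ a w : ℚ) := by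
    intro y w
    unfold v0f
    rw [v12a_dq_add, v12a_dq_sum, add_assoc, ← Finset.sum_add_distrib]
    congr 1
    refine Finset.sum_congr rfl fun a _ => ?_
    rw [v12a_dq_zsmul]
    ring
  refine ⟨(Y ×ˢ Fintype.piFinset fun a => (Δ a).support).image
    fun p => fun i => F p.1 p.2 (Pi.single i 1), ?_, ?_⟩
  · intro w z hz
    obtain ⟨⟨y, χ⟩, hp, rfl⟩ := Finset.mem_image.1 hz
    obtain ⟨hy, hχ⟩ := Finset.mem_product.1 hp
    rw [v12a_repr, hF]
    calc Pnew A Ψ L Δ s w ≤ dq y (v0f L Δ s w) + ∑ a, lamG A Ψ s a * (dlt L Δ a w : ℚ) := by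
          unfold Pnew
          have := hY1 (v0f L Δ s w) y hy
          linarith
      _ = _ := hv y w
      _ ≤ _ := by
          have : ∀ a, (dq y (s a) + lamG A Ψ s a) * (dlt L Δ a w : ℚ) ≤
              (dq y (s a) + lamG A Ψ s a) * ((χ a ⬝ᵥ L w : ℤ) : ℚ) := by
            intro a
            refine mul_le_mul_of_nonneg_left ?_ (v12a_psi H (fun v => hY1 v y hy) a)
            exact_mod_cast mn_le (Fintype.mem_piFinset.1 hχ a)
          have := Finset.sum_le_sum fun a (_ : a ∈ (Finset.univ : Finset (Fin (m + 1)))) => this a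
          linarith
  · intro w
    obtain ⟨y, hy, hyw⟩ := hY2 (v0f L Δ s w)
    choose χ hχ1 hχ2 using fun a => exists_mn (H.hΔ0 a) (L w)
    refine ⟨fun i => F y χ (Pi.single i 1), Finset.mem_image.2 ⟨(y, χ), Finset.mem_product.2
      ⟨hy, Fintype.mem_piFinset.2 hχ1⟩, rfl⟩, ?_⟩
    rw [v12a_repr, hF]
    unfold Pnew
    rw [hyw, hv]
    congr 1
    refine Finset.sum_congr rfl fun a _ => ?_
    rw [hχ2 a]
    rfl

theorem TrE.AP' (H : TrE A Ψ s W Δ L) (v w : Fin r' → ℤ) (hv : v ≠ 0) (hw : w ≠ 0)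
    (hvw : v + w ≠ 0) :
    Anew A L Δ s v + Pnew A Ψ L Δ s v + (Anew A L Δ s w + Pnew A Ψ L Δ s w) - 1 ≤
      Anew A L Δ s (v + w) + Pnew A Ψ L Δ s (v + w) := by
  have hj : ∃ j, W j ⬝ᵥ (v0f L Δ s v + v0f L Δ s w) ≠ 0 := by
    by_contra hcon
    push Not at hcon
    apply hvw
    funext j
    have h1 := hcon j
    rwa [dotProduct_add, v12a_W0 H, v12a_W0 H] at h1
  have hne : v0f L Δ s v + v0f L Δ s w ≠ 0 := by
    intro h
    obtain ⟨j, hj⟩ := hj
    exact hj (by rw [h, dotProduct_zero])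
  have hn : ∀ a, 0 ≤ dlt L Δ a (v + w) - dlt L Δ a v - dlt L Δ a w := by
    intro a
    have h1 := v12a_mn_add (H.hΔ0 a) (L v) (L w)
    unfold dlt
    rw [map_add]
    linarith
  have e : v0f L Δ s (v + w) = v0f L Δ s v + v0f L Δ s w +
      ∑ a, (dlt L Δ a (v + w) - dlt L Δ a v - dlt L Δ a w) • s a := by
    unfold v0f
    simp only [sub_smul, Finset.sum_sub_distrib]
    rw [map_add]
    abel
  have hB := H.lemB _ hj _ hn
  rw [← e] at hB
  have hA := H.AP _ _ (v12a_ne H hv) (v12a_ne H hw) hne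
  have hsum : ∑ a, ((dlt L Δ a (v + w) - dlt L Δ a v - dlt L Δ a w : ℤ) : ℚ) * lamG A Ψ s a =
      ∑ a, lamG A Ψ s a * (dlt L Δ a (v + w) : ℚ) - ∑ a, lamG A Ψ s a * (dlt L Δ a v : ℚ) -
        ∑ a, lamG A Ψ s a * (dlt L Δ a w : ℚ) := by
    rw [← Finset.sum_sub_distrib, ← Finset.sum_sub_distrib]
    refine Finset.sum_congr rfl fun a _ => ?_
    push_cast
    ring
  rw [hsum] at hB
  unfold Anew Pnew
  linarith

theorem Pnew_zeroV (H : TrE A Ψ s W Δ L) : Pnew A Ψ L Δ s 0 = 0 := by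
  have h1 : ∀ a, dlt L Δ a 0 = 0 := by
    intro a
    unfold dlt
    rw [map_zero, mn_zero (H.hΔ0 a)]
  unfold Pnew v0f
  simp only [h1, zero_smul, Finset.sum_const_zero, map_zero, add_zero, Int.cast_zero, mul_zero,
    v12a_zero H.P0]

end U12

end Pool.Agent.R885.N
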