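import Pool.Agent.R885.V0
import Pool.Agent.R885.U11

/-!
The transfer of the weights to a smaller torus: comparisons.
-/

set_option autoImplicit false
set_option linter.overlappingInstances false
set_option linter.unusedSectionVars false

namespace Pool.Agent.R885.N

section

variable {k : Type} [Field k] {r r' m : ℕ} {A Ψ : (Fin r → ℤ) → ℚ}
  {s : Fin (m + 1) → Fin r → ℤ} {W : Fin r' → Fin r → ℤ} {Δ : Fin (m + 1) → (Fin r → ℤ) →₀ k}
  {L : (Fin r' → ℤ) →+ (Fin r → ℤ)}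

theorem TrE.s_ne (H : TrE A Ψ s W Δ L) (a : Fin (m + 1)) : s a ≠ 0 := by
  intro h0
  have h1 := H.hn (Pi.single a 1) (by
    rw [Finset.sum_eq_single a]
    · rw [Pi.single_eq_same, one_smul, h0]
    · intro b _ hb
      rw [Pi.single_eq_of_ne hb, zero_smul]
    · intro h
      exact absurd (Finset.mem_univ _) h)
  obtain ⟨b, hb⟩ : ∃ b : Fin (m + 1), b ≠ a := by
    have := H.hm
    haveI : Nontrivial (Fin (m + 1)) := Fin.nontrivial_iff_two_le.2 (by omega)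
    exact exists_ne a
  have h2 := h1 a b
  rw [Pi.single_eq_same, Pi.single_eq_of_ne hb] at h2
  exact one_ne_zero h2

/-- a path of vectors -/
theorem TrE.path (H : TrE A Ψ s W Δ L) (x : Fin r → ℤ) (n : Fin (m + 1) → ℤ) (N : ℕ) :
    ∀ d : Fin (m + 1) → ℕ, ∑ a, d a = N →
      (∀ d' : Fin (m + 1) → ℕ, (∀ a, d' a ≤ d a) → x + ∑ a, (n a + (d' a : ℤ)) • s a ≠ 0) →
      A (x + ∑ a, n a • s a) + Ψ (x + ∑ a, n a • s a) - ∑ a, lamG A Ψ s a * (d a : ℚ) ≤
        A (x + ∑ a, (n a + (d a : ℤ)) • s a) + Ψ (x + ∑ a, (n a + (d a : ℤ)) • s a) := by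
  classical
  induction N with
  | zero =>
    intro d hd _
    have h0 : ∀ a, d a = 0 := fun a => (Finset.sum_eq_zero_iff.1 hd) a (Finset.mem_univ a)
    simp [h0]
  | succ N ih =>
    intro d hd hne
    obtain ⟨a0, ha0⟩ : ∃ a, d a ≠ 0 := by
      by_contra hcon
      push Not at hcon
      rw [Finset.sum_eq_zero fun a _ => hcon a] at hd
      omega
    obtain ⟨d', hd'⟩ : ∃ d' : Fin (m + 1) → ℕ, d' = Function.update d a0 (d a0 - 1) := ⟨_, rfl⟩
    have hle : ∀ a, d' a ≤ d a := by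
      intro a
      rw [hd']
      by_cases h : a = a0
      · subst h
        rw [Function.update_self]
        omega
      · rw [Function.update_of_ne h]
    have hda : ∀ a, (d a : ℤ) = d' a + if a = a0 then 1 else 0 := by
      intro a
      rw [hd']
      by_cases h : a = a0
      · subst h
        rw [Function.update_self, if_pos rfl]
        omega
      · rw [Function.update_of_ne h, if_neg h, add_zero]
    have hsum : ∑ a, d' a = N := by
      have h1 : (∑ a, (d a : ℤ)) = ∑ a, (d' a : ℤ) + 1 := by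
        rw [Finset.sum_congr rfl fun a _ => hda a, Finset.sum_add_distrib,
          Finset.sum_ite_eq' Finset.univ a0, if_pos (Finset.mem_univ a0)]
      have h2 : ((∑ a, d a : ℕ) : ℤ) = (N : ℤ) + 1 := by
        rw [hd]
        push_cast
        ring
      push_cast at h2
      have h3 : ((∑ a, d' a : ℕ) : ℤ) = N := by
        push_cast
        omega
      exact_mod_cast h3
    have h1 := ih d' hsum fun d'' h => hne d'' fun a => (h a).trans (hle a)
    have hx1 : x + ∑ a, (n a + (d a : ℤ)) • s a =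
        (x + ∑ a, (n a + (d' a : ℤ)) • s a) + s a0 := by
      have h2 : ∀ a, (n a + (d a : ℤ)) • s a =
          (n a + (d' a : ℤ)) • s a + if a = a0 then s a else 0 := by
        intro a
        rw [hda a]
        by_cases h : a = a0
        · rw [if_pos h, if_pos h, ← add_assoc, add_smul, one_smul]
        · rw [if_neg h, if_neg h, add_zero, add_zero]
      rw [Finset.sum_congr rfl fun a _ => h2 a, Finset.sum_add_distrib,
        Finset.sum_ite_eq' Finset.univ a0, if_pos (Finset.mem_univ a0), add_assoc]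
    have h3 := H.AP (x + ∑ a, (n a + (d' a : ℤ)) • s a) (s a0) (hne d' hle) (H.s_ne a0)
      (by rw [← hx1]; exact hne d fun a => le_rfl)
    rw [← hx1] at h3
    have h4 : ∑ a, lamG A Ψ s a * (d a : ℚ) =
        ∑ a, lamG A Ψ s a * (d' a : ℚ) + lamG A Ψ s a0 := by
      have h5 : ∀ a, lamG A Ψ s a * (d a : ℚ) =
          lamG A Ψ s a * (d' a : ℚ) + if a = a0 then lamG A Ψ s a else 0 := by
        intro a
        have h6 : (d a : ℚ) = (d' a : ℚ) + if a = a0 then 1 else 0 := by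
          have := hda a
          exact_mod_cast this
        rw [h6, mul_add, mul_ite, mul_one, mul_zero]
      rw [Finset.sum_congr rfl fun a _ => h5 a, Finset.sum_add_distrib,
        Finset.sum_ite_eq' Finset.univ a0, if_pos (Finset.mem_univ a0)]
    have h5 : lamG A Ψ s a0 = 1 - (A (s a0) + Ψ (s a0)) := rfl
    linarith

/-- a path of vectors -/
theorem TrE.pathZ (H : TrE A Ψ s W Δ L) (x : Fin r → ℤ) (n n' : Fin (m + 1) → ℤ)
    (hnn : ∀ a, n a ≤ n' a)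
    (hne : ∀ c : Fin (m + 1) → ℤ, (∀ a, n a ≤ c a) → (∀ a, c a ≤ n' a) →
      x + ∑ a, c a • s a ≠ 0) :
    A (x + ∑ a, n a • s a) + Ψ (x + ∑ a, n a • s a) -
        ∑ a, lamG A Ψ s a * ((n' a : ℚ) - (n a : ℚ)) ≤
      A (x + ∑ a, n' a • s a) + Ψ (x + ∑ a, n' a • s a) := by
  have hd : ∀ a, ((n' a - n a).toNat : ℤ) = n' a - n a := fun a =>
    Int.toNat_of_nonneg (sub_nonneg.2 (hnn a))
  have h1 := H.path x n (∑ a, (n' a - n a).toNat) (fun a => (n' a - n a).toNat) rfl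
    (fun d' hd' => hne (fun a => n a + (d' a : ℤ)) (fun a => by omega) fun a => by
      have h2 := hd' a
      have h3 := hd a
      beta_reduce at h2 ⊢
      omega)
  beta_reduce at h1
  have h2 : ∀ a, n a + ((n' a - n a).toNat : ℤ) = n' a := fun a => by rw [hd a]; ring
  simp only [h2] at h1
  have h3 : ∀ a, (((n' a - n a).toNat : ℕ) : ℚ) = (n' a : ℚ) - (n a : ℚ) := by
    intro a
    have h4 := hd a
    have h5 : (((n' a - n a).toNat : ℤ) : ℚ) = ((n' a - n a : ℤ) : ℚ) := by rw [h4]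
    rw [Int.cast_natCast] at h5
    rw [h5]
    push_cast
    ring
  simp only [h3] at h1
  exact h1

/-- the sum of the exponents -/
theorem TrE.lam_sum (H : TrE A Ψ s W Δ L) :
    0 ≤ ∑ a, lamG A Ψ s a ∧ ∑ a, lamG A Ψ s a ≤ 1 := by
  have h1 : ∑ a, lamG A Ψ s a = (m : ℚ) + 1 - ∑ a, (A (s a) + Ψ (s a)) := by
    unfold lamG
    rw [Finset.sum_sub_distrib, Finset.sum_const, Finset.card_univ, Fintype.card_fin,
      nsmul_eq_mul, mul_one]
    push_cast
    ring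
  have h2 := H.lo
  have h3 := H.hi
  constructor <;> linarith

theorem v12b_diag (H : TrE A Ψ s W Δ L) (x : Fin r → ℤ) (n : Fin (m + 1) → ℤ) (c : ℤ) :
    x + ∑ a, (n a + c) • s a = x + ∑ a, n a • s a := by
  have h1 : ∀ a, (n a + c) • s a = n a • s a + c • s a := fun a => add_smul _ _ _
  rw [Finset.sum_congr rfl fun a _ => h1 a, Finset.sum_add_distrib, ← Finset.smul_sum, H.hs,
    smul_zero, add_zero]

theorem v12b_ne (H : TrE A Ψ s W Δ L) {w : Fin r' → ℤ} (hw : w ≠ 0) (c : Fin (m + 1) → ℤ) :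
    L w + ∑ a, c a • s a ≠ 0 := by
  intro h0
  apply hw
  funext j
  have h1 := congrArg (fun v => W j ⬝ᵥ v) h0
  beta_reduce at h1
  rw [dotProduct_add, H.hWL, dotProduct_zero, dotProduct_sum, Finset.sum_eq_zero fun a _ => by
    rw [dotProduct_smul, H.hWs, smul_zero], add_zero] at h1
  exact h1

theorem v12b_ne' (H : TrE A Ψ s W Δ L) {n n' : Fin (m + 1) → ℤ} {a0 a1 : Fin (m + 1)}
    (h : n' a0 < n a1) (c : Fin (m + 1) → ℤ) (h1 : ∀ a, n a ≤ c a) (h2 : ∀ a, c a ≤ n' a) :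
    (0 : Fin r → ℤ) + ∑ a, c a • s a ≠ 0 := by
  intro h0
  rw [zero_add] at h0
  have h3 := H.hn c h0 a0 a1
  have h4 := h1 a1
  have h5 := h2 a0
  omega

theorem v12b_new (H : TrE A Ψ s W Δ L) (w : Fin r' → ℤ) :
    Anew A L Δ s w + Pnew A Ψ L Δ s w =
      A (L w + ∑ a, dlt L Δ a w • s a) + Ψ (L w + ∑ a, dlt L Δ a w • s a) +
        ∑ a, lamG A Ψ s a * (dlt L Δ a w : ℚ) := by
  unfold Anew Pnew v0f
  ring

/-- U12b: comparisons -/
theorem TrE.c1 (H : TrE A Ψ s W Δ L) {w : Fin r' → ℤ} {o : Fin (m + 1) → ℤ}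
    (ho : ∀ a, dlt L Δ a w ≤ o a) (hw : w ≠ 0) :
    Anew A L Δ s w + Pnew A Ψ L Δ s w - ∑ a, lamG A Ψ s a * (o a : ℚ) ≤
      A (L w + ∑ a, o a • s a) + Ψ (L w + ∑ a, o a • s a) := by
  have h1 := H.pathZ (L w) (fun a => dlt L Δ a w) o ho fun c _ _ => v12b_ne H hw c
  rw [v12b_new H]
  beta_reduce at h1
  simp only [mul_sub, Finset.sum_sub_distrib] at h1
  linarith

theorem TrE.c2 (H : TrE A Ψ s W Δ L) {w : Fin r' → ℤ} {o : Fin (m + 1) → ℤ}
    (ho : ∀ a, dlt L Δ a w ≤ o a) (hw : w ≠ 0) {E : ℤ} (hE : ∀ a, o a - dlt L Δ a w ≤ E) :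
    A (L w + ∑ a, o a • s a) + Ψ (L w + ∑ a, o a • s a) + ∑ a, lamG A Ψ s a * (o a : ℚ) ≤
      Anew A L Δ s w + Pnew A Ψ L Δ s w + E := by
  have h1 := H.pathZ (L w) o (fun a => dlt L Δ a w + E) (fun a => by
    have := hE a
    omega) fun c _ _ => v12b_ne H hw c
  rw [v12b_diag H] at h1
  rw [v12b_new H]
  have hE0 : (0 : ℚ) ≤ E := by
    have h2 := hE 0
    have h3 := ho 0
    exact_mod_cast (by omega : (0 : ℤ) ≤ E)
  have h2 : ∑ a, lamG A Ψ s a * ((((dlt L Δ a w + E : ℤ)) : ℚ) - (o a : ℚ)) =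
      ∑ a, lamG A Ψ s a * (dlt L Δ a w : ℚ) + (∑ a, lamG A Ψ s a) * E -
        ∑ a, lamG A Ψ s a * (o a : ℚ) := by
    rw [Finset.sum_mul, ← Finset.sum_add_distrib, ← Finset.sum_sub_distrib]
    refine Finset.sum_congr rfl fun a _ => ?_
    push_cast
    ring
  rw [h2] at h1
  have h3 : (∑ a, lamG A Ψ s a) * E ≤ 1 * E := mul_le_mul_of_nonneg_right H.lam_sum.2 hE0
  linarith

theorem TrE.c3 (H : TrE A Ψ s W Δ L) {o : Fin (m + 1) → ℤ}
    (ho : ∀ a, 0 ≤ o a) (hv : ∑ a, o a • s a = 0) {E : ℤ} (hE : ∀ a, o a ≤ E) :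
    0 ≤ ∑ a, lamG A Ψ s a * (o a : ℚ) ∧ ∑ a, lamG A Ψ s a * (o a : ℚ) ≤ E := by
  have h1 : ∀ a, o a = o 0 := fun a => H.hn o hv a 0
  have h2 : ∑ a, lamG A Ψ s a * (o a : ℚ) = (∑ a, lamG A Ψ s a) * (o 0 : ℚ) := by
    rw [Finset.sum_mul]
    exact Finset.sum_congr rfl fun a _ => by rw [h1 a]
  rw [h2]
  have h3 : (0 : ℚ) ≤ (o 0 : ℚ) := by exact_mod_cast ho 0
  have h4 : (o 0 : ℚ) ≤ E := by exact_mod_cast hE 0
  have h5 := H.lam_sum
  refine ⟨mul_nonneg h5.1 h3, ?_⟩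
  have h6 := mul_le_mul_of_nonneg_right h5.2 h3
  linarith

theorem TrE.c4 (H : TrE A Ψ s W Δ L) {o : Fin (m + 1) → ℤ}
    (ho : ∀ a, 0 ≤ o a) (hv : ∑ a, o a • s a ≠ 0) :
    1 - (A (∑ a, o a • s a) + Ψ (∑ a, o a • s a)) ≤ ∑ a, lamG A Ψ s a * (o a : ℚ) := by
  classical
  obtain ⟨a0, -, ha0⟩ := Finset.exists_min_image (Finset.univ : Finset (Fin (m + 1))) o
    ⟨0, Finset.mem_univ _⟩
  obtain ⟨a1, ha1⟩ : ∃ a1, o a0 < o a1 := by
    by_contra hcon
    push Not at hcon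
    apply hv
    have h1 : ∀ a, o a = o a0 := fun a => le_antisymm (hcon a) (ha0 a (Finset.mem_univ a))
    rw [Finset.sum_congr rfl fun a _ => by rw [h1 a], ← Finset.smul_sum, H.hs, smul_zero]
  have hsum : ∑ a, (Pi.single a1 (1 : ℤ) : Fin (m + 1) → ℤ) a • s a = s a1 := by
    rw [Finset.sum_eq_single a1]
    · rw [Pi.single_eq_same, one_smul]
    · intro b _ hb
      rw [Pi.single_eq_of_ne hb, zero_smul]
    · intro h
      exact absurd (Finset.mem_univ _) h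
  have hle : ∀ a, (Pi.single a1 (1 : ℤ) : Fin (m + 1) → ℤ) a ≤ o a + -(o a0) := by
    intro a
    by_cases h : a = a1
    · subst h
      rw [Pi.single_eq_same]
      omega
    · rw [Pi.single_eq_of_ne h]
      have := ha0 a (Finset.mem_univ a)
      omega
  have h1 := H.pathZ 0 (Pi.single a1 (1 : ℤ)) (fun a => o a + -(o a0)) hle
    (v12b_ne' H (a0 := a0) (a1 := a1) (by
      rw [Pi.single_eq_same]
      omega))
  rw [v12b_diag H, zero_add, zero_add, hsum] at h1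
  have h2 : ∑ a, lamG A Ψ s a * ((((o a + -(o a0) : ℤ)) : ℚ) -
      (((Pi.single a1 (1 : ℤ) : Fin (m + 1) → ℤ) a : ℤ) : ℚ)) =
      ∑ a, lamG A Ψ s a * (o a : ℚ) - (∑ a, lamG A Ψ s a) * (o a0 : ℚ) - lamG A Ψ s a1 := by
    have h3 : lamG A Ψ s a1 = ∑ a, lamG A Ψ s a *
        (((Pi.single a1 (1 : ℤ) : Fin (m + 1) → ℤ) a : ℤ) : ℚ) := by
      rw [Finset.sum_eq_single a1]
      · rw [Pi.single_eq_same, Int.cast_one, mul_one]
      · intro b _ hb
        rw [Pi.single_eq_of_ne hb, Int.cast_zero, mul_zero]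
      · intro h
        exact absurd (Finset.mem_univ _) h
    rw [h3, Finset.sum_mul, ← Finset.sum_sub_distrib, ← Finset.sum_sub_distrib]
    refine Finset.sum_congr rfl fun a _ => ?_
    push_cast
    ring
  rw [h2] at h1
  have h3 : (0 : ℚ) ≤ (o a0 : ℚ) := by exact_mod_cast ho a0
  have h4 := mul_nonneg H.lam_sum.1 h3
  have h5 : lamG A Ψ s a1 = 1 - (A (s a1) + Ψ (s a1)) := rfl
  linarith

theorem TrE.c5 (H : TrE A Ψ s W Δ L) {o : Fin (m + 1) → ℤ} (ho : ∀ a, 0 ≤ o a)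
    {T : Finset (Fin (m + 1))} {e1 : ℤ} (hT : T.Nonempty) (hTu : T ≠ Finset.univ) (he : 1 ≤ e1)
    (h1 : ∀ a ∈ T, o a = e1) (h2 : ∀ a, a ∉ T → o a ≤ e1 - 1) :
    A (∑ a, o a • s a) + Ψ (∑ a, o a • s a) + ∑ a, lamG A Ψ s a * (o a : ℚ) ≤
      A (∑ a ∈ T, s a) + Ψ (∑ a ∈ T, s a) + (e1 - 1) + T.card -
        ∑ a ∈ T, (A (s a) + Ψ (s a)) := by
  classical
  obtain ⟨a1, ha1⟩ := hT
  obtain ⟨a0, ha0⟩ : ∃ a, a ∉ T := by
    by_contra hcon
    push Not at hcon
    exact hTu (Finset.eq_univ_iff_forall.2 hcon)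
  have h3 := H.pathZ 0 o (fun a => (if a ∈ T then 1 else 0) + (e1 - 1)) (fun a => by
      by_cases h : a ∈ T
      · rw [if_pos h, h1 a h]
        omega
      · rw [if_neg h, zero_add]
        exact h2 a h)
    (v12b_ne' H (a0 := a0) (a1 := a1) (by
      rw [if_neg ha0, h1 a1 ha1]
      omega))
  rw [v12b_diag H, zero_add, zero_add] at h3
  have h4 : ∑ a, (if a ∈ T then (1 : ℤ) else 0) • s a = ∑ a ∈ T, s a := by
    have h5 : ∀ a, (if a ∈ T then (1 : ℤ) else 0) • s a = if a ∈ T then s a else 0 := by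
      intro a
      split_ifs
      · exact one_smul _ _
      · exact zero_smul _ _
    rw [Finset.sum_congr rfl fun a _ => h5 a, Finset.sum_ite_mem, Finset.univ_inter]
  rw [h4] at h3
  have h5 : ∑ a, lamG A Ψ s a * ((((if a ∈ T then (1 : ℤ) else 0) + (e1 - 1) : ℤ) : ℚ) -
      (o a : ℚ)) = ∑ a ∈ T, lamG A Ψ s a + (∑ a, lamG A Ψ s a) * (e1 - 1) -
        ∑ a, lamG A Ψ s a * (o a : ℚ) := by
    have h6 : ∑ a ∈ T, lamG A Ψ s a = ∑ a, lamG A Ψ s a * (if a ∈ T then (1 : ℚ) else 0) := by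
      simp only [mul_ite, mul_one, mul_zero]
      rw [Finset.sum_ite_mem, Finset.univ_inter]
    rw [h6, Finset.sum_mul, ← Finset.sum_add_distrib, ← Finset.sum_sub_distrib]
    refine Finset.sum_congr rfl fun a _ => ?_
    push_cast
    ring
  rw [h5] at h3
  have h6 : ∑ a ∈ T, lamG A Ψ s a = T.card - ∑ a ∈ T, (A (s a) + Ψ (s a)) := by
    unfold lamG
    rw [Finset.sum_sub_distrib, Finset.sum_const, nsmul_eq_mul, mul_one]
  have h7 : (0 : ℚ) ≤ (e1 : ℚ) - 1 := by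
    have h8 : (1 : ℚ) ≤ e1 := by exact_mod_cast he
    linarith
  have h8 := mul_le_mul_of_nonneg_right H.lam_sum.2 h7
  linarith

theorem TrE.c6 (H : TrE A Ψ s W Δ L) {w : Fin r' → ℤ} {o : Fin (m + 1) → ℤ}
    (ho : ∀ a, dlt L Δ a w ≤ o a) :
    Pnew A Ψ L Δ s w ≤ Ψ (L w + ∑ a, o a • s a) + ∑ a, lamG A Ψ s a * (o a : ℚ) := by
  unfold Pnew v0f
  have h1 : L w + ∑ a, o a • s a = (L w + ∑ a, dlt L Δ a w • s a) +
      ∑ a, (o a - dlt L Δ a w) • s a := by
    rw [add_assoc, ← Finset.sum_add_distrib]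
    congr 1
    refine Finset.sum_congr rfl fun a _ => ?_
    rw [sub_smul]
    abel
  have h2 := H.P0.superadd (L w + ∑ a, dlt L Δ a w • s a) (∑ a, (o a - dlt L Δ a w) • s a)
  rw [← h1] at h2
  have h3 := H.P0.sum_le Finset.univ fun a => (o a - dlt L Δ a w) • s a
  have h4 : ∀ a, lamG A Ψ s a * (dlt L Δ a w : ℚ) - lamG A Ψ s a * (o a : ℚ) ≤
      Ψ ((o a - dlt L Δ a w) • s a) := by
    intro a
    rw [H.P0.zsmul (sub_nonneg.2 (ho a))]
    have h5 : lamG A Ψ s a = 1 - (A (s a) + Ψ (s a)) := rfl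
    have h6 := H.A1 (s a)
    have h7 : (0 : ℚ) ≤ ((o a - dlt L Δ a w : ℤ) : ℚ) := by
      exact_mod_cast sub_nonneg.2 (ho a)
    have h8 : -lamG A Ψ s a ≤ Ψ (s a) := by linarith
    have h9 := mul_le_mul_of_nonneg_left h8 h7
    push_cast at h9 ⊢
    linarith
  have h5 := Finset.sum_le_sum fun a (_ : a ∈ Finset.univ) => h4 a
  rw [Finset.sum_sub_distrib] at h5
  linarith

end

end Pool.Agent.R885.N
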