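import Pool.Agent.R885.T1
import Pool.Agent.R885.T4
import Pool.Agent.R885.V12a
import Pool.Agent.R885.V12b

/-!
Pairs with arbitrary weights at infinity: elimination.
-/

set_option autoImplicit false
set_option linter.overlappingInstances false
set_option linter.unusedSectionVars false

open FF Pool.Agent.W603.LV Pool.Agent.W619.PQ

namespace Pool.Agent.R885.N

theorem v13_mn_congr {k : Type} [Field k] {r : ℕ} {g : (Fin r → ℤ) →₀ k} (hg : g ≠ 0)
    {v v' : Fin r → ℤ} (h : ∀ w ∈ g.support, w ⬝ᵥ v = w ⬝ᵥ v') : mn v g = mn v' g := by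
  apply le_antisymm
  · refine le_mn hg fun w hw => ?_
    rw [← h w hw]
    exact mn_le hw
  · refine le_mn hg fun w hw => ?_
    rw [h w hw]
    exact mn_le hw

section

variable {k K : Type} [Field k] [CharZero k] [Field K] [Algebra k K] {n : ℕ}
  {β : Place k K → ℝ} {r q : ℕ} {J' : Type} [Fintype J'] {x : Fin r → K}
  {f : Fin q → (Fin r → ℤ) →₀ k} {y : J' → K} {cw : J' → ℚ} {A Ψ : (Fin r → ℤ) → ℚ}

/-- **Elimination.** -/
theorem VSys.elim {m : ℕ} (hm : 1 ≤ m) (hB : VSys n β x f y cw A Ψ)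
    {s : Fin (m + 1) → Fin r → ℤ} (hs : Exc x f s) (hsub : SubD f A Ψ s) :
    ∃ (r' q' : ℕ) (z : Fin r' → K) (g : Fin q' → (Fin r' → ℤ) →₀ k)
      (y' : J' ⊕ Fin (m + 1) → K) (cw' : J' ⊕ Fin (m + 1) → ℚ) (A' Ψ' : (Fin r' → ℤ) → ℚ),
      q' + m = q ∧ VSys n β z g y' cw' A' Ψ' := by
  classical
  have hf0 : ∀ l, f l ≠ 0 := by
    intro l h0
    have h1 := hB.hnd.self fun l => by rw [ini_zero']; exact hB.hf l
    have h2 := h1.ne_zero l
    apply h2
    rw [h0, ini_zero']
    funext i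
    unfold gr
    exact Finsupp.sum_zero_index
  have hx := hB.hx
  obtain ⟨ε, -⟩ : ∃ ε : Fin m ≃ JC f s, True := ⟨(Finset.equivFinOfCardEq hs.card).symm, trivial⟩
  obtain ⟨B, b, Δ, lam, hS⟩ := Exc.solve hs hf0 ε
  obtain ⟨r', q', W, g, -, el, m0, -, hq', hr', hel, hWs, hspan, hinj0, hinj, hfg, -, htop⟩ :=
    t4_data (p := 0) (h := fun j => j.elim0) hs hf0 ε (fun j => j.elim0) (fun j => j.elim0)
      hB.hgen hB.hr
  obtain ⟨L, hWL, hLv⟩ := exists_LV hs.hs hS.hb hWs hspan hinj0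
  have hΔn : ∀ a, Δ a ≠ 0 := fun a => t2_ne (hS.hΔ0 a)
  have H : TrE A Ψ s W Δ L :=
    { A0 := hB.A0
      A1 := hB.A1
      AD := hB.AD
      A3 := hB.A3
      P0 := hB.P0
      AP := hB.AP
      hm := hm
      hs := hs.hs
      hn := by
        intro c hc
        have h1 : ∀ a, c a = c 0 := by
          intro a
          have h2 : b a ⬝ᵥ ∑ i, c i • s i = c a - c 0 := by
            rw [dotProduct_sum]
            have h3 : ∀ i, b a ⬝ᵥ (c i • s i) =
                (if i = a then c i else 0) - if i = 0 then c i else 0 := by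
              intro i
              rw [dotProduct_smul, hS.hb, smul_eq_mul, mul_sub, mul_ite, mul_one, mul_zero,
                mul_ite, mul_one, mul_zero]
            rw [Finset.sum_congr rfl fun i _ => h3 i, Finset.sum_sub_distrib,
              Finset.sum_ite_eq' Finset.univ a, if_pos (Finset.mem_univ a),
              Finset.sum_ite_eq' Finset.univ 0, if_pos (Finset.mem_univ 0)]
          rw [hc, dotProduct_zero] at h2
          omega
        intro a a'
        rw [h1 a, h1 a']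
      lo := hsub.lo
      hi := hsub.hi
      hWs := hWs
      hWL := hWL
      hΔs := hS.hΔs
      hΔ0 := hΔn }
  obtain ⟨z, hz⟩ : ∃ z : Fin r' → K, z = fun j => mono x (W j) := ⟨_, rfl⟩
  have hz0 : ∀ j, z j ≠ 0 := fun j => by rw [hz]; exact mono_ne hx _
  have hgz : ∀ l, ev z (g l) = 0 := by
    intro l
    have h1 := hB.hf (el (Sum.inl l))
    rw [hfg, ev_push hx] at h1
    rw [hz]
    exact (mul_eq_zero.1 h1).resolve_left (mono_ne hx _)
  have hg0 : ∀ l, g l ≠ 0 := by
    intro l h0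
    apply hf0 (el (Sum.inl l))
    rw [hfg, h0, push_zero]
  have helinj : Function.Injective fun l : Fin q' => el (Sum.inl l) :=
    el.injective.comp Sum.inl_injective
  have hnd : HN z g := by
    rw [hz]
    exact hn_push hx hB.hf helinj (fun l => hinj (m0 l)) hfg hB.hnd
  have hvec : ∀ P : Place k K, vec P z = fun j => W j ⬝ᵥ vec P x := by
    intro P
    rw [hz, vec_mono P hx]
  -- the vector of the orders
  have hvx : ∀ P : Place k K, vec P x = L (vec P z) + ∑ a, P.ord (ev x (Δ a)) • s a := by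
    intro P
    obtain ⟨-, -, hE3, -⟩ := hS.ordE hs hf0 P
    have h1 := hLv (vec P x)
    rw [← hvec] at h1
    rw [Finset.sum_congr rfl fun a _ => by rw [hE3 a, sub_smul], Finset.sum_sub_distrib,
      ← Finset.smul_sum, hs.hs, smul_zero, sub_zero] at h1
    exact h1
  have hdlt : ∀ (P : Place k K) a, mn (vec P x) (Δ a) = dlt L Δ a (vec P z) := by
    intro P a
    unfold dlt
    refine v13_mn_congr (hΔn a) fun w hw => ?_
    rw [hvx P, dotProduct_add, dotProduct_sum, Finset.sum_eq_zero fun i _ => ?_, add_zero]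
    rw [dotProduct_smul, hS.hΔs a w hw i, smul_zero]
  have hodlt : ∀ (P : Place k K) a, dlt L Δ a (vec P z) ≤ P.ord (ev x (Δ a)) := by
    intro P a
    rw [← hdlt]
    exact (hS.ordE hs hf0 P).1 a
  have hvz0 : ∀ P : Place k K, vec P x = 0 → vec P z = 0 := by
    intro P h0
    rw [hvec, h0]
    funext j
    exact dotProduct_zero _
  have hL0 : ∀ P : Place k K, vec P z = 0 →
      vec P x = ∑ a, P.ord (ev x (Δ a)) • s a ∧ ∀ a, 0 ≤ P.ord (ev x (Δ a)) := by
    intro P h0
    have h1 := hvx P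
    rw [h0, map_zero, zero_add] at h1
    refine ⟨h1, fun a => ?_⟩
    have h2 := hodlt P a
    have h3 : dlt L Δ a (vec P z) = 0 := by
      unfold dlt
      rw [h0, map_zero, mn_zero (hΔn a)]
    rwa [h3] at h2
  have hTh : ∀ P : Place k K, Th (Sum.elim y fun a => ev x (Δ a)) (Sum.elim cw (lamG A Ψ s)) P =
      Th y cw P + ((∑ a, lamG A Ψ s a * (P.ord (ev x (Δ a)) : ℚ) : ℚ) : ℝ) := by
    intro P
    unfold Th
    rw [Fintype.sum_sum_type]
    push_cast
    rfl
  refine ⟨r', q', z, g, Sum.elim y fun a => ev x (Δ a), Sum.elim cw (lamG A Ψ s),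
    Anew A L Δ s, Pnew A Ψ L Δ s, hq', ?_⟩
  refine
    { hr := hr'
      hx := hz0
      hgen := by rw [hz]; exact htop
      hf := hgz
      hy := by
        rintro (j | a)
        · exact hB.hy j
        · exact hS.hΔ0 a
      hnd := hnd
      A0 := H.A0'
      A1 := H.A1'
      AD := H.AD'
      A3 := H.A3'
      P0 := H.P0'
      AP := H.AP'
      le1 := hB.le1
      low := ?_
      th0 := ?_
      th1 := ?_
      up0 := ?_
      up1 := ?_ }
  · obtain ⟨e, C0, hdt, hSl⟩ := hB.low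
    have e' : Fin q' ⊕ Fin n ≃ Fin r' := Fintype.equivOfCardEq (by
      rw [Fintype.card_sum, Fintype.card_fin, Fintype.card_fin, Fintype.card_fin, hr', add_comm])
    obtain ⟨C', hC'⟩ := exists_C0 hz0 e' hg0 hgz hnd.self
    refine ⟨e', C', hC', ?_⟩
    intro P hP D hD hO
    obtain ⟨C, hCd⟩ : ∃ C : Fin n → Fin r → ℤ, C = fun b => ∑ j, C' b j • W j := ⟨_, rfl⟩
    obtain ⟨hE1, hE2, -, hE4⟩ := hS.ordE hs hf0 P
    obtain ⟨G, hGd⟩ : ∃ G : Matrix (Fin m) (Fin m) K,
      G = Matrix.of fun (l : Fin m) (i : Fin m) => Gp x s (f (ε l)) i.succ := ⟨_, rfl⟩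
    obtain ⟨hG0, -⟩ := Exc.det_ord hs ε
    rw [← hGd] at hG0 hE2 hE4
    obtain ⟨μ, hμd⟩ : ∃ μ : Fin q' ⊕ Fin n → K, μ = Sum.elim (fun l => mono x (m0 l)) fun _ => 1 :=
      ⟨_, rfl⟩
    have hK0 : CharZero K := charZero_of_injective_algebraMap (algebraMap k K).injective
    have hdet := det_elim (n := n) e e' el (R := rows (fun l => gr x (f l)) C)
      (R' := rows (fun l => gr z (g l)) C') (W := W) (s := fun i => s i.succ) (μ := μ) (G := G)
      (by
        rintro (l | b) i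
        · change gr x (f (el (Sum.inl l))) i = μ (Sum.inl l) * ∑ j, gr z (g l) j * (W j i : K)
          have h1 := hgz l
          rw [hz] at h1
          rw [hfg, gr_push hx, h1, mul_zero, zero_add, hμd, hz]
          change mono x (m0 l) * _ = mono x (m0 l) * _
          congr 1
          exact Finset.sum_congr rfl fun j _ => mul_comm _ _
        · change ((C b i : ℤ) : K) = μ (Sum.inr b) * ∑ j, (C' b j : K) * (W j i : K)
          rw [hμd, hCd]
          change (((∑ j, C' b j • W j) i : ℤ) : K) = (1 : K) * _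
          rw [one_mul, Finset.sum_apply, Int.cast_sum]
          refine Finset.sum_congr rfl fun j _ => ?_
          rw [Pi.smul_apply, smul_eq_mul, Int.cast_mul])
      (fun j i => hWs j i.succ)
      (by
        intro l i
        change ∑ k, gr x (f (el (Sum.inr l))) k * (s i.succ k : K) = G l i
        rw [hel, gr_dot_type hs.hs (hs.hf _) (hs.mn_eq _ (ε l).2), hGd]
        rfl)
      hinj0
    obtain ⟨τ, κ, hκ, hdet⟩ := hdet
    change dt e (fun l => gr x (f l)) C * (τ : K) =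
      (κ : K) * ((∏ a, μ a) * dt e' (fun l => gr z (g l)) C' * G.det) at hdet
    have hμ : ∏ a, μ a = ∏ l, mono x (m0 l) := by
      rw [hμd, Fintype.prod_sum_type]
      simp
    have hμ0 : ∏ l, mono x (m0 l) ≠ 0 := Finset.prod_ne_zero_iff.2 fun l _ => mono_ne hx _
    rw [hμ] at hdet
    obtain ⟨hκK, hκP⟩ := ord_intCast (K := K) P hκ
    have hR0 : (κ : K) * ((∏ l, mono x (m0 l)) * dt e' (fun l => gr z (g l)) C' * G.det) ≠ 0 :=
      mul_ne_zero hκK (mul_ne_zero (mul_ne_zero hμ0 hC') hG0)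
    have hL0' := hR0
    rw [← hdet] at hL0'
    have hdx : dt e (fun l => gr x (f l)) C ≠ 0 := left_ne_zero_of_mul hL0'
    have hτK : (τ : K) ≠ 0 := right_ne_zero_of_mul hL0'
    have hτ : τ ≠ 0 := by
      rintro rfl
      exact hτK Int.cast_zero
    obtain ⟨-, hτP⟩ := ord_intCast (K := K) P hτ
    have hord := congrArg P.ord hdet
    rw [P.ord_mul hdx hτK, hτP, P.ord_mul hκK (mul_ne_zero (mul_ne_zero hμ0 hC') hG0), hκP,
      P.ord_mul (mul_ne_zero hμ0 hC') hG0, P.ord_mul hμ0 hC', zero_add, add_zero,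
      ordProd5 P _ _ fun l _ => mono_ne hx _] at hord
    have hcw : (Pool.Agent.R885.cw C fun a => lg x (D a)) =
        Pool.Agent.R885.cw C' fun a => lg z (D a) := by
      rw [hCd, hz]
      exact cwMono5 hx W C' D
    have hOz : Om e' z g C' D = (Pool.Agent.R885.cw C' fun a => lg z (D a)).det /
        dt e' (fun l => gr z (g l)) C' :=
      rfl
    have hOx : Om e x f C0 D = (Pool.Agent.R885.cw C' fun a => lg z (D a)).det /
        dt e (fun l => gr x (f l)) C := by
      rw [om_eq hx hB.hf hdt hdx D]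
      unfold Om
      rw [hcw]
    have hN1 : (Pool.Agent.R885.cw C' fun a => lg z (D a)).det ≠ 0 := by
      intro h0
      apply hO
      rw [hOz, h0, zero_div]
    have hOx0 : Om e x f C0 D ≠ 0 := by
      rw [hOx]
      exact div_ne_zero hN1 hdx
    have hordx : P.ord (Om e x f C0 D) = P.ord (Om e' z g C' D) -
        ∑ l, m0 l ⬝ᵥ vec P x - P.ord G.det := by
      rw [hOx, hOz, div_eq_mul_inv, div_eq_mul_inv, P.ord_mul hN1 (inv_ne_zero hdx),
        P.ord_mul hN1 (inv_ne_zero hC'), P.ord_inv, P.ord_inv, hord]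
      have h1 : ∀ l, P.ord (mono x (m0 l)) = m0 l ⬝ᵥ vec P x := fun l => ord_mono P hx _
      simp only [h1]
      ring
    have hlow := hSl P hP D hD hOx0
    beta_reduce at hlow
    -- translate
    have hmnf : ∑ l, mn (vec P x) (f l) = (∑ l, m0 l ⬝ᵥ vec P x) + (∑ l, mn (vec P z) (g l)) +
        ∑ l, mn (vec P x) (f (ε l)) := by
      rw [← el.sum_comp, Fintype.sum_sum_type, ← Finset.sum_add_distrib]
      congr 1
      · refine Finset.sum_congr rfl fun l _ => ?_
        rw [hfg, mn_push (hinj _) (hg0 l), hvec]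
      · exact Finset.sum_congr rfl fun l _ => by rw [hel]
    obtain ⟨E, hEd⟩ : ∃ E : ℤ, E = P.ord G.det - ∑ l, mn (vec P x) (f (ε l)) := ⟨_, rfl⟩
    rw [← hEd] at hE2 hE4
    have hE2' : ∀ a, P.ord (ev x (Δ a)) - dlt L Δ a (vec P z) ≤ E := by
      intro a
      rw [← hdlt]
      exact hE2 a
    obtain ⟨o, hod⟩ : ∃ o : Fin (m + 1) → ℤ, o = fun a => P.ord (ev x (Δ a)) := ⟨_, rfl⟩
    have hkey : (if vec P x = 0 then (0 : ℚ) else A (vec P x) + Ψ (vec P x)) +
        ∑ a, lamG A Ψ s a * (P.ord (ev x (Δ a)) : ℚ) ≤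
        (if vec P z = 0 then (0 : ℚ) else Anew A L Δ s (vec P z) + Pnew A Ψ L Δ s (vec P z)) +
          (E : ℚ) := by
      by_cases hvz : vec P z = 0
      · rw [if_pos hvz, zero_add]
        obtain ⟨hv1, hv2⟩ := hL0 P hvz
        by_cases hvx0 : vec P x = 0
        · rw [if_pos hvx0, zero_add]
          refine (H.c3 hv2 (hv1.symm.trans hvx0) fun a => ?_).2
          have h1 := hE2 a
          rw [hvx0, mn_zero (hΔn a), sub_zero] at h1
          exact h1
        · rw [if_neg hvx0]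
          have hort : ∀ w : Fin r → ℤ, (∀ i, w ⬝ᵥ s i = 0) → w ⬝ᵥ vec P x = 0 := by
            intro w hw
            rw [hv1, dotProduct_sum]
            refine Finset.sum_eq_zero fun a _ => ?_
            rw [dotProduct_smul, hw, smul_zero]
          obtain ⟨-, T, e1, hTn, hTu, he1, hT1, hT2, hEE⟩ := hE4 hvx0 hort
          have h5 := H.c5 hv2 hTn hTu he1 hT1 hT2
          rw [← hv1] at h5
          have hsub1 := hsub.sub T hTn hTu
          have hJC : ∑ l, (mn (∑ a ∈ T, s a) (f (ε l)) - ∑ a ∈ T, mn (s a) (f (ε l))) ≤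
              ∑ l, (mn (∑ a ∈ T, s a) (f l) - ∑ a ∈ T, mn (s a) (f l)) := by
            rw [← el.sum_comp, Fintype.sum_sum_type]
            have h1 : 0 ≤ ∑ l : Fin q', (mn (∑ a ∈ T, s a) (f (el (Sum.inl l))) -
                ∑ a ∈ T, mn (s a) (f (el (Sum.inl l)))) :=
              Finset.sum_nonneg fun l _ => sub_nonneg.2 (t4_superadd (hf0 _) T)
            have h2 : ∑ l : Fin m, (mn (∑ a ∈ T, s a) (f (el (Sum.inr l))) -
                ∑ a ∈ T, mn (s a) (f (el (Sum.inr l)))) =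
                ∑ l, (mn (∑ a ∈ T, s a) (f (ε l)) - ∑ a ∈ T, mn (s a) (f (ε l))) :=
              Finset.sum_congr rfl fun l _ => by rw [hel]
            rw [h2]
            linarith
          have hJC' : ((∑ l, (mn (∑ a ∈ T, s a) (f (ε l)) -
              ∑ a ∈ T, mn (s a) (f (ε l))) : ℤ) : ℚ) ≤
              ((∑ l, (mn (∑ a ∈ T, s a) (f l) - ∑ a ∈ T, mn (s a) (f l)) : ℤ) : ℚ) := by
            exact_mod_cast hJC
          have hEE' : (e1 : ℚ) + (T.card : ℚ) - 1 -
              ((∑ l, (mn (∑ a ∈ T, s a) (f (ε l)) - ∑ a ∈ T, mn (s a) (f (ε l))) : ℤ) : ℚ) ≤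
              (E : ℚ) := by
            exact_mod_cast hEE
          linarith
      · rw [if_neg hvz]
        have hvx0 : vec P x ≠ 0 := fun h0 => hvz (hvz0 P h0)
        rw [if_neg hvx0]
        have h1 := H.c2 (hodlt P) hvz hE2'
        rw [← hvx P] at h1
        exact h1
    have hkeyr := (Rat.cast_le (K := ℝ)).2 hkey
    rw [Rat.cast_add, Rat.cast_add, Rat.cast_intCast] at hkeyr
    have hif1 : (((if vec P x = 0 then (0 : ℚ) else A (vec P x) + Ψ (vec P x)) : ℚ) : ℝ) =
        if vec P x = 0 then (0 : ℝ) else ((A (vec P x) + Ψ (vec P x) : ℚ) : ℝ) := by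
      split_ifs
      · exact Rat.cast_zero
      · rfl
    have hif2 : (((if vec P z = 0 then (0 : ℚ) else
        Anew A L Δ s (vec P z) + Pnew A Ψ L Δ s (vec P z)) : ℚ) : ℝ) =
        if vec P z = 0 then (0 : ℝ) else
          ((Anew A L Δ s (vec P z) + Pnew A Ψ L Δ s (vec P z) : ℚ) : ℝ) := by
      split_ifs
      · exact Rat.cast_zero
      · rfl
    rw [hif1, hif2] at hkeyr
    have hEr : ((P.ord G.det : ℤ) : ℝ) = (E : ℝ) + ((∑ l, mn (vec P x) (f (ε l)) : ℤ) : ℝ) := by
      rw [hEd]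
      push_cast
      ring
    rw [hordx, hmnf] at hlow
    rw [Int.cast_sub, Int.cast_sub, Int.cast_add, Int.cast_add, hEr] at hlow
    beta_reduce
    rw [hTh]
    linarith
  · -- th0
    intro P hvz
    rw [hTh]
    obtain ⟨hv1, hv2⟩ := hL0 P hvz
    by_cases hvx0 : vec P x = 0
    · have h1 := hB.th0 P hvx0
      have h2 : (0 : ℚ) ≤ ∑ a, lamG A Ψ s a * (P.ord (ev x (Δ a)) : ℚ) := by
        obtain ⟨E, hE⟩ : ∃ E : ℤ, ∀ a, P.ord (ev x (Δ a)) ≤ E :=
          ⟨∑ a, P.ord (ev x (Δ a)), fun a =>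
            Finset.single_le_sum (f := fun a => P.ord (ev x (Δ a))) (fun a _ => hv2 a)
              (Finset.mem_univ a)⟩
        exact (H.c3 hv2 (hv1.symm.trans hvx0) hE).1
      have h3 : (0 : ℝ) ≤ ((∑ a, lamG A Ψ s a * (P.ord (ev x (Δ a)) : ℚ) : ℚ) : ℝ) := by
        exact_mod_cast h2
      linarith
    · have h1 := hB.th1 P hvx0
      have h2 := H.c6 (hodlt P)
      rw [← hvx P, hvz, Pnew_zeroV H] at h2
      have h3 := (Rat.cast_le (K := ℝ)).2 h2
      rw [Rat.cast_add, Rat.cast_zero] at h3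
      linarith
  · -- th1
    intro P hvz
    have hvx0 : vec P x ≠ 0 := fun h0 => hvz (hvz0 P h0)
    rw [hTh]
    have h1 := hB.th1 P hvx0
    have h2 := H.c6 (hodlt P)
    rw [← hvx P] at h2
    have h3 := (Rat.cast_le (K := ℝ)).2 h2
    rw [Rat.cast_add] at h3
    linarith
  · -- up0
    intro P hvz
    rw [hTh]
    obtain ⟨hv1, hv2⟩ := hL0 P hvz
    by_cases hvx0 : vec P x = 0
    · have h1 := hB.up0 P hvx0
      have h2 : (0 : ℚ) ≤ ∑ a, lamG A Ψ s a * (P.ord (ev x (Δ a)) : ℚ) := by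
        obtain ⟨E, hE⟩ : ∃ E : ℤ, ∀ a, P.ord (ev x (Δ a)) ≤ E :=
          ⟨∑ a, P.ord (ev x (Δ a)), fun a =>
            Finset.single_le_sum (f := fun a => P.ord (ev x (Δ a))) (fun a _ => hv2 a)
              (Finset.mem_univ a)⟩
        exact (H.c3 hv2 (hv1.symm.trans hvx0) hE).1
      have h3 : (0 : ℝ) ≤ ((∑ a, lamG A Ψ s a * (P.ord (ev x (Δ a)) : ℚ) : ℚ) : ℝ) := by
        exact_mod_cast h2
      linarith
    · have h1 := hB.up1 P hvx0
      have h2 := H.c4 hv2 (fun h0 => hvx0 (hv1.trans h0))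
      rw [← hv1] at h2
      have h3 := (Rat.cast_le (K := ℝ)).2 h2
      rw [Rat.cast_sub, Rat.cast_one] at h3
      linarith
  · -- up1
    intro P hvz
    have hvx0 : vec P x ≠ 0 := fun h0 => hvz (hvz0 P h0)
    rw [hTh]
    have h1 := hB.up1 P hvx0
    have h2 := H.c1 (hodlt P) hvz
    rw [← hvx P] at h2
    have h3 := (Rat.cast_le (K := ℝ)).2 h2
    rw [Rat.cast_sub] at h3
    linarith

end

end Pool.Agent.R885.N
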