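import Pool.Agent.R885.V10
import Pool.Agent.R885.V13
import Pool.Agent.R885.T15

/-!
The complete theorem on nondegenerate log canonical pairs with arbitrary weights at infinity.
-/

set_option autoImplicit false
set_option linter.overlappingInstances false
set_option linter.unusedSectionVars false

open FF IntermediateField Pool.Agent.W602.GT Pool.Agent.W603.LV Pool.Agent.W619.PQ
  Pool.Agent.Y173.QA Pool.Agent.W619.TW Pool.Agent.W619.Y Pool.Agent.Y172 Pool.Agent.Y191
  Pool.Agent.Y174

namespace Pool.Agent.R885.N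

/-- **The dichotomy for the systems of the class.** -/
theorem VSys.all {k K : Type} [Field k] [CharZero k] [IsAlgClosed k] [Field K] [Algebra k K]
    {n : ℕ} (hn : 1 ≤ n) (htr : Algebra.trdeg k K = (n : ℕ)) {β : Place k K → ℝ} (N : ℕ) :
    ∀ (r q : ℕ) (J' : Type) [Fintype J'] (x : Fin r → K) (f : Fin q → (Fin r → ℤ) →₀ k)
      (y : J' → K) (cw : J' → ℚ) (A Ψ : (Fin r → ℤ) → ℚ), VSys n β x f y cw A Ψ → q ≤ N →
      PosB k K n β ∨ NegB k K n β := by
  induction N with
  | zero =>
    intro r q J' _ x f y cw A Ψ hB hq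
    rcases hB.stepV hn htr with h1 | h1 | ⟨m, s, hm, hs, -⟩
    · exact Or.inl h1
    · exact Or.inr h1
    · exfalso
      have h1 := Finset.card_le_univ (JC f s)
      rw [hs.card, Fintype.card_fin] at h1
      omega
  | succ N ih =>
    intro r q J' _ x f y cw A Ψ hB hq
    rcases hB.stepV hn htr with h1 | h1 | ⟨m, s, hm, hs, hh⟩
    · exact Or.inl h1
    · exact Or.inr h1
    · obtain ⟨r', q', z, g, y', cw', A', Ψ', h1, h2⟩ := hB.elim hm hs hh
      exact ih r' q' _ z g y' cw' A' Ψ' h2 (by omega)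

theorem v14_bdry_le {k K : Type} [Field k] [Field K] [Algebra k K] {r : ℕ} {J' : Type}
    [Fintype J'] {A : (Fin r → ℤ) → ℚ} {cw : J' → ℚ} {x : Fin r → K}
    {h : J' → (Fin r → ℤ) →₀ k} {P : Place k K} (hA : ∀ v, v ≠ 0 → 0 ≤ A v)
    (hc1 : ∀ j, cw j ≤ 1) : bdry A cw x h P ≤ 1 := by
  classical
  by_cases hv : vec P x = 0
  · by_cases hj : ∃ j, 0 < P.ord (ev x (h j))
    · rw [bdry_van hv hj]
      refine max_le zero_le_one ?_
      have : 0 ≤ ∑ j ∈ Finset.univ.filter (fun j => 0 < P.ord (ev x (h j))), (1 - cw j) :=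
        Finset.sum_nonneg fun j _ => sub_nonneg.2 (hc1 j)
      linarith
    · push Not at hj
      rw [bdry_no hv fun j => not_lt.2 (hj j)]
      exact zero_le_one
  · rw [bdry_ne hv]
    have := hA _ hv
    linarith

/-- a place over the torus: the weights do not matter -/
theorem v14_zero_eq {k K : Type} [Field k] [Field K] [Algebra k K] {r : ℕ} {J' : Type}
    [Fintype J'] {A A' : (Fin r → ℤ) → ℚ} {cw : J' → ℚ} {x : Fin r → K}
    {h : J' → (Fin r → ℤ) →₀ k} {P : Place k K} (hv : vec P x = 0) :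
    bdry A cw x h P = bdry A' cw x h P := by
  classical
  by_cases hj : ∃ j, 0 < P.ord (ev x (h j))
  · rw [bdry_van hv hj, bdry_van hv hj]
  · push Not at hj
    rw [bdry_no hv fun j => not_lt.2 (hj j), bdry_no hv fun j => not_lt.2 (hj j)]

/-- **The dichotomy for nondegenerate pairs.** -/
theorem pair_weightV {k K : Type} [Field k] [CharZero k] [IsAlgClosed k] [Field K] [Algebra k K]
    {n q p : ℕ} (hn : 1 ≤ n) (htr : Algebra.trdeg k K = (n : ℕ)) {x : Fin (n + q) → K}
    (hx : ∀ i, x i ≠ 0) (hgen : IntermediateField.adjoin k (Set.range x) = ⊤)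
    {f : Fin q → (Fin (n + q) → ℤ) →₀ k} (hf : ∀ l, ev x (f l) = 0)
    {h : Fin p → (Fin (n + q) → ℤ) →₀ k} (hhx : ∀ j, ev x (h j) ≠ 0) (H : AlongP f h x)
    {A : (Fin (n + q) → ℤ) → ℚ} (hA : N.IsWeight A) {c : Fin p → ℚ}
    (hc : ∀ j, 0 ≤ c j ∧ c j ≤ 1) :
    PosB k K n (fun P => ((bdry A c x h P : ℚ) : ℝ)) ∨
      NegB k K n (fun P => ((bdry A c x h P : ℚ) : ℝ)) := by
  classical
  have hndf := hn_of_alongP' hx H
  have hndh := hn_of_alongP hx H
  have hf0 := hn_ne0 hndf hf
  have hh0 : ∀ j, h j ≠ 0 := by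
    intro j h0
    apply hhx j
    rw [h0]
    unfold ev
    exact Finsupp.sum_zero_index
  have e : Fin q ⊕ Fin n ≃ Fin (n + q) := Fintype.equivOfCardEq (by
    rw [Fintype.card_sum, Fintype.card_fin, Fintype.card_fin, Fintype.card_fin, add_comm])
  obtain ⟨C0, hC0⟩ := exists_C0 hx e hf0 hf hndf.self
  have hlow := base_low hx hf0 hf hC0 hh0 hhx (fun P => hndf.places P)
    (fun P V => (hndh V).places P) fun j => (hc j).2
  have hP0 : PLin fun v => ∑ j, c j * (mn v (h j) : ℚ) := PLin.of_sum hh0 fun j => (hc j).1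
  have hge : ∀ (P : Place k K) j, mn (vec P x) (h j) ≤ P.ord (ev x (h j)) := fun P j =>
    (ge_mn P hx (h j)).resolve_left (hhx j)
  have hth : ∀ P : Place k K, ((∑ j, c j * (mn (vec P x) (h j) : ℚ) : ℚ) : ℝ) ≤
      Th (fun j => ev x (h j)) c P := by
    intro P
    unfold Th
    push_cast
    refine Finset.sum_le_sum fun j _ => mul_le_mul_of_nonneg_left ?_ ?_
    · exact_mod_cast hge P j
    · exact_mod_cast (hc j).1
  have hB : VSys n (fun P => ((bdry A c x h P : ℚ) : ℝ)) x f (fun j => ev x (h j)) c A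
      (fun v => ∑ j, c j * (mn v (h j) : ℚ)) := by
    refine
      { hr := rfl
        hx := hx
        hgen := hgen
        hf := hf
        hy := hhx
        hnd := hndf
        A0 := hA.nonneg
        A1 := hA.le_one
        AD := hA.denom
        A3 := hA.smul
        P0 := hP0
        AP := ?_
        le1 := ?_
        low := ⟨e, C0, hC0, fun P hP D hD hO => ?_⟩
        th0 := ?_
        th1 := fun P _ => hth P
        up0 := ?_
        up1 := ?_ }
    · intro v w hv hw hvw
      have h1 := hA.add v w hv hw hvw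
      have h2 := hP0.superadd v w
      linarith
    · intro P
      have h1 : bdry A c x h P ≤ 1 := v14_bdry_le hA.nonneg fun j => (hc j).2
      exact_mod_cast h1
    · have h1 := hlow P hP D hD hO
      beta_reduce at h1
      have h2 : ∑ j, ((c j : ℚ) : ℝ) * (P.ord (ev x (h j)) : ℝ) =
          Th (fun j => ev x (h j)) c P := rfl
      rw [h2] at h1
      beta_reduce
      by_cases hv : vec P x = 0
      · rw [if_pos hv] at h1 ⊢
        rw [v14_zero_eq (A' := fun _ => 1) hv]
        have h3 : ∑ j, ((c j : ℚ) : ℝ) * (mn (vec P x) (h j) : ℝ) = 0 := by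
          refine Finset.sum_eq_zero fun j _ => ?_
          rw [hv, mn_zero (hh0 j), Int.cast_zero, mul_zero]
        rw [h3] at h1
        linarith
      · rw [if_neg hv] at h1 ⊢
        rw [bdry_ne hv, sub_self, Rat.cast_zero] at h1
        rw [bdry_ne hv]
        push_cast at h1 ⊢
        linarith
    · intro P hv
      have h1 := hth P
      rw [Finset.sum_eq_zero fun j _ => by rw [hv, mn_zero (hh0 j), Int.cast_zero, mul_zero],
        Rat.cast_zero] at h1
      exact h1
    · intro P hv
      have h1 := bdry_up0 hx hh0 hhx (fun j => (hc j).1) P hv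
      rw [v14_zero_eq (A' := fun _ => 1) hv]
      have h3 := (Rat.cast_le (K := ℝ)).2 h1
      unfold Th
      push_cast at h3 ⊢
      exact h3
    · intro P hv
      have h1 := hth P
      rw [bdry_ne hv]
      push_cast at h1 ⊢
      linarith
  exact VSys.all hn htr q _ q _ x f _ _ _ _ hB le_rfl

end Pool.Agent.R885.N
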