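import Pool.Agent.R885.V0
import Pool.Agent.R885.V1
import Pool.Agent.R885.U7

/-!
V2: the smallest `ε` for which the polytope is not empty.
-/

set_option autoImplicit false
set_option linter.overlappingInstances false
set_option linter.unusedSectionVars false
set_option linter.unusedVariables false

namespace Pool.Agent.R885.N

section

variable {r : ℕ} {k : Type} [Field k] {J : Type} [Fintype J] {f : J → (Fin r → ℤ) →₀ k}
  {A Ψ : (Fin r → ℤ) → ℚ}

/-- a positive number below finitely many positive ones -/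
theorem v2_slack {ι : Type} (V0 : Finset ι) (g n : ι → ℚ) (hg : ∀ v ∈ V0, 0 < g v)
    (hn : ∀ v ∈ V0, 0 < n v) : ∃ δ : ℚ, 0 < δ ∧ ∀ v ∈ V0, δ * n v ≤ g v := by
  classical
  induction V0 using Finset.induction_on with
  | empty => exact ⟨1, one_pos, fun v hv => absurd hv (Finset.notMem_empty v)⟩
  | insert a T ha ih =>
    obtain ⟨δ, hδ, h1⟩ := ih (fun v hv => hg v (Finset.mem_insert_of_mem hv))
      (fun v hv => hn v (Finset.mem_insert_of_mem hv))
    have ga := hg a (Finset.mem_insert_self a T)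
    have na := hn a (Finset.mem_insert_self a T)
    refine ⟨min δ (g a / n a), lt_min hδ (div_pos ga na), fun v hv => ?_⟩
    rcases Finset.mem_insert.1 hv with h2 | h2
    · rw [h2]
      calc min δ (g a / n a) * n a ≤ g a / n a * n a :=
            mul_le_mul_of_nonneg_right (min_le_right _ _) na.le
        _ = g a := div_mul_cancel₀ _ na.ne'
    · exact (mul_le_mul_of_nonneg_right (min_le_left _ _)
        (hn v (Finset.mem_insert_of_mem h2)).le).trans (h1 v h2)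

/-- V2: the smallest `ε`. -/
theorem exists_epsV (hf0 : ∀ l, f l ≠ 0) (A0 : ∀ v, v ≠ 0 → 0 ≤ A v) (A1 : ∀ v, A v ≤ 1)
    (AD : ∃ D : ℕ, 1 ≤ D ∧ ∀ v, ∃ z : ℤ, (D : ℚ) * A v = z) (P0 : PLin Ψ) :
    ∃ ε : ℚ, 0 ≤ ε ∧ (FineG A (fun v => Ψ v - ε * n1 v) f).Nonempty ∧
      (0 < ε → ∀ u ∈ FineG A (fun v => Ψ v - ε * n1 v) f, ∃ v, v ≠ 0 ∧
        dq u v = A v + (Ψ v - ε * n1 v) + ∑ l, (mn v (f l) : ℚ)) := by
  classical
  obtain ⟨V0, hV0, hred⟩ := fin_redV hf0 A0 A1 AD P0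
  obtain ⟨φ, hφ⟩ : ∃ φ : (Fin r → ℤ) → ℚ, φ = fun v =>
    A v + Ψ v - n1 v + ∑ l, (mn v (f l) : ℚ) := ⟨_, rfl⟩
  obtain ⟨B, hB⟩ : ∃ B : ℚ, B = ∑ v ∈ V0, |A v + Ψ v + ∑ l, (mn v (f l) : ℚ)| := ⟨_, rfl⟩
  have hB0 : 0 ≤ B := by
    rw [hB]
    exact Finset.sum_nonneg fun v _ => abs_nonneg _
  have hBv : ∀ v ∈ V0, A v + Ψ v + ∑ l, (mn v (f l) : ℚ) ≤ B := by
    intro v hv
    rw [hB]
    exact (le_abs_self _).trans (Finset.single_le_sum
      (f := fun v => |A v + Ψ v + ∑ l, (mn v (f l) : ℚ)|) (fun v _ => abs_nonneg _) hv)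
  obtain ⟨t, -, ht1, ⟨u, hu⟩, hmax⟩ := u7_tmax V0 n1 φ (t0 := 1 - B) ⟨0, fun v hv => by
      have h1 := hBv v hv
      have h2 := n1_ge_one (hV0 v hv)
      have h3 : dq (0 : Fin r → ℚ) v = 0 := by simp [dq]
      have h4 : B * 1 ≤ B * n1 v := mul_le_mul_of_nonneg_left h2 hB0
      rw [h3, hφ]
      beta_reduce
      linarith⟩ (by linarith)
  have heq : ∀ v, A v + (Ψ v - (1 - t) * n1 v) + ∑ l, (mn v (f l) : ℚ) = t * n1 v + φ v := by
    intro v
    rw [hφ]
    beta_reduce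
    ring
  refine ⟨1 - t, by linarith, ⟨u, fun v hv => ?_⟩, fun hε u' hu' => ?_⟩
  · exact hred u (1 - t) (by linarith) (fun w hw => by
      rw [heq]
      exact hu w hw) v hv
  · by_contra hcon
    push Not at hcon
    obtain ⟨δ, hδ, hδv⟩ := v2_slack V0 (fun v => dq u' v - (t * n1 v + φ v)) n1
      (fun v hv => by
        have h1 := hu' v (hV0 v hv)
        have h2 := hcon v (hV0 v hv)
        rw [heq] at h2
        have h3 : t * n1 v + φ v ≤ dq u' v := by
          rw [← heq]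
          exact h1
        exact sub_pos.2 (lt_of_le_of_ne h3 h2.symm))
      (fun v hv => lt_of_lt_of_le one_pos (n1_ge_one (hV0 v hv)))
    refine hmax (by linarith) (t + δ) (by linarith) ⟨u', fun v hv => ?_⟩
    have h1 := hδv v hv
    linarith

end

end Pool.Agent.R885.N
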