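import Pool.Agent.R885.V15
import Pool.Agent.R885.G19
import Pool.Agent.R885.DY
import Pool.Agent.Y174.B7

/-!
Finite covers of pairs, with the exact multiplicities: pull-back and descent.
-/

set_option autoImplicit false
set_option linter.overlappingInstances false
set_option linter.unusedSectionVars false
set_option linter.unusedVariables false

open FF IntermediateField Pool.Agent.W619.PQ Pool.Agent.W619.PL Pool.Agent.W619.TW
  Pool.Agent.W603.LV Pool.Agent.W619.Y Pool.Agent.W672.PG Pool.Agent.W824.PG Pool.Agent.Y174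

namespace Pool.Agent.R885.N

section

variable {k : Type} [Field k] [CharZero k] {K L : Type} [Field K] [Field L] [Algebra k K]
  [Algebra k L] [Algebra K L] [IsScalarTower k K L]

/-- Pull-back of sections of pairs. -/
theorem w0_pull [FiniteDimensional K L] [DecidableEq L] (hess : Algebra.EssFiniteType k K) {n : ℕ}
    (hn : Algebra.trdeg k K = n) {δ : Place k K → ℝ} {δ' : Place k L → ℝ} 
    (hδ' : ∀ v, IsDivisorial v n → ∀ w e, LiesOn w v e → 1 - e * (1 - δ v) ≤ δ' w)
    {S : Finset K} {m j : ℕ} (y : Fin n → K) (E : Fin n → Derivation k K K)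
    (hy : IsTranscendenceBasis k y) (hE : ∀ i j, E i (y j) = if i = j then 1 else 0)
    {ω : (Fin n → Derivation k K K) → K} (hω : PairSec k K n δ S m j ω) :
    PairSec k L n δ' (S.image (algebraMap K L)) m j
      (fun D => (Matrix.of fun a b => D a (algebraMap K L (y b))).det ^ m *
        algebraMap K L (ω E)) := by
  refine ⟨?_, ?_⟩
  · intro A D
    have e : (Matrix.of fun a b => (∑ j, A a j • D j) (algebraMap K L (y b))) =
        A * Matrix.of fun a b => D a (algebraMap K L (y b)) := by
      ext a b
      rw [Matrix.of_apply, Matrix.mul_apply, Pool.Agent.W73.PG.PULL.sum_app]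
      rfl
    show (Matrix.of fun a b => (∑ j, A a j • D j) (algebraMap K L (y b))).det ^ m * _ = _
    rw [e, Matrix.det_mul, mul_pow, mul_assoc]
  · intro w hw D hD
    obtain ⟨e, v, hwv⟩ := Pool.Agent.W73.PG.PULL.exists_over' (K := K) w
    have hv := Pool.Agent.Y174.pDIVI k K L n v w e hwv hw
    obtain ⟨y', F, i0, hy', hF, ht, hyr, hpres⟩ := Pool.Agent.Y174.pFRAME k K n hn (fun y hy => fin_adj hess y hy)
      v hv
    have ht0 : y' i0 ≠ 0 := by
      intro h0
      rw [h0, v.ord_zero] at ht
      exact zero_ne_one ht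
    have ht0' : algebraMap K L (y' i0) ≠ 0 := by simpa using ht0
    rw [show (fun D : Fin n → Derivation k L L => (Matrix.of fun a b =>
      D a (algebraMap K L (y b))).det ^ m * algebraMap K L (ω E)) D =
      (Matrix.of fun a b => D a (algebraMap K L (y b))).det ^ m * algebraMap K L (ω E) from rfl,
      Pool.Agent.W73.PG.PULL.form_eq y y' hy hy' E F hE hF ω hω.1 D]
    have he0 : (0 : ℤ) < e := by exact_mod_cast hwv.1
    -- the determinant
    have h1 : Ge w (e - 1) (Matrix.of fun a c => D a (algebraMap K L (y' c))).det := by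
      have h2 : (Matrix.of fun a c => D a (algebraMap K L (y' c))) =
          (Matrix.of fun a c => D a (algebraMap K L (y' c))).updateCol i0
            (algebraMap K L (y' i0) • fun a =>
              (D a (algebraMap K L (y' i0)) / algebraMap K L (y' i0))) := by
        ext a c
        rw [Matrix.updateCol_apply]
        by_cases hc : c = i0
        · rw [if_pos hc, hc, Matrix.of_apply, Pi.smul_apply, smul_eq_mul,
            mul_div_cancel₀ _ ht0']
        · rw [if_neg hc]
      rw [h2, Matrix.det_updateCol_smul]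
      have h3 : Ge w e (algebraMap K L (y' i0)) := Or.inr (by rw [hwv.2, ht, mul_one])
      obtain ⟨π, hπ0, hπ⟩ := w.surj
      have h4 : ((Matrix.of fun a c => D a (algebraMap K L (y' c))).updateCol i0
          fun a => (D a (algebraMap K L (y' i0)) / algebraMap K L (y' i0))) =
          ((Matrix.of fun a c => D a (algebraMap K L (y' c))).updateCol i0
          (π⁻¹ • fun a => π * (D a (algebraMap K L (y' i0)) / algebraMap K L (y' i0)))) := by
        congr 1
        funext a
        rw [Pi.smul_apply, smul_eq_mul, inv_mul_cancel_left₀ hπ0]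
      rw [h4, Matrix.det_updateCol_smul]
      have h5 : Ge w (-1) π⁻¹ := Or.inr (by rw [w.ord_inv, hπ])
      have h6 : Ge w 0 ((Matrix.of fun a c => D a (algebraMap K L (y' c))).updateCol i0
          fun a => π * (D a (algebraMap K L (y' i0)) / algebraMap K L (y' i0))).det := by
        refine ge_det w _ fun a c => ?_
        rw [Matrix.updateCol_apply]
        by_cases hc : c = i0
        · rw [if_pos hc]
          have h7 := ge_der (hD a) ht0'
          have h8 : Ge w (-(w.ord (algebraMap K L (y' i0)))) (algebraMap K L (y' i0))⁻¹ :=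
            Or.inr (by rw [w.ord_inv])
          have h9 := (h7.mul h8)
          rw [← div_eq_mul_inv] at h9
          have h10 : Ge w 1 π := Or.inr hπ.ge
          exact (h10.mul h9).mono (by omega)
        · rw [if_neg hc]
          exact hD a _ (hwv.reg.2 (hyr c))
      exact (h3.mul (h5.mul h6)).mono (by omega)
    rcases hω.2 v hv F (fun l f hf => hpres l f hf) with h2 | ⟨s, hs, hs0, hle⟩
    · left
      rw [h2, map_zero, mul_zero]
    by_cases hX0 : (Matrix.of fun a c => D a (algebraMap K L (y' c))).det = 0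
    · by_cases hm : m = 0
      · subst hm
        by_cases hF0 : ω F = 0
        · left; rw [hF0, map_zero, mul_zero]
        right
        refine ⟨algebraMap K L s, Finset.mem_image_of_mem _ hs, by simpa using hs0, ?_⟩
        rw [pow_zero, one_mul, hwv.2, hwv.2]
        push_cast
        have h5 : (e : ℝ) * (j * v.ord s - (0 : ℕ) * δ v) ≤ e * v.ord (ω F) :=
          mul_le_mul_of_nonneg_left hle (Nat.cast_nonneg e)
        simp only [Nat.cast_zero, zero_mul, sub_zero] at h5 ⊢
        calc (j : ℝ) * (e * v.ord s) = e * (j * v.ord s) := by ring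
          _ ≤ _ := h5
      · left; rw [hX0, zero_pow hm, zero_mul]
    by_cases hF0 : ω F = 0
    · left; rw [hF0, map_zero, mul_zero]
    right
    refine ⟨algebraMap K L s, Finset.mem_image_of_mem _ hs, by simpa using hs0, ?_⟩
    have hord : (e : ℤ) - 1 ≤ w.ord (Matrix.of fun a c => D a (algebraMap K L (y' c))).det :=
      h1.resolve_left hX0
    have hord' : (e : ℝ) - 1 ≤
        (w.ord (Matrix.of fun a c => D a (algebraMap K L (y' c))).det : ℝ) := by
      exact_mod_cast hord
    rw [w.ord_mul (pow_ne_zero _ hX0) (by simpa using hF0), w.ord_pow, hwv.2, hwv.2]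
    have hdel2 : 1 - e * (1 - δ v) ≤ δ' w := hδ' v hv w e hwv
    have h5 : (e : ℝ) * (j * v.ord s - m * δ v) ≤ e * v.ord (ω F) :=
      mul_le_mul_of_nonneg_left hle (Nat.cast_nonneg e)
    have h6 : (m : ℝ) * ((e : ℝ) - 1) ≤
        m * (w.ord (Matrix.of fun a c => D a (algebraMap K L (y' c))).det : ℝ) :=
      mul_le_mul_of_nonneg_left hord' (Nat.cast_nonneg m)
    have h7 : (m : ℝ) * (1 - e * (1 - δ v)) ≤ m * δ' w :=
      mul_le_mul_of_nonneg_left hdel2 (Nat.cast_nonneg m)
    push_cast
    nlinarith

/-- Pull-back of sections of pairs and Kodaira dimension. -/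
theorem w0_up [FiniteDimensional K L] (hess : Algebra.EssFiniteType k K) {n A : ℕ}
    (hn : Algebra.trdeg k K = n) {δ : Place k K → ℝ} {δ' : Place k L → ℝ} 
    (hδ' : ∀ v, IsDivisorial v n → ∀ w e, LiesOn w v e → 1 - e * (1 - δ v) ≤ δ' w)
    (h : PairKod k K n δ A) : PairKod k L n δ' A := by
  classical
  obtain ⟨m, hm, ω, hω, D, hD0, hDi⟩ := h
  obtain ⟨y, hy⟩ := Pool.Agent.W636.PG.exists_basis k K n hn
  obtain ⟨E, hE⟩ := Pool.Agent.W636.PG.exists_duals k K n y hy
  have hyL : IsTranscendenceBasis k (algebraMap K L ∘ y) := hy.algebraMap_comp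
  obtain ⟨E', hE'⟩ := Pool.Agent.W636.PG.exists_duals k L n _ hyL
  have hval : ∀ l, ω l D = (Matrix.of fun i j => D i (y j)).det ^ m * ω l E := fun l =>
    Pool.Agent.W636.PG.form_eq k K n m y hy E hE (ω l) (hω l).1 D
  have hdet0 : (Matrix.of fun i j => D i (y j)).det ^ m ≠ 0 := by
    intro h0
    apply hD0 0
    rw [hval, h0, zero_mul]
  have hE0 : ∀ l, ω l E ≠ 0 := by
    intro l h0
    apply hD0 l
    rw [hval, h0, mul_zero]
  have hdet : (Matrix.of fun a b => E' a (algebraMap K L (y b))).det = 1 := by
    have h1 : (Matrix.of fun a b => E' a (algebraMap K L (y b))) = 1 := by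
      ext a b
      rw [Matrix.of_apply, Matrix.one_apply]
      exact hE' a b
    rw [h1, Matrix.det_one]
  refine ⟨m, hm, fun l D => (Matrix.of fun a b => D a (algebraMap K L (y b))).det ^ m *
    algebraMap K L (ω l E), fun l => ?_, E', fun l => ?_, ?_⟩
  · have h1 := w0_pull hess hn hδ' y E hy hE (hω l)
    rw [Finset.image_singleton, map_one] at h1
    exact h1
  · change (Matrix.of fun a b => E' a (algebraMap K L (y b))).det ^ m *
      algebraMap K L (ω l E) ≠ 0
    rw [hdet, one_pow, one_mul]
    exact (map_ne_zero_iff _ (algebraMap K L).injective).2 (hE0 l)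
  · have h1 : (fun l : Fin A => (Matrix.of fun a b => E' a (algebraMap K L (y b))).det ^ m *
        algebraMap K L (ω l.succ E) / ((Matrix.of fun a b => E' a (algebraMap K L (y b))).det ^ m *
        algebraMap K L (ω 0 E))) = fun l : Fin A =>
          IsScalarTower.toAlgHom k K L (ω l.succ D / ω 0 D) := by
      funext l
      rw [hdet, one_pow, one_mul, one_mul, hval, hval, mul_div_mul_left _ _ hdet0]
      change _ = algebraMap K L _
      rw [map_div₀]
    rw [h1]
    exact (AlgHom.algebraicIndependent_iff (IsScalarTower.toAlgHom k K L)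
      (algebraMap K L).injective).2 hDi

/-- Pull-back of sections of pairs and numerical dimension. -/
theorem w0_num [FiniteDimensional K L] (hess : Algebra.EssFiniteType k K) {n A : ℕ}
    (hn : Algebra.trdeg k K = n) {δ : Place k K → ℝ} {δ' : Place k L → ℝ} 
    (hδ' : ∀ v, IsDivisorial v n → ∀ w e, LiesOn w v e → 1 - e * (1 - δ v) ≤ δ' w)
    (h : PairNum k L n δ' A) : PairNum k K n δ A := by
  classical
  intro S
  obtain ⟨y, hy⟩ := Pool.Agent.W636.PG.exists_basis k K n hn
  obtain ⟨E, hE⟩ := Pool.Agent.W636.PG.exists_duals k K n y hy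
  have hyL : IsTranscendenceBasis k (algebraMap K L ∘ y) := hy.algebraMap_comp
  obtain ⟨E', hE'⟩ := Pool.Agent.W636.PG.exists_duals k L n _ hyL
  have hdet : (Matrix.of fun a b => E' a (algebraMap K L (y b))).det = 1 := by
    have h1 : (Matrix.of fun a b => E' a (algebraMap K L (y b))) = 1 := by
      ext a b
      rw [Matrix.of_apply, Matrix.one_apply]
      exact hE' a b
    rw [h1, Matrix.det_one]
  obtain ⟨C, hC⟩ := h (S.image (algebraMap K L))
  refine ⟨C, fun m N hm hI => hC m N hm ?_⟩
  obtain ⟨ω, hli, hω⟩ := hI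
  refine ⟨fun l D => (Matrix.of fun a b => D a (algebraMap K L (y b))).det ^ m *
    algebraMap K L (ω l E), ?_, fun l => w0_pull hess hn hδ' y E hy hE (hω l)⟩
  rw [Fintype.linearIndependent_iff] at hli ⊢
  intro c hc
  apply hli
  have h1 : ∑ l, c l • ω l E = 0 := by
    have h2 := congrFun hc E'
    rw [Finset.sum_apply] at h2
    simp only [Pi.smul_apply, Pi.zero_apply, hdet, one_pow, one_mul] at h2
    have h3 : algebraMap K L (∑ l, c l • ω l E) = 0 := by
      rw [← h2, map_sum]
      refine Finset.sum_congr rfl fun l _ => ?_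
      rw [Algebra.smul_def, Algebra.smul_def, map_mul, ← IsScalarTower.algebraMap_apply k K L]
    exact (map_eq_zero _).1 h3
  funext D
  rw [Finset.sum_apply]
  simp only [Pi.smul_apply, Pi.zero_apply]
  have h4 : ∀ l, c l • ω l D = (Matrix.of fun i j => D i (y j)).det ^ m * (c l • ω l E) := by
    intro l
    rw [Pool.Agent.W636.PG.form_eq k K n m y hy E hE (ω l) (hω l).1 D, mul_smul_comm]
  rw [Finset.sum_congr rfl fun l _ => h4 l, ← Finset.mul_sum, h1, mul_zero]

end



section

variable {k : Type} {L : Type} [Field k] [CharZero k] [Field L] [Algebra k L]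

/-- Descent of sections of pairs. -/
theorem w0_desc {n A : ℕ} (hn : Algebra.trdeg k L = n) (hessL : Algebra.EssFiniteType k L)
    (G : Subgroup (L ≃ₐ[k] L)) [Finite G] (δ : Place k (fixedField G) → ℝ)
    (δ' : Place k L → ℝ)
    (hδ' : ∀ v, IsDivisorial v n → ∀ w e, LiesOn w v e → δ' w ≤ 1 - e * (1 - δ v))
    (hL : PairKod k L n δ' A) : PairKod k (fixedField G) n δ A := by
  classical
  have halgK := Pool.Agent.W721.PG.EFF2.alg_fixed G
  have hfin := fixed_finite G
  have := Fintype.ofFinite G
  obtain ⟨m, hm, ω, hω, DL, hDL0, hDLi⟩ := hL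
  obtain ⟨hnK, z, hz⟩ := Pool.Agent.W721.PG.EFF2.exists_basis (fixedField G) n hn
  have hessK : Algebra.EssFiniteType k (fixedField G) := ess_down hessL z hz
  choose ext hext hext2 hext3 using Pool.Agent.Y174.pEXT k (fixedField G) L n hnK
  have hfix : ∀ (g : G) (f : fixedField G), (g : L ≃ₐ[k] L) (algebraMap (fixedField G) L f) =
      algebraMap (fixedField G) L f := fun g f => f.2 g
  -- the frame
  obtain ⟨E, hE⟩ := Pool.Agent.W636.PG.exists_duals k (fixedField G) n z hz
  have hzL : IsTranscendenceBasis k (algebraMap (fixedField G) L ∘ z) := hz.algebraMap_comp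
  have hE' : ∀ i j, ext (E i) ((algebraMap (fixedField G) L ∘ z) j) = if i = j then 1 else 0 := by
    intro i j
    rw [Function.comp_apply, hext, hE]
    split_ifs <;> simp
  have hval : ∀ l, ω l DL = (Matrix.of fun i j => DL i ((algebraMap (fixedField G) L ∘ z) j)).det ^ m
      * ω l (fun j => ext (E j)) := fun l =>
    Pool.Agent.W636.PG.form_eq k L n m _ hzL _ hE' (ω l) (hω l).1 DL
  have hdet0 : (Matrix.of fun i j => DL i ((algebraMap (fixedField G) L ∘ z) j)).det ^ m ≠ 0 := by
    intro h0
    apply hDL0 0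
    rw [hval, h0, zero_mul]
  have hωE0 : ∀ l, ω l (fun j => ext (E j)) ≠ 0 := by
    intro l h0
    apply hDL0 l
    rw [hval, h0, mul_zero]
  -- the functions
  let V : (Fin n → Derivation k (fixedField G) (fixedField G)) → Fin (A + 1) → L :=
    fun D l => ω l (fun j => ext (D j))
  have hV0 : ∀ l, V E l ≠ 0 := fun l => hωE0 l
  have hVi : AlgebraicIndependent k (fun l : Fin A => V E l.succ / V E 0) := by
    have e1 : (fun l : Fin A => V E l.succ / V E 0) = fun l : Fin A => ω l.succ DL / ω 0 DL := by
      funext l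
      rw [hval, hval]
      change ω l.succ _ / ω 0 _ = _
      rw [mul_div_mul_left _ _ hdet0]
    rw [e1]
    exact hDLi
  have hVlin : ∀ (X : Matrix (Fin n) (Fin n) (fixedField G))
      (D : Fin n → Derivation k (fixedField G) (fixedField G)) l,
      V (fun i => ∑ j, X i j • D j) l =
        V D l * (algebraMap (fixedField G) L X.det) ^ m := by
    intro X D l
    have e1 : (fun j => ext (∑ l, X j l • D l)) = fun j => ∑ l,
        (X.map (algebraMap (fixedField G) L)) j l • ext (D l) := by
      funext j
      symm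
      apply hext2
      intro f
      rw [Pool.Agent.W721.PG.EFF2.der_sum, Pool.Agent.W721.PG.EFF2.der_sum, map_sum]
      refine Finset.sum_congr rfl fun l _ => ?_
      rw [hext, map_mul]
      rfl
    have e3 : (X.map (algebraMap (fixedField G) L)).det = algebraMap (fixedField G) L X.det := by
      rw [RingHom.map_det]
      rfl
    change ω l (fun j => ext (∑ l, X j l • D l)) = ω l (fun j => ext (D j)) * _
    rw [e1, (hω l).1, e3]
    ring
  -- symmetric functions
  obtain ⟨R, t, r, q, hR, hrq, hs0, hsi⟩ := Pool.Agent.W513.PG.main k L G 1 A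
    (fun g l => (g : L ≃ₐ[k] L) (V E l)) (fun l => by
      change V E l ≠ 0
      exact hV0 l) (by
      have e1 : (fun l : Fin A => ((1 : G) : L ≃ₐ[k] L) (V E l.succ) /
          ((1 : G) : L ≃ₐ[k] L) (V E 0)) = fun l : Fin A => V E l.succ / V E 0 := rfl
      rw [e1]
      exact hVi)
  let s : (Fin n → Derivation k (fixedField G) (fixedField G)) → Fin (A + 1) → L :=
    fun D j => esy (fun g : G => (g : L ≃ₐ[k] L) (V D (t j))) (r j) ^ q j
  have hsG : ∀ D j (g : G), (g : L ≃ₐ[k] L) (s D j) = s D j := by
    intro D j g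
    change (g : L ≃ₐ[k] L) (esy (fun g : G => (g : L ≃ₐ[k] L) (V D (t j))) (r j) ^ q j) = _
    rw [map_pow]
    congr 1
    exact esy_inv _ (g : L ≃ₐ[k] L) (Equiv.mulLeft g) (fun i => rfl) _
  have hsA : ∀ (X : Matrix (Fin n) (Fin n) (fixedField G))
      (D : Fin n → Derivation k (fixedField G) (fixedField G)) j,
      s (fun i => ∑ j, X i j • D j) j =
        (algebraMap (fixedField G) L X.det) ^ (m * R) * s D j := by
    intro X D j
    have e1 : (fun g : G => (g : L ≃ₐ[k] L) (V (fun i => ∑ j, X i j • D j) (t j))) =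
        fun g : G => (g : L ≃ₐ[k] L) (V D (t j)) *
          (algebraMap (fixedField G) L X.det) ^ m := by
      funext g
      rw [hVlin, map_mul, map_pow, hfix]
    change esy (fun g : G => (g : L ≃ₐ[k] L) (V (fun i => ∑ j, X i j • D j) (t j))) (r j) ^ q j =
      (algebraMap (fixedField G) L X.det) ^ (m * R) *
        esy (fun g : G => (g : L ≃ₐ[k] L) (V D (t j))) (r j) ^ q j
    rw [e1, esy_mul, mul_pow, ← pow_mul, ← pow_mul, hrq j]
  refine ⟨m * R, Nat.mul_pos hm hR, fun j D => ⟨s D j, fun g => hsG D j g⟩,
    fun l => ⟨?_, ?_⟩, E, fun l h0 => ?_, ?_⟩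
  · intro X D
    apply Subtype.ext
    change s (fun i => ∑ j, X i j • D j) l =
      algebraMap (fixedField G) L (X.det ^ (m * R) * ⟨s D l, fun g => hsG D l g⟩)
    rw [hsA, map_mul, map_pow]
    rfl
  · intro v hv D hD
    obtain ⟨w, e, I, hwv, hcard, hI⟩ := exists_inertia G v
    have he0 : 0 < e := hwv.1
    have hVreg : ∀ l (g : G), GeR w (-((m : ℕ) * (e * δ v)))
        ((g : L ≃ₐ[k] L) (V D l)) := by
      intro l g
      rw [← GeR.comp]
      have hov := over_comp hwv (g : L ≃ₐ[k] L) (fun z => z.2 g)
      have hdv := divisorial_up hov hv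
      have hdel := hδ' v hv (w.comp (g : L ≃ₐ[k] L)) e hov
      have hreg : ∀ D' : Fin n → Derivation k L L, (∀ j, Pres (w.comp (g : L ≃ₐ[k] L)) (D' j)) →
          GeR (w.comp (g : L ≃ₐ[k] L)) (-(m * δ' (w.comp (g : L ≃ₐ[k] L)))) (ω l D') := by
        intro D' hD'
        rcases (hω l).2 _ hdv D' hD' with h | ⟨s', hs', hs0', hle⟩
        · exact Or.inl h
        · refine Or.inr ?_
          simpa using hle
      have h1 := ge_formR hn hessL hnK hessK hov hv (ω l) (hω l).1 hreg ext
        (fun D f => hext D f) (fun D D'' h => hext2 D D'' h) D hD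
      refine h1.mono ?_
      have h8 : (0 : ℝ) ≤ m := Nat.cast_nonneg m
      have h9 := mul_le_mul_of_nonneg_left hdel h8
      linarith
    -- elementary symmetric functions
    have hesy : GeR w (r l * (-((m : ℕ) * (e * δ v))))
        (esy (fun g : G => (g : L ≃ₐ[k] L) (V D (t l))) (r l)) := by
      unfold esy
      refine GeR.sum _ _ _ fun A hA => ?_
      have h1 := GeR.prod (w := w) A (-((m : ℕ) * (e * δ v)))
        (fun g : G => (g : L ≃ₐ[k] L) (V D (t l))) (fun g _ => hVreg (t l) g)
      have h2 : A.card = r l := (Finset.mem_powersetCard.1 hA).2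
      rw [h2] at h1
      exact h1
    have h1 := hesy.pow (q l)
    have h2 : GeR v (-((m * R : ℕ) * δ v)) (⟨s D l, fun g => hsG D l g⟩ :
        fixedField G) := by
      apply GeR.down hwv
      change GeR w _ (s D l)
      refine h1.mono ?_
      have h3 : ((q l : ℝ) * r l) = R := by
        have := hrq l
        rw [mul_comm] at this
        exact_mod_cast this
      have h4 : (((m * R : ℕ)) : ℝ) = ((m : ℕ) : ℝ) * (q l * r l) := by
        rw [h3]; push_cast; ring
      rw [h4]
      apply le_of_eq
      ring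
    rcases h2 with h2 | h2
    · exact Or.inl h2
    · right
      refine ⟨1, by simp, one_ne_zero, ?_⟩
      simpa using h2
  · exact pow_ne_zero _ (hs0 l) (congrArg Subtype.val h0)
  · have hsi' : AlgebraicIndependent k fun l : Fin A =>
        ((⟨s E l.succ, fun g => hsG E l.succ g⟩ / ⟨s E 0, fun g => hsG E 0 g⟩ :
          fixedField G) : L) := hsi
    exact (AlgHom.algebraicIndependent_iff (fixedField G).val (Subtype.val_injective)).1 hsi'

end



end Pool.Agent.R885.N
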