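import Pool.Agent.R885.W0

/-!
Finite covers of pairs: traces of sections.
-/

set_option autoImplicit false
set_option linter.overlappingInstances false
set_option linter.unusedSectionVars false
set_option linter.unusedVariables false

open FF IntermediateField Pool.Agent.W619.PQ Pool.Agent.W619.PL Pool.Agent.W619.TW
  Pool.Agent.W603.LV Pool.Agent.W619.Y Pool.Agent.W672.PG Pool.Agent.W824.PG Pool.Agent.Y174

namespace Pool.Agent.R885.N

section

variable {k : Type} [Field k] [CharZero k] {K L : Type} [Field K] [Field L] [Algebra k K]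
  [Algebra k L] [Algebra K L] [IsScalarTower k K L]

/-- The order of a root of a monic polynomial. -/
theorem ge_root {w : Place k L} {v : Place k K} {e : ℕ} (hwv : LiesOn w v e) {p : Polynomial K}
    (hp : p.Monic) {μ : ℝ} (hμ : μ ≤ 0) (hc : ∀ j, GeR v μ (p.coeff j)) {z : L}
    (hz : Polynomial.aeval z p = 0) : GeR w (e * μ) z := by
  classical
  by_cases hz0 : z = 0
  · exact Or.inl hz0
  by_contra hcon
  have hlt : (w.ord z : ℝ) < e * μ := by
    by_contra h
    exact hcon (Or.inr (not_lt.1 h))
  have he : (0 : ℝ) < e := by exact_mod_cast hwv.1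
  have ha0 : (w.ord z : ℝ) < 0 := by nlinarith
  have hN : 0 < p.natDegree := by
    rcases Nat.eq_zero_or_pos p.natDegree with h | h
    · exfalso
      have h1 := Polynomial.eq_one_of_monic_natDegree_zero hp h
      rw [h1, map_one] at hz
      exact one_ne_zero hz
    · exact h
  rw [Polynomial.aeval_eq_sum_range, Finset.sum_range_succ, hp.coeff_natDegree, one_smul] at hz
  have h1 : GeR w (e * μ + (p.natDegree - 1 : ℕ) * w.ord z)
      (∑ i ∈ Finset.range p.natDegree, p.coeff i • z ^ i) := by
    refine GeR.sum _ _ _ fun i hi => ?_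
    rw [Algebra.smul_def]
    have hi' : i ≤ p.natDegree - 1 := by
      have := Finset.mem_range.1 hi
      omega
    have h2 : GeR w (e * μ) (algebraMap K L (p.coeff i)) := (hc i).up hwv
    have h3 : GeR w (i * w.ord z) (z ^ i) := by
      right
      rw [w.ord_pow]
      push_cast
      exact le_rfl
    refine (h2.mul h3).mono ?_
    have h4 : (i : ℝ) ≤ (p.natDegree - 1 : ℕ) := by exact_mod_cast hi'
    nlinarith
  have h5 : z ^ p.natDegree = -(∑ i ∈ Finset.range p.natDegree, p.coeff i • z ^ i) := by
    linear_combination hz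
  have h6 : GeR w (e * μ + (p.natDegree - 1 : ℕ) * w.ord z) (z ^ p.natDegree) := by
    rw [h5]
    rcases h1 with h1 | h1
    · left; rw [h1, neg_zero]
    · right; rwa [w.ord_neg]
  rcases h6 with h6 | h6
  · exact hz0 (pow_eq_zero_iff hN.ne' |>.1 h6)
  · rw [w.ord_pow] at h6
    push_cast [Nat.cast_sub hN] at h6
    linarith

end

section

variable {k : Type} {L : Type} [Field k] [CharZero k] [Field L] [Algebra k L]

/-- the trace -/
noncomputable def gtr (G : Subgroup (L ≃ₐ[k] L)) [Fintype G] (z : L) : fixedField G :=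
  ⟨∑ g : G, (g : L ≃ₐ[k] L) z, fun h => by
    change (h : L ≃ₐ[k] L) (∑ g : G, (g : L ≃ₐ[k] L) z) = ∑ g : G, (g : L ≃ₐ[k] L) z
    rw [map_sum]
    exact Fintype.sum_equiv (Equiv.mulLeft h) _ _ fun g => rfl⟩

variable (G : Subgroup (L ≃ₐ[k] L)) [Fintype G]

theorem gtr_coe (z : L) : algebraMap (fixedField G) L (gtr G z) = ∑ g : G, (g : L ≃ₐ[k] L) z := rfl

theorem gtr_add (z z' : L) : gtr G (z + z') = gtr G z + gtr G z' := by
  apply (algebraMap (fixedField G) L).injective
  rw [map_add, gtr_coe, gtr_coe, gtr_coe, ← Finset.sum_add_distrib]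
  exact Finset.sum_congr rfl fun g _ => map_add _ _ _

theorem gtr_mul (c : fixedField G) (z : L) :
    gtr G (algebraMap (fixedField G) L c * z) = c * gtr G z := by
  apply (algebraMap (fixedField G) L).injective
  rw [map_mul, gtr_coe, gtr_coe, Finset.mul_sum]
  refine Finset.sum_congr rfl fun g _ => ?_
  rw [map_mul]
  congr 1
  exact c.2 g

theorem gtr_smul (c : k) (z : L) : gtr G (c • z) = c • gtr G z := by
  have h1 : c • z = algebraMap (fixedField G) L (algebraMap k (fixedField G) c) * z := by
    rw [← IsScalarTower.algebraMap_apply, Algebra.smul_def]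
  rw [h1, gtr_mul, Algebra.smul_def]

/-- the trace as a linear map -/
noncomputable def gtrL (b : L) : L →ₗ[k] fixedField G where
  toFun z := gtr G (b * z)
  map_add' z z' := by rw [mul_add, gtr_add]
  map_smul' c z := by rw [mul_smul_comm, gtr_smul]; rfl

/-- the trace form is nondegenerate -/
theorem gtr_nondeg {ι : Type} [Fintype ι] (b : Module.Basis ι (fixedField G) L) {z : L}
    (h : ∀ i, gtrL G (b i) z = 0) : z = 0 := by
  by_contra hz
  have h1 : ∀ u : L, gtr G (u * z) = 0 := by
    intro u
    rw [← b.sum_repr u, Finset.sum_mul]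
    have h2 : ∀ s : Finset ι, gtr G (∑ i ∈ s, (b.repr u i • b i) * z) = 0 := by
      classical
      intro s
      induction s using Finset.induction_on with
      | empty =>
        rw [Finset.sum_empty]
        have h3 := gtr_smul G (0 : k) (0 : L)
        rwa [zero_smul, zero_smul] at h3
      | insert a s ha ih =>
        rw [Finset.sum_insert ha, gtr_add, ih, add_zero, Algebra.smul_def, mul_assoc, gtr_mul]
        have h3 : gtr G (b a * z) = 0 := h a
        rw [h3, mul_zero]
    exact h2 _
  have h2 := h1 (z⁻¹)
  rw [inv_mul_cancel₀ hz] at h2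
  have h3 := congrArg (algebraMap (fixedField G) L) h2
  rw [gtr_coe, map_zero] at h3
  simp only [map_one, Finset.sum_const, nsmul_eq_mul, mul_one] at h3
  have hchar : CharZero L := charZero_of_injective_algebraMap (algebraMap k L).injective
  have h4 : (Finset.univ : Finset G).card = 0 := by exact_mod_cast h3
  rw [Finset.card_eq_zero] at h4
  exact Finset.notMem_empty (1 : G) (h4 ▸ Finset.mem_univ _)

end

end Pool.Agent.R885.N
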