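import Pool.Agent.R885.W1

/-!
Finite covers of pairs: traces of sections are sections.
-/

set_option autoImplicit false
set_option linter.overlappingInstances false
set_option linter.unusedSectionVars false
set_option linter.unusedVariables false

open FF IntermediateField Pool.Agent.W619.PQ Pool.Agent.W619.PL Pool.Agent.W619.TW
  Pool.Agent.W603.LV Pool.Agent.W619.Y Pool.Agent.W672.PG Pool.Agent.W824.PG Pool.Agent.Y174

namespace Pool.Agent.R885.N

section

variable {k : Type} {L : Type} [Field k] [CharZero k] [Field L] [Algebra k L]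

/-- Traces of sections are sections. -/
theorem tr_sec {n m : ℕ} (hn : Algebra.trdeg k L = n) (hessL : Algebra.EssFiniteType k L)
    (G : Subgroup (L ≃ₐ[k] L)) [Fintype G] (hnK : Algebra.trdeg k (fixedField G) = n)
    (hessK : Algebra.EssFiniteType k (fixedField G)) (δ : Place k (fixedField G) → ℝ)
    (β : Place k L → ℝ)
    (hβ : ∀ v, IsDivisorial v n → ∀ w e, LiesOn w v e → β w ≤ 1 - e * (1 - δ v))
    (ext : Derivation k (fixedField G) (fixedField G) → Derivation k L L)
    (hext : ∀ D (f : fixedField G), ext D (algebraMap (fixedField G) L f) =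
      algebraMap (fixedField G) L (D f))
    (hext2 : ∀ D (D'' : Derivation k L L), (∀ f : fixedField G,
      D'' (algebraMap (fixedField G) L f) = algebraMap (fixedField G) L (D f)) → D'' = ext D)
    {S : Finset L} {T : Finset (fixedField G)} (hT1 : 1 ∈ T) (b : L)
    (hT : ∀ s ∈ S, ∀ j, (minpoly (fixedField G) (b * s)).coeff j ∈ T)
    {ω : (Fin n → Derivation k L L) → L} (hω : PairSec k L n β S m 1 ω) :
    PairSec k (fixedField G) n δ T m 1 (fun D => gtrL G b (ω fun j => ext (D j))) := by
  classical
  have hfin := fixed_finite G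
  have hVlin : ∀ (X : Matrix (Fin n) (Fin n) (fixedField G))
      (D : Fin n → Derivation k (fixedField G) (fixedField G)),
      ω (fun i => ext (∑ j, X i j • D j)) =
        algebraMap (fixedField G) L (X.det ^ m) * ω (fun j => ext (D j)) := by
    intro X D
    have e1 : (fun j => ext (∑ l, X j l • D l)) = fun j => ∑ l,
        (X.map (algebraMap (fixedField G) L)) j l • ext (D l) := by
      funext j
      symm
      apply hext2
      intro f
      rw [Pool.Agent.W721.PG.EFF2.der_sum, Pool.Agent.W721.PG.EFF2.der_sum, map_sum]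
      refine Finset.sum_congr rfl fun l _ => ?_
      rw [hext, map_mul]
      rfl
    have e3 : (X.map (algebraMap (fixedField G) L)).det = algebraMap (fixedField G) L X.det := by
      rw [RingHom.map_det]
      rfl
    rw [e1, hω.1, e3, map_pow]
  refine ⟨?_, ?_⟩
  · intro X D
    change gtr G (b * ω (fun i => ext (∑ j, X i j • D j))) =
      X.det ^ m * gtr G (b * ω fun j => ext (D j))
    rw [hVlin, ← gtr_mul]
    congr 1
    ring
  · intro v hv D hD
    obtain ⟨w, e, I, hwv, hcard, hI⟩ := exists_inertia G v
    have he0 : 0 < e := hwv.1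
    -- the minimum
    have hTne : (T.filter (· ≠ 0)).Nonempty := ⟨1, Finset.mem_filter.2 ⟨hT1, one_ne_zero⟩⟩
    obtain ⟨t, ht, htmin⟩ := Finset.exists_min_image (T.filter (· ≠ 0)) (fun t => v.ord t) hTne
    rw [Finset.mem_filter] at ht
    have hmin : ∀ t' ∈ T, t' ≠ 0 → v.ord t ≤ v.ord t' := fun t' h1 h2 =>
      htmin t' (Finset.mem_filter.2 ⟨h1, h2⟩)
    have hμ : ((v.ord t : ℤ) : ℝ) ≤ 0 := by
      have h1 := hmin 1 hT1 one_ne_zero
      rw [v.ord_one] at h1
      exact_mod_cast h1
    -- the poles of the translates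
    have hpole : ∀ (g : G) (s : L), s ∈ S →
        GeR w (e * v.ord t) ((g : L ≃ₐ[k] L) (b * s)) := by
      intro g s hs
      have hint : IsIntegral (fixedField G) (b * s) := Algebra.IsIntegral.isIntegral _
      refine ge_root hwv (minpoly.monic hint) hμ (fun j => ?_) ?_
      · by_cases h0 : (minpoly (fixedField G) (b * s)).coeff j = 0
        · exact Or.inl h0
        · right
          exact_mod_cast hmin _ (hT s hs j) h0
      · have h1 := minpoly.aeval (fixedField G) (b * s)
        let g' : L ≃ₐ[fixedField G] L := AlgEquiv.ofRingEquiv (f := ((g : L ≃ₐ[k] L) : L ≃+* L))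
          (fun c => c.2 g)
        have h2 : Polynomial.aeval (g' (b * s)) (minpoly (fixedField G) (b * s)) =
            g' (Polynomial.aeval (b * s) (minpoly (fixedField G) (b * s))) :=
          Polynomial.aeval_algHom_apply (g' : L →ₐ[fixedField G] L) _ _
        rw [h1, map_zero] at h2
        exact h2
    have hVreg : ∀ (g : G), GeR w (e * (v.ord t - m * δ v))
        ((g : L ≃ₐ[k] L) (b * ω fun j => ext (D j))) := by
      intro g
      rw [← GeR.comp]
      have hov := over_comp hwv (g : L ≃ₐ[k] L) (fun z => z.2 g)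
      have hdv := divisorial_up hov hv
      have hdel := hβ v hv (w.comp (g : L ≃ₐ[k] L)) e hov
      by_cases hb : b = 0
      · left; rw [hb, zero_mul]
      have hreg : ∀ D' : Fin n → Derivation k L L, (∀ j, Pres (w.comp (g : L ≃ₐ[k] L)) (D' j)) →
          GeR (w.comp (g : L ≃ₐ[k] L)) (e * v.ord t - (w.comp (g : L ≃ₐ[k] L)).ord b -
            m * β (w.comp (g : L ≃ₐ[k] L))) (ω D') := by
        intro D' hD'
        rcases hω.2 _ hdv D' hD' with h | ⟨s', hs', hs0', hle⟩
        · exact Or.inl h
        · refine Or.inr ?_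
          have h1 := hpole g s' hs'
          rw [← GeR.comp] at h1
          have h2 := h1.resolve_left (mul_ne_zero hb hs0')
          rw [Place.ord_mul _ hb hs0'] at h2
          push_cast at h2
          rw [Nat.cast_one, one_mul] at hle
          linarith
      have h1 := ge_formR hn hessL hnK hessK hov hv ω hω.1 hreg ext hext hext2 D hD
      have h2 : GeR (w.comp (g : L ≃ₐ[k] L)) ((w.comp (g : L ≃ₐ[k] L)).ord b) b := Or.inr le_rfl
      refine (h2.mul h1).mono ?_
      have h8 : (0 : ℝ) ≤ m := Nat.cast_nonneg m
      have h9 := mul_le_mul_of_nonneg_left hdel h8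
      linarith
    have h2 : GeR v ((v.ord t : ℝ) - m * δ v) (gtrL G b (ω fun j => ext (D j))) := by
      apply GeR.down hwv
      change GeR w _ (∑ g : G, (g : L ≃ₐ[k] L) (b * ω fun j => ext (D j)))
      exact GeR.sum _ _ _ fun g _ => hVreg g
    rcases h2 with h2 | h2
    · exact Or.inl h2
    · right
      refine ⟨t, ht.1, ht.2, ?_⟩
      simpa using h2

end

end Pool.Agent.R885.N
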