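import Pool.Agent.R885.W1b

/-!
Finite covers of pairs: the numerical dimension of a cover.
-/

set_option autoImplicit false
set_option linter.overlappingInstances false
set_option linter.unusedSectionVars false
set_option linter.unusedVariables false

open FF IntermediateField Pool.Agent.W619.PQ Pool.Agent.W619.PL Pool.Agent.W619.TW
  Pool.Agent.W603.LV Pool.Agent.W619.Y Pool.Agent.W672.PG Pool.Agent.W824.PG Pool.Agent.Y174

namespace Pool.Agent.R885.N

section

/-- Counting with a family of maps. -/
theorem count_le {k L K : Type} [Field k] [AddCommGroup L] [Module k L] [AddCommGroup K]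
    [Module k K] {ι : Type} [Fintype ι] (T : ι → L →ₗ[k] K) (hT : ∀ z, (∀ i, T i z = 0) → z = 0)
    {N : ℕ} {f : Fin N → L} (hf : LinearIndependent k f) {B : ℕ}
    (hB : ∀ i (M : ℕ) (φ : Fin M → Fin N), (LinearIndependent k fun j => T i (f (φ j))) → M ≤ B) :
    N ≤ Fintype.card ι * B := by
  classical
  set W : Submodule k L := Submodule.span k (Set.range f) with hW
  have hWN : Module.finrank k W = N := by
    rw [finrank_span_eq_card hf, Fintype.card_fin]
  have hWf : Module.Finite k W := FiniteDimensional.span_of_finite k (Set.finite_range f)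
  have hle : ∀ i, Module.finrank k (W.map (T i)) ≤ B := by
    intro i
    have h1 : W.map (T i) = Submodule.span k (Set.range fun l => T i (f l)) := by
      rw [hW, Submodule.map_span, ← Set.range_comp]
      rfl
    have hfinS : Module.Finite k (Submodule.span k (Set.range fun l => T i (f l))) :=
      FiniteDimensional.span_of_finite k (Set.finite_range _)
    obtain ⟨φ, hφ, -, hφi⟩ := Submodule.exists_fun_fin_finrank_span_eq k
      (Set.range fun l => T i (f l))
    choose l hl using hφ
    have h2 := hB i _ l (by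
      have h3 : (fun j => T i (f (l j))) = φ := funext hl
      rw [h3]
      exact hφi)
    rw [h1]
    exact h2
  let Ψ : W →ₗ[k] ∀ i, W.map (T i) := LinearMap.pi fun i =>
    ((T i).comp W.subtype).codRestrict (W.map (T i)) fun z => ⟨z, z.2, rfl⟩
  have hΨ : Function.Injective Ψ := by
    rw [← LinearMap.ker_eq_bot, LinearMap.ker_eq_bot']
    intro z hz
    apply Subtype.ext
    apply hT
    intro i
    exact congrArg Subtype.val (congrFun hz i)
  have h1 := LinearMap.finrank_le_finrank_of_injective hΨ
  rw [hWN, Module.finrank_pi_fintype] at h1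
  refine h1.trans ?_
  calc ∑ i, Module.finrank k (W.map (T i)) ≤ ∑ _i : ι, B := Finset.sum_le_sum fun i _ => hle i
    _ = Fintype.card ι * B := by rw [Finset.sum_const, Finset.card_univ, smul_eq_mul]

end

section

variable {k : Type} {L : Type} [Field k] [CharZero k] [Field L] [Algebra k L]

/-- the finite sets of functions -/
theorem exists_T (G : Subgroup (L ≃ₐ[k] L)) {ι : Type} [Fintype ι] (b : ι → L) (S : Finset L) :
    ∃ T : Finset (fixedField G), 1 ∈ T ∧ ∀ i, ∀ s ∈ S, ∀ j,
      (minpoly (fixedField G) (b i * s)).coeff j ∈ T := by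
  classical
  refine ⟨insert 1 (insert 0 (Finset.univ.biUnion fun i : ι => S.biUnion fun s =>
    (Finset.range ((minpoly (fixedField G) (b i * s)).natDegree + 1)).image
      (minpoly (fixedField G) (b i * s)).coeff)), Finset.mem_insert_self _ _, ?_⟩
  intro i s hs j
  by_cases hj : j ∈ Finset.range ((minpoly (fixedField G) (b i * s)).natDegree + 1)
  · refine Finset.mem_insert_of_mem (Finset.mem_insert_of_mem ?_)
    rw [Finset.mem_biUnion]
    refine ⟨i, Finset.mem_univ _, ?_⟩
    rw [Finset.mem_biUnion]
    exact ⟨s, hs, Finset.mem_image_of_mem _ hj⟩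
  · have h1 : (minpoly (fixedField G) (b i * s)).coeff j = 0 := by
      apply Polynomial.coeff_eq_zero_of_natDegree_lt
      rw [Finset.mem_range] at hj
      omega
    rw [h1]
    exact Finset.mem_insert_of_mem (Finset.mem_insert_self _ _)

/-- The numerical dimension of a cover. -/
theorem cov_num {n d : ℕ} (hn : Algebra.trdeg k L = n) (hessL : Algebra.EssFiniteType k L)
    (G : Subgroup (L ≃ₐ[k] L)) [Finite G] (δ : Place k (fixedField G) → ℝ) (β : Place k L → ℝ)
    (hβ : ∀ v, IsDivisorial v n → ∀ w e, LiesOn w v e → β w ≤ 1 - e * (1 - δ v))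
    (h : PairNum k (fixedField G) n δ d) : PairNum k L n β d := by
  classical
  have hfin := fixed_finite G
  have := Fintype.ofFinite G
  obtain ⟨hnK, z, hz⟩ := Pool.Agent.W721.PG.EFF2.exists_basis (fixedField G) n hn
  have hessK : Algebra.EssFiniteType k (fixedField G) := ess_down hessL z hz
  choose ext hext hext2 hext3 using Pool.Agent.Y174.pEXT k (fixedField G) L n hnK
  obtain ⟨E, hE⟩ := Pool.Agent.W636.PG.exists_duals k (fixedField G) n z hz
  have hzL : IsTranscendenceBasis k (algebraMap (fixedField G) L ∘ z) := hz.algebraMap_comp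
  have hE' : ∀ i j, ext (E i) ((algebraMap (fixedField G) L ∘ z) j) = if i = j then 1 else 0 := by
    intro i j
    rw [Function.comp_apply, hext, hE]
    split_ifs <;> simp
  let b := Module.finBasis (fixedField G) L
  intro S
  obtain ⟨T, hT1, hT⟩ := exists_T G (fun i => b i) S
  obtain ⟨C, hC⟩ := h T
  refine ⟨Module.finrank (fixedField G) L * C, fun m N hm hI => ?_⟩
  obtain ⟨ω, hli, hω⟩ := hI
  have hf : LinearIndependent k fun l => ω l (fun j => ext (E j)) := by
    rw [Fintype.linearIndependent_iff] at hli ⊢
    intro c hc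
    apply hli
    funext D
    rw [Finset.sum_apply]
    simp only [Pi.smul_apply, Pi.zero_apply]
    have h4 : ∀ l, c l • ω l D = (Matrix.of fun i j => D i ((algebraMap (fixedField G) L ∘ z) j)).det ^ m *
        (c l • ω l (fun j => ext (E j))) := by
      intro l
      rw [Pool.Agent.W636.PG.form_eq k L n m _ hzL _ hE' (ω l) (hω l).1 D, mul_smul_comm]
    rw [Finset.sum_congr rfl fun l _ => h4 l, ← Finset.mul_sum, hc, mul_zero]
  have h1 := count_le (fun i => gtrL G (b i)) (fun z hz => gtr_nondeg G b hz) hf
    (B := C * m ^ d) (fun i M φ hφ => by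
      refine hC m M hm ⟨fun j D => gtrL G (b i) (ω (φ j) fun a => ext (D a)), ?_, fun j =>
        tr_sec hn hessL G hnK hessK δ β hβ ext hext hext2 hT1 (b i) (hT i) (hω (φ j))⟩
      rw [Fintype.linearIndependent_iff] at hφ ⊢
      intro c hc
      apply hφ
      have h2 := congrFun hc E
      rw [Finset.sum_apply] at h2
      exact h2)
  rw [Fintype.card_fin] at h1
  calc N ≤ _ := h1
    _ = _ := by ring

/-- High multiples without sections on a cover. -/
theorem cov_neg {n : ℕ} (hn : Algebra.trdeg k L = n) (hessL : Algebra.EssFiniteType k L)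
    (G : Subgroup (L ≃ₐ[k] L)) [Finite G] (δ : Place k (fixedField G) → ℝ) (β : Place k L → ℝ)
    (hβ : ∀ v, IsDivisorial v n → ∀ w e, LiesOn w v e → β w ≤ 1 - e * (1 - δ v))
    (h : NegB k (fixedField G) n δ) : NegB k L n β := by
  classical
  have hfin := fixed_finite G
  have := Fintype.ofFinite G
  obtain ⟨hnK, z, hz⟩ := Pool.Agent.W721.PG.EFF2.exists_basis (fixedField G) n hn
  have hessK : Algebra.EssFiniteType k (fixedField G) := ess_down hessL z hz
  choose ext hext hext2 hext3 using Pool.Agent.Y174.pEXT k (fixedField G) L n hnK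
  obtain ⟨E, hE⟩ := Pool.Agent.W636.PG.exists_duals k (fixedField G) n z hz
  have hzL : IsTranscendenceBasis k (algebraMap (fixedField G) L ∘ z) := hz.algebraMap_comp
  have hE' : ∀ i j, ext (E i) ((algebraMap (fixedField G) L ∘ z) j) = if i = j then 1 else 0 := by
    intro i j
    rw [Function.comp_apply, hext, hE]
    split_ifs <;> simp
  let b := Module.finBasis (fixedField G) L
  intro S
  obtain ⟨T, hT1, hT⟩ := exists_T G (fun i => b i) S
  obtain ⟨M0, hM0⟩ := h T
  refine ⟨M0, fun M hM ω hω => ?_⟩
  have h1 : ω (fun j => ext (E j)) = 0 := by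
    refine gtr_nondeg G b fun i => ?_
    have h2 := hM0 M hM _ (tr_sec hn hessL G hnK hessK δ β hβ ext hext hext2 hT1 (b i) (hT i) hω)
    exact congrFun h2 E
  funext D
  rw [Pool.Agent.W636.PG.form_eq k L n M _ hzL _ hE' ω hω.1 D, h1, mul_zero]
  rfl

end

end Pool.Agent.R885.N
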