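import Pool.Agent.R885.W1c

/-!
Pairs with a common Galois cover.
-/

set_option autoImplicit false
set_option linter.overlappingInstances false
set_option linter.unusedSectionVars false
set_option linter.unusedVariables false

open FF IntermediateField Pool.Agent.W602.GT Pool.Agent.W619.PQ Pool.Agent.W619.TW
  Pool.Agent.W603.LV Pool.Agent.W672.PG Pool.Agent.W824.PG Pool.Agent.Y172 Pool.Agent.Y191
  Pool.Agent.Y174

namespace Pool.Agent.R885.N

section

variable {k : Type} {L : Type} [Field k] [CharZero k] [Field L] [Algebra k L] {n : ℕ}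

theorem w2_neg (hn : Algebra.trdeg k L = n) (hess : Algebra.EssFiniteType k L)
    {G : Subgroup (L ≃ₐ[k] L)} [Finite G] {δ : Place k (fixedField G) → ℝ} {β : Place k L → ℝ}
    (hβ : ∀ v, IsDivisorial v n → ∀ w e, LiesOn w v e → 1 - e * (1 - δ v) ≤ β w)
    (h : NegB k L n β) : NegB k (fixedField G) n δ := by
  classical
  intro T
  have hfin := fixed_finite G
  obtain ⟨hnK, z, hz⟩ := Pool.Agent.W721.PG.EFF2.exists_basis (fixedField G) n hn
  have hessK : Algebra.EssFiniteType k (fixedField G) := ess_down hess z hz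
  obtain ⟨E, hE⟩ := Pool.Agent.W636.PG.exists_duals k (fixedField G) n z hz
  have hzL : IsTranscendenceBasis k (algebraMap (fixedField G) L ∘ z) := hz.algebraMap_comp
  obtain ⟨E', hE'⟩ := Pool.Agent.W636.PG.exists_duals k L n _ hzL
  have hdet : (Matrix.of fun a b => E' a (algebraMap (fixedField G) L (z b))).det = 1 := by
    have h1 : (Matrix.of fun a b => E' a (algebraMap (fixedField G) L (z b))) = 1 := by
      ext a b
      rw [Matrix.of_apply, Matrix.one_apply]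
      exact hE' a b
    rw [h1, Matrix.det_one]
  obtain ⟨M0, hM0⟩ := h (T.image (algebraMap (fixedField G) L))
  refine ⟨M0, fun M hM ω hω => ?_⟩
  have h1 := hM0 M hM _ (w0_pull hessK hnK hβ z E hz hE hω)
  have h2 := congrFun h1 E'
  simp only [hdet, one_pow, one_mul, Pi.zero_apply] at h2
  have h3 : ω E = 0 := (map_eq_zero (algebraMap (fixedField G) L)).1 h2
  funext D
  rw [Pool.Agent.W636.PG.form_eq k (fixedField G) n M z hz E hE ω hω.1 D, h3, mul_zero]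
  rfl

end

section

variable {L : Type} [Field L] [Algebra ℂ L] {n : ℕ}

/-- the covers -/
theorem w2_up (htr : Algebra.trdeg ℂ L = (n : ℕ)) (hess : Algebra.EssFiniteType ℂ L)
    {G : Subgroup (L ≃ₐ[ℂ] L)} [Finite G] {δ : Place ℂ (fixedField G) → ℚ} {β : Place ℂ L → ℚ}
    (hβ : ∀ Q, Divisorial n Q → ∀ (Q' : Place ℂ L) (e : ℕ), LiesOn Q' Q e →
      β Q' = 1 - e * (1 - δ Q))
    (h : PosB ℂ (fixedField G) n (fun P => ((δ P : ℚ) : ℝ)) ∨
      NegB ℂ (fixedField G) n (fun P => ((δ P : ℚ) : ℝ))) :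
    PosB ℂ L n (fun P => ((β P : ℚ) : ℝ)) ∨ NegB ℂ L n (fun P => ((β P : ℚ) : ℝ)) := by
  have hfin := fixed_finite G
  obtain ⟨hnK, z, hz⟩ := Pool.Agent.W721.PG.EFF2.exists_basis (fixedField G) n htr
  have hessK : Algebra.EssFiniteType ℂ (fixedField G) := ess_down hess z hz
  have hβ' : ∀ v, IsDivisorial v n → ∀ w e, LiesOn w v e →
      ((β w : ℚ) : ℝ) = 1 - e * (1 - ((δ v : ℚ) : ℝ)) := by
    intro v hv w e hwv
    rw [hβ v hv w e hwv]
    push_cast
    ring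
  rcases h with ⟨d, hdn, h3, h4⟩ | h3
  · exact Or.inl ⟨d, hdn, w0_up (δ := fun v => ((δ v : ℚ) : ℝ))
      (δ' := fun v => ((β v : ℚ) : ℝ)) hessK hnK (fun v hv w e hwv => (hβ' v hv w e hwv).ge) h3,
      cov_num htr hess G (fun v => ((δ v : ℚ) : ℝ)) (fun v => ((β v : ℚ) : ℝ))
        (fun v hv w e hwv => (hβ' v hv w e hwv).le) h4⟩
  · exact Or.inr (cov_neg htr hess G (fun v => ((δ v : ℚ) : ℝ)) (fun v => ((β v : ℚ) : ℝ))
        (fun v hv w e hwv => (hβ' v hv w e hwv).le) h3)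

/-- the quotients -/
theorem w2_down (htr : Algebra.trdeg ℂ L = (n : ℕ)) (hess : Algebra.EssFiniteType ℂ L)
    {G : Subgroup (L ≃ₐ[ℂ] L)} [Finite G] {δ : Place ℂ (fixedField G) → ℚ} {β : Place ℂ L → ℚ}
    (hβ : ∀ Q, Divisorial n Q → ∀ (Q' : Place ℂ L) (e : ℕ), LiesOn Q' Q e →
      β Q' = 1 - e * (1 - δ Q))
    (h : PosB ℂ L n (fun P => ((β P : ℚ) : ℝ)) ∨ NegB ℂ L n (fun P => ((β P : ℚ) : ℝ))) :
    PosB ℂ (fixedField G) n (fun P => ((δ P : ℚ) : ℝ)) ∨
      NegB ℂ (fixedField G) n (fun P => ((δ P : ℚ) : ℝ)) := by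
  have hfin := fixed_finite G
  obtain ⟨hnK, z, hz⟩ := Pool.Agent.W721.PG.EFF2.exists_basis (fixedField G) n htr
  have hessK : Algebra.EssFiniteType ℂ (fixedField G) := ess_down hess z hz
  have hβ' : ∀ v, IsDivisorial v n → ∀ w e, LiesOn w v e →
      ((β w : ℚ) : ℝ) = 1 - e * (1 - ((δ v : ℚ) : ℝ)) := by
    intro v hv w e hwv
    rw [hβ v hv w e hwv]
    push_cast
    ring
  rcases h with ⟨d, hdn, h3, h4⟩ | h3
  · exact Or.inl ⟨d, hdn, w0_desc htr hess G (fun v => ((δ v : ℚ) : ℝ))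
        (fun v => ((β v : ℚ) : ℝ)) (fun v hv w e hwv => (hβ' v hv w e hwv).le) h3,
      w0_num (δ := fun v => ((δ v : ℚ) : ℝ)) (δ' := fun v => ((β v : ℚ) : ℝ)) hessK hnK
        (fun v hv w e hwv => (hβ' v hv w e hwv).ge) h4⟩
  · exact Or.inr (w2_neg htr hess (δ := fun v => ((δ v : ℚ) : ℝ))
      (β := fun v => ((β v : ℚ) : ℝ)) (fun v hv w e hwv => (hβ' v hv w e hwv).ge) h3)

theorem quotW (htr : Algebra.trdeg ℂ L = (n : ℕ)) (hess : Algebra.EssFiniteType ℂ L)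
    {β : Place ℂ L → ℚ}
    (h : PosB ℂ L n (fun P => ((β P : ℚ) : ℝ)) ∨ NegB ℂ L n (fun P => ((β P : ℚ) : ℝ)))
    {G : Subgroup (L ≃ₐ[ℂ] L)} [Finite G] {N : ℕ} {y : Fin (N + 1) → fixedField G}
    {Δ : Place ℂ (fixedField G) → ℚ} (hy : IsQuotientPair β G y n Δ) :
    QData (n := n) G y Δ := by
  classical
  have hfin := fixed_finite G
  obtain ⟨hnK, z, hz⟩ := Pool.Agent.W721.PG.EFF2.exists_basis (fixedField G) n htr
  choose w e I hwv hcard hI using exists_inertia (k := ℂ) (L := L) G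
  have hl : ∀ v, LiesOn (w v) v (e v) := fun v => hwv v
  have he : ∀ v, (0 : ℚ) < e v := fun v => by
    have := (hl v).1
    exact_mod_cast this
  refine ⟨hnK, fun v => 1 - (1 - β (w v)) / (e v : ℚ), w2_down htr hess ?_ h, ?_, ?_⟩
  · intro Q hQ Q' e' hQ'
    have h1 : e Q = e' := index_unique (hl Q) hQ'
    have h2 := hy.invariant Q hQ Q' (w Q) e' (e Q) hQ' (hl Q)
    have h3 := (he Q).ne'
    rw [h2, ← h1]
    field_simp
    ring
  · intro P hP
    beta_reduce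
    have h1 := hy.mult P hP (w P) (e P) (hl P)
    have h3 := (he P).ne'
    rw [h1]
    have h4 : 1 - (1 - (1 - (e P : ℚ) * (1 - Δ P))) / (e P : ℚ) = Δ P := by
      field_simp
      ring
    rw [h4]
  · intro Q hQ
    rw [sub_sub_cancel]
    exact hy.disc Q hQ (w Q) (e Q) (hl Q)

/-- **Pairs with a common cover with a nondegenerate pair.** -/
theorem qfinalW {n q p : ℕ} (hn : 1 ≤ n) {M : Type} [Field M] [Algebra ℂ M]
    {G₁ : Subgroup (M ≃ₐ[ℂ] M)} [Finite G₁] (htr : Algebra.trdeg ℂ (fixedField G₁) = (n : ℕ))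
    {x : Fin (n + q) → fixedField G₁} (hx : ∀ i, x i ≠ 0)
    (hgen : IntermediateField.adjoin ℂ (Set.range x) = ⊤) {f : Fin q → (Fin (n + q) → ℤ) →₀ ℂ}
    (hf : ∀ l, ev x (f l) = 0) {h : Fin p → (Fin (n + q) → ℤ) →₀ ℂ} (hhx : ∀ j, ev x (h j) ≠ 0)
    (H : AlongP f h x) {A : (Fin (n + q) → ℤ) → ℚ} (hA : N.IsWeight A) {c : Fin p → ℚ}
    (hc : ∀ j, 0 ≤ c j ∧ c j ≤ 1) {β : Place ℂ M → ℚ}
    (hβ : ∀ Q, Divisorial n Q → ∀ (Q' : Place ℂ M) (e : ℕ), LiesOn Q' Q e →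
      β Q' = 1 - e * (1 - bdry A c x h Q)) {G₂ : Subgroup (M ≃ₐ[ℂ] M)} [Finite G₂] {N : ℕ}
    {y : Fin (N + 1) → fixedField G₂} {Δ : Place ℂ (fixedField G₂) → ℚ}
    (hy : IsQuotientPair β G₂ y n Δ) : QData (n := n) G₂ y Δ := by
  have hfin := fixed_finite G₁
  have hess1 : Algebra.EssFiniteType ℂ (fixedField G₁) := ess_of_gen hgen
  have hess : Algebra.EssFiniteType ℂ M := Algebra.EssFiniteType.comp ℂ (fixedField G₁) M
  have halg := Pool.Agent.W721.PG.EFF2.alg_fixed G₁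
  have htrM : Algebra.trdeg ℂ M = (n : ℕ) := by
    obtain ⟨z, hz⟩ := Pool.Agent.W636.PG.exists_basis ℂ (fixedField G₁) n htr
    have hzL : IsTranscendenceBasis ℂ (algebraMap (fixedField G₁) M ∘ z) := hz.algebraMap_comp
    have h1 := hzL.cardinalMk_eq_trdeg
    rw [Cardinal.mk_fin] at h1
    exact h1.symm
  exact quotW htrM hess (w2_up htrM hess hβ (pair_weightV hn htr hx hgen hf hhx H hA hc)) hy

end

end Pool.Agent.R885.N
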