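import Pool.Agent.R885.W2
import Pool.Agent.R885.V3b
import Pool.Agent.R885.V6
import Pool.Agent.R885.V7
import Pool.Agent.R885.V8n
import Pool.Agent.R885.T9

/-!
The value of the dimensions if the polytope is not empty.
-/

set_option autoImplicit false
set_option linter.overlappingInstances false
set_option linter.unusedSectionVars false

open FF IntermediateField Pool.Agent.W603.LV Pool.Agent.W619.PQ Pool.Agent.W619.PL
  Pool.Agent.Y173.QA Pool.Agent.W619.TW Pool.Agent.TH165.ACC Pool.Agent.TH122.AB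
  Pool.Agent.W619.Y Pool.Agent.W824.PG Pool.Agent.Y174

namespace Pool.Agent.R885.N

section

variable {k K : Type} [Field k] [CharZero k] [Field K] [Algebra k K] {n : ℕ}
  {β : Place k K → ℝ} {r q : ℕ} {J' : Type} [Fintype J'] {x : Fin r → K}
  {f : Fin q → (Fin r → ℤ) →₀ k} {y : J' → K} {cw : J' → ℚ} {A Ψ : (Fin r → ℤ) → ℚ}

/-- **The polytope is not empty.** -/
theorem VSys.pos_val [IsAlgClosed k] (hn : 1 ≤ n) (htr : Algebra.trdeg k K = (n : ℕ))
    (hB : VSys n β x f y cw A Ψ) (hF : (FineG A Ψ f).Nonempty) {d : ℕ}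
    (hd : Algebra.trdeg k (IntermediateField.adjoin k
      {z : K | ∃ w ∈ dirsG A Ψ f, z = mono x w}) = (d : ℕ)) :
    PairKod k K n β d ∧ PairNum k K n β d := by
  classical
  have hr := hB.hr
  have hx := hB.hx
  have hgen := hB.hgen
  have hf := hB.hf
  have hndf := hB.hnd
  have hβ1 := hB.le1
  have hf0 := hn_ne0 hndf hf
  have hdn : d ≤ n := by
    obtain ⟨d', hdn', hd'⟩ := t9_trdeg htr (IntermediateField.adjoin k
      {z : K | ∃ w ∈ dirsG A Ψ f, z = mono x w})
    rw [hd] at hd'
    have h1 : d = d' := by exact_mod_cast hd'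
    rw [h1]
    exact hdn'
  obtain ⟨u0, c, a', nn, S, hc, ha, hnnq, hF', hS, hcl, hpos, hdirs, -⟩ :=
    exists_tightV hf0 hB.A0 hB.A1 hB.AD hB.P0 hB.AP cw hF
  have hcq : (0 : ℚ) < c := by exact_mod_cast hc
  have hcr : (0 : ℝ) < c := by exact_mod_cast hc
  have hnnr : ∀ j, (nn j : ℝ) = c * ((cw j : ℚ) : ℝ) := fun j => by exact_mod_cast hnnq j
  have har : ∀ v, (a' v : ℝ) = c * ((A v + Ψ v : ℚ) : ℝ) := fun v => by exact_mod_cast ha v
  have hA2 : ∀ v w, v ≠ 0 → w ≠ 0 → v + w ≠ 0 → a' v + a' w - c ≤ a' (v + w) := by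
    intro v w hv hw hvw
    have h1 := mul_le_mul_of_nonneg_left (hB.AP v w hv hw hvw) hcq.le
    have h2 : (a' v : ℚ) + a' w - c ≤ a' (v + w) := by
      rw [ha, ha, ha]
      linarith
    exact_mod_cast h2
  have hA3 : ∀ (g : ℤ) v, 0 < g → v ≠ 0 → a' (g • v) ≤ g * a' v := by
    intro g v hg hv
    have h1 := hB.A3 g v hg hv
    have h2 : (a' (g • v) : ℚ) ≤ g * a' v := by
      rw [ha, ha, hB.P0.zsmul hg.le]
      have h3 := mul_le_mul_of_nonneg_left h1 hcq.le
      linarith
    exact_mod_cast h2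
  obtain ⟨t, htG, htind, htalg⟩ := exists_mono_basis hd
  choose w hw hwt using htG
  have hwS : ∀ j, ∀ s ∈ S, w j ⬝ᵥ s = 0 := fun j => (hdirs (w j)).1 (hw j)
  have htw : t = fun j => mono x (w j) := funext hwt
  obtain ⟨Z, hZ⟩ := Pool.Agent.W636.PG.exists_basis k K n htr
  obtain ⟨e, C0, hC0, hlow⟩ := hB.low
  obtain ⟨u1, c1, a1, nn1, hc1, ha1, hnn1, hF1, hFw1⟩ := exists_kodpt hB.AD hB.P0 cw hF hw
  refine ⟨kodV hx hgen hf hC0 hZ hf0 hB.hy hlow hc1 hnn1 (fun v _ => ha1 v) hF1 hFw1
    (by rw [← htw]; exact htind), ?_⟩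
  have hess : Algebra.EssFiniteType k K := by
    rw [← IntermediateField.fg_top_iff, ← hgen]
    exact ⟨Finset.univ.image x, by rw [Finset.coe_image, Finset.coe_univ, Set.image_univ]⟩
  have hG : ∀ P : Place k K, 0 < β P →
      ∃ g ∈ Finset.univ.image x ∪ Finset.univ.image y, P.ord g ≠ 0 := by
    intro P hP
    by_cases hv : vec P x = 0
    · by_contra hcon
      push Not at hcon
      have h1 := hB.up0 P hv
      unfold Th at h1
      rw [Finset.sum_eq_zero fun j _ => by
        rw [hcon _ (Finset.mem_union_right _ (Finset.mem_image_of_mem _ (Finset.mem_univ j))),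
          Int.cast_zero, mul_zero]] at h1
      linarith
    · obtain ⟨i, hi⟩ : ∃ i, vec P x i ≠ 0 := by
        by_contra hcon
        push Not at hcon
        exact hv (funext hcon)
      exact ⟨x i, Finset.mem_union_left _ (Finset.mem_image_of_mem _ (Finset.mem_univ i)), hi⟩
  clear e hC0 hlow
  rcases hdn.lt_or_eq with hlt | rfl
  · -- the generic fibre
    obtain ⟨m, rfl⟩ : ∃ m, n = d + (m + 1) := ⟨n - d - 1, by omega⟩
    refine pair_gen (h := 0) hess htind htr hG hβ1 ?_
    intro Λ F _ _ _ _ _ _ _ φ hφgen hΛF t' ht' htt' hcon δ' hδ'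
    have hinj : Function.Injective φ := (φ : K →+* F).injective
    have e' : (Fin q ⊕ Fin d) ⊕ Fin (m + 1) ≃ Fin r := Fintype.equivOfCardEq (by
      simp only [Fintype.card_sum, Fintype.card_fin]
      omega)
    have hmono : ∀ w' : Fin r → ℤ, φ (mono x w') = mono (fun i => φ (x i)) w' := fun w' =>
      map_mono (φ : K →+* F) x w'
    have hφx : ∀ i, φ (x i) ≠ 0 := by
      intro i h0
      exact hx i (hinj (by rw [h0, map_zero]))
    have hφy : ∀ j, φ (y j) ≠ 0 := by
      intro j h0
      exact hB.hy j (hinj (by rw [h0, map_zero]))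
    have hnnTh : ∀ P : Place Λ F, ((∑ j, nn j * P.ord (φ (y j)) : ℤ) : ℝ) =
        c * Th (fun j => φ (y j)) cw P := by
      intro P
      unfold Th
      push_cast
      rw [Finset.mul_sum]
      refine Finset.sum_congr rfl fun j _ => ?_
      rw [hnnr]
      ring
    refine pair_fibre_zeroV (k := k) (f := f) (S := S) (u0 := u0) (c := c)
      (a' := a') (nn := nn) (w := w) (t := t') (y := fun j => φ (y j))
      (x := fun i => φ (x i)) e' hΛF hφx ?_ hf0 ?_ hφy (hndf.gen F φ)
      (fun P => hndf.place Λ F φ P) hc hA2 hA3 (fun v hv _ => hF' v hv) hS hcl hpos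
      ?_ hwS ht' ?_ ?_ ?_ ?_ ?_
    · rw [eq_top_iff, ← hφgen, IntermediateField.adjoin_le_iff]
      rintro _ ⟨z, rfl⟩
      have hz : z ∈ IntermediateField.adjoin k (Set.range x) := by
        rw [hgen]
        trivial
      have h1 : IntermediateField.adjoin k (Set.range x) ≤
          ((IntermediateField.adjoin Λ (Set.range fun i => φ (x i))).restrictScalars k).comap
            φ := by
        rw [IntermediateField.adjoin_le_iff]
        rintro _ ⟨i, rfl⟩
        exact IntermediateField.subset_adjoin Λ _ ⟨i, rfl⟩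
      exact h1 hz
    · intro l
      rw [← map_ev, hf, map_zero]
    · intro j h0
      have h1 : t j = algebraMap k K 1 := by
        rw [hwt, h0, mono_zero, map_one]
      have h2 := htind.transcendental j
      rw [h1] at h2
      exact h2 (isAlgebraic_algebraMap 1)
    · intro j
      rw [htt', hwt, hmono]
    · intro w' hw'
      have h1 := htalg (mono x w') ⟨w', (hdirs w').2 hw', rfl⟩
      obtain ⟨a, ha⟩ := hcon _ h1
      exact ⟨a, by rw [ha, hmono]⟩
    · intro P
      rcases hδ' P with ⟨v, e, he, hv, hδ⟩ | h0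
      · rw [hδ]
        refine max_le zero_le_one ?_
        have h1 : (0 : ℝ) ≤ e * (1 - β v) :=
          mul_nonneg (Nat.cast_nonneg e) (sub_nonneg.2 (hβ1 v))
        linarith
      · rw [h0]
        exact zero_le_one
    · intro P hP
      rw [hnnTh]
      exact mul_le_mul_of_nonneg_left ((v8n_bound hB φ P (hδ' P)).1 hP) hcr.le
    · intro P hP0
      have h1 := mul_le_mul_of_nonneg_left ((v8n_bound hB φ P (hδ' P)).2 hP0) hcr.le
      have h2 : ((c - a' (vec P fun i => φ (x i)) + ∑ j, nn j * P.ord (φ (y j)) : ℤ) : ℝ) =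
          c * (1 - ((A (vec P fun i => φ (x i)) + Ψ (vec P fun i => φ (x i)) : ℚ) : ℝ) +
            Th (fun j => φ (y j)) cw P) := by
        rw [Int.cast_add, Int.cast_sub, hnnTh, har]
        ring
      exact h1.trans h2.symm.le
  · -- the top dimension
    exact pair_top hess htr hG hβ1

end

end Pool.Agent.R885.N
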