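import Pool.Agent.R885.W2
import Pool.Agent.R885.W3

/-!
Pairs with a common Galois cover with a nondegenerate pair, with the value of the dimensions.
-/

set_option autoImplicit false
set_option linter.overlappingInstances false
set_option linter.unusedSectionVars false

open FF IntermediateField Pool.Agent.W602.GT Pool.Agent.W603.LV Pool.Agent.W619.PQ
  Pool.Agent.Y173.QA Pool.Agent.W619.TW Pool.Agent.W619.Y Pool.Agent.Y172 Pool.Agent.Y191
  Pool.Agent.Y174

namespace Pool.Agent.R885.N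

/-- **The dichotomy for nondegenerate pairs, with the values.** -/
theorem pair_valV {k K : Type} [Field k] [CharZero k] [IsAlgClosed k] [Field K] [Algebra k K]
    {n q p : ℕ} (hn : 1 ≤ n) (htr : Algebra.trdeg k K = (n : ℕ)) {x : Fin (n + q) → K}
    (hx : ∀ i, x i ≠ 0) (hgen : IntermediateField.adjoin k (Set.range x) = ⊤)
    {f : Fin q → (Fin (n + q) → ℤ) →₀ k} (hf : ∀ l, ev x (f l) = 0)
    {h : Fin p → (Fin (n + q) → ℤ) →₀ k} (hhx : ∀ j, ev x (h j) ≠ 0) (H : AlongP f h x)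
    {A : (Fin (n + q) → ℤ) → ℚ} (hA : N.IsWeight A) {c : Fin p → ℚ}
    (hc : ∀ j, 0 ≤ c j ∧ c j ≤ 1) :
    (PosB k K n (fun P => ((bdry A c x h P : ℚ) : ℝ)) ∨
      NegB k K n (fun P => ((bdry A c x h P : ℚ) : ℝ))) ∧
      ((FineG A (fun v => ∑ j, c j * (mn v (h j) : ℚ)) f).Nonempty → ∀ d : ℕ,
        Algebra.trdeg k (IntermediateField.adjoin k {z : K |
          ∃ w ∈ dirsG A (fun v => ∑ j, c j * (mn v (h j) : ℚ)) f, z = mono x w}) = (d : ℕ) →
        PairKod k K n (fun P => ((bdry A c x h P : ℚ) : ℝ)) d ∧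
          PairNum k K n (fun P => ((bdry A c x h P : ℚ) : ℝ)) d) := by
  classical
  have hndf := hn_of_alongP' hx H
  have hndh := hn_of_alongP hx H
  have hf0 := hn_ne0 hndf hf
  have hh0 : ∀ j, h j ≠ 0 := by
    intro j h0
    apply hhx j
    rw [h0]
    unfold ev
    exact Finsupp.sum_zero_index
  have e : Fin q ⊕ Fin n ≃ Fin (n + q) := Fintype.equivOfCardEq (by
    rw [Fintype.card_sum, Fintype.card_fin, Fintype.card_fin, Fintype.card_fin, add_comm])
  obtain ⟨C0, hC0⟩ := exists_C0 hx e hf0 hf hndf.self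
  have hlow := base_low hx hf0 hf hC0 hh0 hhx (fun P => hndf.places P)
    (fun P V => (hndh V).places P) fun j => (hc j).2
  have hP0 : PLin fun v => ∑ j, c j * (mn v (h j) : ℚ) := PLin.of_sum hh0 fun j => (hc j).1
  have hge : ∀ (P : Place k K) j, mn (vec P x) (h j) ≤ P.ord (ev x (h j)) := fun P j =>
    (ge_mn P hx (h j)).resolve_left (hhx j)
  have hth : ∀ P : Place k K, ((∑ j, c j * (mn (vec P x) (h j) : ℚ) : ℚ) : ℝ) ≤
      Th (fun j => ev x (h j)) c P := by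
    intro P
    unfold Th
    push_cast
    refine Finset.sum_le_sum fun j _ => mul_le_mul_of_nonneg_left ?_ ?_
    · exact_mod_cast hge P j
    · exact_mod_cast (hc j).1
  have hB : VSys n (fun P => ((bdry A c x h P : ℚ) : ℝ)) x f (fun j => ev x (h j)) c A
      (fun v => ∑ j, c j * (mn v (h j) : ℚ)) := by
    refine
      { hr := rfl
        hx := hx
        hgen := hgen
        hf := hf
        hy := hhx
        hnd := hndf
        A0 := hA.nonneg
        A1 := hA.le_one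
        AD := hA.denom
        A3 := hA.smul
        P0 := hP0
        AP := ?_
        le1 := ?_
        low := ⟨e, C0, hC0, fun P hP D hD hO => ?_⟩
        th0 := ?_
        th1 := fun P _ => hth P
        up0 := ?_
        up1 := ?_ }
    · intro v w hv hw hvw
      have h1 := hA.add v w hv hw hvw
      have h2 := hP0.superadd v w
      linarith
    · intro P
      have h1 : bdry A c x h P ≤ 1 := v14_bdry_le hA.nonneg fun j => (hc j).2
      exact_mod_cast h1
    · have h1 := hlow P hP D hD hO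
      beta_reduce at h1
      have h2 : ∑ j, ((c j : ℚ) : ℝ) * (P.ord (ev x (h j)) : ℝ) =
          Th (fun j => ev x (h j)) c P := rfl
      rw [h2] at h1
      beta_reduce
      by_cases hv : vec P x = 0
      · rw [if_pos hv] at h1 ⊢
        rw [v14_zero_eq (A' := fun _ => 1) hv]
        have h3 : ∑ j, ((c j : ℚ) : ℝ) * (mn (vec P x) (h j) : ℝ) = 0 := by
          refine Finset.sum_eq_zero fun j _ => ?_
          rw [hv, mn_zero (hh0 j), Int.cast_zero, mul_zero]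
        rw [h3] at h1
        linarith
      · rw [if_neg hv] at h1 ⊢
        rw [bdry_ne hv, sub_self, Rat.cast_zero] at h1
        rw [bdry_ne hv]
        push_cast at h1 ⊢
        linarith
    · intro P hv
      have h1 := hth P
      rw [Finset.sum_eq_zero fun j _ => by rw [hv, mn_zero (hh0 j), Int.cast_zero, mul_zero],
        Rat.cast_zero] at h1
      exact h1
    · intro P hv
      have h1 := bdry_up0 hx hh0 hhx (fun j => (hc j).1) P hv
      rw [v14_zero_eq (A' := fun _ => 1) hv]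
      have h3 := (Rat.cast_le (K := ℝ)).2 h1
      unfold Th
      push_cast at h3 ⊢
      exact h3
    · intro P hv
      have h1 := hth P
      rw [bdry_ne hv]
      push_cast at h1 ⊢
      linarith
  exact ⟨VSys.all hn htr q _ q _ x f _ _ _ _ hB le_rfl, fun hF d hd =>
    hB.pos_val hn htr hF hd⟩


end Pool.Agent.R885.N

open FF IntermediateField Pool.Agent.W602.GT Pool.Agent.W619.PQ Pool.Agent.W619.TW
  Pool.Agent.W603.LV Pool.Agent.W672.PG Pool.Agent.W824.PG Pool.Agent.Y172 Pool.Agent.Y191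
  Pool.Agent.Y174

namespace Pool.Agent.R885.N

section

variable {L : Type} [Field L] [Algebra ℂ L] {n : ℕ}

/-- the data at the quotient, with the value `d` -/
def QVal {n N : ℕ} (G : Subgroup (L ≃ₐ[ℂ] L)) (y : Fin (N + 1) → fixedField G)
    (Δ : Place ℂ (fixedField G) → ℚ) (d : ℕ) : Prop :=
  Algebra.trdeg ℂ (fixedField G) = (n : ℕ) ∧ ∃ δ : Place ℂ (fixedField G) → ℚ,
    (PairKod ℂ (fixedField G) n (fun P => ((δ P : ℚ) : ℝ)) d ∧
      PairNum ℂ (fixedField G) n (fun P => ((δ P : ℚ) : ℝ)) d) ∧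
      (∀ P, IsPrimeDivisor y P → δ P ≤ Δ P) ∧
      ∀ Q, Divisorial n Q → LogDisc y n Δ Q (1 - δ Q)

theorem w4_up (htr : Algebra.trdeg ℂ L = (n : ℕ)) (hess : Algebra.EssFiniteType ℂ L)
    {G : Subgroup (L ≃ₐ[ℂ] L)} [Finite G] {δ : Place ℂ (fixedField G) → ℚ} {β : Place ℂ L → ℚ}
    (hβ : ∀ Q, Divisorial n Q → ∀ (Q' : Place ℂ L) (e : ℕ), LiesOn Q' Q e →
      β Q' = 1 - e * (1 - δ Q)) {d : ℕ}
    (h3 : PairKod ℂ (fixedField G) n (fun P => ((δ P : ℚ) : ℝ)) d)
    (h4 : PairNum ℂ (fixedField G) n (fun P => ((δ P : ℚ) : ℝ)) d) :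
    PairKod ℂ L n (fun P => ((β P : ℚ) : ℝ)) d ∧ PairNum ℂ L n (fun P => ((β P : ℚ) : ℝ)) d := by
  have hfin := fixed_finite G
  obtain ⟨hnK, z, hz⟩ := Pool.Agent.W721.PG.EFF2.exists_basis (fixedField G) n htr
  have hessK : Algebra.EssFiniteType ℂ (fixedField G) := ess_down hess z hz
  have hβ' : ∀ v, IsDivisorial v n → ∀ w e, LiesOn w v e →
      ((β w : ℚ) : ℝ) = 1 - e * (1 - ((δ v : ℚ) : ℝ)) := by
    intro v hv w e hwv
    rw [hβ v hv w e hwv]
    push_cast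
    ring
  exact ⟨w0_up (δ := fun v => ((δ v : ℚ) : ℝ))
      (δ' := fun v => ((β v : ℚ) : ℝ)) hessK hnK (fun v hv w e hwv => (hβ' v hv w e hwv).ge) h3,
      cov_num htr hess G (fun v => ((δ v : ℚ) : ℝ)) (fun v => ((β v : ℚ) : ℝ))
        (fun v hv w e hwv => (hβ' v hv w e hwv).le) h4⟩

theorem w4_down (htr : Algebra.trdeg ℂ L = (n : ℕ)) (hess : Algebra.EssFiniteType ℂ L)
    {G : Subgroup (L ≃ₐ[ℂ] L)} [Finite G] {δ : Place ℂ (fixedField G) → ℚ} {β : Place ℂ L → ℚ}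
    (hβ : ∀ Q, Divisorial n Q → ∀ (Q' : Place ℂ L) (e : ℕ), LiesOn Q' Q e →
      β Q' = 1 - e * (1 - δ Q)) {d : ℕ}
    (h3 : PairKod ℂ L n (fun P => ((β P : ℚ) : ℝ)) d)
    (h4 : PairNum ℂ L n (fun P => ((β P : ℚ) : ℝ)) d) :
    PairKod ℂ (fixedField G) n (fun P => ((δ P : ℚ) : ℝ)) d ∧
      PairNum ℂ (fixedField G) n (fun P => ((δ P : ℚ) : ℝ)) d := by
  have hfin := fixed_finite G
  obtain ⟨hnK, z, hz⟩ := Pool.Agent.W721.PG.EFF2.exists_basis (fixedField G) n htr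
  have hessK : Algebra.EssFiniteType ℂ (fixedField G) := ess_down hess z hz
  have hβ' : ∀ v, IsDivisorial v n → ∀ w e, LiesOn w v e →
      ((β w : ℚ) : ℝ) = 1 - e * (1 - ((δ v : ℚ) : ℝ)) := by
    intro v hv w e hwv
    rw [hβ v hv w e hwv]
    push_cast
    ring
  exact ⟨w0_desc htr hess G (fun v => ((δ v : ℚ) : ℝ))
        (fun v => ((β v : ℚ) : ℝ)) (fun v hv w e hwv => (hβ' v hv w e hwv).le) h3,
      w0_num (δ := fun v => ((δ v : ℚ) : ℝ)) (δ' := fun v => ((β v : ℚ) : ℝ)) hessK hnK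
        (fun v hv w e hwv => (hβ' v hv w e hwv).ge) h4⟩

theorem quotW_val (htr : Algebra.trdeg ℂ L = (n : ℕ)) (hess : Algebra.EssFiniteType ℂ L)
    {β : Place ℂ L → ℚ} {d : ℕ}
    (h3 : PairKod ℂ L n (fun P => ((β P : ℚ) : ℝ)) d)
    (h4 : PairNum ℂ L n (fun P => ((β P : ℚ) : ℝ)) d)
    {G : Subgroup (L ≃ₐ[ℂ] L)} [Finite G] {N : ℕ} {y : Fin (N + 1) → fixedField G}
    {Δ : Place ℂ (fixedField G) → ℚ} (hy : IsQuotientPair β G y n Δ) :
    QVal (n := n) G y Δ d := by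
  classical
  have hfin := fixed_finite G
  obtain ⟨hnK, z, hz⟩ := Pool.Agent.W721.PG.EFF2.exists_basis (fixedField G) n htr
  choose w e I hwv hcard hI using exists_inertia (k := ℂ) (L := L) G
  have hl : ∀ v, LiesOn (w v) v (e v) := fun v => hwv v
  have he : ∀ v, (0 : ℚ) < e v := fun v => by
    have := (hl v).1
    exact_mod_cast this
  refine ⟨hnK, fun v => 1 - (1 - β (w v)) / (e v : ℚ), w4_down htr hess ?_ h3 h4, ?_, ?_⟩
  · intro Q hQ Q' e' hQ'
    have h1 : e Q = e' := index_unique (hl Q) hQ'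
    have h2 := hy.invariant Q hQ Q' (w Q) e' (e Q) hQ' (hl Q)
    have h3 := (he Q).ne'
    rw [h2, ← h1]
    field_simp
    ring
  · intro P hP
    beta_reduce
    have h1 := hy.mult P hP (w P) (e P) (hl P)
    have h3 := (he P).ne'
    rw [h1]
    have h4 : 1 - (1 - (1 - (e P : ℚ) * (1 - Δ P))) / (e P : ℚ) = Δ P := by
      field_simp
      ring
    rw [h4]
  · intro Q hQ
    rw [sub_sub_cancel]
    exact hy.disc Q hQ (w Q) (e Q) (hl Q)

/-- **Pairs with a common cover with a nondegenerate pair: the value.** -/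
theorem qvalW {n q p : ℕ} (hn : 1 ≤ n) {M : Type} [Field M] [Algebra ℂ M]
    {G₁ : Subgroup (M ≃ₐ[ℂ] M)} [Finite G₁] (htr : Algebra.trdeg ℂ (fixedField G₁) = (n : ℕ))
    {x : Fin (n + q) → fixedField G₁} (hx : ∀ i, x i ≠ 0)
    (hgen : IntermediateField.adjoin ℂ (Set.range x) = ⊤) {f : Fin q → (Fin (n + q) → ℤ) →₀ ℂ}
    (hf : ∀ l, ev x (f l) = 0) {h : Fin p → (Fin (n + q) → ℤ) →₀ ℂ} (hhx : ∀ j, ev x (h j) ≠ 0)
    (H : AlongP f h x) {A : (Fin (n + q) → ℤ) → ℚ} (hA : N.IsWeight A) {c : Fin p → ℚ}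
    (hc : ∀ j, 0 ≤ c j ∧ c j ≤ 1) {β : Place ℂ M → ℚ}
    (hβ : ∀ Q, Divisorial n Q → ∀ (Q' : Place ℂ M) (e : ℕ), LiesOn Q' Q e →
      β Q' = 1 - e * (1 - bdry A c x h Q)) {G₂ : Subgroup (M ≃ₐ[ℂ] M)} [Finite G₂] {N : ℕ}
    {y : Fin (N + 1) → fixedField G₂} {Δ : Place ℂ (fixedField G₂) → ℚ}
    (hy : IsQuotientPair β G₂ y n Δ)
    (hF : (FineG A (fun v => ∑ j, c j * (mn v (h j) : ℚ)) f).Nonempty) {d : ℕ}
    (hd : Algebra.trdeg ℂ (IntermediateField.adjoin ℂ {z : fixedField G₁ |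
      ∃ w ∈ dirsG A (fun v => ∑ j, c j * (mn v (h j) : ℚ)) f, z = mono x w}) = (d : ℕ)) :
    QVal (n := n) G₂ y Δ d := by
  have hfin := fixed_finite G₁
  have hess1 : Algebra.EssFiniteType ℂ (fixedField G₁) := ess_of_gen hgen
  have hess : Algebra.EssFiniteType ℂ M := Algebra.EssFiniteType.comp ℂ (fixedField G₁) M
  have htrM : Algebra.trdeg ℂ M = (n : ℕ) := by
    obtain ⟨z, hz⟩ := Pool.Agent.W636.PG.exists_basis ℂ (fixedField G₁) n htr
    have hzL : IsTranscendenceBasis ℂ (algebraMap (fixedField G₁) M ∘ z) := hz.algebraMap_comp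
    have h1 := hzL.cardinalMk_eq_trdeg
    rw [Cardinal.mk_fin] at h1
    exact h1.symm
  obtain ⟨h1, h2⟩ := (pair_valV hn htr hx hgen hf hhx H hA hc).2 hF d hd
  obtain ⟨h3, h4⟩ := w4_up htrM hess hβ h1 h2
  exact quotW_val htrM hess h3 h4 hy

theorem QVal.dims {L : Type} [Field L] [Algebra ℂ L] {n N d : ℕ} {G : Subgroup (L ≃ₐ[ℂ] L)}
    {y : Fin (N + 1) → fixedField G} {Δ : Place ℂ (fixedField G) → ℚ}
    (h : QVal (n := n) G y Δ d) (hy : NormalModel y) (hΔ : Effective y Δ) :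
    kodairaDim y n Δ = (d : WithBot ℕ) ∧
      ∀ A, Effective y A → Integral y A → numericalDim y n Δ A = (d : EReal) := by
  obtain ⟨htr, δ, ⟨h3, h4⟩, hm, hdisc⟩ := h
  exact dims_pair htr hy hΔ hm hdisc h3 h4

end

end Pool.Agent.R885.N
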