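import Pool.Agent.R885.W4
import Pool.Agent.Y172.Cov1

/-!
General finite covers of pairs.
-/

set_option autoImplicit false
set_option linter.overlappingInstances false
set_option linter.unusedSectionVars false
set_option linter.unusedVariables false

open FF IntermediateField Pool.Agent.W619.PQ Pool.Agent.W619.PL Pool.Agent.W619.TW
  Pool.Agent.W603.LV Pool.Agent.W619.Y Pool.Agent.W672.PG Pool.Agent.W824.PG Pool.Agent.Y174

namespace Pool.Agent.R885.N

section

variable {k : Type} [Field k] [CharZero k] {K L : Type} [Field K] [Field L] [Algebra k K]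
  [Algebra k L] [Algebra K L] [IsScalarTower k K L]

/-- the place below is unique -/
theorem over_uniq {w : Place k L} {v v' : Place k K} {e e' : ℕ} (h : LiesOn w v e)
    (h' : LiesOn w v' e') : e = e' ∧ v = v' := by
  obtain ⟨t, ht0, ht⟩ := v.surj
  obtain ⟨t', ht0', ht'⟩ := v'.surj
  have h1 : (e : ℤ) = e' * v'.ord t := by
    have h2 := h.2 t
    rw [h'.2, ht, mul_one] at h2
    exact h2.symm
  have h2 : (e' : ℤ) = e * v.ord t' := by
    have h3 := h'.2 t'
    rw [h.2, ht', mul_one] at h3
    exact h3.symm
  have he : (0 : ℤ) < e := by exact_mod_cast h.1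
  have he' : (0 : ℤ) < e' := by exact_mod_cast h'.1
  have h3 : (e : ℤ) = e' := by
    have h4 : 0 < v'.ord t := by
      by_contra hcon
      push Not at hcon
      nlinarith
    have h5 : 0 < v.ord t' := by
      by_contra hcon
      push Not at hcon
      nlinarith
    nlinarith
  have h4 : e = e' := by exact_mod_cast h3
  refine ⟨h4, ?_⟩
  subst h4
  ext f
  have h5 := h.2 f
  rw [h'.2 f] at h5
  exact (mul_left_cancel₀ he.ne' h5).symm

theorem over_comp2 {M : Type} [Field M] [Algebra k M] [Algebra L M] [Algebra K M]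
    [IsScalarTower K L M] {u : Place k M} {w : Place k L} {v : Place k K} {e e' : ℕ}
    (h : LiesOn u w e) (h' : LiesOn w v e') : LiesOn u v (e * e') := by
  refine ⟨Nat.mul_pos h.1 h'.1, fun f => ?_⟩
  rw [IsScalarTower.algebraMap_apply K L M, h.2, h'.2]
  push_cast
  ring

/-- Pull-back and `NegB`. -/
theorem neg_pull [FiniteDimensional K L] (hess : Algebra.EssFiniteType k K) {n : ℕ}
    (hn : Algebra.trdeg k K = n) {δ : Place k K → ℝ} {β : Place k L → ℝ}
    (hβ : ∀ v, IsDivisorial v n → ∀ w e, LiesOn w v e → 1 - e * (1 - δ v) ≤ β w)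
    (h : NegB k L n β) : NegB k K n δ := by
  classical
  intro T
  obtain ⟨z, hz⟩ := Pool.Agent.W636.PG.exists_basis k K n hn
  obtain ⟨E, hE⟩ := Pool.Agent.W636.PG.exists_duals k K n z hz
  have hzL : IsTranscendenceBasis k (algebraMap K L ∘ z) := hz.algebraMap_comp
  obtain ⟨E', hE'⟩ := Pool.Agent.W636.PG.exists_duals k L n _ hzL
  have hdet : (Matrix.of fun a b => E' a (algebraMap K L (z b))).det = 1 := by
    have h1 : (Matrix.of fun a b => E' a (algebraMap K L (z b))) = 1 := by
      ext a b
      rw [Matrix.of_apply, Matrix.one_apply]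
      exact hE' a b
    rw [h1, Matrix.det_one]
  obtain ⟨M0, hM0⟩ := h (T.image (algebraMap K L))
  refine ⟨M0, fun M hM ω hω => ?_⟩
  have h1 := hM0 M hM _ (w0_pull hess hn hβ z E hz hE hω)
  have h2 := congrFun h1 E'
  simp only [hdet, one_pow, one_mul, Pi.zero_apply] at h2
  have h3 : ω E = 0 := (map_eq_zero (algebraMap K L)).1 h2
  funext D
  rw [Pool.Agent.W636.PG.form_eq k K n M z hz E hE ω hω.1 D, h3, mul_zero]
  rfl

/-- The Galois closure. -/
theorem exists_closure [FiniteDimensional K L] : ∃ (N : Type) (_ : Field N) (_ : Algebra k N)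
    (_ : Algebra K N) (_ : Algebra L N) (_ : IsScalarTower k K N) (_ : IsScalarTower k L N)
    (_ : IsScalarTower K L N) (_ : FiniteDimensional K N) (G : Subgroup (N ≃ₐ[k] N))
    (_ : Finite G) (_ : Algebra (fixedField G) K) (_ : IsScalarTower k (fixedField G) K)
    (_ : FiniteDimensional (fixedField G) K),
    (∀ f : fixedField G, algebraMap K N (algebraMap (fixedField G) K f) =
      algebraMap (fixedField G) N f) ∧
      Function.Surjective (algebraMap (fixedField G) K) := by
  classical
  have hcK : CharZero K := charZero_of_injective_algebraMap (algebraMap k K).injective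
  let Ω := IntermediateField.normalClosure K L (AlgebraicClosure L)
  let ik : Algebra k Ω := ((algebraMap K Ω).comp (algebraMap k K)).toAlgebra
  have htow : IsScalarTower k K Ω := IsScalarTower.of_algebraMap_eq fun _ => rfl
  have hfin : FiniteDimensional K Ω := inferInstance
  have hnorm : Normal K Ω := inferInstance
  have hgal : IsGalois K Ω := IsGalois.mk
  have htow3 : IsScalarTower K L Ω := inferInstance
  have htow2 : IsScalarTower k L Ω := IsScalarTower.of_algebraMap_eq fun c => by
    rw [IsScalarTower.algebraMap_apply k K L, ← IsScalarTower.algebraMap_apply K L Ω]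
    rfl
  let G : Subgroup (Ω ≃ₐ[k] Ω) := (AlgEquiv.restrictScalarsHom k : (Ω ≃ₐ[K] Ω) →* _).range
  have hG : Finite G := by
    have h1 : Finite (Ω ≃ₐ[K] Ω) := inferInstance
    exact Finite.of_surjective _ (MonoidHom.rangeRestrict_surjective _)
  have hmem : ∀ c : K, algebraMap K Ω c ∈ fixedField G := by
    rintro c ⟨g, σ, rfl⟩
    exact σ.commutes c
  let ψ : K →ₐ[k] fixedField G :=
    { toFun := fun c => ⟨algebraMap K Ω c, hmem c⟩
      map_one' := Subtype.ext (map_one _)
      map_mul' := fun a b => Subtype.ext (map_mul _ _ _)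
      map_zero' := Subtype.ext (map_zero _)
      map_add' := fun a b => Subtype.ext (map_add _ _ _)
      commutes' := fun a => Subtype.ext rfl }
  have hψ : Function.Bijective ψ := by
    refine ⟨(ψ : K →+* fixedField G).injective, fun z => ?_⟩
    have h1 : (z : Ω) ∈ Set.range (algebraMap K Ω) := by
      refine (IsGalois.mem_range_algebraMap_iff_fixed _).2 fun g => ?_
      exact z.2 ⟨_, ⟨g, rfl⟩⟩
    obtain ⟨c, hc⟩ := h1
    exact ⟨c, Subtype.ext hc⟩
  let φ : fixedField G ≃ₐ[k] K := (AlgEquiv.ofBijective ψ hψ).symm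
  let ia : Algebra (fixedField G) K := (φ : fixedField G →+* K).toAlgebra
  have hsurj : Function.Surjective (algebraMap (fixedField G) K) := φ.surjective
  refine ⟨Ω, inferInstance, ik, inferInstance, inferInstance, htow, htow2, htow3, hfin, G, hG, ia,
    IsScalarTower.of_algebraMap_eq fun c => (φ.commutes c).symm, ?_, ?_, hsurj⟩
  · refine Module.Finite.of_surjective (Algebra.linearMap (fixedField G) K) hsurj
  · intro f
    have h1 : ψ (φ f) = f := (AlgEquiv.ofBijective ψ hψ).apply_symm_apply f
    exact congrArg Subtype.val h1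

end

end Pool.Agent.R885.N
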