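import Pool.Agent.R885.W5

/-!
General finite covers of pairs.
-/

set_option autoImplicit false
set_option linter.overlappingInstances false
set_option linter.unusedSectionVars false
set_option linter.unusedVariables false

open FF IntermediateField Pool.Agent.W619.PQ Pool.Agent.W619.PL Pool.Agent.W619.TW
  Pool.Agent.W603.LV Pool.Agent.W619.Y Pool.Agent.W672.PG Pool.Agent.W824.PG Pool.Agent.Y174

namespace Pool.Agent.R885.N

section

variable {k : Type} [Field k] [CharZero k] {K L : Type} [Field K] [Field L] [Algebra k K]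
  [Algebra k L] [Algebra K L] [IsScalarTower k K L] [FiniteDimensional K L]

theorem w6_trdeg {n : ℕ} (hn : Algebra.trdeg k K = n) : Algebra.trdeg k L = n := by
  obtain ⟨z, hz⟩ := Pool.Agent.W636.PG.exists_basis k K n hn
  have hzL : IsTranscendenceBasis k (algebraMap K L ∘ z) := hz.algebraMap_comp
  have h1 := hzL.cardinalMk_eq_trdeg
  rw [Cardinal.mk_fin] at h1
  exact h1.symm

theorem w6_ess (hess : Algebra.EssFiniteType k K) : Algebra.EssFiniteType k L :=
  Algebra.EssFiniteType.comp k K L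

/-- The equivalence for finite covers. -/
theorem fin_all (hess : Algebra.EssFiniteType k K) {n : ℕ}
    (hn : Algebra.trdeg k K = n) {δ : Place k K → ℝ} {δ' : Place k L → ℝ}
    (hδ' : ∀ v, IsDivisorial v n → ∀ w e, LiesOn w v e → δ' w = 1 - e * (1 - δ v)) :
    (∀ A, PairKod k L n δ' A ↔ PairKod k K n δ A) ∧
      (∀ A, PairNum k L n δ' A ↔ PairNum k K n δ A) ∧ (NegB k L n δ' ↔ NegB k K n δ) := by
  classical
  obtain ⟨N, iN, ikN, iKN, iLN, t1, t2, t3, hfin, G, hG, ia, t4, hfin2, hφ, hsurj⟩ :=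
    exists_closure (k := k) (K := K) (L := L)
  have hfinL : FiniteDimensional L N := FiniteDimensional.right K L N
  have hnL : Algebra.trdeg k L = n := w6_trdeg (K := K) hn
  have hnN : Algebra.trdeg k N = n := w6_trdeg (K := K) hn
  have hessL : Algebra.EssFiniteType k L := w6_ess (K := K) hess
  have hessN : Algebra.EssFiniteType k N := w6_ess (K := K) hess
  have halg := Pool.Agent.W721.PG.EFF2.alg_fixed G
  have hfinG := fixed_finite G
  obtain ⟨hnF, z, hz⟩ := Pool.Agent.W721.PG.EFF2.exists_basis (fixedField G) n hnN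
  have hessF : Algebra.EssFiniteType k (fixedField G) := ess_down hessN z hz
  -- the multiplicities
  choose eN vN hvN using fun w : Place k N =>
    Pool.Agent.W73.PG.PULL.exists_over' (K := K) w
  obtain ⟨δN, hδN⟩ : ∃ δN : Place k N → ℝ, δN = fun w => 1 - eN w * (1 - δ (vN w)) := ⟨_, rfl⟩
  have hδN' : ∀ (v : Place k K) (w : Place k N) e, LiesOn w v e → δN w = 1 - e * (1 - δ v) := by
    intro v w e h
    obtain ⟨h1, h2⟩ := over_uniq h (hvN w)
    rw [hδN, h1, h2]
  choose wF eF hwF using fun v : Place k (fixedField G) =>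
    Pool.Agent.Y172.exists_above (k := k) (K := fixedField G) (L := K) v
  obtain ⟨δF, hδF⟩ : ∃ δF : Place k (fixedField G) → ℝ, δF = fun v => δ (wF v) := ⟨_, rfl⟩
  -- over the fixed field
  have h1F : ∀ (v : Place k (fixedField G)) (w : Place k K) e, LiesOn w v e →
      e = 1 ∧ w = wF v := by
    intro v w e h
    have h1 : ∀ (u : Place k K) a, LiesOn u v a → a = 1 := by
      intro u a hu
      obtain ⟨t, ht0, ht⟩ := u.surj
      obtain ⟨s, hs⟩ := hsurj t
      rw [← hs, hu.2] at ht
      have h2 : (a : ℤ) ∣ 1 := ⟨_, ht.symm⟩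
      have h3 := Int.natAbs_dvd_natAbs.2 h2
      simpa using h3
    refine ⟨h1 w e h, ?_⟩
    ext f
    obtain ⟨s, hs⟩ := hsurj f
    rw [← hs, h.2, (hwF v).2, h1 w e h, h1 _ _ (hwF v)]
  have h2F : ∀ (v : Place k (fixedField G)) (w : Place k N) e, LiesOn w v e →
      LiesOn w (wF v) e := by
    intro v w e h
    refine ⟨h.1, fun f => ?_⟩
    obtain ⟨s, hs⟩ := hsurj f
    rw [← hs, hφ, h.2, (hwF v).2, (h1F v (wF v) (eF v) (hwF v)).1, Nat.cast_one, one_mul]
  have h3F : ∀ v, IsDivisorial v n → ∀ (w : Place k N) e, LiesOn w v e →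
      δN w = 1 - e * (1 - δF v) := by
    intro v hv w e h
    rw [hδF]
    exact hδN' _ _ _ (h2F v w e h)
  have h4F : ∀ v, IsDivisorial v n → ∀ (w : Place k K) e, LiesOn w v e →
      1 - e * (1 - δF v) ≤ δ w := by
    intro v hv w e h
    obtain ⟨h1, h2⟩ := h1F v w e h
    rw [h1, h2, hδF]
    simp
  have h5L : ∀ v, IsDivisorial v n → ∀ (w : Place k N) e, LiesOn w v e →
      1 - e * (1 - δ' v) ≤ δN w := by
    intro v hv w e h
    obtain ⟨e', u, hu⟩ := Pool.Agent.W73.PG.PULL.exists_over' (K := K) v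
    have hu' := Pool.Agent.Y174.pDIVI k K L n u v e' hu hv
    rw [hδ' u hu' v e' hu, hδN' u w _ (over_comp2 h hu)]
    push_cast
    apply le_of_eq
    ring
  refine ⟨fun A => ⟨fun h => ?_, fun h => ?_⟩, fun A => ⟨fun h => ?_, fun h => ?_⟩,
    fun h => ?_, fun h => ?_⟩
  · have h1 := w0_up (K := L) (L := N) hessL hnL h5L h
    have h2 := w0_desc hnN hessN G δF δN (fun v hv w e hw => (h3F v hv w e hw).le) h1
    exact w0_up (K := fixedField G) (L := K) hessF hnF h4F h2
  · exact w0_up hess hn (fun v hv w e hw => (hδ' v hv w e hw).ge) h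
  · exact w0_num hess hn (fun v hv w e hw => (hδ' v hv w e hw).ge) h
  · have h1 := w0_num (K := fixedField G) (L := K) hessF hnF h4F h
    have h2 := cov_num hnN hessN G δF δN (fun v hv w e hw => (h3F v hv w e hw).le) h1
    exact w0_num (K := L) (L := N) hessL hnL h5L h2
  · exact neg_pull hess hn (fun v hv w e hw => (hδ' v hv w e hw).ge) h
  · have h1 := neg_pull (K := fixedField G) (L := K) hessF hnF h4F h
    have h2 := cov_neg hnN hessN G δF δN (fun v hv w e hw => (h3F v hv w e hw).le) h1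
    exact neg_pull (K := L) (L := N) hessL hnL h5L h2

end

end Pool.Agent.R885.N
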