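import Pool.Agent.R885.W6
import Pool.Agent.R885.DX

/-!
Pairs with a common finite cover with a nondegenerate pair.
-/

set_option autoImplicit false
set_option linter.overlappingInstances false
set_option linter.unusedSectionVars false
set_option linter.unusedVariables false

open FF IntermediateField Pool.Agent.W602.GT Pool.Agent.W619.PQ Pool.Agent.W619.TW
  Pool.Agent.W603.LV Pool.Agent.W672.PG Pool.Agent.W824.PG Pool.Agent.Y172 Pool.Agent.Y191
  Pool.Agent.Y174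

namespace Pool.Agent.R885.N

section

variable {k K : Type} [Field k] [Field K] [Algebra k K] {n : ℕ} {δ δ' : Place k K → ℝ}

theorem sec_mono (h : ∀ v, IsDivisorial v n → δ v ≤ δ' v) {S : Finset K} {m j : ℕ}
    {ω : (Fin n → Derivation k K K) → K} (hω : PairSec k K n δ S m j ω) :
    PairSec k K n δ' S m j ω := by
  refine ⟨hω.1, fun v hv D hD => ?_⟩
  rcases hω.2 v hv D hD with h1 | ⟨s, hs, hs0, h1⟩
  · exact Or.inl h1
  · refine Or.inr ⟨s, hs, hs0, h1.trans' ?_⟩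
    have h2 := mul_le_mul_of_nonneg_left (h v hv) (Nat.cast_nonneg (α := ℝ) m)
    linarith

theorem kod_mono (h : ∀ v, IsDivisorial v n → δ v ≤ δ' v) {d : ℕ} (h1 : PairKod k K n δ d) :
    PairKod k K n δ' d := by
  obtain ⟨m, hm, ω, hω, D, hD, hind⟩ := h1
  exact ⟨m, hm, ω, fun l => sec_mono h (hω l), D, hD, hind⟩

end

section

variable {k : Type} [Field k] [CharZero k] {K L : Type} [Field K] [Field L] [Algebra k K]
  [Algebra k L] [Algebra K L] [IsScalarTower k K L] [FiniteDimensional K L]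

/-- Descent of sections to a subfield of finite index. -/
theorem fin_down (hess : Algebra.EssFiniteType k K) {n : ℕ}
    (hn : Algebra.trdeg k K = n) {δ : Place k K → ℝ} {δ' : Place k L → ℝ}
    (hδ' : ∀ v, IsDivisorial v n → ∀ w e, LiesOn w v e → δ' w ≤ 1 - e * (1 - δ v)) {d : ℕ}
    (h : PairKod k L n δ' d) : PairKod k K n δ d := by
  choose e v hv using fun w : Place k L => Pool.Agent.W73.PG.PULL.exists_over' (K := K) w
  have h1 : ∀ v', IsDivisorial v' n → ∀ (w : Place k L) e', LiesOn w v' e' →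
      (fun w => 1 - (e w : ℝ) * (1 - δ (v w))) w = 1 - e' * (1 - δ v') := by
    intro v' hv' w e' hw
    obtain ⟨h2, h3⟩ := over_uniq hw (hv w)
    beta_reduce
    rw [h2, h3]
  refine ((fin_all hess hn h1).1 d).1 (kod_mono (fun w hw => ?_) h)
  exact hδ' (v w) (Pool.Agent.Y174.pDIVI k K L n (v w) w (e w) (hv w) hw) w (e w) (hv w)

/-- the bounds for the multiplicities -/
theorem exists_bounds (β : Place k L → ℚ) (v : Place k K) : ∃ a b : ℚ,
    (∀ w e, LiesOn w v e → a ≤ 1 - (1 - β w) / e ∧ 1 - (1 - β w) / e ≤ b) ∧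
      ∃ w e, LiesOn w v e ∧ a = 1 - (1 - β w) / e := by
  classical
  obtain ⟨S, T, hS, hT, -⟩ := exists_places_over (K' := L) v
  obtain ⟨w0, e0, hw0⟩ := Pool.Agent.Y172.exists_above (k := k) (K := K) (L := L) v
  have hne : (S.filter fun w => ∃ e, LiesOn w v e).Nonempty :=
    ⟨w0, Finset.mem_filter.2 ⟨hS w0 e0 hw0, e0, hw0⟩⟩
  choose! e he using fun (w : Place k L) (hw : ∃ e, LiesOn w v e) => hw
  obtain ⟨a, ha, hamin⟩ := Finset.exists_min_image _ (fun w => 1 - (1 - β w) / (e w : ℚ)) hne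
  obtain ⟨b, hb, hbmax⟩ := Finset.exists_max_image _ (fun w => 1 - (1 - β w) / (e w : ℚ)) hne
  refine ⟨1 - (1 - β a) / (e a : ℚ), 1 - (1 - β b) / (e b : ℚ), fun w e' hw => ?_,
    a, e a, he a (Finset.mem_filter.1 ha).2, rfl⟩
  have h1 : w ∈ S.filter fun w => ∃ e, LiesOn w v e :=
    Finset.mem_filter.2 ⟨hS w e' hw, e', hw⟩
  have h2 : e' = e w := (over_uniq hw (he w ⟨e', hw⟩)).1
  rw [h2]
  exact ⟨hamin w h1, hbmax w h1⟩

end

section

variable {K : Type} [Field K] [Algebra ℂ K] {n N : ℕ} {y : Fin (N + 1) → K} {Δ : Place ℂ K → ℚ}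

/-- sections on `X` are sections over all models -/
theorem kod_exact (htr : Algebra.trdeg ℂ K = (n : ℕ)) (hy : NormalModel y)
    {δ₁ δ₂ : Place ℂ K → ℚ} (hm : ∀ P, IsPrimeDivisor y P → δ₁ P ≤ Δ P)
    (hdisc : ∀ Q, Divisorial n Q → LogDisc y n Δ Q (1 - δ₂ Q)) {d : ℕ}
    (h : PairKod ℂ K n (fun P => ((δ₁ P : ℚ) : ℝ)) d) :
    PairKod ℂ K n (fun P => ((δ₂ P : ℚ) : ℝ)) d := by
  classical
  obtain ⟨x, E, hx, hE⟩ := exists_crd htr
  have hfr : IsFrame E := fun G =>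
    ⟨fun j => G (x j), (Pool.Agent.W73.PG.PULL.expand x hx E hE G).symm⟩
  obtain ⟨m, hm1, ω, hω, D, hD, hind⟩ := h
  refine ⟨m, hm1, ω, fun l => ⟨(hω l).1, fun Q hQ E' hE' => ?_⟩, D, hD, hind⟩
  by_cases h0 : ω l E' = 0
  · exact Or.inl h0
  right
  refine ⟨1, Finset.mem_singleton_self _, one_ne_zero, ?_⟩
  obtain ⟨j, hj⟩ := exists_centred hy Q
  have hA0 : Effective y (0 : Place ℂ K → ℚ) := ⟨fun _ _ => le_rfl, by simp⟩
  obtain ⟨s, hs, hs0, hsQ⟩ := disc_bound (n := n) (Δ := Δ) hy hA0 hfr j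
  have hsec : ∀ t : ℕ, 1 ≤ t →
      IsSection y n (m * t) ((m * t) • Δ + 0) (fun E => ω l E ^ t) := by
    intro t ht
    refine ⟨?_, fun P hP E₁ hE₁ => ?_⟩
    · intro B E₁
      have h2 := (hω l).1 B E₁
      beta_reduce
      rw [h2, mul_pow, ← pow_mul]
    · by_cases h1 : ω l E₁ = 0
      · left
        beta_reduce
        rw [h1, zero_pow (by omega)]
      right
      rcases (hω l).2 P (hP.divisorial hy htr) E₁ hE₁ with h3 | ⟨s', hs', hs0', h3⟩
      · exact absurd h3 h1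
      beta_reduce
      rw [P.ord_pow, add_zero, Pi.smul_apply, nsmul_eq_mul]
      simp only [Nat.cast_zero, zero_mul, zero_sub] at h3
      have h4 : (-(m * δ₁ P) : ℚ) ≤ (P.ord (ω l E₁) : ℚ) := by
        have h5 : ((-(m * δ₁ P) : ℚ) : ℝ) ≤ ((P.ord (ω l E₁) : ℚ) : ℝ) := by
          push_cast
          exact h3
        exact_mod_cast h5
      have h5 := mul_le_mul_of_nonneg_left (hm P hP) (Nat.cast_nonneg (α := ℚ) m)
      have h6 : (-(m * Δ P) : ℚ) ≤ (P.ord (ω l E₁) : ℚ) := by linarith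
      have h7 := mul_le_mul_of_nonneg_left h6 (Nat.cast_nonneg (α := ℚ) t)
      push_cast
      linarith
  by_contra hcon
  push Not at hcon
  simp only [Nat.cast_zero, zero_mul, zero_sub] at hcon
  have hcon' : (Q.ord (ω l E') : ℚ) + m * δ₂ Q < 0 := by
    have h1 : (((Q.ord (ω l E') : ℚ) + m * δ₂ Q : ℚ) : ℝ) < ((0 : ℚ) : ℝ) := by
      push_cast
      linarith
    exact_mod_cast h1
  obtain ⟨t, ht⟩ := exists_nat_gt (((Q.ord s : ℤ) : ℚ) / (-((Q.ord (ω l E') : ℚ) + m * δ₂ Q)))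
  have hpos : (0 : ℚ) < -((Q.ord (ω l E') : ℚ) + m * δ₂ Q) := by linarith
  rw [div_lt_iff₀ hpos] at ht
  have h1 := hsQ Q hj (1 - δ₂ Q) (hdisc Q hQ) (m * (t + 1)) (Nat.mul_pos hm1 (by omega)) _
    (hsec (t + 1) (by omega)) E' hE'
  rcases h1 with h1 | h1
  · exact h0 (pow_eq_zero_iff (by omega) |>.1 h1)
  · rw [Q.ord_pow] at h1
    push_cast at h1
    nlinarith

end

end Pool.Agent.R885.N
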