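import Pool.Agent.R885.W7

/-!
Pairs with a common finite cover with a nondegenerate pair: the final statements.
-/

set_option autoImplicit false
set_option linter.overlappingInstances false
set_option linter.unusedSectionVars false
set_option linter.unusedVariables false

open FF IntermediateField Pool.Agent.W602.GT Pool.Agent.W619.PQ Pool.Agent.W619.TW
  Pool.Agent.W603.LV Pool.Agent.W672.PG Pool.Agent.W824.PG Pool.Agent.Y172 Pool.Agent.Y191
  Pool.Agent.Y174

namespace Pool.Agent.R885.N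

section

variable {K M : Type} [Field K] [Field M] [Algebra ℂ K] [Algebra ℂ M] [Algebra K M]
  [IsScalarTower ℂ K M]

/-- `(X, Δ)` is a projective pair with function field `K`, and `β` gives the multiplicities of the
pull-back of the boundary to the finite extension `M` of `K`, `K_M + β = π^* (K_X + Δ)`: for the
prime divisors `P` of `X` and the places `P'` of `M` over `P`, with the ramification index `e`, we
have `β P' = 1 - e (1 - Δ P)`, and the log discrepancy along a divisor `Q` over `X` is at least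
`(1 - β Q') / e`, for the places `Q'` of `M` over `Q`, with the ramification index `e`. -/
structure IsPulledBack (β : Place ℂ M → ℚ) {N : ℕ} (y : Fin (N + 1) → K) (n : ℕ)
    (Δ : Place ℂ K → ℚ) : Prop where
  normal : NormalModel y
  effective : Effective y Δ
  mult : ∀ P, IsPrimeDivisor y P → ∀ (P' : Place ℂ M) (e : ℕ), LiesOn P' P e →
    β P' = 1 - e * (1 - Δ P)
  disc : ∀ Q, Divisorial n Q → ∀ (Q' : Place ℂ M) (e : ℕ), LiesOn Q' Q e →
    LogDisc y n Δ Q ((1 - β Q') / e)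

/-- The data on `X`. -/
def PData {n N : ℕ} (y : Fin (N + 1) → K) (Δ : Place ℂ K → ℚ) (H : (Place ℂ K → ℝ) → Prop) :
    Prop :=
  Algebra.trdeg ℂ K = (n : ℕ) ∧ ∃ δ : Place ℂ K → ℚ, H (fun P => ((δ P : ℚ) : ℝ)) ∧
      (∀ P, IsPrimeDivisor y P → δ P ≤ Δ P) ∧
      ∀ Q, Divisorial n Q → LogDisc y n Δ Q (1 - δ Q)

variable [FiniteDimensional K M] {n : ℕ}

theorem pulled_data (hess : Algebra.EssFiniteType ℂ K) (htr : Algebra.trdeg ℂ K = (n : ℕ))
    {β : Place ℂ M → ℚ} {N : ℕ} {y : Fin (N + 1) → K} {Δ : Place ℂ K → ℚ}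
    (hy : IsPulledBack β y n Δ) : ∃ δ : Place ℂ K → ℚ,
      (∀ d, PairKod ℂ M n (fun P => ((β P : ℚ) : ℝ)) d →
        PairKod ℂ K n (fun P => ((δ P : ℚ) : ℝ)) d) ∧
      (∀ d, PairNum ℂ M n (fun P => ((β P : ℚ) : ℝ)) d →
        PairNum ℂ K n (fun P => ((δ P : ℚ) : ℝ)) d) ∧
      (NegB ℂ M n (fun P => ((β P : ℚ) : ℝ)) → NegB ℂ K n (fun P => ((δ P : ℚ) : ℝ))) ∧
      (∀ P, IsPrimeDivisor y P → δ P ≤ Δ P) ∧
      ∀ Q, Divisorial n Q → LogDisc y n Δ Q (1 - δ Q) := by
  classical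
  choose a b hab w e hw ha using fun v : Place ℂ K => exists_bounds (L := M) β v
  have hmult : ∀ P, IsPrimeDivisor y P → ∀ (P' : Place ℂ M) (e : ℕ), LiesOn P' P e →
      1 - (1 - β P') / e = Δ P := by
    intro P hP P' e' h
    have he : (0 : ℚ) < e' := by
      have := h.1
      exact_mod_cast this
    rw [hy.mult P hP P' e' h]
    have := he.ne'
    field_simp
    ring
  have hm2 : ∀ P, IsPrimeDivisor y P → a P ≤ Δ P := by
    intro P hP
    rw [ha, hmult P hP (w P) (e P) (hw P)]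
  have hd2 : ∀ Q, Divisorial n Q → LogDisc y n Δ Q (1 - a Q) := by
    intro Q hQ
    rw [ha, sub_sub_cancel]
    exact hy.disc Q hQ (w Q) (e Q) (hw Q)
  have hlow : ∀ v, IsDivisorial v n → ∀ (w : Place ℂ M) e, LiesOn w v e →
      1 - (e : ℝ) * (1 - ((a v : ℚ) : ℝ)) ≤ ((β w : ℚ) : ℝ) := by
    intro v _ w' e' h
    have he : (0 : ℚ) < e' := by
      have := h.1
      exact_mod_cast this
    have h1 := (hab v w' e' h).1
    have h2 : 1 - (e' : ℚ) * (1 - a v) ≤ β w' := by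
      have h3 : (1 - β w') / e' ≤ 1 - a v := by linarith
      rw [div_le_iff₀ he] at h3
      linarith
    exact_mod_cast h2
  refine ⟨a, fun d h => ?_, fun d h => ?_, fun h => ?_, hm2, hd2⟩
  · refine kod_exact htr hy.normal (δ₁ := fun Q => if IsPrimeDivisor y Q then Δ Q else b Q)
      (fun P hP => by rw [if_pos hP]) hd2 ?_
    refine fin_down (L := M) hess htr ?_ h
    intro v _ w' e' h'
    have he : (0 : ℚ) < e' := by
      have := h'.1
      exact_mod_cast this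
    have h2 : β w' ≤ 1 - (e' : ℚ) * (1 - if IsPrimeDivisor y v then Δ v else b v) := by
      by_cases hv : IsPrimeDivisor y v
      · rw [if_pos hv, hy.mult v hv w' e' h']
      · rw [if_neg hv]
        have h1 := (hab v w' e' h').2
        have h3 : 1 - b v ≤ (1 - β w') / e' := by linarith
        rw [le_div_iff₀ he] at h3
        linarith
    exact_mod_cast h2
  · exact w0_num hess htr hlow h
  · exact neg_pull hess htr hlow h

end

section

/-- **Pairs with a common finite cover with a nondegenerate pair.** -/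
theorem qfinalX {n q p : ℕ} (hn : 1 ≤ n) {K L M : Type} [Field K] [Field L] [Field M]
    [Algebra ℂ K] [Algebra ℂ L] [Algebra ℂ M] [Algebra K M] [Algebra L M] [IsScalarTower ℂ K M]
    [IsScalarTower ℂ L M] [FiniteDimensional K M] [FiniteDimensional L M]
    (htr : Algebra.trdeg ℂ L = (n : ℕ)) {x : Fin (n + q) → L} (hx : ∀ i, x i ≠ 0)
    (hgen : IntermediateField.adjoin ℂ (Set.range x) = ⊤) {f : Fin q → (Fin (n + q) → ℤ) →₀ ℂ}
    (hf : ∀ l, ev x (f l) = 0) {h : Fin p → (Fin (n + q) → ℤ) →₀ ℂ} (hhx : ∀ j, ev x (h j) ≠ 0)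
    (H : AlongP f h x) {A : (Fin (n + q) → ℤ) → ℚ} (hA : N.IsWeight A) {c : Fin p → ℚ}
    (hc : ∀ j, 0 ≤ c j ∧ c j ≤ 1) {β : Place ℂ M → ℚ}
    (hβ : ∀ Q, Divisorial n Q → ∀ (Q' : Place ℂ M) (e : ℕ), LiesOn Q' Q e →
      β Q' = 1 - e * (1 - bdry A c x h Q)) {N : ℕ} {y : Fin (N + 1) → K} {Δ : Place ℂ K → ℚ}
    (hy : IsPulledBack β y n Δ) :
    PData (n := n) y Δ (fun δ => PosB ℂ K n δ ∨ NegB ℂ K n δ) ∧
      ((FineG A (fun v => ∑ j, c j * (mn v (h j) : ℚ)) f).Nonempty → ∀ d : ℕ,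
        Algebra.trdeg ℂ (IntermediateField.adjoin ℂ {z : L |
          ∃ w ∈ dirsG A (fun v => ∑ j, c j * (mn v (h j) : ℚ)) f, z = mono x w}) = (d : ℕ) →
        PData (n := n) y Δ (fun δ => PairKod ℂ K n δ d ∧ PairNum ℂ K n δ d)) := by
  classical
  have hessL : Algebra.EssFiniteType ℂ L := ess_of_gen hgen
  have hessM : Algebra.EssFiniteType ℂ M := w6_ess (K := L) hessL
  have htrM : Algebra.trdeg ℂ M = (n : ℕ) := w6_trdeg (K := L) htr
  obtain ⟨z, hz⟩ := Pool.Agent.W636.PG.exists_basis ℂ M n htrM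
  have htrK : Algebra.trdeg ℂ K = (n : ℕ) := by
    have h1 := trdeg_add_eq ℂ K (A := M)
    have h2 : Algebra.trdeg K M = 0 := trdeg_eq_zero
    rw [h2, add_zero, htrM] at h1
    exact h1
  obtain ⟨z', hz'⟩ := Pool.Agent.W636.PG.exists_basis ℂ K n htrK
  have hessK : Algebra.EssFiniteType ℂ K := ess_down hessM z' hz'
  have hβ' : ∀ v, IsDivisorial v n → ∀ (w : Place ℂ M) e, LiesOn w v e →
      (fun P => ((β P : ℚ) : ℝ)) w = 1 - e * (1 - (fun P => ((bdry A c x h P : ℚ) : ℝ)) v) := by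
    intro v hv w e hwv
    beta_reduce
    rw [hβ v hv w e hwv]
    push_cast
    ring
  obtain ⟨k1, k2, k3⟩ := fin_all (K := L) (L := M) hessL htr hβ'
  obtain ⟨δ, d1, d2, d3, d4, d5⟩ := pulled_data hessK htrK hy
  obtain ⟨hP, hV⟩ := pair_valV hn htr hx hgen hf hhx H hA hc
  refine ⟨⟨htrK, δ, ?_, d4, d5⟩, fun hF d hd => ⟨htrK, δ, ?_, d4, d5⟩⟩
  · rcases hP with ⟨d, hd, h1, h2⟩ | h1
    · exact Or.inl ⟨d, hd, d1 d ((k1 d).2 h1), d2 d ((k2 d).2 h2)⟩
    · exact Or.inr (d3 (k3.2 h1))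
  · obtain ⟨h1, h2⟩ := hV hF d hd
    exact ⟨d1 d ((k1 d).2 h1), d2 d ((k2 d).2 h2)⟩

end

end Pool.Agent.R885.N
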