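import Pool.Agent.R885.W8

/-!
Pairs which are commensurable with nondegenerate pairs, for the hand-ins.
-/

set_option autoImplicit false
set_option linter.overlappingInstances false
set_option linter.unusedSectionVars false
set_option linter.unusedVariables false

open FF IntermediateField Pool.Agent.W602.GT Pool.Agent.W619.PQ Pool.Agent.W619.TW
  Pool.Agent.W603.LV Pool.Agent.W672.PG Pool.Agent.W824.PG Pool.Agent.Y172 Pool.Agent.Y191
  Pool.Agent.Y174

namespace Pool.Agent.R885.N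

section

variable {K L : Type} [Field K] [Field L] [Algebra ℂ K] [Algebra ℂ L]

/-- `(X, Δ)` is a projective pair with function field `K`, and `K_X + Δ` and `K + Δ₀` have the same
pull-back to the common finite extension `M` of `K` and `L`, where `b` gives the multiplicities of
`Δ₀`: if the place `P'` of `M` lies over the prime divisor `P` of `X` and over the place `Q` of `L`,
with the ramification indices `e` and `e'`, then `e (1 - Δ P) = e' (1 - b Q)`. For all divisors `P`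
over `X`, the log discrepancy of `(X, Δ)` along `P` is at least `e' (1 - b Q) / e`. -/
structure IsCommensurable (M : Type) [Field M] [Algebra ℂ M] [Algebra K M] [Algebra L M]
    (b : Place ℂ L → ℚ) {N : ℕ} (y : Fin (N + 1) → K) (n : ℕ) (Δ : Place ℂ K → ℚ) : Prop where
  normal : NormalModel y
  effective : Effective y Δ
  mult : ∀ P, IsPrimeDivisor y P → ∀ (P' : Place ℂ M) (Q : Place ℂ L) (e e' : ℕ),
    LiesOn P' P e → LiesOn P' Q e' → (e : ℚ) * (1 - Δ P) = e' * (1 - b Q)
  disc : ∀ P, Divisorial n P → ∀ (P' : Place ℂ M) (Q : Place ℂ L) (e e' : ℕ),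
    LiesOn P' P e → LiesOn P' Q e' → LogDisc y n Δ P (e' * (1 - b Q) / e)

/-- **Pairs which are commensurable with nondegenerate pairs.** -/
theorem qfinalY {n q p : ℕ} (hn : 1 ≤ n) {M : Type} [Field M] [Algebra ℂ M] [Algebra K M]
    [Algebra L M] [IsScalarTower ℂ K M] [IsScalarTower ℂ L M] [FiniteDimensional K M]
    [FiniteDimensional L M] (htr : Algebra.trdeg ℂ L = (n : ℕ)) {x : Fin (n + q) → L}
    (hx : ∀ i, x i ≠ 0) (hgen : IntermediateField.adjoin ℂ (Set.range x) = ⊤)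
    {f : Fin q → (Fin (n + q) → ℤ) →₀ ℂ} (hf : ∀ l, ev x (f l) = 0)
    {h : Fin p → (Fin (n + q) → ℤ) →₀ ℂ} (hhx : ∀ j, ev x (h j) ≠ 0)
    (H : AlongP f h x) {A : (Fin (n + q) → ℤ) → ℚ} (hA : N.IsWeight A) {c : Fin p → ℚ}
    (hc : ∀ j, 0 ≤ c j ∧ c j ≤ 1) {N : ℕ} {y : Fin (N + 1) → K} {Δ : Place ℂ K → ℚ}
    (hy : IsCommensurable M (bdry A c x h) y n Δ) :
    PData (n := n) y Δ (fun δ => PosB ℂ K n δ ∨ NegB ℂ K n δ) ∧
      ((FineG A (fun v => ∑ j, c j * (mn v (h j) : ℚ)) f).Nonempty → ∀ d : ℕ,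
        Algebra.trdeg ℂ (IntermediateField.adjoin ℂ {z : L |
          ∃ w ∈ dirsG A (fun v => ∑ j, c j * (mn v (h j) : ℚ)) f, z = mono x w}) = (d : ℕ) →
        PData (n := n) y Δ (fun δ => PairKod ℂ K n δ d ∧ PairNum ℂ K n δ d)) := by
  choose e v hv using fun w : Place ℂ M => Pool.Agent.W73.PG.PULL.exists_over' (K := L) w
  refine qfinalX (M := M) (β := fun w => 1 - (e w : ℚ) * (1 - bdry A c x h (v w))) hn htr hx hgen
    hf hhx H hA hc ?_ ⟨hy.normal, hy.effective, ?_, ?_⟩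
  · intro Q hQ Q' e' hQ'
    obtain ⟨h1, h2⟩ := over_uniq hQ' (hv Q')
    beta_reduce
    rw [h1, h2]
  · intro P hP P' e' hP'
    beta_reduce
    rw [hy.mult P hP P' (v P') e' (e P') hP' (hv P')]
  · intro P hP P' e' hP'
    beta_reduce
    rw [sub_sub_cancel]
    exact hy.disc P hP P' (v P') e' (e P') hP' (hv P')

/-- the value -/
theorem PData.dims {n N d : ℕ} {y : Fin (N + 1) → K} {Δ : Place ℂ K → ℚ}
    (h : PData (n := n) y Δ (fun δ => PairKod ℂ K n δ d ∧ PairNum ℂ K n δ d))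
    (hy : NormalModel y) (hΔ : Effective y Δ) : kodairaDim y n Δ = (d : WithBot ℕ) ∧
      ∀ A, Effective y A → Integral y A → numericalDim y n Δ A = (d : EReal) := by
  obtain ⟨htr, δ, ⟨h3, h4⟩, hm, hdisc⟩ := h
  exact dims_pair htr hy hΔ hm hdisc h3 h4

theorem PData.equal {n N : ℕ} {y : Fin (N + 1) → K} {Δ : Place ℂ K → ℚ}
    (h : PData (n := n) y Δ (fun δ => PosB ℂ K n δ ∨ NegB ℂ K n δ))
    (hy : NormalModel y) (hΔ : Effective y Δ) : EqualDims y n Δ := by
  obtain ⟨htr, δ, hδ, hm, hdisc⟩ := h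
  exact equalB htr hδ hy hΔ hm hdisc

end

end Pool.Agent.R885.N
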